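import Pool.Agent.MG.G0.StmtsS

/-!
# AID (ADD1): the powers of the ideal of a formal point
-/

open TensorProduct

namespace Pool.Agent.MG.G0

namespace AID

section

variable {A R : Type} [CommRing A] [CommRing R] [Algebra A R] (h : R →ₐ[A] PowerSeries A)

/-- The value at a formal point. -/
noncomputable def ev (r : R) : A := PowerSeries.constantCoeff (h r)

/-- The ideal of a formal point. -/
noncomputable def idl : Ideal R :=
  RingHom.ker ((PowerSeries.constantCoeff (R := A)).comp (h : R →+* PowerSeries A))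

theorem mem_idl {r : R} : r ∈ idl h ↔ ev h r = 0 := Iff.rfl

/-- `r - r(p)` -/
noncomputable def er (r : R) : R := r - algebraMap A R (ev h r)

theorem ev_algebraMap (a : A) : ev h (algebraMap A R a) = a := by
  rw [ev, AlgHom.commutes, PowerSeries.algebraMap_apply]
  simp

theorem ev_sub (r s : R) : ev h (r - s) = ev h r - ev h s := by
  rw [ev, map_sub, map_sub]
  rfl

theorem ev_add (r s : R) : ev h (r + s) = ev h r + ev h s := by
  rw [ev, map_add, map_add]
  rfl

theorem ev_mul (r s : R) : ev h (r * s) = ev h r * ev h s := by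
  rw [ev, map_mul, map_mul]
  rfl

theorem er_mem (r : R) : er h r ∈ idl h := by
  rw [mem_idl, er, ev_sub, ev_algebraMap, sub_self]

theorem er_of_mem {r : R} (hr : r ∈ idl h) : er h r = r := by
  rw [er, (mem_idl h).1 hr, map_zero, sub_zero]

theorem mul_mem_sq {r s : R} (hr : r ∈ idl h) (hs : s ∈ idl h) : r * s ∈ idl h ^ 2 := by
  rw [pow_two]
  exact Ideal.mul_mem_mul hr hs

theorem coeff_one_mul (f g : PowerSeries A) : PowerSeries.coeff 1 (f * g) =
    PowerSeries.constantCoeff f * PowerSeries.coeff 1 g +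
      PowerSeries.constantCoeff g * PowerSeries.coeff 1 f := by
  rw [PowerSeries.coeff_mul]
  simp [Finset.Nat.antidiagonal_succ]
  ring

theorem coeff_one_algebraMap (a : A) :
    PowerSeries.coeff 1 (h (algebraMap A R a)) = 0 := by
  rw [AlgHom.commutes, PowerSeries.algebraMap_apply]
  simp

theorem eps_expand {n : ℕ} {D : Fin n → Derivation A R R} {g : Fin n → R} (hS : Stmt_SCO)
    (hc : IsCert A R D g) (r : R) :
    PowerSeries.coeff 1 (h r) = ∑ i, ev h (D i r) * PowerSeries.coeff 1 (h (g i)) := by
  let _ : Algebra R A := RingHom.toAlgebra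
    ((PowerSeries.constantCoeff (R := A)).comp (h : R →+* PowerSeries A))
  have hsm : ∀ (r : R) (a : A), r • a = ev h r * a := fun r a => rfl
  have _ : IsScalarTower A R A := ⟨fun a r b => by
    rw [hsm, hsm, Algebra.smul_def, ev_mul, ev_algebraMap, smul_eq_mul, mul_assoc]⟩
  let E : Derivation A R A := Derivation.mk'
    ((PowerSeries.coeff (R := A) 1).comp h.toLinearMap) (fun r s => by
      rw [hsm, hsm]
      change PowerSeries.coeff 1 (h (r * s)) = _ * PowerSeries.coeff 1 (h s) +
        _ * PowerSeries.coeff 1 (h r)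
      rw [map_mul, coeff_one_mul]
      rfl)
  exact (hS.1 D g hc).2 A E r

/-- `r ↦ r - r(p)` as a derivation. -/
noncomputable def delta : Derivation A R (R ⧸ idl h ^ 2) := Derivation.mk'
    { toFun := fun r => Ideal.Quotient.mk (idl h ^ 2) (er h r)
      map_add' := fun r s => by
        rw [← map_add]
        congr 1
        rw [er, er, er, ev_add, map_add]
        ring
      map_smul' := fun a r => by
        rw [RingHom.id_apply, Algebra.smul_def a (Ideal.Quotient.mk (idl h ^ 2) (er h r))]
        change _ = Ideal.Quotient.mk (idl h ^ 2) (algebraMap A R a) * _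
        rw [← map_mul]
        congr 1
        rw [er, er, Algebra.smul_def, ev_mul, ev_algebraMap, map_mul]
        ring }
    (fun r s => by
      change Ideal.Quotient.mk (idl h ^ 2) (er h (r * s)) =
        Ideal.Quotient.mk (idl h ^ 2) (r * er h s) + Ideal.Quotient.mk (idl h ^ 2) (s * er h r)
      rw [← map_add, Ideal.Quotient.mk_eq_mk_iff_sub_mem]
      have e : er h (r * s) - (r * er h s + s * er h r) = - (er h r * er h s) := by
        rw [er, er, er, ev_mul, map_mul]
        ring
      rw [e]
      exact neg_mem (mul_mem_sq h (er_mem h r) (er_mem h s)))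

theorem delta_apply (r : R) : delta h r = Ideal.Quotient.mk (idl h ^ 2) (er h r) := rfl

theorem cross {n : ℕ} {D : Fin n → Derivation A R R} {g : Fin n → R}
    (hc : IsCert A R D g) (i : Fin n) (f k : R) :
    D i f * er h k - D i k * er h f ∈ idl h ^ 2 := by
  have h1 := congrArg (delta h).liftKaehlerDifferential (hc.cross i f k)
  rw [map_smul, map_smul, Derivation.liftKaehlerDifferential_comp_D,
    Derivation.liftKaehlerDifferential_comp_D] at h1
  exact (Ideal.Quotient.mk_eq_mk_iff_sub_mem _ _).1 h1

theorem key (hS : Stmt_SCO) (hc : SmC A R) (x r : R) :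
    PowerSeries.coeff 1 (h x) • er h r - PowerSeries.coeff 1 (h r) • er h x ∈ idl h ^ 2 := by
  obtain ⟨⟨n, D, g, hD⟩, -⟩ := hS.2 hc
  have e1 := eps_expand h hS hD x
  have e2 := eps_expand h hS hD r
  have e3 : PowerSeries.coeff 1 (h x) • er h r - PowerSeries.coeff 1 (h r) • er h x =
      ∑ i, algebraMap A R (PowerSeries.coeff 1 (h (g i))) *
        ((D i x * er h r - D i r * er h x) - er h (D i x) * er h r + er h (D i r) * er h x) := by
    rw [e1, e2, Finset.sum_smul, Finset.sum_smul, ← Finset.sum_sub_distrib]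
    refine Finset.sum_congr rfl fun i _ => ?_
    rw [Algebra.smul_def, Algebra.smul_def, map_mul, map_mul]
    have e4 : er h (D i x) = D i x - algebraMap A R (ev h (D i x)) := rfl
    have e5 : er h (D i r) = D i r - algebraMap A R (ev h (D i r)) := rfl
    rw [e4, e5]
    ring
  rw [e3]
  refine Ideal.sum_mem _ fun i _ => Ideal.mul_mem_left _ _ ?_
  exact add_mem (sub_mem (cross h hD i x r) (mul_mem_sq h (er_mem h _) (er_mem h _)))
    (mul_mem_sq h (er_mem h _) (er_mem h _))

variable {x : R} (hx : IsUnit (PowerSeries.coeff 1 (h x)))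

include hx in
theorem one_step (hS : Stmt_SCO) (hc : SmC A R) {r : R} (hr : r ∈ idl h) :
    ∃ a : A, r - a • er h x ∈ idl h ^ 2 := by
  obtain ⟨w, hw⟩ := hx.exists_left_inv
  refine ⟨w * PowerSeries.coeff 1 (h r), ?_⟩
  have h1 := Ideal.mul_mem_left _ (algebraMap A R w) (key h hS hc x r)
  rw [← Algebra.smul_def, smul_sub, smul_smul, smul_smul, hw, one_smul, er_of_mem h hr] at h1
  exact h1

include hx in
theorem step (hS : Stmt_SCO) (hc : SmC A R) (n : ℕ) (r : R) (hr : r ∈ idl h ^ n) :
    ∃ a : A, r - a • er h x ^ n ∈ idl h ^ (n + 1) := by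
  induction n generalizing r with
  | zero =>
    refine ⟨ev h r, ?_⟩
    rw [zero_add, pow_one, pow_zero, ← Algebra.algebraMap_eq_smul_one]
    exact er_mem h r
  | succ n ih =>
    rw [pow_succ] at hr
    refine Submodule.mul_induction_on hr ?_ ?_
    · intro s hs t ht
      obtain ⟨a, ha⟩ := ih s hs
      obtain ⟨b, hb⟩ := one_step h hx hS hc ht
      refine ⟨a * b, ?_⟩
      have e : s * t - (a * b) • er h x ^ (n + 1) =
          (s - a • er h x ^ n) * t + (a • er h x ^ n) * (t - b • er h x) := by
        simp only [Algebra.smul_def, map_mul]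
        ring
      rw [e]
      refine add_mem ?_ ?_
      · rw [pow_succ (idl h) (n + 1)]
        exact Ideal.mul_mem_mul ha ht
      · have e2 : n + 1 + 1 = n + 2 := rfl
        rw [e2, pow_add]
        refine Ideal.mul_mem_mul ?_ hb
        rw [Algebra.smul_def]
        exact Ideal.mul_mem_left _ _ (Ideal.pow_mem_pow (er_mem h x) n)
    · rintro s t ⟨a, ha⟩ ⟨b, hb⟩
      refine ⟨a + b, ?_⟩
      have e : s + t - (a + b) • er h x ^ (n + 1) =
          (s - a • er h x ^ (n + 1)) + (t - b • er h x ^ (n + 1)) := by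
        rw [add_smul]
        abel
      rw [e]
      exact add_mem ha hb

theorem coeff_of_mem (n : ℕ) (r : R) (hr : r ∈ idl h ^ n) :
    ∀ m < n, PowerSeries.coeff m (h r) = 0 := by
  rw [← PowerSeries.X_pow_dvd_iff, ← Ideal.mem_span_singleton, ← Ideal.span_singleton_pow]
  have h1 : (idl h).map (h : R →+* PowerSeries A) ≤ Ideal.span {PowerSeries.X} := by
    rw [Ideal.map_le_iff_le_comap]
    intro s hs
    rw [Ideal.mem_comap, Ideal.mem_span_singleton, PowerSeries.X_dvd_iff]
    exact hs
  have h2 : h r ∈ ((idl h) ^ n).map (h : R →+* PowerSeries A) := Ideal.mem_map_of_mem _ hr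
  rw [Ideal.map_pow] at h2
  exact Ideal.pow_right_mono h1 n h2

theorem coeff_er_pow (x : R) (n : ℕ) :
    (∀ m < n, PowerSeries.coeff m (h (er h x ^ n)) = 0) ∧
      PowerSeries.coeff n (h (er h x ^ n)) = PowerSeries.coeff 1 (h x) ^ n := by
  refine ⟨coeff_of_mem h n _ (Ideal.pow_mem_pow (er_mem h x) n), ?_⟩
  obtain ⟨s, hs⟩ : PowerSeries.X ∣ h (er h x) := by
    rw [PowerSeries.X_dvd_iff]
    exact er_mem h x
  have h1 : PowerSeries.coeff 1 (h (er h x)) = PowerSeries.coeff 1 (h x) := by
    rw [er, map_sub, map_sub, coeff_one_algebraMap, sub_zero]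
  have h2 : PowerSeries.coeff 1 (PowerSeries.X * s) = PowerSeries.constantCoeff s := by
    have := PowerSeries.coeff_succ_X_mul 0 s
    rwa [zero_add, PowerSeries.coeff_zero_eq_constantCoeff_apply] at this
  rw [map_pow, hs, mul_pow, PowerSeries.coeff_X_pow_mul', if_pos le_rfl, Nat.sub_self,
    PowerSeries.coeff_zero_eq_constantCoeff_apply, map_pow, ← h2, ← hs, h1]

include hx in
theorem mem_of_coeff (hS : Stmt_SCO) (hc : SmC A R) (n : ℕ) (r : R)
    (hr : ∀ m < n, PowerSeries.coeff m (h r) = 0) : r ∈ idl h ^ n := by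
  induction n with
  | zero =>
    rw [pow_zero, Ideal.one_eq_top]
    exact Submodule.mem_top
  | succ n ih =>
    have h1 := ih fun m hm => hr m (by omega)
    obtain ⟨a, ha⟩ := step h hx hS hc n r h1
    have h2 := coeff_of_mem h (n + 1) _ ha n (by omega)
    rw [map_sub, map_sub, map_smul, map_smul, hr n (by omega), (coeff_er_pow h x n).2, zero_sub,
      neg_eq_zero, smul_eq_mul] at h2
    have h3 : a = 0 := ((hx.pow n).mul_left_eq_zero).1 h2
    rw [h3, zero_smul, sub_zero] at ha
    exact ha

include hx in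
theorem approx (n : ℕ) (f : PowerSeries A) :
    ∃ r : R, ∀ m < n, PowerSeries.coeff m (h r) = PowerSeries.coeff m f := by
  induction n with
  | zero => exact ⟨0, fun m hm => absurd hm (Nat.not_lt_zero m)⟩
  | succ n ih =>
    obtain ⟨r, hr⟩ := ih
    obtain ⟨w, hw⟩ := (hx.pow n).exists_left_inv
    refine ⟨r + ((PowerSeries.coeff n f - PowerSeries.coeff n (h r)) * w) • er h x ^ n,
      fun m hm => ?_⟩
    rw [map_add, map_add, map_smul, map_smul, smul_eq_mul]
    rcases Nat.lt_or_ge m n with h1 | h1
    · rw [hr m h1, (coeff_er_pow h x n).1 m h1, mul_zero, add_zero]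
    · have h2 : m = n := by omega
      rw [h2, (coeff_er_pow h x n).2, mul_assoc, hw, mul_one]
      ring

/-- The value as a homomorphism of algebras. -/
noncomputable def evA : R →ₐ[A] A :=
  { (PowerSeries.constantCoeff (R := A)).comp (h : R →+* PowerSeries A) with
    commutes' := fun a => ev_algebraMap h a }

theorem fg [Algebra.FinitePresentation A R] : (idl h).FG := by
  have h1 : Function.Surjective (evA h) := fun a => ⟨algebraMap A R a, ev_algebraMap h a⟩
  exact Algebra.FinitePresentation.ker_fG_of_surjective (evA h) h1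

end

end AID

theorem t_AID (hSCO : Stmt_SCO) (hKFG : Stmt_KFG) : Stmt_AID := by
  intro I A _ _ _ g P hP hS pt
  have hfp : Algebra.FinitePresentation A P := (hKFG hP).1
  refine ⟨AID.fg pt.h, ?_, ?_, ?_⟩
  · intro n r hr
    exact AID.step pt.h pt.par hSCO hS n r hr
  · intro n r
    exact ⟨fun hr => AID.coeff_of_mem pt.h n r hr,
      fun hr => AID.mem_of_coeff pt.h pt.par hSCO hS n r hr⟩
  · intro n f
    exact AID.approx pt.h pt.par n f

end Pool.Agent.MG.G0
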