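import Pool.Agent.MG.G0.StmtsS

/-!
# APT: formal points over fields
-/

open PowerSeries

namespace Pool.Agent.MG.G0

namespace APTx

variable {κ : Type} [Field κ]

theorem modEq (n : ℕ) (x y : PowerSeries κ) :
    (x ≡ y [SMOD ((Ideal.span {(X : PowerSeries κ) ^ 2}) ^ n • ⊤ :
      Submodule (PowerSeries κ) (PowerSeries κ))]) ↔ ∀ k < 2 * n, coeff k x = coeff k y := by
  rw [SModEq.sub_mem, Ideal.span_singleton_pow, smul_eq_mul, Ideal.mul_top,
    Ideal.mem_span_singleton, ← pow_mul, X_pow_dvd_iff]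
  simp only [map_sub, sub_eq_zero]

theorem complete : IsAdicComplete (Ideal.span {(X : PowerSeries κ) ^ 2}) (PowerSeries κ) where
  haus' x hx := by
    ext k
    have := (modEq (k + 1) x 0).1 (hx (k + 1)) k (by omega)
    exact this
  prec' f hf := by
    refine ⟨PowerSeries.mk fun k => coeff k (f (k + 1)), fun n => (modEq n _ _).2 fun k hk => ?_⟩
    rw [coeff_mk]
    rcases le_total (k + 1) n with h | h
    · exact ((modEq (k + 1) _ _).1 (hf h) k (by omega)).symm
    · exact (modEq n _ _).1 (hf h) k hk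

variable {R : Type} [CommRing R] [Algebra κ R]

/-- A point and a tangent vector as a homomorphism. -/
noncomputable def two (p : R →ₐ[κ] κ) (δ : R →ₗ[κ] κ) (h1 : δ 1 = 0)
    (h : ∀ a b, δ (a * b) = p a * δ b + p b * δ a) :
    R →ₐ[κ] (PowerSeries κ ⧸ Ideal.span {(X : PowerSeries κ) ^ 2}) where
  toFun r := Ideal.Quotient.mk _ (C (p r) + C (δ r) * X)
  map_one' := by
    rw [map_one, map_one, h1, map_zero, zero_mul, add_zero, map_one]
  map_zero' := by
    rw [map_zero, map_zero, map_zero, zero_add, map_zero, zero_mul, map_zero]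
  map_add' a b := by
    rw [← map_add]
    congr 1
    simp only [map_add]
    ring
  map_mul' a b := by
    rw [← map_mul, Ideal.Quotient.eq, Ideal.mem_span_singleton]
    refine ⟨-C (δ a * δ b), ?_⟩
    rw [h, map_mul]
    simp only [map_add, map_mul]
    ring
  commutes' a := by
    have h2 : δ (algebraMap κ R a) = 0 := by
      rw [Algebra.algebraMap_eq_smul_one, map_smul, h1, smul_zero]
    rw [AlgHom.commutes, h2, map_zero, zero_mul, add_zero]
    rfl

theorem two_apply (p : R →ₐ[κ] κ) (δ : R →ₗ[κ] κ) (h1 : δ 1 = 0)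
    (h : ∀ a b, δ (a * b) = p a * δ b + p b * δ a) (r : R) :
    two p δ h1 h r = Ideal.Quotient.mk _ (C (p r) + C (δ r) * X) := rfl

theorem gen {S : Type} [CommRing S] [Algebra κ S] [Algebra.FormallySmooth κ R] {I : Ideal S}
    (hI : IsAdicComplete I S) (f : R →ₐ[κ] S ⧸ I) :
    ∃ g : R →ₐ[κ] S, (Ideal.Quotient.mkₐ κ I).comp g = f :=
  Algebra.FormallySmooth.exists_mkₐ_comp_eq_of_isAdicComplete f

theorem exists_lift [Algebra.FormallySmooth κ R] (p : R →ₐ[κ] κ) (δ : R →ₗ[κ] κ) (h1 : δ 1 = 0)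
    (h : ∀ a b, δ (a * b) = p a * δ b + p b * δ a) :
    ∃ g : R →ₐ[κ] PowerSeries κ, ∀ r, constantCoeff (g r) = p r ∧ coeff 1 (g r) = δ r := by
  obtain ⟨g, hg⟩ := gen (I := Ideal.span {(X : PowerSeries κ) ^ 2}) complete (two p δ h1 h)
  refine ⟨g, fun r => ?_⟩
  have h2 := AlgHom.congr_fun hg r
  rw [AlgHom.comp_apply, Ideal.Quotient.mkₐ_eq_mk, two_apply] at h2
  rw [Ideal.Quotient.eq, Ideal.mem_span_singleton, X_pow_dvd_iff] at h2
  constructor
  · have h3 := h2 0 (by omega)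
    rw [map_sub, sub_eq_zero] at h3
    rw [← coeff_zero_eq_constantCoeff_apply, h3]
    simp
  · have h3 := h2 1 (by omega)
    rw [map_sub, sub_eq_zero] at h3
    rw [h3]
    simp [coeff_C]

end APTx

open APTx in
/-- APT -/
theorem t_APT (hSCO : Stmt_SCO) : Stmt_APT := by
  intro I κ _ P hfs hsm p
  obtain ⟨n, D, g, hcert⟩ := (hSCO.2 hsm).1
  have h1 : ∑ i, p (D i (g i)) = 1 := by
    rw [← map_sum, hcert.one, map_one]
  obtain ⟨i, -, hi⟩ := Finset.exists_ne_zero_of_sum_ne_zero (h1 ▸ one_ne_zero)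
  obtain ⟨h, hh⟩ := exists_lift p (p.toLinearMap ∘ₗ (D i : P →ₗ[κ] P)) (by simp) (by
    intro a b
    simp)
  refine ⟨⟨h, g i, ?_⟩, fun f => (hh f).1⟩
  rw [(hh _).2]
  exact hi.isUnit

end Pool.Agent.MG.G0
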