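import Pool.Agent.MG.G0.StmtsS

/-!
# AWB: base change of formal points and of the ring with additional punctures
-/

open TensorProduct

namespace Pool.Agent.MG.G0

namespace AWB

section

variable {I A B : Type} [CommRing A] [CommRing B]

theorem psl_map (φ : A →+* B) (f : PowerSeries A) :
    psl B (PowerSeries.map φ f) = lmap φ (psl A f) := by
  ext n
  rw [lmap_coeff]
  have h1 := PowerSeries.coeff_coe (PowerSeries.map φ f) n
  have h2 := PowerSeries.coeff_coe f n
  unfold psl
  rw [h1, h2]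
  split_ifs
  · rw [map_zero]
  · rw [PowerSeries.coeff_map]

variable {P : Subalgebra A (KK I A)} (φ : A →+* B)

/-- Induction principle for the base change. -/
theorem bc_ind (h : Stmt_KBC) {C : bc φ P → Prop} (h0 : ∀ p : P, C (bcMap φ P p))
    (hadd : ∀ f g, C f → C g → C (f + g)) (hsmul : ∀ (b : B) (f), C f → C (b • f))
    (f : bc φ P) : C f := by
  have hs : ∀ x : KK I B, x ∈ Submodule.span B (kmap φ '' (P : Set (KK I A))) ↔ x ∈ bc φ P := by
    intro x
    rw [← h.1 φ P]
    rfl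
  have key : ∀ x (_ : x ∈ Submodule.span B (kmap φ '' (P : Set (KK I A)))),
      ∀ hx' : x ∈ bc φ P, C ⟨x, hx'⟩ := by
    intro x hx
    induction hx using Submodule.span_induction with
    | mem x hx =>
      obtain ⟨p, hp, rfl⟩ := hx
      intro _
      exact h0 ⟨p, hp⟩
    | zero =>
      intro hx'
      have h1 := h0 0
      rw [map_zero] at h1
      exact h1
    | add x y hx hy ihx ihy =>
      intro hx'
      exact hadd ⟨x, (hs x).1 hx⟩ ⟨y, (hs y).1 hy⟩ (ihx _) (ihy _)
    | smul b x hx ih =>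
      intro hx'
      exact hsmul b ⟨x, (hs x).1 hx⟩ (ih _)
  exact key f.1 ((hs _).2 f.2) f.2

theorem bcMap_algebraMap (a : A) :
    bcMap φ P (algebraMap A P a) = algebraMap B (bc φ P) (φ a) :=
  Subtype.ext (kmap_algebraMap φ a)

/-- The expansion of the base change. -/
theorem exists_h [Fintype I] [Nonempty I] [Algebra A B] (hKBT : Stmt_KBT) {g : ℕ}
    (hP : IsKr g P) (pt : FPt P) :
    ∃ h : bc (algebraMap A B) P →ₐ[B] PowerSeries B, ∀ f : P,
      h (bcMap (algebraMap A B) P f) = PowerSeries.map (algebraMap A B) (pt.h f) := by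
  obtain ⟨-, e, he⟩ := hKBT (B := B) hP
  let ψ : P →ₐ[A] PowerSeries B :=
    { (PowerSeries.map (algebraMap A B)).comp (pt.h : P →+* PowerSeries A) with
      commutes' := fun a => by
        change PowerSeries.map (algebraMap A B) (pt.h (algebraMap A P a)) = _
        rw [AlgHom.commutes]
        ext n
        simp [PowerSeries.algebraMap_apply] }
  refine ⟨(Algebra.TensorProduct.lift (Algebra.ofId B (PowerSeries B)) ψ
    (fun _ _ => Commute.all _ _)).comp (e.symm : bc (algebraMap A B) P →ₐ[B] B ⊗[A] P),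
    fun f => ?_⟩
  have h1 : e (1 ⊗ₜ f) = bcMap (algebraMap A B) P f := by
    apply Subtype.ext
    rw [he, one_smul]
    rfl
  rw [AlgHom.comp_apply, ← h1]
  change (Algebra.TensorProduct.lift (Algebra.ofId B (PowerSeries B)) ψ
    (fun _ _ => Commute.all _ _)) (e.symm (e (1 ⊗ₜ f))) = _
  rw [AlgEquiv.symm_apply_apply, Algebra.TensorProduct.lift_tmul, map_one, one_mul]
  rfl

theorem exists_pt [Fintype I] [Nonempty I] (hKBC : Stmt_KBC) (hKBT : Stmt_KBT) {g : ℕ}
    (hP : IsKr g P) (pt : FPt P) : ∃! pt' : FPt (bc φ P), pt.Bc φ pt' := by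
  obtain ⟨h, hh⟩ : ∃ h : bc φ P →ₐ[B] PowerSeries B, ∀ f : P,
      h (bcMap φ P f) = PowerSeries.map φ (pt.h f) := by
    letI : Algebra A B := φ.toAlgebra
    exact exists_h hKBT hP pt
  have hpar : IsUnit (PowerSeries.coeff 1 (h (bcMap φ P pt.x))) := by
    rw [hh, PowerSeries.coeff_map]
    exact pt.par.map φ
  refine ⟨⟨h, bcMap φ P pt.x, hpar⟩, ⟨hh, rfl⟩, ?_⟩
  rintro ⟨h', x', hx'⟩ ⟨h1, h2⟩
  have e1 : h' = h := by
    apply AlgHom.ext
    intro f
    refine bc_ind φ hKBC (C := fun f => h' f = h f) (fun p => ?_) (fun f g hf hg => ?_)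
      (fun b f hf => ?_) f
    · rw [hh]
      exact h1 p
    · change h' (f + g) = h (f + g)
      rw [map_add, map_add, hf, hg]
    · change h' (b • f) = h (b • f)
      rw [map_smul, map_smul, hf]
  subst e1
  have e2 : x' = bcMap φ P pt.x := h2
  subst e2
  rfl

variable {J : Type} {pt : J → FPt P} {pt' : J → FPt (bc φ P)}

theorem ev_bcMap {p : FPt P} {p' : FPt (bc φ P)} (h : p.Bc φ p') (f : P) :
    p'.ev (bcMap φ P f) = φ (p.ev f) := by
  unfold FPt.ev
  rw [h.1 f, ← PowerSeries.coeff_zero_eq_constantCoeff_apply,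
    ← PowerSeries.coeff_zero_eq_constantCoeff_apply, PowerSeries.coeff_map]

theorem id_map (hKBC : Stmt_KBC) {p : FPt P} {p' : FPt (bc φ P)} (h : p.Bc φ p') :
    p'.id = p.id.map (bcMap φ P) := by
  have hev : ∀ (q : FPt (bc φ P)) (f g : bc φ P), q.ev (f + g) = q.ev f + q.ev g := by
    intro q f g
    unfold FPt.ev
    rw [map_add, map_add]
  have hevs : ∀ (q : FPt (bc φ P)) (b : B) (f : bc φ P), q.ev (b • f) = b * q.ev f := by
    intro q b f
    unfold FPt.ev
    rw [map_smul, ← PowerSeries.coeff_zero_eq_constantCoeff_apply, PowerSeries.coeff_smul,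
      smul_eq_mul, PowerSeries.coeff_zero_eq_constantCoeff_apply]
  apply le_antisymm
  · have key : ∀ f : bc φ P, f - algebraMap B (bc φ P) (p'.ev f) ∈ p.id.map (bcMap φ P) := by
      intro f
      refine bc_ind φ hKBC (C := fun f => f - algebraMap B (bc φ P) (p'.ev f) ∈
        p.id.map (bcMap φ P)) (fun r => ?_) (fun f g hf hg => ?_) (fun b f hf => ?_) f
      · change bcMap φ P r - algebraMap B (bc φ P) (p'.ev (bcMap φ P r)) ∈ _
        rw [ev_bcMap φ h, ← bcMap_algebraMap, ← map_sub]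
        refine Ideal.mem_map_of_mem _ ?_
        rw [FPt.mem_id]
        unfold FPt.ev
        rw [map_sub, map_sub, AlgHom.commutes]
        rw [sub_eq_zero]
        simp [PowerSeries.algebraMap_apply]
      · change f + g - algebraMap B (bc φ P) (p'.ev (f + g)) ∈ _
        rw [hev, map_add, add_sub_add_comm]
        exact add_mem hf hg
      · change b • f - algebraMap B (bc φ P) (p'.ev (b • f)) ∈ _
        rw [hevs, map_mul, Algebra.smul_def, ← mul_sub]
        exact Ideal.mul_mem_left _ _ hf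
    intro f hf
    rw [FPt.mem_id] at hf
    have h1 := key f
    rwa [hf, map_zero, sub_zero] at h1
  · rw [Ideal.map_le_iff_le_comap]
    intro f hf
    rw [FPt.mem_id] at hf
    rw [Ideal.mem_comap, FPt.mem_id, ev_bcMap φ h, hf, map_zero]

theorem hat_bcMap (h : ∀ j, (pt j).Bc φ (pt' j)) (r : P) :
    hat pt' (bcMap φ P r) = kmap φ (hat pt r) := by
  funext k
  rcases k with i | j
  · rfl
  · rw [hat_inr, kmap_apply, hat_inr, (h j).1 r, psl_map]

theorem disj (hKBC : Stmt_KBC) (h : ∀ j, (pt j).Bc φ (pt' j)) (hd : Disj pt) : Disj pt' := by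
  intro j k hjk
  rw [id_map φ hKBC (h j), id_map φ hKBC (h k), ← Ideal.map_sup, hd j k hjk, Ideal.map_top]

theorem Ipt_prod {R : Type} [CommRing R] {Q : Subalgebra R (KK I R)} {J : Type} [Fintype J]
    {q : J → FPt Q} (hd : Disj q) : Ipt q = ∏ j, (q j).id := by
  rw [Ideal.prod_eq_iInf_of_pairwise_isCoprime]
  · unfold Ipt
    simp
  · intro j _ k _ hjk
    exact Ideal.isCoprime_iff_sup_eq.2 (hd j k hjk)

theorem Ipt_map [Fintype J] (hKBC : Stmt_KBC) (h : ∀ j, (pt j).Bc φ (pt' j)) (hd : Disj pt) :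
    Ipt pt' = (Ipt pt).map (bcMap φ P) := by
  rw [Ipt_prod hd, Ipt_prod (disj φ hKBC h hd)]
  have h1 := map_prod (Ideal.mapHom (bcMap φ P)) (fun j => (pt j).id) Finset.univ
  simp only [Ideal.mapHom_apply] at h1
  rw [h1]
  exact Finset.prod_congr rfl fun j _ => id_map φ hKBC (h j)

theorem WJ_map [Fintype I] [Nonempty I] [Fintype J] (hKBC : Stmt_KBC) (hAWK : Stmt_AWK) {g : ℕ}
    (hP : IsKr g P) (hS : SmC A P) (h : ∀ j, (pt j).Bc φ (pt' j)) (hd : Disj pt) :
    WJ pt' = bc φ (WJ pt) := by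
  have hI := Ipt_map φ hKBC h hd
  apply le_antisymm
  · intro w hw
    rw [mem_WJ] at hw
    obtain ⟨n, hn⟩ := hw
    obtain ⟨m, s, a, hs, ha, has⟩ := (hAWK hP hS pt hd).2.2.2.2.2.2 n
    have h1 : ∑ k, kmap φ (a k) * hat pt' (bcMap φ P (s k)) = 1 := by
      have h2 := congrArg (kmap φ) has
      rw [map_sum, map_one] at h2
      rw [← h2]
      refine Finset.sum_congr rfl fun k _ => ?_
      rw [map_mul, hat_bcMap φ h]
    have hr : ∀ k, ∃ r : bc φ P, hat pt' (bcMap φ P (s k)) * w = hat pt' r := by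
      intro k
      refine hn _ ?_
      rw [hI, ← Ideal.map_pow]
      exact Ideal.mem_map_of_mem _ (hs k)
    choose r hr using hr
    have hbc : ∀ f : bc φ P, hat pt' f ∈ bc φ (WJ pt) := by
      intro f
      refine bc_ind φ hKBC (C := fun f => hat pt' f ∈ bc φ (WJ pt)) (fun p => ?_)
        (fun f g hf hg => ?_) (fun b f hf => ?_) f
      · change hat pt' (bcMap φ P p) ∈ _
        rw [hat_bcMap φ h]
        exact kmap_mem_bc φ (hat_mem pt p)
      · change hat pt' (f + g) ∈ _
        rw [map_add]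
        exact add_mem hf hg
      · change hat pt' (b • f) ∈ _
        rw [map_smul]
        exact Subalgebra.smul_mem _ hf b
    have hw : w = ∑ k, kmap φ (a k) * hat pt' (r k) := by
      have h3 : w = (∑ k, kmap φ (a k) * hat pt' (bcMap φ P (s k))) * w := by rw [h1, one_mul]
      rw [h3, Finset.sum_mul]
      refine Finset.sum_congr rfl fun k _ => ?_
      rw [mul_assoc, hr k]
    rw [hw]
    exact sum_mem fun k _ => mul_mem (kmap_mem_bc φ (ha k)) (hbc (r k))
  · unfold bc
    rw [Algebra.adjoin_le_iff]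
    rintro _ ⟨w, hw, rfl⟩
    obtain ⟨n, hn⟩ := (mem_WJ pt).1 hw
    refine (mem_WJ pt').2 ⟨n, fun s hs => ?_⟩
    rw [hI, ← Ideal.map_pow] at hs
    unfold Ideal.map at hs
    induction hs using Submodule.span_induction with
    | mem x hx =>
      obtain ⟨s, hs, rfl⟩ := hx
      obtain ⟨r, hr⟩ := hn s hs
      exact ⟨bcMap φ P r, by rw [hat_bcMap φ h, hat_bcMap φ h, ← map_mul, hr]⟩
    | zero => exact ⟨0, by rw [map_zero, zero_mul]⟩
    | add x y _ _ ihx ihy =>
      obtain ⟨r, hr⟩ := ihx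
      obtain ⟨t, ht⟩ := ihy
      exact ⟨r + t, by rw [map_add, map_add, add_mul, hr, ht]⟩
    | smul c x _ ih =>
      obtain ⟨r, hr⟩ := ih
      exact ⟨c * r, by rw [smul_eq_mul, map_mul, map_mul, mul_assoc, hr]⟩

end

end AWB

theorem t_AWB (hKBC : Stmt_KBC) (hKBT : Stmt_KBT) (hKEQ : Stmt_KEQ) (hAWK : Stmt_AWK) :
    Stmt_AWB := by
  intro I A B _ _ _ _ g P hP φ
  refine ⟨fun pt => AWB.exists_pt φ hKBC hKBT hP pt, fun hS J _ pt pt' h hd => ?_⟩
  exact ⟨AWB.disj φ hKBC h hd, AWB.WJ_map φ hKBC hAWK hP hS h hd, AWB.Ipt_map φ hKBC h hd⟩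

end Pool.Agent.MG.G0
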