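import Pool.Agent.MG.G0.StmtsS

/-!
# AWD (PAPER ADD5): duality for functions with poles at additional formal points
-/

namespace Pool.Agent.MG.G0

namespace AWD

section one

variable {A : Type} [CommRing A]

theorem psl_low (f : PowerSeries A) : ∀ m < 0, (psl A f).coeff m = 0 := fun m hm => by
  rw [psl, PowerSeries.coeff_coe, if_pos hm]

theorem psl_coeff (f : PowerSeries A) (n : ℕ) :
    (psl A f).coeff (n : ℤ) = PowerSeries.coeff n f := by
  rw [psl, PowerSeries.coeff_coe, if_neg (by omega), Int.natAbs_natCast]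

theorem exists_psl {f : LaurentSeries A} (h : ∀ m < 0, f.coeff m = 0) :
    ∃ g : PowerSeries A, psl A g = f := by
  refine ⟨PowerSeries.mk fun n => f.coeff n, ?_⟩
  ext m
  by_cases hm : m < 0
  · rw [psl_low _ m hm, h m hm]
  · obtain ⟨n, rfl⟩ := Int.eq_ofNat_of_zero_le (not_lt.1 hm)
    rw [psl_coeff, PowerSeries.coeff_mk]

/-- The derivative of a power series `a + b u + ...` with `b` a unit is a unit. -/
theorem isUnit_ld {f : PowerSeries A} (h1 : IsUnit (PowerSeries.coeff 1 f)) :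
    IsUnit (ld (psl A f)) := by
  obtain ⟨g, hg⟩ := exists_psl (f := ld (psl A f)) fun m hm => by
    rw [ld_coeff]
    by_cases h : m + 1 = 0
    · rw [h, Int.cast_zero, zero_mul]
    · rw [psl_low f _ (by omega), mul_zero]
  have h2 : PowerSeries.constantCoeff g = PowerSeries.coeff 1 f := by
    rw [← PowerSeries.coeff_zero_eq_constantCoeff_apply, ← psl_coeff, hg, Nat.cast_zero, ld_coeff,
      zero_add, Int.cast_one, one_mul]
    exact psl_coeff f 1
  rw [← hg]
  refine IsUnit.map (psl A) ?_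
  rw [PowerSeries.isUnit_iff_constantCoeff, h2]
  exact h1

end one

section many

variable {I J A : Type} [CommRing A] {P : Subalgebra A (KK I A)} {pt : J → FPt P}

theorem low_Ipt {r : P} (hr : r ∈ Ipt pt) (j : J) :
    ∀ m < (1 : ℤ), (psl A ((pt j).h r)).coeff m = 0 := by
  intro m hm
  by_cases h0 : m < 0
  · exact psl_low _ m h0
  · have h1 : m = ((0 : ℕ) : ℤ) := by
      rw [Nat.cast_zero]
      omega
    rw [h1, psl_coeff, PowerSeries.coeff_zero_eq_constantCoeff_apply]
    rw [Ipt, Ideal.mem_iInf] at hr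
    exact hr j

theorem low_pow (j : J) (n : ℕ) : ∀ {r : P}, r ∈ Ipt pt ^ n →
    ∀ m < (n : ℤ), (psl A ((pt j).h r)).coeff m = 0 := by
  induction n with
  | zero =>
    intro r _ m hm
    exact psl_low _ m (by simpa using hm)
  | succ n ih =>
    intro r hr
    rw [pow_succ] at hr
    refine Submodule.mul_induction_on hr ?_ ?_
    · intro a ha b hb m hm
      rw [map_mul, map_mul]
      refine mul_low (ih ha) (low_Ipt hb j) m ?_
      push_cast at hm
      exact hm
    · intro a b ha hb m hm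
      rw [map_add, map_add, HahnSeries.coeff_add, ha m hm, hb m hm, add_zero]

theorem res_sum [Fintype I] [Fintype J] (f : KK (I ⊕ J) A) :
    res f = res (fun i => f (Sum.inl i) : KK I A) + ∑ j : J, (f (Sum.inr j)).coeff (-1) :=
  Fintype.sum_sum_type fun k => (f k).coeff (-1)

end many

end AWD

open AWD in
theorem t_AWD (_hRES : Stmt_RES) (hSTO : Stmt_STO) (hAYE : Stmt_AYE) (hAWK : Stmt_AWK) :
    Stmt_AWD := by
  intro I J A _ _ _ _ g P hP hSm pt hdis hD θ hθ η hη
  classical
  obtain ⟨hW, hWS, -, -, -, hA2, hA4⟩ := hAWK hP hSm pt hdis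
  obtain ⟨-, -, -, y, e, d, hy, he, -, hmon, hu, hye⟩ := hAYE hP hSm pt hdis
  obtain ⟨-, -, -, -, hcert⟩ := hSTO hP
  obtain ⟨-, ⟨n, θ', g', hθ', hg', hsum⟩, -⟩ := hcert hSm
  obtain ⟨hOmW, -⟩ := hSTO hW
  -- step 1
  have hni : ∀ i : Fin n, ∃ k : ℕ, ∀ s ∈ Ipt pt ^ k,
      ∃ r : P, hat pt s * (θ * dd (hat pt ⟨g' i, hg' i⟩)) = hat pt r := fun i =>
    (mem_WJ pt).1 (hθ _ (hat_mem pt _))
  choose ni hni using hni
  have h1 : ∀ s ∈ Ipt pt ^ (Finset.univ.sup ni),
      (fun i => (hat pt s * θ) (Sum.inl i) : KK I A) ∈ TT P := by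
    intro s hs f hf
    have h2 : ∀ i : Fin n, ∃ r : P,
        hat pt s * (θ * dd (hat pt ⟨g' i, hg' i⟩)) = hat pt r := fun i =>
      hni i s (Ideal.pow_le_pow_right (Finset.le_sup (Finset.mem_univ i)) hs)
    choose r hr using h2
    have h3 : (fun i => (hat pt s * θ) (Sum.inl i) : KK I A) * dd f =
        ∑ i, (θ' i * dd f) * (r i : KK I A) := by
      funext k
      have h4 : ∀ i : Fin n, (r i : KK I A) k =
          (s : KK I A) k * (θ (Sum.inl k) * (dd (g' i) : KK I A) k) := fun i =>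
        (congrFun (hr i) (Sum.inl k)).symm
      have h5 : ∑ i, θ' i k * (dd (g' i) : KK I A) k = 1 := by
        have h6 := congrFun hsum k
        rw [Finset.sum_apply] at h6
        exact h6
      rw [Finset.sum_apply]
      calc ((fun i => (hat pt s * θ) (Sum.inl i) : KK I A) * dd f) k
          = ((s : KK I A) k * θ (Sum.inl k) * (dd f : KK I A) k) * 1 := (mul_one _).symm
        _ = ((s : KK I A) k * θ (Sum.inl k) * (dd f : KK I A) k) *
            ∑ i, θ' i k * (dd (g' i) : KK I A) k := by rw [h5]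
        _ = ∑ i, ((θ' i * dd f) * (r i : KK I A)) k := by
            rw [Finset.mul_sum]
            refine Finset.sum_congr rfl fun i _ => ?_
            rw [Pi.mul_apply, Pi.mul_apply, h4]
            ring
    rw [h3]
    exact sum_mem fun i _ => mul_mem (hθ' i f hf) (r i).2
  -- step 2
  obtain ⟨n2, hn2⟩ := exists_Pol η
  have h2 : ∀ s ∈ Ipt pt ^ n2, (fun i => (hat pt s * η) (Sum.inl i) : KK I A) ∈ Perp P := by
    intro s hs p hp
    have h3 := hη (hat pt (s * ⟨p, hp⟩)) (hat_mem pt _)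
    rw [res_sum] at h3
    have h4 : ∑ j : J, ((η * hat pt (s * ⟨p, hp⟩)) (Sum.inr j)).coeff (-1) = 0 := by
      refine Finset.sum_eq_zero fun j _ => ?_
      rw [Pi.mul_apply, hat_inr]
      exact mul_low (hn2 (Sum.inr j)) (low_pow j n2 (Ideal.mul_mem_right _ _ hs)) _ (by omega)
    rw [h4, add_zero] at h3
    rw [← h3]
    congr 1
    funext k
    rw [Pi.mul_apply, Pi.mul_apply, Pi.mul_apply, map_mul, Pi.mul_apply, hat_inl, hat_inl]
    ring
  -- step 3
  have h3 : ∀ s ∈ Ipt pt ^ (Finset.univ.sup ni + n2), ∃ r : P, ∀ i,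
      (r : KK I A) i = (s : KK I A) i * (θ * η) (Sum.inl i) := by
    intro s hs
    rw [pow_add] at hs
    refine Submodule.mul_induction_on hs ?_ ?_
    · intro a ha b hb
      refine ⟨⟨_, hD _ (h1 a ha) _ (h2 b hb)⟩, fun i => ?_⟩
      change (a : KK I A) i * θ (Sum.inl i) * ((b : KK I A) i * η (Sum.inl i)) =
        ((a : KK I A) i * (b : KK I A) i) * (θ (Sum.inl i) * η (Sum.inl i))
      ring
    · rintro a b ⟨r, hr⟩ ⟨t, ht⟩
      refine ⟨r + t, fun i => ?_⟩
      change (r : KK I A) i + (t : KK I A) i =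
        ((a : KK I A) i + (b : KK I A) i) * (θ * η) (Sum.inl i)
      rw [hr, ht]
      ring
  -- step 4
  obtain ⟨m, s, a, hs, ha, hsum1⟩ := hA4 (Finset.univ.sup ni + n2)
  choose r hr using fun k => h3 (s k) (hs k)
  set w : KK (I ⊕ J) A := ∑ k, a k * hat pt (r k) with hw
  have hwW : w ∈ WJ pt := sum_mem fun k _ => mul_mem (ha k) (hat_mem pt _)
  have hwI : ∀ i, w (Sum.inl i) = (θ * η) (Sum.inl i) := by
    intro i
    have h4 : ∑ k, a k (Sum.inl i) * (s k : KK I A) i = 1 := by
      have h5 := congrFun hsum1 (Sum.inl i)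
      rw [Finset.sum_apply] at h5
      exact h5
    rw [hw, Finset.sum_apply]
    calc ∑ k, (a k * hat pt (r k)) (Sum.inl i)
        = ∑ k, (a k (Sum.inl i) * (s k : KK I A) i) * (θ * η) (Sum.inl i) := by
          refine Finset.sum_congr rfl fun k _ => ?_
          rw [Pi.mul_apply, hat_inl, hr]
          ring
      _ = (θ * η) (Sum.inl i) := by rw [← Finset.sum_mul, h4, one_mul]
  -- step 5
  set δ : KK (I ⊕ J) A := θ * η - w with hδ
  have hδI : ∀ i, δ (Sum.inl i) = 0 := fun i => by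
    rw [hδ, Pi.sub_apply, hwI, sub_self]
  have hδP : ∀ f ∈ WJ pt, δ * dd f ∈ Perp (WJ pt) := by
    intro f hf
    have h4 : (θ * dd f) * η ∈ Perp (WJ pt) := mul_mem_Perp (hθ f hf) hη
    have h5 : w * dd f ∈ Perp (WJ pt) := hOmW (Submodule.subset_span ⟨w, hwW, f, hf, rfl⟩)
    have h6 : δ * dd f = (θ * dd f) * η - w * dd f := by
      rw [hδ]
      ring
    rw [h6]
    exact sub_mem h4 h5
  -- step 6
  set ρ : KK (I ⊕ J) A := δ * dd (hat pt y) with hρ
  have hρP : ρ ∈ Perp (WJ pt) := hδP _ (hat_mem pt y)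
  have hρI : ∀ i, ρ (Sum.inl i) = 0 := fun i => by
    rw [hρ, Pi.mul_apply, hδI, zero_mul]
  obtain ⟨M, hM⟩ := exists_Pol ρ
  have hρJ : ∀ j, ρ (Sum.inr j) = 0 := by
    intro j
    ext k
    rw [HahnSeries.coeff_zero]
    set f : J → LaurentSeries A := fun j' => if j' = j then HahnSeries.single (-1 - k) 1 else 0
      with hf
    obtain ⟨w', hw', hwf⟩ := hA2 f M
    have h4 := hρP w' hw'
    rw [res_sum] at h4
    have h5 : res (fun i => (ρ * w') (Sum.inl i) : KK I A) = 0 := by
      refine Finset.sum_eq_zero fun i _ => ?_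
      change ((ρ * w') (Sum.inl i)).coeff (-1) = 0
      rw [Pi.mul_apply, hρI, zero_mul, HahnSeries.coeff_zero]
    have h6 : ∀ j' : J, ((ρ * w') (Sum.inr j')).coeff (-1) =
        if j' = j then (ρ (Sum.inr j)).coeff k else 0 := by
      intro j'
      have h7 : (ρ * w') (Sum.inr j') = ρ (Sum.inr j') * f j' +
          ρ (Sum.inr j') * (w' (Sum.inr j') - f j') := by
        rw [Pi.mul_apply]
        ring
      have h8 : (ρ (Sum.inr j') * (w' (Sum.inr j') - f j')).coeff (-1) = 0 := by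
        refine mul_low (b := (M : ℤ)) (hM (Sum.inr j')) (fun l hl => ?_) _ (by omega)
        rw [HahnSeries.coeff_sub, hwf j' l hl, sub_self]
      rw [h7, HahnSeries.coeff_add, h8, add_zero]
      by_cases hj : j' = j
      · subst hj
        have h9 : k + (-1 - k) = (-1 : ℤ) := by ring
        have h10 : (ρ (Sum.inr j') * HahnSeries.single (-1 - k) (1 : A)).coeff (k + (-1 - k)) =
            (ρ (Sum.inr j')).coeff k * 1 := HahnSeries.coeff_mul_single_add
        rw [h9, mul_one] at h10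
        rw [hf]
        simp only [if_true]
        exact h10
      · rw [hf, if_neg hj]
        simp only [if_neg hj, mul_zero, HahnSeries.coeff_zero]
    rw [h5, zero_add, Finset.sum_congr rfl fun j' _ => h6 j', Finset.sum_ite_eq'] at h4
    simpa using h4
  have hδJ : ∀ j, δ (Sum.inr j) = 0 := by
    intro j
    have h4 := hρJ j
    rw [hρ, Pi.mul_apply] at h4
    have h5 : IsUnit ((dd (hat pt y) : KK (I ⊕ J) A) (Sum.inr j)) := isUnit_ld (hu j)
    exact h5.mul_left_eq_zero.1 h4
  have hδ0 : θ * η = w := by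
    rw [← sub_eq_zero, ← hδ]
    funext k
    rcases k with i | j
    · exact hδI i
    · exact hδJ j
  rw [hδ0]
  exact hwW

end Pool.Agent.MG.G0
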