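import Pool.Agent.MG.G0.StmtsS

/-!
# AWK (PAPER ADD3, ADD4): functions with poles at additional formal points
-/

open TensorProduct

namespace Pool.Agent.MG.G0

namespace AWK

section one

variable {A : Type} [CommRing A]

theorem psl_low (f : PowerSeries A) : ∀ m < 0, (psl A f).coeff m = 0 := fun m hm => by
  rw [psl, PowerSeries.coeff_coe, if_pos hm]

theorem psl_coeff (f : PowerSeries A) (n : ℕ) :
    (psl A f).coeff (n : ℤ) = PowerSeries.coeff n f := by
  rw [psl, PowerSeries.coeff_coe, if_neg (by omega), Int.natAbs_natCast]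

theorem exists_psl {f : LaurentSeries A} (h : ∀ m < 0, f.coeff m = 0) :
    ∃ g : PowerSeries A, psl A g = f := by
  refine ⟨PowerSeries.mk fun n => f.coeff n, ?_⟩
  ext m
  by_cases hm : m < 0
  · rw [psl_low _ m hm, h m hm]
  · obtain ⟨n, rfl⟩ := Int.eq_ofNat_of_zero_le (not_lt.1 hm)
    rw [psl_coeff, PowerSeries.coeff_mk]

theorem psl_low_of {f : PowerSeries A} {n : ℕ} (h : ∀ m < n, PowerSeries.coeff m f = 0) :
    ∀ m < (n : ℤ), (psl A f).coeff m = 0 := fun m hm => by
  by_cases h0 : m < 0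
  · exact psl_low f m h0
  · obtain ⟨k, rfl⟩ := Int.eq_ofNat_of_zero_le (not_lt.1 h0)
    rw [psl_coeff]
    exact h k (by omega)

theorem pow_low {f : LaurentSeries A} {a : ℤ} (hf : ∀ m < a, f.coeff m = 0) (n : ℕ) :
    ∀ m < (n : ℤ) * a, (f ^ n).coeff m = 0 := by
  induction n with
  | zero =>
    intro m hm
    rw [Nat.cast_zero, zero_mul] at hm
    rw [pow_zero, HahnSeries.coeff_one, if_neg (by omega)]
  | succ n ih =>
    intro m hm
    rw [pow_succ]
    refine mul_low ih hf m ?_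
    push_cast at hm
    linarith

theorem isUnit_of_lead {f : LaurentSeries A} (n : ℤ) (h0 : ∀ m < n, f.coeff m = 0)
    (h1 : f.coeff n = 1) : IsUnit f := by
  have hs : ∀ m < -n, (HahnSeries.single (-n) (1 : A)).coeff m = 0 := fun m hm =>
    HahnSeries.coeff_single_of_ne (by omega)
  have h2 : IsUnit (f * HahnSeries.single (-n) 1) := by
    apply HahnSeries.isUnit_of_orderTop_pos
    set y : LaurentSeries A := f * HahnSeries.single (-n) 1 - 1 with hy
    have h3 : ∀ m ≤ 0, y.coeff m = 0 := by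
      intro m hm
      rw [hy, HahnSeries.coeff_sub, HahnSeries.coeff_one]
      rcases hm.lt_or_eq with h4 | h4
      · rw [mul_low h0 hs m (by omega), if_neg (by omega), sub_zero]
      · have h5 := mul_lead h0 hs
        rw [h1, HahnSeries.coeff_single_same, add_neg_cancel] at h5
        rw [h4, h5, if_pos rfl, mul_one, sub_self]
    by_cases h6 : y = 0
    · rw [h6, HahnSeries.orderTop_zero]
      exact WithTop.coe_lt_top 0
    · rw [HahnSeries.zero_lt_orderTop_iff h6]
      by_contra h7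
      exact h6 (HahnSeries.coeff_order_eq_zero.1 (h3 _ (not_lt.1 h7)))
  exact isUnit_of_mul_isUnit_left h2

theorem single_mul_single_neg :
    (HahnSeries.single (1 : ℤ) (1 : A)) * HahnSeries.single (-1 : ℤ) (1 : A) = 1 := by
  rw [HahnSeries.single_mul_single, add_neg_cancel, one_mul]
  rfl

/-- A power series `u · unit`. -/
theorem exists_unit {f : PowerSeries A} (h0 : PowerSeries.constantCoeff f = 0)
    (h1 : IsUnit (PowerSeries.coeff 1 f)) : ∃ t t' : PowerSeries A, f = PowerSeries.X * t ∧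
      t * t' = 1 := by
  obtain ⟨t, ht⟩ := PowerSeries.X_dvd_iff.2 h0
  have h2 : IsUnit t := by
    rw [PowerSeries.isUnit_iff_constantCoeff, ← PowerSeries.coeff_zero_eq_constantCoeff_apply]
    have h3 := PowerSeries.coeff_succ_X_mul 0 t
    rw [← ht] at h3
    rw [← h3]
    exact h1
  obtain ⟨t', ht'⟩ := h2.exists_right_inv
  exact ⟨t, t', ht, ht'⟩

theorem psl_X : psl A PowerSeries.X = HahnSeries.single 1 1 := HahnSeries.ofPowerSeries_X

/-- The inverse of a power series `u · unit` is `u⁻¹ · unit`. -/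
theorem isUnit_psl {f : PowerSeries A} (h0 : PowerSeries.constantCoeff f = 0)
    (h1 : IsUnit (PowerSeries.coeff 1 f)) : IsUnit (psl A f) ∧
      ∀ v : LaurentSeries A, psl A f * v = 1 → ∀ m < -1, v.coeff m = 0 := by
  obtain ⟨t, t', ht, htt⟩ := exists_unit h0 h1
  have h2 : psl A f * (HahnSeries.single (-1 : ℤ) (1 : A) * psl A t') = 1 := by
    rw [ht, map_mul, psl_X]
    have e1 : HahnSeries.single 1 1 * psl A t * (HahnSeries.single (-1 : ℤ) (1 : A) * psl A t') =
        (HahnSeries.single 1 1 * HahnSeries.single (-1 : ℤ) (1 : A)) * (psl A t * psl A t') := by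
      ring
    rw [e1, single_mul_single_neg, ← map_mul, htt, map_one, one_mul]
  refine ⟨IsUnit.of_mul_eq_one _ h2, fun v hv m hm => ?_⟩
  have h3 : v = HahnSeries.single (-1 : ℤ) (1 : A) * psl A t' := by
    calc v = (psl A f * (HahnSeries.single (-1 : ℤ) (1 : A) * psl A t')) * v := by
          rw [h2, one_mul]
      _ = (psl A f * v) * (HahnSeries.single (-1 : ℤ) (1 : A) * psl A t') := by ring
      _ = _ := by rw [hv, one_mul]
  rw [h3]
  exact mul_low (a := -1) (b := 0) (fun k hk => HahnSeries.coeff_single_of_ne (by omega))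
    (psl_low t') m (by omega)

end one

section many

variable {I J A : Type} [CommRing A] {P : Subalgebra A (KK I A)} {pt : J → FPt P}

theorem mem_Ipt {r : P} : r ∈ Ipt pt ↔ ∀ j, PowerSeries.constantCoeff ((pt j).h r) = 0 := by
  rw [Ipt, Ideal.mem_iInf]
  rfl

theorem hat_eq_zero {r : P} (h : ∀ i, hat pt r (Sum.inl i) = 0) : r = 0 :=
  Subtype.ext (funext fun i => h i)

/-- The data of AYE. -/
structure Dat (pt : J → FPt P) (y e : P) (d : ℤ) : Prop where
  hy : y ∈ Ipt pt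
  he : e ∈ Ipt pt
  mon : Mon d (y : KK I A)
  hu : ∀ j, IsUnit (PowerSeries.coeff 1 ((pt j).h y))
  hye : ∀ s ∈ Ipt pt, ∃ r : P, (1 - e) * s = y * r

variable {y e : P} {d : ℤ}

theorem Dat.unit (D : Dat pt y e d) : IsUnit (hat pt y) := by
  rw [Pi.isUnit_iff]
  rintro (i | j)
  · exact isUnit_of_lead (-d) (D.mon.1 i) (D.mon.2 i)
  · exact (isUnit_psl (mem_Ipt.1 D.hy j) (D.hu j)).1

/-- (A0) -/
theorem Dat.a0 (D : Dat pt y e d) {w : KK (I ⊕ J) A} (hw : w ∈ WJ pt)
    (h : ∀ i, w (Sum.inl i) = 0) : w = 0 := by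
  obtain ⟨n, hn⟩ := hw
  obtain ⟨r, hr⟩ := hn (y ^ n) (Ideal.pow_mem_pow D.hy n)
  have h1 : r = 0 := hat_eq_zero (pt := pt) fun i => by
    rw [← hr, Pi.mul_apply, h i, mul_zero]
  rw [h1, map_zero, map_pow] at hr
  exact (D.unit.pow n).mul_right_eq_zero.1 hr

theorem Dat.a1one (D : Dat pt y e d) {w : KK (I ⊕ J) A}
    (hreg : ∀ j : J, ∀ m < 0, (w (Sum.inr j)).coeff m = 0)
    (h : ∀ s ∈ Ipt pt, ∃ r : P, hat pt s * w = hat pt r) : ∃ r : P, w = hat pt r := by
  obtain ⟨r, hr⟩ := h y D.hy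
  obtain ⟨r2, hr2⟩ := h e D.he
  have hrI : r ∈ Ipt pt := by
    rw [mem_Ipt]
    intro j
    have h1 := congrFun hr (Sum.inr j)
    rw [Pi.mul_apply, hat_inr, hat_inr] at h1
    have h2 := mul_lead (psl_low ((pt j).h y)) (hreg j)
    rw [h1] at h2
    have h3 := psl_coeff ((pt j).h r) 0
    have h4 := psl_coeff ((pt j).h y) 0
    have h5 := mem_Ipt.1 D.hy j
    rw [PowerSeries.coeff_zero_eq_constantCoeff_apply] at h3 h4
    rw [h5, Nat.cast_zero] at h4
    rw [Nat.cast_zero] at h3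
    rw [add_zero, h4, zero_mul, h3] at h2
    exact h2
  obtain ⟨r', hr'⟩ := D.hye r hrI
  refine ⟨r' + r2, ?_⟩
  have h1 : hat pt y * (hat pt (1 - e) * w) = hat pt y * hat pt r' := by
    rw [← map_mul (hat pt) y r', ← hr', map_mul, ← hr]
    ring
  have h2 := D.unit.mul_left_cancel h1
  rw [map_add, ← hr2, ← h2, map_sub, map_one]
  ring

/-- (A1) -/
theorem Dat.a1 (D : Dat pt y e d) {w : KK (I ⊕ J) A} (hw : w ∈ WJ pt)
    (hreg : ∀ j : J, ∀ m < 0, (w (Sum.inr j)).coeff m = 0) : ∃ r : P, w = hat pt r := by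
  obtain ⟨n, hn⟩ := hw
  induction n generalizing w with
  | zero =>
    obtain ⟨r, hr⟩ := hn 1 (by simp)
    rw [map_one, one_mul] at hr
    exact ⟨r, hr⟩
  | succ n ih =>
    refine ih hreg fun s hs => ?_
    have hreg' : ∀ j : J, ∀ m < 0, ((hat pt s * w) (Sum.inr j)).coeff m = 0 := fun j m hm => by
      rw [Pi.mul_apply, hat_inr]
      exact mul_low (psl_low _) (hreg j) m (by omega)
    refine D.a1one hreg' fun t ht => ?_
    obtain ⟨r, hr⟩ := hn (s * t) (by
      rw [pow_succ]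
      exact Ideal.mul_mem_mul hs ht)
    refine ⟨r, ?_⟩
    rw [← hr, map_mul]
    ring

/-- The element `w₁ = (1 - e)/y`. -/
theorem Dat.exists_w1 (D : Dat pt y e d) : ∃ w₁ ∈ WJ pt, w₁ * hat pt y + hat pt e = 1 ∧
    (∀ j : J, ∀ m < -1, (w₁ (Sum.inr j)).coeff m = 0) ∧
    ∀ j : J, ∃ q : PowerSeries A, PowerSeries.constantCoeff q = 0 ∧
      w₁ (Sum.inr j) * psl A q = 1 := by
  obtain ⟨v, hv⟩ := D.unit.exists_right_inv
  have hvj : ∀ j, psl A ((pt j).h y) * v (Sum.inr j) = 1 := fun j => congrFun hv (Sum.inr j)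
  have hvlow : ∀ j : J, ∀ m < -1, (v (Sum.inr j)).coeff m = 0 := fun j =>
    (isUnit_psl (mem_Ipt.1 D.hy j) (D.hu j)).2 _ (hvj j)
  refine ⟨hat pt (1 - e) * v, ⟨1, fun s hs => ?_⟩, ?_, fun j m hm => ?_, fun j => ?_⟩
  · rw [pow_one] at hs
    obtain ⟨r, hr⟩ := D.hye s hs
    refine ⟨r, ?_⟩
    have h1 : hat pt s * (hat pt (1 - e) * v) = hat pt ((1 - e) * s) * v := by
      rw [map_mul]
      ring
    rw [h1, hr, map_mul]
    have h2 : hat pt y * hat pt r * v = (hat pt y * v) * hat pt r := by ring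
    rw [h2, hv, one_mul]
  · have h1 : hat pt (1 - e) * v * hat pt y = hat pt (1 - e) * (hat pt y * v) := by ring
    rw [h1, hv, mul_one, map_sub, map_one]
    ring
  · rw [Pi.mul_apply, hat_inr]
    exact mul_low (psl_low _) (hvlow j) m (by omega)
  · have h1 : IsUnit ((pt j).h (1 - e)) := by
      rw [PowerSeries.isUnit_iff_constantCoeff, map_sub, map_sub, map_one, map_one,
        mem_Ipt.1 D.he j, sub_zero]
      exact isUnit_one
    obtain ⟨c, hc⟩ := h1.exists_right_inv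
    refine ⟨(pt j).h y * c, ?_, ?_⟩
    · rw [map_mul, mem_Ipt.1 D.hy j, zero_mul]
    · rw [Pi.mul_apply, hat_inr, map_mul]
      have h2 : psl A ((pt j).h (1 - e)) * v (Sum.inr j) * (psl A ((pt j).h y) * psl A c) =
          (psl A ((pt j).h (1 - e)) * psl A c) * (psl A ((pt j).h y) * v (Sum.inr j)) := by ring
      rw [h2, hvj, ← map_mul, hc, map_one, one_mul]

/-- (A4) -/
theorem Dat.a4 (D : Dat pt y e d) (n : ℕ) :
    ∃ (m : ℕ) (s : Fin m → P) (a : Fin m → KK (I ⊕ J) A),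
      (∀ k, s k ∈ Ipt pt ^ n) ∧ (∀ k, a k ∈ WJ pt) ∧ ∑ k, a k * hat pt (s k) = 1 := by
  obtain ⟨w₁, hw, h1, -, -⟩ := D.exists_w1
  refine ⟨n + 1, fun k => y ^ (k : ℕ) * e ^ (n - k), fun k => (n.choose k : KK (I ⊕ J) A) *
    w₁ ^ (k : ℕ), fun k => ?_, fun k => ?_, ?_⟩
  · have h2 : Ipt pt ^ n = Ipt pt ^ (k : ℕ) * Ipt pt ^ (n - k) := by
      rw [← pow_add]
      congr 1
      omega
    rw [h2]
    exact Ideal.mul_mem_mul (Ideal.pow_mem_pow D.hy _) (Ideal.pow_mem_pow D.he _)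
  · exact mul_mem (natCast_mem _ _) (pow_mem hw _)
  · have h3 : (w₁ * hat pt y + hat pt e) ^ n = 1 := by rw [h1, one_pow]
    rw [add_pow, Finset.sum_range] at h3
    rw [← h3]
    refine Finset.sum_congr rfl fun k _ => ?_
    rw [map_mul, map_pow, map_pow, mul_pow]
    ring

/-- (A2) -/
theorem Dat.a2 [Finite J] (D : Dat pt y e d)
    (happ : ∀ (n : ℕ) (f : J → PowerSeries A), ∃ r : P,
      ∀ j, ∀ m < n, PowerSeries.coeff m ((pt j).h r) = PowerSeries.coeff m (f j))
    (f : J → LaurentSeries A) (M : ℤ) :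
    ∃ w ∈ WJ pt, ∀ j, ∀ m < M, (w (Sum.inr j)).coeff m = (f j).coeff m := by
  obtain ⟨n, hn⟩ := exists_Pol (I := J) f
  obtain ⟨w₁, hw, -, hlow, hq⟩ := D.exists_w1
  choose q hq0 hq1 using hq
  have hqlow : ∀ j, ∀ m < (1 : ℤ), (psl A (q j)).coeff m = 0 := fun j => by
    refine psl_low_of (n := 1) fun m hm => ?_
    obtain rfl : m = 0 := by omega
    rw [PowerSeries.coeff_zero_eq_constantCoeff_apply]
    exact hq0 j
  have hg : ∀ j, ∃ g : PowerSeries A, psl A g = f j * psl A (q j) ^ n := fun j => by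
    refine exists_psl fun m hm => ?_
    exact mul_low (hn j) (pow_low (hqlow j) n) m (by rw [mul_one]; omega)
  choose G hG using hg
  obtain ⟨r, hr⟩ := happ (M + n).toNat G
  refine ⟨w₁ ^ n * hat pt r, mul_mem (pow_mem hw n) (hat_mem pt r), fun j m hm => ?_⟩
  have h1 : f j = w₁ (Sum.inr j) ^ n * psl A (G j) := by
    rw [hG]
    have h2 : w₁ (Sum.inr j) ^ n * (f j * psl A (q j) ^ n) =
        f j * (w₁ (Sum.inr j) * psl A (q j)) ^ n := by
      rw [mul_pow]
      ring
    rw [h2, hq1, one_pow, mul_one]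
  have h2 : (w₁ ^ n * hat pt r) (Sum.inr j) - f j =
      w₁ (Sum.inr j) ^ n * psl A ((pt j).h r - G j) := by
    rw [Pi.mul_apply, Pi.pow_apply, hat_inr, map_sub, mul_sub, ← h1]
  have h3 : ∀ m < ((M + n).toNat : ℤ), (psl A ((pt j).h r - G j)).coeff m = 0 :=
    psl_low_of fun m hm => by
      rw [map_sub, hr j m hm, sub_self]
  have h4 : (w₁ (Sum.inr j) ^ n * psl A ((pt j).h r - G j)).coeff m = 0 :=
    mul_low (pow_low (hlow j) n) h3 m (by omega)
  rw [← h2, HahnSeries.coeff_sub] at h4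
  exact sub_eq_zero.1 h4

end many

end AWK

open AWK in
/-- AWK -/
theorem t_AWK (_hKNZ : Stmt_KNZ) (hSBC : Stmt_SBC) (hAYE : Stmt_AYE) : Stmt_AWK := by
  intro I J A _ _ _ _ g P hP hSm pt hdis
  obtain ⟨-, -, happ, y, e, d, hy, he, -, hmon, hu, hye⟩ := hAYE hP hSm pt hdis
  have D : Dat pt y e d := ⟨hy, he, hmon, hu, hye⟩
  have A0 := fun (w : KK (I ⊕ J) A) (hw : w ∈ WJ pt) (h : ∀ i, w (Sum.inl i) = 0) => D.a0 hw h
  have A1 := fun (w : KK (I ⊕ J) A) (hw : w ∈ WJ pt)
    (h : ∀ j : J, ∀ m < 0, (w (Sum.inr j)).coeff m = 0) => D.a1 hw h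
  have A2 := fun (f : J → LaurentSeries A) (M : ℤ) => D.a2 happ f M
  have A4 := fun n : ℕ => D.a4 n
  refine ⟨?_, ?_, ?_, A0, A1, A2, A4⟩
  · -- Krichever ring
    refine ⟨fun f hf hf0 => ?_, ?_⟩
    · obtain ⟨r, rfl⟩ := A1 f hf fun j m hm => hf0 (Sum.inr j) m (by omega)
      obtain ⟨a, ha⟩ := hP.k1 r r.2 fun i m hm => hf0 (Sum.inl i) m hm
      refine ⟨a, ?_⟩
      have h1 : r = algebraMap A P a := Subtype.ext ha
      rw [h1, AlgHom.commutes]
    · obtain ⟨L, hL1, hL2⟩ := hP.k2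
      -- the restriction to `I`
      let R : KK (I ⊕ J) A →ₗ[A] KK I A := LinearMap.funLeft A (LaurentSeries A) Sum.inl
      have hR : ∀ f i, R f i = f (Sum.inl i) := fun _ _ => rfl
      have hL0 : ∀ f ∈ Pol I A 0, L f = 0 := fun f hf =>
        (hL2 f).2 ⟨0, zero_mem P, by rw [sub_zero]; exact hf⟩
      have hLP : ∀ p ∈ P, L p = 0 := fun p hp =>
        (hL2 p).2 ⟨p, hp, by rw [sub_self]; exact zero_mem _⟩
      have hex : ∀ f : KK (I ⊕ J) A, ∃ w ∈ WJ pt,
          ∀ j : J, ∀ m < 0, ((f - w) (Sum.inr j)).coeff m = 0 := fun f => by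
        obtain ⟨w, hw, h⟩ := A2 (fun j => f (Sum.inr j)) 0
        refine ⟨w, hw, fun j m hm => ?_⟩
        rw [Pi.sub_apply, HahnSeries.coeff_sub, h j m hm, sub_self]
      choose W hW1 hW2 using hex
      have key : ∀ (f w w' : KK (I ⊕ J) A), w ∈ WJ pt → w' ∈ WJ pt →
          (∀ j : J, ∀ m < 0, ((f - w) (Sum.inr j)).coeff m = 0) →
          (∀ j : J, ∀ m < 0, ((f - w') (Sum.inr j)).coeff m = 0) →
          L (R (f - w)) = L (R (f - w')) := by
        intro f w w' hw hw' h h'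
        obtain ⟨r, hr⟩ := A1 (w' - w) (sub_mem hw' hw) fun j m hm => by
          have e1 : w' - w = (f - w) - (f - w') := by ring
          rw [e1, Pi.sub_apply, HahnSeries.coeff_sub, h j m hm, h' j m hm, sub_self]
        have h1 : R (f - w) = R (f - w') + (r : KK I A) := by
          have e1 : f - w = (f - w') + (w' - w) := by ring
          rw [e1, map_add, hr]
          rfl
        rw [h1, map_add, hLP _ r.2, add_zero]
      let L' : KK (I ⊕ J) A →ₗ[A] (Fin g → A) :=
        { toFun := fun f => L (R (f - W f))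
          map_add' := fun f f' => by
            rw [key (f + f') (W (f + f')) (W f + W f') (hW1 _) (add_mem (hW1 _) (hW1 _))
              (hW2 _) fun j m hm => ?_, ← map_add, ← map_add]
            · congr 2
              ring
            · have e1 : f + f' - (W f + W f') = (f - W f) + (f' - W f') := by ring
              rw [e1, Pi.add_apply, HahnSeries.coeff_add, hW2 f j m hm, hW2 f' j m hm, add_zero]
          map_smul' := fun a f => by
            rw [key (a • f) (W (a • f)) (a • W f) (hW1 _) ((WJ pt).smul_mem (hW1 _) a)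
              (hW2 _) fun j m hm => ?_, RingHom.id_apply, ← map_smul, ← map_smul, smul_sub]
            rw [← smul_sub, Pi.smul_apply, HahnSeries.coeff_smul, hW2 f j m hm, smul_zero] }
      have hL' : ∀ f, L' f = L (R (f - W f)) := fun _ => rfl
      refine ⟨L', fun c => ?_, fun f => ⟨fun h => ?_, ?_⟩⟩
      · obtain ⟨f₀, hf₀⟩ := hL1 c
        refine ⟨Sum.elim f₀ 0, ?_⟩
        rw [hL', key _ _ 0 (hW1 _) (zero_mem _) (hW2 _) fun j m _ => ?_, sub_zero]
        · exact hf₀
        · rw [sub_zero]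
          exact HahnSeries.coeff_zero
      · obtain ⟨p, hp, hfp⟩ := (hL2 _).1 h
        refine ⟨W f + hat pt ⟨p, hp⟩, add_mem (hW1 f) (hat_mem pt _), ?_⟩
        rintro (i | j) m hm
        · exact (congrArg (fun x : LaurentSeries A => x.coeff m)
            (sub_sub (f (Sum.inl i)) (W f (Sum.inl i)) (p i))).symm.trans (hfp i m hm)
        · have e1 : f - (W f + hat pt ⟨p, hp⟩) = (f - W f) - hat pt ⟨p, hp⟩ := by ring
          rw [neg_zero] at hm
          rw [e1, Pi.sub_apply, HahnSeries.coeff_sub, hW2 f j m hm, hat_inr, psl_low _ m hm,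
            sub_zero]
      · rintro ⟨w, hw, hfw⟩
        rw [hL', key f (W f) w (hW1 f) hw (hW2 f) fun j m hm =>
          hfw (Sum.inr j) m (by rw [neg_zero]; exact hm)]
        exact hL0 _ fun i m hm => hfw (Sum.inl i) m hm
  · -- smoothness
    let _ : Algebra P (WJ pt) :=
      ((hat pt).codRestrict (WJ pt) (hat_mem pt)).toRingHom.toAlgebra
    have hval : ∀ r : P, ((algebraMap P (WJ pt) r : WJ pt) : KK (I ⊕ J) A) = hat pt r :=
      fun _ => rfl
    have : IsScalarTower A P (WJ pt) := IsScalarTower.of_algebraMap_eq fun a =>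
      (((hat pt).codRestrict (WJ pt) (hat_mem pt)).commutes a).symm
    refine hSBC.2.2 (R := P) ⟨fun r r' h => ?_, fun w => ?_⟩ hSm
    · have h1 : hat pt r = hat pt r' := congrArg Subtype.val h
      have h2 : r - r' = 0 := hat_eq_zero (pt := pt) fun i => by
        rw [map_sub, h1, sub_self]
        rfl
      exact sub_eq_zero.1 h2
    · obtain ⟨n, hn⟩ := w.2
      obtain ⟨m, s, a, hs, ha, hsum⟩ := A4 n
      refine ⟨m, s, fun k => ⟨a k, ha k⟩, ?_, fun k => ?_⟩
      · apply Subtype.ext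
        refine Eq.trans ?_ hsum
        simp only [AddSubmonoidClass.coe_finsetSum, MulMemClass.coe_mul, hval]
      · obtain ⟨r, hr⟩ := hn (s k) (hs k)
        exact ⟨r, Subtype.ext hr⟩
  · -- the ring `P` is recovered
    ext f
    constructor
    · rintro ⟨w, hw, hreg, hf⟩
      obtain ⟨r, rfl⟩ := A1 w hw hreg
      have h1 : f = (r : KK I A) := funext fun i => (hf i).symm
      rw [h1]
      exact r.2
    · intro hf
      exact ⟨hat pt ⟨f, hf⟩, hat_mem pt _, fun j m hm => psl_low _ m hm, fun i => rfl⟩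

end Pool.Agent.MG.G0
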