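import Pool.Agent.MG.G0.StmtsS

/-!
# AYE (ADD2): several disjoint formal points
-/

namespace Pool.Agent.MG.G0

namespace AYE

section crt

variable {R J : Type} [CommRing R] [Fintype J] {I : J → Ideal R}

omit [Fintype J] in
theorem cop (h : ∀ j k, j ≠ k → I j ⊔ I k = ⊤) (n : ℕ) :
    Pairwise (Function.onFun IsCoprime fun j => I j ^ n) := fun j k hjk =>
  (Ideal.isCoprime_iff_sup_eq.mpr (h j k hjk)).pow

theorem inf_pow_eq (h : ∀ j k, j ≠ k → I j ⊔ I k = ⊤) (n : ℕ) : (⨅ j, I j) ^ n = ⨅ j, I j ^ n := by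
  have h1 : ∏ j, I j = ⨅ j, I j := by
    have := Ideal.prod_eq_iInf_of_pairwise_isCoprime (s := Finset.univ) (J := I)
      (fun j _ k _ hjk => Ideal.isCoprime_iff_sup_eq.mpr (h j k hjk))
    simpa using this
  have h2 : ∏ j, I j ^ n = ⨅ j, I j ^ n := by
    have := Ideal.prod_eq_iInf_of_pairwise_isCoprime (s := Finset.univ) (J := fun j => I j ^ n)
      (fun j _ k _ hjk => cop h n hjk)
    simpa using this
  rw [← h1, ← h2, Finset.prod_pow]

theorem inf_fg (h : ∀ j k, j ≠ k → I j ⊔ I k = ⊤) (hfg : ∀ j, (I j).FG) : (⨅ j, I j).FG := by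
  have h1 : ∏ j, I j = ⨅ j, I j := by
    have := Ideal.prod_eq_iInf_of_pairwise_isCoprime (s := Finset.univ) (J := I)
      (fun j _ k _ hjk => Ideal.isCoprime_iff_sup_eq.mpr (h j k hjk))
    simpa using this
  rw [← h1]
  refine Finset.prod_induction I Ideal.FG (fun a b ha hb => ha.mul hb) ?_ (fun j _ => hfg j)
  rw [Ideal.one_eq_top]
  exact Ideal.fg_top R

end crt

section mon

variable {I A : Type} [CommRing A]

theorem mon_mul {a b : ℤ} {f g : KK I A} (hf : Mon a f) (hg : Mon b g) : Mon (a + b) (f * g) :=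
  ⟨mul_mem_Pol hf.1 hg.1, fun i => by rw [mul_Pol_lead hf.1 hg.1, hf.2, hg.2, mul_one]⟩

theorem mon_add {a b : ℤ} {f g : KK I A} (hf : Mon a f) (hg : g ∈ Pol I A b) (h : b < a) :
    Mon a (f + g) :=
  ⟨add_mem hf.1 (Pol_mono h.le hg), fun i => by
    rw [Pi.add_apply, HahnSeries.coeff_add, hf.2, hg i _ (by omega), add_zero]⟩

theorem mon_prod {J : Type} {d : ℤ} (s : Finset J) (f : J → KK I A) (hf : ∀ j ∈ s, Mon d (f j)) :
    Mon (s.card * d) (∏ j ∈ s, f j) := by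
  classical
  induction s using Finset.induction_on with
  | empty =>
    rw [Finset.card_empty, Finset.prod_empty]
    refine ⟨?_, fun i => ?_⟩
    · have := one_mem_Pol0 (I := I) (A := A)
      simpa using this
    · simp
  | insert a s ha ih =>
    rw [Finset.prod_insert ha, Finset.card_insert_of_notMem ha]
    have h1 := mon_mul (hf a (Finset.mem_insert_self a s))
      (ih fun j hj => hf j (Finset.mem_insert_of_mem hj))
    have e : ((s.card + 1 : ℕ) : ℤ) * d = d + s.card * d := by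
      push_cast
      ring
    rw [e]
    exact h1

end mon

/-- Nakayama. -/
theorem nak {R : Type} [CommRing R] {I : Ideal R} (hI : I.FG) (y : R)
    (h : ∀ r ∈ I, ∃ b, r - b * y ∈ I ^ 2) :
    ∃ e ∈ I, ∀ s ∈ I, ∃ r, (1 - e) * s = y * r := by
  have h1 : I ≤ Ideal.span {y} ⊔ I • I := fun r hr => by
    obtain ⟨b, hb⟩ := h r hr
    have e : r = b * y + (r - b * y) := by ring
    rw [e]
    refine Submodule.add_mem_sup (Ideal.mul_mem_left _ _ (Ideal.mem_span_singleton_self y)) ?_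
    rw [smul_eq_mul, ← pow_two]
    exact hb
  obtain ⟨r, hr1, hr2⟩ := Submodule.exists_sub_one_mem_and_smul_le_of_fg_of_le_sup
    (I := I) (N := Ideal.span {y}) (N' := I) (P := I) hI le_rfl h1
  refine ⟨1 - r, ?_, fun s hs => ?_⟩
  · have := I.neg_mem hr1
    rwa [neg_sub] at this
  · have h2 : r • s ∈ Ideal.span {y} := hr2 (Submodule.smul_mem_pointwise_smul s r I hs)
    obtain ⟨c, hc⟩ := Ideal.mem_span_singleton'.mp h2
    refine ⟨c, ?_⟩
    rw [sub_sub_cancel, mul_comm y c, hc]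
    rfl

end AYE

theorem t_AYE (hKNZ : Stmt_KNZ) (hAID : Stmt_AID) : Stmt_AYE := by
  classical
  intro I J A _ _ _ _ g P hP hS pt hpt
  have hfg : (Ipt pt).FG := AYE.inf_fg hpt fun j => (hAID hP hS (pt j)).1
  have hpow : ∀ (n : ℕ) (r : P), r ∈ Ipt pt ^ n ↔ ∀ j, r ∈ (pt j).id ^ n := fun n r => by
    have h1 : Ipt pt ^ n = ⨅ j, (pt j).id ^ n := AYE.inf_pow_eq hpt n
    rw [h1, Submodule.mem_iInf]
  have hcrt : ∀ (n : ℕ) (x : J → P), ∃ r : P, ∀ j, r - x j ∈ (pt j).id ^ n := fun n x =>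
    Ideal.exists_forall_sub_mem_ideal (AYE.cop hpt n) x
  have hco : ∀ (n : ℕ) (f : J → PowerSeries A), ∃ r : P,
      ∀ j, ∀ m < n, PowerSeries.coeff m ((pt j).h r) = PowerSeries.coeff m (f j) := by
    intro n f
    choose x hx using fun j => (hAID hP hS (pt j)).2.2.2 n (f j)
    obtain ⟨r, hr⟩ := hcrt n x
    refine ⟨r, fun j m hm => ?_⟩
    have h1 := ((hAID hP hS (pt j)).2.2.1 n (r - x j)).mp (hr j) m hm
    rw [map_sub, map_sub, sub_eq_zero] at h1
    rw [h1, hx j m hm]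
  refine ⟨hfg, hpow, hco, ?_⟩
  -- the elements `x_j`
  have hx0 : ∀ j, (pt j).x - algebraMap A P ((pt j).ev (pt j).x) ∈ (pt j).id := fun j => by
    rw [FPt.mem_id, FPt.ev, map_sub, map_sub, AlgHom.commutes]
    change _ - PowerSeries.constantCoeff (PowerSeries.C ((pt j).ev (pt j).x)) = 0
    rw [PowerSeries.constantCoeff_C]
    exact sub_self _
  obtain ⟨y1, hy1⟩ := hcrt 2 fun j => (pt j).x - algebraMap A P ((pt j).ev (pt j).x)
  have hy1I : ∀ j, y1 ∈ (pt j).id := fun j => by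
    have h1 := Ideal.pow_le_self two_ne_zero (hy1 j)
    have h2 := (pt j).id.add_mem h1 (hx0 j)
    rwa [sub_add_cancel] at h2
  -- a monic element
  obtain ⟨⟨N, hN⟩, hKN⟩ := hKNZ hP
  obtain ⟨n1, hn1⟩ := exists_Pol (y1 : KK I A)
  obtain ⟨z, hzP, hz⟩ := (hKN N hN).2.2 ((N : ℤ) + n1 + 1) (by omega)
  have hzc : ∀ j : J, Mon ((N : ℤ) + n1 + 1)
      ((⟨z, hzP⟩ - algebraMap A P ((pt j).ev ⟨z, hzP⟩) : P) : KK I A) := fun j => by
    have h1 := AYE.mon_add hz (algebraMap_mem_Pol0 (I := I) (-(pt j).ev ⟨z, hzP⟩)) (by omega)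
    rw [map_neg, ← sub_eq_add_neg] at h1
    exact h1
  have hzI : ∀ j : J, (⟨z, hzP⟩ - algebraMap A P ((pt j).ev ⟨z, hzP⟩) : P) ∈ (pt j).id :=
    fun j => by
    rw [FPt.mem_id, FPt.ev, map_sub, map_sub, AlgHom.commutes]
    change _ - PowerSeries.constantCoeff (PowerSeries.C ((pt j).ev ⟨z, hzP⟩)) = 0
    rw [PowerSeries.constantCoeff_C]
    exact sub_self _
  let w : P := ⟨z, hzP⟩ * ∏ j, (⟨z, hzP⟩ - algebraMap A P ((pt j).ev ⟨z, hzP⟩))
  have hwI : ∀ j, w ∈ (pt j).id := fun j => Ideal.mul_mem_left _ _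
    (Ideal.mem_of_dvd _ (Finset.dvd_prod_of_mem _ (Finset.mem_univ j)) (hzI j))
  have hwM : Mon (((N : ℤ) + n1 + 1) + (Finset.univ : Finset J).card * ((N : ℤ) + n1 + 1))
      (w : KK I A) := by
    have h1 := AYE.mon_mul hz (AYE.mon_prod (d := (N : ℤ) + n1 + 1) Finset.univ
      (fun j : J => ((⟨z, hzP⟩ - algebraMap A P ((pt j).ev ⟨z, hzP⟩) : P) : KK I A))
      fun j _ => hzc j)
    have e : (w : KK I A) = z * ∏ j : J, ((⟨z, hzP⟩ - algebraMap A P ((pt j).ev ⟨z, hzP⟩) : P) :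
        KK I A) := by
      change ((⟨z, hzP⟩ * ∏ j, (⟨z, hzP⟩ - algebraMap A P ((pt j).ev ⟨z, hzP⟩)) : P) : KK I A) = _
      rw [MulMemClass.coe_mul]
      congr 1
      exact map_prod P.val _ _
    rw [e]
    exact h1
  obtain ⟨d, hd, hwM⟩ : ∃ d : ℤ, (n1 : ℤ) + 1 ≤ d ∧ Mon d (w : KK I A) :=
    ⟨_, by
      have : (0 : ℤ) ≤ (Finset.univ : Finset J).card * ((N : ℤ) + n1 + 1) := by positivity
      omega, hwM⟩
  have hw2 : ∀ j, w ^ 2 ∈ (pt j).id ^ 2 := fun j => Ideal.pow_mem_pow (hwI j) 2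
  have hy2 : ∀ j, y1 + w ^ 2 - ((pt j).x - algebraMap A P ((pt j).ev (pt j).x)) ∈
      (pt j).id ^ 2 := fun j => by
    have h1 := Ideal.add_mem _ (hy1 j) (hw2 j)
    have e : y1 + w ^ 2 - ((pt j).x - algebraMap A P ((pt j).ev (pt j).x)) =
        y1 - ((pt j).x - algebraMap A P ((pt j).ev (pt j).x)) + w ^ 2 := by ring
    rw [e]
    exact h1
  have hyI : ∀ j, y1 + w ^ 2 ∈ (pt j).id := fun j =>
    Ideal.add_mem _ (hy1I j) (Ideal.pow_le_self two_ne_zero (hw2 j))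
  have hyM : Mon (d + d) ((y1 + w ^ 2 : P) : KK I A) := by
    have h1 := AYE.mon_add (AYE.mon_mul hwM hwM) hn1 (by omega)
    have e : ((y1 + w ^ 2 : P) : KK I A) = (w : KK I A) * w + y1 := by
      rw [AddMemClass.coe_add, SubmonoidClass.coe_pow, pow_two, add_comm]
    rw [e]
    exact h1
  have hyIpt : y1 + w ^ 2 ∈ Ipt pt := (Submodule.mem_iInf _).mpr hyI
  have hstep : ∀ r ∈ Ipt pt, ∃ b, r - b * (y1 + w ^ 2) ∈ Ipt pt ^ 2 := by
    intro r hr
    have hrj : ∀ j, r ∈ (pt j).id := (Submodule.mem_iInf _).mp hr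
    choose a ha using fun j => (hAID hP hS (pt j)).2.1 1 r (by rw [pow_one]; exact hrj j)
    obtain ⟨b, hb⟩ := hcrt 1 fun j => algebraMap A P (a j)
    refine ⟨b, (hpow 2 _).mpr fun j => ?_⟩
    have h1 := ha j
    rw [pow_one, Algebra.smul_def] at h1
    have h2 : algebraMap A P (a j) *
        (y1 + w ^ 2 - ((pt j).x - algebraMap A P ((pt j).ev (pt j).x))) ∈ (pt j).id ^ 2 :=
      Ideal.mul_mem_left _ _ (hy2 j)
    have h3 : (b - algebraMap A P (a j)) * (y1 + w ^ 2) ∈ (pt j).id ^ 2 := by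
      have h4 := hb j
      rw [pow_one] at h4
      rw [pow_two]
      exact Ideal.mul_mem_mul h4 (hyI j)
    have e : r - b * (y1 + w ^ 2) =
        (r - algebraMap A P (a j) * ((pt j).x - algebraMap A P ((pt j).ev (pt j).x))) -
        algebraMap A P (a j) *
          (y1 + w ^ 2 - ((pt j).x - algebraMap A P ((pt j).ev (pt j).x))) -
        (b - algebraMap A P (a j)) * (y1 + w ^ 2) := by ring
    rw [e]
    exact Ideal.sub_mem _ (Ideal.sub_mem _ h1 h2) h3
  obtain ⟨e, he, hes⟩ := AYE.nak hfg _ hstep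
  refine ⟨y1 + w ^ 2, e, d + d, hyIpt, he, by omega, hyM, fun j => ?_, hes⟩
  have h1 := ((hAID hP hS (pt j)).2.2.1 2 _).mp (hy2 j) 1 (by norm_num)
  rw [map_sub, map_sub, map_sub, map_sub, AlgHom.commutes, sub_eq_zero] at h1
  rw [h1]
  have h2 : PowerSeries.coeff 1 (algebraMap A (PowerSeries A) ((pt j).ev (pt j).x)) = 0 := by
    change PowerSeries.coeff 1 (PowerSeries.C ((pt j).ev (pt j).x)) = 0
    rw [PowerSeries.coeff_C, if_neg one_ne_zero]
  rw [h2, sub_zero]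
  exact (pt j).par

end Pool.Agent.MG.G0
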