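import Pool.Agent.MG.G0.StmtsB

/-!
# The core lemma
-/

open Polynomial

namespace Pool.Agent.MG.G0

namespace Core

section

variable {Λ K ι : Type} [CommRing Λ] [CommRing K] [Algebra Λ K] [Fintype ι]

/-- The elements of `Λ` in `K`. -/
def InL (Λ : Type) {K : Type} [CommRing Λ] [CommRing K] [Algebra Λ K] (x : K) : Prop :=
  ∃ a : Λ, x = algebraMap Λ K a

theorem InL.add {x y : K} (hx : InL Λ x) (hy : InL Λ y) : InL Λ (x + y) := by
  obtain ⟨a, rfl⟩ := hx
  obtain ⟨b, rfl⟩ := hy
  exact ⟨a + b, (map_add _ _ _).symm⟩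

theorem InL.mul {x y : K} (hx : InL Λ x) (hy : InL Λ y) : InL Λ (x * y) := by
  obtain ⟨a, rfl⟩ := hx
  obtain ⟨b, rfl⟩ := hy
  exact ⟨a * b, (map_mul _ _ _).symm⟩

theorem InL.sub {x y : K} (hx : InL Λ x) (hy : InL Λ y) : InL Λ (x - y) := by
  obtain ⟨a, rfl⟩ := hx
  obtain ⟨b, rfl⟩ := hy
  exact ⟨a - b, (map_sub _ _ _).symm⟩

theorem InL.zero : InL Λ (0 : K) := ⟨0, (map_zero _).symm⟩

theorem InL.c (a : Λ) : InL Λ (algebraMap Λ K a) := ⟨a, rfl⟩

theorem InL.sum {α : Type} (s : Finset α) (f : α → K) (h : ∀ i ∈ s, InL Λ (f i)) :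
    InL Λ (∑ i ∈ s, f i) := by
  classical
  induction s using Finset.induction_on with
  | empty => exact InL.zero
  | insert a s ha ih =>
    rw [Finset.sum_insert ha]
    exact (h a (Finset.mem_insert_self _ _)).add (ih fun i hi => h i (Finset.mem_insert_of_mem hi))

variable {P : Subalgebra Λ K} {t : K →ₗ[Λ] K} {e es : ι → K}

theorem InL.mem {x : K} (hx : InL Λ x) : x ∈ P := by
  obtain ⟨a, rfl⟩ := hx
  exact P.algebraMap_mem a

theorem tc (t : K →ₗ[Λ] K) (a : Λ) (x : K) :
    t (algebraMap Λ K a * x) = algebraMap Λ K a * t x := by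
  rw [← Algebra.smul_def, map_smul, Algebra.smul_def]

variable [DecidableEq ι] (P t e es)

/-- The data of the core lemma. -/
structure CD : Prop where
  tf : ∀ (a : Λ) (x : K), a ≠ 0 → algebraMap Λ K a * x = 0 → x = 0
  tt : ∀ x y, t (t x * y) = t x * t y
  t1 : t 1 = 1
  he : ∀ i, e i ∈ P
  du : ∀ i j, t (e i * es j) = if i = j then 1 else 0
  ex : ∀ x, x = ∑ j, t (x * es j) * e j
  tP : ∀ p ∈ P, InL Λ (t p)
  tE : ∀ p ∈ P, ∀ j, InL Λ (t (p * es j))
  tr : ∀ x ∈ P, ∑ j, t (x * e j * es j) = (Fintype.card ι : K) * t x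
  un : IsUnit ((2 * Fintype.card ι : ℕ) : Λ)

/-- The dual of `P`. -/
def Dl (x : K) : Prop := ∀ p ∈ P, InL Λ (t (x * p))

/-- A derivation modulo `P`. -/
structure MD (P : Subalgebra Λ K) (D : K → K) : Prop where
  add : ∀ x ∈ P, ∀ y ∈ P, D (x + y) - D x - D y ∈ P
  mul : ∀ x ∈ P, ∀ y ∈ P, D (x * y) - x * D y - y * D x ∈ P
  c : ∀ a : Λ, D (algebraMap Λ K a) ∈ P

variable {P t e es}

theorem MD.smul {D : K → K} (hD : MD P D) (a : Λ) {x : K} (hx : x ∈ P) :
    D (algebraMap Λ K a * x) - algebraMap Λ K a * D x ∈ P := by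
  have h1 := hD.mul _ (P.algebraMap_mem a) x hx
  have h2 := P.mul_mem hx (hD.c a)
  have : D (algebraMap Λ K a * x) - algebraMap Λ K a * D x =
    (D (algebraMap Λ K a * x) - algebraMap Λ K a * D x - x * D (algebraMap Λ K a)) +
      x * D (algebraMap Λ K a) := by ring
  rw [this]
  exact P.add_mem h1 h2

theorem MD.sum {D : K → K} (hD : MD P D) {α : Type} (s : Finset α) (f : α → K)
    (h : ∀ i ∈ s, f i ∈ P) : D (∑ i ∈ s, f i) - ∑ i ∈ s, D (f i) ∈ P := by
  classical
  induction s using Finset.induction_on with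
  | empty =>
    have := hD.c 0
    rw [map_zero] at this
    simpa using this
  | insert a s ha ih =>
    rw [Finset.sum_insert ha, Finset.sum_insert ha]
    have h1 := ih fun i hi => h i (Finset.mem_insert_of_mem hi)
    have h2 := hD.add (f a) (h a (Finset.mem_insert_self _ _)) (∑ i ∈ s, f i)
      (P.sum_mem fun i hi => h i (Finset.mem_insert_of_mem hi))
    have : D (f a + ∑ i ∈ s, f i) - (D (f a) + ∑ i ∈ s, D (f i)) =
        (D (f a + ∑ i ∈ s, f i) - D (f a) - D (∑ i ∈ s, f i)) +
          (D (∑ i ∈ s, f i) - ∑ i ∈ s, D (f i)) := by ring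
    rw [this]
    exact P.add_mem h2 h1

theorem MD.lin {D : K → K} (hD : MD P D) {α : Type} (s : Finset α) (a : α → Λ) (f : α → K)
    (h : ∀ i, f i ∈ P) : D (∑ i ∈ s, algebraMap Λ K (a i) * f i) -
      ∑ i ∈ s, algebraMap Λ K (a i) * D (f i) ∈ P := by
  have h1 := hD.sum s (fun i => algebraMap Λ K (a i) * f i) fun i _ =>
    P.mul_mem (P.algebraMap_mem _) (h i)
  have h2 : ∑ i ∈ s, (D (algebraMap Λ K (a i) * f i) - algebraMap Λ K (a i) * D (f i)) ∈ P :=
    P.sum_mem fun i _ => hD.smul (a i) (h i)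
  rw [Finset.sum_sub_distrib] at h2
  have := P.add_mem h1 h2
  rwa [sub_add_sub_cancel] at this

section CDs

variable (H : CD P t e es)

include H

theorem CD.zero_of {y : K} (h : ∀ k, t (y * e k) = 0) : y = 0 := by
  have h1 : ∀ u, t (y * u) = 0 := by
    intro u
    rw [H.ex u, Finset.mul_sum, map_sum]
    refine Finset.sum_eq_zero fun j _ => ?_
    rw [show y * (t (u * es j) * e j) = t (u * es j) * (y * e j) by ring, H.tt, h j, mul_zero]
  rw [H.ex y]
  refine Finset.sum_eq_zero fun j _ => ?_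
  rw [h1, zero_mul]

theorem CD.ex' (x : K) : x = ∑ j, t (x * e j) * es j := by
  rw [← sub_eq_zero]
  refine H.zero_of fun k => ?_
  rw [sub_mul, map_sub, Finset.sum_mul, map_sum]
  have : ∀ j, t (t (x * e j) * es j * e k) = if k = j then t (x * e k) else 0 := by
    intro j
    rw [mul_assoc, H.tt, mul_comm (es j), H.du]
    split_ifs with h
    · rw [mul_one, h]
    · rw [mul_zero]
  simp only [this, Finset.sum_ite_eq, Finset.mem_univ, if_true, sub_self]

theorem CD.card : ∑ j, e j * es j = (Fintype.card ι : K) := by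
  rw [← sub_eq_zero]
  refine H.zero_of fun k => ?_
  have h1 := H.tr (e k) (H.he k)
  rw [sub_mul, map_sub, Finset.sum_mul, map_sum]
  have h2 : ∀ j, t (e j * es j * e k) = t (e k * e j * es j) := fun j => by
    congr 1
    ring
  simp only [h2]
  rw [h1]
  have h3 : t ((Fintype.card ι : K) * e k) = (Fintype.card ι : K) * t (e k) := by
    have := tc t (Fintype.card ι : Λ) (e k)
    rwa [map_natCast] at this
  rw [h3, sub_self]

theorem CD.dle (j : ι) : Dl P t (es j) := fun p hp => by
  rw [mul_comm]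
  exact H.tE p hp j

theorem CD.mem_of {x : K} (h : ∀ j, InL Λ (t (x * es j))) : x ∈ P := by
  rw [H.ex x]
  exact P.sum_mem fun j _ => P.mul_mem (h j).mem (H.he j)

theorem CD.casimir {D : K → K} (hD : MD P D) {p : K} (hp : ∀ j, p * es j ∈ P) {h : K}
    (hh : h ∈ P) : p * D h ∈ P := by
  have hH : ∀ k j, ∃ a : Λ, t (h * e j * es k) = algebraMap Λ K a := fun k j =>
    H.tE _ (P.mul_mem hh (H.he j)) k
  choose M hM using hH
  have h1 : ∀ j, h * e j = ∑ k, algebraMap Λ K (M k j) * e k := by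
    intro j
    conv_lhs => rw [H.ex (h * e j)]
    exact Finset.sum_congr rfl fun k _ => by rw [hM]
  have h2 : ∀ k, h * es k = ∑ j, algebraMap Λ K (M k j) * es j := by
    intro k
    conv_lhs => rw [H.ex' (h * es k)]
    refine Finset.sum_congr rfl fun j _ => ?_
    rw [← hM, show h * es k * e j = h * e j * es k by ring]
  have h3 : ∑ j, p * es j * D (h * e j) - ∑ k, p * (h * es k) * D (e k) ∈ P := by
    have h4 : ∑ j, p * es j * (D (h * e j) - ∑ k, algebraMap Λ K (M k j) * D (e k)) ∈ P := by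
      refine P.sum_mem fun j _ => P.mul_mem (hp j) ?_
      rw [h1 j]
      exact hD.lin _ _ _ H.he
    have h5 : ∑ k, p * (h * es k) * D (e k) =
        ∑ j, p * es j * ∑ k, algebraMap Λ K (M k j) * D (e k) := by
      simp only [h2, Finset.mul_sum, Finset.sum_mul]
      rw [Finset.sum_comm]
      refine Finset.sum_congr rfl fun j _ => Finset.sum_congr rfl fun k _ => by ring
    rw [h5, ← Finset.sum_sub_distrib]
    simpa only [mul_sub] using h4
  have h6 : ∑ j, p * es j * (D (h * e j) - h * D (e j) - e j * D h) ∈ P :=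
    P.sum_mem fun j _ => P.mul_mem (hp j) (hD.mul _ hh _ (H.he j))
  have h7 : ∑ j, p * es j * (D (h * e j) - h * D (e j) - e j * D h) =
      (∑ j, p * es j * D (h * e j) - ∑ k, p * (h * es k) * D (e k)) -
        (Fintype.card ι : K) * (p * D h) := by
    rw [← H.card, Finset.sum_mul, ← Finset.sum_sub_distrib, ← Finset.sum_sub_distrib]
    refine Finset.sum_congr rfl fun j _ => by ring
  rw [h7] at h6
  have h8 : (Fintype.card ι : K) * (p * D h) ∈ P := by
    have := P.sub_mem h3 h6
    rwa [sub_sub_cancel] at this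
  have hu := H.un
  obtain ⟨v, hv⟩ := hu.exists_left_inv
  have h9 : p * D h = algebraMap Λ K v * (2 * ((Fintype.card ι : K) * (p * D h))) := by
    have h10 := congrArg (algebraMap Λ K) hv
    rw [map_mul, map_natCast, map_one] at h10
    push_cast at h10
    linear_combination -(p * D h) * h10
  rw [h9]
  exact P.mul_mem (P.algebraMap_mem _) (P.mul_mem (by
    have := P.algebraMap_mem (2 : Λ)
    rwa [map_ofNat] at this) h8)

/-- The data with a generator `w` of the dual modulo `P`. -/
structure WD (P : Subalgebra Λ K) (t : K →ₗ[Λ] K) (w : K) (f : Λ) : Prop where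
  dl : Dl P t w
  ge : ∀ x, Dl P t x → ∃ p ∈ P, ∃ a : Λ, x = p + algebraMap Λ K a * w
  f0 : f ≠ 0
  or : ∀ a : Λ, algebraMap Λ K a * w ∈ P ↔ f ∣ a

omit H in
theorem WD.r {w : K} {f : Λ} (W : WD P t w f) {x : K} (hx : x ∈ P) :
    ∃ r : Λ, x * w - algebraMap Λ K r * w ∈ P := by
  obtain ⟨p, hp, a, h⟩ := W.ge (x * w) fun q hq => by
    rw [show x * w * q = w * (x * q) by ring]
    exact W.dl _ (P.mul_mem hx hq)
  exact ⟨a, by rw [h, add_sub_cancel_right]; exact hp⟩

omit H in
theorem WD.red {w : K} {f : Λ} (W : WD P t w f) {x : K} (hx : x ∈ P) {r : Λ}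
    (hr : x * w - algebraMap Λ K r * w ∈ P) {u : K} (hu : Dl P t u) :
    (x - algebraMap Λ K r) * u ∈ P := by
  obtain ⟨p, hp, a, rfl⟩ := W.ge u hu
  have : (x - algebraMap Λ K r) * (p + algebraMap Λ K a * w) =
      (x - algebraMap Λ K r) * p + algebraMap Λ K a * (x * w - algebraMap Λ K r * w) := by ring
  rw [this]
  exact P.add_mem (P.mul_mem (P.sub_mem hx (P.algebraMap_mem r)) hp)
    (P.mul_mem (P.algebraMap_mem a) hr)

/-- Values of the derivation are in the dual. -/
theorem CD.dual {w : K} {f : Λ} (W : WD P t w f) {D : K → K} (hD : MD P D)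
    (htD : ∀ x ∈ P, InL Λ (t (D x))) {h : K} (hh : h ∈ P) : Dl P t (D h) := by
  intro x hx
  obtain ⟨r, hr⟩ := W.r hx
  have h1 : (x - algebraMap Λ K r) * D h ∈ P :=
    H.casimir hD (fun j => W.red hx hr (H.dle j)) hh
  have h2 : t (D h * x) = t ((x - algebraMap Λ K r) * D h) + algebraMap Λ K r * t (D h) := by
    rw [← tc, ← map_add]
    congr 1
    ring
  rw [h2]
  exact (H.tP _ h1).add ((InL.c r).mul (htD h hh))

theorem CD.main [IsDomain Λ] [IsPrincipalIdealRing Λ] {w : K} {f : Λ} (W : WD P t w f)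
    [Nontrivial K] {D : K → K} (hD : MD P D) (htD : ∀ x ∈ P, InL Λ (t (D x)))
    (hdet : InL Λ (∑ j, t (es j * D (e j)))) {x : K} (hx : x ∈ P) : D x ∈ P := by
  have hinj : Function.Injective (algebraMap Λ K) := by
    rw [injective_iff_map_eq_zero]
    intro a ha
    by_contra h0
    have := H.tf a 1 h0 (by rw [ha, zero_mul])
    exact one_ne_zero this
  set c := algebraMap Λ K with hc
  set n : K := (Fintype.card ι : K) with hn
  -- the element `F = f w`
  obtain ⟨F, hF⟩ : ∃ F, F = c f * w := ⟨_, rfl⟩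
  have hFP : F ∈ P := by
    rw [hF, W.or]
  have hFj : ∀ j, ∃ a : Λ, t (F * es j) = c a := fun j => H.tE F hFP j
  choose Fj hFj using hFj
  have hFe : F = ∑ j, c (Fj j) * e j := by
    conv_lhs => rw [H.ex F]
    exact Finset.sum_congr rfl fun j _ => by rw [hFj]
  choose r hr using fun j => W.r (H.he j)
  obtain ⟨y, hy⟩ : ∃ y : ι → K, ∀ j, y j = e j * w - c (r j) * w := ⟨_, fun _ => rfl⟩
  have hyP : ∀ j, y j ∈ P := fun j => by
    rw [hy]
    exact hr j
  have hew : ∀ j, e j * w = c (r j) * w + y j := fun j => by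
    rw [hy]
    ring
  -- D F ∈ P
  have hDd : ∀ h ∈ P, Dl P t (D h) := fun h hh => H.dual W hD htD hh
  have hDF : D F ∈ P := by
    have h1 : ∀ j, ∃ p ∈ P, ∃ a : Λ, D (e j) = p + c a * w := fun j => W.ge _ (hDd _ (H.he j))
    choose p hp a ha using h1
    obtain ⟨σ, hσ⟩ : InL Λ (∑ j, c (a j) * t (es j * w)) := by
      have h2 : ∑ j, c (a j) * t (es j * w) = ∑ j, t (es j * D (e j)) - ∑ j, t (es j * p j) := by
        rw [← Finset.sum_sub_distrib]
        refine Finset.sum_congr rfl fun j _ => ?_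
        rw [← tc, ← map_sub, ha]
        congr 1
        ring
      rw [h2]
      exact hdet.sub (InL.sum _ _ fun j _ => H.dle j _ (hp j))
    have h3 := hD.lin Finset.univ Fj e H.he
    rw [← hFe] at h3
    have h4 : ∑ j, c (Fj j) * D (e j) = (∑ j, c (Fj j) * p j) + c σ * F := by
      rw [← hσ, hF, Finset.sum_mul, ← Finset.sum_add_distrib]
      refine Finset.sum_congr rfl fun j _ => ?_
      have h5 : c (Fj j) = c f * t (es j * w) := by
        rw [← hFj, hF, ← tc]
        congr 1
        ring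
      rw [ha, h5]
      ring
    have h6 : ∑ j, c (Fj j) * D (e j) ∈ P := by
      rw [h4]
      exact P.add_mem (P.sum_mem fun j _ => P.mul_mem (P.algebraMap_mem _) (hp j))
        (P.mul_mem (P.algebraMap_mem _) hFP)
    have := P.add_mem h3 h6
    rwa [sub_add_cancel] at this
  -- the trace of `F`
  have h6 : ∃ c' : Λ, ∑ j, Fj j * r j = f * c' := by
    have h1 := H.tr F hFP
    obtain ⟨v, hv⟩ : InL Λ (t w) := by
      have := W.dl 1 P.one_mem
      rwa [mul_one] at this
    have h2 : ∀ j, ∃ z : Λ, t (y j * es j) = c z := fun j => H.tE _ (hyP j) j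
    choose z hz using h2
    have h3 : ∀ j, t (F * e j * es j) = c (Fj j * r j + f * z j) := by
      intro j
      have : F * e j * es j = c (r j) * (F * es j) + c f * (y j * es j) := by
        rw [hF]
        linear_combination c f * es j * hew j
      rw [this, map_add, tc, tc, hFj, hz, map_add, map_mul, map_mul]
      ring
    have h4 : t F = c f * c v := by rw [hF, tc, hv]
    simp only [h3] at h1
    rw [← map_sum, h4, Finset.sum_add_distrib, ← Finset.mul_sum] at h1
    have h5 : c (∑ j, Fj j * r j) = c (f * (Fintype.card ι * v - ∑ j, z j)) := by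
      rw [map_add, map_mul] at h1
      rw [map_mul, map_sub, map_mul, map_natCast]
      linear_combination h1
    exact ⟨_, hinj h5⟩
  obtain ⟨c', hc'⟩ := h6
  obtain ⟨y0, hy0⟩ : ∃ y0, y0 = F * w := ⟨_, rfl⟩
  have hy0e : y0 = c c' * F + ∑ j, c (Fj j) * y j := by
    have h1 : F * w = ∑ j, c (Fj j) * (e j * w) := by
      conv_lhs => rw [hFe]
      rw [Finset.sum_mul]
      exact Finset.sum_congr rfl fun j _ => by ring
    rw [hy0, h1]
    simp only [hew, mul_add]
    rw [Finset.sum_add_distrib]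
    congr 1
    have h2 := congrArg c hc'
    rw [map_sum, map_mul] at h2
    rw [hF, ← mul_assoc, mul_comm (c c'), ← h2, Finset.sum_mul]
    exact Finset.sum_congr rfl fun j _ => by rw [map_mul]; ring
  have hy0P : y0 ∈ P := by
    rw [hy0e]
    exact P.add_mem (P.mul_mem (P.algebraMap_mem _) hFP)
      (P.sum_mem fun j _ => P.mul_mem (P.algebraMap_mem _) (hyP j))
  -- second reduction
  choose s hs using fun j => W.r (hyP j)
  obtain ⟨z, hz⟩ : ∃ z : ι → K, ∀ j, z j = y j * w - c (s j) * w := ⟨_, fun _ => rfl⟩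
  have hzP : ∀ j, z j ∈ P := fun j => by
    rw [hz]
    exact hs j
  have hyw : ∀ j, y j * w = c (s j) * w + z j := fun j => by
    rw [hz]
    ring
  have hY : ∀ j, ∃ a : Λ, t (y0 * es j) = c a := fun j => H.tE y0 hy0P j
  choose Y hY using hY
  -- `y0 w ≡ ρ w`
  obtain ⟨ρ, hρ⟩ : ∃ ρ, ρ = ∑ j, r j * Y j := ⟨_, rfl⟩
  have hy0w : y0 * w - c ρ * w ∈ P := by
    have h1 : y0 = ∑ j, c (Y j) * e j := by
      conv_lhs => rw [H.ex y0]
      exact Finset.sum_congr rfl fun j _ => by rw [hY]
    have h2 : y0 * w - c ρ * w = ∑ j, c (Y j) * y j := by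
      rw [hρ, map_sum, Finset.sum_mul]
      conv_lhs => rw [h1]
      rw [Finset.sum_mul, ← Finset.sum_sub_distrib]
      refine Finset.sum_congr rfl fun j _ => ?_
      rw [map_mul]
      linear_combination c (Y j) * hew j
    rw [h2]
    exact P.sum_mem fun j _ => P.mul_mem (P.algebraMap_mem _) (hyP j)
  have hy0w' : y0 * w - c (∑ j, Fj j * s j) * w ∈ P := by
    have h2 : y0 * w - c (∑ j, Fj j * s j) * w = c c' * y0 + ∑ j, c (Fj j) * z j := by
      have h3 : y0 * w = c c' * (F * w) + ∑ j, c (Fj j) * (y j * w) := by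
        conv_lhs => rw [hy0e]
        rw [add_mul, Finset.sum_mul]
        congr 1
        · ring
        · exact Finset.sum_congr rfl fun j _ => by ring
      rw [h3, ← hy0, map_sum, Finset.sum_mul]
      simp only [hyw, mul_add, Finset.sum_add_distrib]
      have : ∑ j, c (Fj j) * (c (s j) * w) = ∑ j, c (Fj j * s j) * w :=
        Finset.sum_congr rfl fun j _ => by rw [map_mul]; ring
      rw [this]
      ring
    rw [h2]
    exact P.add_mem (P.mul_mem (P.algebraMap_mem _) hy0P)
      (P.sum_mem fun j _ => P.mul_mem (P.algebraMap_mem _) (hzP j))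
  obtain ⟨u1, hu1⟩ : f ∣ ∑ j, Fj j * s j - ρ := by
    rw [← W.or, map_sub, sub_mul]
    have := P.sub_mem hy0w hy0w'
    rwa [sub_sub_sub_cancel_left] at this
  obtain ⟨τ, hτ⟩ := H.tP y0 hy0P
  have h7 : ∃ u : Λ, (Fintype.card ι : Λ) * τ = 2 * ρ + f * u := by
    have h1 := H.tr y0 hy0P
    have h2 : ∀ j, ∃ z' : Λ, t (z j * es j) = c z' := fun j => H.tE _ (hzP j) j
    choose z' hz' using h2
    have h3 : ∀ j, t (y0 * e j * es j) = c (r j * Y j + Fj j * s j + f * z' j) := by
      intro j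
      have : y0 * e j * es j = c (r j) * (y0 * es j) + (c (s j) * (F * es j) +
          c f * (z j * es j)) := by
        have e1 : y0 * e j = c (r j) * y0 + y j * F := by
          rw [hy0]
          linear_combination F * hew j
        have e2 : y j * F = c (s j) * F + c f * z j := by
          rw [hF]
          linear_combination c f * hyw j
        rw [e1, e2]
        ring
      rw [this, map_add, map_add, tc, tc, tc, hFj, hY, hz', map_add, map_add, map_mul, map_mul,
        map_mul]
      ring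
    simp only [h3] at h1
    rw [← map_sum, hτ, Finset.sum_add_distrib, Finset.sum_add_distrib, ← hρ, ← Finset.mul_sum]
      at h1
    have h5 : c (Fintype.card ι * τ) = c (2 * ρ + f * (u1 + ∑ j, z' j)) := by
      rw [map_mul, map_natCast]
      change n * c τ = _
      rw [← h1]
      congr 1
      linear_combination hu1
    exact ⟨_, hinj h5⟩
  obtain ⟨u2, hu2⟩ := h7
  -- `τ` is prime to `f`
  have h8 : IsCoprime τ f := by
    rw [isCoprime_comm]
    refine isCoprime_of_prime_dvd (fun h => W.f0 h.1) ?_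
    rintro ϖ hϖ ⟨f1, hf1⟩ ⟨b, hb⟩
    have h9 : c f1 * w ∈ P := by
      refine H.mem_of fun j => ?_
      obtain ⟨p, hp, a, ha⟩ := W.ge _ (H.dle j)
      have e1 : t (c f1 * w * es j) = c f1 * t (w * p) + c a * t (c f1 * w * w) := by
        rw [← tc, ← tc, ← map_add, ha]
        congr 1
        ring
      have e2 : t (c f1 * w * w) = c b := by
        rw [← sub_eq_zero]
        refine H.tf ϖ _ hϖ.ne_zero ?_
        have : c ϖ * t (c f1 * w * w) = t y0 := by
          rw [← tc, hy0, hF, hf1, hc, (algebraMap Λ K).map_mul]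
          congr 1
          ring
        rw [mul_sub, this, hτ, hb, map_mul, sub_self]
      rw [e1, e2]
      exact ((InL.c _).mul (W.dl p hp)).add ((InL.c _).mul (InL.c _))
    rw [W.or] at h9
    obtain ⟨v, hv⟩ := h9
    have h10 : f1 ≠ 0 := by
      rintro rfl
      exact W.f0 (by rw [hf1, mul_zero])
    have h11 : ϖ * v = 1 := by
      apply mul_left_cancel₀ h10
      rw [mul_one]
      conv_rhs => rw [hv, hf1]
      ring
    exact hϖ.not_isUnit (IsUnit.of_mul_eq_one v h11)
  -- conclusion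
  obtain ⟨p, hp, a, ha⟩ := W.ge _ (hDd x hx)
  obtain ⟨rx, hrx⟩ := W.r hx
  obtain ⟨yx, hyx⟩ : ∃ yx, yx = x * w - c rx * w := ⟨_, rfl⟩
  have hyxP : yx ∈ P := hyx ▸ hrx
  have e1 : x * y0 = c rx * y0 + yx * F := by
    rw [hy0, hyx]
    ring
  obtain ⟨q, hq, b, hb⟩ := W.ge _ (hDd yx hyxP)
  have h9 : y0 * D x ∈ P := by
    have g1 := hD.mul x hx y0 hy0P
    have g2 := hD.add (c rx * y0) (P.mul_mem (P.algebraMap_mem _) hy0P) (yx * F)
      (P.mul_mem hyxP hFP)
    have g3 := hD.smul rx hy0P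
    have g4 := hD.mul yx hyxP F hFP
    have g5 := W.red hx hrx (hDd y0 hy0P)
    have g6 := P.mul_mem hyxP hDF
    have g7 : F * D yx ∈ P := by
      rw [hb, show F * (q + c b * w) = F * q + c b * (F * w) by ring, ← hy0]
      exact P.add_mem (P.mul_mem hFP hq) (P.mul_mem (P.algebraMap_mem _) hy0P)
    have : y0 * D x = (D (c rx * y0 + yx * F) - D (c rx * y0) - D (yx * F)) +
        (D (c rx * y0) - c rx * D y0) + (D (yx * F) - yx * D F - F * D yx) -
        (D (x * y0) - x * D y0 - y0 * D x) - (x - c rx) * D y0 + yx * D F + F * D yx := by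
      rw [e1]
      ring
    rw [this]
    exact P.add_mem (P.add_mem (P.sub_mem (P.sub_mem (P.add_mem (P.add_mem g2 g3) g4) g1) g5)
      g6) g7
  have h10 : c (a * ρ) * w ∈ P := by
    have : c (a * ρ) * w = y0 * D x - y0 * p - c a * (y0 * w - c ρ * w) := by
      rw [ha, map_mul]
      ring
    rw [this]
    exact P.sub_mem (P.sub_mem h9 (P.mul_mem hy0P hp)) (P.mul_mem (P.algebraMap_mem _) hy0w)
  rw [W.or] at h10
  have h11 : f ∣ a * τ := by
    have g1 : f ∣ (2 * Fintype.card ι : ℕ) * (a * τ) := by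
      have : ((2 * Fintype.card ι : ℕ) : Λ) * (a * τ) = 4 * (a * ρ) + f * (2 * a * u2) := by
        push_cast
        linear_combination 2 * a * hu2
      rw [this]
      exact dvd_add (h10.mul_left _) (dvd_mul_right _ _)
    exact (H.un.dvd_mul_left).1 g1
  have h12 : f ∣ a := h8.symm.dvd_of_dvd_mul_right h11
  rw [ha]
  exact P.add_mem hp ((W.or a).2 h12)

end CDs

end

end Core

theorem t_BCO : Stmt_BCO := by
  intro Λ K ι _ _ _ _ _ _ _ P t e es htf htt ht1 he hdu hex htP htE htr hun hf w hw hge D h1 h2 h3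
    h4 h5 x hx
  rcases subsingleton_or_nontrivial K with hK | hK
  · rw [Subsingleton.elim (D x) 0]
    exact P.zero_mem
  have H : Core.CD P t e es := ⟨htf, htt, ht1, he, hdu, hex, htP, htE, htr, hun⟩
  let I : Ideal Λ :=
    { carrier := {a | algebraMap Λ K a * w ∈ P}
      add_mem' := fun {a b} ha hb => by
        change algebraMap Λ K (a + b) * w ∈ P
        rw [map_add, add_mul]
        exact P.add_mem ha hb
      zero_mem' := by
        change algebraMap Λ K 0 * w ∈ P
        rw [map_zero, zero_mul]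
        exact P.zero_mem
      smul_mem' := fun b a ha => by
        change algebraMap Λ K (b * a) * w ∈ P
        rw [map_mul, mul_assoc]
        exact P.mul_mem (P.algebraMap_mem _) ha }
  obtain ⟨f, hf0, hfe⟩ := hf
  have hfI : f ∈ I := by
    change algebraMap Λ K f * w ∈ P
    rw [H.ex' w, Finset.mul_sum]
    refine P.sum_mem fun j _ => ?_
    rw [show algebraMap Λ K f * (t (w * e j) * es j) = t (w * e j) * (algebraMap Λ K f * es j) by
      ring]
    exact P.mul_mem (Core.InL.mem (hw _ (he j))) (hfe j)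
  have hgen : ∀ a, algebraMap Λ K a * w ∈ P ↔ Submodule.IsPrincipal.generator I ∣ a := by
    intro a
    rw [← Submodule.IsPrincipal.mem_iff_generator_dvd]
    rfl
  have W : Core.WD P t w (Submodule.IsPrincipal.generator I) :=
    ⟨hw, hge, fun h0 => hf0 (by
      have := (hgen f).1 hfI
      rw [h0] at this
      exact zero_dvd_iff.1 this), hgen⟩
  exact H.main W ⟨h1, h2, h3⟩ h4 h5 hx

end Pool.Agent.MG.G0
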