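import Pool.Agent.MG.G0.StmtsB

/-!
# BGA: gap sections
-/

open Polynomial

namespace Pool.Agent.MG.G0

namespace BGA

section

variable {A B : Type} [CommRing A] [CommRing B]

theorem uniq {Γ : Finset ℕ} {R : Subalgebra A (LaurentSeries A)} (h : GS Γ R)
    {p q : LaurentSeries A} (hp : p ∈ R) (hq : q ∈ R)
    (e : ∀ n : ℕ, n ∉ Γ → p.coeff (-(n : ℤ)) = q.coeff (-(n : ℤ))) : p = q := by
  refine (h.2 p).unique ⟨hp, fun n _ => ?_⟩ ⟨hq, fun n hn => ?_⟩
  · rw [sub_self, HahnSeries.coeff_zero]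
  · rw [HahnSeries.coeff_sub, e n hn, sub_self]

/-- The element of `R` with the same coefficients at the nongaps. -/
noncomputable def prj {Γ : Finset ℕ} {R : Subalgebra A (LaurentSeries A)} (h : GS Γ R) :
    LaurentSeries A →ₗ[A] LaurentSeries A where
  toFun f := (h.2 f).choose
  map_add' f g := by
    refine uniq h (h.2 (f + g)).choose_spec.1.1
      (add_mem (h.2 f).choose_spec.1.1 (h.2 g).choose_spec.1.1) fun n hn => ?_
    have h1 := (h.2 (f + g)).choose_spec.1.2 n hn
    have h2 := (h.2 f).choose_spec.1.2 n hn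
    have h3 := (h.2 g).choose_spec.1.2 n hn
    rw [HahnSeries.coeff_sub, sub_eq_zero] at h1 h2 h3
    rw [← h1, HahnSeries.coeff_add, HahnSeries.coeff_add, ← h2, ← h3]
  map_smul' a f := by
    refine uniq h (h.2 (a • f)).choose_spec.1.1
      (Subalgebra.smul_mem _ (h.2 f).choose_spec.1.1 a) fun n hn => ?_
    have h1 := (h.2 (a • f)).choose_spec.1.2 n hn
    have h2 := (h.2 f).choose_spec.1.2 n hn
    rw [HahnSeries.coeff_sub, sub_eq_zero] at h1 h2
    rw [← h1, RingHom.id_apply, HahnSeries.coeff_smul, HahnSeries.coeff_smul, ← h2]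

theorem prj_mem {Γ : Finset ℕ} {R : Subalgebra A (LaurentSeries A)} (h : GS Γ R)
    (f : LaurentSeries A) : prj h f ∈ R := (h.2 f).choose_spec.1.1

theorem prj_coeff {Γ : Finset ℕ} {R : Subalgebra A (LaurentSeries A)} (h : GS Γ R)
    (f : LaurentSeries A) {n : ℕ} (hn : n ∉ Γ) :
    (prj h f).coeff (-(n : ℤ)) = f.coeff (-(n : ℤ)) := by
  have h1 := (h.2 f).choose_spec.1.2 n hn
  rw [HahnSeries.coeff_sub, sub_eq_zero] at h1
  exact h1.symm

theorem prj_eq {Γ : Finset ℕ} {R : Subalgebra A (LaurentSeries A)} (h : GS Γ R)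
    {f p : LaurentSeries A} (hp : p ∈ R)
    (e : ∀ n : ℕ, n ∉ Γ → f.coeff (-(n : ℤ)) = p.coeff (-(n : ℤ))) : prj h f = p :=
  uniq h (prj_mem h f) hp fun n hn => (prj_coeff h f hn).trans (e n hn)

theorem kr {Γ : Finset ℕ} {R : Subalgebra A (LaurentSeries A)} (h : GS Γ R) :
    Kr Γ.card R := by
  classical
  rw [Kr_iff]
  refine ⟨fun f hf hf0 => ⟨f.coeff 0, ?_⟩, ?_⟩
  · refine uniq h hf (algebraMap_mem R _) fun n _ => ?_
    rw [coeff_algebraMap]
    rcases Nat.eq_zero_or_pos n with rfl | hn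
    · simp
    · rw [if_neg (by omega)]
      exact hf0 _ (by omega)
  · let e : Γ ≃ Fin Γ.card := Γ.equivFin
    let L : LaurentSeries A →ₗ[A] (Fin Γ.card → A) :=
      { toFun := fun f i => (f - prj h f).coeff (-(((e.symm i : Γ) : ℕ) : ℤ))
        map_add' := fun f g => by
          funext i
          simp only [map_add, Pi.add_apply, HahnSeries.coeff_sub, HahnSeries.coeff_add]
          ring
        map_smul' := fun a f => by
          funext i
          simp only [map_smul, Pi.smul_apply, HahnSeries.coeff_sub, HahnSeries.coeff_smul,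
            RingHom.id_apply, smul_eq_mul]
          ring }
    refine ⟨L, fun c => ?_, fun f => ?_⟩
    · refine ⟨∑ i, HahnSeries.single (-(((e.symm i : Γ) : ℕ) : ℤ)) (c i), ?_⟩
      have h0 : prj h (∑ i, HahnSeries.single (-(((e.symm i : Γ) : ℕ) : ℤ)) (c i)) = 0 := by
        refine prj_eq h (zero_mem R) fun n hn => ?_
        rw [HahnSeries.coeff_sum, HahnSeries.coeff_zero]
        refine Finset.sum_eq_zero fun i _ => ?_
        rw [HahnSeries.coeff_single, if_neg]
        intro h1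
        have h2 : n = ((e.symm i : Γ) : ℕ) := by omega
        exact hn (h2 ▸ (e.symm i).2)
      funext j
      change (_ - prj h _).coeff _ = _
      rw [h0, sub_zero, HahnSeries.coeff_sum, Finset.sum_eq_single j]
      · rw [HahnSeries.coeff_single, if_pos rfl]
      · intro i _ hi
        rw [HahnSeries.coeff_single, if_neg]
        intro h1
        apply hi
        have h2 : ((e.symm i : Γ) : ℕ) = ((e.symm j : Γ) : ℕ) := by omega
        exact e.symm.injective (Subtype.ext h2)
      · intro hj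
        exact absurd (Finset.mem_univ j) hj
    · constructor
      · intro hL
        refine ⟨prj h f, prj_mem h f, fun m hm => ?_⟩
        obtain ⟨n, rfl⟩ : ∃ n : ℕ, m = -(n : ℤ) := ⟨m.natAbs, by omega⟩
        by_cases hn : n ∈ Γ
        · have h1 := congrFun hL (e ⟨n, hn⟩)
          change (f - prj h f).coeff (-(((e.symm (e ⟨n, hn⟩) : Γ) : ℕ) : ℤ)) = 0 at h1
          rw [Equiv.symm_apply_apply] at h1
          exact h1
        · rw [HahnSeries.coeff_sub, prj_coeff h f hn, sub_self]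
      · rintro ⟨p, hp, hfp⟩
        have h1 : prj h f = p + algebraMap A (LaurentSeries A) ((f - p).coeff 0) := by
          refine prj_eq h (add_mem hp (algebraMap_mem R _)) fun n _ => ?_
          rw [HahnSeries.coeff_add, coeff_algebraMap]
          rcases Nat.eq_zero_or_pos n with rfl | hn
          · simp
          · have h2 := hfp (-(n : ℤ)) (by omega)
            rw [HahnSeries.coeff_sub, sub_eq_zero] at h2
            rw [if_neg (by omega), add_zero, h2]
        funext i
        change (f - prj h f).coeff _ = 0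
        have h3 : ((e.symm i : Γ) : ℕ) ≠ 0 := fun h4 => h.1 (h4 ▸ (e.symm i).2)
        have h5 := hfp (-(((e.symm i : Γ) : ℕ) : ℤ)) (by omega)
        rw [h1, ← sub_sub, HahnSeries.coeff_sub, h5, coeff_algebraMap, if_neg (by omega),
          sub_zero]

theorem sum_coeff {Γ : Finset ℕ} {R : Subalgebra A (LaurentSeries A)} {H : ℕ → LaurentSeries A}
    (hH : ∀ n, n ∉ Γ → IsEch Γ R n (H n)) (N : ℕ) (c : ℕ → A) {m : ℕ} (hm : m ∉ Γ) :
    (∑ n ∈ Finset.range N \ Γ, c n • H n).coeff (-(m : ℤ)) = if m < N then c m else 0 := by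
  rw [HahnSeries.coeff_sum]
  have h1 : ∀ n ∈ Finset.range N \ Γ, (c n • H n).coeff (-(m : ℤ)) =
      if m = n then c n else 0 := fun n hn => by
    rw [HahnSeries.coeff_smul, (hH n (Finset.mem_sdiff.mp hn).2).co m hm, smul_eq_mul]
    split_ifs <;> simp
  rw [Finset.sum_congr rfl h1, Finset.sum_ite_eq]
  simp [hm]

/-- The echelon expansion. -/
theorem expand {Γ : Finset ℕ} {R : Subalgebra A (LaurentSeries A)} (h : GS Γ R)
    {H : ℕ → LaurentSeries A} (hH : ∀ n, n ∉ Γ → IsEch Γ R n (H n)) {x : LaurentSeries A}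
    (hx : x ∈ R) : ∃ N : ℕ, x = ∑ n ∈ Finset.range N \ Γ, x.coeff (-(n : ℤ)) • H n := by
  obtain ⟨N, hN⟩ := exists_low x
  refine ⟨N + 1, uniq h hx (sum_mem fun n hn => Subalgebra.smul_mem _
    (hH n (Finset.mem_sdiff.mp hn).2).mem _) fun m hm => ?_⟩
  rw [sum_coeff hH (N + 1) (fun n => x.coeff (-(n : ℤ))) hm]
  split_ifs with h1
  · rfl
  · exact hN _ (by omega)

theorem bc1_span (φ : A →+* B) (R : Subalgebra A (LaurentSeries A)) :
    Subalgebra.toSubmodule (bc1 φ R) =
      Submodule.span B (lmap φ '' (R : Set (LaurentSeries A))) := by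
  rw [bc1, Algebra.adjoin_eq_span]
  have h : (Submonoid.closure (lmap φ '' (R : Set (LaurentSeries A))) :
      Set (LaurentSeries B)) = lmap φ '' (R : Set (LaurentSeries A)) := by
    have h1 : lmap φ '' (R : Set (LaurentSeries A)) = ((Submonoid.map
        (lmap φ : LaurentSeries A →+* LaurentSeries B)
        (Subalgebra.toSubsemiring R).toSubmonoid : Submonoid (LaurentSeries B)) :
        Set (LaurentSeries B)) := rfl
    rw [h1, Submonoid.closure_eq]
  rw [h]

theorem ech_map (φ : A →+* B) {Γ : Finset ℕ} {R : Subalgebra A (LaurentSeries A)} {n : ℕ}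
    {h : LaurentSeries A} (hh : IsEch Γ R n h) : IsEch Γ (bc1 φ R) n (lmap φ h) := by
  refine ⟨Algebra.subset_adjoin ⟨h, hh.mem, rfl⟩, fun m hm => ?_⟩
  rw [lmap_coeff, hh.co m hm]
  split_ifs <;> simp

theorem bc_gs (φ : A →+* B) {Γ : Finset ℕ} {R : Subalgebra A (LaurentSeries A)}
    (h : GS Γ R) : GS Γ (bc1 φ R) := by
  classical
  choose H hH _ using fun n => h.ech n
  have hH' : ∀ n, n ∉ Γ → IsEch Γ (bc1 φ R) n (lmap φ (H n)) := fun n _ => ech_map φ (hH n)
  have hsp : ∀ x ∈ bc1 φ R, x ∈ Submodule.span B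
      (Set.range fun n : {n : ℕ // n ∉ Γ} => lmap φ (H n)) := by
    intro x hx
    have h1 : x ∈ Subalgebra.toSubmodule (bc1 φ R) := hx
    rw [bc1_span] at h1
    refine Submodule.span_le.mpr ?_ h1
    rintro _ ⟨y, hy, rfl⟩
    obtain ⟨N, hN⟩ := expand h (fun n _ => hH n) hy
    rw [hN, map_sum]
    refine sum_mem fun n hn => ?_
    rw [lmap_smul]
    exact Submodule.smul_mem _ _ (Submodule.subset_span
      ⟨⟨n, (Finset.mem_sdiff.mp hn).2⟩, rfl⟩)
  have h0 : ∀ x ∈ bc1 φ R, (∀ n : ℕ, n ∉ Γ → x.coeff (-(n : ℤ)) = 0) → x = 0 := by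
    intro x hx hx0
    obtain ⟨c, hc⟩ := Finsupp.mem_span_range_iff_exists_finsupp.mp (hsp x hx)
    have h1 : c = 0 := by
      ext ⟨m, hm⟩
      have h2 := hx0 m hm
      rw [← hc, Finsupp.sum, HahnSeries.coeff_sum, Finset.sum_eq_single ⟨m, hm⟩] at h2
      · rw [HahnSeries.coeff_smul, (hH' m hm).co m hm, if_pos rfl, smul_eq_mul, mul_one] at h2
        exact h2
      · intro n _ hn
        rw [HahnSeries.coeff_smul, (hH' n n.2).co m hm, if_neg, smul_zero]
        intro h3
        exact hn (Subtype.ext h3.symm)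
      · intro h3
        rw [Finsupp.notMem_support_iff.mp h3, zero_smul, HahnSeries.coeff_zero]
    rw [← hc, h1, Finsupp.sum_zero_index]
  refine ⟨h.1, fun f => ?_⟩
  obtain ⟨N, hN⟩ := exists_low f
  refine ⟨∑ n ∈ Finset.range (N + 1) \ Γ, f.coeff (-(n : ℤ)) • lmap φ (H n),
    ⟨sum_mem fun n hn => Subalgebra.smul_mem _ (hH' n (Finset.mem_sdiff.mp hn).2).mem _,
      fun m hm => ?_⟩, fun q hq => ?_⟩
  · rw [HahnSeries.coeff_sub, sum_coeff hH' (N + 1) (fun n => f.coeff (-(n : ℤ))) hm]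
    split_ifs with h1
    · exact sub_self _
    · rw [sub_zero]
      exact hN _ (by omega)
  · rw [← sub_eq_zero]
    refine h0 _ (sub_mem hq.1 (sum_mem fun n hn => Subalgebra.smul_mem _
      (hH' n (Finset.mem_sdiff.mp hn).2).mem _)) fun m hm => ?_
    have h2 := hq.2 m hm
    rw [HahnSeries.coeff_sub, sub_eq_zero] at h2
    rw [HahnSeries.coeff_sub, sum_coeff hH' (N + 1) (fun n => f.coeff (-(n : ℤ))) hm, ← h2]
    split_ifs with h1
    · exact sub_self _
    · rw [sub_zero]
      exact hN _ (by omega)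

end

end BGA

theorem t_BGA : Stmt_BGA := by
  refine ⟨?_, ?_⟩
  · intro A _ Γ R h
    refine ⟨BGA.kr h, fun x => ⟨fun hx => ?_, ?_⟩⟩
    · choose H hH _ using fun n => h.ech n
      obtain ⟨N, hN⟩ := BGA.expand h (fun n _ => hH n) hx
      exact ⟨N, fun n => x.coeff (-(n : ℤ)), H, fun n _ => hH n, hN⟩
    · rintro ⟨N, c, H, hH, rfl⟩
      exact sum_mem fun n hn => Subalgebra.smul_mem _
        (hH n (Finset.mem_sdiff.mp hn).2).mem _
  · intro A B _ _ φ Γ R h
    exact ⟨BGA.bc_gs φ h, fun n x hx => BGA.ech_map φ hx⟩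

end Pool.Agent.MG.G0
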