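import Pool.Agent.MG.G0.DefsB

/-!
# Uniqueness and families of covers: statements (PAPER_B.md)
-/

open Polynomial IsLocalRing

namespace Pool.Agent.MG.G0

/-! ## Gap sections -/

/-- BGA: gap sections. -/
def Stmt_BGA : Prop :=
  (∀ {A : Type} [CommRing A] (Γ : Finset ℕ) (R : Subalgebra A (LaurentSeries A)), GS Γ R →
    Kr Γ.card R ∧ ∀ x : LaurentSeries A, x ∈ R ↔ ∃ (N : ℕ) (c : ℕ → A) (h : ℕ → LaurentSeries A),
      (∀ n ∉ Γ, IsEch Γ R n (h n)) ∧ x = ∑ n ∈ Finset.range N \ Γ, c n • h n) ∧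
  (∀ {A B : Type} [CommRing A] [CommRing B] (φ : A →+* B) (Γ : Finset ℕ)
    (R : Subalgebra A (LaurentSeries A)), GS Γ R → GS Γ (bc1 φ R) ∧
      ∀ n h, IsEch Γ R n h → IsEch Γ (bc1 φ R) n (lmap φ h))

/-- BGL: gap sections and base change. -/
def Stmt_BGL : Prop :=
  (∀ {A B : Type} [CommRing A] [CommRing B] [Nontrivial B] (φ : A →+* B) [IsLocalHom φ] {g : ℕ}
    (R : Subalgebra A (LaurentSeries A)) (Γ : Finset ℕ), Kr g R → GS Γ (bc1 φ R) → GS Γ R) ∧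
  (∀ {κ : Type} [Field κ] {g : ℕ} (R : Subalgebra κ (LaurentSeries κ)), Kr g R →
    ∃ Γ : Finset ℕ, Γ.card = g ∧ GS Γ R ∧ ∀ n ∉ Γ, ∀ h, IsEch Γ R n h → h ∈ Po κ n) ∧
  (∀ {A : Type} [CommRing A] [Nontrivial A] {g g' : ℕ} (R : Subalgebra A (LaurentSeries A)),
    Kr g R → Kr g' R → g = g')

/-! ## Translations of `z` -/

/-- PSI: translations of `z`. -/
def Stmt_PSI : Prop :=
  ∀ {A : Type} [CommRing A] (d : ℕ), 0 < d → IsUnit (d : A) →
    (∀ f : LaurentSeries A, (d : A) • dz A d 1 f =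
      -(HahnSeries.single ((d : ℤ) + 1) (1 : A) * ld f)) ∧
    (∀ f h : LaurentSeries A, dz A d 1 (f * h) = f * dz A d 1 h + h * dz A d 1 f) ∧
    (∀ f : LaurentSeries A, dz A d 1 (pr0 A d f) = pr0 A d (dz A d 1 f)) ∧
    (∀ p : A[X], dz A d 1 (zpol A d p) = zpol A d (derivative p)) ∧
    ∀ a : LaurentSeries A, IsNilpotent a →
    (∀ f h, psi d a (f * h) = psi d a f * psi d a h) ∧ psi d a 1 = 1 ∧
    psi d a (zz A d) = zz A d + a ∧ Function.Bijective (psi d a) ∧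
    (∀ J : Ideal A, (∀ m, a.coeff m ∈ J) → ∀ f m, (psi d a f - f).coeff m ∈ J) ∧
    (pr0 A d a = a → ∀ f, pr0 A d (psi d a f) = psi d a (pr0 A d f)) ∧
    (∀ {B : Type} [CommRing B] (φ : A →+* B) (f : LaurentSeries A),
      lmap φ (psi d a f) = psi d (lmap φ a) (lmap φ f)) ∧
    (a * a = 0 → ∀ f, psi d a f = f + a * dz A d 1 f)

/-- PSK: Krichever rings and translations. -/
def Stmt_PSK : Prop :=
  ∀ {A : Type} [CommRing A] (d : ℕ), 0 < d → IsUnit (d : A) → ∀ J : Ideal A,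
    (∃ n : ℕ, J ^ n = ⊥) →
    (∀ a : LaurentSeries A, (∀ m, a.coeff m ∈ J) → IsNilpotent a ∧
      ∀ (R : Subalgebra A (LaurentSeries A)),
        (∀ x, x ∈ psiR d a R ↔ ∃ y ∈ R, x = psi d a y) ∧
        (∀ Γ : Finset ℕ, GS Γ R → GS Γ (psiR d a R)) ∧
        (∀ {B : Type} [CommRing B] (φ : A →+* B),
          bc1 φ (psiR d a R) = psiR d (lmap φ a) (bc1 φ R)) ∧
        (∀ {B : Type} [CommRing B] (φ : A →+* B), (∀ x ∈ J, φ x = 0) →
          bc1 φ (psiR d a R) = bc1 φ R)) ∧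
    (∀ α : A[X], (∀ i, α.coeff i ∈ J) → ∀ (R : Subalgebra A (LaurentSeries A)), zz A d ∈ R →
      zz A d ∈ psiR d (zpol A d α) R ∧
      ∀ f : A[X], Disc d R f → Disc d (psiR d (zpol A d α) R) (f.comp (X + α)))

/-! ## The core lemma -/

/-- BCO: the core lemma. `t` is a normalised trace, `e` a basis of `P`, `es` the dual basis, `w`
generates the dual modulo `P`, `D` is a derivation modulo `P`. -/
def Stmt_BCO : Prop :=
  ∀ {Λ K ι : Type} [CommRing Λ] [IsDomain Λ] [IsPrincipalIdealRing Λ] [CommRing K] [Algebra Λ K]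
    [Fintype ι] [DecidableEq ι] (P : Subalgebra Λ K) (t : K →ₗ[Λ] K) (e es : ι → K),
    (∀ (a : Λ) (x : K), a ≠ 0 → algebraMap Λ K a * x = 0 → x = 0) →
    (∀ x y, t (t x * y) = t x * t y) → t 1 = 1 →
    (∀ i, e i ∈ P) → (∀ i j, t (e i * es j) = if i = j then 1 else 0) →
    (∀ x, x = ∑ j, t (x * es j) * e j) → (∀ p ∈ P, ∃ a : Λ, t p = algebraMap Λ K a) →
    (∀ p ∈ P, ∀ j, ∃ a : Λ, t (p * es j) = algebraMap Λ K a) →
    (∀ x ∈ P, ∑ j, t (x * e j * es j) = (Fintype.card ι : K) * t x) →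
    IsUnit ((2 * Fintype.card ι : ℕ) : Λ) →
    (∃ f : Λ, f ≠ 0 ∧ ∀ j, algebraMap Λ K f * es j ∈ P) →
    ∀ w : K, (∀ p ∈ P, ∃ a : Λ, t (w * p) = algebraMap Λ K a) →
    (∀ x : K, (∀ p ∈ P, ∃ a : Λ, t (x * p) = algebraMap Λ K a) →
      ∃ p ∈ P, ∃ a : Λ, x = p + algebraMap Λ K a * w) →
    ∀ D : K → K, (∀ x ∈ P, ∀ y ∈ P, D (x + y) - D x - D y ∈ P) →
    (∀ x ∈ P, ∀ y ∈ P, D (x * y) - x * D y - y * D x ∈ P) →
    (∀ a : Λ, D (algebraMap Λ K a) ∈ P) →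
    (∀ x ∈ P, ∃ a : Λ, t (D x) = algebraMap Λ K a) →
    (∃ a : Λ, ∑ j, t (es j * D (e j)) = algebraMap Λ K a) → ∀ x ∈ P, D x ∈ P

/-- ZDU: the dual basis (over fields; from ZD1). -/
def Stmt_ZDU : Prop :=
  ∀ {κ : Type} [Field κ] {g d : ℕ}, 0 < d → ((d : ℕ) : κ) ≠ 0 →
    ∀ R : Subalgebra κ (LaurentSeries κ), Kr g R → zz κ d ∈ R →
    (∀ x ∈ R, ∃ a : κ[X], pr0 κ d x = zpol κ d a) ∧
    ∀ (e : Fin d → LaurentSeries κ) (G : Matrix (Fin d) (Fin d) κ[X]), ZBas d R e → ZGram d e G →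
      G.det ≠ 0 ∧ ∃ es : Fin d → LaurentSeries κ,
      (∀ i j, pr0 κ d (e i * es j) = if i = j then 1 else 0) ∧
      (∀ x, x = ∑ j, pr0 κ d (x * es j) * e j) ∧
      (∀ x, ∑ j, pr0 κ d (x * e j * es j) = (d : LaurentSeries κ) * pr0 κ d x) ∧
      ∀ j, zpol κ d G.det * es j = ∑ i, zpol κ d (G.adjugate j i) * e i

/-- CYC: cyclic duals. -/
def Stmt_CYC : Prop :=
  ∀ {κ : Type} [Field κ] {g d : ℕ}, 0 < d → ((d : ℕ) : κ) ≠ 0 →
    ∀ R : Subalgebra κ (LaurentSeries κ), Kr g R → zz κ d ∈ R →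
    (∀ (e : Fin d → LaurentSeries κ) (G : Matrix (Fin d) (Fin d) κ[X]), ZBas d R e →
      ZGram d e G → ∀ (u : κ) (s : Multiset κ), G.det = C u * (s.map fun c => X - C c).prod →
      (∀ c : κ, G.det.eval c = 0 → d ≤ (G.map (eval c)).rank + 1) → Cyc d R) ∧
    ∀ (b : ℕ) (r : Fin b → κ), Function.Injective r → Disc d R (∏ l, (X - C (r l))) → Cyc d R

/-- BPD: derivations of `R` modulo `R` with values in Laurent series. -/
def Stmt_BPD : Prop :=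
  ∀ {κ : Type} [Field κ] {g d : ℕ}, 0 < d → ((2 * d : ℕ) : κ) ≠ 0 →
    ∀ R : Subalgebra κ (LaurentSeries κ), Kr g R → zz κ d ∈ R → Cyc d R →
    ∀ (e : Fin d → LaurentSeries κ) (G : Matrix (Fin d) (Fin d) κ[X]), ZBas d R e → ZGram d e G →
    ∀ D : LaurentSeries κ → LaurentSeries κ, (∀ x ∈ R, ∀ y ∈ R, D (x + y) - D x - D y ∈ R) →
    (∀ x ∈ R, ∀ y ∈ R, D (x * y) - x * D y - y * D x ∈ R) →
    (∀ a : κ, D (algebraMap κ _ a) ∈ R) → D (zz κ d) ∈ R →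
    (∀ x ∈ R, ∃ a : κ[X], pr0 κ d (D x) = zpol κ d a) →
    (∃ v : κ[X], ∑ i, ∑ j, zpol κ d (G.adjugate i j) * pr0 κ d (e j * D (e i)) =
      zpol κ d (v * G.det)) → ∀ x ∈ R, D x ∈ R

/-! ## Uniqueness -/

/-- BPX: uniqueness, small extensions. -/
def Stmt_BPX : Prop :=
  ∀ {A κ : Type} [CommRing A] [IsLocalRing A] [Field κ] (ρ : A →+* κ), Function.Surjective ρ →
    ∀ {g d : ℕ}, 0 < d → IsUnit ((2 * d : ℕ) : A) →
    ∀ (R₁ R₂ : Subalgebra A (LaurentSeries A)) (f : A[X]), Kr g R₁ → Kr g R₂ → zz A d ∈ R₁ →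
    zz A d ∈ R₂ → f.Monic → Disc d R₁ f → Disc d R₂ f → ∀ j : A, ρ j = 0 →
    (∀ m : A, ρ m = 0 → m * j = 0) → bc1 (Ideal.Quotient.mk (Ideal.span {j})) R₁ =
      bc1 (Ideal.Quotient.mk (Ideal.span {j})) R₂ → Cyc d (bc1 ρ R₁) → R₁ = R₂

/-- BPA: uniqueness over local artinian rings. -/
def Stmt_BPA : Prop :=
  ∀ {A κ : Type} [CommRing A] [IsLocalRing A] [IsArtinianRing A] [Field κ] (ρ : A →+* κ),
    Function.Surjective ρ → ∀ {g d : ℕ}, 0 < d → IsUnit ((2 * d : ℕ) : A) →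
    ∀ (R₁ R₂ : Subalgebra A (LaurentSeries A)) (f : A[X]), Kr g R₁ → Kr g R₂ → zz A d ∈ R₁ →
    zz A d ∈ R₂ → f.Monic → Disc d R₁ f → Disc d R₂ f → bc1 ρ R₁ = bc1 ρ R₂ →
    Cyc d (bc1 ρ R₁) → R₁ = R₂

/-- BPB: derivations of the base field. -/
def Stmt_BPB : Prop :=
  ∀ {E : Type} [Field E] {g d : ℕ}, 0 < d → ((2 * d : ℕ) : E) ≠ 0 →
    ∀ R : Subalgebra E (LaurentSeries E), Kr g R → zz E d ∈ R → Cyc d R → ∀ f : E[X],
    Disc d R f → ∀ (δ : Derivation ℤ E E) (a : E[X]),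
    (∃ v : E[X], pder δ f + a * derivative f = v * f) →
    (∀ x ∈ R, cder δ x + zpol E d a * dz E d 1 x ∈ R) ∧
    (a = 0 → ∀ (Γ : Finset ℕ) (n : ℕ) (h : LaurentSeries E), GS Γ R → IsEch Γ R n h → n ∉ Γ →
      ∀ m, δ (h.coeff m) = 0)

/-! ## Families -/

/-- ZBA: the family over a ring with a nilpotent `t`. -/
def Stmt_ZBA : Prop :=
  ∀ {k A : Type} [Field k] [CommRing A] [Algebra k A] {g d b : ℕ}, 0 < d → ((d : ℕ) : k) ≠ 0 →
    ∀ R : Subalgebra k (LaurentSeries k), Kr g R → zz k d ∈ R → ∀ β α : Fin b → k,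
    Function.Injective β → Disc d R (∏ l, (X - C (β l))) → ∀ t : A, IsNilpotent t → ∀ a : A[X],
    (∀ i, a.coeff i ∈ Ideal.span {t}) →
    (∀ l, a.eval (algebraMap k A (β l) + t ^ d * algebraMap k A (α l)) =
      -(t ^ d * algebraMap k A (α l))) →
    zz A d ∈ psiR d (zpol A d a) (bc1 (algebraMap k A) R) ∧
    Disc d (psiR d (zpol A d a) (bc1 (algebraMap k A) R)) (ft d β α t) ∧
    ∀ Γ : Finset ℕ, GS Γ R → GS Γ (psiR d (zpol A d a) (bc1 (algebraMap k A) R))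

/-- ZBL: limits. -/
def Stmt_ZBL : Prop :=
  ∀ {k : Type} [Field k] (Γ : Finset ℕ) (P : ∀ m, Subalgebra (Tr k m) (LaurentSeries (Tr k m))),
    (∀ m, GS Γ (P m)) → (∀ (m : ℕ) (x : LaurentSeries (PowerSeries k)),
      lmap (tmk k (m + 1)) x ∈ P (m + 1) → lmap (tmk k m) x ∈ P m) →
    ∃ Q : Subalgebra (PowerSeries k) (LaurentSeries (PowerSeries k)), GS Γ Q ∧
      (∀ x, x ∈ Q ↔ ∀ m, lmap (tmk k m) x ∈ P m) ∧ ∀ m, bc1 (tmk k m) Q = P m

/-- ZBT: the family over `k[[t]]`. -/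
def Stmt_ZBT : Prop :=
  ∀ {k : Type} [Field k] {g d b : ℕ}, 0 < d → ((2 * d : ℕ) : k) ≠ 0 →
    ∀ R : Subalgebra k (LaurentSeries k), Kr g R → zz k d ∈ R → ∀ β α : Fin b → k,
    Function.Injective β → Disc d R (∏ l, (X - C (β l))) →
    ∃ (a : (PowerSeries k)[X]) (P : Subalgebra (PowerSeries k) (LaurentSeries (PowerSeries k))),
      (∀ i, (PowerSeries.X : PowerSeries k) ^ d ∣ a.coeff i) ∧
      (∀ l, a.eval (bpt d β α l) = -(PowerSeries.X ^ d * PowerSeries.C (α l))) ∧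
      zz _ d ∈ P ∧ (∀ Γ : Finset ℕ, GS Γ R → GS Γ P) ∧
      (∀ m, bc1 (tmk k m) P = psiR d (zpol _ d (a.map (tmk k m))) (bc1 (algebraMap k (Tr k m)) R)) ∧
      bc1 (PowerSeries.constantCoeff (R := k)) P = R ∧
      ∀ m, Disc d (bc1 (tmk k m) P) (ft d β α (tmk k m PowerSeries.X))

/-- ZBO: the discriminant over `k((t))`. -/
def Stmt_ZBO : Prop :=
  ∀ {k : Type} [Field k] {g d b : ℕ}, 0 < d → ((2 * d : ℕ) : k) ≠ 0 → ∀ β α : Fin b → k,
    Function.Injective β →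
    ∀ P : Subalgebra (PowerSeries k) (LaurentSeries (PowerSeries k)), Kr g P → zz _ d ∈ P →
    (∀ m, Disc d (bc1 (tmk k m) P) (ft d β α (tmk k m PowerSeries.X))) →
    Disc d (bc1 (HahnSeries.ofPowerSeries ℤ k) P)
      (∏ l, (X - C (HahnSeries.ofPowerSeries ℤ k (bpt d β α l))))

/-- ZBE: a Krichever ring is defined over a finite separable extension of the field of definition
of its branch points. -/
def Stmt_ZBE : Prop :=
  ∀ {F Ω : Type} [Field F] [Field Ω] [Algebra F Ω] {g d b : ℕ}, 0 < d → ((2 * d : ℕ) : F) ≠ 0 →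
    ∀ R : Subalgebra Ω (LaurentSeries Ω), Kr g R → zz Ω d ∈ R → ∀ r : Fin b → F,
    Function.Injective r → Disc d R (∏ l, (X - C (algebraMap F Ω (r l)))) →
    ∃ (L : IntermediateField F Ω) (S : Subalgebra L (LaurentSeries L)),
      FiniteDimensional F L ∧ Algebra.IsSeparable F L ∧ Kr g S ∧ zz L d ∈ S ∧
      bc1 (algebraMap L Ω) S = R ∧ Disc d S (∏ l, (X - C (algebraMap F L (r l)))) ∧
      ∀ M : Subfield L, (∀ x : F, algebraMap F L x ∈ M) →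
        ∀ T : Subalgebra M (LaurentSeries M), Kr g T → zz M d ∈ T → bc1 M.subtype T = S → M = ⊤

/-- ZRT: the truncated double `O ⊗ O` over `k[t]`. -/
def Stmt_ZRT : Prop :=
  ∀ {k O : Type} [Field k] [CommRing O] [IsDomain O] [IsDiscreteValuationRing O] [Algebra k O]
    (ρ : O →ₐ[k] k) (t : O), ρ t = 0 → t ≠ 0 → ∀ m : ℕ, 0 < m →
    ∃ (A : Type) (_ : CommRing A) (_ : IsLocalRing A) (_ : IsArtinianRing A) (p q : O →+* A)
      (σ : A →+* k), (∀ c : k, p (algebraMap k O c) = q (algebraMap k O c)) ∧ p t = q t ∧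
      p t ^ m = 0 ∧ (∀ x, σ (p x) = ρ x) ∧ (∀ x, σ (q x) = ρ x) ∧
      ∀ x, p x = q x → ∃ c : k[X], x - aeval t c ∈ Ideal.span {t ^ m}

/-- ZRV: values of series in `t`. -/
def Stmt_ZRV : Prop :=
  ∀ {k O L : Type} [Field k] [CommRing O] [IsDomain O] [IsDiscreteValuationRing O] [Algebra k O]
    [Field L] [Algebra O L] [IsFractionRing O L] (t : O), t ∈ maximalIdeal O → t ≠ 0 →
    ∃ M : Subfield L, (∀ c : k, algebraMap O L (algebraMap k O c) ∈ M) ∧ algebraMap O L t ∈ M ∧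
      (∀ x : O, (∀ m, ∃ c : k[X], x - aeval t c ∈ Ideal.span {t ^ m}) → algebraMap O L x ∈ M) ∧
      (M = ⊤ → maximalIdeal O = Ideal.span {t})

/-- ZBR: the family is unramified over `k[t]` at places with cyclic dual. -/
def Stmt_ZBR : Prop :=
  ∀ {k O L : Type} [Field k] [CommRing O] [IsDomain O] [IsDiscreteValuationRing O] [Algebra k O]
    [Field L] [Algebra O L] [IsFractionRing O L] {g d : ℕ}, 0 < d → ((2 * d : ℕ) : k) ≠ 0 →
    ∀ (ρ : O →ₐ[k] k) (t : O), ρ t = 0 → t ≠ 0 → ∀ F : (k[X])[X], F.Monic →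
    ∀ R : Subalgebra O (LaurentSeries O), Kr g R → zz O d ∈ R →
    (∀ m, Disc d (bc1 (Ideal.Quotient.mk (Ideal.span {t ^ m})) R)
      ((F.map (aeval (R := k) t).toRingHom).map (Ideal.Quotient.mk (Ideal.span {t ^ m})))) →
    Cyc d (bc1 (ρ : O →+* k) R) →
    (∀ M : Subfield L, (∀ c : k, algebraMap O L (algebraMap k O c) ∈ M) → algebraMap O L t ∈ M →
      ∀ T : Subalgebra M (LaurentSeries M), Kr g T → zz M d ∈ T →
        bc1 M.subtype T = bc1 (algebraMap O L) R → M = ⊤) →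
    maximalIdeal O = Ideal.span {t}

end Pool.Agent.MG.G0
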