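import Pool.Agent.MG.G0.Defs

/-!
# Statements on Krichever rings (PAPER.md, sections K, RES, PERP)
-/

open TensorProduct

namespace Pool.Agent.MG.G0

/-- KDU (PAPER K2): duality for Laurent series. -/
def Stmt_KDU : Prop :=
  ∀ {I A : Type} [Fintype I] [CommRing A] (M : ℤ) (l : KK I A →ₗ[A] A),
    (∀ f ∈ Pol I A (-M), l f = 0) → ∃! η : KK I A, η ∈ Pol I A M ∧ ∀ f, l f = res (η * f)

/-- KFO (K3): regular differentials. -/
def Stmt_KFO : Prop :=
  ∀ {I A : Type} [Fintype I] [CommRing A] {g : ℕ} {P : Subalgebra A (KK I A)}, IsKr g P →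
    (∃ ω : Fin g → KK I A, IsForms P ω) ∧
    ∀ ω : Fin g → KK I A, IsForms P ω → (∀ j, ω j ∈ EE P) ∧
      ∀ η ∈ EE P, ∃! c : Fin g → A, η = ∑ j, c j • ω j

/-- KNZ (K4): elements of `P` with prescribed principal parts. -/
def Stmt_KNZ : Prop :=
  ∀ {I A : Type} [Fintype I] [CommRing A] {g : ℕ} {P : Subalgebra A (KK I A)}, IsKr g P →
    (∃ N : ℕ, Dense P N) ∧
    ∀ N : ℕ, Dense P N → (∀ n : ℤ, N ≤ n → Dense P n) ∧
      (∀ n : ℤ, N < n → ∀ a : I → A, ∃ p ∈ P, p ∈ Pol I A n ∧ ∀ i, (p i).coeff (-n) = a i) ∧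
      ∀ n : ℤ, N < n → ∃ z ∈ P, Mon n z

/-- KSP (K5): the section of the polar part; projectivity. -/
def Stmt_KSP : Prop :=
  ∀ {I A : Type} [Fintype I] [Nonempty I] [CommRing A] {g : ℕ} {P : Subalgebra A (KK I A)}, IsKr g P →
    Module.Projective A P ∧
    ∀ N : ℕ, Dense P N → (∃ s : KK I A →ₗ[A] KK I A, IsSec P s ∧
      ∀ n : ℤ, N ≤ n → ∀ f ∈ Pol I A n, s f ∈ Pol I A n) ∧
      ∀ n : ℤ, N ≤ n → Module.Finite A (PP P n) ∧ Module.Projective A (PP P n)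

/-- KBC (K6): base change. -/
def Stmt_KBC : Prop :=
  (∀ {I A B : Type} [CommRing A] [CommRing B] (φ : A →+* B) (P : Subalgebra A (KK I A)),
    Subalgebra.toSubmodule (bc φ P) = Submodule.span B (kmap φ '' (P : Set (KK I A)))) ∧
  (∀ {I A B C : Type} [CommRing A] [CommRing B] [CommRing C] (φ : A →+* B) (ψ : B →+* C)
    (P : Subalgebra A (KK I A)), bc (ψ.comp φ) P = bc ψ (bc φ P)) ∧
  (∀ {I A : Type} [CommRing A] (P : Subalgebra A (KK I A)), bc (RingHom.id A) P = P) ∧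
  ∀ {I A B : Type} [Fintype I] [Nonempty I] [CommRing A] [CommRing B] {g : ℕ}
    {P : Subalgebra A (KK I A)}, IsKr g P → ∀ φ : A →+* B, IsKr g (bc φ P) ∧
      (∀ ω : Fin g → KK I A, IsForms P ω → IsForms (bc φ P) fun j => kmap φ (ω j)) ∧
      ∀ N : ℕ, Dense P N → Dense (bc φ P) N ∧ ∀ n : ℤ, N ≤ n →
        PP (bc φ P) n = Submodule.span B (kmap φ '' (PP P n : Set (KK I A)))

/-- KBT (K6 (iii)): the base change is the tensor product. -/
def Stmt_KBT : Prop :=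
  ∀ {I A B : Type} [Fintype I] [Nonempty I] [CommRing A] [CommRing B] [Algebra A B] {g : ℕ}
    {P : Subalgebra A (KK I A)}, IsKr g P →
    (∀ (m : ℕ) (b : Fin m → B) (p : Fin m → P),
      ∑ k, b k • kmap (algebraMap A B) (p k : KK I A) = 0 → ∑ k, b k ⊗ₜ[A] p k = 0) ∧
    ∃ e : (B ⊗[A] P) ≃ₐ[B] bc (algebraMap A B) P,
      ∀ (b : B) (p : P), (e (b ⊗ₜ p) : KK I B) = b • kmap (algebraMap A B) (p : KK I A)

/-- KEQ (K7): an inclusion of Krichever rings of the same genus is an equality. -/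
def Stmt_KEQ : Prop :=
  ∀ {I A : Type} [CommRing A] {g : ℕ} {P P' : Subalgebra A (KK I A)}, IsKr g P → IsKr g P' →
    P ≤ P' → P = P'

/-- KFL (K8): nilpotent thickenings of Krichever rings. -/
def Stmt_KFL : Prop :=
  ∀ {I A B : Type} [Fintype I] [Nonempty I] [CommRing A] [CommRing B] (φ : A →+* B),
    Function.Surjective φ → (∃ n : ℕ, RingHom.ker φ ^ n = ⊥) → ∀ {g : ℕ}
    (P : Subalgebra A (KK I A)), IsKr g (bc φ P) →
    (∀ p ∈ P, kmap φ p = 0 → p ∈ RingHom.ker φ • Subalgebra.toSubmodule P) → IsKr g P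

/-- KAU (K9): change of coordinates and of the index set. -/
def Stmt_KAU : Prop :=
  (∀ {I A : Type} [CommRing A] {g : ℕ} (P : Subalgebra A (KK I A)) (α : KK I A ≃ₐ[A] KK I A),
    (∀ f, α f ∈ Pol I A 0 ↔ f ∈ Pol I A 0) → IsKr g P →
      IsKr g (P.map (α : KK I A →ₐ[A] KK I A))) ∧
  ∀ {I I' A : Type} [CommRing A] {g : ℕ} (P : Subalgebra A (KK I A)) (e : I' ≃ I),
    IsKr g P → IsKr g (reix e P)

/-- KFG (K10, K11): Krichever rings are finite over `A[z]` and finitely presented. -/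
def Stmt_KFG : Prop :=
  ∀ {I A : Type} [Fintype I] [Nonempty I] [CommRing A] {g : ℕ} {P : Subalgebra A (KK I A)},
    IsKr g P → Algebra.FinitePresentation A P ∧
    ∀ (N : ℕ) (d : ℤ) (z : P), Dense P N → 1 ≤ d → Mon d (z : KK I A) →
      (∀ n : ℤ, N + d < n → ∀ f ∈ PP P n, ∃ p ∈ PP P (n - d), f - z * p ∈ Pol I A (n - 1)) ∧
      (∀ f : P, ∃ (m : ℕ) (x : Fin m → P), (∀ k, (x k : KK I A) ∈ Pol I A (N + d)) ∧
        f = ∑ k : Fin m, z ^ (k : ℕ) * x k) ∧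
      (Polynomial.aeval (R := A) z).toRingHom.Finite ∧
      (∀ h : Polynomial A, h.Monic → IsUnit (Polynomial.aeval (z : KK I A) h)) ∧
      Function.Injective (Polynomial.aeval (R := A) z)

/-! ## The residue theorem -/

/-- An endomorphism of finite rank. -/
def FR {A M : Type} [CommRing A] [AddCommGroup M] [Module A M] (F : M →ₗ[A] M) : Prop :=
  ∃ (n : ℕ) (l : Fin n → (M →ₗ[A] A)) (x : Fin n → M), ∀ m, F m = ∑ k, l k m • x k

/-- The trace of an endomorphism of finite rank. -/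
noncomputable def ftr {A M S : Type} [CommRing A] [AddCommGroup M] [Module A M]
    (b : Module.Basis S A M) (F : M →ₗ[A] M) : A := ∑ᶠ i, b.repr (F (b i)) i

/-- RTR (RES0): the trace. -/
def Stmt_RTR : Prop :=
  ∀ {A M S : Type} [CommRing A] [AddCommGroup M] [Module A M] (b : Module.Basis S A M),
    (∀ (F : M →ₗ[A] M) (n : ℕ) (l : Fin n → (M →ₗ[A] A)) (x : Fin n → M),
      (∀ m, F m = ∑ k, l k m • x k) →
        (Function.support fun i => b.repr (F (b i)) i).Finite ∧ ftr b F = ∑ k, l k (x k)) ∧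
    (∀ F G : M →ₗ[A] M, FR F → FR G → FR (F + G) ∧ ftr b (F + G) = ftr b F + ftr b G) ∧
    (∀ F : M →ₗ[A] M, FR F → FR (-F) ∧ ftr b (-F) = - ftr b F) ∧
    (∀ F T : M →ₗ[A] M, FR F → FR (F ∘ₗ T) ∧ FR (T ∘ₗ F) ∧ ftr b (F ∘ₗ T) = ftr b (T ∘ₗ F))

/-- The series with only negative powers of `τ`. -/
def Neg (I A : Type) [CommRing A] : Submodule A (KK I A) where
  carrier := {f | ∀ i m, 0 ≤ m → (f i).coeff m = 0}
  add_mem' {f g} hf hg i m hm := by
    rw [Pi.add_apply, HahnSeries.coeff_add, hf i m hm, hg i m hm, add_zero]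
  zero_mem' i m _ := by rw [Pi.zero_apply, HahnSeries.coeff_zero]
  smul_mem' a f hf i m hm := by
    rw [Pi.smul_apply, HahnSeries.coeff_smul, hf i m hm, smul_zero]

/-- RTA (RES1): the polar part `π`, and Tate's formula for the residue: the commutator of the
operators `π f` and `π h` on polar parts is of finite rank with trace `res (h df)`. -/
def Stmt_RTA : Prop :=
  ∀ {I A : Type} [Fintype I] [CommRing A], ∃ (π : KK I A →ₗ[A] Neg I A)
    (b : Module.Basis (I × ℕ) A (Neg I A)),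
    (∀ f : KK I A, f - π f ∈ Pol I A 0) ∧ (∀ f ∈ Pol I A 0, π f = 0) ∧
    (∀ f : Neg I A, π f = f) ∧ (∀ i m, (b (i, m) : KK I A) = mon i (-((m : ℤ) + 1)) 1) ∧
    ∀ f h : KK I A, ∀ F H : Neg I A →ₗ[A] Neg I A, (∀ x : Neg I A, F x = π (f * x)) →
      (∀ x : Neg I A, H x = π (h * x)) →
      FR (F ∘ₗ H - H ∘ₗ F) ∧ ftr b (F ∘ₗ H - H ∘ₗ F) = res (h * dd f)

/-- RES (RES2): the residue theorem. -/
def Stmt_RES : Prop :=
  ∀ {I A : Type} [Fintype I] [Nonempty I] [CommRing A] {g : ℕ} {P : Subalgebra A (KK I A)}, IsKr g P →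
    ∀ f ∈ P, ∀ h ∈ P, res (f * dd h) = 0

/-! ## The module of differentials with `res (η P) = 0` -/

/-- PPR (PERP1): the projection to `Perp P`. -/
def Stmt_PPR : Prop :=
  ∀ {I A : Type} [Fintype I] [CommRing A] {g : ℕ} {P : Subalgebra A (KK I A)}, IsKr g P →
    ∀ i₀ : I, ∃ q : KK I A →ₗ[A] KK I A, (∀ x, q x ∈ Perp P) ∧ (∀ x ∈ Perp P, q x = x) ∧
      (∀ x, x - q x - mon i₀ (-1) (res x) ∈ Pol I A 0) ∧
      ∀ (n : ℤ), 1 ≤ n → ∀ x ∈ Pol I A n, q x ∈ Pol I A n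

/-- PDP (PERP2): the double orthogonal. -/
def Stmt_PDP : Prop :=
  ∀ {I A : Type} [Fintype I] [Nonempty I] [CommRing A] {g : ℕ} {P : Subalgebra A (KK I A)},
    IsKr g P → ∀ f : KK I A, (∀ η ∈ Perp P, res (η * f) = 0) → f ∈ P

/-- PBC (PERP3): base change of `Perp`. -/
def Stmt_PBC : Prop :=
  ∀ {I A B : Type} [Fintype I] [Nonempty I] [CommRing A] [CommRing B] {g : ℕ}
    {P : Subalgebra A (KK I A)}, IsKr g P → ∀ φ : A →+* B,
      Perp (bc φ P) = Submodule.span B (kmap φ '' (Perp P : Set (KK I A)))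

/-- PNI (PERP4): elements of `Perp P` with coefficients in an ideal. -/
def Stmt_PNI : Prop :=
  ∀ {I A : Type} [Fintype I] [Nonempty I] [CommRing A] {g : ℕ} {P : Subalgebra A (KK I A)},
    IsKr g P → ∀ J : Ideal A, J.FG → ∀ x ∈ Perp P, (∀ i m, (x i).coeff m ∈ J) →
      x ∈ J • Perp P

end Pool.Agent.MG.G0
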