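import Mathlib
import Pool.Agent.MG.G0.StmtsB
import Pool.Agent.MG.G0.StmtsK

/-!
# BGL: gap sections and base change
-/

namespace Pool.Agent.MG.G0

namespace BGL

section

variable {A B : Type} [CommRing A] [CommRing B]

/-- The power `τ^(-m)`. -/
noncomputable def tt (A : Type) [CommRing A] (m : ℕ) : LaurentSeries A :=
  HahnSeries.single (-(m : ℤ)) (1 : A)

theorem tt_coeff (m : ℕ) (n : ℤ) : (tt A m).coeff n = if n = -(m : ℤ) then 1 else 0 := by
  rw [tt, HahnSeries.coeff_single]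
  split_ifs <;> rfl

theorem sum_coeff (s : Finset ℕ) (c : ℕ → A) (n : ℤ) :
    (∑ m ∈ s, c m • tt A m).coeff n = ∑ m ∈ s, if n = -(m : ℤ) then c m else 0 := by
  classical
  induction s using Finset.induction_on with
  | empty => rw [Finset.sum_empty, Finset.sum_empty, HahnSeries.coeff_zero]
  | insert a s ha ih =>
    rw [Finset.sum_insert ha, Finset.sum_insert ha, HahnSeries.coeff_add, ih,
      HahnSeries.coeff_smul, tt_coeff, smul_eq_mul]
    split_ifs <;> simp

theorem sum_coeff_neg (s : Finset ℕ) (c : ℕ → A) (n : ℕ) :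
    (∑ m ∈ s, c m • tt A m).coeff (-(n : ℤ)) = if n ∈ s then c n else 0 := by
  classical
  rw [sum_coeff]
  have h : ∀ m ∈ s, (if -(n : ℤ) = -(m : ℤ) then c m else 0) = if n = m then c m else 0 := by
    intro m _
    have : (-(n : ℤ) = -(m : ℤ)) ↔ n = m := by omega
    simp only [this]
  rw [Finset.sum_congr rfl h, Finset.sum_ite_eq]

theorem coeff_sub' (f g : LaurentSeries A) (n : ℤ) :
    (f - g).coeff n = f.coeff n - g.coeff n := by
  rw [HahnSeries.coeff_sub]

/-- the difference to the polar part -/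
theorem sub_sum_mem (s : Finset ℕ) (f : LaurentSeries A)
    (hf : ∀ n : ℕ, n ∉ s → 0 < n → f.coeff (-(n : ℤ)) = 0) :
    f - ∑ m ∈ s, f.coeff (-(m : ℤ)) • tt A m ∈ Po A 0 := by
  intro m hm
  obtain ⟨n, rfl⟩ : ∃ n : ℕ, m = -(n : ℤ) := ⟨m.natAbs, by omega⟩
  rw [coeff_sub', sum_coeff_neg]
  by_cases h : n ∈ s
  · rw [if_pos h, sub_self]
  · rw [if_neg h, sub_zero]
    exact hf n h (by omega)

variable {W : Type} [AddCommGroup W] [Module A W]

theorem L_eq {L : LaurentSeries A →ₗ[A] W} (hL : ∀ f ∈ Po A 0, L f = 0) (s : Finset ℕ)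
    (f : LaurentSeries A) (hf : ∀ n : ℕ, n ∉ s → 0 < n → f.coeff (-(n : ℤ)) = 0) :
    L f = ∑ m ∈ s, f.coeff (-(m : ℤ)) • L (tt A m) := by
  have h1 := hL _ (sub_sum_mem s f hf)
  rw [map_sub, sub_eq_zero] at h1
  rw [h1, map_sum]
  simp only [map_smul]

theorem gs_of {g : ℕ} {R : Subalgebra A (LaurentSeries A)}
    (h1 : ∀ f ∈ R, f ∈ Po A 0 → ∃ a : A, f = algebraMap A (LaurentSeries A) a)
    {L : LaurentSeries A →ₗ[A] (Fin g → A)} (h2 : ∀ f, L f = 0 ↔ ∃ p ∈ R, f - p ∈ Po A 0)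
    (Γ : Finset ℕ) (h0 : 0 ∉ Γ)
    (hs : ∀ w : Fin g → A, ∃ c : ℕ → A, w = ∑ m ∈ Γ, c m • L (tt A m))
    (hi : ∀ c : ℕ → A, ∑ m ∈ Γ, c m • L (tt A m) = 0 → ∀ m ∈ Γ, c m = 0) : GS Γ R := by
  have hR : ∀ f ∈ R, L f = 0 := fun f hf =>
    (h2 f).2 ⟨f, hf, by rw [sub_self]; exact Submodule.zero_mem _⟩
  have hP : ∀ f ∈ Po A 0, L f = 0 := fun f hf =>
    (h2 f).2 ⟨0, Subalgebra.zero_mem _, by rwa [sub_zero]⟩
  refine ⟨h0, fun f => ?_⟩
  obtain ⟨c, hc⟩ := hs (L f)
  have h3 : L (f - ∑ m ∈ Γ, c m • tt A m) = 0 := by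
    rw [map_sub, map_sum, sub_eq_zero, hc]
    simp only [map_smul]
  obtain ⟨p, hp, h4⟩ := (h2 _).1 h3
  refine ⟨p + algebraMap A (LaurentSeries A) ((f - p).coeff 0),
    ⟨add_mem hp (Subalgebra.algebraMap_mem _ _), fun n hn => ?_⟩, ?_⟩
  · rw [coeff_sub', HahnSeries.coeff_add, coeff_algebraMap]
    rcases Nat.eq_zero_or_pos n with rfl | hpos
    · rw [coeff_sub']
      simp
    · rw [if_neg (by omega), add_zero]
      have h5 := h4 (-(n : ℤ)) (by omega)
      rw [coeff_sub', coeff_sub', sum_coeff_neg, if_neg hn, sub_zero] at h5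
      exact h5
  · intro q hq
    obtain ⟨hq1, hq2⟩ := hq
    set p' := p + algebraMap A (LaurentSeries A) ((f - p).coeff 0) with hp'
    have hp1 : p' ∈ R := add_mem hp (Subalgebra.algebraMap_mem _ _)
    have hp2 : ∀ n : ℕ, n ∉ Γ → (f - p').coeff (-(n : ℤ)) = 0 := by
      intro n hn
      rw [hp', coeff_sub', HahnSeries.coeff_add, coeff_algebraMap]
      rcases Nat.eq_zero_or_pos n with rfl | hpos
      · rw [coeff_sub']
        simp
      · rw [if_neg (by omega), add_zero]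
        have h5 := h4 (-(n : ℤ)) (by omega)
        rw [coeff_sub', coeff_sub', sum_coeff_neg, if_neg hn, sub_zero] at h5
        exact h5
    have hd : ∀ n : ℕ, n ∉ Γ → (q - p').coeff (-(n : ℤ)) = 0 := by
      intro n hn
      have h6 := hq2 n hn
      have h7 := hp2 n hn
      rw [coeff_sub'] at h6 h7 ⊢
      rw [sub_eq_zero] at h6 h7
      rw [← h6, ← h7, sub_self]
    have hdR : q - p' ∈ R := sub_mem hq1 hp1
    have h8 := L_eq hP Γ (q - p') fun n hn _ => hd n hn
    rw [hR _ hdR] at h8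
    have h9 := hi (fun m => (q - p').coeff (-(m : ℤ))) h8.symm
    have h10 : q - p' ∈ Po A 0 := by
      intro m hm
      obtain ⟨n, rfl⟩ : ∃ n : ℕ, m = -(n : ℤ) := ⟨m.natAbs, by omega⟩
      by_cases h : n ∈ Γ
      · exact h9 n h
      · exact hd n h
    obtain ⟨a, ha⟩ := h1 _ hdR h10
    have h11 := hd 0 h0
    rw [ha, coeff_algebraMap, if_pos (by simp)] at h11
    rw [h11, map_zero] at ha
    exact sub_eq_zero.1 ha

theorem genus_eq [Nontrivial A] {g g' : ℕ} (R : Subalgebra A (LaurentSeries A)) (h : Kr g R)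
    (h' : Kr g' R) : g = g' := by
  obtain ⟨_, L, h1, h2⟩ := Kr_iff.1 h
  obtain ⟨_, L', h3, h4⟩ := Kr_iff.1 h'
  have h5 : LinearMap.ker L = LinearMap.ker L' := by
    ext f
    rw [LinearMap.mem_ker, LinearMap.mem_ker, h2, h4]
  have e : (Fin g → A) ≃ₗ[A] (Fin g' → A) :=
    ((L.quotKerEquivOfSurjective h1).symm.trans (Submodule.quotEquivOfEq _ _ h5)).trans
      (L'.quotKerEquivOfSurjective h3)
  have := card_eq_of_linearEquiv A e
  simpa using this

/-- the functional given by the forms -/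
noncomputable def LF {g : ℕ} (ω : Fin g → KK Unit A) : LaurentSeries A →ₗ[A] (Fin g → A) where
  toFun f := fun j => res (ω j * fun _ => f)
  map_add' f h := by
    funext j
    have : (ω j * fun _ => f + h) = (ω j * fun _ => f) + (ω j * fun _ => h) := by
      rw [← mul_add]
      rfl
    rw [this, map_add]
    rfl
  map_smul' a f := by
    funext j
    have : (ω j * fun _ => a • f) = a • (ω j * fun _ => f) := by
      rw [← mul_smul_comm]
      rfl
    rw [this, map_smul]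
    rfl

theorem LF_apply {g : ℕ} (ω : Fin g → KK Unit A) (f : LaurentSeries A) (j : Fin g) :
    LF ω f j = (ω j () * f).coeff (-1) := by
  change ∑ i : Unit, ((ω j * (fun _ => f : KK Unit A)) i).coeff (-1) = _
  rw [Finset.univ_unique, Finset.sum_singleton]
  rfl

theorem LF_surj {g : ℕ} {R : Subalgebra A (LaurentSeries A)} {ω : Fin g → KK Unit A}
    (h : IsForms (uno R) ω) : Function.Surjective (LF ω) := by
  intro c
  obtain ⟨f, hf⟩ := h.surj c
  refine ⟨f (), ?_⟩
  funext j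
  rw [← hf j]
  rfl

theorem LF_ker {g : ℕ} {R : Subalgebra A (LaurentSeries A)} {ω : Fin g → KK Unit A}
    (h : IsForms (uno R) ω) (f : LaurentSeries A) :
    LF ω f = 0 ↔ ∃ p ∈ R, f - p ∈ Po A 0 := by
  have h1 := h.ker fun _ => f
  have h2 : LF ω f = 0 ↔ ∀ j, res (ω j * fun _ => f) = 0 := by
    rw [funext_iff]
    rfl
  rw [h2, h1]
  constructor
  · rintro ⟨p, hp, hq⟩
    exact ⟨p (), hp, mem_Pol_unit.1 hq⟩
  · rintro ⟨p, hp, hq⟩
    exact ⟨fun _ => p, hp, mem_Pol_unit.2 hq⟩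

theorem LF_tt {g : ℕ} (ω : Fin g → KK Unit A) (m : ℕ) (j : Fin g) :
    LF ω (tt A m) j = (ω j ()).coeff (m - 1) := by
  rw [LF_apply, tt]
  have h : (-1 : ℤ) = ((m : ℤ) - 1) + -(m : ℤ) := by ring
  rw [h, HahnSeries.coeff_mul_single_add, mul_one]

/-- from the base change to the ring itself -/
theorem gs_desc [Nontrivial B] (φ : A →+* B) [IsLocalHom φ] {g : ℕ}
    (R : Subalgebra A (LaurentSeries A)) (Γ : Finset ℕ) (hA : Stmt_BGA) (hF : Stmt_KFO)
    (hB : Stmt_KBC) (hR : Kr g R) (hG : GS Γ (bc1 φ R)) : GS Γ R := by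
  classical
  obtain ⟨ω, hω⟩ := (hF hR).1
  have hbc := hB.2.2.2 hR φ
  have hRB : Kr g (bc1 φ R) := by
    have := hbc.1
    rw [bc_uno] at this
    exact this
  have hωB : IsForms (uno (bc1 φ R)) fun j => kmap φ (ω j) := by
    have := hbc.2.1 ω hω
    rw [bc_uno] at this
    exact this
  have hcard : Γ.card = g := genus_eq _ (hA.1 Γ _ hG).1 hRB
  have hPB : ∀ f ∈ Po B 0, LF (fun j => kmap φ (ω j)) f = 0 := fun f hf =>
    (LF_ker hωB f).2 ⟨0, Subalgebra.zero_mem _, by rwa [sub_zero]⟩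
  -- the matrix
  let e : Γ ≃ Fin g := Fintype.equivFinOfCardEq (by rw [Fintype.card_coe, hcard])
  let N : Matrix (Fin g) (Fin g) A := fun j i => (ω j ()).coeff (((e.symm i : ℕ) : ℤ) - 1)
  have hN : ∀ c : ℕ → A, (∑ m ∈ Γ, c m • LF ω (tt A m)) = N.mulVec fun i => c (e.symm i) := by
    intro c
    funext j
    rw [Matrix.mulVec, dotProduct, Finset.sum_apply, ← Finset.sum_coe_sort Γ,
      ← Equiv.sum_comp e]
    refine Finset.sum_congr rfl fun i _ => ?_
    rw [Equiv.symm_apply_apply, Pi.smul_apply, LF_tt, smul_eq_mul, mul_comm]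
    simp only [N, Equiv.symm_apply_apply]
  have hNB : ∀ c : ℕ → B, (∑ m ∈ Γ, c m • LF (fun j => kmap φ (ω j)) (tt B m)) =
      (N.map φ).mulVec fun i => c (e.symm i) := by
    intro c
    funext j
    rw [Matrix.mulVec, dotProduct, Finset.sum_apply, ← Finset.sum_coe_sort Γ,
      ← Equiv.sum_comp e]
    refine Finset.sum_congr rfl fun i _ => ?_
    rw [Equiv.symm_apply_apply, Pi.smul_apply, LF_tt, smul_eq_mul, mul_comm]
    simp only [N, Matrix.map_apply, Equiv.symm_apply_apply, kmap_apply, lmap_coeff]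
  have hsurj : Function.Surjective (N.map φ).mulVec := by
    intro w
    obtain ⟨f, hf⟩ := LF_surj hωB w
    obtain ⟨p, ⟨hp, hp2⟩, _⟩ := hG.2 f
    have h1 : LF (fun j => kmap φ (ω j)) p = 0 :=
      (LF_ker hωB p).2 ⟨p, hp, by rw [sub_self]; exact Submodule.zero_mem _⟩
    have h2 := L_eq hPB Γ (f - p) fun n hn _ => hp2 n hn
    rw [map_sub, h1, sub_zero, hf] at h2
    have h3 := hNB fun m => (f - p).coeff (-(m : ℤ))
    rw [← h2] at h3
    exact ⟨_, h3.symm⟩
  have hdet : IsUnit N.det := by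
    obtain ⟨M, hM⟩ := Matrix.mulVec_surjective_iff_exists_right_inverse.1 hsurj
    have h1 := Matrix.isUnit_det_of_right_inverse hM
    have h2 : (N.map φ).det = φ N.det := (RingHom.map_det φ N).symm
    rw [h2] at h1
    exact IsLocalHom.map_nonunit _ h1
  have hinv1 : N * N⁻¹ = 1 := Matrix.mul_nonsing_inv N hdet
  have hinv2 : N⁻¹ * N = 1 := Matrix.nonsing_inv_mul N hdet
  refine gs_of (Kr_iff.1 hR).1 (LF_ker hω) Γ hG.1 ?_ ?_
  · intro w
    refine ⟨fun m => if h : m ∈ Γ then (N⁻¹.mulVec w) (e ⟨m, h⟩) else 0, ?_⟩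
    rw [hN]
    have h1 : (fun i : Fin g => if h : (e.symm i : ℕ) ∈ Γ then
        (N⁻¹.mulVec w) (e ⟨(e.symm i : ℕ), h⟩) else 0) = N⁻¹.mulVec w := by
      funext i
      rw [dif_pos (e.symm i).2]
      simp
    rw [h1, Matrix.mulVec_mulVec, hinv1, Matrix.one_mulVec]
  · intro c hc m hm
    rw [hN] at hc
    have h1 : (fun i : Fin g => c (e.symm i)) = 0 := by
      have h2 := congrArg (N⁻¹.mulVec) hc
      rwa [Matrix.mulVec_mulVec, hinv2, Matrix.one_mulVec, Matrix.mulVec_zero] at h2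
    have h3 := congrFun h1 (e ⟨m, hm⟩)
    simpa using h3

end

section field

variable {κ : Type} [Field κ] {g : ℕ}

theorem Po_mono {A : Type} [CommRing A] {m n : ℤ} (h : m ≤ n) : Po A m ≤ Po A n :=
  fun _ hf k hk => hf k (by omega)

theorem exists_top {f : LaurentSeries κ} {n : ℕ} (hf : f ∉ Po κ n) :
    ∃ k : ℕ, n < k ∧ f ∈ Po κ k ∧ f.coeff (-(k : ℤ)) ≠ 0 := by
  classical
  have hex : ∃ N : ℕ, f ∈ Po κ N := exists_low f
  refine ⟨Nat.find hex, ?_, Nat.find_spec hex, ?_⟩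
  · by_contra hle
    push Not at hle
    exact hf (Po_mono (by exact_mod_cast hle) (Nat.find_spec hex))
  · intro h0
    have hpos : 0 < Nat.find hex := by
      by_contra hz
      have hz' : Nat.find hex = 0 := by omega
      have h1 := Nat.find_spec hex
      rw [hz'] at h1
      exact hf (Po_mono (by simp) h1)
    have h2 := Nat.find_min hex (m := Nat.find hex - 1) (by omega)
    apply h2
    intro m hm
    by_cases h3 : m = -((Nat.find hex : ℕ) : ℤ)
    · rw [h3]
      exact h0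
    · refine Nat.find_spec hex m ?_
      omega

/-- there is a monic element of order `n` -/
def Mn (R : Subalgebra κ (LaurentSeries κ)) (n : ℕ) : Prop :=
  ∃ p ∈ R, p ∈ Po κ n ∧ p.coeff (-(n : ℤ)) = 1

theorem Mn_of {R : Subalgebra κ (LaurentSeries κ)} {n : ℕ} {p : LaurentSeries κ} (hp : p ∈ R)
    (h1 : p ∈ Po κ n) (h2 : p.coeff (-(n : ℤ)) ≠ 0) : Mn R n := by
  refine ⟨(p.coeff (-(n : ℤ)))⁻¹ • p, R.smul_mem hp _, Submodule.smul_mem _ _ h1, ?_⟩
  rw [HahnSeries.coeff_smul, smul_eq_mul, inv_mul_cancel₀ h2]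

theorem field_case (R : Subalgebra κ (LaurentSeries κ)) (hR : Kr g R) :
    ∃ Γ : Finset ℕ, Γ.card = g ∧ GS Γ R ∧ ∀ n ∉ Γ, ∀ h, IsEch Γ R n h → h ∈ Po κ n := by
  classical
  obtain ⟨k1, L, hs, hk⟩ := Kr_iff.1 hR
  have hP : ∀ f ∈ Po κ 0, L f = 0 := fun f hf =>
    (hk f).2 ⟨0, Subalgebra.zero_mem _, by rwa [sub_zero]⟩
  have hLR : ∀ f ∈ R, L f = 0 := fun f hf =>
    (hk f).2 ⟨f, hf, by rw [sub_self]; exact Submodule.zero_mem _⟩
  let w : {n : ℕ // ¬ Mn R n} → (Fin g → κ) := fun m => L (tt κ m)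
  -- independence
  have key : ∀ (s : Finset ℕ) (c : ℕ → κ), (∀ m ∈ s, ¬ Mn R m) →
      ∑ m ∈ s, c m • L (tt κ m) = 0 → ∀ m ∈ s, c m = 0 := by
    intro s c hsM hsum m hm
    by_contra hne
    have h1 : L (∑ m ∈ s, c m • tt κ m) = 0 := by
      rw [map_sum]
      simp only [map_smul]
      exact hsum
    obtain ⟨p, hp, hq⟩ := (hk _).1 h1
    have hm0 : 0 < m := by
      rcases Nat.eq_zero_or_pos m with rfl | h
      · exfalso
        refine hsM 0 hm ⟨1, Subalgebra.one_mem _, ?_, ?_⟩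
        · intro k hk'
          rw [HahnSeries.coeff_one, if_neg (by simp at hk'; omega)]
        · simp
      · exact h
    have hpm : p.coeff (-(m : ℤ)) = c m := by
      have h2 := hq (-(m : ℤ)) (by omega)
      rw [coeff_sub', sum_coeff_neg, if_pos hm, sub_eq_zero] at h2
      exact h2.symm
    have hp0 : p ∉ Po κ ((0 : ℕ) : ℤ) := by
      intro h
      have := h (-(m : ℤ)) (by simp; omega)
      rw [hpm] at this
      exact hne this
    obtain ⟨k, hk0, hk1, hk2⟩ := exists_top hp0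
    have h3 := hq (-(k : ℤ)) (by omega)
    rw [coeff_sub', sum_coeff_neg] at h3
    by_cases hks : k ∈ s
    · exact hsM k hks (Mn_of hp hk1 hk2)
    · rw [if_neg hks, zero_sub, neg_eq_zero] at h3
      exact hk2 h3
  have hli : LinearIndependent κ w := by
    rw [linearIndependent_iff']
    intro s c hc i hi
    have h1 := key (s.map ⟨Subtype.val, Subtype.val_injective⟩)
      (fun m => if h : ¬ Mn R m then c ⟨m, h⟩ else 0) (by
        intro m hm
        rw [Finset.mem_map] at hm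
        obtain ⟨a, _, rfl⟩ := hm
        exact a.2) (by
        rw [Finset.sum_map, ← hc]
        refine Finset.sum_congr rfl fun a _ => ?_
        change (if h : ¬ Mn R (a : ℕ) then c ⟨a, h⟩ else 0) • L (tt κ a) = c a • w a
        rw [dif_pos a.2]) i (by
        rw [Finset.mem_map]
        exact ⟨i, hi, rfl⟩)
    change (if h : ¬ Mn R (i : ℕ) then c ⟨i, h⟩ else 0) = 0 at h1
    rwa [dif_pos i.2] at h1
  have hspan : ∀ n : ℕ, L (tt κ n) ∈ Submodule.span κ (Set.range w) := by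
    intro n
    induction n using Nat.strong_induction_on with
    | _ n ih =>
      by_cases h : Mn R n
      · obtain ⟨p, hp, hp1, hp2⟩ := h
        have h1 := L_eq hP (Finset.range (n + 1)) p fun m hm _ => hp1 _ (by
          rw [Finset.mem_range] at hm
          omega)
        rw [hLR p hp, Finset.sum_range_succ, hp2, one_smul] at h1
        have h2 : L (tt κ n) = -∑ m ∈ Finset.range n, p.coeff (-(m : ℤ)) • L (tt κ m) := by
          rw [eq_neg_iff_add_eq_zero, add_comm]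
          exact h1.symm
        rw [h2]
        refine Submodule.neg_mem _ (Submodule.sum_mem _ fun m hm => Submodule.smul_mem _ _ ?_)
        exact ih m (Finset.mem_range.1 hm)
      · exact Submodule.subset_span ⟨⟨n, h⟩, rfl⟩
  have htop : ∀ v : Fin g → κ, v ∈ Submodule.span κ (Set.range w) := by
    intro v
    obtain ⟨f, rfl⟩ := hs v
    obtain ⟨N, hN⟩ := exists_low f
    rw [L_eq hP (Finset.range (N + 1)) f fun m hm _ => hN _ (by
      rw [Finset.mem_range] at hm
      omega)]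
    exact Submodule.sum_mem _ fun m _ => Submodule.smul_mem _ _ (hspan m)
  have hfin : Finite {n : ℕ // ¬ Mn R n} := hli.finite
  have hft : Fintype {n : ℕ // ¬ Mn R n} := Fintype.ofFinite _
  let b := Module.Basis.mk hli fun v _ => htop v
  have hcard : Fintype.card {n : ℕ // ¬ Mn R n} = g := by
    have h1 := Module.finrank_eq_card_basis b
    rw [Module.finrank_fin_fun] at h1
    exact h1.symm
  let Γ : Finset ℕ := (Finset.univ : Finset {n : ℕ // ¬ Mn R n}).map
    ⟨Subtype.val, Subtype.val_injective⟩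
  have hΓ : ∀ n, n ∈ Γ ↔ ¬ Mn R n := by
    intro n
    rw [Finset.mem_map]
    constructor
    · rintro ⟨a, _, rfl⟩
      exact a.2
    · intro h
      exact ⟨⟨n, h⟩, Finset.mem_univ _, rfl⟩
  refine ⟨Γ, ?_, ?_, ?_⟩
  · rw [Finset.card_map, Finset.card_univ, hcard]
  · refine gs_of k1 hk Γ ?_ ?_ ?_
    · rw [hΓ, not_not]
      refine ⟨1, Subalgebra.one_mem _, ?_, ?_⟩
      · intro k hk'
        rw [HahnSeries.coeff_one, if_neg (by simp at hk'; omega)]
      · simp
    · intro v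
      refine ⟨fun m => if h : ¬ Mn R m then b.repr v ⟨m, h⟩ else 0, ?_⟩
      rw [Finset.sum_map]
      conv_lhs => rw [← b.sum_repr v]
      refine Finset.sum_congr rfl fun a _ => ?_
      change b.repr v a • b a = (if h : ¬ Mn R (a : ℕ) then b.repr v ⟨a, h⟩ else 0) • L (tt κ a)
      rw [dif_pos a.2, Module.Basis.mk_apply]
    · intro c hc
      exact key Γ c (fun m hm => (hΓ m).1 hm) hc
  · intro n hn h hh
    by_contra hno
    obtain ⟨k, hk0, hk1, hk2⟩ := exists_top hno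
    have h1 : k ∉ Γ := by
      rw [hΓ, not_not]
      exact Mn_of hh.mem hk1 hk2
    have h2 := hh.co k h1
    rw [if_neg (by omega)] at h2
    exact hk2 h2

end field

end BGL

theorem t_BGL (hA : Stmt_BGA) (hF : Stmt_KFO) (hB : Stmt_KBC) : Stmt_BGL :=
  ⟨fun φ _ _ R Γ hR hG => BGL.gs_desc φ R Γ hA hF hB hR hG, fun R hR => BGL.field_case R hR,
    fun R h h' => BGL.genus_eq R h h'⟩

end Pool.Agent.MG.G0
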