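import Pool.Agent.MG.G0.Cut

/-!
# Sections ZD and ZL: discriminants, reduction of covers. Statements
-/

namespace Pool.Agent.MG.G0

/-- ZD1: the trace of the multiplication by `x` on `R` over `A[z]` is `d pr₀(x)`. -/
def Stmt_ZD1 : Prop :=
  ∀ (A : Type) [CommRing A] (g d : ℕ) (R : Subalgebra A (LaurentSeries A)), 0 < d → Kr g R →
    ∀ (e : Fin d → LaurentSeries A), ZBas d R e → ∀ x ∈ R,
      (∀ m : Matrix (Fin d) (Fin d) (Polynomial A),
        (∀ i, x * e i = ∑ j, zpol A d (m i j) * e j) →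
          (d : LaurentSeries A) * pr0 A d x = zpol A d m.trace) ∧
      (IsUnit (d : A) → ∃ q : Polynomial A, pr0 A d x = zpol A d q)

/-- ZD2: over a field there are a basis over `κ[z]` and a monic discriminant; every discriminant
has degree `2g + d - 1`; there are monic elements of all orders `n ≥ 2g`. -/
def Stmt_ZD2 : Prop :=
  ∀ (κ : Type) [Field κ] (g d : ℕ) (R : Subalgebra κ (LaurentSeries κ)), 0 < d → (d : κ) ≠ 0 →
    Kr g R → zz κ d ∈ R →
    (∃ f : Polynomial κ, f.Monic ∧ Disc d R f) ∧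
    (∀ f : Polynomial κ, Disc d R f → f ≠ 0 ∧ f.natDegree = 2 * g + (d - 1)) ∧
    ∀ n : ℕ, 2 * g ≤ n → ∃ p ∈ R, p ∈ Po κ n ∧ p.coeff (-(n : ℤ)) = 1

/-- ZDB: base change of bases over `A[z]` and of discriminants. -/
def Stmt_ZDB : Prop :=
  ∀ (A B : Type) [CommRing A] [CommRing B] (φ : A →+* B) (g d : ℕ)
    (R : Subalgebra A (LaurentSeries A)), 0 < d → Kr g R → zz A d ∈ R →
    zz B d ∈ bc1 φ R ∧ (∀ e : Fin d → LaurentSeries A, ZBas d R e →
      ZBas d (bc1 φ R) fun i => lmap φ (e i)) ∧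
    ∀ f : Polynomial A, Disc d R f → Disc d (bc1 φ R) (f.map φ)

/-- ZINT (ZL1): integrality of the coefficients. -/
def Stmt_ZINT : Prop :=
  ∀ (E : Type) [CommRing E] (E₀ : Subring E) (d : ℕ) (R : Subring (LaurentSeries E)) (n₀ : ℕ),
    0 < d → (∃ c ∈ E₀, c * (d : E) = 1) → (∀ a ∈ E₀, algebraMap E (LaurentSeries E) a ∈ R) →
    zz E d ∈ R → (∀ n : ℕ, n₀ ≤ n → ∃ h ∈ R, h ∈ Po E n ∧ h.coeff (-(n : ℤ)) = 1) →
    (∀ n : ℕ, n₀ ≤ n → ∀ x ∈ R, x ∈ Po E n → x.coeff (-(n : ℤ)) ∈ E₀) →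
    ∀ x ∈ R, ∀ m : ℤ, x.coeff m ∈ E₀

/-- ZL: the reduction of a cover of `P¹` over a discrete valuation ring. -/
def Stmt_ZL : Prop :=
  ∀ (O L : Type) [CommRing O] [IsDomain O] [IsDiscreteValuationRing O] [Field L] [Algebra O L]
    [IsFractionRing O L] [IsAlgClosed (IsLocalRing.ResidueField O)] (g d : ℕ)
    (R : Subalgebra L (LaurentSeries L)) (f : Polynomial O), 0 < d →
    IsUnit ((d.factorial : ℕ) : O) → Kr g R → zz L d ∈ R → f.Monic →
    Disc d R (f.map (algebraMap O L)) →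
    Kr g (cut (algebraMap O L) R) ∧ zz O d ∈ cut (algebraMap O L) R ∧
    bc1 (algebraMap O L) (cut (algebraMap O L) R) = R ∧
    ∀ (B : Type) [CommRing B] (φ : O →+* B),
      (∀ x ∈ IsLocalRing.maximalIdeal O, IsNilpotent (φ x)) →
      Disc d (bc1 φ (cut (algebraMap O L) R)) (f.map φ)

end Pool.Agent.MG.G0
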