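import Pool.Agent.MG.G0.StmtsB
import Pool.Agent.MG.G0.StmtsZL

/-!
# BPA: uniqueness over local artinian rings (PAPER_B.md)
-/

open Polynomial IsLocalRing

namespace Pool.Agent.MG.G0

namespace BPAx

theorem bc1_comp (hKBC : Stmt_KBC) {A B C : Type} [CommRing A] [CommRing B] [CommRing C]
    (φ : A →+* B) (ψ : B →+* C) (R : Subalgebra A (LaurentSeries A)) :
    bc1 (ψ.comp φ) R = bc1 ψ (bc1 φ R) := by
  have h := hKBC.2.1 (I := Unit) φ ψ (uno R)
  rw [bc_uno, bc_uno, bc_uno] at h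
  have h2 := congrArg duo h
  rwa [duo_uno, duo_uno] at h2

theorem bc1_id (hKBC : Stmt_KBC) {A : Type} [CommRing A] (R : Subalgebra A (LaurentSeries A)) :
    bc1 (RingHom.id A) R = R := by
  have h := hKBC.2.2.1 (I := Unit) (uno R)
  rw [bc_uno] at h
  have h2 := congrArg duo h
  rwa [duo_uno, duo_uno] at h2

theorem kr_bc1 (hKBC : Stmt_KBC) {A B : Type} [CommRing A] [CommRing B] {g : ℕ}
    {R : Subalgebra A (LaurentSeries A)} (h : Kr g R) (φ : A →+* B) : Kr g (bc1 φ R) := by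
  have h1 := (hKBC.2.2.2 (P := uno R) h φ).1
  rw [bc_uno] at h1
  exact h1

/-- if `χ` kills `I`, equality modulo `I` gives equality after `χ` -/
theorem bc1_eq_of_le (hKBC : Stmt_KBC) {A B : Type} [CommRing A] [CommRing B]
    {R₁ R₂ : Subalgebra A (LaurentSeries A)} {I : Ideal A}
    (h : bc1 (Ideal.Quotient.mk I) R₁ = bc1 (Ideal.Quotient.mk I) R₂) (χ : A →+* B)
    (hχ : ∀ a ∈ I, χ a = 0) : bc1 χ R₁ = bc1 χ R₂ := by
  have h1 : χ = (Ideal.Quotient.lift I χ hχ).comp (Ideal.Quotient.mk I) :=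
    (Ideal.Quotient.lift_comp_mk I χ hχ).symm
  rw [h1, bc1_comp hKBC, bc1_comp hKBC, h]

end BPAx

open BPAx in
theorem t_BPA (hBPX : Stmt_BPX) (hKBC : Stmt_KBC) (hZDB : Stmt_ZDB) : Stmt_BPA := by
  intro A κ _ _ _ _ ρ hρ g d hd hu R₁ R₂ f hR₁ hR₂ hz₁ hz₂ hf hD₁ hD₂ hbc hCyc
  have : IsNoetherianRing A := inferInstance
  -- a minimal ideal with equality
  obtain ⟨I, ⟨hI1, hI2⟩, hmin⟩ := WellFounded.has_min (wellFounded_lt (α := Ideal A))
    {I : Ideal A | I ≤ RingHom.ker ρ ∧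
      bc1 (Ideal.Quotient.mk I) R₁ = bc1 (Ideal.Quotient.mk I) R₂}
    ⟨RingHom.ker ρ, le_refl _, by
      have h1 : Ideal.Quotient.mk (RingHom.ker ρ) =
          ((RingHom.quotientKerEquivOfSurjective hρ).symm : κ →+* A ⧸ RingHom.ker ρ).comp ρ := by
        ext a
        rw [RingHom.comp_apply, RingHom.coe_coe, RingEquiv.eq_symm_apply]
        rfl
      rw [h1, bc1_comp hKBC, bc1_comp hKBC, hbc]⟩
  by_cases hI : I = ⊥
  · have h1 := bc1_eq_of_le hKBC hI2 (RingHom.id A) (fun a ha => by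
      rw [hI] at ha
      exact (Ideal.mem_bot).1 ha)
    rwa [bc1_id hKBC, bc1_id hKBC] at h1
  · exfalso
    have hnak : ¬ I ≤ RingHom.ker ρ • I := by
      intro h
      refine hI (Submodule.eq_bot_of_le_smul_of_le_jacobson_bot (RingHom.ker ρ) I
        (IsNoetherian.noetherian I) h ?_)
      rw [IsLocalRing.jacobson_eq_maximalIdeal ⊥ bot_ne_top]
      exact IsLocalRing.le_maximalIdeal (RingHom.ker_ne_top ρ)
    obtain ⟨I', ⟨hI'1, hI'2⟩, hmax⟩ := WellFounded.has_min (wellFounded_gt (α := Ideal A))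
      {I' : Ideal A | RingHom.ker ρ • I ≤ I' ∧ I' < I}
      ⟨RingHom.ker ρ • I, le_refl _, lt_of_le_not_ge Submodule.smul_le_right hnak⟩
    obtain ⟨j, hjI, hjI'⟩ := SetLike.exists_of_lt hI'2
    have hsup : I' ⊔ Ideal.span {j} = I := by
      have hle : I' ⊔ Ideal.span {j} ≤ I :=
        sup_le hI'2.le ((Ideal.span_singleton_le_iff_mem _).2 hjI)
      by_contra hne
      refine hmax (I' ⊔ Ideal.span {j}) ⟨hI'1.trans le_sup_left, lt_of_le_of_ne hle hne⟩ ?_
      refine lt_of_le_of_ne le_sup_left fun h => hjI' ?_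
      rw [h]
      exact Ideal.mem_sup_right (Ideal.mem_span_singleton_self j)
    have hI'ρ : I' ≤ RingHom.ker ρ := hI'2.le.trans hI1
    have hI't : I' ≠ ⊤ := fun h => RingHom.ker_ne_top ρ (top_le_iff.1 (h ▸ hI'ρ))
    have : Nontrivial (A ⧸ I') := Ideal.Quotient.nontrivial_iff.2 hI't
    have : IsLocalRing (A ⧸ I') :=
      IsLocalRing.of_surjective' (Ideal.Quotient.mk I') Ideal.Quotient.mk_surjective
    have hρ0 : ∀ a ∈ I', ρ a = 0 := fun a ha => hI'ρ ha
    have hρ' : Function.Surjective (Ideal.Quotient.lift I' ρ hρ0) := by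
      intro x
      obtain ⟨a, rfl⟩ := hρ x
      exact ⟨Ideal.Quotient.mk I' a, Ideal.Quotient.lift_mk _ _ _⟩
    have hu' : IsUnit ((2 * d : ℕ) : A ⧸ I') := by
      have := hu.map (Ideal.Quotient.mk I')
      rwa [map_natCast] at this
    have hz1' := hZDB A (A ⧸ I') (Ideal.Quotient.mk I') g d R₁ hd hR₁ hz₁
    have hz2' := hZDB A (A ⧸ I') (Ideal.Quotient.mk I') g d R₂ hd hR₂ hz₂
    refine hmin I' ⟨hI'ρ, hBPX (Ideal.Quotient.lift I' ρ hρ0) hρ' hd hu' _ _
      (f.map (Ideal.Quotient.mk I')) (kr_bc1 hKBC hR₁ _) (kr_bc1 hKBC hR₂ _) hz1'.1 hz2'.1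
      (hf.map _) (hz1'.2.2 f hD₁) (hz2'.2.2 f hD₂) (Ideal.Quotient.mk I' j) ?_ ?_ ?_ ?_⟩ hI'2
    · rw [Ideal.Quotient.lift_mk]
      exact hI1 hjI
    · intro m hm
      obtain ⟨m, rfl⟩ := Ideal.Quotient.mk_surjective m
      rw [Ideal.Quotient.lift_mk] at hm
      rw [← map_mul, Ideal.Quotient.eq_zero_iff_mem]
      exact hI'1 (Submodule.smul_mem_smul (show m ∈ RingHom.ker ρ from hm) hjI)
    · rw [← bc1_comp hKBC, ← bc1_comp hKBC]
      refine bc1_eq_of_le hKBC hI2 _ ?_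
      intro a ha
      have h2 : I ≤ RingHom.ker ((Ideal.Quotient.mk (Ideal.span
          {Ideal.Quotient.mk I' j})).comp (Ideal.Quotient.mk I')) := by
        rw [← hsup]
        refine sup_le ?_ ((Ideal.span_singleton_le_iff_mem _).2 ?_)
        · intro b hb
          rw [RingHom.mem_ker, RingHom.comp_apply, Ideal.Quotient.eq_zero_iff_mem.2 hb, map_zero]
        · rw [RingHom.mem_ker, RingHom.comp_apply, Ideal.Quotient.eq_zero_iff_mem]
          exact Ideal.mem_span_singleton_self _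
      exact h2 ha
    · rw [← bc1_comp hKBC, Ideal.Quotient.lift_comp_mk]
      exact hCyc

end Pool.Agent.MG.G0
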