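import Pool.Agent.MG.G0.StmtsB
import Pool.Agent.MG.G0.StmtsZL

/-!
# Derivations of the base field (PAPER_B.md, section BPB)
-/

open Polynomial

namespace Pool.Agent.MG.G0

namespace BPB

/-! ## Determinants and derivations -/

section

variable {K : Type} [CommRing K] (D : K → K) (hadd : ∀ x y, D (x + y) = D x + D y)
  (hmul : ∀ x y, D (x * y) = x * D y + y * D x)

include hadd in
theorem d_zero : D 0 = 0 := by
  have h := hadd 0 0
  rw [add_zero] at h
  exact left_eq_add.mp h

include hmul in
theorem d_one : D 1 = 0 := by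
  have h := hmul 1 1
  rw [mul_one, one_mul] at h
  exact left_eq_add.mp h

include hadd in
theorem d_neg (x : K) : D (-x) = - D x := by
  have h := hadd x (-x)
  rw [add_neg_cancel, d_zero D hadd] at h
  exact (neg_eq_of_add_eq_zero_right h.symm).symm

include hadd in
theorem d_sum {ι : Type} (s : Finset ι) (f : ι → K) : D (∑ i ∈ s, f i) = ∑ i ∈ s, D (f i) := by
  classical
  induction s using Finset.induction_on with
  | empty => simp [d_zero D hadd]
  | insert a s ha ih => rw [Finset.sum_insert ha, Finset.sum_insert ha, hadd, ih]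

include hmul in
theorem d_prod {ι : Type} [DecidableEq ι] (s : Finset ι) (f : ι → K) :
    D (∏ i ∈ s, f i) = ∑ i ∈ s, (∏ j ∈ s.erase i, f j) * D (f i) := by
  induction s using Finset.induction_on with
  | empty => simp [d_one D hmul]
  | insert a s ha ih =>
    rw [Finset.prod_insert ha, hmul, ih, Finset.sum_insert ha, Finset.erase_insert ha,
      Finset.mul_sum, add_comm]
    congr 1
    refine Finset.sum_congr rfl fun i hi => ?_
    have hne : a ≠ i := fun h => ha (h ▸ hi)
    rw [Finset.erase_insert_of_ne hne, Finset.prod_insert (fun h => ha (Finset.mem_of_mem_erase h)),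
      mul_assoc]

include hadd hmul in
theorem d_det {n : Type} [Fintype n] [DecidableEq n] (N : Matrix n n K) :
    D N.det = ∑ i, ∑ j, N.adjugate i j * D (N j i) := by
  have h0 : D N.det = ∑ i, (N.updateCol i fun k => D (N k i)).det := by
    simp only [Matrix.det_apply, d_sum D hadd]
    rw [Finset.sum_comm]
    refine Finset.sum_congr rfl fun σ _ => ?_
    have h1 : D (Equiv.Perm.sign σ • ∏ i, N (σ i) i) =
        Equiv.Perm.sign σ • D (∏ i, N (σ i) i) := by
      rcases Int.units_eq_one_or (Equiv.Perm.sign σ) with h | h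
      · rw [h, one_smul, one_smul]
      · rw [h, Units.neg_smul, one_smul, Units.neg_smul, one_smul, d_neg D hadd]
    rw [h1, d_prod D hmul, Finset.smul_sum]
    refine Finset.sum_congr rfl fun i _ => ?_
    congr 1
    rw [← Finset.mul_prod_erase Finset.univ _ (Finset.mem_univ i), Matrix.updateCol_self, mul_comm]
    congr 1
    refine Finset.prod_congr rfl fun j hj => ?_
    rw [Matrix.updateCol_ne (Finset.ne_of_mem_erase hj)]
  rw [h0]
  refine Finset.sum_congr rfl fun i _ => ?_
  rw [← Matrix.cramer_apply, Matrix.cramer_eq_adjugate_mulVec]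
  rfl

include hadd hmul in
/-- The derivative of the determinant of a symmetric matrix `(t (e i * e j))`. -/
theorem d_gram {n : Type} [Fintype n] [DecidableEq n] (t : K → K)
    (ht : ∀ x y, t (x + y) = t x + t y) (htD : ∀ x, D (t x) = t (D x)) (e : n → K)
    (N : Matrix n n K) (hN : ∀ i j, N i j = t (e i * e j)) :
    D N.det = 2 * ∑ i, ∑ j, N.adjugate i j * t (e j * D (e i)) := by
  have hs : N.transpose = N := by
    ext i j
    rw [Matrix.transpose_apply, hN, hN, mul_comm]
  have hadj : ∀ i j, N.adjugate j i = N.adjugate i j := by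
    intro i j
    have := congrFun (congrFun (Matrix.adjugate_transpose N) i) j
    rw [hs, Matrix.transpose_apply] at this
    exact this
  have h1 : ∀ i j, D (N j i) = t (e j * D (e i)) + t (e i * D (e j)) := by
    intro i j
    rw [hN, htD, hmul, ht]
  rw [d_det D hadd hmul, two_mul]
  simp only [h1, mul_add, Finset.sum_add_distrib]
  congr 1
  rw [Finset.sum_comm]
  refine Finset.sum_congr rfl fun i _ => Finset.sum_congr rfl fun j _ => ?_
  rw [hadj]

end

/-! ## Coefficientwise derivations -/

section

variable {A : Type} [CommRing A] (δ : Derivation ℤ A A)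

theorem cder_add (f h : LaurentSeries A) : cder δ (f + h) = cder δ f + cder δ h := by
  ext m
  rw [HahnSeries.coeff_add, cder_coeff, cder_coeff, cder_coeff, HahnSeries.coeff_add, map_add]

theorem cder_mul (f h : LaurentSeries A) : cder δ (f * h) = f * cder δ h + h * cder δ f := by
  obtain ⟨a, ha⟩ := exists_low f
  obtain ⟨b, hb⟩ := exists_low h
  have ha' : ∀ m < -(a : ℤ), (cder δ f).coeff m = 0 := fun m hm => by
    rw [cder_coeff, ha m hm, map_zero]
  have hb' : ∀ m < -(b : ℤ), (cder δ h).coeff m = 0 := fun m hm => by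
    rw [cder_coeff, hb m hm, map_zero]
  ext n
  rw [HahnSeries.coeff_add, cder_coeff, coeff_mul_Icc ha hb, coeff_mul_Icc ha hb',
    mul_comm h, coeff_mul_Icc ha' hb, map_sum, ← Finset.sum_add_distrib]
  refine Finset.sum_congr rfl fun i _ => ?_
  rw [Derivation.leibniz, smul_eq_mul, smul_eq_mul, cder_coeff, cder_coeff]
  ring

theorem cder_single (k : ℤ) (c : A) : cder δ (HahnSeries.single k c) = HahnSeries.single k (δ c) := by
  ext m
  rw [cder_coeff, HahnSeries.coeff_single, HahnSeries.coeff_single]
  split_ifs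
  · rfl
  · exact map_zero _

theorem cder_algebraMap (c : A) :
    cder δ (algebraMap A (LaurentSeries A) c) = algebraMap A (LaurentSeries A) (δ c) := by
  ext m
  rw [cder_coeff, coeff_algebraMap, coeff_algebraMap]
  split_ifs
  · rfl
  · exact map_zero _

theorem cder_zz (d : ℕ) : cder δ (zz A d) = 0 := by
  rw [zz, cder_single, Derivation.map_one_eq_zero, HahnSeries.single_eq_zero]

theorem cder_zz_pow (d n : ℕ) : cder δ (zz A d ^ n) = 0 := by
  induction n with
  | zero =>
    rw [pow_zero, ← map_one (algebraMap A (LaurentSeries A)), cder_algebraMap,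
      Derivation.map_one_eq_zero, map_zero]
  | succ n ih => rw [pow_succ, cder_mul, ih, cder_zz, mul_zero, mul_zero, add_zero]

theorem pder_add (p q : A[X]) : pder δ (p + q) = pder δ p + pder δ q := by
  ext n
  rw [coeff_add, pder_coeff, pder_coeff, pder_coeff, coeff_add, map_add]

theorem pder_monomial (n : ℕ) (c : A) : pder δ (monomial n c) = monomial n (δ c) := by
  ext m
  rw [pder_coeff, coeff_monomial, coeff_monomial]
  split_ifs
  · rfl
  · exact map_zero _

theorem cder_zpol (d : ℕ) (p : A[X]) : cder δ (zpol A d p) = zpol A d (pder δ p) := by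
  induction p using Polynomial.induction_on' with
  | add p q hp hq => rw [map_add, cder_add, hp, hq, pder_add, map_add]
  | monomial n c =>
    rw [pder_monomial, zpol, aeval_monomial, aeval_monomial, cder_mul, cder_zz_pow, mul_zero,
      zero_add, cder_algebraMap, mul_comm]

theorem cder_pr0 (d : ℕ) (f : LaurentSeries A) : cder δ (pr0 A d f) = pr0 A d (cder δ f) := by
  ext m
  rw [cder_coeff, pr0_coeff, pr0_coeff, cder_coeff]
  split_ifs
  · rfl
  · exact map_zero _

end

theorem zpol_mem {A : Type} [CommRing A] {d : ℕ} {R : Subalgebra A (LaurentSeries A)}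
    (hz : zz A d ∈ R) (p : A[X]) : zpol A d p ∈ R := by
  rw [zpol]
  exact (Polynomial.aeval_mem_adjoin_singleton A (zz A d) : _) |> Algebra.adjoin_le (by
    simpa using hz)

end BPB

/-- BPB: derivations of the base field. -/
theorem t_BPB (hBPD : Stmt_BPD) (hPSI : Stmt_PSI) (hZD1 : Stmt_ZD1) : Stmt_BPB := by
  intro E _ g d hd h2d R hR hz hC f hf δ a hv
  obtain ⟨v, hv⟩ := hv
  have h2d' : (2 : E) * (d : E) ≠ 0 := by
    have := h2d
    push_cast at this
    exact this
  have h2 : (2 : E) ≠ 0 := left_ne_zero_of_mul h2d'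
  have hdE : IsUnit (d : E) := (right_ne_zero_of_mul h2d').isUnit
  obtain ⟨-, hdz, hpr, hzp, -⟩ := hPSI (A := E) d hd hdE
  set D : LaurentSeries E → LaurentSeries E := fun x => cder δ x + zpol E d a * dz E d 1 x with hD
  have hDx : ∀ x, D x = cder δ x + zpol E d a * dz E d 1 x := fun _ => rfl
  have hadd : ∀ x y, D (x + y) = D x + D y := by
    intro x y
    rw [hDx, hDx, hDx, BPB.cder_add, map_add]
    ring
  have hmul : ∀ x y, D (x * y) = x * D y + y * D x := by
    intro x y
    rw [hDx, hDx, hDx, BPB.cder_mul, hdz]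
    ring
  have hdz1 : dz E d 1 (1 : LaurentSeries E) = 0 := BPB.d_one _ hdz
  have hDc : ∀ c : E, D (algebraMap E (LaurentSeries E) c) = algebraMap E (LaurentSeries E) (δ c) := by
    intro c
    rw [hDx, BPB.cder_algebraMap, Algebra.algebraMap_eq_smul_one c, map_smul, hdz1, smul_zero,
      mul_zero, add_zero]
  have hDp : ∀ p : E[X], D (zpol E d p) = zpol E d (pder δ p + a * derivative p) := by
    intro p
    rw [hDx, BPB.cder_zpol, hzp, map_add, map_mul]
  have hDpr : ∀ x, D (pr0 E d x) = pr0 E d (D x) := by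
    intro x
    rw [hDx, hDx, BPB.cder_pr0, hpr, map_add, pr0_zpol_mul]
  have hDz : D (zz E d) = zpol E d a := by
    have h1 := hDp X
    have h3 : zpol E d X = zz E d := by rw [zpol, aeval_X]
    rw [h3] at h1
    rw [h1]
    congr 1
    have h4 : pder δ (X : E[X]) = 0 := by
      rw [← monomial_one_one_eq_X, BPB.pder_monomial, Derivation.map_one_eq_zero, monomial_zero_right]
    rw [h4, derivative_X, mul_one, zero_add]
  obtain ⟨e, G, he, hG, u, hu, hdet⟩ := hf
  have hmain : ∀ x ∈ R, D x ∈ R := by
    refine hBPD hd h2d R hR hz hC e G he hG D (fun x _ y _ => ?_) (fun x _ y _ => ?_) (fun c => ?_)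
      ?_ (fun x hx => ?_) ?_
    · rw [hadd]
      have : D x + D y - D x - D y = 0 := by ring
      rw [this]
      exact zero_mem R
    · rw [hmul]
      have : x * D y + y * D x - x * D y - y * D x = 0 := by ring
      rw [this]
      exact zero_mem R
    · rw [hDc]
      exact R.algebraMap_mem _
    · rw [hDz]
      exact BPB.zpol_mem hz a
    · obtain ⟨q, hq⟩ := (hZD1 E g d R hd hR e he x hx).2 hdE
      exact ⟨pder δ q + a * derivative q, by rw [← hDpr, hq, hDp]⟩
    · obtain ⟨u₀, hu₀, rfl⟩ := Polynomial.isUnit_iff.mp hu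
      have hu₀' : u₀ ≠ 0 := hu₀.ne_zero
      set N : Matrix (Fin d) (Fin d) (LaurentSeries E) := fun i j => zpol E d (G i j) with hN
      have hNG : N = (zpol E d).mapMatrix G := rfl
      have h1 := BPB.d_gram D hadd hmul (fun x => pr0 E d x) (fun x y => map_add _ x y) hDpr e N
        (fun i j => hG i j)
      have hadj : ∀ i j, N.adjugate i j = zpol E d (G.adjugate i j) := by
        intro i j
        rw [hNG, ← AlgHom.map_adjugate]
        rfl
      have hNdet : N.det = zpol E d G.det := by
        rw [hNG, ← AlgHom.map_det]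
      have hfG : f = C u₀⁻¹ * G.det := by
        rw [hdet, ← mul_assoc, ← C_mul, inv_mul_cancel₀ hu₀', C_1, one_mul]
      have hDf : D (zpol E d f) = zpol E d (v * f) := by
        rw [hDp, hv]
      have h3 : D (zpol E d G.det) = zpol E d ((C (δ u₀ * u₀⁻¹) + v) * G.det) := by
        have h4 : zpol E d G.det = algebraMap E (LaurentSeries E) u₀ * zpol E d f := by
          rw [hdet, map_mul, zpol, aeval_C]
        have h5 : ∀ c : E, algebraMap E (LaurentSeries E) c = zpol E d (C c) := by
          intro c
          rw [zpol, aeval_C]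
        rw [h4, hmul, hDf, hDc, h5, h5, ← map_mul, ← map_mul, ← map_add]
        congr 1
        rw [hdet, C_mul]
        have h6 : (C u₀⁻¹ : E[X]) * C u₀ = 1 := by
          rw [← C_mul, inv_mul_cancel₀ hu₀', C_1]
        linear_combination (-(C (δ u₀) * f)) * h6
      refine ⟨C (2⁻¹ : E) * (C (δ u₀ * u₀⁻¹) + v), ?_⟩
      have h7 : (2 : LaurentSeries E) * ∑ i, ∑ j, zpol E d (G.adjugate i j) * pr0 E d (e j * D (e i)) =
          zpol E d ((C (δ u₀ * u₀⁻¹) + v) * G.det) := by
        rw [← h3, ← hNdet, h1]
        congr 1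
        refine Finset.sum_congr rfl fun i _ => Finset.sum_congr rfl fun j _ => ?_
        rw [hadj]
      have h8 : zpol E d (C (2⁻¹ : E)) * (2 : LaurentSeries E) = 1 := by
        have h9 : (2 : LaurentSeries E) = zpol E d (C (2 : E)) := by
          rw [zpol, aeval_C]
          exact (map_ofNat (algebraMap E (LaurentSeries E)) 2).symm
        rw [h9, ← map_mul, ← C_mul, inv_mul_cancel₀ h2, C_1, map_one]
      rw [mul_assoc, map_mul, ← h7, ← mul_assoc, h8, one_mul]
  refine ⟨hmain, ?_⟩
  intro ha Γ n h hΓ hh hn m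
  have h1 : cder δ h ∈ R := by
    have := hmain h hh.mem
    rw [hDx, ha, map_zero, zero_mul, add_zero] at this
    exact this
  have h2 : ∀ k : ℕ, k ∉ Γ → (0 - cder δ h).coeff (-(k : ℤ)) = 0 := by
    intro k hk
    rw [HahnSeries.coeff_sub, cder_coeff, hh.co k hk, HahnSeries.coeff_zero]
    split_ifs
    · rw [Derivation.map_one_eq_zero, sub_zero]
    · rw [map_zero, sub_zero]
  have h3 : cder δ h = 0 := by
    obtain ⟨p, -, hp⟩ := hΓ.2 0
    rw [hp (cder δ h) ⟨h1, h2⟩]
    exact (hp 0 ⟨zero_mem R, fun k _ => by rw [sub_zero, HahnSeries.coeff_zero]⟩).symm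
  rw [← cder_coeff, h3, HahnSeries.coeff_zero]

end Pool.Agent.MG.G0
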