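import Pool.Agent.MG.G0.StmtsB
import Pool.Agent.MG.G0.ZL.L1

/-!
# BPD: derivations of `R` modulo `R` with values in Laurent series
-/

open Polynomial

namespace Pool.Agent.MG.G0

namespace BPD

section

variable {κ : Type} [Field κ] {d : ℕ}

theorem pr0_pr0_mul (x y : LaurentSeries κ) :
    pr0 κ d (pr0 κ d x * y) = pr0 κ d x * pr0 κ d y := by
  have h : ZL.pr (0 : ZMod d) (ZL.pr (0 : ZMod d) x) = ZL.pr (0 : ZMod d) x := ZL.pr_pr_same _ _
  have h2 := ZL.pr_mul_of h 0 y
  rw [sub_zero, ZL.pr_zero_eq, ZL.pr_zero_eq, ZL.pr_zero_eq] at h2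
  exact h2

theorem pr0_one : pr0 κ d 1 = 1 := by
  ext m
  rw [pr0_coeff, HahnSeries.coeff_one]
  by_cases h : m = 0
  · rw [h, if_pos (dvd_zero _)]
  · rw [if_neg h, ite_self]

theorem zpol_mem {R : Subalgebra κ (LaurentSeries κ)} (hz : zz κ d ∈ R) (p : κ[X]) :
    zpol κ d p ∈ R := by
  rw [zpol, aeval_eq_sum_range]
  exact Subalgebra.sum_mem _ fun i _ => R.smul_mem (pow_mem hz i) _

/-- `κ((τ))` as an algebra over `κ[z]`. -/
noncomputable abbrev alg (κ : Type) [Field κ] (d : ℕ) : Algebra κ[X] (LaurentSeries κ) :=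
  ((zpol κ d : κ[X] →ₐ[κ] LaurentSeries κ) : κ[X] →+* LaurentSeries κ).toAlgebra

section der

variable {R : Subalgebra κ (LaurentSeries κ)} {D : LaurentSeries κ → LaurentSeries κ}
  (hadd : ∀ x ∈ R, ∀ y ∈ R, D (x + y) - D x - D y ∈ R)
  (hmul : ∀ x ∈ R, ∀ y ∈ R, D (x * y) - x * D y - y * D x ∈ R)

include hadd in
theorem D_add {x y : LaurentSeries κ} (hx : x ∈ R) (hy : y ∈ R) (hDx : D x ∈ R) (hDy : D y ∈ R) :
    D (x + y) ∈ R := by
  have h := add_mem (add_mem (hadd x hx y hy) hDy) hDx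
  have h2 : D (x + y) - D x - D y + D y + D x = D (x + y) := by ring
  rwa [h2] at h

include hmul in
theorem D_mul {x y : LaurentSeries κ} (hx : x ∈ R) (hy : y ∈ R) (hDx : D x ∈ R) (hDy : D y ∈ R) :
    D (x * y) ∈ R := by
  have h := add_mem (add_mem (hmul x hx y hy) (mul_mem hy hDx)) (mul_mem hx hDy)
  have h2 : D (x * y) - x * D y - y * D x + y * D x + x * D y = D (x * y) := by ring
  rwa [h2] at h

include hadd hmul in
theorem D_zpol (hz : zz κ d ∈ R) (hconst : ∀ a : κ, D (algebraMap κ _ a) ∈ R)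
    (hDz : D (zz κ d) ∈ R) (p : κ[X]) : D (zpol κ d p) ∈ R := by
  have hpow : ∀ n : ℕ, D (zz κ d ^ n) ∈ R := by
    intro n
    induction n with
    | zero =>
      rw [pow_zero, ← map_one (algebraMap κ (LaurentSeries κ))]
      exact hconst 1
    | succ n ih =>
      rw [pow_succ]
      exact D_mul hmul (pow_mem hz n) hz ih hDz
  induction p using Polynomial.induction_on' with
  | add p q hp hq =>
    rw [map_add]
    exact D_add hadd (zpol_mem hz p) (zpol_mem hz q) hp hq
  | monomial n a =>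
    rw [zpol, Polynomial.aeval_monomial]
    exact D_mul hmul (R.algebraMap_mem a) (pow_mem hz n) (hconst a) (hpow n)

end der

end

end BPD

/-- **BPD**: derivations of `R` modulo `R` with values in Laurent series. -/
theorem t_BPD (hBCO : Stmt_BCO) (hZDU : Stmt_ZDU) : Stmt_BPD := by
  intro κ _ g d hd h2d R hR hz hcyc e G he hG D hadd hmul hconst hDz hpr hdet
  have hdκ : ((d : ℕ) : κ) ≠ 0 := by
    intro h
    apply h2d
    rw [Nat.cast_mul, h, mul_zero]
  obtain ⟨z1, z2⟩ := hZDU hd hdκ R hR hz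
  obtain ⟨hG0, es, s1, s2, s3, s4⟩ := z2 e G he hG
  obtain ⟨w, w1, w2⟩ := hcyc
  obtain ⟨v, hv⟩ := hdet
  have hinj : ∀ a : κ[X], zpol κ d a = 0 → a = 0 := fun a ha =>
    ZL.ev_injective d hd.ne' (ha.trans (map_zero (zpol κ d)).symm)
  have hdet0 : zpol κ d G.det ≠ 0 := fun h => hG0 (hinj _ h)
  -- the trace of `D`
  have htr : ∑ j, pr0 κ d (es j * D (e j)) = zpol κ d v := by
    have h1 : zpol κ d G.det * ∑ j, pr0 κ d (es j * D (e j)) =
        zpol κ d G.det * zpol κ d v := by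
      rw [Finset.mul_sum]
      have h2 : ∀ j, zpol κ d G.det * pr0 κ d (es j * D (e j)) =
          ∑ i, zpol κ d (G.adjugate j i) * pr0 κ d (e i * D (e j)) := by
        intro j
        rw [← pr0_zpol_mul, ← mul_assoc, s4, Finset.sum_mul, map_sum]
        refine Finset.sum_congr rfl fun i _ => ?_
        rw [mul_assoc, pr0_zpol_mul]
      rw [Finset.sum_congr rfl fun j _ => h2 j, hv, map_mul, mul_comm]
    exact mul_left_cancel₀ hdet0 h1
  letI := BPD.alg κ d
  let P : Subalgebra κ[X] (LaurentSeries κ) :=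
    { carrier := {x | x ∈ R}
      mul_mem' := fun ha hb => mul_mem (S := Subalgebra κ (LaurentSeries κ)) ha hb
      add_mem' := fun ha hb => add_mem (S := Subalgebra κ (LaurentSeries κ)) ha hb
      algebraMap_mem' := fun a => BPD.zpol_mem hz a }
  let t : LaurentSeries κ →ₗ[κ[X]] LaurentSeries κ :=
    { toFun := fun x => pr0 κ d x
      map_add' := fun x y => map_add (pr0 κ d) x y
      map_smul' := fun a x => by
        rw [Algebra.smul_def, Algebra.smul_def]
        exact pr0_zpol_mul d a x }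
  have hunit : IsUnit ((2 * Fintype.card (Fin d) : ℕ) : κ[X]) := by
    rw [Fintype.card_fin, ← Polynomial.C_eq_natCast]
    exact Polynomial.isUnit_C.2 (IsUnit.mk0 _ h2d)
  refine hBCO (Λ := κ[X]) (K := LaurentSeries κ) (ι := Fin d) P t e es ?_ ?_ ?_ ?_ ?_ ?_ ?_ ?_ ?_
    hunit ?_ w ?_ ?_ D ?_ ?_ ?_ ?_ ?_
  · intro a x ha hax
    rcases mul_eq_zero.1 hax with h | h
    · exact absurd (hinj a h) ha
    · exact h
  · intro x y
    exact BPD.pr0_pr0_mul x y
  · exact BPD.pr0_one
  · exact he.mem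
  · exact s1
  · exact s2
  · exact z1
  · intro p hp j
    obtain ⟨c, hc, _⟩ := he.uni p hp
    refine ⟨c j, ?_⟩
    change pr0 κ d (p * es j) = zpol κ d (c j)
    rw [hc, Finset.sum_mul, map_sum]
    have h2 : ∀ i, pr0 κ d (zpol κ d (c i) * e i * es j) = if i = j then zpol κ d (c i) else 0 := by
      intro i
      rw [mul_assoc, pr0_zpol_mul, s1]
      split_ifs
      · rw [mul_one]
      · rw [mul_zero]
    rw [Finset.sum_congr rfl fun i _ => h2 i, Finset.sum_ite_eq' Finset.univ j,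
      if_pos (Finset.mem_univ _)]
  · intro x _
    rw [Fintype.card_fin]
    exact s3 x
  · refine ⟨G.det, hG0, fun j => ?_⟩
    change zpol κ d G.det * es j ∈ R
    rw [s4]
    exact Subalgebra.sum_mem _ fun i _ => mul_mem (BPD.zpol_mem hz _) (he.mem i)
  · exact w1
  · exact w2
  · exact hadd
  · exact hmul
  · exact fun a => BPD.D_zpol hadd hmul hz hconst hDz a
  · exact hpr
  · exact ⟨v, htr⟩

end Pool.Agent.MG.G0
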