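import Pool.Agent.MG.G0.StmtsK

/-!
# KFL: nilpotent thickenings of Krichever rings
-/

namespace Pool.Agent.MG.G0

namespace KFL

/-! ### Nakayama's lemma for nilpotent ideals -/

section nak

variable {A M C : Type} [CommRing A] [AddCommGroup M] [Module A M] [AddCommGroup C] [Module A C]

theorem nak {J : Ideal A} (hJ : ∃ n : ℕ, J ^ n = ⊥) {N D : Submodule A M}
    (h : N ≤ D ⊔ J • N) : N ≤ D := by
  obtain ⟨n, hn⟩ := hJ
  have h1 : ∀ k : ℕ, N ≤ D ⊔ J ^ k • N := by
    intro k
    induction k with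
    | zero =>
      rw [pow_zero, Ideal.one_eq_top, Submodule.top_smul]
      exact le_sup_right
    | succ k ih =>
      refine ih.trans (sup_le le_sup_left ?_)
      calc J ^ k • N ≤ J ^ k • (D ⊔ J • N) := Submodule.smul_mono le_rfl h
        _ = J ^ k • D ⊔ J ^ (k + 1) • N := by
          rw [Submodule.smul_sup, ← Submodule.mul_smul, pow_succ]
        _ ≤ D ⊔ J ^ (k + 1) • N := sup_le_sup_right Submodule.smul_le_right _
  have h2 := h1 n
  rwa [hn, Submodule.bot_smul, sup_bot_eq] at h2

theorem surj {J : Ideal A} (hJ : ∃ n : ℕ, J ^ n = ⊥) (u : M →ₗ[A] C)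
    (h : ∀ c : C, ∃ m, c - u m ∈ J • (⊤ : Submodule A C)) : Function.Surjective u := by
  rw [← LinearMap.range_eq_top, eq_top_iff]
  refine nak hJ fun c _ => ?_
  obtain ⟨m, hm⟩ := h c
  rw [← add_sub_cancel (u m) c]
  exact Submodule.add_mem_sup ⟨m, rfl⟩ hm

theorem ker [Module.Projective A C] {J : Ideal A} (hJ : ∃ n : ℕ, J ^ n = ⊥) (u : M →ₗ[A] C)
    (hu : Function.Surjective u) (D : Submodule A M) (hD : D ≤ LinearMap.ker u)
    (h : ∀ x, u x = 0 → ∃ d ∈ D, x - d ∈ J • (⊤ : Submodule A M)) : LinearMap.ker u ≤ D := by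
  obtain ⟨σ, hσ⟩ := Module.projective_lifting_property u LinearMap.id hu
  have hσ' : ∀ c, u (σ c) = c := fun c => congrArg (fun f => f c) hσ
  -- the projection to the kernel
  let q : M →ₗ[A] M := LinearMap.id - σ ∘ₗ u
  have hq : ∀ x, q x = x - σ (u x) := fun x => rfl
  have hq1 : ∀ x, u (q x) = 0 := by
    intro x
    rw [hq, map_sub, hσ', sub_self]
  refine nak hJ fun x hx => ?_
  obtain ⟨d, hd, hxd⟩ := h x hx
  rw [← add_sub_cancel d x]
  refine Submodule.add_mem_sup hd ?_
  have h1 : q (x - d) = x - d := by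
    have h2 : u x = 0 := hx
    have h3 : u d = 0 := hD hd
    rw [hq, map_sub, h2, h3, sub_self, map_zero, sub_zero]
  rw [← h1]
  have h2 : q (x - d) ∈ (J • (⊤ : Submodule A M)).map q := Submodule.mem_map_of_mem hxd
  rw [Submodule.map_smul''] at h2
  refine Submodule.smul_mono le_rfl ?_ h2
  rintro _ ⟨y, -, rfl⟩
  exact hq1 y

end nak

/-! ### Polar parts -/

section pol

variable {I A B : Type} [Fintype I] [CommRing A] [CommRing B]

theorem fin_supp (f : KK I A) :
    (Function.support fun x : I × ℕ => (f x.1).coeff (-((x.2 : ℤ) + 1))).Finite := by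
  obtain ⟨n, hn⟩ := exists_Pol f
  refine Set.Finite.subset (Set.finite_univ.prod (Set.finite_Iic n) : (Set.univ ×ˢ Set.Iic n :
    Set (I × ℕ)).Finite) ?_
  rintro ⟨i, m⟩ h
  refine ⟨Set.mem_univ _, ?_⟩
  by_contra hc
  simp only [Set.mem_Iic, not_le] at hc
  exact h (hn i _ (by omega))

/-- The polar part. -/
noncomputable def pp : KK I A →ₗ[A] (I × ℕ →₀ A) where
  toFun f := Finsupp.ofSupportFinite _ (fin_supp f)
  map_add' f g := by
    ext x
    simp [Finsupp.ofSupportFinite_coe]
  map_smul' a f := by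
    ext x
    simp [Finsupp.ofSupportFinite_coe]

theorem pp_apply (f : KK I A) (i : I) (m : ℕ) :
    pp f (i, m) = (f i).coeff (-((m : ℤ) + 1)) := rfl

theorem pp_eq_zero {f : KK I A} : pp f = 0 ↔ f ∈ Pol I A 0 := by
  constructor
  · intro h i m hm
    have h1 := congrArg (fun F => F (i, (-m - 1).toNat)) h
    simp only [pp_apply, Finsupp.coe_zero, Pi.zero_apply] at h1
    have h2 : -(((-m - 1).toNat : ℤ) + 1) = m := by omega
    rwa [h2] at h1
  · intro h
    ext ⟨i, m⟩
    exact h i _ (by omega)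

theorem pp_mon (i : I) (m : ℕ) (a : A) :
    pp (mon i (-((m : ℤ) + 1)) a) = Finsupp.single (i, m) a := by
  classical
  ext ⟨j, k⟩
  rw [pp_apply, mon_coeff, Finsupp.single_apply]
  have h : (j = i ∧ -((k : ℤ) + 1) = -((m : ℤ) + 1)) ↔ (i, m) = (j, k) := by
    rw [Prod.mk.injEq]
    constructor
    · rintro ⟨h1, h2⟩
      exact ⟨h1.symm, by omega⟩
    · rintro ⟨h1, h2⟩
      exact ⟨h1.symm, by omega⟩
  simp only [h]

theorem pp_surj : Function.Surjective (pp : KK I A →ₗ[A] (I × ℕ →₀ A)) := by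
  rw [← LinearMap.range_eq_top, eq_top_iff]
  intro c _
  induction c using Finsupp.induction_linear with
  | zero => exact Submodule.zero_mem _
  | add f g hf hg => exact Submodule.add_mem _ (hf trivial) (hg trivial)
  | single x a => exact ⟨mon x.1 (-((x.2 : ℤ) + 1)) a, pp_mon x.1 x.2 a⟩

theorem mem_smul_top {X : Type} {J : Ideal A} {F : X →₀ A} (h : ∀ x, F x ∈ J) :
    F ∈ J • (⊤ : Submodule A (X →₀ A)) := by
  rw [← F.sum_single]
  refine Submodule.sum_mem _ fun x _ => ?_
  have h1 : Finsupp.single x (F x) = F x • Finsupp.single x (1 : A) := by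
    rw [Finsupp.smul_single, smul_eq_mul, mul_one]
  rw [h1]
  exact Submodule.smul_mem_smul (h x) trivial

theorem pp_mem {φ : A →+* B} {f : KK I A} (h : kmap φ f ∈ Pol I B 0) :
    pp f ∈ RingHom.ker φ • (⊤ : Submodule A (I × ℕ →₀ A)) := by
  refine mem_smul_top ?_
  rintro ⟨i, m⟩
  rw [RingHom.mem_ker, pp_apply, ← lmap_coeff, ← kmap_apply]
  exact h i _ (by omega)

end pol

/-- For surjective `φ` the base change is the image. -/
theorem bc_surj {I A B : Type} [CommRing A] [CommRing B] {φ : A →+* B}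
    (hφ : Function.Surjective φ) (P : Subalgebra A (KK I A)) {f : KK I B} (hf : f ∈ bc φ P) :
    ∃ p ∈ P, kmap φ p = f := by
  let S : Subalgebra B (KK I B) :=
    { carrier := kmap φ '' (P : Set (KK I A))
      mul_mem' := by
        rintro _ _ ⟨a, ha, rfl⟩ ⟨b, hb, rfl⟩
        exact ⟨a * b, mul_mem (S := Subalgebra A (KK I A)) ha hb, map_mul _ _ _⟩
      add_mem' := by
        rintro _ _ ⟨a, ha, rfl⟩ ⟨b, hb, rfl⟩
        exact ⟨a + b, add_mem (S := Subalgebra A (KK I A)) ha hb, map_add _ _ _⟩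
      algebraMap_mem' := fun b => by
        obtain ⟨a, rfl⟩ := hφ b
        exact ⟨algebraMap A _ a, P.algebraMap_mem a, kmap_algebraMap φ a⟩ }
  have h1 : bc φ P ≤ S := Algebra.adjoin_le fun x hx => hx
  obtain ⟨p, hp, h2⟩ := h1 hf
  exact ⟨p, hp, h2⟩

theorem kmap_surj {I A B : Type} [CommRing A] [CommRing B] {φ : A →+* B}
    (hφ : Function.Surjective φ) (f : KK I B) : ∃ f' : KK I A, kmap φ f' = f := by
  choose s hs using hφ
  have h : ∀ i, ∃ x : LaurentSeries A, lmap φ x = f i := by
    intro i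
    classical
    refine ⟨⟨fun n => if (f i).coeff n = 0 then 0 else s ((f i).coeff n), ?_⟩, ?_⟩
    · refine (f i).isPWO_support.mono ?_
      intro n hn
      rw [Function.mem_support] at hn
      rw [HahnSeries.mem_support]
      intro h1
      rw [if_pos h1] at hn
      exact hn rfl
    · ext n
      rw [lmap_coeff]
      show φ (if (f i).coeff n = 0 then 0 else s ((f i).coeff n)) = _
      split_ifs with h1
      · rw [map_zero, h1]
      · rw [hs]
  choose F hF using h
  exact ⟨F, funext hF⟩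

end KFL

open KFL in
theorem t_KFL (_hKSP : Stmt_KSP) : Stmt_KFL := by
  intro I A B _ _ _ _ φ hφ hJ g P hkr hP
  classical
  obtain ⟨Lb, hLb1, hLb2⟩ := hkr.k2
  choose eb heb using fun j : Fin g => hLb1 (Pi.single j 1)
  choose e he using fun j : Fin g => kmap_surj (I := I) hφ (eb j)
  -- the map
  let u0 : (P × (Fin g → A)) →ₗ[A] KK I A :=
    LinearMap.coprod P.val.toLinearMap (Fintype.linearCombination A e)
  have hu0 : ∀ p a, u0 (p, a) = (p : KK I A) + ∑ j, a j • e j := by
    intro p a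
    simp only [u0, LinearMap.coprod_apply, Fintype.linearCombination_apply]
    rfl
  let u : (P × (Fin g → A)) →ₗ[A] (I × ℕ →₀ A) := pp ∘ₗ u0
  have hu : ∀ x, u x = pp (u0 x) := fun x => rfl
  have hkm : ∀ p a, kmap φ (u0 (p, a)) = kmap φ p + ∑ j, φ (a j) • eb j := by
    intro p a
    rw [hu0, map_add, map_sum]
    congr 1
    refine Finset.sum_congr rfl fun j _ => ?_
    rw [kmap_smul, he]
  have hLs : ∀ b : Fin g → B, Lb (∑ j, b j • eb j) = b := by
    intro b
    rw [map_sum]
    simp only [map_smul, heb]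
    funext k
    simp [Finset.sum_apply, Pi.single_apply]
  -- surjectivity
  have hsur : Function.Surjective u := by
    refine surj hJ u fun c => ?_
    obtain ⟨f, rfl⟩ := pp_surj c
    choose s hs using hφ
    have h1 : Lb (kmap φ f - ∑ j, Lb (kmap φ f) j • eb j) = 0 := by
      rw [map_sub, hLs, sub_self]
    obtain ⟨pb, hpb, h2⟩ := (hLb2 _).1 h1
    obtain ⟨p, hp, rfl⟩ := bc_surj (φ := φ) (fun b => ⟨s b, hs b⟩) P hpb
    refine ⟨(⟨p, hp⟩, fun j => s (Lb (kmap φ f) j)), ?_⟩
    rw [hu, ← map_sub]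
    refine pp_mem (φ := φ) ?_
    rw [map_sub, hkm]
    simp only [hs]
    have h3 : kmap φ f - (kmap φ p + ∑ j, Lb (kmap φ f) j • eb j) =
        kmap φ f - ∑ j, Lb (kmap φ f) j • eb j - kmap φ p := by abel
    rw [h3]
    exact h2
  -- the kernel
  have hker : LinearMap.ker u ≤ Submodule.span A {((1 : P), (0 : Fin g → A))} := by
    refine ker hJ u hsur _ ?_ ?_
    · rw [Submodule.span_singleton_le_iff_mem, LinearMap.mem_ker, hu, pp_eq_zero, hu0]
      simpa using one_mem_Pol0
    · rintro ⟨p, a⟩ hx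
      have h1 : u0 (p, a) ∈ Pol I A 0 := pp_eq_zero.1 hx
      have h2 := kmap_mem_Pol φ h1
      rw [hkm] at h2
      have h3 : (fun j => φ (a j)) = 0 := by
        have h4 : Lb (kmap φ p + ∑ j, φ (a j) • eb j) = 0 :=
          (hLb2 _).2 ⟨0, zero_mem _, by rwa [sub_zero]⟩
        have h5 : Lb (kmap φ p) = 0 :=
          (hLb2 _).2 ⟨kmap φ p, kmap_mem_bc φ p.2, by rw [sub_self]; exact Submodule.zero_mem _⟩
        rw [map_add, h5, hLs, zero_add] at h4
        exact h4
      have h3' : ∀ j, φ (a j) = 0 := fun j => congrFun h3 j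
      simp only [h3', zero_smul, Finset.sum_const_zero, add_zero] at h2
      obtain ⟨cb, hcb⟩ := hkr.k1 _ (kmap_mem_bc φ p.2) h2
      obtain ⟨c, rfl⟩ := hφ cb
      refine ⟨c • (1, 0), Submodule.smul_mem _ _ (Submodule.mem_span_singleton_self _), ?_⟩
      have h6 : (p : KK I A) - algebraMap A (KK I A) c ∈ P := sub_mem p.2 (P.algebraMap_mem c)
      have h7 := hP _ h6 (by rw [map_sub, kmap_algebraMap, hcb, sub_self])
      have h8 : (p - algebraMap A P c) ∈ RingHom.ker φ • (⊤ : Submodule A P) := by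
        have h9 : (RingHom.ker φ • (⊤ : Submodule A P)).map P.val.toLinearMap =
            RingHom.ker φ • Subalgebra.toSubmodule P := by
          rw [Submodule.map_smul'', Submodule.map_top]
          congr 1
          exact Subalgebra.range_val P |> fun h => by
            ext x
            constructor
            · rintro ⟨y, rfl⟩
              exact y.2
            · intro hx
              exact ⟨⟨x, hx⟩, rfl⟩
        rw [← h9] at h7
        obtain ⟨y, hy1, hy2⟩ := h7
        have h10 : y = p - algebraMap A P c := Subtype.ext hy2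
        rwa [← h10]
      have h11 : (p, a) - c • ((1 : P), (0 : Fin g → A)) =
          LinearMap.inl A P (Fin g → A) (p - algebraMap A P c) +
            LinearMap.inr A P (Fin g → A) a := by
        ext1
        · simp [Algebra.algebraMap_eq_smul_one]
        · simp
      rw [h11]
      refine Submodule.add_mem _ ?_ ?_
      · have h12 := Submodule.mem_map_of_mem (f := LinearMap.inl A P (Fin g → A)) h8
        rw [Submodule.map_smul''] at h12
        exact Submodule.smul_mono le_rfl le_top h12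
      · rw [← Finset.univ_sum_single a, map_sum]
        refine Submodule.sum_mem _ fun j _ => ?_
        have h12 : Pi.single j (a j) = a j • (Pi.single j (1 : A) : Fin g → A) := by
          rw [← Pi.single_smul, smul_eq_mul, mul_one]
        rw [h12, map_smul]
        exact Submodule.smul_mem_smul (h3' j) trivial
  have hker' : ∀ x, u x = 0 → x.2 = 0 ∧ ∃ c : A, x.1 = algebraMap A P c := by
    intro x hx
    obtain ⟨c, hc⟩ := Submodule.mem_span_singleton.1 (hker hx)
    rw [← hc]
    refine ⟨by simp, c, ?_⟩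
    rw [Algebra.algebraMap_eq_smul_one]
    rfl
  obtain ⟨σ, hσ⟩ := Module.projective_lifting_property u LinearMap.id hsur
  have hσ' : ∀ c, u (σ c) = c := fun c => congrArg (fun f => f c) hσ
  refine ⟨fun f hf hf0 => ?_, ?_⟩
  · obtain ⟨-, c, hc⟩ := hker' (⟨f, hf⟩, 0) (by
      rw [hu, pp_eq_zero, hu0]
      simpa using hf0)
    exact ⟨c, congrArg Subtype.val hc⟩
  · refine ⟨LinearMap.snd A P (Fin g → A) ∘ₗ σ ∘ₗ pp, fun a => ?_, fun f => ⟨fun hf => ?_, ?_⟩⟩
    · refine ⟨u0 (0, a), ?_⟩
      have h1 : u (σ (pp (u0 (0, a))) - (0, a)) = 0 := by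
        rw [map_sub, hσ', hu, sub_self]
      have h2 := (hker' _ h1).1
      exact sub_eq_zero.1 h2
    · have h1 := hσ' (pp f)
      have h2 : (σ (pp f)).2 = 0 := hf
      have h3 : σ (pp f) = ((σ (pp f)).1, 0) := by rw [← h2]
      refine ⟨(σ (pp f)).1, (σ (pp f)).1.2, ?_⟩
      rw [h3, hu, hu0] at h1
      rw [← pp_eq_zero, map_sub, sub_eq_zero]
      refine h1.symm.trans ?_
      simp
    · rintro ⟨p, hp, h1⟩
      rw [← pp_eq_zero, map_sub, sub_eq_zero] at h1
      have h2 : u (σ (pp f) - (⟨p, hp⟩, 0)) = 0 := by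
        rw [map_sub, hσ', hu, hu0, h1, sub_eq_zero]
        simp
      have h3 := (hker' _ h2).1
      exact sub_eq_zero.1 h3

end Pool.Agent.MG.G0
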