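import Pool.Agent.MG.G0.StmtsU
import Pool.Agent.MG.G0.KFL
import Pool.Agent.MG.G0.ZL.ZD

/-!
# Module DSC: discriminants of the reductions of a Krichever ring over a local domain
-/

open Polynomial TensorProduct

namespace Pool.Agent.MG.G0

namespace DSC

open ZL

/-- A polynomial in `z` whose coefficients come from a subring. -/
theorem descend {O L : Type} [CommRing O] [CommRing L] {ι : O →+* L}
    (hι : Function.Injective ι) {d : ℕ} [NeZero d] (y : LaurentSeries O) (q : L[X])
    (h : pr (0 : ZMod d) (lmap ι y) = ev d q) :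
    ∃ p : O[X], pr (0 : ZMod d) y = ev d p := by
  have h1 : ∀ k : ℕ, q.coeff k =
      ι ((pr (0 : ZMod d) y).coeff (-((d * k : ℕ) : ℤ))) := by
    intro k
    rw [← ev_coeff d (NeZero.ne d), ← h, ← lmap_pr, lmap_coeff]
  refine ⟨∑ k ∈ Finset.range (q.natDegree + 1),
    monomial k ((pr (0 : ZMod d) y).coeff (-((d * k : ℕ) : ℤ))), ?_⟩
  apply lmap_injective hι
  rw [lmap_pr, h, lmap_ev]
  congr 1
  rw [Polynomial.map_sum]
  conv_lhs => rw [q.as_sum_range]
  refine Finset.sum_congr rfl fun k _ => ?_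
  rw [map_monomial, h1]

/-- Elements of `R` with all coefficients in the ideal `m`. -/
theorem mem_smul (hKBT : Stmt_KBT) {O : Type} [CommRing O] (m : Ideal O) {g : ℕ}
    {R : Subalgebra O (LaurentSeries O)} (hR : Kr g R) {r : LaurentSeries O} (hr : r ∈ R)
    (h : lmap (Ideal.Quotient.mk m) r = 0) : r ∈ m • Subalgebra.toSubmodule R := by
  obtain ⟨h1, -⟩ := hKBT (I := Unit) (A := O) (B := O ⧸ m) (P := uno R) hR
  let r' : uno R := ⟨fun _ => r, hr⟩
  have h2 := h1 1 (fun _ => 1) (fun _ => r') (by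
    rw [Fin.sum_univ_one, one_smul]
    funext i
    exact h)
  rw [Fin.sum_univ_one] at h2
  have h3 : r' ∈ m • (⊤ : Submodule O (uno R)) := by
    rw [← Submodule.Quotient.mk_eq_zero, ← TensorProduct.quotTensorEquivQuotSMul_mk_one_tmul,
      h2, map_zero]
  let F : uno R →ₗ[O] LaurentSeries O :=
    (LinearMap.proj () : KK Unit O →ₗ[O] LaurentSeries O) ∘ₗ (uno R).val.toLinearMap
  have h4 : F r' ∈ (m • (⊤ : Submodule O (uno R))).map F := Submodule.mem_map_of_mem h3
  rw [Submodule.map_smul''] at h4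
  refine Submodule.smul_mono le_rfl ?_ h4
  rintro _ ⟨x, -, rfl⟩
  exact x.2

theorem span_pow {O M : Type} [CommRing O] [AddCommGroup M] [Module O M] (m : Ideal O)
    {N D : Submodule O M} (h : N ≤ D ⊔ m • N) (k : ℕ) : N ≤ D ⊔ m ^ k • N := by
  induction k with
  | zero =>
    rw [pow_zero, Ideal.one_eq_top, Submodule.top_smul]
    exact le_sup_right
  | succ k ih =>
    refine ih.trans (sup_le le_sup_left ?_)
    calc m ^ k • N ≤ m ^ k • (D ⊔ m • N) := Submodule.smul_mono le_rfl h
      _ = m ^ k • D ⊔ m ^ (k + 1) • N := by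
        rw [Submodule.smul_sup, ← Submodule.mul_smul, pow_succ]
      _ ≤ D ⊔ m ^ (k + 1) • N := sup_le_sup_right Submodule.smul_le_right _

/-- The combinations of the family `e` with coefficients in `A[z]`. -/
noncomputable def comb {O : Type} [CommRing O] (d : ℕ) [NeZero d]
    (e : ZMod d → LaurentSeries O) : Submodule O (LaurentSeries O) where
  carrier := {x | ∃ q : ZMod d → O[X], x = ∑ i, ev d (q i) * e i}
  add_mem' := by
    rintro x y ⟨q, rfl⟩ ⟨q', rfl⟩
    refine ⟨q + q', ?_⟩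
    rw [← Finset.sum_add_distrib]
    refine Finset.sum_congr rfl fun i _ => ?_
    rw [Pi.add_apply, map_add, add_mul]
  zero_mem' := ⟨0, by simp⟩
  smul_mem' := by
    rintro b x ⟨q, rfl⟩
    refine ⟨fun i => C b * q i, ?_⟩
    rw [Finset.smul_sum]
    refine Finset.sum_congr rfl fun i _ => ?_
    rw [map_mul, ev_C, mul_assoc, Algebra.smul_def]

theorem mem_comb {O : Type} [CommRing O] {d : ℕ} [NeZero d] {e : ZMod d → LaurentSeries O}
    {x : LaurentSeries O} : x ∈ comb d e ↔ ∃ q : ZMod d → O[X], x = ∑ i, ev d (q i) * e i :=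
  Iff.rfl

theorem ev_mem {O : Type} [CommRing O] {d : ℕ} {R : Subalgebra O (LaurentSeries O)}
    (hz : zz O d ∈ R) (q : O[X]) : ev d q ∈ R := by
  have h1 : ev d q = R.val (aeval (⟨zz O d, hz⟩ : R) q) := by
    rw [← Polynomial.aeval_algHom_apply]
    rfl
  rw [h1]
  exact (aeval (⟨zz O d, hz⟩ : R) q).2

/-- Lifts of a basis over the residue field generate modulo all powers of the ideal. -/
theorem le_comb (hKBT : Stmt_KBT) {O : Type} [CommRing O] (m : Ideal O) {g d : ℕ} [NeZero d]
    {R : Subalgebra O (LaurentSeries O)} (hR : Kr g R) (hz : zz O d ∈ R)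
    {e : ZMod d → LaurentSeries O} (he : ∀ i, e i ∈ R)
    (hs : Spn (bc1 (Ideal.Quotient.mk m) R) fun i => lmap (Ideal.Quotient.mk m) (e i)) (k : ℕ) :
    Subalgebra.toSubmodule R ≤ comb d e ⊔ m ^ k • Subalgebra.toSubmodule R := by
  refine span_pow m ?_ k
  intro x hx
  obtain ⟨q, hq⟩ := hs.2 (lmap (Ideal.Quotient.mk m) x) (Algebra.subset_adjoin ⟨x, hx, rfl⟩)
  choose p hp using fun i => Polynomial.map_surjective (Ideal.Quotient.mk m)
    Ideal.Quotient.mk_surjective (q i)
  have h1 : ∑ i, ev d (p i) * e i ∈ R := sum_mem fun i _ => mul_mem (ev_mem hz _) (he i)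
  have h2 : x - ∑ i, ev d (p i) * e i ∈ m • Subalgebra.toSubmodule R := by
    refine mem_smul hKBT m hR (sub_mem hx h1) ?_
    rw [map_sub, hq, map_sum, sub_eq_zero]
    refine Finset.sum_congr rfl fun i _ => ?_
    rw [map_mul, lmap_ev, hp]
  have h3 : x = ∑ i, ev d (p i) * e i + (x - ∑ i, ev d (p i) * e i) := by ring
  rw [h3]
  exact Submodule.add_mem_sup ⟨p, rfl⟩ h2

theorem lmap_eq_zero {O B : Type} [CommRing O] [CommRing B] (φ : O →+* B) {m : Ideal O}
    (hφ : ∀ x ∈ m, φ x = 0) {N : Submodule O (LaurentSeries O)} {y : LaurentSeries O}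
    (hy : y ∈ m • N) : lmap φ y = 0 := by
  refine Submodule.smul_induction_on hy ?_ ?_
  · intro a ha x _
    rw [lmap_smul, hφ a ha, zero_smul]
  · intro x y hx hy
    rw [map_add, hx, hy, add_zero]

/-- Spanning of the base change. -/
theorem spn (hKBC : Stmt_KBC) {O B : Type} [CommRing O] [CommRing B] (φ : O →+* B) {d : ℕ}
    [NeZero d] {R : Subalgebra O (LaurentSeries O)} {e : ZMod d → LaurentSeries O}
    (he : ∀ i, e i ∈ R) (h : ∀ x ∈ R, ∃ q : ZMod d → O[X], ∃ y : LaurentSeries O,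
      x = ∑ i, ev d (q i) * e i + y ∧ lmap φ y = 0) :
    Spn (bc1 φ R) fun i => lmap φ (e i) := by
  refine ⟨fun i => Algebra.subset_adjoin ⟨e i, he i, rfl⟩, fun x hx => ?_⟩
  have h1 : (fun _ : Unit => x) ∈ Submodule.span B (kmap φ '' (uno R : Set (KK Unit O))) := by
    rw [← hKBC.1 φ (uno R), bc_uno]
    exact hx
  have key : ∀ y ∈ Submodule.span B (kmap φ '' (uno R : Set (KK Unit O))),
      y () ∈ comb d fun i => lmap φ (e i) := by
    intro y hy
    induction hy using Submodule.span_induction with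
    | mem y hy =>
      obtain ⟨w, hw, rfl⟩ := hy
      obtain ⟨q, v, hq, hv⟩ := h (w ()) hw
      refine ⟨fun i => (q i).map φ, ?_⟩
      rw [kmap_apply, hq, map_add, hv, add_zero, map_sum]
      refine Finset.sum_congr rfl fun i _ => ?_
      rw [map_mul, lmap_ev]
    | zero => exact zero_mem _
    | add y y' _ _ h h' => exact add_mem h h'
    | smul b y _ h => exact Submodule.smul_mem _ b h
  exact key _ h1

end DSC

open ZL DSC in
/-- DSC. -/
theorem t_DSC (hKBC : Stmt_KBC) (hKBT : Stmt_KBT) : Stmt_DSC := by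
  classical
  intro O L _ _ _ _ _ _ _ g d R f hd hdu hR hz hf hdeg hDL B _ φ hφ
  obtain ⟨m, hm⟩ := hφ
  have : NeZero d := ⟨by omega⟩
  have hinj : Function.Injective (algebraMap O L) := IsFractionRing.injective O L
  -- reduction to the residue field
  let ρ : O →+* IsLocalRing.ResidueField O := Ideal.Quotient.mk (IsLocalRing.maximalIdeal O)
  have hρ : Function.Surjective ρ := Ideal.Quotient.mk_surjective
  have hRκ : Kr g (bc1 ρ R) := kr_bc hKBC hR ρ
  have hzκ : zz (IsLocalRing.ResidueField O) d ∈ bc1 ρ R := zz_mem_bc hz ρ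
  obtain ⟨-, eb, -, -, heb, -, -⟩ := exists_echelon hRκ hzκ
  have hlift : ∀ i, ∃ x ∈ R, lmap ρ x = eb i := by
    intro i
    have h1 : (fun _ : Unit => eb i) ∈ bc ρ (uno R) := by
      rw [bc_uno]
      exact heb.1 i
    obtain ⟨p, hp, h2⟩ := KFL.bc_surj hρ (uno R) h1
    exact ⟨p (), hp, congrFun h2 ()⟩
  choose e heR he using hlift
  have heb' : (fun i => lmap ρ (e i)) = eb := funext he
  -- the Gram determinant
  obtain ⟨ε, hε, u, hu, hdetε⟩ := dsc_of_disc hDL
  have hRL : Kr g (bc1 (algebraMap O L) R) := kr_bc hKBC hR _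
  have hduL : IsUnit (d : L) := by
    have h1 := hdu.map (algebraMap O L)
    rwa [map_natCast] at h1
  have hG : ∀ i j, ∃ p : O[X], pr (0 : ZMod d) (e i * e j) = ev d p := by
    intro i j
    obtain ⟨q, hq⟩ := pr_mem_ev hRL hε hduL (x := lmap (algebraMap O L) (e i * e j))
      (Algebra.subset_adjoin ⟨e i * e j, mul_mem (heR i) (heR j), rfl⟩)
    exact descend hinj _ q hq
  choose G hG using hG
  have hD : (gram e).det = ev d (Matrix.of G : Matrix (ZMod d) (ZMod d) O[X]).det := by
    rw [← det_map_ev]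
    congr 1
    ext1 i j
    exact hG i j
  set D : O[X] := (Matrix.of G : Matrix (ZMod d) (ZMod d) O[X]).det with hDdef
  choose a ha using fun i => hε.2 (lmap (algebraMap O L) (e i))
    (Algebra.subset_adjoin ⟨e i, heR i, rfl⟩)
  have h1 : D.map (algebraMap O L) = f.map (algebraMap O L) *
      ((Matrix.of a : Matrix (ZMod d) (ZMod d) L[X]).det ^ 2 * u) := by
    apply ev_injective (A := L) d (NeZero.ne d)
    have h2 := gram_det_mul (Matrix.of a : Matrix (ZMod d) (ZMod d) L[X])
      (fun i => lmap (algebraMap O L) (e i)) ε ha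
    rw [← lmap_ev, ← hD, ← lmap_gram_det, h2, hdetε, ← map_mul]
    congr 1
    ring
  obtain ⟨h, hh⟩ := (Polynomial.map_dvd_map (algebraMap O L) hinj hf).1 ⟨_, h1⟩
  -- the degree over the residue field
  have h3 : (gram eb).det = ev d (D.map ρ) := by
    rw [← heb', lmap_gram_det, hD, lmap_ev]
  obtain ⟨h4, h5⟩ := gram_natDegree hRκ hzκ heb h3
  have h6 : D.map ρ = f.map ρ * h.map ρ := by rw [hh, Polynomial.map_mul]
  have h7 : f.map ρ ≠ 0 := (hf.map ρ).ne_zero
  have h8 : h.map ρ ≠ 0 := by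
    intro h9
    rw [h6, h9, mul_zero] at h4
    exact h4 rfl
  have h9 : (h.map ρ).natDegree = 0 := by
    rw [h6, natDegree_mul h7 h8, hf.natDegree_map] at h5
    omega
  have h10 : ∀ k, k ≠ 0 → h.coeff k ∈ IsLocalRing.maximalIdeal O := by
    intro k hk
    rw [← Ideal.Quotient.eq_zero_iff_mem]
    have h11 : (h.map ρ).coeff k = 0 := coeff_eq_zero_of_natDegree_lt (by omega)
    rw [coeff_map] at h11
    exact h11
  have h11 : IsUnit (h.coeff 0) := by
    by_contra h12
    apply h8
    ext k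
    rw [coeff_map, coeff_zero]
    have h13 : h.coeff k ∈ IsLocalRing.maximalIdeal O := by
      by_cases hk : k = 0
      · rw [hk]
        exact (IsLocalRing.mem_maximalIdeal _).2 h12
      · exact h10 k hk
    exact Ideal.Quotient.eq_zero_iff_mem.2 h13
  have h12 : IsUnit (h.map φ) := by
    rw [Polynomial.isUnit_iff_coeff_isUnit_isNilpotent]
    refine ⟨?_, fun k hk => ⟨m, ?_⟩⟩
    · rw [coeff_map]
      exact h11.map φ
    · rw [coeff_map, ← map_pow]
      exact hm _ (Ideal.pow_mem_pow (h10 k hk) m)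
  -- generation
  have h13 : Spn (bc1 φ R) fun i => lmap φ (e i) := by
    refine spn hKBC φ heR fun x hx => ?_
    have h14 := le_comb hKBT (IsLocalRing.maximalIdeal O) hR hz heR (by
      have h15 := heb
      rw [← heb'] at h15
      exact h15) m hx
    obtain ⟨y, ⟨q, rfl⟩, w, hw, rfl⟩ := Submodule.mem_sup.1 h14
    exact ⟨q, w, rfl, lmap_eq_zero φ hm hw⟩
  have hduB : IsUnit (d : B) := by
    have h1 := hdu.map φ
    rwa [map_natCast] at h1
  refine disc_of_dsc (kr_bc hKBC hR φ) hduB ⟨fun i => lmap φ (e i), h13, h.map φ, h12, ?_⟩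
  rw [lmap_gram_det, hD, lmap_ev, hh, Polynomial.map_mul, mul_comm]

end Pool.Agent.MG.G0
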