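import Pool.Agent.MG.G0.StmtsK

/-!
# An inclusion of Krichever rings of the same genus is an equality
-/

namespace Pool.Agent.MG.G0

theorem t_KEQ : Stmt_KEQ := by
  intro I A _ g P P' hP hP' hle
  obtain ⟨L, hL, hLk⟩ := hP.k2
  obtain ⟨L', hL', hLk'⟩ := hP'.k2
  -- a section of `L`
  obtain ⟨s, hs⟩ := Module.projective_lifting_property L (LinearMap.id (R := A) (M := Fin g → A)) hL
  have hs' : ∀ c, L (s c) = c := fun c => LinearMap.congr_fun hs c
  have hφ : ∀ f, L' (s (L f)) = L' f := by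
    intro f
    have h1 : L (s (L f) - f) = 0 := by rw [map_sub, hs', sub_self]
    obtain ⟨p, hp, hp0⟩ := (hLk _).1 h1
    have h2 : L' (s (L f) - f) = 0 := (hLk' _).2 ⟨p, hle hp, hp0⟩
    rw [map_sub] at h2
    exact sub_eq_zero.1 h2
  have hsurj : Function.Surjective (L' ∘ₗ s) := by
    intro c
    obtain ⟨f, hf⟩ := hL' c
    exact ⟨L f, by rw [LinearMap.comp_apply, hφ, hf]⟩
  have hinj : Function.Injective (L' ∘ₗ s) :=
    OrzechProperty.injective_of_surjective_endomorphism _ hsurj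
  refine le_antisymm hle fun p' hp' => ?_
  have h1 : L' p' = 0 := (hLk' _).2 ⟨p', hp', by rw [sub_self]; exact Submodule.zero_mem _⟩
  have h2 : L p' = 0 := by
    apply hinj
    rw [LinearMap.comp_apply, hφ, h1, map_zero]
  obtain ⟨p, hp, hp0⟩ := (hLk _).1 h2
  obtain ⟨a, ha⟩ := hP'.k1 (p' - p) (sub_mem hp' (hle hp)) hp0
  have h3 : p' = p + algebraMap A (KK I A) a := by
    rw [← ha]
    ring
  rw [h3]
  exact add_mem hp (P.algebraMap_mem a)

end Pool.Agent.MG.G0
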