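import Pool.Agent.MG.G0.StmtsB
import Pool.Agent.MG.G0.KEQ
import Pool.Agent.MG.G0.DSC

/-!
# Module BPX: uniqueness of covers, small extensions
-/

open Polynomial

namespace Pool.Agent.MG.G0

namespace BPX

open ZL

/-! ## Determinants and square zero elements -/

theorem eps_congr {S n : Type} [CommRing S] [Fintype n] [DecidableEq n] {ε : S} (hε : ε * ε = 0)
    {M M' : Matrix n n S} (h : ∀ r c, ∃ t, M r c = M' r c + ε * t) : ε * M.det = ε * M'.det := by
  have h1 : Ideal.Quotient.mk (Ideal.span {ε}) M.det = Ideal.Quotient.mk (Ideal.span {ε}) M'.det := by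
    rw [RingHom.map_det, RingHom.map_det]
    congr 1
    ext1 r c
    obtain ⟨t, ht⟩ := h r c
    rw [RingHom.mapMatrix_apply, RingHom.mapMatrix_apply, Matrix.map_apply, Matrix.map_apply, ht,
      map_add, Ideal.Quotient.eq_zero_iff_mem.2
        (Ideal.mul_mem_right t _ (Ideal.mem_span_singleton_self ε)), add_zero]
  obtain ⟨t, ht⟩ := Ideal.mem_span_singleton'.1 ((Ideal.Quotient.mk_eq_mk_iff_sub_mem _ _).1 h1)
  have h2 : ε * (M.det - M'.det) = 0 := by
    rw [← ht, mul_comm t, ← mul_assoc, hε, zero_mul]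
  rw [mul_sub, sub_eq_zero] at h2
  exact h2

theorem det_eps_aux {S n : Type} [CommRing S] [Fintype n] [DecidableEq n] {ε : S} (hε : ε * ε = 0)
    (G H : Matrix n n S) (s : Finset n) :
    (Matrix.of fun r c => if c ∈ s then G r c + ε * H r c else G r c).det =
      G.det + ε * ∑ c ∈ s, (G.updateCol c fun r => H r c).det := by
  induction s using Finset.induction_on with
  | empty =>
    rw [Finset.sum_empty, mul_zero, add_zero]
    congr 1
  | insert c s hc ih =>
    have h1 : (Matrix.of fun r c' => if c' ∈ insert c s then G r c' + ε * H r c' else G r c') =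
        (Matrix.of fun r c' => if c' ∈ s then G r c' + ε * H r c' else G r c').updateCol c
          ((fun r => G r c) + ε • fun r => H r c) := by
      ext1 r c'
      rw [Matrix.updateCol_apply, Matrix.of_apply, Matrix.of_apply]
      by_cases h : c' = c
      · rw [if_pos h, h, if_pos (Finset.mem_insert_self c s)]
        rfl
      · rw [if_neg h]
        simp only [Finset.mem_insert, h, false_or]
    have h2 : (Matrix.of fun r c' => if c' ∈ s then G r c' + ε * H r c' else G r c').updateCol c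
        (fun r => G r c) =
        (Matrix.of fun r c' => if c' ∈ s then G r c' + ε * H r c' else G r c') := by
      ext1 r c'
      rw [Matrix.updateCol_apply, Matrix.of_apply]
      by_cases h : c' = c
      · rw [if_pos h, h, if_neg hc]
      · rw [if_neg h]
    have h3 : ε * ((Matrix.of fun r c' => if c' ∈ s then G r c' + ε * H r c' else
        G r c').updateCol c (fun r => H r c)).det = ε * (G.updateCol c fun r => H r c).det := by
      apply eps_congr hε
      intro r c'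
      rw [Matrix.updateCol_apply, Matrix.updateCol_apply, Matrix.of_apply]
      by_cases h : c' = c
      · rw [if_pos h, if_pos h]
        exact ⟨0, by rw [mul_zero, add_zero]⟩
      · rw [if_neg h, if_neg h]
        split_ifs with h4
        · exact ⟨H r c', rfl⟩
        · exact ⟨0, by rw [mul_zero, add_zero]⟩
    rw [h1, Matrix.det_updateCol_add, Matrix.det_updateCol_smul, h2, h3, ih,
      Finset.sum_insert hc, mul_add]
    ring

/-- The determinant of `G + ε H` when `ε² = 0`. -/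
theorem det_eps {S n : Type} [CommRing S] [Fintype n] [DecidableEq n] {ε : S} (hε : ε * ε = 0)
    (G H M : Matrix n n S) (hM : ∀ r c, M r c = G r c + ε * H r c) :
    M.det = G.det + ε * ∑ i, ∑ k, G.adjugate i k * H k i := by
  have h1 : M = Matrix.of fun r c => if c ∈ (Finset.univ : Finset n) then G r c + ε * H r c
      else G r c := by
    ext1 r c
    rw [Matrix.of_apply, if_pos (Finset.mem_univ c), hM]
  rw [h1, det_eps_aux hε]
  congr 2
  refine Finset.sum_congr rfl fun c _ => ?_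
  rw [← Matrix.cramer_apply, Matrix.cramer_eq_adjugate_mulVec]
  rfl

/-! ## Series divisible by `j` -/

section

variable {A : Type} [CommRing A]

/-- A series with all coefficients divisible by `j`. -/
theorem smul_of_lmap {j : A} {x : LaurentSeries A}
    (h : lmap (Ideal.Quotient.mk (Ideal.span {j})) x = 0) : ∃ y, x = j • y := by
  classical
  have h1 : ∀ m, ∃ c, x.coeff m = j * c := by
    intro m
    have h2 : Ideal.Quotient.mk (Ideal.span {j}) (x.coeff m) = 0 := by
      rw [← lmap_coeff, h, HahnSeries.coeff_zero]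
    obtain ⟨c, hc⟩ := Ideal.mem_span_singleton'.1 (Ideal.Quotient.eq_zero_iff_mem.1 h2)
    exact ⟨c, by rw [← hc, mul_comm]⟩
  choose c hc using h1
  refine ⟨{ coeff := fun m => if x.coeff m = 0 then 0 else c m
            isPWO_support' := x.isPWO_support.mono fun m hm => ?_ }, ?_⟩
  · intro h0
    apply hm
    change (if x.coeff m = 0 then 0 else c m) = 0
    rw [if_pos h0]
  · ext m
    rw [HahnSeries.coeff_smul, smul_eq_mul]
    change x.coeff m = j * (if x.coeff m = 0 then 0 else c m)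
    split_ifs with h0
    · rw [h0, mul_zero]
    · exact hc m

theorem exists_lift (hKBC : Stmt_KBC) {B : Type} [CommRing B] (ψ : A →+* B)
    (hψ : Function.Surjective ψ) {R : Subalgebra A (LaurentSeries A)} {y : LaurentSeries B}
    (hy : y ∈ bc1 ψ R) : ∃ x ∈ R, lmap ψ x = y := by
  have h1 : (fun _ : Unit => y) ∈ Submodule.span B (kmap ψ '' (uno R : Set (KK Unit A))) := by
    rw [← hKBC.1 ψ (uno R), bc_uno]
    exact hy
  have key : ∀ z ∈ Submodule.span B (kmap ψ '' (uno R : Set (KK Unit A))),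
      ∃ x ∈ R, lmap ψ x = z () := by
    intro z hz
    induction hz using Submodule.span_induction with
    | mem z hz =>
      obtain ⟨w, hw, rfl⟩ := hz
      exact ⟨w (), hw, rfl⟩
    | zero => exact ⟨0, zero_mem _, map_zero _⟩
    | add z z' _ _ h h' =>
      obtain ⟨x, hx, hx'⟩ := h
      obtain ⟨w, hw, hw'⟩ := h'
      exact ⟨x + w, add_mem hx hw, by rw [map_add, hx', hw', Pi.add_apply]⟩
    | smul b z _ h =>
      obtain ⟨x, hx, hx'⟩ := h
      obtain ⟨a, ha⟩ := hψ b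
      exact ⟨a • x, R.smul_mem hx a, by rw [lmap_smul, ha, hx', Pi.smul_apply]⟩
  exact key _ h1

/-- The elements of `R` which are divisible by `j`. -/
theorem mem_j (hKBT : Stmt_KBT) {g : ℕ} {R : Subalgebra A (LaurentSeries A)} (hR : Kr g R)
    {j : A} {y : LaurentSeries A} (h : j • y ∈ R) : ∃ r ∈ R, j • y = j • r := by
  have h1 : lmap (Ideal.Quotient.mk (Ideal.span {j})) (j • y) = 0 := by
    rw [lmap_smul, Ideal.Quotient.eq_zero_iff_mem.2 (Ideal.mem_span_singleton_self j), zero_smul]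
  have h2 := DSC.mem_smul hKBT (Ideal.span {j}) hR h h1
  have key : ∀ z ∈ Ideal.span {j} • Subalgebra.toSubmodule R, ∃ r ∈ R, z = j • r := by
    intro z hz
    refine Submodule.smul_induction_on hz ?_ ?_
    · intro a ha n hn
      obtain ⟨c, hc⟩ := Ideal.mem_span_singleton'.1 ha
      exact ⟨c • n, R.smul_mem hn c, by rw [← hc, mul_comm, mul_smul]⟩
    · rintro x y ⟨r, hr, hr'⟩ ⟨s, hs, hs'⟩
      exact ⟨r + s, add_mem hr hs, by rw [hr', hs', smul_add]⟩
  exact key _ h2

/-- A polynomial in `z` divisible by `j`. -/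
theorem lift_ev {κ : Type} [CommRing κ] (ρ : A →+* κ) {j : A} (hann : ∀ a, j * a = 0 → ρ a = 0)
    {d : ℕ} [NeZero d] {y : LaurentSeries A} {q : A[X]} (h : j • y = ev d q) :
    ∃ p : A[X], C j * p = q ∧ lmap ρ y = ev d (p.map ρ) := by
  classical
  have hc : ∀ m, j * y.coeff m = (ev d q).coeff m := by
    intro m
    rw [← h, HahnSeries.coeff_smul, smul_eq_mul]
  let p : A[X] := ∑ k ∈ Finset.range (q.natDegree + 1),
    monomial k (y.coeff (-((d * k : ℕ) : ℤ)))
  have hp : ∀ k, p.coeff k = if k ∈ Finset.range (q.natDegree + 1) then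
      y.coeff (-((d * k : ℕ) : ℤ)) else 0 := by
    intro k
    rw [finsetSum_coeff]
    simp only [coeff_monomial]
    rw [Finset.sum_ite_eq' (Finset.range (q.natDegree + 1)) k fun k =>
      y.coeff (-((d * k : ℕ) : ℤ))]
  have hq : ∀ k, k ∉ Finset.range (q.natDegree + 1) → q.coeff k = 0 := by
    intro k hk
    apply coeff_eq_zero_of_natDegree_lt
    rw [Finset.mem_range] at hk
    omega
  refine ⟨p, ?_, ?_⟩
  · ext k
    rw [coeff_C_mul, hp]
    split_ifs with hk
    · rw [hc, ev_coeff d (NeZero.ne d)]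
    · rw [mul_zero, hq k hk]
  · ext m
    rw [lmap_coeff]
    by_cases hm : ∃ k : ℕ, m = -((d * k : ℕ) : ℤ)
    · obtain ⟨k, rfl⟩ := hm
      rw [ev_coeff d (NeZero.ne d), coeff_map, hp]
      split_ifs with hk
      · rfl
      · rw [map_zero]
        apply hann
        rw [hc, ev_coeff d (NeZero.ne d), hq k hk]
    · have hm' : ∀ k : ℕ, m ≠ -((d * k : ℕ) : ℤ) := fun k hk => hm ⟨k, hk⟩
      rw [ev_coeff_ne d _ m hm']
      apply hann
      rw [hc, ev_coeff_ne d _ m hm']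

/-- Elements of `R₁` congruent to elements of `R₂`. -/
theorem exists_pair (hKBC : Stmt_KBC) {R₁ R₂ : Subalgebra A (LaurentSeries A)} {j : A}
    (h : bc1 (Ideal.Quotient.mk (Ideal.span {j})) R₁ =
      bc1 (Ideal.Quotient.mk (Ideal.span {j})) R₂) {x : LaurentSeries A} (hx : x ∈ R₁) :
    ∃ x' ∈ R₂, ∃ y, x - x' = j • y := by
  have h1 : lmap (Ideal.Quotient.mk (Ideal.span {j})) x ∈
      bc1 (Ideal.Quotient.mk (Ideal.span {j})) R₂ := by
    rw [← h]
    exact Algebra.subset_adjoin ⟨x, hx, rfl⟩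
  obtain ⟨x', hx', he⟩ := exists_lift hKBC _ Ideal.Quotient.mk_surjective h1
  obtain ⟨y, hy⟩ := smul_of_lmap (j := j) (x := x - x') (by rw [map_sub, he, sub_self])
  exact ⟨x', hx', y, hy⟩

/-- Generators are determined modulo `j`. -/
theorem spn_congr (hKBC : Stmt_KBC) (hKBT : Stmt_KBT) {g d : ℕ} [NeZero d]
    {R₁ R₂ : Subalgebra A (LaurentSeries A)} {j : A} (hj : j * j = 0) (hR₂ : Kr g R₂)
    (hz : zz A d ∈ R₂)
    (h : bc1 (Ideal.Quotient.mk (Ideal.span {j})) R₁ =
      bc1 (Ideal.Quotient.mk (Ideal.span {j})) R₂) {e e' x : ZMod d → LaurentSeries A}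
    (he : Spn R₁ e) (he' : ∀ i, e' i ∈ R₂) (hx : ∀ i, e i - e' i = j • x i) : Spn R₂ e' := by
  have h1 : ∀ y ∈ R₂, ∃ q : ZMod d → A[X], ∃ r ∈ R₂, y = ∑ i, ev d (q i) * e' i + j • r := by
    intro y hy
    obtain ⟨w, hw, v, hv⟩ := exists_pair hKBC h.symm hy
    obtain ⟨q, hq⟩ := he.2 w hw
    have h2 : y - ∑ i, ev d (q i) * e' i = j • (v + ∑ i, ev d (q i) * x i) := by
      have h3 : ∑ i, ev d (q i) * e i = ∑ i, ev d (q i) * e' i + j • ∑ i, ev d (q i) * x i := by
        rw [Finset.smul_sum, ← Finset.sum_add_distrib]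
        refine Finset.sum_congr rfl fun i _ => ?_
        rw [← mul_smul_comm, ← hx i]
        ring
      rw [smul_add, ← hv, hq, h3]
      ring
    have h3 : y - ∑ i, ev d (q i) * e' i ∈ R₂ :=
      sub_mem hy (sum_mem fun i _ => mul_mem (DSC.ev_mem hz _) (he' i))
    rw [h2] at h3
    obtain ⟨r, hr, hr'⟩ := mem_j hKBT hR₂ h3
    refine ⟨q, r, hr, ?_⟩
    rw [← hr', ← h2]
    ring
  refine ⟨he', fun y hy => ?_⟩
  obtain ⟨q, r, hr, hr'⟩ := h1 y hy
  obtain ⟨p, s, -, hs'⟩ := h1 r hr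
  refine ⟨fun i => q i + C j * p i, ?_⟩
  have h2 : j • (j • s) = 0 := by rw [smul_smul, hj, zero_smul]
  rw [hr', hs', smul_add, h2, add_zero, Finset.smul_sum, ← Finset.sum_add_distrib]
  refine Finset.sum_congr rfl fun i _ => ?_
  rw [map_add, map_mul, ev_C, Algebra.smul_def]
  ring

/-- The Gram determinants of two bases. -/
theorem det_change {g d : ℕ} [NeZero d] {R : Subalgebra A (LaurentSeries A)} (hR : Kr g R)
    {e e' : Fin d → LaurentSeries A} {G G' : Matrix (Fin d) (Fin d) A[X]} (he : ZBas d R e)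
    (he' : ZBas d R e') (hG : ZGram d e G) (hG' : ZGram d e' G') :
    ∃ w : A[X], IsUnit w ∧ G.det = w * G'.det := by
  classical
  obtain ⟨a, ha, hae⟩ := exists_change hR (spn_of_zbas he) (spn_of_zbas he')
  have key : ∀ (e : Fin d → LaurentSeries A) (G : Matrix (Fin d) (Fin d) A[X]), ZGram d e G →
      (gram fun i => e ((sg d).symm i)).det = ev d G.det := by
    intro e G hG
    rw [← det_map_ev, ← Matrix.det_submatrix_equiv_self (sg d)]
    congr 1
    ext1 i k
    rw [Matrix.submatrix_apply, Matrix.map_apply]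
    show pr (0 : ZMod d) (e ((sg d).symm ((sg d) i)) * e ((sg d).symm ((sg d) k))) = ev d (G i k)
    rw [Equiv.symm_apply_apply, Equiv.symm_apply_apply, pr_zero_eq]
    exact (hG i k).symm
  refine ⟨a.det ^ 2, ha.pow 2, ?_⟩
  have h1 := gram_det_mul a _ _ hae
  rw [key e G hG, key e' G' hG', ← map_mul] at h1
  exact ev_injective d (NeZero.ne d) h1

/-- Division by a monic polynomial modulo `j`. -/
theorem monic_cancel {j : A} {f u T : A[X]} (hf : f.Monic) (h : u * f = C j * T) :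
    ∃ v : A[X], u = C j * v := by
  classical
  have h1 : u.map (Ideal.Quotient.mk (Ideal.span {j})) = 0 := by
    have h2 : u.map (Ideal.Quotient.mk (Ideal.span {j})) *
        f.map (Ideal.Quotient.mk (Ideal.span {j})) = 0 := by
      rw [← Polynomial.map_mul, h, Polynomial.map_mul, map_C,
        Ideal.Quotient.eq_zero_iff_mem.2 (Ideal.mem_span_singleton_self j), C_0, zero_mul]
    exact ((hf.map _).mul_left_eq_zero_iff).1 h2
  have h2 : ∀ k, ∃ c, u.coeff k = j * c := by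
    intro k
    have h3 : Ideal.Quotient.mk (Ideal.span {j}) (u.coeff k) = 0 := by
      rw [← coeff_map, h1, coeff_zero]
    obtain ⟨c, hc⟩ := Ideal.mem_span_singleton'.1 (Ideal.Quotient.eq_zero_iff_mem.1 h3)
    exact ⟨c, by rw [← hc, mul_comm]⟩
  choose c hc using h2
  refine ⟨∑ k ∈ Finset.range (u.natDegree + 1), monomial k (c k), ?_⟩
  ext k
  rw [coeff_C_mul, finsetSum_coeff]
  simp only [coeff_monomial]
  rw [Finset.sum_ite_eq' (Finset.range (u.natDegree + 1)) k c]
  split_ifs with hk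
  · exact hc k
  · rw [mul_zero]
    apply coeff_eq_zero_of_natDegree_lt
    rw [Finset.mem_range] at hk
    omega

end

/-! ## The relation -/

section

variable {A κ : Type} [CommRing A] [Field κ]

/-- The relation between `ρ(h)` and `ρ(x)` for `h - h' = j x`. -/
def Rl (ρ : A →+* κ) (j : A) (R₁ R₂ : Subalgebra A (LaurentSeries A))
    (y v : LaurentSeries κ) : Prop :=
  ∃ h ∈ R₁, ∃ h' ∈ R₂, ∃ x, lmap ρ h = y ∧ h - h' = j • x ∧ lmap ρ x = v

variable {ρ : A →+* κ} {j : A} {R₁ R₂ : Subalgebra A (LaurentSeries A)}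

theorem Rl.img (hj : ρ j = 0) {h h' x : LaurentSeries A} (he : h - h' = j • x) :
    lmap ρ h' = lmap ρ h := by
  have h1 : h' = h - j • x := by rw [← he, sub_sub_cancel]
  rw [h1, map_sub, lmap_smul, hj, zero_smul, sub_zero]

theorem Rl.add {y v y' v' : LaurentSeries κ} (h : Rl ρ j R₁ R₂ y v) (h' : Rl ρ j R₁ R₂ y' v') :
    Rl ρ j R₁ R₂ (y + y') (v + v') := by
  obtain ⟨a, ha, b, hb, x, h1, h2, h3⟩ := h
  obtain ⟨a', ha', b', hb', x', h1', h2', h3'⟩ := h'
  refine ⟨a + a', add_mem ha ha', b + b', add_mem hb hb', x + x', ?_, ?_, ?_⟩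
  · rw [map_add, h1, h1']
  · rw [smul_add, ← h2, ← h2']
    ring
  · rw [map_add, h3, h3']

theorem Rl.sub {y v y' v' : LaurentSeries κ} (h : Rl ρ j R₁ R₂ y v) (h' : Rl ρ j R₁ R₂ y' v') :
    Rl ρ j R₁ R₂ (y - y') (v - v') := by
  obtain ⟨a, ha, b, hb, x, h1, h2, h3⟩ := h
  obtain ⟨a', ha', b', hb', x', h1', h2', h3'⟩ := h'
  refine ⟨a - a', sub_mem ha ha', b - b', sub_mem hb hb', x - x', ?_, ?_, ?_⟩
  · rw [map_sub, h1, h1']
  · rw [smul_sub, ← h2, ← h2']
    ring
  · rw [map_sub, h3, h3']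

theorem Rl.mul (hj : ρ j = 0) {y v y' v' : LaurentSeries κ} (h : Rl ρ j R₁ R₂ y v)
    (h' : Rl ρ j R₁ R₂ y' v') : Rl ρ j R₁ R₂ (y * y') (y * v' + y' * v) := by
  obtain ⟨a, ha, b, hb, x, h1, h2, h3⟩ := h
  obtain ⟨a', ha', b', hb', x', h1', h2', h3'⟩ := h'
  refine ⟨a * a', mul_mem ha ha', b * b', mul_mem hb hb', a * x' + b' * x, ?_, ?_, ?_⟩
  · rw [map_mul, h1, h1']
  · rw [smul_add, ← mul_smul_comm, ← mul_smul_comm, ← h2, ← h2']
    ring
  · rw [map_add, map_mul, map_mul, h3, h3', h1, Rl.img hj h2', h1']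

theorem Rl.both {h : LaurentSeries A} (h1 : h ∈ R₁) (h2 : h ∈ R₂) :
    Rl ρ j R₁ R₂ (lmap ρ h) 0 :=
  ⟨h, h1, h, h2, 0, rfl, by rw [sub_self, smul_zero], map_zero _⟩

/-- Uniqueness modulo the reduction. -/
theorem Rl.uniq (hKBT : Stmt_KBT) {g : ℕ} (hR₁ : Kr g R₁) (hR₂ : Kr g R₂)
    (hm : ∀ m : A, ρ m = 0 → m * j = 0) (hann : ∀ a, j * a = 0 → ρ a = 0)
    (hp : ∀ x ∈ R₁, ∃ x' ∈ R₂, ∃ y, x - x' = j • y) {v : LaurentSeries κ}
    (h : Rl ρ j R₁ R₂ 0 v) : v ∈ bc1 ρ R₂ := by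
  obtain ⟨a, ha, b, hb, x, h1, h2, h3⟩ := h
  have h4 : lmap (Ideal.Quotient.mk (RingHom.ker ρ)) a = 0 := by
    ext m
    rw [lmap_coeff, HahnSeries.coeff_zero, Ideal.Quotient.eq_zero_iff_mem, RingHom.mem_ker,
      ← lmap_coeff, h1, HahnSeries.coeff_zero]
  have h5 := DSC.mem_smul hKBT (RingHom.ker ρ) hR₁ ha h4
  have key : ∀ z ∈ RingHom.ker ρ • Subalgebra.toSubmodule R₁, z ∈ R₂ := by
    intro z hz
    refine Submodule.smul_induction_on hz ?_ ?_
    · intro m hm' n hn
      obtain ⟨n', hn', y, hy⟩ := hp n hn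
      have h6 : m • n = m • n' := by
        have h7 : n = n' + j • y := by rw [← hy]; ring
        rw [h7, smul_add, smul_smul, hm m hm', zero_smul, add_zero]
      rw [h6]
      exact R₂.smul_mem hn' m
    · intro x y hx hy
      exact add_mem hx hy
  have h6 : j • x ∈ R₂ := by
    rw [← h2]
    exact sub_mem (key _ h5) hb
  obtain ⟨r, hr, hr'⟩ := mem_j hKBT hR₂ h6
  have h7 : lmap ρ x = lmap ρ r := by
    ext m
    rw [lmap_coeff, lmap_coeff, ← sub_eq_zero, ← map_sub]
    apply hann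
    rw [mul_sub]
    have h8 := congrArg (fun s : LaurentSeries A => s.coeff m) hr'
    simp only [HahnSeries.coeff_smul, smul_eq_mul] at h8
    rw [h8, sub_self]
  rw [← h3, h7]
  exact Algebra.subset_adjoin ⟨r, hr, rfl⟩

/-- The discriminant condition. -/
theorem disc_lemma (h2 : (2 : κ) ≠ 0) (hj : ρ j = 0) (hjj : j * j = 0)
    (hann : ∀ a, j * a = 0 → ρ a = 0) {d : ℕ} [NeZero d] {e e' x : Fin d → LaurentSeries A}
    {G G' : Matrix (Fin d) (Fin d) A[X]} {f u u' : A[X]} (hG : ZGram d e G)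
    (hG' : ZGram d e' G') (hx : ∀ i, e i - e' i = j • x i) (hf : f.Monic) (hu : IsUnit u)
    (hdet : G.det = u * f) (hdet' : G'.det = u' * f) :
    ∃ v : κ[X], ∑ i, ∑ k, zpol κ d ((G.map (Polynomial.map ρ)).adjugate i k) *
      pr0 κ d (lmap ρ (e k) * lmap ρ (x i)) = zpol κ d (v * (G.map (Polynomial.map ρ)).det) := by
  classical
  have h1 : ∀ i k, j • pr0 A d (e i * x k + e' k * x i) = ev d (G i k - G' i k) := by
    intro i k
    rw [map_sub, hG i k, hG' i k, ← map_sub, ← map_smul]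
    congr 1
    rw [smul_add, ← mul_smul_comm, ← mul_smul_comm, ← hx, ← hx]
    ring
  choose H hH1 hH2 using fun i k => lift_ev ρ hann (h1 i k)
  have hε : (C j : A[X]) * C j = 0 := by rw [← C_mul, hjj, C_0]
  have h3 := det_eps hε G (Matrix.of fun i k => -(H i k)) G' (fun r c => by
    rw [Matrix.of_apply, mul_neg, hH1]
    ring)
  have h4 : (u - u') * f = C j * ∑ i, ∑ k, G.adjugate i k * H k i := by
    rw [sub_mul, ← hdet, ← hdet', h3]
    simp only [Matrix.of_apply, mul_neg, Finset.sum_neg_distrib]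
    ring
  obtain ⟨v, hv⟩ := monic_cancel hf h4
  have h5 : (∑ i, ∑ k, G.adjugate i k * H k i).map ρ = v.map ρ * f.map ρ := by
    rw [← Polynomial.map_mul, ← sub_eq_zero, ← Polynomial.map_sub]
    ext k
    rw [coeff_map, coeff_zero]
    apply hann
    rw [← coeff_C_mul, mul_sub, ← h4, hv, mul_assoc, sub_self, coeff_zero]
  obtain ⟨w, hw⟩ := (hu.map (Polynomial.mapRingHom ρ)).exists_left_inv
  rw [Polynomial.coe_mapRingHom] at hw
  have h6 : (G.map (Polynomial.map ρ)).det = u.map ρ * f.map ρ := by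
    have h7 := RingHom.map_det (Polynomial.mapRingHom ρ) G
    rw [hdet, Polynomial.coe_mapRingHom, Polynomial.map_mul] at h7
    rw [h7]
    rfl
  have h8 : ∀ i k, (G.map (Polynomial.map ρ)).adjugate i k = (G.adjugate i k).map ρ := by
    intro i k
    have h9 := RingHom.map_adjugate (Polynomial.mapRingHom ρ) G
    exact (congrFun (congrFun h9 i) k).symm
  have hsym : G.transpose = G := by
    ext1 i k
    apply ev_injective d (NeZero.ne d)
    rw [Matrix.transpose_apply]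
    show zpol A d (G k i) = zpol A d (G i k)
    rw [hG, hG, mul_comm]
  have hadj : ∀ i k, G.adjugate i k = G.adjugate k i := by
    intro i k
    have h9 := Matrix.adjugate_transpose G
    rw [hsym] at h9
    exact congrFun (congrFun h9 k) i
  have h10 : ∀ i k, lmap ρ (pr0 A d (e i * x k + e' k * x i)) =
      pr0 κ d (lmap ρ (e i) * lmap ρ (x k)) + pr0 κ d (lmap ρ (e k) * lmap ρ (x i)) := by
    intro i k
    rw [lmap_pr0, map_add (lmap ρ), map_mul, map_mul, Rl.img hj (hx k), map_add]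
  have h11 : ev d ((∑ i, ∑ k, G.adjugate i k * H k i).map ρ) =
      2 * ∑ i, ∑ k, zpol κ d ((G.map (Polynomial.map ρ)).adjugate i k) *
      pr0 κ d (lmap ρ (e k) * lmap ρ (x i)) := by
    rw [Polynomial.map_sum, map_sum]
    have h12 : ∀ i, ev d ((∑ k, G.adjugate i k * H k i).map ρ) =
        ∑ k, zpol κ d ((G.adjugate i k).map ρ) * pr0 κ d (lmap ρ (e k) * lmap ρ (x i)) +
        ∑ k, zpol κ d ((G.adjugate k i).map ρ) * pr0 κ d (lmap ρ (e i) * lmap ρ (x k)) := by
      intro i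
      rw [Polynomial.map_sum, map_sum, ← Finset.sum_add_distrib]
      refine Finset.sum_congr rfl fun k _ => ?_
      rw [Polynomial.map_mul, map_mul, ← hH2, h10, mul_add, hadj k i]
    rw [Finset.sum_congr rfl fun i _ => h12 i, Finset.sum_add_distrib]
    rw [Finset.sum_comm (f := fun i k => zpol κ d ((G.adjugate k i).map ρ) *
      pr0 κ d (lmap ρ (e i) * lmap ρ (x k))), ← two_mul]
    simp only [h8]
  refine ⟨C (2 : κ)⁻¹ * (v.map ρ * w), ?_⟩
  have h13 : C (2 : κ)⁻¹ * (v.map ρ * w) * (G.map (Polynomial.map ρ)).det =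
      C (2 : κ)⁻¹ * (∑ i, ∑ k, G.adjugate i k * H k i).map ρ := by
    rw [h6, h5]
    calc C (2 : κ)⁻¹ * (v.map ρ * w) * (u.map ρ * f.map ρ) =
        C (2 : κ)⁻¹ * (v.map ρ * (w * u.map ρ) * f.map ρ) := by ring
      _ = C (2 : κ)⁻¹ * (v.map ρ * f.map ρ) := by rw [hw, mul_one]
  rw [h13, map_mul]
  have h14 : zpol κ d ((∑ i, ∑ k, G.adjugate i k * H k i).map ρ) =
      2 * ∑ i, ∑ k, zpol κ d ((G.map (Polynomial.map ρ)).adjugate i k) *
      pr0 κ d (lmap ρ (e k) * lmap ρ (x i)) := h11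
  rw [h14, ← mul_assoc]
  have h15 : zpol κ d (C (2 : κ)⁻¹) * 2 = 1 := by
    have h16 : (2 : LaurentSeries κ) = zpol κ d (C (2 : κ)) := by
      rw [map_ofNat, map_ofNat]
    rw [h16, ← map_mul, ← C_mul, inv_mul_cancel₀ h2, C_1, map_one]
  rw [h15, one_mul]

end

/-- The inclusion. -/
theorem le_of (hBPD : Stmt_BPD) (hKBC : Stmt_KBC) (hKBT : Stmt_KBT) {A κ : Type} [CommRing A]
    [IsLocalRing A] [Field κ] (ρ : A →+* κ) (hρ : Function.Surjective ρ) {g d : ℕ} (hd : 0 < d)
    (h2d : IsUnit ((2 * d : ℕ) : A)) (R₁ R₂ : Subalgebra A (LaurentSeries A)) (f : A[X])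
    (hR₁ : Kr g R₁) (hR₂ : Kr g R₂) (hz₁ : zz A d ∈ R₁) (hz₂ : zz A d ∈ R₂) (hf : f.Monic)
    (hD₁ : Disc d R₁ f) (hD₂ : Disc d R₂ f) (j : A) (hj : ρ j = 0)
    (hm : ∀ m : A, ρ m = 0 → m * j = 0)
    (hb : bc1 (Ideal.Quotient.mk (Ideal.span {j})) R₁ =
      bc1 (Ideal.Quotient.mk (Ideal.span {j})) R₂) (hC : Cyc d (bc1 ρ R₁)) : R₁ ≤ R₂ := by
  classical
  have : NeZero d := ⟨hd.ne'⟩
  by_cases hj0 : j = 0
  · intro x hx
    obtain ⟨x', hx', y, hy⟩ := exists_pair hKBC hb hx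
    rw [hj0, zero_smul, sub_eq_zero] at hy
    rw [hy]
    exact hx'
  have hjj : j * j = 0 := hm j hj
  have hann : ∀ a, j * a = 0 → ρ a = 0 := by
    intro a ha
    by_contra hne
    apply hj0
    have h1 : IsUnit a := by
      by_contra hnu
      obtain ⟨b, hb'⟩ := hρ (ρ a)⁻¹
      have h2 : IsUnit (1 - a * b) := by
        rcases IsLocalRing.isUnit_or_isUnit_one_sub_self (a * b) with h | h
        · exact absurd (isUnit_of_mul_isUnit_left h) hnu
        · exact h
      have h3 : ρ (1 - a * b) = 0 := by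
        rw [map_sub, map_one, map_mul, hb', mul_inv_cancel₀ hne, sub_self]
      have h4 := h2.map ρ
      rw [h3] at h4
      exact not_isUnit_zero h4
    obtain ⟨b, hb'⟩ := h1.exists_right_inv
    rw [← mul_one j, ← hb', ← mul_assoc, ha, zero_mul]
  have hp := fun x (hx : x ∈ R₁) => exists_pair hKBC hb hx
  have hp' := fun x (hx : x ∈ R₂) => exists_pair hKBC hb.symm hx
  -- the reductions are equal
  have hbar : bc1 ρ R₁ = bc1 ρ R₂ := by
    apply le_antisymm
    · intro y hy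
      obtain ⟨x, hx, rfl⟩ := exists_lift hKBC ρ hρ hy
      obtain ⟨x', hx', z, hz⟩ := hp x hx
      rw [← Rl.img hj hz]
      exact Algebra.subset_adjoin ⟨x', hx', rfl⟩
    · intro y hy
      obtain ⟨x, hx, rfl⟩ := exists_lift hKBC ρ hρ hy
      obtain ⟨x', hx', z, hz⟩ := hp' x hx
      rw [← Rl.img hj hz]
      exact Algebra.subset_adjoin ⟨x', hx', rfl⟩
  have hdA : IsUnit (d : A) := by
    push_cast at h2d
    exact isUnit_of_mul_isUnit_right h2d
  have h2dκ : ((2 * d : ℕ) : κ) ≠ 0 := by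
    have h1 := h2d.map ρ
    rw [map_natCast] at h1
    exact h1.ne_zero
  have h2κ : (2 : κ) ≠ 0 := by
    push_cast at h2dκ
    exact left_ne_zero_of_mul h2dκ
  -- the derivation
  let D : LaurentSeries κ → LaurentSeries κ := fun y =>
    if h : ∃ v, Rl ρ j R₁ R₂ y v then h.choose else 0
  have hex : ∀ y ∈ bc1 ρ R₁, ∃ v, Rl ρ j R₁ R₂ y v := by
    intro y hy
    obtain ⟨x, hx, rfl⟩ := exists_lift hKBC ρ hρ hy
    obtain ⟨x', hx', z, hz⟩ := hp x hx
    exact ⟨lmap ρ z, x, hx, x', hx', z, rfl, hz, rfl⟩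
  have hD : ∀ y ∈ bc1 ρ R₁, Rl ρ j R₁ R₂ y (D y) := by
    intro y hy
    have h := hex y hy
    have h1 : D y = h.choose := dif_pos h
    rw [h1]
    exact h.choose_spec
  have huniq : ∀ y v v', Rl ρ j R₁ R₂ y v → Rl ρ j R₁ R₂ y v' → v - v' ∈ bc1 ρ R₁ := by
    intro y v v' h h'
    rw [hbar]
    apply Rl.uniq hKBT hR₁ hR₂ hm hann hp
    have h1 := h.sub h'
    rwa [sub_self] at h1
  -- the bases
  obtain ⟨e, G, he, hG, u, hu, hdet⟩ := hD₁
  choose e' he' x hx using fun i => hp (e i) (he.mem i)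
  have he'' : ZBas d R₂ e' := by
    apply zbas_of_spn hR₂
    exact spn_congr hKBC hKBT (x := fun i => x ((sg d).symm i)) hjj hR₂ hz₂ hb (spn_of_zbas he)
      (fun i => he' _) (fun i => hx _)
  choose G' hG' using fun i k => (t_ZD1 A g d R₂ hd hR₂ e' he'' (e' i * e' k)
    (mul_mem (he' i) (he' k))).2 hdA
  obtain ⟨e₂, G₂, he₂, hG₂, u₂, hu₂, hdet₂⟩ := hD₂
  obtain ⟨w, hw, hw'⟩ := det_change (G := Matrix.of G') hR₂ he'' he₂
    (fun i k => (hG' i k).symm) hG₂
  have hdet' : (Matrix.of G').det = w * u₂ * f := by rw [hw', hdet₂, mul_assoc]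
  obtain ⟨v, hv⟩ := disc_lemma (ρ := ρ) h2κ hj hjj hann hG (G' := Matrix.of G')
    (fun i k => (hG' i k).symm) hx hf hu hdet hdet'
  have hKr := kr_bc hKBC hR₁ ρ
  have hbas : ZBas d (bc1 ρ R₁) fun i => lmap ρ (e i) :=
    zbas_of_spn hKr (spn_bc hKBC ρ (spn_of_zbas he))
  have hgram : ZGram d (fun i => lmap ρ (e i)) (G.map (Polynomial.map ρ)) := by
    intro i k
    rw [Matrix.map_apply, ← lmap_zpol, hG i k, lmap_pr0, map_mul]
  have key := hBPD (κ := κ) hd h2dκ (bc1 ρ R₁) hKr (zz_mem_bc hz₁ ρ) hC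
    (fun i => lmap ρ (e i)) (G.map (Polynomial.map ρ)) hbas hgram D ?_ ?_ ?_ ?_ ?_ ?_
  · -- the conclusion
    intro h hh
    obtain ⟨h', hh', z, hz⟩ := hp h hh
    have h1 : lmap ρ h ∈ bc1 ρ R₁ := Algebra.subset_adjoin ⟨h, hh, rfl⟩
    have h2 : lmap ρ z ∈ bc1 ρ R₁ := by
      have h3 := huniq (lmap ρ h) (lmap ρ z) (D (lmap ρ h)) ⟨h, hh, h', hh', z, rfl, hz, rfl⟩
        (hD _ h1)
      have h4 := add_mem h3 (key _ h1)
      rwa [sub_add_cancel] at h4
    rw [hbar] at h2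
    obtain ⟨r, hr, hr'⟩ := exists_lift hKBC ρ hρ h2
    have h5 : j • z = j • r := by
      ext m
      rw [HahnSeries.coeff_smul, HahnSeries.coeff_smul, smul_eq_mul, smul_eq_mul, ← sub_eq_zero,
        ← mul_sub, mul_comm]
      apply hm
      rw [map_sub, ← lmap_coeff, ← lmap_coeff, hr', sub_self]
    have h6 : h = h' + j • r := by
      rw [← h5, ← hz]
      ring
    rw [h6]
    exact add_mem hh' (R₂.smul_mem hr j)
  · intro y hy y' hy'
    have h1 := huniq _ _ _ (hD _ (add_mem hy hy')) ((hD _ hy).add (hD _ hy'))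
    rwa [sub_add_eq_sub_sub] at h1
  · intro y hy y' hy'
    have h1 := huniq _ _ _ (hD _ (mul_mem hy hy')) ((hD _ hy).mul hj (hD _ hy'))
    rwa [sub_add_eq_sub_sub] at h1
  · intro a
    obtain ⟨b, rfl⟩ := hρ a
    have h1 : algebraMap κ (LaurentSeries κ) (ρ b) =
        lmap ρ (algebraMap A (LaurentSeries A) b) := (lmap_algebraMap ρ b).symm
    have h2 : Rl ρ j R₁ R₂ (algebraMap κ (LaurentSeries κ) (ρ b)) 0 := by
      rw [h1]
      exact Rl.both (R₁.algebraMap_mem b) (R₂.algebraMap_mem b)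
    have h3 := huniq _ _ _ (hD _ ((bc1 ρ R₁).algebraMap_mem (ρ b))) h2
    rwa [sub_zero] at h3
  · have h2 : Rl ρ j R₁ R₂ (zz κ d) 0 := by
      rw [← lmap_zz ρ d]
      exact Rl.both hz₁ hz₂
    have h3 := huniq _ _ _ (hD _ (zz_mem_bc hz₁ ρ)) h2
    rwa [sub_zero] at h3
  · intro y hy
    obtain ⟨a, ha, b, hb', z, h1, h2, h3⟩ := hD y hy
    obtain ⟨q, hq⟩ := (t_ZD1 A g d R₁ hd hR₁ e he a ha).2 hdA
    obtain ⟨q', hq'⟩ := (t_ZD1 A g d R₂ hd hR₂ e' he'' b hb').2 hdA
    have h4 : j • pr0 A d z = ev d (q - q') := by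
      rw [← map_smul, ← h2, map_sub, hq, hq']
      exact (map_sub (zpol A d) q q').symm
    obtain ⟨p, -, hp2⟩ := lift_ev ρ hann h4
    refine ⟨p.map ρ, ?_⟩
    rw [← h3, ← lmap_pr0]
    exact hp2
  · -- the discriminant
    have h1 : ∀ i, D (lmap ρ (e i)) - lmap ρ (x i) ∈ bc1 ρ R₁ := fun i =>
      huniq _ _ _ (hD _ (hbas.mem i)) ⟨e i, he.mem i, e' i, he' i, x i, rfl, hx i, rfl⟩
    choose c hc using fun i => (hbas.uni _ (h1 i)).exists
    refine ⟨v + ∑ i, c i i, ?_⟩
    rw [add_mul, map_add, ← hv, Finset.sum_mul, map_sum, ← Finset.sum_add_distrib]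
    refine Finset.sum_congr rfl fun i _ => ?_
    have h2 : D (lmap ρ (e i)) = lmap ρ (x i) + ∑ l, zpol κ d (c i l) * lmap ρ (e l) := by
      rw [← hc i]
      ring
    have h3 : ∀ k, pr0 κ d (lmap ρ (e k) * D (lmap ρ (e i))) =
        pr0 κ d (lmap ρ (e k) * lmap ρ (x i)) +
          zpol κ d (∑ l, c i l * (G.map (Polynomial.map ρ)) k l) := by
      intro k
      rw [h2, mul_add, map_add, Finset.mul_sum, map_sum, map_sum]
      congr 1
      refine Finset.sum_congr rfl fun l _ => ?_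
      rw [mul_left_comm, pr0_zpol_mul, map_mul (zpol κ d), hgram k l]
    simp only [h3, mul_add, Finset.sum_add_distrib]
    congr 1
    simp only [← map_mul, ← map_sum]
    congr 1
    simp only [Finset.mul_sum]
    rw [Finset.sum_comm]
    have h4 : ∀ l, ∑ k, (G.map (Polynomial.map ρ)).adjugate i k *
        (c i l * (G.map (Polynomial.map ρ)) k l) =
        c i l * (if i = l then (G.map (Polynomial.map ρ)).det else 0) := by
      intro l
      have h5 := congrFun (congrFun (Matrix.adjugate_mul (G.map (Polynomial.map ρ))) i) l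
      rw [Matrix.mul_apply, Matrix.smul_apply, Matrix.one_apply, smul_eq_mul, mul_ite, mul_one,
        mul_zero] at h5
      rw [← h5, Finset.mul_sum]
      refine Finset.sum_congr rfl fun k _ => ?_
      ring
    rw [Finset.sum_congr rfl fun l _ => h4 l]
    simp only [mul_ite, mul_zero]
    rw [Finset.sum_ite_eq, if_pos (Finset.mem_univ _)]

end BPX

open BPX in
/-- BPX: uniqueness, small extensions. -/
theorem t_BPX (hBPD : Stmt_BPD) (hKBC : Stmt_KBC) (hKBT : Stmt_KBT) : Stmt_BPX := by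
  intro A κ _ _ _ ρ hρ g d hd h2d R₁ R₂ f hR₁ hR₂ hz₁ hz₂ hf hD₁ hD₂ j hj hm hb hC
  have h1 := le_of hBPD hKBC hKBT ρ hρ hd h2d R₁ R₂ f hR₁ hR₂ hz₁ hz₂ hf hD₁ hD₂ j hj hm hb hC
  have h2 : uno R₁ = uno R₂ := t_KEQ hR₁ hR₂ fun x hx => h1 hx
  rw [← duo_uno R₁, h2, duo_uno]

end Pool.Agent.MG.G0
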