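import Pool.Agent.MG.G0.StmtsCQ

/-!
# CNT: base change of covectors (PAPER_Q.md, CNT)
-/

open TensorProduct

namespace Pool.Agent.MG.G0

namespace CNT

section

variable {I : Type} [Fintype I] {A B : Type} [CommRing A] [CommRing B]

/-- The functional of `q` and the functional of the base change of `q`. -/
theorem Lq_bcQ (φ : A →+* B) (P : Subalgebra A (KK I A)) {D : DD P} {D' : DD (bc φ P)}
    (hD : Rel φ D D') (q : QD P) : Lq (bc φ P) (bcQ φ P q) D' = φ (Lq P q D) := by
  induction q using TensorProduct.induction_on with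
  | zero => rw [map_zero, map_zero, map_zero, LinearMap.zero_apply, LinearMap.zero_apply, map_zero]
  | tmul x g =>
    obtain ⟨h, hh⟩ := mk_surj P (D g)
    rw [bcQ_tmul, Lq_tmul, Lq_tmul, hD g h hh.symm, ← hh, rq_mk, rq_mk]
    change res (kmap φ (x : KK I A) * kmap φ h) = _
    rw [← map_mul, res_kmap]
  | add a b ha hb =>
    rw [map_add, map_add, map_add, LinearMap.add_apply, LinearMap.add_apply, ha, hb, map_add]

/-- Base change of the products `ω η`. -/
theorem bcQ_tw (φ : A →+* B) (P : Subalgebra A (KK I A)) (ω : EE P) (η : P ⊗[A] P) :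
    bcQ φ P (tw P ω η) = tw (bc φ P) (bcE φ P ω) (bcT φ P η) := by
  induction η using TensorProduct.induction_on with
  | zero => rw [map_zero, map_zero, map_zero, map_zero]
  | tmul p g =>
    change (⟨kmap φ ((p : KK I A) * (ω : KK I A)), _⟩ : Perp (bc φ P)) ⊗ₜ[B] bcMap φ P g =
      (⟨(bcMap φ P p : KK I B) * (bcE φ P ω : KK I B), _⟩ : Perp (bc φ P)) ⊗ₜ[B] bcMap φ P g
    congr 1
    refine Subtype.ext ?_
    change kmap φ ((p : KK I A) * (ω : KK I A)) =
      (bcMap φ P p : KK I B) * (bcE φ P ω : KK I B)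
    rw [map_mul, bcE_val, bcMap_val]
  | add a b ha hb => rw [map_add, map_add, map_add, map_add, ha, hb]

end

end CNT

/-- CNT: base change of covectors. -/
theorem t_CNT : Stmt_CNT := by
  intro I A B _ _ _ φ P
  refine ⟨fun q D D' hD => ?_, fun ω η => ?_⟩
  · rw [cov_apply, cov_apply]
    exact CNT.Lq_bcQ φ P hD q
  · exact Subtype.ext (CNT.bcQ_tw φ P ω η)

end Pool.Agent.MG.G0
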