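import Pool.Agent.MG.G0.StmtsB
import Pool.Agent.MG.G0.ZL.L1

/-!
# CYC: cyclic duals
-/

open Polynomial

namespace Pool.Agent.MG.G0.CYCaux

section pid

variable {Λ ι : Type} [CommRing Λ] [IsDomain Λ] [IsPrincipalIdealRing Λ] [Fintype ι]
  [DecidableEq ι]

open Matrix in
/-- Smith normal form of a square matrix with nonzero determinant. -/
theorem snf (G : Matrix ι ι Λ) (hG : G.det ≠ 0) :
    ∃ (a : ι → Λ) (P Q M X : Matrix ι ι Λ), G = P * Matrix.diagonal a * Q ∧
      Matrix.diagonal a * Q = M * G ∧ X * Q = 1 := by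
  let φ : (ι → Λ) →ₗ[Λ] (ι → Λ) := G.vecMulLinear
  have hφ : ∀ v, φ v = v ᵥ* G := fun v => rfl
  have hinj : Function.Injective φ := by
    rw [injective_iff_map_eq_zero]
    intro v hv
    exact Matrix.eq_zero_of_vecMul_eq_zero hG hv
  have hfr : Module.finrank Λ (LinearMap.range φ) = Module.finrank Λ (ι → Λ) :=
    LinearMap.finrank_range_of_inj hinj
  obtain ⟨b', a, ab', h⟩ := Submodule.exists_smith_normal_form_of_rank_eq (Pi.basisFun Λ ι) hfr
  have hrow : ∀ i, G i ∈ LinearMap.range φ := fun i =>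
    ⟨Pi.single i 1, by rw [hφ, Matrix.single_one_vecMul]; rfl⟩
  choose m hm using fun i => (ab' i).2
  refine ⟨a, Matrix.of fun i k => ab'.repr ⟨G i, hrow i⟩ k, Matrix.of fun i j => b' i j,
    Matrix.of m, Matrix.of fun i k => b'.repr (Pi.single i 1) k, ?_, ?_, ?_⟩
  · ext i j
    have h1 := ab'.sum_repr ⟨G i, hrow i⟩
    have h2 := congrArg (fun x : LinearMap.range φ => (x : ι → Λ) j) h1
    simp only [AddSubmonoidClass.coe_finsetSum, Submodule.coe_smul_of_tower, h,
      Finset.sum_apply, Pi.smul_apply, smul_eq_mul] at h2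
    rw [← h2, Matrix.mul_apply]
    refine Finset.sum_congr rfl fun k _ => ?_
    rw [Matrix.mul_diagonal, Matrix.of_apply, Matrix.of_apply, mul_assoc]
  · ext i j
    rw [Matrix.diagonal_mul, Matrix.of_apply, Matrix.mul_apply]
    have h1 : (φ (m i)) j = (ab' i : ι → Λ) j := by rw [hm i]
    rw [h i, hφ] at h1
    rw [← smul_eq_mul, ← Pi.smul_apply, ← h1]
    rfl
  · ext i j
    have h1 := b'.sum_repr (Pi.single i 1)
    have h2 := congrFun h1 j
    simp only [Finset.sum_apply, Pi.smul_apply, smul_eq_mul] at h2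
    rw [Matrix.mul_apply]
    simp only [Matrix.of_apply]
    rw [h2, Matrix.one_apply, Pi.single_apply]
    by_cases hij : j = i
    · simp [hij]
    · rw [if_neg hij, if_neg (Ne.symm hij)]

open Matrix in
/-- If no prime divides two diagonal entries then the cokernel is cyclic. -/
theorem core (G : Matrix ι ι Λ) (hG : G.det ≠ 0)
    (H : ∀ (a : ι → Λ) (P Q : Matrix ι ι Λ), G = P * Matrix.diagonal a * Q → ∀ z : Λ, Prime z →
      ∀ i k, i ≠ k → z ∣ a i → z ∣ a k → False) :
    ∃ w : ι → Λ, ∀ c : ι → Λ, ∃ (b : ι → Λ) (lam : Λ), c = b ᵥ* G + lam • w := by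
  obtain ⟨a, P, Q, M, X, h1, h2, h3⟩ := snf G hG
  have hne : ∀ i, a i ≠ 0 := by
    intro i hi
    apply hG
    rw [h1, Matrix.det_mul, Matrix.det_mul, Matrix.det_diagonal,
      Finset.prod_eq_zero (Finset.mem_univ i) hi]
    simp
  have hcop : ∀ i k, i ≠ k → IsCoprime (a i) (a k) := by
    intro i k hik
    exact isCoprime_of_prime_dvd (fun h => hne i h.1) fun z hz hzi hzk =>
      H a P Q h1 z hz i k hik hzi hzk
  have hcop2 : ∀ j, IsCoprime (a j) (∏ k ∈ Finset.univ.erase j, a k) := by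
    intro j
    exact IsCoprime.prod_right fun k hk => hcop j k (Finset.ne_of_mem_erase hk).symm
  choose u v huv using hcop2
  let e : ι → Λ := fun j => v j * ∏ k ∈ Finset.univ.erase j, a k
  have he1 : ∀ j, a j ∣ 1 - e j := by
    intro j
    refine ⟨u j, ?_⟩
    change 1 - v j * ∏ k ∈ Finset.univ.erase j, a k = a j * u j
    rw [← huv j]
    ring
  have he2 : ∀ j k, k ≠ j → a k ∣ e j := by
    intro j k hk
    exact Dvd.dvd.mul_left (Finset.dvd_prod_of_mem a
      (Finset.mem_erase.mpr ⟨hk, Finset.mem_univ k⟩)) _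
  refine ⟨(fun _ => (1 : Λ)) ᵥ* Q, fun c => ?_⟩
  let x := c ᵥ* X
  let lam : Λ := ∑ i, x i * e i
  have hdvd : ∀ j, a j ∣ x j - lam := by
    intro j
    have h4 : x j - lam = x j * (1 - e j) - ∑ i ∈ Finset.univ.erase j, x i * e i := by
      change x j - ∑ i, x i * e i = _
      rw [← Finset.add_sum_erase Finset.univ (fun i => x i * e i) (Finset.mem_univ j)]
      ring
    rw [h4]
    refine dvd_sub (Dvd.dvd.mul_left (he1 j) _) (Finset.dvd_sum fun i hi => ?_)
    exact Dvd.dvd.mul_left (he2 i j (Finset.ne_of_mem_erase hi).symm) _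
  choose y hy using hdvd
  refine ⟨y ᵥ* M, lam, ?_⟩
  have h5 : x ᵥ* Q = c := by
    change (c ᵥ* X) ᵥ* Q = c
    rw [Matrix.vecMul_vecMul, h3, Matrix.vecMul_one]
  have h6 : x = lam • (fun _ => (1 : Λ)) + y ᵥ* Matrix.diagonal a := by
    funext j
    rw [Pi.add_apply, Pi.smul_apply, smul_eq_mul, mul_one, Matrix.vecMul_diagonal, mul_comm (y j),
      ← hy j]
    ring
  calc c = x ᵥ* Q := h5.symm
    _ = (lam • (fun _ => (1 : Λ)) + y ᵥ* Matrix.diagonal a) ᵥ* Q := by rw [← h6]
    _ = lam • ((fun _ => (1 : Λ)) ᵥ* Q) + (y ᵥ* M) ᵥ* G := by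
      rw [Matrix.add_vecMul, Matrix.smul_vecMul, Matrix.vecMul_vecMul, h2,
        ← Matrix.vecMul_vecMul]
    _ = _ := add_comm _ _

end pid

section laurent

variable {κ : Type} [Field κ] {g d : ℕ}

theorem pr0_pr0_mul (hd : 0 < d) (f h : LaurentSeries κ) :
    pr0 κ d (pr0 κ d f * h) = pr0 κ d f * pr0 κ d h := by
  have : NeZero d := ⟨hd.ne'⟩
  rw [← ZL.pr_zero_eq, ← ZL.pr_zero_eq, ← ZL.pr_zero_eq,
    ZL.pr_mul_of (ZL.pr_pr_same (0 : ZMod d) f), sub_zero]

theorem zpol_mem {R : Subalgebra κ (LaurentSeries κ)} (hz : zz κ d ∈ R) (p : κ[X]) :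
    zpol κ d p ∈ R := by
  have h1 : Algebra.adjoin κ {zz κ d} ≤ R := Algebra.adjoin_le (by simpa using hz)
  exact h1 (Polynomial.aeval_mem_adjoin_singleton κ (zz κ d))

open Matrix in
/-- The cyclic dual from coordinates. -/
theorem cyc_of (hd : 0 < d) {R : Subalgebra κ (LaurentSeries κ)} (hz : zz κ d ∈ R)
    {e es : Fin d → LaurentSeries κ} {G : Matrix (Fin d) (Fin d) κ[X]} (he : ZBas d R e)
    (hG : ZGram d e G) (h1 : ∀ i j, pr0 κ d (e i * es j) = if i = j then 1 else 0)
    (h2 : ∀ x, x = ∑ j, pr0 κ d (x * es j) * e j)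
    (hw : ∃ w : Fin d → κ[X], ∀ c : Fin d → κ[X], ∃ (b : Fin d → κ[X]) (lam : κ[X]),
      c = b ᵥ* G + lam • w) : Cyc d R := by
  -- the pairing with `e` is perfect
  have hzero : ∀ y : LaurentSeries κ, (∀ k, pr0 κ d (y * e k) = 0) → y = 0 := by
    intro y hy
    have h3 : ∀ u : LaurentSeries κ, pr0 κ d (y * u) = 0 := by
      intro u
      conv_lhs => rw [h2 u]
      rw [Finset.mul_sum, map_sum]
      refine Finset.sum_eq_zero fun j _ => ?_
      have h4 : y * (pr0 κ d (u * es j) * e j) = pr0 κ d (u * es j) * (y * e j) := by ring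
      rw [h4, pr0_pr0_mul hd, hy j, mul_zero]
    rw [h2 y]
    exact Finset.sum_eq_zero fun j _ => by rw [h3, zero_mul]
  have hexp : ∀ x : LaurentSeries κ, x = ∑ j, pr0 κ d (x * e j) * es j := by
    intro x
    rw [← sub_eq_zero]
    apply hzero
    intro k
    rw [sub_mul, map_sub, Finset.sum_mul, map_sum, sub_eq_zero]
    have h3 : ∀ j, pr0 κ d (pr0 κ d (x * e j) * es j * e k) =
        if k = j then pr0 κ d (x * e k) else 0 := by
      intro j
      rw [mul_assoc, pr0_pr0_mul hd, mul_comm (es j), h1 k j]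
      split_ifs with hkj
      · rw [mul_one, hkj]
      · rw [mul_zero]
    rw [Finset.sum_congr rfl fun j _ => h3 j, Finset.sum_ite_eq Finset.univ k,
      if_pos (Finset.mem_univ k)]
  -- polynomial combinations of the dual basis are in the dual
  have hdl : ∀ c : Fin d → κ[X], IsDl d R (∑ j, zpol κ d (c j) * es j) := by
    intro c p hp
    obtain ⟨b, hb, -⟩ := he.uni p hp
    refine ⟨∑ j, c j * b j, ?_⟩
    rw [Finset.sum_mul, map_sum, map_sum]
    refine Finset.sum_congr rfl fun j _ => ?_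
    rw [mul_assoc, pr0_zpol_mul, map_mul (zpol κ d)]
    congr 1
    rw [hb, Finset.mul_sum, map_sum]
    have h3 : ∀ i, pr0 κ d (es j * (zpol κ d (b i) * e i)) = if i = j then zpol κ d (b j) else 0 := by
      intro i
      have h4 : es j * (zpol κ d (b i) * e i) = zpol κ d (b i) * (e i * es j) := by ring
      rw [h4, pr0_zpol_mul, h1 i j]
      split_ifs with hij
      · rw [mul_one, hij]
      · rw [mul_zero]
    rw [Finset.sum_congr rfl fun i _ => h3 i, Finset.sum_ite_eq' Finset.univ j,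
      if_pos (Finset.mem_univ j)]
  obtain ⟨w, hw⟩ := hw
  refine ⟨∑ j, zpol κ d (w j) * es j, hdl w, fun x hx => ?_⟩
  choose c hc using fun j => hx (e j) (he.mem j)
  obtain ⟨b, lam, hbl⟩ := hw c
  refine ⟨∑ i, zpol κ d (b i) * e i,
    Subalgebra.sum_mem _ fun i _ => Subalgebra.mul_mem _ (zpol_mem hz _) (he.mem i), lam, ?_⟩
  have h5 : x = ∑ j, zpol κ d (c j) * es j := by
    rw [hexp x]
    exact Finset.sum_congr rfl fun j _ => by rw [hc j]
  have h6 : ∑ i, zpol κ d (b i) * e i = ∑ j, zpol κ d ((b ᵥ* G) j) * es j := by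
    have h7 : ∀ j, zpol κ d ((b ᵥ* G) j) * es j =
        ∑ i, zpol κ d (b i) * (zpol κ d (G i j) * es j) := by
      intro j
      rw [Matrix.vecMul, dotProduct, map_sum, Finset.sum_mul]
      exact Finset.sum_congr rfl fun i _ => by rw [map_mul, mul_assoc]
    rw [Finset.sum_congr rfl fun j _ => h7 j, Finset.sum_comm]
    refine Finset.sum_congr rfl fun i _ => ?_
    rw [← Finset.mul_sum]
    congr 1
    rw [hexp (e i)]
    refine Finset.sum_congr rfl fun j _ => ?_
    rw [hG i j]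
  rw [h5, h6, Finset.mul_sum, ← Finset.sum_add_distrib]
  refine Finset.sum_congr rfl fun j _ => ?_
  have h8 : c j = (b ᵥ* G) j + lam * w j := by
    have := congrFun hbl j
    rw [Pi.add_apply, Pi.smul_apply, smul_eq_mul] at this
    exact this
  rw [h8, map_add, map_mul]
  ring

/-- The rank at a common root of two diagonal entries. -/
theorem rank_le {G P Q : Matrix (Fin d) (Fin d) κ[X]} {a : Fin d → κ[X]}
    (h : G = P * Matrix.diagonal a * Q) {c : κ} {i k : Fin d} (hik : i ≠ k)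
    (hi : (a i).eval c = 0) (hk : (a k).eval c = 0) : (G.map (eval c)).rank + 2 ≤ d := by
  classical
  have h1 : G.map (eval c) = P.map (eval c) * Matrix.diagonal (fun j => (a j).eval c) *
      Q.map (eval c) := by
    have h2 : ∀ N : Matrix (Fin d) (Fin d) κ[X], N.map (eval c) =
        (evalRingHom c).mapMatrix N := fun N => rfl
    rw [h, h2, h2, h2, map_mul, map_mul]
    congr 2
    rw [RingHom.mapMatrix_apply, Matrix.diagonal_map (map_zero _)]
    rfl
  have h3 : (G.map (eval c)).rank ≤ (Matrix.diagonal (fun j => (a j).eval c)).rank := by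
    rw [h1]
    exact (Matrix.rank_mul_le_left _ _).trans (Matrix.rank_mul_le_right _ _)
  rw [Matrix.rank_diagonal, Fintype.card_subtype] at h3
  have h4 : (Finset.univ.filter fun j => (a j).eval c ≠ 0) ⊆ Finset.univ \ {i, k} := by
    intro j hj
    simp only [Finset.mem_filter, Finset.mem_univ, true_and] at hj
    simp only [Finset.mem_sdiff, Finset.mem_univ, true_and, Finset.mem_insert,
      Finset.mem_singleton, not_or]
    exact ⟨fun hji => hj (hji ▸ hi), fun hjk => hj (hjk ▸ hk)⟩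
  have h5 := Finset.card_le_card h4
  rw [Finset.card_sdiff_of_subset (Finset.subset_univ _), Finset.card_pair hik, Finset.card_univ,
    Fintype.card_fin] at h5
  have h6 : 2 ≤ d := by
    have := i.isLt
    have := k.isLt
    have h7 : (i : ℕ) ≠ k := fun hh => hik (Fin.ext hh)
    omega
  omega

theorem dvd_det {G P Q : Matrix (Fin d) (Fin d) κ[X]} {a : Fin d → κ[X]}
    (h : G = P * Matrix.diagonal a * Q) : (∏ j, a j) ∣ G.det := by
  rw [h, Matrix.det_mul, Matrix.det_mul, Matrix.det_diagonal]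
  exact Dvd.dvd.mul_right (Dvd.intro_left _ rfl) _

end laurent

end Pool.Agent.MG.G0.CYCaux

namespace Pool.Agent.MG.G0

open CYCaux

/-- CYC: cyclic duals. -/
theorem t_CYC (hZDU : Stmt_ZDU) : Stmt_CYC := by
  intro κ _ g d hd hdκ R hR hz
  obtain ⟨-, hD⟩ := hZDU hd hdκ R hR hz
  refine ⟨fun e G he hG u s hdet hrk => ?_, fun b r hr hdisc => ?_⟩
  · obtain ⟨hne, es, h1, h2, -, -⟩ := hD e G he hG
    refine cyc_of hd hz he hG h1 h2 (core G hne ?_)
    intro a P Q hPQ z hzp i k hik hzi hzk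
    have hu : u ≠ 0 := by
      rintro rfl
      rw [C_0, zero_mul] at hdet
      exact hne hdet
    have hzd : z ∣ G.det :=
      (hzi.trans (Finset.dvd_prod_of_mem a (Finset.mem_univ i))).trans (dvd_det hPQ)
    have hzs : z ∣ (s.map fun c => X - C c).prod := by
      rw [hdet] at hzd
      exact (hzp.dvd_or_dvd hzd).resolve_left fun hc =>
        hzp.not_isUnit (isUnit_of_dvd_unit hc (isUnit_C.mpr (IsUnit.mk0 u hu)))
    obtain ⟨c, -, hc⟩ := hzp.exists_mem_multiset_map_dvd hzs
    have hcz : X - C c ∣ z := hzp.irreducible.dvd_symm (irreducible_X_sub_C c) hc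
    have hri : (a i).eval c = 0 := dvd_iff_isRoot.mp (hcz.trans hzi)
    have hrk' : (a k).eval c = 0 := dvd_iff_isRoot.mp (hcz.trans hzk)
    have hrd : G.det.eval c = 0 := dvd_iff_isRoot.mp (hcz.trans hzd)
    have h3 := hrk c hrd
    have h4 := rank_le hPQ hik hri hrk'
    omega
  · obtain ⟨e, G, he, hG, u, hu, hdet⟩ := hdisc
    obtain ⟨hne, es, h1, h2, -, -⟩ := hD e G he hG
    refine cyc_of hd hz he hG h1 h2 (core G hne ?_)
    intro a P Q hPQ z hzp i k hik hzi hzk
    have hzd : z ∣ G.det :=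
      (hzi.trans (Finset.dvd_prod_of_mem a (Finset.mem_univ i))).trans (dvd_det hPQ)
    have hzs : z ∣ ∏ l, (X - C (r l)) := by
      rw [hdet] at hzd
      exact (hzp.dvd_or_dvd hzd).resolve_left fun hc =>
        hzp.not_isUnit (isUnit_of_dvd_unit hc hu)
    obtain ⟨l, -, hl⟩ := hzp.exists_mem_finset_dvd hzs
    have hcz : X - C (r l) ∣ z := hzp.irreducible.dvd_symm (irreducible_X_sub_C (r l)) hl
    have hsq : (X - C (r l)) * (X - C (r l)) ∣ ∏ m, (X - C (r m)) := by
      have h3 : (X - C (r l)) * (X - C (r l)) ∣ a i * a k :=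
        mul_dvd_mul (hcz.trans hzi) (hcz.trans hzk)
      have h4 : a i * a k ∣ ∏ j, a j := by
        rw [← Finset.mul_prod_erase Finset.univ a (Finset.mem_univ i)]
        exact mul_dvd_mul_left _ (Finset.dvd_prod_of_mem a
          (Finset.mem_erase.mpr ⟨hik.symm, Finset.mem_univ k⟩))
      have h5 := (h3.trans h4).trans (dvd_det hPQ)
      rw [hdet] at h5
      exact (hu.dvd_mul_left).mp h5
    rw [← Finset.mul_prod_erase Finset.univ (fun m => X - C (r m)) (Finset.mem_univ l)] at hsq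
    have h6 := (mul_dvd_mul_iff_left (X_sub_C_ne_zero (r l))).mp hsq
    have h7 := dvd_iff_isRoot.mp h6
    rw [IsRoot.def, eval_prod, Finset.prod_eq_zero_iff] at h7
    obtain ⟨m, hm, hm'⟩ := h7
    rw [eval_sub, eval_X, eval_C, sub_eq_zero] at hm'
    exact (Finset.ne_of_mem_erase hm) (hr hm').symm

end Pool.Agent.MG.G0
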