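import Pool.Agent.MG.G0.StmtsV
import Pool.Agent.MG.G0.ZL.L1

/-!
# DIT: regular vector fields, dimension of the spaces of vector fields
-/

open Polynomial

namespace Pool.Agent.MG.G0

namespace DIT

open ZL

section

variable {K : Type} [Field K] {g d : ℕ} {R : Subalgebra K (LaurentSeries K)}

/-- The coefficient at `τ^m`. -/
def cf (K : Type) [Field K] (m : ℤ) : LaurentSeries K →ₗ[K] K where
  toFun f := f.coeff m
  map_add' f h := by rw [HahnSeries.coeff_add]
  map_smul' a f := by rw [HahnSeries.coeff_smul]; rfl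

@[simp] theorem cf_apply (m : ℤ) (f : LaurentSeries K) : cf K m f = f.coeff m := rfl

/-- The elements of `R` with poles of order at most `N`. -/
noncomputable abbrev RN (R : Subalgebra K (LaurentSeries K)) (N : ℕ) :
    Submodule K (LaurentSeries K) := Subalgebra.toSubmodule R ⊓ Po K N

theorem Po_mono {m n : ℤ} (h : m ≤ n) : Po K m ≤ Po K n := fun _ hf k hk => hf k (by omega)

theorem algebraMap_mem_Po {n : ℤ} (hn : 0 ≤ n) (a : K) :
    algebraMap K (LaurentSeries K) a ∈ Po K n := by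
  intro m hm
  rw [coeff_algebraMap, if_neg (by omega)]

theorem finrank_RN (hR : Kr g R) : ∃ N₀ : ℕ, ∀ N : ℕ, N₀ ≤ N → Module.Finite K (RN R N) ∧
    Module.finrank K (RN R N) + g = N + 1 := by
  classical
  obtain ⟨hk1, L, hL, hk⟩ := Kr_iff.1 hR
  choose v hv using fun j : Fin g => hL (Pi.single j 1)
  choose m hm using fun j : Fin g => exists_low (v j)
  refine ⟨Finset.univ.sup m, fun N hN => ?_⟩
  let S : (Fin g → K) →ₗ[K] LaurentSeries K := Fintype.linearCombination K v
  have hS : ∀ c, S c = ∑ j, c j • v j := fun c => Fintype.linearCombination_apply K v c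
  have hLS : ∀ c, L (S c) = c := by
    intro c
    rw [hS, map_sum]
    have h2 : ∀ j, L (c j • v j) = Pi.single j (c j) := by
      intro j
      rw [map_smul, hv, ← Pi.single_smul, smul_eq_mul, mul_one]
    rw [Finset.sum_congr rfl fun j _ => h2 j, Finset.univ_sum_single]
  have hSN : ∀ c, S c ∈ Po K N := by
    intro c
    rw [hS]
    refine Submodule.sum_mem _ fun j _ => Submodule.smul_mem _ _ ?_
    intro k hk
    apply hm j
    have : m j ≤ Finset.univ.sup m := Finset.le_sup (Finset.mem_univ j)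
    omega
  let Φ : (RN R N × (Fin g → K)) →ₗ[K] ((Fin N → K) × K) :=
    LinearMap.prod (LinearMap.pi fun k : Fin N => cf K (-((k : ℤ) + 1)) ∘ₗ
      LinearMap.coprod (RN R N).subtype S)
      (cf K 0 ∘ₗ (RN R N).subtype ∘ₗ LinearMap.fst K (RN R N) (Fin g → K))
  have hΦ1 : ∀ p c (k : Fin N), (Φ (p, c)).1 k =
      ((p : LaurentSeries K) + S c).coeff (-((k : ℤ) + 1)) := fun p c k => rfl
  have hΦ2 : ∀ p c, (Φ (p, c)).2 = (p : LaurentSeries K).coeff 0 := fun p c => rfl
  have hinj : Function.Injective Φ := by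
    rw [← LinearMap.ker_eq_bot, LinearMap.ker_eq_bot']
    rintro ⟨p, c⟩ h0
    have h1 : (p : LaurentSeries K) + S c ∈ Po K 0 := by
      intro l hl
      by_cases hlN : l < -(N : ℤ)
      · rw [HahnSeries.coeff_add, p.2.2 l hlN, hSN c l hlN, add_zero]
      · have h2 := hΦ1 p c ⟨(-l - 1).toNat, by omega⟩
        rw [h0] at h2
        have h3 : -(((⟨(-l - 1).toNat, by omega⟩ : Fin N) : ℕ) + 1 : ℤ) = l := by
          change -(((-l - 1).toNat : ℤ) + 1) = l
          omega
        rw [h3] at h2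
        exact h2.symm
    have h2 : L ((p : LaurentSeries K) + S c) = 0 := (hk _).2 ⟨0, zero_mem _, by rwa [sub_zero]⟩
    have h3 : L (p : LaurentSeries K) = 0 :=
      (hk _).2 ⟨p, p.2.1, by rw [sub_self]; exact Submodule.zero_mem _⟩
    rw [map_add, h3, hLS, zero_add] at h2
    subst h2
    rw [map_zero, add_zero] at h1
    obtain ⟨a, ha⟩ := hk1 _ p.2.1 h1
    have h4 := hΦ2 p 0
    rw [h0, ha, coeff_algebraMap, if_pos rfl] at h4
    have h5 : a = 0 := h4.symm
    have h6 : p = 0 := Subtype.ext (by rw [ha, h5, map_zero]; rfl)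
    rw [h6]
    rfl
  have hsurj : Function.Surjective Φ := by
    rintro ⟨a, a0⟩
    let f : LaurentSeries K := ∑ k : Fin N, HahnSeries.single (-((k : ℤ) + 1)) (a k)
    have hf : ∀ l : ℤ, f.coeff l = ∑ k : Fin N, if l = -((k : ℤ) + 1) then a k else 0 := by
      intro l
      rw [HahnSeries.coeff_sum]
      refine Finset.sum_congr rfl fun k _ => ?_
      rw [HahnSeries.coeff_single]
      by_cases h : l = -((k : ℤ) + 1)
      · rw [if_pos h, if_pos h]
      · rw [if_neg h, if_neg h]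
    have hfN : f ∈ Po K N := by
      intro l hl
      rw [hf]
      refine Finset.sum_eq_zero fun k _ => if_neg ?_
      have := k.2
      omega
    have h1 : L (f - S (L f)) = 0 := by rw [map_sub, hLS, sub_self]
    obtain ⟨p, hp, hq⟩ := (hk _).1 h1
    let p' : LaurentSeries K := p + algebraMap K _ (a0 - p.coeff 0)
    have hp'N : p' ∈ Po K N := by
      have h2 : p = f - S (L f) - (f - S (L f) - p) := by abel
      refine add_mem ?_ (algebraMap_mem_Po (by omega) _)
      rw [h2]
      exact sub_mem (sub_mem hfN (hSN _)) (Po_mono (by omega) hq)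
    refine ⟨(⟨p', add_mem hp (R.algebraMap_mem _), hp'N⟩, L f), ?_⟩
    refine Prod.ext ?_ ?_
    · funext k
      rw [hΦ1]
      change (p + algebraMap K _ (a0 - p.coeff 0) + S (L f)).coeff (-((k : ℤ) + 1)) = a k
      have h3 := hq (-((k : ℤ) + 1)) (by omega)
      rw [HahnSeries.coeff_sub, HahnSeries.coeff_sub] at h3
      rw [HahnSeries.coeff_add, HahnSeries.coeff_add, coeff_algebraMap, if_neg (by omega),
        add_zero]
      have h4 : f.coeff (-((k : ℤ) + 1)) = a k := by
        rw [hf, Finset.sum_eq_single k]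
        · rw [if_pos rfl]
        · intro l _ hl
          refine if_neg fun h => hl ?_
          ext
          omega
        · intro h
          exact absurd (Finset.mem_univ k) h
      rw [← h4]
      linear_combination -h3
    · rw [hΦ2]
      change (p + algebraMap K _ (a0 - p.coeff 0)).coeff 0 = a0
      rw [HahnSeries.coeff_add, coeff_algebraMap, if_pos rfl]
      ring
  let E := LinearEquiv.ofBijective Φ ⟨hinj, hsurj⟩
  have hfin : Module.Finite K (RN R N × (Fin g → K)) := Module.Finite.equiv E.symm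
  have hfin2 : Module.Finite K (RN R N) :=
    Module.Finite.of_surjective (LinearMap.fst K (RN R N) (Fin g → K)) Prod.fst_surjective
  refine ⟨hfin2, ?_⟩
  have h := E.finrank_eq
  rw [Module.finrank_prod, Module.finrank_prod, Module.finrank_fin_fun, Module.finrank_fin_fun,
    Module.finrank_self] at h
  exact h

theorem ld_zz (d : ℕ) : ld (zz K d) = HahnSeries.single (-(d : ℤ) - 1) (-(d : K)) := by
  ext m
  rw [ld_coeff, zz, HahnSeries.coeff_single, HahnSeries.coeff_single]
  by_cases h : m = -(d : ℤ) - 1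
  · rw [if_pos (by omega), if_pos h, h]
    push_cast
    ring
  · rw [if_neg (by omega), if_neg h, mul_zero]

theorem mul_ld_zz_coeff (d : ℕ) (θ : LaurentSeries K) (m : ℤ) :
    (θ * ld (zz K d)).coeff (m - d - 1) = θ.coeff m * -(d : K) := by
  rw [ld_zz]
  have h : m - d - 1 = m + (-(d : ℤ) - 1) := by ring
  rw [h, HahnSeries.coeff_mul_single_add]

theorem zpol_mem (hz : zz K d ∈ R) (q : K[X]) : zpol K d q ∈ R := by
  have h1 : zpol K d q = R.val (aeval (⟨zz K d, hz⟩ : R) q) := by
    rw [← Polynomial.aeval_algHom_apply]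
    rfl
  rw [h1]
  exact (aeval (⟨zz K d, hz⟩ : R) q).2

theorem mul_mem_TT1 {θ p : LaurentSeries K} (hθ : θ ∈ TT1 R) (hp : p ∈ R) : p * θ ∈ TT1 R := by
  intro f hf
  rw [mul_assoc]
  exact mul_mem hp (hθ f hf)

theorem finrank_TN (hd : (d : K) ≠ 0) (hz : zz K d ∈ R) {f : K[X]} (hf : f ≠ 0)
    (h1 : ∃ θ ∈ TT1 R, zpol K d f = θ * ld (zz K d))
    (h2 : ∀ x ∈ R, ∃ (a : K[X]) (θ : LaurentSeries K), θ ∈ TT1 R ∧
      x = zpol K d a + θ * ld (zz K d))
    (h3 : ∀ a : K[X], (∃ θ ∈ TT1 R, zpol K d a = θ * ld (zz K d)) → f ∣ a) (n : ℕ)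
    (hn : d * f.natDegree ≤ n + d + 1) (hfin : Module.Finite K (RN R (n + d + 1))) :
    Module.Finite K (TT1 R ⊓ Po K n : Submodule K (LaurentSeries K)) ∧
      f.natDegree + Module.finrank K (TT1 R ⊓ Po K n : Submodule K (LaurentSeries K)) =
        Module.finrank K (RN R (n + d + 1)) := by
  classical
  set T : Submodule K (LaurentSeries K) := TT1 R ⊓ Po K n with hT
  have hu : ld (zz K d) ≠ 0 := by
    rw [ld_zz]
    intro h
    rw [HahnSeries.single_eq_zero_iff, neg_eq_zero] at h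
    exact hd h
  have huP : ld (zz K d) ∈ Po K ((d : ℤ) + 1) := by
    intro m hm
    rw [ld_zz, HahnSeries.coeff_single_of_ne (by omega)]
  have hd0 : d ≠ 0 := by
    rintro rfl
    exact hd Nat.cast_zero
  let Ψ₀ : (degreeLT K f.natDegree × T) →ₗ[K] LaurentSeries K :=
    LinearMap.coprod ((zpol K d).toLinearMap ∘ₗ (degreeLT K f.natDegree).subtype)
      (LinearMap.mulRight K (ld (zz K d)) ∘ₗ T.subtype)
  have hΨ₀ : ∀ r θ, Ψ₀ (r, θ) = zpol K d (r : K[X]) + (θ : LaurentSeries K) * ld (zz K d) :=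
    fun r θ => rfl
  have hmem : ∀ x, Ψ₀ x ∈ RN R (n + d + 1) := by
    rintro ⟨r, θ⟩
    rw [hΨ₀]
    refine ⟨add_mem (zpol_mem hz _) (θ.2.1 _ hz), add_mem ?_ ?_⟩
    · refine Po_mono (m := ((d * f.natDegree : ℕ) : ℤ)) (by exact_mod_cast hn) ?_
      exact ev_mem_Pl d _ (natDegree_le_of_degree_le (mem_degreeLT.1 r.2).le)
    · have h := mul_mem_Pl (θ.2.2 : (θ : LaurentSeries K) ∈ Pl K n) huP
      refine Po_mono ?_ h
      push_cast
      omega
  let Ψ : (degreeLT K f.natDegree × T) →ₗ[K] RN R (n + d + 1) := Ψ₀.codRestrict _ hmem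
  have hΨ : ∀ r θ, (Ψ (r, θ) : LaurentSeries K) =
      zpol K d (r : K[X]) + (θ : LaurentSeries K) * ld (zz K d) := fun r θ => rfl
  have hinj : Function.Injective Ψ := by
    rw [← LinearMap.ker_eq_bot, LinearMap.ker_eq_bot']
    rintro ⟨r, θ⟩ h0
    have h4 : zpol K d (r : K[X]) + (θ : LaurentSeries K) * ld (zz K d) = 0 := by
      rw [← hΨ, h0]
      rfl
    have h5 : f ∣ (r : K[X]) := by
      apply h3
      refine ⟨-(θ : LaurentSeries K), neg_mem θ.2.1, ?_⟩
      rw [neg_mul]
      exact eq_neg_of_add_eq_zero_left h4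
    have h6 : (r : K[X]) = 0 := by
      apply eq_zero_of_dvd_of_degree_lt h5
      rw [degree_eq_natDegree hf]
      exact mem_degreeLT.1 r.2
    rw [h6, map_zero, zero_add] at h4
    have h7 : (θ : LaurentSeries K) = 0 := (mul_eq_zero.1 h4).resolve_right hu
    exact Prod.ext (Subtype.ext h6) (Subtype.ext h7)
  have hsurj : Function.Surjective Ψ := by
    rintro ⟨x, hx1, hx2⟩
    obtain ⟨a, θ, hθ, hx⟩ := h2 x hx1
    obtain ⟨θf, hθf, hf'⟩ := h1
    have hr : degree (a % f) < f.natDegree := by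
      rw [← degree_eq_natDegree hf]
      exact degree_mod_lt a hf
    have h4 : zpol K d a = zpol K d (a / f) * (θf * ld (zz K d)) + zpol K d (a % f) := by
      conv_lhs => rw [← EuclideanDomain.div_add_mod a f]
      rw [map_add, map_mul, hf', mul_comm (θf * ld (zz K d))]
    let θ' : LaurentSeries K := θ + zpol K d (a / f) * θf
    have hθ' : θ' ∈ TT1 R := add_mem hθ (mul_mem_TT1 hθf (zpol_mem hz _))
    have h5 : x = zpol K d (a % f) + θ' * ld (zz K d) := by
      rw [hx, h4]
      ring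
    have h6 : θ' ∈ Po K n := by
      intro m hm
      have h7 : θ' * ld (zz K d) ∈ Po K ((n + d + 1 : ℕ) : ℤ) := by
        have h8 : θ' * ld (zz K d) = x - zpol K d (a % f) := by
          rw [h5]
          ring
        rw [h8]
        refine sub_mem hx2 (Po_mono (m := ((d * f.natDegree : ℕ) : ℤ)) (by exact_mod_cast hn) ?_)
        exact ev_mem_Pl d _ (natDegree_le_of_degree_le hr.le)
      have h9 := h7 (m - d - 1) (by push_cast; omega)
      rw [mul_ld_zz_coeff] at h9
      exact (mul_eq_zero.1 h9).resolve_right (neg_ne_zero.2 hd)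
    refine ⟨(⟨a % f, mem_degreeLT.2 hr⟩, ⟨θ', hθ', h6⟩), Subtype.ext ?_⟩
    rw [hΨ]
    exact h5.symm
  let E := LinearEquiv.ofBijective Ψ ⟨hinj, hsurj⟩
  have hfin1 : Module.Finite K (degreeLT K f.natDegree × T) := Module.Finite.equiv E.symm
  have hfin2 : Module.Finite K T :=
    Module.Finite.of_surjective (LinearMap.snd K (degreeLT K f.natDegree) T) Prod.snd_surjective
  have hfin3 : Module.Finite K (degreeLT K f.natDegree) :=
    Module.Finite.of_surjective (LinearMap.fst K (degreeLT K f.natDegree) T) Prod.fst_surjective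
  refine ⟨hfin2, ?_⟩
  have h := E.finrank_eq
  rw [Module.finrank_prod, (degreeLTEquiv K f.natDegree).finrank_eq, Module.finrank_fin_fun] at h
  exact h

end

/-- There are no regular vector fields. -/
theorem rgd {K : Type} [Field K] {g : ℕ} {R : Subalgebra K (LaurentSeries K)} (hKFO : Stmt_KFO)
    (hg : 2 ≤ g) (hR : Kr g R) (hD : Dual (uno R)) : Rgd R := by
  intro θ hθ hθ0
  obtain ⟨⟨ω, hω⟩, h2⟩ := hKFO (I := Unit) (P := uno R) hR
  obtain ⟨h3, h4⟩ := h2 ω hω
  by_contra hne
  -- the products with the regular differentials are constants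
  have h5 : ∀ i, ∃ a : K, θ * ω i () = algebraMap K (LaurentSeries K) a := by
    intro i
    obtain ⟨h31, h32⟩ := h3 i
    have h6 : (fun _ => θ : KK Unit K) * ω i ∈ uno R :=
      hD (fun _ => θ) (mem_TT_uno.2 hθ) (ω i) h31
    have h60 : (fun _ => θ : KK Unit K) ∈ Pol Unit K 0 := mem_Pol_unit.2 hθ0
    have h7 : (fun _ => θ : KK Unit K) * ω i ∈ Pol Unit K 0 := mul_mem_Pol0 h60 h32
    obtain ⟨a, ha⟩ := IsKr.k1 hR _ h6 h7
    exact ⟨a, congrFun ha ()⟩
  choose a ha using h5
  have key : ∀ c : Fin g → K, ∑ j, c j • ω j = 0 → c = 0 := by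
    intro c hc
    obtain ⟨c', -, hu⟩ := h4 0 (Submodule.zero_mem _)
    rw [hu c hc.symm, ← hu 0 (by simp)]
  let i0 : Fin g := ⟨0, by omega⟩
  let i1 : Fin g := ⟨1, by omega⟩
  have hi : i0 ≠ i1 := by
    intro h
    have := congrArg Fin.val h
    simp [i0, i1] at this
  have h6 : a i1 • ω i0 = a i0 • ω i1 := by
    funext u
    have h7 : θ * (a i1 • ω i0 () - a i0 • ω i1 ()) = 0 := by
      rw [mul_sub, mul_smul_comm, mul_smul_comm, ha, ha, Algebra.smul_def, Algebra.smul_def,
        mul_comm, sub_self]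
    have h8 := (mul_eq_zero.1 h7).resolve_left hne
    exact sub_eq_zero.1 h8
  have h7 : ∑ j, (Pi.single i0 (a i1) - Pi.single i1 (a i0) : Fin g → K) j • ω j = 0 := by
    have h8 : ∀ j, (Pi.single i0 (a i1) - Pi.single i1 (a i0) : Fin g → K) j • ω j =
        (Pi.single i0 (a i1) : Fin g → K) j • ω j - (Pi.single i1 (a i0) : Fin g → K) j • ω j :=
      fun j => by rw [Pi.sub_apply, sub_smul]
    rw [Finset.sum_congr rfl fun j _ => h8 j, Finset.sum_sub_distrib]
    have h9 : ∀ (i : Fin g) (b : K), ∑ j, (Pi.single i b : Fin g → K) j • ω j = b • ω i := by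
      intro i b
      rw [Finset.sum_eq_single i]
      · rw [Pi.single_eq_same]
      · intro j _ hj
        rw [Pi.single_eq_of_ne hj, zero_smul]
      · intro h
        exact absurd (Finset.mem_univ i) h
    rw [h9, h9, h6, sub_self]
  have h8 := key _ h7
  have h9 : a i1 = 0 := by
    have h10 := congrFun h8 i0
    rw [Pi.sub_apply, Pi.single_eq_same, Pi.single_eq_of_ne hi, sub_zero] at h10
    exact h10
  -- so `ω i1 = 0`
  have h10 : θ * ω i1 () = 0 := by rw [ha, h9, map_zero]
  have h11 : ω i1 = 0 := by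
    funext u
    exact (mul_eq_zero.1 h10).resolve_left hne
  have h12 := key (Pi.single i1 1) (by
    refine Finset.sum_eq_zero fun j _ => ?_
    by_cases hj : j = i1
    · rw [hj, h11, smul_zero]
    · rw [Pi.single_eq_of_ne hj, zero_smul])
  have h13 := congrFun h12 i1
  rw [Pi.single_eq_same] at h13
  exact one_ne_zero h13

end DIT

open DIT in
/-- DIT. -/
theorem t_DIT (hKFO : Stmt_KFO) (_hSTO : Stmt_STO) (hSDF : Stmt_SDF) (hKIL : Stmt_KIL)
    (hKIS : Stmt_KIS) (hUZT : Stmt_UZT) : Stmt_DIT := by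
  intro K _ _ g d R f hg hd hdf hR hz hD hsep hdeg
  have hdK : (d : K) ≠ 0 := by
    intro h
    apply hdf
    obtain ⟨k, hk⟩ := Nat.dvd_factorial hd le_rfl
    rw [hk, Nat.cast_mul, h, zero_mul]
  have hKil : Kil d R f := hKIL.1 hd (IsUnit.mk0 _ hdK) hR hz hD
  obtain ⟨h1, h2⟩ := hKIS hd hdf hR hz hKil hsep
  have hDual : Dual (uno R) := hSDF hR h1 h2
  refine ⟨rgd hKFO hg hR hDual, ?_⟩
  obtain ⟨h3, h4, h5⟩ := hUZT hd hdf hR hz hD hsep
  obtain ⟨N₀, hN₀⟩ := finrank_RN hR
  refine ⟨N₀ + d * f.natDegree, fun n hn => ?_⟩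
  obtain ⟨h6, h7⟩ := hN₀ (n + d + 1) (by
    have : N₀ ≤ N₀ + d * f.natDegree := Nat.le_add_right _ _
    omega)
  obtain ⟨h8, h9⟩ := finrank_TN hdK hz hsep.ne_zero h3 h4 h5 n (by
    have : d * f.natDegree ≤ N₀ + d * f.natDegree := Nat.le_add_left _ _
    omega) h6
  exact ⟨h8, by omega⟩

end Pool.Agent.MG.G0
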