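import Pool.Agent.MG.G0.StmtsM

/-!
# Regular differentials and forgetting punctures

The module MFE (PAPER_M.md).
-/

open TensorProduct

namespace Pool.Agent.MG.G0

namespace MFE

section

variable {I J A : Type} [Fintype I] [Fintype J] [CommRing A]

theorem res_split (f g : KK (I ⊕ J) A) :
    res (f * g) = res (atI f * atI g) + res (atJ f * atJ g) :=
  Fintype.sum_sum_type fun k => ((f * g) k).coeff (-1)

omit [Fintype I] [Fintype J] in
theorem atI_mem {n : ℤ} {f : KK (I ⊕ J) A} (h : f ∈ Pol (I ⊕ J) A n) : atI f ∈ Pol I A n :=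
  fun i m hm => h (Sum.inl i) m hm

omit [Fintype I] [Fintype J] in
theorem atJ_mem {n : ℤ} {f : KK (I ⊕ J) A} (h : f ∈ Pol (I ⊕ J) A n) : atJ f ∈ Pol J A n :=
  fun j m hm => h (Sum.inr j) m hm

omit [Fintype I] [Fintype J] in
theorem mem_Pol0_iff {f : KK J A} : f ∈ Pol J A 0 ↔ ∀ j, ∀ m < 0, (f j).coeff m = 0 := by
  constructor
  · intro h j m hm
    exact h j m (by omega)
  · intro h j m hm
    exact h j m (by omega)

omit [Fintype I] [Fintype J] in
/-- An element of `P = Rem W` comes from an element of `W`. -/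
theorem lift {W : Subalgebra A (KK (I ⊕ J) A)} {P : Subalgebra A (KK I A)} (hF : Forget W P)
    {f : KK I A} (hf : f ∈ P) : ∃ w ∈ W, atI w = f ∧ atJ w ∈ Pol J A 0 := by
  rw [hF.eq] at hf
  obtain ⟨w, hw, h1, h2⟩ := hf
  exact ⟨w, hw, funext h2, mem_Pol0_iff.2 h1⟩

omit [Fintype I] [Fintype J] in
theorem atI_mem_P {W : Subalgebra A (KK (I ⊕ J) A)} {P : Subalgebra A (KK I A)} (hF : Forget W P)
    {w : KK (I ⊕ J) A} (hw : w ∈ W) (h : atJ w ∈ Pol J A 0) : atI w ∈ P := by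
  rw [hF.eq]
  exact ⟨w, hw, mem_Pol0_iff.1 h, fun _ => rfl⟩

omit [Fintype I] [Fintype J] in
theorem approx {W : Subalgebra A (KK (I ⊕ J) A)} {P : Subalgebra A (KK I A)} (hF : Forget W P)
    (y : KK J A) : ∃ w ∈ W, atJ w - y ∈ Pol J A 0 := by
  obtain ⟨w, hw, h⟩ := hF.dns y 0
  refine ⟨w, hw, mem_Pol0_iff.2 fun j m hm => ?_⟩
  rw [Pi.sub_apply, HahnSeries.coeff_sub]
  change (w (Sum.inr j)).coeff m - (y j).coeff m = 0
  rw [h j m hm, sub_self]

theorem fst {W : Subalgebra A (KK (I ⊕ J) A)} {P : Subalgebra A (KK I A)} (hF : Forget W P)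
    {u : KK (I ⊕ J) A} (hu : u ∈ EE W) : atI u ∈ EE P := by
  refine ⟨fun f hf => ?_, atI_mem hu.2⟩
  obtain ⟨w, hw, rfl, hr⟩ := lift hF hf
  have h := hu.1 w hw
  rw [res_split, res_Pol0 (mul_mem_Pol0 (atJ_mem hu.2) hr), add_zero] at h
  exact h

omit [Fintype J] in
/-- The functional given by the residues of a regular differential. -/
theorem exists_lam {W : Subalgebra A (KK (I ⊕ J) A)} {P : Subalgebra A (KK I A)}
    (hF : Forget W P) {ω : KK I A} (hω : ω ∈ EE P) : ∃ l : KK J A →ₗ[A] A,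
      (∀ f ∈ Pol J A 0, l f = 0) ∧ ∀ w ∈ W, l (atJ w) = -res (ω * atI w) := by
  have key : ∀ w ∈ W, ∀ w' ∈ W, atJ w - atJ w' ∈ Pol J A 0 →
      res (ω * atI w) = res (ω * atI w') := by
    intro w hw w' hw' h
    have h1 : atI (w - w') ∈ P := atI_mem_P hF (sub_mem hw hw') h
    have h2 := hω.1 _ h1
    have h3 : ω * atI (w - w') = ω * atI w - ω * atI w' := mul_sub ω (atI w) (atI w')
    rw [h3, map_sub] at h2
    exact sub_eq_zero.1 h2
  choose s hs1 hs2 using approx hF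
  have hl : ∀ (y : KK J A) (w : KK (I ⊕ J) A), w ∈ W → atJ w - y ∈ Pol J A 0 →
      res (ω * atI (s y)) = res (ω * atI w) := by
    intro y w hw h
    refine key _ (hs1 y) _ hw ?_
    have h1 := sub_mem (hs2 y) h
    rwa [sub_sub_sub_cancel_right] at h1
  refine ⟨{ toFun := fun y => -res (ω * atI (s y))
            map_add' := fun y y' => ?_
            map_smul' := fun a y => ?_ }, fun f hf => ?_, fun w hw => ?_⟩
  · have h1 : atJ (s y + s y') - (y + y') ∈ Pol J A 0 := by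
      have h2 := add_mem (hs2 y) (hs2 y')
      rwa [sub_add_sub_comm] at h2
    have h3 := hl (y + y') (s y + s y') (add_mem (hs1 y) (hs1 y')) h1
    have h4 : ω * atI (s y + s y') = ω * atI (s y) + ω * atI (s y') :=
      mul_add ω (atI (s y)) (atI (s y'))
    rw [h3, h4, map_add, neg_add]
  · have h1 : atJ (a • s y) - a • y ∈ Pol J A 0 := by
      have h2 := (Pol J A 0).smul_mem a (hs2 y)
      rwa [smul_sub] at h2
    have h3 := hl (a • y) (a • s y) (W.smul_mem (hs1 y) a) h1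
    have h4 : ω * atI (a • s y) = a • (ω * atI (s y)) := mul_smul_comm a ω (atI (s y))
    rw [h3, h4, map_smul, RingHom.id_apply, smul_neg]
  · change -res (ω * atI (s f)) = 0
    have h1 : atJ (0 : KK (I ⊕ J) A) - f ∈ Pol J A 0 := by
      have h2 := (Pol J A 0).neg_mem hf
      rw [← zero_sub] at h2
      exact h2
    rw [hl f 0 (zero_mem W) h1]
    have h4 : ω * atI (0 : KK (I ⊕ J) A) = 0 := mul_zero ω
    rw [h4, map_zero, neg_zero]
  · change -res (ω * atI (s (atJ w))) = _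
    rw [hl (atJ w) w hw (by rw [sub_self]; exact zero_mem _)]

theorem snd (hKDU : Stmt_KDU) {W : Subalgebra A (KK (I ⊕ J) A)} {P : Subalgebra A (KK I A)}
    (hF : Forget W P) {ω : KK I A} (hω : ω ∈ EE P) : ∃! u, u ∈ EE W ∧ atI u = ω := by
  obtain ⟨l, hl0, hl⟩ := exists_lam hF hω
  obtain ⟨v, ⟨hv0, hv⟩, -⟩ := hKDU (0 : ℤ) l (by rw [neg_zero]; exact hl0)
  refine ⟨Sum.elim ω v, ⟨⟨fun w hw => ?_, ?_⟩, rfl⟩, ?_⟩
  · rw [res_split]
    change res (ω * atI w) + res (v * atJ w) = 0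
    rw [← hv, hl w hw, add_neg_cancel]
  · rintro (i | j) m hm
    · exact hω.2 i m hm
    · exact hv0 j m hm
  · rintro u ⟨hu, hu1⟩
    obtain ⟨z, -, hz⟩ := hKDU (I := J) (A := A) (0 : ℤ) 0 (fun _ _ => rfl)
    have hd1 : u - Sum.elim ω v ∈ Pol (I ⊕ J) A 0 := by
      refine sub_mem hu.2 ?_
      rintro (i | j) m hm
      · exact hω.2 i m hm
      · exact hv0 j m hm
    have hd2 : ∀ w ∈ W, res (atJ (u - Sum.elim ω v) * atJ w) = 0 := by
      intro w hw
      have h1 := hu.1 w hw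
      rw [res_split, hu1] at h1
      have h2 : res (ω * atI w) + res (v * atJ w) = 0 := by
        rw [← hv, hl w hw, add_neg_cancel]
      have h3 : atJ (u - Sum.elim ω v) * atJ w = atJ u * atJ w - v * atJ w :=
        sub_mul (atJ u) v (atJ w)
      rw [h3, map_sub]
      linear_combination h1 - h2
    have h5 : atJ (u - Sum.elim ω v) = z := by
      refine hz _ ⟨atJ_mem hd1, fun f => ?_⟩
      obtain ⟨w, hw, hf⟩ := approx hF f
      have h6 : atJ (u - Sum.elim ω v) * f = atJ (u - Sum.elim ω v) * atJ w -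
          atJ (u - Sum.elim ω v) * (atJ w - f) := by ring
      rw [h6, map_sub, hd2 w hw, res_Pol0 (mul_mem_Pol0 (atJ_mem hd1) hf), sub_zero]
      rfl
    have h7 : (0 : KK J A) = z := by
      refine hz _ ⟨zero_mem _, fun f => ?_⟩
      rw [zero_mul, map_zero]
      rfl
    have h8 : atJ (u - Sum.elim ω v) = 0 := h5.trans h7.symm
    funext k
    rcases k with i | j
    · exact congrFun hu1 i
    · have h9 := congrFun h8 j
      exact sub_eq_zero.1 h9

theorem third {W : Subalgebra A (KK (I ⊕ J) A)} {P : Subalgebra A (KK I A)}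
    (hF : Forget W P) (pt : Bool → FPt W) (pt' : Bool → FPt P) (hR : ∀ b, (pt b).Rs (pt' b))
    (η : KK (I ⊕ J) A) (ρ : A) (hη : η ∈ Pol (I ⊕ J) A 0) (h : IsRho pt η ρ) :
    IsRho pt' (atI η) ρ := by
  intro r
  obtain ⟨w, hw, hw1, hw2⟩ := lift hF r.2
  have h1 := h ⟨w, hw⟩
  have h2 : res (η * w) = res (atI η * (r : KK I A)) := by
    rw [res_split, hw1, res_Pol0 (mul_mem_Pol0 (atJ_mem hη) hw2), add_zero]
  have h3 : ∀ b, (pt' b).ev r = (pt b).ev ⟨w, hw⟩ := fun b => by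
    rw [FPt.ev, FPt.ev, hR b ⟨w, hw⟩ r hw1 hw2]
  rw [h3, h3, ← h2]
  exact h1

end

end MFE

/-- Regular differentials and forgetting punctures. -/
theorem t_MFE (hKDU : Stmt_KDU) (_hKFO : Stmt_KFO) : Stmt_MFE :=
  ⟨fun _ _ hF => ⟨fun _ hu => MFE.fst hF hu, fun _ hω => MFE.snd hKDU hF hω⟩,
    fun hF pt pt' hR η ρ hη h => MFE.third hF pt pt' hR η ρ hη h⟩

end Pool.Agent.MG.G0
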