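import Pool.Agent.MG.G0.StmtsCQ
import Pool.Agent.MG.G0.MFE

/-!
# Regular differentials and forgetting punctures

The module EEF (PAPER_Q.md).
-/

namespace Pool.Agent.MG.G0

namespace EEF

/-- A differential of the punctured curve which vanishes at the old punctures and is regular at the
new punctures is zero. -/
theorem zero {I J A : Type} [Fintype I] [Fintype J] [CommRing A] (hKDU : Stmt_KDU)
    {W : Subalgebra A (KK (I ⊕ J) A)} {P : Subalgebra A (KK I A)} (hF : Forget W P)
    {ω : KK (I ⊕ J) A} (h : ω ∈ Perp W) (h1 : atI ω = 0) (h2 : atJ ω ∈ Pol J A 0) : ω = 0 := by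
  obtain ⟨z, -, hz⟩ := hKDU (I := J) (A := A) (0 : ℤ) 0 (fun _ _ => rfl)
  have h5 : atJ ω = z := by
    refine hz _ ⟨h2, fun f => ?_⟩
    obtain ⟨w, hw, hf⟩ := MFE.approx hF f
    have h6 : atJ ω * f = atJ ω * atJ w - atJ ω * (atJ w - f) := by ring
    have h7 := h w hw
    rw [MFE.res_split, h1, zero_mul, map_zero, zero_add] at h7
    rw [h6, map_sub, h7, res_Pol0 (mul_mem_Pol0 h2 hf), sub_zero]
    rfl
  have h8 : (0 : KK J A) = z := by
    refine hz _ ⟨zero_mem _, fun f => ?_⟩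
    rw [zero_mul, map_zero]
    rfl
  have h9 : atJ ω = 0 := h5.trans h8.symm
  funext k
  rcases k with i | j
  · exact congrFun h1 i
  · exact congrFun h9 j

end EEF

theorem t_EEF (hKDU : Stmt_KDU) : Stmt_EEF := by
  intro I J A _ _ _ _ h P W _ hF
  exact ⟨fun ω hω => MFE.fst hF hω, fun ω hω h1 h2 => EEF.zero hKDU hF hω h1 h2,
    fun ω hω => MFE.snd hKDU hF hω⟩

end Pool.Agent.MG.G0
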