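import Pool.Agent.MG.G0.StmtsCQ

/-!
# GBC: base change of good Krichever rings
-/

open TensorProduct

namespace Pool.Agent.MG.G0

theorem t_GBC (hKBC : Stmt_KBC) : Stmt_GBC := by
  intro I A B _ _ _ _ φ g P hP
  refine ⟨(hKBC.2.2.2 hP.1 φ).1, fun κ _ _ ψ => ?_⟩
  have h := hP.2 κ (ψ.comp φ)
  rw [hKBC.2.1 φ ψ P] at h
  exact h

end Pool.Agent.MG.G0
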