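import Pool.Agent.MG.G0.StmtsG

/-!
# GCV: the critical points of `X^(2g+3) + ζ Y` and their values
-/

namespace Pool.Agent.MG.G0

namespace GCV

open Polynomial

/-- `c(x) = (g+1+a) x^g - (1+a)`. -/
def cc {E : Type} [Field E] (g a : ℕ) (x : E) : E := ((g + 1 + a : ℕ) : E) * x ^ g - ((1 + a : ℕ) : E)

/-- The conditions for a critical point. -/
structure Pt {E : Type} [Field E] (g a : ℕ) (ζ x : E) : Prop where
  h3 : (3 : E) ≠ 0
  hN : ((2 * g + 3 : ℕ) : E) ≠ 0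
  hζ : ζ ≠ 0
  hx : x ≠ 0
  hg : x ^ g ≠ 1
  hc : cc g a x ≠ 0
  hQ : 27 * ((2 * g + 3 : ℕ) : E) ^ 3 * x ^ (6 * g + 8 - a) * (x ^ g - 1) ^ 2 +
    ζ ^ 3 * cc g a x ^ 3 = 0

/-- The coordinate `Y`. -/
noncomputable def yy {E : Type} [Field E] (g a : ℕ) (ζ x : E) : E :=
  -(3 * ((2 * g + 3 : ℕ) : E) * x ^ (2 * g + 3) * (x ^ g - 1)) / (ζ * cc g a x)

/-- The critical value. -/
noncomputable def bb {E : Type} [Field E] (g a : ℕ) (ζ x : E) : E :=
  x ^ (2 * g + 3) + ζ * yy g a ζ x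

section field

variable {E : Type} [Field E] {g a : ℕ} {ζ x : E}

theorem Pt.of_map {E' : Type} [Field E'] (f : E →+* E') (h : Pt g a (f ζ) (f x)) :
    Pt g a ζ x := by
  have hf := f.injective
  have e : f (cc g a x) = cc g a (f x) := by simp [cc]
  refine ⟨fun h0 => h.h3 ?_, fun h0 => h.hN ?_, fun h0 => h.hζ ?_, fun h0 => h.hx ?_,
    fun h0 => h.hg ?_, fun h0 => h.hc ?_, hf ?_⟩
  · rw [← map_ofNat f 3, h0, map_zero]
  · rw [← map_natCast f, h0, map_zero]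
  · rw [h0, map_zero]
  · rw [h0, map_zero]
  · rw [← map_pow, h0, map_one]
  · rw [← e, h0, map_zero]
  · have e27 : f 27 = 27 := map_ofNat f 27
    have eN : f ((2 * g + 3 : ℕ) : E) = ((2 * g + 3 : ℕ) : E') := map_natCast f _
    rw [map_zero, ← h.hQ, ← e]
    simp only [map_add, map_mul, map_pow, map_sub, map_one, e27, eN]

theorem yy_map {E' : Type} [Field E'] (f : E →+* E') : f (yy g a ζ x) = yy g a (f ζ) (f x) := by
  have e3 : f 3 = 3 := map_ofNat f 3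
  simp only [yy, cc, map_div₀, map_neg, map_mul, map_pow, map_sub, map_one, e3, map_natCast]

theorem bb_map {E' : Type} [Field E'] (f : E →+* E') : f (bb g a ζ x) = bb g a (f ζ) (f x) := by
  simp [bb, yy_map]

theorem yy_mul (h : Pt g a ζ x) : yy g a ζ x * (ζ * cc g a x) =
    -(3 * ((2 * g + 3 : ℕ) : E) * x ^ (2 * g + 3) * (x ^ g - 1)) := by
  rw [yy, div_mul_cancel₀]
  exact mul_ne_zero h.hζ h.hc

theorem yy_ne (h : Pt g a ζ x) : yy g a ζ x ≠ 0 := by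
  rw [yy]
  refine div_ne_zero (neg_ne_zero.2 ?_) (mul_ne_zero h.hζ h.hc)
  exact mul_ne_zero (mul_ne_zero (mul_ne_zero h.h3 h.hN) (pow_ne_zero _ h.hx))
    (sub_ne_zero.2 h.hg)

theorem yy_cube (ha : a ≤ 1) (h : Pt g a ζ x) :
    yy g a ζ x ^ 3 = x ^ (1 + a) * (x ^ g - 1) := by
  have h1 := yy_mul h
  have h2 : (ζ * cc g a x) ^ 3 ≠ 0 := pow_ne_zero _ (mul_ne_zero h.hζ h.hc)
  refine mul_right_cancel₀ h2 ?_
  rw [← mul_pow, h1]
  have h3 : x ^ (2 * g + 3) * x ^ (2 * g + 3) * x ^ (2 * g + 3) =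
      x ^ (6 * g + 8 - a) * x ^ (1 + a) := by
    rw [← pow_add, ← pow_add, ← pow_add]
    congr 1
    omega
  linear_combination (-27 * ((2 * g + 3 : ℕ) : E) ^ 3 * (x ^ g - 1) ^ 3) * h3 +
    (- x ^ (1 + a) * (x ^ g - 1)) * h.hQ

/-- `3 N x^(N-1) y^2 + ζ x^a c = 0`. -/
theorem yy_rel (ha : a ≤ 1) (h : Pt g a ζ x) :
    3 * ((2 * g + 3 : ℕ) : E) * x ^ (2 * g + 2) * yy g a ζ x ^ 2 + ζ * x ^ a * cc g a x = 0 := by
  have h1 := yy_mul h
  have h2 := yy_cube ha h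
  refine mul_right_cancel₀ (yy_ne h) ?_
  have h3 : x ^ (2 * g + 2) * x ^ (1 + a) = x ^ a * x ^ (2 * g + 3) := by
    rw [← pow_add, ← pow_add]
    congr 1
    omega
  rw [zero_mul]
  linear_combination (3 * ((2 * g + 3 : ℕ) : E) * x ^ (2 * g + 2)) * h2 + x ^ a * h1 +
    (3 * ((2 * g + 3 : ℕ) : E) * (x ^ g - 1)) * h3

/-- The derivative of the critical value. -/
theorem bb_der {F : Type} [Field F] [Algebra F E] (ha : a ≤ 1) (h : Pt g a ζ x)
    (δ : Derivation F E E) (hδ : δ ζ = 1) : δ (bb g a ζ x) = yy g a ζ x := by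
  have h1 := yy_rel ha h
  have h2 := yy_cube ha h
  set y := yy g a ζ x with hy
  have h3 : δ (y ^ 3) = δ (x ^ (1 + a) * (x ^ g - 1)) := by rw [h2]
  have h4 : 3 * y ^ 2 * δ y = x ^ a * cc g a x * δ x := by
    have e1 : x ^ (1 + a) * (x ^ g - 1) = x ^ (g + 1 + a) - x ^ (1 + a) := by ring
    rw [e1, map_sub, Derivation.leibniz_pow, Derivation.leibniz_pow, Derivation.leibniz_pow] at h3
    simp only [smul_eq_mul, nsmul_eq_mul] at h3
    have e2 : g + 1 + a - 1 = g + a := by omega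
    have e3 : 1 + a - 1 = a := by omega
    rw [e2, e3] at h3
    rw [cc]
    push_cast at h3 ⊢
    linear_combination h3
  have hy3 : 3 * y ^ 2 ≠ 0 := mul_ne_zero h.h3 (pow_ne_zero _ (yy_ne h))
  have h5 : ((2 * g + 3 : ℕ) : E) * x ^ (2 * g + 2) * δ x + ζ * δ y = 0 := by
    refine mul_right_cancel₀ hy3 ?_
    rw [zero_mul]
    linear_combination ζ * h4 + δ x * h1
  rw [bb, map_add, Derivation.leibniz_pow, Derivation.leibniz, hδ, ← hy]
  simp only [smul_eq_mul, nsmul_eq_mul, mul_one]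
  have e4 : 2 * g + 3 - 1 = 2 * g + 2 := by omega
  rw [e4]
  linear_combination h5

theorem dual_eqs (ha : a ≤ 1) (hga : 2 ≤ g) (h : Pt g a ζ x) : ∃ X Y W : DualNumber E,
    Y ^ 2 = X ^ a * W ∧ Y * W = X ^ (g + 1) - X ∧
      W ^ 2 = (X ^ (g + 1 - a) - X ^ (1 - a)) * Y ∧
      (X.snd ≠ 0 ∨ Y.snd ≠ 0 ∨ W.snd ≠ 0) ∧
      X ^ (2 * g + 3) + TrivSqZeroExt.inl ζ * Y = TrivSqZeroExt.inl (bb g a ζ x) := by
  have h1 := yy_rel ha h
  have h2 := yy_cube ha h
  have h0 := yy_mul h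
  have hx := h.hx
  have h3 := h.h3
  have hbb : bb g a ζ x = x ^ (2 * g + 3) + ζ * yy g a ζ x := rfl
  set y := yy g a ζ x with hy
  obtain ⟨w, hw⟩ : ∃ w, w = y ^ 2 / x ^ a := ⟨_, rfl⟩
  have hw1 : y ^ 2 = x ^ a * w := by
    rw [hw]
    field_simp
  have hw2 : y * w = x ^ (g + 1) - x := by
    have e : x ^ a * (y * w) = x ^ a * (x ^ (g + 1) - x) := by
      linear_combination h2 - y * hw1
    exact mul_left_cancel₀ (pow_ne_zero _ hx) e
  have hw3 : w ^ 2 = (x ^ (g + 1 - a) - x ^ (1 - a)) * y := by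
    have e : x ^ a * w ^ 2 = x ^ a * ((x ^ (g + 1 - a) - x ^ (1 - a)) * y) := by
      have e1 : x ^ a * x ^ (g + 1 - a) = x ^ (g + 1) := by
        rw [← pow_add]
        congr 1
        omega
      have e2 : x ^ a * x ^ (1 - a) = x := by
        rw [← pow_add]
        have : a + (1 - a) = 1 := by omega
        rw [this, pow_one]
      linear_combination w * (-hw1) + y * hw2 - y * e1 + y * e2
    exact mul_left_cancel₀ (pow_ne_zero _ hx) e
  obtain ⟨k, hk⟩ : ∃ k, cc g a x = 3 * k := ⟨cc g a x / 3, by field_simp⟩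
  obtain ⟨l, hl⟩ : ∃ l, (2 * (g : E) + 2 - a) * x ^ g - (2 - a) = 3 * l :=
    ⟨((2 * (g : E) + 2 - a) * x ^ g - (2 - a)) / 3, by field_simp⟩
  have hk' : ((g : E) + 1 + a) * x ^ g - (1 + a) = 3 * k := by
    rw [← hk, cc]
    push_cast
    ring
  have i1 : 2 * k = l + a * (x ^ g - 1) := mul_left_cancel₀ h3 (by
    linear_combination (-2 : E) * hk' + hl)
  have i2 : k + l = ((g : E) + 1) * x ^ g - 1 := mul_left_cancel₀ h3 (by
    linear_combination -hk' - hl)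
  have i3 : 2 * l = k + (((g : E) + 1 - a) * x ^ g - (1 - a)) := mul_left_cancel₀ h3 (by
    linear_combination hk' - 2 * hl)
  have i4 : ζ * k * y = -(((2 * g + 3 : ℕ) : E) * x ^ (2 * g + 3) * (x ^ g - 1)) :=
    mul_left_cancel₀ h3 (by
      rw [hk] at h0
      linear_combination h0)
  have hxg : x ^ (g + 1) - x = x * (x ^ g - 1) := by ring
  refine ⟨TrivSqZeroExt.inl x + TrivSqZeroExt.inr (x ^ (g + 1) - x),
    TrivSqZeroExt.inl y + TrivSqZeroExt.inr (k * y),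
    TrivSqZeroExt.inl w + TrivSqZeroExt.inr (l * w), ?_, ?_, ?_, ?_, ?_⟩
  · refine TrivSqZeroExt.ext ?_ ?_
    · simpa using hw1
    · simp only [TrivSqZeroExt.snd_pow, TrivSqZeroExt.snd_mul, TrivSqZeroExt.fst_add,
        TrivSqZeroExt.snd_add, TrivSqZeroExt.fst_inl, TrivSqZeroExt.fst_inr, TrivSqZeroExt.snd_inl,
        TrivSqZeroExt.snd_inr, TrivSqZeroExt.fst_pow, smul_eq_mul, nsmul_eq_mul, add_zero,
        zero_add, MulOpposite.smul_eq_mul_unop, MulOpposite.unop_op]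
      have e : (a : E) * (x ^ a.pred * (x ^ (g + 1) - x)) = a * x ^ a * (x ^ g - 1) := by
        rcases (by omega : a = 0 ∨ a = 1) with rfl | rfl
        · simp
        · simp only [Nat.pred_eq_sub_one, Nat.sub_self, pow_zero, Nat.cast_one]
          ring
      rw [e]
      simp only [Nat.pred_eq_sub_one]
      push_cast
      linear_combination 2 * k * hw1 + x ^ a * w * i1
  · refine TrivSqZeroExt.ext ?_ ?_
    · simpa using hw2
    · simp only [TrivSqZeroExt.snd_pow, TrivSqZeroExt.snd_mul, TrivSqZeroExt.fst_add,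
        TrivSqZeroExt.snd_add, TrivSqZeroExt.fst_inl, TrivSqZeroExt.fst_inr, TrivSqZeroExt.snd_inl,
        TrivSqZeroExt.snd_inr, smul_eq_mul, nsmul_eq_mul, add_zero,
        zero_add, MulOpposite.smul_eq_mul_unop, MulOpposite.unop_op, TrivSqZeroExt.snd_sub,
        Nat.pred_eq_sub_one, Nat.add_sub_cancel]
      push_cast
      linear_combination (k + l) * hw2 + (x ^ (g + 1) - x) * i2
  · refine TrivSqZeroExt.ext ?_ ?_
    · simpa using hw3
    · simp only [TrivSqZeroExt.snd_pow, TrivSqZeroExt.snd_mul, TrivSqZeroExt.fst_add,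
        TrivSqZeroExt.snd_add, TrivSqZeroExt.fst_inl, TrivSqZeroExt.fst_inr, TrivSqZeroExt.snd_inl,
        TrivSqZeroExt.snd_inr, smul_eq_mul, nsmul_eq_mul, add_zero, TrivSqZeroExt.fst_sub,
        TrivSqZeroExt.fst_pow,
        zero_add, MulOpposite.smul_eq_mul_unop, MulOpposite.unop_op, TrivSqZeroExt.snd_sub]
      have e : ((g + 1 - a : ℕ) : E) * (x ^ (g + 1 - a).pred * (x ^ (g + 1) - x)) -
          ((1 - a : ℕ) : E) * (x ^ (1 - a).pred * (x ^ (g + 1) - x)) =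
          (x ^ (g + 1 - a) - x ^ (1 - a)) * (((g : E) + 1 - a) * x ^ g - (1 - a)) := by
        rcases (by omega : a = 0 ∨ a = 1) with rfl | rfl
        · simp only [Nat.pred_eq_sub_one, Nat.sub_zero, Nat.add_sub_cancel, Nat.sub_self, pow_zero]
          push_cast
          ring
        · obtain ⟨g', rfl⟩ : ∃ g', g = g' + 1 := ⟨g - 1, by omega⟩
          simp only [Nat.pred_eq_sub_one, Nat.sub_self, Nat.add_sub_cancel, pow_zero]
          push_cast
          ring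
      rw [e]
      simp only [Nat.pred_eq_sub_one]
      push_cast
      linear_combination 2 * l * hw3 + (x ^ (g + 1 - a) - x ^ (1 - a)) * y * i3
  · left
    simp only [TrivSqZeroExt.snd_add, TrivSqZeroExt.snd_inl, TrivSqZeroExt.snd_inr, zero_add]
    intro h5
    have h6 : x * (x ^ g - 1) = 0 := by linear_combination h5
    rcases mul_eq_zero.1 h6 with h7 | h7
    · exact hx h7
    · exact h.hg (sub_eq_zero.1 h7)
  · refine TrivSqZeroExt.ext ?_ ?_
    · simp [hbb]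
    · simp only [TrivSqZeroExt.snd_pow, TrivSqZeroExt.snd_mul, TrivSqZeroExt.fst_add,
        TrivSqZeroExt.snd_add, TrivSqZeroExt.fst_inl, TrivSqZeroExt.fst_inr, TrivSqZeroExt.snd_inl,
        TrivSqZeroExt.snd_inr, smul_eq_mul, nsmul_eq_mul, add_zero,
        zero_add, MulOpposite.smul_eq_mul_unop, MulOpposite.unop_op,
        Nat.pred_eq_sub_one]
      have e4 : 2 * g + 3 - 1 = 2 * g + 2 := by omega
      rw [e4]
      linear_combination i4

end field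

/-- The polynomial `c`. -/
noncomputable def cP (E : Type) [Field E] (g a : ℕ) : E[X] :=
  C ((g + 1 + a : ℕ) : E) * X ^ g - C ((1 + a : ℕ) : E)

/-- The polynomial `u`. -/
noncomputable def uP (E : Type) [Field E] (g a : ℕ) : E[X] :=
  C (27 * ((2 * g + 3 : ℕ) : E) ^ 3) * X ^ (6 * g + 8 - a) * (X ^ g - 1) ^ 2

/-- The polynomial `Q`. -/
noncomputable def QP {E : Type} [Field E] (g a : ℕ) (ζ : E) : E[X] :=
  uP E g a + C (ζ ^ 3) * cP E g a ^ 3

section poly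

variable {E E' : Type} [Field E] [Field E'] {g a : ℕ} {ζ x : E}

theorem cP_map (f : E →+* E') : (cP E g a).map f = cP E' g a := by
  simp only [cP, Polynomial.map_sub, Polynomial.map_mul, Polynomial.map_pow, map_X,
    map_natCast, Polynomial.map_natCast]

theorem uP_map (f : E →+* E') : (uP E g a).map f = uP E' g a := by
  have e27 : f 27 = 27 := map_ofNat f 27
  simp only [uP, Polynomial.map_sub, Polynomial.map_mul, Polynomial.map_pow, map_X, map_C,
    map_natCast, map_mul, map_pow, e27, Polynomial.map_one, Polynomial.map_natCast]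

theorem QP_map (f : E →+* E') : (QP g a ζ).map f = QP g a (f ζ) := by
  simp only [QP, Polynomial.map_add, uP_map, Polynomial.map_mul, Polynomial.map_pow, cP_map,
    map_C, map_pow]

theorem cP_eval : (cP E g a).eval x = cc g a x := by
  simp [cP, cc]

theorem uP_eval : (uP E g a).eval x =
    27 * ((2 * g + 3 : ℕ) : E) ^ 3 * x ^ (6 * g + 8 - a) * (x ^ g - 1) ^ 2 := by
  simp [uP]

theorem QP_eval : (QP g a ζ).eval x =
    27 * ((2 * g + 3 : ℕ) : E) ^ 3 * x ^ (6 * g + 8 - a) * (x ^ g - 1) ^ 2 +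
      ζ ^ 3 * cc g a x ^ 3 := by
  rw [QP, eval_add, uP_eval, eval_mul, eval_C, eval_pow, cP_eval]

theorem QP_natDegree (hg : 2 ≤ g) (ha : a ≤ 1) (h3 : (3 : E) ≠ 0)
    (hN : ((2 * g + 3 : ℕ) : E) ≠ 0) : (QP g a ζ).natDegree = 8 * g + 8 - a := by
  have h27 : (27 * ((2 * g + 3 : ℕ) : E) ^ 3) ≠ 0 := by
    refine mul_ne_zero ?_ (pow_ne_zero _ hN)
    have : (27 : E) = 3 ^ 3 := by norm_num
    rw [this]
    exact pow_ne_zero _ h3
  have hm : (X ^ g - 1 : E[X]).Monic := by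
    rw [← C_1]
    exact monic_X_pow_sub_C _ (by omega)
  have h1 : (uP E g a).natDegree = 8 * g + 8 - a := by
    rw [uP, mul_assoc, natDegree_C_mul h27, Monic.natDegree_mul (monic_X_pow _) (hm.pow 2),
      natDegree_X_pow, hm.natDegree_pow, ← C_1, natDegree_X_pow_sub_C]
    omega
  have h2 : (C (ζ ^ 3) * cP E g a ^ 3).natDegree ≤ 3 * g := by
    refine (natDegree_C_mul_le _ _).trans (natDegree_pow_le.trans ?_)
    have h4 : (cP E g a).natDegree ≤ g := by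
      rw [cP]
      refine (natDegree_sub_le _ _).trans (max_le (natDegree_C_mul_X_pow_le _ _) ?_)
      rw [natDegree_C]
      omega
    omega
  rw [QP, natDegree_add_eq_left_of_natDegree_lt, h1]
  rw [h1]
  omega

theorem cc_ne (hg : 2 ≤ g) (h3 : (3 : E) ≠ 0) (hN : ((2 * g + 3 : ℕ) : E) ≠ 0)
    (hgE : (g : E) ≠ 0) (h1a : ((1 + a : ℕ) : E) ≠ 0)
    (ha : a ≤ 1) (h : (QP g a ζ).eval x = 0) : cc g a x ≠ 0 := by
  intro hc
  have h27 : (27 * ((2 * g + 3 : ℕ) : E) ^ 3) ≠ 0 := by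
    refine mul_ne_zero ?_ (pow_ne_zero _ hN)
    have : (27 : E) = 3 ^ 3 := by norm_num
    rw [this]
    exact pow_ne_zero _ h3
  rw [QP_eval, hc] at h
  have h4 : (x ^ (6 * g + 8 - a)) * (x ^ g - 1) ^ 2 = 0 := by
    refine mul_left_cancel₀ h27 ?_
    rw [mul_zero]
    linear_combination h
  rcases mul_eq_zero.1 h4 with h5 | h5
  · have h6 : x = 0 := (pow_eq_zero_iff (by omega)).1 h5
    rw [h6, cc, zero_pow (by omega), mul_zero, zero_sub, neg_eq_zero] at hc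
    exact h1a hc
  · have h6 : x ^ g = 1 := sub_eq_zero.1 ((pow_eq_zero_iff (by omega)).1 h5)
    rw [cc, h6] at hc
    apply hgE
    push_cast at hc
    linear_combination hc

theorem W_ne (hg : 2 ≤ g) (h3 : (3 : E) ≠ 0) (hN : ((2 * g + 3 : ℕ) : E) ≠ 0)
    (h1a : ((1 + a : ℕ) : E) ≠ 0) (hm : ((6 * g + 8 - a : ℕ) : E) ≠ 0) (ha : a ≤ 1) :
    uP E g a * derivative (cP E g a ^ 3) - derivative (uP E g a) * cP E g a ^ 3 ≠ 0 := by
  have h27 : (27 * ((2 * g + 3 : ℕ) : E) ^ 3) ≠ 0 := by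
    refine mul_ne_zero ?_ (pow_ne_zero _ hN)
    have : (27 : E) = 3 ^ 3 := by norm_num
    rw [this]
    exact pow_ne_zero _ h3
  obtain ⟨n, hn⟩ : ∃ n, 6 * g + 8 - a = n + 1 := ⟨6 * g + 7 - a, by omega⟩
  rw [hn] at hm
  intro h0
  have hu : uP E g a = C (27 * ((2 * g + 3 : ℕ) : E) ^ 3) * X ^ (n + 1) * (X ^ g - 1) ^ 2 := by
    rw [uP, hn]
  set v := cP E g a ^ 3 with hv
  set c := 27 * ((2 * g + 3 : ℕ) : E) ^ 3 with hc
  have h1 : uP E g a * derivative v - derivative (uP E g a) * v =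
      X ^ n * (X * (C c * (X ^ g - 1) ^ 2 * derivative v) -
        (C c * (C ((n + 1 : ℕ) : E) * (X ^ g - 1) ^ 2) +
          X * (C c * derivative ((X ^ g - 1 : E[X]) ^ 2))) * v) := by
    rw [hu, derivative_mul, derivative_C_mul, derivative_X_pow, Nat.add_sub_cancel]
    ring
  rw [h1] at h0
  have h2 := (mul_eq_zero.1 h0).resolve_left (pow_ne_zero _ X_ne_zero)
  have h4 := congrArg (eval 0) h2
  simp only [eval_sub, eval_mul, eval_X, zero_mul, zero_sub, eval_add, eval_C, eval_pow,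
    add_zero, eval_one, eval_zero, neg_eq_zero] at h4
  rw [hv, eval_pow, cP_eval, cc, zero_pow (by omega)] at h4
  apply mul_ne_zero (mul_ne_zero h27 (mul_ne_zero hm (pow_ne_zero 2 (neg_ne_zero.2
    (one_ne_zero (α := E)))))) (pow_ne_zero 3 (neg_ne_zero.2 h1a))
  rw [← h4]
  ring

end poly

section tr

variable {F K : Type} [Field F] [Field K] [Algebra F K] {g a : ℕ} {ζ x : K}

theorem root_tr (hg : 2 ≤ g) (h3 : (3 : K) ≠ 0) (hN : ((2 * g + 3 : ℕ) : K) ≠ 0)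
    (hgE : (g : K) ≠ 0) (h1a : ((1 + a : ℕ) : K) ≠ 0) (ha : a ≤ 1) (hζ : Transcendental F ζ)
    (h : (QP g a ζ).eval x = 0) : Transcendental F x := by
  intro halg
  have hc := cc_ne hg h3 hN hgE h1a ha h
  have hxA : x ∈ algebraicClosure F K := mem_algebraicClosure_iff.2 halg
  have hcA : cc g a x ∈ algebraicClosure F K := by
    rw [cc]
    exact sub_mem (mul_mem (natCast_mem _ _) (pow_mem hxA _)) (natCast_mem _ _)
  have huA : 27 * ((2 * g + 3 : ℕ) : K) ^ 3 * x ^ (6 * g + 8 - a) * (x ^ g - 1) ^ 2 ∈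
      algebraicClosure F K := by
    refine mul_mem (mul_mem (mul_mem ?_ (pow_mem (natCast_mem _ _) _)) (pow_mem hxA _))
      (pow_mem (sub_mem (pow_mem hxA _) (one_mem _)) _)
    exact_mod_cast natCast_mem (algebraicClosure F K) 27
  rw [QP_eval] at h
  have h4 : ζ ^ 3 = -(27 * ((2 * g + 3 : ℕ) : K) ^ 3 * x ^ (6 * g + 8 - a) *
      (x ^ g - 1) ^ 2) / cc g a x ^ 3 := by
    rw [eq_div_iff (pow_ne_zero _ hc)]
    linear_combination h
  have h5 : ζ ^ 3 ∈ algebraicClosure F K := by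
    rw [h4]
    exact div_mem (neg_mem huA) (pow_mem hcA _)
  exact hζ (IsAlgebraic.of_pow (n := 3) (by norm_num) (mem_algebraicClosure_iff.1 h5))

theorem pt_of_root (hg : 2 ≤ g) (h3 : (3 : K) ≠ 0) (hN : ((2 * g + 3 : ℕ) : K) ≠ 0)
    (hgE : (g : K) ≠ 0) (h1a : ((1 + a : ℕ) : K) ≠ 0) (ha : a ≤ 1) (hζ : Transcendental F ζ)
    (h : (QP g a ζ).eval x = 0) : Pt g a ζ x := by
  have hx := root_tr hg h3 hN hgE h1a ha hζ h
  refine ⟨h3, hN, ?_, ?_, ?_, cc_ne hg h3 hN hgE h1a ha h, ?_⟩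
  · rintro rfl
    exact hζ isAlgebraic_zero
  · rintro rfl
    exact hx isAlgebraic_zero
  · intro h4
    exact hx (IsAlgebraic.of_pow (n := g) (by omega) (h4 ▸ isAlgebraic_one))
  · rw [← QP_eval, h]

theorem QP_sep [IsAlgClosed K] (hg : 2 ≤ g) (h3 : (3 : K) ≠ 0) (hN : ((2 * g + 3 : ℕ) : K) ≠ 0)
    (hgE : (g : K) ≠ 0) (h1a : ((1 + a : ℕ) : K) ≠ 0) (hm : ((6 * g + 8 - a : ℕ) : K) ≠ 0)
    (ha : a ≤ 1) (hζ : Transcendental F ζ) : (QP g a ζ).Separable := by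
  rw [separable_def, isCoprime_iff_aeval_ne_zero_of_isAlgClosed K K]
  intro x
  by_contra hcon
  push Not at hcon
  obtain ⟨h1, h2⟩ := hcon
  simp only [coe_aeval_eq_eval] at h1 h2
  have hx := root_tr hg h3 hN hgE h1a ha hζ h1
  apply hx
  refine ⟨uP F g a * derivative (cP F g a ^ 3) - derivative (uP F g a) * cP F g a ^ 3, ?_, ?_⟩
  · intro h0
    apply W_ne (E := K) hg h3 hN h1a hm ha
    have h4 := congrArg (Polynomial.map (algebraMap F K)) h0
    rwa [Polynomial.map_sub, Polynomial.map_mul, Polynomial.map_mul, ← derivative_map,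
      ← derivative_map, Polynomial.map_pow, uP_map, cP_map, Polynomial.map_zero] at h4
  · rw [← eval_map_algebraMap, Polynomial.map_sub, Polynomial.map_mul, Polynomial.map_mul,
      ← derivative_map, ← derivative_map, Polynomial.map_pow, uP_map, cP_map, eval_sub,
      eval_mul, eval_mul]
    rw [QP, eval_add, eval_mul, eval_C] at h1
    rw [QP, derivative_add, derivative_C_mul, eval_add, eval_mul, eval_C] at h2
    linear_combination (eval x (derivative (cP K g a ^ 3))) * h1 - (eval x (cP K g a ^ 3)) * h2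

theorem eq_of {x₁ x₂ : K} (ha : a ≤ 1) (hg : 2 ≤ g) (hx₁ : Transcendental F x₁)
    (h₁ : Pt g a ζ x₁) (h₂ : Pt g a ζ x₂) (hy : yy g a ζ x₁ = yy g a ζ x₂)
    (hb : bb g a ζ x₁ = bb g a ζ x₂) : x₁ = x₂ := by
  have hN : x₁ ^ (2 * g + 3) = x₂ ^ (2 * g + 3) := by
    rw [bb, bb, hy] at hb
    exact add_right_cancel hb
  have hc : x₁ ^ (1 + a) * (x₁ ^ g - 1) = x₂ ^ (1 + a) * (x₂ ^ g - 1) := by
    rw [← yy_cube ha h₁, ← yy_cube ha h₂, hy]
  obtain ⟨μ, hμ⟩ : ∃ μ, x₂ = μ * x₁ := ⟨x₂ / x₁, by rw [div_mul_cancel₀ _ h₁.hx]⟩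
  have hμN : μ ^ (2 * g + 3) = 1 := by
    rw [hμ, mul_pow] at hN
    exact mul_right_cancel₀ (pow_ne_zero _ h₁.hx) (by rw [one_mul, ← hN])
  have hμA : μ ∈ algebraicClosure F K := by
    have : IsAlgebraic F μ := IsAlgebraic.of_pow (n := 2 * g + 3) (by omega)
      (hμN ▸ isAlgebraic_one)
    exact mem_algebraicClosure_iff.2 this
  have h5 : (μ ^ (1 + a + g) - 1) * x₁ ^ g = μ ^ (1 + a) - 1 := by
    refine mul_left_cancel₀ (pow_ne_zero (1 + a) h₁.hx) ?_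
    rw [hμ, mul_pow, mul_pow] at hc
    linear_combination -hc
  have h6 : μ ^ (1 + a + g) = 1 := by
    by_contra hne
    have hne' : μ ^ (1 + a + g) - 1 ≠ 0 := sub_ne_zero.2 hne
    have h7 : x₁ ^ g = (μ ^ (1 + a) - 1) / (μ ^ (1 + a + g) - 1) := by
      rw [eq_div_iff hne', mul_comm]
      exact h5
    have h8 : x₁ ^ g ∈ algebraicClosure F K := by
      rw [h7]
      exact div_mem (sub_mem (pow_mem hμA _) (one_mem _)) (sub_mem (pow_mem hμA _) (one_mem _))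
    exact hx₁ (IsAlgebraic.of_pow (n := g) (by omega) (mem_algebraicClosure_iff.1 h8))
  have h7 : μ ^ (1 + a) = 1 := by
    rw [h6, sub_self, zero_mul] at h5
    exact (sub_eq_zero.1 h5.symm)
  have h8 : μ = 1 := by
    rcases (by omega : a = 0 ∨ a = 1) with rfl | rfl
    · simpa using h7
    · have h9 : μ ^ (2 * g + 3) = (μ ^ (1 + 1)) ^ (g + 1) * μ := by ring
      rw [h7, one_pow, one_mul] at h9
      rw [← h9, hμN]
  rw [hμ, h8, one_mul]

end tr

end GCV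

theorem t_GCV (hGDV : Stmt_GDV) : Stmt_GCV := by
  classical
  intro F K _ _ _ _ g a hg ha _ hfac ζ hζ
  have hch : ∀ m : ℕ, 0 < m → m ≤ 6 * g + 9 → (m : K) ≠ 0 := by
    intro m hm hle h0
    apply hfac
    obtain ⟨c, hc⟩ := Nat.dvd_factorial hm hle
    rw [hc, Nat.cast_mul, h0, zero_mul]
  have h3 : (3 : K) ≠ 0 := by exact_mod_cast hch 3 (by omega) (by omega)
  have hN := hch (2 * g + 3) (by omega) (by omega)
  have hgE := hch g (by omega) (by omega)
  have h1a := hch (1 + a) (by omega) (by omega)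
  have hm := hch (6 * g + 8 - a) (by omega) (by omega)
  have hsep := GCV.QP_sep (F := F) hg h3 hN hgE h1a hm ha hζ
  obtain ⟨L, hζL, δ, hδ, hL⟩ := hGDV (F := F) ζ hζ
  let S : Finset K := (GCV.QP g a ζ).roots.toFinset
  have hS : ∀ x ∈ S, (GCV.QP g a ζ).eval x = 0 := by
    intro x hx
    rw [Multiset.mem_toFinset] at hx
    exact (Polynomial.mem_roots'.1 hx).2
  have hcard : S.card = 8 * g + 8 - a := by
    rw [Multiset.toFinset_card_of_nodup (Polynomial.nodup_roots hsep),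
      ← GCV.QP_natDegree (ζ := ζ) hg ha h3 hN]
    exact (Polynomial.splits_iff_card_roots.1 (IsAlgClosed.splits _))
  have hPt : ∀ x ∈ S, GCV.Pt g a ζ x := fun x hx =>
    GCV.pt_of_root (F := F) hg h3 hN hgE h1a ha hζ (hS x hx)
  have hTr : ∀ x ∈ S, Transcendental F x := fun x hx =>
    GCV.root_tr (F := F) hg h3 hN hgE h1a ha hζ (hS x hx)
  have hSL : ∀ x ∈ S, x ∈ L := by
    intro x hx
    have h1 : (GCV.QP g a (⟨ζ, hζL⟩ : L)).map (algebraMap L K) = GCV.QP g a ζ :=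
      GCV.QP_map _
    refine hL (GCV.QP g a ⟨ζ, hζL⟩) x ?_ ?_
    · rw [← Polynomial.separable_map (algebraMap L K), h1]
      exact hsep
    · rw [← Polynomial.eval_map_algebraMap, h1, hS x hx]
  have hPtL : ∀ x (hx : x ∈ S), GCV.Pt g a (⟨ζ, hζL⟩ : L) ⟨x, hSL x hx⟩ := fun x hx =>
    GCV.Pt.of_map (algebraMap L K) (hPt x hx)
  have hder : ∀ x (hx : x ∈ S), δ (GCV.bb g a ⟨ζ, hζL⟩ ⟨x, hSL x hx⟩) =
      GCV.yy g a ⟨ζ, hζL⟩ ⟨x, hSL x hx⟩ := fun x hx => GCV.bb_der ha (hPtL x hx) δ hδ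
  have hbb : ∀ x (hx : x ∈ S), algebraMap L K (GCV.bb g a ⟨ζ, hζL⟩ ⟨x, hSL x hx⟩) =
      GCV.bb g a ζ x := fun x hx => GCV.bb_map _
  have hyy : ∀ x (hx : x ∈ S), algebraMap L K (GCV.yy g a ⟨ζ, hζL⟩ ⟨x, hSL x hx⟩) =
      GCV.yy g a ζ x := fun x hx => GCV.yy_map _
  have hinj : Set.InjOn (GCV.bb g a ζ) S := by
    intro x₁ hx₁ x₂ hx₂ h
    have hx₁ : x₁ ∈ S := hx₁
    have hx₂ : x₂ ∈ S := hx₂
    have h1 : GCV.bb g a (⟨ζ, hζL⟩ : L) ⟨x₁, hSL x₁ hx₁⟩ = GCV.bb g a ⟨ζ, hζL⟩ ⟨x₂, hSL x₂ hx₂⟩ :=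
      (algebraMap L K).injective (by rw [hbb x₁ hx₁, hbb x₂ hx₂, h])
    have h2 : GCV.yy g a (⟨ζ, hζL⟩ : L) ⟨x₁, hSL x₁ hx₁⟩ =
        GCV.yy g a ⟨ζ, hζL⟩ ⟨x₂, hSL x₂ hx₂⟩ := by
      rw [← hder x₁ hx₁, ← hder x₂ hx₂, h1]
    have h4 : GCV.yy g a ζ x₁ = GCV.yy g a ζ x₂ := by rw [← hyy x₁ hx₁, ← hyy x₂ hx₂, h2]
    exact GCV.eq_of ha hg (hTr x₁ hx₁) (hPt x₁ hx₁) (hPt x₂ hx₂) h4 h
  have hne : ∀ x ∈ S, GCV.bb g a ζ x ≠ 0 := by
    intro x hx h0
    have h1 : GCV.bb g a (⟨ζ, hζL⟩ : L) ⟨x, hSL x hx⟩ = 0 :=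
      (algebraMap L K).injective (by rw [hbb x hx, h0, map_zero])
    have h2 := hder x hx
    rw [h1, map_zero] at h2
    exact GCV.yy_ne (hPtL x hx) h2.symm
  obtain ⟨B, hB, hBd⟩ : ∃ B : Finset K, B.card = 8 * g + 8 ∧ ∀ b ∈ B, ∃ x y w : DualNumber K,
      y ^ 2 = x ^ a * w ∧ y * w = x ^ (g + 1) - x ∧
      w ^ 2 = (x ^ (g + 1 - a) - x ^ (1 - a)) * y ∧
      (x.snd ≠ 0 ∨ y.snd ≠ 0 ∨ w.snd ≠ 0) ∧
      x ^ (2 * g + 3) + TrivSqZeroExt.inl ζ * y = TrivSqZeroExt.inl b := by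
    have h1 : (S.image (GCV.bb g a ζ)).card = 8 * g + 8 - a := by
      rw [Finset.card_image_of_injOn hinj, hcard]
    have h2 : ∀ b ∈ S.image (GCV.bb g a ζ), ∃ x y w : DualNumber K,
        y ^ 2 = x ^ a * w ∧ y * w = x ^ (g + 1) - x ∧
        w ^ 2 = (x ^ (g + 1 - a) - x ^ (1 - a)) * y ∧
        (x.snd ≠ 0 ∨ y.snd ≠ 0 ∨ w.snd ≠ 0) ∧
        x ^ (2 * g + 3) + TrivSqZeroExt.inl ζ * y = TrivSqZeroExt.inl b := by
      intro b hb
      obtain ⟨x, hx, rfl⟩ := Finset.mem_image.1 hb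
      exact GCV.dual_eqs ha hg (hPt x hx)
    rcases (by omega : a = 0 ∨ a = 1) with ha0 | ha1
    · exact ⟨_, by rw [h1]; omega, h2⟩
    · refine ⟨insert 0 (S.image (GCV.bb g a ζ)), ?_, ?_⟩
      · rw [Finset.card_insert_of_notMem, h1]
        · omega
        · intro h0
          obtain ⟨x, hx, h0⟩ := Finset.mem_image.1 h0
          exact hne x hx h0
      · intro b hb
        rcases Finset.mem_insert.1 hb with rfl | hb
        · refine ⟨0, 0, TrivSqZeroExt.inr 1, ?_, ?_, ?_, ?_, ?_⟩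
          · rw [ha1]
            simp
          · simp
          · rw [ha1]
            simp [pow_two]
          · simp
          · simp
        · exact h2 b hb
  let e := B.equivFinOfCardEq hB
  refine ⟨fun l => (e.symm l : K), ?_, fun l => hBd _ (e.symm l).2⟩
  exact Subtype.val_injective.comp e.symm.injective

end Pool.Agent.MG.G0
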