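import Pool.Agent.MG.G0.StmtsG
import Pool.Agent.MG.G0.ZL.L1
import Pool.Agent.MG.G0.StmtsZL

/-!
# GDG: the Gram determinant vanishes at critical values
-/

open Polynomial

namespace Pool.Agent.MG.G0

namespace GDG

/-- A polynomial of the form `X ^ k * Q` with `Q(0) ≠ 0`. -/
theorem split {K : Type} [Field K] (P : K[X]) (hP : P ≠ 0) :
    ∃ (k : ℕ) (Q : K[X]), P = X ^ k * Q ∧ Q.eval 0 ≠ 0 := by
  obtain ⟨Q, h1, h2⟩ := P.exists_eq_pow_rootMultiplicity_mul_and_not_dvd hP 0
  refine ⟨P.rootMultiplicity 0, Q, ?_, ?_⟩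
  · simpa using h1
  · intro h
    exact h2 (dvd_iff_isRoot.2 h)

/-- An element of the dual numbers. -/
theorem dual {K : Type} [Field K] (x : DualNumber K) (Q : K[X]) (hx : x.fst = 0)
    (hQ : Q.eval 0 ≠ 0) (h : x * aeval x Q = 0) : x.snd = 0 := by
  have h1 : (aeval x Q).fst = Q.eval 0 := by
    have := (aeval_algHom_apply (TrivSqZeroExt.fstHom K K K) x Q)
    have h2 : (TrivSqZeroExt.fstHom K K K) x = 0 := hx
    rw [h2] at this
    have h3 : (TrivSqZeroExt.fstHom K K K) (aeval x Q) = (aeval x Q).fst := rfl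
    rw [← h3, ← this, Polynomial.coe_aeval_eq_eval]
  have h2 : (x * aeval x Q).snd = 0 := by rw [h]; rfl
  rw [TrivSqZeroExt.snd_mul, hx, zero_smul, zero_add, h1] at h2
  simpa [hQ] using h2

/-- Linear algebra: an algebra over `K[X]` with a finite basis. -/
theorem main {K : Type} [Field K] {R : Type} [CommRing R] [Algebra K R] [Algebra K[X] R]
    [IsScalarTower K K[X] R] {d : ℕ} (hd : (d : K) ≠ 0) (b : Module.Basis (Fin d) K[X] R)
    (G : Matrix (Fin d) (Fin d) K[X])
    (hG : ∀ i j, (d : K[X]) * G i j = (Algebra.leftMulMatrix b (b i * b j)).trace)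
    (β : K) (h : R →ₐ[K] DualNumber K) (hz : h (algebraMap K[X] R (X - C β)) = 0)
    (hf : ∃ f : R, (h f).snd ≠ 0) : G.det.eval β = 0 := by
  by_contra hdet
  obtain ⟨f0, hf0⟩ := hf
  set f : R := f0 - algebraMap K R (h f0).fst with hfdef
  have hf1 : (h f).fst = 0 := by
    rw [hfdef, map_sub, AlgHom.commutes]
    simp [TrivSqZeroExt.algebraMap_eq_inl]
  have hf2 : (h f).snd = (h f0).snd := by
    rw [hfdef, map_sub, AlgHom.commutes]
    simp [TrivSqZeroExt.algebraMap_eq_inl]
  set ρ : R →ₐ[K] Matrix (Fin d) (Fin d) K :=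
    ((Polynomial.aeval β : K[X] →ₐ[K] K).mapMatrix).comp
      ((Algebra.leftMulMatrix b).restrictScalars K) with hρ
  have hρtr : ∀ x : R, (ρ x).trace = ((Algebra.leftMulMatrix b x).trace).eval β := by
    intro x
    rw [hρ, Matrix.trace, Matrix.trace, eval_finsetSum]
    refine Finset.sum_congr rfl fun i _ => ?_
    simp [Polynomial.coe_aeval_eq_eval]
  obtain ⟨k, Q, hPQ, hQ⟩ := split (ρ f).charpoly (Matrix.charpoly_monic _).ne_zero
  set u : R := f * aeval f Q with hu
  have hnil : (ρ u) ^ (k + 1) = 0 := by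
    have h1 : aeval (ρ f) (ρ f).charpoly = 0 := Matrix.aeval_self_charpoly _
    rw [hPQ, map_mul, map_pow, aeval_X] at h1
    have h0 : u ^ (k + 1) = f * (f ^ k * aeval f Q) * (aeval f Q) ^ k := by
      rw [hu]
      ring_nf
    have h2 : ρ u ^ (k + 1) = ρ (f * (f ^ k * aeval f Q) * (aeval f Q) ^ k) := by
      rw [← map_pow, h0]
    rw [h2, map_mul, map_mul, map_mul, map_pow, ← aeval_algHom_apply, h1]
    simp
  have htr : ∀ y : R, (ρ (u * y)).trace = 0 := by
    intro y
    have h1 : IsNilpotent (ρ (u * y)) := by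
      refine ⟨k + 1, ?_⟩
      rw [← map_pow, mul_pow, map_mul, map_pow, hnil, zero_mul]
    exact (Matrix.isNilpotent_trace_of_isNilpotent h1).eq_zero
  set c : Fin d → K[X] := fun i => b.repr u i with hc
  have huc : u = ∑ i, c i • b i := (b.sum_repr u).symm
  have hlin : ∀ j, (Algebra.leftMulMatrix b (u * b j)).trace =
      ∑ i, c i * ((d : K[X]) * G i j) := by
    intro j
    have h1 : u * b j = ∑ i, c i • (b i * b j) := by
      conv_lhs => rw [huc]
      rw [Finset.sum_mul]
      exact Finset.sum_congr rfl fun i _ => smul_mul_assoc _ _ _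
    rw [h1, map_sum, Matrix.trace_sum]
    refine Finset.sum_congr rfl fun i _ => ?_
    rw [map_smul, Matrix.trace_smul, hG, smul_eq_mul]
  have hvec : Matrix.vecMul (fun i => (c i).eval β) (G.map (eval β)) = 0 := by
    ext j
    have h1 := htr (b j)
    rw [hρtr, hlin, eval_finsetSum] at h1
    have h2 : ∑ i, eval β (c i * ((d : K[X]) * G i j)) =
        (d : K) * ∑ i, (c i).eval β * (G i j).eval β := by
      rw [Finset.mul_sum]
      refine Finset.sum_congr rfl fun i _ => ?_
      rw [eval_mul, eval_mul, eval_natCast]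
      ring_nf
    rw [h2] at h1
    have h3 := (mul_eq_zero.1 h1).resolve_left hd
    simpa [Matrix.vecMul, dotProduct] using h3
  have hdet' : (G.map (eval β)).det ≠ 0 := by
    have h1 : (G.map (eval β)).det = G.det.eval β := by
      have := RingHom.map_det (evalRingHom β) G
      simpa using this.symm
    rw [h1]
    exact hdet
  have hc0 : ∀ i, (c i).eval β = 0 := fun i =>
    congrFun (Matrix.eq_zero_of_vecMul_eq_zero hdet' hvec) i
  have hhu : h u = 0 := by
    rw [huc, map_sum]
    refine Finset.sum_eq_zero fun i _ => ?_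
    obtain ⟨q, hq⟩ := dvd_iff_isRoot.2 (hc0 i)
    rw [hq, Algebra.smul_def, map_mul (algebraMap K[X] R), map_mul, map_mul, hz, zero_mul,
      zero_mul]
  have hfin : h f * aeval (h f) Q = 0 := by
    rw [aeval_algHom_apply, ← map_mul, ← hu, hhu]
  exact hf0 (hf2 ▸ dual (h f) Q hf1 hQ hfin)

end GDG

theorem t_GDG (h1 : Stmt_ZD1) : Stmt_GDG := by
  intro K _ g d hd hdK R hR z hz e G he hG β h hhz hf
  let alg : Algebra K[X] R := (aeval z : K[X] →ₐ[K] R).toRingHom.toAlgebra
  have hmap : ∀ p : K[X], algebraMap K[X] R p = aeval z p := fun p => rfl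
  have : IsScalarTower K K[X] R := IsScalarTower.of_algebraMap_eq fun a => by
    rw [hmap, Polynomial.algebraMap_eq, aeval_C]
  have hcoe : ∀ p : K[X], ((aeval z p : R) : LaurentSeries K) = zpol K d p := by
    intro p
    have := (aeval_algHom_apply R.val z p)
    have h2 : R.val z = zz K d := hz
    rw [h2] at this
    exact this.symm
  have hsmul : ∀ (p : K[X]) (x : R), ((p • x : R) : LaurentSeries K) =
      zpol K d p * (x : LaurentSeries K) := by
    intro p x
    rw [Algebra.smul_def, hmap, MulMemClass.coe_mul, hcoe]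
  set v : Fin d → R := fun i => ⟨e i, he.mem i⟩ with hv
  have hsum : ∀ c : Fin d → K[X], ((∑ i, c i • v i : R) : LaurentSeries K) =
      ∑ i, zpol K d (c i) * e i := by
    intro c
    rw [AddSubmonoidClass.coe_finsetSum]
    exact Finset.sum_congr rfl fun i _ => hsmul _ _
  have hli : LinearIndependent K[X] v := by
    rw [Fintype.linearIndependent_iff]
    intro c hc i
    have h2 := hsum c
    rw [hc] at h2
    obtain ⟨c0, hc0, hu⟩ := he.uni 0 R.zero_mem
    have h3 := hu c (by simpa using h2)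
    have h4 := hu 0 (by simp)
    rw [h3, ← h4]
    rfl
  have hsp : ⊤ ≤ Submodule.span K[X] (Set.range v) := by
    intro x _
    obtain ⟨c, hc, -⟩ := he.uni x x.2
    have h2 : x = ∑ i, c i • v i := Subtype.ext (by rw [hsum]; exact hc)
    rw [h2]
    exact Submodule.sum_mem _ fun i _ => Submodule.smul_mem _ _ (Submodule.subset_span ⟨i, rfl⟩)
  set b : Module.Basis (Fin d) K[X] R := Module.Basis.mk hli hsp with hb
  have hbv : ∀ i, b i = v i := fun i => by rw [hb, Module.Basis.mk_apply]
  refine GDG.main hdK b G ?_ β h ?_ hf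
  · intro i j
    have h2 := (h1 K g d R hd hR e he (e i * e j) (R.mul_mem (he.mem i) (he.mem j))).1
      (Algebra.leftMulMatrix b (b i * b j)).transpose ?_
    · rw [← hG, Matrix.trace_transpose] at h2
      apply ZL.ev_injective d hd.ne'
      refine Eq.trans ?_ h2
      simp [ZL.ev]
    · intro l
      have h3 : (b i * b j) * b l = ∑ m, (Algebra.leftMulMatrix b (b i * b j)) m l • b m := by
        conv_lhs => rw [← b.sum_repr ((b i * b j) * b l)]
        refine Finset.sum_congr rfl fun m _ => ?_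
        rw [Algebra.leftMulMatrix_eq_repr_mul]
      simp only [Matrix.transpose_apply]
      generalize (Algebra.leftMulMatrix b) (b i * b j) = M at h3 ⊢
      simp only [hbv] at h3
      have h4 := congrArg (fun x : R => (x : LaurentSeries K)) h3
      rw [hsum] at h4
      exact h4
  · rw [hmap, map_sub, aeval_X, aeval_C, map_sub, hhz, AlgHom.commutes]
    rw [TrivSqZeroExt.algebraMap_eq_inl]
    exact sub_self _

end Pool.Agent.MG.G0
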