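import Pool.Agent.MG.G0.StmtsG

/-!
# The derivation `d/dζ` of the separable closure of `F(ζ)` (module G0_GDV)
-/

open Polynomial TensorProduct

namespace Pool.Agent.MG.G0

namespace GDV

open KaehlerDifferential

theorem exists_der {F L : Type} [Field F] [Field L] [Algebra F L] (Q : Type) [Field Q]
    [Algebra F[X] Q] [IsFractionRing F[X] Q] [Algebra Q L] [Algebra F[X] L]
    [IsScalarTower F[X] Q L] [IsScalarTower F F[X] L] [Algebra.IsSeparable Q L] :
    ∃ δ : Derivation F L L, δ (algebraMap F[X] L X) = 1 := by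
  have h1 : Algebra.FormallyEtale F[X] Q :=
    Algebra.FormallyEtale.of_isLocalization (nonZeroDivisors F[X])
  have h2 : Algebra.FormallyEtale Q L := Algebra.FormallyEtale.of_isSeparable Q L
  have h3 : Algebra.FormallyEtale F[X] L := Algebra.FormallyEtale.comp F[X] Q L
  let Ψ := (tensorKaehlerEquivOfFormallyEtale F F[X] L).symm ≪≫ₗ
    (AlgebraTensorModule.congr (LinearEquiv.refl L L) (polynomialEquiv F)) ≪≫ₗ
    (AlgebraTensorModule.rid F[X] L L)
  refine ⟨Ψ.toLinearMap.compDer (D F L), ?_⟩
  show Ψ (D F L (algebraMap F[X] L X)) = 1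
  have h4 := tensorKaehlerEquivOfFormallyEtale_symm_D_algebraMap F F[X] L X
  simp only [Ψ, LinearEquiv.trans_apply, h4, AlgebraTensorModule.congr_tmul,
    LinearEquiv.refl_apply, polynomialEquiv_D, derivative_X, AlgebraTensorModule.rid_tmul,
    one_smul]

end GDV

theorem t_GDV : Stmt_GDV := by
  intro F K _ _ _ ζ hζ
  let iK : Algebra F[X] K := (aeval ζ : F[X] →ₐ[F] K).toRingHom.toAlgebra
  have hst : IsScalarTower F F[X] K := IsScalarTower.of_algebraMap_eq' (by
    ext a
    change algebraMap F K a = aeval ζ (C a)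
    simp)
  have hinj : Function.Injective (algebraMap F[X] K) := transcendental_iff_injective.1 hζ
  have hf : FaithfulSMul F[X] K := (faithfulSMul_iff_algebraMap_injective F[X] K).2 hinj
  let iQ : Algebra (FractionRing F[X]) K := FractionRing.liftAlgebra F[X] K
  have hst2 : IsScalarTower F[X] (FractionRing F[X]) K := inferInstance
  have hst3 : IsScalarTower F (FractionRing F[X]) K := IsScalarTower.of_algebraMap_eq (by
    intro a
    rw [IsScalarTower.algebraMap_apply F F[X] (FractionRing F[X]),
      ← IsScalarTower.algebraMap_apply F[X] (FractionRing F[X]) K,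
      ← IsScalarTower.algebraMap_apply F F[X] K])
  let L₀ : IntermediateField (FractionRing F[X]) K := separableClosure (FractionRing F[X]) K
  have hX : algebraMap F[X] K X = ζ := by
    change aeval ζ X = ζ
    simp
  have hz : ζ ∈ L₀ := by
    rw [← hX, IsScalarTower.algebraMap_apply F[X] (FractionRing F[X]) K]
    exact L₀.algebraMap_mem _
  have hst4 : IsScalarTower F F[X] L₀ := IsScalarTower.of_algebraMap_eq fun a => by
    apply Subtype.ext
    show algebraMap F K a = algebraMap F[X] K (algebraMap F F[X] a)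
    rw [← IsScalarTower.algebraMap_apply F F[X] K]
  obtain ⟨δ, hδ⟩ := GDV.exists_der (F := F) (L := L₀) (FractionRing F[X])
  refine ⟨L₀.restrictScalars F, hz, δ, ?_, ?_⟩
  · have h1 : algebraMap F[X] L₀ X = ⟨ζ, hz⟩ := Subtype.ext hX
    rw [h1] at hδ
    exact hδ
  · intro q x hq hx
    have h1 : IsSeparable L₀ x := by
      have h2 : (minpoly L₀ x) ∣ q := minpoly.dvd L₀ x hx
      exact hq.of_dvd h2
    have h3 : x ∈ separableClosure L₀ K := mem_separableClosure_iff.2 h1
    rw [separableClosure.separableClosure_eq_bot, IntermediateField.mem_bot] at h3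
    obtain ⟨y, rfl⟩ := h3
    exact y.2

end Pool.Agent.MG.G0
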