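import Pool.Agent.MG.G0.GST

/-!
# The special curve is superspecial (PAPER_G.md, GFR)
-/

namespace Pool.Agent.MG.G0

open ZL

namespace GFR

section

variable {A : Type} [CommRing A]

/-- All exponents of `F` are congruent to `c` modulo `D`. -/
def Cls (D c : ℤ) (F : LaurentSeries A) : Prop := ∀ n : ℤ, F.coeff n ≠ 0 → D ∣ n - c

theorem Cls.mul {D c c' : ℤ} {F G : LaurentSeries A} (hF : Cls D c F) (hG : Cls D c' G) :
    Cls D (c + c') (F * G) := by
  intro n hn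
  obtain ⟨a, ha⟩ := exists_low F
  obtain ⟨b, hb⟩ := exists_low G
  rw [coeff_mul_Icc ha hb] at hn
  obtain ⟨i, _, hi⟩ := Finset.exists_ne_zero_of_sum_ne_zero hn
  have h1 := hF i (left_ne_zero_of_mul hi)
  have h2 := hG (n - i) (right_ne_zero_of_mul hi)
  have h3 : n - (c + c') = (i - c) + (n - i - c') := by ring
  rw [h3]
  exact dvd_add h1 h2

theorem Cls.sub {D c : ℤ} {F G : LaurentSeries A} (hF : Cls D c F) (hG : Cls D c G) :
    Cls D c (F - G) := by
  intro n hn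
  rw [HahnSeries.coeff_sub] at hn
  by_cases h : F.coeff n = 0
  · exact hG n (fun h' => hn (by rw [h, h', sub_zero]))
  · exact hF n h

theorem Cls.congr {D c c' : ℤ} {F : LaurentSeries A} (hF : Cls D c F) (h : D ∣ c - c') :
    Cls D c' F := by
  intro n hn
  have h3 : n - c' = (n - c) + (c - c') := by ring
  rw [h3]
  exact dvd_add (hF n hn) h

theorem Cls.single (D n : ℤ) (a : A) : Cls D n (HahnSeries.single n a) := by
  intro m hm
  by_cases h : m = n
  · rw [h, sub_self]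
    exact dvd_zero _
  · exact absurd (HahnSeries.coeff_single_of_ne h) hm

theorem Cls.one (D : ℤ) : Cls D 0 (1 : LaurentSeries A) := Cls.single D 0 1

theorem Cls.pow {D c : ℤ} {F : LaurentSeries A} (hF : Cls D c F) (k : ℕ) :
    Cls D (k * c) (F ^ k) := by
  induction k with
  | zero =>
    rw [pow_zero, Nat.cast_zero, zero_mul]
    exact Cls.one D
  | succ k ih =>
    rw [pow_succ]
    have h := ih.mul hF
    have e : (k : ℤ) * c + c = ((k + 1 : ℕ) : ℤ) * c := by push_cast; ring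
    rwa [e] at h

theorem Cls.of_pr {c : ℤ} {F : LaurentSeries A} (h : pr (c : ZMod 3) F = F) : Cls 3 c F := by
  intro n hn
  by_contra hc
  apply hn
  rw [← h, pr_coeff_ne]
  intro h1
  exact hc (by
    have h2 : (((n - c : ℤ)) : ZMod 3) = 0 := by
      push_cast
      rw [h1, sub_self]
    exact_mod_cast (ZMod.intCast_zmod_eq_zero_iff_dvd (n - c) 3).1 h2)

theorem Cls.coeff_eq_zero {D c n : ℤ} {F : LaurentSeries A} (h : Cls D c F) (hn : ¬ D ∣ n - c) :
    F.coeff n = 0 := by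
  by_contra h1
  exact hn (h n h1)

variable (S : SCD A)

theorem clsY : Cls 3 (-(S.n1 : ℤ)) S.Y := Cls.of_pr (by
  have := GST.pr_Y S
  push_cast at this ⊢
  exact this)

theorem clsYi : Cls 3 (S.n1 : ℤ) S.Yi := Cls.of_pr (GST.pr_Yi S)

theorem clsW : Cls 3 (S.n1 : ℤ) S.W := Cls.of_pr (GST.pr_W S)

theorem clsWi : Cls 3 (-(S.n1 : ℤ)) S.Wi := Cls.of_pr (by
  have := GST.pr_Wi S
  push_cast at this ⊢
  exact this)

theorem cls_pA (D : ℤ) : Cls D (-(3 * S.a : ℤ)) (zpol A 3 S.pA) := by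
  rw [GST.ev_pA]
  exact Cls.single _ _ _

theorem cls_pD : Cls (3 * S.g : ℤ) (-3) (zpol A 3 S.pD) := by
  rw [GST.ev_pD]
  refine Cls.sub (Cls.congr (Cls.single _ _ _) ?_) (Cls.single _ _ _)
  exact ⟨-1, by ring⟩

theorem cls_pB : Cls (3 * S.g : ℤ) (-(3 - 3 * S.a : ℤ)) (zpol A 3 S.pB) := by
  rw [GST.ev_pB]
  refine Cls.sub (Cls.congr (Cls.single _ _ _) ?_) (Cls.single _ _ _)
  exact ⟨-1, by ring⟩

/-- The class modulo three of a series in `σ^3`. -/
theorem Cls.three {D c : ℤ} {F : LaurentSeries A} (h : Cls D c F) (hD : (3 : ℤ) ∣ D)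
    (hc : (3 : ℤ) ∣ c) : Cls 3 0 F := by
  intro n hn
  have h1 := hD.trans (h n hn)
  omega

theorem not_dvd_n1 : ¬ (3 : ℤ) ∣ (S.n1 : ℤ) := by
  intro h
  exact (GST.n_div S).2.1 (by exact_mod_cast h)

/-- The functions whose `p`-th power is in `R + A[[σ]]`. -/
def Good (p : ℕ) (f : LaurentSeries A) : Prop := ∃ h ∈ S.R, f ^ p - h ∈ Po A 0

variable {S}

theorem Good.add {p : ℕ} [Fact p.Prime] [CharP (LaurentSeries A) p] {f f' : LaurentSeries A}
    (h : Good S p f) (h' : Good S p f') : Good S p (f + f') := by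
  obtain ⟨x, hx, hx'⟩ := h
  obtain ⟨y, hy, hy'⟩ := h'
  refine ⟨x + y, add_mem hx hy, ?_⟩
  rw [add_pow_char]
  have e : f ^ p + f' ^ p - (x + y) = (f ^ p - x) + (f' ^ p - y) := by ring
  rw [e]
  exact add_mem hx' hy'

theorem Good.of_mem {p : ℕ} {f : LaurentSeries A} (h : f ∈ S.R) : Good S p f :=
  ⟨f ^ p, pow_mem h p, by rw [sub_self]; exact zero_mem _⟩

theorem Good.of_Po {p : ℕ} {f : LaurentSeries A} (h : f ∈ Po A 0) : Good S p f :=
  ⟨0, zero_mem _, by
    rw [sub_zero]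
    have := pow_mem_Pl h p
    rwa [mul_zero] at this⟩

theorem Good.zero {p : ℕ} : Good S p 0 := Good.of_mem (zero_mem _)

theorem Good.sum {p : ℕ} [Fact p.Prime] [CharP (LaurentSeries A) p] {ι : Type} (s : Finset ι)
    (f : ι → LaurentSeries A) (h : ∀ i ∈ s, Good S p (f i)) : Good S p (∑ i ∈ s, f i) :=
  Finset.sum_induction f (Good S p) (fun _ _ => Good.add) Good.zero h

variable (S)

theorem m_dvd {p m : ℕ} (hm : p = 3 * m + 2) (hp : p % (3 * S.g) = 3 * S.g - 1) :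
    (3 * S.g : ℤ) ∣ 3 * m + 3 := by
  have hg := S.hg
  have h1 := Nat.div_add_mod p (3 * S.g)
  rw [hp] at h1
  refine ⟨(p / (3 * S.g) : ℕ) + 1, ?_⟩
  have h2 : ((3 * S.g * (p / (3 * S.g)) + (3 * S.g - 1) : ℕ) : ℤ) = (3 * m + 2 : ℕ) := by
    rw [h1, hm]
  have h3 : ((3 * S.g - 1 : ℕ) : ℤ) = 3 * S.g - 1 := by omega
  rw [Nat.cast_add, h3] at h2
  push_cast at h2 ⊢
  linarith

/-- The arithmetic of the exponents. -/
theorem arith {g i j n n' : ℤ} (hi : 1 ≤ i) (hi' : 3 * i < n) (hj : 1 ≤ j) (hj' : 3 * j < n')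
    (hn : n + n' = 3 * (g + 1)) (hn3 : ¬ (3 : ℤ) ∣ n) (h : 3 * g ∣ 3 * j - (3 - 3 * i)) : False := by
  obtain ⟨k, hk⟩ := h
  have h1 : j = 1 - i + g * k := by linarith
  have hg : 0 < g := by omega
  have hk1 : 0 < k := by
    by_contra hc
    have : g * k ≤ 0 := mul_nonpos_of_nonneg_of_nonpos hg.le (not_lt.1 hc)
    omega
  have h2 : g ≤ g * k := by nlinarith
  omega

theorem goodY {p m : ℕ} (hm : p = 3 * m + 2) (hp : p % (3 * S.g) = 3 * S.g - 1) (i : ℕ)
    (hi : 1 ≤ i) (hi' : 3 * i < S.n1) (c : A) :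
    Good S p (HahnSeries.single (3 * i : ℤ) c * S.Y) := by
  have hn3 := not_dvd_n1 S
  have hpow : (HahnSeries.single (3 * i : ℤ) c * S.Y) ^ p =
      (HahnSeries.single (p * (3 * i) : ℤ) (c ^ p) * (zpol A 3 S.pA * zpol A 3 S.pD) ^ m *
        zpol A 3 S.pA) * S.W := by
    have h3 : S.Y ^ 3 = zpol A 3 S.pA * zpol A 3 S.pD := by
      rw [pow_succ, GST.Y_sq, mul_assoc, mul_comm S.W, GST.Y_mul_W]
    have h4 : S.Y ^ p = (zpol A 3 S.pA * zpol A 3 S.pD) ^ m * (zpol A 3 S.pA * S.W) := by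
      rw [hm, pow_add, pow_mul, h3, GST.Y_sq]
    rw [mul_pow, HahnSeries.single_pow, nsmul_eq_mul, h4]
    ring
  have hcls : Cls (3 * S.g : ℤ) (3 - 3 * i) (HahnSeries.single (p * (3 * i) : ℤ) (c ^ p) *
      (zpol A 3 S.pA * zpol A 3 S.pD) ^ m * zpol A 3 S.pA) := by
    refine Cls.congr (((Cls.single (3 * S.g : ℤ) (p * (3 * i) : ℤ) (c ^ p)).mul
      (((cls_pA S _).mul (cls_pD S)).pow m)).mul (cls_pA S _)) ?_
    have h1 := m_dvd S hm hp
    have e : (p * (3 * i) : ℤ) + m * (-(3 * S.a) + -3) + -(3 * S.a) - (3 - 3 * i) =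
        (3 * m + 3) * (3 * i - S.a - 1) := by
      rw [hm]
      push_cast
      ring
    rw [e]
    exact Dvd.dvd.mul_right h1 _
  have hcls3 := hcls.three (Dvd.intro _ rfl) ⟨1 - i, by ring⟩
  refine (GST.crit S _).2 ⟨?_, ?_⟩
  · intro i' _ _
    rw [hpow, mul_assoc]
    refine Cls.coeff_eq_zero (hcls3.mul ((clsW S).mul (clsYi S))) ?_
    omega
  · intro j hj hj'
    rw [hpow, mul_assoc, mul_comm S.W, GST.Wi_mul_W, mul_one]
    refine Cls.coeff_eq_zero hcls fun h => ?_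
    exact arith (g := S.g) (i := i) (j := j) (n := S.n1) (n' := S.n2) (by omega) (by omega)
      (by omega) (by omega) (GST.n_add S) hn3 h

theorem goodW {p m : ℕ} (hm : p = 3 * m + 2) (hp : p % (3 * S.g) = 3 * S.g - 1) (i : ℕ)
    (hi : 1 ≤ i) (hi' : 3 * i < S.n2) (c : A) :
    Good S p (HahnSeries.single (3 * i : ℤ) c * S.W) := by
  have hn3 := not_dvd_n1 S
  have hna := GST.n_add S
  have hpow : (HahnSeries.single (3 * i : ℤ) c * S.W) ^ p =
      (HahnSeries.single (p * (3 * i) : ℤ) (c ^ p) * (zpol A 3 S.pB * zpol A 3 S.pD) ^ m *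
        zpol A 3 S.pB) * S.Y := by
    have h3 : S.W ^ 3 = zpol A 3 S.pB * zpol A 3 S.pD := by
      rw [pow_succ, GST.W_sq, mul_assoc, GST.Y_mul_W]
    have h4 : S.W ^ p = (zpol A 3 S.pB * zpol A 3 S.pD) ^ m * (zpol A 3 S.pB * S.Y) := by
      rw [hm, pow_add, pow_mul, h3, GST.W_sq]
    rw [mul_pow, HahnSeries.single_pow, nsmul_eq_mul, h4]
    ring
  have hcls : Cls (3 * S.g : ℤ) (3 - 3 * i) (HahnSeries.single (p * (3 * i) : ℤ) (c ^ p) *
      (zpol A 3 S.pB * zpol A 3 S.pD) ^ m * zpol A 3 S.pB) := by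
    refine Cls.congr (((Cls.single (3 * S.g : ℤ) (p * (3 * i) : ℤ) (c ^ p)).mul
      (((cls_pB S).mul (cls_pD S)).pow m)).mul (cls_pB S)) ?_
    have h1 := m_dvd S hm hp
    have e : (p * (3 * i) : ℤ) + m * (-(3 - 3 * S.a) + -3) + -(3 - 3 * S.a) - (3 - 3 * i) =
        (3 * m + 3) * (3 * i - 2 + S.a) := by
      rw [hm]
      push_cast
      ring
    rw [e]
    exact Dvd.dvd.mul_right h1 _
  have hcls3 := hcls.three (Dvd.intro _ rfl) ⟨1 - i, by ring⟩
  refine (GST.crit S _).2 ⟨?_, ?_⟩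
  · intro j hj hj'
    rw [hpow, mul_assoc, mul_comm S.Y, GST.Yi_mul_Y, mul_one]
    refine Cls.coeff_eq_zero hcls fun h => ?_
    exact arith (g := S.g) (i := i) (j := j) (n := S.n2) (n' := S.n1) (by omega) (by omega)
      (by omega) (by omega) (by rw [add_comm]; exact hna) (by omega) h
  · intro i' _ _
    rw [hpow, mul_assoc]
    refine Cls.coeff_eq_zero (hcls3.mul ((clsY S).mul (clsWi S))) ?_
    omega

/-- The part of `f` with exponents `3 i`, `1 ≤ i`, `3 i < n`. -/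
noncomputable def mid (n : ℕ) (f : LaurentSeries A) : LaurentSeries A :=
  ∑ i ∈ (Finset.range n).filter fun i => 1 ≤ i ∧ 3 * i < n,
    HahnSeries.single (3 * i : ℤ) (f.coeff (3 * i))

theorem mid_coeff (n : ℕ) (f : LaurentSeries A) (i : ℕ) (hi : 1 ≤ i) (hi' : 3 * i < n) :
    (mid n f).coeff (3 * i) = f.coeff (3 * i) := by
  classical
  rw [mid, HahnSeries.coeff_sum, Finset.sum_eq_single i]
  · rw [HahnSeries.coeff_single_same]
  · intro j _ hj
    rw [HahnSeries.coeff_single_of_ne]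
    omega
  · intro h
    exfalso
    apply h
    rw [Finset.mem_filter, Finset.mem_range]
    omega

theorem mid_cls (n : ℕ) (f : LaurentSeries A) : Cls 3 0 (mid n f) := by
  intro m hm
  rw [mid, HahnSeries.coeff_sum] at hm
  obtain ⟨i, _, hi⟩ := Finset.exists_ne_zero_of_sum_ne_zero hm
  have := Cls.single 3 (3 * i : ℤ) _ m hi
  omega

theorem good {p : ℕ} [Fact p.Prime] [CharP (LaurentSeries A) p]
    (hp : p % (3 * S.g) = 3 * S.g - 1) (f : LaurentSeries A) : Good S p f := by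
  have hg := S.hg
  have hn3 := not_dvd_n1 S
  obtain ⟨m, hm⟩ : ∃ m, p = 3 * m + 2 := by
    have h1 := Nat.div_add_mod p (3 * S.g)
    rw [hp] at h1
    refine ⟨S.g * (p / (3 * S.g)) + (S.g - 1), ?_⟩
    have e : 3 * (S.g * (p / (3 * S.g)) + (S.g - 1)) + 2 =
        3 * S.g * (p / (3 * S.g)) + (3 * S.g - 1) := by
      rw [mul_add, ← mul_assoc]
      omega
    rw [e, h1]
  have e : f = (f - mid S.n1 (f * S.Yi) * S.Y - mid S.n2 (f * S.Wi) * S.W) +
      (mid S.n1 (f * S.Yi) * S.Y + mid S.n2 (f * S.Wi) * S.W) := by ring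
  obtain ⟨h, hR, h0⟩ := (GST.crit S (f - mid S.n1 (f * S.Yi) * S.Y -
      mid S.n2 (f * S.Wi) * S.W)).2 (by
    constructor
    · intro i hi hi'
      have e1 : (f - mid S.n1 (f * S.Yi) * S.Y - mid S.n2 (f * S.Wi) * S.W) * S.Yi =
          f * S.Yi - mid S.n1 (f * S.Yi) - mid S.n2 (f * S.Wi) * (S.W * S.Yi) := by
        linear_combination (-mid S.n1 (f * S.Yi)) * GST.Yi_mul_Y S
      rw [e1, HahnSeries.coeff_sub, HahnSeries.coeff_sub, mid_coeff _ _ i hi hi', sub_self, zero_sub,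
        Cls.coeff_eq_zero ((mid_cls _ _).mul ((clsW S).mul (clsYi S))) (by omega), neg_zero]
    · intro i hi hi'
      have e1 : (f - mid S.n1 (f * S.Yi) * S.Y - mid S.n2 (f * S.Wi) * S.W) * S.Wi =
          f * S.Wi - mid S.n2 (f * S.Wi) - mid S.n1 (f * S.Yi) * (S.Y * S.Wi) := by
        linear_combination (-mid S.n2 (f * S.Wi)) * GST.Wi_mul_W S
      rw [e1, HahnSeries.coeff_sub, HahnSeries.coeff_sub, mid_coeff _ _ i hi hi', sub_self, zero_sub,
        Cls.coeff_eq_zero ((mid_cls _ _).mul ((clsY S).mul (clsWi S))) (by omega), neg_zero])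
  have e2 : f - mid S.n1 (f * S.Yi) * S.Y - mid S.n2 (f * S.Wi) * S.W =
      h + (f - mid S.n1 (f * S.Yi) * S.Y - mid S.n2 (f * S.Wi) * S.W - h) := by ring
  rw [e]
  refine Good.add ?_ (Good.add ?_ ?_)
  · rw [e2]
    exact Good.add (Good.of_mem hR) (Good.of_Po h0)
  · rw [mid, Finset.sum_mul]
    refine Good.sum _ _ fun i hi => ?_
    rw [Finset.mem_filter] at hi
    exact goodY S hm hp i hi.2.1 hi.2.2 _
  · rw [mid, Finset.sum_mul]
    refine Good.sum _ _ fun i hi => ?_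
    rw [Finset.mem_filter] at hi
    exact goodW S hm hp i hi.2.1 hi.2.2 _

end

end GFR

theorem t_GFR (_h1 : Stmt_GST) : Stmt_GFR := by
  intro A _ S p hp hA hpg
  have : Fact p.Prime := ⟨hp⟩
  have hinj : Function.Injective (algebraMap A (LaurentSeries A)) := by
    intro a b hab
    have := congrArg (fun f : LaurentSeries A => f.coeff 0) hab
    simpa [coeff_algebraMap] using this
  have : CharP (LaurentSeries A) p := charP_of_injective_ringHom hinj p
  exact fun f => GFR.good S hpg f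

end Pool.Agent.MG.G0
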