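import Pool.Agent.MG.G0.StmtsG

/-!
# GFS: the special curve is smooth
-/

open Polynomial

namespace Pool.Agent.MG.G0

namespace GFS

/-- Correction of an approximate solution. -/
theorem solve {B : Type} [CommRing B] (I : Ideal B) (hI : ∀ p ∈ I, ∀ q ∈ I, p * q = 0)
    (pa pb : B[X]) (x y w : B) (h1 : y ^ 2 - pa.eval x * w ∈ I)
    (h2 : y * w - pa.eval x * pb.eval x ∈ I) (h3 : w ^ 2 - pb.eval x * y ∈ I) (c u v s : B)
    (hc : 3 * c = 1)
    (hu : u * (pa.eval x * pb.eval x) + v * (pa.eval x * (2 * (derivative pa).eval x * pb.eval x +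
      pa.eval x * (derivative pb).eval x)) + s * (pb.eval x * ((derivative pa).eval x * pb.eval x +
      2 * pa.eval x * (derivative pb).eval x)) = 1) :
    ∃ x' y' w' : B, x' - x ∈ I ∧ y' - y ∈ I ∧ w' - w ∈ I ∧ y' ^ 2 = pa.eval x' * w' ∧
      y' * w' = pa.eval x' * pb.eval x' ∧ w' ^ 2 = pb.eval x' * y' := by
  generalize ha : pa.eval x = a at *
  generalize hb : pb.eval x = b at *
  generalize ha' : (derivative pa).eval x = a' at *
  generalize hb' : (derivative pb).eval x = b' at *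
  have m1 : ∀ r, r * (y ^ 2 - a * w) ∈ I := fun r => I.mul_mem_left r h1
  have m2 : ∀ r, r * (y * w - a * b) ∈ I := fun r => I.mul_mem_left r h2
  have m3 : ∀ r, r * (w ^ 2 - b * y) ∈ I := fun r => I.mul_mem_left r h3
  have p11 := hI _ h1 _ h1
  have p12 := hI _ h1 _ h2
  have p13 := hI _ h1 _ h3
  have p22 := hI _ h2 _ h2
  have p23 := hI _ h2 _ h3
  have p33 := hI _ h3 _ h3
  obtain ⟨α, hα⟩ : ∃ α, α = v * (a * (y * w - a * b) + y * (y ^ 2 - a * w)) +
    s * (b * (y * w - a * b) + w * (w ^ 2 - b * y)) := ⟨_, rfl⟩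
  obtain ⟨β, hβ⟩ : ∃ β, β = -(u * c) * (y * (y * w - a * b) + w * (y ^ 2 - a * w)) +
    s * ((a' * b + a * b') * (w ^ 2 - b * y) - b' * y * (y * w - a * b)) := ⟨_, rfl⟩
  obtain ⟨γ, hγ⟩ : ∃ γ, γ = -(u * c) * (w * (y * w - a * b) + y * (w ^ 2 - b * y)) +
    v * ((a' * b + a * b') * (y ^ 2 - a * w) - a' * w * (y * w - a * b)) := ⟨_, rfl⟩
  have mα : α ∈ I := by
    rw [hα]
    exact add_mem (I.mul_mem_left _ (add_mem (m2 _) (m1 _)))
      (I.mul_mem_left _ (add_mem (m2 _) (m3 _)))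
  have mβ : β ∈ I := by
    rw [hβ]
    exact add_mem (I.mul_mem_left _ (add_mem (m2 _) (m1 _)))
      (I.mul_mem_left _ (sub_mem (m3 _) (m2 _)))
  have mγ : γ ∈ I := by
    rw [hγ]
    exact add_mem (I.mul_mem_left _ (add_mem (m2 _) (m3 _)))
      (I.mul_mem_left _ (sub_mem (m1 _) (m2 _)))
  have qαα := hI _ mα _ mα
  have qαβ := hI _ mα _ mβ
  have qαγ := hI _ mα _ mγ
  have qββ := hI _ mβ _ mβ
  have qβγ := hI _ mβ _ mγ
  have qγγ := hI _ mγ _ mγ
  have hα2 : α ^ 2 = 0 := by rw [pow_two, qαα]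
  have ta : pa.eval (x + α) = a + a' * α := by
    rw [eval_add_of_sq_eq_zero _ _ _ hα2, ha, ha']
  have tb : pb.eval (x + α) = b + b' * α := by
    rw [eval_add_of_sq_eq_zero _ _ _ hα2, hb, hb']
  refine ⟨x + α, y + β, w + γ, ?_, ?_, ?_, ?_, ?_, ?_⟩
  · rw [add_sub_cancel_left]
    exact mα
  · rw [add_sub_cancel_left]
    exact mβ
  · rw [add_sub_cancel_left]
    exact mγ
  · rw [ta]
    have l1 : (y ^ 2 - a * w) + 2 * y * β - a * γ - a' * w * α = 0 := by
      rw [hα, hβ, hγ]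
      linear_combination (-(y ^ 2 - a * w)) * hu - u * (a * b) * (y ^ 2 - a * w) * hc -
        4 * u * c * p12 - v * a' * p12 - 2 * s * b' * p12 - s * a' * p33
    linear_combination l1 + qββ - a' * qαγ
  · rw [ta, tb]
    have l2 : (y * w - a * b) + y * γ + w * β - (a' * b + a * b') * α = 0 := by
      rw [hα, hβ, hγ]
      linear_combination (-(y * w - a * b)) * hu - u * (a * b) * (y * w - a * b) * hc -
        3 * u * c * p22 - u * c * p13 - v * a' * p22 - s * b' * p22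
    linear_combination l2 + qβγ - a' * b' * qαα
  · rw [tb]
    have l3 : (w ^ 2 - b * y) + 2 * w * γ - b * β - b' * y * α = 0 := by
      rw [hα, hβ, hγ]
      linear_combination (-(w ^ 2 - b * y)) * hu - u * (a * b) * (w ^ 2 - b * y) * hc -
        4 * u * c * p23 - 2 * v * a' * p23 - v * b' * p11 - s * b' * p23
    linear_combination l3 + qγγ - b' * qαβ

theorem mulAB {B : Type} [CommRing B] (x : B) (g a : ℕ) (ha : a ≤ 1) :
    x ^ a * (x ^ (g + 1 - a) - x ^ (1 - a)) = x ^ (g + 1) - x := by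
  rw [mul_sub, ← pow_add, ← pow_add]
  have e1 : a + (g + 1 - a) = g + 1 := by omega
  have e2 : a + (1 - a) = 1 := by omega
  rw [e1, e2, pow_one]

/-- The Bezout identity. -/
theorem bez {B : Type} [CommRing B] (x gi : B) (g a : ℕ) (hg : 1 ≤ g) (ha : a ≤ 1)
    (hgi : (g : B) * gi = 1) (pa pb : B[X]) (hpa : pa = X ^ a)
    (hpb : pb = X ^ (g + 1 - a) - X ^ (1 - a)) : ∃ u v s : B,
    u * (pa.eval x * pb.eval x) + v * (pa.eval x * (2 * (derivative pa).eval x * pb.eval x +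
      pa.eval x * (derivative pb).eval x)) + s * (pb.eval x * ((derivative pa).eval x * pb.eval x +
      2 * pa.eval x * (derivative pb).eval x)) = 1 := by
  obtain ⟨n, rfl⟩ : ∃ n, g = n + 1 := ⟨g - 1, by omega⟩
  have hgi' : ((n : B) + 1) * gi = 1 := by
    rw [Nat.cast_add, Nat.cast_one] at hgi
    exact hgi
  rcases (by omega : a = 0 ∨ a = 1) with rfl | rfl
  · have e1 : pa.eval x = 1 := by rw [hpa]; simp
    have e2 : (derivative pa).eval x = 0 := by rw [hpa]; simp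
    have e3 : pb.eval x = x ^ n * x ^ 2 - x := by
      rw [hpb]
      simp only [Nat.sub_zero, eval_sub, eval_pow, eval_X, pow_one]
      ring
    have e4 : (derivative pb).eval x = ((n : B) + 2) * (x ^ n * x) - 1 := by
      rw [hpb]
      simp only [Nat.sub_zero, pow_one, derivative_sub, derivative_X_pow, derivative_X, eval_sub,
        eval_mul, eval_C, eval_pow, eval_X, eval_one, Nat.add_sub_cancel]
      push_cast
      ring
    rw [e1, e2, e3, e4]
    refine ⟨-(((n : B) + 2) ^ 2 * gi * x ^ n), ((n : B) + 2) * gi * (x ^ n * x) - 1, 0, ?_⟩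
    linear_combination (x * x ^ n * ((n : B) + 2)) * hgi'
  · have e1 : pa.eval x = x := by rw [hpa]; simp
    have e2 : (derivative pa).eval x = 1 := by rw [hpa]; simp
    have e3 : pb.eval x = x ^ n * x - 1 := by
      rw [hpb]
      simp only [Nat.add_sub_cancel, Nat.sub_self, eval_sub, eval_pow, eval_X, pow_zero, eval_one]
      ring
    have e4 : (derivative pb).eval x = ((n : B) + 1) * x ^ n := by
      rw [hpb]
      simp only [Nat.add_sub_cancel, Nat.sub_self, pow_zero, derivative_sub, derivative_X_pow,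
        derivative_one, eval_sub, eval_mul, eval_C, eval_pow, eval_X, eval_zero, sub_zero]
      push_cast
      ring
    rw [e1, e2, e3, e4]
    refine ⟨((n : B) + 3) * (x ^ n * gi) *
      ((2 * (n : B) + 3) * (x ^ n * x) - (2 * (n : B) + 4)),
      -((x ^ n * gi) * ((2 * (n : B) + 3) * (x ^ n * x) - (2 * (n : B) + 4))), 1, ?_⟩
    linear_combination (-(x ^ n * x) *
      ((2 * (n : B) + 3) * (x ^ n * x) - (2 * (n : B) + 4))) * hgi'

end GFS

theorem t_GFS (h1 : Stmt_GST) (h2 : Stmt_GLF) : Stmt_GFS := by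
  intro A _ S
  obtain ⟨r1, r2, r3, -⟩ := h1 S
  have q1 : S.y ^ 2 = S.x ^ S.a * S.w := by
    refine Subtype.ext ?_
    change S.Y ^ 2 = zz A 3 ^ S.a * S.W
    rw [r1]
    simp [zpol, SCD.pA]
  have q2 : S.y * S.w = S.x ^ (S.g + 1) - S.x := by
    refine Subtype.ext ?_
    change S.Y * S.W = zz A 3 ^ (S.g + 1) - zz A 3
    rw [r2]
    simp [zpol, SCD.pD]
  have q3 : S.w ^ 2 = (S.x ^ (S.g + 1 - S.a) - S.x ^ (1 - S.a)) * S.y := by
    refine Subtype.ext ?_
    change S.W ^ 2 = (zz A 3 ^ (S.g + 1 - S.a) - zz A 3 ^ (1 - S.a)) * S.Y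
    rw [r3]
    simp [zpol, SCD.pB]
  refine Algebra.FormallySmooth.of_comp_surjective ?_
  intro B _ _ I hI f
  have hI' : ∀ p ∈ I, ∀ q ∈ I, p * q = 0 := by
    intro p hp q hq
    have : p * q ∈ I ^ 2 := by
      rw [pow_two]
      exact Ideal.mul_mem_mul hp hq
    rw [hI] at this
    exact this
  obtain ⟨x, hx⟩ := Ideal.Quotient.mk_surjective (f S.x)
  obtain ⟨y, hy⟩ := Ideal.Quotient.mk_surjective (f S.y)
  obtain ⟨w, hw⟩ := Ideal.Quotient.mk_surjective (f S.w)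
  have u3 : ∀ n : ℕ, 1 ≤ n → n ≤ 6 * S.g + 9 → ∃ c : B, (n : B) * c = 1 := by
    intro n hn hn'
    have h3 : n ∣ (6 * S.g + 9).factorial := Nat.dvd_factorial hn hn'
    have h4 : (n : A) ∣ (((6 * S.g + 9).factorial : ℕ) : A) := Nat.cast_dvd_cast h3
    have h5 := isUnit_of_dvd_unit h4 S.hd
    obtain ⟨c, hc⟩ := h5.exists_right_inv
    refine ⟨algebraMap A B c, ?_⟩
    rw [← map_natCast (algebraMap A B) n, ← map_mul, hc, map_one]
  obtain ⟨c, hc⟩ := u3 3 (by omega) (by omega)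
  obtain ⟨gi, hgi⟩ := u3 S.g (by have := S.hg; omega) (by omega)
  obtain ⟨u, v, s, hu⟩ := GFS.bez x gi S.g S.a (by have := S.hg; omega) S.ha hgi
    (X ^ S.a) (X ^ (S.g + 1 - S.a) - X ^ (1 - S.a)) rfl rfl
  have ea : ∀ z : B, (X ^ S.a : B[X]).eval z = z ^ S.a := fun z => by simp
  have eb : ∀ z : B, (X ^ (S.g + 1 - S.a) - X ^ (1 - S.a) : B[X]).eval z =
      z ^ (S.g + 1 - S.a) - z ^ (1 - S.a) := fun z => by simp
  have m1 : y ^ 2 - (X ^ S.a : B[X]).eval x * w ∈ I := by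
    rw [← Ideal.Quotient.eq_zero_iff_mem, ea]
    simp only [map_sub, map_mul, map_pow, hx, hy, hw]
    rw [← map_pow, ← map_pow, ← map_mul, ← map_sub, q1, sub_self, map_zero]
  have m2 : y * w - (X ^ S.a : B[X]).eval x *
      (X ^ (S.g + 1 - S.a) - X ^ (1 - S.a) : B[X]).eval x ∈ I := by
    rw [← Ideal.Quotient.eq_zero_iff_mem, ea, eb, GFS.mulAB x S.g S.a S.ha]
    simp only [map_sub, map_mul, map_pow, hx, hy, hw]
    rw [← map_pow, ← map_mul, ← map_sub, ← map_sub, q2, sub_self, map_zero]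
  have m3 : w ^ 2 - (X ^ (S.g + 1 - S.a) - X ^ (1 - S.a) : B[X]).eval x * y ∈ I := by
    rw [← Ideal.Quotient.eq_zero_iff_mem, eb]
    simp only [map_sub, map_mul, map_pow, hx, hy, hw]
    rw [← map_pow, ← map_pow, ← map_pow, ← map_sub, ← map_mul, ← map_sub, q3, sub_self, map_zero]
  obtain ⟨x', y', w', d1, d2, d3, t1, t2, t3⟩ := GFS.solve I hI' _ _ x y w m1 m2 m3 c u v s
    (by exact_mod_cast hc) hu
  rw [ea] at t1
  rw [ea, eb, GFS.mulAB x' S.g S.a S.ha] at t2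
  rw [eb] at t3
  obtain ⟨h, ⟨g1, g2, g3⟩, -⟩ := h2 S B x' y' w' t1 t2 t3
  refine ⟨h, ?_⟩
  have k1 : f S.y ^ 2 = f S.x ^ S.a * f S.w := by rw [← map_pow, q1, map_mul, map_pow]
  have k2 : f S.y * f S.w = f S.x ^ (S.g + 1) - f S.x := by
    rw [← map_mul, q2, map_sub, map_pow]
  have k3 : f S.w ^ 2 = (f S.x ^ (S.g + 1 - S.a) - f S.x ^ (1 - S.a)) * f S.y := by
    rw [← map_pow, q3, map_mul, map_sub, map_pow, map_pow]
  obtain ⟨h0, -, un⟩ := h2 S (B ⧸ I) (f S.x) (f S.y) (f S.w) k1 k2 k3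
  rw [un f ⟨rfl, rfl, rfl⟩]
  refine un _ ⟨?_, ?_, ?_⟩
  · change Ideal.Quotient.mk I (h S.x) = f S.x
    rw [g1, ← hx]
    exact Ideal.Quotient.eq.2 d1
  · change Ideal.Quotient.mk I (h S.y) = f S.y
    rw [g2, ← hy]
    exact Ideal.Quotient.eq.2 d2
  · change Ideal.Quotient.mk I (h S.w) = f S.w
    rw [g3, ← hw]
    exact Ideal.Quotient.eq.2 d3

end Pool.Agent.MG.G0
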