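import Pool.Agent.MG.G0.StmtsG

/-!
# GLF: homomorphisms from the ring of the special curve
-/

namespace Pool.Agent.MG.G0

theorem t_GLF (hGST : Stmt_GST) : Stmt_GLF := by
  intro A _ S B _ _ x y w hy2 hyw hw2
  obtain ⟨h1, h2, h3, h4, -, -, -, -, hR, hU, -⟩ := hGST S
  choose P Q T hf using fun f : S.R => (hR f).mp f.2
  have key : ∀ (f : S.R) (p q s : Polynomial A),
      (f : LaurentSeries A) = zpol A 3 p + zpol A 3 q * S.Y + zpol A 3 s * S.W →
      P f = p ∧ Q f = q ∧ T f = s := by
    intro f p q s h
    have e : zpol A 3 (P f - p) + zpol A 3 (Q f - q) * S.Y + zpol A 3 (T f - s) * S.W = 0 := by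
      rw [map_sub, map_sub, map_sub]
      have e1 := (hf f).symm.trans h
      linear_combination e1
    obtain ⟨e1, e2, e3⟩ := hU _ _ _ e
    exact ⟨sub_eq_zero.mp e1, sub_eq_zero.mp e2, sub_eq_zero.mp e3⟩
  let F : S.R → B := fun f =>
    Polynomial.aeval x (P f) + Polynomial.aeval x (Q f) * y + Polynomial.aeval x (T f) * w
  have hF : ∀ (f : S.R) (p q s : Polynomial A),
      (f : LaurentSeries A) = zpol A 3 p + zpol A 3 q * S.Y + zpol A 3 s * S.W →
      F f = Polynomial.aeval x p + Polynomial.aeval x q * y + Polynomial.aeval x s * w := by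
    intro f p q s h
    obtain ⟨e1, e2, e3⟩ := key f p q s h
    simp only [F]
    rw [e1, e2, e3]
  have hAx : Polynomial.aeval x S.pA = x ^ S.a := by
    simp [SCD.pA]
  have hBx : Polynomial.aeval x S.pB = x ^ (S.g + 1 - S.a) - x ^ (1 - S.a) := by
    simp [SCD.pB]
  have hDx : Polynomial.aeval x S.pD = x ^ (S.g + 1) - x := by
    simp [SCD.pD]
  have hc : ∀ a : A, F (algebraMap A S.R a) = algebraMap A B a := by
    intro a
    rw [hF (algebraMap A S.R a) (Polynomial.C a) 0 0 (by
      rw [map_zero, zero_mul, zero_mul, add_zero, add_zero, zpol, Polynomial.aeval_C]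
      rfl)]
    simp
  have hmul : ∀ f f' : S.R, F (f * f') = F f * F f' := by
    intro f f'
    rw [hF (f * f') (P f * P f' + (Q f * T f' + T f * Q f') * S.pD)
      (P f * Q f' + Q f * P f' + T f * T f' * S.pB)
      (P f * T f' + T f * P f' + Q f * Q f' * S.pA) (by
        rw [MulMemClass.coe_mul, hf f, hf f']
        simp only [map_add, map_mul]
        linear_combination (zpol A 3 (Q f) * zpol A 3 (Q f')) * h1 +
          (zpol A 3 (Q f) * zpol A 3 (T f') + zpol A 3 (T f) * zpol A 3 (Q f')) * h2 +
          (zpol A 3 (T f) * zpol A 3 (T f')) * h3)]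
    simp only [F, map_add, map_mul, hAx, hBx, hDx]
    linear_combination -(Polynomial.aeval x (Q f) * Polynomial.aeval x (Q f')) * hy2 -
          (Polynomial.aeval x (Q f) * Polynomial.aeval x (T f') +
            Polynomial.aeval x (T f) * Polynomial.aeval x (Q f')) * hyw -
          (Polynomial.aeval x (T f) * Polynomial.aeval x (T f')) * hw2
  have hadd : ∀ f f' : S.R, F (f + f') = F f + F f' := by
    intro f f'
    rw [hF (f + f') (P f + P f') (Q f + Q f') (T f + T f') (by
      rw [AddMemClass.coe_add, hf f, hf f']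
      simp only [map_add]
      ring)]
    simp only [F, map_add]
    ring
  let h : S.R →ₐ[A] B :=
    { toFun := F
      map_one' := by
        have := hc 1
        rwa [map_one, map_one] at this
      map_mul' := hmul
      map_zero' := by
        have := hc 0
        rwa [map_zero, map_zero] at this
      map_add' := hadd
      commutes' := hc }
  refine ⟨h, ⟨?_, ?_, ?_⟩, ?_⟩
  · change F S.x = x
    rw [hF S.x Polynomial.X 0 0 (by
      rw [map_zero, zero_mul, zero_mul, add_zero, add_zero, zpol, Polynomial.aeval_X]
      rfl)]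
    simp
  · change F S.y = y
    rw [hF S.y 0 1 0 (by
      rw [map_zero, map_one, zero_mul, one_mul, add_zero, zero_add]
      rfl)]
    simp
  · change F S.w = w
    rw [hF S.w 0 0 1 (by
      rw [map_zero, map_one, zero_mul, one_mul, zero_add, zero_add]
      rfl)]
    simp
  · rintro h' ⟨hx', hy', hw'⟩
    ext f
    change h' f = F f
    have e : f = Polynomial.aeval S.x (P f) + Polynomial.aeval S.x (Q f) * S.y +
        Polynomial.aeval S.x (T f) * S.w := by
      apply Subtype.ext
      rw [AddMemClass.coe_add, AddMemClass.coe_add, MulMemClass.coe_mul, MulMemClass.coe_mul]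
      have hz : ∀ p : Polynomial A, ((Polynomial.aeval S.x p : S.R) : LaurentSeries A) =
          zpol A 3 p := fun p => by
        change S.R.val (Polynomial.aeval S.x p) = _
        rw [← Polynomial.aeval_algHom_apply]
        rfl
      rw [hz, hz, hz]
      exact hf f
    rw [e, map_add, map_add, map_mul, map_mul, ← Polynomial.aeval_algHom_apply,
      ← Polynomial.aeval_algHom_apply, ← Polynomial.aeval_algHom_apply, hx', hy', hw', ← e]

end Pool.Agent.MG.G0
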