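import Pool.Agent.MG.G0.StmtsG
import Pool.Agent.MG.G0.ZL.L1

/-!
# GNO: Noether's theorem for the special curve
-/

namespace Pool.Agent.MG.G0

namespace GNO

open Polynomial ZL

variable {A : Type} [CommRing A]

theorem ld_zz3 : ld (zz A 3) = HahnSeries.single (-4) (-3 : A) := by
  ext m
  rw [ld_coeff, zz]
  by_cases h : m = -4
  · subst h
    rw [HahnSeries.coeff_single_same]
    have h1 : (-4 + 1 : ℤ) = -((3 : ℕ) : ℤ) := by norm_num
    rw [h1, HahnSeries.coeff_single_same]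
    simp
  · rw [HahnSeries.coeff_single_of_ne h, HahnSeries.coeff_single_of_ne, mul_zero]
    intro h2
    apply h
    have h3 : ((3 : ℕ) : ℤ) = 3 := rfl
    omega

theorem xk_ld (k : ℕ) : zz A 3 ^ k * ld (zz A 3) = HahnSeries.single (-(3 * (k : ℤ)) - 4) (-3) := by
  rw [zz_pow, ld_zz3, HahnSeries.single_mul_single, one_mul]
  congr 1

theorem cx (f : LaurentSeries A) (k : ℕ) :
    (f * (zz A 3 ^ k * ld (zz A 3))).coeff (-1) = f.coeff (3 * ((k : ℤ) + 1)) * (-3) := by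
  rw [xk_ld]
  have h1 : (-1 : ℤ) = 3 * ((k : ℤ) + 1) + (-(3 * (k : ℤ)) - 4) := by ring
  nth_rewrite 1 [h1]
  rw [HahnSeries.coeff_mul_single_add]

theorem xk_mem (k : ℕ) : zz A 3 ^ k * ld (zz A 3) ∈ Po A (3 * (k : ℤ) + 4) := by
  rw [xk_ld]
  exact single_mem_Pl _ (by omega)

/-- A series with vanishing coefficients of `σ^3, ..., σ^(3(M-1))` is a polynomial plus a series
of order `3M`, in the degrees divisible by three. -/
theorem extract (F : LaurentSeries A) (M : ℕ)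
    (h : ∀ t : ℕ, 1 ≤ t → t < M → F.coeff (3 * (t : ℤ)) = 0) :
    ∃ p : A[X], pr0 A 3 F - zpol A 3 p ∈ Po A (-(3 * (M : ℤ))) := by
  obtain ⟨n, hn⟩ := exists_Pl F
  refine ⟨∑ k ∈ Finset.range (n + 1), monomial k (F.coeff (-((3 * k : ℕ) : ℤ))), ?_⟩
  intro m hm
  have hc : ∀ k : ℕ, (∑ k ∈ Finset.range (n + 1),
      monomial k (F.coeff (-((3 * k : ℕ) : ℤ)))).coeff k = F.coeff (-((3 * k : ℕ) : ℤ)) := by
    intro k
    rw [finsetSum_coeff]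
    simp only [coeff_monomial]
    rw [Finset.sum_ite_eq']
    split_ifs with hk
    · rfl
    · symm
      apply hn
      rw [Finset.mem_range] at hk
      omega
  rw [HahnSeries.coeff_sub, pr0_coeff]
  split_ifs with hd
  · obtain ⟨t, rfl⟩ := hd
    rcases le_or_gt t 0 with ht | ht
    · obtain ⟨k, hk⟩ : ∃ k : ℕ, t = -(k : ℤ) := ⟨(-t).toNat, by omega⟩
      have h1 : ((3 : ℕ) : ℤ) * t = -((3 * k : ℕ) : ℤ) := by
        rw [hk]
        push_cast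
        ring
      rw [h1]
      have h2 := ev_coeff 3 (by norm_num) (∑ k ∈ Finset.range (n + 1),
        monomial k (F.coeff (-((3 * k : ℕ) : ℤ)))) k
      rw [hc] at h2
      rw [← h2]
      exact sub_self _
    · obtain ⟨k, hk⟩ : ∃ k : ℕ, t = (k : ℤ) := ⟨t.toNat, by omega⟩
      have h1 : ((3 : ℕ) : ℤ) * t = 3 * (k : ℤ) := by rw [hk]; rfl
      rw [h1, h k (by omega) (by omega)]
      have h2 := ev_coeff_pos 3 (∑ k ∈ Finset.range (n + 1),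
        monomial k (F.coeff (-((3 * k : ℕ) : ℤ)))) (3 * (k : ℤ)) (by omega)
      rw [zero_sub, neg_eq_zero]
      exact h2
  · have h2 := ev_coeff_ne 3 (∑ k ∈ Finset.range (n + 1),
        monomial k (F.coeff (-((3 * k : ℕ) : ℤ)))) m (by
          intro k hk
          apply hd
          rw [hk]
          push_cast
          exact ⟨-(k : ℤ), by ring⟩)
    rw [zero_sub, neg_eq_zero]
    exact h2

theorem split_idx (n n' t : ℕ) (hn : 4 ≤ n) (hn' : 4 ≤ n') (ht : 1 ≤ t)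
    (ht' : t < (n - 1) / 3 + (n' - 1) / 3) :
    ∃ i j : ℕ, i + j = t + 1 ∧ 1 ≤ i ∧ 3 * i < n ∧ 1 ≤ j ∧ 3 * j < n' := by
  rcases le_or_gt t ((n - 1) / 3) with h | h
  · exact ⟨t, 1, by omega, by omega, by omega, by omega, by omega⟩
  · exact ⟨(n - 1) / 3, t + 1 - (n - 1) / 3, by omega, by omega, by omega, by omega, by omega⟩

theorem psl_mem (f : PowerSeries A) : psl A f ∈ Po A 0 := by
  intro m hm
  have h2 := PowerSeries.coeff_coe f m
  unfold psl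
  rw [h2, if_pos (by omega)]

section

variable (S : SCD A)

theorem Y_mem : S.Y ∈ Po A (S.n1 : ℤ) := by
  have := mul_mem_Pl (single_mem_Pl (A := A) (n := (S.n1 : ℤ)) (m := -(S.n1 : ℤ)) 1 (le_refl _))
    (psl_mem S.r)
  rw [add_zero] at this
  exact this

theorem W_mem : S.W ∈ Po A (S.n2 : ℤ) := by
  have := mul_mem_Pl (single_mem_Pl (A := A) (n := (S.n2 : ℤ)) (m := -(S.n2 : ℤ)) 1 (le_refl _))
    (psl_mem (S.r ^ 2))
  rw [add_zero] at this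
  exact this

theorem Yi_mem : S.Yi ∈ Po A (-(S.n1 : ℤ)) := by
  have := mul_mem_Pl (single_mem_Pl (A := A) (n := -(S.n1 : ℤ)) (m := (S.n1 : ℤ)) 1
    (by omega)) (psl_mem S.ri)
  rw [add_zero] at this
  exact this

theorem Wi_mem : S.Wi ∈ Po A (-(S.n2 : ℤ)) := by
  have := mul_mem_Pl (single_mem_Pl (A := A) (n := -(S.n2 : ℤ)) (m := (S.n2 : ℤ)) 1
    (by omega)) (psl_mem (S.ri ^ 2))
  rw [add_zero] at this
  exact this

theorem n1_ge : 4 ≤ S.n1 := by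
  have h1 := S.hg
  have h2 := S.h3
  unfold SCD.n1
  by_contra hcon
  apply h2
  have : S.g + 1 + S.a = 3 := by omega
  rw [this]

theorem n2_ge : 4 ≤ S.n2 := by
  have h1 := S.hg
  have h2 := S.ha
  unfold SCD.n2
  omega

include S in
theorem three_unit : IsUnit (3 : A) := by
  have h : ((3 : ℕ) : A) ∣ (((6 * S.g + 9).factorial : ℕ) : A) :=
    Nat.cast_dvd_cast (Nat.dvd_factorial (by norm_num) (by omega))
  have := isUnit_of_dvd_unit h S.hd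
  exact_mod_cast this

/-- The differentials `X^(i-1) E dX`. -/
theorem mem_EE (E : LaurentSeries A) (n : ℕ) (hE : E ∈ Po A (-(n : ℤ)))
    (hr : ∀ p ∈ S.R, ∀ i : ℕ, 1 ≤ i → 3 * i < n → (p * E).coeff (3 * i) = 0)
    (i : ℕ) (h1 : 1 ≤ i) (h2 : 3 * i < n) :
    E * (zz A 3 ^ (i - 1) * ld (zz A 3)) ∈ EE1 S.R := by
  obtain ⟨k, rfl⟩ : ∃ k, i = k + 1 := ⟨i - 1, by omega⟩
  rw [Nat.add_sub_cancel]
  refine ⟨fun p hp => ?_, ?_⟩
  · have e : E * (zz A 3 ^ k * ld (zz A 3)) * p = p * E * (zz A 3 ^ k * ld (zz A 3)) := by ring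
    rw [e, cx]
    have h3 := hr p hp (k + 1) h1 h2
    push_cast at h3
    rw [h3, zero_mul]
  · have h3 := mul_mem_Pl hE (xk_mem (A := A) k)
    exact Pl_mono (by omega) h3

/-- The vanishing of the coefficients. -/
theorem vanish (θ : LaurentSeries A)
    (hθ : ∀ ω ∈ EE1 S.R, ∀ ω' ∈ EE1 S.R, (θ * ω * ω').coeff (-1) = 0)
    (E : LaurentSeries A) (n : ℕ) (hE : E ∈ Po A (-(n : ℤ)))
    (hr : ∀ p ∈ S.R, ∀ i : ℕ, 1 ≤ i → 3 * i < n → (p * E).coeff (3 * i) = 0)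
    (E' : LaurentSeries A) (n' : ℕ) (hE' : E' ∈ Po A (-(n' : ℤ)))
    (hr' : ∀ p ∈ S.R, ∀ i : ℕ, 1 ≤ i → 3 * i < n' → (p * E').coeff (3 * i) = 0)
    (hn : 4 ≤ n) (hn' : 4 ≤ n') (t : ℕ) (ht : 1 ≤ t) (ht' : t < (n - 1) / 3 + (n' - 1) / 3) :
    (θ * ld (zz A 3) * E * E').coeff (3 * (t : ℤ)) = 0 := by
  obtain ⟨i, j, h, hi, hi', hj, hj'⟩ := split_idx n n' t hn hn' ht ht'
  have h1 := hθ _ (mem_EE S E n hE hr i hi hi') _ (mem_EE S E' n' hE' hr' j hj hj')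
  have h2 : zz A 3 ^ (i - 1) * zz A 3 ^ (j - 1) = zz A 3 ^ (t - 1) := by
    rw [← pow_add]
    congr 1
    omega
  have e : θ * (E * (zz A 3 ^ (i - 1) * ld (zz A 3))) * (E' * (zz A 3 ^ (j - 1) * ld (zz A 3))) =
      (θ * ld (zz A 3) * E * E') * (zz A 3 ^ (t - 1) * ld (zz A 3)) := by
    rw [← h2]
    ring
  rw [e, cx] at h1
  have h3 : (3 : ℤ) * (((t - 1 : ℕ) : ℤ) + 1) = 3 * (t : ℤ) := by omega
  rw [h3] at h1
  have h4 : IsUnit (-3 : A) := (three_unit S).neg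
  exact (h4.mul_left_eq_zero).1 h1

theorem pA_mem : zpol A 3 S.pA ∈ Po A (3 * (S.a : ℤ)) := by
  have h : S.pA.natDegree ≤ S.a := by
    unfold SCD.pA
    exact natDegree_X_pow_le _
  have := ev_mem_Pl 3 S.pA h
  push_cast at this
  exact this

theorem pB_mem : zpol A 3 S.pB ∈ Po A (3 * ((S.g : ℤ) + 1 - S.a)) := by
  have h0 := S.ha
  have h : S.pB.natDegree ≤ S.g + 1 - S.a := by
    unfold SCD.pB
    refine (natDegree_sub_le _ _).trans (max_le (natDegree_X_pow_le _) ?_)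
    exact (natDegree_X_pow_le _).trans (by omega)
  have := ev_mem_Pl 3 S.pB h
  refine Pl_mono ?_ this
  push_cast
  omega

theorem pD_mem : zpol A 3 S.pD ∈ Po A (3 * ((S.g : ℤ) + 1)) := by
  have h : S.pD.natDegree ≤ S.g + 1 := by
    unfold SCD.pD
    refine (natDegree_sub_le _ _).trans (max_le (natDegree_X_pow_le _) ?_)
    exact natDegree_X_le.trans (by omega)
  have := ev_mem_Pl 3 S.pD h
  push_cast at this
  exact this

theorem bd0 : 3 * ((S.g : ℤ) + 1) + -(3 * (((S.n1 - 1) / 3 + (S.n2 - 1) / 3 : ℕ) : ℤ)) ≤ 4 := by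
  have h1 := S.ha
  have h2 : S.n1 = S.g + 1 + S.a := rfl
  have h3 : S.n2 = 2 * S.g + 2 - S.a := rfl
  have h4 := S.h3
  omega

theorem bd1 : 3 * ((S.g : ℤ) + 1 - S.a) +
    -(3 * (((S.n2 - 1) / 3 + (S.n2 - 1) / 3 : ℕ) : ℤ)) + (S.n1 : ℤ) ≤ 4 := by
  have h1 := S.ha
  have h2 : S.n1 = S.g + 1 + S.a := rfl
  have h3 : S.n2 = 2 * S.g + 2 - S.a := rfl
  have h4 := S.h3
  omega

theorem bd2 : 3 * (S.a : ℤ) +
    -(3 * (((S.n1 - 1) / 3 + (S.n1 - 1) / 3 : ℕ) : ℤ)) + (S.n2 : ℤ) ≤ 4 := by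
  have h1 := S.ha
  have h2 : S.n1 = S.g + 1 + S.a := rfl
  have h3 : S.n2 = 2 * S.g + 2 - S.a := rfl
  have h4 := S.h3
  omega

end

end GNO

open GNO ZL in
theorem t_GNO (hG : Stmt_GST) (hT : Stmt_GTT) : Stmt_GNO := by
  intro A _ S θ hθ
  obtain ⟨g1, g2, g3, -, g5, g6, -, -, -, -, g11, g12, -⟩ := hG S
  have hrY : ∀ p ∈ S.R, ∀ i : ℕ, 1 ≤ i → 3 * i < S.n1 → (p * S.Yi).coeff (3 * i) = 0 := by
    intro p hp
    refine ((g12 p).1 ⟨p, hp, ?_⟩).1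
    rw [sub_self]
    exact zero_mem _
  have hrW : ∀ p ∈ S.R, ∀ i : ℕ, 1 ≤ i → 3 * i < S.n2 → (p * S.Wi).coeff (3 * i) = 0 := by
    intro p hp
    refine ((g12 p).1 ⟨p, hp, ?_⟩).2
    rw [sub_self]
    exact zero_mem _
  set Θ := θ * ld (zz A 3) with hΘ
  obtain ⟨p0, hp0⟩ := extract (Θ * S.Yi * S.Wi) _
    (vanish S θ hθ S.Yi S.n1 (Yi_mem S) hrY S.Wi S.n2 (Wi_mem S) hrW (n1_ge S) (n2_ge S))
  obtain ⟨p1, hp1⟩ := extract (Θ * S.Wi * S.Wi) _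
    (vanish S θ hθ S.Wi S.n2 (Wi_mem S) hrW S.Wi S.n2 (Wi_mem S) hrW (n2_ge S) (n2_ge S))
  obtain ⟨p2, hp2⟩ := extract (Θ * S.Yi * S.Yi) _
    (vanish S θ hθ S.Yi S.n1 (Yi_mem S) hrY S.Yi S.n1 (Yi_mem S) hrY (n1_ge S) (n1_ge S))
  have d0 : pr0 A 3 Θ = zpol A 3 S.pD * pr0 A 3 (Θ * S.Yi * S.Wi) := by
    rw [← pr0_zpol_mul, ← g2]
    congr 1
    linear_combination (-Θ) * g5 - Θ * S.Yi * S.Y * g6
  have d1 : pr0 A 3 (Θ * S.Yi) = zpol A 3 S.pB * pr0 A 3 (Θ * S.Wi * S.Wi) := by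
    rw [← pr0_zpol_mul]
    congr 1
    linear_combination (Θ * S.Yi * S.Wi ^ 2) * g3 +
      (-(Θ * S.Yi * (S.Wi * S.W + 1))) * g6 + Θ * S.Wi ^ 2 * zpol A 3 S.pB * g5
  have d2 : pr0 A 3 (Θ * S.Wi) = zpol A 3 S.pA * pr0 A 3 (Θ * S.Yi * S.Yi) := by
    rw [← pr0_zpol_mul]
    congr 1
    linear_combination (Θ * S.Wi * S.Yi ^ 2) * g1 +
      (-(Θ * S.Wi * (S.Yi * S.Y + 1))) * g5 + Θ * S.Yi ^ 2 * zpol A 3 S.pA * g6
  obtain ⟨c, hc⟩ := (three_unit S).exists_left_inv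
  have hL : ld (zz A 3) * HahnSeries.single 4 (-c) = 1 := by
    rw [ld_zz3, HahnSeries.single_mul_single]
    have h1 : (-3 : A) * -c = 1 := by
      rw [← hc]
      ring
    rw [h1]
    rfl
  have hL4 : HahnSeries.single 4 (-c) ∈ Po A (-4) := single_mem_Pl _ (by norm_num)
  refine ⟨(zpol A 3 (S.pD * p0) + zpol A 3 (S.pB * p1) * S.Y + zpol A 3 (S.pA * p2) * S.W) *
    HahnSeries.single 4 (-c), ?_, ?_⟩
  · refine ((hT S).1 _).2 ⟨p0, p1, p2, ?_⟩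
    rw [mul_assoc, mul_comm (HahnSeries.single 4 (-c)), hL, mul_one]
  · have e : θ - (zpol A 3 (S.pD * p0) + zpol A 3 (S.pB * p1) * S.Y +
        zpol A 3 (S.pA * p2) * S.W) * HahnSeries.single 4 (-c) =
        (zpol A 3 S.pD * (pr0 A 3 (Θ * S.Yi * S.Wi) - zpol A 3 p0) +
          zpol A 3 S.pB * (pr0 A 3 (Θ * S.Wi * S.Wi) - zpol A 3 p1) * S.Y +
          zpol A 3 S.pA * (pr0 A 3 (Θ * S.Yi * S.Yi) - zpol A 3 p2) * S.W) *
          HahnSeries.single 4 (-c) := by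
      have h1 : θ = Θ * HahnSeries.single 4 (-c) := by
        rw [hΘ, mul_assoc, hL, mul_one]
      have h2 := g11 Θ
      rw [d1, d2, d0] at h2
      nth_rewrite 1 [h1]
      rw [map_mul, map_mul, map_mul]
      linear_combination (HahnSeries.single 4 (-c)) * h2
    rw [e]
    have h4 : ((4 : ℤ) + -4) = 0 := by norm_num
    rw [← h4]
    refine mul_mem_Pl (add_mem (add_mem ?_ ?_) ?_) hL4
    · exact Pl_mono (bd0 S) (mul_mem_Pl (pD_mem S) hp0)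
    · exact Pl_mono (bd1 S) (mul_mem_Pl (mul_mem_Pl (pB_mem S) hp1) (Y_mem S))
    · exact Pl_mono (bd2 S) (mul_mem_Pl (mul_mem_Pl (pA_mem S) hp2) (W_mem S))

end Pool.Agent.MG.G0
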