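import Pool.Agent.MG.G0.StmtsR

/-!
# Coordinate changes of Laurent series (PAPER.md, SUB)
-/

namespace Pool.Agent.MG.G0

namespace SUB

section gen

variable {A B : Type} [CommRing A] [CommRing B]

/-- The monomial `τ^m`. -/
noncomputable def ta (A : Type) [CommRing A] (m : ℤ) : LaurentSeries A := HahnSeries.single m 1

theorem ta_coeff (m n : ℤ) : (ta A m).coeff n = if n = m then 1 else 0 := by
  rw [ta, HahnSeries.coeff_single]
  split_ifs <;> rfl

theorem ta_mul (m n : ℤ) : ta A m * ta A n = ta A (m + n) := by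
  rw [ta, ta, HahnSeries.single_mul_single, mul_one]
  rfl

theorem ta_zero : ta A 0 = 1 := rfl

theorem ta_pow (m : ℤ) (n : ℕ) : ta A m ^ n = ta A (n * m) := by
  induction n with
  | zero => rw [pow_zero, Nat.cast_zero, zero_mul, ta_zero]
  | succ n ih =>
    rw [pow_succ, ih, ta_mul]
    congr 1
    push_cast
    ring

theorem ta_mem (m : ℤ) : ta A m ∈ Po A (-m) := by
  intro n hn
  rw [ta_coeff, if_neg (by omega)]

theorem single_eq (m : ℤ) (a : A) : (HahnSeries.single m a : LaurentSeries A) = a • ta A m := by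
  ext n
  rw [HahnSeries.coeff_smul, HahnSeries.coeff_single, ta_coeff, smul_eq_mul]
  split_ifs <;> simp

theorem mul_mem_Po {m n : ℤ} {f g : LaurentSeries A} (hf : f ∈ Po A m) (hg : g ∈ Po A n) :
    f * g ∈ Po A (m + n) := fun k hk => mul_low hf hg k (by omega)

theorem Po_mono {m n : ℤ} (h : m ≤ n) : Po A m ≤ Po A n := fun _ hf k hk => hf k (by omega)

theorem exists_Po (f : LaurentSeries A) : ∃ n : ℕ, f ∈ Po A n := exists_low f

theorem psl_coeff (f : PowerSeries A) (m : ℤ) :
    (psl A f).coeff m = if m < 0 then 0 else PowerSeries.coeff m.natAbs f :=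
  PowerSeries.coeff_coe f m

theorem psl_mem (f : PowerSeries A) : psl A f ∈ Po A 0 := by
  intro m hm
  rw [psl_coeff, if_pos (by omega)]

theorem exists_psl {f : LaurentSeries A} (hf : f ∈ Po A 0) : ∃ p : PowerSeries A, f = psl A p := by
  refine ⟨PowerSeries.mk fun n => f.coeff n, ?_⟩
  ext m
  rw [psl_coeff]
  split_ifs with h
  · exact hf m (by omega)
  · rw [PowerSeries.coeff_mk]
    congr 1
    omega

theorem psl_X : psl A PowerSeries.X = ta A 1 := HahnSeries.ofPowerSeries_X

theorem psl_C (a : A) : psl A (PowerSeries.C a) = algebraMap A (LaurentSeries A) a :=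
  HahnSeries.ofPowerSeries_C a

theorem lmap_psl (φ : A →+* B) (f : PowerSeries A) :
    lmap φ (psl A f) = psl B (PowerSeries.map φ f) := by
  ext m
  rw [lmap_coeff, psl_coeff, psl_coeff]
  split_ifs
  · rw [map_zero]
  · rw [PowerSeries.coeff_map]

theorem lmap_ta (φ : A →+* B) (m : ℤ) : lmap φ (ta A m) = ta B m := by
  rw [ta, lmap_single, map_one]
  rfl

/-- Truncation. -/
theorem trunc {n : ℤ} {f : LaurentSeries A} (hf : f ∈ Po A n) (k : ℤ) :
    f - ∑ m ∈ Finset.Ico (-n) k, f.coeff m • ta A m ∈ Po A (-k) := by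
  intro l hl
  rw [neg_neg] at hl
  rw [HahnSeries.coeff_sub, HahnSeries.coeff_sum]
  have h1 : ∀ m, (f.coeff m • ta A m).coeff l = if l = m then f.coeff m else 0 := by
    intro m
    rw [HahnSeries.coeff_smul, ta_coeff, smul_eq_mul]
    split_ifs <;> simp
  simp only [h1]
  rw [Finset.sum_ite_eq]
  simp only [Finset.mem_Ico]
  split_ifs with h
  · exact sub_self _
  · rw [hf l (by omega), sub_zero]

/-- A continuous additive map vanishing at the monomials is zero. -/
theorem ext_zero (F : LaurentSeries A →+ LaurentSeries B) (s : ℤ)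
    (hF : ∀ (n : ℤ) (f : LaurentSeries A), f ∈ Po A n → F f ∈ Po B (n + s))
    (h : ∀ (a : A) (m : ℤ), F (a • ta A m) = 0) (f : LaurentSeries A) : F f = 0 := by
  obtain ⟨n, hn⟩ := exists_Po f
  ext l
  have h1 := hF _ _ (trunc hn (l + s + 1))
  have h2 : F (f - ∑ m ∈ Finset.Ico (-(n : ℤ)) (l + s + 1), f.coeff m • ta A m) = F f := by
    rw [map_sub, map_sum, Finset.sum_eq_zero fun m _ => h _ m, sub_zero]
  rw [h2] at h1
  rw [h1 l (by omega), HahnSeries.coeff_zero]

/-- Ring homomorphisms which agree at the constants and at `τ` agree at the monomials. -/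
theorem ext_mono (F G : LaurentSeries A →+* LaurentSeries B)
    (hc : ∀ a : A, F (algebraMap A _ a) = G (algebraMap A _ a)) (ht : F (ta A 1) = G (ta A 1))
    (a : A) (m : ℤ) : F (a • ta A m) = G (a • ta A m) := by
  have hi : F (ta A (-1)) = G (ta A (-1)) := by
    have h1 : F (ta A (-1)) * F (ta A 1) = 1 := by
      rw [← map_mul, ta_mul, neg_add_cancel, ta_zero, map_one]
    have h2 : G (ta A (-1)) * G (ta A 1) = 1 := by
      rw [← map_mul, ta_mul, neg_add_cancel, ta_zero, map_one]
    calc F (ta A (-1)) = F (ta A (-1)) * (G (ta A (-1)) * G (ta A 1)) := by rw [h2, mul_one]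
      _ = (F (ta A (-1)) * F (ta A 1)) * G (ta A (-1)) := by rw [← ht]; ring
      _ = G (ta A (-1)) := by rw [h1, one_mul]
  rw [Algebra.smul_def, map_mul, map_mul, hc]
  congr 1
  obtain ⟨k, rfl | rfl⟩ := Int.eq_nat_or_neg m
  · have h : ta A (k : ℤ) = ta A 1 ^ k := by rw [ta_pow, mul_one]
    rw [h, map_pow, map_pow, ht]
  · have h : ta A (-(k : ℤ)) = ta A (-1) ^ k := by rw [ta_pow, mul_neg, mul_one]
    rw [h, map_pow, map_pow, hi]

end gen

section main

variable {A : Type} [CommRing A] {u : PowerSeries A} {Φ : LaurentSeries A →ₐ[A] LaurentSeries A}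

theorem tau' (h : IsSub u Φ) : Φ (ta A 1) = psl A u := h.tau

theorem uniq {Ψ : LaurentSeries A →ₐ[A] LaurentSeries A} (h : IsSub u Φ) (h' : IsSub u Ψ) :
    Ψ = Φ := by
  ext1 f
  rw [← sub_eq_zero]
  refine ext_zero ((Ψ : LaurentSeries A →+ LaurentSeries A) - (Φ : LaurentSeries A →+ _)) 0
    ?_ ?_ f
  · intro n f hf
    rw [add_zero]
    exact sub_mem (h'.pol n f hf) (h.pol n f hf)
  · intro a m
    rw [AddMonoidHom.sub_apply, sub_eq_zero]
    exact ext_mono (Ψ : LaurentSeries A →+* LaurentSeries A)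
      (Φ : LaurentSeries A →+* LaurentSeries A)
      (fun a => by
        change Ψ _ = Φ _
        rw [AlgHom.commutes, AlgHom.commutes])
      (by
        change Ψ _ = Φ _
        rw [tau' h, tau' h']) a m

theorem lead (h : IsSub u Φ) (n : ℤ) {f : LaurentSeries A} (hf : f ∈ Po A n) :
    (Φ f).coeff (-n) = (Φ (ta A (-n))).coeff (-n) * f.coeff (-n) := by
  have h1 : f - f.coeff (-n) • ta A (-n) ∈ Po A (n - 1) := by
    intro m hm
    rw [HahnSeries.coeff_sub, HahnSeries.coeff_smul, ta_coeff, smul_eq_mul]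
    split_ifs with h
    · rw [h, mul_one, sub_self]
    · rw [hf m (by omega), mul_zero, sub_zero]
  have h2 := h.pol _ _ h1 (-n) (by omega)
  rw [map_sub, map_smul, HahnSeries.coeff_sub, HahnSeries.coeff_smul, smul_eq_mul,
    sub_eq_zero] at h2
  rw [h2, mul_comm]

theorem lead_unit (h : IsSub u Φ) (n : ℤ) : IsUnit ((Φ (ta A n)).coeff n) := by
  have h1 := h.pol _ _ (ta_mem (A := A) n)
  have h2 := h.pol _ _ (ta_mem (A := A) (-n))
  have h3 := mul_lead (f := Φ (ta A n)) (g := Φ (ta A (-n))) (a := n) (b := -n)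
    (fun m hm => h1 m (by omega)) (fun m hm => h2 m (by omega))
  rw [← map_mul, ta_mul, add_neg_cancel, ta_zero, map_one, HahnSeries.coeff_one, if_pos rfl] at h3
  exact IsUnit.of_mul_eq_one _ h3.symm

theorem mem_iff (h : IsSub u Φ) (n : ℤ) (f : LaurentSeries A) : Φ f ∈ Po A n ↔ f ∈ Po A n := by
  refine ⟨fun hf => ?_, h.pol n f⟩
  obtain ⟨N, hN⟩ := exists_Po f
  have key : ∀ k : ℕ, f ∈ Po A (n + k) → f ∈ Po A n := by
    intro k
    induction k with
    | zero => intro hk; simpa using hk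
    | succ k ih =>
      intro hk
      refine ih fun m hm => ?_
      by_cases h1 : m < -(n + (k + 1 : ℕ))
      · exact hk m h1
      · have h2 : m = -(n + (k + 1 : ℕ)) := by
          push_cast at h1 ⊢
          omega
        have h3 := lead h _ hk
        rw [hf _ (by push_cast; omega), ← h2] at h3
        have h4 : Φ (ta A m) = Φ (ta A m) := rfl
        have h5 := lead_unit h m
        exact (IsUnit.mul_right_eq_zero h5).1 h3.symm
  refine key (N - n).toNat (Po_mono ?_ hN)
  omega

theorem inj (h : IsSub u Φ) : Function.Injective Φ := by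
  rw [injective_iff_map_eq_zero]
  intro f hf
  ext n
  have h1 : f ∈ Po A (-(n + 1)) := (mem_iff h _ f).1 (by rw [hf]; exact zero_mem _)
  rw [HahnSeries.coeff_zero]
  exact h1 n (by omega)

/-- The solution of a triangular system. -/
noncomputable def sol (c : ℕ → ℕ → A) (g : ℕ → A) : ℕ → A
  | j => Ring.inverse (c j j) * (g j - ∑ i : Fin j, sol c g i.1 * c i.1 j)
termination_by j => j
decreasing_by exact i.2

theorem sol_spec (c : ℕ → ℕ → A) (g : ℕ → A) (hc : ∀ j, IsUnit (c j j)) (j : ℕ) :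
    ∑ i ∈ Finset.range (j + 1), sol c g i * c i j = g j := by
  rw [Finset.sum_range_succ]
  have h : sol c g j = Ring.inverse (c j j) * (g j - ∑ i : Fin j, sol c g i.1 * c i.1 j) := by
    rw [sol]
  rw [h, mul_right_comm, Ring.inverse_mul_cancel _ (hc j), one_mul,
    Fin.sum_univ_eq_sum_range (fun i => sol c g i * c i j) j]
  ring

/-- The coefficients of `Φ f`. -/
theorem coeff_eq (h : IsSub u Φ) {n : ℤ} {f : LaurentSeries A} (hf : f ∈ Po A n) (k : ℤ) :
    (Φ f).coeff k = ∑ m ∈ Finset.Ico (-n) (k + 1), f.coeff m * (Φ (ta A m)).coeff k := by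
  have h1 := h.pol _ _ (trunc hf (k + 1)) k (by omega)
  rw [map_sub, map_sum, HahnSeries.coeff_sub, HahnSeries.coeff_sum, sub_eq_zero] at h1
  rw [h1]
  refine Finset.sum_congr rfl fun m _ => ?_
  rw [map_smul, HahnSeries.coeff_smul, smul_eq_mul]

theorem surj (h : IsSub u Φ) : Function.Surjective Φ := by
  intro g
  obtain ⟨n, hn⟩ := exists_Po g
  let c : ℕ → ℕ → A := fun i j => (Φ (ta A (-(n : ℤ) + i))).coeff (-(n : ℤ) + j)
  let a : ℕ → A := sol c fun j => g.coeff (-(n : ℤ) + j)
  let f : LaurentSeries A := ta A (-(n : ℤ)) * psl A (PowerSeries.mk a)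
  have hfc : ∀ j : ℕ, f.coeff (-(n : ℤ) + j) = a j := by
    intro j
    change (ta A (-(n : ℤ)) * psl A (PowerSeries.mk a)).coeff (-(n : ℤ) + j) = a j
    rw [ta, add_comm, HahnSeries.coeff_single_mul_add, one_mul]
    change (HahnSeries.ofPowerSeries ℤ A (PowerSeries.mk a)).coeff (j : ℤ) = a j
    rw [HahnSeries.ofPowerSeries_apply_coeff, PowerSeries.coeff_mk]
  have hp : psl A (PowerSeries.mk a) ∈ Po A 0 := psl_mem _
  have hf : f ∈ Po A n := by
    have := mul_mem_Po (ta_mem (A := A) (-(n : ℤ))) hp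
    rwa [neg_neg, add_zero] at this
  refine ⟨f, ?_⟩
  ext k
  by_cases hk : k < -(n : ℤ)
  · rw [hn k hk, h.pol _ _ hf k hk]
  obtain ⟨j, rfl⟩ : ∃ j : ℕ, k = -(n : ℤ) + j := ⟨(k + n).toNat, by omega⟩
  rw [coeff_eq h hf]
  have hs := sol_spec c (fun j => g.coeff (-(n : ℤ) + j)) (fun j => lead_unit h _) j
  rw [← hs]
  refine Finset.sum_nbij' (fun m => (m + n).toNat) (fun i => -(n : ℤ) + i) ?_ ?_ ?_ ?_ ?_
  · intro m hm
    simp only [Finset.mem_Ico, Finset.mem_range] at hm ⊢
    omega
  · intro m hm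
    simp only [Finset.mem_Ico, Finset.mem_range] at hm ⊢
    omega
  · intro m hm
    simp only [Finset.mem_Ico] at hm ⊢
    omega
  · intro m hm
    omega
  · intro m hm
    simp only [Finset.mem_Ico] at hm
    have h1 : m = -(n : ℤ) + ((m + n).toNat : ℕ) := by omega
    rw [h1, hfc]
    have h2 : (-(n : ℤ) + ((m + n).toNat : ℕ) + n).toNat = (m + n).toNat := by omega
    rw [h2]

/-! ### Existence -/

theorem psl_u (hu : PowerSeries.constantCoeff u = 0) :
    ∃ v : PowerSeries A, psl A u = ta A 1 * psl A v ∧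
      PowerSeries.constantCoeff v = PowerSeries.coeff 1 u := by
  obtain ⟨v, rfl⟩ := PowerSeries.X_dvd_iff.2 hu
  refine ⟨v, ?_, ?_⟩
  · rw [map_mul, psl_X]
  · have : PowerSeries.coeff (0 + 1) (PowerSeries.X * v) = PowerSeries.coeff 0 v :=
      PowerSeries.coeff_succ_X_mul 0 v
    rw [zero_add] at this
    rw [this, PowerSeries.coeff_zero_eq_constantCoeff_apply]

theorem exists_sub (hu : PowerSeries.constantCoeff u = 0) (hu1 : IsUnit (PowerSeries.coeff 1 u)) :
    ∃ Φ : LaurentSeries A →ₐ[A] LaurentSeries A, IsSub u Φ := by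
  obtain ⟨v, hv, hv0⟩ := psl_u hu
  have hvu : IsUnit v := PowerSeries.isUnit_iff_constantCoeff.2 (by rw [hv0]; exact hu1)
  have hs : PowerSeries.HasSubst u := PowerSeries.HasSubst.of_constantCoeff_zero' hu
  let σ : PowerSeries A →ₐ[A] PowerSeries A := PowerSeries.substAlgHom hs
  have hσX : σ PowerSeries.X = u := PowerSeries.substAlgHom_X hs
  have hun : IsUnit (psl A u) := by
    rw [hv]
    refine IsUnit.mul ?_ (hvu.map (psl A))
    exact IsUnit.of_mul_eq_one (ta A (-1)) (by rw [ta_mul, add_neg_cancel, ta_zero])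
  let F : PowerSeries A →+* LaurentSeries A := (psl A).comp (σ : PowerSeries A →+* PowerSeries A)
  have hF : ∀ y : Submonoid.powers (PowerSeries.X : PowerSeries A), IsUnit (F y) := by
    rintro ⟨_, n, rfl⟩
    change IsUnit (psl A (σ (PowerSeries.X ^ n)))
    rw [map_pow, map_pow, hσX]
    exact hun.pow n
  let G : LaurentSeries A →+* LaurentSeries A := IsLocalization.lift hF
  have hG : ∀ p : PowerSeries A, G (psl A p) = psl A (σ p) := fun p =>
    IsLocalization.lift_eq hF p
  let Φ : LaurentSeries A →ₐ[A] LaurentSeries A :=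
    { G with
      commutes' := fun a => by
        change G (algebraMap A (LaurentSeries A) a) = _
        rw [← psl_C, hG]
        congr 1
        exact σ.commutes a }
  have hΦ : ∀ p : PowerSeries A, Φ (psl A p) = psl A (σ p) := hG
  have htau : Φ (ta A 1) = psl A u := by
    rw [← psl_X, hΦ, hσX]
  obtain ⟨w, hw⟩ := hvu.exists_right_inv
  have hinv : Φ (ta A (-1)) = ta A (-1) * psl A w := by
    have h1 : Φ (ta A (-1)) * psl A u = 1 := by
      rw [← htau, ← map_mul, ta_mul, neg_add_cancel, ta_zero, map_one]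
    have h2 : psl A u * (ta A (-1) * psl A w) = 1 := by
      rw [hv]
      calc ta A 1 * psl A v * (ta A (-1) * psl A w) = (ta A 1 * ta A (-1)) * psl A (v * w) := by
            rw [map_mul]; ring
        _ = 1 := by rw [hw, ta_mul, add_neg_cancel, ta_zero, map_one, one_mul]
    calc Φ (ta A (-1)) = Φ (ta A (-1)) * (psl A u * (ta A (-1) * psl A w)) := by rw [h2, mul_one]
      _ = (Φ (ta A (-1)) * psl A u) * (ta A (-1) * psl A w) := by ring
      _ = ta A (-1) * psl A w := by rw [h1, one_mul]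
  have hta : ∀ n : ℤ, Φ (ta A n) ∈ Po A (-n) := by
    intro n
    obtain ⟨k, rfl | rfl⟩ := Int.eq_nat_or_neg n
    · have h : ta A (k : ℤ) = ta A 1 ^ k := by rw [ta_pow, mul_one]
      rw [h, map_pow, htau, hv, mul_pow, ta_pow, mul_one, ← map_pow]
      have := mul_mem_Po (ta_mem (A := A) (k : ℤ)) (psl_mem (v ^ k))
      rwa [add_zero] at this
    · have h : ta A (-(k : ℤ)) = ta A (-1) ^ k := by rw [ta_pow, mul_neg, mul_one]
      rw [h, map_pow, hinv, mul_pow, ta_pow, mul_neg, mul_one, ← map_pow]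
      have := mul_mem_Po (ta_mem (A := A) (-(k : ℤ))) (psl_mem (w ^ k))
      rwa [add_zero] at this
  refine ⟨Φ, ?_, htau⟩
  intro n f hf
  have h1 : ta A n * f ∈ Po A 0 := by
    have := mul_mem_Po (ta_mem (A := A) n) hf
    rwa [neg_add_cancel] at this
  obtain ⟨p, hp⟩ := exists_psl h1
  have h2 : f = ta A (-n) * psl A p := by
    rw [← hp, ← mul_assoc, ta_mul, neg_add_cancel, ta_zero, one_mul]
  rw [h2, map_mul, hΦ]
  have := mul_mem_Po (hta (-n)) (psl_mem (σ p))
  rwa [neg_neg, add_zero] at this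

theorem exists_equiv (hu : PowerSeries.constantCoeff u = 0)
    (hu1 : IsUnit (PowerSeries.coeff 1 u)) :
    ∃ Φ : LaurentSeries A ≃ₐ[A] LaurentSeries A,
      IsSub u (Φ : LaurentSeries A →ₐ[A] LaurentSeries A) := by
  obtain ⟨Φ, h⟩ := exists_sub hu hu1
  refine ⟨AlgEquiv.ofBijective Φ ⟨inj h, surj h⟩, ?_⟩
  have : ((AlgEquiv.ofBijective Φ ⟨inj h, surj h⟩ : LaurentSeries A ≃ₐ[A] LaurentSeries A) :
      LaurentSeries A →ₐ[A] LaurentSeries A) = Φ := by
    ext1 f
    rfl
  rw [this]
  exact h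

/-! ### Derivatives and residues -/

theorem ld_mem {n : ℤ} {f : LaurentSeries A} (hf : f ∈ Po A n) : ld f ∈ Po A (n + 1) := by
  intro m hm
  rw [ld_coeff, hf _ (by omega), mul_zero]

theorem ld_mem0 {f : LaurentSeries A} (hf : f ∈ Po A 0) : ld f ∈ Po A 0 := by
  intro m hm
  rw [ld_coeff]
  by_cases h : m + 1 = 0
  · rw [h]
    simp
  · rw [hf _ (by omega), mul_zero]

theorem ld_one : ld (1 : LaurentSeries A) = 0 := by
  ext m
  rw [ld_coeff, HahnSeries.coeff_one, HahnSeries.coeff_zero]
  split_ifs with h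
  · rw [h]
    simp
  · rw [mul_zero]

theorem ld_ta (m : ℤ) : ld (ta A m) = (m : A) • ta A (m - 1) := by
  ext n
  rw [ld_coeff, HahnSeries.coeff_smul, ta_coeff, ta_coeff, smul_eq_mul]
  by_cases h : n + 1 = m
  · have h2 : n = m - 1 := by omega
    rw [if_pos h, if_pos h2, h]
  · have h2 : ¬ n = m - 1 := by omega
    rw [if_neg h, if_neg h2, mul_zero, mul_zero]

theorem ld_sub (h : IsSub u Φ) (f : LaurentSeries A) : ld (Φ f) = Φ (ld f) * ld (psl A u) := by
  rw [← sub_eq_zero]
  let D : LaurentSeries A →+ LaurentSeries A :=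
    { toFun := fun f => ld (Φ f) - Φ (ld f) * ld (psl A u)
      map_zero' := by
        have : ld (0 : LaurentSeries A) = 0 := map_zero _
        rw [map_zero, this, map_zero, zero_mul, sub_zero]
      map_add' := fun f g => by
        rw [map_add, ld_add, ld_add, map_add, add_mul]
        ring }
  have hD : ∀ f, D f = ld (Φ f) - Φ (ld f) * ld (psl A u) := fun f => rfl
  have hmul : ∀ f g, D (f * g) = Φ f * D g + D f * Φ g := by
    intro f g
    rw [hD, hD, hD, map_mul, ld_mul, ld_mul, map_add, map_mul, map_mul]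
    ring
  have h1 : D (ta A 1) = 0 := by
    rw [hD, tau' h, ld_ta, sub_self, ta_zero, Int.cast_one, one_smul, map_one, one_mul, sub_self]
  have h0 : D 1 = 0 := by
    rw [hD, map_one, ld_one, map_zero, zero_mul, sub_zero]
  have hm : D (ta A (-1)) = 0 := by
    have h2 : D (ta A (-1) * ta A 1) = 0 := by rw [ta_mul, neg_add_cancel, ta_zero, h0]
    rw [hmul, h1, mul_zero, zero_add] at h2
    have h3 : Φ (ta A 1) * Φ (ta A (-1)) = 1 := by
      rw [← map_mul, ta_mul, add_neg_cancel, ta_zero, map_one]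
    calc D (ta A (-1)) = (D (ta A (-1)) * Φ (ta A 1)) * Φ (ta A (-1)) := by
          rw [mul_assoc, h3, mul_one]
      _ = 0 := by rw [h2, zero_mul]
  have hpow : ∀ (t : LaurentSeries A), D t = 0 → ∀ k : ℕ, D (t ^ k) = 0 := by
    intro t ht k
    induction k with
    | zero => rw [pow_zero, h0]
    | succ k ih => rw [pow_succ, hmul, ht, ih, mul_zero, zero_mul, add_zero]
  have hsm : ∀ (a : A) (f : LaurentSeries A), D (a • f) = a • D f := by
    intro a f
    rw [hD, hD, map_smul, ld_smul, ld_smul, map_smul, smul_mul_assoc, smul_sub]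
  refine ext_zero D 1 ?_ ?_ f
  · intro n f hf
    rw [hD]
    refine sub_mem (ld_mem (h.pol _ _ hf)) ?_
    have := mul_mem_Po (h.pol _ _ (ld_mem hf)) (ld_mem0 (psl_mem u))
    rwa [add_zero] at this
  · intro a m
    rw [hsm]
    have : D (ta A m) = 0 := by
      obtain ⟨k, rfl | rfl⟩ := Int.eq_nat_or_neg m
      · have h : ta A (k : ℤ) = ta A 1 ^ k := by rw [ta_pow, mul_one]
        rw [h]
        exact hpow _ h1 k
      · have h : ta A (-(k : ℤ)) = ta A (-1) ^ k := by rw [ta_pow, mul_neg, mul_one]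
        rw [h]
        exact hpow _ hm k
    rw [this, smul_zero]

/-- The automorphism of `KK Unit A`. -/
noncomputable def kk (Φ : LaurentSeries A ≃ₐ[A] LaurentSeries A) : KK Unit A ≃ₐ[A] KK Unit A :=
  AlgEquiv.piCongrRight fun _ => Φ

theorem kk_apply (Φ : LaurentSeries A ≃ₐ[A] LaurentSeries A) (f : KK Unit A) :
    kk Φ f () = Φ (f ()) := rfl

theorem uno_map (Φ : LaurentSeries A ≃ₐ[A] LaurentSeries A)
    (R : Subalgebra A (LaurentSeries A)) :
    (uno R).map (kk Φ : KK Unit A →ₐ[A] KK Unit A) =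
      uno (R.map (Φ : LaurentSeries A →ₐ[A] LaurentSeries A)) := by
  ext f
  rw [mem_uno, Subalgebra.mem_map, Subalgebra.mem_map]
  constructor
  · rintro ⟨g, hg, rfl⟩
    exact ⟨g (), hg, rfl⟩
  · rintro ⟨g, hg, hf⟩
    exact ⟨fun _ => g, hg, funext fun _ => hf⟩

end main

end SUB

open SUB in
theorem t_SUB (hRIN : Stmt_RIN) (hKAU : Stmt_KAU) : Stmt_SUB := by
  refine ⟨fun u hu hu1 => exists_equiv hu hu1, ?_, ?_⟩
  · intro A _ u hu hu1 Φ h
    obtain ⟨E, hE⟩ := exists_equiv hu hu1
    have hEΦ : (E : LaurentSeries A →ₐ[A] LaurentSeries A) = Φ := uniq h hE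
    have hmem : ∀ f, kk E f ∈ Pol Unit A 0 ↔ f ∈ Pol Unit A 0 := by
      intro f
      rw [mem_Pol_unit, mem_Pol_unit, kk_apply]
      exact mem_iff hE 0 (f ())
    refine ⟨fun Ψ h' => uniq h h', fun n f => mem_iff h n f, ?_, ?_, fun f => ld_sub h f, ?_, ?_⟩
    · intro n
      exact ⟨_, lead_unit h (-n), fun f hf => lead h n hf⟩
    · intro f
      obtain ⟨p, hp⟩ := exists_psl (h.pol _ _ (psl_mem f))
      refine ⟨p, hp, ?_⟩
      have h1 := lead h 0 (psl_mem f)
      rw [neg_zero, ta_zero, map_one, HahnSeries.coeff_one, if_pos rfl, one_mul, hp, psl_coeff,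
        psl_coeff, if_neg (by omega), if_neg (by omega)] at h1
      simpa using h1
    · intro f
      have h1 := hRIN (kk E) hmem (fun _ => ta A 1) (fun _ => f)
      rw [res_unit, res_unit] at h1
      have h2 : (kk E (fun _ => f) * dd (kk E fun _ => ta A 1)) () = Φ f * ld (psl A u) := by
        rw [← hEΦ]
        have h3 : psl A u = E (ta A 1) := (tau' hE).symm
        rw [h3]
        rfl
      have h3 : ((fun _ => f) * dd (fun _ => ta A 1) : KK Unit A) () = f := by
        have h4 : ((fun _ => f) * dd (fun _ => ta A 1) : KK Unit A) () = f * ld (ta A 1) := rfl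
        rw [h4, ld_ta, sub_self, ta_zero, Int.cast_one, one_smul, mul_one]
      rw [h2, h3] at h1
      exact h1
    · intro g R
      have hmap := uno_map E R
      rw [hEΦ] at hmap
      constructor
      · intro hR
        have h1 := hKAU.1 (uno R) (kk E) hmem hR
        rw [hmap] at h1
        exact h1
      · intro hR
        have h1 := hKAU.1 (uno (R.map Φ)) (kk E).symm (fun f => by
          have := hmem ((kk E).symm f)
          rw [AlgEquiv.apply_symm_apply] at this
          exact this.symm) hR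
        rw [← hmap] at h1
        have h2 : ((uno R).map (kk E : KK Unit A →ₐ[A] KK Unit A)).map
            ((kk E).symm : KK Unit A →ₐ[A] KK Unit A) = uno R := by
          rw [Subalgebra.map_map]
          have h3 : ((kk E).symm : KK Unit A →ₐ[A] KK Unit A).comp
              (kk E : KK Unit A →ₐ[A] KK Unit A) = AlgHom.id A _ := by
            ext1 f
            exact (kk E).symm_apply_apply f
          rw [h3, Subalgebra.map_id]
        rw [h2] at h1
        exact h1
  · intro A B _ _ φ u hu hu1 Φ Ψ h h' f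
    rw [← sub_eq_zero]
    let F : LaurentSeries A →+* LaurentSeries B :=
      (lmap φ).comp (Φ : LaurentSeries A →+* LaurentSeries A)
    let G : LaurentSeries A →+* LaurentSeries B :=
      (Ψ : LaurentSeries B →+* LaurentSeries B).comp (lmap φ)
    have hl : ∀ (n : ℤ) (f : LaurentSeries A), f ∈ Po A n → lmap φ f ∈ Po B n := by
      intro n f hf m hm
      rw [lmap_coeff, hf m hm, map_zero]
    refine ext_zero ((F : LaurentSeries A →+ LaurentSeries B) - (G : LaurentSeries A →+ _)) 0
      ?_ ?_ f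
    · intro n f hf
      rw [add_zero]
      exact sub_mem (hl _ _ (h.pol n f hf)) (h'.pol n _ (hl _ _ hf))
    · intro a m
      rw [AddMonoidHom.sub_apply, sub_eq_zero]
      refine ext_mono F G (fun a => ?_) ?_ a m
      · change lmap φ (Φ _) = Ψ (lmap φ _)
        rw [AlgHom.commutes, lmap_algebraMap, AlgHom.commutes]
      · change lmap φ (Φ _) = Ψ (lmap φ _)
        rw [tau' h, lmap_ta, tau' h', lmap_psl]

end Pool.Agent.MG.G0
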