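import Pool.Agent.MG.G0.StmtsG
import Pool.Agent.MG.G0.SUB

/-!
# The special curve in the coordinate `τ` (PAPER_G.md, GRA)
-/

namespace Pool.Agent.MG.G0

namespace GRA

section

variable {A B : Type} [CommRing A] [CommRing B]

theorem unit_of {g : ℕ} (h : IsUnit (((6 * g + 9).factorial : ℕ) : A)) {m : ℕ} (h1 : 1 ≤ m)
    (h2 : m ≤ 6 * g + 9) : IsUnit (m : A) := by
  obtain ⟨k, hk⟩ := (Nat.dvd_factorial (Nat.lt_of_lt_of_le Nat.zero_lt_one h1) h2)
  rw [hk, Nat.cast_mul] at h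
  exact isUnit_of_mul_isUnit_left h

/-- The choice of `a`. -/
def ag (g : ℕ) : ℕ := if 3 ∣ g + 1 then 1 else 0

theorem ag_le (g : ℕ) : ag g ≤ 1 := by
  rw [ag]
  split_ifs <;> omega

theorem ag_dvd (g : ℕ) : ¬ 3 ∣ g + 1 + ag g := by
  rw [ag]
  split_ifs <;> omega

theorem cst_c (g : ℕ) (hg : 2 ≤ g) :
    PowerSeries.constantCoeff (1 - PowerSeries.X ^ (3 * g) : PowerSeries A) = 1 := by
  rw [map_sub, map_one, map_pow, PowerSeries.constantCoeff_X, zero_pow (by omega), sub_zero]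

/-- Existence of the data. -/
theorem exists_scd (hROO : Stmt_ROO) (g : ℕ) (hg : 2 ≤ g)
    (h : IsUnit (((6 * g + 9).factorial : ℕ) : A)) : ∃ S : SCD A, S.g = g ∧ S.a = ag g := by
  have h3 : IsUnit ((3 : ℕ) : A) := unit_of h (by omega) (by omega)
  obtain ⟨⟨r, ⟨h1, h2⟩, -⟩, h4⟩ := hROO 3 h3 _ (cst_c (A := A) g hg)
  have h5 := h4 r h1 h2 3 (fun k hk => by
    rw [map_sub, PowerSeries.coeff_one, PowerSeries.coeff_X_pow, if_neg, if_neg, sub_zero]
    · rintro rfl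
      exact hk (Dvd.intro _ rfl)
    · rintro rfl
      exact hk (dvd_zero 3))
  exact ⟨⟨g, ag g, r, hg, ag_le g, ag_dvd g, h, h1, h2, h5⟩, rfl, rfl⟩

/-- Uniqueness of the data. -/
theorem scd_unique (hROO : Stmt_ROO) (S T : SCD A) (h1 : S.g = T.g) (h2 : S.a = T.a) : S = T := by
  obtain ⟨g, a, r, hg, ha, h3, hd, r1, r3, rc⟩ := S
  obtain ⟨g', a', r', hg', ha', h3', hd', r1', r3', rc'⟩ := T
  simp only at h1 h2
  subst h1 h2
  have hu : IsUnit ((3 : ℕ) : A) := unit_of hd (by omega) (by omega)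
  obtain ⟨⟨s, -, hs⟩, -⟩ := hROO 3 hu _ (cst_c (A := A) g hg)
  have e1 := hs r ⟨r1, r3⟩
  have e2 := hs r' ⟨r1', r3'⟩
  have e : r = r' := e1.trans e2.symm
  subst e
  rfl

/-- The base change of the data. -/
noncomputable def SCDmap (φ : A →+* B) (S : SCD A) : SCD B where
  g := S.g
  a := S.a
  r := PowerSeries.map φ S.r
  hg := S.hg
  ha := S.ha
  h3 := S.h3
  hd := by
    have := S.hd.map φ
    rwa [map_natCast] at this
  r1 := by
    rw [← PowerSeries.coeff_zero_eq_constantCoeff_apply, PowerSeries.coeff_map,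
      PowerSeries.coeff_zero_eq_constantCoeff_apply, S.r1, map_one]
  r3 := by
    rw [← map_pow, S.r3, map_sub, map_one, map_pow, PowerSeries.map_X]
  rc k hk := by
    rw [PowerSeries.coeff_map, S.rc k hk, map_zero]

theorem lmap_Y (φ : A →+* B) (S : SCD A) : lmap φ S.Y = (SCDmap φ S).Y := by
  rw [SCD.Y, map_mul, lmap_single, map_one, SUB.lmap_psl]
  rfl

theorem lmap_W (φ : A →+* B) (S : SCD A) : lmap φ S.W = (SCDmap φ S).W := by
  rw [SCD.W, map_mul, lmap_single, map_one, SUB.lmap_psl, map_pow]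
  rfl

theorem lmap_mem (φ : A →+* B) (S : SCD A) {f : LaurentSeries A} (hf : f ∈ S.R) :
    lmap φ f ∈ (SCDmap φ S).R := by
  refine Algebra.adjoin_induction (p := fun f _ => lmap φ f ∈ (SCDmap φ S).R) ?_ ?_ ?_ ?_ hf
  · rintro f (rfl | rfl | rfl)
    · rw [lmap_zz]
      exact (SCDmap φ S).x.2
    · rw [lmap_Y]
      exact (SCDmap φ S).y.2
    · rw [lmap_W]
      exact (SCDmap φ S).w.2
  · intro a
    rw [lmap_algebraMap]
    exact (SCDmap φ S).R.algebraMap_mem _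
  · intro f h _ _ h1 h2
    rw [map_add]
    exact add_mem h1 h2
  · intro f h _ _ h1 h2
    rw [map_mul]
    exact mul_mem h1 h2

/-! ### The coordinate `τ` -/

/-- The function `z`. -/
noncomputable def zf (g : ℕ) (ζ : A) (S : SCD A) : LaurentSeries A :=
  zz A 3 ^ (2 * g + 3) + ζ • S.Y

theorem zf_mem (g : ℕ) (ζ : A) (S : SCD A) : zf g ζ S ∈ S.R :=
  add_mem (pow_mem S.x.2 _) (S.R.smul_mem S.y.2 ζ)

theorem lmap_zf (φ : A →+* B) (g : ℕ) (ζ : A) (S : SCD A) :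
    lmap φ (zf g ζ S) = zf g (φ ζ) (SCDmap φ S) := by
  rw [zf, zf, map_add, map_pow, lmap_zz, lmap_smul, lmap_Y]

/-- The series `z σ^d`. -/
noncomputable def cs (g : ℕ) (ζ : A) (S : SCD A) : PowerSeries A :=
  1 + ζ • (PowerSeries.X ^ (6 * g + 9 - S.n1) * S.r)

theorem cs_one (g : ℕ) (ζ : A) (S : SCD A) (hS : S.g = g) :
    PowerSeries.constantCoeff (cs g ζ S) = 1 := by
  have h : 0 < 6 * g + 9 - S.n1 := by
    have := S.ha
    simp only [SCD.n1]
    omega
  rw [cs, map_add, map_one, PowerSeries.smul_eq_C_mul, map_mul, map_mul, map_pow,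
    PowerSeries.constantCoeff_X, zero_pow (by omega), zero_mul, mul_zero, add_zero]

theorem psl_smul (ζ : A) (f : PowerSeries A) : psl A (ζ • f) = ζ • psl A f := by
  ext m
  rw [HahnSeries.coeff_smul, SUB.psl_coeff, SUB.psl_coeff]
  split_ifs
  · rw [smul_zero]
  · rw [PowerSeries.coeff_smul, smul_eq_mul]

theorem psl_X_pow (k : ℕ) : psl A (PowerSeries.X ^ k) = HahnSeries.single (k : ℤ) 1 :=
  HahnSeries.ofPowerSeries_X_pow k

theorem cs_eq (g : ℕ) (ζ : A) (S : SCD A) (hS : S.g = g) :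
    psl A (cs g ζ S) = psl A (PowerSeries.X ^ (6 * g + 9)) * zf g ζ S := by
  have h0 : S.n1 ≤ 6 * g + 9 := by
    have := S.ha
    simp only [SCD.n1]
    omega
  rw [cs, map_add, map_one, psl_smul, map_mul, zf, mul_add, psl_X_pow, psl_X_pow]
  congr 1
  · rw [zz, HahnSeries.single_pow, one_pow, HahnSeries.single_mul_single, one_mul, nsmul_eq_mul]
    have : ((6 * g + 9 : ℕ) : ℤ) + ((2 * g + 3 : ℕ) : ℤ) * (-((3 : ℕ) : ℤ)) = 0 := by
      push_cast
      ring
    rw [this]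
    rfl
  · rw [mul_smul_comm, SCD.Y, ← mul_assoc, HahnSeries.single_mul_single, one_mul]
    congr 3
    push_cast [Nat.cast_sub h0]
    ring

/-- Existence of the coordinate. -/
theorem exists_u (hROO : Stmt_ROO) (g : ℕ) (ζ : A) (S : SCD A) (hS : S.g = g) :
    ∃ u : PowerSeries A, PowerSeries.constantCoeff u = 0 ∧ PowerSeries.coeff 1 u = 1 ∧
      psl A u ^ (6 * g + 9) * zf g ζ S = 1 := by
  have hd : IsUnit (((6 * g + 9 : ℕ)) : A) := by
    subst hS
    exact unit_of S.hd (by omega) (by omega)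
  obtain ⟨⟨s, ⟨h1, h2⟩, -⟩, -⟩ := hROO (6 * g + 9) hd _ (cs_one g ζ S hS)
  have hs : s * PowerSeries.invOfUnit s 1 = 1 :=
    PowerSeries.mul_invOfUnit _ _ (by rw [h1]; rfl)
  refine ⟨PowerSeries.X * PowerSeries.invOfUnit s 1, ?_, ?_, ?_⟩
  · rw [map_mul, PowerSeries.constantCoeff_X, zero_mul]
  · rw [← zero_add 1, PowerSeries.coeff_succ_X_mul, PowerSeries.coeff_zero_eq_constantCoeff_apply,
      PowerSeries.constantCoeff_invOfUnit]
    simp
  · rw [← map_pow, mul_pow, map_mul, mul_assoc, mul_comm (psl A (_ ^ _)) (zf g ζ S), ← mul_assoc,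
      ← cs_eq g ζ S hS, ← map_mul, ← h2, ← mul_pow, hs, one_pow, map_one]

/-- Uniqueness of the coordinate. -/
theorem u_unique (hROO : Stmt_ROO) (g : ℕ) (ζ : A) (S : SCD A) (hS : S.g = g)
    (u v : PowerSeries A) (hu0 : PowerSeries.constantCoeff u = 0)
    (hu1 : PowerSeries.coeff 1 u = 1) (hu : psl A u ^ (6 * g + 9) * zf g ζ S = 1)
    (hv0 : PowerSeries.constantCoeff v = 0)
    (hv1 : PowerSeries.coeff 1 v = 1) (hv : psl A v ^ (6 * g + 9) * zf g ζ S = 1) : u = v := by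
  have hd : IsUnit (((6 * g + 9 : ℕ)) : A) := by
    subst hS
    exact unit_of S.hd (by omega) (by omega)
  obtain ⟨u', rfl⟩ := PowerSeries.X_dvd_iff.2 hu0
  obtain ⟨v', rfl⟩ := PowerSeries.X_dvd_iff.2 hv0
  rw [← zero_add 1, PowerSeries.coeff_succ_X_mul,
    PowerSeries.coeff_zero_eq_constantCoeff_apply] at hu1 hv1
  have key : ∀ w : PowerSeries A, psl A (PowerSeries.X * w) ^ (6 * g + 9) * zf g ζ S = 1 →
      w ^ (6 * g + 9) * cs g ζ S = 1 := by
    intro w hw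
    apply HahnSeries.ofPowerSeries_injective (Γ := ℤ)
    change psl A _ = psl A _
    rw [map_mul, cs_eq g ζ S hS, map_one, ← mul_assoc, ← map_mul, mul_comm (w ^ _), ← mul_pow,
      map_pow, hw]
  have h1 := key u' hu
  have h2 := key v' hv
  have h3 : u' ^ (6 * g + 9) = v' ^ (6 * g + 9) := by
    calc u' ^ (6 * g + 9) = u' ^ (6 * g + 9) * (v' ^ (6 * g + 9) * cs g ζ S) := by
          rw [h2, mul_one]
      _ = v' ^ (6 * g + 9) * (u' ^ (6 * g + 9) * cs g ζ S) := by ring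
      _ = _ := by rw [h1, mul_one]
  obtain ⟨⟨s, -, hs⟩, -⟩ := hROO (6 * g + 9) hd (v' ^ (6 * g + 9)) (by
    rw [map_pow, hv1, one_pow])
  rw [hs u' ⟨hu1, h3⟩, hs v' ⟨hv1, rfl⟩]

theorem Phi_zz (u : PowerSeries A) (Φ : LaurentSeries A →ₐ[A] LaurentSeries A) (hΦ : IsSub u Φ)
    (g : ℕ) (ζ : A) (S : SCD A) (hu : psl A u ^ (6 * g + 9) * zf g ζ S = 1) :
    Φ (zz A (6 * g + 9)) = zf g ζ S := by
  have h1 : zz A (6 * g + 9) * HahnSeries.single 1 1 ^ (6 * g + 9) = 1 := by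
    rw [zz, HahnSeries.single_pow, one_pow, HahnSeries.single_mul_single, one_mul, nsmul_eq_mul,
      mul_one, neg_add_cancel]
    rfl
  have h2 := congrArg Φ h1
  rw [map_mul, map_pow, hΦ.tau, map_one] at h2
  calc Φ (zz A (6 * g + 9)) = Φ (zz A (6 * g + 9)) * (psl A u ^ (6 * g + 9) * zf g ζ S) := by
        rw [hu, mul_one]
    _ = (Φ (zz A (6 * g + 9)) * psl A u ^ (6 * g + 9)) * zf g ζ S := by ring
    _ = _ := by rw [h2, one_mul]

end

end GRA

open GRA in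
theorem t_GRA (hROO : Stmt_ROO) (hSUB : Stmt_SUB) (hGST : Stmt_GST) (hGFS : Stmt_GFS)
    (hGSM : Stmt_GSM) (hGTT : Stmt_GTT) (hGNO : Stmt_GNO) (hGFR : Stmt_GFR) (hGTR : Stmt_GTR) :
    Stmt_GRA := by
  intro g hg
  refine ⟨?_, ?_, ?_⟩
  · intro A _ ζ hd
    obtain ⟨S, hS1, hS2⟩ := exists_scd hROO g hg hd
    obtain ⟨u, hu0, hu1, hu⟩ := exists_u hROO g ζ S hS1
    obtain ⟨Φ, hΦ⟩ := hSUB.1 u hu0 (by rw [hu1]; exact isUnit_one)
    exact ⟨_, S, u, Φ, hS1, hS2, hu0, hu1, hΦ, hu, rfl⟩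
  · rintro A _ ζ R ⟨S, u, Φ, hS1, hS2, hu0, hu1, hΦ, hu, hR⟩
    have hu1' : IsUnit (PowerSeries.coeff 1 u) := by
      rw [hu1]
      exact isUnit_one
    obtain ⟨t1, t2, t3, t4, t5, t6⟩ := hGTR u hu0 hu1' Φ hΦ S.R R hR
    refine ⟨?_, ?_, ?_, t3 (hGFS S), t2 (hGSM S), t4 (hGTT S).2, t5 (hGNO S), ?_⟩
    · rintro R' ⟨S', u', Φ', hS1', hS2', hu0', hu1', hΦ', hu', hR'⟩
      have hS : S' = S := scd_unique hROO S' S (hS1'.trans hS1.symm) (hS2'.trans hS2.symm)
      subst hS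
      have huu : u' = u := u_unique hROO g ζ S' hS1 u' u hu0' hu1' hu' hu0 hu1 hu
      subst huu
      have hΦΦ := (hSUB.2.1 u' hu0 (by rw [hu1]; exact isUnit_one) _ hΦ).1 _ hΦ'
      rw [hR', hR, hΦΦ]
    · have := t1 S.g (hGST S).2.2.2.2.2.2.2.2.2.2.2.2
      rwa [hS1] at this
    · rw [hR]
      change (Φ : LaurentSeries A →ₐ[A] LaurentSeries A) (zz A (6 * g + 9)) ∈ S.R
      rw [Phi_zz u _ hΦ g ζ S hu]
      exact zf_mem g ζ S
    · intro p hp hc hpg
      exact t6 p (hGFR S p hp hc (by rw [hS1]; exact hpg))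
  · rintro A B _ _ ζ R ⟨S, u, Φ, hS1, hS2, hu0, hu1, hΦ, hu, hR⟩ φ
    have hv0 : PowerSeries.constantCoeff (PowerSeries.map φ u) = 0 := by
      rw [← PowerSeries.coeff_zero_eq_constantCoeff_apply, PowerSeries.coeff_map,
        PowerSeries.coeff_zero_eq_constantCoeff_apply, hu0, map_zero]
    have hv1 : PowerSeries.coeff 1 (PowerSeries.map φ u) = 1 := by
      rw [PowerSeries.coeff_map, hu1, map_one]
    obtain ⟨Ψ, hΨ⟩ := hSUB.1 (PowerSeries.map φ u) hv0 (by rw [hv1]; exact isUnit_one)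
    have hcomm := hSUB.2.2 φ u hu0 (by rw [hu1]; exact isUnit_one) _ _ hΦ hΨ
    refine ⟨SCDmap φ S, PowerSeries.map φ u, Ψ, hS1, hS2, hv0, hv1, hΨ, ?_, ?_⟩
    · change psl B (PowerSeries.map φ u) ^ (6 * g + 9) * zf g (φ ζ) (SCDmap φ S) = 1
      rw [← SUB.lmap_psl, ← lmap_zf, ← map_pow, ← map_mul]
      change lmap φ (psl A u ^ (6 * g + 9) * (zz A 3 ^ (2 * g + 3) + ζ • S.Y)) = 1
      rw [hu, map_one]
    · apply le_antisymm
      · refine Algebra.adjoin_le ?_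
        rintro _ ⟨f, hf, rfl⟩
        change (Ψ : LaurentSeries B →ₐ[B] LaurentSeries B) (lmap φ f) ∈ (SCDmap φ S).R
        rw [← hcomm]
        apply lmap_mem
        rw [hR] at hf
        exact hf
      · have hle : (SCDmap φ S).R ≤
            (bc1 φ R).map (Ψ : LaurentSeries B →ₐ[B] LaurentSeries B) := by
          have hgen : ∀ f : LaurentSeries A, f ∈ S.R → lmap φ f ∈
              (bc1 φ R).map (Ψ : LaurentSeries B →ₐ[B] LaurentSeries B) := by
            intro f hf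
            refine ⟨lmap φ (Φ.symm f), Algebra.subset_adjoin ⟨Φ.symm f, ?_, rfl⟩, ?_⟩
            · rw [hR]
              change Φ (Φ.symm f) ∈ S.R
              rw [Φ.apply_symm_apply]
              exact hf
            · have h := hcomm (Φ.symm f)
              change lmap φ (Φ (Φ.symm f)) = _ at h
              rw [Φ.apply_symm_apply] at h
              exact h.symm
          refine Algebra.adjoin_le ?_
          rintro f (rfl | rfl | rfl)
          · rw [← lmap_zz φ]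
            exact hgen _ S.x.2
          · rw [← lmap_Y]
            exact hgen _ S.y.2
          · rw [← lmap_W]
            exact hgen _ S.w.2
        intro f hf
        obtain ⟨h, hh, he⟩ := hle hf
        have : h = f := Ψ.injective he
        rwa [← this]

end Pool.Agent.MG.G0
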