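import Pool.Agent.MG.G0.GRA
import Pool.Agent.MG.G0.StmtsZL

/-!
# The special curve over algebraically closed fields (PAPER_G.md, GRF)
-/

namespace Pool.Agent.MG.G0

namespace GRF

/-- The homomorphism to dual numbers given by a critical point. -/
theorem exists_hom (hGLF : Stmt_GLF) {K : Type} [Field K] (g : ℕ) (ζ : K) (S : SCD K)
    (hS : S.g = g) (u : PowerSeries K) (Φ : LaurentSeries K ≃ₐ[K] LaurentSeries K)
    (hΦ : IsSub u (Φ : LaurentSeries K →ₐ[K] LaurentSeries K))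
    (hu : psl K u ^ (6 * g + 9) * GRA.zf g ζ S = 1) (R : Subalgebra K (LaurentSeries K))
    (hR : R = S.R.comap (Φ : LaurentSeries K →ₐ[K] LaurentSeries K)) (z : R)
    (hz : (z : LaurentSeries K) = zz K (6 * g + 9)) (β : K) (x y w : DualNumber K)
    (h1 : y ^ 2 = x ^ S.a * w) (h2 : y * w = x ^ (g + 1) - x)
    (h3 : w ^ 2 = (x ^ (g + 1 - S.a) - x ^ (1 - S.a)) * y)
    (h4 : x.snd ≠ 0 ∨ y.snd ≠ 0 ∨ w.snd ≠ 0)
    (h5 : x ^ (2 * g + 3) + TrivSqZeroExt.inl ζ * y = TrivSqZeroExt.inl β) :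
    ∃ h : R →ₐ[K] DualNumber K, h z = TrivSqZeroExt.inl β ∧ ∃ f : R, (h f).snd ≠ 0 := by
  subst hS hR
  obtain ⟨h, ⟨hx, hy, hw⟩, -⟩ := hGLF S (DualNumber K) x y w h1 h2 h3
  let ψ : (S.R.comap (Φ : LaurentSeries K →ₐ[K] LaurentSeries K)) →ₐ[K] S.R :=
    { toFun := fun f => ⟨Φ f, f.2⟩
      map_one' := Subtype.ext (map_one Φ)
      map_zero' := Subtype.ext (map_zero Φ)
      map_add' := fun f h => Subtype.ext (map_add Φ _ _)
      map_mul' := fun f h => Subtype.ext (map_mul Φ _ _)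
      commutes' := fun a => Subtype.ext (Φ.commutes a) }
  have hψ : ∀ f : S.R, ∃ f' : S.R.comap (Φ : LaurentSeries K →ₐ[K] LaurentSeries K),
      ψ f' = f := by
    intro f
    refine ⟨⟨Φ.symm f, ?_⟩, Subtype.ext (Φ.apply_symm_apply _)⟩
    change Φ (Φ.symm f) ∈ S.R
    rw [Φ.apply_symm_apply]
    exact f.2
  refine ⟨h.comp ψ, ?_, ?_⟩
  · have e : ψ z = S.x ^ (2 * S.g + 3) + ζ • S.y := by
      apply Subtype.ext
      change Φ (z : LaurentSeries K) = zz K 3 ^ (2 * S.g + 3) + ζ • S.Y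
      rw [hz]
      exact GRA.Phi_zz u _ hΦ S.g ζ S hu
    rw [AlgHom.comp_apply, e, map_add, map_pow, map_smul, hx, hy, ← h5,
      TrivSqZeroExt.inl_mul_eq_smul]
  · obtain h4 | h4 | h4 := h4
    · obtain ⟨f, hf⟩ := hψ S.x
      exact ⟨f, by rw [AlgHom.comp_apply, hf, hx]; exact h4⟩
    · obtain ⟨f, hf⟩ := hψ S.y
      exact ⟨f, by rw [AlgHom.comp_apply, hf, hy]; exact h4⟩
    · obtain ⟨f, hf⟩ := hψ S.w
      exact ⟨f, by rw [AlgHom.comp_apply, hf, hw]; exact h4⟩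

open Polynomial in
theorem prod_eq {K : Type} [Field K] {n : ℕ} (β : Fin n → K) (hβ : Function.Injective β)
    (f : K[X]) (hf : f.Monic) (hn : f.natDegree = n) (h : ∀ l, f.eval (β l) = 0) :
    f = ∏ l, (X - C (β l)) := by
  have h1 : (∏ l, (X - C (β l))) ∣ f :=
    Finset.prod_dvd_of_coprime (fun i _ j _ hij => pairwise_coprime_X_sub_C hβ hij)
      (fun l _ => dvd_iff_isRoot.2 (h l))
  have h2 : (∏ l, (X - C (β l))).Monic := monic_prod_of_monic _ _ fun l _ => monic_X_sub_C _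
  refine eq_of_monic_of_dvd_of_natDegree_le h2 hf h1 ?_
  rw [natDegree_prod_of_monic _ _ fun l _ => monic_X_sub_C _, hn]
  simp

end GRF

open GRF in
theorem t_GRF (hSDF : Stmt_SDF) (hZD2 : Stmt_ZD2) (hZDB : Stmt_ZDB) (hGLF : Stmt_GLF)
    (hGCV : Stmt_GCV) (hGDG : Stmt_GDG) (hGRA : Stmt_GRA) : Stmt_GRF := by
  intro g hg K _ _ ζ R hRG
  obtain ⟨-, hKr, hzm, hFS, hSm, -, -, -⟩ := (hGRA g hg).2.1 ζ R hRG
  refine ⟨hSDF hKr hFS hSm, ?_⟩
  intro F _ _ hζ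
  obtain ⟨S, u, Φ, hS1, hS2, hu0, hu1, hΦ, hu, hR⟩ := hRG
  have hd : (((6 * g + 9).factorial : ℕ) : K) ≠ 0 := by
    have := S.hd.ne_zero
    rwa [hS1] at this
  have h3 : ¬ 3 ∣ g + 1 + S.a := by
    have := S.h3
    rwa [hS1] at this
  obtain ⟨β, hβ, hpt⟩ := hGCV (F := F) g S.a hg S.ha h3 hd ζ hζ
  have hd1 : ((6 * g + 9 : ℕ) : K) ≠ 0 := by
    have hu9 : IsUnit ((6 * g + 9 : ℕ) : K) :=
      GRA.unit_of (g := g) (isUnit_iff_ne_zero.2 hd) (by omega) le_rfl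
    exact hu9.ne_zero
  obtain ⟨⟨f, hf1, hf2⟩, hdeg, -⟩ := hZD2 K g (6 * g + 9) R (by omega) hd1 hKr hzm
  have hroot : ∀ l, f.eval (β l) = 0 := by
    intro l
    obtain ⟨x, y, w, h1, h2, h3', h4, h5⟩ := hpt l
    obtain ⟨h, hh1, hh2⟩ := exists_hom hGLF g ζ S hS1 u Φ hΦ hu R hR ⟨zz K (6 * g + 9), hzm⟩ rfl
      (β l) x y w h1 h2 h3' h4 h5
    obtain ⟨e, G, he, hG, v, hv, hdet⟩ := hf2
    have h0 := hGDG g (6 * g + 9) (by omega) hd1 R hKr ⟨zz K (6 * g + 9), hzm⟩ rfl e G he hG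
      (β l) h hh1 hh2
    rw [hdet, Polynomial.eval_mul] at h0
    have hv' : v.eval (β l) ≠ 0 := (hv.map (Polynomial.evalRingHom (β l))).ne_zero
    exact (mul_eq_zero.1 h0).resolve_left hv'
  have hfe := prod_eq β hβ f hf1 (by rw [(hdeg f hf2).2]; omega) hroot
  rw [hfe] at hf2
  refine ⟨β, hβ, hf2, ?_⟩
  intro k _ φ
  have h := (hZDB K k φ g (6 * g + 9) R (by omega) hKr hzm).2.2 _ hf2
  rw [Polynomial.map_prod] at h
  simpa only [Polynomial.map_sub, Polynomial.map_X, Polynomial.map_C] using h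

end Pool.Agent.MG.G0
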