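import Pool.Agent.MG.G0.StmtsG

/-!
# GSM: the smoothness certificate of the special curve
-/

open Polynomial

namespace Pool.Agent.MG.G0

namespace GSM

/-! ## Linear algebra in the module of differentials -/

section lin

variable {R M : Type} [CommRing R] [AddCommGroup M] [Module R M]

theorem rels (a b a' b' y w h : R) (dX dY dW : M) (h2 : h * 2 = 1)
    (e1 : y ^ 2 = a * w) (e2 : y * w = a * b) (e3 : w ^ 2 = b * y)
    (r1 : (2 * y) • dY = a • dW + (a' * w) • dX)
    (r2 : y • dW + w • dY = (a' * b + a * b') • dX)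
    (r3 : (2 * w) • dW = b • dY + (b' * y) • dX) :
    (3 * a * w) • dY = (a * (2 * a' * b + a * b')) • dX ∧
    (3 * a * w) • dW = ((a' * b + 2 * a * b') * y) • dX ∧
    (a * (2 * a' * b + a * b')) • dW = ((a' * b + 2 * a * b') * y) • dY ∧
    (3 * a * b) • dY = ((2 * a' * b + a * b') * y) • dX ∧
    (3 * a * b) • dW = ((a' * b + 2 * a * b') * w) • dX ∧
    ((2 * a' * b + a * b') * y) • dW = ((a' * b + 2 * a * b') * w) • dY ∧
    (3 * b * y) • dY = ((2 * a' * b + a * b') * w) • dX ∧
    (3 * b * y) • dW = (b * (a' * b + 2 * a * b')) • dX ∧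
    ((2 * a' * b + a * b') * w) • dW = (b * (a' * b + 2 * a * b')) • dY := by
  have q1 : (3 * a * w) • dY = (a * (2 * a' * b + a * b')) • dX := by
    linear_combination (norm := module) a • r2 + y • r1 - (2 : R) • (e1 • dY) + a' • (e2 • dX)
  have q8 : (3 * b * y) • dW = (b * (a' * b + 2 * a * b')) • dX := by
    linear_combination (norm := module) b • r2 + w • r3 - (2 : R) • (e3 • dW) + b' • (e2 • dX)
  have q4 : (3 * a * b) • dY = ((2 * a' * b + a * b') * y) • dX := by
    linear_combination (norm := module) w • r1 + y • r2 - (3 : R) • (e2 • dY) - e1 • dW +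
      a' • (e3 • dX)
  have q5 : (3 * a * b) • dW = ((a' * b + 2 * a * b') * w) • dX := by
    linear_combination (norm := module) y • r3 + w • r2 - (3 : R) • (e2 • dW) - e3 • dY +
      b' • (e1 • dX)
  have q2 : (3 * a * w) • dW = ((a' * b + 2 * a * b') * y) • dX := by
    linear_combination (norm := module) a • r3 + y • r2 - e1 • dW - e2 • dY
  have q7 : (3 * b * y) • dY = ((2 * a' * b + a * b') * w) • dX := by
    linear_combination (norm := module) b • r1 + w • r2 - e3 • dY - e2 • dW
  have c2 : ∀ u v : M, (2 : R) • u = (2 : R) • v → u = v := by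
    intro u v huv
    have := congrArg (fun z => h • z) huv
    simpa only [smul_smul, h2, one_smul] using this
  have q3 : (a * (2 * a' * b + a * b')) • dW = ((a' * b + 2 * a * b') * y) • dY := by
    apply c2
    linear_combination (norm := module) a' • q5 - (a' * b + 2 * a * b') • r1
  have q9 : ((2 * a' * b + a * b') * w) • dW = (b * (a' * b + 2 * a * b')) • dY := by
    apply c2
    linear_combination (norm := module) (2 * a' * b + a * b') • r3 - b' • q4
  have z1 : (a * 3 * w) • dY = (a * (2 * a' * b + a * b')) • dX := by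
    linear_combination (norm := module) q1
  have z2 : (b * 3 * w) • dY = (b * (2 * a' * b + a * b')) • dX := by
    linear_combination (norm := module) (3 * b) • r2 - q8
  have q6 : ((2 * a' * b + a * b') * y) • dW = ((a' * b + 2 * a * b') * w) • dY := by
    linear_combination (norm := module) (2 * a' * b + a * b') • r2 - b' • z1 - a' • z2
  exact ⟨q1, q2, q3, q4, q5, q6, q7, q8, q9⟩

/-- The cross relation for one derivation is enough on generators. -/
theorem cross {A : Type} [CommRing A] [Algebra A R] {s : Set R} (hs : Algebra.adjoin A s = ⊤)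
    (E : Derivation A R R)
    (h : ∀ f ∈ s, ∀ k ∈ s, E f • KaehlerDifferential.D A R k = E k • KaehlerDifferential.D A R f)
    (f k : R) : E f • KaehlerDifferential.D A R k = E k • KaehlerDifferential.D A R f := by
  have h1 : ∀ k ∈ s, ∀ f : R,
      E f • KaehlerDifferential.D A R k = E k • KaehlerDifferential.D A R f := by
    intro k hk f
    have e : (LinearMap.toSpanSingleton R _ (KaehlerDifferential.D A R k)).compDer E =
        E k • KaehlerDifferential.D A R :=
      Derivation.ext_of_adjoin_eq_top s hs fun f hf => h f hf k hk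
    exact congrArg (fun D => D f) e
  have e : (LinearMap.toSpanSingleton R _ (KaehlerDifferential.D A R f)).compDer E =
      E f • KaehlerDifferential.D A R :=
    Derivation.ext_of_adjoin_eq_top s hs fun k hk => (h1 k hk f).symm
  exact (congrArg (fun D => D k) e).symm

theorem smul_cross {A : Type} [CommRing A] [Algebra A R] (c : R) (D : Derivation A R R)
    (h : ∀ f k : R, D f • KaehlerDifferential.D A R k = D k • KaehlerDifferential.D A R f)
    (f k : R) : (c • D) f • KaehlerDifferential.D A R k =
      (c • D) k • KaehlerDifferential.D A R f := by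
  rw [Derivation.smul_apply, Derivation.smul_apply, smul_assoc, smul_assoc, h f k]

/-- A smoothness certificate from derivations with cross relations. -/
theorem smC_of {A : Type} [CommRing A] [Algebra A R] {n : ℕ} (D : Fin n → Derivation A R R)
    (g : Fin n → R) (h1 : ∑ i, D i (g i) = 1)
    (h2 : ∀ i, ∀ f k : R,
      D i f • KaehlerDifferential.D A R k = D i k • KaehlerDifferential.D A R f) : SmC A R := by
  refine ⟨n, D, g, h1, fun E f k => ?_⟩
  have h3 : ∀ i, ∀ f k : R, D i f * E k = D i k * E f := by
    intro i f k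
    have e := congrArg E.liftKaehlerDifferential (h2 i f k)
    rw [map_smul, map_smul, Derivation.liftKaehlerDifferential_comp_D,
      Derivation.liftKaehlerDifferential_comp_D, smul_eq_mul, smul_eq_mul] at e
    exact e
  have h4 : ∀ f : R, E f = ∑ i, E (g i) * D i f := by
    intro f
    calc E f = (∑ i, D i (g i)) * E f := by rw [h1, one_mul]
      _ = ∑ i, D i (g i) * E f := Finset.sum_mul _ _ _
      _ = ∑ i, E (g i) * D i f := Finset.sum_congr rfl fun i _ => by
        rw [h3 i (g i) f, mul_comm]
  rw [h4 f, h4 k, Finset.sum_smul, Finset.sum_smul]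
  refine Finset.sum_congr rfl fun i _ => ?_
  rw [mul_smul, mul_smul, h2 i f k]

end lin

/-! ## Polynomial identities -/

section pol

variable {A : Type} [CommRing A] (S : SCD A)

theorem cases_a : S.a = 0 ∨ S.a = 1 := by
  have := S.ha
  omega

theorem isUnit_nat {m : ℕ} (h1 : 1 ≤ m) (h2 : m ≤ 6 * S.g + 9) : IsUnit (m : A) := by
  have h : m ∣ (6 * S.g + 9).factorial := Nat.dvd_factorial h1 h2
  obtain ⟨k, hk⟩ := h
  have e := S.hd
  rw [hk, Nat.cast_mul] at e
  exact isUnit_of_mul_isUnit_left e

theorem cY_eq : S.cY = 2 * derivative S.pA * S.pB + S.pA * derivative S.pB := by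
  have hg := S.hg
  obtain ⟨n, hn⟩ : ∃ n, S.g = n + 1 := ⟨S.g - 1, by omega⟩
  rcases cases_a S with h | h
  · rw [SCD.cY, SCD.pA, SCD.pB, h, hn]
    simp only [pow_zero, Nat.sub_zero, derivative_sub, derivative_X_pow, derivative_one,
      Nat.cast_zero, add_zero, Nat.cast_add, Nat.cast_one, map_add, map_one, map_natCast,
      add_tsub_cancel_right, Nat.sub_self, mul_one]
    ring
  · rw [SCD.cY, SCD.pA, SCD.pB, h, hn]
    simp only [pow_one, Nat.sub_self, derivative_sub, derivative_X_pow, derivative_X, pow_zero,
      Nat.cast_add, Nat.cast_one, map_add, map_one, map_natCast, derivative_one,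
      add_tsub_cancel_right, mul_one]
    ring

theorem cW_eq : S.cW = derivative S.pA * S.pB + 2 * S.pA * derivative S.pB := by
  have hg := S.hg
  obtain ⟨n, hn⟩ : ∃ n, S.g = n + 1 := ⟨S.g - 1, by omega⟩
  rcases cases_a S with h | h
  · rw [SCD.cW, SCD.pA, SCD.pB, h, hn]
    simp only [pow_zero, Nat.sub_zero, derivative_X_pow, derivative_one,
      Nat.cast_zero, Nat.cast_add, Nat.cast_one, map_add, map_one, map_natCast,
      add_tsub_cancel_right, Nat.sub_self, mul_one, map_sub, map_mul, map_ofNat, sub_zero]
    ring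
  · rw [SCD.cW, SCD.pA, SCD.pB, h, hn]
    simp only [pow_one, Nat.sub_self, derivative_X_pow, derivative_X, pow_zero,
      Nat.cast_add, Nat.cast_one, map_add, map_one, map_natCast, derivative_one,
      add_tsub_cancel_right, map_sub, map_mul, map_ofNat]
    ring

theorem bezout : ∃ u v s : A[X],
    u * S.pD + v * (S.pA * S.cY) + s * (S.pB * S.cW) = 1 := by
  obtain ⟨k, hk⟩ := (isUnit_nat S (m := S.g) (by have := S.hg; omega) (by omega)).exists_left_inv
  have hg := S.hg
  obtain ⟨n, hn⟩ : ∃ n, S.g = n + 1 := ⟨S.g - 1, by omega⟩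
  have hk' : C k * (n + 1 : A[X]) = 1 := by
    rw [hn] at hk
    push_cast at hk
    have := congrArg (C : A → A[X]) hk
    simpa only [map_mul, map_add, map_natCast, map_one] using this
  rcases cases_a S with h | h
  · refine ⟨-C k * ((n : A[X]) + 2) ^ 2 * X ^ n, C k * ((n : A[X]) + 2) * X ^ (n + 1) - 1, 0, ?_⟩
    rw [SCD.cY, SCD.pA, SCD.pD, h, hn]
    simp only [pow_zero, Nat.cast_zero, add_zero, Nat.cast_add, Nat.cast_one, map_add, map_one,
      map_natCast]
    linear_combination (((n : A[X]) + 2) * X ^ (n + 1)) * hk'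
  · refine ⟨C k * ((n : A[X]) + 3) *
        ((2 * (n : A[X]) + 3) * X ^ (2 * n + 1) - (2 * (n : A[X]) + 4) * X ^ n),
      -C k * ((2 * (n : A[X]) + 3) * X ^ (2 * n + 1) - (2 * (n : A[X]) + 4) * X ^ n), 1, ?_⟩
    rw [SCD.cY, SCD.pA, SCD.pD, SCD.pB, SCD.cW, h, hn]
    simp only [pow_one, Nat.sub_self, pow_zero, Nat.cast_add, Nat.cast_one, map_add, map_one,
      map_natCast, add_tsub_cancel_right, map_sub, map_mul, map_ofNat]
    linear_combination (-((2 * (n : A[X]) + 3) * X ^ (2 * n + 2) -
      (2 * (n : A[X]) + 4) * X ^ (n + 1))) * hk'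

end pol

/-! ## The derivations -/

section der

variable {A : Type} [CommRing A] (S : SCD A)

theorem adjoin_top : Algebra.adjoin A ({S.x, S.y, S.w} : Set S.R) = ⊤ := by
  have h : (Subtype.val ⁻¹' ({zz A 3, S.Y, S.W} : Set (LaurentSeries A)) : Set S.R) =
      {S.x, S.y, S.w} := by
    ext f
    simp [Subtype.ext_iff, SCD.x, SCD.y, SCD.w]
  rw [← h]
  exact Algebra.adjoin_adjoin_coe_preimage

theorem ld_algebraMap (a : A) : ld (algebraMap A (LaurentSeries A) a) = 0 := by
  ext n
  rw [ld_coeff, coeff_algebraMap, HahnSeries.coeff_zero]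
  split_ifs with h
  · rw [h]
    simp
  · rw [mul_zero]

theorem exD (θ : LaurentSeries A) (p q r : S.R) (hx : θ * ld (zz A 3) = p)
    (hy : θ * ld S.Y = q) (hw : θ * ld S.W = r) :
    ∃ D : Derivation A S.R S.R, D S.x = p ∧ D S.y = q ∧ D S.w = r := by
  have h : ∀ f ∈ S.R, θ * ld f ∈ S.R := by
    intro f hf
    induction hf using Algebra.adjoin_induction with
    | mem f hf =>
      rcases hf with rfl | rfl | rfl
      · rw [hx]
        exact p.2
      · rw [hy]
        exact q.2
      · rw [hw]
        exact r.2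
    | algebraMap a =>
      rw [ld_algebraMap, mul_zero]
      exact zero_mem _
    | add f g _ _ h1 h2 =>
      rw [ld_add, mul_add]
      exact add_mem h1 h2
    | mul f g hf hg h1 h2 =>
      have e : θ * ld (f * g) = f * (θ * ld g) + g * (θ * ld f) := by
        rw [ld_mul]
        ring
      rw [e]
      exact add_mem (mul_mem hf h2) (mul_mem hg h1)
  refine ⟨Derivation.mk'
    { toFun := fun f => (⟨θ * ld (f : LaurentSeries A), h f f.2⟩ : S.R)
      map_add' := fun f g => Subtype.ext (by
        change θ * ld ((f : LaurentSeries A) + (g : LaurentSeries A)) =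
          θ * ld (f : LaurentSeries A) + θ * ld (g : LaurentSeries A)
        rw [ld_add, mul_add])
      map_smul' := fun a f => Subtype.ext (by
        change θ * ld (a • (f : LaurentSeries A)) = a • (θ * ld (f : LaurentSeries A))
        rw [ld_smul, mul_smul_comm]) } (fun f g => Subtype.ext (by
        change θ * ld ((f : LaurentSeries A) * (g : LaurentSeries A)) =
          (f : LaurentSeries A) * (θ * ld (g : LaurentSeries A)) +
            (g : LaurentSeries A) * (θ * ld (f : LaurentSeries A))
        rw [ld_mul]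
        ring)), Subtype.ext hx, Subtype.ext hy, Subtype.ext hw⟩

include S in
theorem ld_zz_inv : ∃ ι : LaurentSeries A, ι * ld (zz A 3) = 1 := by
  obtain ⟨k, hk⟩ := (isUnit_nat S (m := 3) (by omega) (by omega)).exists_left_inv
  have e : ld (zz A 3) = HahnSeries.single (-4 : ℤ) (-3 : A) := by
    ext n
    rw [ld_coeff, zz, HahnSeries.coeff_single, HahnSeries.coeff_single]
    by_cases h : n = -4
    · subst h
      rw [if_pos (by norm_num), if_pos rfl]
      norm_num
    · rw [if_neg (by push_cast; omega), if_neg h, mul_zero]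
  refine ⟨HahnSeries.single 4 (-k), ?_⟩
  rw [e, HahnSeries.single_mul_single]
  have e1 : (4 : ℤ) + -4 = 0 := by norm_num
  have e2 : -k * -3 = 1 := by
    push_cast at hk
    linear_combination hk
  rw [e1, e2]
  rfl

theorem cross3 (E : Derivation A S.R S.R)
    (h1 : E S.x • KaehlerDifferential.D A S.R S.y = E S.y • KaehlerDifferential.D A S.R S.x)
    (h2 : E S.x • KaehlerDifferential.D A S.R S.w = E S.w • KaehlerDifferential.D A S.R S.x)
    (h3 : E S.y • KaehlerDifferential.D A S.R S.w = E S.w • KaehlerDifferential.D A S.R S.y)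
    (f k : S.R) : E f • KaehlerDifferential.D A S.R k = E k • KaehlerDifferential.D A S.R f := by
  refine cross (adjoin_top S) E ?_ f k
  rintro f (rfl | rfl | rfl) k (rfl | rfl | rfl)
  · rfl
  · exact h1
  · exact h2
  · exact h1.symm
  · rfl
  · exact h3
  · exact h2.symm
  · exact h3.symm
  · rfl

end der

end GSM

/-- GSM: the special curve has a smoothness certificate. -/
theorem t_GSM (h1 : Stmt_GST) : Stmt_GSM := by
  intro A _ S
  obtain ⟨g1, g2, g3, g4, g5, g6, g7, g8, -, -, -, -, -⟩ := h1 S
  obtain ⟨v3, hv3⟩ := (GSM.isUnit_nat S (m := 3) (by omega) (by omega)).exists_left_inv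
  obtain ⟨v2, hv2⟩ := (GSM.isUnit_nat S (m := 2) (by omega) (by omega)).exists_left_inv
  obtain ⟨ι, hι⟩ := GSM.ld_zz_inv S
  -- coercions
  have hc : ∀ p : A[X], ((aeval S.x p : S.R) : LaurentSeries A) = zpol A 3 p := fun p => by
    rw [Polynomial.aeval_subalgebra_coe]
    rfl
  set a : S.R := aeval S.x S.pA with ha
  set b : S.R := aeval S.x S.pB with hb
  set a' : S.R := aeval S.x (derivative S.pA) with ha'
  set b' : S.R := aeval S.x (derivative S.pB) with hb'
  have hd : (aeval S.x S.pD : S.R) = a * b := by rw [← g4, map_mul]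
  have hY : (aeval S.x S.cY : S.R) = 2 * a' * b + a * b' := by
    rw [GSM.cY_eq, map_add, map_mul, map_mul, map_mul, map_ofNat]
  have hW : (aeval S.x S.cW : S.R) = a' * b + 2 * a * b' := by
    rw [GSM.cW_eq, map_add, map_mul, map_mul, map_mul, map_ofNat]
  have e1 : S.y ^ 2 = a * S.w := Subtype.ext (by
    change S.Y ^ 2 = (a : LaurentSeries A) * S.W
    rw [ha, hc, g1])
  have e2 : S.y * S.w = a * b := Subtype.ext (by
    rw [← hd, hc]
    exact g2)
  have e3 : S.w ^ 2 = b * S.y := Subtype.ext (by
    change S.W ^ 2 = (b : LaurentSeries A) * S.Y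
    rw [hb, hc, g3])
  -- the relations in the module of differentials
  have r1 : (2 * S.y) • KaehlerDifferential.D A S.R S.y =
      a • KaehlerDifferential.D A S.R S.w + (a' * S.w) • KaehlerDifferential.D A S.R S.x := by
    have h := congrArg (KaehlerDifferential.D A S.R) e1
    rw [pow_two, Derivation.leibniz, Derivation.leibniz, ha, Derivation.map_aeval] at h
    linear_combination (norm := module) h
  have r2 : S.y • KaehlerDifferential.D A S.R S.w + S.w • KaehlerDifferential.D A S.R S.y =
      (a' * b + a * b') • KaehlerDifferential.D A S.R S.x := by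
    have h := congrArg (KaehlerDifferential.D A S.R) e2
    rw [Derivation.leibniz, Derivation.leibniz, ha, hb, Derivation.map_aeval,
      Derivation.map_aeval] at h
    linear_combination (norm := module) h
  have r3 : (2 * S.w) • KaehlerDifferential.D A S.R S.w =
      b • KaehlerDifferential.D A S.R S.y + (b' * S.y) • KaehlerDifferential.D A S.R S.x := by
    have h := congrArg (KaehlerDifferential.D A S.R) e3
    rw [pow_two, Derivation.leibniz, Derivation.leibniz, hb, Derivation.map_aeval] at h
    linear_combination (norm := module) h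
  have hv2' : algebraMap A S.R v2 * 2 = 1 := by
    have h := congrArg (algebraMap A S.R) hv2
    simpa only [map_mul, map_ofNat, map_one, Nat.cast_ofNat] using h
  have hv3' : algebraMap A S.R v3 * 3 = 1 := by
    have h := congrArg (algebraMap A S.R) hv3
    simpa only [map_mul, map_ofNat, map_one, Nat.cast_ofNat] using h
  have hv3'' : algebraMap A (LaurentSeries A) v3 * 3 = 1 := by
    have h := congrArg (algebraMap A (LaurentSeries A)) hv3
    simpa only [map_mul, map_ofNat, map_one, Nat.cast_ofNat] using h
  obtain ⟨q1, q2, q3, q4, q5, q6, q7, q8, q9⟩ := GSM.rels a b a' b' S.y S.w _ _ _ _ hv2'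
    e1 e2 e3 r1 r2 r3
  rw [← hY] at q1 q3 q4 q6 q7 q9
  rw [← hW] at q2 q3 q5 q6 q8 q9
  -- the derivations
  set cy : S.R := aeval S.x S.cY with hcy
  set cw : S.R := aeval S.x S.cW with hcw
  set v : S.R := algebraMap A S.R v3 with hv
  have h3s : ∀ f : LaurentSeries A, (3 : A) • f = 3 * f := fun f => by
    rw [Algebra.smul_def, map_ofNat]
  rw [h3s, ← g2] at g7 g8
  have k1 : ι * S.W * ld S.Y = algebraMap A (LaurentSeries A) v3 * zpol A 3 S.cY := by
    linear_combination (-(ι * S.W * ld S.Y)) * hv3'' +
      (algebraMap A (LaurentSeries A) v3 * ι * S.Yi) * g7 +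
      (algebraMap A (LaurentSeries A) v3 * ι * (zpol A 3 S.cY * ld (zz A 3) -
        3 * S.W * ld S.Y)) * g5 + algebraMap A (LaurentSeries A) v3 * zpol A 3 S.cY * hι
  have k2 : ι * S.Y * ld S.W = algebraMap A (LaurentSeries A) v3 * zpol A 3 S.cW := by
    linear_combination (-(ι * S.Y * ld S.W)) * hv3'' +
      (algebraMap A (LaurentSeries A) v3 * ι * S.Wi) * g8 +
      (algebraMap A (LaurentSeries A) v3 * ι * (zpol A 3 S.cW * ld (zz A 3) -
        3 * S.Y * ld S.W)) * g6 + algebraMap A (LaurentSeries A) v3 * zpol A 3 S.cW * hι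
  obtain ⟨D1, x1, y1, w1⟩ := GSM.exD S (ι * S.Y ^ 2) (a * S.w) (v * (a * cy)) (v * (S.y * cw))
    (by
      change ι * S.Y ^ 2 * ld (zz A 3) = (a : LaurentSeries A) * S.W
      rw [ha, hc, ← g1]
      linear_combination S.Y ^ 2 * hι)
    (by
      change ι * S.Y ^ 2 * ld S.Y =
        algebraMap A (LaurentSeries A) v3 * ((a : LaurentSeries A) * (cy : LaurentSeries A))
      rw [ha, hcy, hc, hc, g1]
      linear_combination zpol A 3 S.pA * k1)
    (by
      change ι * S.Y ^ 2 * ld S.W =
        algebraMap A (LaurentSeries A) v3 * (S.Y * (cw : LaurentSeries A))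
      rw [hcw, hc]
      linear_combination S.Y * k2)
  obtain ⟨D2, x2, y2, w2⟩ := GSM.exD S (ι * (S.Y * S.W)) (a * b) (v * (S.y * cy)) (v * (S.w * cw))
    (by
      change ι * (S.Y * S.W) * ld (zz A 3) = ((a * b : S.R) : LaurentSeries A)
      rw [← hd, hc, ← g2]
      linear_combination (S.Y * S.W) * hι)
    (by
      change ι * (S.Y * S.W) * ld S.Y =
        algebraMap A (LaurentSeries A) v3 * (S.Y * (cy : LaurentSeries A))
      rw [hcy, hc]
      linear_combination S.Y * k1)
    (by
      change ι * (S.Y * S.W) * ld S.W =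
        algebraMap A (LaurentSeries A) v3 * (S.W * (cw : LaurentSeries A))
      rw [hcw, hc]
      linear_combination S.W * k2)
  obtain ⟨D3, x3, y3, w3⟩ := GSM.exD S (ι * S.W ^ 2) (b * S.y) (v * (S.w * cy)) (v * (b * cw))
    (by
      change ι * S.W ^ 2 * ld (zz A 3) = (b : LaurentSeries A) * S.Y
      rw [hb, hc, ← g3]
      linear_combination S.W ^ 2 * hι)
    (by
      change ι * S.W ^ 2 * ld S.Y =
        algebraMap A (LaurentSeries A) v3 * (S.W * (cy : LaurentSeries A))
      rw [hcy, hc]
      linear_combination S.W * k1)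
    (by
      change ι * S.W ^ 2 * ld S.W =
        algebraMap A (LaurentSeries A) v3 * ((b : LaurentSeries A) * (cw : LaurentSeries A))
      rw [hb, hcw, hc, hc, g3]
      linear_combination zpol A 3 S.pB * k2)
  -- the cross relations
  have c1 := GSM.cross3 S D1
    (by
      rw [x1, y1]
      linear_combination (norm := module) v • q1 -
        (hv3' * (a * S.w)) • KaehlerDifferential.D A S.R S.y)
    (by
      rw [x1, w1]
      linear_combination (norm := module) v • q2 -
        (hv3' * (a * S.w)) • KaehlerDifferential.D A S.R S.w)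
    (by rw [y1, w1]; linear_combination (norm := module) v • q3)
  have c2 := GSM.cross3 S D2
    (by
      rw [x2, y2]
      linear_combination (norm := module) v • q4 -
        (hv3' * (a * b)) • KaehlerDifferential.D A S.R S.y)
    (by
      rw [x2, w2]
      linear_combination (norm := module) v • q5 -
        (hv3' * (a * b)) • KaehlerDifferential.D A S.R S.w)
    (by rw [y2, w2]; linear_combination (norm := module) v • q6)
  have c3 := GSM.cross3 S D3
    (by
      rw [x3, y3]
      linear_combination (norm := module) v • q7 -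
        (hv3' * (b * S.y)) • KaehlerDifferential.D A S.R S.y)
    (by
      rw [x3, w3]
      linear_combination (norm := module) v • q8 -
        (hv3' * (b * S.y)) • KaehlerDifferential.D A S.R S.w)
    (by rw [y3, w3]; linear_combination (norm := module) v • q9)
  -- the certificate
  obtain ⟨p, q, s, hpqs⟩ := GSM.bezout S
  have hB := congrArg (aeval S.x : A[X] → S.R) hpqs
  rw [map_add, map_add, map_mul, map_mul, map_mul, map_mul, map_mul, map_one, hd, ← ha, ← hb,
    ← hcy, ← hcw] at hB
  refine GSM.smC_of ![(aeval S.x p : S.R) • D2, (3 * aeval S.x q : S.R) • D1,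
    (3 * aeval S.x s : S.R) • D3] ![S.x, S.y, S.w] ?_ ?_
  · rw [Fin.sum_univ_three]
    simp only [Matrix.cons_val_zero, Matrix.cons_val_one, Matrix.cons_val]
    rw [Derivation.smul_apply, Derivation.smul_apply, Derivation.smul_apply, x2, y1, w3,
      smul_eq_mul, smul_eq_mul, smul_eq_mul]
    linear_combination hB + (aeval S.x q * (a * cy) + aeval S.x s * (b * cw)) * hv3'
  · intro i f k
    fin_cases i
    · exact GSM.smul_cross _ D2 c2 f k
    · exact GSM.smul_cross _ D1 c1 f k
    · exact GSM.smul_cross _ D3 c3 f k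


end Pool.Agent.MG.G0
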