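import Pool.Agent.MG.G0.StmtsG
import Pool.Agent.MG.G0.ZL.L2

/-!
# The structure of the ring of the special curve
-/

namespace Pool.Agent.MG.G0

open ZL

namespace GST

section

variable {A : Type} [CommRing A]

/-- The monomial `σ^n`. -/
noncomputable abbrev sg (A : Type) [CommRing A] (n : ℤ) : LaurentSeries A := HahnSeries.single n 1

theorem sg_mul (m n : ℤ) : sg A m * sg A n = sg A (m + n) := by
  rw [HahnSeries.single_mul_single, one_mul]

theorem sg_pow (m : ℤ) (k : ℕ) : sg A m ^ k = sg A (k * m) := by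
  rw [HahnSeries.single_pow, one_pow, nsmul_eq_mul]

theorem sg_zero : sg A 0 = 1 := rfl

theorem zz_eq (k : ℕ) : zz A 3 ^ k = sg A (-(3 * k : ℤ)) := by
  rw [zz_pow]
  congr 1

theorem zz_eq1 : zz A 3 = sg A (-3) := rfl

theorem psl_X_pow (k : ℕ) : psl A (PowerSeries.X ^ k) = sg A k :=
  HahnSeries.ofPowerSeries_X_pow k

/-- The class of `n` modulo three. -/
theorem pr_sg {n : ℤ} {j : ZMod 3} (h : (n : ZMod 3) = j) : pr j (sg A n) = sg A n := by
  ext m
  rw [pr_coeff]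
  split_ifs with h1
  · rfl
  · rw [HahnSeries.coeff_single_of_ne]
    rintro rfl
    exact h1 h

theorem pr_mul_eq {i j k : ZMod 3} {f h : LaurentSeries A} (hf : pr i f = f) (hh : pr j h = h)
    (hk : i + j = k) : pr k (f * h) = f * h := by
  rw [pr_mul_of hf, ← hk, add_sub_cancel_left, hh]

theorem pr_mul_zero {i j k : ZMod 3} {f h : LaurentSeries A} (hf : pr i f = f) (hh : pr j h = h)
    (hk : i + j ≠ k) : pr k (f * h) = 0 := by
  rw [pr_mul_of hf, ← hh, pr_pr_ne, mul_zero]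
  intro h1
  exact hk (by rw [← h1]; ring)

variable (S : SCD A)

theorem r_mul_ri : psl A S.r * psl A S.ri = 1 := by
  rw [← map_mul, SCD.ri, PowerSeries.mul_invOfUnit _ _ (by rw [S.r1]; rfl), map_one]

theorem psl_r3 : psl A S.r ^ 3 = 1 - sg A (3 * S.g) := by
  rw [← map_pow, S.r3, map_sub, map_one, psl_X_pow]
  push_cast
  rfl

theorem pr_r : pr (0 : ZMod 3) (psl A S.r) = psl A S.r := by
  ext n
  rw [pr_coeff]
  split_ifs with h
  · rfl
  · symm
    change ((S.r : LaurentSeries A)).coeff n = 0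
    rw [PowerSeries.coeff_coe]
    split_ifs with h1
    · rfl
    · apply S.rc
      intro h2
      apply h
      rw [ZMod.intCast_zmod_eq_zero_iff_dvd]
      obtain ⟨k, rfl⟩ := Int.eq_ofNat_of_zero_le (not_lt.1 h1)
      rw [Int.natAbs_natCast] at h2
      exact_mod_cast h2

theorem pr_one : pr (0 : ZMod 3) (1 : LaurentSeries A) = 1 := pr_sg (n := 0) (by simp)

theorem pr_ri : pr (0 : ZMod 3) (psl A S.ri) = psl A S.ri := by
  have h1 := pr_mul_of (pr_r S) (0 : ZMod 3) (psl A S.ri)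
  rw [r_mul_ri, sub_zero (0 : ZMod 3), pr_one] at h1
  have h2 : psl A S.ri * (psl A S.r * pr (0 : ZMod 3) (psl A S.ri)) = psl A S.ri * 1 := by
    rw [← h1]
  rw [← mul_assoc, mul_comm (psl A S.ri), r_mul_ri, one_mul, mul_one] at h2
  exact h2

theorem Y_eq : S.Y = sg A (-(S.n1 : ℤ)) * psl A S.r := rfl

theorem W_eq : S.W = sg A (-(S.n2 : ℤ)) * psl A S.r ^ 2 := by
  rw [SCD.W, map_pow]

theorem Yi_eq : S.Yi = sg A (S.n1 : ℤ) * psl A S.ri := rfl

theorem Wi_eq : S.Wi = sg A (S.n2 : ℤ) * psl A S.ri ^ 2 := by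
  rw [SCD.Wi, map_pow]

theorem Yi_mul_Y : S.Yi * S.Y = 1 := by
  have h := r_mul_ri S
  calc S.Yi * S.Y = (sg A (S.n1 : ℤ) * sg A (-(S.n1 : ℤ))) * (psl A S.r * psl A S.ri) := by
        rw [Y_eq, Yi_eq]; ring
    _ = 1 := by rw [h, sg_mul, add_neg_cancel, sg_zero, one_mul]

theorem Wi_mul_W : S.Wi * S.W = 1 := by
  have h := r_mul_ri S
  calc S.Wi * S.W = (sg A (S.n2 : ℤ) * sg A (-(S.n2 : ℤ))) * (psl A S.r * psl A S.ri) ^ 2 := by
        rw [W_eq, Wi_eq]; ring
    _ = 1 := by rw [h, sg_mul, add_neg_cancel, sg_zero, one_mul, one_pow]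

theorem n_add : (S.n1 : ℤ) + S.n2 = 3 * (S.g + 1) := by
  have := S.ha
  simp only [SCD.n1, SCD.n2]
  omega

theorem n1_eq : (S.n1 : ℤ) = S.g + 1 + S.a := by
  simp only [SCD.n1]
  push_cast
  ring

theorem n2_eq : (S.n2 : ℤ) = 2 * S.g + 2 - S.a := by
  have := S.ha
  simp only [SCD.n2]
  omega

theorem c1_ne : (((S.n1 : ℤ)) : ZMod 3) ≠ 0 := by
  rw [ne_eq, ZMod.intCast_zmod_eq_zero_iff_dvd]
  intro h
  apply S.h3
  have h1 : (3 : ℤ) ∣ ((S.g + 1 + S.a : ℕ) : ℤ) := h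
  exact_mod_cast h1

theorem c_add : (((S.n1 : ℤ)) : ZMod 3) + (((S.n2 : ℤ)) : ZMod 3) = 0 := by
  rw [← Int.cast_add, n_add, ZMod.intCast_zmod_eq_zero_iff_dvd]
  exact Dvd.intro _ rfl

theorem c2_eq : (((S.n2 : ℤ)) : ZMod 3) = -(((S.n1 : ℤ)) : ZMod 3) :=
  (neg_eq_of_add_eq_zero_right (c_add S)).symm

theorem pr_Y : pr (-(((S.n1 : ℤ)) : ZMod 3)) S.Y = S.Y := by
  rw [Y_eq]
  refine pr_mul_eq (pr_sg (j := -(((S.n1 : ℤ)) : ZMod 3)) (by push_cast; rfl)) (pr_r S) ?_
  rw [add_zero]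

theorem pr_W : pr ((((S.n1 : ℤ)) : ZMod 3)) S.W = S.W := by
  have h : pr (0 : ZMod 3) (psl A S.r ^ 2) = psl A S.r ^ 2 := by
    rw [pow_two]
    exact pr_mul_eq (pr_r S) (pr_r S) (add_zero 0)
  rw [W_eq]
  refine pr_mul_eq (pr_sg (j := (((S.n1 : ℤ)) : ZMod 3)) ?_) h (add_zero _)
  rw [Int.cast_neg, c2_eq, neg_neg]

theorem pr_Yi : pr ((((S.n1 : ℤ)) : ZMod 3)) S.Yi = S.Yi := by
  rw [Yi_eq]
  exact pr_mul_eq (pr_sg rfl) (pr_ri S) (add_zero _)

theorem pr_Wi : pr (-(((S.n1 : ℤ)) : ZMod 3)) S.Wi = S.Wi := by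
  have h : pr (0 : ZMod 3) (psl A S.ri ^ 2) = psl A S.ri ^ 2 := by
    rw [pow_two]
    exact pr_mul_eq (pr_ri S) (pr_ri S) (add_zero 0)
  rw [Wi_eq]
  refine pr_mul_eq (pr_sg (j := -(((S.n1 : ℤ)) : ZMod 3)) ?_) h (add_zero _)
  rw [c2_eq]

theorem ev_pA : zpol A 3 S.pA = sg A (-(3 * S.a : ℤ)) := by
  rw [SCD.pA, map_pow]
  have h : zpol A 3 Polynomial.X = zz A 3 := ev_X 3
  rw [h, zz_eq]

theorem ev_pD : zpol A 3 S.pD = sg A (-(3 * S.g + 3 : ℤ)) - sg A (-3) := by
  have h : zpol A 3 Polynomial.X = zz A 3 := ev_X 3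
  have h1 : (3 * ((S.g + 1 : ℕ) : ℤ)) = 3 * S.g + 3 := by
    push_cast
    ring
  rw [SCD.pD, map_sub, map_pow, h, zz_eq, zz_eq1, h1]

theorem ev_pB : zpol A 3 S.pB = sg A (-(3 * S.g + 3 - 3 * S.a : ℤ)) - sg A (-(3 - 3 * S.a : ℤ)) := by
  have h : zpol A 3 Polynomial.X = zz A 3 := ev_X 3
  have ha := S.ha
  rw [SCD.pB, map_sub, map_pow, map_pow, h, zz_eq, zz_eq]
  have h1 : (((S.g + 1 - S.a : ℕ)) : ℤ) = S.g + 1 - S.a := by omega
  have h2 : (((1 - S.a : ℕ)) : ℤ) = 1 - S.a := by omega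
  rw [h1, h2]
  congr 3 <;> ring

theorem Y_sq : S.Y ^ 2 = zpol A 3 S.pA * S.W := by
  rw [Y_eq, W_eq, ev_pA, mul_pow, sg_pow, ← mul_assoc, sg_mul]
  congr 2
  have h1 := n1_eq S
  have h2 := n2_eq S
  push_cast
  rw [h1, h2]
  ring

theorem Y_mul_W : S.Y * S.W = zpol A 3 S.pD := by
  calc S.Y * S.W = (sg A (-(S.n1 : ℤ)) * sg A (-(S.n2 : ℤ))) * psl A S.r ^ 3 := by
        rw [Y_eq, W_eq]; ring
    _ = _ := by
      rw [psl_r3, sg_mul, mul_sub, mul_one, sg_mul, ev_pD]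
      have h1 := n_add S
      congr 2
      · congr 1
        linarith
      · congr 1
        linarith

theorem W_sq : S.W ^ 2 = zpol A 3 S.pB * S.Y := by
  have h0 : psl A S.r ^ 4 = psl A S.r ^ 3 * psl A S.r := by ring
  calc S.W ^ 2 = sg A (2 * (-(S.n2 : ℤ))) * psl A S.r ^ 4 := by
        rw [W_eq, mul_pow, sg_pow, ← pow_mul]
        push_cast
        rfl
    _ = _ := by
      rw [h0, psl_r3, ev_pB, Y_eq]
      have h1 := n1_eq S
      have h2 := n2_eq S
      have e1 : sg A (2 * (-(S.n2 : ℤ))) = sg A (-(3 * S.g + 3 - 3 * S.a : ℤ)) * sg A (-(S.n1 : ℤ)) := by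
        rw [sg_mul, h1, h2]
        congr 1
        ring
      have e2 : sg A (2 * (-(S.n2 : ℤ))) * sg A (3 * S.g) =
          sg A (-(3 - 3 * S.a : ℤ)) * sg A (-(S.n1 : ℤ)) := by
        rw [sg_mul, sg_mul, h1, h2]
        congr 1
        ring
      linear_combination (psl A S.r) * e1 - (psl A S.r) * e2

theorem pA_mul_pB : S.pA * S.pB = S.pD := by
  have ha := S.ha
  rw [SCD.pA, SCD.pB, SCD.pD, mul_sub, ← pow_add, ← pow_add]
  have h1 : S.a + (S.g + 1 - S.a) = S.g + 1 := by omega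
  have h2 : S.a + (1 - S.a) = 1 := by omega
  rw [h1, h2, pow_one]

/-! ### Derivatives -/

/-- The derivative as a derivation. -/
noncomputable def ldD (A : Type) [CommRing A] : Derivation A (LaurentSeries A) (LaurentSeries A) where
  toFun := ld
  map_add' := ld_add
  map_smul' := ld_smul
  map_one_eq_zero' := by
    change ld (1 : LaurentSeries A) = 0
    ext n
    rw [ld_coeff, HahnSeries.coeff_one, HahnSeries.coeff_zero]
    split_ifs with h
    · rw [h]
      simp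
    · rw [mul_zero]
  leibniz' f h := by
    change ld (f * h) = f • ld h + h • ld f
    rw [ld_mul, smul_eq_mul, smul_eq_mul, mul_comm h]

theorem ld_zpol (q : Polynomial A) :
    ld (zpol A 3 q) = zpol A 3 (Polynomial.derivative q) * ld (zz A 3) := by
  have h := (ldD A).map_aeval q (zz A 3)
  rw [smul_eq_mul] at h
  exact h

theorem ld_cube (f : LaurentSeries A) : ld (f ^ 3) = 3 * f ^ 2 * ld f := by
  have h := (ldD A).leibniz_pow (a := f) 3
  change ld (f ^ 3) = 3 • f ^ (3 - 1) • ld f at h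
  rw [h, smul_eq_mul, nsmul_eq_mul]
  push_cast
  ring

theorem pA_der : Polynomial.derivative (S.pA * S.pD) = S.pA * S.cY := by
  have ha := S.ha
  have hg := S.hg
  obtain h | h : S.a = 0 ∨ S.a = 1 := by omega
  · rw [SCD.pA, SCD.pD, SCD.cY, h]
    simp only [pow_zero, one_mul, Polynomial.derivative_sub, Polynomial.derivative_X_pow,
      Polynomial.derivative_X, Nat.cast_zero, add_zero, Nat.add_sub_cancel, map_add, map_one,
      Polynomial.C_1]
    push_cast
    simp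
  · rw [SCD.pA, SCD.pD, SCD.cY, h]
    have h1 : (Polynomial.X : Polynomial A) ^ 1 * (Polynomial.X ^ (S.g + 1) - Polynomial.X) =
        Polynomial.X ^ (S.g + 2) - Polynomial.X ^ 2 := by ring
    rw [h1]
    simp only [Polynomial.derivative_sub, Polynomial.derivative_X_pow, Nat.add_sub_cancel]
    have h2 : S.g + 2 - 1 = S.g + 1 := by omega
    rw [h2]
    simp only [map_add, map_one, map_natCast, Nat.cast_one]
    push_cast
    ring

theorem pB_der : Polynomial.derivative (S.pB * S.pD) = S.pB * S.cW := by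
  have ha := S.ha
  have hg := S.hg
  obtain h | h : S.a = 0 ∨ S.a = 1 := by omega
  · rw [SCD.pB, SCD.pD, SCD.cW, h]
    have h0 : (Polynomial.X ^ (S.g + 1 - 0) - Polynomial.X ^ (1 - 0) : Polynomial A) =
      Polynomial.X ^ (S.g + 1) - Polynomial.X := by
        rw [Nat.sub_zero, Nat.sub_zero, pow_one]
    rw [h0]
    simp only [Polynomial.derivative_mul, Polynomial.derivative_sub, Polynomial.derivative_X_pow,
      Polynomial.derivative_X, Nat.add_sub_cancel, map_sub, map_add, map_mul, map_natCast,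
      map_ofNat, Nat.cast_zero, sub_zero]
    push_cast
    ring
  · rw [SCD.pB, SCD.pD, SCD.cW, h]
    have h0 : (Polynomial.X ^ (S.g + 1 - 1) - Polynomial.X ^ (1 - 1) : Polynomial A) =
      Polynomial.X ^ S.g - 1 := by
        rw [Nat.add_sub_cancel, Nat.sub_self, pow_zero]
    rw [h0]
    obtain ⟨k, hk⟩ : ∃ k, S.g = k + 1 := ⟨S.g - 1, by omega⟩
    simp only [Polynomial.derivative_mul, Polynomial.derivative_sub, Polynomial.derivative_X_pow,
      Polynomial.derivative_X, Polynomial.derivative_one, Nat.add_sub_cancel, map_sub, map_add,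
      map_mul, map_natCast, map_ofNat, map_one, Nat.cast_one, hk]
    push_cast
    ring

theorem pA_unit : IsUnit (zpol A 3 S.pA) := by
  rw [ev_pA]
  exact single_isUnit _

theorem pB_unit : IsUnit (zpol A 3 S.pB) := by
  have hg := S.hg
  have ha := S.ha
  rw [ev_pB]
  refine isUnit_of_lead (n := 3 * S.g + 3 - 3 * S.a) ?_ ?_
  · refine sub_mem (single_mem_Pl _ (by omega)) (single_mem_Pl _ (by omega))
  · rw [HahnSeries.coeff_sub, HahnSeries.coeff_single_same, HahnSeries.coeff_single_of_ne, sub_zero]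
    · exact isUnit_one
    · omega

theorem ld_Y : (3 : A) • (zpol A 3 S.pD * ld S.Y) = zpol A 3 S.cY * S.Y * ld (zz A 3) := by
  have h0 : S.Y ^ 3 = zpol A 3 (S.pA * S.pD) := by
    rw [pow_succ, Y_sq, mul_assoc, mul_comm S.W, Y_mul_W, map_mul]
  have h1 := congrArg ld h0
  rw [ld_cube, ld_zpol, pA_der, map_mul] at h1
  have h2 : zpol A 3 S.pA * ((3 : LaurentSeries A) * (zpol A 3 S.pD * ld S.Y)) =
      zpol A 3 S.pA * (zpol A 3 S.cY * S.Y * ld (zz A 3)) := by
    rw [map_mul] at h0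
    linear_combination (-3 * ld S.Y) * h0 + S.Y * h1
  have h3 := (pA_unit S).mul_left_cancel h2
  rw [← h3, Algebra.smul_def, map_ofNat]

theorem ld_W : (3 : A) • (zpol A 3 S.pD * ld S.W) = zpol A 3 S.cW * S.W * ld (zz A 3) := by
  have h0 : S.W ^ 3 = zpol A 3 (S.pB * S.pD) := by
    rw [pow_succ, W_sq, mul_assoc, Y_mul_W, map_mul]
  have h1 := congrArg ld h0
  rw [ld_cube, ld_zpol, pB_der, map_mul] at h1
  have h2 : zpol A 3 S.pB * ((3 : LaurentSeries A) * (zpol A 3 S.pD * ld S.W)) =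
      zpol A 3 S.pB * (zpol A 3 S.cW * S.W * ld (zz A 3)) := by
    rw [map_mul] at h0
    linear_combination (-3 * ld S.W) * h0 + S.W * h1
  have h3 := (pB_unit S).mul_left_cancel h2
  rw [← h3, Algebra.smul_def, map_ofNat]

/-! ### The ring `R` -/

theorem mem_R (f : LaurentSeries A) : f ∈ S.R ↔ ∃ p q s : Polynomial A,
    f = zpol A 3 p + zpol A 3 q * S.Y + zpol A 3 s * S.W := by
  have hX : zpol A 3 Polynomial.X = zz A 3 := ev_X 3
  have hmem : ∀ p : Polynomial A, zpol A 3 p ∈ S.R := by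
    intro p
    have h : ((Polynomial.aeval S.x p : S.R) : LaurentSeries A) = zpol A 3 p :=
      Polynomial.aeval_subalgebra_coe p S.R S.x
    rw [← h]
    exact (Polynomial.aeval S.x p : S.R).2
  constructor
  · intro hf
    refine Algebra.adjoin_induction (p := fun f _ => ∃ p q s : Polynomial A,
      f = zpol A 3 p + zpol A 3 q * S.Y + zpol A 3 s * S.W) ?_ ?_ ?_ ?_ hf
    · rintro f (rfl | rfl | rfl)
      · exact ⟨Polynomial.X, 0, 0, by rw [hX, map_zero]; ring⟩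
      · exact ⟨0, 1, 0, by rw [map_zero, map_one]; ring⟩
      · exact ⟨0, 0, 1, by rw [map_zero, map_one]; ring⟩
    · intro a
      exact ⟨Polynomial.C a, 0, 0, by
        rw [map_zero, zero_mul, zero_mul, add_zero, add_zero]
        exact (ev_C 3 a).symm⟩
    · rintro f h _ _ ⟨p, q, s, rfl⟩ ⟨p', q', s', rfl⟩
      exact ⟨p + p', q + q', s + s', by rw [map_add, map_add, map_add]; ring⟩
    · rintro f h _ _ ⟨p, q, s, rfl⟩ ⟨p', q', s', rfl⟩
      refine ⟨p * p' + (q * s' + s * q') * S.pD, p * q' + q * p' + s * s' * S.pB,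
        p * s' + s * p' + q * q' * S.pA, ?_⟩
      simp only [map_add, map_mul]
      linear_combination (zpol A 3 q * zpol A 3 q') * Y_sq S +
        (zpol A 3 q * zpol A 3 s' + zpol A 3 s * zpol A 3 q') * Y_mul_W S +
        (zpol A 3 s * zpol A 3 s') * W_sq S
  · rintro ⟨p, q, s, rfl⟩
    exact add_mem (add_mem (hmem p) (mul_mem (hmem q) (S.y).2)) (mul_mem (hmem s) (S.w).2)

/-- The components modulo three of `p + q Y + s W`. -/
theorem pr_comb (p q s : LaurentSeries A) (hp : pr (0 : ZMod 3) p = p)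
    (hq : pr (0 : ZMod 3) q = q) (hs : pr (0 : ZMod 3) s = s) :
    pr (0 : ZMod 3) (p + q * S.Y + s * S.W) = p ∧
    pr (-(((S.n1 : ℤ)) : ZMod 3)) (p + q * S.Y + s * S.W) = q * S.Y ∧
    pr (((S.n1 : ℤ)) : ZMod 3) (p + q * S.Y + s * S.W) = s * S.W := by
  have hc := c1_ne S
  have hc' : -(((S.n1 : ℤ)) : ZMod 3) ≠ 0 := neg_ne_zero.2 hc
  have hcc : (((S.n1 : ℤ)) : ZMod 3) ≠ -(((S.n1 : ℤ)) : ZMod 3) := by
    revert hc
    generalize (((S.n1 : ℤ)) : ZMod 3) = c
    revert c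
    decide
  have hY := pr_Y S
  have hW := pr_W S
  have e1 : ∀ j : ZMod 3, j ≠ 0 → pr j p = 0 := fun j hj => by rw [← hp, pr_pr_ne hj]
  refine ⟨?_, ?_, ?_⟩
  · rw [map_add, map_add, hp, pr_mul_zero hq hY (by rwa [zero_add]),
      pr_mul_zero hs hW (by rwa [zero_add]), add_zero, add_zero]
  · rw [map_add, map_add, e1 _ hc', pr_mul_eq hq hY (zero_add _),
      pr_mul_zero hs hW (by rwa [zero_add]), zero_add, add_zero]
  · rw [map_add, map_add, e1 _ hc, pr_mul_zero hq hY (by rw [zero_add]; exact hcc.symm),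
      pr_mul_eq hs hW (zero_add _), zero_add, zero_add]

theorem Y_cancel {q : LaurentSeries A} (h : q * S.Y = 0) : q = 0 := by
  have h1 : q * S.Y * S.Yi = 0 := by rw [h, zero_mul]
  rwa [mul_assoc, mul_comm S.Y, Yi_mul_Y, mul_one] at h1

theorem W_cancel {q : LaurentSeries A} (h : q * S.W = 0) : q = 0 := by
  have h1 : q * S.W * S.Wi = 0 := by rw [h, zero_mul]
  rwa [mul_assoc, mul_comm S.W, Wi_mul_W, mul_one] at h1

theorem uniq (p q s : Polynomial A) (h : zpol A 3 p + zpol A 3 q * S.Y + zpol A 3 s * S.W = 0) :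
    p = 0 ∧ q = 0 ∧ s = 0 := by
  obtain ⟨h1, h2, h3⟩ := pr_comb S (zpol A 3 p) (zpol A 3 q) (zpol A 3 s) (pr_ev p) (pr_ev q)
    (pr_ev s)
  rw [h, map_zero] at h1 h2 h3
  have inj := ev_injective (A := A) 3 (by norm_num)
  exact ⟨inj (by rw [map_zero]; exact h1.symm), inj (by rw [map_zero]; exact Y_cancel S h2.symm),
    inj (by rw [map_zero]; exact W_cancel S h3.symm)⟩

theorem decomp (f : LaurentSeries A) :
    f = pr0 A 3 f + pr0 A 3 (f * S.Yi) * S.Y + pr0 A 3 (f * S.Wi) * S.W := by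
  have h1 : pr0 A 3 (f * S.Yi) * S.Y = pr (-(((S.n1 : ℤ)) : ZMod 3)) f := by
    rw [← pr_zero_eq, mul_comm f, pr_mul_of (pr_Yi S), zero_sub, mul_comm S.Yi, mul_assoc,
      Yi_mul_Y, mul_one]
  have h2 : pr0 A 3 (f * S.Wi) * S.W = pr (((S.n1 : ℤ)) : ZMod 3) f := by
    rw [← pr_zero_eq, mul_comm f, pr_mul_of (pr_Wi S), zero_sub, neg_neg, mul_comm S.Wi, mul_assoc,
      Wi_mul_W, mul_one]
  rw [h1, h2, ← pr_zero_eq]
  conv_lhs => rw [← sum_pr (d := 3) f]
  have hc := c1_ne S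
  revert hc
  generalize (((S.n1 : ℤ)) : ZMod 3) = c
  intro hc
  have h3 : ∑ j : ZMod 3, pr j f = pr (0 : ZMod 3) f + pr (1 : ZMod 3) f + pr (2 : ZMod 3) f :=
    Fin.sum_univ_three _
  rw [h3]
  obtain h | h : c = 1 ∨ c = 2 := by
    revert c
    decide
  · subst h
    have h4 : (-1 : ZMod 3) = 2 := by decide
    rw [h4]
    ring
  · subst h
    have h4 : (-2 : ZMod 3) = 1 := by decide
    rw [h4]

/-! ### The criterion for `R + A[[σ]]` -/

/-- The polynomial part of a series in `σ^3`. -/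
theorem exists_low_pol {t : LaurentSeries A} (ht : pr (0 : ZMod 3) t = t) :
    ∃ q : Polynomial A, ∀ m : ℤ, m ≤ 0 → (t - zpol A 3 q).coeff m = 0 := by
  classical
  obtain ⟨n, hn⟩ := exists_Pl t
  refine ⟨∑ k ∈ Finset.range (n + 1), Polynomial.monomial k (t.coeff (-((3 * k : ℕ) : ℤ))), ?_⟩
  intro m hm
  rw [HahnSeries.coeff_sub]
  by_cases h3 : ((m : ℤ) : ZMod 3) = 0
  · rw [ZMod.intCast_zmod_eq_zero_iff_dvd] at h3
    obtain ⟨k, hk⟩ : ∃ k : ℕ, m = -((3 * k : ℕ) : ℤ) := by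
      obtain ⟨c, hc⟩ := h3
      obtain ⟨k, hk⟩ := Int.eq_ofNat_of_zero_le (a := -c) (by push_cast at hc; omega)
      refine ⟨k, ?_⟩
      push_cast at hc ⊢
      omega
    rw [hk, ev_coeff 3 (by norm_num), Polynomial.finsetSum_coeff]
    simp only [Polynomial.coeff_monomial]
    rw [Finset.sum_ite_eq' (Finset.range (n + 1)) k]
    split_ifs with h
    · exact sub_self _
    · rw [sub_zero]
      rw [Finset.mem_range, not_lt] at h
      exact hn _ (by push_cast; omega)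
  · have h1 : t.coeff m = 0 := by rw [← ht, pr_coeff_ne t h3]
    rw [h1, ev_coeff_ne, sub_zero]
    rintro k rfl
    apply h3
    push_cast
    have : ((3 : ℤ) : ZMod 3) = 0 := by decide
    have h4 : (3 : ZMod 3) = 0 := by decide
    rw [h4]
    ring

theorem Y_mem : S.Y ∈ Po A S.n1 := by
  rw [Y_eq]
  have h1 : psl A S.r ∈ Po A 0 := by
    intro m hm
    change ((S.r : LaurentSeries A)).coeff m = 0
    rw [PowerSeries.coeff_coe, if_pos (by omega)]
  have := mul_mem_Pl (single_mem_Pl (1 : A) (le_refl (-(S.n1 : ℤ)))) h1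
  rwa [add_zero] at this

theorem W_mem : S.W ∈ Po A S.n2 := by
  have h1 : psl A (S.r ^ 2) ∈ Po A 0 := by
    intro m hm
    change (((S.r ^ 2 : PowerSeries A) : LaurentSeries A)).coeff m = 0
    rw [PowerSeries.coeff_coe, if_pos (by omega)]
  have := mul_mem_Pl (single_mem_Pl (1 : A) (le_refl (-(S.n2 : ℤ)))) h1
  rw [add_zero] at this
  exact this

theorem Yi_mem : S.Yi ∈ Po A (-(S.n1 : ℤ)) := by
  have h1 : psl A S.ri ∈ Po A 0 := by
    intro m hm
    change ((S.ri : LaurentSeries A)).coeff m = 0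
    rw [PowerSeries.coeff_coe, if_pos (by omega)]
  have := mul_mem_Pl (single_mem_Pl (n := -(S.n1 : ℤ)) (m := S.n1) (1 : A) (by omega)) h1
  rwa [add_zero] at this

theorem Wi_mem : S.Wi ∈ Po A (-(S.n2 : ℤ)) := by
  have h1 : psl A (S.ri ^ 2) ∈ Po A 0 := by
    intro m hm
    change (((S.ri ^ 2 : PowerSeries A) : LaurentSeries A)).coeff m = 0
    rw [PowerSeries.coeff_coe, if_pos (by omega)]
  have := mul_mem_Pl (single_mem_Pl (n := -(S.n2 : ℤ)) (m := S.n2) (1 : A) (by omega)) h1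
  rwa [add_zero] at this

theorem coeff_pr0 (f : LaurentSeries A) (i : ℕ) :
    (pr0 A 3 f).coeff (3 * i) = f.coeff (3 * i) := by
  rw [pr0_coeff, if_pos]
  exact Dvd.intro _ rfl

/-- Removing the polynomial part of a series in `σ^3` with vanishing middle coefficients. -/
theorem low_mem {t : LaurentSeries A} (ht : pr (0 : ZMod 3) t = t) (n : ℕ)
    (h : ∀ i : ℕ, 1 ≤ i → 3 * i < n → t.coeff (3 * i) = 0) :
    ∃ q : Polynomial A, t - zpol A 3 q ∈ Po A (-(n : ℤ)) := by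
  obtain ⟨q, hq⟩ := exists_low_pol ht
  refine ⟨q, fun m hm => ?_⟩
  rw [neg_neg] at hm
  by_cases h0 : m ≤ 0
  · exact hq m h0
  · rw [HahnSeries.coeff_sub, ev_coeff_pos 3 q m (by omega), sub_zero]
    by_cases h3 : ((m : ℤ) : ZMod 3) = 0
    · rw [ZMod.intCast_zmod_eq_zero_iff_dvd] at h3
      obtain ⟨c, hc⟩ := h3
      obtain ⟨i, rfl⟩ := Int.eq_ofNat_of_zero_le (a := c) (by push_cast at hc; omega)
      push_cast at hc
      rw [hc]
      exact h i (by omega) (by omega)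
    · rw [← ht, pr_coeff_ne t h3]

theorem crit (f : LaurentSeries A) : (∃ p ∈ S.R, f - p ∈ Po A 0) ↔
    (∀ i : ℕ, 1 ≤ i → 3 * i < S.n1 → (f * S.Yi).coeff (3 * i) = 0) ∧
    (∀ j : ℕ, 1 ≤ j → 3 * j < S.n2 → (f * S.Wi).coeff (3 * j) = 0) := by
  have hc := c1_ne S
  have hcc : (((S.n1 : ℤ)) : ZMod 3) + (((S.n1 : ℤ)) : ZMod 3) ≠ 0 := by
    revert hc
    generalize (((S.n1 : ℤ)) : ZMod 3) = c
    revert c
    decide
  have hc' : -(((S.n1 : ℤ)) : ZMod 3) + -(((S.n1 : ℤ)) : ZMod 3) ≠ 0 := by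
    revert hc
    generalize (((S.n1 : ℤ)) : ZMod 3) = c
    revert c
    decide
  constructor
  · rintro ⟨p, hp, hfp⟩
    obtain ⟨p0, q, s, rfl⟩ := (mem_R S p).1 hp
    set P := zpol A 3 p0 + zpol A 3 q * S.Y + zpol A 3 s * S.W with hP
    have e1 : pr (0 : ZMod 3) (P * S.Yi) = zpol A 3 q := by
      have : P * S.Yi = zpol A 3 p0 * S.Yi + zpol A 3 q + zpol A 3 s * (S.W * S.Yi) := by
        rw [hP]
        linear_combination (zpol A 3 q) * Yi_mul_Y S
      rw [this, map_add, map_add, pr_mul_zero (pr_ev p0) (pr_Yi S) (by rwa [zero_add]), pr_ev,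
        pr_ev_mul, pr_mul_zero (pr_W S) (pr_Yi S) hcc, mul_zero, zero_add, add_zero]
    have e2 : pr (0 : ZMod 3) (P * S.Wi) = zpol A 3 s := by
      have : P * S.Wi = zpol A 3 p0 * S.Wi + zpol A 3 q * (S.Y * S.Wi) + zpol A 3 s := by
        rw [hP]
        linear_combination (zpol A 3 s) * Wi_mul_W S
      rw [this, map_add, map_add, pr_mul_zero (pr_ev p0) (pr_Wi S)
        (by rw [zero_add]; exact neg_ne_zero.2 hc), pr_ev,
        pr_ev_mul, pr_mul_zero (pr_Y S) (pr_Wi S) hc', mul_zero, zero_add, zero_add]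
    rw [pr_zero_eq] at e1 e2
    constructor
    · intro i hi hi'
      have h1 : f * S.Yi = (f - P) * S.Yi + P * S.Yi := by ring
      have h2 : ((f - P) * S.Yi).coeff (3 * i) = 0 := by
        have := mul_mem_Pl hfp (Yi_mem S)
        exact this _ (by omega)
      rw [h1, HahnSeries.coeff_add, h2, zero_add, ← coeff_pr0, e1, ev_coeff_pos]
      omega
    · intro j hj hj'
      have h1 : f * S.Wi = (f - P) * S.Wi + P * S.Wi := by ring
      have h2 : ((f - P) * S.Wi).coeff (3 * j) = 0 := by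
        have := mul_mem_Pl hfp (Wi_mem S)
        exact this _ (by omega)
      rw [h1, HahnSeries.coeff_add, h2, zero_add, ← coeff_pr0, e2, ev_coeff_pos]
      omega
  · rintro ⟨h1, h2⟩
    have hp : ∀ h : LaurentSeries A, pr (0 : ZMod 3) (pr0 A 3 h) = pr0 A 3 h := fun h => by
      rw [← pr_zero_eq, pr_pr_same]
    obtain ⟨p0, hp0⟩ := low_mem (hp f) 0 (fun i _ hi => absurd hi (by omega))
    obtain ⟨q, hq⟩ := low_mem (hp (f * S.Yi)) S.n1 (fun i hi hi' => by
      rw [coeff_pr0]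
      exact h1 i hi hi')
    obtain ⟨s, hs⟩ := low_mem (hp (f * S.Wi)) S.n2 (fun i hi hi' => by
      rw [coeff_pr0]
      exact h2 i hi hi')
    refine ⟨_, (mem_R S _).2 ⟨p0, q, s, rfl⟩, ?_⟩
    have e : f - (zpol A 3 p0 + zpol A 3 q * S.Y + zpol A 3 s * S.W) =
        (pr0 A 3 f - zpol A 3 p0) + (pr0 A 3 (f * S.Yi) - zpol A 3 q) * S.Y +
          (pr0 A 3 (f * S.Wi) - zpol A 3 s) * S.W := by
      linear_combination decomp S f
    rw [e]
    have a1 := mul_mem_Pl hq (Y_mem S)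
    have a2 := mul_mem_Pl hs (W_mem S)
    rw [neg_add_cancel] at a1 a2
    exact add_mem (add_mem (by simpa using hp0) a1) a2

/-! ### `R` is a Krichever ring -/

theorem coeff_zpol_zero {p : Polynomial A} (h : ∀ m < 0, (zpol A 3 p).coeff m = 0) :
    p = Polynomial.C (p.coeff 0) := by
  ext k
  rw [Polynomial.coeff_C]
  split_ifs with hk
  · rw [hk]
  · rw [← ev_coeff 3 (by norm_num) p k]
    apply h
    have : 0 < k := Nat.pos_of_ne_zero hk
    push_cast
    omega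

theorem k1 (f : LaurentSeries A) (hf : f ∈ S.R) (h0 : f ∈ Po A 0) :
    ∃ a : A, f = algebraMap A (LaurentSeries A) a := by
  obtain ⟨p, q, s, rfl⟩ := (mem_R S f).1 hf
  obtain ⟨h1, h2, h3⟩ := pr_comb S (zpol A 3 p) (zpol A 3 q) (zpol A 3 s) (pr_ev p) (pr_ev q)
    (pr_ev s)
  have a1 : zpol A 3 p ∈ Po A 0 := by
    rw [← h1]
    exact pr_mem_Pl _ h0
  have a2 : zpol A 3 q ∈ Po A (-(S.n1 : ℤ)) := by
    have b : zpol A 3 q * S.Y ∈ Po A 0 := by
      rw [← h2]
      exact pr_mem_Pl _ h0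
    have c := mul_mem_Pl b (Yi_mem S)
    rwa [mul_assoc, mul_comm S.Y, Yi_mul_Y, mul_one, zero_add] at c
  have a3 : zpol A 3 s ∈ Po A (-(S.n2 : ℤ)) := by
    have b : zpol A 3 s * S.W ∈ Po A 0 := by
      rw [← h3]
      exact pr_mem_Pl _ h0
    have c := mul_mem_Pl b (Wi_mem S)
    rwa [mul_assoc, mul_comm S.W, Wi_mul_W, mul_one, zero_add] at c
  have hn1 : 0 < S.n1 := by
    simp only [SCD.n1]
    omega
  have hn2 : 0 < S.n2 := by
    have := n2_eq S
    have := S.ha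
    omega
  have hq : q = 0 := by
    ext k
    rw [← ev_coeff 3 (by norm_num) q k, Polynomial.coeff_zero]
    apply a2
    push_cast
    omega
  have hs : s = 0 := by
    ext k
    rw [← ev_coeff 3 (by norm_num) s k, Polynomial.coeff_zero]
    apply a3
    push_cast
    omega
  refine ⟨p.coeff 0, ?_⟩
  rw [hq, hs, map_zero, zero_mul, zero_mul, add_zero, add_zero, coeff_zpol_zero (p := p)
    (fun m hm => a1 m (by omega)), Polynomial.coeff_C_zero]
  exact ev_C 3 _

/-- The coordinates on `A((σ))/(R + A[[σ]])`. -/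
noncomputable def Lm : LaurentSeries A →ₗ[A] (Fin S.g → A) where
  toFun f k := if (k : ℕ) < S.n1 / 3 then (f * S.Yi).coeff (3 * ((k : ℕ) + 1)) else
    (f * S.Wi).coeff (3 * ((k : ℕ) - ((S.n1 / 3 : ℕ) : ℤ) + 1))
  map_add' f h := by
    funext k
    simp only [Pi.add_apply, add_mul, HahnSeries.coeff_add]
    split_ifs <;> rfl
  map_smul' a f := by
    funext k
    simp only [Pi.smul_apply, smul_mul_assoc, HahnSeries.coeff_smul, RingHom.id_apply]
    split_ifs <;> rfl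

theorem Lm_apply (f : LaurentSeries A) (k : Fin S.g) : Lm S f k =
    if (k : ℕ) < S.n1 / 3 then (f * S.Yi).coeff (3 * ((k : ℕ) + 1)) else
    (f * S.Wi).coeff (3 * ((k : ℕ) - ((S.n1 / 3 : ℕ) : ℤ) + 1)) := rfl

theorem n_div : S.n1 / 3 + S.n2 / 3 = S.g ∧ ¬ 3 ∣ S.n1 ∧ ¬ 3 ∣ S.n2 := by
  have h1 := n_add S
  have h2 : ¬ 3 ∣ S.n1 := S.h3
  omega

theorem Lm_zero (f : LaurentSeries A) : Lm S f = 0 ↔ ∃ p ∈ S.R, f - p ∈ Po A 0 := by
  rw [crit]
  obtain ⟨hg, h31, h32⟩ := n_div S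
  constructor
  · intro h
    constructor
    · intro i hi hi'
      have hi3 : i - 1 < S.n1 / 3 := by omega
      have h1 := congrFun h ⟨i - 1, by omega⟩
      rw [Lm_apply, if_pos hi3] at h1
      have e : (3 : ℤ) * (((i - 1 : ℕ) : ℤ) + 1) = 3 * i := by omega
      rwa [e] at h1
    · intro j hj hj'
      have h1 := congrFun h ⟨S.n1 / 3 + (j - 1), by omega⟩
      rw [Lm_apply, if_neg (by simp)] at h1
      have e : (3 : ℤ) * (((S.n1 / 3 + (j - 1) : ℕ) : ℤ) - ((S.n1 / 3 : ℕ) : ℤ) + 1) = 3 * j := by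
        omega
      rwa [e] at h1
  · rintro ⟨h1, h2⟩
    funext k
    rw [Lm_apply]
    split_ifs with hk
    · have := h1 (k + 1) (by omega) (by omega)
      push_cast at this
      exact this
    · have := h2 (k - S.n1 / 3 + 1) (by omega) (by omega)
      have e : (3 : ℤ) * ((k - S.n1 / 3 + 1 : ℕ) : ℤ) =
          3 * (((k : ℕ) : ℤ) - ((S.n1 / 3 : ℕ) : ℤ) + 1) := by
        omega
      rwa [e] at this

theorem Lm_surj : Function.Surjective (Lm S) := by
  classical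
  intro c
  have hc := c1_ne S
  have hcc : (((S.n1 : ℤ)) : ZMod 3) + (((S.n1 : ℤ)) : ZMod 3) ≠ 0 := by
    revert hc
    generalize (((S.n1 : ℤ)) : ZMod 3) = c
    revert c
    decide
  have hc' : -(((S.n1 : ℤ)) : ZMod 3) + -(((S.n1 : ℤ)) : ZMod 3) ≠ 0 := by
    revert hc
    generalize (((S.n1 : ℤ)) : ZMod 3) = c
    revert c
    decide
  let t1 : LaurentSeries A := ∑ k : Fin S.g, HahnSeries.single (3 * ((k : ℕ) + 1) : ℤ)
    (if (k : ℕ) < S.n1 / 3 then c k else 0)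
  let t2 : LaurentSeries A := ∑ k : Fin S.g,
    HahnSeries.single (3 * ((k : ℕ) - ((S.n1 / 3 : ℕ) : ℤ) + 1) : ℤ)
    (if (k : ℕ) < S.n1 / 3 then 0 else c k)
  have hsingle : ∀ (m : ℤ) (x : A), pr (0 : ZMod 3) (HahnSeries.single (3 * m) x) =
      HahnSeries.single (3 * m) x := by
    intro m x
    ext n
    rw [pr_coeff]
    split_ifs with h
    · rfl
    · rw [HahnSeries.coeff_single_of_ne]
      rintro rfl
      apply h
      rw [ZMod.intCast_zmod_eq_zero_iff_dvd]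
      exact Dvd.intro _ rfl
  have h1 : pr (0 : ZMod 3) t1 = t1 := by
    rw [map_sum]
    exact Finset.sum_congr rfl fun k _ => hsingle _ _
  have h2 : pr (0 : ZMod 3) t2 = t2 := by
    rw [map_sum]
    exact Finset.sum_congr rfl fun k _ => hsingle _ _
  have e1 : pr0 A 3 ((t1 * S.Y + t2 * S.W) * S.Yi) = t1 := by
    have : (t1 * S.Y + t2 * S.W) * S.Yi = t1 + t2 * (S.W * S.Yi) := by
      linear_combination t1 * Yi_mul_Y S
    rw [← pr_zero_eq, this, map_add, h1, pr_mul_of h2, sub_zero, pr_mul_zero (pr_W S) (pr_Yi S) hcc,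
      mul_zero, add_zero]
  have e2 : pr0 A 3 ((t1 * S.Y + t2 * S.W) * S.Wi) = t2 := by
    have : (t1 * S.Y + t2 * S.W) * S.Wi = t2 + t1 * (S.Y * S.Wi) := by
      linear_combination t2 * Wi_mul_W S
    rw [← pr_zero_eq, this, map_add, h2, pr_mul_of h1, sub_zero,
      pr_mul_zero (pr_Y S) (pr_Wi S) hc', mul_zero, add_zero]
  have hdvd : ∀ (f : LaurentSeries A) (m : ℤ), f.coeff (3 * m) = (pr0 A 3 f).coeff (3 * m) := by
    intro f m
    rw [pr0_coeff, if_pos]
    exact Dvd.intro _ rfl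
  refine ⟨t1 * S.Y + t2 * S.W, funext fun k => ?_⟩
  rw [Lm_apply]
  split_ifs with hk
  · rw [hdvd, e1, HahnSeries.coeff_sum, Finset.sum_eq_single k]
    · rw [if_pos hk, HahnSeries.coeff_single_same]
    · intro l _ hl
      rw [HahnSeries.coeff_single_of_ne]
      intro h
      apply hl
      ext
      omega
    · intro h
      exact absurd (Finset.mem_univ k) h
  · rw [hdvd, e2, HahnSeries.coeff_sum, Finset.sum_eq_single k]
    · rw [if_neg hk, HahnSeries.coeff_single_same]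
    · intro l _ hl
      rw [HahnSeries.coeff_single_of_ne]
      intro h
      apply hl
      ext
      omega
    · intro h
      exact absurd (Finset.mem_univ k) h

theorem kr : Kr S.g S.R :=
  Kr_iff.2 ⟨k1 S, Lm S, Lm_surj S, Lm_zero S⟩

end

end GST

open GST in
theorem t_GST : Stmt_GST := by
  intro A _ S
  exact ⟨Y_sq S, Y_mul_W S, W_sq S, pA_mul_pB S, Yi_mul_Y S, Wi_mul_W S, ld_Y S, ld_W S, mem_R S,
    uniq S, decomp S, crit S, kr S⟩

end Pool.Agent.MG.G0
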