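import Pool.Agent.MG.G0.StmtsG
import Pool.Agent.MG.G0.SUB

/-!
# Transport along a change of coordinates (PAPER_G.md, GTR)
-/

namespace Pool.Agent.MG.G0

namespace GTR

variable {A : Type} [CommRing A]

theorem ld_psl (u : PowerSeries A) : ld (psl A u) =
    psl A (PowerSeries.mk fun n => ((n + 1 : ℕ) : A) * PowerSeries.coeff (n + 1) u) := by
  ext m
  rw [ld_coeff, SUB.psl_coeff, SUB.psl_coeff]
  by_cases h : m < 0
  · rw [if_pos h]
    by_cases h2 : m + 1 < 0
    · rw [if_pos h2, mul_zero]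
    · have h3 : m + 1 = 0 := by omega
      rw [h3]
      simp
  · rw [if_neg h, if_neg (by omega), PowerSeries.coeff_mk]
    obtain ⟨n, rfl⟩ := Int.eq_ofNat_of_zero_le (not_lt.1 h)
    have h1 : ((n : ℤ) + 1).natAbs = n + 1 := by omega
    rw [h1, Int.natAbs_natCast]
    congr 1
    push_cast
    rfl

/-- The derivative of a coordinate is invertible. -/
theorem exists_inv (u : PowerSeries A) (hu : IsUnit (PowerSeries.coeff 1 u)) :
    ∃ ji : LaurentSeries A, ji ∈ Po A 0 ∧ ji * ld (psl A u) = 1 := by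
  have hv : IsUnit (PowerSeries.mk fun n => ((n + 1 : ℕ) : A) * PowerSeries.coeff (n + 1) u) := by
    rw [PowerSeries.isUnit_iff_constantCoeff, ← PowerSeries.coeff_zero_eq_constantCoeff_apply,
      PowerSeries.coeff_mk]
    simpa using hu
  obtain ⟨w, hw⟩ := hv.exists_left_inv
  exact ⟨psl A w, SUB.psl_mem w, by rw [ld_psl, ← map_mul, hw, map_one]⟩

end GTR

open GTR in
theorem t_GTR (hSUB : Stmt_SUB) (hSBC : Stmt_SBC) : Stmt_GTR := by
  intro A _ u hu hu1 Φ hΦ R R' hR'
  obtain ⟨-, hpo, hlc, -, hld, hres, hkr⟩ := hSUB.2.1 u hu hu1 _ hΦ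
  obtain ⟨ji, hji, hj⟩ := exists_inv u hu1
  have hjm : ld (psl A u) ∈ Po A 0 := SUB.ld_mem0 (SUB.psl_mem u)
  have hpo' : ∀ (n : ℤ) (f : LaurentSeries A), Φ f ∈ Po A n ↔ f ∈ Po A n := hpo
  have hld' : ∀ f, ld (Φ f) = Φ (ld f) * ld (psl A u) := hld
  have hres' : ∀ f, (Φ f * ld (psl A u)).coeff (-1) = f.coeff (-1) := hres
  have hmem : ∀ f, f ∈ R' ↔ Φ f ∈ R := by
    intro f
    rw [hR']
    rfl
  have hmem2 : ∀ f, Φ.symm f ∈ R' ↔ f ∈ R := by
    intro f
    rw [hmem, Φ.apply_symm_apply]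
  have hP0 : ∀ {f g : LaurentSeries A}, f ∈ Po A 0 → g ∈ Po A 0 → f * g ∈ Po A 0 := by
    intro f g hf hg
    have := SUB.mul_mem_Po hf hg
    rwa [add_zero] at this
  have hmap : R'.map (Φ : LaurentSeries A →ₐ[A] LaurentSeries A) = R := by
    ext f
    rw [Subalgebra.mem_map]
    constructor
    · rintro ⟨g, hg, rfl⟩
      exact (hmem g).1 hg
    · intro hf
      exact ⟨Φ.symm f, (hmem2 f).2 hf, Φ.apply_symm_apply f⟩
  let e : R ≃ₐ[A] uno R' :=
    { toFun := fun f => ⟨fun _ => Φ.symm f, (hmem2 _).2 f.2⟩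
      invFun := fun f => ⟨Φ ((f : KK Unit A) ()), (hmem _).1 f.2⟩
      left_inv := fun f => Subtype.ext (Φ.apply_symm_apply _)
      right_inv := fun f => Subtype.ext (funext fun _ => Φ.symm_apply_apply _)
      map_mul' := fun f g => Subtype.ext (funext fun _ => map_mul Φ.symm _ _)
      map_add' := fun f g => Subtype.ext (funext fun _ => map_add Φ.symm _ _)
      commutes' := fun a => Subtype.ext (funext fun _ => Φ.symm.commutes a) }
  have hTT : ∀ θ, θ ∈ TT1 R' ↔ Φ θ * ji ∈ TT1 R := by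
    intro θ
    rw [mem_TT1, mem_TT1]
    constructor
    · intro h f hf
      have h1 := h (Φ.symm f) ((hmem2 f).2 hf)
      rw [hmem, map_mul] at h1
      have h2 := hld' (Φ.symm f)
      rw [Φ.apply_symm_apply] at h2
      rw [h2]
      have h3 : Φ θ * ji * (Φ (ld (Φ.symm f)) * ld (psl A u)) = Φ θ * Φ (ld (Φ.symm f)) := by
        linear_combination (Φ θ * Φ (ld (Φ.symm f))) * hj
      rw [h3]
      exact h1
    · intro h f hf
      have h1 := h (Φ f) ((hmem f).1 hf)
      rw [hld'] at h1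
      rw [hmem, map_mul]
      have h3 : Φ θ * ji * (Φ (ld f) * ld (psl A u)) = Φ θ * Φ (ld f) := by
        linear_combination (Φ θ * Φ (ld f)) * hj
      rw [h3] at h1
      exact h1
  refine ⟨?_, ?_, ?_, ?_, ?_, ?_⟩
  · intro g hg
    rw [hkr (R := R'), hmap]
    exact hg
  · exact fun h => hSBC.2.1 e h
  · intro h
    exact Algebra.FormallySmooth.of_equiv e
  · intro h θ hθ h0
    have h1 := h _ ((hTT θ).1 hθ) (hP0 ((hpo' 0 θ).2 h0) hji)
    have h2 : Φ θ = 0 := by
      have h3 : Φ θ = Φ θ * ji * ld (psl A u) := by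
        rw [mul_assoc, hj, mul_one]
      rw [h3, h1, zero_mul]
    exact (map_eq_zero_iff Φ Φ.injective).1 h2
  · intro h θ hθ
    obtain ⟨θ1, hθ1, hd⟩ := h (Φ θ * ji) (by
      have key : ∀ ω ∈ EE1 R, Φ.symm (ω * ji) ∈ EE1 R' := by
        intro ω hω
        rw [mem_EE1] at hω ⊢
        refine ⟨fun p hp => ?_, ?_⟩
        · rw [← hres', map_mul, Φ.apply_symm_apply]
          have h3 : ω * ji * Φ p * ld (psl A u) = ω * Φ p := by
            linear_combination (ω * Φ p) * hj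
          rw [h3]
          exact hω.1 _ ((hmem p).1 hp)
        · rw [← hpo', Φ.apply_symm_apply]
          exact hP0 hω.2 hji
      intro ω hω ω' hω'
      have h1 := hθ _ (key ω hω) _ (key ω' hω')
      rw [← hres', map_mul, map_mul, Φ.apply_symm_apply, Φ.apply_symm_apply] at h1
      have h3 : Φ θ * (ω * ji) * (ω' * ji) * ld (psl A u) = Φ θ * ji * ω * ω' := by
        linear_combination (Φ θ * ji * ω * ω') * hj
      rw [h3] at h1
      exact h1)
    refine ⟨Φ.symm (θ1 * ld (psl A u)), ?_, ?_⟩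
    · rw [hTT, Φ.apply_symm_apply]
      have h3 : θ1 * ld (psl A u) * ji = θ1 := by
        linear_combination θ1 * hj
      rw [h3]
      exact hθ1
    · rw [← hpo', map_sub, Φ.apply_symm_apply]
      have h3 : Φ θ - θ1 * ld (psl A u) = (Φ θ * ji - θ1) * ld (psl A u) := by
        linear_combination (-Φ θ) * hj
      rw [h3]
      exact hP0 hd hjm
  · intro p h f
    obtain ⟨x, hx, hd⟩ := h (Φ f)
    refine ⟨Φ.symm x, (hmem2 x).2 hx, ?_⟩
    rw [← hpo', map_sub, map_pow, Φ.apply_symm_apply]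
    exact hd

end Pool.Agent.MG.G0
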