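import Pool.Agent.MG.G0.StmtsG
import Pool.Agent.MG.G0.ZL.L2

/-!
# Vector fields on the special curve (GTT)
-/

namespace Pool.Agent.MG.G0

namespace GTT

open Polynomial ZL

section

variable {A : Type} [CommRing A]

/-! ### Leading coefficients -/

theorem psl_Po (f : PowerSeries A) : psl A f ∈ Po A 0 := by
  intro m hm
  rw [psl, PowerSeries.coeff_coe, if_pos (by omega)]

theorem psl_coeff_zero (f : PowerSeries A) : (psl A f).coeff 0 = PowerSeries.constantCoeff f := by
  rw [psl, PowerSeries.coeff_coe, if_neg (lt_irrefl _), Int.natAbs_zero,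
    PowerSeries.coeff_zero_eq_constantCoeff_apply]

theorem single_psl_Po (n : ℤ) (f : PowerSeries A) :
    HahnSeries.single (-n) 1 * psl A f ∈ Po A n := by
  have := mul_mem_Pl (single_mem_Pl (1 : A) (le_refl (-n))) (psl_Po f)
  rwa [add_zero] at this

theorem single_psl_lead (n : ℤ) (f : PowerSeries A) :
    (HahnSeries.single (-n) 1 * psl A f : LaurentSeries A).coeff (-n) =
      PowerSeries.constantCoeff f := by
  have := coeff_mul_Pl (single_mem_Pl (1 : A) (le_refl (-n))) (psl_Po f)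
  rw [add_zero, HahnSeries.coeff_single_same, one_mul, neg_zero, psl_coeff_zero] at this
  exact this

theorem zpol_lead {P : A[X]} (hP : P ≠ 0) {f : LaurentSeries A} {m : ℤ} (hf : f ∈ Po A m)
    (hl : f.coeff (-m) = 1) : zpol A 3 P * f ∈ Po A (3 * (P.natDegree : ℤ) + m) ∧
      (zpol A 3 P * f).coeff (-(3 * (P.natDegree : ℤ) + m)) ≠ 0 := by
  have h1 : zpol A 3 P ∈ Pl A (3 * (P.natDegree : ℤ)) := by
    have := ev_mem_Pl 3 P (le_refl P.natDegree)
    push_cast at this
    exact this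
  have h2 : (zpol A 3 P).coeff (-(3 * (P.natDegree : ℤ))) = P.leadingCoeff := by
    have := ev_coeff 3 (by norm_num) P P.natDegree
    push_cast at this
    exact this
  refine ⟨mul_mem_Pl h1 hf, ?_⟩
  rw [coeff_mul_Pl h1 hf, h2, hl, mul_one]
  exact leadingCoeff_ne_zero.2 hP

/-- A sum of series with distinct pole orders. -/
theorem three {M : ℤ} (f : Fin 3 → LaurentSeries A) (N : Fin 3 → ℤ) (hN : Function.Injective N)
    (h : ∀ i, f i ≠ 0 → M < N i ∧ f i ∈ Po A (N i) ∧ (f i).coeff (-(N i)) ≠ 0)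
    (hs : ∑ i, f i ∈ Po A M) : ∀ i, f i = 0 := by
  classical
  by_contra hcon
  push Not at hcon
  obtain ⟨i0, hi0⟩ := hcon
  obtain ⟨i, hi, hmax⟩ := Finset.exists_max_image (Finset.univ.filter fun i => f i ≠ 0) N
    ⟨i0, Finset.mem_filter.2 ⟨Finset.mem_univ _, hi0⟩⟩
  obtain ⟨h1, h2, h3⟩ := h i (Finset.mem_filter.1 hi).2
  apply h3
  have h4 := hs (-(N i)) (by omega)
  rw [HahnSeries.coeff_sum, Finset.sum_eq_single i] at h4
  · exact h4
  · intro j _ hj
    by_cases hj0 : f j = 0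
    · rw [hj0, HahnSeries.coeff_zero]
    · obtain ⟨-, h5, -⟩ := h j hj0
      have h6 := hmax j (Finset.mem_filter.2 ⟨Finset.mem_univ _, hj0⟩)
      have h7 : N j ≠ N i := fun hc => hj (hN hc)
      exact h5 _ (by omega)
  · intro hc
    exact absurd (Finset.mem_univ _) hc

/-! ### The polynomials -/

theorem unit_nat {N m : ℕ} (h : IsUnit ((N.factorial : ℕ) : A)) (h1 : 1 ≤ m) (h2 : m ≤ N) :
    IsUnit (m : A) := by
  have h3 : m ∣ N.factorial := Nat.dvd_factorial h1 h2
  obtain ⟨k, hk⟩ := h3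
  rw [hk, Nat.cast_mul] at h
  exact isUnit_of_mul_isUnit_left h

variable (S : SCD A)

theorem unit_of {m : ℕ} (h1 : 1 ≤ m) (h2 : m ≤ 6 * S.g + 9) : IsUnit (m : A) :=
  unit_nat S.hd h1 h2

theorem monic_D : S.pD.Monic := by
  rw [SCD.pD]
  refine monic_X_pow_sub ?_
  refine lt_of_le_of_lt degree_X_le ?_
  have := S.hg
  exact_mod_cast (by omega : 1 < S.g + 1)

theorem monic_B : S.pB.Monic := by
  rw [SCD.pB]
  refine monic_X_pow_sub ?_
  refine lt_of_le_of_lt (degree_X_pow_le _) ?_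
  have := S.hg
  have := S.ha
  exact_mod_cast (by omega : 1 - S.a < S.g + 1 - S.a)

theorem monic_A : S.pA.Monic := monic_X_pow _

theorem deg_D {p : A[X]} (hp : p ≠ 0) : S.pD.natDegree = S.g + 1 := by
  have h1 : Nontrivial A[X] := nontrivial_of_ne p 0 hp
  have : Nontrivial A := Polynomial.nontrivial_iff.1 h1
  have := S.hg
  rw [SCD.pD, natDegree_sub_eq_left_of_natDegree_lt, natDegree_X_pow]
  rw [natDegree_X_pow, natDegree_X]
  omega

theorem deg_B {p : A[X]} (hp : p ≠ 0) : S.pB.natDegree = S.g + 1 - S.a := by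
  have h1 : Nontrivial A[X] := nontrivial_of_ne p 0 hp
  have : Nontrivial A := Polynomial.nontrivial_iff.1 h1
  have := S.hg
  have := S.ha
  rw [SCD.pB, natDegree_sub_eq_left_of_natDegree_lt, natDegree_X_pow]
  rw [natDegree_X_pow, natDegree_X_pow]
  omega

theorem pD_eq : S.pD = X * (X ^ S.g - 1) := by
  rw [SCD.pD, pow_succ]
  ring

theorem cop_X {c : A[X]} (h : IsUnit (c.coeff 0)) : IsCoprime c X := by
  obtain ⟨u, hu⟩ := h
  refine ⟨C ((u⁻¹ : Aˣ) : A), - C ((u⁻¹ : Aˣ) : A) * c.divX, ?_⟩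
  have h1 := divX_mul_X_add c
  have h2 : C ((u⁻¹ : Aˣ) : A) * C (c.coeff 0) = 1 := by
    rw [← C_mul, ← hu, Units.inv_mul, C_1]
  linear_combination (-C ((u⁻¹ : Aˣ) : A)) * h1 + h2

theorem cop_Xg {c e : A} {n : ℕ} (h : IsUnit (c - e)) :
    IsCoprime (C c * X ^ n - C e) (X ^ n - 1 : A[X]) := by
  obtain ⟨u, hu⟩ := h
  refine ⟨C ((u⁻¹ : Aˣ) : A), - C ((u⁻¹ : Aˣ) : A) * C c, ?_⟩
  have h2 : C ((u⁻¹ : Aˣ) : A) * C (c - e) = 1 := by
    rw [← C_mul, ← hu, Units.inv_mul, C_1]
  rw [C_sub] at h2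
  linear_combination h2

theorem coeff_cY : S.cY.coeff 0 = -(1 + S.a : A) := by
  have := S.hg
  rw [SCD.cY, coeff_sub, coeff_C_zero, mul_coeff_zero, coeff_X_pow, if_neg (by omega), mul_zero,
    zero_sub]

theorem coeff_cW : S.cW.coeff 0 = -(2 - S.a : A) := by
  have := S.hg
  rw [SCD.cW, coeff_sub, coeff_C_zero, mul_coeff_zero, coeff_X_pow, if_neg (by omega), mul_zero,
    zero_sub]

theorem cop_cY_D : IsCoprime S.cY S.pD := by
  rw [pD_eq]
  have := S.hg
  have := S.ha
  refine IsCoprime.mul_right (cop_X ?_) ?_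
  · rw [coeff_cY]
    have h1 := unit_of S (m := 1 + S.a) (by omega) (by omega)
    push_cast at h1
    exact h1.neg
  · have h1 := unit_of S (m := S.g) (by omega) (by omega)
    refine cop_Xg ?_
    have h2 : (S.g + 1 + S.a : A) - (1 + S.a : A) = S.g := by ring
    rw [h2]
    exact h1

theorem cop_cY_B (hAB : S.pA * S.pB = S.pD) : IsCoprime S.cY S.pB := by
  have := cop_cY_D S
  rw [← hAB] at this
  exact this.of_mul_right_right

theorem cop_cW_A : IsCoprime S.cW S.pA := by
  have := S.ha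
  refine IsCoprime.pow_right (cop_X ?_)
  rw [coeff_cW]
  have h1 := unit_of S (m := 2 - S.a) (by omega) (by omega)
  rw [Nat.cast_sub (by omega)] at h1
  push_cast at h1
  exact h1.neg

theorem cop_cW_D : IsCoprime S.cW S.pD := by
  rw [pD_eq]
  have := S.hg
  have := S.ha
  refine IsCoprime.mul_right (cop_X ?_) ?_
  · rw [coeff_cW]
    have h1 := unit_of S (m := 2 - S.a) (by omega) (by omega)
    rw [Nat.cast_sub (by omega)] at h1
    push_cast at h1
    exact h1.neg
  · have h1 := unit_of S (m := 2 * S.g) (by omega) (by omega)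
    push_cast at h1
    refine cop_Xg ?_
    have h2 : (2 * S.g + 2 - S.a : A) - (2 - S.a : A) = 2 * S.g := by ring
    rw [h2]
    exact h1

/-! ### The derivative of `X` -/

theorem ld_zz : ld (zz A 3) = HahnSeries.single (-4) (-3 : A) := by
  ext m
  rw [ld_coeff, zz, HahnSeries.coeff_single, HahnSeries.coeff_single]
  by_cases h : m = -4
  · subst h
    norm_num
  · rw [if_neg (by push_cast; omega), if_neg h, mul_zero]

theorem ld_zz_Po : ld (zz A 3) ∈ Po A 4 := by
  rw [ld_zz]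
  exact single_mem_Pl _ (le_refl _)

include S in
theorem three_unit : IsUnit (3 : A) := by
  have h1 := unit_of S (m := 3) (by omega) (by omega)
  exact_mod_cast h1

include S in
theorem ld_zz_unit : IsUnit (ld (zz A 3)) := by
  refine isUnit_of_lead (n := 4) ld_zz_Po ?_
  rw [ld_zz, HahnSeries.coeff_single_same]
  exact (three_unit S).neg

theorem zpol_unit {P : A[X]} (hP : P.Monic) : IsUnit (zpol A 3 P) := by
  refine isUnit_of_lead (n := ((3 * P.natDegree : ℕ) : ℤ)) (ev_mem_Pl 3 P (le_refl _)) ?_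
  have := ev_coeff 3 (by norm_num) P P.natDegree
  rw [show (zpol A 3 P).coeff (-((3 * P.natDegree : ℕ) : ℤ)) = P.coeff P.natDegree from this,
    show P.coeff P.natDegree = 1 from hP]
  exact isUnit_one

theorem ld_algebraMap (a : A) : ld (algebraMap A (LaurentSeries A) a) = 0 :=
  congrFun (dd_algebraMap (I := Unit) a) ()

/-- It is enough to look at the generators. -/
theorem mem_TT1_iff (θ : LaurentSeries A) (h1 : θ * ld (zz A 3) ∈ S.R) (h2 : θ * ld S.Y ∈ S.R)
    (h3 : θ * ld S.W ∈ S.R) : θ ∈ TT1 S.R := by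
  intro f hf
  have hf' : f ∈ Algebra.adjoin A {zz A 3, S.Y, S.W} := hf
  clear hf
  induction hf' using Algebra.adjoin_induction with
  | mem f hf =>
    rcases hf with hf | hf | hf
    · rw [hf]; exact h1
    · rw [hf]; exact h2
    · rw [Set.mem_singleton_iff.1 hf]; exact h3
  | algebraMap a =>
    rw [ld_algebraMap, mul_zero]
    exact zero_mem _
  | add f g _ _ hf hg =>
    rw [ld_add, mul_add]
    exact add_mem hf hg
  | mul f g hf hg hf' hg' =>
    have e : θ * ld (f * g) = f * (θ * ld g) + g * (θ * ld f) := by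
      rw [ld_mul]
      ring
    rw [e]
    exact add_mem (mul_mem (show f ∈ S.R from hf) hg') (mul_mem (show g ∈ S.R from hg) hf')

theorem R_div3 {f : LaurentSeries A} (h : (3 : A) • f ∈ S.R) : f ∈ S.R := by
  obtain ⟨u, hu⟩ := three_unit S
  have h1 := S.R.smul_mem h ((u⁻¹ : Aˣ) : A)
  rwa [smul_smul, ← hu, Units.inv_mul, one_smul] at h1

end

end GTT

open GTT Polynomial ZL in
theorem t_GTT (h1 : Stmt_GST) : Stmt_GTT := by
  intro A _ S
  obtain ⟨eY2, eYW, eW2, eAB, -, -, dY, dW, hmem, hind, -, -, -⟩ := h1 S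
  have hg := S.hg
  have ha := S.ha
  have hDu := zpol_unit (monic_D S)
  have key : ∀ θ, θ ∈ TT1 S.R ↔ ∃ p q s : Polynomial A, θ * ld (zz A 3) =
      zpol A 3 (S.pD * p) + zpol A 3 (S.pB * q) * S.Y + zpol A 3 (S.pA * s) * S.W := by
    intro θ
    -- the two derivatives multiplied by D
    have fY : zpol A 3 S.pD * ((3 : A) • (θ * ld S.Y)) =
        zpol A 3 S.cY * S.Y * (θ * ld (zz A 3)) := by
      rw [mul_smul_comm]
      calc (3 : A) • (zpol A 3 S.pD * (θ * ld S.Y))
          = θ * ((3 : A) • (zpol A 3 S.pD * ld S.Y)) := by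
            rw [mul_smul_comm]
            congr 1
            ring
        _ = _ := by rw [dY]; ring
    have fW : zpol A 3 S.pD * ((3 : A) • (θ * ld S.W)) =
        zpol A 3 S.cW * S.W * (θ * ld (zz A 3)) := by
      rw [mul_smul_comm]
      calc (3 : A) • (zpol A 3 S.pD * (θ * ld S.W))
          = θ * ((3 : A) • (zpol A 3 S.pD * ld S.W)) := by
            rw [mul_smul_comm]
            congr 1
            ring
        _ = _ := by rw [dW]; ring
    constructor
    · intro hθ
      obtain ⟨p0, p1, p2, hX⟩ := (hmem _).1 (hθ (zz A 3) (Algebra.subset_adjoin (by simp)))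
      obtain ⟨a0, a1, a2, hY⟩ := (hmem _).1 (hθ S.Y (Algebra.subset_adjoin (by simp)))
      obtain ⟨b0, b1, b2, hW⟩ := (hmem _).1 (hθ S.W (Algebra.subset_adjoin (by simp)))
      have three_smul : ∀ f : LaurentSeries A, (3 : A) • f = zpol A 3 (C 3) * f := by
        intro f
        rw [zpol, aeval_C, Algebra.smul_def]
      -- coefficients of Y and W in the first relation
      have r1 : zpol A 3 (S.pD * (C 3 * a0) - S.cY * (p2 * S.pD)) +
          zpol A 3 (S.pD * (C 3 * a1) - S.cY * p0) * S.Y +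
          zpol A 3 (S.pD * (C 3 * a2) - S.cY * (p1 * S.pA)) * S.W = 0 := by
        rw [hX, hY, three_smul] at fY
        simp only [map_sub, map_mul]
        linear_combination fY + zpol A 3 S.cY * zpol A 3 p1 * eY2 + zpol A 3 S.cY * zpol A 3 p2 * eYW
      have r2 : zpol A 3 (S.pD * (C 3 * b0) - S.cW * (p1 * S.pD)) +
          zpol A 3 (S.pD * (C 3 * b1) - S.cW * (p2 * S.pB)) * S.Y +
          zpol A 3 (S.pD * (C 3 * b2) - S.cW * p0) * S.W = 0 := by
        rw [hX, hW, three_smul] at fW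
        simp only [map_sub, map_mul]
        linear_combination fW + zpol A 3 S.cW * zpol A 3 p1 * eYW + zpol A 3 S.cW * zpol A 3 p2 * eW2
      obtain ⟨-, r11, r12⟩ := hind _ _ _ r1
      obtain ⟨-, r21, -⟩ := hind _ _ _ r2
      have d0 : S.pD ∣ p0 := by
        refine (cop_cY_D S).symm.dvd_of_dvd_mul_left ⟨C 3 * a1, ?_⟩
        linear_combination -r11
      have d1 : S.pB ∣ p1 := by
        refine (cop_cY_B S eAB).symm.dvd_of_dvd_mul_left ⟨C 3 * a2, ?_⟩
        have : S.pA * (S.cY * p1) = S.pA * (S.pB * (C 3 * a2)) := by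
          rw [← eAB] at r12
          linear_combination -r12
        exact (monic_A S).isRegular.left this
      have d2 : S.pA ∣ p2 := by
        refine (cop_cW_A S).symm.dvd_of_dvd_mul_left ⟨C 3 * b1, ?_⟩
        have : S.pB * (S.cW * p2) = S.pB * (S.pA * (C 3 * b1)) := by
          rw [← eAB] at r21
          linear_combination -r21
        exact (monic_B S).isRegular.left this
      obtain ⟨p, rfl⟩ := d0
      obtain ⟨q, rfl⟩ := d1
      obtain ⟨s, rfl⟩ := d2
      exact ⟨p, q, s, hX⟩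
    · rintro ⟨p, q, s, hX⟩
      have zAB : zpol A 3 S.pA * zpol A 3 S.pB = zpol A 3 S.pD := by rw [← map_mul, eAB]
      refine mem_TT1_iff S θ ((hmem _).2 ⟨_, _, _, hX⟩) (R_div3 S ?_) (R_div3 S ?_)
      · refine (hmem _).2 ⟨S.cY * (S.pA * s), S.cY * p, S.cY * q, ?_⟩
        refine hDu.mul_left_cancel ?_
        rw [fY, hX]
        simp only [map_mul]
        linear_combination (zpol A 3 S.cY * zpol A 3 S.pB * zpol A 3 q) * eY2 +
          (zpol A 3 S.cY * zpol A 3 S.pA * zpol A 3 s) * eYW +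
          (zpol A 3 S.cY * zpol A 3 q * S.W) * zAB
      · refine (hmem _).2 ⟨S.cW * (S.pB * q), S.cW * s, S.cW * p, ?_⟩
        refine hDu.mul_left_cancel ?_
        rw [fW, hX]
        simp only [map_mul]
        linear_combination (zpol A 3 S.cW * zpol A 3 S.pB * zpol A 3 q) * eYW +
          (zpol A 3 S.cW * zpol A 3 S.pA * zpol A 3 s) * eW2 +
          (zpol A 3 S.cW * zpol A 3 s * S.Y) * zAB
  refine ⟨key, ?_⟩
  intro θ hθ hθ0
  obtain ⟨p, q, s, hX⟩ := (key θ).1 hθ
  have h4 : θ * ld (zz A 3) ∈ Po A 4 := by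
    have := mul_mem_Pl hθ0 (ld_zz_Po (A := A))
    rwa [zero_add] at this
  have hz : ∀ i, (![zpol A 3 (S.pD * p) * 1, zpol A 3 (S.pB * q) * S.Y,
      zpol A 3 (S.pA * s) * S.W] : Fin 3 → LaurentSeries A) i = 0 := by
    refine three (M := 4) _ ![3 * ((S.pD * p).natDegree : ℤ) + 0,
      3 * ((S.pB * q).natDegree : ℤ) + S.n1, 3 * ((S.pA * s).natDegree : ℤ) + S.n2] ?_ ?_ ?_
    · have h3 := S.h3
      have e1 : S.n1 = S.g + 1 + S.a := rfl
      have e2 : S.n2 = 2 * S.g + 2 - S.a := rfl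
      intro i j hij
      fin_cases i <;> fin_cases j <;> simp at hij ⊢ <;> omega
    · intro i
      fin_cases i
      · intro h0
        change zpol A 3 (S.pD * p) * 1 ≠ 0 at h0
        have hP : S.pD * p ≠ 0 := fun hc => h0 (by rw [hc, map_zero, zero_mul])
        have hp : p ≠ 0 := fun hc => hP (by rw [hc, mul_zero])
        have hd := (monic_D S).natDegree_mul' hp
        have hdD : S.pD.natDegree = S.g + 1 := deg_D S hp
        obtain ⟨h5, h6⟩ := zpol_lead hP (one_mem_Pl (A := A) (le_refl 0)) (by simp)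
        refine ⟨?_, h5, h6⟩
        change (4 : ℤ) < 3 * ((S.pD * p).natDegree : ℤ) + 0
        rw [hd, hdD]
        push_cast
        omega
      · intro h0
        change zpol A 3 (S.pB * q) * S.Y ≠ 0 at h0
        have hP : S.pB * q ≠ 0 := fun hc => h0 (by rw [hc, map_zero, zero_mul])
        have hp : q ≠ 0 := fun hc => hP (by rw [hc, mul_zero])
        have hd := (monic_B S).natDegree_mul' hp
        have hdB : S.pB.natDegree = S.g + 1 - S.a := deg_B S hp
        obtain ⟨h5, h6⟩ := zpol_lead hP (single_psl_Po (S.n1 : ℤ) S.r) (by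
          rw [single_psl_lead, S.r1])
        refine ⟨?_, h5, h6⟩
        change (4 : ℤ) < 3 * ((S.pB * q).natDegree : ℤ) + S.n1
        rw [hd, hdB]
        omega
      · intro h0
        change zpol A 3 (S.pA * s) * S.W ≠ 0 at h0
        have hP : S.pA * s ≠ 0 := fun hc => h0 (by rw [hc, map_zero, zero_mul])
        obtain ⟨h5, h6⟩ := zpol_lead hP (single_psl_Po (S.n2 : ℤ) (S.r ^ 2)) (by
          rw [single_psl_lead, map_pow, S.r1, one_pow])
        refine ⟨?_, h5, h6⟩
        change (4 : ℤ) < 3 * ((S.pA * s).natDegree : ℤ) + S.n2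
        have e2 : S.n2 = 2 * S.g + 2 - S.a := rfl
        omega
    · rw [Fin.sum_univ_three]
      change zpol A 3 (S.pD * p) * 1 + zpol A 3 (S.pB * q) * S.Y + zpol A 3 (S.pA * s) * S.W ∈ _
      rw [mul_one, ← hX]
      exact h4
  have z0 : zpol A 3 (S.pD * p) * 1 = 0 := hz 0
  have z1 : zpol A 3 (S.pB * q) * S.Y = 0 := hz 1
  have z2 : zpol A 3 (S.pA * s) * S.W = 0 := hz 2
  rw [mul_one] at z0
  rw [z0, z1, z2, add_zero, add_zero] at hX
  exact (ld_zz_unit S).mul_left_eq_zero.1 hX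

end Pool.Agent.MG.G0
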