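import Pool.Agent.MG.G0.StmtsHV

/-!
# HV1: existence of values
-/

open TensorProduct

namespace Pool.Agent.MG.G0

namespace HV1

theorem om_le {A I : Type} [CommRing A] (P : Subalgebra A (KK I A)) :
    Om P ≤ LinearMap.range (dk P) := by
  refine Submodule.span_le.2 ?_
  rintro η ⟨p, hp, f, hf, rfl⟩
  exact ⟨(⟨p, hp⟩ : P) ⊗ₜ (⟨f, hf⟩ : P), dk_tmul P _ _⟩

end HV1

theorem t_HV1 : Stmt_HV1 := by
  intro A I _ _ _ _ g E P t ht k u u' hu hu'
  have h : ∀ i, ∃ η : DR P, dk P η = t • u i := by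
    intro i
    obtain ⟨η, hη⟩ := HV1.om_le P (ht (u i) (hu i))
    refine ⟨⟨η, ?_⟩, hη⟩
    change dk P η ∈ Pol I A 0
    rw [hη]
    exact Submodule.smul_mem _ t (hu i).2
  choose η hη using h
  exact ⟨_, hu', η, hη, rfl⟩

end Pool.Agent.MG.G0
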