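import Pool.Agent.MG.G0.StmtsCQ

/-!
# HV2: uniqueness of the values up to elements killed by `t`, and multilinearity
-/

open TensorProduct

namespace Pool.Agent.MG.G0

namespace HV2

section

variable {I A : Type} [CommRing A]

/-- Every element of `Om P` is the differential of a tensor. -/
theorem exists_dk (P : Subalgebra A (KK I A)) {z : KK I A} (hz : z ∈ Om P) :
    ∃ η : P ⊗[A] P, dk P η = z := by
  refine Submodule.span_induction (p := fun z _ => ∃ η : P ⊗[A] P, dk P η = z) ?_ ?_ ?_ ?_ hz
  · rintro _ ⟨p, hp, f, hf, rfl⟩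
    exact ⟨(⟨p, hp⟩ : P) ⊗ₜ (⟨f, hf⟩ : P), dk_tmul P _ _⟩
  · exact ⟨0, map_zero _⟩
  · rintro x y _ _ ⟨a, rfl⟩ ⟨b, rfl⟩
    exact ⟨a + b, map_add _ _ _⟩
  · rintro c x _ ⟨a, rfl⟩
    exact ⟨c • a, map_smul _ _ _⟩

variable [Fintype I]

/-- Regular differentials divided by `t` come from regular tensors. -/
theorem exists_eta (P : Subalgebra A (KK I A)) (t : A) (h : ∀ ω ∈ EE P, t • ω ∈ Om P)
    (ω : EE P) : ∃ η : DR P, dk P (η : P ⊗[A] P) = t • (ω : KK I A) := by
  obtain ⟨η, hη⟩ := exists_dk P (h ω ω.2)
  refine ⟨⟨η, ?_⟩, hη⟩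
  rw [DR, Submodule.mem_comap, hη]
  exact Submodule.smul_mem _ _ ω.2.2

theorem twR_add_left (P : Subalgebra A (KK I A)) (x y : EE P) (η : DR P) :
    twR P (x + y) η = twR P x η + twR P y η :=
  Subtype.ext (by
    change tw P (x + y) (η : P ⊗[A] P) = tw P x (η : P ⊗[A] P) + tw P y (η : P ⊗[A] P)
    rw [map_add, LinearMap.add_apply])

theorem twR_smul_left (P : Subalgebra A (KK I A)) (c : A) (x : EE P) (η : DR P) :
    twR P (c • x) η = c • twR P x η :=
  Subtype.ext (by
    change tw P (c • x) (η : P ⊗[A] P) = c • tw P x (η : P ⊗[A] P)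
    rw [map_smul, LinearMap.smul_apply])

theorem qk_twR (P : Subalgebra A (KK I A)) (ω : EE P) (η : DR P) :
    qk P (twR P ω η : QD P) = (ω : KK I A) * dk P (η : P ⊗[A] P) := qk_tw P ω η

/-- The family of quadratic differentials of a family of pairs of differentials. -/
noncomputable def fam (P : Subalgebra A (KK I A)) (η : EE P → DR P) {k : ℕ}
    (v : Fin k ⊕ Fin k → EE P) : Fin k → QR P := fun i => twR P (v (Sum.inr i)) (η (v (Sum.inl i)))

theorem fam_update_inr (P : Subalgebra A (KK I A)) (η : EE P → DR P) {k : ℕ}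
    [DecidableEq (Fin k ⊕ Fin k)] (v : Fin k ⊕ Fin k → EE P) (j : Fin k) (z : EE P) :
    fam P η (Function.update v (Sum.inr j) z) =
      Function.update (fam P η v) j (twR P z (η (v (Sum.inl j)))) := by
  funext i
  have h0 : Function.update v (Sum.inr j) z (Sum.inl i) = v (Sum.inl i) :=
    Function.update_of_ne Sum.inl_ne_inr _ _
  rw [fam, h0]
  by_cases h : i = j
  · subst h
    rw [Function.update_self, Function.update_self]
  · have h1 : Function.update v (Sum.inr j) z (Sum.inr i) = v (Sum.inr i) :=
      Function.update_of_ne (fun h' => h (Sum.inr_injective h')) _ _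
    rw [h1, Function.update_of_ne h, fam]

theorem fam_update_inl (P : Subalgebra A (KK I A)) (η : EE P → DR P) {k : ℕ}
    [DecidableEq (Fin k ⊕ Fin k)] (v : Fin k ⊕ Fin k → EE P) (j : Fin k) (z : EE P) :
    fam P η (Function.update v (Sum.inl j) z) =
      Function.update (fam P η v) j (twR P (v (Sum.inr j)) (η z)) := by
  funext i
  have h0 : Function.update v (Sum.inl j) z (Sum.inr i) = v (Sum.inr i) :=
    Function.update_of_ne Sum.inr_ne_inl _ _
  rw [fam, h0]
  by_cases h : i = j
  · subst h
    rw [Function.update_self, Function.update_self]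
  · have h1 : Function.update v (Sum.inl j) z (Sum.inl i) = v (Sum.inl i) :=
      Function.update_of_ne (fun h' => h (Sum.inl_injective h')) _ _
    rw [h1, Function.update_of_ne h, fam]

end

end HV2

open HV2 in
theorem t_HV2 (hPOL : Stmt_POL) (hPTO : Stmt_PTO) : Stmt_HV2 := by
  intro A I _ _ _ _ g E P t hG hD k
  have hI : Ivk E P t k := hPTO E P hG t k fun D => hD (MvPolynomial.C (σ := Fin k)) D
  refine ⟨?_, fun hOm => ?_⟩
  · rintro u u' x y ⟨hu, η, hη, rfl⟩ ⟨hu', η', hη', rfl⟩
    rw [mul_sub, sub_eq_zero]
    refine hI _ _ fun i => ?_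
    rw [qk_twR, qk_twR, hη, hη']
  · obtain ⟨M, hM⟩ := (hPOL E P hG).2.1 k
    choose η hη using exists_eta P t hOm
    have hI' : ∀ q q' : Fin k → QR P, (∀ i, qk P (q i : QD P) = qk P (q' i : QD P)) →
        t * M q = t * M q' := by
      intro q q' h
      rw [hM, hM]
      exact hI q q' h
    refine ⟨{ toFun := fun v => t * M (fam P η v), map_update_add' := ?_, map_update_smul' := ?_ },
      ?_⟩
    · intro _ v i x y
      rcases i with j | j
      · rw [fam_update_inl, fam_update_inl, fam_update_inl, ← mul_add, ← M.map_update_add]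
        refine hI' _ _ fun i => ?_
        by_cases h : i = j
        · subst h
          rw [Function.update_self, Function.update_self]
          change _ = qk P ((twR P (v (Sum.inr i)) (η x) : QD P) +
            (twR P (v (Sum.inr i)) (η y) : QD P))
          rw [map_add, qk_twR, qk_twR, qk_twR, hη, hη, hη, ← mul_add, ← smul_add]
          rfl
        · rw [Function.update_of_ne h, Function.update_of_ne h]
      · rw [fam_update_inr, fam_update_inr, fam_update_inr, ← mul_add, ← M.map_update_add,
          twR_add_left]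
    · intro _ v i c x
      rcases i with j | j
      · rw [fam_update_inl, fam_update_inl, smul_eq_mul, mul_left_comm, ← smul_eq_mul c,
          ← M.map_update_smul]
        refine hI' _ _ fun i => ?_
        by_cases h : i = j
        · subst h
          rw [Function.update_self, Function.update_self]
          change _ = qk P (c • (twR P (v (Sum.inr i)) (η x) : QD P))
          rw [map_smul, qk_twR, qk_twR, hη, hη, ← mul_smul_comm, smul_comm]
          rfl
        · rw [Function.update_of_ne h, Function.update_of_ne h]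
      · rw [fam_update_inr, fam_update_inr, smul_eq_mul, mul_left_comm, ← smul_eq_mul c,
          ← M.map_update_smul, twR_smul_left]
    · rintro ω x ⟨hu, η', hη', rfl⟩
      change t * M (fam P η ω) = _
      rw [hM]
      refine hI _ _ fun i => ?_
      rw [fam, qk_twR, qk_twR, hη, hη']

end Pool.Agent.MG.G0
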