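import Pool.Agent.MG.G0.Hv

/-!
# Statements on the values `HV` (PAPER_M.md, section HV)
-/

open TensorProduct

namespace Pool.Agent.MG.G0

/-- HV1: existence of values. -/
def Stmt_HV1 : Prop :=
  ∀ {A I : Type} [CommRing A] [Algebra ℂ A] [Fintype I] [Nonempty I] {g : ℕ} (E : Ev g)
    {P : Subalgebra A (KK I A)} (t : A), (∀ ω ∈ EE P, t • ω ∈ Om P) →
    ∀ {k : ℕ} (u u' : Fin k → KK I A), (∀ i, u i ∈ EE P) → (∀ i, u' i ∈ EE P) →
      ∃ x, HV E P t u u' x

/-- HV2: uniqueness up to elements killed by `t`, and multilinearity. -/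
def Stmt_HV2 : Prop :=
  ∀ {A I : Type} [CommRing A] [Algebra ℂ A] [Fintype I] [Nonempty I] {g : ℕ} (E : Ev g)
    {P : Subalgebra A (KK I A)} (t : A), Good g P →
    (∀ {B : Type} [CommRing B] (φ : A →+* B) (D : DD (bc φ P)),
      ∃ θ : KK I B, φ t • D = tder (bc φ P) θ) → ∀ k : ℕ,
    (∀ (u u' : Fin k → KK I A) (x y : A), HV E P t u u' x → HV E P t u u' y →
      t * (x - y) = 0) ∧
    ((∀ ω ∈ EE P, t • ω ∈ Om P) →
      ∃ G : MultilinearMap A (fun _ : Fin k ⊕ Fin k => EE P) A,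
        ∀ (ω : Fin k ⊕ Fin k → EE P) (x : A),
          HV E P t (fun i => (ω (Sum.inl i) : KK I A)) (fun i => (ω (Sum.inr i) : KK I A)) x →
          G ω = t * x)

/-- HV4: base change. -/
def Stmt_HV4 : Prop :=
  ∀ {A B I : Type} [CommRing A] [Algebra ℂ A] [CommRing B] [Algebra ℂ B] [Fintype I]
    [Nonempty I] {g : ℕ} (E : Ev g) {P : Subalgebra A (KK I A)} (t : A), Good g P →
    ∀ (φ : A →ₐ[ℂ] B) {k : ℕ} (u u' : Fin k → KK I A) (x : A), HV E P t u u' x →
      HV E (bc (φ : A →+* B) P) (φ t) (fun i => kmap (φ : A →+* B) (u i))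
        (fun i => kmap (φ : A →+* B) (u' i)) (φ x)

/-- HV5: multiples of `t`. -/
def Stmt_HV5 : Prop :=
  ∀ {A I : Type} [CommRing A] [Algebra ℂ A] [Fintype I] [Nonempty I] {g : ℕ} (E : Ev g)
    {P : Subalgebra A (KK I A)} (t c : A), Good g P → ∀ {k : ℕ} (u u' : Fin k → KK I A) (x : A),
      HV E P t u u' x → HV E P (c * t) u u' (c ^ k * x)

/-- HV6: forgetting punctures. -/
def Stmt_HV6 : Prop :=
  ∀ {A I J : Type} [CommRing A] [Algebra ℂ A] [Fintype I] [Nonempty I] [Fintype J] {g : ℕ}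
    (E : Ev g) {W : Subalgebra A (KK (I ⊕ J) A)} {P : Subalgebra A (KK I A)} (t : A),
    Forget W P → Good g W → Good g P → ∀ {k : ℕ} (u u' : Fin k → KK (I ⊕ J) A) (x : A),
      (∀ i, u i ∈ EE W) → (∀ i, u' i ∈ EE W) →
      HV E P t (fun i => atI (u i)) (fun i => atI (u' i)) x → HV E W t u u' x

/-- HV7: change of the index set. -/
def Stmt_HV7 : Prop :=
  ∀ {A I I' : Type} [CommRing A] [Algebra ℂ A] [Fintype I] [Nonempty I] [Fintype I']
    [Nonempty I'] {g : ℕ} (E : Ev g) {P : Subalgebra A (KK I A)} (e : I' ≃ I) (t : A),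
    Good g P → Good g (reix e P) ∧ ∀ {k : ℕ} (u u' : Fin k → KK I A) (x : A),
      HV E P t u u' x →
      HV E (reix e P) t (fun j i => u j (e i)) (fun j i => u' j (e i)) x

/-- HV8: scaling of the coordinate (one puncture). -/
def Stmt_HV8 : Prop :=
  ∀ {A : Type} [CommRing A] [Algebra ℂ A] {g : ℕ} (E : Ev g)
    {R : Subalgebra A (LaurentSeries A)} (c : Aˣ) (t : A), Good g (uno R) →
    Good g (uno (R.map (sc c))) ∧ ∀ {k : ℕ} (u u' : Fin k → KK Unit A) (x : A),
      HV E (uno R) t u u' x →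
      HV E (uno (R.map (sc c))) t (fun j _ => ((c⁻¹ : Aˣ) : A) • sc c (u j ()))
        (fun j _ => ((c⁻¹ : Aˣ) : A) • sc c (u' j ())) x

/-- HV9: over smooth curves (`t = 1`) the values are a multilinear form; if the values of all
orders `m ≥ 1` vanish then the function is constant on the covectors of quadratic differentials
which are sums of products of differentials. -/
def Stmt_HV9 : Prop :=
  ∀ {A I : Type} [CommRing A] [Algebra ℂ A] [Fintype I] [Nonempty I] {g : ℕ} (E : Ev g)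
    {P : Subalgebra A (KK I A)}, Good g P → SmC A P →
    (∀ (m : ℕ) (u u' : Fin m → KK I A) (x : A), 1 ≤ m → (∀ i, u i ∈ EE P) →
      HV E P 1 u u' x → x = 0) →
    ∀ (L : CovL P) (n : ℕ) (ω ω' : Fin n → EE P), (∀ i, (ω i : KK I A) ∈ Om P) →
      (∀ θ : KK I A, L.1 (tder P θ) = ∑ i, res (θ * ((ω i : KK I A) * (ω' i : KK I A)))) →
      E.Φ A I P L = E.Φ A I P 0

end Pool.Agent.MG.G0
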