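import Pool.Agent.MG.G0.StmtsCQ
import Pool.Agent.MG.G0.StmtsHV

/-!
# HV4: base change of the values
-/

open TensorProduct

namespace Pool.Agent.MG.G0

theorem t_HV4 (hPOL : Stmt_POL) (hCNT : Stmt_CNT) : Stmt_HV4 := by
  intro A B I _ _ _ _ _ _ g E P t hP φ k u u' x ⟨hu, η, hη, hx⟩
  refine ⟨fun i => (bcE (φ : A →+* B) P ⟨u' i, hu i⟩).2,
    fun i => bcDR (φ : A →+* B) P (η i), fun i => ?_, ?_⟩
  · change dk (bc (φ : A →+* B) P) (bcT (φ : A →+* B) P (η i)) = _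
    rw [dk_bcT, hη, kmap_smul]
    rfl
  · rw [hx, ← (hPOL E P hP).1 φ]
    congr 1
    funext i
    rw [(hCNT (φ : A →+* B) P).2]
    rfl

end Pool.Agent.MG.G0
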