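import Pool.Agent.MG.G0.StmtsCQ

/-!
# HV5: multiples of `t`
-/

open TensorProduct

namespace Pool.Agent.MG.G0

/-- HV5: multiples of `t`. -/
theorem t_HV5 (hPOL : Stmt_POL) : Stmt_HV5 := by
  intro A I _ _ _ _ g E P t c hP k u u' x ⟨hu, η, hη, hx⟩
  refine ⟨hu, fun i => c • η i, fun i => ?_, ?_⟩
  · change dk P (c • (η i : P ⊗[A] P)) = (c * t) • u i
    rw [map_smul, hη, mul_smul]
  · obtain ⟨M, hM⟩ := (hPOL E P hP).2.1 k
    have h1 : ∀ i, twR P ⟨u' i, hu i⟩ (c • η i) = c • twR P ⟨u' i, hu i⟩ (η i) := fun i =>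
      Subtype.ext (map_smul (tw P ⟨u' i, hu i⟩) c (η i : P ⊗[A] P))
    simp only [h1]
    rw [← hM, M.map_smul_univ (fun _ => c), hM, ← hx, Finset.prod_const, Finset.card_univ,
      Fintype.card_fin, smul_eq_mul]

end Pool.Agent.MG.G0
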