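import Pool.Agent.MG.G0.StmtsCQ

/-!
# HV6: the values `HV` and forgetting punctures (PAPER_Q.md)
-/

open TensorProduct

namespace Pool.Agent.MG.G0

namespace HV6m

section

variable {I J A : Type} [CommRing A] {W : Subalgebra A (KK (I ⊕ J) A)} {P : Subalgebra A (KK I A)}

/-- Every element of `P` lifts to an element of `W` which is regular at the punctures `J`. -/
theorem exLift (h : Forget W P) (p : P) :
    ∃ w : W, atI (w : KK (I ⊕ J) A) = p ∧ atJ (w : KK (I ⊕ J) A) ∈ Pol J A 0 := by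
  have h1 : (p : KK I A) ∈ Rem W := by
    rw [← h.eq]
    exact p.2
  obtain ⟨w, hw, h2, h3⟩ := h1
  exact ⟨⟨w, hw⟩, funext h3, fun j m hm => h2 j m (by omega)⟩

/-- The lift is unique. -/
theorem uniqLift (h : Forget W P) {w v : W}
    (h1 : atI (w : KK (I ⊕ J) A) = atI (v : KK (I ⊕ J) A)) : w = v := by
  have h2 : (w : KK (I ⊕ J) A) - (v : KK (I ⊕ J) A) = 0 := by
    refine h.inj _ (sub_mem w.2 v.2) fun i => ?_
    have h3 : (w : KK (I ⊕ J) A) (Sum.inl i) = (v : KK (I ⊕ J) A) (Sum.inl i) := congrFun h1 i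
    rw [Pi.sub_apply, h3, sub_self]
  exact Subtype.ext (sub_eq_zero.1 h2)

/-- The lifting map. -/
noncomputable def lam (h : Forget W P) : P →ₗ[A] W where
  toFun p := Classical.choose (exLift h p)
  map_add' p q := uniqLift h (by
    have h1 := (Classical.choose_spec (exLift h (p + q))).1
    have h2 := (Classical.choose_spec (exLift h p)).1
    have h3 := (Classical.choose_spec (exLift h q)).1
    rw [h1]
    change (p : KK I A) + (q : KK I A) =
      atI ((Classical.choose (exLift h p) : W) : KK (I ⊕ J) A) +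
        atI ((Classical.choose (exLift h q) : W) : KK (I ⊕ J) A)
    rw [h2, h3])
  map_smul' a p := uniqLift h (by
    have h1 := (Classical.choose_spec (exLift h (a • p))).1
    have h2 := (Classical.choose_spec (exLift h p)).1
    rw [h1]
    change a • (p : KK I A) = a • atI ((Classical.choose (exLift h p) : W) : KK (I ⊕ J) A)
    rw [h2])

theorem lam_I (h : Forget W P) (p : P) : atI ((lam h p : W) : KK (I ⊕ J) A) = p :=
  (Classical.choose_spec (exLift h p)).1

theorem lam_J (h : Forget W P) (p : P) : atJ ((lam h p : W) : KK (I ⊕ J) A) ∈ Pol J A 0 :=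
  (Classical.choose_spec (exLift h p)).2

/-- The lifting map on `∑ p ⊗ g`. -/
noncomputable def lam2 (h : Forget W P) : P ⊗[A] P →ₗ[A] W ⊗[A] W :=
  TensorProduct.map (lam h) (lam h)

theorem lam2_tmul (h : Forget W P) (p g : P) : lam2 h (p ⊗ₜ g) = lam h p ⊗ₜ lam h g := rfl

theorem dk_I (h : Forget W P) (η : P ⊗[A] P) : atI (dk W (lam2 h η)) = dk P η := by
  induction η using TensorProduct.induction_on with
  | zero =>
    rw [map_zero, map_zero, map_zero]
    rfl
  | tmul p g =>
    rw [lam2_tmul, dk_tmul, dk_tmul]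
    change atI ((lam h p : W) : KK (I ⊕ J) A) * dd (atI ((lam h g : W) : KK (I ⊕ J) A)) = _
    rw [lam_I, lam_I]
  | add a b ha hb =>
    rw [map_add, map_add, map_add]
    change atI (dk W (lam2 h a)) + atI (dk W (lam2 h b)) = _
    rw [ha, hb]

theorem dk_J (h : Forget W P) (η : P ⊗[A] P) : atJ (dk W (lam2 h η)) ∈ Pol J A 0 := by
  induction η using TensorProduct.induction_on with
  | zero =>
    rw [map_zero, map_zero]
    exact zero_mem (Pol J A 0)
  | tmul p g =>
    rw [lam2_tmul, dk_tmul]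
    exact mul_mem_Pol0 (lam_J h p) (dd_mem_Pol0 (lam_J h g))
  | add a b ha hb =>
    rw [map_add, map_add]
    exact add_mem ha hb

theorem dk_Om (η : W ⊗[A] W) : dk W η ∈ Om W := by
  induction η using TensorProduct.induction_on with
  | zero =>
    rw [map_zero]
    exact zero_mem _
  | tmul p g =>
    rw [dk_tmul]
    exact Submodule.subset_span ⟨p, p.2, g, g.2, rfl⟩
  | add a b ha hb =>
    rw [map_add]
    exact add_mem ha hb

end

section

variable {I J A : Type} [Fintype I] [Fintype J] [CommRing A] {W : Subalgebra A (KK (I ⊕ J) A)}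
  {P : Subalgebra A (KK I A)}

/-- The pairs `(u'_I η, u' η')` are in `QF`. -/
theorem tw_QF (h : Forget W P) (ω : EE P) (ω' : EE W)
    (h1 : atI (ω' : KK (I ⊕ J) A) = ω) (η : P ⊗[A] P) :
    (tw P ω η, tw W ω' (lam2 h η)) ∈ QF P W := by
  induction η using TensorProduct.induction_on with
  | zero =>
    rw [map_zero, map_zero, map_zero]
    exact zero_mem _
  | tmul p g =>
    refine Submodule.subset_span ⟨⟨(p : KK I A) * ω, mul_mem_Perp p.2 ω.2.1⟩, g,
      ⟨((lam h p : W) : KK (I ⊕ J) A) * ω', mul_mem_Perp (lam h p).2 ω'.2.1⟩, lam h g,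
      ?_, ?_, lam_I h g, lam_J h g, rfl⟩
    · change atI ((lam h p : W) : KK (I ⊕ J) A) * atI (ω' : KK (I ⊕ J) A) = (p : KK I A) * ω
      rw [lam_I, h1]
    · exact mul_mem_Pol0 (lam_J h p) fun j m hm => ω'.2.2 (Sum.inr j) m hm
  | add a b ha hb =>
    rw [map_add, map_add, map_add]
    exact add_mem ha hb

end

end HV6m

open HV6m in
/-- HV6: forgetting punctures. -/
theorem t_HV6 (hPOF : Stmt_POF) (hEEF : Stmt_EEF) (hSTO : Stmt_STO) : Stmt_HV6 := by
  intro A I J _ _ _ _ _ g E W P t hF hW hP k u u' x hu hu' hx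
  obtain ⟨hv, η, h1, h2⟩ := hx
  have key : ∀ i, dk W (lam2 hF (η i : P ⊗[A] P)) = t • u i := by
    intro i
    have h3 : dk W (lam2 hF (η i : P ⊗[A] P)) - t • u i = 0 := by
      refine (hEEF hW.1 hF).2.1 _ ?_ ?_ ?_
      · exact sub_mem ((hSTO hW.1).1 (dk_Om _)) ((Perp W).smul_mem t (hu i).1)
      · change atI (dk W (lam2 hF (η i : P ⊗[A] P))) - t • atI (u i) = 0
        rw [dk_I, h1 i, sub_self]
      · exact sub_mem (dk_J hF (η i)) ((Pol J A 0).smul_mem t fun j m hm =>
          (hu i).2 (Sum.inr j) m hm)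
    exact sub_eq_zero.1 h3
  have mem : ∀ i, lam2 hF (η i : P ⊗[A] P) ∈ DR W := by
    intro i
    rw [DR, Submodule.mem_comap, key i]
    exact (Pol (I ⊕ J) A 0).smul_mem t (hu i).2
  refine ⟨hu', fun i => ⟨lam2 hF (η i : P ⊗[A] P), mem i⟩, key, ?_⟩
  rw [h2]
  refine (hPOF E P W hW hP hF _ _ fun i => ?_).symm
  exact tw_QF hF ⟨atI (u' i), hv i⟩ ⟨u' i, hu' i⟩ rfl (η i)

end Pool.Agent.MG.G0
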