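import Pool.Agent.MG.G0.StmtsCQ

/-!
# HV7: values and the change of the index set
-/

open TensorProduct

namespace Pool.Agent.MG.G0

namespace HV7

section

variable {A I I' : Type} [CommRing A] (e : I' ≃ I)

theorem pol {f : KK I A} {n : ℤ} (hf : f ∈ Pol I A n) : (fun i => f (e i)) ∈ Pol I' A n :=
  fun i m hm => hf (e i) m hm

theorem mem {P : Subalgebra A (KK I A)} {f : KK I A} (hf : f ∈ P) :
    (fun i => f (e i)) ∈ reix e P := by
  change (fun i => f (e (e.symm i))) ∈ P
  simpa only [Equiv.apply_symm_apply] using hf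

/-- The isomorphism of rings. -/
noncomputable def rho (P : Subalgebra A (KK I A)) : P →ₗ[A] reix e P where
  toFun f := ⟨fun i => (f : KK I A) (e i), mem e f.2⟩
  map_add' _ _ := rfl
  map_smul' _ _ := rfl

/-- The map of the tensors. -/
noncomputable def rT (P : Subalgebra A (KK I A)) : P ⊗[A] P →ₗ[A] (reix e P ⊗[A] reix e P) :=
  TensorProduct.map (rho e P) (rho e P)

theorem dk_rT (P : Subalgebra A (KK I A)) (η : P ⊗[A] P) :
    dk (reix e P) (rT e P η) = fun i => dk P η (e i) := by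
  induction η using TensorProduct.induction_on with
  | zero => rw [map_zero, map_zero, map_zero]; rfl
  | tmul p g => rfl
  | add a b ha hb => rw [map_add, map_add, map_add, ha, hb]; rfl

theorem perp [Fintype I] [Fintype I'] {P : Subalgebra A (KK I A)} {f : KK I A}
    (hf : f ∈ Perp P) : (fun i => f (e i)) ∈ Perp (reix e P) := by
  intro p hp
  have h1 : res (fun i => f (e i) * p i) = res (f * fun i => p (e.symm i)) := by
    change ∑ i, (f (e i) * p i).coeff (-1) = ∑ i, (f i * p (e.symm i)).coeff (-1)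
    rw [← Equiv.sum_comp e]
    refine Finset.sum_congr rfl fun i _ => ?_
    rw [Equiv.symm_apply_apply]
  exact h1.trans (hf _ hp)

theorem mem_QI [Fintype I] [Fintype I'] {P : Subalgebra A (KK I A)} (ω : EE P)
    (ω' : EE (reix e P)) (h : ∀ i, (ω' : KK I' A) i = (ω : KK I A) (e i)) (η : P ⊗[A] P) :
    (tw P ω η, tw (reix e P) ω' (rT e P η)) ∈ QI e P (reix e P) := by
  induction η using TensorProduct.induction_on with
  | zero =>
    rw [map_zero, map_zero, map_zero]
    exact zero_mem _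
  | tmul p g =>
    refine Submodule.subset_span ⟨⟨(p : KK I A) * ω, mul_mem_Perp p.2 ω.2.1⟩, g,
      ⟨(rho e P p : KK I' A) * ω', mul_mem_Perp (rho e P p).2 ω'.2.1⟩, rho e P g,
      fun i => ?_, fun i => rfl, rfl⟩
    change (p : KK I A) (e i) * (ω' : KK I' A) i = (p : KK I A) (e i) * (ω : KK I A) (e i)
    rw [h]
  | add a b ha hb =>
    rw [map_add, map_add, map_add]
    exact add_mem ha hb

end

end HV7

theorem t_HV7 (hPOX : Stmt_POX) (hGRX : Stmt_GRX) : Stmt_HV7 := by
  intro A I I' _ _ _ _ _ _ g E P e t hP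
  have hP' : Good g (reix e P) := hGRX.1 e g P hP
  refine ⟨hP', ?_⟩
  rintro k u u' x ⟨hu, η, hη, rfl⟩
  have hu' : ∀ j, (fun i => u' j (e i)) ∈ EE (reix e P) := fun j =>
    ⟨HV7.perp e (hu j).1, HV7.pol e (hu j).2⟩
  have hd : ∀ j, dk (reix e P) (HV7.rT e P (η j)) = t • fun i => u j (e i) := by
    intro j
    rw [HV7.dk_rT, hη j]
    rfl
  have hR : ∀ j, HV7.rT e P (η j : P ⊗[A] P) ∈ DR (reix e P) := by
    intro j
    change dk (reix e P) (HV7.rT e P (η j)) ∈ Pol I' A 0
    rw [HV7.dk_rT]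
    exact HV7.pol e (η j).2
  refine ⟨hu', fun j => ⟨HV7.rT e P (η j), hR j⟩, hd, ?_⟩
  exact (hPOX E e P (reix e P) hP hP' rfl _ _ fun j =>
    HV7.mem_QI e ⟨u' j, hu j⟩ ⟨_, hu' j⟩ (fun _ => rfl) (η j)).symm

end Pool.Agent.MG.G0
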