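import Pool.Agent.MG.G0.StmtsCQ

/-!
# Scaling of the coordinate and the values `HV` (PAPER_Q.md, HV8)
-/

open TensorProduct

namespace Pool.Agent.MG.G0

namespace HV8

section

variable {A B : Type} [CommRing A] [CommRing B]

/-- Scaling of the coordinate, as an automorphism of `KK Unit A`. -/
noncomputable def al (c : Aˣ) : KK Unit A ≃ₐ[A] KK Unit A := AlgEquiv.piCongrRight fun _ => scE c

theorem al_apply (c : Aˣ) (f : KK Unit A) (i : Unit) : al c f i = sc c (f i) := rfl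

theorem sc_inj (c : Aˣ) {f f' : LaurentSeries A} (h : sc c f = sc c f') : f = f' := by
  have h1 := congrArg (sc c⁻¹) h
  rw [sc_sc, sc_sc, inv_mul_cancel, sc_one, sc_one] at h1
  exact h1

theorem al_mem_Pol (c : Aˣ) (n : ℤ) (f : KK Unit A) : al c f ∈ Pol Unit A n ↔ f ∈ Pol Unit A n := by
  rw [mem_Pol_unit, mem_Pol_unit, al_apply]
  constructor
  · intro h
    have h1 := sc_mem_Po c⁻¹ h
    rw [sc_sc, inv_mul_cancel, sc_one] at h1
    exact h1
  · exact sc_mem_Po c

theorem al_dd (c : Aˣ) (f : KK Unit A) : dd (al c f) = ((c⁻¹ : Aˣ) : A) • al c (dd f) :=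
  funext fun _ => sc_ld c _

theorem kmap_al (φ : A →+* B) (c : Aˣ) (f : KK Unit A) :
    kmap φ (al c f) = al (Units.map (φ : A →* B) c) (kmap φ f) :=
  funext fun _ => lmap_sc φ c _

theorem res_al (c : Aˣ) (f : KK Unit A) : res (((c⁻¹ : Aˣ) : A) • al c f) = res f := by
  rw [res_unit, res_unit, Pi.smul_apply, HahnSeries.coeff_smul, al_apply, sc_coeff, smul_eq_mul,
    ← mul_assoc, ← Units.val_mul]
  have h : c⁻¹ * c ^ (-(-1 : ℤ)) = 1 := by
    rw [neg_neg, zpow_one, inv_mul_cancel]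
  rw [h, Units.val_one, one_mul]

theorem res_al_mul (c : Aˣ) (f h : KK Unit A) :
    res ((((c⁻¹ : Aˣ) : A) • al c f) * al c h) = res (f * h) := by
  rw [smul_mul_assoc, ← map_mul, res_al]

theorem al_mem (c : Aˣ) (R : Subalgebra A (LaurentSeries A)) (f : KK Unit A) :
    f ∈ uno R ↔ al c f ∈ uno (R.map (sc c)) := by
  rw [mem_uno, mem_uno, al_apply, Subalgebra.mem_map]
  constructor
  · intro h
    exact ⟨f (), h, rfl⟩
  · rintro ⟨r, hr, h⟩
    rw [← sc_inj c h]
    exact hr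

theorem al_EE (c : Aˣ) {R : Subalgebra A (LaurentSeries A)} {ω : KK Unit A}
    (h : ω ∈ EE (uno R)) : ((c⁻¹ : Aˣ) : A) • al c ω ∈ EE (uno (R.map (sc c))) := by
  refine ⟨fun p hp => ?_, Submodule.smul_mem _ _ ((al_mem_Pol c 0 ω).2 h.2)⟩
  obtain ⟨q, rfl⟩ := (al c).surjective p
  rw [res_al_mul]
  exact h.1 q ((al_mem c R q).2 hp)

/-- Scaling of the coordinate on the functions. -/
noncomputable def aP (c : Aˣ) (R : Subalgebra A (LaurentSeries A)) :
    uno R →ₗ[A] uno (R.map (sc c)) where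
  toFun f := ⟨al c f, (al_mem c R f).1 f.2⟩
  map_add' x y := Subtype.ext (map_add (al c) (x : KK Unit A) y)
  map_smul' a x := Subtype.ext (map_smul (al c) a (x : KK Unit A))

@[simp] theorem aP_val (c : Aˣ) (R : Subalgebra A (LaurentSeries A)) (f : uno R) :
    (aP c R f : KK Unit A) = al c f := rfl

/-- Scaling of the coordinate on `∑ p ⊗ g`. -/
noncomputable def aT (c : Aˣ) (R : Subalgebra A (LaurentSeries A)) :
    uno R ⊗[A] uno R →ₗ[A] uno (R.map (sc c)) ⊗[A] uno (R.map (sc c)) :=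
  TensorProduct.map (aP c R) (aP c R)

@[simp] theorem aT_tmul (c : Aˣ) (R : Subalgebra A (LaurentSeries A)) (p g : uno R) :
    aT c R (p ⊗ₜ g) = aP c R p ⊗ₜ aP c R g := rfl

theorem dk_aT (c : Aˣ) (R : Subalgebra A (LaurentSeries A)) (η : uno R ⊗[A] uno R) :
    dk (uno (R.map (sc c))) (aT c R η) = ((c⁻¹ : Aˣ) : A) • al c (dk (uno R) η) := by
  induction η using TensorProduct.induction_on with
  | zero => rw [map_zero, map_zero, map_zero, map_zero, smul_zero]
  | tmul p g =>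
    rw [aT_tmul, dk_tmul, dk_tmul, map_mul, aP_val, aP_val, al_dd, mul_smul_comm]
  | add a b ha hb => rw [map_add, map_add, map_add, map_add, ha, hb, smul_add]

/-- Scaling of the coordinate on the differentials without poles. -/
noncomputable def aD (c : Aˣ) (R : Subalgebra A (LaurentSeries A)) (η : DR (uno R)) :
    DR (uno (R.map (sc c))) :=
  ⟨aT c R η, by
    rw [DR, Submodule.mem_comap, dk_aT]
    exact Submodule.smul_mem _ _ ((al_mem_Pol c 0 _).2 η.2)⟩

theorem dk_aD (c : Aˣ) (R : Subalgebra A (LaurentSeries A)) (η : DR (uno R)) :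
    dk (uno (R.map (sc c))) (aD c R η) = ((c⁻¹ : Aˣ) : A) • al c (dk (uno R) η) := dk_aT c R η

theorem tw_mem_QA (c : Aˣ) (R : Subalgebra A (LaurentSeries A)) (ω : EE (uno R))
    (η : uno R ⊗[A] uno R) :
    (tw (uno R) ω η, tw (uno (R.map (sc c))) ⟨((c⁻¹ : Aˣ) : A) • al c (ω : KK Unit A),
      al_EE c ω.2⟩ (aT c R η)) ∈ QA (al c) (uno R) (uno (R.map (sc c))) := by
  induction η using TensorProduct.induction_on with
  | zero =>
    rw [map_zero, map_zero, map_zero]
    exact zero_mem _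
  | tmul p g =>
    refine Submodule.subset_span ⟨⟨(p : KK Unit A) * ω, mul_mem_Perp p.2 ω.2.1⟩, g,
      ⟨(aP c R p : KK Unit A) * (((c⁻¹ : Aˣ) : A) • al c (ω : KK Unit A)),
        mul_mem_Perp (aP c R p).2 (al_EE c ω.2).1⟩, aP c R g, fun h => ?_, rfl, rfl⟩
    change res (((aP c R p : KK Unit A) * (((c⁻¹ : Aˣ) : A) • al c (ω : KK Unit A))) * al c h) =
      res (((p : KK Unit A) * (ω : KK Unit A)) * h)
    rw [aP_val, mul_smul_comm, ← map_mul, res_al_mul]
  | add a b ha hb =>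
    rw [map_add, map_add, map_add]
    exact add_mem ha hb

end

end HV8

/-- HV8: scaling of the coordinate (one puncture). -/
theorem t_HV8 (hPOA : Stmt_POA) (hGRX : Stmt_GRX) : Stmt_HV8 := by
  intro A _ _ g E R c t hG
  refine ⟨hGRX.2 c g R hG, ?_⟩
  rintro k u u' x ⟨hu, η, hη, hx⟩
  refine ⟨fun i => HV8.al_EE c (hu i), fun i => HV8.aD c R (η i), fun i => ?_, ?_⟩
  · rw [HV8.dk_aD, hη i, map_smul, smul_comm]
    rfl
  · rw [hx]
    symm
    exact hPOA E (HV8.al c)
      (HV8.al (Units.map ((MvPolynomial.C (R := A) (σ := Fin k) : A →+* MvPolynomial (Fin k) A) :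
        A →* MvPolynomial (Fin k) A) c))
      (HV8.al_mem_Pol c) (HV8.al_mem_Pol _)
      (HV8.kmap_al (MvPolynomial.C (R := A) (σ := Fin k)) c)
      (uno R) (uno (R.map (sc c))) hG (hGRX.2 c g R hG) (HV8.al_mem c R)
      (fun i => twR (uno R) ⟨u' i, hu i⟩ (η i))
      (fun i => twR (uno (R.map (sc c))) ⟨((c⁻¹ : Aˣ) : A) • HV8.al c (u' i),
        HV8.al_EE c (hu i)⟩ (HV8.aD c R (η i)))
      (fun i => HV8.tw_mem_QA c R ⟨u' i, hu i⟩ (η i : uno R ⊗[A] uno R))

end Pool.Agent.MG.G0
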