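import Pool.Agent.MG.G0.StmtsCQ

/-!
# HV9: the values over smooth curves and the function on sums of products of differentials
(PAPER_Q.md, HV9)
-/

open TensorProduct

namespace Pool.Agent.MG.G0

namespace HV9

theorem exists_dk {I A : Type} [CommRing A] {P : Subalgebra A (KK I A)} {x : KK I A}
    (hx : x ∈ Om P) : ∃ η : P ⊗[A] P, dk P η = x := by
  have h : Om P ≤ LinearMap.range (dk P) := by
    refine Submodule.span_le.2 ?_
    rintro _ ⟨p, hp, f, hf, rfl⟩
    exact ⟨(⟨p, hp⟩ : P) ⊗ₜ (⟨f, hf⟩ : P), rfl⟩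
  exact h hx

theorem qk_twR {I A : Type} [Fintype I] [CommRing A] {P : Subalgebra A (KK I A)} (ω : EE P)
    (η : DR P) : qk P (twR P ω η : QD P) = (ω : KK I A) * dk P (η : P ⊗[A] P) :=
  qk_tw P ω η

end HV9

theorem t_HV9 (hPOL : Stmt_POL) (hCSM : Stmt_CSM) : Stmt_HV9 := by
  intro A I _ _ _ _ g E P hG hS h0 L n ω ω' hω hL
  obtain ⟨hP1, hP2, hP3, hP4⟩ := hPOL E P hG
  choose η hη using fun i => HV9.exists_dk (hω i)
  have hηR : ∀ i, η i ∈ DR P := fun i => by
    change dk P (η i) ∈ Pol I A 0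
    rw [hη i]
    exact (ω i).2.2
  set η' : Fin n → DR P := fun i => ⟨η i, hηR i⟩ with hη'
  set q : QR P := ∑ i, twR P (ω' i) (η' i) with hq
  have hqk : qk P (q : QD P) = ∑ i, (ω i : KK I A) * (ω' i : KK I A) := by
    rw [hq, AddSubmonoidClass.coe_finsetSum, map_sum]
    refine Finset.sum_congr rfl fun i _ => ?_
    rw [HV9.qk_twR, hη']
    change (ω' i : KK I A) * dk P (η i) = _
    rw [hη i, mul_comm]
  have hLq : L = cov P q := by
    refine Subtype.ext (LinearMap.ext fun D => ?_)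
    obtain ⟨θ, rfl⟩ := (hCSM hG.1 hS).1 D
    rw [cov_apply, Lq_tder, hL θ, hqk, Finset.mul_sum, map_sum]
  rw [hLq]
  refine hP4 q fun m hm => ?_
  obtain ⟨M, hM⟩ := hP2 m
  rw [← hM, hq]
  rw [show (fun _ : Fin m => ∑ i, twR P (ω' i) (η' i)) =
    fun j : Fin m => ∑ i ∈ (Finset.univ : Finset (Fin n)), (fun (_ : Fin m) (i : Fin n) =>
      twR P (ω' i) (η' i)) j i from rfl]
  rw [MultilinearMap.map_sum_finset]
  refine Finset.sum_eq_zero fun f _ => ?_
  rw [hM]
  refine h0 m (fun j => (ω (f j) : KK I A)) (fun j => (ω' (f j) : KK I A)) _ hm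
    (fun j => (ω (f j)).2) ⟨fun j => (ω' (f j)).2, fun j => η' (f j), fun j => ?_, rfl⟩
  rw [one_smul]
  exact hη (f j)

end Pool.Agent.MG.G0
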