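import Pool.Agent.MG.G0.StmtsU

/-!
# INT: membership in a Krichever ring descends along injective base change
-/

namespace Pool.Agent.MG.G0

namespace INT

section

variable {I A B : Type} [CommRing A] [CommRing B]

/-- A series which becomes a constant after an injective base change is a constant. -/
theorem const_of_kmap [Nonempty I] (φ : A →+* B) (hφ : Function.Injective φ) {o : KK I A} {b : B}
    (h : kmap φ o = algebraMap B (KK I B) b) : ∃ a : A, o = algebraMap A (KK I A) a := by
  have hc : ∀ (i : I) (n : ℤ), φ ((o i).coeff n) = if n = 0 then b else 0 := by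
    intro i n
    have e : (kmap φ o i).coeff n = ((algebraMap B (KK I B) b) i).coeff n := by rw [h]
    rw [kmap_apply, lmap_coeff, Pi.algebraMap_apply, coeff_algebraMap] at e
    exact e
  obtain ⟨i₀⟩ := ‹Nonempty I›
  refine ⟨(o i₀).coeff 0, ?_⟩
  funext i
  ext n
  rw [Pi.algebraMap_apply, coeff_algebraMap]
  apply hφ
  rw [hc i n]
  split_ifs with h0
  · rw [hc i₀ 0, if_pos rfl]
  · rw [map_zero]

end

end INT

/-- INT: membership descends along injective base change. -/
theorem t_INT (hKFO : Stmt_KFO) (hKBC : Stmt_KBC) : Stmt_INT := by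
  intro I A B _ _ _ _ g P hP φ hφ x hx
  obtain ⟨⟨ω, hω⟩, -⟩ := hKFO hP
  obtain ⟨hKrB, hFB, -⟩ := hKBC.2.2.2 hP φ
  have h1 : ∀ j, res (ω j * x) = 0 := by
    intro j
    apply hφ
    have e := ((hFB ω hω).ker (kmap φ x)).2 ⟨kmap φ x, hx, by
      rw [sub_self]
      exact Submodule.zero_mem _⟩ j
    rw [map_zero, ← res_kmap, map_mul]
    exact e
  obtain ⟨p, hp, ho⟩ := (hω.ker x).1 h1
  have h2 : kmap φ (x - p) ∈ bc φ P := by
    rw [map_sub]
    exact sub_mem hx (kmap_mem_bc φ hp)
  obtain ⟨b, hb⟩ := hKrB.k1 _ h2 (kmap_mem_Pol φ ho)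
  obtain ⟨a, ha⟩ := INT.const_of_kmap φ hφ hb
  have e : x = algebraMap A (KK I A) a + p := by
    rw [← ha, sub_add_cancel]
  rw [e]
  exact add_mem (P.algebraMap_mem a) hp

end Pool.Agent.MG.G0
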