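import Pool.Agent.MG.G0.StmtsK

/-!
# Change of coordinates and of the index set (PAPER.md, K9)
-/

namespace Pool.Agent.MG.G0

theorem KAU.coord {I A : Type} [CommRing A] {g : ℕ} (P : Subalgebra A (KK I A))
    (α : KK I A ≃ₐ[A] KK I A) (hα : ∀ f, α f ∈ Pol I A 0 ↔ f ∈ Pol I A 0) (hP : IsKr g P) :
    IsKr g (P.map (α : KK I A →ₐ[A] KK I A)) := by
  constructor
  · rintro f ⟨p, hp, rfl⟩ hf
    obtain ⟨a, ha⟩ := hP.k1 p hp ((hα p).1 hf)
    refine ⟨a, ?_⟩
    change α p = _
    rw [ha]
    exact α.commutes a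
  · obtain ⟨L, hL, hk⟩ := hP.k2
    refine ⟨L ∘ₗ α.symm.toLinearMap, ?_, ?_⟩
    · intro c
      obtain ⟨f, hf⟩ := hL c
      refine ⟨α f, ?_⟩
      change L (α.symm (α f)) = c
      rw [α.symm_apply_apply, hf]
    · intro f
      change L (α.symm f) = 0 ↔ _
      rw [hk]
      constructor
      · rintro ⟨p, hp, h⟩
        refine ⟨α p, ⟨p, hp, rfl⟩, ?_⟩
        have h1 : α (α.symm f - p) = f - α p := by
          rw [map_sub, α.apply_symm_apply]
        rw [← h1]
        exact (hα _).2 h
      · rintro ⟨q, ⟨p, hp, rfl⟩, h⟩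
        refine ⟨p, hp, ?_⟩
        have h1 : α (α.symm f - p) = f - α p := by
          rw [map_sub, α.apply_symm_apply]
        rw [← hα, h1]
        exact h

theorem KAU.ind {I I' A : Type} [CommRing A] {g : ℕ} (P : Subalgebra A (KK I A)) (e : I' ≃ I)
    (hP : IsKr g P) : IsKr g (reix e P) := by
  have hmem : ∀ f : KK I' A, f ∈ reix e P ↔ (fun i => f (e.symm i) : KK I A) ∈ P := fun _ => Iff.rfl
  have hpol : ∀ f : KK I' A, f ∈ Pol I' A 0 ↔ (fun i => f (e.symm i) : KK I A) ∈ Pol I A 0 := by
    intro f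
    constructor
    · intro h i m hm
      exact h (e.symm i) m hm
    · intro h i m hm
      have := h (e i) m hm
      simpa using this
  constructor
  · intro f hf hf0
    obtain ⟨a, ha⟩ := hP.k1 _ ((hmem f).1 hf) ((hpol f).1 hf0)
    refine ⟨a, ?_⟩
    funext i'
    have := congrFun ha (e i')
    simp only [Equiv.symm_apply_apply] at this
    rw [this]
    rfl
  · obtain ⟨L, hL, hk⟩ := hP.k2
    refine ⟨L ∘ₗ LinearMap.funLeft A (LaurentSeries A) e.symm, ?_, ?_⟩
    · intro c
      obtain ⟨f, hf⟩ := hL c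
      refine ⟨fun i' => f (e i'), ?_⟩
      have h1 : LinearMap.funLeft A (LaurentSeries A) e.symm (fun i' => f (e i')) = f := by
        funext i
        change f (e (e.symm i)) = f i
        rw [e.apply_symm_apply]
      rw [LinearMap.comp_apply, h1, hf]
    · intro f
      change L (fun i => f (e.symm i)) = 0 ↔ _
      rw [hk]
      constructor
      · rintro ⟨p, hp, h⟩
        refine ⟨fun i' => p (e i'), ?_, ?_⟩
        · rw [hmem]
          simpa using hp
        · rw [hpol]
          have h1 : (fun i => (f - fun i' => p (e i')) (e.symm i) : KK I A)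
              = (fun i => f (e.symm i)) - p := by
            funext i
            simp
          rw [h1]
          exact h
      · rintro ⟨q, hq, h⟩
        exact ⟨_, (hmem q).1 hq, (hpol _).1 h⟩

/-- KAU (K9): change of coordinates and of the index set. -/
theorem t_KAU : Stmt_KAU :=
  ⟨fun P α hα hP => KAU.coord P α hα hP, fun P e hP => KAU.ind P e hP⟩

end Pool.Agent.MG.G0
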