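import Pool.Agent.MG.G0.StmtsK

/-!
# KBT: the base change of a Krichever ring is the tensor product
-/

open TensorProduct

namespace Pool.Agent.MG.G0

namespace KBT

section

variable {I A B : Type} [Fintype I] [CommRing A] [CommRing B]

theorem dense {g : ℕ} {P : Subalgebra A (KK I A)} (h : IsKr g P) : ∃ N : ℕ, Dense P N := by
  obtain ⟨L, hL, hk⟩ := h.k2
  choose v hv using fun j : Fin g => hL (Pi.single j 1)
  choose n hn using fun j => exists_Pol (v j)
  refine ⟨Finset.univ.sup n, fun f => ?_⟩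
  obtain ⟨p, hp, hfp⟩ := (hk (f - ∑ j, L f j • v j)).1 (by
    rw [map_sub, map_sum]
    simp_rw [map_smul, hv]
    funext i
    simp [Finset.sum_apply, Pi.single_apply])
  refine ⟨p, hp, ?_⟩
  have e : f - p = (f - ∑ j, L f j • v j - p) + ∑ j, L f j • v j := by abel
  rw [e]
  refine add_mem (Pol_mono (Int.natCast_nonneg _) hfp) (Submodule.sum_mem _ fun j _ =>
    Submodule.smul_mem _ _ (Pol_mono ?_ (hn j)))
  exact_mod_cast Finset.le_sup (f := n) (Finset.mem_univ j)

variable [Algebra A B]

omit [Fintype I] in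
theorem coeff_sum_kmap {m : ℕ} (b : Fin m → B) (p : Fin m → KK I A) (i : I) (l : ℤ) :
    ((∑ k, b k • kmap (algebraMap A B) (p k)) i).coeff l =
      ∑ k, b k * algebraMap A B ((p k i).coeff l) := by
  rw [Finset.sum_apply, HahnSeries.coeff_sum]
  refine Finset.sum_congr rfl fun k _ => ?_
  rw [Pi.smul_apply, HahnSeries.coeff_smul, kmap_apply, lmap_coeff, smul_eq_mul]

theorem inj [Nonempty I] {P : Subalgebra A (KK I A)} (s : KK I A →ₗ[A] KK I A)
    (hs : IsSec P s) (m : ℕ) (b : Fin m → B) (p : Fin m → P)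
    (h0 : ∑ k, b k • kmap (algebraMap A B) (p k : KK I A) = 0) : ∑ k, b k ⊗ₜ[A] p k = 0 := by
  classical
  choose n' hn' using fun k => exists_Pol (p k : KK I A)
  obtain ⟨n, hn⟩ : ∃ n : ℕ, ∀ k, (p k : KK I A) ∈ Pol I A n := by
    refine ⟨Finset.univ.sup n', fun k => Pol_mono ?_ (hn' k)⟩
    exact_mod_cast Finset.le_sup (f := n') (Finset.mem_univ k)
  choose a ha using fun k => hs.eq (p k : KK I A) (p k).2
  let σ : I → ℤ → P := fun i l => ⟨s (mon i l 1), hs.mem _⟩
  -- the elements of `P` modulo constants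
  have h1 : ∀ k, p k + algebraMap A P (a k) =
      ∑ i, ∑ l ∈ Finset.Ico (-(n : ℤ)) 0, (((p k : KK I A) i).coeff l) • σ i l := by
    intro k
    apply Subtype.ext
    have e1 : ((∑ i, ∑ l ∈ Finset.Ico (-(n : ℤ)) 0, (((p k : KK I A) i).coeff l) • σ i l : P) :
        KK I A) = ∑ i, ∑ l ∈ Finset.Ico (-(n : ℤ)) 0, s (mon i l (((p k : KK I A) i).coeff l)) := by
      rw [AddSubmonoidClass.coe_finsetSum]
      refine Finset.sum_congr rfl fun i _ => ?_
      rw [AddSubmonoidClass.coe_finsetSum]
      refine Finset.sum_congr rfl fun l _ => ?_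
      rw [Subalgebra.coe_smul]
      change (((p k : KK I A) i).coeff l) • s (mon i l 1) = _
      rw [← map_smul, smul_mon, mul_one]
    rw [e1]
    have e2 := hs.zero _ (sub_mon_mem_Pol (hn k) 0)
    rw [map_sub, map_sum, sub_eq_zero] at e2
    change (p k : KK I A) + algebraMap A (KK I A) (a k) = _
    rw [← ha k, e2]
    exact Finset.sum_congr rfl fun i _ => map_sum _ _ _
  -- the polar parts
  have h2 : ∀ (i : I) (l : ℤ), ∑ k, b k * algebraMap A B (((p k : KK I A) i).coeff l) = 0 := by
    intro i l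
    rw [← coeff_sum_kmap b (fun k => (p k : KK I A)) i l, h0]
    rfl
  have h3 : ∑ k, b k ⊗ₜ[A] (p k + algebraMap A P (a k)) = 0 := by
    have e1 : ∀ k, b k ⊗ₜ[A] (p k + algebraMap A P (a k)) =
        ∑ i, ∑ l ∈ Finset.Ico (-(n : ℤ)) 0,
          (b k * algebraMap A B (((p k : KK I A) i).coeff l)) ⊗ₜ[A] σ i l := by
      intro k
      rw [h1 k, TensorProduct.tmul_sum]
      refine Finset.sum_congr rfl fun i _ => ?_
      rw [TensorProduct.tmul_sum]
      refine Finset.sum_congr rfl fun l _ => ?_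
      rw [TensorProduct.tmul_smul, TensorProduct.smul_tmul', Algebra.smul_def, mul_comm]
    rw [Finset.sum_congr rfl fun k _ => e1 k, Finset.sum_comm]
    refine Finset.sum_eq_zero fun i _ => ?_
    rw [Finset.sum_comm]
    refine Finset.sum_eq_zero fun l _ => ?_
    rw [← TensorProduct.sum_tmul, h2, TensorProduct.zero_tmul]
  -- the constants
  have h4 : ∑ k, b k * algebraMap A B (a k) = 0 := by
    obtain ⟨i⟩ := ‹Nonempty I›
    -- the image of `h3` in the series
    have e1 : ∀ k, s (p k : KK I A) = (p k : KK I A) + algebraMap A (KK I A) (a k) := ha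
    have e2 : ∑ k, b k • kmap (algebraMap A B) (s (p k : KK I A)) = 0 := by
      have e3 : ∀ k, b k • kmap (algebraMap A B) (s (p k : KK I A)) =
          ∑ i, ∑ l ∈ Finset.Ico (-(n : ℤ)) 0,
            (b k * algebraMap A B (((p k : KK I A) i).coeff l)) •
              kmap (algebraMap A B) (σ i l : KK I A) := by
        intro k
        have e4 := congrArg (fun x : P => (x : KK I A)) (h1 k)
        change (p k : KK I A) + algebraMap A (KK I A) (a k) = _ at e4
        rw [e1, e4, AddSubmonoidClass.coe_finsetSum, map_sum, Finset.smul_sum]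
        refine Finset.sum_congr rfl fun i _ => ?_
        rw [AddSubmonoidClass.coe_finsetSum, map_sum, Finset.smul_sum]
        refine Finset.sum_congr rfl fun l _ => ?_
        rw [Subalgebra.coe_smul, kmap_smul, smul_smul]
      rw [Finset.sum_congr rfl fun k _ => e3 k, Finset.sum_comm]
      refine Finset.sum_eq_zero fun i _ => ?_
      rw [Finset.sum_comm]
      refine Finset.sum_eq_zero fun l _ => ?_
      rw [← Finset.sum_smul, h2, zero_smul]
    have e5 : ∑ k, b k • kmap (algebraMap A B) (algebraMap A (KK I A) (a k)) = 0 := by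
      have : ∑ k, b k • kmap (algebraMap A B) (s (p k : KK I A)) =
          ∑ k, b k • kmap (algebraMap A B) (p k : KK I A) +
            ∑ k, b k • kmap (algebraMap A B) (algebraMap A (KK I A) (a k)) := by
        rw [← Finset.sum_add_distrib]
        refine Finset.sum_congr rfl fun k _ => ?_
        rw [e1, map_add, smul_add]
      rw [e2, h0, zero_add] at this
      exact this.symm
    have e6 := coeff_sum_kmap b (fun k => algebraMap A (KK I A) (a k)) i 0
    rw [e5] at e6
    have e7 : ∀ k, ((algebraMap A (KK I A) (a k)) i).coeff 0 = a k := fun k => by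
      rw [Pi.algebraMap_apply, coeff_algebraMap, if_pos rfl]
    simp only [e7] at e6
    rw [← e6]
    rfl
  have h5 : ∑ k, b k ⊗ₜ[A] algebraMap A P (a k) = 0 := by
    have e1 : ∀ k, b k ⊗ₜ[A] algebraMap A P (a k) =
        (b k * algebraMap A B (a k)) ⊗ₜ[A] (1 : P) := by
      intro k
      rw [Algebra.algebraMap_eq_smul_one, TensorProduct.tmul_smul, TensorProduct.smul_tmul',
        Algebra.smul_def, mul_comm]
    rw [Finset.sum_congr rfl fun k _ => e1 k, ← TensorProduct.sum_tmul, h4,
      TensorProduct.zero_tmul]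
  have h6 : ∑ k, b k ⊗ₜ[A] (p k + algebraMap A P (a k)) =
      ∑ k, b k ⊗ₜ[A] p k + ∑ k, b k ⊗ₜ[A] algebraMap A P (a k) := by
    rw [← Finset.sum_add_distrib]
    exact Finset.sum_congr rfl fun k _ => TensorProduct.tmul_add _ _ _
  rw [h3, h5, add_zero] at h6
  exact h6.symm

/-- The homomorphism from a tensor product. -/
theorem exists_lift {A B C P : Type} [CommRing A] [CommRing B] [CommRing C] [CommRing P]
    [Algebra A B] [Algebra A P] [Algebra B C] (g : P →+* C)
    (hg : ∀ a, g (algebraMap A P a) = algebraMap B C (algebraMap A B a)) :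
    ∃ f : (B ⊗[A] P) →ₐ[B] C, ∀ (b : B) (p : P), f (b ⊗ₜ p) = b • g p := by
  let _ : Algebra A C := ((algebraMap B C).comp (algebraMap A B)).toAlgebra
  have : IsScalarTower A B C := IsScalarTower.of_algebraMap_eq' rfl
  let g' : P →ₐ[A] C := { g with commutes' := hg }
  refine ⟨Algebra.TensorProduct.lift (Algebra.ofId B C) g' fun _ _ => mul_comm _ _, ?_⟩
  intro b p
  rw [Algebra.TensorProduct.lift_tmul, Algebra.smul_def]
  rfl

omit [Fintype I] in
/-- The homomorphism to the series. -/
theorem exists_hom (P : Subalgebra A (KK I A)) :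
    ∃ f : (B ⊗[A] P) →ₐ[B] KK I B,
      ∀ (b : B) (p : P), f (b ⊗ₜ p) = b • kmap (algebraMap A B) (p : KK I A) :=
  exists_lift ((kmap (algebraMap A B)).comp P.val.toRingHom)
    fun a => kmap_algebraMap (algebraMap A B) a

end

end KBT

theorem t_KBT (hKSP : Stmt_KSP) (hKBC : Stmt_KBC) : Stmt_KBT := by
  intro I A B _ _ _ _ _ g P hP
  obtain ⟨N, hN⟩ := KBT.dense hP
  obtain ⟨s, hs, -⟩ := ((hKSP hP).2 N hN).1
  have hinj := KBT.inj (B := B) s hs
  refine ⟨hinj, ?_⟩
  obtain ⟨f, hf⟩ := KBT.exists_hom (B := B) P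
  have hmem : ∀ x, f x ∈ bc (algebraMap A B) P := by
    intro x
    induction x using TensorProduct.induction_on with
    | zero => rw [map_zero]; exact zero_mem _
    | tmul b p =>
      rw [hf]
      exact Subalgebra.smul_mem _ (kmap_mem_bc _ p.2) b
    | add x y hx hy => rw [map_add]; exact add_mem hx hy
  let f' : (B ⊗[A] P) →ₐ[B] bc (algebraMap A B) P := f.codRestrict _ hmem
  have h1 : Function.Injective f' := by
    rw [injective_iff_map_eq_zero]
    intro x hx
    have hx' : f x = 0 := congrArg (fun z : bc (algebraMap A B) P => (z : KK I B)) hx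
    obtain ⟨m, b, p, rfl⟩ : ∃ (m : ℕ) (b : Fin m → B) (p : Fin m → P),
        x = ∑ k, b k ⊗ₜ[A] p k := TensorProduct.exists_sum_tmul_eq x
    apply hinj
    rw [map_sum] at hx'
    rw [← hx']
    exact Finset.sum_congr rfl fun k _ => (hf _ _).symm
  have h2 : Function.Surjective f' := by
    rintro ⟨y, hy⟩
    have hy' : y ∈ Submodule.span B (kmap (algebraMap A B) '' (P : Set (KK I A))) := by
      rw [← hKBC.1 (algebraMap A B) P]
      exact hy
    have h3 : ∃ x, f x = y := by
      refine Submodule.span_induction ?_ ?_ ?_ ?_ hy'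
      · rintro _ ⟨p, hp, rfl⟩
        exact ⟨1 ⊗ₜ ⟨p, hp⟩, by rw [hf, one_smul]⟩
      · exact ⟨0, map_zero f⟩
      · rintro _ _ _ _ ⟨x, rfl⟩ ⟨x', rfl⟩
        exact ⟨x + x', map_add f _ _⟩
      · rintro c _ _ ⟨x, rfl⟩
        exact ⟨c • x, map_smul f _ _⟩
    obtain ⟨x, hx⟩ := h3
    exact ⟨x, Subtype.ext hx⟩
  exact ⟨AlgEquiv.ofBijective f' ⟨h1, h2⟩, fun b p => hf b p⟩

end Pool.Agent.MG.G0
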