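import Pool.Agent.MG.G0.StmtsK

/-!
# Duality for Laurent series (PAPER.md, K2)
-/

namespace Pool.Agent.MG.G0

namespace KDU

variable {I A : Type} [CommRing A]

theorem supp_bdd (M : ℤ) (c : ℤ → A) (h : ∀ m < -M, c m = 0) :
    BddBelow (Function.support c) := by
  refine ⟨-M, fun m hm => ?_⟩
  by_contra hc
  exact hm (h m (by omega))

variable [Fintype I]

/-- The dual series of a functional. -/
noncomputable def eta (M : ℤ) (l : KK I A →ₗ[A] A) (h : ∀ f ∈ Pol I A (-M), l f = 0) : KK I A :=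
  fun i => HahnSeries.ofSuppBddBelow (fun k => l (mon i (-1 - k) 1))
    (supp_bdd M _ fun _ hm => h _ (mon_mem_Pol i (by omega) 1))

theorem eta_coeff (M : ℤ) (l : KK I A →ₗ[A] A) (h : ∀ f ∈ Pol I A (-M), l f = 0) (i : I)
    (k : ℤ) : (eta M l h i).coeff k = l (mon i (-1 - k) 1) := rfl

theorem eta_mem (M : ℤ) (l : KK I A →ₗ[A] A) (h : ∀ f ∈ Pol I A (-M), l f = 0) :
    eta M l h ∈ Pol I A M := fun i k hk => by
  rw [eta_coeff]
  exact h _ (mon_mem_Pol i (by omega) 1)

theorem eta_mon (M : ℤ) (l : KK I A →ₗ[A] A) (h : ∀ f ∈ Pol I A (-M), l f = 0) (i : I)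
    (m : ℤ) (a : A) : l (mon i m a) = res (eta M l h * mon i m a) := by
  rw [res_mul_mon, eta_coeff]
  have e : -1 - (-1 - m) = m := by ring
  rw [e]
  have e2 : mon i m a = a • mon i m (1 : A) := by rw [smul_mon, mul_one]
  rw [e2, map_smul, smul_eq_mul, mul_comm]

/-- Multiplication by a series followed by the residue, as a linear map. -/
noncomputable def resmul (η : KK I A) : KK I A →ₗ[A] A where
  toFun f := res (η * f)
  map_add' f g := by rw [mul_add, map_add]
  map_smul' a f := by rw [mul_smul_comm, map_smul, RingHom.id_apply]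

theorem eta_eq (M : ℤ) (l : KK I A →ₗ[A] A) (h : ∀ f ∈ Pol I A (-M), l f = 0) (f : KK I A) :
    l f = res (eta M l h * f) := by
  obtain ⟨n, hn⟩ := exists_Pol f
  have h1 := sub_mon_mem_Pol hn M
  generalize hS : ∑ i, ∑ m ∈ Finset.Ico (-(n : ℤ)) M, mon i m ((f i).coeff m) = S at h1
  have h2 : l (f - S) = 0 := h _ h1
  have h3 : res (eta M l h * (f - S)) = 0 := by
    have := mul_mem_Pol (eta_mem M l h) h1
    rw [add_neg_cancel] at this
    exact res_Pol0 this
  have h4 : l S = res (eta M l h * S) := by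
    have : l S = resmul (eta M l h) S := by
      rw [← hS, map_sum, map_sum]
      refine Finset.sum_congr rfl fun i _ => ?_
      rw [map_sum, map_sum]
      exact Finset.sum_congr rfl fun m _ => eta_mon M l h i m _
    exact this
  rw [mul_sub, map_sub, sub_eq_zero] at h3
  rw [map_sub, sub_eq_zero] at h2
  rw [h2, h4, h3]

end KDU

open KDU in
theorem t_KDU : Stmt_KDU := by
  intro I A _ _ M l h
  refine ⟨eta M l h, ⟨eta_mem M l h, eta_eq M l h⟩, ?_⟩
  rintro η ⟨_, h2⟩
  funext i
  ext k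
  have e := h2 (mon i (-1 - k) 1)
  rw [res_mul_mon, mul_one] at e
  rw [eta_coeff, e]
  congr 1
  ring

end Pool.Agent.MG.G0
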