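import Pool.Agent.MG.G0.StmtsK

/-!
# KFG: Krichever rings are finite over `A[z]` and finitely presented
-/

open TensorProduct

namespace Pool.Agent.MG.G0

namespace KFG

section one

variable {A : Type} [CommRing A]

theorem isUnit_of_lead {f : LaurentSeries A} (n : ℤ) (h0 : ∀ m < n, f.coeff m = 0)
    (h1 : f.coeff n = 1) : IsUnit f := by
  have hs : ∀ m < -n, (HahnSeries.single (-n) (1 : A)).coeff m = 0 := fun m hm =>
    HahnSeries.coeff_single_of_ne (by omega)
  have h2 : IsUnit (f * HahnSeries.single (-n) 1) := by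
    apply HahnSeries.isUnit_of_orderTop_pos
    set y : LaurentSeries A := f * HahnSeries.single (-n) 1 - 1 with hy
    have h3 : ∀ m ≤ 0, y.coeff m = 0 := by
      intro m hm
      rw [hy, HahnSeries.coeff_sub, HahnSeries.coeff_one]
      rcases hm.lt_or_eq with h4 | h4
      · rw [mul_low h0 hs m (by omega), if_neg (by omega), sub_zero]
      · have h5 := mul_lead h0 hs
        rw [h1, HahnSeries.coeff_single_same, add_neg_cancel] at h5
        rw [h4, h5, if_pos rfl, mul_one, sub_self]
    by_cases h6 : y = 0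
    · rw [h6, HahnSeries.orderTop_zero]
      exact WithTop.coe_lt_top 0
    · rw [HahnSeries.zero_lt_orderTop_iff h6]
      by_contra h7
      exact h6 (HahnSeries.coeff_order_eq_zero.1 (h3 _ (not_lt.1 h7)))
  exact isUnit_of_mul_isUnit_left h2

end one

section many

variable {I A : Type} [CommRing A]

theorem pow_mem_Pol {d : ℤ} {z : KK I A} (hz : z ∈ Pol I A d) (k : ℕ) :
    z ^ k ∈ Pol I A (k * d) := by
  induction k with
  | zero =>
    rw [pow_zero, Nat.cast_zero, zero_mul]
    exact one_mem_Pol0
  | succ k ih =>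
    rw [pow_succ]
    have h1 : ((k + 1 : ℕ) : ℤ) * d = k * d + d := by push_cast; ring
    rw [h1]
    exact mul_mem_Pol ih hz

theorem pow_lead {d : ℤ} {z : KK I A} (hz : Mon d z) (k : ℕ) (i : I) :
    ((z ^ k) i).coeff (-(k * d)) = 1 := by
  induction k with
  | zero => simp
  | succ k ih =>
    rw [pow_succ]
    have h1 : ((k + 1 : ℕ) : ℤ) * d = k * d + d := by push_cast; ring
    rw [h1, mul_Pol_lead (pow_mem_Pol hz.1 k) hz.1, ih, hz.2 i, mul_one]

/-- The value at `z` of a polynomial of degree at most `k`. -/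
theorem aeval_mem_Pol {d : ℤ} (hd : 1 ≤ d) {z : KK I A} (hz : Mon d z) (h : Polynomial A) (k : ℕ)
    (hk : h.natDegree ≤ k) : Polynomial.aeval z h ∈ Pol I A (k * d) ∧
      ∀ i, (Polynomial.aeval z h i).coeff (-(k * d)) = h.coeff k := by
  rw [Polynomial.aeval_eq_sum_range' (n := k + 1) (by omega)]
  have h1 : ∀ j ∈ Finset.range k, h.coeff j • z ^ j ∈ Pol I A (k * d - 1) := by
    intro j hj
    refine (Pol I A _).smul_mem _ (Pol_mono ?_ (pow_mem_Pol hz.1 j))
    have h2 : (j : ℤ) + 1 ≤ k := by
      have := Finset.mem_range.1 hj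
      omega
    nlinarith
  have h2 := Submodule.sum_mem _ h1
  rw [Finset.sum_range_succ]
  refine ⟨Submodule.add_mem _ (Pol_mono (by omega) h2)
    ((Pol I A _).smul_mem _ (pow_mem_Pol hz.1 k)), fun i => ?_⟩
  rw [Pi.add_apply, HahnSeries.coeff_add, h2 i _ (by omega), Pi.smul_apply, HahnSeries.coeff_smul,
    pow_lead hz, smul_eq_mul, mul_one, zero_add]

theorem isUnit_aeval {d : ℤ} (hd : 1 ≤ d) {z : KK I A} (hz : Mon d z) {h : Polynomial A}
    (hh : h.Monic) : IsUnit (Polynomial.aeval z h) := by
  obtain ⟨h1, h2⟩ := aeval_mem_Pol hd hz h h.natDegree le_rfl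
  rw [Pi.isUnit_iff]
  intro i
  refine isUnit_of_lead (-(h.natDegree * d)) (h1 i) ?_
  rw [h2 i]
  exact hh

theorem aeval_inj [Nonempty I] {d : ℤ} (hd : 1 ≤ d) {z : KK I A} (hz : Mon d z) {h : Polynomial A}
    (hh : Polynomial.aeval z h = 0) : h = 0 := by
  obtain ⟨i⟩ := ‹Nonempty I›
  obtain ⟨-, h2⟩ := aeval_mem_Pol hd hz h h.natDegree le_rfl
  have h3 := h2 i
  rw [hh, Pi.zero_apply, HahnSeries.coeff_zero] at h3
  exact Polynomial.leadingCoeff_eq_zero.1 h3.symm

/-- Division by `z`. -/
theorem div_mem_Pol [Finite I] {d : ℤ} {z y : KK I A} (hz : Mon d z) {n : ℤ}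
    (h : z * y ∈ Pol I A (n + d)) : y ∈ Pol I A n := by
  obtain ⟨m, hm⟩ := exists_Pol y
  have key : ∀ k : ℕ, y ∈ Pol I A (n + k) → y ∈ Pol I A n := by
    intro k
    induction k with
    | zero =>
      intro hk
      simpa using hk
    | succ k ih =>
      intro hk
      apply ih
      intro i l hl
      rcases lt_or_ge l (-(n + ((k + 1 : ℕ) : ℤ))) with h1 | h1
      · exact hk i l h1
      · have h2 : l = -(n + ((k + 1 : ℕ) : ℤ)) := by
          push_cast at h1 ⊢
          omega
        have h3 := mul_Pol_lead hz.1 hk i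
        rw [hz.2 i, one_mul, ← h2] at h3
        rw [← h3]
        refine h i _ ?_
        push_cast
        omega
  rcases le_or_gt (m : ℤ) n with h1 | h1
  · exact Pol_mono h1 hm
  · refine key (m - n).toNat (Pol_mono ?_ hm)
    omega

theorem div_pow_mem_Pol [Finite I] {d : ℤ} {z y : KK I A} (hz : Mon d z) {n : ℤ} (k : ℕ)
    (h : z ^ k * y ∈ Pol I A (n + k * d)) : y ∈ Pol I A n := by
  induction k with
  | zero => simpa using h
  | succ k ih =>
    refine ih (div_mem_Pol hz ?_)
    rw [← mul_assoc, ← pow_succ', add_assoc]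
    have h1 : ((k + 1 : ℕ) : ℤ) * d = k * d + d := by push_cast; ring
    rwa [← h1]

end many

section main

variable {I A : Type} [Fintype I] [Nonempty I] [CommRing A] {g : ℕ} {P : Subalgebra A (KK I A)}

/-- The elements of `P` with poles of order at most `n`, as a submodule of `P`. -/
noncomputable def Q (P : Subalgebra A (KK I A)) (n : ℤ) : Submodule A P :=
  (Pol I A n).comap P.val.toLinearMap

omit [Fintype I] [Nonempty I] in
theorem mem_Q {n : ℤ} {f : P} : f ∈ Q P n ↔ (f : KK I A) ∈ Pol I A n := Iff.rfl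

omit [Fintype I] [Nonempty I] in
theorem map_Q (n : ℤ) : (Q P n).map P.val.toLinearMap = PP P n := by
  ext f
  rw [Submodule.mem_map, mem_PP]
  constructor
  · rintro ⟨x, hx, rfl⟩
    exact ⟨x.2, hx⟩
  · rintro ⟨h1, h2⟩
    exact ⟨⟨f, h1⟩, h2, rfl⟩

omit [Fintype I] [Nonempty I] in
theorem fg_Q {n : ℤ} (h : Module.Finite A (PP P n)) : (Q P n).FG := by
  refine Submodule.fg_of_fg_map_injective P.val.toLinearMap Subtype.val_injective ?_
  rw [map_Q]
  exact Module.Finite.iff_fg.1 h

omit [Fintype I] [Nonempty I] in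
theorem finite_Q {n : ℤ} (h : Module.Finite A (PP P n)) : Module.Finite A (Q P n) :=
  Module.Finite.iff_fg.2 (fg_Q h)

/-- The two forms of this module. -/
noncomputable def eQ (P : Subalgebra A (KK I A)) (n : ℤ) : Q P n ≃ₗ[A] PP P n :=
  (Submodule.equivMapOfInjective P.val.toLinearMap Subtype.val_injective (Q P n)).trans
    (LinearEquiv.ofEq _ _ (map_Q n))

omit [Fintype I] [Nonempty I] in
theorem fp_Q {n : ℤ} (h : Module.Finite A (PP P n)) (h' : Module.Projective A (PP P n)) :
    Module.FinitePresentation A (Q P n) := by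
  have h1 : Module.Projective A (Q P n) := Module.Projective.of_equiv (eQ P n).symm
  have h2 : Module.Finite A (Q P n) := finite_Q h
  exact Module.finitePresentation_of_projective A (Q P n)

omit [Nonempty I] in
/-- Lowering the order of the pole with a multiple of `z`. -/
theorem step (hKNZ : Stmt_KNZ) (hP : IsKr g P) {N : ℕ} (hN : Dense P N) {d : ℤ} {z : P}
    (hz : Mon d (z : KK I A)) {n : ℤ} (hn : N + d < n) {f : P} (hf : f ∈ Q P n) :
    ∃ p ∈ Q P (n - d), f - z * p ∈ Q P (n - 1) := by
  obtain ⟨-, h1⟩ := hKNZ hP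
  obtain ⟨-, h2, -⟩ := h1 N hN
  obtain ⟨p, hp, hp1, hp2⟩ := h2 (n - d) (by omega) (fun i => ((f : KK I A) i).coeff (-n))
  refine ⟨⟨p, hp⟩, hp1, ?_⟩
  intro i m hm
  have h3 : (z : KK I A) * p ∈ Pol I A (d + (n - d)) := mul_mem_Pol hz.1 hp1
  have h4 : d + (n - d) = n := by ring
  rw [h4] at h3
  change (((f : KK I A) - (z : KK I A) * p) i).coeff m = 0
  rw [Pi.sub_apply, HahnSeries.coeff_sub]
  rcases lt_or_ge m (-n) with h5 | h5
  · rw [mem_Q.1 hf i m h5, h3 i m h5, sub_zero]
  · have h6 : m = -n := by omega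
    have h7 := mul_Pol_lead hz.1 hp1 i
    rw [h4, hz.2 i, one_mul, hp2 i] at h7
    rw [h6, h7, sub_self]

omit [Nonempty I] in
/-- Every element is a polynomial in `z` with coefficients with poles of order at most `N + d`. -/
theorem exists_poly (hKNZ : Stmt_KNZ) (hP : IsKr g P) {N : ℕ} (hN : Dense P N) {d : ℤ}
    (hd : 1 ≤ d) {z : P} (hz : Mon d (z : KK I A)) (f : P) :
    ∃ F : Polynomial P, (∀ k, F.coeff k ∈ Q P (N + d)) ∧ f = F.eval z := by
  have key : ∀ n : ℕ, ∀ f : P, f ∈ Q P n →
      ∃ F : Polynomial P, (∀ k, F.coeff k ∈ Q P (N + d)) ∧ f = F.eval z := by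
    intro n
    induction n using Nat.strong_induction_on with
    | _ n ih =>
      intro f hf
      by_cases hn : (n : ℤ) ≤ N + d
      · refine ⟨Polynomial.C f, fun k => ?_, (Polynomial.eval_C).symm⟩
        rw [Polynomial.coeff_C]
        split_ifs
        · exact Pol_mono hn hf
        · exact Submodule.zero_mem _
      · obtain ⟨p, hp, hp1⟩ := step hKNZ hP hN hz (not_le.1 hn) hf
        have h1 : ((n - d : ℤ).toNat : ℤ) = n - d := Int.toNat_of_nonneg (by omega)
        have h2 : ((n - 1 : ℤ).toNat : ℤ) = n - 1 := Int.toNat_of_nonneg (by omega)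
        obtain ⟨F, hF, hF1⟩ := ih (n - d : ℤ).toNat (by omega) p (by rw [h1]; exact hp)
        obtain ⟨G, hG, hG1⟩ := ih (n - 1 : ℤ).toNat (by omega) _ (by rw [h2]; exact hp1)
        refine ⟨Polynomial.X * F + G, fun k => ?_, ?_⟩
        · rw [Polynomial.coeff_add]
          refine Submodule.add_mem _ ?_ (hG k)
          rcases k with _ | k
          · rw [Polynomial.coeff_X_mul_zero]
            exact Submodule.zero_mem _
          · rw [Polynomial.coeff_X_mul]
            exact hF k
        · rw [Polynomial.eval_add, Polynomial.eval_mul, Polynomial.eval_X, ← hF1, ← hG1]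
          ring
  obtain ⟨n, hn⟩ := exists_Pol (f : KK I A)
  exact key n f hn

omit [Nonempty I] in
theorem exists_sum (hKNZ : Stmt_KNZ) (hP : IsKr g P) {N : ℕ} (hN : Dense P N) {d : ℤ}
    (hd : 1 ≤ d) {z : P} (hz : Mon d (z : KK I A)) (f : P) :
    ∃ (m : ℕ) (x : Fin m → P), (∀ k, (x k : KK I A) ∈ Pol I A (N + d)) ∧
      f = ∑ k : Fin m, z ^ (k : ℕ) * x k := by
  obtain ⟨F, hF, hF1⟩ := exists_poly hKNZ hP hN hd hz f
  refine ⟨F.natDegree + 1, fun k => F.coeff k, fun k => hF k, ?_⟩
  rw [hF1, Polynomial.eval_eq_sum_range, Finset.sum_range]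
  exact Finset.sum_congr rfl fun k _ => mul_comm _ _

omit [Fintype I] [Nonempty I] in
/-- The structure of an algebra over the polynomial ring. -/
theorem tower (z : P) :
    letI := (Polynomial.aeval (R := A) z).toRingHom.toAlgebra
    IsScalarTower A (Polynomial A) P := by
  letI := (Polynomial.aeval (R := A) z).toRingHom.toAlgebra
  refine IsScalarTower.of_algebraMap_eq fun a => ?_
  change algebraMap A P a = Polynomial.aeval z (algebraMap A (Polynomial A) a)
  rw [AlgHom.commutes]

theorem finite_aeval (hKNZ : Stmt_KNZ) (hKSP : Stmt_KSP) (hP : IsKr g P) {N : ℕ}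
    (hN : Dense P N) {d : ℤ} (hd : 1 ≤ d) {z : P} (hz : Mon d (z : KK I A)) :
    (Polynomial.aeval (R := A) z).toRingHom.Finite := by
  letI := (Polynomial.aeval (R := A) z).toRingHom.toAlgebra
  haveI := tower (P := P) z
  change Module.Finite (Polynomial A) P
  obtain ⟨-, h0⟩ := hKSP hP
  obtain ⟨-, h1⟩ := h0 N hN
  obtain ⟨S, hS⟩ := fg_Q (h1 (N + d) (by omega)).1
  refine ⟨⟨S, ?_⟩⟩
  rw [eq_top_iff]
  intro f _
  obtain ⟨F, hF, rfl⟩ := exists_poly hKNZ hP hN hd hz f
  rw [Polynomial.eval_eq_sum_range]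
  refine Submodule.sum_mem _ fun k _ => ?_
  have h2 : F.coeff k * z ^ k = (Polynomial.X ^ k : Polynomial A) • F.coeff k := by
    rw [Algebra.smul_def]
    change _ = Polynomial.aeval z (Polynomial.X ^ k : Polynomial A) * F.coeff k
    rw [map_pow, Polynomial.aeval_X, mul_comm]
  rw [h2]
  refine Submodule.smul_mem _ _ ?_
  have h3 : F.coeff k ∈ Submodule.span A (S : Set P) := by
    rw [hS]
    exact hF k
  exact Submodule.span_le_restrictScalars A (Polynomial A) (S : Set P) h3

section fp

variable (P) (z : P) (n d : ℤ)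

/-- The inclusion. -/
noncomputable def i1 (hd : 0 ≤ d) : Q P n →ₗ[A] Q P (n + d) :=
  Submodule.inclusion fun _ hx => Pol_mono (by omega) hx

variable {z d} in
/-- The multiplication by `z`. -/
noncomputable def i2 (hz : (z : KK I A) ∈ Pol I A d) : Q P n →ₗ[A] Q P (n + d) :=
  (LinearMap.mulLeft A z).restrict fun x hx => by
    change (z : KK I A) * x ∈ Pol I A (n + d)
    rw [add_comm]
    exact mul_mem_Pol hz hx

/-- The relations. -/
noncomputable def rel (hd : 0 ≤ d) (hz : (z : KK I A) ∈ Pol I A d) :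
    Q P n →ₗ[A] Polynomial A ⊗[A] Q P (n + d) :=
  TensorProduct.mk A (Polynomial A) (Q P (n + d)) Polynomial.X ∘ₗ i1 P n d hd -
    TensorProduct.mk A (Polynomial A) (Q P (n + d)) 1 ∘ₗ i2 P n hz

omit [Fintype I] [Nonempty I] in
theorem rel_apply (hd : 0 ≤ d) (hz : (z : KK I A) ∈ Pol I A d) (x : Q P n) :
    rel P z n d hd hz x = (Polynomial.X : Polynomial A) ⊗ₜ i1 P n d hd x - 1 ⊗ₜ i2 P n hz x := rfl

end fp

/-- The elements of the tensor product. -/
theorem exists_tensor {M : Type} [AddCommMonoid M] [Module A M] (t : Polynomial A ⊗[A] M) :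
    ∃ (n : ℕ) (y : ℕ → M), t = ∑ k ∈ Finset.range n, (Polynomial.X ^ k : Polynomial A) ⊗ₜ[A] y k := by
  induction t using TensorProduct.induction_on with
  | zero => exact ⟨0, fun _ => 0, by simp⟩
  | tmul p q =>
    refine ⟨p.natDegree + 1, fun k => p.coeff k • q, ?_⟩
    conv_lhs => rw [p.as_sum_range_C_mul_X_pow]
    rw [TensorProduct.sum_tmul]
    refine Finset.sum_congr rfl fun k _ => ?_
    rw [← Polynomial.smul_eq_C_mul, TensorProduct.smul_tmul]
  | add s t hs ht =>
    obtain ⟨n, y, rfl⟩ := hs
    obtain ⟨m, x, rfl⟩ := ht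
    refine ⟨max n m, fun k => (if k < n then y k else 0) + (if k < m then x k else 0), ?_⟩
    simp only [TensorProduct.tmul_add, Finset.sum_add_distrib]
    congr 1
    · rw [← Finset.sum_subset (Finset.range_subset_range.2 (le_max_left n m))]
      · refine Finset.sum_congr rfl fun k hk => ?_
        rw [if_pos (Finset.mem_range.1 hk)]
      · intro k _ hk
        rw [if_neg (fun h => hk (Finset.mem_range.2 h)), TensorProduct.tmul_zero]
    · rw [← Finset.sum_subset (Finset.range_subset_range.2 (le_max_right n m))]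
      · refine Finset.sum_congr rfl fun k hk => ?_
        rw [if_pos (Finset.mem_range.1 hk)]
      · intro k _ hk
        rw [if_neg (fun h => hk (Finset.mem_range.2 h)), TensorProduct.tmul_zero]

theorem fp_tensor (M : Type) [AddCommGroup M] [Module A M] (_ : Module.FinitePresentation A M) :
    Module.FinitePresentation (Polynomial A) (Polynomial A ⊗[A] M) := inferInstance

theorem finitePresentation (hKNZ : Stmt_KNZ) (hKSP : Stmt_KSP) (hP : IsKr g P) :
    Algebra.FinitePresentation A P := by
  obtain ⟨⟨N, hN⟩, hK⟩ := hKNZ hP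
  obtain ⟨-, -, h0⟩ := hK N hN
  obtain ⟨z', hz', hz⟩ := h0 (N + 1) (by omega)
  set z : P := ⟨z', hz'⟩ with hzdef
  set d : ℤ := N + 1 with hddef
  have hd : 1 ≤ d := by omega
  have hzM : Mon d (z : KK I A) := hz
  obtain ⟨-, hS⟩ := hKSP hP
  obtain ⟨-, hS1⟩ := hS N hN
  let _ := (Polynomial.aeval (R := A) z).toRingHom.toAlgebra
  have _ := tower (P := P) z
  have hsm : ∀ (q : Polynomial A) (x : P), q • x = Polynomial.aeval z q * x := fun q x =>
    Algebra.smul_def q x
  have hfin1 : Module.Finite A (Q P (N + d)) := finite_Q (hS1 (N + d) (by omega)).1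
  have hfp : Module.FinitePresentation A (Q P (N + d + d)) :=
    fp_Q (hS1 (N + d + d) (by omega)).1 (hS1 (N + d + d) (by omega)).2
  set r := rel P z (N + d) d (by omega) hzM.1 with hr
  set l : Polynomial A ⊗[A] Q P (N + d + d) →ₗ[Polynomial A] P :=
    LinearMap.liftBaseChange (Polynomial A) (Q P (N + d + d)).subtype with hl
  have hl1 : ∀ (p : Polynomial A) (x : Q P (N + d + d)), l (p ⊗ₜ x) = Polynomial.aeval z p * x := by
    intro p x
    rw [hl, LinearMap.liftBaseChange_tmul, hsm]
    rfl
  have hlr : ∀ x, l (r x) = 0 := by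
    intro x
    rw [hr, rel_apply, map_sub, hl1, hl1, Polynomial.aeval_X, map_one, one_mul, sub_eq_zero]
    rfl
  have hsurj : Function.Surjective l := by
    intro f
    obtain ⟨F, hF, rfl⟩ := exists_poly hKNZ hP hN hd hzM f
    refine ⟨∑ k ∈ Finset.range (F.natDegree + 1), (Polynomial.X ^ k : Polynomial A) ⊗ₜ[A]
      (⟨F.coeff k, Pol_mono (by omega) (hF k)⟩ : Q P (N + d + d)), ?_⟩
    rw [map_sum, Polynomial.eval_eq_sum_range]
    refine Finset.sum_congr rfl fun k _ => ?_
    rw [hl1, map_pow, Polynomial.aeval_X, mul_comm]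
  have hker : LinearMap.ker l = LinearMap.range (LinearMap.liftBaseChange (Polynomial A) r) := by
    apply le_antisymm
    · intro t ht
      rw [LinearMap.mem_ker] at ht
      obtain ⟨n, y, rfl⟩ := exists_tensor t
      revert y
      induction n with
      | zero =>
        intro y _
        rw [Finset.sum_range_zero]
        exact Submodule.zero_mem _
      | succ n ih =>
        intro y hy
        have h1 : ∑ k ∈ Finset.range n, z ^ k * (y k : P) + z ^ n * (y n : P) = 0 := by
          rw [← Finset.sum_range_succ, ← hy, map_sum]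
          refine Finset.sum_congr rfl fun k _ => ?_
          rw [hl1, map_pow, Polynomial.aeval_X]
        rcases n with _ | n
        · rw [Finset.sum_range_zero, zero_add, pow_zero, one_mul] at h1
          have h2 : y 0 = 0 := Subtype.ext h1
          rw [Finset.sum_range_one, h2, TensorProduct.tmul_zero]
          exact Submodule.zero_mem _
        · have h2 : (y (n + 1) : P) ∈ Q P (N + d) := by
            rw [mem_Q]
            refine div_pow_mem_Pol hzM (n + 1) ?_
            have h3 : (z : KK I A) ^ (n + 1) * ((y (n + 1) : P) : KK I A) =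
                -∑ k ∈ Finset.range (n + 1), (z : KK I A) ^ k * ((y k : P) : KK I A) := by
              have h4 := congrArg (fun x : P => (x : KK I A)) (eq_neg_of_add_eq_zero_right h1)
              simpa using h4
            rw [h3]
            refine Submodule.neg_mem _ (Submodule.sum_mem _ fun k hk => ?_)
            have h5 := mul_mem_Pol (pow_mem_Pol hzM.1 k) (mem_Q.1 (y k).2)
            refine Pol_mono ?_ h5
            have h6 : (k : ℤ) ≤ n := by
              have := Finset.mem_range.1 hk
              omega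
            push_cast
            nlinarith
          set w : Q P (N + d) := ⟨(y (n + 1) : P), h2⟩ with hw
          have h3 : (Polynomial.X ^ (n + 1) : Polynomial A) ⊗ₜ[A] y (n + 1) =
              (Polynomial.X ^ n : Polynomial A) • r w +
                (Polynomial.X ^ n : Polynomial A) ⊗ₜ[A] i2 P (N + d) hzM.1 w := by
            rw [hr, rel_apply, smul_sub, TensorProduct.smul_tmul', TensorProduct.smul_tmul',
              smul_eq_mul, smul_eq_mul, mul_one, ← pow_succ, sub_add_cancel]
            rfl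
          have h4 : ∑ k ∈ Finset.range (n + 1 + 1), (Polynomial.X ^ k : Polynomial A) ⊗ₜ[A] y k =
              (Polynomial.X ^ n : Polynomial A) • r w + ∑ k ∈ Finset.range (n + 1),
                (Polynomial.X ^ k : Polynomial A) ⊗ₜ[A]
                  (Function.update y n (y n + i2 P (N + d) hzM.1 w)) k := by
            rw [Finset.sum_range_succ, Finset.sum_range_succ, Finset.sum_range_succ (n := n), h3,
              Function.update_self, TensorProduct.tmul_add]
            have h5 : ∑ k ∈ Finset.range n, (Polynomial.X ^ k : Polynomial A) ⊗ₜ[A]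
                  (Function.update y n (y n + i2 P (N + d) hzM.1 w)) k =
                ∑ k ∈ Finset.range n, (Polynomial.X ^ k : Polynomial A) ⊗ₜ[A] y k := by
              refine Finset.sum_congr rfl fun k hk => ?_
              rw [Function.update_of_ne (Finset.mem_range.1 hk).ne]
            rw [h5]
            abel
          rw [h4]
          refine Submodule.add_mem _ (Submodule.smul_mem _ _ ?_) (ih _ ?_)
          · exact ⟨1 ⊗ₜ w, LinearMap.liftBaseChange_one_tmul _ _ _⟩
          · rw [h4, map_add, map_smul, hlr, smul_zero, zero_add] at hy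
            exact hy
    · rintro _ ⟨t, rfl⟩
      rw [LinearMap.mem_ker]
      induction t using TensorProduct.induction_on with
      | zero => simp
      | tmul p x => rw [LinearMap.liftBaseChange_tmul, map_smul, hlr, smul_zero]
      | add s t hs ht => rw [map_add, map_add, hs, ht, add_zero]
  have hfg : (LinearMap.ker l).FG := by
    rw [hker]
    exact Submodule.fg_range _
  have hT := fp_tensor (Q P (N + d + d)) hfp
  have h1 : Module.FinitePresentation (Polynomial A) P :=
    Module.finitePresentation_of_surjective l hsurj hfg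
  have h2 : Algebra.FinitePresentation (Polynomial A) P :=
    Algebra.FinitePresentation.of_finitePresentation (Polynomial A) P
  exact Algebra.FinitePresentation.trans A (Polynomial A) P

end main

end KFG

theorem t_KFG (hKNZ : Stmt_KNZ) (hKSP : Stmt_KSP) : Stmt_KFG := by
  intro I A _ _ _ g P hP
  refine ⟨KFG.finitePresentation hKNZ hKSP hP, fun N d z hN hd hz => ⟨?_, ?_, ?_, ?_, ?_⟩⟩
  · intro n hn f hf
    obtain ⟨p, hp, hp1⟩ := KFG.step hKNZ hP hN hz hn (f := ⟨f, hf.1⟩) hf.2
    exact ⟨p, ⟨p.2, hp⟩, hp1⟩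
  · exact KFG.exists_sum hKNZ hP hN hd hz
  · exact KFG.finite_aeval hKNZ hKSP hP hN hd hz
  · intro h hh
    exact KFG.isUnit_aeval hd hz hh
  · rw [injective_iff_map_eq_zero]
    intro h hh
    refine KFG.aeval_inj hd hz ?_
    have h1 := congrArg P.val hh
    rw [← Polynomial.aeval_algHom_apply, map_zero] at h1
    exact h1

end Pool.Agent.MG.G0
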