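import Pool.Agent.MG.G0.StmtsK

/-!
# Regular differentials (PAPER.md, K3)
-/

namespace Pool.Agent.MG.G0

namespace KFO

variable {I A : Type} [CommRing A] [Fintype I]

/-- Multiplication by a series followed by the residue, as a linear map. -/
noncomputable def rm (η : KK I A) : KK I A →ₗ[A] A where
  toFun f := res (η * f)
  map_add' f g := by rw [mul_add, map_add]
  map_smul' a f := by rw [mul_smul_comm, map_smul, RingHom.id_apply]

theorem rm_apply (η f : KK I A) : rm η f = res (η * f) := rfl

theorem res_mul0 {η f : KK I A} (hη : η ∈ Pol I A 0) (hf : f ∈ Pol I A 0) : res (η * f) = 0 :=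
  res_Pol0 (mul_mem_Pol0 hη hf)

theorem forms_res {g : ℕ} {P : Subalgebra A (KK I A)} {ω : Fin g → KK I A} (h : IsForms P ω)
    (j : Fin g) {p : KK I A} (hp : p ∈ P) : res (ω j * p) = 0 := by
  refine (h.ker p).2 ⟨p, hp, ?_⟩ j
  rw [sub_self]
  exact (Pol I A 0).zero_mem

theorem unique0 (hKDU : Stmt_KDU) {η η' : KK I A} (h : η ∈ Pol I A 0) (h' : η' ∈ Pol I A 0)
    (he : ∀ f, res (η * f) = res (η' * f)) : η = η' := by
  obtain ⟨x, -, hx⟩ := hKDU (I := I) (A := A) 0 (rm η) (fun f hf => by
    rw [neg_zero] at hf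
    exact res_mul0 h hf)
  have h1 := hx η ⟨h, fun f => rfl⟩
  have h2 := hx η' ⟨h', fun f => he f⟩
  rw [h1, h2]

end KFO

open KFO in
theorem t_KFO (hKDU : Stmt_KDU) : Stmt_KFO := by
  intro I A _ _ g P hP
  refine ⟨?_, ?_⟩
  · obtain ⟨L, hL, hk⟩ := hP.k2
    have h1 : ∀ j : Fin g, ∀ f ∈ Pol I A (-0), ((LinearMap.proj j).comp L : KK I A →ₗ[A] A) f = 0 := by
      intro j f hf
      rw [neg_zero] at hf
      have : L f = 0 := (hk f).2 ⟨0, P.zero_mem, by rwa [sub_zero]⟩
      rw [LinearMap.comp_apply, this, map_zero]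
    choose ω hω hu using fun j : Fin g => (hKDU (I := I) (A := A) 0 _ (h1 j)).exists
    have hL2 : ∀ j f, L f j = res (ω j * f) := fun j f => hu j f
    refine ⟨ω, ⟨hω, fun c => ?_, fun f => ?_⟩⟩
    · obtain ⟨f, hf⟩ := hL c
      exact ⟨f, fun j => by rw [← hL2, hf]⟩
    · rw [← hk f]
      constructor
      · intro h
        funext j
        rw [hL2, h j]
        rfl
      · intro h j
        rw [← hL2, h]
        rfl
  · intro ω hω
    refine ⟨fun j => ⟨fun p hp => forms_res hω j hp, hω.reg j⟩, ?_⟩
    intro η hη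
    classical
    choose f hf using fun k : Fin g => hω.surj (Pi.single k 1)
    have hS : (∑ j, res (η * f j) • ω j) ∈ Pol I A 0 :=
      Submodule.sum_mem _ fun j _ => (Pol I A 0).smul_mem _ (hω.reg j)
    refine ⟨fun j => res (η * f j), ?_, ?_⟩
    · refine unique0 hKDU hη.2 hS fun x => ?_
      have h1 : ∀ j, res (ω j * (x - ∑ k, res (ω k * x) • f k)) = 0 := by
        intro j
        rw [← rm_apply, map_sub, map_sum]
        simp only [map_smul, rm_apply, hf, smul_eq_mul]
        rw [Finset.sum_eq_single j]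
        · rw [Pi.single_eq_same, mul_one, sub_self]
        · intro k _ hkj
          rw [Pi.single_eq_of_ne (Ne.symm hkj), mul_zero]
        · intro h
          exact absurd (Finset.mem_univ j) h
      obtain ⟨p, hp, hxp⟩ := (hω.ker _).1 h1
      have h2 : res (η * (x - ∑ k, res (ω k * x) • f k)) = 0 := by
        have h3 : x - ∑ k, res (ω k * x) • f k = p + (x - ∑ k, res (ω k * x) • f k - p) := by
          rw [add_sub_cancel]
        rw [h3, mul_add, map_add, hη.1 p hp, res_mul0 hη.2 hxp, add_zero]
      rw [← rm_apply, map_sub, sub_eq_zero, map_sum] at h2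
      rw [← rm_apply, h2, Finset.sum_mul, map_sum]
      refine Finset.sum_congr rfl fun k _ => ?_
      rw [map_smul, rm_apply, smul_mul_assoc, map_smul, smul_eq_mul, smul_eq_mul, mul_comm]
    · intro c hc
      funext k
      show c k = res (η * f k)
      rw [hc, Finset.sum_mul, map_sum]
      simp only [smul_mul_assoc, map_smul, hf, smul_eq_mul]
      rw [Finset.sum_eq_single k]
      · rw [Pi.single_eq_same, mul_one]
      · intro j _ hjk
        rw [Pi.single_eq_of_ne hjk, mul_zero]
      · intro h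
        exact absurd (Finset.mem_univ k) h

end Pool.Agent.MG.G0
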