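import Pool.Agent.MG.G0.StmtsU

/-!
# Module KGP: poles of order at most `2 g - 1` are enough

Over a field the orders which do not occur form a set with at most `g` elements, and if `n` does not
occur then for every `0 < m < n` one of `m`, `n - m` does not occur, so that `n ≤ 2 g - 1`. The
general case follows by reduction modulo all maximal ideals.
-/

namespace Pool.Agent.MG.G0

namespace KGP

section field

variable {κ : Type} [CommRing κ]

/-- `n` is the pole order of an element of `P`. -/
def NG (P : Subalgebra κ (KK Unit κ)) (n : ℕ) : Prop :=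
  ∃ p ∈ P, p ∈ Pol Unit κ n ∧ (p ()).coeff (-(n : ℤ)) ≠ 0

variable {P : Subalgebra κ (KK Unit κ)}

theorem NG_add (hinv : ∀ a : κ, a ≠ 0 → ∃ b, b * a = 1) {m n : ℕ} (hm : NG P m) (hn : NG P n) :
    NG P (m + n) := by
  obtain ⟨p, hp, hp1, hp2⟩ := hm
  obtain ⟨q, hq, hq1, hq2⟩ := hn
  refine ⟨p * q, mul_mem hp hq, ?_, ?_⟩
  · have := mul_mem_Pol hp1 hq1
    rwa [← Nat.cast_add] at this
  · have := mul_Pol_lead hp1 hq1 ()
    rw [← Nat.cast_add] at this
    rw [this]
    intro h0
    obtain ⟨b, hb⟩ := hinv _ hp2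
    apply hq2
    rw [← one_mul ((q ()).coeff (-(n : ℤ))), ← hb, mul_assoc, h0, mul_zero]

/-- The number of the orders which do not occur is at most `g`. -/
theorem card_le [Nontrivial κ] {g : ℕ} (hP : IsKr g P) (G : Finset ℕ)
    (hG : ∀ n ∈ G, 1 ≤ n ∧ ¬ NG P n) : G.card ≤ g := by
  classical
  obtain ⟨L, _, hk⟩ := hP.k2
  have hli : LinearIndependent κ (fun n : G => L (mon () (-((n : ℕ) : ℤ)) 1)) := by
    rw [Fintype.linearIndependent_iff]
    intro c hc
    by_contra hcon
    push Not at hcon
    obtain ⟨i0, hi0⟩ := hcon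
    obtain ⟨i, hi, hmax⟩ := Finset.exists_max_image (Finset.univ.filter fun i : G => c i ≠ 0)
      (fun i => (i : ℕ)) ⟨i0, by simp [hi0]⟩
    have hci : c i ≠ 0 := (Finset.mem_filter.1 hi).2
    have hmax' : ∀ j : G, (i : ℕ) < j → c j = 0 := by
      intro j hj
      by_contra hcj
      have := hmax j (Finset.mem_filter.2 ⟨Finset.mem_univ j, hcj⟩)
      omega
    have h1 : L (∑ n : G, mon () (-((n : ℕ) : ℤ)) (c n)) = 0 := by
      rw [map_sum, ← hc]
      refine Finset.sum_congr rfl fun n _ => ?_
      rw [← map_smul, smul_mon, mul_one]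
    obtain ⟨p, hp, hp0⟩ := (hk _).1 h1
    have hcoef : ∀ k : ℕ, 1 ≤ k → (p ()).coeff (-(k : ℤ)) =
        ∑ n : G, if (n : ℕ) = k then c n else 0 := by
      intro k hk1
      have h2 := hp0 () (-(k : ℤ)) (by omega)
      rw [Pi.sub_apply, HahnSeries.coeff_sub, sub_eq_zero, Finset.sum_apply,
        HahnSeries.coeff_sum] at h2
      rw [← h2]
      refine Finset.sum_congr rfl fun n _ => ?_
      rw [mon_coeff_self]
      by_cases h3 : (n : ℕ) = k
      · rw [if_pos h3, if_pos (by omega)]
      · rw [if_neg h3, if_neg (by omega)]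
    refine (hG i i.2).2 ⟨p, hp, ?_, ?_⟩
    · intro u m hm
      have h4 : m = -((m.natAbs : ℕ) : ℤ) := by omega
      rw [h4]
      have h5 := hcoef m.natAbs (by omega)
      show (p ()).coeff _ = 0
      rw [h5]
      refine Finset.sum_eq_zero fun n _ => ?_
      split_ifs with h6
      · exact hmax' n (by omega)
      · rfl
    · rw [hcoef _ (hG i i.2).1, Finset.sum_eq_single i]
      · rw [if_pos rfl]
        exact hci
      · intro j _ hj
        rw [if_neg]
        intro h7
        exact hj (Subtype.ext h7)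
      · intro h
        exact absurd (Finset.mem_univ i) h
  have h8 := hli.fintype_card_le_finrank
  rw [Module.finrank_fin_fun, Fintype.card_coe] at h8
  exact h8

/-- All orders from `2 g` on occur. -/
theorem NG_of_le [Nontrivial κ] (hinv : ∀ a : κ, a ≠ 0 → ∃ b, b * a = 1) {g : ℕ}
    (hP : IsKr g P) {n : ℕ} (hn1 : 1 ≤ n) (hn : 2 * g ≤ n) : NG P n := by
  classical
  by_contra hcon
  set Gs := (Finset.Icc 1 (n - 1)).filter fun m => ¬ NG P m with hGs
  have h1 : Finset.Icc 1 (n - 1) ⊆ Gs ∪ Gs.image fun m => n - m := by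
    intro m hm
    rw [Finset.mem_Icc] at hm
    by_cases h2 : NG P m
    · have h3 : ¬ NG P (n - m) := by
        intro h3
        apply hcon
        have h4 := NG_add hinv h2 h3
        rwa [Nat.add_sub_cancel' (by omega)] at h4
      refine Finset.mem_union_right _ (Finset.mem_image.2 ⟨n - m, ?_, by omega⟩)
      rw [hGs, Finset.mem_filter, Finset.mem_Icc]
      exact ⟨by omega, h3⟩
    · refine Finset.mem_union_left _ ?_
      rw [hGs, Finset.mem_filter, Finset.mem_Icc]
      exact ⟨by omega, h2⟩
  have h5 := Finset.card_le_card h1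
  have h6 := Finset.card_union_le Gs (Gs.image fun m => n - m)
  have h7 : (Gs.image fun m => n - m).card ≤ Gs.card := Finset.card_image_le
  rw [Nat.card_Icc] at h5
  have h8 : n ∉ Gs := by
    rw [hGs, Finset.mem_filter, Finset.mem_Icc]
    omega
  have h9 : (insert n Gs).card ≤ g := by
    refine card_le hP _ fun m hm => ?_
    rcases Finset.mem_insert.1 hm with rfl | hm
    · exact ⟨hn1, hcon⟩
    · rw [hGs, Finset.mem_filter, Finset.mem_Icc] at hm
      exact ⟨hm.1.1, hm.2⟩
  rw [Finset.card_insert_of_notMem h8] at h9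
  omega

theorem dense_field [Nontrivial κ] (hinv : ∀ a : κ, a ≠ 0 → ∃ b, b * a = 1) {g : ℕ}
    (hg : 1 ≤ g) (hP : IsKr g P) : Dense P (2 * g - 1) := by
  have key : ∀ (N : ℕ) (f : KK Unit κ), f ∈ Pol Unit κ (2 * g - 1 + N) →
      ∃ p ∈ P, f - p ∈ Pol Unit κ (2 * g - 1) := by
    intro N
    induction N with
    | zero =>
      intro f hf
      refine ⟨0, zero_mem P, ?_⟩
      rw [sub_zero]
      simpa using hf
    | succ N ih =>
      intro f hf
      obtain ⟨q, hq, hq1, hq2⟩ := NG_of_le hinv hP (n := 2 * g + N) (by omega) (by omega)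
      obtain ⟨b, hb⟩ := hinv _ hq2
      have h1 : f - ((f ()).coeff (-((2 * g + N : ℕ) : ℤ)) * b) • q ∈
          Pol Unit κ (2 * g - 1 + N) := by
        intro u m hm
        show ((f ()) - ((f ()).coeff (-((2 * g + N : ℕ) : ℤ)) * b) • (q ())).coeff m = 0
        rw [HahnSeries.coeff_sub, HahnSeries.coeff_smul, smul_eq_mul]
        by_cases h2 : m = -((2 * g + N : ℕ) : ℤ)
        · rw [h2, mul_assoc, hb, mul_one, sub_self]
        · rw [hf () m (by push_cast at h2 ⊢; omega), hq1 () m (by push_cast at h2 ⊢; omega),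
            mul_zero, sub_zero]
      obtain ⟨p, hp, hp1⟩ := ih _ h1
      refine ⟨p + ((f ()).coeff (-((2 * g + N : ℕ) : ℤ)) * b) • q,
        add_mem hp (P.smul_mem hq _), ?_⟩
      rwa [sub_add_eq_sub_sub_swap]
  intro f
  obtain ⟨n, hn⟩ := exists_Pol f
  exact key n f (Pol_mono (by omega) hn)

end field

/-- Lifts of series along a surjection. -/
theorem exists_lift {I A B : Type} [CommRing A] [CommRing B] (φ : A →+* B)
    (hφ : Function.Surjective φ) (n : ℤ) (f : KK I B) (hf : f ∈ Pol I B n) :
    ∃ h ∈ Pol I A n, kmap φ h = f := by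
  classical
  let s : B → A := fun b => if b = 0 then 0 else (hφ b).choose
  have hs0 : s 0 = 0 := if_pos rfl
  have hs : ∀ b, φ (s b) = b := by
    intro b
    by_cases hb : b = 0
    · rw [hb, hs0, map_zero]
    · have : s b = (hφ b).choose := if_neg hb
      rw [this]
      exact (hφ b).choose_spec
  let h : KK I A := fun i => HahnSeries.ofSuppBddBelow (fun m => s ((f i).coeff m)) (by
    refine ⟨-n, fun m hm => ?_⟩
    by_contra hc
    apply hm
    show s ((f i).coeff m) = 0
    rw [hf i m (by omega), hs0])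
  have hc : ∀ i m, (h i).coeff m = s ((f i).coeff m) := fun i m => rfl
  refine ⟨h, fun i m hm => ?_, ?_⟩
  · rw [hc, hf i m hm, hs0]
  · funext i
    ext m
    rw [kmap_apply, lmap_coeff, hc, hs]

theorem dense {A : Type} [CommRing A] (hKFO : Stmt_KFO) (hKBC : Stmt_KBC) {g : ℕ} (hg : 1 ≤ g)
    {P : Subalgebra A (KK Unit A)} (hP : IsKr g P) : Dense P (2 * g - 1) := by
  obtain ⟨ω, hω⟩ := (hKFO hP).1
  let W : Submodule A (Fin g → A) :=
    { carrier := {c | ∃ h ∈ Pol Unit A (2 * g - 1), ∀ j, res (ω j * h) = c j}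
      add_mem' := by
        rintro c c' ⟨h, hh, hc⟩ ⟨h', hh', hc'⟩
        exact ⟨h + h', add_mem hh hh', fun j => by
          rw [mul_add, map_add, hc, hc', Pi.add_apply]⟩
      zero_mem' := ⟨0, zero_mem _, fun j => by rw [mul_zero, map_zero, Pi.zero_apply]⟩
      smul_mem' := by
        rintro a c ⟨h, hh, hc⟩
        exact ⟨a • h, Submodule.smul_mem _ a hh, fun j => by
          rw [mul_smul_comm, map_smul, hc, Pi.smul_apply]⟩ }
  have hW : ∀ c : Fin g → A, c ∈ W := by
    let J : Ideal A :=
      { carrier := {r | ∀ x : Fin g → A, r • x ∈ W}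
        add_mem' := fun {a b} ha hb x => by
          rw [add_smul]
          exact W.add_mem (ha x) (hb x)
        zero_mem' := fun x => by
          rw [zero_smul]
          exact W.zero_mem
        smul_mem' := fun a r hr x => by
          rw [smul_eq_mul, mul_smul]
          exact W.smul_mem a (hr x) }
    by_cases hJ : J = ⊤
    · intro c
      have h1 : (1 : A) ∈ J := by
        rw [hJ]
        trivial
      have h2 := h1 c
      rwa [one_smul] at h2
    · exfalso
      obtain ⟨m, hm, hJm⟩ := Ideal.exists_le_maximal J hJ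
      let φ : A →+* A ⧸ m := Ideal.Quotient.mk m
      have hφ : Function.Surjective φ := Ideal.Quotient.mk_surjective
      have hfld : IsField (A ⧸ m) :=
        (Ideal.Quotient.maximal_ideal_iff_isField_quotient m).1 hm
      have hnt : Nontrivial (A ⧸ m) := hfld.nontrivial
      have hinv : ∀ a : A ⧸ m, a ≠ 0 → ∃ b, b * a = 1 := by
        intro a ha
        obtain ⟨b, hb⟩ := hfld.mul_inv_cancel ha
        exact ⟨b, by rw [mul_comm, hb]⟩
      obtain ⟨hPk, hωk, _⟩ := hKBC.2.2.2 hP φ
      have hF := hωk ω hω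
      have hD := dense_field hinv hg hPk
      have htop : (⊤ : Submodule A (Fin g → A)) ≤ W ⊔ m • (⊤ : Submodule A (Fin g → A)) := by
        intro c _
        obtain ⟨f, hf⟩ := hF.surj fun j => φ (c j)
        obtain ⟨p, hp, hfp⟩ := hD f
        obtain ⟨h, hh, hhf⟩ := exists_lift φ hφ _ _ hfp
        have h3 : ∀ j, φ (res (ω j * h)) = φ (c j) := by
          intro j
          rw [← res_kmap, map_mul, hhf, mul_sub, map_sub, hf j,
            (hF.ker p).2 ⟨p, hp, by rw [sub_self]; exact zero_mem _⟩ j, sub_zero]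
        have h4 : c = (fun j => res (ω j * h)) + ∑ j, (c j - res (ω j * h)) •
            (Pi.single j (1 : A) : Fin g → A) := by
          funext k
          rw [Pi.add_apply, Finset.sum_apply, Finset.sum_eq_single k]
          · simp
          · intro j _ hj
            simp [Pi.single_apply, hj.symm]
          · intro hk
            exact absurd (Finset.mem_univ k) hk
        rw [h4]
        refine Submodule.add_mem_sup ⟨h, hh, fun j => rfl⟩ (Submodule.sum_mem _ fun j _ => ?_)
        refine Submodule.smul_mem_smul ?_ trivial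
        rw [← Ideal.Quotient.eq_zero_iff_mem]
        show φ (c j - res (ω j * h)) = 0
        rw [map_sub, h3, sub_self]
      obtain ⟨r, hr, hrW⟩ := Submodule.exists_sub_one_mem_and_smul_le_of_fg_of_le_sup
        (I := m) (N := W) (N' := ⊤) (P := ⊤) Module.Finite.fg_top le_rfl htop
      have hrJ : r ∈ J := fun x => hrW (Submodule.smul_mem_pointwise_smul x r ⊤ trivial)
      apply hm.ne_top
      rw [Ideal.eq_top_iff_one]
      have h5 := m.sub_mem (hJm hrJ) hr
      rwa [sub_sub_cancel] at h5
  intro f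
  obtain ⟨h, hh, hc⟩ := hW fun j => res (ω j * f)
  obtain ⟨p, hp, hp0⟩ := (hω.ker (f - h)).1 fun j => by
    rw [mul_sub, map_sub, hc, sub_self]
  refine ⟨p, hp, ?_⟩
  have e : f - p = (f - h - p) + h := by abel
  rw [e]
  exact add_mem (Pol_mono (by omega) hp0) hh

end KGP

theorem t_KGP (hKFO : Stmt_KFO) (_hKNZ : Stmt_KNZ) (hKBC : Stmt_KBC) : Stmt_KGP := by
  intro A _ g R hg hR
  exact KGP.dense hKFO hKBC hg hR

end Pool.Agent.MG.G0
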