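import Pool.Agent.MG.G0.StmtsU
import Pool.Agent.MG.G0.ZL.ZD

/-!
# KIL: the inclusion `f(z) P^⊥ ⊂ P ∂z`
-/

namespace Pool.Agent.MG.G0

namespace KIL

open Polynomial ZL

variable {A B : Type} [CommRing A] [CommRing B]

theorem ld_zz (d : ℕ) : ld (zz A d) = HahnSeries.single (-(d : ℤ) - 1) (-(d : A)) := by
  ext n
  rw [ld_coeff, zz]
  by_cases h : n = -(d : ℤ) - 1
  · subst h
    have h1 : -(d : ℤ) - 1 + 1 = -(d : ℤ) := by ring
    rw [HahnSeries.coeff_single_same, h1, HahnSeries.coeff_single_same]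
    push_cast
    ring
  · rw [HahnSeries.coeff_single_of_ne h, HahnSeries.coeff_single_of_ne (by omega), mul_zero]

theorem isUnit_ld_zz {d : ℕ} (hd : IsUnit (d : A)) : IsUnit (ld (zz A d)) := by
  rw [ld_zz]
  obtain ⟨u, hu⟩ := hd
  refine IsUnit.of_mul_eq_one (HahnSeries.single ((d : ℤ) + 1) (-(↑u⁻¹ : A))) ?_
  have h1 : -(d : ℤ) - 1 + ((d : ℤ) + 1) = 0 := by ring
  rw [HahnSeries.single_mul_single, ← hu, neg_mul_neg, Units.mul_inv, h1]
  rfl

theorem coeff_mul_ld_zz (d : ℕ) (w : LaurentSeries A) :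
    (w * ld (zz A d)).coeff (-1) = -(d : A) * w.coeff d := by
  have h1 : (-1 : ℤ) - (-(d : ℤ) - 1) = d := by ring
  rw [ld_zz, mul_comm, HahnSeries.coeff_single_mul, h1]

theorem coeff_zzpow_mul (d k : ℕ) (w : LaurentSeries A) (n : ℤ) :
    (zz A d ^ k * w).coeff n = w.coeff (n + (d * k : ℕ)) := by
  rw [zz_pow, HahnSeries.coeff_single_mul, one_mul, sub_neg_eq_add]

/-- A series without terms of positive exponents is a polynomial in `z`. -/
theorem exists_poly {d : ℕ} (hd : 0 < d) (w : LaurentSeries A)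
    (hw : ∀ k : ℕ, w.coeff ((d : ℤ) + (d * k : ℕ)) = 0) :
    ∃ q : A[X], pr0 A d w = zpol A d q := by
  classical
  obtain ⟨n, hn⟩ := exists_low w
  let q : A[X] := ∑ k ∈ Finset.range (n + 1), monomial k (w.coeff (-((d * k : ℕ) : ℤ)))
  have hq : ∀ k, q.coeff k = w.coeff (-((d * k : ℕ) : ℤ)) := by
    intro k
    simp only [q, finsetSum_coeff, coeff_monomial]
    rw [Finset.sum_ite_eq']
    split_ifs with h
    · rfl
    · symm
      apply hn
      rw [Finset.mem_range, not_lt] at h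
      have h1 : 1 * k ≤ d * k := Nat.mul_le_mul_right k hd
      omega
  refine ⟨q, ?_⟩
  ext m
  rw [pr0_coeff]
  split_ifs with h
  · obtain ⟨j, rfl⟩ := h
    rcases lt_or_ge 0 j with hj | hj
    · obtain ⟨k, hk⟩ := Int.eq_ofNat_of_zero_le (a := j - 1) (by omega)
      have hj' : j = k + 1 := by omega
      subst hj'
      have h2 : (d : ℤ) * ((k : ℤ) + 1) = (d : ℤ) + (d * k : ℕ) := by
        push_cast
        ring
      rw [h2, hw k]
      symm
      exact ev_coeff_pos d q _ (by omega)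
    · obtain ⟨k, hk⟩ := Int.eq_ofNat_of_zero_le (a := -j) (by omega)
      have h2 : (d : ℤ) * j = -((d * k : ℕ) : ℤ) := by
        have hj' : j = -(k : ℤ) := by omega
        rw [hj']
        push_cast
        ring
      rw [h2]
      exact ((ev_coeff d hd.ne' q k).trans (hq k)).symm
  · symm
    refine ev_coeff_ne d q m ?_
    rintro k rfl
    apply h
    rw [dvd_neg]
    exact_mod_cast Dvd.intro k rfl

/-- The form `pr₀(x y)` is nondegenerate. -/
theorem nondeg {d : ℕ} [NeZero d] {e : ZMod d → LaurentSeries A} (he : IsUnit (cmat e).det)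
    {w : LaurentSeries A} (hw : ∀ i, pr (0 : ZMod d) (e i * w) = 0) : w = 0 := by
  have h1 : (cmat e).mulVec (fun k => pr (-k) w) = 0 := by
    funext i
    rw [Matrix.mulVec, dotProduct]
    change ∑ k, pr k (e i) * pr (-k) w = 0
    rw [← hw i, pr_mul]
    simp only [zero_sub]
  have h2 : (fun k : ZMod d => pr (-k) w) = 0 := by
    have h4 := congrArg (fun v => Matrix.mulVec (cmat e)⁻¹ v) h1
    simp only [Matrix.mulVec_mulVec, Matrix.nonsing_inv_mul _ he, Matrix.one_mulVec,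
      Matrix.mulVec_zero] at h4
    exact h4
  rw [← sum_pr (d := d) w]
  refine Finset.sum_eq_zero fun k _ => ?_
  have h3 := congrFun h2 (-k)
  rw [neg_neg] at h3
  exact h3

theorem kil_of_disc {g d : ℕ} {R : Subalgebra A (LaurentSeries A)} {f : A[X]} (hd : 1 ≤ d)
    (hu : IsUnit (d : A)) (hR : Kr g R) (hz : zz A d ∈ R) (hD : Disc d R f) : Kil d R f := by
  classical
  intro x hx
  obtain ⟨e, G, he, hG, u, huu, hdet⟩ := hD
  have : NeZero d := ⟨by omega⟩
  have hs := spn_of_zbas he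
  have hC := cmat_isUnit hR hs
  obtain ⟨U, hU⟩ := isUnit_ld_zz hu
  obtain ⟨v, hv⟩ := huu
  set x' : LaurentSeries A := x * (↑U⁻¹ : LaurentSeries A) with hx'
  have hxx : x' * ld (zz A d) = x := by
    rw [hx', ← hU, mul_assoc, Units.inv_mul, mul_one]
  have h1 : ∀ j, ∃ q : A[X], pr0 A d (e j * x') = zpol A d q := by
    intro j
    refine exists_poly hd _ fun k => ?_
    have h2 := hx (zz A d ^ k * e j) (mul_mem (pow_mem hz k) (he.mem j))
    have h3 : x * (zz A d ^ k * e j) = (zz A d ^ k * (e j * x')) * ld (zz A d) := by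
      conv_lhs => rw [← hxx]
      ring
    rw [h3, coeff_mul_ld_zz, coeff_zzpow_mul] at h2
    have h4 : IsUnit (-(d : A)) := hu.neg
    exact (h4.mul_right_eq_zero).1 h2
  choose q hq using h1
  have hrel : ∀ j, ∑ i, Matrix.vecMul q G.adjugate i * G i j = v * f * q j := by
    intro j
    have h2 : Matrix.vecMul (Matrix.vecMul q G.adjugate) G j = v * f * q j := by
      rw [Matrix.vecMul_vecMul, Matrix.adjugate_mul, hdet, ← hv, Matrix.vecMul_smul,
        Matrix.vecMul_one]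
      rfl
    exact h2
  refine ⟨∑ i, zpol A d ((↑v⁻¹ : A[X]) * Matrix.vecMul q G.adjugate i) * e i, ?_, ?_⟩
  · refine sum_mem fun i _ => mul_mem ?_ (he.mem i)
    exact (Algebra.adjoin_le (S := R) (Set.singleton_subset_iff.2 hz))
      (Polynomial.aeval_mem_adjoin_singleton A (zz A d))
  · set y : LaurentSeries A :=
      ∑ i, zpol A d ((↑v⁻¹ : A[X]) * Matrix.vecMul q G.adjugate i) * e i with hy
    have h5 : ∀ j, pr0 A d (e j * (zpol A d f * x' - y)) = 0 := by
      intro j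
      have h6 : pr0 A d (e j * (zpol A d f * x')) = zpol A d (f * q j) := by
        rw [map_mul (zpol A d), ← hq j, ← pr0_zpol_mul]
        congr 1
        ring
      have h7 : pr0 A d (e j * y) = zpol A d (f * q j) := by
        have h8 : e j * y = ∑ i, zpol A d ((↑v⁻¹ : A[X]) * Matrix.vecMul q G.adjugate i) *
            (e i * e j) := by
          rw [hy, Finset.mul_sum]
          refine Finset.sum_congr rfl fun i _ => ?_
          ring
        have h9 : f * q j = ∑ i, ((↑v⁻¹ : A[X]) * Matrix.vecMul q G.adjugate i) * G i j := by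
          have h10 : ∑ i, ((↑v⁻¹ : A[X]) * Matrix.vecMul q G.adjugate i) * G i j =
              (↑v⁻¹ : A[X]) * ∑ i, Matrix.vecMul q G.adjugate i * G i j := by
            rw [Finset.mul_sum]
            refine Finset.sum_congr rfl fun i _ => ?_
            ring
          rw [h10, hrel j, ← mul_assoc, ← mul_assoc, Units.inv_mul, one_mul]
        rw [h8, map_sum, h9, map_sum]
        refine Finset.sum_congr rfl fun i _ => ?_
        rw [pr0_zpol_mul, ← hG i j, map_mul (zpol A d) _ (G i j)]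
      rw [mul_sub, map_sub, h6, h7, sub_self]
    have h11 : zpol A d f * x' - y = 0 := by
      refine nondeg hC fun i => ?_
      rw [pr_zero_eq]
      exact h5 _
    have h12 : zpol A d f * x' = y := sub_eq_zero.1 h11
    rw [← h12, mul_assoc, hxx]

theorem perp_unit {R : Subalgebra A (LaurentSeries A)} {x : KK Unit A} :
    x ∈ Perp (uno R) ↔ ∀ p ∈ R, (x () * p).coeff (-1) = 0 := by
  rw [mem_Perp]
  constructor
  · intro h p hp
    have h1 := h (fun _ => p) hp
    rw [res_unit] at h1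
    exact h1
  · intro h p hp
    rw [res_unit]
    exact h (p ()) hp

theorem kil_bc1 (hPBC : Stmt_PBC) {g : ℕ} {R : Subalgebra A (LaurentSeries A)}
    (φ : A →+* B) (hR : Kr g R) (x : LaurentSeries B)
    (hx : ∀ p ∈ bc1 φ R, (x * p).coeff (-1) = 0) :
    (fun _ : Unit => x) ∈ Submodule.span B (kmap φ '' (Perp (uno R) : Set (KK Unit A))) := by
  have h1 : (fun _ : Unit => x) ∈ Perp (uno (bc1 φ R)) := perp_unit.2 hx
  rw [← bc_uno, hPBC hR φ] at h1
  exact h1

theorem kil_bc2 {d : ℕ} {R : Subalgebra A (LaurentSeries A)} {f : A[X]}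
    (φ : A →+* B) (hK : Kil d R f) (y : KK Unit B)
    (hy : y ∈ Submodule.span B (kmap φ '' (Perp (uno R) : Set (KK Unit A)))) :
    ∃ r ∈ bc1 φ R, zpol B d (f.map φ) * y () = r * ld (zz B d) := by
  induction hy using Submodule.span_induction with
  | mem y hy =>
    obtain ⟨w, hw, rfl⟩ := hy
    obtain ⟨r, hr, e⟩ := hK (w ()) (perp_unit.1 hw)
    have h1 := congrArg (lmap φ) e
    rw [map_mul, map_mul, lmap_zpol, lmap_ld, lmap_zz] at h1
    exact ⟨lmap φ r, Algebra.subset_adjoin ⟨r, hr, rfl⟩, h1⟩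
  | zero => exact ⟨0, zero_mem _, by rw [Pi.zero_apply, mul_zero, zero_mul]⟩
  | add y y' _ _ h h' =>
    obtain ⟨r, hr, e⟩ := h
    obtain ⟨r', hr', e'⟩ := h'
    exact ⟨r + r', add_mem hr hr', by rw [Pi.add_apply, mul_add, e, e', add_mul]⟩
  | smul b y _ h =>
    obtain ⟨r, hr, e⟩ := h
    refine ⟨b • r, Subalgebra.smul_mem _ hr b, ?_⟩
    rw [Pi.smul_apply, mul_smul_comm, e, smul_mul_assoc]

theorem kil_bc (hPBC : Stmt_PBC) {g d : ℕ} {R : Subalgebra A (LaurentSeries A)} {f : A[X]}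
    (φ : A →+* B) (hR : Kr g R) (hK : Kil d R f) : Kil d (bc1 φ R) (f.map φ) := by
  intro x hx
  have h1 := kil_bc1 hPBC φ hR x hx
  exact kil_bc2 φ hK (fun _ : Unit => x) h1

theorem mem_of_lmap (hINT : Stmt_INT) {g : ℕ} {R : Subalgebra A (LaurentSeries A)}
    (φ : A →+* B) (hφ : Function.Injective φ) (hR : Kr g R) (y : LaurentSeries A)
    (hy : lmap φ y ∈ bc1 φ R) : y ∈ R := by
  have h4 : kmap φ (fun _ : Unit => y) ∈ bc φ (uno R) := by
    rw [bc_uno]
    exact mem_uno.2 hy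
  exact mem_uno.1 (hINT hR φ hφ (fun _ : Unit => y) h4)

theorem perp_lmap (hPBC : Stmt_PBC) {g : ℕ} {R : Subalgebra A (LaurentSeries A)}
    (φ : A →+* B) (hR : Kr g R) (x : LaurentSeries A) (hx : ∀ p ∈ R, (x * p).coeff (-1) = 0) :
    ∀ p ∈ bc1 φ R, (lmap φ x * p).coeff (-1) = 0 := by
  have h3 : (fun _ : Unit => x) ∈ Perp (uno R) := perp_unit.2 hx
  have h1 : kmap φ (fun _ : Unit => x) ∈ Perp (uno (bc1 φ R)) := by
    rw [← bc_uno, hPBC hR φ]
    exact Submodule.subset_span ⟨fun _ : Unit => x, h3, rfl⟩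
  intro p hp
  have h2 := perp_unit.1 h1 p hp
  rw [kmap_apply] at h2
  exact h2

theorem kil_inj (hPBC : Stmt_PBC) (hINT : Stmt_INT) {g d : ℕ}
    {R : Subalgebra A (LaurentSeries A)} {f : A[X]} (φ : A →+* B) (hφ : Function.Injective φ)
    (hu : IsUnit (d : A)) (hR : Kr g R) (hK : Kil d (bc1 φ R) (f.map φ)) : Kil d R f := by
  intro x hx
  obtain ⟨y, hy, e⟩ := hK (lmap φ x) (perp_lmap hPBC φ hR x hx)
  obtain ⟨U, hU⟩ := isUnit_ld_zz hu
  obtain ⟨y', hyy⟩ : ∃ y' : LaurentSeries A, y' * ld (zz A d) = zpol A d f * x :=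
    ⟨zpol A d f * x * (↑U⁻¹ : LaurentSeries A), by
      rw [← hU, mul_assoc, Units.inv_mul, mul_one]⟩
  have h2 : lmap φ y' = y := by
    have huB : IsUnit (ld (zz B d)) := by
      refine isUnit_ld_zz ?_
      have h3 := hu.map φ
      rwa [map_natCast] at h3
    have h5 := congrArg (lmap φ) hyy
    rw [map_mul, map_mul, lmap_zpol, lmap_ld, lmap_zz, e] at h5
    exact huB.mul_left_injective h5
  refine ⟨y', mem_of_lmap hINT φ hφ hR y' ?_, hyy.symm⟩
  rw [h2]
  exact hy

end KIL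

/-- KIL -/
theorem t_KIL (hPBC : Stmt_PBC) (hINT : Stmt_INT) : Stmt_KIL :=
  ⟨fun hd hu hR hz hD => KIL.kil_of_disc hd hu hR hz hD,
    fun φ hR hK => KIL.kil_bc hPBC φ hR hK,
    fun φ hφ _ hu hR _ _ hK => KIL.kil_inj hPBC hINT φ hφ hu hR hK⟩

end Pool.Agent.MG.G0
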