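import Pool.Agent.MG.G0.StmtsK

/-!
# Module KNZ (PAPER K4): elements of a Krichever ring with prescribed leading coefficients
-/

namespace Pool.Agent.MG.G0

namespace KNZ

section

variable {I A : Type} [CommRing A]

theorem exists_dense [Fintype I] {g : ℕ} {P : Subalgebra A (KK I A)} (h : IsKr g P) :
    ∃ N : ℕ, Dense P N := by
  classical
  obtain ⟨L, hL, hker⟩ := h.k2
  choose v hv using fun j : Fin g => hL (Pi.single j 1)
  choose n hn using fun j : Fin g => exists_Pol (v j)
  refine ⟨Finset.univ.sup n, fun f => ?_⟩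
  have h0 : L (f - ∑ j, L f j • v j) = 0 := by
    rw [map_sub, map_sum]
    have h1 : ∀ j : Fin g, L (L f j • v j) = Pi.single j (L f j) := fun j => by
      rw [map_smul, hv]
      funext k
      by_cases hk : k = j
      · subst hk
        simp
      · simp [Pi.single_eq_of_ne hk]
    rw [Finset.sum_congr rfl fun j _ => h1 j, Finset.univ_sum_single, sub_self]
  obtain ⟨p, hp, hp'⟩ := (hker _).1 h0
  refine ⟨p, hp, ?_⟩
  have h2 : f - p = (f - ∑ j, L f j • v j - p) + ∑ j, L f j • v j := by abel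
  rw [h2]
  refine Submodule.add_mem _ (Pol_mono (Int.natCast_nonneg _) hp') ?_
  refine Submodule.sum_mem _ fun j _ => Submodule.smul_mem _ _ ?_
  refine Pol_mono ?_ (hn j)
  exact_mod_cast Finset.le_sup (f := n) (Finset.mem_univ j)

theorem dense_mono {P : Subalgebra A (KK I A)} {N n : ℤ} (h : Dense P N) (hn : N ≤ n) :
    Dense P n := fun f => by
  obtain ⟨p, hp, hp'⟩ := h f
  exact ⟨p, hp, Pol_mono hn hp'⟩

theorem exists_lead {P : Subalgebra A (KK I A)} {N n : ℤ} (h : Dense P N) (hn : N < n)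
    (a : I → A) : ∃ p ∈ P, p ∈ Pol I A n ∧ ∀ i, (p i).coeff (-n) = a i := by
  let f : KK I A := fun i => HahnSeries.single (-n) (a i)
  obtain ⟨p, hp, hp'⟩ := dense_mono h (show N ≤ n - 1 by omega) f
  have hc : ∀ i m, m < -(n - 1) → (p i).coeff m = (f i).coeff m := fun i m hm => by
    have := hp' i m hm
    rw [Pi.sub_apply, HahnSeries.coeff_sub, sub_eq_zero] at this
    exact this.symm
  refine ⟨p, hp, fun i m hm => ?_, fun i => ?_⟩
  · rw [hc i m (by omega)]
    exact HahnSeries.coeff_single_of_ne (by omega)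
  · rw [hc i (-n) (by omega)]
    exact HahnSeries.coeff_single_same _ _

end

end KNZ

theorem t_KNZ : Stmt_KNZ := fun {_ _} _ _ {_} {_} h =>
  ⟨KNZ.exists_dense h, fun N hN => ⟨fun n hn => KNZ.dense_mono hN hn,
    fun n hn a => KNZ.exists_lead hN hn a, fun n hn => by
      obtain ⟨z, hz, hz', hz''⟩ := KNZ.exists_lead hN hn fun _ => 1
      exact ⟨z, hz, hz', hz''⟩⟩⟩

end Pool.Agent.MG.G0
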