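import Pool.Agent.MG.G0.StmtsK

/-!
# Statements on smooth Krichever rings and additional punctures (PAPER.md, SM, LOC, ADD, REM)
-/

open TensorProduct

namespace Pool.Agent.MG.G0

/-- A certificate of smoothness: `∑ Dᵢ(gᵢ) = 1` and `Dᵢ(f) dh = Dᵢ(h) df`. -/
structure IsCert (A R : Type) [CommRing A] [CommRing R] [Algebra A R] {n : ℕ}
    (D : Fin n → Derivation A R R) (g : Fin n → R) : Prop where
  one : ∑ i, D i (g i) = 1
  cross : ∀ (i : Fin n) (f h : R),
    D i f • KaehlerDifferential.D A R h = D i h • KaehlerDifferential.D A R f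

/-- SCO (PAPER SM, consequences, SM2). -/
def Stmt_SCO : Prop :=
  (∀ {A R : Type} [CommRing A] [CommRing R] [Algebra A R] {n : ℕ}
    (D : Fin n → Derivation A R R) (g : Fin n → R), IsCert A R D g → SmC A R ∧
      ∀ (M : Type) [AddCommGroup M] [Module A M] [Module R M] [IsScalarTower A R M]
        (E : Derivation A R M) (f : R), E f = ∑ i, D i f • E (g i)) ∧
  (∀ {A R : Type} [CommRing A] [CommRing R] [Algebra A R], SmC A R →
    (∃ (n : ℕ) (D : Fin n → Derivation A R R) (g : Fin n → R), IsCert A R D g) ∧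
    (∀ (S : Type) [CommRing S] [Algebra A S] [Algebra R S] [IsScalarTower A R S]
      (E E' : Derivation A R S) (f h : R), E f * E' h = E h * E' f) ∧
    ∀ (M N : Type) [AddCommGroup M] [Module A M] [Module R M] [IsScalarTower A R M]
      [AddCommGroup N] [Module A N] [Module R N] [IsScalarTower A R N] (π : M →ₗ[R] N),
      Function.Surjective π → ∀ E : Derivation A R N, ∃ E' : Derivation A R M,
        ∀ f, π (E' f) = E f)

/-- `R → W` is injective and locally on `R` an isomorphism: the condition of LOC. -/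
def Ep (R W : Type) [CommRing R] [CommRing W] [Algebra R W] : Prop :=
  Function.Injective (algebraMap R W) ∧ ∀ w : W, ∃ (n : ℕ) (s : Fin n → R) (a : Fin n → W),
    ∑ k, a k * algebraMap R W (s k) = 1 ∧
      ∀ k, ∃ r : R, algebraMap R W (s k) * w = algebraMap R W r

/-- LOC: extension of derivations. -/
def Stmt_LOC : Prop :=
  ∀ {A R W : Type} [CommRing A] [CommRing R] [CommRing W] [Algebra A R] [Algebra A W]
    [Algebra R W] [IsScalarTower A R W], Ep R W →
    ∀ (M : Type) [AddCommGroup M] [Module A M] [Module R M] [Module W M] [IsScalarTower A R M]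
      [IsScalarTower A W M] [IsScalarTower R W M] (D : Derivation A R M),
      ∃! E : Derivation A W M, ∀ r : R, E (algebraMap R W r) = D r

/-- SBC (SM1): base change, isomorphisms, localization of certificates. -/
def Stmt_SBC : Prop :=
  (∀ {A B R : Type} [CommRing A] [CommRing B] [CommRing R] [Algebra A B] [Algebra A R],
    SmC A R → SmC B (B ⊗[A] R)) ∧
  (∀ {A R R' : Type} [CommRing A] [CommRing R] [CommRing R'] [Algebra A R] [Algebra A R']
    (_ : R ≃ₐ[A] R'), SmC A R → SmC A R') ∧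
  ∀ {A R W : Type} [CommRing A] [CommRing R] [CommRing W] [Algebra A R] [Algebra A W]
    [Algebra R W] [IsScalarTower A R W], Ep R W → SmC A R → SmC A W

/-- SKK (SM3): derivations of `P` with values in Laurent series are `θ d/dτ`. -/
def Stmt_SKK : Prop :=
  ∀ {I A : Type} [Fintype I] [CommRing A] {g : ℕ} {P : Subalgebra A (KK I A)}, IsKr g P →
    (∃ (m : ℕ) (c : Fin m → KK I A) (f : Fin m → P), ∑ l, c l * dd (f l : KK I A) = 1) ∧
    (SmC A P → ∀ E : Derivation A P (KK I A), ∃! θ : KK I A, ∀ f : P, E f = θ * dd (f : KK I A))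

/-- STO (SM4): vector fields and differentials. -/
def Stmt_STO : Prop :=
  ∀ {I A : Type} [Fintype I] [Nonempty I] [CommRing A] {g : ℕ} {P : Subalgebra A (KK I A)},
    IsKr g P →
    (Om P ≤ Perp P) ∧
    (∀ p ∈ P, ∀ η ∈ Om P, p * η ∈ Om P) ∧ (∀ p ∈ P, ∀ θ ∈ TT P, p * θ ∈ TT P) ∧
    (∀ θ ∈ TT P, ∃ D : Derivation A P P, ∀ f : P, (D f : KK I A) = θ * dd (f : KK I A)) ∧
    (SmC A P → (∀ D : Derivation A P P, ∃ θ ∈ TT P, ∀ f : P,
        (D f : KK I A) = θ * dd (f : KK I A)) ∧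
      (∃ (n : ℕ) (θ g' : Fin n → KK I A), (∀ i, θ i ∈ TT P) ∧ (∀ i, g' i ∈ P) ∧
        ∑ i, θ i * dd (g' i) = 1) ∧
      (Dual P ↔ Perp P ≤ Om P))

/-- SCR (SM5): a criterion for smoothness. -/
def Stmt_SCR : Prop :=
  ∀ {I A : Type} [Fintype I] [Nonempty I] [CommRing A] {g : ℕ} {P : Subalgebra A (KK I A)},
    IsKr g P → Algebra.FormallySmooth A P → ∀ (d : ℤ) (z : P), 1 ≤ d → Mon d (z : KK I A) →
    ∀ f : Polynomial A, f.Monic →
      ((algebraMap P (Localization.Away (Polynomial.aeval z f))).comp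
        (Polynomial.aeval (R := A) z).toRingHom).FormallyUnramified → SmC A P

/-- SDB (SM6): base change. -/
def Stmt_SDB : Prop :=
  ∀ {I A B : Type} [Fintype I] [Nonempty I] [CommRing A] [CommRing B] {g : ℕ}
    {P : Subalgebra A (KK I A)}, IsKr g P → SmC A P → ∀ φ : A →+* B,
      SmC B (bc φ P) ∧ (Dual P → Dual (bc φ P)) ∧
      TT (bc φ P) = Submodule.span B (kmap φ '' (TT P : Set (KK I A)))

/-- SDN (SM7): duality lifts along nilpotent thickenings. -/
def Stmt_SDN : Prop :=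
  ∀ {I A B : Type} [Fintype I] [Nonempty I] [CommRing A] [CommRing B] {g : ℕ}
    {P : Subalgebra A (KK I A)}, IsKr g P → SmC A P → ∀ φ : A →+* B,
      Function.Surjective φ → (RingHom.ker φ).FG → (∃ n : ℕ, RingHom.ker φ ^ n = ⊥) →
      Dual (bc φ P) → Dual P

/-- SDF (SM8): duality over algebraically closed fields. -/
def Stmt_SDF : Prop :=
  ∀ {I κ : Type} [Fintype I] [Nonempty I] [Field κ] [IsAlgClosed κ] {g : ℕ}
    {P : Subalgebra κ (KK I κ)}, IsKr g P → Algebra.FormallySmooth κ P → SmC κ P → Dual P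

/-! ## Formal points and additional punctures -/

/-- APT (ADD0): formal points over fields. -/
def Stmt_APT : Prop :=
  ∀ {I κ : Type} [Field κ] {P : Subalgebra κ (KK I κ)}, Algebra.FormallySmooth κ P → SmC κ P →
    ∀ p : P →ₐ[κ] κ, ∃ pt : FPt P, ∀ f, pt.ev f = p f

/-- AID (ADD1): the powers of the ideal of a formal point. -/
def Stmt_AID : Prop :=
  ∀ {I A : Type} [Fintype I] [Nonempty I] [CommRing A] {g : ℕ} {P : Subalgebra A (KK I A)},
    IsKr g P → SmC A P → ∀ pt : FPt P, pt.id.FG ∧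
      (∀ (n : ℕ) (r : P), r ∈ pt.id ^ n →
        ∃ a : A, r - a • (pt.x - algebraMap A P (pt.ev pt.x)) ^ n ∈ pt.id ^ (n + 1)) ∧
      (∀ (n : ℕ) (r : P), r ∈ pt.id ^ n ↔ ∀ m < n, PowerSeries.coeff m (pt.h r) = 0) ∧
      ∀ (n : ℕ) (f : PowerSeries A), ∃ r : P,
        ∀ m < n, PowerSeries.coeff m (pt.h r) = PowerSeries.coeff m f

/-- AYE (ADD2): several disjoint formal points. -/
def Stmt_AYE : Prop :=
  ∀ {I J A : Type} [Fintype I] [Nonempty I] [Fintype J] [CommRing A] {g : ℕ}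
    {P : Subalgebra A (KK I A)}, IsKr g P → SmC A P → ∀ pt : J → FPt P, Disj pt →
      (Ipt pt).FG ∧ (∀ (n : ℕ) (r : P), r ∈ Ipt pt ^ n ↔ ∀ j, r ∈ (pt j).id ^ n) ∧
      (∀ (n : ℕ) (f : J → PowerSeries A), ∃ r : P,
        ∀ j, ∀ m < n, PowerSeries.coeff m ((pt j).h r) = PowerSeries.coeff m (f j)) ∧
      ∃ (y e : P) (d : ℤ), y ∈ Ipt pt ∧ e ∈ Ipt pt ∧ 1 ≤ d ∧ Mon d (y : KK I A) ∧
        (∀ j, IsUnit (PowerSeries.coeff 1 ((pt j).h y))) ∧
        ∀ s ∈ Ipt pt, ∃ r : P, (1 - e) * s = y * r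

/-- AWK (ADD3, ADD4): the ring `WJ pt` is a Krichever ring of the same genus. -/
def Stmt_AWK : Prop :=
  ∀ {I J A : Type} [Fintype I] [Nonempty I] [Fintype J] [CommRing A] {g : ℕ}
    {P : Subalgebra A (KK I A)}, IsKr g P → SmC A P → ∀ pt : J → FPt P, Disj pt →
      IsKr g (WJ pt) ∧ SmC A (WJ pt) ∧ Rem (WJ pt) = P ∧
      (∀ w ∈ WJ pt, (∀ i, w (Sum.inl i) = 0) → w = 0) ∧
      (∀ w ∈ WJ pt, (∀ j, ∀ m < 0, (w (Sum.inr j)).coeff m = 0) → ∃ r : P, w = hat pt r) ∧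
      (∀ (f : J → LaurentSeries A) (M : ℤ), ∃ w ∈ WJ pt,
        ∀ j, ∀ m < M, (w (Sum.inr j)).coeff m = (f j).coeff m) ∧
      (∀ n : ℕ, ∃ (m : ℕ) (s : Fin m → P) (a : Fin m → KK (I ⊕ J) A),
        (∀ k, s k ∈ Ipt pt ^ n) ∧ (∀ k, a k ∈ WJ pt) ∧ ∑ k, a k * hat pt (s k) = 1)

/-- AWD (ADD5): duality for `WJ pt`. -/
def Stmt_AWD : Prop :=
  ∀ {I J A : Type} [Fintype I] [Nonempty I] [Fintype J] [CommRing A] {g : ℕ}
    {P : Subalgebra A (KK I A)}, IsKr g P → SmC A P → ∀ pt : J → FPt P, Disj pt →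
      Dual P → Dual (WJ pt)

/-- `pt'` is the base change of the formal point `pt`. -/
def FPt.Bc {I A B : Type} [CommRing A] [CommRing B] (φ : A →+* B) {P : Subalgebra A (KK I A)}
    (pt : FPt P) (pt' : FPt (bc φ P)) : Prop :=
  (∀ f : P, pt'.h (bcMap φ P f) = PowerSeries.map φ (pt.h f)) ∧ pt'.x = bcMap φ P pt.x

/-- AWB (ADD6): base change of formal points and of `WJ pt`. -/
def Stmt_AWB : Prop :=
  ∀ {I A B : Type} [Fintype I] [Nonempty I] [CommRing A] [CommRing B] {g : ℕ}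
    {P : Subalgebra A (KK I A)}, IsKr g P → ∀ φ : A →+* B,
      (∀ pt : FPt P, ∃! pt' : FPt (bc φ P), pt.Bc φ pt') ∧
      (SmC A P → ∀ {J : Type} [Fintype J] (pt : J → FPt P) (pt' : J → FPt (bc φ P)),
        (∀ j, (pt j).Bc φ (pt' j)) → Disj pt → Disj pt' ∧ WJ pt' = bc φ (WJ pt) ∧
        Ipt pt' = (Ipt pt).map (bcMap φ P))

/-! ## Removing punctures -/

/-- The elements of `W` have arbitrary principal parts at the puncture `inr ()`. -/
def Dns {I A : Type} [CommRing A] (W : Subalgebra A (KK (I ⊕ Unit) A)) : Prop :=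
  ∀ f : LaurentSeries A, ∃ w ∈ W, ∀ m < 0, (w (Sum.inr ())).coeff m = f.coeff m

/-- REM: removing a puncture. -/
def Stmt_REM : Prop :=
  (∀ {I A : Type} [Fintype I] [Nonempty I] [CommRing A] {h : ℕ}
    {W : Subalgebra A (KK (I ⊕ Unit) A)}, IsKr h W → Dns W → IsKr h (Rem W) ∧
      ∀ {B : Type} [CommRing B] (φ : A →+* B), Dns (bc φ W) ∧ Rem (bc φ W) = bc φ (Rem W)) ∧
  (∀ {I κ : Type} [Fintype I] [Nonempty I] [Field κ] {h : ℕ}
    {W : Subalgebra κ (KK (I ⊕ Unit) κ)}, IsKr h W → (∀ w ∈ W, w (Sum.inr ()) = 0 → w = 0) →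
      Dns W) ∧
  ∀ {I A B : Type} [Fintype I] [Nonempty I] [CommRing A] [CommRing B] {h : ℕ}
    {W : Subalgebra A (KK (I ⊕ Unit) A)}, IsKr h W → ∀ φ : A →+* B, Function.Surjective φ →
      (∃ n : ℕ, RingHom.ker φ ^ n = ⊥) → Dns (bc φ W) → Dns W

end Pool.Agent.MG.G0
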