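import Mathlib.RingTheory.Etale.Kaehler
import Mathlib.RingTheory.Kaehler.Polynomial
import Pool.Agent.MG.G0.StmtsS
import Pool.Agent.MG.G0.KNZ

/-!
# Module SCR (SM5): a criterion for smoothness
-/

open TensorProduct Polynomial

namespace Pool.Agent.MG.G0

namespace SCRm

/-- A dual basis of the differentials. -/
theorem dual_basis (A P : Type) [CommRing A] [CommRing P] [Algebra A P]
    [Algebra.FormallySmooth A P] [Algebra.FiniteType A P] :
    ∃ (n : ℕ) (σ : Ω[P⁄A] →ₗ[P] (Fin n → P)) (g : Fin n → P), ∀ x : Ω[P⁄A],
      x = ∑ i, σ x i • KaehlerDifferential.D A P (g i) := by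
  have hfin : Module.Finite P Ω[P⁄A] := inferInstance
  have hproj : Module.Projective P Ω[P⁄A] := inferInstance
  have h1 : (Submodule.span P (Set.range (KaehlerDifferential.D A P))).FG := by
    rw [KaehlerDifferential.span_range_derivation]
    exact hfin.1
  obtain ⟨s, hs, hs'⟩ := (Submodule.fg_span_iff_fg_span_finset_subset _).1 h1
  let e : Fin s.card ≃ s := s.equivFin.symm
  have hg : ∀ i : Fin s.card, ∃ g : P, KaehlerDifferential.D A P g = e i := fun i => hs (e i).2
  choose g hg using hg
  let π : (Fin s.card → P) →ₗ[P] Ω[P⁄A] :=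
    Fintype.linearCombination P (fun i => KaehlerDifferential.D A P (g i))
  have hπ : ∀ c, π c = ∑ i, c i • KaehlerDifferential.D A P (g i) := fun c => rfl
  have hsurj : Function.Surjective π := by
    rw [← LinearMap.range_eq_top, Fintype.range_linearCombination]
    have h2 : Set.range (fun i => KaehlerDifferential.D A P (g i)) = (s : Set Ω[P⁄A]) := by
      ext x
      constructor
      · rintro ⟨i, rfl⟩
        change KaehlerDifferential.D A P (g i) ∈ (s : Set Ω[P⁄A])
        rw [hg]
        exact (e i).2
      · intro hx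
        refine ⟨e.symm ⟨x, hx⟩, ?_⟩
        change KaehlerDifferential.D A P (g _) = x
        rw [hg, Equiv.apply_symm_apply]
    rw [h2, ← hs', KaehlerDifferential.span_range_derivation]
  obtain ⟨σ, hσ⟩ := Module.projective_lifting_property π LinearMap.id hsurj
  refine ⟨s.card, σ, g, ?_⟩
  intro x
  have h3 := LinearMap.congr_fun hσ x
  rw [LinearMap.comp_apply, hπ, LinearMap.id_apply] at h3
  exact h3.symm

/-- After multiplication by a power of `F` every differential is a multiple of `dz`. -/
theorem unram (A P : Type) [CommRing A] [CommRing P] [Algebra A P] (z F : P)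
    (hU : ((algebraMap P (Localization.Away F)).comp
      (Polynomial.aeval (R := A) z).toRingHom).FormallyUnramified) (a : P) :
    ∃ (k : ℕ) (p : P), F ^ k • KaehlerDifferential.D A P a = p • KaehlerDifferential.D A P z := by
  let S := Localization.Away F
  let u : A[X] →+* S := (algebraMap P S).comp (Polynomial.aeval (R := A) z).toRingHom
  let _ : Algebra A[X] S := u.toAlgebra
  have : IsScalarTower A A[X] S := IsScalarTower.of_algebraMap_eq (by
    intro a
    change algebraMap A S a = algebraMap P S (Polynomial.aeval z (algebraMap A A[X] a))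
    rw [AlgHom.commutes, ← IsScalarTower.algebraMap_apply])
  have : Algebra.FormallyUnramified A[X] S := hU
  have key : ∀ s : S, ∃ c : S, KaehlerDifferential.D A S s =
      c • KaehlerDifferential.D A S (algebraMap P S z) := by
    intro s
    have h1 : KaehlerDifferential.D A S s ∈
        LinearMap.range (KaehlerDifferential.mapBaseChange A A[X] S) := by
      rw [KaehlerDifferential.range_mapBaseChange, LinearMap.mem_ker]
      exact Subsingleton.elim _ _
    obtain ⟨t, ht⟩ := h1
    rw [← ht]
    clear ht
    induction t using TensorProduct.induction_on with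
    | zero => exact ⟨0, by rw [map_zero, zero_smul]⟩
    | tmul s ω =>
      have h2 : ω = (KaehlerDifferential.polynomialEquiv A ω) •
          KaehlerDifferential.D A A[X] X := by
        rw [← KaehlerDifferential.polynomialEquiv_symm, LinearEquiv.symm_apply_apply]
      have h3 : (algebraMap A[X] S) X = algebraMap P S z := by
        change algebraMap P S (Polynomial.aeval z X) = _
        rw [Polynomial.aeval_X]
      refine ⟨s * algebraMap A[X] S (KaehlerDifferential.polynomialEquiv A ω), ?_⟩
      rw [KaehlerDifferential.mapBaseChange_tmul]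
      conv_lhs => rw [h2]
      rw [map_smul, KaehlerDifferential.map_D, h3, mul_smul, algebraMap_smul]
    | add x y hx hy =>
      obtain ⟨c, hc⟩ := hx
      obtain ⟨c', hc'⟩ := hy
      exact ⟨c + c', by rw [map_add, hc, hc', add_smul]⟩
  obtain ⟨c, hc⟩ := key (algebraMap P S a)
  obtain ⟨n, p, hp⟩ := IsLocalization.Away.surj F c
  have h4 : KaehlerDifferential.map A A P S (F ^ n • KaehlerDifferential.D A P a) =
      KaehlerDifferential.map A A P S (p • KaehlerDifferential.D A P z) := by
    rw [map_smul, map_smul, KaehlerDifferential.map_D, KaehlerDifferential.map_D, hc,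
      ← algebraMap_smul S (F ^ n), ← algebraMap_smul S p, ← hp, smul_smul, map_pow, mul_comm]
  obtain ⟨⟨_, m, rfl⟩, hm⟩ := (IsLocalizedModule.eq_iff_exists (Submonoid.powers F)
    (KaehlerDifferential.map A A P S)).1 h4
  refine ⟨m + n, F ^ m * p, ?_⟩
  rw [pow_add, mul_smul, mul_smul]
  exact hm

/-- The cross relation. -/
theorem cross (A P : Type) [CommRing A] [CommRing P] [Algebra A P] (z F : P)
    (hF : ∀ x : Ω[P⁄A], F • x = 0 → x = 0)
    (hU : ((algebraMap P (Localization.Away F)).comp
      (Polynomial.aeval (R := A) z).toRingHom).FormallyUnramified)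
    (E : Derivation A P P) (a b : P) :
    E a • KaehlerDifferential.D A P b = E b • KaehlerDifferential.D A P a := by
  have hF' : ∀ (k : ℕ) (x : Ω[P⁄A]), F ^ k • x = 0 → x = 0 := by
    intro k
    induction k with
    | zero =>
      intro x hx
      rwa [pow_zero, one_smul] at hx
    | succ k ih =>
      intro x hx
      rw [pow_succ, mul_smul] at hx
      exact hF x (ih _ hx)
  obtain ⟨k, p, hp⟩ := unram A P z F hU a
  obtain ⟨l, q, hq⟩ := unram A P z F hU b
  have hE : ∀ x, E.liftKaehlerDifferential (KaehlerDifferential.D A P x) = E x :=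
    fun x => E.liftKaehlerDifferential_comp_D x
  have hp' : F ^ k * E a = p * E z := by
    have h := congrArg E.liftKaehlerDifferential hp
    rw [map_smul, map_smul, hE, hE] at h
    exact h
  have hq' : F ^ l * E b = q * E z := by
    have h := congrArg E.liftKaehlerDifferential hq
    rw [map_smul, map_smul, hE, hE] at h
    exact h
  rw [← sub_eq_zero]
  apply hF' (k + l)
  rw [smul_sub, sub_eq_zero]
  have e1 : F ^ (k + l) • (E a • KaehlerDifferential.D A P b) =
      (F ^ k * E a) • (F ^ l • KaehlerDifferential.D A P b) := by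
    rw [smul_smul, smul_smul]
    congr 1
    ring
  have e2 : F ^ (k + l) • (E b • KaehlerDifferential.D A P a) =
      (F ^ l * E b) • (F ^ k • KaehlerDifferential.D A P a) := by
    rw [smul_smul, smul_smul]
    congr 1
    ring
  rw [e1, e2, hp', hq', hp, hq, smul_smul, smul_smul]
  congr 1
  ring

/-- The abstract statement. -/
theorem main (A P : Type) [CommRing A] [CommRing P] [Algebra A P]
    [Algebra.FormallySmooth A P] [Algebra.FiniteType A P] (z F : P)
    (hFP : ∀ x : P, F * x = 0 → x = 0)
    (hU : ((algebraMap P (Localization.Away F)).comp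
      (Polynomial.aeval (R := A) z).toRingHom).FormallyUnramified) :
    ∃ (n : ℕ) (D : Fin n → Derivation A P P) (g : Fin n → P),
      (∀ (M : Type) [AddCommGroup M] [Module A M] [Module P M] [IsScalarTower A P M]
        (δ : Derivation A P M) (h : P), (∑ i, D i (g i)) • δ h = δ h) ∧
      ∀ (E : Derivation A P P) (f h : P),
        E f • KaehlerDifferential.D A P h = E h • KaehlerDifferential.D A P f := by
  obtain ⟨n, σ, gg, hσ⟩ := dual_basis A P
  have hFΩ : ∀ x : Ω[P⁄A], F • x = 0 → x = 0 := by
    intro x hx
    have h3 : σ x = 0 := by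
      funext i
      apply hFP
      have h4 := congrArg (fun v => v i) (map_smul σ F x)
      simp only [Pi.smul_apply, smul_eq_mul] at h4
      rw [← h4, hx, map_zero]
      rfl
    rw [hσ x, h3]
    simp
  have hcr := cross A P z F hFΩ hU
  let D : Fin n → Derivation A P P := fun i =>
    ((LinearMap.proj i : (Fin n → P) →ₗ[P] P) ∘ₗ σ).compDer (KaehlerDifferential.D A P)
  have hD : ∀ i x, D i x = σ (KaehlerDifferential.D A P x) i := fun i x => rfl
  refine ⟨n, D, gg, ?_, hcr⟩
  have ht : ∀ h : P, (∑ i, D i (gg i)) • KaehlerDifferential.D A P h =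
      KaehlerDifferential.D A P h := by
    intro h
    rw [Finset.sum_smul]
    conv_rhs => rw [hσ (KaehlerDifferential.D A P h)]
    refine Finset.sum_congr rfl fun i _ => ?_
    rw [hcr (D i) (gg i) h, hD]
  intro M _ _ _ _ δ h
  have h5 := congrArg δ.liftKaehlerDifferential (ht h)
  rw [map_smul, Derivation.liftKaehlerDifferential_comp_D] at h5
  exact h5

end SCRm

open SCRm in
theorem t_SCR (hKFG : Stmt_KFG) (hSKK : Stmt_SKK) : Stmt_SCR := by
  intro I A _ _ _ g P hP hFS d z hd hz f hf hU
  obtain ⟨N, hN⟩ := KNZ.exists_dense hP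
  obtain ⟨hfp, h2⟩ := hKFG hP
  obtain ⟨-, -, -, hunit, -⟩ := h2 N d z hN hd hz
  have := hFS
  have := hfp
  have : Algebra.FiniteType A P := Algebra.FiniteType.of_finitePresentation
  have hFP : ∀ x : P, Polynomial.aeval z f * x = 0 → x = 0 := by
    intro x hx
    have h3 : (Polynomial.aeval (z : KK I A) f) * (x : KK I A) = 0 := by
      have h4 : ((Polynomial.aeval z f : P) : KK I A) = Polynomial.aeval (z : KK I A) f :=
        (Polynomial.aeval_algHom_apply P.val z f).symm
      rw [← h4, ← Subalgebra.coe_mul, hx]
      rfl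
    exact Subtype.ext ((hunit f hf).mul_right_eq_zero.1 h3)
  obtain ⟨n, D, gg, h1, hcr⟩ := main A P z (Polynomial.aeval z f) hFP hU
  refine ⟨n, D, gg, ?_, hcr⟩
  have ht2 : ∀ h : P, ((∑ i, D i (gg i) : P) : KK I A) * dd (h : KK I A) = dd (h : KK I A) :=
    fun h => h1 (KK I A) ((ddD I A).compAlgebraMap P) h
  obtain ⟨⟨m, c, ff, hc⟩, -⟩ := hSKK hP
  have h6 : ((∑ i, D i (gg i) : P) : KK I A) = 1 := by
    rw [← mul_one ((∑ i, D i (gg i) : P) : KK I A), ← hc, Finset.mul_sum]
    refine Finset.sum_congr rfl fun l _ => ?_
    rw [mul_left_comm, ht2]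
  exact Subtype.ext h6

end Pool.Agent.MG.G0
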