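import Pool.Agent.MG.G0.Ultra

/-!
# Statements on ultraproducts
-/

open Polynomial

namespace Pool.Agent.MG.G0

/-- KGP: poles of order at most `2 g - 1` are enough. -/
def Stmt_KGP : Prop :=
  ∀ {A : Type} [CommRing A] {g : ℕ} {R : Subalgebra A (LaurentSeries A)}, 1 ≤ g → Kr g R →
    Dense (uno R) (2 * g - 1)

/-- INT (PAPER U, INTS): membership descends along injective base change. -/
def Stmt_INT : Prop :=
  ∀ {I A B : Type} [Fintype I] [Nonempty I] [CommRing A] [CommRing B] {g : ℕ}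
    {P : Subalgebra A (KK I A)}, IsKr g P → ∀ φ : A →+* B, Function.Injective φ →
      ∀ x : KK I A, kmap φ x ∈ bc φ P → x ∈ P

/-- `f(z) P^⊥ ⊂ P ∂z`. -/
def Kil {A : Type} [CommRing A] (d : ℕ) (R : Subalgebra A (LaurentSeries A)) (f : A[X]) : Prop :=
  ∀ x : LaurentSeries A, (∀ p ∈ R, (x * p).coeff (-1) = 0) →
    ∃ y ∈ R, zpol A d f * x = y * ld (zz A d)

/-- KIL (PAPER U, KIL (1), (2), (3)). -/
def Stmt_KIL : Prop :=
  (∀ {A : Type} [CommRing A] {g d : ℕ} {R : Subalgebra A (LaurentSeries A)} {f : A[X]},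
    1 ≤ d → IsUnit (d : A) → Kr g R → zz A d ∈ R → Disc d R f → Kil d R f) ∧
  (∀ {A B : Type} [CommRing A] [CommRing B] {g d : ℕ} {R : Subalgebra A (LaurentSeries A)}
    {f : A[X]} (φ : A →+* B), Kr g R → Kil d R f → Kil d (bc1 φ R) (f.map φ)) ∧
  ∀ {A B : Type} [CommRing A] [CommRing B] {g d : ℕ} {R : Subalgebra A (LaurentSeries A)}
    {f : A[X]} (φ : A →+* B), Function.Injective φ → 1 ≤ d → IsUnit (d : A) → Kr g R →
    zz A d ∈ R → f.Monic → Kil d (bc1 φ R) (f.map φ) → Kil d R f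

/-- KIS (PAPER U, KIL (4)): smoothness from a separable multiple of the different. -/
def Stmt_KIS : Prop :=
  ∀ {κ : Type} [Field κ] [IsAlgClosed κ] {g d : ℕ} {R : Subalgebra κ (LaurentSeries κ)}
    {f : κ[X]}, 1 ≤ d → ((d.factorial : ℕ) : κ) ≠ 0 → Kr g R → zz κ d ∈ R → Kil d R f →
    f.Separable → Algebra.FormallySmooth κ (uno R) ∧ SmC κ (uno R)

/-- DSC: discriminants of reductions of a Krichever ring over an integrally closed local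
domain. -/
def Stmt_DSC : Prop :=
  ∀ {O L : Type} [CommRing O] [IsDomain O] [IsLocalRing O] [IsIntegrallyClosed O] [Field L]
    [Algebra O L] [IsFractionRing O L] {g d : ℕ} {R : Subalgebra O (LaurentSeries O)} {f : O[X]},
    1 ≤ d → IsUnit (d : O) → Kr g R → zz O d ∈ R → f.Monic → f.natDegree + 1 = 2 * g + d →
    Disc d (bc1 (algebraMap O L) R) (f.map (algebraMap O L)) →
    ∀ {B : Type} [CommRing B] (φ : O →+* B),
      (∃ m : ℕ, ∀ x ∈ IsLocalRing.maximalIdeal O ^ m, φ x = 0) → Disc d (bc1 φ R) (f.map φ)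

/-- KRK: corank two at a double root. -/
def Stmt_KRK : Prop :=
  ∀ {κ : Type} [Field κ] {g d : ℕ} {R : Subalgebra κ (LaurentSeries κ)} {f h : κ[X]} {c : κ},
    2 ≤ d → (d : κ) ≠ 0 → Kr g R → zz κ d ∈ R → Disc d R f → f = (X - C c) ^ 2 * h →
    GRk d R c (d - 2) → Kil d R ((X - C c) * h)

/-- MSM: models: the different, the discriminant of reductions, smoothness. -/
def Stmt_MSM : Prop :=
  ∀ {κ O L : Type} [Field κ] [CommRing O] [IsDomain O] [Field L] [Algebra κ O] [Algebra O L]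
    {g d : ℕ} {R : Subalgebra L (LaurentSeries L)} (M : Mdl κ O L g d R), 2 ≤ d →
    ((d.factorial : ℕ) : κ) ≠ 0 → Kil d M.P M.f ∧
    (∀ {B : Type} [CommRing B] (φ : O →+* B), (∃ m : ℕ, φ (M.π ^ m) = 0) →
      Disc d (bc1 φ M.P) (M.f.map φ)) ∧
    (IsAlgClosed κ → M.Smo → Algebra.FormallySmooth κ (uno M.Pb) ∧ SmC κ (uno M.Pb))

/-- ULR: first order properties of ultraproducts of rings. -/
def Stmt_ULR : Prop :=
  ∀ (𝒰 : Ultrafilter ℕ),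
    (∀ (R : ℕ → Type) [∀ n, CommRing (R n)], (∀ n, IsDomain (R n)) → IsDomain (Ul 𝒰 R)) ∧
    (∀ (R : ℕ → Type) [∀ n, CommRing (R n)] (f : ∀ n, R n),
      IsUnit (umk 𝒰 f) ↔ ∀ᶠ n in (𝒰 : Filter ℕ), IsUnit (f n)) ∧
    (∀ (R : ℕ → Type) [∀ n, CommRing (R n)] [∀ n, IsDomain (R n)],
      (∀ n, ValuationRing (R n)) → ∀ _ : IsDomain (Ul 𝒰 R), ValuationRing (Ul 𝒰 R)) ∧
    (∀ (K : ℕ → Type) [∀ n, Field (K n)], (∀ n, IsAlgClosed (K n)) → IsAlgClosed (Ul 𝒰 K)) ∧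
    (∀ (R : ℕ → Type) [∀ n, CommRing (R n)],
      (∀ m : ℕ, m ≠ 0 → ∀ᶠ n in (𝒰 : Filter ℕ), (m : R n) ≠ 0) → CharZero (Ul 𝒰 R)) ∧
    (∀ (R S : ℕ → Type) [∀ n, CommRing (R n)] [∀ n, CommRing (S n)] (φ : ∀ n, R n →+* S n),
      (∀ n, Function.Injective (φ n)) → Function.Injective (umap 𝒰 φ)) ∧
    ∀ (O L : ℕ → Type) [∀ n, CommRing (O n)] [∀ n, IsDomain (O n)] [∀ n, Field (L n)]
      [∀ n, Algebra (O n) (L n)], (∀ n, IsFractionRing (O n) (L n)) →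
      @IsFractionRing (Ul 𝒰 O) _ (Ul 𝒰 L) _ (umap 𝒰 fun n => algebraMap (O n) (L n)).toAlgebra

/-- UEM: ultraproducts of algebraically closed fields of characteristic `p → ∞` which contain the
complex numbers and algebraically independent elements over them. -/
def Stmt_UEM : Prop :=
  ∀ (𝒰 : Ultrafilter ℕ) (b : ℕ) (p : ℕ → ℕ), (∀ n, (p n).Prime) →
    (∀ N : ℕ, ∀ᶠ n in (𝒰 : Filter ℕ), N < p n) →
    ∃ (k : ℕ → Type) (_ : ∀ n, Field (k n)) (_ : ∀ n, CharP (k n) (p n))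
      (_ : ∀ n, IsAlgClosed (k n)) (v : ∀ n, Fin b → k n) (i : ℂ →+* Ul 𝒰 k),
      (∀ n, @AlgebraicIndependent (Fin b) (ZMod (p n)) (k n) (v n) _ _ (ZMod.algebra _ _)) ∧
      @AlgebraicIndependent (Fin b) ℂ (Ul 𝒰 k) (fun j => umk 𝒰 fun n => v n j) _ _ i.toAlgebra

/-- UKR: ultraproducts of Krichever rings. -/
def Stmt_UKR : Prop :=
  ∀ (𝒰 : Ultrafilter ℕ) {R : ℕ → Type} [∀ n, CommRing (R n)] {g : ℕ}
    (P : ∀ n, Subalgebra (R n) (LaurentSeries (R n))), 1 ≤ g → (∀ n, Kr g (P n)) →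
    Kr g (UP 𝒰 P) ∧
    (∀ F : LaurentSeries (Ul 𝒰 R), F ∈ EE1 (UP 𝒰 P) ↔
      ∃ f : ∀ n, LaurentSeries (R n), USer 𝒰 F f ∧ ∀ n, f n ∈ EE1 (P n)) ∧
    (∀ (Q : ∀ n, Subalgebra (R n) (LaurentSeries (R n))), (∀ᶠ n in (𝒰 : Filter ℕ), P n = Q n) →
      UP 𝒰 P = UP 𝒰 Q) ∧
    (∀ {S : ℕ → Type} [∀ n, CommRing (S n)] (φ : ∀ n, R n →+* S n),
      UP 𝒰 (fun n => bc1 (φ n) (P n)) = bc1 (umap 𝒰 φ) (UP 𝒰 P)) ∧
    (∀ c : ∀ n, (R n)ˣ, ∀ c' : (Ul 𝒰 R)ˣ, (c' : Ul 𝒰 R) = umk 𝒰 (fun n => (c n : R n)) →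
      UP 𝒰 (fun n => (P n).map (sc (c n))) = (UP 𝒰 P).map (sc c')) ∧
    ∀ d : ℕ, (∀ n, zz (R n) d ∈ P n) → zz (Ul 𝒰 R) d ∈ UP 𝒰 P

/-- A place of `L` over `k`, with a model of `R` in the coordinate `c τ`. -/
structure Plc (k L : Type) [Field k] [Field L] [Algebra k L] (g d : ℕ)
    (R : Subalgebra L (LaurentSeries L)) where
  /-- the valuation ring -/
  O : Type
  [i1 : CommRing O]
  [i2 : IsDomain O]
  [i3 : Algebra k O]
  [i4 : Algebra O L]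
  [i5 : IsScalarTower k O L]
  /-- the scaling of the coordinate -/
  c : Lˣ
  /-- the model -/
  M : Mdl k O L g d (R.map (sc c))

attribute [instance] Plc.i1 Plc.i2 Plc.i3 Plc.i4 Plc.i5

/-- The multilinear form `S` on the regular differentials is integral at the place `v`. -/
def Plc.Int {k L : Type} [Field k] [Field L] [Algebra k L] {g d : ℕ}
    {R : Subalgebra L (LaurentSeries L)} (v : Plc k L g d R) {r : ℕ}
    (S : MultilinearMap L (fun _ : Fin r => EE1 R) L) : Prop :=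
  ∀ (ω : Fin r → EE1 R) (η : Fin r → EE1 v.M.P),
    (∀ i, lmap (algebraMap v.O L) (η i : LaurentSeries v.O) =
      ((v.c⁻¹ : Lˣ) : L) • sc v.c (ω i : LaurentSeries L)) → ∃ x : v.O, algebraMap v.O L x = S ω

section

variable (𝒰 : Ultrafilter ℕ) {k L : ℕ → Type} [∀ n, Field (k n)] [∀ n, Field (L n)]
  [∀ n, Algebra (k n) (L n)] {g d : ℕ} {R : ∀ n, Subalgebra (L n) (LaurentSeries (L n))}

/-- The ring of the ultraproduct of places. -/
abbrev UO (v : ∀ n, Plc (k n) (L n) g d (R n)) : Type := Ul 𝒰 fun n => (v n).O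

/-- The inclusion in the field of fractions. -/
noncomputable def uOL (v : ∀ n, Plc (k n) (L n) g d (R n)) : UO 𝒰 v →+* Ul 𝒰 L :=
  umap 𝒰 fun n => algebraMap (v n).O (L n)

/-- The ultraproduct of the models. -/
noncomputable def uOP (v : ∀ n, Plc (k n) (L n) g d (R n)) :
    Subalgebra (UO 𝒰 v) (LaurentSeries (UO 𝒰 v)) := UP 𝒰 fun n => (v n).M.P

/-- The scaling of the coordinate. -/
noncomputable def uc (v : ∀ n, Plc (k n) (L n) g d (R n)) : (Ul 𝒰 L)ˣ where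
  val := umk 𝒰 fun n => ((v n).c : L n)
  inv := umk 𝒰 fun n => (((v n).c⁻¹ : (L n)ˣ) : L n)
  val_inv := by
    rw [← map_mul, ← map_one (umk 𝒰)]
    congr 1
    funext n
    exact (v n).c.mul_inv
  inv_val := by
    rw [← map_mul, ← map_one (umk 𝒰)]
    congr 1
    funext n
    exact (v n).c.inv_mul

/-- A multilinear form over the ultraproduct is integral at an ultraproduct of places. -/
def UInt (v : ∀ n, Plc (k n) (L n) g d (R n)) {r : ℕ}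
    (S : MultilinearMap (Ul 𝒰 L) (fun _ : Fin r => EE1 (UP 𝒰 R)) (Ul 𝒰 L)) : Prop :=
  ∀ (ω : Fin r → EE1 (UP 𝒰 R)) (η : Fin r → EE1 (uOP 𝒰 v)),
    (∀ i, lmap (uOL 𝒰 v) (η i : LaurentSeries (UO 𝒰 v)) =
      (((uc 𝒰 v)⁻¹ : (Ul 𝒰 L)ˣ) : Ul 𝒰 L) • sc (uc 𝒰 v) (ω i : LaurentSeries (Ul 𝒰 L))) →
    ∃ x : UO 𝒰 v, uOL 𝒰 v x = S ω

end

/-- TRA: the transfer of the vanishing theorem. If over all `L n` a multilinear form which is
integral at all places (of the class `T`) is zero, and the multilinear form `S` over the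
ultraproduct is integral at all ultraproducts of places, then `S = 0`. -/
def Stmt_TRA : Prop :=
  ∀ (𝒰 : Ultrafilter ℕ) {k L : ℕ → Type} [∀ n, Field (k n)] [∀ n, Field (L n)]
    [∀ n, Algebra (k n) (L n)] {g d r : ℕ} (R : ∀ n, Subalgebra (L n) (LaurentSeries (L n)))
    (T : ∀ n, Plc (k n) (L n) g d (R n) → Prop), 1 ≤ g → (∀ n, Kr g (R n)) →
    (∀ n, ∃ v, T n v) →
    (∀ n, ∀ S : MultilinearMap (L n) (fun _ : Fin r => EE1 (R n)) (L n),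
      (∀ v, T n v → v.Int S) → S = 0) →
    ∀ S : MultilinearMap (Ul 𝒰 L) (fun _ : Fin r => EE1 (UP 𝒰 R)) (Ul 𝒰 L),
      (∀ v : ∀ n, Plc (k n) (L n) g d (R n), (∀ n, T n (v n)) → UInt 𝒰 v S) → S = 0

/-- TRZ: the same for scalars: an element which is integral at all ultraproducts of places is a
constant. -/
def Stmt_TRZ : Prop :=
  ∀ (𝒰 : Ultrafilter ℕ) {k L : ℕ → Type} [∀ n, Field (k n)] [∀ n, Field (L n)]
    [∀ n, Algebra (k n) (L n)] {g d : ℕ} (R : ∀ n, Subalgebra (L n) (LaurentSeries (L n)))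
    (T : ∀ n, Plc (k n) (L n) g d (R n) → Prop), (∀ n, ∃ v, T n v) →
    (∀ n, ∀ s : L n, (∀ v, T n v → ∃ x : v.O, algebraMap v.O (L n) x = s) →
      ∃ a : k n, algebraMap (k n) (L n) a = s) →
    ∀ s : Ul 𝒰 L, (∀ v : ∀ n, Plc (k n) (L n) g d (R n), (∀ n, T n (v n)) →
      ∃ x : UO 𝒰 v, uOL 𝒰 v x = s) →
      ∃ a : Ul 𝒰 k, umap 𝒰 (fun n => algebraMap (k n) (L n)) a = s

/-- UMD: the ultraproduct of models is a model, of the same type. -/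
def Stmt_UMD : Prop :=
  ∀ (𝒰 : Ultrafilter ℕ) {k O L : ℕ → Type} [∀ n, Field (k n)] [∀ n, CommRing (O n)]
    [∀ n, IsDomain (O n)] [∀ n, Field (L n)] [∀ n, Algebra (k n) (O n)]
    [∀ n, Algebra (O n) (L n)] {g d : ℕ} {R : ∀ n, Subalgebra (L n) (LaurentSeries (L n))}
    (M : ∀ n, Mdl (k n) (O n) (L n) g d (R n)), 1 ≤ g → 1 ≤ d →
    letI : Algebra (Ul 𝒰 k) (Ul 𝒰 O) := (umap 𝒰 fun n => algebraMap (k n) (O n)).toAlgebra
    letI : Algebra (Ul 𝒰 O) (Ul 𝒰 L) := (umap 𝒰 fun n => algebraMap (O n) (L n)).toAlgebra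
    ∃ (_ : IsDomain (Ul 𝒰 O)) (M' : Mdl (Ul 𝒰 k) (Ul 𝒰 O) (Ul 𝒰 L) g d (UP 𝒰 R)),
      (∀ x : ∀ n, O n, M'.rs (umk 𝒰 x) = umk 𝒰 fun n => (M n).rs (x n)) ∧
      M'.π = umk 𝒰 (fun n => (M n).π) ∧ M'.P = UP 𝒰 (fun n => (M n).P) ∧
      UPol 𝒰 M'.f (fun n => (M n).f) ∧
      ((∀ᶠ n in (𝒰 : Filter ℕ), (M n).Smo) → M'.Smo) ∧
      ((∀ᶠ n in (𝒰 : Filter ℕ), (M n).Nod) → M'.Nod)

end Pool.Agent.MG.G0
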