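import Pool.Agent.MG.TwoCoord
import Pool.Agent.MG.G0.StmtsU
import Pool.Agent.MG.G0.SCR
import Pool.Agent.MG.G0.ZL.ZD

/-!
# Module KIS (PAPER U, KIL (4)): smoothness from a separable multiple of the different

Let `s = z - c`. The trace of the multiplication by `y` on `R / s R` is `-res (y dz / s)`. The
trace form of `R / s R` has the radical as its kernel, because the traces of the idempotents are
dimensions between `1` and `d`. If `M` is a maximal ideal containing `s` and `y₀` represents an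
element of the socle of `R / s R` killed by `M`, then `y₀ / s` maps `M` to `R`. If it maps `M` to
`M`, it maps the radical to itself, and the double orthogonal shows that a multiple of it is in
`R`, a contradiction. So `M` is locally principal.
-/

open Polynomial

namespace Pool.Agent.MG.G0

namespace KIS

theorem exists_idem {B : Type} [CommRing B] [IsArtinianRing B] (y : B) (hy : ¬ IsNilpotent y) :
    ∃ p, (y * p) * (y * p) = y * p ∧ y * p ≠ 0 := by
  obtain ⟨n, b, hb⟩ := IsArtinian.exists_pow_succ_smul_dvd y (1 : B)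
  simp only [smul_eq_mul, mul_one, Nat.succ_eq_add_one] at hb
  have h1 : ∀ k : ℕ, y ^ (n + k) * b ^ k = y ^ n := by
    intro k
    induction k with
    | zero => simp
    | succ k ih =>
      calc y ^ (n + (k+1)) * b ^ (k+1) = y ^ k * b ^ k * (y ^ (n+1) * b) := by ring
        _ = y ^ (n + k) * b ^ k := by rw [hb]; ring
        _ = y ^ n := ih
  have h2 := h1 (n+1)
  refine ⟨y ^ n * b ^ (n+1), ?_, ?_⟩
  · calc y * (y ^ n * b ^ (n+1)) * (y * (y ^ n * b ^ (n+1)))
        = y * b ^ (n+1) * (y ^ (n + (n+1)) * b ^ (n+1)) := by ring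
      _ = y * (y ^ n * b ^ (n+1)) := by rw [h2]; ring
  · intro h0
    apply hy
    refine ⟨n, ?_⟩
    rw [← h2]
    calc y ^ (n + (n+1)) * b ^ (n+1) = y ^ n * (y * (y ^ n * b ^ (n+1))) := by ring
      _ = 0 := by rw [h0, mul_zero]

theorem exists_socle {B : Type} [CommRing B] [IsArtinianRing B] (m : Ideal B) [hm : m.IsMaximal] :
    ∃ y : B, y ≠ 0 ∧ ∀ x ∈ m, x * y = 0 := by
  have h1 : m ∈ (Module.annihilator B B).minimalPrimes := by
    refine ⟨⟨hm.isPrime, ?_⟩, fun p hp hpm => ?_⟩
    · intro x hx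
      have := Module.mem_annihilator.1 hx 1
      rw [smul_eq_mul, mul_one] at this
      rw [this]; exact zero_mem _
    · have := hp.1
      have := (IsArtinianRing.isPrime_iff_isMaximal p).1 hp.1
      exact (this.eq_of_le hm.ne_top hpm).ge
  have h2 := Module.associatedPrimes.minimalPrimes_annihilator_subset_associatedPrimes B B h1
  rw [AssociatedPrimes.mem_iff, isAssociatedPrime_iff] at h2
  obtain ⟨-, y, hy⟩ := h2
  refine ⟨y, ?_, ?_⟩
  · rintro rfl
    apply hm.ne_top
    rw [hy, Ideal.eq_top_iff_one]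
    simp [Submodule.mem_colon_singleton]
  · intro x hx
    rw [hy, Submodule.mem_colon_singleton] at hx
    simpa using hx

theorem trace_idem {κ : Type} [Field κ] {d : ℕ} (M : Matrix (Fin d) (Fin d) κ) (h : M * M = M)
    (h0 : M ≠ 0) (hd : ((d.factorial : ℕ) : κ) ≠ 0) : M.trace ≠ 0 := by
  have h1 : IsIdempotentElem (Matrix.toLin' M) := by
    change Matrix.toLin' M * Matrix.toLin' M = Matrix.toLin' M
    rw [Module.End.mul_eq_comp, ← Matrix.toLin'_mul, h]
  have h2 := (LinearMap.IsIdempotentElem.isProj_range _ h1).trace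
  rw [Matrix.trace_toLin'_eq] at h2
  rw [h2]
  intro h3
  apply hd
  set r := Module.finrank κ (Matrix.toLin' M).range with hr
  have hr1 : r ≤ d := by
    have := Submodule.finrank_le (Matrix.toLin' M).range
    simpa using this
  have hr0 : r ≠ 0 := by
    intro hr0
    rw [hr, Submodule.finrank_eq_zero, LinearMap.range_eq_bot] at hr0
    apply h0
    exact Matrix.toLin'.injective (by rw [hr0, map_zero])
  obtain ⟨k, hk⟩ := Nat.dvd_factorial (Nat.pos_of_ne_zero hr0) hr1
  rw [hk, Nat.cast_mul, h3, zero_mul]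

theorem heart {κ K : Type} [Field κ] [Field K] [Algebra κ K] (R : Subalgebra κ K) (ρ : K → κ)
    (z : R) (w : K) (h : κ[X]) (c : κ) (hc : h.eval c ≠ 0) {d : ℕ}
    (hd : ((d.factorial : ℕ) : κ) ≠ 0)
    (N : R →ₐ[κ] Matrix (Fin d) (Fin d) κ)
    (hN : ∀ y : R, N y = 0 ↔ ∃ x, y = (z - algebraMap κ R c) * x)
    (hs : z - algebraMap κ R c ≠ 0)
    (hw : ∀ y : R, ρ (y * w / (z - algebraMap κ R c : R)) = - (N y).trace)
    (hP : ∀ x : K, (∀ η : K, (∀ p ∈ R, ρ (η * p) = 0) → ρ (η * x) = 0) → x ∈ R)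
    (hK : ∀ η : K, (∀ p ∈ R, ρ (η * p) = 0) → ∃ y ∈ R, aeval (z : K) ((X - C c) * h) * η = y * w)
    (M : Ideal R) [hMm : M.IsMaximal] (hM : z - algebraMap κ R c ∈ M) :
    ∃ a ∈ M, ∃ u ∉ M, ∀ m ∈ M, ∃ r, u * m = a * r := by
  set s : R := z - algebraMap κ R c with hsdef
  have hsK : (s : K) ≠ 0 := fun h0 => hs (Subtype.ext h0)
  set I : Ideal R := RingHom.ker N with hI
  have hmemI : ∀ y, y ∈ I ↔ N y = 0 := fun y => Iff.rfl
  have hIM : I ≤ M := by
    intro y hy
    obtain ⟨x, rfl⟩ := (hN y).1 ((hmemI y).1 hy)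
    exact M.mul_mem_right _ hM
  have hinj : Function.Injective (Ideal.kerLiftAlg N) := Ideal.kerLiftAlg_injective N
  have hfin : Module.Finite κ (R ⧸ I) :=
    Module.Finite.of_injective (Ideal.kerLiftAlg N).toLinearMap hinj
  have hart : IsArtinianRing (R ⧸ I) := IsArtinianRing.of_finite κ (R ⧸ I)
  -- nilpotence
  have hnil : ∀ y : R, IsNilpotent (Ideal.Quotient.mk I y) ↔ IsNilpotent (N y) := by
    intro y
    constructor
    · rintro ⟨n, hn⟩
      refine ⟨n, ?_⟩
      rw [← map_pow, ← hmemI, ← Ideal.Quotient.eq_zero_iff_mem, map_pow, hn]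
    · rintro ⟨n, hn⟩
      refine ⟨n, ?_⟩
      rw [← map_pow, Ideal.Quotient.eq_zero_iff_mem, hmemI, map_pow, hn]
  have htr0 : ∀ y : R, IsNilpotent (N y) → (N y).trace = 0 := fun y hy =>
    (Matrix.isNilpotent_trace_of_isNilpotent hy).eq_zero
  have hidem : ∀ y : R, (∀ p : R, (N (y * p)).trace = 0) → IsNilpotent (N y) := by
    intro y hy
    by_contra hcon
    rw [← hnil] at hcon
    obtain ⟨p, hp, hp0⟩ := exists_idem _ hcon
    obtain ⟨p, rfl⟩ := Ideal.Quotient.mk_surjective p
    rw [← map_mul] at hp hp0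
    rw [← map_mul] at hp
    refine trace_idem (N (y * p)) ?_ ?_ hd (hy p)
    · rw [← map_mul, ← sub_eq_zero, ← map_sub, ← hmemI, ← Ideal.Quotient.eq_zero_iff_mem,
        map_sub, hp, sub_self]
    · intro h0
      apply hp0
      rw [Ideal.Quotient.eq_zero_iff_mem, hmemI, h0]
  -- the socle
  have hMb : (M.map (Ideal.Quotient.mk I)).IsMaximal := by
    rcases Ideal.map_eq_top_or_isMaximal_of_surjective (Ideal.Quotient.mk I)
      Ideal.Quotient.mk_surjective hMm with h1 | h1
    · exfalso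
      have h2 := congrArg (Ideal.comap (Ideal.Quotient.mk I)) h1
      rw [Ideal.comap_map_of_surjective _ Ideal.Quotient.mk_surjective, Ideal.comap_top,
        ← RingHom.ker_eq_comap_bot, Ideal.mk_ker, sup_eq_left.2 hIM] at h2
      exact hMm.ne_top h2
    · exact h1
  obtain ⟨y0, hy0, hy0M⟩ := exists_socle (M.map (Ideal.Quotient.mk I))
  obtain ⟨y0, rfl⟩ := Ideal.Quotient.mk_surjective y0
  have hy0I : N y0 ≠ 0 := by
    intro h0
    apply hy0
    rw [Ideal.Quotient.eq_zero_iff_mem, hmemI, h0]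
  have hdiv : ∀ m ∈ M, ∃ r, m * y0 = s * r := by
    intro m hm
    have h1 := hy0M _ (Ideal.mem_map_of_mem _ hm)
    rw [← map_mul, Ideal.Quotient.eq_zero_iff_mem, hmemI, hN] at h1
    exact h1
  by_cases H : ∀ m ∈ M, ∀ r : R, m * y0 = s * r → r ∈ M
  · exfalso
    have hJ : ∀ x : R, IsNilpotent (N x) → ∃ r, x * y0 = s * r ∧ IsNilpotent (N r) := by
      intro x hx
      have hxM : x ∈ M := by
        obtain ⟨n, hn⟩ := hx
        rw [← map_pow, ← hmemI] at hn
        exact hMm.isPrime.mem_of_pow_mem n (hIM hn)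
      obtain ⟨r, hr⟩ := hdiv x hxM
      obtain ⟨r', hr'⟩ := hdiv r (H x hxM r hr)
      refine ⟨r, hr, ?_⟩
      have h1 : r * r = x * r' := by
        apply mul_left_cancel₀ hs
        calc s * (r * r) = (s * r) * r := by ring
          _ = x * (r * y0) := by rw [← hr]; ring
          _ = s * (x * r') := by rw [hr']; ring
      rw [← hnil] at hx ⊢
      have h2 : IsNilpotent (Ideal.Quotient.mk I r ^ 2) := by
        rw [pow_two, ← map_mul, h1, map_mul]
        exact (Commute.all _ _).isNilpotent_mul_right hx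
      obtain ⟨n, hn⟩ := h2
      exact ⟨2 * n, by rw [pow_mul, hn]⟩
    have hz : aeval (z : K) h = ((aeval z h : R) : K) := (aeval_algHom_apply R.val z h)
    have hx0 : aeval (z : K) h * ((y0 : K) / s) ∈ R := by
      apply hP
      intro η hη
      obtain ⟨y, hy, hyw⟩ := hK η hη
      have e1 : (s : K) * aeval (z : K) h * η = y * w := by
        rw [← hyw, map_mul]
        congr 2
        rw [map_sub, aeval_X, aeval_C]
        rfl
      have hny : IsNilpotent (N ⟨y, hy⟩) := by
        apply hidem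
        intro p
        have h1 := hw (⟨y, hy⟩ * p)
        have h2 : ((⟨y, hy⟩ * p : R) : K) * w / s = η * ((aeval z h * p : R) : K) := by
          have : ((⟨y, hy⟩ * p : R) : K) = y * p := rfl
          rw [this, Subalgebra.coe_mul, ← hz]
          field_simp
          linear_combination (-(p : K)) * e1
        rw [h2, hη _ (aeval z h * p : R).2] at h1
        rw [← neg_eq_zero, ← h1]
      obtain ⟨r, hr, hrn⟩ := hJ _ hny
      have h3 := hw r
      rw [htr0 r hrn, neg_zero] at h3
      have hrK : y * (y0 : K) = s * r := congrArg Subtype.val hr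
      have h4 : η * aeval (z : K) h * (y0 : K) = r * w := by
        apply mul_left_cancel₀ hsK
        linear_combination (y0 : K) * e1 + w * hrK
      rw [← h3, ← h4]
      congr 1
      ring
    have h1 : (aeval z h : R) * y0 = s * ⟨_, hx0⟩ := by
      apply Subtype.ext
      rw [Subalgebra.coe_mul, Subalgebra.coe_mul, ← hz]
      field_simp
    have h2 : N ((aeval z h : R) * y0) = 0 := (hN _).2 ⟨_, h1⟩
    have h3 : N z = algebraMap κ _ c := by
      have h4 : N s = 0 := (hN s).2 ⟨1, by rw [mul_one]⟩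
      rw [hsdef, map_sub, sub_eq_zero] at h4
      rw [h4, AlgHom.commutes]
    rw [map_mul, ← aeval_algHom_apply, h3, aeval_algebraMap_apply, ← Algebra.smul_def,
      smul_eq_zero] at h2
    rcases h2 with h2 | h2
    · apply hc
      rw [← h2, coe_aeval_eq_eval]
    · exact hy0I h2
  · push Not at H
    obtain ⟨a, ha, u, hu, huM⟩ := H
    refine ⟨a, ha, u, huM, fun m hm => ?_⟩
    obtain ⟨r, hr⟩ := hdiv m hm
    refine ⟨r, mul_left_cancel₀ hs ?_⟩
    calc s * (u * m) = (s * u) * m := by ring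
      _ = a * (m * y0) := by rw [← hu]; ring
      _ = s * (a * r) := by rw [hr]; ring

section

variable {κ : Type} [Field κ] {g d : ℕ} {R : Subalgebra κ (LaurentSeries κ)}

/-- `z` as an element of `R`. -/
noncomputable def zR (hz : zz κ d ∈ R) : R := ⟨zz κ d, hz⟩

theorem coe_aeval (hz : zz κ d ∈ R) (p : κ[X]) :
    ((aeval (zR hz) p : R) : LaurentSeries κ) = zpol κ d p :=
  (aeval_algHom_apply R.val (zR hz) p).symm

/-- The structure of an algebra over `κ[z]`. -/
noncomputable abbrev alg (hz : zz κ d ∈ R) : Algebra κ[X] R :=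
  (aeval (R := κ) (zR hz)).toRingHom.toAlgebra

theorem exists_basis (hz : zz κ d ∈ R) {e : Fin d → LaurentSeries κ} (he : ZBas d R e) :
    let _ := alg hz
    ∃ b : Module.Basis (Fin d) κ[X] R, ∀ i, (b i : LaurentSeries κ) = e i := by
  let _ := alg hz
  have hsm : ∀ (p : κ[X]) (x : R), ((p • x : R) : LaurentSeries κ) = zpol κ d p * x := by
    intro p x
    rw [← coe_aeval hz p]
    rfl
  have hsum : ∀ c : Fin d → κ[X], ((∑ i, c i • (⟨e i, he.mem i⟩ : R) : R) : LaurentSeries κ) =
      ∑ i, zpol κ d (c i) * e i := by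
    intro c
    rw [AddSubmonoidClass.coe_finsetSum]
    exact Finset.sum_congr rfl fun i _ => hsm _ _
  refine ⟨Module.Basis.mk (v := fun i => (⟨e i, he.mem i⟩ : R)) ?_ ?_, fun i => ?_⟩
  · rw [Fintype.linearIndependent_iff]
    intro c hc
    obtain ⟨c', -, hu⟩ := he.uni 0 (zero_mem R)
    have h1 := hu c (by
      change 0 = _
      rw [← hsum, hc]
      rfl)
    have h2 := hu 0 (by simp)
    intro i
    rw [h1, ← h2]
    rfl
  · intro x _
    obtain ⟨c, hc, -⟩ := he.uni x x.2
    have h1 : x = ∑ i, c i • (⟨e i, he.mem i⟩ : R) := by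
      apply Subtype.ext
      rw [hsum]
      exact hc
    rw [h1]
    exact Submodule.sum_mem _ fun i _ => Submodule.smul_mem _ _ (Submodule.subset_span ⟨i, rfl⟩)
  · rw [Module.Basis.mk_apply]

theorem exists_N (hd : 0 < d) (hR : Kr g R) (hz : zz κ d ∈ R) {e : Fin d → LaurentSeries κ}
    (he : ZBas d R e) (c : κ) :
    ∃ N : R →ₐ[κ] Matrix (Fin d) (Fin d) κ,
      (∀ y : R, N y = 0 ↔ ∃ x, y = (zR hz - algebraMap κ R c) * x) ∧
      ∀ y : R, ∃ t : κ[X], (d : LaurentSeries κ) * pr0 κ d y = zpol κ d t ∧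
        (N y).trace = t.eval c := by
  let _ := alg hz
  obtain ⟨b, hb⟩ := exists_basis hz he
  have hst : IsScalarTower κ κ[X] R := IsScalarTower.of_algebraMap_eq (by
    intro a
    change algebraMap κ R a = aeval (zR hz) (C a)
    rw [aeval_C])
  have hX : algebraMap κ[X] R (X - C c) = zR hz - algebraMap κ R c := by
    change aeval (zR hz) (X - C c) = _
    rw [map_sub, aeval_X, aeval_C]
  let N : R →ₐ[κ] Matrix (Fin d) (Fin d) κ :=
    ((aeval c : κ[X] →ₐ[κ] κ).mapMatrix).comp ((Algebra.leftMulMatrix b).restrictScalars κ)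
  have hN : ∀ y i j, N y i j = (Algebra.leftMulMatrix b y i j).eval c := by
    intro y i j
    rw [← coe_aeval_eq_eval]
    rfl
  refine ⟨N, ?_, ?_⟩
  · intro y
    constructor
    · intro hy
      have h1 : ∀ i j, ∃ q, Algebra.leftMulMatrix b y i j = (X - C c) * q := by
        intro i j
        have h2 : (Algebra.leftMulMatrix b y i j).eval c = 0 := by
          rw [← hN, hy]
          rfl
        exact dvd_iff_isRoot.2 h2
      choose q hq using h1
      have h3 : ∀ j, y * b j = (X - C c) • ∑ i, q i j • b i := by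
        intro j
        rw [← b.sum_repr (y * b j), Finset.smul_sum]
        refine Finset.sum_congr rfl fun i _ => ?_
        rw [← Algebra.leftMulMatrix_eq_repr_mul, hq, mul_smul]
      refine ⟨∑ j, b.repr 1 j • ∑ i, q i j • b i, ?_⟩
      rw [← hX, ← Algebra.smul_def, Finset.smul_sum]
      conv_lhs => rw [← mul_one y, ← b.sum_repr 1, Finset.mul_sum]
      refine Finset.sum_congr rfl fun j _ => ?_
      rw [mul_smul_comm, h3, smul_comm]
    · rintro ⟨x, rfl⟩
      rw [← hX, map_mul]
      have h1 : N (algebraMap κ[X] R (X - C c)) = 0 := by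
        ext i j
        rw [hN, AlgHom.commutes, Matrix.algebraMap_matrix_apply]
        split_ifs <;> simp
      rw [h1, zero_mul]
  · intro y
    refine ⟨(Algebra.leftMulMatrix b y).trace, ?_, ?_⟩
    · obtain ⟨h1, -⟩ := t_ZD1 κ g d R hd hR e he y y.2
      rw [← Matrix.trace_transpose]
      apply h1
      intro i
      have h2 : y * b i = ∑ j, (Algebra.leftMulMatrix b y j i) • b j := by
        conv_lhs => rw [← b.sum_repr (y * b i)]
        refine Finset.sum_congr rfl fun j _ => ?_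
        rw [← Algebra.leftMulMatrix_eq_repr_mul]
      have h3 := congrArg (Subtype.val : R → LaurentSeries κ) h2
      rw [← hb i]
      refine h3.trans ?_
      rw [AddSubmonoidClass.coe_finsetSum]
      refine Finset.sum_congr rfl fun j _ => ?_
      rw [← hb j, Matrix.transpose_apply, ← coe_aeval hz]
      rfl
    · rw [Matrix.trace, Matrix.trace, eval_finsetSum]
      exact Finset.sum_congr rfl fun i _ => hN _ _ _

end

section

variable {κ : Type} [Field κ] {d : ℕ}

theorem ld_zz (κ : Type) [Field κ] (d : ℕ) :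
    ld (zz κ d) = zz κ d * HahnSeries.single (-1) (-(d : κ)) := by
  rw [zz, HahnSeries.single_mul_single, one_mul]
  ext m
  rw [ld_coeff, HahnSeries.coeff_single, HahnSeries.coeff_single]
  by_cases h : m + 1 = -(d : ℤ)
  · rw [if_pos h, if_pos (by omega), h]
    push_cast
    ring
  · rw [if_neg h, if_neg (by omega), mul_zero]

theorem zz_sub_ne (hd : d ≠ 0) (c : κ) :
    zz κ d - algebraMap κ (LaurentSeries κ) c ≠ 0 := by
  have h1 : zz κ d - algebraMap κ (LaurentSeries κ) c = ZL.ev d (X - C c) := by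
    rw [map_sub, ZL.ev_X, ZL.ev_C]
  rw [h1]
  intro h2
  have h3 := ZL.ev_injective d hd (h2.trans (map_zero (ZL.ev (A := κ) d)).symm)
  exact X_sub_C_ne_zero c h3

/-- The series `z / (z - c)`. -/
theorem quot_props (hd : d ≠ 0) (c : κ) :
    ∃ B : LaurentSeries κ, B * (zz κ d - algebraMap κ (LaurentSeries κ) c) = zz κ d ∧
      pr0 κ d B = B ∧ B.coeff 0 = 1 := by
  have : NeZero d := ⟨hd⟩
  set s := zz κ d - algebraMap κ (LaurentSeries κ) c with hs
  have h1 : s = ZL.ev d (X - C c) := by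
    rw [map_sub, ZL.ev_X, ZL.ev_C]
  have hs0 : s ≠ 0 := zz_sub_ne hd c
  have hz0 : zz κ d ≠ 0 := by
    have := zz_sub_ne hd (0 : κ)
    rwa [map_zero, sub_zero] at this
  have hv : ZL.pr (0 : ZMod d) (s⁻¹) = s⁻¹ := by
    apply mul_left_cancel₀ hs0
    rw [mul_inv_cancel₀ hs0, h1, ← ZL.pr_ev_mul, ← h1, mul_inv_cancel₀ hs0]
    have := ZL.pr_algebraMap (d := d) (1 : κ)
    rwa [map_one] at this
  have hB : ZL.pr (0 : ZMod d) (zz κ d * s⁻¹) = zz κ d * s⁻¹ := by
    rw [← ZL.ev_X, ZL.pr_ev_mul, hv]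
  refine ⟨zz κ d * s⁻¹, ?_, ?_, ?_⟩
  · rw [mul_assoc, inv_mul_cancel₀ hs0, mul_one]
  · rw [← ZL.pr_zero_eq, hB]
  · set a : PowerSeries κ := 1 - PowerSeries.C c * PowerSeries.X ^ d with ha
    have hca : PowerSeries.constantCoeff a = 1 := by
      rw [ha, map_sub, map_mul, map_pow, PowerSeries.constantCoeff_X, zero_pow hd, mul_zero,
        sub_zero, map_one]
    have hsa : s = zz κ d * psl κ a := by
      rw [ha, map_sub, map_one, map_mul, psl, HahnSeries.ofPowerSeries_X_pow,
        HahnSeries.ofPowerSeries_C, mul_sub, mul_one, hs]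
      congr 1
      rw [zz, mul_left_comm, HahnSeries.single_mul_single, one_mul]
      have : -(d : ℤ) + d = 0 := by omega
      rw [this]
      change _ = _ * (1 : LaurentSeries κ)
      rw [mul_one]
      rfl
    have h2 : zz κ d * s⁻¹ = psl κ a⁻¹ := by
      have h3 : psl κ a * psl κ a⁻¹ = 1 := by
        rw [← map_mul, PowerSeries.mul_inv_cancel _ (by rw [hca]; exact one_ne_zero), map_one]
      rw [← div_eq_mul_inv, div_eq_iff hs0, hsa, mul_left_comm, mul_comm (psl κ a⁻¹), h3, mul_one]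
    rw [h2]
    have h3 : ((0 : ℕ) : ℤ) = 0 := rfl
    rw [← h3, psl, HahnSeries.ofPowerSeries_apply_coeff, PowerSeries.coeff_zero_eq_constantCoeff,
      PowerSeries.constantCoeff_inv, hca, inv_one]

theorem res_formula (hd : d ≠ 0) (y : LaurentSeries κ) (t : κ[X])
    (ht : (d : LaurentSeries κ) * pr0 κ d y = zpol κ d t) (c : κ) :
    (y * ld (zz κ d) / (zz κ d - algebraMap κ (LaurentSeries κ) c)).coeff (-1) =
      - t.eval c := by
  have : NeZero d := ⟨hd⟩
  obtain ⟨B, hB, hB0, hB1⟩ := quot_props hd c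
  set s := zz κ d - algebraMap κ (LaurentSeries κ) c with hs
  have hs0 : s ≠ 0 := zz_sub_ne hd c
  have hz0 : zz κ d ≠ 0 := by
    have := zz_sub_ne hd (0 : κ)
    rwa [map_zero, sub_zero] at this
  have e1 : y * ld (zz κ d) / s = (y * B) * HahnSeries.single (-1) (-(d : κ)) := by
    rw [div_eq_iff hs0, ld_zz]
    conv_lhs => rw [← hB]
    ring
  have e2 : (-1 : ℤ) = 0 + (-1) := by ring
  rw [e1]
  nth_rewrite 2 [e2]
  rw [HahnSeries.coeff_mul_single_add]
  have e3 : (y * B).coeff 0 = (pr0 κ d y * B).coeff 0 := by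
    have h1 : pr0 κ d (y * B) = pr0 κ d y * B := by
      rw [← ZL.pr_zero_eq, mul_comm, ZL.pr_mul_of (i := (0 : ZMod d)) (by rw [ZL.pr_zero_eq, hB0]),
        sub_zero, ZL.pr_zero_eq, mul_comm]
    rw [← h1, pr0_coeff, if_pos (dvd_zero _)]
  have e4 : (d : κ) * (pr0 κ d y * B).coeff 0 = (zpol κ d t * B).coeff 0 := by
    rw [← ht, mul_assoc, ← ZL.algebraMap_mul_coeff, map_natCast]
  obtain ⟨q, hq⟩ : ∃ q, t = C (t.eval c) + (X - C c) * q := by
    refine ⟨t /ₘ (X - C c), ?_⟩
    rw [← modByMonic_X_sub_C_eq_C_eval, modByMonic_add_div]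
  have e5 : zpol κ d t * B = algebraMap κ (LaurentSeries κ) (t.eval c) * B +
      zpol κ d (q * X) := by
    have h1 : zpol κ d t = algebraMap κ (LaurentSeries κ) (t.eval c) + s * zpol κ d q := by
      conv_lhs => rw [hq]
      rw [map_add, map_mul, map_sub]
      change ZL.ev d _ + (ZL.ev d X - ZL.ev d _) * _ = _
      rw [ZL.ev_C, ZL.ev_X, ZL.ev_C]
    rw [h1, add_mul, map_mul]
    congr 1
    change _ = _ * ZL.ev d X
    rw [ZL.ev_X, ← hB]
    ring
  have e6 : (zpol κ d (q * X)).coeff 0 = 0 := by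
    have h1 := ZL.ev_coeff d hd (q * X) 0
    rw [mul_zero, Nat.cast_zero, neg_zero, mul_coeff_zero, coeff_X_zero, mul_zero] at h1
    exact h1
  rw [e3, mul_neg, mul_comm, e4, e5, HahnSeries.coeff_add, ZL.algebraMap_mul_coeff, hB1, e6,
    mul_one, add_zero]

end

section

variable {κ A : Type} [Field κ] [IsAlgClosed κ] [CommRing A] [IsDomain A] [Algebra κ A]
  [Algebra.FinitePresentation κ A]

theorem smoothAt (M : Ideal A) [hM : M.IsMaximal] (hM0 : M ≠ ⊥)
    (H : ∃ a ∈ M, ∃ u ∉ M, ∀ m ∈ M, ∃ r, u * m = a * r) : Algebra.IsSmoothAt κ M := by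
  have : Algebra.FiniteType κ A := Algebra.FiniteType.of_finitePresentation
  obtain ⟨a, ha, u, hu, hau⟩ := H
  have ha0 : a ≠ 0 := by
    rintro rfl
    apply hM0
    rw [eq_bot_iff]
    intro m hm
    obtain ⟨r, hr⟩ := hau m hm
    rw [zero_mul] at hr
    rcases mul_eq_zero.1 hr with h | h
    · exact absurd (h ▸ zero_mem M) hu
    · exact h
  let _ : Algebra κ[X] A := (aeval a : κ[X] →ₐ[κ] A).toRingHom.toAlgebra
  have hst : IsScalarTower κ κ[X] A := IsScalarTower.of_algebraMap_eq' (by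
    ext a'
    change algebraMap κ A a' = aeval a (C a')
    simp)
  have hX : algebraMap κ[X] A X = a := by
    change aeval a X = a
    simp
  have hinj : Function.Injective (algebraMap κ[X] A) := by
    rw [injective_iff_map_eq_zero]
    intro p hp
    by_contra hp0
    have halg : IsAlgebraic κ a := ⟨p, hp0, hp⟩
    obtain ⟨c, hc⟩ := Two.exists_algebraMap_eq_of_isAlgebraic a halg
    have h1 : algebraMap κ A (c - 0) ∈ M := by
      rw [sub_zero, hc]
      exact ha
    have h2 := Two.eq_of_algebraMap_sub_mem M h1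
    apply ha0
    rw [← hc, h2, map_zero]
  have h0 : algebraMap κ[X] A (X - C 0) = a := by
    rw [C_0, sub_zero, hX]
  have hgen : (Ideal.span {algebraMap κ[X] A (X - C 0)}).map
      (algebraMap A (Localization.AtPrime M)) = IsLocalRing.maximalIdeal _ := by
    rw [h0, ← Localization.AtPrime.map_eq_maximalIdeal]
    apply le_antisymm
    · apply Ideal.map_mono
      rw [Ideal.span_singleton_le_iff_mem]
      exact ha
    · rw [Ideal.map_le_iff_le_comap]
      intro m hm
      rw [Ideal.mem_comap]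
      obtain ⟨r, hr⟩ := hau m hm
      have hunit : IsUnit (algebraMap A (Localization.AtPrime M) u) :=
        IsLocalization.map_units (Localization.AtPrime M) (⟨u, hu⟩ : M.primeCompl)
      rw [← Ideal.unit_mul_mem_iff_mem _ hunit, ← map_mul, hr, map_mul]
      exact Ideal.mul_mem_right _ _ (Ideal.mem_map_of_mem _ (Ideal.mem_span_singleton_self a))
  have h1 : Algebra.IsEtaleAt κ[X] M := Two.isEtaleAt hinj M 0 (by rw [h0]; exact ha) hgen
  exact Algebra.FormallySmooth.comp κ κ[X] (Localization.AtPrime M)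

theorem smooth_of_loc (hM0 : ∀ M : Ideal A, M.IsMaximal → M ≠ ⊥)
    (H : ∀ M : Ideal A, M.IsMaximal → ∃ a ∈ M, ∃ u ∉ M, ∀ m ∈ M, ∃ r, u * m = a * r) :
    Algebra.FormallySmooth κ A := by
  rw [← Algebra.smoothLocus_eq_univ_iff, Set.eq_univ_iff_forall]
  intro p
  obtain ⟨M, hM, hpM⟩ := Ideal.exists_le_maximal p.asIdeal p.isPrime.ne_top
  have h1 : (⟨M, hM.isPrime⟩ : PrimeSpectrum A) ∈ Algebra.smoothLocus κ A :=
    smoothAt M (hM0 M hM) (H M hM)
  have h2 : p ⤳ (⟨M, hM.isPrime⟩ : PrimeSpectrum A) :=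
    (PrimeSpectrum.le_iff_specializes _ _).1 hpM
  exact h2.mem_open Algebra.isOpen_smoothLocus h1

end

section

variable {κ A : Type} [Field κ] [CommRing A] [IsDomain A] [Algebra κ[X] A]

theorem exists_sep {d : ℕ} (hd : ((d.factorial : ℕ) : κ) ≠ 0) (y : A)
    (hdeg : ∃ p : κ[X][X], p.Monic ∧ p.natDegree ≤ d ∧ aeval y p = 0) :
    ∃ p : κ[X][X], aeval y p = 0 ∧ aeval y (derivative p) ≠ 0 := by
  classical
  let Q : ℕ → Prop := fun n => ∃ p : κ[X][X], p.Monic ∧ p.natDegree = n ∧ aeval y p = 0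
  have hQ : ∃ n, Q n := by
    obtain ⟨p, h1, -, h3⟩ := hdeg
    exact ⟨_, p, h1, rfl, h3⟩
  obtain ⟨p, hp, hpn, hp0⟩ := Nat.find_spec hQ
  have hnd : Nat.find hQ ≤ d := by
    obtain ⟨p, h1, h2, h3⟩ := hdeg
    exact (Nat.find_min' hQ ⟨p, h1, rfl, h3⟩).trans h2
  set n := Nat.find hQ with hn
  have hn0 : n ≠ 0 := by
    intro h0
    have h1 := hp.natDegree_eq_zero.1 (hpn.trans h0)
    rw [h1, map_one] at hp0
    exact one_ne_zero hp0
  have hnκ : (n : κ) ≠ 0 := by
    intro h0
    obtain ⟨k, hk⟩ := Nat.dvd_factorial (Nat.pos_of_ne_zero hn0) hnd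
    apply hd
    rw [hk, Nat.cast_mul, h0, zero_mul]
  refine ⟨p, hp0, fun h0 => ?_⟩
  have hlt : (derivative p).natDegree ≤ n - 1 := by
    rw [← hpn]
    exact natDegree_derivative_le p
  have hc : (derivative p).coeff (n - 1) = C (n : κ) := by
    rw [coeff_derivative, Nat.sub_add_cancel (Nat.pos_of_ne_zero hn0), ← hpn,
      hp.coeff_natDegree, one_mul, hpn]
    have h2 : ((n - 1 : ℕ) : κ[X]) + 1 = ((n - 1 + 1 : ℕ) : κ[X]) := by push_cast; ring
    rw [h2, Nat.sub_add_cancel (Nat.pos_of_ne_zero hn0)]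
    simp
  have hq : Q (n - 1) := by
    refine ⟨C (C (n : κ)⁻¹) * derivative p, ?_, ?_, ?_⟩
    · apply monic_of_natDegree_le_of_coeff_eq_one (n - 1)
      · exact (natDegree_C_mul_le _ _).trans hlt
      · rw [coeff_C_mul, hc, ← C_mul, inv_mul_cancel₀ hnκ, C_1]
    · apply le_antisymm ((natDegree_C_mul_le _ _).trans hlt)
      apply le_natDegree_of_ne_zero
      rw [coeff_C_mul, hc, ← C_mul, inv_mul_cancel₀ hnκ, C_1]
      exact one_ne_zero
    · rw [map_mul, h0, mul_zero]
  have := Nat.find_min' hQ hq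
  omega

theorem unram_of [hfin : Module.Finite κ[X] A]
    (H : ∀ y : A, ∃ p : κ[X][X], aeval y p = 0 ∧ aeval y (derivative p) ≠ 0) :
    ∃ F : κ[X], F.Monic ∧
      ((algebraMap A (Localization.Away (algebraMap κ[X] A F))).comp
        (algebraMap κ[X] A)).FormallyUnramified := by
  classical
  obtain ⟨s, hs⟩ := hfin.1
  choose p hp0 hp1 using H
  set P : A := ∏ y ∈ s, aeval y (derivative (p y)) with hP
  have hP0 : P ≠ 0 := Finset.prod_ne_zero_iff.2 fun y _ => hp1 y
  have hint : IsIntegral κ[X] P := Algebra.IsIntegral.isIntegral P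
  have h1 : (Ideal.span {P}).comap (algebraMap κ[X] A) ≠ ⊥ :=
    Ideal.comap_ne_bot_of_integral_mem hP0 (Ideal.mem_span_singleton_self P) hint
  obtain ⟨F, hF, hF0⟩ := Submodule.exists_mem_ne_zero_of_ne_bot h1
  refine ⟨F * C F.leadingCoeff⁻¹, monic_mul_leadingCoeff_inv hF0, ?_⟩
  set G := F * C F.leadingCoeff⁻¹ with hG
  have hGP : P ∣ algebraMap κ[X] A G := by
    rw [← Ideal.mem_span_singleton]
    exact Ideal.mul_mem_right _ _ hF
  rw [← IsScalarTower.algebraMap_eq κ[X] A (Localization.Away (algebraMap κ[X] A G)),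
    RingHom.formallyUnramified_algebraMap]
  set S := Localization.Away (algebraMap κ[X] A G) with hS
  have hGu : IsUnit (algebraMap A S (algebraMap κ[X] A G)) :=
    IsLocalization.Away.algebraMap_isUnit _
  have hD : ∀ y ∈ s, KaehlerDifferential.D κ[X] S (algebraMap A S y) = 0 := by
    intro y hy
    have h2 := congrArg (KaehlerDifferential.D κ[X] S)
      ((aeval_algebraMap_apply S y (p y)).trans ((congrArg _ (hp0 y)).trans (map_zero _)))
    rw [Derivation.map_aeval, map_zero, aeval_algebraMap_apply] at h2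
    have h3 : IsUnit (algebraMap A S (aeval y (derivative (p y)))) := by
      refine isUnit_of_dvd_unit ?_ hGu
      exact map_dvd _ ((Finset.dvd_prod_of_mem _ hy).trans hGP)
    exact (h3.smul_eq_zero).1 h2
  have hD2 : ∀ a : A, KaehlerDifferential.D κ[X] S (algebraMap A S a) = 0 := by
    intro a
    have h2 : a ∈ Submodule.span κ[X] (s : Set A) := by
      rw [hs]
      trivial
    induction h2 using Submodule.span_induction with
    | mem x hx => exact hD x hx
    | zero => rw [map_zero, map_zero]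
    | add x y _ _ hx hy => rw [map_add, map_add, hx, hy, add_zero]
    | smul r x _ hx =>
      have h5 : algebraMap A S (r • x) = r • algebraMap A S x :=
        map_smul (IsScalarTower.toAlgHom κ[X] A S) r x
      rw [h5, Derivation.map_smul, hx, smul_zero]
  have hD3 : ∀ x : S, KaehlerDifferential.D κ[X] S x = 0 := by
    intro x
    obtain ⟨n, a, ha⟩ := IsLocalization.Away.surj (algebraMap κ[X] A G) x
    have h2 := congrArg (KaehlerDifferential.D κ[X] S) ha
    rw [hD2, Derivation.leibniz, ← map_pow, hD2, smul_zero, zero_add, map_pow] at h2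
    exact ((hGu.pow n).smul_eq_zero).1 h2
  rw [Algebra.formallyUnramified_iff]
  have h2 : (⊤ : Submodule S (Ω[S⁄κ[X]])) = ⊥ := by
    rw [← KaehlerDifferential.span_range_derivation, Submodule.span_eq_bot]
    rintro _ ⟨x, rfl⟩
    exact hD3 x
  exact (Submodule.subsingleton_iff S).1 (subsingleton_of_bot_eq_top h2.symm)

end

section

variable {κ : Type} [Field κ] {g d : ℕ} {R : Subalgebra κ (LaurentSeries κ)}

theorem exists_charpoly (hz : zz κ d ∈ R) {e : Fin d → LaurentSeries κ} (he : ZBas d R e)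
    (y : R) : ∃ p : κ[X][X], p.Monic ∧ p.natDegree ≤ d ∧
      eval₂ (aeval (R := κ) (zR hz)).toRingHom y p = 0 := by
  let _ := alg hz
  obtain ⟨b, -⟩ := exists_basis hz he
  refine ⟨(Algebra.leftMulMatrix b y).charpoly, Matrix.charpoly_monic _, ?_, ?_⟩
  · rw [Matrix.charpoly_natDegree_eq_dim, Fintype.card_fin]
  · have h1 : aeval y (Algebra.leftMulMatrix b y).charpoly = 0 := by
      apply Algebra.leftMulMatrix_injective b
      rw [map_zero, ← aeval_algHom_apply, Matrix.aeval_self_charpoly]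
    exact h1

/-- The two forms of the ring. -/
noncomputable def unoE (R : Subalgebra κ (LaurentSeries κ)) : uno R ≃ₐ[κ] R where
  toFun f := ⟨f.1 (), f.2⟩
  invFun f := ⟨fun _ => f.1, f.2⟩
  left_inv _ := rfl
  right_inv _ := rfl
  map_mul' _ _ := rfl
  map_add' _ _ := rfl
  commutes' _ := rfl

theorem locPrincipal [IsAlgClosed κ] (hPDP : Stmt_PDP) {f : κ[X]} (hd : 1 ≤ d)
    (hfac : ((d.factorial : ℕ) : κ) ≠ 0) (hR : Kr g R) (hz : zz κ d ∈ R) (hK : Kil d R f)
    (hf : f.Separable) [Algebra.FiniteType κ R] {e : Fin d → LaurentSeries κ} (he : ZBas d R e)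
    (M : Ideal R) (hM : M.IsMaximal) :
    M ≠ ⊥ ∧ ∃ a ∈ M, ∃ u ∉ M, ∀ m ∈ M, ∃ r, u * m = a * r := by
  obtain ⟨c, hc⟩ := Two.exists_sub_mem (k := κ) M (zR hz)
  obtain ⟨h, hhc, hKh⟩ : ∃ h : κ[X], h.eval c ≠ 0 ∧ Kil d R ((X - C c) * h) := by
    by_cases h0 : f.eval c = 0
    · obtain ⟨h, rfl⟩ := dvd_iff_isRoot.2 h0
      refine ⟨h, fun h1 => ?_, hK⟩
      obtain ⟨h', rfl⟩ := dvd_iff_isRoot.2 h1
      have h2 := hf.squarefree (X - C c) ⟨h', by ring⟩
      exact (irreducible_X_sub_C c).not_isUnit h2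
    · refine ⟨f, h0, fun x hx => ?_⟩
      obtain ⟨y, hy, hxy⟩ := hK x hx
      refine ⟨(zz κ d - algebraMap κ _ c) * y, mul_mem (sub_mem hz (R.algebraMap_mem c)) hy, ?_⟩
      rw [map_mul, mul_assoc, hxy, mul_assoc]
      congr 1
      change ZL.ev d (X - C c) = _
      rw [map_sub, ZL.ev_X, ZL.ev_C]
  have hd0 : d ≠ 0 := by omega
  obtain ⟨N, hN, hNt⟩ := exists_N (by omega) hR hz he c
  have hs : zR hz - algebraMap κ R c ≠ 0 := by
    intro h0
    exact zz_sub_ne hd0 c (congrArg Subtype.val h0)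
  refine ⟨?_, ?_⟩
  · rintro rfl
    exact hs hc
  · refine heart R (fun x => x.coeff (-1)) (zR hz) (ld (zz κ d)) h c hhc hfac N hN hs ?_ ?_ ?_ M hc
    · intro y
      obtain ⟨t, ht, htr⟩ := hNt y
      have e1 : ((zR hz - algebraMap κ R c : R) : LaurentSeries κ) =
        zz κ d - algebraMap κ (LaurentSeries κ) c := rfl
      have e2 := res_formula hd0 (y : LaurentSeries κ) t ht c
      rw [htr, e1]
      exact e2
    · intro x hx
      have hR' : IsKr g (uno R) := hR
      have h1 : (fun _ : Unit => x) ∈ uno R := by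
        apply hPDP hR'
        intro η hη
        rw [res_unit]
        apply hx (η ())
        intro p hp
        have h2 : res (η * fun _ : Unit => p) = 0 := hη (fun _ => p) hp
        rw [res_unit] at h2
        exact h2
      exact h1
    · exact hKh

end

end KIS

open KIS in
theorem t_KIS (hKFG : Stmt_KFG) (hSKK : Stmt_SKK) (_hSCO : Stmt_SCO) (hPDP : Stmt_PDP) :
    Stmt_KIS := by
  intro κ _ _ g d R f hd hfac hR hz hK hf
  have hdκ : (d : κ) ≠ 0 := by
    intro h0
    obtain ⟨k, hk⟩ := Nat.dvd_factorial hd le_rfl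
    apply hfac
    rw [hk, Nat.cast_mul, h0, zero_mul]
  obtain ⟨⟨_, -, e, -, he, -⟩, -, -⟩ := t_ZD2 κ g d R hd hdκ hR hz
  obtain ⟨hfp, hfg⟩ := hKFG hR
  obtain ⟨n0, hn0⟩ := KNZ.exists_dense hR
  have hfp' : Algebra.FinitePresentation κ R := Algebra.FinitePresentation.equiv (unoE R)
  have hft : Algebra.FiniteType κ R := Algebra.FiniteType.of_finitePresentation
  have hloc := locPrincipal hPDP hd hfac hR hz hK hf he
  have hsm : Algebra.FormallySmooth κ R :=
    smooth_of_loc (fun M hM => (hloc M hM).1) (fun M hM => (hloc M hM).2)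
  have hsm' : Algebra.FormallySmooth κ (uno R) :=
    Algebra.FormallySmooth.of_equiv (unoE R).symm
  refine ⟨hsm', ?_⟩
  let z : uno R := (unoE R).symm (zR hz)
  have hzm : Mon d (z : KK Unit κ) := by
    refine ⟨?_, fun i => ?_⟩
    · intro i m hm
      change (zz κ d).coeff m = 0
      rw [zz, HahnSeries.coeff_single_of_ne (by omega)]
    · change (zz κ d).coeff _ = 1
      rw [zz, HahnSeries.coeff_single_same]
  have hdom : IsDomain (uno R) := (unoE R).toMulEquiv.isDomain R
  obtain ⟨-, -, hfin, -, -⟩ := hfg n0 d z hn0 (by exact_mod_cast hd) hzm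
  let _ : Algebra κ[X] (uno R) := (aeval (R := κ) z).toRingHom.toAlgebra
  have hfin' : Module.Finite κ[X] (uno R) := hfin
  obtain ⟨F, hF, hU⟩ := unram_of (κ := κ) (A := uno R) fun y => by
    apply exists_sep hfac
    obtain ⟨p, hp1, hp2, hp3⟩ := exists_charpoly hz he (unoE R y)
    refine ⟨p, hp1, hp2, ?_⟩
    have h1 := congrArg (unoE R).symm hp3
    rw [map_zero] at h1
    rw [← h1]
    have h2 := hom_eval₂ p (aeval (R := κ) (zR hz)).toRingHom
      ((unoE R).symm : R →+* uno R) (unoE R y)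
    refine Eq.trans ?_ h2.symm
    have h3 : ((unoE R).symm : R →+* uno R).comp (aeval (R := κ) (zR hz)).toRingHom =
        (aeval (R := κ) z).toRingHom := by
      refine ringHom_ext (fun x => ?_) ?_
      · change (unoE R).symm (aeval (zR hz) (C x)) = aeval z (C x)
        rw [aeval_C, aeval_C, AlgEquiv.commutes]
      · change (unoE R).symm (aeval (zR hz) X) = aeval z X
        rw [aeval_X, aeval_X]
    rw [h3]
    rfl
  exact t_SCR hKFG hSKK hR hsm' d z (by exact_mod_cast hd) hzm F hF hU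

end Pool.Agent.MG.G0
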