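import Pool.Agent.MG.G0.StmtsU
import Pool.Agent.MG.G0.ZL.L3

/-!
# KRK: corank two at a double root of the discriminant
-/

open Polynomial

namespace Pool.Agent.MG.G0

namespace KRK

open ZL

/-! ## Linear algebra -/

/-- The adjugate of a matrix of corank two is zero. -/
theorem adj_zero {κ : Type} [Field κ] {d : ℕ} (hd : 2 ≤ d) (M : Matrix (Fin d) (Fin d) κ)
    (hr : M.rank = d - 2) : M.adjugate = 0 := by
  ext i j
  rw [Matrix.adjugate_apply, Matrix.zero_apply]
  by_contra hne
  have h1 := Matrix.linearIndependent_rows_of_det_ne_zero hne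
  let v : {k : Fin d // k ≠ j} → (Fin d → κ) := fun k => M k.1
  have h2 : LinearIndependent κ v := by
    have h3 := h1.comp (fun k : {k : Fin d // k ≠ j} => k.1) Subtype.val_injective
    have h4 : ((fun i' => (M.updateRow j (Pi.single i 1)) i') ∘
        fun k : {k : Fin d // k ≠ j} => k.1) = v := by
      funext k
      exact Matrix.updateRow_ne k.2
    rwa [h4] at h3
  have h5 := finrank_span_eq_card h2
  have h6 : Submodule.span κ (Set.range v) ≤ Submodule.span κ (Set.range M.row) := by
    apply Submodule.span_mono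
    rintro _ ⟨k, rfl⟩
    exact ⟨k.1, rfl⟩
  have h7 := Submodule.finrank_mono h6
  rw [← Matrix.rank_eq_finrank_span_row, hr, h5] at h7
  have h8 : Fintype.card {k : Fin d // k ≠ j} = d - 1 := by
    rw [Fintype.card_subtype_compl, Fintype.card_fin, Fintype.card_subtype_eq]
  omega

/-- The matrix `H` with `H G = u (X - c) h`. -/
theorem exists_H {κ : Type} [Field κ] {d : ℕ} (hd : 2 ≤ d)
    (G : Matrix (Fin d) (Fin d) κ[X]) (c : κ) (hr : (G.map (Polynomial.eval c)).rank = d - 2)
    {w h : κ[X]} (hdet : G.det = w * ((X - C c) ^ 2 * h)) :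
    ∃ H : Matrix (Fin d) (Fin d) κ[X], H * G = (w * ((X - C c) * h)) • (1 : Matrix _ _ _) := by
  have h1 : ∀ i j, (X - C c) ∣ G.adjugate i j := by
    intro i j
    rw [dvd_iff_isRoot]
    have h2 := RingHom.map_adjugate (evalRingHom c) G
    have h3 : (evalRingHom c).mapMatrix G = G.map (Polynomial.eval c) := rfl
    rw [h3, adj_zero hd _ hr] at h2
    exact congrFun (congrFun h2 i) j
  choose H hH using h1
  refine ⟨Matrix.of H, ?_⟩
  have h4 : G.adjugate = (X - C c) • Matrix.of H := by
    ext1 i j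
    rw [Matrix.smul_apply, Matrix.of_apply, smul_eq_mul, hH]
  have h5 := Matrix.adjugate_mul G
  rw [h4, hdet, Matrix.smul_mul] at h5
  ext1 i j
  have h6 := congrFun (congrFun h5 i) j
  rw [Matrix.smul_apply, Matrix.smul_apply, smul_eq_mul, smul_eq_mul] at h6
  rw [Matrix.smul_apply, smul_eq_mul]
  apply mul_left_cancel₀ (X_sub_C_ne_zero c)
  rw [h6]
  ring

/-! ## Laurent series -/

section

variable {A : Type} [CommRing A]

theorem zpol_inj {d : ℕ} (hd : d ≠ 0) {p q : A[X]} (h : zpol A d p = zpol A d q) : p = q :=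
  ev_injective d hd h

/-- A series without coefficients at `τ^d, τ^(2d), ...` has a polynomial part `pr0`. -/
theorem pr0_poly {d : ℕ} (hd : 0 < d) (F : LaurentSeries A)
    (hF : ∀ k : ℕ, F.coeff ((d : ℤ) * (k + 1)) = 0) : ∃ q : A[X], pr0 A d F = zpol A d q := by
  obtain ⟨n, hn⟩ := exists_low F
  let q : A[X] := ∑ k ∈ Finset.range (n + 1), monomial k (F.coeff (-((d * k : ℕ) : ℤ)))
  have hq : ∀ k, q.coeff k = F.coeff (-((d * k : ℕ) : ℤ)) := by
    intro k
    change (∑ k ∈ Finset.range (n + 1), monomial k (F.coeff (-((d * k : ℕ) : ℤ)))).coeff k = _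
    rw [finsetSum_coeff]
    simp only [coeff_monomial]
    rw [Finset.sum_ite_eq']
    split_ifs with h
    · rfl
    · rw [Finset.mem_range, not_lt] at h
      symm
      apply hn
      have h1 : k ≤ d * k := Nat.le_mul_of_pos_left _ hd
      omega
  refine ⟨q, ?_⟩
  ext m
  rw [pr0_coeff]
  by_cases hk : ∃ k : ℕ, m = -((d * k : ℕ) : ℤ)
  · obtain ⟨k, rfl⟩ := hk
    have h1 : (zpol A d q).coeff (-((d * k : ℕ) : ℤ)) = q.coeff k := ev_coeff d hd.ne' q k
    rw [h1, hq, if_pos]
    rw [dvd_neg]
    push_cast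
    exact dvd_mul_right _ _
  · push Not at hk
    have h1 : (zpol A d q).coeff m = 0 := ev_coeff_ne d q m hk
    rw [h1]
    split_ifs with h
    · obtain ⟨l, rfl⟩ := h
      by_cases hl : 0 < l
      · obtain ⟨k, rfl⟩ : ∃ k : ℕ, l = k + 1 := ⟨(l - 1).toNat, by omega⟩
        exact hF k
      · exfalso
        apply hk (-l).toNat
        push_cast
        rw [Int.toNat_of_nonneg (by omega)]
        ring
    · rfl

end

section

variable {κ : Type} [Field κ] {g d : ℕ} {R : Subalgebra κ (LaurentSeries κ)}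

theorem zpol_mem (hz : zz κ d ∈ R) (p : κ[X]) : zpol κ d p ∈ R := by
  rw [zpol, aeval_eq_sum_range]
  exact Subalgebra.sum_mem _ fun i _ => R.smul_mem (pow_mem hz i) _

/-- The form `pr₀(x y)` is nondegenerate. -/
theorem nondeg (hd : 0 < d) (hR : Kr g R) {e : Fin d → LaurentSeries κ} (hb : ZBas d R e)
    {w : LaurentSeries κ} (hw : ∀ k, pr0 κ d (w * e k) = 0) : w = 0 := by
  have h1 : ∀ r ∈ R, pr0 κ d (w * r) = 0 := by
    intro r hr
    obtain ⟨c, hc, -⟩ := hb.uni r hr
    rw [hc, Finset.mul_sum, map_sum]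
    refine Finset.sum_eq_zero fun i _ => ?_
    rw [mul_left_comm, pr0_zpol_mul, hw, mul_zero]
  by_contra hne
  obtain ⟨N, hN⟩ := kr_monic hR
  have hdz : (0 : ℤ) < d := by exact_mod_cast hd
  have hm0 : 0 ≤ w.order % (d : ℤ) := Int.emod_nonneg _ hdz.ne'
  obtain ⟨p, hp, hp1, hp2⟩ := hN ((w.order % (d : ℤ)).toNat + d * (N + 1)) (by
    have : N + 1 ≤ d * (N + 1) := Nat.le_mul_of_pos_left _ hd
    omega)
  have hk : (((w.order % (d : ℤ)).toNat + d * (N + 1) : ℕ) : ℤ) =
      w.order % (d : ℤ) + d * (N + 1) := by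
    push_cast
    rw [Int.toNat_of_nonneg hm0]
  rw [hk] at hp1 hp2
  have h2 := mul_lead (f := w) (g := p) (a := w.order)
    (b := -(w.order % (d : ℤ) + d * (N + 1))) (fun m hm =>
      HahnSeries.coeff_eq_zero_of_lt_order hm) (fun m hm => hp1 m hm)
  rw [hp2, mul_one] at h2
  have h3 := congrArg (fun F => F.coeff (w.order + -(w.order % (d : ℤ) + d * (N + 1)))) (h1 p hp)
  rw [pr0_coeff, HahnSeries.coeff_zero, if_pos, h2] at h3
  · exact HahnSeries.coeff_order_eq_zero.not.2 hne h3
  · refine ⟨w.order / (d : ℤ) - (N + 1), ?_⟩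
    have h4 := Int.emod_add_mul_ediv w.order (d : ℤ)
    linear_combination -h4

/-- Change of the basis. -/
theorem det_change (hd : 0 < d) {e e' : Fin d → LaurentSeries κ}
    {G G' : Matrix (Fin d) (Fin d) κ[X]} (hb : ZBas d R e) (hG : ZGram d e G)
    (hb' : ZBas d R e') (hG' : ZGram d e' G') :
    ∃ u : κ[X], IsUnit u ∧ G'.det = u * G.det := by
  classical
  choose U hU hU' using fun i => hb.uni (e' i) (hb'.mem i)
  choose V hV hV' using fun i => hb'.uni (e i) (hb.mem i)
  let MU : Matrix (Fin d) (Fin d) κ[X] := Matrix.of U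
  let MV : Matrix (Fin d) (Fin d) κ[X] := Matrix.of V
  have h1 : MV * MU = 1 := by
    have h2 : ∀ j, (fun l => (MV * MU) j l) = fun l => (1 : Matrix (Fin d) (Fin d) κ[X]) j l := by
      intro j
      apply (hb.uni (e j) (hb.mem j)).unique
      · calc e j = ∑ k, zpol κ d (V j k) * e' k := hV j
          _ = ∑ k, ∑ l, zpol κ d (V j k * U k l) * e l := by
              refine Finset.sum_congr rfl fun k _ => ?_
              nth_rewrite 1 [hU k]
              rw [Finset.mul_sum]
              refine Finset.sum_congr rfl fun l _ => ?_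
              rw [map_mul, mul_assoc]
          _ = ∑ l, zpol κ d ((MV * MU) j l) * e l := by
              rw [Finset.sum_comm]
              refine Finset.sum_congr rfl fun l _ => ?_
              rw [Matrix.mul_apply, map_sum, Finset.sum_mul]
              rfl
      · have h3 : ∀ l, zpol κ d ((1 : Matrix (Fin d) (Fin d) κ[X]) j l) * e l =
            if j = l then e l else 0 := by
          intro l
          rw [Matrix.one_apply]
          split_ifs
          · rw [map_one, one_mul]
          · rw [map_zero, zero_mul]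
        simp only [h3]
        rw [Finset.sum_ite_eq, if_pos (Finset.mem_univ _)]
    ext1 i j
    exact congrFun (h2 i) j
  have h4 : G' = MU * G * MU.transpose := by
    ext1 i j
    apply zpol_inj hd.ne'
    rw [hG' i j]
    calc pr0 κ d (e' i * e' j)
        = pr0 κ d (∑ l, zpol κ d (U j l) * ∑ k, zpol κ d (U i k) * (e k * e l)) := by
          congr 1
          nth_rewrite 1 [hU i]
          nth_rewrite 1 [hU j]
          rw [Finset.mul_sum]
          refine Finset.sum_congr rfl fun l _ => ?_
          rw [Finset.sum_mul, Finset.mul_sum]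
          refine Finset.sum_congr rfl fun k _ => ?_
          ring
      _ = ∑ l, zpol κ d (U j l) * ∑ k, zpol κ d (U i k) * zpol κ d (G k l) := by
          rw [map_sum]
          refine Finset.sum_congr rfl fun l _ => ?_
          rw [pr0_zpol_mul, map_sum]
          congr 1
          refine Finset.sum_congr rfl fun k _ => ?_
          rw [pr0_zpol_mul, hG k l]
      _ = zpol κ d ((MU * G * MU.transpose) i j) := by
          rw [Matrix.mul_apply, map_sum]
          refine Finset.sum_congr rfl fun l _ => ?_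
          rw [Matrix.mul_apply, map_mul, map_sum, mul_comm]
          congr 1
          refine Finset.sum_congr rfl fun k _ => ?_
          rw [map_mul]
          rfl
  refine ⟨MU.det * MU.det, ?_, ?_⟩
  · have h5 : IsUnit MU.det := by
      have h6 := congrArg Matrix.det h1
      rw [Matrix.det_mul, Matrix.det_one] at h6
      exact IsUnit.of_mul_eq_one_right _ h6
    exact h5.mul h5
  · rw [h4, Matrix.det_mul, Matrix.det_mul, Matrix.det_transpose]
    ring

end

end KRK

open KRK ZL in
theorem t_KRK : Stmt_KRK := by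
  intro κ _ g d R f h c hd hdκ hR hz hDisc hf hGRk x hx
  have hd0 : 0 < d := by omega
  obtain ⟨e0, G0, hb0, hG0, u0, hu0, hdet0⟩ := hDisc
  obtain ⟨e, G, hb, hG, hrk⟩ := hGRk
  obtain ⟨u1, hu1, hdet1⟩ := det_change hd0 hb0 hG0 hb hG
  have hdet : G.det = (u1 * u0) * ((X - C c) ^ 2 * h) := by
    rw [hdet1, hdet0, hf, mul_assoc]
  obtain ⟨H, hH⟩ := exists_H hd G c hrk hdet
  obtain ⟨v, hv⟩ := (hu1.mul hu0).exists_left_inv
  -- division by `dz`
  let x' : LaurentSeries κ := (-(d : κ))⁻¹ • (HahnSeries.single ((d : ℤ) + 1) 1 * x)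
  have hdn : (-(d : κ)) ≠ 0 := neg_ne_zero.2 hdκ
  have hxx : x = x' * ld (zz κ d) := by
    ext m
    have h1 : ld (zz κ d) = (-(d : κ)) • HahnSeries.single (-(d : ℤ) - 1) 1 := by
      ext k
      rw [ld_coeff, zz, HahnSeries.coeff_smul, HahnSeries.coeff_single, HahnSeries.coeff_single,
        smul_eq_mul]
      by_cases hk : k + 1 = -(d : ℤ)
      · rw [if_pos hk, if_pos (by omega), hk]
        push_cast
        ring
      · rw [if_neg hk, if_neg (by omega), mul_zero, mul_zero]
    rw [h1]
    change x.coeff m = (((-(d : κ))⁻¹ • (HahnSeries.single ((d : ℤ) + 1) 1 * x)) *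
      ((-(d : κ)) • HahnSeries.single (-(d : ℤ) - 1) 1)).coeff m
    rw [smul_mul_smul_comm, inv_mul_cancel₀ hdn, one_smul, mul_comm, ← mul_assoc,
      HahnSeries.single_mul_single]
    have h2 : (-(d : ℤ) - 1) + ((d : ℤ) + 1) = 0 := by ring
    rw [h2, HahnSeries.coeff_single_mul, sub_zero, one_mul, one_mul]
  have hq : ∀ k, ∃ q : κ[X], pr0 κ d (x' * e k) = zpol κ d q := by
    intro k
    refine pr0_poly hd0 _ fun n => ?_
    have h1 := hx (zz κ d ^ n * e k) (mul_mem (pow_mem hz n) (hb.mem k))
    change ((-(d : κ))⁻¹ • (HahnSeries.single ((d : ℤ) + 1) 1 * x) * e k).coeff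
      ((d : ℤ) * (n + 1)) = 0
    rw [smul_mul_assoc, HahnSeries.coeff_smul, mul_assoc, HahnSeries.coeff_single_mul, one_mul]
    have h2 : (x * (zz κ d ^ n * e k)).coeff (-1) = (x * e k).coeff ((d : ℤ) * n - 1) := by
      rw [mul_left_comm, zz_pow, HahnSeries.coeff_single_mul, one_mul]
      congr 1
      push_cast
      ring
    rw [h2] at h1
    have h3 : (d : ℤ) * (n + 1) - ((d : ℤ) + 1) = (d : ℤ) * n - 1 := by ring
    rw [h3, h1, smul_zero]
  choose q hq using hq
  let b : Fin d → κ[X] := fun i => v * ∑ j, q j * H j i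
  have hbG : ∀ k, ∑ i, b i * G i k = ((X - C c) * h) * q k := by
    intro k
    have h1 : ∀ j, ∑ i, H j i * G i k =
        if j = k then (u1 * u0) * ((X - C c) * h) else 0 := by
      intro j
      have h2 := congrFun (congrFun hH j) k
      rw [Matrix.mul_apply, Matrix.smul_apply, Matrix.one_apply, smul_eq_mul, mul_ite, mul_one,
        mul_zero] at h2
      exact h2
    calc ∑ i, b i * G i k = v * ∑ j, q j * ∑ i, H j i * G i k := by
          rw [Finset.mul_sum]
          simp only [Finset.mul_sum]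
          rw [Finset.sum_comm]
          refine Finset.sum_congr rfl fun i _ => ?_
          change (v * ∑ j, q j * H j i) * G i k = _
          rw [Finset.mul_sum, Finset.sum_mul]
          refine Finset.sum_congr rfl fun j _ => ?_
          ring
      _ = v * (q k * ((u1 * u0) * ((X - C c) * h))) := by
          simp only [h1, mul_ite, mul_zero]
          rw [Finset.sum_ite_eq', if_pos (Finset.mem_univ _)]
      _ = ((X - C c) * h) * q k := by
          linear_combination (q k * ((X - C c) * h)) * hv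
  let y : LaurentSeries κ := ∑ i, zpol κ d (b i) * e i
  have hyR : y ∈ R := Subalgebra.sum_mem _ fun i _ => mul_mem (zpol_mem hz _) (hb.mem i)
  have hy : y = zpol κ d ((X - C c) * h) * x' := by
    apply sub_eq_zero.1
    apply nondeg hd0 hR hb
    intro k
    rw [sub_mul, map_sub, mul_assoc, pr0_zpol_mul, hq k, sub_eq_zero, ← map_mul, ← hbG k,
      map_sum]
    change pr0 κ d ((∑ i, zpol κ d (b i) * e i) * e k) = _
    rw [Finset.sum_mul, map_sum]
    refine Finset.sum_congr rfl fun i _ => ?_
    rw [mul_assoc, pr0_zpol_mul, map_mul (zpol κ d) (b i) (G i k), hG i k]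
  refine ⟨y, hyR, ?_⟩
  rw [hy]
  nth_rewrite 1 [hxx]
  rw [mul_assoc]

end Pool.Agent.MG.G0
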