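import Pool.Agent.MG.G0.StmtsK

/-!
# KSP: the section of the polar part, projectivity
-/

namespace Pool.Agent.MG.G0

namespace KSP

variable {I A : Type} [CommRing A]

section polar

variable [Finite I]

theorem fin_supp (f : KK I A) :
    (Function.support fun x : I × ℕ => (f x.1).coeff (-((x.2 : ℤ) + 1))).Finite := by
  obtain ⟨n, hn⟩ := exists_Pol f
  refine Set.Finite.subset ((Set.finite_univ (α := I)).prod (Set.finite_Iio n)) ?_
  rintro ⟨i, m⟩ h
  refine ⟨trivial, ?_⟩
  by_contra hc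
  rw [Set.mem_Iio, not_lt] at hc
  exact h (hn i _ (by change -((m : ℤ) + 1) < -(n : ℤ); omega))

/-- The polar part. -/
noncomputable def rho : KK I A →ₗ[A] ((I × ℕ) →₀ A) where
  toFun f := Finsupp.ofSupportFinite _ (fin_supp f)
  map_add' f h := by
    ext x
    simp only [Finsupp.ofSupportFinite_coe, Finsupp.add_apply, Pi.add_apply,
      HahnSeries.coeff_add]
  map_smul' a f := by
    ext x
    simp only [Finsupp.ofSupportFinite_coe, Finsupp.smul_apply, Pi.smul_apply,
      HahnSeries.coeff_smul, RingHom.id_apply]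

theorem rho_apply (f : KK I A) (i : I) (m : ℕ) :
    rho f (i, m) = (f i).coeff (-((m : ℤ) + 1)) := rfl

theorem rho_zero {f : KK I A} (hf : f ∈ Pol I A 0) : rho f = 0 := by
  ext ⟨i, m⟩
  rw [rho_apply, hf i _ (by omega)]
  rfl

end polar

/-- The series with the given polar part. -/
noncomputable def iot : ((I × ℕ) →₀ A) →ₗ[A] KK I A :=
  Finsupp.linearCombination A fun x : I × ℕ => mon x.1 (-((x.2 : ℤ) + 1)) (1 : A)

theorem iot_coeff (c : (I × ℕ) →₀ A) (j : I) (m : ℕ) :
    ((iot c) j).coeff (-((m : ℤ) + 1)) = c (j, m) := by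
  classical
  rw [iot, Finsupp.linearCombination_apply, Finsupp.sum, Finset.sum_apply, HahnSeries.coeff_sum]
  have h1 : ∀ x ∈ c.support, ((c x • mon x.1 (-((x.2 : ℤ) + 1)) (1 : A) : KK I A) j).coeff
      (-((m : ℤ) + 1)) = if x = (j, m) then c (j, m) else 0 := by
    rintro ⟨i, l⟩ _
    rw [smul_mon, mon_coeff]
    by_cases h : (i, l) = (j, m)
    · obtain ⟨rfl, rfl⟩ := Prod.mk.inj h
      simp
    · rw [if_neg h]
      rw [if_neg]
      rintro ⟨h2, h3⟩
      apply h
      change j = i at h2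
      rw [h2]
      congr 1
      omega
  rw [Finset.sum_congr rfl h1, Finset.sum_ite_eq']
  split_ifs with h
  · rfl
  · exact (Finsupp.notMem_support_iff.1 h).symm

theorem sub_iot_mem [Finite I] (f : KK I A) : f - iot (rho f) ∈ Pol I A 0 := by
  intro j l hl
  obtain ⟨m, rfl⟩ : ∃ m : ℕ, l = -((m : ℤ) + 1) := ⟨(-l - 1).toNat, by omega⟩
  rw [Pi.sub_apply, HahnSeries.coeff_sub, iot_coeff, rho_apply, sub_self]

variable {g : ℕ} {P : Subalgebra A (KK I A)}

theorem exists_sec [Finite I] (hP : IsKr g P) {N : ℕ} (hN : Dense P N) :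
    ∃ s : KK I A →ₗ[A] KK I A, IsSec P s ∧
      ∀ n : ℤ, N ≤ n → ∀ f ∈ Pol I A n, s f ∈ Pol I A n := by
  classical
  obtain ⟨L, hL, hk⟩ := hP.k2
  have L0 : ∀ f ∈ Pol I A 0, L f = 0 := fun f hf =>
    (hk f).2 ⟨0, P.zero_mem, by rwa [sub_zero]⟩
  have LP : ∀ f ∈ P, L f = 0 := fun f hf =>
    (hk f).2 ⟨f, hf, by rw [sub_self]; exact (Pol I A 0).zero_mem⟩
  -- the vectors
  have hv : ∀ j : Fin g, ∃ v : KK I A, v ∈ Pol I A N ∧ L v = Pi.single j 1 := by
    intro j
    obtain ⟨w, hw⟩ := hL (Pi.single j 1)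
    obtain ⟨p, hp, hwp⟩ := hN w
    exact ⟨w - p, hwp, by rw [map_sub, LP p hp, sub_zero, hw]⟩
  choose v hvN hvL using hv
  let T : KK I A →ₗ[A] KK I A := LinearMap.id - (Fintype.linearCombination A v) ∘ₗ L
  have hT : ∀ f, T f = f - ∑ j, L f j • v j := fun f => by
    change f - Fintype.linearCombination A v (L f) = _
    rw [Fintype.linearCombination_apply]
  have hLT : ∀ f, L (T f) = 0 := by
    intro f
    rw [hT, map_sub, map_sum]
    have h1 : ∀ j ∈ Finset.univ, L (L f j • v j) = L f j • (Pi.single j 1 : Fin g → A) := by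
      intro j _
      rw [map_smul, hvL]
    rw [Finset.sum_congr rfl h1, sub_eq_zero]
    funext i
    rw [Finset.sum_apply]
    simp only [Pi.smul_apply, smul_eq_mul, Pi.single_apply, mul_ite, mul_one, mul_zero]
    rw [Finset.sum_ite_eq]
    simp
  have hTn : ∀ n : ℤ, N ≤ n → ∀ f ∈ Pol I A n, T f ∈ Pol I A n := by
    intro n hn f hf
    rw [hT]
    refine (Pol I A n).sub_mem hf ((Pol I A n).sum_mem fun j _ => (Pol I A n).smul_mem _ ?_)
    exact Pol_mono hn (hvN j)
  have hp : ∀ x : I × ℕ, ∃ p ∈ P, T (mon x.1 (-((x.2 : ℤ) + 1)) 1) - p ∈ Pol I A 0 := fun x =>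
    (hk _).1 (hLT _)
  choose p hpP hpT using hp
  let S : ((I × ℕ) →₀ A) →ₗ[A] KK I A := Finsupp.linearCombination A p
  have hSP : ∀ c, S c ∈ P := by
    intro c
    change Finsupp.linearCombination A p c ∈ P
    rw [Finsupp.linearCombination_apply, Finsupp.sum]
    exact Subalgebra.sum_mem _ fun x _ => P.smul_mem (hpP x) _
  have hST : ∀ c, T (iot c) - S c ∈ Pol I A 0 := by
    intro c
    change T (iot c) - Finsupp.linearCombination A p c ∈ Pol I A 0
    rw [iot, Finsupp.linearCombination_apply, Finsupp.linearCombination_apply, Finsupp.sum,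
      Finsupp.sum, map_sum, ← Finset.sum_sub_distrib]
    refine (Pol I A 0).sum_mem fun x _ => ?_
    rw [map_smul, ← smul_sub]
    exact (Pol I A 0).smul_mem _ (hpT x)
  refine ⟨S ∘ₗ rho, ⟨fun f => hSP _, fun f hf => ?_, fun q hq => ?_⟩, fun n hn f hf => ?_⟩
  · rw [LinearMap.comp_apply, rho_zero hf, map_zero]
  · rw [LinearMap.comp_apply]
    have h1 := hST (rho q)
    have h2 := sub_iot_mem q
    have h3 : T (iot (rho q)) = iot (rho q) := by
      rw [hT]
      have h4 : L (iot (rho q)) = 0 := by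
        have h5 : iot (rho q) = q - (q - iot (rho q)) := by abel
        rw [h5, map_sub, LP q hq, L0 _ h2, sub_zero]
      rw [h4]
      simp
    rw [h3] at h1
    have h6 : S (rho q) - q ∈ Pol I A 0 := by
      have h7 : S (rho q) - q = -((q - iot (rho q)) + (iot (rho q) - S (rho q))) := by abel
      rw [h7]
      exact (Pol I A 0).neg_mem ((Pol I A 0).add_mem h2 h1)
    obtain ⟨a, ha⟩ := hP.k1 _ (P.sub_mem (hSP _) hq) h6
    exact ⟨a, by rw [← ha]; abel⟩
  · rw [LinearMap.comp_apply]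
    have hn0 : (0 : ℤ) ≤ n := le_trans (Int.natCast_nonneg N) hn
    have h1 := hST (rho f)
    have h2 := sub_iot_mem f
    have h3 : iot (rho f) ∈ Pol I A n := by
      have h5 : iot (rho f) = f - (f - iot (rho f)) := by abel
      rw [h5]
      exact (Pol I A n).sub_mem hf (Pol_mono hn0 h2)
    have h4 : S (rho f) = T (iot (rho f)) - (T (iot (rho f)) - S (rho f)) := by abel
    rw [h4]
    exact (Pol I A n).sub_mem (hTn n hn _ h3) (Pol_mono hn0 h1)

/-- The constant term of `q - s q`. -/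
noncomputable def cst (i : I) (s : KK I A →ₗ[A] KK I A) : KK I A →ₗ[A] A where
  toFun f := ((f - s f) i).coeff 0
  map_add' f h := by
    have h1 : f + h - s (f + h) = (f - s f) + (h - s h) := by
      rw [map_add]
      abel
    rw [h1, Pi.add_apply, HahnSeries.coeff_add]
  map_smul' a f := by
    rw [map_smul, ← smul_sub, Pi.smul_apply, HahnSeries.coeff_smul, RingHom.id_apply]

theorem cst_eq (i : I) {s : KK I A →ₗ[A] KK I A} (hs : IsSec P s) {q : KK I A} (hq : q ∈ P) :
    s q + algebraMap A (KK I A) (cst i s q) = q := by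
  obtain ⟨a, ha⟩ := hs.eq q hq
  have h1 : q - s q = algebraMap A (KK I A) (-a) := by
    rw [ha, map_neg]
    abel
  have h2 : cst i s q = -a := by
    change ((q - s q) i).coeff 0 = -a
    rw [h1, Pi.algebraMap_apply, coeff_algebraMap, if_pos rfl]
  rw [h2, ← h1]
  abel

theorem proj [Finite I] [Nonempty I] {s : KK I A →ₗ[A] KK I A} (hs : IsSec P s) :
    Module.Projective A P := by
  obtain ⟨i₀⟩ := ‹Nonempty I›
  let j : P →ₗ[A] ((I × ℕ) →₀ A) × A :=
    (rho.prod (cst i₀ s)) ∘ₗ (Subalgebra.toSubmodule P).subtype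
  let r : ((I × ℕ) →₀ A) × A →ₗ[A] P :=
    LinearMap.codRestrict (Subalgebra.toSubmodule P)
      ((s ∘ₗ iot).coprod ((Algebra.linearMap A (KK I A)))) (fun x => by
        change s (iot x.1) + algebraMap A (KK I A) x.2 ∈ P
        exact P.add_mem (hs.mem _) (P.algebraMap_mem _))
  refine Module.Projective.of_split j r ?_
  ext1 q
  apply Subtype.ext
  change s (iot (rho (q : KK I A))) + algebraMap A (KK I A) (cst i₀ s q) = q
  have h1 : s (iot (rho (q : KK I A))) = s q := by
    have h2 := hs.zero _ (sub_iot_mem (q : KK I A))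
    rw [map_sub, sub_eq_zero] at h2
    exact h2.symm
  rw [h1, cst_eq i₀ hs q.2]

/-- The series with given coefficients at `τ^m`, `-n ≤ m < 0`. -/
noncomputable def low [Fintype I] (n : ℕ) : (I → Finset.Ico (-(n : ℤ)) 0 → A) →ₗ[A] KK I A where
  toFun c := ∑ i, ∑ m : Finset.Ico (-(n : ℤ)) 0, mon i (m : ℤ) (c i m)
  map_add' c c' := by
    simp only [← Finset.sum_add_distrib]
    refine Finset.sum_congr rfl fun i _ => Finset.sum_congr rfl fun m _ => ?_
    funext j
    ext l
    have h1 : ((mon i (m : ℤ) (c i m) + mon i (m : ℤ) (c' i m) : KK I A) j).coeff l =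
        (mon i (m : ℤ) (c i m) j).coeff l + (mon i (m : ℤ) (c' i m) j).coeff l := rfl
    rw [h1, mon_coeff, mon_coeff, mon_coeff]
    split_ifs
    · rfl
    · rw [add_zero]
  map_smul' a c := by
    simp only [Finset.smul_sum, smul_mon, RingHom.id_apply]
    rfl

theorem low_mem [Fintype I] (n : ℕ) (c : I → Finset.Ico (-(n : ℤ)) 0 → A) :
    low n c ∈ Pol I A n := by
  refine (Pol I A n).sum_mem fun i _ => (Pol I A n).sum_mem fun m _ => mon_mem_Pol i ?_ _
  exact (Finset.mem_Ico.1 m.2).1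

theorem sub_low_mem [Fintype I] {n : ℕ} {f : KK I A} (hf : f ∈ Pol I A n) :
    f - low n (fun i m => (f i).coeff m) ∈ Pol I A 0 := by
  have h1 := sub_mon_mem_Pol hf 0
  have h2 : low n (fun i (m : Finset.Ico (-(n : ℤ)) 0) => (f i).coeff (m : ℤ)) =
      ∑ i, ∑ m ∈ Finset.Ico (-(n : ℤ)) 0, mon i m ((f i).coeff m) := by
    refine Finset.sum_congr rfl fun i _ => ?_
    exact Finset.sum_coe_sort (Finset.Ico (-(n : ℤ)) 0) fun m => mon i m ((f i).coeff m)
  rw [h2]
  exact h1

theorem fin [Fintype I] [Nonempty I] {N : ℕ} {s : KK I A →ₗ[A] KK I A} (hs : IsSec P s)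
    (hn : ∀ n : ℤ, N ≤ n → ∀ f ∈ Pol I A n, s f ∈ Pol I A n) (n : ℤ) (hnN : N ≤ n) :
    Module.Finite A (PP P n) ∧ Module.Projective A (PP P n) := by
  obtain ⟨i₀⟩ := ‹Nonempty I›
  obtain ⟨k, rfl⟩ : ∃ k : ℕ, n = k := ⟨n.toNat, by omega⟩
  let cf : KK I A →ₗ[A] (I → Finset.Ico (-(k : ℤ)) 0 → A) :=
    { toFun := fun f i m => (f i).coeff m
      map_add' := fun f h => rfl
      map_smul' := fun a f => rfl }
  let j : PP P k →ₗ[A] (I → Finset.Ico (-(k : ℤ)) 0 → A) × A :=
    (cf.prod (cst i₀ s)) ∘ₗ (PP P k).subtype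
  let r : (I → Finset.Ico (-(k : ℤ)) 0 → A) × A →ₗ[A] PP P k :=
    LinearMap.codRestrict (PP P k)
      ((s ∘ₗ low k).coprod ((Algebra.linearMap A (KK I A)))) (fun x => by
        change s (low k x.1) + algebraMap A (KK I A) x.2 ∈ PP P k
        refine ⟨P.add_mem (hs.mem _) (P.algebraMap_mem _), ?_⟩
        refine (Pol I A k).add_mem (hn k hnN _ (low_mem k _)) ?_
        exact Pol_mono (Int.natCast_nonneg k) (algebraMap_mem_Pol0 _))
  have hrj : r ∘ₗ j = LinearMap.id := by
    ext1 q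
    apply Subtype.ext
    change s (low k (cf (q : KK I A))) + algebraMap A (KK I A) (cst i₀ s q) = q
    have h1 : s (low k (cf (q : KK I A))) = s q := by
      have h2 := hs.zero _ (sub_low_mem (f := (q : KK I A)) q.2.2)
      rw [map_sub, sub_eq_zero] at h2
      exact h2.symm
    rw [h1, cst_eq i₀ hs q.2.1]
  refine ⟨?_, Module.Projective.of_split j r hrj⟩
  refine Module.Finite.of_surjective r fun q => ⟨j q, ?_⟩
  exact congrArg (fun F => F q) hrj

end KSP

theorem t_KSP (hKNZ : Stmt_KNZ) : Stmt_KSP := by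
  intro I A _ _ _ g P hP
  constructor
  · obtain ⟨N, hN⟩ := (hKNZ hP).1
    obtain ⟨s, hs, -⟩ := KSP.exists_sec hP hN
    exact KSP.proj hs
  · intro N hN
    obtain ⟨s, hs, hn⟩ := KSP.exists_sec hP hN
    exact ⟨⟨s, hs, hn⟩, KSP.fin hs hn⟩

end Pool.Agent.MG.G0
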