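import Pool.Agent.MG.G0.StmtsS

/-!
# LOC: extension of derivations
-/

open TensorProduct

namespace Pool.Agent.MG.G0

namespace LOC

section

variable {R W M : Type} [CommRing R] [CommRing W] [Algebra R W] [AddCommGroup M] [Module R M]
  [Module W M] [IsScalarTower R W M]

/-- Equality can be tested after multiplication with the members of a family which generates the
unit ideal. -/
theorem ext_of {n : ℕ} (s : Fin n → R) (a : Fin n → W)
    (h : ∑ k, a k * algebraMap R W (s k) = 1) {m m' : M} (hm : ∀ k, s k • m = s k • m') :
    m = m' := by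
  have key : ∀ x : M, x = ∑ k, a k • (s k • x) := by
    intro x
    calc x = (1 : W) • x := (one_smul W x).symm
      _ = (∑ k, a k * algebraMap R W (s k)) • x := by rw [h]
      _ = ∑ k, (a k * algebraMap R W (s k)) • x := Finset.sum_smul
      _ = ∑ k, a k • (s k • x) := Finset.sum_congr rfl fun k _ => by
          rw [mul_smul, algebraMap_smul]
  rw [key m, key m']
  exact Finset.sum_congr rfl fun k _ => by rw [hm k]

/-- The same for products of two families. -/
theorem ext_of₂ {n n' : ℕ} (s : Fin n → R) (a : Fin n → W) (t : Fin n' → R) (b : Fin n' → W)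
    (h : ∑ k, a k * algebraMap R W (s k) = 1) (h' : ∑ k, b k * algebraMap R W (t k) = 1)
    {m m' : M} (hm : ∀ k l, (s k * t l) • m = (s k * t l) • m') : m = m' := by
  refine ext_of s a h fun k => ?_
  refine ext_of t b h' fun l => ?_
  rw [smul_smul, smul_smul, mul_comm (t l)]
  exact hm k l

end

variable {A R W : Type} [CommRing A] [CommRing R] [CommRing W] [Algebra A R] [Algebra A W]
  [Algebra R W] [IsScalarTower A R W]
  {M : Type} [AddCommGroup M] [Module A M] [Module R M] [Module W M] [IsScalarTower A R M]
  [IsScalarTower A W M] [IsScalarTower R W M]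

omit [Algebra A W] [IsScalarTower A R W] [IsScalarTower A R M] [IsScalarTower A W M] in
/-- The value of the extension. -/
theorem exists_value (hE : Ep R W) (D : Derivation A R M) (w : W) :
    ∃ m : M, ∀ s r : R, algebraMap R W s * w = algebraMap R W r → s • m = D r - w • D s := by
  obtain ⟨n, s, a, h1, h2⟩ := hE.2 w
  choose r hr using h2
  refine ⟨∑ k, a k • (D (r k) - w • D (s k)), fun s' r' hs' => ?_⟩
  have cross : ∀ k, s' • (D (r k) - w • D (s k)) = s k • (D r' - w • D s') := by
    intro k
    have e1 : s' * r k = s k * r' := by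
      apply hE.1
      rw [map_mul, map_mul, ← hr k, ← hs']
      ring
    have e2 : s' • D (r k) + r k • D s' = s k • D r' + r' • D (s k) := by
      rw [← Derivation.leibniz, ← Derivation.leibniz, e1]
    have e3 : r k • D s' = s k • (w • D s') := by
      rw [← algebraMap_smul W (r k), ← hr k, mul_smul, algebraMap_smul]
    have e4 : r' • D (s k) = s' • (w • D (s k)) := by
      rw [← algebraMap_smul W r', ← hs', mul_smul, algebraMap_smul]
    rw [e3, e4] at e2
    rw [smul_sub, smul_sub, sub_eq_sub_iff_add_eq_add]
    exact e2
  rw [Finset.smul_sum]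
  calc ∑ k, s' • (a k • (D (r k) - w • D (s k)))
      = ∑ k, (a k * algebraMap R W (s k)) • (D r' - w • D s') := by
        refine Finset.sum_congr rfl fun k _ => ?_
        rw [smul_comm s' (a k), cross k, mul_smul, algebraMap_smul]
    _ = D r' - w • D s' := by rw [← Finset.sum_smul, h1, one_smul]

end LOC

open LOC

theorem t_LOC : Stmt_LOC := by
  intro A R W _ _ _ _ _ _ _ hE M _ _ _ _ _ _ _ D
  choose e he using exists_value hE D
  have hadd : ∀ w w', e (w + w') = e w + e w' := by
    intro w w'
    obtain ⟨n, s, a, h1, h2⟩ := hE.2 w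
    obtain ⟨n', t, b, h1', h2'⟩ := hE.2 w'
    choose r hr using h2
    choose r' hr' using h2'
    refine ext_of₂ s a t b h1 h1' fun k l => ?_
    have e1 : algebraMap R W (s k * t l) * w = algebraMap R W (t l * r k) := by
      rw [map_mul, map_mul, ← hr k]
      ring
    have e2 : algebraMap R W (s k * t l) * w' = algebraMap R W (s k * r' l) := by
      rw [map_mul, map_mul, ← hr' l]
      ring
    have e3 : algebraMap R W (s k * t l) * (w + w') = algebraMap R W (t l * r k + s k * r' l) := by
      rw [mul_add, e1, e2, map_add]
    rw [smul_add, he w _ _ e1, he w' _ _ e2, he (w + w') _ _ e3, map_add, add_smul]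
    abel
  have hsmul : ∀ (c : A) (w : W), e (c • w) = c • e w := by
    intro c w
    obtain ⟨n, s, a, h1, h2⟩ := hE.2 w
    choose r hr using h2
    refine ext_of s a h1 fun k => ?_
    have e1 : algebraMap R W (s k) * (c • w) = algebraMap R W (c • r k) := by
      rw [mul_smul_comm, hr k, Algebra.smul_def, Algebra.smul_def, map_mul,
        ← IsScalarTower.algebraMap_apply]
    rw [he _ _ _ e1, smul_comm (s k) c (e w), he w _ _ (hr k),
      D.map_smul c (r k), smul_sub, smul_assoc]
  have hleib : ∀ w w', e (w * w') = w • e w' + w' • e w := by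
    intro w w'
    obtain ⟨n, s, a, h1, h2⟩ := hE.2 w
    obtain ⟨n', t, b, h1', h2'⟩ := hE.2 w'
    choose r hr using h2
    choose r' hr' using h2'
    refine ext_of₂ s a t b h1 h1' fun k l => ?_
    have e1 : algebraMap R W (s k * t l) * (w * w') = algebraMap R W (r k * r' l) := by
      rw [map_mul, map_mul, ← hr k, ← hr' l]
      ring
    have e2 := he w _ _ (hr k)
    have e3 := he w' _ _ (hr' l)
    have e4 : (s k * t l) • (w • e w') = r k • (t l • e w') := by
      rw [← algebraMap_smul W (r k), ← hr k, ← algebraMap_smul W (s k * t l),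
        ← algebraMap_smul W (t l), smul_smul, smul_smul, map_mul]
      congr 1
      ring
    have e5 : (s k * t l) • (w' • e w) = r' l • (s k • e w) := by
      rw [← algebraMap_smul W (r' l), ← hr' l, ← algebraMap_smul W (s k * t l),
        ← algebraMap_smul W (s k), smul_smul, smul_smul, map_mul]
      congr 1
      ring
    rw [smul_add, e4, e5, e3, e2, he _ _ _ e1, Derivation.leibniz, Derivation.leibniz, smul_sub,
      smul_sub, smul_add]
    have e6 : r k • (w' • D (t l)) = (w * w') • (s k • D (t l)) := by
      rw [← algebraMap_smul W (r k), ← hr k, ← algebraMap_smul W (s k), smul_smul, smul_smul]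
      congr 1
      ring
    have e7 : r' l • (w • D (s k)) = (w * w') • (t l • D (s k)) := by
      rw [← algebraMap_smul W (r' l), ← hr' l, ← algebraMap_smul W (t l), smul_smul, smul_smul]
      congr 1
      ring
    rw [e6, e7]
    abel
  let L : W →ₗ[A] M :=
    { toFun := e
      map_add' := hadd
      map_smul' := hsmul }
  refine ⟨Derivation.mk' L hleib, fun r => ?_, fun E' hE' => ?_⟩
  · show e (algebraMap R W r) = D r
    have h1 := he (algebraMap R W r) 1 r (by rw [map_one, one_mul])
    rw [one_smul, Derivation.map_one_eq_zero, smul_zero, sub_zero] at h1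
    exact h1
  · refine Derivation.ext fun w => ?_
    show E' w = e w
    obtain ⟨n, s, a, h1, h2⟩ := hE.2 w
    choose r hr using h2
    refine ext_of s a h1 fun k => ?_
    rw [he w _ _ (hr k), ← hE' (r k), ← hE' (s k), ← hr k, Derivation.leibniz,
      algebraMap_smul, add_sub_cancel_right]

end Pool.Agent.MG.G0
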