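import Pool.Agent.MG.G0.StmtsM
import Pool.Agent.MG.G0.StmtsHV

/-!
# LOGF: THEOREM LOG, final form (PAPER_M.md, item LOGF)
-/

namespace Pool.Agent.MG.G0

/-- TC: existence of two charts (statement proved in the files of section TC). -/
def Stmt_TCx : Prop :=
  ∀ {A κ : Type} [CommRing A] [Algebra ℂ A] [Field κ] [IsAlgClosed κ] [CharZero κ]
    [Algebra κ A] (r : A →ₐ[κ] κ), (∃ n : ℕ, RingHom.ker r ^ n = ⊥) → (RingHom.ker r).FG →
    ∀ {h : ℕ}, 2 ≤ h → ∀ {R : Subalgebra A (KK Unit A)}, SKr h R →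
    ∀ pt : Bool → FPt R, Disj pt →
    ∃ (R₂ : Subalgebra A (KK Unit A)) (R₁₂ : Subalgebra A (KK (Unit ⊕ Unit) A)) (b₁ : R)
      (b₂ : R₂) (ι₁ : R →ₐ[A] R₁₂) (ι₂ : R₂ →ₐ[A] R₁₂), Chp h R R₂ R₁₂ ∧ Inc ι₁ ι₂ ∧
        ThmG b₁ b₂ ι₁ ι₂ ∧ ∀ b, IsUnit ((pt b).ev b₁)

namespace LOGF

theorem bcr_id (hKBC : Stmt_KBC) {I A : Type} [CommRing A] {R : Subalgebra A (KK I A)}
    (p : FPt R) : Bcr (RingHom.id A) p p := by
  refine ⟨(hKBC.2.2.1 R).symm, fun f f' hf => ?_⟩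
  rw [kmap_id] at hf
  have : f' = f := Subtype.ext hf
  rw [this, PowerSeries.map_id]
  rfl

end LOGF

open LOGF in
theorem t_LOGF (hKBC : Stmt_KBC) (hAWB : Stmt_AWB) (hMTR : Stmt_MTR)
    (hMEE : Stmt_MEE) (hMPB : Stmt_MPB) (hMPG : Stmt_MPG) (hMVX : Stmt_MVX)
    (hMVN : Stmt_MVN) (hMLG : Stmt_MLG) (hHV2 : Stmt_HV2)
    (hHV4 : Stmt_HV4) (hTC : Stmt_TCx) : Stmt_LOGF := by
  intro A κ _ _ _ _ _ _ r hn hfg h h2 E R hR pt hd t ht k u u' x hu hx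
  obtain ⟨R₂, R₁₂, b₁, b₂, ι₁, ι₂, hC, hI, hG, hub⟩ := hTC r hn hfg h2 hR pt hd
  obtain ⟨hg, hom, hder, -⟩ := hMPG hR pt hd t ht
  have hu' : ∀ i, u' i ∈ EE (PT pt t) := hx.1
  obtain ⟨n, htn⟩ := ht
  obtain ⟨N, hN⟩ : ∃ N, N = n + k + 1 := ⟨_, rfl⟩
  have htN : t ^ N = 0 := by
    rw [hN, pow_add, pow_add, htn, zero_mul, zero_mul]
  have hkN : k < N := by omega
  obtain ⟨σ, hσ⟩ := hMTR.2.2.2.1 (A := A) (B := A) (N := N) t htN
  have hsc : ((σ : TrA A N →+* A).comp (algebraMap A (TrA A N))) = RingHom.id A :=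
    RingHom.ext fun a => σ.commutes a
  obtain ⟨⟨p1, hp1⟩, hX, -⟩ := hMVX hR pt hd E N k
  have hTn : IsNilpotent (tt A N) := ⟨N, (hMTR.1 (A := A) (N := N)).1⟩
  have hR' : SKr h (bc (algebraMap A (TrA A N)) R) := (hMPG hR pt hd t ⟨n, htn⟩).2.2.2 _
  -- the specialization of the plumbed curve
  have key : ∀ q : Bool → FPt (bc (algebraMap A (TrA A N)) R),
      (∀ b, (pt b).Bc (algebraMap A (TrA A N)) (q b)) → Disj q ∧
        bc (σ : TrA A N →+* A) (PT q (tt A N)) = PT pt t := by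
    intro q hq
    obtain ⟨m1, m2, m3, m4⟩ := hMPB hR.kr hR.smc pt hd
    have b1 := m4 _ q hq
    have hdq := (m1 _ _ q b1).1
    have b2 : ∀ b, Bcr ((σ : TrA A N →+* A).comp (algebraMap A (TrA A N))) (pt b) (pt b) := by
      rw [hsc]
      exact fun b => bcr_id hKBC (pt b)
    have b3 := m2 _ (σ : TrA A N →+* A) _ _ q pt b1 b2
    refine ⟨hdq, ?_⟩
    have := ((hMPB hR'.kr hR'.smc q hdq).1 (σ : TrA A N →+* A) R pt b3).2 (tt A N) hTn
    rw [← this]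
    change PT pt (σ (tt A N)) = _
    rw [hσ]
  obtain ⟨hk1, hex, -⟩ := hX p1 hp1
  have hsurj : Function.Surjective (σ : TrA A N →+* A) := fun a =>
    ⟨algebraMap A (TrA A N) a, σ.commutes a⟩
  have hlift := (hMEE hk1 (σ : TrA A N →+* A)).2.2 hsurj
  rw [(key p1 hp1).2] at hlift
  choose V hV hVe using fun i => hlift.1 (u i) (hu i)
  choose V' hV' hVe' using fun i => hlift.1 (u' i) (hu' i)
  obtain ⟨X, hXv⟩ := hex V V' hV hV'
  -- the theorem for two charts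
  have hco : ∀ i < k, co i X = 0 := by
    obtain ⟨m1, m2, m3, m4⟩ := hMPB hR.kr hR.smc pt hd
    choose p0 hp0 hp0' using fun b => (hAWB hR.kr (algebraMap A A)).1 (pt b)
    have hp0'' : ∀ b, Bcr (algebraMap A A) (pt b) (p0 b) := m4 _ p0 hp0
    have hd0 : Disj p0 := (m1 _ _ p0 hp0'').1
    have hub0 : ∀ b, IsUnit ((p0 b).ev (bcMap (algebraMap A A) R b₁)) := by
      intro b
      have e1 : (p0 b).ev (bcMap (algebraMap A A) R b₁) = (pt b).ev b₁ := by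
        change PowerSeries.constantCoeff ((p0 b).h (bcMap (algebraMap A A) R b₁)) = _
        rw [(hp0 b).1 b₁]
        have := PowerSeries.coeff_map (algebraMap A A) 0 ((pt b).h b₁)
        rw [PowerSeries.coeff_zero_eq_constantCoeff_apply,
          PowerSeries.coeff_zero_eq_constantCoeff_apply] at this
        exact this
      rw [e1]
      exact hub b
    have hih := hMLG hC b₁ b₂ ι₁ ι₂ hI hG E N k hkN (A := A) p0 hd0 hub0
    have hvl := hMVN hR pt hd E N k (AlgHom.id ℂ A) _ p0 hp0''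
      (RingHom.id (TrA A N)) ⟨fun a => rfl, rfl⟩ V V' X hXv
    exact hih V V' X hvl
  obtain ⟨Y, hY⟩ := (hMTR.1 (A := A) (N := N)).2.2.2.2.2.2.2.1 X k
    (fun i hi _ => hco i hi)
  obtain ⟨p2, hp2, hV2, hV2', hHV⟩ := hXv
  have hgT : Good (h + 1) (PT p2 (tt A N)) := (hMPG hR' p2 (key p2 hp2).1 (tt A N) hTn).1
  have h4 := hHV4 E (tt A N) hgT (σ.restrictScalars ℂ) V V' X hHV
  have h5 : HV E (PT pt t) t u u' (σ X) := by
    have e3 : (fun i => kmap (σ : TrA A N →+* A) (V i)) = u := funext hVe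
    have e4 : (fun i => kmap (σ : TrA A N →+* A) (V' i)) = u' := funext hVe'
    change HV E (bc (σ : TrA A N →+* A) (PT p2 (tt A N))) (σ (tt A N))
      (fun i => kmap (σ : TrA A N →+* A) (V i)) (fun i => kmap (σ : TrA A N →+* A) (V' i))
      (σ X) at h4
    rw [(key p2 hp2).2, hσ, e3, e4] at h4
    exact h4
  have h6 := (hHV2 E t hg hder k).1 u u' x (σ X) hx h5
  refine ⟨σ Y, x - σ X, ?_, h6⟩
  rw [hY, map_mul, map_pow, hσ]
  ring

end Pool.Agent.MG.G0
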