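import Pool.Agent.MG.G0.StmtsM

/-!
# MCB: base change of a pair of charts
-/

open TensorProduct

namespace Pool.Agent.MG.G0

namespace MCBaux

section

variable {I J A B : Type} [CommRing A] [CommRing B]

/-- Extension by zero at the additional punctures. -/
noncomputable def ext (I J A : Type) [CommRing A] : KK I A →ₗ[A] KK (I ⊕ J) A where
  toFun f := Sum.elim f fun _ => 0
  map_add' f g := by
    funext k
    rcases k with i | j
    · rfl
    · change (0 : LaurentSeries A) = 0 + 0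
      rw [add_zero]
  map_smul' a f := by
    funext k
    rcases k with i | j
    · rfl
    · change (0 : LaurentSeries A) = a • 0
      rw [smul_zero]

theorem ext_inl (f : KK I A) (i : I) : ext I J A f (Sum.inl i) = f i := rfl

theorem ext_inr (f : KK I A) (j : J) : ext I J A f (Sum.inr j) = 0 := rfl

theorem L_Pol0 {h : ℕ} {W : Subalgebra A (KK (I ⊕ J) A)}
    {L : KK (I ⊕ J) A →ₗ[A] (Fin h → A)}
    (hL : ∀ f, L f = 0 ↔ ∃ p ∈ W, f - p ∈ Pol (I ⊕ J) A 0) {f : KK (I ⊕ J) A}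
    (hf : f ∈ Pol (I ⊕ J) A 0) : L f = 0 :=
  (hL f).2 ⟨0, zero_mem W, by rwa [sub_zero]⟩

theorem L_W {h : ℕ} {W : Subalgebra A (KK (I ⊕ J) A)}
    {L : KK (I ⊕ J) A →ₗ[A] (Fin h → A)}
    (hL : ∀ f, L f = 0 ↔ ∃ p ∈ W, f - p ∈ Pol (I ⊕ J) A 0) {f : KK (I ⊕ J) A}
    (hf : f ∈ W) : L f = 0 :=
  (hL f).2 ⟨f, hf, by rw [sub_self]; exact zero_mem _⟩

theorem isKr_Rem {h : ℕ} {W : Subalgebra A (KK (I ⊕ J) A)} (hW : IsKr h W) (hD : Dn W) :
    IsKr h (Rem W) := by
  refine ⟨?_, ?_⟩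
  · rintro f ⟨w, hw, h1, h2⟩ hf
    obtain ⟨a, ha⟩ := hW.k1 w hw (by
      intro k m hm
      rcases k with i | j
      · rw [h2]
        exact hf i m hm
      · exact h1 j m (by omega))
    refine ⟨a, ?_⟩
    funext i
    rw [← h2, ha]
    rfl
  · obtain ⟨L, hs, hL⟩ := hW.k2
    refine ⟨L ∘ₗ ext I J A, ?_, ?_⟩
    · intro c
      obtain ⟨F, hF⟩ := hs c
      obtain ⟨w, hw, hwF⟩ := hD (fun j => F (Sum.inr j)) 0
      refine ⟨fun i => (F - w) (Sum.inl i), ?_⟩
      rw [LinearMap.comp_apply]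
      have h1 : (F - w) - ext I J A (fun i => (F - w) (Sum.inl i)) ∈ Pol (I ⊕ J) A 0 := by
        intro k m hm
        rcases k with i | j
        · rw [Pi.sub_apply, ext_inl, sub_self, HahnSeries.coeff_zero]
        · rw [Pi.sub_apply, ext_inr, sub_zero, Pi.sub_apply, HahnSeries.coeff_sub]
          rw [hwF j m (by omega), sub_self]
      have h2 := L_Pol0 hL h1
      rw [map_sub, map_sub, L_W hL hw, sub_zero, hF, sub_eq_zero] at h2
      exact h2.symm
    · intro f
      rw [LinearMap.comp_apply, hL]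
      constructor
      · rintro ⟨p, hp, hfp⟩
        refine ⟨fun i => p (Sum.inl i), ⟨p, hp, fun j m hm => ?_, fun i => rfl⟩, fun i m hm => ?_⟩
        · have h3 := hfp (Sum.inr j) m (by omega)
          rw [Pi.sub_apply, ext_inr, zero_sub, HahnSeries.coeff_neg, neg_eq_zero] at h3
          exact h3
        · exact hfp (Sum.inl i) m hm
      · rintro ⟨p, ⟨w, hw, h1, h2⟩, hfp⟩
        refine ⟨w, hw, ?_⟩
        intro k m hm
        rcases k with i | j
        · rw [Pi.sub_apply, ext_inl, h2]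
          exact hfp i m hm
        · rw [Pi.sub_apply, ext_inr, zero_sub, HahnSeries.coeff_neg, h1 j m (by omega), neg_zero]

theorem bc_Rem_le (W : Subalgebra A (KK (I ⊕ J) A)) (φ : A →+* B) :
    bc φ (Rem W) ≤ Rem (bc φ W) := by
  refine Algebra.adjoin_le ?_
  rintro _ ⟨f, ⟨w, hw, h1, h2⟩, rfl⟩
  refine ⟨kmap φ w, kmap_mem_bc φ hw, fun j m hm => ?_, fun i => ?_⟩
  · rw [kmap_apply, lmap_coeff, h1 j m hm, map_zero]
  · rw [kmap_apply, kmap_apply, h2]

theorem Dn_bc [Fintype J] {W : Subalgebra A (KK (I ⊕ J) A)} (hD : Dn W) (φ : A →+* B) :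
    Dn (bc φ W) := by
  classical
  intro f M
  obtain ⟨n, hn⟩ := exists_Pol f
  choose w hw hwc using fun q : J × ℤ => hD (mon q.1 q.2 (1 : A)) M
  refine ⟨∑ j : J, ∑ m ∈ Finset.Ico (-(n : ℤ)) M, (f j).coeff m • kmap φ (w (j, m)), ?_, ?_⟩
  · refine Subalgebra.sum_mem _ fun j _ => Subalgebra.sum_mem _ fun m _ => ?_
    exact Subalgebra.smul_mem _ (kmap_mem_bc φ (hw (j, m))) _
  · intro j l hl
    have h1 : ∀ j' : J, ((∑ m ∈ Finset.Ico (-(n : ℤ)) M, (f j').coeff m • kmap φ (w (j', m)))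
        (Sum.inr j)).coeff l = if j' = j then (f j).coeff l else 0 := by
      intro j'
      rw [Finset.sum_apply, HahnSeries.coeff_sum]
      have h2 : ∀ m, (((f j').coeff m • kmap φ (w (j', m))) (Sum.inr j)).coeff l =
          (f j').coeff m * (if j = j' ∧ l = m then 1 else 0) := by
        intro m
        rw [Pi.smul_apply, HahnSeries.coeff_smul, smul_eq_mul, kmap_apply, lmap_coeff,
          hwc (j', m) j l hl, mon_coeff]
        congr 1
        split_ifs <;> simp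
      simp only [h2]
      by_cases h : j' = j
      · subst h
        simp only [true_and, mul_ite, mul_one, mul_zero, if_true]
        rw [Finset.sum_ite_eq]
        split_ifs with h3
        · rfl
        · rw [Finset.mem_Ico, not_and_or] at h3
          rcases h3 with h3 | h3
          · exact (hn j' l (by omega)).symm
          · exact absurd hl h3
      · rw [if_neg h]
        refine Finset.sum_eq_zero fun m _ => ?_
        rw [if_neg (fun h3 => h h3.1.symm), mul_zero]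
    rw [Finset.sum_apply, HahnSeries.coeff_sum]
    simp only [h1, Finset.sum_ite_eq', Finset.mem_univ, if_true]

/-- An element which vanishes at `I` vanishes. -/
theorem inj_I [Fintype J] [Fintype I] [Nonempty I] {h : ℕ} {W : Subalgebra A (KK (I ⊕ J) A)}
    (hW : IsKr h W) (hD : Dn W) (w : KK (I ⊕ J) A) (hw : w ∈ W)
    (h0 : ∀ i, w (Sum.inl i) = 0) : w = 0 := by
  classical
  obtain ⟨i₀⟩ := (inferInstance : Nonempty I)
  -- a regular element which vanishes at `I` is zero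
  have key : ∀ x ∈ W, (∀ i, x (Sum.inl i) = 0) →
      (∀ j, ∀ m < 0, (x (Sum.inr j)).coeff m = 0) → x = 0 := by
    intro x hx hx0 hxr
    obtain ⟨a, ha⟩ := hW.k1 x hx (by
      intro k m hm
      rcases k with i | j
      · rw [hx0, HahnSeries.coeff_zero]
      · exact hxr j m (by omega))
    have h1 := congrArg (fun f : KK (I ⊕ J) A => (f (Sum.inl i₀)).coeff 0) ha
    simp only [hx0, Pi.algebraMap_apply, coeff_algebraMap, HahnSeries.coeff_zero, if_true] at h1
    rw [ha, ← h1, map_zero]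
  obtain ⟨n, hn⟩ := exists_Pol w
  obtain ⟨s, hs, hsc⟩ := hD (fun _ => HahnSeries.single (n : ℤ) (1 : A)) (2 * n + 1)
  obtain ⟨a, ha, hac⟩ := hD (fun _ => HahnSeries.single (-(n : ℤ)) (1 : A)) (2 * n + 1)
  have hs1 : ∀ j, ∀ m < (n : ℤ), (s (Sum.inr j)).coeff m = 0 := by
    intro j m hm
    rw [hsc j m (by omega), HahnSeries.coeff_single_of_ne (by omega)]
  have ha1 : ∀ j, ∀ m < -(n : ℤ), (a (Sum.inr j)).coeff m = 0 := by
    intro j m hm
    rw [hac j m (by omega), HahnSeries.coeff_single_of_ne (by omega)]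
  have h1 : s * w = 0 := by
    refine key _ (mul_mem hs hw) (fun i => by rw [Pi.mul_apply, h0, mul_zero]) fun j m hm => ?_
    rw [Pi.mul_apply]
    exact mul_low (hs1 j) (fun m hm => hn (Sum.inr j) m hm) m (by omega)
  have h2 : ∀ j, ∀ m < (n : ℤ), ((a * s - 1) (Sum.inr j)).coeff m = 0 := by
    intro j m hm
    have e1 : (a * s - 1) (Sum.inr j) =
        (a (Sum.inr j) - HahnSeries.single (-(n : ℤ)) (1 : A)) * s (Sum.inr j) +
        HahnSeries.single (-(n : ℤ)) (1 : A) *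
          (s (Sum.inr j) - HahnSeries.single (n : ℤ) (1 : A)) := by
      have e2 : (HahnSeries.single (-(n : ℤ)) (1 : A) : LaurentSeries A) *
          HahnSeries.single (n : ℤ) (1 : A) = 1 := by
        rw [HahnSeries.single_mul_single, neg_add_cancel, mul_one]
        rfl
      rw [Pi.sub_apply, Pi.mul_apply, Pi.one_apply, mul_sub, e2]
      ring
    rw [e1, HahnSeries.coeff_add]
    have e3 : ∀ m < (2 * n + 1 : ℤ),
        (a (Sum.inr j) - HahnSeries.single (-(n : ℤ)) (1 : A)).coeff m = 0 := by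
      intro m hm
      rw [HahnSeries.coeff_sub, hac j m hm, sub_self]
    have e4 : ∀ m < (2 * n + 1 : ℤ),
        (s (Sum.inr j) - HahnSeries.single (n : ℤ) (1 : A)).coeff m = 0 := by
      intro m hm
      rw [HahnSeries.coeff_sub, hsc j m hm, sub_self]
    have e5 : ∀ m < -(n : ℤ),
        (HahnSeries.single (-(n : ℤ)) (1 : A) : LaurentSeries A).coeff m = 0 := fun m hm =>
      HahnSeries.coeff_single_of_ne (by omega)
    rw [mul_low e3 (hs1 j) m (by omega), mul_low e5 e4 m (by omega), add_zero]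
  have h3 : (a * s - 1) * w = 0 := by
    refine key _ (mul_mem (sub_mem (mul_mem ha hs) (one_mem W)) hw)
      (fun i => by rw [Pi.mul_apply, h0, mul_zero]) fun j m hm => ?_
    rw [Pi.mul_apply]
    exact mul_low (h2 j) (fun m hm => hn (Sum.inr j) m hm) m (by omega)
  calc w = a * (s * w) - (a * s - 1) * w := by ring
    _ = 0 := by rw [h1, h3, mul_zero, sub_zero]

theorem mem_reix {I' : Type} (e : I' ≃ I) (P : Subalgebra A (KK I A)) (f : KK I' A) :
    f ∈ reix e P ↔ (fun i => f (e.symm i)) ∈ P := Iff.rfl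

theorem bc_reix {I' : Type} (φ : A →+* B) (e : I' ≃ I) (P : Subalgebra A (KK I A)) :
    bc φ (reix e P) = reix e (bc φ P) := by
  apply le_antisymm
  · refine Algebra.adjoin_le ?_
    rintro _ ⟨f, hf, rfl⟩
    exact kmap_mem_bc φ (P := P) hf
  · have h1 : bc φ P ≤ reix e.symm (bc φ (reix e P)) := by
      refine Algebra.adjoin_le ?_
      rintro _ ⟨f, hf, rfl⟩
      have h2 : (fun i => f (e i)) ∈ reix e P := by
        rw [mem_reix]
        simpa using hf
      exact kmap_mem_bc φ h2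
    intro x hx
    have h3 := h1 hx
    rw [mem_reix] at h3
    simpa using h3

theorem skr_bc (hKBC : Stmt_KBC) (hKBT : Stmt_KBT) (hSDB : Stmt_SDB) [Fintype I] [Nonempty I]
    {h : ℕ} {R : Subalgebra A (KK I A)} (hR : SKr h R) (φ : A →+* B) : SKr h (bc φ R) := by
  refine ⟨(hKBC.2.2.2 hR.kr φ).1, ?_, (hSDB hR.kr hR.smc φ).1, (hSDB hR.kr hR.smc φ).2.1 hR.dual⟩
  letI := φ.toAlgebra
  obtain ⟨e, _⟩ := (hKBT (B := B) hR.kr).2
  haveI := hR.fs
  have h1 : Algebra.FormallySmooth B (B ⊗[A] R) := inferInstance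
  exact Algebra.FormallySmooth.of_equiv e

end

end MCBaux

open MCBaux in
theorem t_MCB (hKEQ : Stmt_KEQ) (hKBC : Stmt_KBC) (_hKNZ : Stmt_KNZ) (hKAU : Stmt_KAU)
    (hKBT : Stmt_KBT) (hSDB : Stmt_SDB) (_hMPG : Stmt_MPG) : Stmt_MCB := by
  have main : ∀ {I J A B : Type} [Fintype I] [Nonempty I] [Fintype J] [CommRing A] [CommRing B]
      {h : ℕ} {W : Subalgebra A (KK (I ⊕ J) A)}, IsKr h W → Dn W → IsKr h (Rem W) ∧
      ∀ φ : A →+* B, Dn (bc φ W) ∧ Rem (bc φ W) = bc φ (Rem W) ∧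
        ∀ w ∈ bc φ W, (∀ i, w (Sum.inl i) = 0) → w = 0 := by
    intro I J A B _ _ _ _ _ h W hW hD
    refine ⟨isKr_Rem hW hD, fun φ => ?_⟩
    have hDB := Dn_bc hD φ
    have hWB : IsKr h (bc φ W) := (hKBC.2.2.2 hW φ).1
    refine ⟨hDB, ?_, fun w hw h0 => inj_I hWB hDB w hw h0⟩
    have h1 : IsKr h (bc φ (Rem W)) := (hKBC.2.2.2 (isKr_Rem hW hD) φ).1
    have h2 : IsKr h (Rem (bc φ W)) := isKr_Rem hWB hDB
    exact (hKEQ h1 h2 (bc_Rem_le W φ)).symm
  refine ⟨main, fun φ e P => bc_reix φ e P, ?_⟩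
  intro B₀ A I₁ I₂ _ _ _ _ _ _ h R₁ R₂ R₁₂ hC φ
  obtain ⟨e, he⟩ : ∃ e : I₂ ⊕ I₁ ≃ I₁ ⊕ I₂, e = Equiv.sumComm I₂ I₁ := ⟨_, rfl⟩
  have hf2 := hC.f2
  have hd2 := hC.d2
  rw [← he] at hf2 hd2
  have hW' : IsKr h (reix e R₁₂) := hKAU.2 _ e hC.s12.kr
  obtain ⟨a1, a2, a3⟩ := (main hC.s12.kr hC.d1).2 φ
  obtain ⟨b1, b2, b3⟩ := (main hW' hd2).2 φ
  rw [bc_reix] at b1 b2 b3
  refine ⟨skr_bc hKBC hKBT hSDB hC.s1 φ, skr_bc hKBC hKBT hSDB hC.s2 φ,
    skr_bc hKBC hKBT hSDB hC.s12 φ, ?_, ?_, a1, ?_, a3, ?_⟩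
  · rw [a2, ← hC.f1]
  · rw [← he, b2, ← hf2]
  · rw [← he]
    exact b1
  · intro w hw h0
    have h1 : (fun k => w (e k)) ∈ reix e (bc φ R₁₂) := by
      rw [mem_reix]
      simpa using hw
    have h2 := b3 _ h1 (by
      intro i
      change w (e (Sum.inl i)) = 0
      rw [he]
      exact h0 i)
    funext k
    have h3 := congrFun h2 (e.symm k)
    simpa using h3

end Pool.Agent.MG.G0
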