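import Pool.Agent.MG.G0.StmtsM
import Pool.Agent.MG.G0.StmtsHV

/-!
# Module MCM: the coefficient of `T^m` is a multilinear form
-/

namespace Pool.Agent.MG.G0

namespace MCMm

/-- A function on families which does not change under a modification of one entry depends only on
the classes. -/
theorem eq_of_single {ι V C : Type} [Fintype ι] [DecidableEq ι] (F : (ι → V) → C)
    (r : V → V → Prop)
    (hF : ∀ (v : ι → V) (i : ι) (a : V), r (v i) a → F (Function.update v i a) = F v)
    (v w : ι → V) (h : ∀ i, r (v i) (w i)) : F v = F w := by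
  have key : ∀ (s : Finset ι) (v : ι → V), (∀ i, i ∉ s → v i = w i) → (∀ i ∈ s, r (v i) (w i)) →
      F v = F w := by
    intro s
    induction s using Finset.induction_on with
    | empty =>
      intro v hv _
      congr 1
      funext i
      exact hv i (Finset.notMem_empty i)
    | insert j s hj ih =>
      intro v hv hr
      rw [← hF v j (w j) (hr j (Finset.mem_insert_self j s))]
      apply ih
      · intro i hi
        by_cases hij : i = j
        · subst hij
          rw [Function.update_self]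
        · rw [Function.update_of_ne hij]
          exact hv i fun h => (Finset.mem_insert.1 h).elim hij hi
      · intro i hi
        have hij : i ≠ j := by
          rintro rfl
          exact hj hi
        rw [Function.update_of_ne hij]
        exact hr i (Finset.mem_insert_of_mem hi)
  exact key Finset.univ v (fun i hi => absurd (Finset.mem_univ i) hi) fun i _ => h i

end MCMm

open MCMm in
theorem t_MCM (hKBC : Stmt_KBC) (hMEE : Stmt_MEE) (hMPB : Stmt_MPB) (hMPG : Stmt_MPG)
    (hMTR : Stmt_MTR) (hMVX : Stmt_MVX) (hHV2 : Stmt_HV2) : Stmt_MCM := by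
  intro I A _ _ _ _ h R hR pt hpt E N k m hmk hkN hIH π hπ
  obtain ⟨hT1, -, -, -, hT5⟩ := hMTR
  obtain ⟨hTN, -, hcoadd, hcosmul, -, hco0, hcoS, -, -⟩ := hT1 (A := A) (N := N)
  have hN0 : 0 < N := by omega
  have hTn : IsNilpotent (tt A N) := ⟨N, hTN⟩
  obtain ⟨⟨pt', hpt'⟩, hX2, -⟩ := hMVX hR pt hpt E N k
  obtain ⟨hKr', hXex, hXmem⟩ := hX2 pt' hpt'
  obtain ⟨hPB1, hPB2, -, hPB4⟩ := hMPB hR.kr hR.smc pt hpt
  have hBcr : ∀ b, Bcr (algebraMap A (TrA A N)) (pt b) (pt' b) := hPB4 _ pt' hpt'
  obtain ⟨hdj, -⟩ := hPB1 _ _ pt' hBcr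
  obtain ⟨-, -, -, hS⟩ := hMPG hR pt hpt 0 ⟨1, by rw [pow_one]⟩
  have hR' : SKr h (bc (algebraMap A (TrA A N)) R) := hS _
  obtain ⟨hGood, hOm, hD, -⟩ := hMPG hR' pt' hdj (tt A N) hTn
  obtain ⟨-, hG2⟩ := hHV2 E (tt A N) hGood hD k
  obtain ⟨G, hG⟩ := hG2 hOm
  -- independence of the choice of `pt'`
  obtain ⟨hPB1', -, hPB3', -⟩ := hMPB hR'.kr hR'.smc pt' hdj
  have hHV : ∀ (u u' : Fin k → KK I (TrA A N)) (x : TrA A N), Vl E pt u u' x →
      HV E (PT pt' (tt A N)) (tt A N) u u' x := by
    rintro u u' x ⟨pt'', h1, -, -, h4⟩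
    have h5 : ∀ b, Bcr (RingHom.id (TrA A N)) (pt' b) (pt'' b) := by
      apply hPB2 (algebraMap A (TrA A N)) (RingHom.id _) _ _ pt' pt'' hBcr
      rw [RingHom.id_comp]
      exact hPB4 _ pt'' h1
    rw [← hPB3' _ pt'' h5]
    exact h4
  -- the nodal curve
  have hcomp : (π : TrA A N →+* A).comp (algebraMap A (TrA A N)) = RingHom.id A :=
    RingHom.ext fun a => π.commutes a
  have hP0 : PT pt (0 : A) = bc (π : TrA A N →+* A) (PT pt' (tt A N)) := by
    have h5 : ∀ b, Bcr (π : TrA A N →+* A) (pt' b) (pt b) := by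
      apply hPB2 (algebraMap A (TrA A N)) (π : TrA A N →+* A) _ _ pt' pt hBcr
      rw [hcomp]
      intro b
      refine ⟨(hKBC.2.2.1 R).symm, fun f f' hf => ?_⟩
      have h6 : f' = f := Subtype.ext hf
      rw [h6]
      ext n
      rw [PowerSeries.coeff_map]
      rfl
    have h6 := (hPB1' (π : TrA A N →+* A) R pt h5).2 (tt A N) hTn
    have h7 : (π : TrA A N →+* A) (tt A N) = 0 := hπ
    rw [h7] at h6
    exact h6
  have hπs : Function.Surjective (π : TrA A N →+* A) := fun a => ⟨algebraMap A _ a, π.commutes a⟩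
  obtain ⟨-, -, hE3⟩ := hMEE hKr' (π : TrA A N →+* A)
  obtain ⟨hlift, hker⟩ := hE3 hπs
  have hker' := hker (tt A N) hπ fun a ha => ((hT5 π hπ hN0) a).2 ha
  -- lifts
  have hL : ∀ ω : EE (PT pt (0 : A)), ∃ u : EE (PT pt' (tt A N)),
      kmap (π : TrA A N →+* A) (u : KK I (TrA A N)) = ω := by
    intro ω
    obtain ⟨u, hu, h1⟩ := hlift ω (by rw [← hP0]; exact ω.2)
    exact ⟨⟨u, hu⟩, h1⟩
  choose L hL using hL
  let F : (Fin k ⊕ Fin k → EE (PT pt' (tt A N))) → A := fun v => co (m + 1) (G v)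
  have hval : ∀ v : Fin k ⊕ Fin k → EE (PT pt' (tt A N)), ∃ x, G v = tt A N * x ∧
      (∀ i < m, co i x = 0) ∧ Vl E pt (fun i => (v (Sum.inl i) : KK I (TrA A N)))
        (fun i => (v (Sum.inr i) : KK I (TrA A N))) x := by
    intro v
    obtain ⟨x, hx⟩ := hXex (fun i => (v (Sum.inl i) : KK I (TrA A N)))
      (fun i => (v (Sum.inr i) : KK I (TrA A N))) (fun i => (v (Sum.inl i)).2)
      (fun i => (v (Sum.inr i)).2)
    exact ⟨x, hG v x (hHV _ _ _ hx), hIH _ _ _ hx, hx⟩
  have hTG : ∀ v : Fin k ⊕ Fin k → EE (PT pt' (tt A N)), co (m + 1) (tt A N * G v) = 0 := by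
    intro v
    obtain ⟨x, hx, hx0, -⟩ := hval v
    rw [hx, hcoS _ _ (by omega)]
    rcases Nat.eq_zero_or_pos m with h0 | h0
    · subst h0
      exact hco0 _ hN0
    · obtain ⟨n, rfl⟩ := Nat.exists_eq_succ_of_ne_zero h0.ne'
      rw [Nat.succ_eq_add_one, hcoS _ _ (by omega)]
      exact hx0 n (Nat.lt_succ_self n)
  have hF1 : ∀ (v : Fin k ⊕ Fin k → EE (PT pt' (tt A N))) (i : Fin k ⊕ Fin k) (a : EE (PT pt' (tt A N))),
      kmap (π : TrA A N →+* A) (v i : KK I (TrA A N)) =
        kmap (π : TrA A N →+* A) (a : KK I (TrA A N)) → F (Function.update v i a) = F v := by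
    intro v i a ha
    obtain ⟨w, hw, hw'⟩ := hker' ((a - v i : EE (PT pt' (tt A N))) : KK I (TrA A N)) (a - v i : EE (PT pt' (tt A N))).2 (by
      rw [Submodule.coe_sub, map_sub, ha, sub_self])
    have h1 : a = v i + tt A N • (⟨w, hw⟩ : EE (PT pt' (tt A N))) := by
      apply Subtype.ext
      rw [Submodule.coe_add, Submodule.coe_smul, ← hw', Submodule.coe_sub]
      abel
    change co (m + 1) (G _) = co (m + 1) (G v)
    rw [h1, G.map_update_add, G.map_update_smul, Function.update_eq_self, smul_eq_mul,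
      hcoadd _ _ _ (by omega), hTG, add_zero]
  have hF2 : ∀ v w : Fin k ⊕ Fin k → EE (PT pt' (tt A N)), (∀ i, kmap (π : TrA A N →+* A)
      (v i : KK I (TrA A N)) = kmap (π : TrA A N →+* A) (w i : KK I (TrA A N))) → F v = F w :=
    fun v w h => eq_of_single F (fun a b => kmap (π : TrA A N →+* A) (a : KK I (TrA A N)) =
      kmap (π : TrA A N →+* A) (b : KK I (TrA A N))) hF1 v w h
  have hupd : ∀ (dec : DecidableEq (Fin k ⊕ Fin k)) (ω : Fin k ⊕ Fin k → EE (PT pt (0 : A)))
      (i : Fin k ⊕ Fin k) (a : EE (PT pt (0 : A))) (b : EE (PT pt' (tt A N))),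
      kmap (π : TrA A N →+* A) (b : KK I (TrA A N)) = a →
      F (fun j => L (Function.update ω i a j)) = F (Function.update (fun j => L (ω j)) i b) := by
    intro dec ω i a b hab
    apply hF2
    intro j
    by_cases hj : j = i
    · subst hj
      rw [Function.update_self, Function.update_self, hL, hab]
    · rw [Function.update_of_ne hj, Function.update_of_ne hj]
  let M : MultilinearMap A (fun _ : Fin k ⊕ Fin k => EE (PT pt (0 : A))) A :=
    { toFun := fun ω => F fun j => L (ω j)
      map_update_add' := by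
        intro dec ω i a b
        have e1 := hupd dec ω i (a + b) (L a + L b) (by
          rw [Submodule.coe_add, map_add, hL, hL, Submodule.coe_add])
        have e2 := hupd dec ω i a (L a) (hL a)
        have e3 := hupd dec ω i b (L b) (hL b)
        rw [e1, e2, e3]
        change co (m + 1) (G _) = co (m + 1) (G _) + co (m + 1) (G _)
        rw [G.map_update_add, hcoadd _ _ _ (by omega)]
      map_update_smul' := by
        intro dec ω i c a
        have e1 := hupd dec ω i (c • a) (algebraMap A (TrA A N) c • L a) (by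
          rw [Submodule.coe_smul, kmap_smul, hL, Submodule.coe_smul]
          congr 1
          exact π.commutes c)
        have e2 := hupd dec ω i a (L a) (hL a)
        rw [e1, e2]
        change co (m + 1) (G _) = c • co (m + 1) (G _)
        rw [G.map_update_smul, smul_eq_mul, ← Algebra.smul_def, hcosmul _ _ _ (by omega),
          smul_eq_mul] }
  refine ⟨M, ?_, ?_⟩
  · intro ω u u' x hx h1 h2
    obtain ⟨hu, hu'⟩ := hXmem u u' x hx
    let v : Fin k ⊕ Fin k → EE (PT pt' (tt A N)) := fun i => Sum.elim (fun i => ⟨u i, hu i⟩)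
      (fun i => ⟨u' i, hu' i⟩) i
    have h3 : G v = tt A N * x := hG v x (hHV _ _ _ hx)
    have h4 : F v = co m x := by
      change co (m + 1) (G v) = _
      rw [h3, hcoS _ _ (by omega)]
    rw [← h4]
    apply hF2
    rintro (i | i)
    · rw [hL]
      exact h1 i
    · rw [hL]
      exact h2 i
  · intro ω
    obtain ⟨x, -, -, hx⟩ := hval fun j => L (ω j)
    exact ⟨_, _, x, hx, fun i => hL _, fun i => hL _⟩

end Pool.Agent.MG.G0
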