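import Pool.Agent.MG.G0.StmtsM

/-!
# MEE: regular differentials and base change
-/

open TensorProduct

namespace Pool.Agent.MG.G0

theorem t_MEE (hKFO : Stmt_KFO) (hKBC : Stmt_KBC) : Stmt_MEE := by
  intro I A B _ _ _ _ g P hP φ
  obtain ⟨⟨ω, hω⟩, hF⟩ := hKFO hP
  obtain ⟨h1, h1'⟩ := hF ω hω
  obtain ⟨hK, hb, -⟩ := hKBC.2.2.2 hP φ
  obtain ⟨h2, h2'⟩ := (hKFO hK).2 _ (hb ω hω)
  have hm : ∀ c : Fin g → A, kmap φ (∑ j, c j • ω j) = ∑ j, φ (c j) • kmap φ (ω j) := by
    intro c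
    rw [map_sum]
    exact Finset.sum_congr rfl fun j _ => kmap_smul φ _ _
  have hA : ∀ u ∈ EE P, kmap φ u ∈ EE (bc φ P) := by
    intro u hu
    obtain ⟨c, hc, -⟩ := h1' u hu
    rw [hc, hm]
    exact Submodule.sum_mem _ fun j _ => Submodule.smul_mem _ _ (h2 j)
  refine ⟨hA, ?_, ?_⟩
  · apply le_antisymm
    · intro η hη
      obtain ⟨c, hc, -⟩ := h2' η hη
      rw [hc]
      exact Submodule.sum_mem _ fun j _ => Submodule.smul_mem _ _
        (Submodule.subset_span ⟨ω j, h1 j, rfl⟩)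
    · rw [Submodule.span_le]
      rintro _ ⟨u, hu, rfl⟩
      exact hA u hu
  · intro hφ
    refine ⟨?_, ?_⟩
    · intro η hη
      obtain ⟨c, hc, -⟩ := h2' η hη
      choose a ha using fun j => hφ (c j)
      refine ⟨∑ j, a j • ω j, Submodule.sum_mem _ fun j _ => Submodule.smul_mem _ _ (h1 j), ?_⟩
      rw [hm, hc]
      exact Finset.sum_congr rfl fun j _ => by rw [ha]
    · intro t _ hk u hu hu0
      obtain ⟨c, hc, -⟩ := h1' u hu
      obtain ⟨c0, -, hc0⟩ := h2' 0 (Submodule.zero_mem _)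
      have e1 : (fun j => φ (c j)) = c0 := hc0 _ (by
        change (0 : KK I B) = ∑ j, φ (c j) • kmap φ (ω j)
        rw [← hm, ← hc, hu0])
      have e2 : (fun _ => (0 : B)) = c0 := hc0 _ (by simp)
      have e3 : ∀ j, φ (c j) = 0 := fun j => by
        have := congrFun (e1.trans e2.symm) j
        exact this
      choose b hb' using fun j => hk (c j) (e3 j)
      refine ⟨∑ j, b j • ω j, Submodule.sum_mem _ fun j _ => Submodule.smul_mem _ _ (h1 j), ?_⟩
      rw [hc, Finset.smul_sum]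
      exact Finset.sum_congr rfl fun j _ => by rw [hb', smul_smul]

end Pool.Agent.MG.G0
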