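import Pool.Agent.MG.G0.StmtsM

/-!
# MEX: homomorphisms to power series and formal points
-/

open TensorProduct

namespace Pool.Agent.MG.G0

namespace MEX

section

variable {I B₀ A : Type} [CommRing B₀] [CommRing A]

/-- The base change is spanned by the images of the elements of the ring. -/
theorem span_bc (φ : B₀ →+* A) (R : Subalgebra B₀ (KK I B₀)) :
    Submodule.span A (Set.range (bcMap φ R)) = ⊤ := by
  rw [eq_top_iff]
  intro x _
  have h := mem_bc_span φ R x.2
  have h1 : (Submodule.span A (Set.range (bcMap φ R))).map (bc φ R).val.toLinearMap =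
      Submodule.span A (kmap φ '' (R : Set (KK I B₀))) := by
    rw [Submodule.map_span]
    congr 1
    ext f
    constructor
    · rintro ⟨_, ⟨r, rfl⟩, rfl⟩
      exact ⟨r, r.2, rfl⟩
    · rintro ⟨r, hr, rfl⟩
      exact ⟨_, ⟨⟨r, hr⟩, rfl⟩, rfl⟩
  rw [← h1] at h
  obtain ⟨y, hy, hyx⟩ := h
  have h2 : y = x := Subtype.ext hyx
  rwa [← h2]

theorem lin_mem (φ : B₀ →+* A) (R : Subalgebra B₀ (KK I B₀)) (L : bc φ R →ₗ[A] A) (J : Ideal A)
    (hL : ∀ r : R, L (bcMap φ R r) ∈ J) (x : bc φ R) : L x ∈ J := by
  have h : (⊤ : Submodule A (bc φ R)) ≤ Submodule.comap L J := by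
    rw [← span_bc φ R, Submodule.span_le]
    rintro _ ⟨r, rfl⟩
    exact hL r
  exact h Submodule.mem_top

theorem lin_sur (φ : B₀ →+* A) (R : Subalgebra B₀ (KK I B₀)) (L : bc φ R →ₗ[A] A)
    (h : Ideal.span (Set.range fun r : R => L (bcMap φ R r)) = ⊤) : ∃ x, L x = 1 := by
  have h1 : Ideal.span (Set.range fun r : R => L (bcMap φ R r)) ≤ LinearMap.range L := by
    refine Submodule.span_le.2 ?_
    rintro _ ⟨r, rfl⟩
    exact ⟨_, rfl⟩
  rw [h] at h1
  exact h1 Submodule.mem_top

/-- The coefficient of `u`. -/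
noncomputable def c1 {R : Subalgebra A (KK I A)} (h : R →ₐ[A] PowerSeries A) : R →ₗ[A] A :=
  (PowerSeries.coeff (R := A) 1).comp h.toLinearMap

theorem c1_apply {R : Subalgebra A (KK I A)} (h : R →ₐ[A] PowerSeries A) (x : R) :
    c1 h x = PowerSeries.coeff 1 (h x) := rfl

/-- The value. -/
noncomputable def c0 {R : Subalgebra A (KK I A)} (h : R →ₐ[A] PowerSeries A) : R →ₗ[A] A :=
  (PowerSeries.coeff (R := A) 0).comp h.toLinearMap

theorem c0_apply {R : Subalgebra A (KK I A)} (h : R →ₐ[A] PowerSeries A) (x : R) :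
    c0 h x = PowerSeries.constantCoeff (h x) :=
  PowerSeries.coeff_zero_eq_constantCoeff_apply _

variable [Algebra B₀ A]

theorem bcMap_algebraMap (R : Subalgebra B₀ (KK I B₀)) (b : B₀) :
    bcMap (algebraMap B₀ A) R (algebraMap B₀ R b) =
      algebraMap A (bc (algebraMap B₀ A) R) (algebraMap B₀ A b) :=
  Subtype.ext (kmap_algebraMap (algebraMap B₀ A) b)

end

end MEX

open MEX in
theorem t_MEX (hKBC : Stmt_KBC) (hKBT : Stmt_KBT) : Stmt_MEX := by
  intro I B₀ A _ _ _ _ _ h R hR _
  refine ⟨fun p hp => ?_, fun pt => ?_, fun pt pt' hpt => ?_, fun pt p hpt => ?_⟩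
  · obtain ⟨-, e, he⟩ := hKBT (B := A) hR
    let l : (A ⊗[B₀] R) →ₐ[A] PowerSeries A :=
      Algebra.TensorProduct.lift (Algebra.ofId A (PowerSeries A)) p fun _ _ => Commute.all _ _
    let q : bc (algebraMap B₀ A) R →ₐ[A] PowerSeries A := l.comp (e.symm : _ →ₐ[A] _)
    have he1 : ∀ r : R, e (1 ⊗ₜ r) = bcMap (algebraMap B₀ A) R r := fun r =>
      Subtype.ext ((he 1 r).trans (one_smul _ _))
    have hq : ∀ r : R, q (bcMap (algebraMap B₀ A) R r) = p r := by
      intro r
      change l (e.symm (bcMap (algebraMap B₀ A) R r)) = p r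
      rw [← he1, AlgEquiv.symm_apply_apply]
      change Algebra.TensorProduct.lift _ p _ (1 ⊗ₜ r) = p r
      rw [Algebra.TensorProduct.lift_tmul, map_one, one_mul]
    obtain ⟨x, hx⟩ := lin_sur (algebraMap B₀ A) R (c1 q) (by
      have h1 : (fun r : R => c1 q (bcMap (algebraMap B₀ A) R r)) =
          fun r : R => PowerSeries.coeff 1 (p r) := funext fun r => by
        rw [c1_apply, hq]
      rw [h1]
      exact hp)
    exact ⟨⟨q, x, by
      rw [c1_apply] at hx
      rw [hx]
      exact isUnit_one⟩, hq⟩
  · let p : R →ₐ[B₀] PowerSeries A :=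
      { (pt.h : bc (algebraMap B₀ A) R →+* PowerSeries A).comp (bcMap (algebraMap B₀ A) R) with
        commutes' := fun b => by
          change pt.h (bcMap (algebraMap B₀ A) R (algebraMap B₀ R b)) = _
          rw [bcMap_algebraMap, pt.h.commutes]
          exact (IsScalarTower.algebraMap_apply B₀ A (PowerSeries A) b).symm }
    have hp : ∀ r : R, pt.h (bcMap (algebraMap B₀ A) R r) = p r := fun r => rfl
    refine ⟨p, ?_, hp⟩
    have h1 := lin_mem (algebraMap B₀ A) R (c1 pt.h)
      (Ideal.span (Set.range fun r : R => PowerSeries.coeff 1 (p r)))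
      (fun r => Ideal.subset_span ⟨r, rfl⟩) pt.x
    exact Ideal.eq_top_of_isUnit_mem _ h1 pt.par
  · have h1 : pt.h.toLinearMap = pt'.h.toLinearMap := by
      refine LinearMap.ext_on (span_bc (algebraMap B₀ A) R) ?_
      rintro _ ⟨r, rfl⟩
      exact hpt r
    exact AlgHom.ext fun x => LinearMap.congr_fun h1 x
  · set L : bc (algebraMap B₀ A) R →ₗ[A] A := c0 (pt true).h - c0 (pt false).h with hL
    have hL1 : ∀ r : R, L (bcMap (algebraMap B₀ A) R r) =
        PowerSeries.constantCoeff (p true r) - PowerSeries.constantCoeff (p false r) := by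
      intro r
      rw [hL, LinearMap.sub_apply, c0_apply, c0_apply, hpt, hpt]
    constructor
    · intro hd
      have h1 : (1 : bc (algebraMap B₀ A) R) ∈ (pt true).id ⊔ (pt false).id := by
        rw [hd true false (by decide)]
        exact Submodule.mem_top
      obtain ⟨a, ha, b, hb, hab⟩ := Submodule.mem_sup.1 h1
      rw [FPt.mem_id, FPt.ev] at ha hb
      have h2 : L a = -1 := by
        have h3 : a = 1 - b := by rw [← hab, add_sub_cancel_right]
        have h4 : PowerSeries.constantCoeff ((pt false).h a) = 1 := by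
          rw [h3, map_sub, map_sub, hb, map_one, map_one, sub_zero]
        rw [hL, LinearMap.sub_apply, c0_apply, c0_apply, ha, h4, zero_sub]
      have h3 := lin_mem (algebraMap B₀ A) R L
        (Ideal.span (Set.range fun r : R => PowerSeries.constantCoeff (p true r) -
          PowerSeries.constantCoeff (p false r)))
        (fun r => by
          rw [hL1]
          exact Ideal.subset_span ⟨r, rfl⟩) a
      rw [h2] at h3
      exact Ideal.eq_top_of_isUnit_mem _ h3 isUnit_one.neg
    · intro hd
      obtain ⟨x, hx⟩ := lin_sur (algebraMap B₀ A) R L (by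
        have h1 : (fun r : R => L (bcMap (algebraMap B₀ A) R r)) =
            fun r : R => PowerSeries.constantCoeff (p true r) -
              PowerSeries.constantCoeff (p false r) := funext hL1
        rw [h1]
        exact hd)
      have key : (pt true).id ⊔ (pt false).id = ⊤ := by
        rw [Ideal.eq_top_iff_one, Submodule.mem_sup]
        have hmem : ∀ b, x - algebraMap A _ ((pt b).ev x) ∈ (pt b).id := by
          intro b
          rw [FPt.mem_id, FPt.ev, map_sub, map_sub, AlgHom.commutes]
          change _ - PowerSeries.constantCoeff (PowerSeries.C ((pt b).ev x)) = 0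
          rw [PowerSeries.constantCoeff_C]
          exact sub_self _
        refine ⟨_, neg_mem (hmem true), _, hmem false, ?_⟩
        have h1 : (pt true).ev x - (pt false).ev x = 1 := by
          rw [← hx, hL, LinearMap.sub_apply, c0_apply, c0_apply]
          rfl
        have h2 : algebraMap A (bc (algebraMap B₀ A) R) ((pt true).ev x) -
            algebraMap A (bc (algebraMap B₀ A) R) ((pt false).ev x) = 1 := by
          rw [← map_sub, h1, map_one]
        rw [← h2]
        ring
      intro j k hjk
      rcases j <;> rcases k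
      · exact absurd rfl hjk
      · rw [sup_comm]
        exact key
      · exact key
      · exact absurd rfl hjk

end Pool.Agent.MG.G0
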