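import Pool.Agent.MG.G0.StmtsM

/-!
# MLG: THEOREM LOG for a curve with two charts (PAPER_M.md, item MLG)
-/

open TensorProduct

namespace Pool.Agent.MG.G0

namespace MLG

/-- The results used in this file. -/
structure Hy : Prop where
  kbc : Stmt_KBC
  awb : Stmt_AWB
  pl2 : Stmt_PL2
  plr : Stmt_PLR
  plf : Stmt_PLF
  mtr : Stmt_MTR
  mee : Stmt_MEE
  mfe : Stmt_MFE
  mpb : Stmt_MPB
  mpg : Stmt_MPG
  mcb : Stmt_MCB
  mvx : Stmt_MVX
  mvn : Stmt_MVN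
  mvs : Stmt_MVS
  mvf : Stmt_MVF
  mvr : Stmt_MVR
  mcm : Stmt_MCM
  mal : Stmt_MAL
  mex : Stmt_MEX

/-! ## Values and their coefficients -/

section

variable {I A B : Type} [CommRing A] [CommRing B]

/-- `v` is the reduction modulo `T` of `u`. -/
def Rd {N : ℕ} (u : KK I (TrA A N)) (v : KK I A) : Prop :=
  ∀ i n, co 0 ((u i).coeff n) = (v i).coeff n

theorem rd_iff (H : Hy) {N : ℕ} (hN : 0 < N) {π : TrA A N →ₐ[A] A} (hπ : π (tt A N) = 0)
    {u : KK I (TrA A N)} {v : KK I A} : kmap (π : TrA A N →+* A) u = v ↔ Rd u v := by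
  have e : ∀ i n, ((kmap (π : TrA A N →+* A) u) i).coeff n = co 0 ((u i).coeff n) := fun i n =>
    (H.mtr.2.2.2.2 π hπ hN _).1
  constructor
  · rintro rfl i n
    exact (e i n).symm
  · intro h
    funext i
    ext n
    rw [e, h i n]

theorem exi_pi (H : Hy) (A : Type) [CommRing A] {N : ℕ} (hN : 0 < N) :
    ∃ π : TrA A N →ₐ[A] A, π (tt A N) = 0 :=
  H.mtr.2.2.2.1 (A := A) (B := A) (N := N) 0 (zero_pow hN.ne')

/-- `y` is the coefficient of `T^m` of a value at lifts of `ω`. -/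
def Cv {g : ℕ} (E : Ev g) [Algebra ℂ A] [Fintype I] {R : Subalgebra A (KK I A)}
    (pt : Bool → FPt R) (N k m : ℕ) (ω : Fin k ⊕ Fin k → KK I A) (y : A) : Prop :=
  ∃ (u u' : Fin k → KK I (TrA A N)) (x : TrA A N), Vl E pt u u' x ∧
    (∀ i, Rd (u i) (ω (Sum.inl i))) ∧ (∀ i, Rd (u' i) (ω (Sum.inr i))) ∧ y = co m x

theorem bcr_id (H : Hy) {R : Subalgebra A (KK I A)} (p p' : FPt R) (h : p'.h = p.h) :
    Bcr (RingHom.id A) p p' := by
  refine ⟨(H.kbc.2.2.1 R).symm, fun f f' hf => ?_⟩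
  rw [kmap_id] at hf
  have : f' = f := Subtype.ext hf
  rw [this, PowerSeries.map_id, h]
  rfl

/-- The nodal curve is the reduction of the plumbed curve. -/
theorem bc_pi (H : Hy) [Fintype I] [Nonempty I] {h : ℕ} {R : Subalgebra A (KK I A)}
    (hR : SKr h R) (pt : Bool → FPt R) (hd : Disj pt) {N : ℕ} {π : TrA A N →ₐ[A] A}
    (hπ : π (tt A N) = 0) (q : Bool → FPt (bc (algebraMap A (TrA A N)) R))
    (hq : ∀ b, (pt b).Bc (algebraMap A (TrA A N)) (q b)) :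
    bc (π : TrA A N →+* A) (PT q (tt A N)) = PT pt 0 := by
  have hR' : SKr h (bc (algebraMap A (TrA A N)) R) :=
    (H.mpg hR pt hd 0 IsNilpotent.zero).2.2.2 _
  have hsc : ((π : TrA A N →+* A).comp (algebraMap A (TrA A N))) = RingHom.id A :=
    RingHom.ext fun a => π.commutes a
  have hTn : IsNilpotent (tt A N) := ⟨N, (H.mtr.1 (A := A) (N := N)).1⟩
  obtain ⟨m1, m2, m3, m4⟩ := H.mpb hR.kr hR.smc pt hd
  have b1 := m4 _ q hq
  have hdq := (m1 _ _ q b1).1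
  have b2 : ∀ b, Bcr ((π : TrA A N →+* A).comp (algebraMap A (TrA A N))) (pt b) (pt b) := by
    rw [hsc]
    exact fun b => bcr_id H (pt b) (pt b) rfl
  have b3 := m2 _ (π : TrA A N →+* A) _ _ q pt b1 b2
  have := ((H.mpb hR'.kr hR'.smc q hdq).1 (π : TrA A N →+* A) R pt b3).2 (tt A N) hTn
  rw [← this]
  change PT pt (π (tt A N)) = _
  rw [hπ]

/-- LFT: values at lifts exist. -/
theorem lft (H : Hy) [Algebra ℂ A] [Fintype I] [Nonempty I] {h : ℕ} {R : Subalgebra A (KK I A)}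
    (hR : SKr h R) (pt : Bool → FPt R) (hd : Disj pt) (E : Ev (h + 1)) {N : ℕ} (hN : 0 < N)
    (k m : ℕ) (ω : Fin k ⊕ Fin k → KK I A) (hω : ∀ i, ω i ∈ EE (PT pt (0 : A))) :
    ∃ y, Cv E pt N k m ω y := by
  obtain ⟨π, hπ⟩ := exi_pi H A hN
  obtain ⟨⟨q, hq⟩, hX, -⟩ := H.mvx hR pt hd E N k
  obtain ⟨hk1, hex, -⟩ := hX q hq
  have hsurj : Function.Surjective (π : TrA A N →+* A) := fun a =>
    ⟨algebraMap A (TrA A N) a, π.commutes a⟩
  have hlift := ((H.mee hk1 (π : TrA A N →+* A)).2.2 hsurj).1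
  rw [bc_pi H hR pt hd hπ q hq] at hlift
  choose V hV hVe using fun i => hlift (ω i) (hω i)
  obtain ⟨x, hx⟩ := hex (fun i => V (Sum.inl i)) (fun i => V (Sum.inr i)) (fun i => hV _)
    fun i => hV _
  exact ⟨co m x, _, _, x, hx, fun i => (rd_iff H hN hπ).1 (hVe _),
    fun i => (rd_iff H hN hπ).1 (hVe _), rfl⟩

/-- NAT: naturality. -/
theorem nat (H : Hy) [Algebra ℂ A] [Algebra ℂ B] [Fintype I] [Nonempty I] {h : ℕ}
    {R : Subalgebra A (KK I A)} (hR : SKr h R) (pt : Bool → FPt R) (hd : Disj pt)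
    (E : Ev (h + 1)) {N k m : ℕ} (hm : m < N) (φ : A →ₐ[ℂ] B) {R' : Subalgebra B (KK I B)}
    (pt' : Bool → FPt R') (hp : ∀ b, Bcr (φ : A →+* B) (pt b) (pt' b))
    {ω : Fin k ⊕ Fin k → KK I A} {y : A} (hy : Cv E pt N k m ω y) :
    Cv E pt' N k m (fun i => kmap (φ : A →+* B) (ω i)) (φ y) := by
  obtain ⟨u, u', x, hx, h1, h2, rfl⟩ := hy
  obtain ⟨⟨σ, hσ⟩, hc⟩ := H.mtr.2.1 (N := N) (φ : A →+* B)
  have hN : 0 < N := by omega
  have hc' := hc σ hσ
  have hr : ∀ {u : KK I (TrA A N)} {v : KK I A}, Rd u v → Rd (kmap σ u) (kmap (φ : A →+* B) v) := by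
    intro u v huv i n
    change co 0 (σ ((u i).coeff n)) = φ ((v i).coeff n)
    rw [hc' _ 0 hN, huv i n]
    rfl
  exact ⟨_, _, _, H.mvn hR pt hd E N k φ R' pt' hp σ hσ u u' x hx, fun i => hr (h1 i),
    fun i => hr (h2 i), (hc' x m hm).symm⟩

/-- SCL: rescaling. -/
theorem scl (H : Hy) [Algebra ℂ A] [Fintype I] [Nonempty I] {h : ℕ}
    {R : Subalgebra A (KK I A)} (hR : SKr h R) (pt : Bool → FPt R) (hd : Disj pt)
    (E : Ev (h + 1)) {N k m : ℕ} (hm : m < N) (c : Bool → Aˣ)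
    {ω : Fin k ⊕ Fin k → KK I A} {y : A} (hy : Cv E pt N k m ω y) :
    Cv E (fun b => (pt b).resc (c b)) N k m ω
      (((((c true)⁻¹ : Aˣ) : A) * (((c false)⁻¹ : Aˣ) : A)) ^ k *
        (((c true : A) * (c false : A)) ^ m * y)) := by
  obtain ⟨u, u', x, hx, h1, h2, rfl⟩ := hy
  obtain ⟨⟨ψ, hψ⟩, hc⟩ := H.mtr.2.2.1 (A := A) (N := N) ((c true : A) * (c false : A))
  have hN : 0 < N := by omega
  have hc' := hc ψ hψ
  have hr : ∀ {u : KK I (TrA A N)} {v : KK I A}, Rd u v →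
      Rd (kmap (ψ : TrA A N →+* TrA A N) u) v := by
    intro u v huv i n
    change co 0 (ψ ((u i).coeff n)) = (v i).coeff n
    rw [hc' _ 0 hN, huv i n, pow_zero, one_mul]
  refine ⟨_, _, _, H.mvs hR pt hd E N k c ψ hψ u u' x hx, fun i => hr (h1 i),
    fun i => hr (h2 i), ?_⟩
  rw [(H.mtr.1 (A := A) (N := N)).2.2.2.1 _ _ m hm, hc' x m hm]

/-- FGT: forgetting punctures. -/
theorem fgt (H : Hy) {J : Type} [Algebra ℂ A] [Fintype I] [Nonempty I] [Fintype J] {h : ℕ}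
    {W : Subalgebra A (KK (I ⊕ J) A)} {R : Subalgebra A (KK I A)} (hW : SKr h W) (hR : SKr h R)
    (hF : Forget W R) (pt : Bool → FPt W) (pt₁ : Bool → FPt R) (hp : ∀ b, (pt b).Rs (pt₁ b))
    (hd : Disj pt) (E : Ev (h + 1)) {N k m : ℕ} (hm : m + 1 < N)
    {ω : Fin k ⊕ Fin k → KK (I ⊕ J) A} {y : A} (hy : Cv E pt N k m ω y) :
    Cv E pt₁ N k m (fun i => atI (ω i)) y := by
  obtain ⟨u, u', x, hx, h1, h2, rfl⟩ := hy
  obtain ⟨y, hy, hxy⟩ := (H.mvf hW hR hF pt pt₁ hp hd E).1 N k u u' x hx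
  exact ⟨_, _, y, hy, fun i j n => h1 i (Sum.inl j) n, fun i j n => h2 i (Sum.inl j) n,
    hxy m hm⟩

/-- RIX: change of the index set. -/
theorem rix (H : Hy) {I' : Type} [Algebra ℂ A] [Fintype I] [Nonempty I] [Fintype I']
    [Nonempty I'] {h : ℕ} {R : Subalgebra A (KK I A)} (e : I' ≃ I) (hR : SKr h R)
    (pt : Bool → FPt R) (pt₁ : Bool → FPt (reix e R)) (hd : Disj pt)
    (hp : ∀ (b : Bool) (f : R) (f' : reix e R), (∀ i, (f' : KK I' A) i = (f : KK I A) (e i)) →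
      (pt₁ b).h f' = (pt b).h f) (E : Ev (h + 1)) {N k m : ℕ}
    {ω : Fin k ⊕ Fin k → KK I A} {y : A} (hy : Cv E pt N k m ω y) :
    Cv E pt₁ N k m (fun j i => ω j (e i)) y := by
  obtain ⟨u, u', x, hx, h1, h2, rfl⟩ := hy
  exact ⟨_, _, x, (H.mvr e hR).2 pt pt₁ hd hp E N k u u' x hx, fun i j n => h1 i (e j) n,
    fun i j n => h2 i (e j) n, rfl⟩

/-- The entries of a family with a value are regular differentials of the nodal curve. -/
theorem cv_mem (H : Hy) [Algebra ℂ A] [Fintype I] [Nonempty I] {h : ℕ}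
    {R : Subalgebra A (KK I A)} (hR : SKr h R) (pt : Bool → FPt R) (hd : Disj pt)
    (E : Ev (h + 1)) {N k m : ℕ} (hN : 0 < N) {ω : Fin k ⊕ Fin k → KK I A} {y : A}
    (hy : Cv E pt N k m ω y) (i : Fin k ⊕ Fin k) : ω i ∈ EE (PT pt (0 : A)) := by
  obtain ⟨u, u', x, ⟨q, hq, hu, hu', -⟩, h1, h2, -⟩ := hy
  obtain ⟨π, hπ⟩ := exi_pi H A hN
  obtain ⟨-, hX, -⟩ := H.mvx hR pt hd E N k
  obtain ⟨hk1, -, -⟩ := hX q hq
  have hm := (H.mee hk1 (π : TrA A N →+* A)).1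
  rw [bc_pi H hR pt hd hπ q hq] at hm
  rcases i with i | i
  · rw [← (rd_iff H hN hπ).2 (h1 i)]
    exact hm _ (hu i)
  · rw [← (rd_iff H hN hπ).2 (h2 i)]
    exact hm _ (hu' i)

/-- The coefficients of `T^m` are given by a multilinear form. -/
theorem mlt (H : Hy) [Algebra ℂ A] [Fintype I] [Nonempty I] {h : ℕ}
    {R : Subalgebra A (KK I A)} (hR : SKr h R) (pt : Bool → FPt R) (hd : Disj pt)
    (E : Ev (h + 1)) {N k m : ℕ} (hm : m < k) (hk : k < N) (hI : IHm E pt N k m) :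
    ∃ M : MultilinearMap A (fun _ : Fin k ⊕ Fin k => EE (PT pt (0 : A))) A,
      ∀ (ω : Fin k ⊕ Fin k → EE (PT pt (0 : A))) (y : A),
        Cv E pt N k m (fun i => (ω i : KK I A)) y → y = M ω := by
  have hN : 0 < N := by omega
  obtain ⟨π, hπ⟩ := exi_pi H A hN
  obtain ⟨M, hM, -⟩ := H.mcm hR pt hd E N k m hm hk hI π hπ
  refine ⟨M, fun ω y hy => ?_⟩
  obtain ⟨u, u', x, hx, h1, h2, rfl⟩ := hy
  exact hM ω u u' x hx (fun i => (rd_iff H hN hπ).2 (h1 i)) fun i => (rd_iff H hN hπ).2 (h2 i)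

end

/-! ## Families -/

section

variable {I A B n : Type} [CommRing A] [CommRing B]

/-- A family of differentials on the nodal curve: `f` outside `Z`, with residue one in `Z`. -/
def Fm [Fintype I] {R : Subalgebra A (KK I A)} (pt : Bool → FPt R) (Z : Finset n)
    (f ω : n → KK I A) : Prop :=
  (∀ i, i ∉ Z → ω i = f i) ∧ ∀ i ∈ Z, ω i ∈ EE (PT pt (0 : A)) ∧ IsRho pt (ω i) 1

theorem fm_mem (H : Hy) [Fintype I] [Nonempty I] {h : ℕ} {R : Subalgebra A (KK I A)}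
    (hR : SKr h R) (pt : Bool → FPt R) (hd : Disj pt) {Z : Finset n} {f ω : n → KK I A}
    (hf : ∀ i, f i ∈ EE R) (hω : Fm pt Z f ω) (i : n) : ω i ∈ EE (PT pt (0 : A)) := by
  by_cases hi : i ∈ Z
  · exact (hω.2 i hi).1
  · rw [hω.1 i hi]
    exact ((H.plr hR.kr hR.smc pt hd).2.2.1 _ (hf i)).1

theorem fm_exi (H : Hy) [Fintype I] [Nonempty I] {h : ℕ} {R : Subalgebra A (KK I A)}
    (hR : SKr h R) (pt : Bool → FPt R) (hd : Disj pt) (Z : Finset n) (f : n → KK I A) :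
    ∃ ω, Fm pt Z f ω := by
  classical
  obtain ⟨η, h1, h2⟩ := (H.plr hR.kr hR.smc pt hd).2.2.2 1
  refine ⟨fun i => if i ∈ Z then η else f i, fun i hi => if_neg hi, fun i hi => ?_⟩
  simp only [if_pos hi]
  exact ⟨h1, h2⟩

theorem ev_eq {R : Subalgebra A (KK I A)} (p : FPt R) (f : R) :
    p.ev f = PowerSeries.coeff 0 (p.h f) :=
  (PowerSeries.coeff_zero_eq_constantCoeff_apply _).symm

/-- The value of the base change of a formal point. -/
theorem ev_bcr {φ : A →+* B} {R : Subalgebra A (KK I A)} {R' : Subalgebra B (KK I B)}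
    {p : FPt R} {p' : FPt R'} (hp : Bcr φ p p') (f : R) (f' : R')
    (hf : (f' : KK I B) = kmap φ (f : KK I A)) : p'.ev f' = φ (p.ev f) := by
  rw [ev_eq, ev_eq, hp.2 f f' hf, PowerSeries.coeff_map]

/-- The residue is compatible with base change. -/
theorem rho_bcr [Fintype I] {φ : A →+* B} {R : Subalgebra A (KK I A)}
    {R' : Subalgebra B (KK I B)} {pt : Bool → FPt R} {pt' : Bool → FPt R'}
    (hp : ∀ b, Bcr φ (pt b) (pt' b)) {η : KK I A} {ρ : A} (hη : IsRho pt η ρ) :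
    IsRho pt' (kmap φ η) (φ ρ) := by
  intro r'
  have hr : (r' : KK I B) ∈ bc φ R := by
    rw [← (hp true).1]
    exact r'.2
  have key : ∀ f ∈ Submodule.span B (kmap φ '' (R : Set (KK I A))), ∀ hf : f ∈ R',
      res (kmap φ η * f) =
        -(φ ρ * ((pt' true).ev ⟨f, hf⟩ - (pt' false).ev ⟨f, hf⟩)) := by
    intro f hf
    have hsub : ∀ g ∈ Submodule.span B (kmap φ '' (R : Set (KK I A))), g ∈ R' := by
      intro g hg
      rw [(hp true).1]
      change g ∈ Subalgebra.toSubmodule (bc φ R)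
      revert g
      refine Submodule.span_le.2 ?_
      rintro _ ⟨x, hx, rfl⟩
      exact kmap_mem_bc φ hx
    have hadd : ∀ (b : Bool) (x y : R'), (pt' b).ev (x + y) = (pt' b).ev x + (pt' b).ev y :=
      fun b x y => by rw [FPt.ev, FPt.ev, FPt.ev, map_add, map_add]
    have hsmul : ∀ (b : Bool) (c : B) (x : R'), (pt' b).ev (c • x) = c * (pt' b).ev x :=
      fun b c x => by
        rw [ev_eq, ev_eq, map_smul, map_smul, smul_eq_mul]
    refine Submodule.span_induction (p := fun f _ => ∀ hf : f ∈ R', res (kmap φ η * f) =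
        -(φ ρ * ((pt' true).ev ⟨f, hf⟩ - (pt' false).ev ⟨f, hf⟩))) ?_ ?_ ?_ ?_ hf
    · rintro _ ⟨x, hx, rfl⟩ hf
      rw [← map_mul, res_kmap, hη ⟨x, hx⟩, ev_bcr (hp true) ⟨x, hx⟩ ⟨_, hf⟩ rfl,
        ev_bcr (hp false) ⟨x, hx⟩ ⟨_, hf⟩ rfl, map_neg, map_mul, map_sub]
    · intro hf
      have e : (⟨0, hf⟩ : R') = 0 := rfl
      have h0 : ∀ b, (pt' b).ev (0 : R') = 0 := fun b => by
        rw [FPt.ev, map_zero, map_zero]
      rw [e, h0, h0, mul_zero, map_zero, sub_zero, mul_zero, neg_zero]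
    · intro x y hx hy h1 h2 hf
      have e : (⟨x + y, hf⟩ : R') = ⟨x, hsub x hx⟩ + ⟨y, hsub y hy⟩ := rfl
      rw [e, hadd, hadd, mul_add, map_add, h1 (hsub x hx), h2 (hsub y hy)]
      ring
    · intro c x hx h1 hf
      have e : (⟨c • x, hf⟩ : R') = c • ⟨x, hsub x hx⟩ := rfl
      rw [e, hsmul, hsmul, mul_smul_comm, map_smul, h1 (hsub x hx), smul_eq_mul]
      ring
  exact key _ (mem_bc_span φ R hr) r'.2

/-- Families are compatible with base change. -/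
theorem fm_nat (H : Hy) [Fintype I] [Nonempty I] {h : ℕ} {R : Subalgebra A (KK I A)}
    (hR : SKr h R) (pt : Bool → FPt R) (hd : Disj pt) (φ : A →+* B)
    {R' : Subalgebra B (KK I B)} (pt' : Bool → FPt R') (hp : ∀ b, Bcr φ (pt b) (pt' b))
    {Z : Finset n} {f ω : n → KK I A} (hω : Fm pt Z f ω) :
    Fm pt' Z (fun i => kmap φ (f i)) fun i => kmap φ (ω i) := by
  have hb : PT pt' (0 : B) = bc φ (PT pt 0) := by
    rw [← ((H.mpb hR.kr hR.smc pt hd).1 φ R' pt' hp).2 0 IsNilpotent.zero, map_zero]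
  refine ⟨fun i hi => ?_, fun i hi => ⟨?_, ?_⟩⟩
  · exact congrArg (kmap φ) (hω.1 i hi)
  · rw [hb]
    exact (H.mee (H.mpg hR pt hd 0 IsNilpotent.zero).1.1 φ).1 _ (hω.2 i hi).1
  · have := rho_bcr hp (hω.2 i hi).2
    rwa [map_one] at this

/-- Families and rescaling. -/
theorem fm_scl (H : Hy) [Fintype I] {R : Subalgebra A (KK I A)} (pt : Bool → FPt R)
    (c : Bool → Aˣ) {Z : Finset n} {f ω : n → KK I A} (hω : Fm pt Z f ω) :
    Fm (fun b => (pt b).resc (c b)) Z f ω := by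
  refine ⟨hω.1, fun i hi => ⟨?_, ?_⟩⟩
  · rw [(H.pl2.2.1 pt c 0).2, mul_zero]
    exact (hω.2 i hi).1
  · intro r
    have hev : ∀ b, ((pt b).resc (c b)).ev r = (pt b).ev r := fun b => by
      rw [ev_eq, ev_eq]
      change PowerSeries.coeff 0 (PowerSeries.rescale (c b : A) ((pt b).h r)) = _
      rw [PowerSeries.coeff_rescale, pow_zero, one_mul]
    rw [hev, hev]
    exact (hω.2 i hi).2 r

/-- Families and forgetting punctures. -/
theorem fm_fgt (H : Hy) {J : Type} [Fintype I] [Nonempty I] [Fintype J] {h : ℕ}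
    {W : Subalgebra A (KK (I ⊕ J) A)} {R : Subalgebra A (KK I A)} (hW : SKr h W) (hR : SKr h R)
    (hF : Forget W R) (pt : Bool → FPt W) (pt₁ : Bool → FPt R) (hp : ∀ b, (pt b).Rs (pt₁ b))
    (hd : Disj pt) {Z : Finset n} {f ω : n → KK (I ⊕ J) A} (hω : Fm pt Z f ω) :
    Fm pt₁ Z (fun i => atI (f i)) fun i => atI (ω i) := by
  obtain ⟨hd₁, hF'⟩ := (H.plf hW.kr hR.kr hW.smc hR.smc hF).2 pt pt₁ hp hd
  have g1 := (H.mpg hW pt hd 0 IsNilpotent.zero).1.1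
  have g2 := (H.mpg hR pt₁ hd₁ 0 IsNilpotent.zero).1.1
  refine ⟨fun i hi => ?_, fun i hi => ⟨?_, ?_⟩⟩
  · exact congrArg atI (hω.1 i hi)
  · exact (H.mfe.1 g1 g2 (hF' 0 IsNilpotent.zero)).1 _ (hω.2 i hi).1
  · exact H.mfe.2 hF pt pt₁ hp _ _ (hω.2 i hi).1.2 (hω.2 i hi).2

end

/-! ## Values at pairs of formal points -/

section

variable {B₀ I : Type} [CommRing B₀] [Fintype I]

/-- `y` is the value for a family `f`, `Z` at the formal points `p`. -/
def Rc {g : ℕ} (E : Ev g) (N k m : ℕ) (Z : Finset (Fin k ⊕ Fin k))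
    {R : Subalgebra B₀ (KK I B₀)} (f : Fin k ⊕ Fin k → KK I B₀) {A : Type} [CommRing A]
    [Algebra B₀ A] [Algebra ℂ A] (p : Bool → (R →ₐ[B₀] PowerSeries A)) (y : A) : Prop :=
  ∃ pt : Bool → FPt (bc (algebraMap B₀ A) R),
    (∀ b r, (pt b).h (bcMap (algebraMap B₀ A) R r) = p b r) ∧ Disj pt ∧
    ∃ ω, Fm pt Z (fun i => kmap (algebraMap B₀ A) (f i)) ω ∧ Cv E pt N k m ω y

/-- The values do not depend on the family. -/
def Ind {g : ℕ} (E : Ev g) (N k m : ℕ) (Z : Finset (Fin k ⊕ Fin k))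
    {R : Subalgebra B₀ (KK I B₀)} (c : R) (f : Fin k ⊕ Fin k → KK I B₀) (A : Type) [CommRing A]
    [Algebra B₀ A] [Algebra ℂ A] : Prop :=
  ∀ pt : Bool → FPt (bc (algebraMap B₀ A) R), Disj pt →
    (∀ x, IsUnit ((pt x).ev (bcMap (algebraMap B₀ A) R c))) → ∀ ω ω' y y',
    Fm pt Z (fun i => kmap (algebraMap B₀ A) (f i)) ω →
    Fm pt Z (fun i => kmap (algebraMap B₀ A) (f i)) ω' →
    Cv E pt N k m ω y → Cv E pt N k m ω' y' → y = y'

variable [Nonempty I] {h : ℕ} (E : Ev (h + 1)) {N k m : ℕ} {Z : Finset (Fin k ⊕ Fin k)}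
  {R : Subalgebra B₀ (KK I B₀)} {f : Fin k ⊕ Fin k → KK I B₀}
  {A : Type} [CommRing A] [Algebra B₀ A] [Algebra ℂ A]

theorem rc_uniq (H : Hy) (hR : SKr h R) (hRA : SKr h (bc (algebraMap B₀ A) R)) (hm : m < N)
    {c : R} (hi : Ind E N k m Z c f A) {p : Bool → (R →ₐ[B₀] PowerSeries A)}
    (hu : ∀ x, IsUnit (PowerSeries.constantCoeff (p x c))) {y y' : A}
    (hy : Rc E N k m Z f p y) (hy' : Rc E N k m Z f p y') : y = y' := by
  obtain ⟨pt, hp, hd, ω, hω, hc⟩ := hy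
  obtain ⟨pt', hp', hd', ω', hω', hc'⟩ := hy'
  have hh : ∀ b, (pt' b).h = (pt b).h := fun b =>
    (H.mex (A := A) hR.kr hR.smc).2.2.1 (pt' b) (pt b) fun r => by rw [hp', hp]
  have hb : ∀ b, Bcr (RingHom.id A) (pt b) (pt' b) := fun b => bcr_id H (pt b) (pt' b) (hh b)
  have h1 := nat H hRA pt hd E hm (AlgHom.id ℂ A) pt' hb hc
  have h2 := fm_nat H hRA pt hd (RingHom.id A) pt' hb hω
  refine hi pt' hd' (fun x => ?_) ω ω' y y' h2 hω' h1 hc'
  rw [FPt.ev, hp']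
  exact hu x

theorem rc_exi (H : Hy) (hR : SKr h R) (hRA : SKr h (bc (algebraMap B₀ A) R)) (hN : 0 < N)
    (m : ℕ) (Z : Finset (Fin k ⊕ Fin k)) (hf : ∀ i, f i ∈ EE R)
    {p : Bool → (R →ₐ[B₀] PowerSeries A)} (hp : ∀ b, FPm (p b))
    (hd : DJm (p true) (p false)) : ∃ y, Rc E N k m Z f p y := by
  obtain ⟨m1, -, -, m4⟩ := H.mex (A := A) hR.kr hR.smc
  choose pt hpt using fun b => m1 (p b) (hp b)
  have hdp : Disj pt := (m4 pt p hpt).2 hd
  obtain ⟨ω, hω⟩ := fm_exi H hRA pt hdp Z fun i => kmap (algebraMap B₀ A) (f i)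
  have hf' : ∀ i, kmap (algebraMap B₀ A) (f i) ∈ EE (bc (algebraMap B₀ A) R) := fun i =>
    (H.mee hR.kr (algebraMap B₀ A)).1 _ (hf i)
  obtain ⟨y, hy⟩ := lft H hRA pt hdp E hN k m ω fun i => fm_mem H hRA pt hdp hf' hω i
  exact ⟨y, pt, hpt, hdp, ω, hω, hy⟩

omit [Fintype I] [Nonempty I] in
/-- Base change of formal points. -/
theorem bcr_exi [Fintype I] [Nonempty I] (H : Hy) {A B : Type} [CommRing A] [CommRing B] {g : ℕ}
    {P : Subalgebra A (KK I A)} (hP : IsKr g P) (pt : FPt P) (φ : A →+* B)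
    {Q : Subalgebra B (KK I B)} (hQ : Q = bc φ P) : ∃ pt' : FPt Q, Bcr φ pt pt' := by
  subst hQ
  obtain ⟨pt', hp, -⟩ := (H.awb hP φ).1 pt
  refine ⟨pt', rfl, fun f f' hf => ?_⟩
  have e : f' = bcMap φ P f := Subtype.ext hf
  rw [e]
  exact hp.1 f

theorem rc_nat (H : Hy) (hRA : SKr h (bc (algebraMap B₀ A) R)) (hm : m < N) {B : Type}
    [CommRing B] [Algebra B₀ B] [Algebra ℂ B] (φ : A →ₐ[ℂ] B)
    (hφ : ∀ b, φ (algebraMap B₀ A b) = algebraMap B₀ B b)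
    {p : Bool → (R →ₐ[B₀] PowerSeries A)} {p' : Bool → (R →ₐ[B₀] PowerSeries B)}
    (hp : ∀ b r, p' b r = PowerSeries.map (φ : A →+* B) (p b r)) {y : A}
    (hy : Rc E N k m Z f p y) : Rc E N k m Z f p' (φ y) := by
  obtain ⟨pt, hpt, hd, ω, hω, hc⟩ := hy
  have hcm : algebraMap B₀ B = (φ : A →+* B).comp (algebraMap B₀ A) :=
    RingHom.ext fun b => (hφ b).symm
  have hQ : bc (algebraMap B₀ B) R = bc (φ : A →+* B) (bc (algebraMap B₀ A) R) := by
    rw [hcm]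
    exact H.kbc.2.1 _ _ R
  choose pt' hpt' using fun b => bcr_exi H hRA.kr (pt b) (φ : A →+* B) hQ
  have hk : ∀ x : KK I B₀, kmap (algebraMap B₀ B) x =
      kmap (φ : A →+* B) (kmap (algebraMap B₀ A) x) := fun x => by
    rw [hcm]
    rfl
  refine ⟨pt', fun b r => ?_, ((H.mpb hRA.kr hRA.smc pt hd).1 _ _ pt' hpt').1,
    fun i => kmap (φ : A →+* B) (ω i), ?_, nat H hRA pt hd E hm φ pt' hpt' hc⟩
  · rw [(hpt' b).2 (bcMap (algebraMap B₀ A) R r) (bcMap (algebraMap B₀ B) R r) (hk r), hpt, hp]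
  · have := fm_nat H hRA pt hd (φ : A →+* B) pt' hpt' hω
    simpa only [hk] using this

theorem rc_wt (H : Hy) (hRA : SKr h (bc (algebraMap B₀ A) R)) (hm : m < N) (c : Bool → Aˣ)
    {p p' : Bool → (R →ₐ[B₀] PowerSeries A)}
    (hp : ∀ b r, p' b r = PowerSeries.rescale (c b : A) (p b r)) {y : A}
    (hy : Rc E N k m Z f p y) : Rc E N k m Z f p'
      (((((c true)⁻¹ : Aˣ) : A) * (((c false)⁻¹ : Aˣ) : A)) ^ k *
        (((c true : A) * (c false : A)) ^ m * y)) := by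
  obtain ⟨pt, hpt, hd, ω, hω, hc⟩ := hy
  refine ⟨fun b => (pt b).resc (c b), fun b r => ?_, fun i j hij => ?_, ω,
    fm_scl H pt c hω, scl H hRA pt hd E hm c hc⟩
  · change PowerSeries.rescale (c b : A) ((pt b).h (bcMap (algebraMap B₀ A) R r)) = _
    rw [hpt, hp]
  · have := (H.pl2.2.1 pt c 0).1
    rw [this, this]
    exact hd i j hij

/-- Values and forgetting punctures. -/
theorem rc_fgt (H : Hy) {J : Type} [Fintype J] {W : Subalgebra B₀ (KK (I ⊕ J) B₀)}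
    {f : Fin k ⊕ Fin k → KK (I ⊕ J) B₀}
    (hWA : SKr h (bc (algebraMap B₀ A) W)) (hRA : SKr h (bc (algebraMap B₀ A) R))
    (hF : Forget (bc (algebraMap B₀ A) W) (bc (algebraMap B₀ A) R)) (hm : m + 1 < N)
    (ι : R →ₐ[B₀] W)
    (he : ∀ (r : R) (i : I), (ι r : KK (I ⊕ J) B₀) (Sum.inl i) = (r : KK I B₀) i)
    (hr : ∀ (r : R) (i : J), ∀ m < 0, ((ι r : KK (I ⊕ J) B₀) (Sum.inr i)).coeff m = 0)
    {p : Bool → (W →ₐ[B₀] PowerSeries A)} {y : A} (hy : Rc E N k m Z f p y) :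
    Rc E N k m Z (fun i => atI (f i)) (fun b => (p b).comp ι) y := by
  obtain ⟨pt, hpt, hd, ω, hω, hc⟩ := hy
  obtain ⟨l1, l2⟩ := H.plf hWA.kr hRA.kr hWA.smc hRA.smc hF
  choose pt₁ hpt₁ using fun b => l1 (pt b)
  refine ⟨pt₁, fun b r => ?_, (l2 pt pt₁ hpt₁ hd).1, fun i => atI (ω i),
    fm_fgt H hWA hRA hF pt pt₁ hpt₁ hd hω, fgt H hWA hRA hF pt pt₁ hpt₁ hd E hm hc⟩
  have e1 : atI ((bcMap (algebraMap B₀ A) W (ι r) : bc (algebraMap B₀ A) W) :
      KK (I ⊕ J) A) = (bcMap (algebraMap B₀ A) R r : bc (algebraMap B₀ A) R) := by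
    funext i
    change lmap (algebraMap B₀ A) ((ι r : KK (I ⊕ J) B₀) (Sum.inl i)) = _
    rw [he]
    rfl
  have e2 : atJ ((bcMap (algebraMap B₀ A) W (ι r) : bc (algebraMap B₀ A) W) :
      KK (I ⊕ J) A) ∈ Pol J A 0 := by
    intro i n hn
    change (algebraMap B₀ A) (((ι r : KK (I ⊕ J) B₀) (Sum.inr i)).coeff n) = 0
    rw [hr r i n (by simpa using hn), map_zero]
  rw [hpt₁ b _ _ e1 e2, hpt]
  rfl

end

/-! ## Change of the index set -/

section

variable {I I' A : Type} [CommRing A]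

/-- The isomorphism of `reix e P` with `P`. -/
noncomputable def toP (e : I' ≃ I) (P : Subalgebra A (KK I A)) : reix e P →ₐ[A] P where
  toFun f := ⟨fun i => (f : KK I' A) (e.symm i), f.2⟩
  map_one' := rfl
  map_zero' := rfl
  map_add' _ _ := rfl
  map_mul' _ _ := rfl
  commutes' _ := rfl

/-- The isomorphism of `P` with `reix e P`. -/
noncomputable def ofP (e : I' ≃ I) (P : Subalgebra A (KK I A)) : P →ₐ[A] reix e P where
  toFun f := ⟨fun i => (f : KK I A) (e i), by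
    change (fun i => (f : KK I A) (e (e.symm i))) ∈ P
    simpa only [Equiv.apply_symm_apply] using f.2⟩
  map_one' := rfl
  map_zero' := rfl
  map_add' _ _ := rfl
  map_mul' _ _ := rfl
  commutes' _ := rfl

theorem toP_ofP (e : I' ≃ I) (P : Subalgebra A (KK I A)) (f : P) : toP e P (ofP e P f) = f :=
  Subtype.ext (funext fun i => by
    change (f : KK I A) (e (e.symm i)) = _
    rw [Equiv.apply_symm_apply])

theorem toP_eq (e : I' ≃ I) (P : Subalgebra A (KK I A)) (f : P) (f' : reix e P)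
    (h : ∀ i, (f' : KK I' A) i = (f : KK I A) (e i)) : toP e P f' = f :=
  Subtype.ext (funext fun i => by
    change (f' : KK I' A) (e.symm i) = _
    rw [h, Equiv.apply_symm_apply])

/-- The formal point of `reix e P`. -/
noncomputable def rpt (e : I' ≃ I) {P : Subalgebra A (KK I A)} (pt : FPt P) :
    FPt (reix e P) where
  h := pt.h.comp (toP e P)
  x := ofP e P pt.x
  par := by
    rw [AlgHom.comp_apply, toP_ofP]
    exact pt.par

theorem res_idx [Fintype I] [Fintype I'] (e : I' ≃ I) (f : KK I A) :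
    res (fun i => f (e i) : KK I' A) = res f :=
  Equiv.sum_comp e fun i => (f i).coeff (-1)

theorem disj_rpt (e : I' ≃ I) {P : Subalgebra A (KK I A)} {pt : Bool → FPt P}
    (hd : Disj pt) : Disj fun b => rpt e (pt b) := by
  intro i j hij
  have h := hd i j hij
  rw [Ideal.eq_top_iff_one, Submodule.mem_sup] at h ⊢
  obtain ⟨a, ha, b, hb, hab⟩ := h
  refine ⟨ofP e P a, ?_, ofP e P b, ?_, by rw [← map_add, hab, map_one]⟩
  · change PowerSeries.constantCoeff ((pt i).h (toP e P (ofP e P a))) = 0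
    rw [toP_ofP]
    exact ha
  · change PowerSeries.constantCoeff ((pt j).h (toP e P (ofP e P b))) = 0
    rw [toP_ofP]
    exact hb

theorem ee_idx [Fintype I] [Fintype I'] (e : I' ≃ I) {P : Subalgebra A (KK I A)} {u : KK I A}
    (hu : u ∈ EE P) : (fun i => u (e i) : KK I' A) ∈ EE (reix e P) := by
  refine ⟨fun p hp => ?_, fun i m hm => hu.2 (e i) m hm⟩
  have h := hu.1 _ hp
  rw [← res_idx e] at h
  have e1 : (fun i => (u * fun i => p (e.symm i) : KK I A) (e i) : KK I' A) =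
      (fun i => u (e i) : KK I' A) * p := by
    funext i
    change u (e i) * p (e.symm (e i)) = u (e i) * p i
    rw [Equiv.symm_apply_apply]
  rwa [e1] at h

theorem ee_idx' [Fintype I] [Fintype I'] (e : I' ≃ I) {P : Subalgebra A (KK I A)} {u : KK I' A}
    (hu : u ∈ EE (reix e P)) : (fun i => u (e.symm i) : KK I A) ∈ EE P := by
  refine ⟨fun p hp => ?_, fun i m hm => hu.2 (e.symm i) m hm⟩
  have hp' : (fun i => p (e i) : KK I' A) ∈ reix e P := (ofP e P ⟨p, hp⟩).2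
  have h := hu.1 _ hp'
  rw [← res_idx e]
  have e1 : (fun i => ((fun i => u (e.symm i) : KK I A) * p) (e i) : KK I' A) =
      u * (fun i => p (e i) : KK I' A) := by
    funext i
    change u (e.symm (e i)) * p (e i) = u i * p (e i)
    rw [Equiv.symm_apply_apply]
  rwa [e1]

theorem rix_aux (H : Hy) [Algebra ℂ A] [Fintype I] [Nonempty I] [Fintype I'] [Nonempty I']
    {h : ℕ} (E : Ev (h + 1)) {N k m : ℕ} {Z : Finset (Fin k ⊕ Fin k)} (hN : 0 < N)
    (e : I' ≃ I) {P : Subalgebra A (KK I A)} (hP : SKr h P) {Q : Subalgebra A (KK I' A)}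
    (hQ : Q = reix e P) (pt : Bool → FPt P) (hd : Disj pt) {f ω : Fin k ⊕ Fin k → KK I A}
    (hω : Fm pt Z f ω) {y : A} (hc : Cv E pt N k m ω y) :
    ∃ pt₁ : Bool → FPt Q, (∀ (b : Bool) (f : P) (f' : Q),
      (∀ i, (f' : KK I' A) i = (f : KK I A) (e i)) → (pt₁ b).h f' = (pt b).h f) ∧
      Disj pt₁ ∧ Fm pt₁ Z (fun j i => f j (e i)) (fun j i => ω j (e i)) ∧
      Cv E pt₁ N k m (fun j i => ω j (e i)) y := by
  subst hQ
  have hp : ∀ (b : Bool) (f : P) (f' : reix e P),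
      (∀ i, (f' : KK I' A) i = (f : KK I A) (e i)) → (rpt e (pt b)).h f' = (pt b).h f := by
    intro b f f' hf
    change (pt b).h (toP e P f') = _
    rw [toP_eq e P f f' hf]
  have hc' := rix H e hP pt (fun b => rpt e (pt b)) hd hp E hc
  have hd' := disj_rpt e hd
  refine ⟨fun b => rpt e (pt b), hp, hd', ⟨fun i hi => ?_, fun i hi => ⟨?_, ?_⟩⟩, hc'⟩
  · funext j
    exact congrFun (hω.1 i hi) (e j)
  · exact cv_mem H (H.mvr e hP).1 _ hd' E hN hc' i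
  · intro r'
    have h := (hω.2 i hi).2 (toP e P r')
    rw [← res_idx e] at h
    have e1 : (fun j => (ω i * (toP e P r' : KK I A)) (e j) : KK I' A) =
        (fun j => ω i (e j) : KK I' A) * (r' : KK I' A) := by
      funext j
      change ω i (e j) * (r' : KK I' A) (e.symm (e j)) = ω i (e j) * (r' : KK I' A) j
      rw [Equiv.symm_apply_apply]
    rw [e1] at h
    exact h

theorem rc_rix {B₀ : Type} [CommRing B₀] (H : Hy) [Algebra B₀ A] [Algebra ℂ A] [Fintype I]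
    [Nonempty I] [Fintype I'] [Nonempty I'] {h : ℕ} (E : Ev (h + 1)) {N k m : ℕ}
    {Z : Finset (Fin k ⊕ Fin k)} (hN : 0 < N) (e : I' ≃ I) {R : Subalgebra B₀ (KK I B₀)}
    (hRA : SKr h (bc (algebraMap B₀ A) R)) {f : Fin k ⊕ Fin k → KK I B₀}
    {p : Bool → (R →ₐ[B₀] PowerSeries A)} {y : A} (hy : Rc E N k m Z f p y) :
    Rc E N k m Z (fun j i => f j (e i)) (fun b => (p b).comp (toP e R)) y := by
  obtain ⟨pt, hpt, hd, ω, hω, hc⟩ := hy
  obtain ⟨pt₁, h1, h2, h3, h4⟩ := rix_aux H E hN e hRA (H.mcb.2.1 (algebraMap B₀ A) e R) pt hd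
    hω hc
  refine ⟨pt₁, fun b r => ?_, h2, _, h3, h4⟩
  rw [h1 b (bcMap (algebraMap B₀ A) R (toP e R r)) (bcMap (algebraMap B₀ A) (reix e R) r), hpt]
  · rfl
  · intro i
    change lmap (algebraMap B₀ A) ((r : KK I' B₀) i) =
      lmap (algebraMap B₀ A) ((r : KK I' B₀) (e.symm (e i)))
    rw [Equiv.symm_apply_apply]

end

/-! ## The induction step -/

section

/-- A situation: one of the two charts, an algebra `A` and two formal points. -/
structure Sit {B₀ : Type} [CommRing B₀] [Algebra ℂ B₀] (I : Bool → Type)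
    (R : ∀ j, Subalgebra B₀ (KK (I j) B₀)) (bb : ∀ j, R j) : Type 1 where
  /-- the chart -/
  j : Bool
  /-- the algebra -/
  A : Type
  [cr : CommRing A]
  [al : Algebra B₀ A]
  [cl : Algebra ℂ A]
  [tw : IsScalarTower ℂ B₀ A]
  /-- the formal points -/
  pt : Bool → FPt (bc (algebraMap B₀ A) (R j))
  dj : Disj pt
  un : ∀ x, IsUnit ((pt x).ev (bcMap (algebraMap B₀ A) (R j) (bb j)))

attribute [instance] Sit.cr Sit.al Sit.cl Sit.tw

theorem rho_lin (H : Hy) {I A : Type} [Fintype I] [Nonempty I] [CommRing A] {h : ℕ}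
    {R : Subalgebra A (KK I A)} (hR : SKr h R) (pt : Bool → FPt R) (hd : Disj pt) :
    ∃ ρ : EE (PT pt (0 : A)) →ₗ[A] A, ∀ v : EE (PT pt (0 : A)), IsRho pt (v : KK I A) (ρ v) := by
  have hu := (H.plr hR.kr hR.smc pt hd).1
  choose ρ hρ hρ' using fun v : EE (PT pt (0 : A)) => hu v v.2
  refine ⟨{ toFun := ρ, map_add' := fun v w => ?_, map_smul' := fun a v => ?_ }, hρ⟩
  · refine (hρ' (v + w) _ fun r => ?_).symm
    change res (((v : KK I A) + (w : KK I A)) * _) = _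
    rw [add_mul, map_add, hρ v r, hρ w r]
    ring
  · refine (hρ' (a • v) _ fun r => ?_).symm
    change res ((a • (v : KK I A)) * _) = _
    rw [smul_mul_assoc, map_smul, hρ v r, smul_eq_mul, RingHom.id_apply, smul_eq_mul]
    ring

variable {B₀ : Type} [CommRing B₀] [Algebra ℂ B₀] {I : Bool → Type} [∀ j, Fintype (I j)]
  [∀ j, Nonempty (I j)] {h : ℕ}

theorem step (H : Hy) (R : ∀ j, Subalgebra B₀ (KK (I j) B₀)) (bb : ∀ j, R j)
    (hR : ∀ j, SKr h (R j))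
    (hRA : ∀ (j : Bool) (A : Type) [CommRing A] [Algebra B₀ A],
      SKr h (bc (algebraMap B₀ A) (R j)))
    (E₀ : Type) [Nonempty E₀] (rs : ∀ j, E₀ → KK (I j) B₀) (hrs : ∀ j e, rs j e ∈ EE (R j))
    (hrs' : ∀ j, ∀ v ∈ EE (R j), ∃ e, rs j e = v) (E : Ev (h + 1)) {N k m : ℕ} (hm : m < k)
    (hk : k < N)
    (hG : ∀ (Z : Finset (Fin k ⊕ Fin k)) (e : Fin k ⊕ Fin k → E₀),
      (∀ (j : Bool) (A : Type) [CommRing A] [Algebra B₀ A] [Algebra ℂ A]
        [IsScalarTower ℂ B₀ A], Ind E N k m Z (bb j) (fun i => rs j (e i)) A) →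
      ∀ (j : Bool) (A : Type) [CommRing A] [Algebra B₀ A] [Algebra ℂ A] [IsScalarTower ℂ B₀ A]
        (p : Bool → (R j →ₐ[B₀] PowerSeries A)), (∀ b, FPm (p b)) → DJm (p true) (p false) →
        (∀ x, IsUnit (PowerSeries.constantCoeff (p x (bb j)))) →
        Rc E N k m Z (fun i => rs j (e i)) p 0)
    (hI : ∀ s : Sit I R bb, IHm E s.pt N k m) (s : Sit I R bb) : IHm E s.pt N k (m + 1) := by
  have hN : 0 < N := by omega
  choose M hM using fun s : Sit I R bb => mlt H (hRA s.j s.A) s.pt s.dj E hm hk (hI s)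
  choose ρ hρ using fun s : Sit I R bb => rho_lin H (hRA s.j s.A) s.pt s.dj
  -- uniqueness of the residue
  have hun : ∀ (s : Sit I R bb) (v : EE (PT s.pt (0 : s.A))) (r : s.A),
      IsRho s.pt (v : KK (I s.j) s.A) r → ρ s v = r := fun s v r hr =>
    ((H.plr (hRA s.j s.A).kr (hRA s.j s.A).smc s.pt s.dj).1 v v.2).unique (hρ s v) hr
  have hmem : ∀ (s : Sit I R bb) (x : KK (I s.j) B₀), x ∈ EE (R s.j) →
      kmap (algebraMap B₀ s.A) x ∈ EE (bc (algebraMap B₀ s.A) (R s.j)) := fun s x hx =>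
    (H.mee (hR s.j).kr (algebraMap B₀ s.A)).1 _ hx
  have hmem0 : ∀ (s : Sit I R bb) (x : KK (I s.j) s.A),
      x ∈ EE (bc (algebraMap B₀ s.A) (R s.j)) → x ∈ EE (PT s.pt (0 : s.A)) ∧
        IsRho s.pt x 0 := fun s x hx =>
    (H.plr (hRA s.j s.A).kr (hRA s.j s.A).smc s.pt s.dj).2.2.1 x hx
  let io : ∀ s : Sit I R bb, E₀ → EE (PT s.pt (0 : s.A)) := fun s e =>
    ⟨kmap (algebraMap B₀ s.A) (rs s.j e), (hmem0 s _ (hmem s _ (hrs s.j e))).1⟩
  have hzero : ∀ s : Sit I R bb, M s = 0 := by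
    refine H.mal (n := Fin k ⊕ Fin k) (Sit I R bb) (fun s => s.A)
      (fun s => EE (PT s.pt (0 : s.A))) M ρ E₀ io ?_ ?_ ?_ ?_
    · intro s
      obtain ⟨η, h1, h2⟩ := (H.plr (hRA s.j s.A).kr (hRA s.j s.A).smc s.pt s.dj).2.2.2 1
      exact ⟨⟨η, h1⟩, hun s ⟨η, h1⟩ 1 h2⟩
    · intro s e
      exact hun s (io s e) 0 (hmem0 s _ (hmem s _ (hrs s.j e))).2
    · intro s v hv
      have h1 : (v : KK (I s.j) s.A) ∈ EE (bc (algebraMap B₀ s.A) (R s.j)) := by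
        refine (H.plr (hRA s.j s.A).kr (hRA s.j s.A).smc s.pt s.dj).2.1 _ v.2 ?_
        have := hρ s v
        rwa [hv] at this
      rw [(H.mee (hR s.j).kr (algebraMap B₀ s.A)).2.1] at h1
      have h2 : Submodule.span s.A (kmap (algebraMap B₀ s.A) '' (EE (R s.j) :
          Set (KK (I s.j) B₀))) ≤ (Submodule.span s.A (Set.range (io s))).map
            (Submodule.subtype (EE (PT s.pt (0 : s.A)))) := by
        rw [Submodule.span_le]
        rintro _ ⟨x, hx, rfl⟩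
        obtain ⟨e, rfl⟩ := hrs' s.j x hx
        exact ⟨io s e, Submodule.subset_span ⟨e, rfl⟩, rfl⟩
      obtain ⟨v', hv', he⟩ := h2 h1
      have : v' = v := Subtype.ext he
      rwa [this] at hv'
    · intro Z e hind s ω hω1 hω2
      have hInd : ∀ (j : Bool) (A : Type) [CommRing A] [Algebra B₀ A] [Algebra ℂ A]
          [IsScalarTower ℂ B₀ A], Ind E N k m Z (bb j) (fun i => rs j (e i)) A := by
        intro j A _ _ _ _ pt hd hu ω ω' y y' hω hω' hc hc'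
        let s : Sit I R bb := ⟨j, A, pt, hd, hu⟩
        have m1 := cv_mem H (hRA j A) pt hd E hN hc
        have m2 := cv_mem H (hRA j A) pt hd E hN hc'
        have e1 := hM s (fun i => ⟨ω i, m1 i⟩) y hc
        have e2 := hM s (fun i => ⟨ω' i, m2 i⟩) y' hc'
        rw [e1, e2]
        refine hind s _ _ (fun i hi => ⟨Subtype.ext (hω.1 i hi), Subtype.ext (hω'.1 i hi)⟩)
          fun i hi => ⟨?_, ?_⟩
        · exact hun s ⟨ω i, m1 i⟩ 1 (hω.2 i hi).2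
        · exact hun s ⟨ω' i, m2 i⟩ 1 (hω'.2 i hi).2
      obtain ⟨-, x2, -, x4⟩ := H.mex (A := s.A) (hR s.j).kr (hR s.j).smc
      choose p hp hp' using fun b => x2 (s.pt b)
      have hup : ∀ x, IsUnit (PowerSeries.constantCoeff (p x (bb s.j))) := fun x => by
        rw [← hp']
        exact s.un x
      have hz := hG Z e hInd s.j s.A p hp ((x4 s.pt p hp').1 s.dj) hup
      obtain ⟨y, hy⟩ := lft H (hRA s.j s.A) s.pt s.dj E hN k m (fun i => (ω i : KK (I s.j) s.A))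
        fun i => (ω i).2
      have hfm : Fm s.pt Z (fun i => kmap (algebraMap B₀ s.A) (rs s.j (e i)))
          fun i => (ω i : KK (I s.j) s.A) := by
        refine ⟨fun i hi => ?_, fun i hi => ⟨(ω i).2, ?_⟩⟩
        · exact congrArg Subtype.val (hω1 i hi)
        · rw [← hω2 i hi]
          exact hρ s (ω i)
      have hrc : Rc E N k m Z (fun i => rs s.j (e i)) p y := ⟨s.pt, hp', s.dj, _, hfm, hy⟩
      rw [← hM s ω y hy]
      exact rc_uniq E H (hR s.j) (hRA s.j s.A) (by omega) (hInd s.j s.A) hup hrc hz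
  intro u u' x hx i hi
  rcases Nat.lt_succ_iff_lt_or_eq.1 hi with hi | rfl
  · exact hI s u u' x hx i hi
  · obtain ⟨π, hπ⟩ := exi_pi H s.A hN
    have hc : Cv E s.pt N k i (fun j => Sum.elim (fun a => kmap (π : TrA s.A N →+* s.A) (u a))
        (fun a => kmap (π : TrA s.A N →+* s.A) (u' a)) j) (co i x) :=
      ⟨u, u', x, hx, fun a => (rd_iff H hN hπ).1 rfl, fun a => (rd_iff H hN hπ).1 rfl, rfl⟩
    have m1 := cv_mem H (hRA s.j s.A) s.pt s.dj E hN hc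
    have e1 := hM s (fun j => ⟨_, m1 j⟩) _ hc
    rw [e1, hzero s]
    rfl

end

/-! ## The functions of pairs of formal points -/

section

/-- The `ℂ`-algebra structure of a `B₀`-algebra. -/
@[reducible] noncomputable def cal (B₀ A : Type) [CommRing B₀] [Algebra ℂ B₀] [CommRing A]
    [Algebra B₀ A] : Algebra ℂ A :=
  Algebra.compHom A (algebraMap ℂ B₀)

theorem cal_tower (B₀ A : Type) [CommRing B₀] [Algebra ℂ B₀] [CommRing A] [Algebra B₀ A] :
    letI := cal B₀ A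
    IsScalarTower ℂ B₀ A :=
  letI := cal B₀ A
  IsScalarTower.of_algebraMap_eq' rfl

theorem cal_eq (B₀ A : Type) [CommRing B₀] [Algebra ℂ B₀] [CommRing A] [Algebra B₀ A]
    (i : Algebra ℂ A) (ht : IsScalarTower ℂ B₀ A) : i = cal B₀ A := by
  refine Algebra.algebra_ext _ _ fun r => ?_
  exact IsScalarTower.algebraMap_apply ℂ B₀ A r

variable {B₀ I : Type} [CommRing B₀] [Algebra ℂ B₀] [Fintype I] {h : ℕ}

/-- Two formal points. -/
def two {R A : Type} [CommRing R] [Algebra B₀ R] [CommRing A] [Algebra B₀ A]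
    (p q : R →ₐ[B₀] PowerSeries A) : Bool → (R →ₐ[B₀] PowerSeries A) :=
  fun b => cond b p q

/-- The function of pairs of formal points given by a family. -/
noncomputable def cc (E : Ev (h + 1)) (N k m : ℕ) (Z : Finset (Fin k ⊕ Fin k))
    (R : Subalgebra B₀ (KK I B₀)) (f : Fin k ⊕ Fin k → KK I B₀) : CF B₀ R :=
  fun A _ _ p q =>
    letI := cal B₀ A
    Classical.epsilon fun y => Rc E N k m Z f (two p q) y

variable [Nonempty I] (E : Ev (h + 1)) {N k m : ℕ} {Z : Finset (Fin k ⊕ Fin k)}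
  {R : Subalgebra B₀ (KK I B₀)} {f : Fin k ⊕ Fin k → KK I B₀}

/-- The independence of the family, for all algebras. -/
def IndA (E : Ev (h + 1)) (N k m : ℕ) (Z : Finset (Fin k ⊕ Fin k))
    {R : Subalgebra B₀ (KK I B₀)} (c : R) (f : Fin k ⊕ Fin k → KK I B₀) : Prop :=
  ∀ (A : Type) [CommRing A] [Algebra B₀ A] [Algebra ℂ A] [IsScalarTower ℂ B₀ A],
    Ind E N k m Z c f A

theorem cc_eq (H : Hy) (hR : SKr h R)
    (hRA : ∀ (A : Type) [CommRing A] [Algebra B₀ A], SKr h (bc (algebraMap B₀ A) R))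
    (hm : m < N) {c : R} (hi : IndA E N k m Z c f) {A : Type} [CommRing A] [Algebra B₀ A]
    {p q : R →ₐ[B₀] PowerSeries A} (hu : UnP c p q) {y : A}
    (hy : letI := cal B₀ A; Rc E N k m Z f (two p q) y) : cc E N k m Z R f A p q = y := by
  let i1 := cal B₀ A
  have i2 : IsScalarTower ℂ B₀ A := cal_tower B₀ A
  have h1 : Rc E N k m Z f (two p q) (cc E N k m Z R f A p q) :=
    Classical.epsilon_spec (p := fun y => Rc E N k m Z f (two p q) y) ⟨y, hy⟩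
  exact rc_uniq E H hR (hRA A) hm (hi A) (fun x => by cases x <;> [exact hu.2; exact hu.1]) h1 hy

theorem cc_spec (H : Hy) (hR : SKr h R)
    (hRA : ∀ (A : Type) [CommRing A] [Algebra B₀ A], SKr h (bc (algebraMap B₀ A) R))
    (hm : m < N) (hf : ∀ i, f i ∈ EE R) {A : Type} [CommRing A] [Algebra B₀ A]
    {p q : R →ₐ[B₀] PowerSeries A} (hp : FPm p) (hq : FPm q) (hd : DJm p q) :
    letI := cal B₀ A
    Rc E N k m Z f (two p q) (cc E N k m Z R f A p q) := by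
  let i1 := cal B₀ A
  obtain ⟨y, hy⟩ := rc_exi E H hR (hRA A) (show 0 < N by omega) m Z hf (p := two p q)
    (fun b => by cases b <;> assumption) hd
  exact Classical.epsilon_spec (p := fun y => Rc E N k m Z f (two p q) y) ⟨y, hy⟩

theorem cc_nat (H : Hy) (hR : SKr h R)
    (hRA : ∀ (A : Type) [CommRing A] [Algebra B₀ A], SKr h (bc (algebraMap B₀ A) R))
    (hm : m < N) {c : R} (hi : IndA E N k m Z c f) (hf : ∀ i, f i ∈ EE R) :
    (cc E N k m Z R f).Nat c := by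
  intro A A' _ _ _ _ φ p q p' q' hp hq hd hu h1 h2
  let i1 := cal B₀ A
  let i2 := cal B₀ A'
  have i3 : IsScalarTower ℂ B₀ A := cal_tower B₀ A
  have i4 : IsScalarTower ℂ B₀ A' := cal_tower B₀ A'
  have hs := cc_spec E H hR hRA hm hf (Z := Z) hp hq hd
  have hu' : UnP c p' q' := by
    constructor
    · rw [h1, ← PowerSeries.coeff_zero_eq_constantCoeff_apply, PowerSeries.coeff_map,
        PowerSeries.coeff_zero_eq_constantCoeff_apply]
      exact hu.1.map _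
    · rw [h2, ← PowerSeries.coeff_zero_eq_constantCoeff_apply, PowerSeries.coeff_map,
        PowerSeries.coeff_zero_eq_constantCoeff_apply]
      exact hu.2.map _
  refine cc_eq E H hR hRA hm hi hu' ?_
  exact rc_nat E H (hRA A) hm (φ.restrictScalars ℂ) (fun b => φ.commutes b)
    (p' := two p' q') (fun b r => by cases b <;> [exact h2 r; exact h1 r]) hs

theorem cc_wt (H : Hy) (hR : SKr h R)
    (hRA : ∀ (A : Type) [CommRing A] [Algebra B₀ A], SKr h (bc (algebraMap B₀ A) R))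
    (hm : m < k) (hk : k < N) {c : R} (hi : IndA E N k m Z c f) (hf : ∀ i, f i ∈ EE R) :
    (cc E N k m Z R f).Wt c (k - m) := by
  intro A _ _ a b p q p' q' hp hq hd hu h1 h2
  let i1 := cal B₀ A
  have hs := cc_spec E H hR hRA (show m < N by omega) hf (Z := Z) hp hq hd
  have ht := rc_wt E H (hRA A) (show m < N by omega) (fun x => cond x a b) (p' := two p' q')
    (fun x r => by cases x <;> [exact h2 r; exact h1 r]) hs
  have hu' : UnP c p' q' := by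
    constructor
    · rw [h1, ← PowerSeries.coeff_zero_eq_constantCoeff_apply, PowerSeries.coeff_rescale,
        PowerSeries.coeff_zero_eq_constantCoeff_apply, pow_zero, one_mul]
      exact hu.1
    · rw [h2, ← PowerSeries.coeff_zero_eq_constantCoeff_apply, PowerSeries.coeff_rescale,
        PowerSeries.coeff_zero_eq_constantCoeff_apply, pow_zero, one_mul]
      exact hu.2
  rw [cc_eq E H hR hRA (by omega) hi hu' ht]
  simp only [cond_true, cond_false]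
  have e1 : ((a : A) * (b : A)) ^ k * ((((a⁻¹ : Aˣ) : A) * ((b⁻¹ : Aˣ) : A)) ^ k) = 1 := by
    rw [← mul_pow]
    have : (a : A) * (b : A) * (((a⁻¹ : Aˣ) : A) * ((b⁻¹ : Aˣ) : A)) = 1 := by
      rw [mul_mul_mul_comm, Units.mul_inv, Units.mul_inv, one_mul]
    rw [this, one_pow]
  have e2 : ((a : A) * (b : A)) ^ k = ((a : A) * (b : A)) ^ (k - m) * ((a : A) * (b : A)) ^ m := by
    rw [← pow_add, Nat.sub_add_cancel hm.le]
  calc _ = ((a : A) * (b : A)) ^ (k - m) * ((a : A) * (b : A)) ^ m *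
        ((((a⁻¹ : Aˣ) : A) * ((b⁻¹ : Aˣ) : A)) ^ k) * cc E N k m Z R f A p q := by ring
    _ = _ := by rw [← e2, e1, one_mul]

end

/-! ## Two charts -/

section

theorem rc_two {B₀ I : Type} [CommRing B₀] [Fintype I] {g : ℕ} {E : Ev g} {N k m : ℕ}
    {Z : Finset (Fin k ⊕ Fin k)} {R : Subalgebra B₀ (KK I B₀)} {f : Fin k ⊕ Fin k → KK I B₀}
    {A : Type} [CommRing A] [Algebra B₀ A] [Algebra ℂ A] {p : Bool → (R →ₐ[B₀] PowerSeries A)}
    {y : A} (h : Rc E N k m Z f (two (p true) (p false)) y) : Rc E N k m Z f p y := by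
  have t : two (p true) (p false) = p := funext fun b => by cases b <;> rfl
  rwa [t] at h

variable {B₀ I₁ I₂ : Type} [CommRing B₀] [Fintype I₁] [Fintype I₂] {h : ℕ}
  {R₁ : Subalgebra B₀ (KK I₁ B₀)} {R₂ : Subalgebra B₀ (KK I₂ B₀)}
  {R₁₂ : Subalgebra B₀ (KK (I₁ ⊕ I₂) B₀)}

theorem fgt1 (hC : Chp h R₁ R₂ R₁₂) : Forget R₁₂ R₁ := ⟨hC.f1, hC.i1, hC.d1⟩

theorem fgt2 (hC : Chp h R₁ R₂ R₁₂) : Forget (reix (Equiv.sumComm I₂ I₁) R₁₂) R₂ := by
  refine ⟨hC.f2, fun w hw h0 => ?_, hC.d2⟩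
  have h1 := hC.i2 _ hw fun i => h0 i
  funext i
  have h2 : w ((Equiv.sumComm I₂ I₁).symm (Equiv.sumComm I₂ I₁ i)) = 0 :=
    congrFun h1 (Equiv.sumComm I₂ I₁ i)
  rwa [Equiv.symm_apply_apply] at h2

/-- The index sets of the two charts. -/
def II (I₁ I₂ : Type) : Bool → Type
  | true => I₁
  | false => I₂

instance (I₁ I₂ : Type) [Fintype I₁] [Fintype I₂] (j : Bool) : Fintype (II I₁ I₂ j) :=
  match j with
  | true => inferInstanceAs (Fintype I₁)
  | false => inferInstanceAs (Fintype I₂)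

instance (I₁ I₂ : Type) [Nonempty I₁] [Nonempty I₂] (j : Bool) : Nonempty (II I₁ I₂ j) :=
  match j with
  | true => inferInstanceAs (Nonempty I₁)
  | false => inferInstanceAs (Nonempty I₂)

/-- The rings of the two charts. -/
def RR (R₁ : Subalgebra B₀ (KK I₁ B₀)) (R₂ : Subalgebra B₀ (KK I₂ B₀)) :
    ∀ j, Subalgebra B₀ (KK (II I₁ I₂ j) B₀)
  | true => R₁
  | false => R₂

/-- The elements which are invertible at the formal points. -/
def bbb {R₁ : Subalgebra B₀ (KK I₁ B₀)} {R₂ : Subalgebra B₀ (KK I₂ B₀)} (b₁ : R₁) (b₂ : R₂) :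
    ∀ j, RR R₁ R₂ j
  | true => b₁
  | false => b₂

/-- The restriction of differentials to the two charts. -/
noncomputable def rst (R₁₂ : Subalgebra B₀ (KK (I₁ ⊕ I₂) B₀)) :
    ∀ j, EE R₁₂ → KK (II I₁ I₂ j) B₀
  | true => fun e i => (e : KK (I₁ ⊕ I₂) B₀) (Sum.inl i)
  | false => fun e i => (e : KK (I₁ ⊕ I₂) B₀) (Sum.inr i)

theorem rr_skr0 (hC : Chp h R₁ R₂ R₁₂) (j : Bool) : SKr h (RR R₁ R₂ j) := by
  cases j with
  | true => exact hC.s1
  | false => exact hC.s2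

variable [Nonempty I₁] [Nonempty I₂] [Algebra ℂ B₀]

theorem rst_mem (H : Hy) (hC : Chp h R₁ R₂ R₁₂) (j : Bool) (e : EE R₁₂) :
    rst R₁₂ j e ∈ EE (RR R₁ R₂ j) := by
  cases j with
  | true => exact (H.mfe.1 hC.s12.kr hC.s1.kr (fgt1 hC)).1 _ e.2
  | false =>
    have h1 : (fun i => (e : KK (I₁ ⊕ I₂) B₀) (Equiv.sumComm I₂ I₁ i) : KK (I₂ ⊕ I₁) B₀) ∈
        EE (reix (Equiv.sumComm I₂ I₁) R₁₂) := ee_idx (Equiv.sumComm I₂ I₁) e.2
    have h2 := (H.mvr (Equiv.sumComm I₂ I₁) hC.s12).1.kr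
    have h3 := (H.mfe.1 h2 hC.s2.kr (fgt2 hC)).1 _ h1
    exact h3

theorem rst_surj (H : Hy) (hC : Chp h R₁ R₂ R₁₂) (j : Bool) :
    ∀ v ∈ EE (RR R₁ R₂ j), ∃ e, rst R₁₂ j e = v := by
  cases j with
  | true =>
    intro v hv
    obtain ⟨u, ⟨hu, hu'⟩, -⟩ := (H.mfe.1 hC.s12.kr hC.s1.kr (fgt1 hC)).2 v hv
    exact ⟨⟨u, hu⟩, hu'⟩
  | false =>
    intro v hv
    have h2 := (H.mvr (Equiv.sumComm I₂ I₁) hC.s12).1.kr
    obtain ⟨u, ⟨hu, hu'⟩, -⟩ := (H.mfe.1 h2 hC.s2.kr (fgt2 hC)).2 v hv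
    have h3 : (fun i => u ((Equiv.sumComm I₂ I₁).symm i) : KK (I₁ ⊕ I₂) B₀) ∈ EE R₁₂ :=
      ee_idx' (Equiv.sumComm I₂ I₁) hu
    exact ⟨⟨_, h3⟩, hu'⟩

omit [Algebra ℂ B₀] in
theorem rr_skr (H : Hy) (hC : Chp h R₁ R₂ R₁₂) (j : Bool) (A : Type) [CommRing A]
    [Algebra B₀ A] : SKr h (bc (algebraMap B₀ A) (RR R₁ R₂ j)) := by
  have hC' := H.mcb.2.2 hC (algebraMap B₀ A)
  cases j with
  | true => exact hC'.s1
  | false => exact hC'.s2

theorem agr (H : Hy) (hC : Chp h R₁ R₂ R₁₂) {ι₁ : R₁ →ₐ[B₀] R₁₂} {ι₂ : R₂ →ₐ[B₀] R₁₂}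
    (hI : Inc ι₁ ι₂) (E : Ev (h + 1)) {N k m : ℕ} (hm : m + 1 < N) {Z : Finset (Fin k ⊕ Fin k)}
    (e : Fin k ⊕ Fin k → EE R₁₂) {b₁ : R₁} {b₂ : R₂}
    (h1 : IndA E N k m Z b₁ fun i => (fun j => (e i : KK (I₁ ⊕ I₂) B₀) (Sum.inl j) : KK I₁ B₀))
    (h2 : IndA E N k m Z b₂ fun i => (fun j => (e i : KK (I₁ ⊕ I₂) B₀) (Sum.inr j) : KK I₂ B₀)) :
    CF.Agr b₁ b₂ ι₁ ι₂
      (cc E N k m Z R₁ fun i => (fun j => (e i : KK (I₁ ⊕ I₂) B₀) (Sum.inl j) : KK I₁ B₀))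
      (cc E N k m Z R₂ fun i => (fun j => (e i : KK (I₁ ⊕ I₂) B₀) (Sum.inr j) : KK I₂ B₀)) := by
  intro A _ _ p q hp hq hd _ _ _ _ _ _ hu1 hu2
  let i1 := cal B₀ A
  have hC' := H.mcb.2.2 hC (algebraMap B₀ A)
  have hmN : m < N := by omega
  have hN : 0 < N := by omega
  obtain ⟨y, hy⟩ := rc_exi E H hC.s12 hC'.s12 hN m Z
    (f := fun i => (e i : KK (I₁ ⊕ I₂) B₀)) (fun i => (e i).2) (p := two p q)
    (fun b => by cases b <;> assumption) hd
  have y1 := rc_fgt E H hC'.s12 hC'.s1 (fgt1 hC') hm ι₁ hI.e1 hI.r1 hy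
  have t1 : (fun b => (two p q b).comp ι₁) = two (p.comp ι₁) (q.comp ι₁) :=
    funext fun b => by cases b <;> rfl
  rw [t1] at y1
  have y2 := rc_rix H E hN (Equiv.sumComm I₂ I₁) hC'.s12 hy
  have hQ := H.mcb.2.1 (algebraMap B₀ A) (Equiv.sumComm I₂ I₁) R₁₂
  have s2 : SKr h (bc (algebraMap B₀ A) (reix (Equiv.sumComm I₂ I₁) R₁₂)) := by
    rw [hQ]
    exact (H.mvr (Equiv.sumComm I₂ I₁) hC'.s12).1
  have f2 : Forget (bc (algebraMap B₀ A) (reix (Equiv.sumComm I₂ I₁) R₁₂))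
      (bc (algebraMap B₀ A) R₂) := by
    rw [hQ]
    exact fgt2 hC'
  have y3 := rc_fgt E H s2 hC'.s2 f2 hm ((ofP (Equiv.sumComm I₂ I₁) R₁₂).comp ι₂)
    (fun r i => hI.e2 r i) (fun r i => hI.r2 r i) y2
  have t2 : (fun b => ((two p q b).comp (toP (Equiv.sumComm I₂ I₁) R₁₂)).comp
      ((ofP (Equiv.sumComm I₂ I₁) R₁₂).comp ι₂)) = two (p.comp ι₂) (q.comp ι₂) := by
    funext b
    refine AlgHom.ext fun r => ?_
    change two p q b (toP (Equiv.sumComm I₂ I₁) R₁₂ (ofP (Equiv.sumComm I₂ I₁) R₁₂ (ι₂ r))) = _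
    rw [toP_ofP]
    cases b <;> rfl
  rw [t2] at y3
  rw [cc_eq E H hC.s1 (fun A _ _ => (H.mcb.2.2 hC (algebraMap B₀ A)).s1) hmN h1 hu1 y1]
  exact (cc_eq E H hC.s2 (fun A _ _ => (H.mcb.2.2 hC (algebraMap B₀ A)).s2) hmN h2 hu2
    y3).symm

theorem main (H : Hy) (hC : Chp h R₁ R₂ R₁₂) {ι₁ : R₁ →ₐ[B₀] R₁₂} {ι₂ : R₂ →ₐ[B₀] R₁₂}
    (hI : Inc ι₁ ι₂) {b₁ : R₁} {b₂ : R₂} (hG : ThmG b₁ b₂ ι₁ ι₂) (E : Ev (h + 1)) {N k : ℕ}
    (hk : k < N) (m : ℕ) (hm : m ≤ k) :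
    ∀ s : Sit (II I₁ I₂) (RR R₁ R₂) (bbb b₁ b₂), IHm E s.pt N k m := by
  induction m with
  | zero =>
    intro s u u' x _ i hi
    omega
  | succ m ih =>
    have hm' : m < k := hm
    have hne : Nonempty (EE R₁₂) := ⟨0⟩
    refine step H (RR R₁ R₂) (bbb b₁ b₂) (rr_skr0 hC) (rr_skr H hC) (EE R₁₂) (rst R₁₂)
      (rst_mem H hC) (rst_surj H hC) E hm' hk ?_ (ih hm'.le)
    intro Z e hInd
    have i1 : IndA E N k m Z b₁ fun i =>
        (fun j => (e i : KK (I₁ ⊕ I₂) B₀) (Sum.inl j) : KK I₁ B₀) := fun A _ _ _ _ =>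
      hInd true A
    have i2 : IndA E N k m Z b₂ fun i =>
        (fun j => (e i : KK (I₁ ⊕ I₂) B₀) (Sum.inr j) : KK I₂ B₀) := fun A _ _ _ _ =>
      hInd false A
    have r1 : ∀ (A : Type) [CommRing A] [Algebra B₀ A], SKr h (bc (algebraMap B₀ A) R₁) :=
      fun A _ _ => rr_skr H hC true A
    have r2 : ∀ (A : Type) [CommRing A] [Algebra B₀ A], SKr h (bc (algebraMap B₀ A) R₂) :=
      fun A _ _ => rr_skr H hC false A
    have f1 : ∀ i, (fun j => (e i : KK (I₁ ⊕ I₂) B₀) (Sum.inl j) : KK I₁ B₀) ∈ EE R₁ :=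
      fun i => rst_mem H hC true (e i)
    have f2 : ∀ i, (fun j => (e i : KK (I₁ ⊕ I₂) B₀) (Sum.inr j) : KK I₂ B₀) ∈ EE R₂ :=
      fun i => rst_mem H hC false (e i)
    have hmN : m < N := by omega
    obtain ⟨z1, z2⟩ := hG (k - m) (by omega) _ _ (cc_nat E H hC.s1 r1 hmN i1 f1)
      (cc_nat E H hC.s2 r2 hmN i2 f2) (cc_wt E H hC.s1 r1 hm' hk i1 f1)
      (cc_wt E H hC.s2 r2 hm' hk i2 f2) (agr H hC hI E (by omega) e i1 i2)
    intro j A _ _ i ht p hp hd hu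
    obtain rfl := cal_eq B₀ A i ht
    let i3 := cal B₀ A
    cases j with
    | true =>
      have h3 := cc_spec E H hC.s1 r1 hmN f1 (Z := Z) (hp true) (hp false) hd
      rw [z1 _ _ (hp true) (hp false) hd ⟨hu true, hu false⟩] at h3
      exact rc_two (R := R₁) h3
    | false =>
      have h3 := cc_spec E H hC.s2 r2 hmN f2 (Z := Z) (hp true) (hp false) hd
      rw [z2 _ _ (hp true) (hp false) hd ⟨hu true, hu false⟩] at h3
      exact rc_two (R := R₂) h3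

end

end MLG

open MLG in
theorem t_MLG (hKBC : Stmt_KBC) (hAWB : Stmt_AWB) (hPL2 : Stmt_PL2) (hPLR : Stmt_PLR)
    (hPLF : Stmt_PLF) (hMTR : Stmt_MTR) (hMEE : Stmt_MEE) (hMFE : Stmt_MFE) (hMPB : Stmt_MPB)
    (hMPG : Stmt_MPG) (hMCB : Stmt_MCB) (hMVX : Stmt_MVX) (hMVN : Stmt_MVN) (hMVS : Stmt_MVS)
    (hMVF : Stmt_MVF) (hMVR : Stmt_MVR) (hMCM : Stmt_MCM) (hMAL : Stmt_MAL)
    (hMEX : Stmt_MEX) : Stmt_MLG := by
  intro B₀ I₁ I₂ _ _ _ _ _ _ h R₁ R₂ R₁₂ hC b₁ b₂ ι₁ ι₂ hI hG E N k hk A _ _ _ _ pt hd hu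
  have H : Hy := ⟨hKBC, hAWB, hPL2, hPLR, hPLF, hMTR, hMEE, hMFE, hMPB, hMPG, hMCB, hMVX, hMVN,
    hMVS, hMVF, hMVR, hMCM, hMAL, hMEX⟩
  exact main H hC hI hG E hk k le_rfl
    (⟨true, A, pt, hd, hu⟩ : Sit (II I₁ I₂) (RR R₁ R₂) (bbb b₁ b₂))

end Pool.Agent.MG.G0
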