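import Pool.Agent.MG.G0.StmtsM

/-!
# MPB: base change of plumbed curves (PAPER_M.md, MPB)
-/

namespace Pool.Agent.MG.G0

namespace MPB

section

variable {I J A B C : Type} [CommRing A] [CommRing B] [CommRing C]

theorem id_congr {P : Subalgebra A (KK I A)} {p p' : FPt P} (h : p.h = p'.h) : p.id = p'.id := by
  unfold FPt.id
  rw [h]

theorem hat_congr {P : Subalgebra A (KK I A)} {pt pt' : J → FPt P}
    (h : ∀ j, (pt j).h = (pt' j).h) (r : P) : hat pt r = hat pt' r := by
  funext k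
  rcases k with i | j
  · rfl
  · rw [hat_inr, hat_inr, h j]

theorem Ipt_congr {P : Subalgebra A (KK I A)} {pt pt' : J → FPt P}
    (h : ∀ j, (pt j).h = (pt' j).h) : Ipt pt = Ipt pt' := by
  unfold Ipt
  exact iInf_congr fun j => id_congr (h j)

theorem WJ_congr {P : Subalgebra A (KK I A)} {pt pt' : J → FPt P}
    (h : ∀ j, (pt j).h = (pt' j).h) : WJ pt = WJ pt' := by
  ext w
  rw [mem_WJ, mem_WJ, Ipt_congr h]
  simp only [hat_congr h]

theorem Disj_congr {P : Subalgebra A (KK I A)} {pt pt' : J → FPt P}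
    (h : ∀ j, (pt j).h = (pt' j).h) (hd : Disj pt) : Disj pt' := by
  intro j k hjk
  rw [← id_congr (h j), ← id_congr (h k)]
  exact hd j k hjk

theorem PT_congr {P : Subalgebra A (KK I A)} {pt pt' : Bool → FPt P}
    (h : ∀ j, (pt j).h = (pt' j).h) (t : A) : PT pt t = PT pt' t := by
  ext f
  rw [mem_PT, mem_PT, WJ_congr h]

theorem kmap_id (f : KK I A) : kmap (RingHom.id A) f = f := by
  funext i
  ext n
  rw [kmap_apply, lmap_coeff, RingHom.id_apply]

theorem map_id (f : PowerSeries A) : PowerSeries.map (RingHom.id A) f = f := by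
  ext n
  rw [PowerSeries.coeff_map, RingHom.id_apply]

theorem kmap_comp (φ : A →+* B) (ψ : B →+* C) (f : KK I A) :
    kmap (ψ.comp φ) f = kmap ψ (kmap φ f) := by
  funext i
  ext n
  rw [kmap_apply, lmap_coeff, kmap_apply, lmap_coeff, kmap_apply, lmap_coeff, RingHom.comp_apply]

theorem map_comp (φ : A →+* B) (ψ : B →+* C) (f : PowerSeries A) :
    PowerSeries.map (ψ.comp φ) f = PowerSeries.map ψ (PowerSeries.map φ f) := by
  ext n
  rw [PowerSeries.coeff_map, PowerSeries.coeff_map, PowerSeries.coeff_map, RingHom.comp_apply]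

theorem kmap_alg (φ : A →+* B) (a : A) :
    kmap φ (algebraMap A (KK I A) a) = algebraMap B (KK I B) (φ a) := by
  funext i
  ext n
  rw [kmap_apply, lmap_coeff, Pi.algebraMap_apply, Pi.algebraMap_apply, coeff_algebraMap,
    coeff_algebraMap]
  split_ifs
  · rfl
  · exact map_zero φ

theorem map_alg (φ : A →+* B) (a : A) :
    PowerSeries.map φ (algebraMap A (PowerSeries A) a) = algebraMap B (PowerSeries B) (φ a) := by
  ext n
  rw [PowerSeries.coeff_map, PowerSeries.algebraMap_apply, PowerSeries.algebraMap_apply,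
    Algebra.algebraMap_self, Algebra.algebraMap_self, RingHom.id_apply, RingHom.id_apply,
    PowerSeries.coeff_C, PowerSeries.coeff_C]
  split_ifs
  · rfl
  · exact map_zero φ

/-- Two ring homomorphisms on `bc φ P` agree if they agree on the constants and on `P`. -/
theorem hom_ext {S : Type} [CommRing S] (φ : A →+* B) (P : Subalgebra A (KK I A))
    (F G : bc φ P →+* S) (hc : ∀ b : B, F (algebraMap B (bc φ P) b) = G (algebraMap B (bc φ P) b))
    (hP : ∀ f : P, F (bcMap φ P f) = G (bcMap φ P f)) : F = G := by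
  refine RingHom.ext fun f => ?_
  obtain ⟨f, hf⟩ := f
  have key : ∀ (x : KK I B) (hx : x ∈ Algebra.adjoin B (kmap φ '' (P : Set (KK I A)))),
      F (⟨x, hx⟩ : bc φ P) = G (⟨x, hx⟩ : bc φ P) := by
    intro x hx
    refine Algebra.adjoin_induction (p := fun x hx => F (⟨x, hx⟩ : bc φ P) = G (⟨x, hx⟩ : bc φ P))
      ?_ ?_ ?_ ?_ hx
    · rintro y ⟨p, hp, rfl⟩
      exact hP ⟨p, hp⟩
    · intro b
      exact hc b
    · intro y z hy hz h1 h2
      have := congrArg₂ (· + ·) h1 h2
      simp only [← map_add] at this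
      exact this
    · intro y z hy hz h1 h2
      have := congrArg₂ (· * ·) h1 h2
      simp only [← map_mul] at this
      exact this
  exact key f hf

theorem h_eq (φ : A →+* B) {R : Subalgebra A (KK I A)} {p : FPt R} {p' p'' : FPt (bc φ R)}
    (h' : ∀ f : R, p'.h (bcMap φ R f) = PowerSeries.map φ (p.h f))
    (h'' : ∀ f : R, p''.h (bcMap φ R f) = PowerSeries.map φ (p.h f)) : p'.h = p''.h := by
  have e : (p'.h : bc φ R →+* PowerSeries B) = (p''.h : bc φ R →+* PowerSeries B) := by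
    refine hom_ext φ R _ _ (fun b => ?_) fun f => ?_
    · exact (p'.h.commutes b).trans (p''.h.commutes b).symm
    · exact (h' f).trans (h'' f).symm
  exact AlgHom.ext fun x => RingHom.congr_fun e x

theorem comp_h (φ : A →+* B) (ψ : B →+* C) {R : Subalgebra A (KK I A)} {p : FPt R}
    {p' : FPt (bc φ R)} {p'' : FPt (bc ψ (bc φ R))}
    (h' : ∀ f : R, p'.h (bcMap φ R f) = PowerSeries.map φ (p.h f))
    (h'' : ∀ (f : R) (f'' : bc ψ (bc φ R)), (f'' : KK I C) = kmap (ψ.comp φ) (f : KK I A) →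
      p''.h f'' = PowerSeries.map (ψ.comp φ) (p.h f)) (f' : bc φ R) :
    p''.h (bcMap ψ (bc φ R) f') = PowerSeries.map ψ (p'.h f') := by
  have e : (p''.h : bc ψ (bc φ R) →+* PowerSeries C).comp (bcMap ψ (bc φ R)) =
      (PowerSeries.map ψ).comp (p'.h : bc φ R →+* PowerSeries B) := by
    refine hom_ext φ R _ _ (fun b => ?_) fun f => ?_
    · have e1 : bcMap ψ (bc φ R) (algebraMap B (bc φ R) b) =
          algebraMap C (bc ψ (bc φ R)) (ψ b) := Subtype.ext (kmap_alg ψ b)
      change p''.h (bcMap ψ (bc φ R) (algebraMap B (bc φ R) b)) =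
        PowerSeries.map ψ (p'.h (algebraMap B (bc φ R) b))
      rw [e1, AlgHom.commutes, AlgHom.commutes, map_alg]
    · change p''.h (bcMap ψ (bc φ R) (bcMap φ R f)) = PowerSeries.map ψ (p'.h (bcMap φ R f))
      rw [h' f, h'' f _ (kmap_comp φ ψ (f : KK I A)).symm, map_comp]
  exact RingHom.congr_fun e f'

end

end MPB

theorem t_MPB (hKBC : Stmt_KBC) (hAWB : Stmt_AWB) (hAYE : Stmt_AYE) (hAWK : Stmt_AWK)
    (hPL2 : Stmt_PL2) : Stmt_MPB := by
  intro I A _ _ _ h R hR hS pt hd
  refine ⟨?_, ?_, ?_, ?_⟩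
  · intro B _ φ R' pt' hb
    obtain ⟨e, -⟩ := hb true
    subst e
    obtain ⟨hex, hW⟩ := hAWB hR φ
    choose pt'' hpt'' _ using fun b => hex (pt b)
    have hh : ∀ b, (pt'' b).h = (pt' b).h := fun b =>
      MPB.h_eq φ (hpt'' b).1 fun f => (hb b).2 f _ rfl
    obtain ⟨hD, -, -⟩ := hW hS pt pt'' hpt'' hd
    refine ⟨MPB.Disj_congr hh hD, fun t ht => ?_⟩
    rw [← MPB.PT_congr hh]
    exact hPL2.1 hR hS pt hd t ht φ pt'' hpt''
  · intro B C _ _ φ ψ R' R'' pt' pt'' hb hc b
    obtain ⟨e, -⟩ := hb true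
    subst e
    have e2 : R'' = bc ψ (bc φ R) := (hc true).1.trans (hKBC.2.1 φ ψ R)
    subst e2
    refine ⟨rfl, fun f' f'' hf => ?_⟩
    have e3 : f'' = bcMap ψ (bc φ R) f' := Subtype.ext hf
    rw [e3]
    exact MPB.comp_h φ ψ (p := pt b) (fun f => (hb b).2 f _ rfl) (fun f f'' h => (hc b).2 f f'' h)
      f'
  · intro R' pt' hb t
    have e : R' = R := (hb true).1.trans (hKBC.2.2.1 R)
    subst e
    refine MPB.PT_congr (fun b => AlgHom.ext fun f => ?_) t
    rw [(hb b).2 f f (MPB.kmap_id _).symm, MPB.map_id]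
  · intro B _ φ pt' hb b
    refine ⟨rfl, fun f f' hf => ?_⟩
    have e3 : f' = bcMap φ R f := Subtype.ext hf
    rw [e3]
    exact (hb b).1 f

end Pool.Agent.MG.G0
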