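import Pool.Agent.MG.G0.StmtsM

/-!
# MPG: plumbed curves are good; the hypotheses of the polarised values (PAPER_M.md)
-/

open TensorProduct

namespace Pool.Agent.MG.G0

namespace MPG

section

variable {I A B : Type} [CommRing A] [CommRing B]

/-- The base change of a smooth Krichever ring. -/
theorem skr_bc (hKBC : Stmt_KBC) (hKBT : Stmt_KBT) (hSDB : Stmt_SDB) [Fintype I] [Nonempty I]
    {h : ℕ} {R : Subalgebra A (KK I A)} (hR : SKr h R) (φ : A →+* B) : SKr h (bc φ R) := by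
  refine ⟨(hKBC.2.2.2 hR.kr φ).1, ?_, (hSDB hR.kr hR.smc φ).1, (hSDB hR.kr hR.smc φ).2.1 hR.dual⟩
  let _ : Algebra A B := φ.toAlgebra
  obtain ⟨e, -⟩ := (hKBT (B := B) hR.kr).2
  have := hR.fs
  exact Algebra.FormallySmooth.of_equiv (A := B ⊗[A] R) (B := bc (algebraMap A B) R) e

/-- The value at a formal point as a homomorphism. -/
noncomputable def evh {R : Subalgebra A (KK I A)} (p : FPt R) : R →ₐ[A] A where
  toRingHom := (PowerSeries.constantCoeff (R := A)).comp (p.h : R →+* PowerSeries A)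
  commutes' a := by
    change PowerSeries.constantCoeff (p.h (algebraMap A R a)) = a
    rw [AlgHom.commutes]
    exact PowerSeries.constantCoeff_C a

theorem evh_apply {R : Subalgebra A (KK I A)} (p : FPt R) (f : R) : evh p f = p.ev f := rfl

/-- The values at disjoint formal points are different. -/
theorem evh_ne {κ : Type} [Field κ] {R : Subalgebra κ (KK I κ)} {pt : Bool → FPt R}
    (hpt : Disj pt) : evh (pt true) ≠ evh (pt false) := by
  intro h
  have h1 : (pt true).id = (pt false).id := by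
    ext f
    rw [FPt.mem_id, FPt.mem_id, ← evh_apply, ← evh_apply, h]
  have h2 := hpt true false (by decide)
  rw [h1, sup_idem] at h2
  have h3 : (1 : R) ∈ (pt false).id := by
    rw [h2]
    exact Submodule.mem_top
  rw [FPt.mem_id, ← evh_apply, map_one] at h3
  exact one_ne_zero h3

/-- `t D` is given by a vector field. -/
theorem t_smul (hPL6 : Stmt_PL6) [Fintype I] [Nonempty I] {h : ℕ} {R : Subalgebra A (KK I A)}
    (hR : IsKr h R) (hs : SmC A R) (pt : Bool → FPt R) (hpt : Disj pt) (t : A)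
    (ht : IsNilpotent t) (P : Subalgebra A (KK I A)) (hP : P = PT pt t) (D : DD P) :
    ∃ θ : KK I A, t • D = tder P θ := by
  subst hP
  choose D0 hD0 using fun f : PT pt t => mk_surj (PT pt t) (D f)
  have hder : RDer (PT pt t) D0 := by
    refine ⟨fun f g => ?_, fun a f => ?_, fun f g => ?_⟩
    · have h1 : mk (PT pt t) (D0 (f + g)) = mk (PT pt t) (D0 f + D0 g) := by
        rw [map_add, hD0, hD0, hD0, map_add]
      rw [mk_eq] at h1
      have h2 : D0 (f + g) - D0 f - D0 g = D0 (f + g) - (D0 f + D0 g) := by abel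
      rw [h2]
      exact h1
    · rw [← mk_eq, hD0, mk_smulA, hD0, Derivation.map_smul]
    · have h1 : mk (PT pt t) (D0 (f * g)) = mk (PT pt t) (f • D0 g + g • D0 f) := by
        rw [map_add, map_smul, map_smul, hD0, hD0, hD0, Derivation.leibniz]
      rw [mk_eq] at h1
      have h2 : D0 (f * g) - (f : KK I A) * D0 g - (g : KK I A) * D0 f =
          D0 (f * g) - (f • D0 g + g • D0 f) := by
        change _ = D0 (f * g) - ((f : KK I A) * D0 g + (g : KK I A) * D0 f)
        abel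
      rw [h2]
      exact h1
  obtain ⟨θ, hθ⟩ := hPL6 hR hs pt hpt t ht D0 hder
  refine ⟨θ, Derivation.ext fun f => ?_⟩
  have h1 := mk_eq.2 (hθ f)
  rw [mk_smulA, hD0] at h1
  rw [Derivation.smul_apply, tder_apply, h1]

end

end MPG

open MPG in
theorem t_MPG (hKBC : Stmt_KBC) (hKBT : Stmt_KBT) (hSCO : Stmt_SCO) (hSDB : Stmt_SDB)
    (hAWB : Stmt_AWB) (hAYE : Stmt_AYE) (hAWK : Stmt_AWK) (hPL1 : Stmt_PL1) (hPL2 : Stmt_PL2)
    (hPL6 : Stmt_PL6) (hPL7 : Stmt_PL7) : Stmt_MPG := by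
  intro I A _ _ _ h R hR pt hpt t ht
  have key : ∀ {B : Type} [CommRing B] (φ : A →+* B), ∃ pt' : Bool → FPt (bc φ R), Disj pt' ∧
      bc φ (PT pt t) = PT pt' (φ t) := by
    intro B _ φ
    obtain ⟨h1, h2⟩ := hAWB hR.kr φ
    choose pt' hpt' _ using fun b => h1 (pt b)
    exact ⟨pt', (h2 hR.smc pt pt' hpt' hpt).1,
      (hPL2.1 hR.kr hR.smc pt hpt t ht φ pt' hpt').symm⟩
  refine ⟨⟨hPL1 hR.kr hR.smc pt hpt t ht, ?_⟩, ?_, ?_, ?_⟩
  · intro κ _ _ φ
    right
    obtain ⟨pt', h1, h2⟩ := key φ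
    have h3 : φ t = 0 := (ht.map φ).eq_zero
    have h4 := skr_bc hKBC hKBT hSDB hR φ
    rw [h2, h3]
    refine ⟨h, bc φ R, evh (pt' true), evh (pt' false), rfl, h4.kr, ⟨h4.fs, h4.smc⟩,
      evh_ne h1, fun f => ?_⟩
    rw [hPL2.2.2 h4.kr h4.smc pt' h1 f]
    constructor
    · rintro ⟨r, rfl, hr⟩
      exact ⟨r.2, hr⟩
    · rintro ⟨hf, hr⟩
      exact ⟨⟨f, hf⟩, rfl, hr⟩
  · intro ω hω
    exact hPL7 hR.kr hR.smc hR.dual pt hpt t ht ω hω.1
  · intro B _ φ D
    obtain ⟨pt', h1, h2⟩ := key φ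
    have h4 := skr_bc hKBC hKBT hSDB hR φ
    exact t_smul hPL6 h4.kr h4.smc pt' h1 (φ t) (ht.map φ) _ h2 D
  · intro B _ φ
    exact skr_bc hKBC hKBT hSDB hR φ

end Pool.Agent.MG.G0
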