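import Pool.Agent.MG.G0.StmtsU

/-!
# Models: the different, the discriminant of reductions, smoothness (module MSM)
-/

open Polynomial

namespace Pool.Agent.MG.G0

namespace MSM

theorem kr_bc1 (hKBC : Stmt_KBC) {A B : Type} [CommRing A] [CommRing B] {g : ℕ}
    {R : Subalgebra A (LaurentSeries A)} (h : Kr g R) (φ : A →+* B) : Kr g (bc1 φ R) := by
  have h1 := (hKBC.2.2.2 (P := uno R) h φ).1
  rw [bc_uno] at h1
  exact h1

theorem zz_bc1 {A B : Type} [CommRing A] [CommRing B] {d : ℕ}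
    {R : Subalgebra A (LaurentSeries A)} (h : zz A d ∈ R) (φ : A →+* B) : zz B d ∈ bc1 φ R := by
  rw [← lmap_zz φ d]
  exact Algebra.subset_adjoin ⟨zz A d, h, rfl⟩

theorem sep_mul {κ : Type} [Field κ] {c : κ} {h : κ[X]} (h0 : h.eval c ≠ 0) (hs : h.Separable) :
    ((X - C c) * h).Separable := by
  refine Polynomial.Separable.mul (Polynomial.separable_X_sub_C) hs ?_
  refine ((Polynomial.irreducible_X_sub_C c).coprime_iff_not_dvd).2 fun h1 => h0 ?_
  exact Polynomial.dvd_iff_isRoot.1 h1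

end MSM

open MSM in
theorem t_MSM (hKBC : Stmt_KBC) (hKIL : Stmt_KIL) (hKIS : Stmt_KIS) (hDSC : Stmt_DSC)
    (hKRK : Stmt_KRK) : Stmt_MSM := by
  intro κ O L _ _ _ _ _ _ g d R M hd hfac
  have hd1 : 1 ≤ d := by omega
  have hdκ : (d : κ) ≠ 0 := by
    intro h
    apply hfac
    obtain ⟨e, he⟩ := Nat.dvd_factorial (by omega : 0 < d) le_rfl
    rw [he, Nat.cast_mul, h, zero_mul]
  have hdκ' : IsUnit (d : κ) := isUnit_iff_ne_zero.2 hdκ
  have hdO : IsUnit (d : O) := by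
    have h1 := hdκ'.map (algebraMap κ O)
    rwa [map_natCast] at h1
  have hdL : IsUnit (d : L) := by
    have h1 := hdO.map (algebraMap O L)
    rwa [map_natCast] at h1
  have hval : ValuationRing O := M.val
  have hfrac : IsFractionRing O L := M.frac
  have hdisc : Disc d (bc1 (algebraMap O L) M.P) (M.f.map (algebraMap O L)) := by
    rw [M.bc]
    exact M.disc
  have hKil : Kil d M.P M.f := by
    have h1 := hKIL.1 hd1 hdL (kr_bc1 hKBC M.kr (algebraMap O L))
      (zz_bc1 M.z (algebraMap O L)) hdisc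
    exact hKIL.2.2 (algebraMap O L) (IsFractionRing.injective O L) hd1 hdO M.kr M.z M.monic h1
  have hmax : ∀ m : ℕ, ∀ x ∈ IsLocalRing.maximalIdeal O ^ m, M.π ^ m ∣ x := by
    intro m x hx
    have h1 : IsLocalRing.maximalIdeal O ≤ Ideal.span {M.π} := by
      intro y hy
      rw [Ideal.mem_span_singleton]
      apply M.ker
      by_contra h2
      exact (IsLocalRing.mem_maximalIdeal y).1 hy (M.unit y h2)
    have h2 := Ideal.pow_right_mono h1 m hx
    rw [Ideal.span_singleton_pow, Ideal.mem_span_singleton] at h2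
    exact h2
  have hDisc : ∀ {B : Type} [CommRing B] (φ : O →+* B), (∃ m : ℕ, φ (M.π ^ m) = 0) →
      Disc d (bc1 φ M.P) (M.f.map φ) := by
    intro B _ φ hφ
    obtain ⟨m, hm⟩ := hφ
    refine hDSC (L := L) hd1 hdO M.kr M.z M.monic M.deg hdisc φ ⟨m, fun x hx => ?_⟩
    obtain ⟨y, rfl⟩ := hmax m x hx
    rw [map_mul, hm, zero_mul]
  refine ⟨hKil, fun {B} _ φ hφ => hDisc φ hφ, fun hκ hSmo => ?_⟩
  have hb : Disc d M.Pb M.fb := hDisc (M.rs : O →+* κ) ⟨1, by
    rw [pow_one]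
    exact M.rsπ⟩
  have hkr : Kr g M.Pb := kr_bc1 hKBC M.kr _
  have hz : zz κ d ∈ M.Pb := zz_bc1 M.z _
  rcases hSmo with hs | ⟨c, ⟨h, hh, hc, hs⟩, hG⟩
  · exact hKIS hd1 hfac hkr hz (hKIL.1 hd1 hdκ' hkr hz hb) hs
  · exact hKIS hd1 hfac hkr hz (hKRK hd hdκ hkr hz hb hh hG) (sep_mul hc hs)

end Pool.Agent.MG.G0
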