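import Pool.Agent.MG.G0.StmtsM

/-!
# MTR: truncated polynomial rings `A[T]/T^N` (PAPER_M.md)
-/

open Polynomial

namespace Pool.Agent.MG.G0

namespace MTR

section

variable {A : Type} [CommRing A] {N : ℕ}

theorem tt_pow : tt A N ^ N = 0 := by
  have h : AdjoinRoot.mk ((X : A[X]) ^ N) (X ^ N) = 0 := AdjoinRoot.mk_self
  rw [map_pow, AdjoinRoot.mk_X] at h
  exact h

theorem mk_tt : AdjoinRoot.mk ((X : A[X]) ^ N) X = tt A N := AdjoinRoot.mk_X

theorem eq_mk (x : TrA A N) : ∃ p : A[X], AdjoinRoot.mk ((X : A[X]) ^ N) p = x :=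
  AdjoinRoot.mk_surjective x

theorem co_add (x y : TrA A N) (i : ℕ) (hi : i < N) : co i (x + y) = co i x + co i y := by
  obtain ⟨p, rfl⟩ := eq_mk x
  obtain ⟨q, rfl⟩ := eq_mk y
  rw [← map_add, co_mk hi, co_mk hi, co_mk hi, coeff_add]

theorem co_smul (a : A) (x : TrA A N) (i : ℕ) (hi : i < N) : co i (a • x) = a * co i x := by
  obtain ⟨p, rfl⟩ := eq_mk x
  have h : a • AdjoinRoot.mk ((X : A[X]) ^ N) p = AdjoinRoot.mk ((X : A[X]) ^ N) (a • p) := rfl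
  rw [h, co_mk hi, co_mk hi, coeff_smul, smul_eq_mul]

theorem co_zero (x : TrA A N) (h : ∀ i, i < N → co i x = 0) : x = 0 := by
  obtain ⟨p, rfl⟩ := eq_mk x
  rw [AdjoinRoot.mk_eq_zero, X_pow_dvd_iff]
  intro i hi
  have := h i hi
  rwa [co_mk hi] at this

theorem co_tt_zero (x : TrA A N) (hN : 0 < N) : co 0 (tt A N * x) = 0 := by
  obtain ⟨p, rfl⟩ := eq_mk x
  rw [← mk_tt, ← map_mul, co_mk hN, mul_comm, coeff_mul_X_zero]

theorem co_tt_succ (x : TrA A N) (i : ℕ) (hi : i + 1 < N) :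
    co (i + 1) (tt A N * x) = co i x := by
  obtain ⟨p, rfl⟩ := eq_mk x
  rw [← mk_tt, ← map_mul, co_mk hi, co_mk (Nat.lt_of_succ_lt hi), mul_comm, coeff_mul_X]

theorem ext_co (x y : TrA A N) (h : ∀ i, i < N → co i x = co i y) : x = y := by
  obtain ⟨p, rfl⟩ := eq_mk x
  obtain ⟨q, rfl⟩ := eq_mk y
  rw [AdjoinRoot.mk_eq_mk, X_pow_dvd_iff]
  intro i hi
  have := h i hi
  rw [co_mk hi, co_mk hi] at this
  rw [coeff_sub, this, sub_self]

theorem sum_mk (a : ℕ → A) : ∑ i ∈ Finset.range N, a i • tt A N ^ i =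
    AdjoinRoot.mk ((X : A[X]) ^ N) (∑ i ∈ Finset.range N, a i • X ^ i) := by
  rw [map_sum]
  refine Finset.sum_congr rfl fun i _ => ?_
  rw [← mk_tt, ← map_pow]
  rfl

theorem co_sum (x : TrA A N) : x = ∑ i ∈ Finset.range N, co i x • tt A N ^ i := by
  refine ext_co _ _ fun i hi => ?_
  rw [sum_mk, co_mk hi, finsetSum_coeff, Finset.sum_eq_single i]
  · rw [coeff_smul, coeff_X_pow_self, smul_eq_mul, mul_one]
  · intro j _ hj
    rw [coeff_smul, coeff_X_pow, if_neg (fun h => hj h.symm), smul_zero]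
  · intro h
    exact absurd (Finset.mem_range.2 hi) h

theorem co_dvd (x : TrA A N) (m : ℕ) (h : ∀ i, i < m → i < N → co i x = 0) :
    ∃ y, x = tt A N ^ m * y := by
  by_cases hm : m ≤ N
  · obtain ⟨p, rfl⟩ := eq_mk x
    have h1 : (X : A[X]) ^ m ∣ p := by
      rw [X_pow_dvd_iff]
      intro i hi
      have := h i hi (lt_of_lt_of_le hi hm)
      rwa [co_mk (lt_of_lt_of_le hi hm)] at this
    obtain ⟨q, rfl⟩ := h1
    exact ⟨AdjoinRoot.mk ((X : A[X]) ^ N) q, by rw [map_mul, map_pow, mk_tt]⟩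
  · refine ⟨0, ?_⟩
    rw [mul_zero]
    exact co_zero x fun i hi => h i (lt_trans hi (not_le.1 hm)) hi

theorem ttmul (x : TrA A N) (h : tt A N * x = 0) (i : ℕ) (hi : i + 1 < N) : co i x = 0 := by
  rw [← co_tt_succ x i hi, h, ← map_zero (AdjoinRoot.mk ((X : A[X]) ^ N)), co_mk hi, coeff_zero]

end

theorem p2a {A B : Type} [CommRing A] [CommRing B] {N : ℕ} (φ : A →+* B) :
    ∃ σ : TrA A N →+* TrA B N, TrM φ σ := by
  have h : ((X : A[X]) ^ N).eval₂ ((algebraMap B (TrA B N)).comp φ) (tt B N) = 0 := by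
    rw [eval₂_pow, eval₂_X, tt_pow]
  refine ⟨AdjoinRoot.lift ((algebraMap B (TrA B N)).comp φ) (tt B N) h, fun a => ?_, ?_⟩
  · exact AdjoinRoot.lift_of h
  · exact AdjoinRoot.lift_root h

theorem p2b {A B : Type} [CommRing A] [CommRing B] {N : ℕ} (φ : A →+* B)
    (σ : TrA A N →+* TrA B N) (hσ : TrM φ σ) (x : TrA A N) (i : ℕ) (hi : i < N) :
    co i (σ x) = φ (co i x) := by
  have h : σ.comp (AdjoinRoot.mk ((X : A[X]) ^ N)) =
      (AdjoinRoot.mk ((X : B[X]) ^ N)).comp (mapRingHom φ) := by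
    refine ringHom_ext (fun a => ?_) ?_
    · have := hσ.1 a
      rw [AdjoinRoot.algebraMap_eq, AdjoinRoot.algebraMap_eq] at this
      simpa using this
    · have := hσ.2
      simpa using this
  obtain ⟨p, rfl⟩ := eq_mk x
  have h1 := DFunLike.congr_fun h p
  rw [RingHom.comp_apply, RingHom.comp_apply, coe_mapRingHom] at h1
  rw [h1, co_mk hi, co_mk hi, coeff_map]

theorem p4 {A B : Type} [CommRing A] [CommRing B] [Algebra A B] {N : ℕ} (t : B)
    (ht : t ^ N = 0) : ∃ σ : TrA A N →ₐ[A] B, σ (tt A N) = t := by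
  have h : ((X : A[X]) ^ N).eval₂ (Algebra.ofId A B : A →+* B) t = 0 := by
    rw [eval₂_pow, eval₂_X, ht]
  exact ⟨AdjoinRoot.liftAlgHom _ (Algebra.ofId A B) t h, AdjoinRoot.liftAlgHom_root _ _ _ _⟩

theorem alg_mk {A B : Type} [CommRing A] [CommRing B] [Algebra A B] {N : ℕ}
    (σ : TrA A N →ₐ[A] B) (p : A[X]) :
    σ (AdjoinRoot.mk ((X : A[X]) ^ N) p) = aeval (σ (tt A N)) p := by
  have h : σ.comp (AdjoinRoot.mkₐ ((X : A[X]) ^ N)) = aeval (σ (tt A N)) := by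
    refine algHom_ext ?_
    rw [aeval_X]
    rfl
  exact DFunLike.congr_fun h p

theorem p3b {A : Type} [CommRing A] {N : ℕ} (c : A) (ψ : TrA A N →ₐ[A] TrA A N)
    (hψ : ψ (tt A N) = c • tt A N) (x : TrA A N) (i : ℕ) (hi : i < N) :
    co i (ψ x) = c ^ i * co i x := by
  obtain ⟨p, rfl⟩ := eq_mk x
  have h : aeval (c • tt A N) p = AdjoinRoot.mk ((X : A[X]) ^ N) (p.comp (C c * X)) := by
    have h1 : (AdjoinRoot.mkₐ ((X : A[X]) ^ N)).comp (aeval (C c * X : A[X])) =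
        aeval (c • tt A N) := by
      refine algHom_ext ?_
      rw [aeval_X, AlgHom.comp_apply, aeval_X, ← smul_eq_C_mul, map_smul]
      rfl
    rw [← h1, AlgHom.comp_apply]
    rfl
  rw [alg_mk, hψ, h, co_mk hi, co_mk hi, comp_C_mul_X_coeff, mul_comm]

theorem p5 {A : Type} [CommRing A] {N : ℕ} (π : TrA A N →ₐ[A] A) (hπ : π (tt A N) = 0)
    (hN : 0 < N) (x : TrA A N) : π x = co 0 x ∧ (π x = 0 → ∃ y, x = tt A N * y) := by
  have h : π x = co 0 x := by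
    obtain ⟨p, rfl⟩ := eq_mk x
    rw [alg_mk, hπ, co_mk hN, coeff_zero_eq_aeval_zero]
  refine ⟨h, fun h0 => ?_⟩
  obtain ⟨y, hy⟩ := co_dvd x 1 fun i hi _ => by
    obtain rfl : i = 0 := by omega
    rw [← h, h0]
  exact ⟨y, by rwa [pow_one] at hy⟩

end MTR

theorem t_MTR : Stmt_MTR := by
  refine ⟨fun {A} _ {N} => ⟨MTR.tt_pow, MTR.co_sum, MTR.co_add, MTR.co_smul, MTR.co_zero,
    MTR.co_tt_zero, MTR.co_tt_succ, MTR.co_dvd, fun x h i hi => MTR.ttmul x h i hi⟩,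
    fun φ => ⟨MTR.p2a φ, MTR.p2b φ⟩, fun {A} _ {N} c => ⟨?_, MTR.p3b c⟩,
    fun t ht => MTR.p4 t ht, fun π hπ hN x => MTR.p5 π hπ hN x⟩
  have h : (c • tt A N) ^ N = 0 := by
    rw [_root_.smul_pow, MTR.tt_pow, smul_zero]
  exact MTR.p4 _ h

end Pool.Agent.MG.G0
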