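import Pool.Agent.MG.G0.StmtsM
import Pool.Agent.MG.G0.StmtsHV

/-!
# MVF: forgetting punctures and the values at plumbed curves
-/

open TensorProduct

namespace Pool.Agent.MG.G0

namespace MVF

variable {I J A B : Type} [Fintype I] [Nonempty I] [Fintype J] [CommRing A] [CommRing B]

omit [Fintype I] [Nonempty I] [Fintype J] in
/-- `atI` and `atJ` commute with base change. -/
theorem atI_kmap (φ : A →+* B) (w : KK (I ⊕ J) A) : atI (kmap φ w) = kmap φ (atI w) := rfl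

omit [Fintype I] [Nonempty I] [Fintype J] in
theorem atJ_kmap (φ : A →+* B) (w : KK (I ⊕ J) A) : atJ (kmap φ w) = kmap φ (atJ w) := rfl

omit [Fintype I] [Nonempty I] [Fintype J] in
/-- Regularity at the forgotten punctures. -/
theorem atJ_mem {w : KK (I ⊕ J) A} (h : ∀ j, ∀ m < 0, (w (Sum.inr j)).coeff m = 0) :
    atJ w ∈ Pol J A 0 := fun j m hm => h j m (by simpa using hm)

/-- The base change of a restriction of formal points is a restriction. -/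
theorem rs_bc (hPLF : Stmt_PLF) {h : ℕ} {W : Subalgebra A (KK (I ⊕ J) A)}
    {R : Subalgebra A (KK I A)} (hF : Forget W R) (φ : A →+* B) (k1 : IsKr h (bc φ W))
    (k2 : IsKr h (bc φ R)) (s1 : SmC B (bc φ W)) (s2 : SmC B (bc φ R))
    (hF' : Forget (bc φ W) (bc φ R)) (p : FPt W) (p₁ : FPt R) (hr : p.Rs p₁)
    (p' : FPt (bc φ W)) (p₁' : FPt (bc φ R)) (h1 : p.Bc φ p') (h2 : p₁.Bc φ p₁') :
    p'.Rs p₁' := by
  obtain ⟨p'', h3⟩ := (hPLF k1 k2 s1 s2 hF').1 p'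
  have hh : p₁'.h = p''.h := by
    refine AlgHom.adjoin_ext (R := B) (s := kmap φ '' (R : Set (KK I A))) ?_
    rintro _ ⟨r, hr', rfl⟩
    have hr2 : r ∈ Rem W := hF.eq ▸ hr'
    obtain ⟨w, hw, hreg, hwr⟩ := hr2
    have e1 : atI w = r := funext hwr
    have e2 : p₁'.h ⟨kmap φ r, kmap_mem_bc φ hr'⟩ = PowerSeries.map φ (p₁.h ⟨r, hr'⟩) :=
      h2.1 ⟨r, hr'⟩
    have e3 : p'.h ⟨kmap φ w, kmap_mem_bc φ hw⟩ = PowerSeries.map φ (p.h ⟨w, hw⟩) := h1.1 ⟨w, hw⟩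
    have e4 : p₁.h ⟨r, hr'⟩ = p.h ⟨w, hw⟩ := hr ⟨w, hw⟩ ⟨r, hr'⟩ e1 (atJ_mem hreg)
    have e5 : p''.h ⟨kmap φ r, kmap_mem_bc φ hr'⟩ = p'.h ⟨kmap φ w, kmap_mem_bc φ hw⟩ := by
      refine h3 ⟨kmap φ w, kmap_mem_bc φ hw⟩ ⟨kmap φ r, kmap_mem_bc φ hr'⟩ ?_ ?_
      · change atI (kmap φ w) = kmap φ r
        rw [atI_kmap, e1]
      · change atJ (kmap φ w) ∈ Pol J B 0
        rw [atJ_kmap]
        exact kmap_mem_Pol φ (atJ_mem hreg)
    exact e2.trans ((congrArg (PowerSeries.map φ) e4).trans (e3.symm.trans e5.symm))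
  intro w f hwf hreg
  rw [hh]
  exact h3 w f hwf hreg

end MVF

theorem t_MVF (hKBC : Stmt_KBC) (hAWB : Stmt_AWB) (hPLF : Stmt_PLF) (hMEE : Stmt_MEE)
    (hMFE : Stmt_MFE) (hMPB : Stmt_MPB) (hMPG : Stmt_MPG) (hMCB : Stmt_MCB) (hMTR : Stmt_MTR)
    (hMVX : Stmt_MVX) (hHV6 : Stmt_HV6) : Stmt_MVF := by
  intro I J A _ _ _ _ _ h W R hW hR hF pt pt₁ hrs hdis E
  have hd1 : Disj pt₁ := ((hPLF hW.kr hR.kr hW.smc hR.smc hF).2 pt pt₁ hrs hdis).1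
  constructor
  · rintro N k u u' x ⟨pt', hbc, hu, hu', hx⟩
    have hT : IsNilpotent (tt A N) := ⟨N, (hMTR.1 (A := A) (N := N)).1⟩
    have hW' : SKr h (bc (algebraMap A (TrA A N)) W) :=
      (hMPG hW pt hdis 0 IsNilpotent.zero).2.2.2 _
    have hR' : SKr h (bc (algebraMap A (TrA A N)) R) :=
      (hMPG hR pt₁ hd1 0 IsNilpotent.zero).2.2.2 _
    have hF' : Forget (bc (algebraMap A (TrA A N)) W) (bc (algebraMap A (TrA A N)) R) := by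
      obtain ⟨-, h2⟩ := hMCB.1 (B := TrA A N) hW.kr hF.dns
      obtain ⟨h3, h4, h5⟩ := h2 (algebraMap A (TrA A N))
      exact ⟨by rw [h4, ← hF.eq], h5, h3⟩
    have hd' : Disj pt' := ((hAWB hW.kr (algebraMap A (TrA A N))).2 hW.smc pt pt' hbc hdis).1
    obtain ⟨pt₁', hbc1⟩ := (hMVX hR pt₁ hd1 E N k).1
    have hrs' : ∀ b, (pt' b).Rs (pt₁' b) := fun b =>
      MVF.rs_bc hPLF hF _ hW'.kr hR'.kr hW'.smc hR'.smc hF' (pt b) (pt₁ b) (hrs b) (pt' b)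
        (pt₁' b) (hbc b) (hbc1 b)
    obtain ⟨hd1', hFT⟩ := (hPLF hW'.kr hR'.kr hW'.smc hR'.smc hF').2 pt' pt₁' hrs' hd'
    have hF2 := hFT (tt A N) hT
    obtain ⟨k1, -, -⟩ := (hMVX hW pt hdis E N k).2.1 pt' hbc
    obtain ⟨k2, hex, -⟩ := (hMVX hR pt₁ hd1 E N k).2.1 pt₁' hbc1
    have hE := (hMFE.1 k1 k2 hF2).1
    obtain ⟨y, hy⟩ := hex (fun i => atI (u i)) (fun i => atI (u' i)) (fun i => hE _ (hu i))
      (fun i => hE _ (hu' i))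
    refine ⟨y, hy, ?_⟩
    obtain ⟨pt₁'', hbc2, -, -, hy2⟩ := hy
    have hpt : pt₁'' = pt₁' := by
      funext b
      exact ((hAWB hR.kr (algebraMap A (TrA A N))).1 (pt₁ b)).unique (hbc2 b) (hbc1 b)
    subst hpt
    have hy3 : HV E (PT pt' (tt A N)) (tt A N) u u' y :=
      hHV6 E (tt A N) hF2 (hMPG hW' pt' hd' (tt A N) hT).1 (hMPG hR' pt₁'' hd1' (tt A N) hT).1
        u u' y hu hu' hy2
    exact (hMVX hW pt hdis E N k).2.2 u u' x y ⟨pt', hbc, hu, hu', hx⟩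
      ⟨pt', hbc, hu, hu', hy3⟩
  · intro t k u u' x ht hu hu' hx
    have hFT := ((hPLF hW.kr hR.kr hW.smc hR.smc hF).2 pt pt₁ hrs hdis).2 t ht
    exact hHV6 E t hFT (hMPG hW pt hdis t ht).1 (hMPG hR pt₁ hd1 t ht).1 u u' x hu hu' hx

end Pool.Agent.MG.G0
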