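import Pool.Agent.MG.G0.StmtsM
import Pool.Agent.MG.G0.StmtsHV

/-!
# MVN: naturality of the values at plumbed curves
-/

open TensorProduct

namespace Pool.Agent.MG.G0

namespace MVN

/-- Composition of base changes of formal points. -/
theorem bcr_comp (hKBC : Stmt_KBC) {I A B C : Type} [CommRing A] [CommRing B] [CommRing C]
    (φ : A →+* B) (ψ : B →+* C) {R : Subalgebra A (KK I A)} {R' : Subalgebra B (KK I B)}
    {R'' : Subalgebra C (KK I C)} {p : FPt R} {p' : FPt R'} {p'' : FPt R''}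
    (h : Bcr φ p p') (h' : Bcr ψ p' p'') : Bcr (ψ.comp φ) p p'' := by
  obtain ⟨h1, h2⟩ := h
  obtain ⟨h3, h4⟩ := h'
  refine ⟨?_, fun f f'' hf => ?_⟩
  · rw [h3, h1, hKBC.2.1]
  · have hm : kmap φ (f : KK I A) ∈ R' := by
      rw [h1]
      exact kmap_mem_bc φ f.2
    rw [h4 ⟨kmap φ (f : KK I A), hm⟩ f'' (by rw [hf, kmap_comp]), h2 f ⟨_, hm⟩ rfl,
      PowerSeries.map_comp]
    rfl

end MVN

open MVN in
theorem t_MVN (hKBC : Stmt_KBC) (hAWB : Stmt_AWB) (hMEE : Stmt_MEE) (hMPB : Stmt_MPB)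
    (hMPG : Stmt_MPG) (hMTR : Stmt_MTR) (hHV4 : Stmt_HV4) : Stmt_MVN := by
  intro I A B _ _ _ _ _ _ h R hR pt hpt E N k φ R' pt' hpt' σ hσ u u' x hV
  obtain ⟨qt, hqt, hu, hu', hHV⟩ := hV
  obtain ⟨hR', -⟩ := hpt' true
  subst hR'
  -- the curves over the two rings
  have hKB : SKr h (bc (φ : A →+* B) R) := (hMPG hR pt hpt 0 (IsNilpotent.zero)).2.2.2 _
  have hKA : SKr h (bc (algebraMap A (TrA A N)) R) :=
    (hMPG hR pt hpt 0 (IsNilpotent.zero)).2.2.2 _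
  have hA := hMPB hR.kr hR.smc pt hpt
  have hpt'D : Disj pt' := (hA.1 (φ : A →+* B) _ pt' hpt').1
  have hB := hMPB hKB.kr hKB.smc pt' hpt'D
  have h1 : ∀ b, Bcr (algebraMap A (TrA A N)) (pt b) (qt b) := hA.2.2.2 _ qt hqt
  have hqtD : Disj qt := (hA.1 _ _ qt h1).1
  have hAW := (hAWB hKB.1 (algebraMap B (TrA B N))).1
  choose qt' hqt' _ using fun b => hAW (pt' b)
  have h2 : ∀ b, Bcr (algebraMap B (TrA B N)) (pt' b) (qt' b) := hB.2.2.2 _ qt' hqt'
  have e1 : σ.comp (algebraMap A (TrA A N)) = (algebraMap B (TrA B N)).comp (φ : A →+* B) :=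
    RingHom.ext hσ.1
  have h3 : ∀ b, Bcr (σ.comp (algebraMap A (TrA A N))) (pt b) (qt' b) := by
    intro b
    rw [e1]
    exact bcr_comp hKBC _ _ (hpt' b) (h2 b)
  have h4 : ∀ b, Bcr σ (qt b) (qt' b) := hA.2.1 _ σ _ _ qt qt' h1 h3
  have hC := hMPB hKA.kr hKA.smc qt hqtD
  have hT : IsNilpotent (tt A N) := ⟨N, hMTR.1.1⟩
  have e2 : PT qt' (tt B N) = bc σ (PT qt (tt A N)) := by
    rw [← (hC.1 σ _ qt' h4).2 _ hT, hσ.2]
  have hG := (hMPG hKA qt hqtD _ hT).1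
  -- the ring homomorphism as an algebra homomorphism
  let σ' : TrA A N →ₐ[ℂ] TrA B N :=
    { σ with
      commutes' := fun c => by
        change σ (algebraMap ℂ (TrA A N) c) = _
        rw [IsScalarTower.algebraMap_apply ℂ A (TrA A N), hσ.1,
          IsScalarTower.algebraMap_apply ℂ B (TrA B N)]
        congr 1
        exact φ.commutes c }
  have e3 : (σ' : TrA A N →+* TrA B N) = σ := rfl
  have hH := hHV4 E (tt A N) hG σ' u u' x hHV
  have hE := (hMEE hG.1 σ).1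
  refine ⟨qt', hqt', fun i => ?_, fun i => ?_, ?_⟩
  · rw [e2]
    exact hE _ (hu i)
  · rw [e2]
    exact hE _ (hu' i)
  · have e4 : σ' (tt A N) = tt B N := hσ.2
    rw [e4, e3, ← e2] at hH
    exact hH

end Pool.Agent.MG.G0
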