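import Pool.Agent.MG.G0.StmtsM
import Pool.Agent.MG.G0.StmtsHV

/-!
# MVR: values of plumbed curves and change of the index set (PAPER_M.md)
-/

open TensorProduct

namespace Pool.Agent.MG.G0

namespace MVR

/-- A smoothness certificate is transported by an isomorphism. -/
theorem smC_equiv {A R R' : Type} [CommRing A] [CommRing R] [CommRing R'] [Algebra A R]
    [Algebra A R'] (e : R ≃ₐ[A] R') (h : SmC A R) : SmC A R' := by
  obtain ⟨n, D, g, h1, h2⟩ := h
  letI : Algebra R R' := (e : R →+* R').toAlgebra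
  have hm : ∀ r, algebraMap R R' r = e r := fun r => rfl
  have : IsScalarTower A R R' := IsScalarTower.of_algebraMap_eq fun a => by
    rw [hm]
    exact (e.commutes a).symm
  let D' : Fin n → Derivation A R' R' := fun i =>
    { toFun := fun f => e (D i (e.symm f))
      map_add' := fun f g => by rw [map_add, map_add, map_add]
      map_smul' := fun a f => by
        rw [map_smul, Derivation.map_smul, map_smul, RingHom.id_apply]
      map_one_eq_zero' := by
        change e (D i (e.symm 1)) = 0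
        rw [map_one, Derivation.map_one_eq_zero, map_zero]
      leibniz' := fun f g => by
        change e (D i (e.symm (f * g))) = f • e (D i (e.symm g)) + g • e (D i (e.symm f))
        rw [map_mul, Derivation.leibniz, smul_eq_mul, smul_eq_mul, smul_eq_mul, smul_eq_mul,
          map_add, map_mul, map_mul, e.apply_symm_apply, e.apply_symm_apply] }
  refine ⟨n, D', fun i => e (g i), ?_, ?_⟩
  · have h3 : ∀ i, D' i (e (g i)) = e (D i (g i)) := fun i => by
      change e (D i (e.symm (e (g i)))) = _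
      rw [e.symm_apply_apply]
    simp only [h3]
    rw [← map_sum, h1, map_one]
  · intro E' f' k'
    let E : Derivation A R R :=
      { toFun := fun f => e.symm (E' (e f))
        map_add' := fun f g => by rw [map_add, map_add, map_add]
        map_smul' := fun a f => by
          rw [map_smul, Derivation.map_smul, map_smul, RingHom.id_apply]
        map_one_eq_zero' := by
          change e.symm (E' (e 1)) = 0
          rw [map_one, Derivation.map_one_eq_zero, map_zero]
        leibniz' := fun f g => by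
          change e.symm (E' (e (f * g))) = f • e.symm (E' (e g)) + g • e.symm (E' (e f))
          rw [map_mul, Derivation.leibniz, smul_eq_mul, smul_eq_mul, smul_eq_mul, smul_eq_mul,
            map_add, map_mul, map_mul, e.symm_apply_apply, e.symm_apply_apply] }
    have key := congrArg (KaehlerDifferential.map A A R R') (h2 E (e.symm f') (e.symm k'))
    rw [map_smul, map_smul, KaehlerDifferential.map_D, KaehlerDifferential.map_D,
      ← algebraMap_smul R' (E (e.symm f')), ← algebraMap_smul R' (E (e.symm k')), hm, hm, hm,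
      hm, e.apply_symm_apply, e.apply_symm_apply] at key
    have a1 : e (E (e.symm f')) = E' f' := by
      change e (e.symm (E' (e (e.symm f')))) = E' f'
      rw [e.apply_symm_apply, e.apply_symm_apply]
    have a2 : e (E (e.symm k')) = E' k' := by
      change e (e.symm (E' (e (e.symm k')))) = E' k'
      rw [e.apply_symm_apply, e.apply_symm_apply]
    rw [a1, a2] at key
    exact key

variable {I I' : Type} {A B : Type} [CommRing A] [CommRing B]

theorem mem_reix (e : I' ≃ I) {P : Subalgebra A (KK I A)} {f : KK I' A} :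
    f ∈ reix e P ↔ (fun i => f (e.symm i) : KK I A) ∈ P := Iff.rfl

theorem comp_mem (e : I' ≃ I) {P : Subalgebra A (KK I A)} {f : KK I A} (hf : f ∈ P) :
    (fun i => f (e i) : KK I' A) ∈ reix e P := by
  rw [mem_reix]
  have h : (fun i => (fun i => f (e i) : KK I' A) (e.symm i) : KK I A) = f := by
    funext i
    change f (e (e.symm i)) = f i
    rw [e.apply_symm_apply]
  rw [h]
  exact hf

/-- The isomorphism of `P` and `reix e P`. -/
noncomputable def eqv (e : I' ≃ I) (P : Subalgebra A (KK I A)) : P ≃ₐ[A] reix e P where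
  toFun f := ⟨fun i => (f : KK I A) (e i), comp_mem e f.2⟩
  invFun f := ⟨fun i => (f : KK I' A) (e.symm i), f.2⟩
  left_inv f := Subtype.ext (funext fun i => by
    change (f : KK I A) (e (e.symm i)) = _
    rw [e.apply_symm_apply])
  right_inv f := Subtype.ext (funext fun i => by
    change (f : KK I' A) (e.symm (e i)) = _
    rw [e.symm_apply_apply])
  map_mul' _ _ := rfl
  map_add' _ _ := rfl
  commutes' _ := rfl

theorem eqv_apply (e : I' ≃ I) (P : Subalgebra A (KK I A)) (f : P) (i : I') :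
    (eqv e P f : KK I' A) i = (f : KK I A) (e i) := rfl

theorem reix_symm (e : I' ≃ I) (P : Subalgebra A (KK I A)) : reix e.symm (reix e P) = P := by
  ext f
  rw [mem_reix, mem_reix]
  have h : (fun i => (fun i => f (e.symm.symm i) : KK I' A) (e.symm i) : KK I A) = f := by
    funext i
    change f (e (e.symm i)) = f i
    rw [e.apply_symm_apply]
  rw [h]

theorem res_comp [Fintype I] [Fintype I'] (e : I' ≃ I) (f : KK I A) :
    res (fun i => f (e i) : KK I' A) = res f :=
  Fintype.sum_equiv e _ _ fun _ => rfl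

theorem comp_Pol (e : I' ≃ I) {n : ℤ} {f : KK I A} (hf : f ∈ Pol I A n) :
    (fun i => f (e i) : KK I' A) ∈ Pol I' A n := fun i m hm => hf (e i) m hm

theorem comp_EE [Fintype I] [Fintype I'] (e : I' ≃ I) {P : Subalgebra A (KK I A)} {f : KK I A}
    (hf : f ∈ EE P) : (fun i => f (e i) : KK I' A) ∈ EE (reix e P) := by
  refine ⟨fun p hp => ?_, comp_Pol e hf.2⟩
  have h1 := hf.1 _ ((mem_reix e).1 hp)
  rw [← res_comp e] at h1
  have h2 : (fun i => (f * (fun i => p (e.symm i) : KK I A)) (e i) : KK I' A) =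
      (fun i => f (e i) : KK I' A) * p := by
    funext i
    change f (e i) * p (e.symm (e i)) = f (e i) * p i
    rw [e.symm_apply_apply]
  rw [h2] at h1
  exact h1

theorem dual_reix [Fintype I] [Fintype I'] (e : I' ≃ I) {P : Subalgebra A (KK I A)}
    (hP : Dual P) : Dual (reix e P) := by
  intro θ hθ η hη
  rw [mem_reix]
  have h1 : (fun i => θ (e.symm i) : KK I A) ∈ TT P := by
    intro f hf
    have h2 := hθ _ (comp_mem e hf)
    rw [mem_reix] at h2
    have h3 : (fun i => (θ * dd (fun i => f (e i) : KK I' A)) (e.symm i) : KK I A) =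
        (fun i => θ (e.symm i) : KK I A) * dd f := by
      funext i
      change θ (e.symm i) * ld (f (e (e.symm i))) = θ (e.symm i) * ld (f i)
      rw [e.apply_symm_apply]
    rw [h3] at h2
    exact h2
  have h4 : (fun i => η (e.symm i) : KK I A) ∈ Perp P := by
    intro p hp
    have h5 := hη _ (comp_mem e hp)
    rw [← res_comp e.symm] at h5
    have h6 : (fun i => (η * (fun i => p (e i) : KK I' A)) (e.symm i) : KK I A) =
        (fun i => η (e.symm i) : KK I A) * p := by
      funext i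
      change η (e.symm i) * p (e (e.symm i)) = η (e.symm i) * p i
      rw [e.apply_symm_apply]
    rw [h6] at h5
    exact h5
  exact hP _ h1 _ h4

theorem skr_reix (hKAU : Stmt_KAU) [Fintype I] [Fintype I'] (e : I' ≃ I) {h : ℕ}
    {R : Subalgebra A (KK I A)} (hR : SKr h R) : SKr h (reix e R) where
  kr := hKAU.2 R e hR.kr
  fs := by
    have := hR.fs
    exact Algebra.FormallySmooth.of_equiv (eqv e R)
  smc := smC_equiv (eqv e R) hR.smc
  dual := dual_reix e hR.dual

/-! ## The plumbed rings -/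

/-- The expansions correspond. -/
def Cmp (e : I' ≃ I) {Q : Subalgebra A (KK I A)} {Q' : Subalgebra A (KK I' A)}
    (qt : Bool → FPt Q) (qt' : Bool → FPt Q') : Prop :=
  ∀ (b : Bool) (f : Q) (f' : Q'), (∀ i, (f' : KK I' A) i = (f : KK I A) (e i)) →
    (qt' b).h f' = (qt b).h f

theorem Cmp.symm {e : I' ≃ I} {Q : Subalgebra A (KK I A)} {Q' : Subalgebra A (KK I' A)}
    {qt : Bool → FPt Q} {qt' : Bool → FPt Q'} (h : Cmp e qt qt') : Cmp e.symm qt' qt :=
  fun b f f' hf => (h b f' f fun i => by rw [hf, e.symm_apply_apply]).symm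

/-- The index change on series with additional components. -/
def rx {J : Type} (e : I' ≃ I) (w : KK (I ⊕ J) A) : KK (I' ⊕ J) A :=
  Sum.elim (fun i => w (Sum.inl (e i))) fun j => w (Sum.inr j)

theorem rx_WJ {e : I' ≃ I} {Q : Subalgebra A (KK I A)} {Q' : Subalgebra A (KK I' A)}
    {qt : Bool → FPt Q} {qt' : Bool → FPt Q'} (hQ : Q' = reix e Q) (h : Cmp e qt qt')
    {w : KK (I ⊕ Bool) A} (hw : w ∈ WJ qt) : rx e w ∈ WJ qt' := by
  subst hQ
  obtain ⟨n, hn⟩ := hw
  refine ⟨n, fun s hs => ?_⟩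
  let ψ : reix e Q →+* Q := ((eqv e Q).symm : reix e Q →+* Q)
  have hψ : ∀ x : reix e Q, ∀ i, (x : KK I' A) i = (ψ x : KK I A) (e i) := fun x i => by
    change _ = (x : KK I' A) (e.symm (e i))
    rw [e.symm_apply_apply]
  have h1 : ψ s ∈ Ipt qt ^ n := by
    have h2 : ψ s ∈ Ideal.map ψ (Ipt qt' ^ n) := Ideal.mem_map_of_mem ψ hs
    rw [Ideal.map_pow] at h2
    refine Ideal.pow_right_mono ?_ n h2
    rw [Ideal.map_le_iff_le_comap]
    intro x hx
    rw [Ideal.mem_comap]
    rw [Ipt, Ideal.mem_iInf] at hx ⊢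
    intro b
    have h3 := hx b
    rw [FPt.mem_id] at h3 ⊢
    rw [FPt.ev, h b (ψ x) x (hψ x)] at h3
    exact h3
  obtain ⟨r, hr⟩ := hn _ h1
  refine ⟨eqv e Q r, ?_⟩
  funext k
  rcases k with i | b
  · have h4 := congrFun hr (Sum.inl (e i))
    change (ψ s : KK I A) (e i) * w (Sum.inl (e i)) = (r : KK I A) (e i) at h4
    change (s : KK I' A) i * w (Sum.inl (e i)) = (r : KK I A) (e i)
    rw [hψ s i]
    exact h4
  · have h4 := congrFun hr (Sum.inr b)
    change psl A ((qt b).h (ψ s)) * w (Sum.inr b) = psl A ((qt b).h r) at h4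
    change psl A ((qt' b).h s) * w (Sum.inr b) = psl A ((qt' b).h (eqv e Q r))
    rw [h b (ψ s) s (hψ s), h b r (eqv e Q r) fun i => rfl]
    exact h4

theorem PT_reix {e : I' ≃ I} {Q : Subalgebra A (KK I A)} {Q' : Subalgebra A (KK I' A)}
    {qt : Bool → FPt Q} {qt' : Bool → FPt Q'} (hQ : Q' = reix e Q) (h : Cmp e qt qt') (t : A) :
    PT qt' t = reix e (PT qt t) := by
  ext f
  rw [mem_reix, mem_PT, mem_PT]
  constructor
  · rintro ⟨w, hw, rfl, h2⟩
    refine ⟨rx e.symm w, rx_WJ ?_ h.symm hw, rfl, h2⟩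
    rw [hQ, reix_symm]
  · rintro ⟨w, hw, h1, h2⟩
    refine ⟨rx e w, rx_WJ hQ h hw, ?_, h2⟩
    funext i
    have h3 := congrFun h1 (e i)
    change w (Sum.inl (e i)) = f (e.symm (e i)) at h3
    rw [e.symm_apply_apply] at h3
    exact h3

theorem cmp_bc {e : I' ≃ I} (φ : A →+* B) {R : Subalgebra A (KK I A)} {pt : Bool → FPt R}
    {pt₁ : Bool → FPt (reix e R)} (h : Cmp e pt pt₁) {pt' : Bool → FPt (bc φ R)}
    {pt₁' : Bool → FPt (bc φ (reix e R))} (hpt : ∀ b, (pt b).Bc φ (pt' b))
    (hpt₁ : ∀ b, (pt₁ b).Bc φ (pt₁' b)) (hbc : bc φ (reix e R) = reix e (bc φ R)) :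
    Cmp e pt' pt₁' := by
  intro b
  let ψ : bc φ R →ₐ[B] bc φ (reix e R) :=
    (Subalgebra.equivOfEq _ _ hbc.symm : reix e (bc φ R) →ₐ[B] bc φ (reix e R)).comp
      (eqv e (bc φ R) : bc φ R →ₐ[B] reix e (bc φ R))
  have hψ : ∀ (f : bc φ R) (i : I'), (ψ f : KK I' B) i = (f : KK I B) (e i) := fun f i => rfl
  have key : (pt₁' b).h.comp ψ = (pt' b).h := by
    refine AlgHom.adjoin_ext ?_
    rintro x ⟨r, hr, hx⟩
    have h1 := (hpt b).1 ⟨r, hr⟩
    have h2 := (hpt₁ b).1 (eqv e R ⟨r, hr⟩)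
    rw [h b ⟨r, hr⟩ (eqv e R ⟨r, hr⟩) fun i => rfl, ← h1] at h2
    subst hx
    have e1 : (⟨kmap φ r, Algebra.subset_adjoin ⟨r, hr, rfl⟩⟩ : bc φ R) = bcMap φ R ⟨r, hr⟩ :=
      rfl
    have e2 : ψ (bcMap φ R ⟨r, hr⟩) = bcMap φ (reix e R) (eqv e R ⟨r, hr⟩) := rfl
    change (pt₁' b).h (ψ (bcMap φ R ⟨r, hr⟩)) = (pt' b).h (bcMap φ R ⟨r, hr⟩)
    rw [e2]
    exact h2
  intro f f' hf
  have h3 : f' = ψ f := Subtype.ext (funext fun i => by rw [hf, hψ])
  rw [h3, ← key]
  rfl

theorem nilp (N : ℕ) : IsNilpotent (tt A N) := by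
  refine ⟨N, ?_⟩
  have h : (AdjoinRoot.mk ((Polynomial.X : Polynomial A) ^ N)) (Polynomial.X ^ N) = 0 :=
    AdjoinRoot.mk_self
  rw [map_pow, AdjoinRoot.mk_X] at h
  exact h

end MVR

theorem t_MVR (hKAU : Stmt_KAU) (hKBC : Stmt_KBC) (hAWB : Stmt_AWB) (hMPB : Stmt_MPB)
    (hMPG : Stmt_MPG) (hMCB : Stmt_MCB) (hHV7 : Stmt_HV7) : Stmt_MVR := by
  intro I I' A _ _ _ _ _ _ h R e hR
  have hR' : SKr h (reix e R) := MVR.skr_reix hKAU e hR
  refine ⟨hR', ?_⟩
  intro pt pt₁ hd hc E N k u u' x hx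
  obtain ⟨pt', h1, h2, h3, h4⟩ := hx
  have hbc : bc (algebraMap A (TrA A N)) (reix e R) = reix e (bc (algebraMap A (TrA A N)) R) := hMCB.2.1 (algebraMap A (TrA A N)) e R
  have hA := hAWB hR'.kr (algebraMap A (TrA A N))
  choose pt₁' hp1 _ using fun b => hA.1 (pt₁ b)
  have hcmp : MVR.Cmp e pt' pt₁' := MVR.cmp_bc _ hc h1 hp1 hbc
  have hPT : PT pt₁' (tt A N) = reix e (PT pt' (tt A N)) := MVR.PT_reix hbc hcmp _
  have hB : SKr h (bc (algebraMap A (TrA A N)) R) := (hMPG hR pt hd 0 IsNilpotent.zero).2.2.2 _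
  have hM := hMPB hR.kr hR.smc pt hd
  have hd' : Disj pt' := (hM.1 _ _ pt' (hM.2.2.2 _ pt' h1)).1
  have hG : Good (h + 1) (PT pt' (tt A N)) := (hMPG hB pt' hd' (tt A N) (MVR.nilp N)).1
  have hH := (hHV7 E e (tt A N) hG).2 u u' x h4
  refine ⟨pt₁', hp1, fun i => ?_, fun i => ?_, ?_⟩
  · rw [hPT]
    exact MVR.comp_EE e (h2 i)
  · rw [hPT]
    exact MVR.comp_EE e (h3 i)
  · rw [hPT]
    exact hH

end Pool.Agent.MG.G0
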