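import Pool.Agent.MG.G0.StmtsM
import Pool.Agent.MG.G0.StmtsHV

/-!
# MVS: rescaling of the parameters and the values at plumbed curves
-/

open TensorProduct

namespace Pool.Agent.MG.G0

namespace MVS

/-- Rescaling commutes with base change. -/
theorem resc_bc {I A B : Type} [CommRing A] [CommRing B] (φ : A →+* B)
    {R : Subalgebra A (KK I A)} (p : FPt R) (p' : FPt (bc φ R)) (h : p.Bc φ p') (c : Aˣ)
    (c' : Bˣ) (hc : (c' : B) = φ c) : (p.resc c).Bc φ (p'.resc c') := by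
  refine ⟨fun f => ?_, h.2⟩
  change PowerSeries.rescale (c' : B) (p'.h (bcMap φ R f)) =
    PowerSeries.map φ (PowerSeries.rescale (c : A) (p.h f))
  rw [h.1 f, hc]
  ext n
  rw [PowerSeries.coeff_rescale, PowerSeries.coeff_map, PowerSeries.coeff_map,
    PowerSeries.coeff_rescale, map_mul, map_pow]

end MVS

theorem t_MVS (hKBC : Stmt_KBC) (hAWB : Stmt_AWB) (hPL2 : Stmt_PL2) (hMEE : Stmt_MEE)
    (hMPB : Stmt_MPB) (hMPG : Stmt_MPG) (hMTR : Stmt_MTR) (hHV4 : Stmt_HV4)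
    (hHV5 : Stmt_HV5) : Stmt_MVS := by
  intro I A _ _ _ _ h R hR pt hdis E N k c ψ hψ u u' x ⟨pt', hbc, hu, hu', hx⟩
  have hT : IsNilpotent (tt A N) := ⟨N, (hMTR.1 (A := A) (N := N)).1⟩
  have hT' : IsNilpotent (ψ (tt A N)) := hT.map ψ
  have hR' : SKr h (bc (algebraMap A (TrA A N)) R) :=
    (hMPG hR pt hdis 0 IsNilpotent.zero).2.2.2 _
  have hd' : Disj pt' := ((hAWB hR.kr (algebraMap A (TrA A N))).2 hR.smc pt pt' hbc hdis).1
  have hB := hMPB hR.kr hR.smc pt hdis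
  have b1 : ∀ b, Bcr (algebraMap A (TrA A N)) (pt b) (pt' b) := hB.2.2.2 _ pt' hbc
  have e1 : (ψ : TrA A N →+* TrA A N).comp (algebraMap A (TrA A N)) =
      algebraMap A (TrA A N) := ψ.comp_algebraMap
  have b2 : ∀ b, Bcr (ψ : TrA A N →+* TrA A N) (pt' b) (pt' b) := by
    refine hB.2.1 (algebraMap A (TrA A N)) (ψ : TrA A N →+* TrA A N) _ _ pt' pt' b1 ?_
    rw [e1]
    exact b1
  have e2 : PT pt' (ψ (tt A N)) = bc (ψ : TrA A N →+* TrA A N) (PT pt' (tt A N)) :=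
    ((hMPB hR'.kr hR'.smc pt' hd').1 (ψ : TrA A N →+* TrA A N) _ pt' b2).2 (tt A N) hT
  let c' : Bool → (TrA A N)ˣ := fun b => Units.map (algebraMap A (TrA A N) : A →* TrA A N) (c b)
  have hc' : ∀ b, (c' b : TrA A N) = algebraMap A (TrA A N) (c b) := fun b => rfl
  have e3 : ψ (tt A N) = (c' true : TrA A N) * (c' false : TrA A N) * tt A N := by
    rw [hψ, hc', hc', ← map_mul, Algebra.smul_def]
  have e4 : PT (fun b => (pt' b).resc (c' b)) (tt A N) =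
      bc (ψ : TrA A N →+* TrA A N) (PT pt' (tt A N)) := by
    rw [(hPL2.2.1 pt' c' (tt A N)).2, ← e3, e2]
  have g1 : Good (h + 1) (PT pt' (tt A N)) := (hMPG hR' pt' hd' (tt A N) hT).1
  have g2 : Good (h + 1) (bc (ψ : TrA A N →+* TrA A N) (PT pt' (tt A N))) := by
    rw [← e2]
    exact (hMPG hR' pt' hd' _ hT').1
  refine ⟨fun b => (pt' b).resc (c' b), fun b => MVS.resc_bc _ _ _ (hbc b) _ _ (hc' b),
    fun i => ?_, fun i => ?_, ?_⟩
  · rw [e4]
    exact (hMEE g1.1 (ψ : TrA A N →+* TrA A N)).1 _ (hu i)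
  · rw [e4]
    exact (hMEE g1.1 (ψ : TrA A N →+* TrA A N)).1 _ (hu' i)
  · rw [e4]
    have h1 : HV E (bc (ψ : TrA A N →+* TrA A N) (PT pt' (tt A N))) (ψ (tt A N))
        (fun i => kmap (ψ : TrA A N →+* TrA A N) (u i))
        (fun i => kmap (ψ : TrA A N →+* TrA A N) (u' i)) (ψ x) :=
      hHV4 E (tt A N) g1 (ψ.restrictScalars ℂ) u u' x hx
    have h2 := hHV5 E (ψ (tt A N)) ((((c' true)⁻¹ : (TrA A N)ˣ) : TrA A N) *
      (((c' false)⁻¹ : (TrA A N)ˣ) : TrA A N)) g2 _ _ _ h1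
    have e5 : (((c' true)⁻¹ : (TrA A N)ˣ) : TrA A N) * (((c' false)⁻¹ : (TrA A N)ˣ) : TrA A N) *
        ψ (tt A N) = tt A N := by
      rw [e3]
      calc _ = (((c' true)⁻¹ : (TrA A N)ˣ) : TrA A N) * (c' true : TrA A N) *
            ((((c' false)⁻¹ : (TrA A N)ˣ) : TrA A N) * (c' false : TrA A N)) * tt A N := by ring
        _ = tt A N := by rw [Units.inv_mul, Units.inv_mul, one_mul, one_mul]
    have e6 : ((((c' true)⁻¹ : (TrA A N)ˣ) : TrA A N) *
        (((c' false)⁻¹ : (TrA A N)ˣ) : TrA A N)) ^ k * ψ x =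
        ((((c true)⁻¹ : Aˣ) : A) * (((c false)⁻¹ : Aˣ) : A)) ^ k • ψ x := by
      have e7 : ∀ b, (((c' b)⁻¹ : (TrA A N)ˣ) : TrA A N) =
          algebraMap A (TrA A N) (((c b)⁻¹ : Aˣ) : A) := fun b => by
        change (((Units.map (algebraMap A (TrA A N) : A →* TrA A N) (c b))⁻¹ : (TrA A N)ˣ) :
          TrA A N) = _
        rw [← map_inv]
        rfl
      rw [e7, e7, ← map_mul, ← map_pow, Algebra.smul_def]
    rw [e5, e6] at h2
    exact h2

end Pool.Agent.MG.G0
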