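import Pool.Agent.MG.G0.StmtsNB

/-!
# NCO: the discriminant of the local ring at the node
-/

namespace Pool.Agent.MG.G0

namespace NCO

variable {P B ι : Type} [CommRing P] [CommRing B] [Fintype ι]

/-- The mixed sums. -/
def E (Ψ : Bool → (P →+* B)) (e c : ι → P) (a b : Bool) : B := ∑ l, Ψ a (e l) * Ψ b (c l)

theorem E_move {L : Subring P} {Ψ : Bool → (P →+* B)} {e c : ι → P}
    (h1 : ∀ x ∈ L, Ψ true x = Ψ false x)
    (h2 : ∀ x : P, ∃ a : ι → P, (∀ k, a k ∈ L) ∧ x = ∑ k, a k * e k)
    (h3 : ∀ (x : P) (H : ι → ι → P), (∀ k l, H k l ∈ L) →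
      (∀ k, x * e k = ∑ l, H l k * e l) → ∀ l, x * c l = ∑ k, H l k * c k)
    (x : P) (a b : Bool) : Ψ a x * E Ψ e c a b = Ψ b x * E Ψ e c a b := by
  have h1' : ∀ x ∈ L, Ψ a x = Ψ b x := by
    intro x hx
    cases a <;> cases b
    · rfl
    · exact (h1 x hx).symm
    · exact h1 x hx
    · rfl
  choose H' hH' hH using fun k => h2 (x * e k)
  have h4 := h3 x (fun l k => H' k l) (fun l k => hH' k l) hH
  have e1 : Ψ a x * E Ψ e c a b = ∑ k, ∑ l, Ψ a (H' k l) * Ψ a (e l) * Ψ b (c k) := by
    rw [E, Finset.mul_sum]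
    refine Finset.sum_congr rfl fun k _ => ?_
    rw [← mul_assoc, ← map_mul, hH k, map_sum, Finset.sum_mul]
    refine Finset.sum_congr rfl fun l _ => ?_
    rw [map_mul]
  have e2 : Ψ b x * E Ψ e c a b = ∑ l, ∑ k, Ψ a (H' k l) * Ψ a (e l) * Ψ b (c k) := by
    rw [E, Finset.mul_sum]
    refine Finset.sum_congr rfl fun l _ => ?_
    rw [mul_left_comm, ← map_mul, h4 l, map_sum, Finset.mul_sum]
    refine Finset.sum_congr rfl fun k _ => ?_
    rw [map_mul, h1' _ (hH' k l)]
    ring
  rw [e1, e2, Finset.sum_comm]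

end NCO

/-- NCO -/
theorem t_NCO : Stmt_NCO := by
  intro P B ι _ _ _ B₀ L Ψ e c D y h1 h2 h3 h4 hD h5 h6
  have hmove := NCO.E_move h1 h2 h3
  have h6' : IsUnit (Ψ false y - Ψ true y) := by
    have h := h6.neg
    rwa [neg_sub] at h
  have E12 : NCO.E Ψ e c true false = 0 := by
    have h := hmove y true false
    rw [← sub_eq_zero, ← sub_mul] at h
    exact (h6.mul_right_eq_zero).1 h
  have E21 : NCO.E Ψ e c false true = 0 := by
    have h := hmove y false true
    rw [← sub_eq_zero, ← sub_mul] at h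
    exact (h6'.mul_right_eq_zero).1 h
  have Eaa : ∀ a, NCO.E Ψ e c a a = Ψ a D := by
    intro a
    rw [NCO.E, ← h4, map_sum]
    exact Finset.sum_congr rfl fun l _ => (map_mul _ _ _).symm
  have E11 : NCO.E Ψ e c true true = Ψ true D := Eaa true
  have E22 : NCO.E Ψ e c false false = Ψ true D := by
    rw [Eaa false, h1 D hD]
  refine ⟨?_, ?_⟩
  · obtain ⟨a, b, -, hb, h⟩ := h5 (y * y)
    have ht := h true
    have hf := h false
    rw [map_mul] at ht hf
    have h7 : (Ψ true y + Ψ false y) * (Ψ true y - Ψ false y) =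
        b * (Ψ true y - Ψ false y) := by
      linear_combination ht - hf
    rw [h6.mul_left_injective h7]
    exact hb
  · choose a b ha hb h using fun l => h5 (e l)
    choose a' b' ha' hb' h' using fun l => h5 (c l)
    refine ⟨∑ l, b l * b' l, Subring.sum_mem _ fun l _ => mul_mem (hb l) (hb' l), ?_⟩
    have hbe : ∀ l, b l * (Ψ true y - Ψ false y) = Ψ true (e l) - Ψ false (e l) := by
      intro l
      rw [h l true, h l false]
      ring
    have hbc : ∀ l, b' l * (Ψ true y - Ψ false y) = Ψ true (c l) - Ψ false (c l) := by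
      intro l
      rw [h' l true, h' l false]
      ring
    have e1 : (∑ l, b l * b' l) * (Ψ true y - Ψ false y) ^ 2 =
        ∑ l, (Ψ true (e l) - Ψ false (e l)) * (Ψ true (c l) - Ψ false (c l)) := by
      rw [Finset.sum_mul]
      refine Finset.sum_congr rfl fun l _ => ?_
      rw [← hbe, ← hbc]
      ring
    have e2 : ∑ l, (Ψ true (e l) - Ψ false (e l)) * (Ψ true (c l) - Ψ false (c l)) =
        NCO.E Ψ e c true true - NCO.E Ψ e c true false - NCO.E Ψ e c false true +
          NCO.E Ψ e c false false := by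
      simp only [NCO.E, ← Finset.sum_sub_distrib, ← Finset.sum_add_distrib]
      refine Finset.sum_congr rfl fun l _ => ?_
      ring
    rw [e1, e2, E11, E12, E21, E22]
    ring

end Pool.Agent.MG.G0
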