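import Pool.Agent.MG.G0.StmtsNB
import Pool.Agent.MG.G0.KIL
import Pool.Agent.MG.G0.ZL.ZD

/-!
# NDB: the dual basis over a ring
-/

namespace Pool.Agent.MG.G0

namespace NDB

open Polynomial ZL

variable {A : Type} [CommRing A] {g d : ℕ} {P : Subalgebra A (LaurentSeries A)}
  {e : Fin d → LaurentSeries A} {G : Matrix (Fin d) (Fin d) A[X]}

theorem nondeg_fin [NeZero d] (hP : Kr g P) (he : ZBas d P e) {w : LaurentSeries A}
    (hw : ∀ j, pr0 A d (e j * w) = 0) : w = 0 := by
  have hC := cmat_isUnit hP (spn_of_zbas he)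
  refine KIL.nondeg hC fun i => ?_
  rw [pr_zero_eq]
  exact hw _

theorem eq_of_pr [NeZero d] (hP : Kr g P) (he : ZBas d P e) {x y : LaurentSeries A}
    (h : ∀ j, pr0 A d (e j * x) = pr0 A d (e j * y)) : x = y := by
  refine sub_eq_zero.1 (nondeg_fin hP he fun j => ?_)
  rw [mul_sub, map_sub, h j, sub_self]

/-- The dual basis, up to the factor `det G`. -/
noncomputable def cc (e : Fin d → LaurentSeries A) (G : Matrix (Fin d) (Fin d) A[X])
    (j : Fin d) : LaurentSeries A :=
  ∑ i, zpol A d (G.adjugate j i) * e i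

theorem cc_mem (hz : zz A d ∈ P) (he : ZBas d P e) (j : Fin d) : cc e G j ∈ P := by
  refine sum_mem fun i _ => mul_mem ?_ (he.mem i)
  exact (Algebra.adjoin_le (S := P) (Set.singleton_subset_iff.2 hz))
    (Polynomial.aeval_mem_adjoin_singleton A (zz A d))

theorem pr_cc (hG : ZGram d e G) (j k : Fin d) :
    pr0 A d (e k * cc e G j) = if j = k then zpol A d G.det else 0 := by
  have h1 : e k * cc e G j = ∑ i, zpol A d (G.adjugate j i) * (e i * e k) := by
    rw [cc, Finset.mul_sum]
    refine Finset.sum_congr rfl fun i _ => ?_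
    ring
  have h2 : pr0 A d (e k * cc e G j) = zpol A d ((G.adjugate * G) j k) := by
    rw [h1, map_sum, Matrix.mul_apply, map_sum]
    refine Finset.sum_congr rfl fun i _ => ?_
    rw [pr0_zpol_mul, ← hG i k, map_mul]
  rw [h2, Matrix.adjugate_mul, Matrix.smul_apply, Matrix.one_apply]
  split_ifs with h
  · rw [smul_eq_mul, mul_one]
  · rw [smul_zero, map_zero]

theorem pr_sum_cc (hG : ZGram d e G) (a : Fin d → A[X]) (m : Fin d) :
    pr0 A d (e m * ∑ k, zpol A d (a k) * cc e G k) = zpol A d (a m) * zpol A d G.det := by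
  have h1 : e m * ∑ k, zpol A d (a k) * cc e G k =
      ∑ k, zpol A d (a k) * (e m * cc e G k) := by
    rw [Finset.mul_sum]
    refine Finset.sum_congr rfl fun i _ => ?_
    ring
  rw [h1, map_sum, Finset.sum_eq_single m]
  · rw [pr0_zpol_mul, pr_cc hG, if_pos rfl]
  · intro k _ hk
    rw [pr0_zpol_mul, pr_cc hG, if_neg hk, mul_zero]
  · intro h
    exact absurd (Finset.mem_univ m) h

theorem pr_sum_e (hG : ZGram d e G) (a : Fin d → A[X]) (l : Fin d) :
    pr0 A d ((∑ k, zpol A d (a k) * e k) * cc e G l) = zpol A d (a l) * zpol A d G.det := by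
  have h1 : (∑ k, zpol A d (a k) * e k) * cc e G l =
      ∑ k, zpol A d (a k) * (e k * cc e G l) := by
    rw [Finset.sum_mul]
    refine Finset.sum_congr rfl fun i _ => ?_
    ring
  rw [h1, map_sum, Finset.sum_eq_single l]
  · rw [pr0_zpol_mul, pr_cc hG, if_pos rfl]
  · intro k _ hk
    rw [pr0_zpol_mul, pr_cc hG, if_neg (Ne.symm hk), mul_zero]
  · intro h
    exact absurd (Finset.mem_univ l) h

theorem mul_cc [NeZero d] (hP : Kr g P) (he : ZBas d P e) (hG : ZGram d e G)
    (x : LaurentSeries A) (H : Fin d → Fin d → A[X])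
    (hx : ∀ k, x * e k = ∑ l, zpol A d (H l k) * e l) (l : Fin d) :
    x * cc e G l = ∑ k, zpol A d (H l k) * cc e G k := by
  refine eq_of_pr hP he fun m => ?_
  rw [pr_sum_cc hG (fun k => H l k) m]
  have h1 : e m * (x * cc e G l) = (∑ l, zpol A d (H l m) * e l) * cc e G l := by
    rw [← hx m]
    ring
  rw [h1, pr_sum_e hG (fun k => H k m) l]

theorem sum_cc [NeZero d] (hd : 0 < d) (hP : Kr g P) (he : ZBas d P e) (hG : ZGram d e G) :
    ∑ k, e k * cc e G k = (d : LaurentSeries A) * zpol A d G.det := by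
  refine eq_of_pr hP he fun l => ?_
  have hH : ∀ j, ∃ c : Fin d → A[X], e l * e j = ∑ i, zpol A d (c i) * e i := by
    intro j
    obtain ⟨c, hc, -⟩ := he.uni (e l * e j) (mul_mem (he.mem l) (he.mem j))
    exact ⟨c, hc⟩
  choose m hm using hH
  have h1 := (t_ZD1 A g d P hd hP e he (e l) (he.mem l)).1 (Matrix.of m) hm
  have h2 : e l * ∑ k, e k * cc e G k = ∑ k, (∑ i, zpol A d (m k i) * e i) * cc e G k := by
    rw [Finset.mul_sum]
    refine Finset.sum_congr rfl fun k _ => ?_
    rw [← hm k]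
    ring
  have h3 : pr0 A d (e l * ∑ k, e k * cc e G k) =
      zpol A d (Matrix.of m).trace * zpol A d G.det := by
    rw [h2, map_sum, Matrix.trace, map_sum, Finset.sum_mul]
    refine Finset.sum_congr rfl fun k _ => ?_
    rw [pr_sum_e hG (m k) k]
    rfl
  have h4 : e l * ((d : LaurentSeries A) * zpol A d G.det) =
      zpol A d ((d : A[X]) * G.det) * e l := by
    rw [map_mul, map_natCast]
    ring
  rw [h3, ← h1, h4, pr0_zpol_mul, map_mul, map_natCast]
  ring

end NDB

open NDB in
/-- NDB: the dual basis over a ring. -/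
theorem t_NDB : Stmt_NDB := by
  intro A _ g d hd P hP hz e G he hG
  have : NeZero d := ⟨hd.ne'⟩
  exact ⟨cc e G, cc_mem hz he, sum_cc hd hP he hG, fun x _ H hx l => mul_cc hP he hG x H hx l⟩

end Pool.Agent.MG.G0
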