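import Pool.Agent.MG.G0.StmtsNB

/-!
# NEL: étale lifting
-/

namespace Pool.Agent.MG.G0

namespace NEL

variable {Λ P B C ι : Type} [CommRing Λ] [CommRing P] [CommRing B] [CommRing C] [Fintype ι]

/-- A linear lift of `ψ`. -/
theorem exists_lin (i : Λ →+* P) (φ : Λ →+* B) (e : ι → P) (ρ : B →+* C) (ψ : P →+* C)
    (hb : ∀ x : P, ∃! a : ι → Λ, x = ∑ k, i (a k) * e k) (hρ : Function.Surjective ρ)
    (hψ : ∀ a : Λ, ψ (i a) = ρ (φ a)) : ∃ σ : P → B, (∀ x y, σ (x + y) = σ x + σ y) ∧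
      (∀ a x, σ (i a * x) = φ a * σ x) ∧ ∀ x, ρ (σ x) = ψ x := by
  choose a ha hu using hb
  choose b hb using fun k => hρ (ψ (e k))
  refine ⟨fun x => ∑ k, φ (a x k) * b k, fun x y => ?_, fun l x => ?_, fun x => ?_⟩
  · have h : a x + a y = a (x + y) := by
      apply hu
      nth_rewrite 1 [ha x, ha y]
      rw [← Finset.sum_add_distrib]
      refine Finset.sum_congr rfl fun k _ => ?_
      rw [Pi.add_apply, map_add, add_mul]
    change ∑ k, φ (a (x + y) k) * b k = ∑ k, φ (a x k) * b k + ∑ k, φ (a y k) * b k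
    rw [← h, ← Finset.sum_add_distrib]
    refine Finset.sum_congr rfl fun k _ => ?_
    rw [Pi.add_apply, map_add, add_mul]
  · have h : (fun k => l * a x k) = a (i l * x) := by
      apply hu
      nth_rewrite 1 [ha x]
      rw [Finset.mul_sum]
      refine Finset.sum_congr rfl fun k _ => ?_
      rw [map_mul, mul_assoc]
    change ∑ k, φ (a (i l * x) k) * b k = φ l * ∑ k, φ (a x k) * b k
    rw [← h, Finset.mul_sum]
    refine Finset.sum_congr rfl fun k _ => ?_
    rw [map_mul, mul_assoc]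
  · rw [map_sum]
    nth_rewrite 2 [ha x]
    rw [map_sum]
    refine Finset.sum_congr rfl fun k _ => ?_
    rw [map_mul, map_mul, hψ, hb]

theorem sum_of_add (σ : P → B) (hadd : ∀ x y, σ (x + y) = σ x + σ y) {κ : Type} (s : Finset κ)
    (f : κ → P) : σ (∑ k ∈ s, f k) = ∑ k ∈ s, σ (f k) := by
  classical
  have h0 : σ 0 = 0 := by
    have := hadd 0 0
    rw [add_zero] at this
    exact left_eq_add.1 this
  induction s using Finset.induction_on with
  | empty => simpa using h0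
  | insert k s hk ih => rw [Finset.sum_insert hk, Finset.sum_insert hk, hadd, ih]

/-- The case of a kernel of square zero. -/
theorem sq (i : Λ →+* P) (φ : Λ →+* B) (e c : ι → P) (q : P) (ρ : B →+* C) (ψ : P →+* C)
    (hb : ∀ x : P, ∃! a : ι → Λ, x = ∑ k, i (a k) * e k) (hq : ∑ k, e k * c k = q)
    (hd : ∀ (x : P) (H : ι → ι → Λ), (∀ k, x * e k = ∑ l, i (H l k) * e l) →
      ∀ l, x * c l = ∑ k, i (H l k) * c k)
    (hρ : Function.Surjective ρ) (hN : ∀ x y : B, ρ x = 0 → ρ y = 0 → x * y = 0)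
    (hψ : ∀ a : Λ, ψ (i a) = ρ (φ a)) (hu : IsUnit (ψ q)) :
    ∃ Ψ : P →+* B, (∀ a, Ψ (i a) = φ a) ∧ ∀ x, ρ (Ψ x) = ψ x := by
  obtain ⟨σ, hadd, hlin, hσ⟩ := exists_lin i φ e ρ ψ hb hρ hψ
  obtain ⟨v, hv⟩ := hu.exists_right_inv
  obtain ⟨w, hw⟩ := hρ v
  obtain ⟨F, hF⟩ : ∃ F : P → P → B, ∀ x y, F x y = σ (x * y) - σ x * σ y := ⟨_, fun _ _ => rfl⟩
  have hF0 : ∀ x y, ρ (F x y) = 0 := by
    intro x y
    rw [hF, map_sub, map_mul, hσ, hσ, hσ, map_mul, sub_self]
  have hFadd : ∀ x y z, F x (y + z) = F x y + F x z := by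
    intro x y z
    rw [hF, hF, hF, mul_add, hadd, hadd]
    ring
  have hFsmul : ∀ x a y, F x (i a * y) = φ a * F x y := by
    intro x a y
    rw [hF, hF, mul_left_comm, hlin, hlin]
    ring
  have hFsymm : ∀ x y, F x y = F y x := by
    intro x y
    rw [hF, hF, mul_comm x y]
    ring
  obtain ⟨S, hS⟩ : ∃ S : P → B, ∀ x, S x = ∑ k, σ (e k) * F (c k) x := ⟨_, fun _ => rfl⟩
  have hS0 : ∀ x, ρ (S x) = 0 := by
    intro x
    rw [hS, map_sum]
    refine Finset.sum_eq_zero fun k _ => ?_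
    rw [map_mul, hF0, mul_zero]
  have hSadd : ∀ x y, S (x + y) = S x + S y := by
    intro x y
    rw [hS, hS, hS, ← Finset.sum_add_distrib]
    refine Finset.sum_congr rfl fun k _ => ?_
    rw [hFadd, mul_add]
  have hSsmul : ∀ a x, S (i a * x) = φ a * S x := by
    intro a x
    rw [hS, hS, Finset.mul_sum]
    refine Finset.sum_congr rfl fun k _ => ?_
    rw [hFsmul, mul_left_comm]
  have hsum : ∀ x y, ∑ l, σ (e l) * F (c l * x) y = σ x * S y := by
    intro x y
    choose a ha _ using hb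
    have h1 : ∀ l, x * c l = ∑ k, i (a (x * e k) l) * c k :=
      hd x (fun l k => a (x * e k) l) fun k => ha (x * e k)
    have h2 : ∀ l, F (c l * x) y = ∑ k, φ (a (x * e k) l) * F (c k) y := by
      intro l
      rw [hFsymm, mul_comm (c l) x, h1 l]
      have h3 := sum_of_add (fun z => F y z) (hFadd y) Finset.univ
        fun k => i (a (x * e k) l) * c k
      rw [h3]
      refine Finset.sum_congr rfl fun k _ => ?_
      rw [hFsmul, hFsymm y]
    have h4 : ∀ k, σ (x * e k) = ∑ l, φ (a (x * e k) l) * σ (e l) := by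
      intro k
      nth_rewrite 1 [ha (x * e k)]
      rw [sum_of_add σ hadd]
      exact Finset.sum_congr rfl fun l _ => hlin _ _
    have h5 : ∀ k, σ (x * e k) * F (c k) y = σ x * (σ (e k) * F (c k) y) := by
      intro k
      have h6 : F x (e k) * F (c k) y = 0 := hN _ _ (hF0 _ _) (hF0 _ _)
      rw [hF x (e k), sub_mul, sub_eq_zero] at h6
      rw [h6, mul_assoc]
    calc ∑ l, σ (e l) * F (c l * x) y
        = ∑ l, ∑ k, σ (e l) * (φ (a (x * e k) l) * F (c k) y) :=
          Finset.sum_congr rfl fun l _ => by rw [h2 l, Finset.mul_sum]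
      _ = ∑ k, ∑ l, σ (e l) * (φ (a (x * e k) l) * F (c k) y) := Finset.sum_comm
      _ = ∑ k, σ (x * e k) * F (c k) y := by
          refine Finset.sum_congr rfl fun k _ => ?_
          rw [h4 k, Finset.sum_mul]
          exact Finset.sum_congr rfl fun l _ => by ring
      _ = σ x * S y := by
          rw [hS, Finset.mul_sum]
          exact Finset.sum_congr rfl fun k _ => h5 k
  have hqs : ∀ x y, (∑ k, σ (e k) * σ (c k)) * F x y = σ q * F x y := by
    intro x y
    have h1 : σ q = ∑ k, σ (e k * c k) := by rw [← hq, sum_of_add σ hadd]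
    rw [h1, Finset.sum_mul, Finset.sum_mul]
    refine Finset.sum_congr rfl fun k _ => ?_
    have h2 : F (e k) (c k) * F x y = 0 := hN _ _ (hF0 _ _) (hF0 _ _)
    rw [hF (e k) (c k), sub_mul, sub_eq_zero] at h2
    exact h2.symm
  have hmain : ∀ x y, σ q * F x y - σ x * S y + S (x * y) - σ y * S x = 0 := by
    intro x y
    have h1 : ∀ k, σ (e k) * σ (c k) * F x y - σ (e k) * F (c k * x) y +
        σ (e k) * F (c k) (x * y) - σ y * (σ (e k) * F (c k) x) = 0 := by
      intro k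
      rw [hF, hF, hF, hF, mul_assoc (c k) x y]
      ring
    have h2 : ∑ k, (σ (e k) * σ (c k) * F x y - σ (e k) * F (c k * x) y +
        σ (e k) * F (c k) (x * y) - σ y * (σ (e k) * F (c k) x)) = 0 :=
      Finset.sum_eq_zero fun k _ => h1 k
    rw [Finset.sum_sub_distrib, Finset.sum_add_distrib, Finset.sum_sub_distrib, ← Finset.sum_mul,
      hqs, hsum, ← Finset.mul_sum, ← hS, ← hS] at h2
    exact h2
  have hwq : ∀ n : B, ρ n = 0 → w * σ q * n = n := by
    intro n hn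
    have h1 : ρ (w * σ q - 1) = 0 := by
      rw [map_sub, map_mul, hw, hσ, map_one, mul_comm, hv, sub_self]
    have h2 := hN _ _ h1 hn
    rw [sub_mul, one_mul, sub_eq_zero] at h2
    exact h2
  have hmul : ∀ x y, σ (x * y) + w * S (x * y) = (σ x + w * S x) * (σ y + w * S y) := by
    intro x y
    have h1 : w * S x * (w * S y) = 0 :=
      hN _ _ (by rw [map_mul, hS0, mul_zero]) (by rw [map_mul, hS0, mul_zero])
    have h2 := hwq _ (hF0 x y)
    have h3 : w * (σ q * F x y - σ x * S y + S (x * y) - σ y * S x) = 0 := by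
      rw [hmain, mul_zero]
    have h4 : (σ x + w * S x) * (σ y + w * S y) = σ x * σ y + σ x * (w * S y) +
        σ y * (w * S x) + w * S x * (w * S y) := by ring
    have h5 : w * σ q * F x y = σ x * (w * S y) - w * S (x * y) + σ y * (w * S x) := by
      linear_combination h3
    rw [h2] at h5
    rw [h4, h1, add_zero]
    rw [hF] at h5
    linear_combination h5
  have hone : σ 1 + w * S 1 = 1 := by
    have h1 := hmul 1 1
    rw [mul_one] at h1
    have h2 : ρ (σ 1 + w * S 1 - 1) = 0 := by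
      rw [map_sub, map_add, map_mul, hS0, hσ, mul_zero, add_zero, map_one, map_one, sub_self]
    have h3 := hN _ _ h2 h2
    have h4 : (σ 1 + w * S 1 - 1) * (σ 1 + w * S 1 - 1) =
      (σ 1 + w * S 1) * (σ 1 + w * S 1) - 2 * (σ 1 + w * S 1) + 1 := by ring
    rw [h4, ← h1] at h3
    linear_combination -h3
  have hzero : σ 0 + w * S 0 = 0 := by
    have h1 := hadd 0 0
    have h2 := hSadd 0 0
    rw [add_zero] at h1 h2
    rw [left_eq_add.1 h1, left_eq_add.1 h2, mul_zero, add_zero]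
  refine ⟨{ toFun := fun x => σ x + w * S x, map_one' := hone, map_mul' := hmul,
            map_zero' := hzero, map_add' := fun x y => ?_ }, fun a => ?_, fun x => ?_⟩
  · rw [hadd, hSadd]
    ring
  · change σ (i a) + w * S (i a) = φ a
    have h1 := hlin a 1
    have h2 := hSsmul a 1
    rw [mul_one] at h1 h2
    rw [h1, h2]
    have h3 : φ a * σ 1 + w * (φ a * S 1) = φ a * (σ 1 + w * S 1) := by ring
    rw [h3, hone, mul_one]
  · change ρ (σ x + w * S x) = ψ x
    rw [map_add, map_mul, hS0, mul_zero, add_zero, hσ]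

theorem isUnit_lift {n : ℕ} (ρ : B →+* C) (hρ : Function.Surjective ρ)
    (hn : RingHom.ker ρ ^ n = ⊥) (b : B) (hb : IsUnit (ρ b)) : IsUnit b := by
  obtain ⟨v, hv⟩ := hb.exists_right_inv
  obtain ⟨w, hw⟩ := hρ v
  have h1 : b * w - 1 ∈ RingHom.ker ρ := by
    rw [RingHom.mem_ker, map_sub, map_mul, hw, hv, map_one, sub_self]
  have h2 : IsNilpotent (b * w - 1) := by
    refine ⟨n, ?_⟩
    have := Ideal.pow_mem_pow h1 n
    rwa [hn, Ideal.mem_bot] at this
  have h3 : IsUnit (b * w) := by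
    have := h2.isUnit_add_one
    rwa [sub_add_cancel] at this
  exact isUnit_of_mul_isUnit_left h3

theorem gen (i : Λ →+* P) (e c : ι → P) (q : P)
    (hb : ∀ x : P, ∃! a : ι → Λ, x = ∑ k, i (a k) * e k) (hq : ∑ k, e k * c k = q)
    (hd : ∀ (x : P) (H : ι → ι → Λ), (∀ k, x * e k = ∑ l, i (H l k) * e l) →
      ∀ l, x * c l = ∑ k, i (H l k) * c k) (n : ℕ) :
    ∀ {B C : Type} [CommRing B] [CommRing C] (φ : Λ →+* B) (ρ : B →+* C) (ψ : P →+* C),
      Function.Surjective ρ → RingHom.ker ρ ^ (n + 1) = ⊥ → (∀ a : Λ, ψ (i a) = ρ (φ a)) →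
      IsUnit (ψ q) → ∃ Ψ : P →+* B, (∀ a, Ψ (i a) = φ a) ∧ ∀ x, ρ (Ψ x) = ψ x := by
  induction n with
  | zero =>
    intro B C _ _ φ ρ ψ hρ hn hψ hu
    rw [zero_add, pow_one] at hn
    refine sq i φ e c q ρ ψ hb hq hd hρ (fun x y hx _ => ?_) hψ hu
    have : x ∈ RingHom.ker ρ := hx
    rw [hn, Ideal.mem_bot] at this
    rw [this, zero_mul]
  | succ n ih =>
    intro B C _ _ φ ρ ψ hρ hn hψ hu
    obtain ⟨N, hNe⟩ : ∃ N, N = RingHom.ker ρ ^ (n + 1) := ⟨_, rfl⟩
    have hle : ∀ x ∈ N, ρ x = 0 := by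
      intro x hx
      rw [hNe] at hx
      exact Ideal.pow_le_self (by omega) hx
    have hπ : Function.Surjective (Ideal.Quotient.mk N) := Ideal.Quotient.mk_surjective
    let ρ' : B ⧸ N →+* C := Ideal.Quotient.lift N ρ hle
    have hρ'mk : ∀ x, ρ' (Ideal.Quotient.mk N x) = ρ x := fun x => Ideal.Quotient.lift_mk _ _ _
    have hρ' : Function.Surjective ρ' := by
      intro y
      obtain ⟨x, hx⟩ := hρ y
      exact ⟨Ideal.Quotient.mk N x, by rw [hρ'mk, hx]⟩
    have hker : RingHom.ker ρ' = (RingHom.ker ρ).map (Ideal.Quotient.mk N) := by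
      ext y
      obtain ⟨y, rfl⟩ := hπ y
      rw [RingHom.mem_ker, hρ'mk, Ideal.mem_map_iff_of_surjective _ hπ]
      constructor
      · intro h
        exact ⟨y, h, rfl⟩
      · rintro ⟨x, hx, hxy⟩
        rw [← hρ'mk, ← hxy, hρ'mk]
        exact hx
    have hn' : RingHom.ker ρ' ^ (n + 1) = ⊥ := by
      rw [hker, ← Ideal.map_pow, ← hNe, Ideal.map_quotient_self]
    obtain ⟨Ψ', h1, h2⟩ := ih ((Ideal.Quotient.mk N).comp φ) ρ' ψ hρ' hn' (fun a => by
      rw [hψ, RingHom.comp_apply, hρ'mk]) hu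
    obtain ⟨Ψ, h3, h4⟩ := sq i φ e c q (Ideal.Quotient.mk N) Ψ' hb hq hd hπ (by
      intro x y hx hy
      rw [Ideal.Quotient.eq_zero_iff_mem, hNe] at hx hy
      have h5 := Ideal.mul_mem_mul hx hy
      rw [← pow_add] at h5
      have h6 := Ideal.pow_le_pow_right (show n + 1 + 1 ≤ n + 1 + (n + 1) by omega) h5
      rwa [hn, Ideal.mem_bot] at h6) (fun a => by rw [h1]; rfl) (by
      apply isUnit_lift ρ' hρ' hn'
      rw [h2]
      exact hu)
    refine ⟨Ψ, h3, fun x => ?_⟩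
    rw [← hρ'mk, h4, h2]

end NEL

theorem t_NEL : Stmt_NEL := by
  intro Λ P B C ι _ _ _ _ _ i φ e c q ρ ψ hb hq hd hρ hn hψ hu
  obtain ⟨n, hn⟩ := hn
  refine NEL.gen i e c q hb hq hd n φ ρ ψ hρ ?_ hψ hu
  rw [pow_succ, hn, Ideal.bot_mul]

end Pool.Agent.MG.G0
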