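import Pool.Agent.MG.G0.StmtsNB
import Pool.Agent.MG.G0.KFL

/-!
# NKE: surjective base change
-/

open TensorProduct

namespace Pool.Agent.MG.G0

namespace NKE

section

variable {A B M : Type} [CommRing A] [CommRing B] [AddCommGroup M] [Module A M]

/-- `q` is a combination with coefficients in the kernel of `φ`. -/
def Cmb (φ : A →+* B) (q : M) : Prop :=
  ∃ (n : ℕ) (μ : Fin n → A) (r : Fin n → M), (∀ k, φ (μ k) = 0) ∧ q = ∑ k, μ k • r k

theorem Cmb.zero (φ : A →+* B) : Cmb φ (0 : M) :=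
  ⟨0, Fin.elim0, Fin.elim0, fun k => k.elim0, by simp⟩

theorem Cmb.one {φ : A →+* B} {μ : A} (h : φ μ = 0) (r : M) : Cmb φ (μ • r) :=
  ⟨1, fun _ => μ, fun _ => r, fun _ => h, by simp⟩

theorem Cmb.add {φ : A →+* B} {q q' : M} (h : Cmb φ q) (h' : Cmb φ q') : Cmb φ (q + q') := by
  obtain ⟨n, μ, r, h1, h2⟩ := h
  obtain ⟨n', μ', r', h1', h2'⟩ := h'
  refine ⟨n + n', Fin.append μ μ', Fin.append r r', ?_, ?_⟩
  · intro k
    refine Fin.addCases (fun i => ?_) (fun i => ?_) k
    · rw [Fin.append_left]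
      exact h1 i
    · rw [Fin.append_right]
      exact h1' i
  · rw [Fin.sum_univ_add, h2, h2']
    simp only [Fin.append_left, Fin.append_right]

theorem cmb_of_tmul [Algebra A B] (hφ : Function.Surjective (algebraMap A B)) (q : M)
    (h : (1 : B) ⊗ₜ[A] q = 0) : Cmb (algebraMap A B) q := by
  let i : (RingHom.ker (algebraMap A B) : Ideal A) →ₗ[A] A := Submodule.subtype _
  have hex : Function.Exact i (Algebra.linearMap A B) := by
    intro a
    constructor
    · intro ha
      exact ⟨⟨a, ha⟩, rfl⟩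
    · rintro ⟨b, rfl⟩
      exact b.2
  have h1 := rTensor_exact M hex (show Function.Surjective (Algebra.linearMap A B) from hφ)
  have h2 : LinearMap.rTensor M (Algebra.linearMap A B) ((1 : A) ⊗ₜ[A] q) = 0 := by
    rw [LinearMap.rTensor_tmul, Algebra.linearMap_apply, map_one]
    exact h
  obtain ⟨y, hy⟩ := (h1 _).1 h2
  have h3 : q = TensorProduct.lid A M (LinearMap.rTensor M i y) := by
    rw [hy, TensorProduct.lid_tmul, one_smul]
  rw [h3]
  clear hy h3 h2 h
  induction y using TensorProduct.induction_on with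
  | zero =>
    rw [map_zero, map_zero]
    exact Cmb.zero _
  | tmul a m =>
    rw [LinearMap.rTensor_tmul, TensorProduct.lid_tmul]
    exact Cmb.one a.2 m
  | add y y' h h' =>
    rw [map_add, map_add]
    exact h.add h'

end

end NKE

open NKE in
theorem t_NKE (_hKBC : Stmt_KBC) (hKBT : Stmt_KBT) : Stmt_NKE := by
  intro A B _ _ φ g P hφ hP
  refine ⟨?_, ?_⟩
  · intro x hx
    have h1 : (fun _ : Unit => x) ∈ bc φ (uno P) := by
      rw [bc_uno]
      exact hx
    obtain ⟨p, hp, hp'⟩ := KFL.bc_surj hφ (uno P) h1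
    exact ⟨p (), hp, congrFun hp' ()⟩
  · intro p hp hp0
    let _ : Algebra A B := φ.toAlgebra
    obtain ⟨h1, -⟩ := hKBT (B := B) (show IsKr g (uno P) from hP)
    have h2 := h1 1 (fun _ => 1) (fun _ => ⟨fun _ => p, hp⟩) (by
      rw [Fin.sum_univ_one, one_smul]
      funext i
      exact hp0)
    rw [Fin.sum_univ_one] at h2
    obtain ⟨n, μ, r, h3, h4⟩ := cmb_of_tmul (show Function.Surjective (algebraMap A B) from hφ) _ h2
    refine ⟨n, μ, fun k => (r k : KK Unit A) (), h3, fun k => (r k).2, ?_⟩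
    have h5 := congrArg (fun f : uno P => (f : KK Unit A) ()) h4
    refine Eq.trans h5 ?_
    simp only [AddSubmonoidClass.coe_finsetSum, Finset.sum_apply]
    rfl

end Pool.Agent.MG.G0
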