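import Pool.Agent.MG.G0.StmtsNB

/-!
# NLI: expansions over `z ↦ c + s` lift
-/

open Polynomial

namespace Pool.Agent.MG.G0

namespace NLI

section

variable {A : Type} [CommRing A]

/-- The series with coefficients in an ideal. -/
noncomputable def LJ (J : Ideal A) : Ideal (LaurentSeries A) where
  carrier := {f | ∀ n, f.coeff n ∈ J}
  add_mem' {f g} hf hg n := by
    rw [HahnSeries.coeff_add]
    exact add_mem (hf n) (hg n)
  zero_mem' n := by
    rw [HahnSeries.coeff_zero]
    exact zero_mem J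
  smul_mem' f g hg n := by
    rw [smul_eq_mul, HahnSeries.coeff_mul]
    exact sum_mem fun x _ => J.mul_mem_left _ (hg _)

theorem mem_LJ {J : Ideal A} {f : LaurentSeries A} : f ∈ LJ J ↔ ∀ n, f.coeff n ∈ J := Iff.rfl

theorem mul_mem_LJ {J J' : Ideal A} {f g : LaurentSeries A} (hf : f ∈ LJ J) (hg : g ∈ LJ J') :
    f * g ∈ LJ (J * J') := fun n => by
  rw [HahnSeries.coeff_mul]
  exact sum_mem fun x _ => Ideal.mul_mem_mul (hf _) (hg _)

theorem ker_pow {B : Type} [CommRing B] (φ : A →+* B) (n : ℕ) :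
    RingHom.ker (lmap φ) ^ n ≤ LJ (RingHom.ker φ ^ n) := by
  induction n with
  | zero =>
    intro f _ m
    rw [pow_zero, Ideal.one_eq_top]
    exact Submodule.mem_top
  | succ n ih =>
    rw [pow_succ, pow_succ, Ideal.mul_le]
    intro f hf g hg
    refine mul_mem_LJ (ih hf) fun m => ?_
    rw [RingHom.mem_ker] at hg ⊢
    rw [← lmap_coeff, hg, HahnSeries.coeff_zero]

/-- `A[X] → P`. -/
noncomputable def iP {d : ℕ} {P : Subalgebra A (LaurentSeries A)} (hz : zz A d ∈ P) :
    A[X] →ₐ[A] P := Polynomial.aeval ⟨zz A d, hz⟩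

theorem iP_coe {d : ℕ} {P : Subalgebra A (LaurentSeries A)} (hz : zz A d ∈ P) (a : A[X]) :
    (iP hz a : LaurentSeries A) = zpol A d a :=
  (Polynomial.aeval_algHom_apply P.val (⟨zz A d, hz⟩ : P) a).symm

theorem lmap_zev {B : Type} [CommRing B] (φ : A →+* B) (s : A) (a : A[X]) :
    lmap φ (zev s a) = zev (φ s) (a.map φ) := by
  have h : (lmap φ).comp (zev s : A[X] →+* LaurentSeries A) =
      ((zev (φ s) : B[X] →+* LaurentSeries B)).comp (Polynomial.mapRingHom φ) := by
    refine Polynomial.ringHom_ext ?_ ?_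
    · intro a
      simp only [RingHom.comp_apply, RingHom.coe_coe, zev, Polynomial.aeval_C,
        Polynomial.coe_mapRingHom, Polynomial.map_C, lmap_algebraMap]
    · simp only [RingHom.comp_apply, RingHom.coe_coe, zev, Polynomial.aeval_X,
        Polynomial.coe_mapRingHom, Polynomial.map_X, map_add, lmap_algebraMap, lmap_single,
        map_one]
  exact congrArg (fun F => F a) h

theorem aeval_single (p : A[X]) :
    Polynomial.aeval (HahnSeries.single 1 1 : LaurentSeries A) p = psl A (p : PowerSeries A) := by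
  induction p using Polynomial.induction_on' with
  | add p q hp hq => rw [map_add, hp, hq, Polynomial.coe_add, map_add]
  | monomial n a =>
    rw [← Polynomial.C_mul_X_pow_eq_monomial, map_mul, Polynomial.aeval_C, map_pow,
      Polynomial.aeval_X, Polynomial.coe_mul, Polynomial.coe_C, Polynomial.coe_pow,
      Polynomial.coe_X, map_mul, map_pow]
    congr 1
    · exact (HahnSeries.ofPowerSeries_C a).symm
    · exact congrArg (· ^ n) HahnSeries.ofPowerSeries_X.symm

theorem zev_eq (c : A) (p : A[X]) : zev c p =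
    psl A ((Polynomial.taylor c p : A[X]) : PowerSeries A) := by
  rw [← aeval_single, Polynomial.taylor_apply, Polynomial.aeval_comp, zev, map_add,
    Polynomial.aeval_X, Polynomial.aeval_C, add_comm]

theorem zev_inj (c : A) {p : A[X]} (h : zev c p = 0) : p = 0 := by
  rw [zev_eq] at h
  have h1 : ((Polynomial.taylor c p : A[X]) : PowerSeries A) = 0 :=
    HahnSeries.ofPowerSeries_injective (Γ := ℤ) (h.trans (map_zero (psl A)).symm)
  have h2 : Polynomial.taylor c p = 0 := Polynomial.coe_injective A (by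
    rw [h1]; exact Polynomial.coe_zero.symm)
  exact Polynomial.taylor_injective c (by rw [h2, map_zero])

end

end NLI

theorem t_NLI (hNEL : Stmt_NEL) (hNDB : Stmt_NDB) : Stmt_NLI := by
  intro κ A _ _ _ rs g d P f s hn hd hdκ hP hz hD hf ψ hψ
  obtain ⟨e, G, he, hG, u, hu, hdet⟩ := hD
  obtain ⟨c, hc, hec, hx⟩ := hNDB hd P hP hz e G he hG
  obtain ⟨n, hn⟩ := hn
  have key : ∃ Ψ : P →+* LaurentSeries A, (∀ a, Ψ (NLI.iP hz a) = zev s a) ∧
      ∀ x, lmap (rs : A →+* κ) (Ψ x) = ψ x := by
    refine hNEL (Λ := A[X]) (P := P) (B := LaurentSeries A) (C := LaurentSeries κ)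
      (ι := Fin d) (NLI.iP hz : A[X] →+* P) (zev s : A[X] →+* LaurentSeries A)
      (fun k => ⟨e k, he.mem k⟩) (fun k => ⟨c k, hc k⟩)
      (NLI.iP hz ((d : A[X]) * G.det)) (lmap (rs : A →+* κ)) ψ ?_ ?_ ?_ ?_ ?_ ?_ ?_
    · intro x
      obtain ⟨a, ha, hu⟩ := he.uni x x.2
      refine ⟨a, Subtype.ext ?_, fun b hb => hu b ?_⟩
      · rw [ha, AddSubmonoidClass.coe_finsetSum]
        refine Finset.sum_congr rfl fun k _ => ?_
        rw [Subalgebra.coe_mul, RingHom.coe_coe, NLI.iP_coe]
      · have h3 := congrArg Subtype.val hb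
        rw [AddSubmonoidClass.coe_finsetSum] at h3
        refine h3.trans (Finset.sum_congr rfl fun k _ => ?_)
        rw [Subalgebra.coe_mul, RingHom.coe_coe, NLI.iP_coe]
    · refine Subtype.ext ?_
      rw [NLI.iP_coe, map_mul, map_natCast, ← hec, AddSubmonoidClass.coe_finsetSum]
      rfl
    · intro x H hH l
      refine Subtype.ext ?_
      have h3 := hx x x.2 H (fun k => ?_) l
      · rw [AddSubmonoidClass.coe_finsetSum]
        refine h3.trans (Finset.sum_congr rfl fun k _ => ?_)
        rw [Subalgebra.coe_mul, RingHom.coe_coe, NLI.iP_coe]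
      · have h4 := congrArg Subtype.val (hH k)
        rw [AddSubmonoidClass.coe_finsetSum] at h4
        refine h4.trans (Finset.sum_congr rfl fun l _ => ?_)
        rw [Subalgebra.coe_mul, RingHom.coe_coe, NLI.iP_coe]
    · intro y
      refine ⟨lmap (algebraMap κ A) y, ?_⟩
      ext m
      rw [lmap_coeff, lmap_coeff]
      exact rs.commutes _
    · refine ⟨n, le_bot_iff.1 fun x hx => ?_⟩
      have h3 := NLI.ker_pow _ n hx
      rw [hn] at h3
      rw [Ideal.mem_bot]
      ext m
      exact h3 m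
    · intro a
      rw [RingHom.coe_coe, RingHom.coe_coe, NLI.lmap_zev]
      exact hψ a _ (NLI.iP_coe hz a)
    · have h3 := hψ ((d : A[X]) * G.det) (NLI.iP hz ((d : A[X]) * G.det)) (NLI.iP_coe hz _)
      rw [h3, isUnit_iff_ne_zero]
      intro h4
      have h5 := NLI.zev_inj _ h4
      rw [hdet, Polynomial.map_mul, Polynomial.map_mul, Polynomial.map_natCast] at h5
      have h6 : (d : κ[X]) ≠ 0 := by
        intro h7
        apply hdκ
        have h8 := congrArg (Polynomial.coeff · 0) h7
        simpa using h8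
      have h7 : u.map (rs : A →+* κ) ≠ 0 :=
        (hu.map (Polynomial.mapRingHom (rs : A →+* κ))).ne_zero
      exact (mul_ne_zero h6 (mul_ne_zero h7 hf)) h5
  obtain ⟨Ψ, h1, h2⟩ := key
  refine ⟨Ψ, fun a z hza => ?_, h2⟩
  have h3 : z = NLI.iP hz a := Subtype.ext (by rw [hza, NLI.iP_coe])
  rw [h3]
  exact h1 a

end Pool.Agent.MG.G0
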