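import Pool.Agent.MG.G0.StmtsNB

/-!
# NNK: the local ring at the node has the basis `1`, `y` over `A[[s]]`
-/

open Polynomial

namespace Pool.Agent.MG.G0

namespace NNK

section core

variable {S M P ι : Type} [CommRing S] [CommRing M] [CommRing P] [Fintype ι]

theorem mul_mem_span [Algebra S M] (Ψ : P →+* M) {t u : M}
    (ht : t ∈ Submodule.span S (Set.range Ψ)) (hu : u ∈ Submodule.span S (Set.range Ψ)) :
    t * u ∈ Submodule.span S (Set.range Ψ) := by
  have h := Submodule.mul_mem_mul ht hu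
  rw [Submodule.span_mul_span] at h
  refine Submodule.span_mono ?_ h
  rintro _ ⟨_, ⟨a, rfl⟩, _, ⟨b, rfl⟩, rfl⟩
  exact ⟨a * b, map_mul Ψ a b⟩

theorem mul_mem_smul [Algebra S M] (J : Ideal S) (Ψ : P →+* M) {t w : M}
    (ht : t ∈ Submodule.span S (Set.range Ψ)) (hw : w ∈ J • Submodule.span S (Set.range Ψ)) :
    t * w ∈ J • Submodule.span S (Set.range Ψ) := by
  refine Submodule.smul_induction_on hw (fun r hr n hn => ?_) (fun x y hx hy => ?_)
  · rw [mul_smul_comm]
    exact Submodule.smul_mem_smul hr (mul_mem_span Ψ ht hn)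
  · rw [mul_add]
    exact Submodule.add_mem _ hx hy

/-- The abstract form. -/
theorem core (φ : S →+* M) (J : Ideal S) (hJ : J ≤ Ideal.jacobson ⊥) (Ψ : P →+* M) (E : ι → P)
    (hE : ∀ x, ∃ c : ι → S, Ψ x = ∑ i, φ (c i) * Ψ (E i)) (q y : P) (r₁ r₂ : S)
    (hν : IsNilpotent (Ψ q * (φ r₁ + φ r₂ * Ψ y) - 1))
    (h : ∀ x : P, ∃ (α β m : S) (r : P) (n : ℕ) (μ : Fin n → S) (p : Fin n → P), m ∈ J ∧
      (∀ k, μ k ∈ J) ∧ Ψ q * (Ψ x - φ α - φ β * Ψ y) = φ m * Ψ r + ∑ k, φ (μ k) * Ψ (p k)) :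
    ∀ x : P, ∃ a b : S, Ψ x = φ a + φ b * Ψ y := by
  letI : Algebra S M := φ.toAlgebra
  have hφ : ∀ (a : S) (m : M), φ a * m = a • m := fun a m => (Algebra.smul_def a m).symm
  have hφ1 : ∀ a : S, φ a = a • (1 : M) := fun a => by rw [← hφ, mul_one]
  have hT1 : (1 : M) ∈ Submodule.span S (Set.range Ψ) :=
    Submodule.subset_span ⟨1, map_one Ψ⟩
  have hTΨ : ∀ x, Ψ x ∈ Submodule.span S (Set.range Ψ) := fun x => Submodule.subset_span ⟨x, rfl⟩
  have hfg : (Submodule.span S (Set.range Ψ)).FG := by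
    have h1 : Submodule.span S (Set.range Ψ) = Submodule.span S (Set.range fun i => Ψ (E i)) := by
      refine le_antisymm (Submodule.span_le.2 ?_) (Submodule.span_mono ?_)
      · rintro _ ⟨x, rfl⟩
        obtain ⟨c, hc⟩ := hE x
        rw [hc]
        refine Submodule.sum_mem _ fun i _ => ?_
        rw [hφ]
        exact Submodule.smul_mem _ _ (Submodule.subset_span ⟨i, rfl⟩)
      · rintro _ ⟨i, rfl⟩
        exact ⟨E i, rfl⟩
    rw [h1]
    exact Submodule.fg_span (Set.finite_range _)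
  -- the multiplication by `Ψ q` reflects `J T`
  have hr : φ r₁ + φ r₂ * Ψ y ∈ Submodule.span S (Set.range Ψ) := by
    rw [hφ, hφ1]
    exact Submodule.add_mem _ (Submodule.smul_mem _ _ hT1) (Submodule.smul_mem _ _ (hTΨ y))
  obtain ⟨n, hn⟩ := hν
  have hνT : Ψ q * (φ r₁ + φ r₂ * Ψ y) - 1 ∈ Submodule.span S (Set.range Ψ) :=
    Submodule.sub_mem _ (mul_mem_span Ψ (hTΨ q) hr) hT1
  have hpow : ∀ k : ℕ, (-(Ψ q * (φ r₁ + φ r₂ * Ψ y) - 1)) ^ k ∈
      Submodule.span S (Set.range Ψ) := by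
    intro k
    induction k with
    | zero => rw [pow_zero]; exact hT1
    | succ k ih => rw [pow_succ]; exact mul_mem_span Ψ ih (Submodule.neg_mem _ hνT)
  have hrefl : ∀ w : M, Ψ q * w ∈ J • Submodule.span S (Set.range Ψ) →
      w ∈ J • Submodule.span S (Set.range Ψ) := by
    intro w hw
    have h1 := mul_mem_smul J Ψ hr hw
    have h2 : (∑ k ∈ Finset.range n, (-(Ψ q * (φ r₁ + φ r₂ * Ψ y) - 1)) ^ k) ∈
        Submodule.span S (Set.range Ψ) := Submodule.sum_mem _ fun k _ => hpow k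
    have h3 := mul_mem_smul J Ψ h2 h1
    have h4 := mul_neg_geom_sum (-(Ψ q * (φ r₁ + φ r₂ * Ψ y) - 1)) n
    have h5 : (-(Ψ q * (φ r₁ + φ r₂ * Ψ y) - 1)) ^ n = 0 := by
      rw [neg_pow, hn, mul_zero]
    rw [h5, sub_zero] at h4
    have h6 : (∑ k ∈ Finset.range n, (-(Ψ q * (φ r₁ + φ r₂ * Ψ y) - 1)) ^ k) *
        ((φ r₁ + φ r₂ * Ψ y) * (Ψ q * w)) = w := by
      calc (∑ k ∈ Finset.range n, (-(Ψ q * (φ r₁ + φ r₂ * Ψ y) - 1)) ^ k) *
          ((φ r₁ + φ r₂ * Ψ y) * (Ψ q * w))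
          = ((1 - -(Ψ q * (φ r₁ + φ r₂ * Ψ y) - 1)) *
            ∑ k ∈ Finset.range n, (-(Ψ q * (φ r₁ + φ r₂ * Ψ y) - 1)) ^ k) * w := by ring
        _ = w := by rw [h4, one_mul]
    rw [h6] at h3
    exact h3
  -- Nakayama
  have hle : Submodule.span S (Set.range Ψ) ≤ Submodule.span S {(1 : M), Ψ y} := by
    refine Submodule.le_of_le_smul_of_le_jacobson_bot hfg hJ (Submodule.span_le.2 ?_)
    rintro _ ⟨x, rfl⟩
    obtain ⟨α, β, m, r, k, μ, p, hm, hμ, hx⟩ := h x
    have h1 : Ψ x - φ α - φ β * Ψ y ∈ J • Submodule.span S (Set.range Ψ) := by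
      refine hrefl _ ?_
      rw [hx]
      refine Submodule.add_mem _ ?_ (Submodule.sum_mem _ fun k _ => ?_)
      · rw [hφ]
        exact Submodule.smul_mem_smul hm (hTΨ r)
      · rw [hφ]
        exact Submodule.smul_mem_smul (hμ k) (hTΨ (p k))
    have h2 : Ψ x = (φ α + φ β * Ψ y) + (Ψ x - φ α - φ β * Ψ y) := by ring
    rw [SetLike.mem_coe, h2]
    refine Submodule.add_mem_sup ?_ h1
    rw [hφ, hφ1]
    exact Submodule.add_mem _ (Submodule.smul_mem _ _ (Submodule.subset_span (by simp)))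
      (Submodule.smul_mem _ _ (Submodule.subset_span (by simp)))
  intro x
  obtain ⟨a, b, hab⟩ := Submodule.mem_span_pair.1 (hle (hTΨ x))
  exact ⟨a, b, by rw [← hab, hφ, hφ1]⟩

end core

section series

variable {A κ : Type} [CommRing A]

theorem psl_coeff (f : PowerSeries A) (n : ℕ) : (psl A f).coeff (n : ℤ) = PowerSeries.coeff n f :=
  HahnSeries.ofPowerSeries_apply_coeff f n

theorem psl_zero (f : PowerSeries A) : (psl A f).coeff 0 = PowerSeries.constantCoeff f := by
  have := psl_coeff f 0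
  rw [Nat.cast_zero] at this
  rw [this, PowerSeries.coeff_zero_eq_constantCoeff_apply]

theorem psl_one (f : PowerSeries A) : (psl A f).coeff 1 = PowerSeries.coeff 1 f := by
  have := psl_coeff f 1
  rwa [Nat.cast_one] at this

theorem psl_X : psl A PowerSeries.X = HahnSeries.single 1 1 := HahnSeries.ofPowerSeries_X

theorem psl_C (a : A) : psl A (PowerSeries.C a) = algebraMap A (LaurentSeries A) a := by
  rw [psl, HahnSeries.ofPowerSeries_C]
  rfl

theorem lmap_psl {B : Type} [CommRing B] (φ : A →+* B) (f : PowerSeries A) :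
    lmap φ (psl A f) = psl B (PowerSeries.map φ f) := by
  ext m
  rw [lmap_coeff]
  rcases lt_or_ge m 0 with hm | hm
  · have h1 : ∀ (R : Type) [CommRing R] (f : PowerSeries R), (psl R f).coeff m = 0 := by
      intro R _ f
      refine HahnSeries.embDomain_notin_range ?_
      rintro ⟨n, hn⟩
      have : (n : ℤ) = m := hn
      omega
    rw [h1, h1, map_zero]
  · obtain ⟨n, rfl⟩ := Int.eq_ofNat_of_zero_le hm
    rw [psl_coeff, psl_coeff, PowerSeries.coeff_map]

/-- `zev` has values in the power series. -/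
theorem zev_eq (s : A) (a : A[X]) :
    zev s a = psl A (Polynomial.eval₂ (PowerSeries.C) (PowerSeries.C s + PowerSeries.X) a) := by
  have h : ((zev s : A[X] →ₐ[A] LaurentSeries A) : A[X] →+* LaurentSeries A) =
      (psl A).comp (Polynomial.eval₂RingHom (PowerSeries.C) (PowerSeries.C s + PowerSeries.X)) := by
    refine Polynomial.ringHom_ext (fun c => ?_) ?_
    · rw [RingHom.comp_apply, Polynomial.coe_eval₂RingHom, Polynomial.eval₂_C, psl_C,
        RingHom.coe_coe, zev, Polynomial.aeval_C]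
    · rw [RingHom.comp_apply, Polynomial.coe_eval₂RingHom, Polynomial.eval₂_X, map_add, psl_C,
        psl_X, RingHom.coe_coe, zev, Polynomial.aeval_X]
  exact congrArg (fun F => F a) h

theorem coeff_pow_mem {I : Ideal A} {f : LaurentSeries A} (hf : ∀ m, f.coeff m ∈ I) (k : ℕ) :
    ∀ m, (f ^ k).coeff m ∈ I ^ k := by
  induction k with
  | zero => intro m; rw [pow_zero, pow_zero, Ideal.one_eq_top]; exact Submodule.mem_top
  | succ k ih =>
    intro m
    rw [pow_succ, pow_succ, HahnSeries.coeff_mul]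
    exact Ideal.sum_mem _ fun i _ => Ideal.mul_mem_mul (ih _) (hf _)

theorem pow_eq_zero [CommRing κ] {rs : A →+* κ} {n : ℕ} (hn : RingHom.ker rs ^ n = ⊥)
    {f : LaurentSeries A} (hf : lmap rs f = 0) : f ^ n = 0 := by
  have h1 : ∀ m, f.coeff m ∈ RingHom.ker rs := by
    intro m
    rw [RingHom.mem_ker, ← lmap_coeff, hf, HahnSeries.coeff_zero]
  ext m
  have h2 := coeff_pow_mem h1 n m
  rw [hn, Ideal.mem_bot] at h2
  rw [h2, HahnSeries.coeff_zero]

theorem jac [CommRing κ] {rs : A →+* κ} {n : ℕ} (hn : RingHom.ker rs ^ n = ⊥) :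
    RingHom.ker (rs.comp (PowerSeries.constantCoeff (R := A))) ≤ Ideal.jacobson ⊥ := by
  intro f hf
  rw [Ideal.mem_jacobson_bot]
  intro g
  rw [PowerSeries.isUnit_iff_constantCoeff, map_add, map_one, map_mul]
  rw [RingHom.mem_ker, RingHom.comp_apply] at hf
  have h1 : PowerSeries.constantCoeff f * PowerSeries.constantCoeff g ∈ RingHom.ker rs := by
    rw [RingHom.mem_ker, map_mul, hf, zero_mul]
  have h2 : IsNilpotent (PowerSeries.constantCoeff f * PowerSeries.constantCoeff g) :=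
    ⟨n, by
      have := Ideal.pow_mem_pow h1 n
      rwa [hn, Ideal.mem_bot] at this⟩
  exact h2.isUnit_add_one

/-- The interpolation at the node. -/
theorem interp [Field κ] (h2 : (2 : κ) ≠ 0) {Q Y : Bool → PowerSeries κ}
    (hQ : ∀ b, PowerSeries.constantCoeff (Q b) = 1) (hY : ∀ b, PowerSeries.constantCoeff (Y b) = 0)
    (hY1 : PowerSeries.coeff 1 (Y true) = 1) (hY2 : PowerSeries.coeff 1 (Y false) = -1) :
    ∃ α β : PowerSeries κ, ∀ b, Q b * (α + β * Y b) = 1 := by
  have hu : ∀ b, Q b * (Q b)⁻¹ = 1 := fun b =>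
    PowerSeries.mul_inv_cancel _ (by rw [hQ]; exact one_ne_zero)
  have hc : PowerSeries.constantCoeff ((Q true)⁻¹ - (Q false)⁻¹) = 0 := by
    rw [map_sub, PowerSeries.constantCoeff_inv, PowerSeries.constantCoeff_inv, hQ, hQ, sub_self]
  obtain ⟨W, hW⟩ := PowerSeries.X_dvd_iff.2 hc
  have hd : PowerSeries.constantCoeff (Y true - Y false) = 0 := by
    rw [map_sub, hY, hY, sub_self]
  obtain ⟨V, hV⟩ := PowerSeries.X_dvd_iff.2 hd
  have hV0 : PowerSeries.constantCoeff V = 2 := by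
    have h3 := congrArg (PowerSeries.coeff 1) hV
    rw [map_sub, hY1, hY2, show (1 : ℕ) = 0 + 1 from rfl, PowerSeries.coeff_succ_X_mul,
      PowerSeries.coeff_zero_eq_constantCoeff_apply] at h3
    rw [← h3]
    norm_num
  have hVi : V * V⁻¹ = 1 := PowerSeries.mul_inv_cancel _ (by rw [hV0]; exact h2)
  refine ⟨(Q true)⁻¹ - W * V⁻¹ * Y true, W * V⁻¹, fun b => ?_⟩
  cases b with
  | true => rw [sub_add_cancel, hu]
  | false =>
    have h3 : (Q true)⁻¹ - W * V⁻¹ * Y true + W * V⁻¹ * Y false =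
        (Q true)⁻¹ - W * V⁻¹ * (Y true - Y false) := by ring
    have h4 : W * V⁻¹ * (PowerSeries.X * V) = PowerSeries.X * W * (V * V⁻¹) := by ring
    rw [h3, hV, h4, hVi, mul_one, ← hW, sub_sub_cancel, hu]

end series

end NNK

open NNK

/-- NNK: the local ring at the node has the basis `1`, `y` over `A[[s]]`. -/
theorem t_NNK : Stmt_NNK := by
  intro κ A _ _ rs d P s e Ψ q y z hrs hnil h2 hz hb hzev hred hq0 hy0 hy1 hy2 hfin
  obtain ⟨n, hn⟩ := hnil
  -- the two expansions together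
  let F : P →+* (Bool → LaurentSeries A) := Pi.ringHom Ψ
  let φ : PowerSeries A →+* (Bool → LaurentSeries A) := Pi.ringHom fun _ => psl A
  have hF : ∀ x b, F x b = Ψ b x := fun _ _ => rfl
  have hφ : ∀ a b, φ a b = psl A a := fun _ _ => rfl
  have hzP : zz A d ∈ P := hz ▸ z.2
  have hpol : ∀ a : A[X], zpol A d a ∈ P := fun a => by
    rw [zpol, aeval_eq_sum_range]
    exact Subalgebra.sum_mem _ fun i _ => P.smul_mem (pow_mem hzP i) _
  have hFpol : ∀ (a : A[X]) (x : P), (x : LaurentSeries A) = zpol A d a →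
      F x = φ (Polynomial.eval₂ (PowerSeries.C) (PowerSeries.C s + PowerSeries.X) a) := by
    intro a x hx
    funext b
    rw [hF, hφ, hzev b a x hx, zev_eq]
  have hFC : ∀ a : A, F (algebraMap A P a) = φ (PowerSeries.C a) := by
    intro a
    have h3 : ((algebraMap A P a : P) : LaurentSeries A) = zpol A d (Polynomial.C a) := by
      rw [zpol, Polynomial.aeval_C]
      rfl
    rw [hFpol _ _ h3, Polynomial.eval₂_C]
  have hFs : ∀ (a : A) (x : P), F (a • x) = φ (PowerSeries.C a) * F x := by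
    intro a x
    rw [Algebra.smul_def, map_mul, hFC]
  have hFz : F (z - algebraMap A P s) = φ PowerSeries.X := by
    have h3 : (z : LaurentSeries A) = zpol A d Polynomial.X := by
      rw [hz, zpol, Polynomial.aeval_X]
    rw [map_sub, hFC, hFpol _ _ h3, Polynomial.eval₂_X, map_add, add_sub_cancel_left]
  -- the reductions of `q` and `y`
  obtain ⟨Q, -, hQ⟩ := hred q
  obtain ⟨Y, -, hY⟩ := hred y
  obtain ⟨α, β, hαβ⟩ := interp (Q := Q) (Y := Y) h2
    (fun b => by rw [← psl_zero, ← hQ, hq0])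
    (fun b => by rw [← psl_zero, ← hY, hy0])
    (by rw [← psl_one, ← hY, hy1]) (by rw [← psl_one, ← hY, hy2])
  obtain ⟨α', hα'⟩ := PowerSeries.map_surjective rs hrs α
  obtain ⟨β', hβ'⟩ := PowerSeries.map_surjective rs hrs β
  have hνb : ∀ b, lmap rs ((F q * (φ α' + φ β' * F y) - 1) b) = 0 := by
    intro b
    rw [Pi.sub_apply, Pi.mul_apply, Pi.add_apply, Pi.mul_apply, Pi.one_apply, hF, hF, hφ, hφ,
      map_sub, map_mul, map_add, map_mul, map_one, lmap_psl, lmap_psl, hα', hβ', hQ, hY,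
      ← map_mul, ← map_add, ← map_mul, hαβ, map_one, sub_self]
  have hν : IsNilpotent (F q * (φ α' + φ β' * F y) - 1) := by
    refine ⟨n, ?_⟩
    funext b
    rw [Pi.pow_apply, pow_eq_zero hn (hνb b), Pi.zero_apply]
  have hmain := core φ _ (jac hn) F (fun i => ⟨e i, hb.mem i⟩) (fun x => ?_) q y α' β' hν
    (fun x => ?_)
  · intro x
    obtain ⟨a, b, hab⟩ := hmain x
    refine ⟨a, b, fun β₀ => ?_⟩
    have := congrFun hab β₀
    rwa [Pi.add_apply, Pi.mul_apply, hF, hF, hφ, hφ] at this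
  · -- finite generation
    obtain ⟨c, hc, -⟩ := hb.uni (x : LaurentSeries A) x.2
    refine ⟨fun i => Polynomial.eval₂ (PowerSeries.C) (PowerSeries.C s + PowerSeries.X) (c i), ?_⟩
    have h3 : x = ∑ i, (⟨zpol A d (c i), hpol (c i)⟩ : P) * ⟨e i, hb.mem i⟩ := by
      apply Subtype.ext
      rw [AddSubmonoidClass.coe_finset_sum]
      exact hc
    conv_lhs => rw [h3]
    rw [map_sum]
    refine Finset.sum_congr rfl fun i _ => ?_
    rw [map_mul, hFpol (c i) ⟨zpol A d (c i), hpol (c i)⟩ rfl]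
  · -- the relation
    obtain ⟨a, b, r, k, μ, p, hμ, hx⟩ := hfin x
    refine ⟨PowerSeries.C a, PowerSeries.C b, PowerSeries.X, r, k, fun j => PowerSeries.C (μ j), p,
      ?_, fun j => ?_, ?_⟩
    · rw [RingHom.mem_ker, RingHom.comp_apply, PowerSeries.constantCoeff_X, map_zero]
    · rw [RingHom.mem_ker, RingHom.comp_apply, PowerSeries.constantCoeff_C, hμ]
    · have h3 := congrArg F hx
      rw [map_mul, map_sub, map_sub, map_add, map_mul, hFC, hFs, hFz, map_sum] at h3
      rw [h3]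
      refine congrArg _ (Finset.sum_congr rfl fun j _ => ?_)
      rw [hFs]

end Pool.Agent.MG.G0
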