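import Pool.Agent.MG.G0.Ev

/-!
# Interface with the schemes: forgetting punctures, marked points, genericity

The classes of deformations, covectors and the structure `Ev g` are in `Ev.lean`.
-/

namespace Pool.Agent.MG.G0

section

variable {I J : Type} {A B : Type} [CommRing A] [CommRing B]

/-- `P` consists of the functions in `W` without poles at the punctures `J`; `W` is dense at
`J`. -/
structure Forget (W : Subalgebra A (KK (I ⊕ J) A)) (P : Subalgebra A (KK I A)) : Prop where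
  eq : P = Rem W
  inj : ∀ w ∈ W, (∀ i, w (Sum.inl i) = 0) → w = 0
  dns : ∀ (f : J → LaurentSeries A) (M : ℤ), ∃ w ∈ W, ∀ j, ∀ m < M,
    (w (Sum.inr j)).coeff m = (f j).coeff m

/-- Disjoint marked points in the smooth locus. -/
structure Marks {n : ℕ} (P : Subalgebra A (KK I A)) (p : Fin n → (P →ₐ[A] A)) : Prop where
  dis : ∀ i j, i ≠ j → RingHom.ker (p i) ⊔ RingHom.ker (p j) = ⊤
  sm : ∀ i, ∃ t ∈ RingHom.ker (p i), ∀ f ∈ RingHom.ker (p i), ∃ c : A,
    f - c • t ∈ RingHom.ker (p i) ^ 2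

end

/-- Functions of Krichever rings with marked points. -/
def Ev0Fun (n : ℕ) : Type 1 :=
  ∀ (A I : Type) [CommRing A] [Algebra ℂ A] [Fintype I] (P : Subalgebra A (KK I A)),
    (Fin n → (P →ₐ[A] A)) → A

/-- Naturality. -/
def Ev0Fun.Nat {n : ℕ} (g : ℕ) (Φ : Ev0Fun n) : Prop :=
  ∀ {A B I : Type} [CommRing A] [Algebra ℂ A] [CommRing B] [Algebra ℂ B] [Fintype I]
    [Nonempty I] (φ : A →ₐ[ℂ] B) {P : Subalgebra A (KK I A)} (p : Fin n → (P →ₐ[A] A))
    (p' : Fin n → (bc (φ : A →+* B) P →ₐ[B] B)), Good g P → Marks P p →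
    (∀ i f, p' i (bcMap (φ : A →+* B) P f) = φ (p i f)) →
    Φ B I (bc (φ : A →+* B) P) p' = φ (Φ A I P p)

/-- Independence of the coordinates. -/
def Ev0Fun.Aut {n : ℕ} (g : ℕ) (Φ : Ev0Fun n) : Prop :=
  ∀ {A I : Type} [CommRing A] [Algebra ℂ A] [Fintype I] [Nonempty I]
    (α : KK I A ≃ₐ[A] KK I A), (∀ (n : ℤ) (f : KK I A), α f ∈ Pol I A n ↔ f ∈ Pol I A n) →
    ∀ {P : Subalgebra A (KK I A)} (p : Fin n → (P →ₐ[A] A))
      (p' : Fin n → (P.map (α : KK I A →ₐ[A] KK I A) →ₐ[A] A)), Good g P → Marks P p →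
    Good g (P.map (α : KK I A →ₐ[A] KK I A)) → Marks (P.map (α : KK I A →ₐ[A] KK I A)) p' →
    (∀ i (f : P), p' i ⟨α f, ⟨f, f.2, rfl⟩⟩ = p i f) →
    Φ A I (P.map (α : KK I A →ₐ[A] KK I A)) p' = Φ A I P p

/-- Independence of the punctures. -/
def Ev0Fun.Frg {n : ℕ} (g : ℕ) (Φ : Ev0Fun n) : Prop :=
  ∀ {A I : Type} [CommRing A] [Algebra ℂ A] [Fintype I] [Nonempty I]
    (W : Subalgebra A (KK (I ⊕ Unit) A)) (q : Fin n → (W →ₐ[A] A))
    (p : Fin n → (Rem W →ₐ[A] A)), Good g W → Good g (Rem W) → Marks W q → Marks (Rem W) p →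
    Dn W →
    (∀ i (f : Rem W) (w : W), (∀ k, (w : KK (I ⊕ Unit) A) (Sum.inl k) = (f : KK I A) k) →
      (∀ m < 0, ((w : KK (I ⊕ Unit) A) (Sum.inr ())).coeff m = 0) → q i w = p i f) →
    Φ A (I ⊕ Unit) W q = Φ A I (Rem W) p

/-- Independence of the positions of the points. -/
def Ev0Fun.Pos {n : ℕ} (g : ℕ) (Φ : Ev0Fun n) : Prop :=
  ∀ {K I : Type} [Field K] [IsAlgClosed K] [Algebra ℂ K] [Fintype I] [Nonempty I]
    {P : Subalgebra K (KK I K)} (p p' : Fin n → (P →ₐ[K] K)), IsKr g P → TypeS P → Marks P p →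
    Marks P p' → Φ K I P p = Φ K I P p'

/-- The functions given by a regular function on `T^*M̄_{g,n}` at the zero covector. -/
structure Ev0 (g n : ℕ) where
  /-- the function -/
  Φ : Ev0Fun n
  nat : Φ.Nat g
  aut : Φ.Aut g
  forget : Φ.Frg g
  pos : Φ.Pos g

/-- The coefficientwise application of an additive map. -/
noncomputable def kadd {I A : Type} [CommRing A] (D : A →+ A) (f : KK I A) : KK I A :=
  fun i => HahnSeries.map (f i) D

/-- The curve of `P` over `K` is generic: every first order deformation comes from a derivation of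
`K`. -/
def Gnr {I K : Type} [Field K] [Algebra ℂ K] (P : Subalgebra K (KK I K)) : Prop :=
  ∀ δ : DD P, ∃ (D : Derivation ℂ K K) (θ : KK I K), θ ∈ Pol I K 0 ∧
    ∀ f : P, δ f = mk P (kadd (D : K →+ K) (f : KK I K)) + mk P (θ * dd (f : KK I K))

end Pool.Agent.MG.G0
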