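import Pool.Agent.MG.G0.Plumb
import Pool.Agent.MG.G0.DefsX

/-!
# Statements on plumbing (PAPER.md, LOG, L0 to L7)
-/

namespace Pool.Agent.MG.G0

/-- PL0 (L0): the functions on the annulus `u v = t`. -/
def Stmt_PL0 : Prop :=
  ∀ {A : Type} [CommRing A] (t : A) (N : ℕ), t ^ N = 0 →
    (∀ m : ℕ, N ≤ m → ∀ F ∈ Pol Bool A (-(m : ℤ)), F ∈ Nt t) ∧
    (∀ a b : PowerSeries A, PowerSeries.constantCoeff a = PowerSeries.constantCoeff b →
      ∃! F : KK Bool A, F ∈ Nt t ∧ ∀ j : ℕ, (F true).coeff j = PowerSeries.coeff j a ∧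
        (F false).coeff j = PowerSeries.coeff j b) ∧
    (∀ b, uv t b ∈ Nt t) ∧ uv t true * uv t false = algebraMap A (KK Bool A) t ∧
    (∀ F ∈ Nt t, ∀ b, ∃ G, IsPd t b F G) ∧
    (∀ F ∈ Nt t, ∀ G G', IsPd t true F G → IsPd t false F G' →
      dd F = G * dd (uv t true) + G' * dd (uv t false)) ∧
    (∀ (M : Type) [AddCommGroup M] [Module A M] [Module (Nt t) M] [IsScalarTower A (Nt t) M]
      (δ : Derivation A (Nt t) M) (K : ℕ),
      (∀ x : Nt t, (x : KK Bool A) ∈ Pol Bool A (-(K : ℤ)) → δ x = 0) →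
      ∀ F G G' U V : Nt t, IsPd t true (F : KK Bool A) G → IsPd t false (F : KK Bool A) G' →
        (U : KK Bool A) = uv t true → (V : KK Bool A) = uv t false → δ F = G • δ U + G' • δ V) ∧
    ∀ η : KK Bool A, (∀ F ∈ Nt t, res (η * F) = 0) ↔ ∃ F ∈ Nt t, η = F * vp A

/-- PL1 (L1): plumbing increases the genus by one. -/
def Stmt_PL1 : Prop :=
  ∀ {I A : Type} [Fintype I] [Nonempty I] [CommRing A] {h : ℕ} {R : Subalgebra A (KK I A)},
    IsKr h R → SmC A R → ∀ pt : Bool → FPt R, Disj pt → ∀ t : A, IsNilpotent t →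
      IsKr (h + 1) (PT pt t)

/-- PL2 (L2): base change, rescaling of the parameters, the nodal curve. -/
def Stmt_PL2 : Prop :=
  (∀ {I A B : Type} [Fintype I] [Nonempty I] [CommRing A] [CommRing B] {h : ℕ}
    {R : Subalgebra A (KK I A)}, IsKr h R → SmC A R → ∀ pt : Bool → FPt R, Disj pt →
    ∀ t : A, IsNilpotent t → ∀ (φ : A →+* B) (pt' : Bool → FPt (bc φ R)),
      (∀ b, (pt b).Bc φ (pt' b)) → PT pt' (φ t) = bc φ (PT pt t)) ∧
  (∀ {I A : Type} [CommRing A] {R : Subalgebra A (KK I A)} (pt : Bool → FPt R) (c : Bool → Aˣ)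
    (t : A), (∀ b, ((pt b).resc (c b)).id = (pt b).id) ∧
      PT (fun b => (pt b).resc (c b)) t = PT pt ((c true : A) * (c false : A) * t)) ∧
  ∀ {I A : Type} [Fintype I] [Nonempty I] [CommRing A] {h : ℕ} {R : Subalgebra A (KK I A)},
    IsKr h R → SmC A R → ∀ pt : Bool → FPt R, Disj pt → ∀ f : KK I A,
      f ∈ PT pt 0 ↔ ∃ r : R, (r : KK I A) = f ∧ (pt true).ev r = (pt false).ev r

/-- PLF (L2, forget): restriction of formal points, and forgetting punctures of a plumbed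
curve. -/
def Stmt_PLF : Prop :=
  ∀ {I J A : Type} [Fintype I] [Nonempty I] [Fintype J] [CommRing A] {h : ℕ}
    {Q : Subalgebra A (KK (I ⊕ J) A)} {R : Subalgebra A (KK I A)}, IsKr h Q → IsKr h R →
    SmC A Q → SmC A R → Forget Q R →
    (∀ p : FPt Q, ∃ p' : FPt R, p.Rs p') ∧
    ∀ (pt : Bool → FPt Q) (pt' : Bool → FPt R), (∀ b, (pt b).Rs (pt' b)) → Disj pt →
      Disj pt' ∧ ∀ t : A, IsNilpotent t → Forget (PT pt t) (PT pt' t)

/-- PL3 (L3): approximation at the annulus. -/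
def Stmt_PL3 : Prop :=
  ∀ {I A : Type} [Fintype I] [Nonempty I] [CommRing A] {h : ℕ} {R : Subalgebra A (KK I A)},
    IsKr h R → SmC A R → ∀ pt : Bool → FPt R, Disj pt →
    (∀ (F : KK Bool A) (m : ℤ), ∃ w ∈ WJ pt, atJ w - F ∈ Pol Bool A (-m)) ∧
    (∀ w ∈ WJ pt, ∀ m : ℤ, ∃ (n : ℕ) (s a : Fin n → KK (I ⊕ Bool) A), (∀ k, s k ∈ WJ pt) ∧
      (∀ k, a k ∈ WJ pt) ∧ (∀ k, atJ (s k) ∈ Pol Bool A (-m)) ∧
      (∀ k, atJ (s k * w) ∈ Pol Bool A (-m)) ∧ ∑ k, a k * s k = 1) ∧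
    (∀ w ∈ WJ pt, ∀ a b : ℕ, atJ w ∈ Pol Bool A (-((a + b : ℕ) : ℤ)) →
      w ∈ Submodule.span A {z : KK (I ⊕ Bool) A | ∃ x ∈ WJ pt, ∃ y ∈ WJ pt,
        atJ x ∈ Pol Bool A (-(a : ℤ)) ∧ atJ y ∈ Pol Bool A (-(b : ℤ)) ∧ z = x * y}) ∧
    ∀ (ξ : KK Bool A) (m : ℤ), ∃ θ ∈ TT (WJ pt), atJ θ - ξ ∈ Pol Bool A (-m)

/-- PL4 (L4): differentials on the plumbed curve. -/
def Stmt_PL4 : Prop :=
  ∀ {I A : Type} [Fintype I] [Nonempty I] [CommRing A] {h : ℕ} {R : Subalgebra A (KK I A)},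
    IsKr h R → SmC A R → ∀ pt : Bool → FPt R, Disj pt → ∀ t : A, IsNilpotent t →
    (∀ η ∈ Perp (PT pt t), ∃! ζ : KK (I ⊕ Bool) A, ζ ∈ Perp (WJ pt) ∧ atI ζ = η ∧
      ∃ F ∈ Nt t, atJ ζ = F * vp A) ∧
    ∀ ζ ∈ Perp (WJ pt), ∀ F ∈ Nt t, atJ ζ = F * vp A → atI ζ ∈ Perp (PT pt t)

/-- PLR (L4, `t = 0`): the residue at the node of a regular differential. -/
def Stmt_PLR : Prop :=
  ∀ {I A : Type} [Fintype I] [Nonempty I] [CommRing A] {h : ℕ} {R : Subalgebra A (KK I A)},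
    IsKr h R → SmC A R → ∀ pt : Bool → FPt R, Disj pt →
    (∀ η ∈ EE (PT pt 0), ∃! ρ : A, IsRho pt η ρ) ∧
    (∀ η ∈ EE (PT pt 0), IsRho pt η 0 → η ∈ EE R) ∧
    (∀ η ∈ EE R, η ∈ EE (PT pt 0) ∧ IsRho pt η 0) ∧
    ∀ a : A, ∃ η ∈ EE (PT pt 0), IsRho pt η a

/-- PL5 (L5): the structure of derivations. -/
def Stmt_PL5 : Prop :=
  ∀ {I A : Type} [Fintype I] [Nonempty I] [CommRing A] {h : ℕ} {R : Subalgebra A (KK I A)},
    IsKr h R → SmC A R → ∀ pt : Bool → FPt R, Disj pt → ∀ t : A, IsNilpotent t →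
    ∀ D : PT pt t → KK I A, RDer (PT pt t) D →
      ∃ (θ : KK I A) (α β : KK Bool A), uv t true * β + uv t false * α ∈ Nt t ∧
        ∀ w ∈ WJ pt, atJ w ∈ Nt t → ∀ G G' : KK Bool A, IsPd t true (atJ w) G →
          IsPd t false (atJ w) G' → ∀ f : PT pt t, (f : KK I A) = atI w →
            ∃ x ∈ WJ pt, D f - θ * dd (f : KK I A) - atI x ∈ PT pt t ∧
              atJ x - (G * α + G' * β) ∈ Nt t

/-- PL6 (L6): `t D` is given by a vector field. -/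
def Stmt_PL6 : Prop :=
  ∀ {I A : Type} [Fintype I] [Nonempty I] [CommRing A] {h : ℕ} {R : Subalgebra A (KK I A)},
    IsKr h R → SmC A R → ∀ pt : Bool → FPt R, Disj pt → ∀ t : A, IsNilpotent t →
    ∀ D : PT pt t → KK I A, RDer (PT pt t) D → ∃ θ : KK I A, ∀ f : PT pt t,
      t • D f - θ * dd (f : KK I A) ∈ PT pt t

/-- PL7 (L7): `t ω` is a Kähler differential. -/
def Stmt_PL7 : Prop :=
  ∀ {I A : Type} [Fintype I] [Nonempty I] [CommRing A] {h : ℕ} {R : Subalgebra A (KK I A)},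
    IsKr h R → SmC A R → Dual R → ∀ pt : Bool → FPt R, Disj pt → ∀ t : A, IsNilpotent t →
    ∀ ω ∈ Perp (PT pt t), t • ω ∈ Om (PT pt t)

end Pool.Agent.MG.G0
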