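import Pool.Agent.MG.G0.One

/-!
# Coordinate changes (PAPER.md, RES4, SUB, ROOT)
-/

namespace Pool.Agent.MG.G0

/-- RIN (RES4): invariance of the residue. -/
def Stmt_RIN : Prop :=
  ∀ {I A : Type} [Fintype I] [CommRing A] (α : KK I A ≃ₐ[A] KK I A),
    (∀ f, α f ∈ Pol I A 0 ↔ f ∈ Pol I A 0) → ∀ f h, res (α h * dd (α f)) = res (h * dd f)

/-- `Φ` is the substitution `τ ↦ u`. -/
structure IsSub {A : Type} [CommRing A] (u : PowerSeries A)
    (Φ : LaurentSeries A →ₐ[A] LaurentSeries A) : Prop where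
  pol : ∀ n : ℤ, ∀ f ∈ Po A n, Φ f ∈ Po A n
  tau : Φ (HahnSeries.single 1 1) = psl A u

/-- SUB: coordinate changes of Laurent series. -/
def Stmt_SUB : Prop :=
  (∀ {A : Type} [CommRing A] (u : PowerSeries A), PowerSeries.constantCoeff u = 0 →
    IsUnit (PowerSeries.coeff 1 u) → ∃ Φ : LaurentSeries A ≃ₐ[A] LaurentSeries A,
      IsSub u (Φ : LaurentSeries A →ₐ[A] LaurentSeries A)) ∧
  (∀ {A : Type} [CommRing A] (u : PowerSeries A), PowerSeries.constantCoeff u = 0 →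
    IsUnit (PowerSeries.coeff 1 u) → ∀ Φ : LaurentSeries A →ₐ[A] LaurentSeries A, IsSub u Φ →
      (∀ Ψ : LaurentSeries A →ₐ[A] LaurentSeries A, IsSub u Ψ → Ψ = Φ) ∧
      (∀ (n : ℤ) (f : LaurentSeries A), Φ f ∈ Po A n ↔ f ∈ Po A n) ∧
      (∀ n : ℤ, ∃ c : A, IsUnit c ∧ ∀ f ∈ Po A n, (Φ f).coeff (-n) = c * f.coeff (-n)) ∧
      (∀ f : PowerSeries A, ∃ h : PowerSeries A, Φ (psl A f) = psl A h ∧
        PowerSeries.constantCoeff h = PowerSeries.constantCoeff f) ∧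
      (∀ f, ld (Φ f) = Φ (ld f) * ld (psl A u)) ∧
      (∀ f, (Φ f * ld (psl A u)).coeff (-1) = f.coeff (-1)) ∧
      ∀ {g : ℕ} {R : Subalgebra A (LaurentSeries A)}, Kr g R ↔ Kr g (R.map Φ)) ∧
  ∀ {A B : Type} [CommRing A] [CommRing B] (φ : A →+* B) (u : PowerSeries A),
    PowerSeries.constantCoeff u = 0 → IsUnit (PowerSeries.coeff 1 u) →
    ∀ (Φ : LaurentSeries A →ₐ[A] LaurentSeries A) (Ψ : LaurentSeries B →ₐ[B] LaurentSeries B),
      IsSub u Φ → IsSub (PowerSeries.map φ u) Ψ → ∀ f, lmap φ (Φ f) = Ψ (lmap φ f)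

/-- ROO (ROOT): roots of power series. -/
def Stmt_ROO : Prop :=
  ∀ {A : Type} [CommRing A] (n : ℕ), IsUnit (n : A) → ∀ c : PowerSeries A,
    PowerSeries.constantCoeff c = 1 →
    (∃! r : PowerSeries A, PowerSeries.constantCoeff r = 1 ∧ r ^ n = c) ∧
    ∀ r : PowerSeries A, PowerSeries.constantCoeff r = 1 → r ^ n = c →
      ∀ m : ℕ, (∀ k : ℕ, ¬ m ∣ k → PowerSeries.coeff k c = 0) →
        ∀ k : ℕ, ¬ m ∣ k → PowerSeries.coeff k r = 0

end Pool.Agent.MG.G0
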