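import Pool.Agent.MG.G0.StmtsNP
import Pool.Agent.MG.G0.StmtsLOG
import Pool.Agent.MG.G0.StmtsU
import Pool.Agent.MG.G0.StmtsB
import Pool.Agent.MG.G0.StmtsR

/-!
# NPA: normalization of a node over a field: formal points (PAPER_NP.md)
-/

open Polynomial

namespace Pool.Agent.MG.G0

namespace NPAx

/-! ### Derivations at a point of `R` -/

section der

variable {κ : Type} [Field κ] {d : ℕ} {R : Subalgebra κ (LaurentSeries κ)}

/-- polynomials in `z` as elements of `R` -/
noncomputable def Z (hz : zz κ d ∈ R) : κ[X] →ₐ[κ] R := Polynomial.aeval (⟨zz κ d, hz⟩ : R)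

theorem Z_val (hz : zz κ d ∈ R) (a : κ[X]) :
    ((Z hz a : R) : LaurentSeries κ) = zpol κ d a := by
  have h := Polynomial.aeval_algHom_apply R.val (⟨zz κ d, hz⟩ : R) a
  exact h.symm

theorem p_Z (hz : zz κ d ∈ R) (p : R →ₐ[κ] κ) (c : κ) (hp : p ⟨zz κ d, hz⟩ = c) (a : κ[X]) :
    p (Z hz a) = a.eval c := by
  have h := Polynomial.aeval_algHom_apply p (⟨zz κ d, hz⟩ : R) a
  rw [hp] at h
  rw [Z, ← h]
  exact Polynomial.coe_aeval_eq_eval c ▸ rfl

theorem E_Z (hz : zz κ d ∈ R) (p : R →ₐ[κ] κ) (E : R →ₗ[κ] κ)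
    (hE : ∀ x y, E (x * y) = p x * E y + p y * E x) (hEz : E ⟨zz κ d, hz⟩ = 0) (a : κ[X]) :
    E (Z hz a) = 0 := by
  have h1 : E 1 = 0 := by
    have := hE 1 1
    rw [mul_one, map_one p, one_mul] at this
    exact left_eq_add.1 this
  have hpow : ∀ n : ℕ, E ((⟨zz κ d, hz⟩ : R) ^ n) = 0 := by
    intro n
    induction n with
    | zero => rw [pow_zero, h1]
    | succ n ih => rw [pow_succ, hE, ih, hEz, mul_zero, mul_zero, add_zero]
  induction a using Polynomial.induction_on' with
  | add a b ha hb => rw [map_add, map_add, ha, hb, add_zero]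
  | monomial n b =>
    rw [Z, Polynomial.aeval_monomial, ← Algebra.smul_def, map_smul, hpow, smul_zero]

theorem zpol_inj (hd : 0 < d) {e : Fin d → LaurentSeries κ} (hb : ZBas d R e)
    (hz : zz κ d ∈ R) {a b : κ[X]} (h : zpol κ d a = zpol κ d b) : a = b := by
  have hm : zpol κ d a * e ⟨0, hd⟩ ∈ R := by
    rw [← Z_val hz]
    exact mul_mem (Z hz a).2 (hb.mem _)
  obtain ⟨c, _, hu⟩ := hb.uni _ hm
  have h1 := hu (Pi.single ⟨0, hd⟩ a) (by
    simp only [Pi.single_apply]
    rw [Finset.sum_eq_single (⟨0, hd⟩ : Fin d)]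
    · rw [if_pos rfl]
    · intro i _ hi
      rw [if_neg hi, map_zero, zero_mul]
    · intro hi
      exact absurd (Finset.mem_univ _) hi)
  have h2 := hu (Pi.single ⟨0, hd⟩ b) (by
    simp only [Pi.single_apply]
    rw [Finset.sum_eq_single (⟨0, hd⟩ : Fin d)]
    · rw [if_pos rfl, h]
    · intro i _ hi
      rw [if_neg hi, map_zero, zero_mul]
    · intro hi
      exact absurd (Finset.mem_univ _) hi)
  have h3 := congrFun (h1.trans h2.symm) ⟨0, hd⟩
  rwa [Pi.single_eq_same, Pi.single_eq_same] at h3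

/-- A derivation `R → κ` at a point which is unramified over the `z`-line and which kills `z` is
zero. -/
theorem der_zero (hZDU : Stmt_ZDU) {g : ℕ} (hd : 0 < d) (hdκ : (d : κ) ≠ 0) (hR : Kr g R)
    (hz : zz κ d ∈ R) {h : κ[X]} {c : κ} (hD : Disc d R h) (hc : h.eval c ≠ 0) (p : R →ₐ[κ] κ)
    (hpz : p ⟨zz κ d, hz⟩ = c) (E : R →ₗ[κ] κ)
    (hE : ∀ x y, E (x * y) = p x * E y + p y * E x) (hEz : E ⟨zz κ d, hz⟩ = 0) (r : R) :
    E r = 0 := by
  obtain ⟨e, G, hb, hG, u, hu, hGu⟩ := hD
  obtain ⟨hdet, es, _, hes2, hes3, hes4⟩ := (hZDU hd hdκ R hR hz).2 e G hb hG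
  have inj : ∀ {a b : κ[X]}, zpol κ d a = zpol κ d b → a = b := fun h => zpol_inj hd hb hz h
  -- the matrix of `r`
  have hH : ∀ j, ∃ c : Fin d → κ[X], (r : LaurentSeries κ) * e j = ∑ i, zpol κ d (c i) * e i :=
    fun j => (hb.uni _ (mul_mem r.2 (hb.mem j))).exists
  choose H' hH using hH
  set H : Matrix (Fin d) (Fin d) κ[X] := Matrix.of H' with hHdef
  have hH2 : ∀ j, (r : LaurentSeries κ) * e j = ∑ k, zpol κ d (H j k) * e k := hH
  -- self-adjointness
  have hadj : H * G = G * H.transpose := by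
    ext1 i j
    apply inj
    have h1 : zpol κ d ((H * G) i j) = pr0 κ d ((r : LaurentSeries κ) * e i * e j) := by
      rw [Matrix.mul_apply, map_sum, hH2 i, Finset.sum_mul, map_sum]
      refine Finset.sum_congr rfl fun k _ => ?_
      rw [map_mul, hG k j, mul_assoc, pr0_zpol_mul]
    have h2 : zpol κ d ((G * H.transpose) i j) = pr0 κ d (e i * ((r : LaurentSeries κ) * e j)) := by
      rw [Matrix.mul_apply, map_sum, hH2 j, Finset.mul_sum, map_sum]
      refine Finset.sum_congr rfl fun k _ => ?_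
      rw [map_mul, hG i k, Matrix.transpose_apply, mul_left_comm, pr0_zpol_mul, mul_comm]
    rw [h1, h2]
    congr 1
    ring
  have hadj2 : G.adjugate * H = H.transpose * G.adjugate := by
    have h1 : G.adjugate * (H * G) * G.adjugate = G.adjugate * (G * H.transpose) * G.adjugate := by
      rw [hadj]
    have h2 : G.adjugate * (H * G) * G.adjugate = G.det • (G.adjugate * H) := by
      rw [← mul_assoc, mul_assoc (G.adjugate * H), Matrix.mul_adjugate, Matrix.mul_smul, mul_one]
    have h3 : G.adjugate * (G * H.transpose) * G.adjugate = G.det • (H.transpose * G.adjugate) := by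
      rw [← mul_assoc, Matrix.adjugate_mul, Matrix.smul_mul, one_mul, Matrix.smul_mul]
    rw [h2, h3] at h1
    ext1 i j
    have h4 := congrFun (congrFun h1 i) j
    rw [Matrix.smul_apply, Matrix.smul_apply, smul_eq_mul, smul_eq_mul] at h4
    exact mul_left_cancel₀ hdet h4
  -- elements of `R`
  set eR : Fin d → R := fun j => ⟨e j, hb.mem j⟩ with heR
  set D : Fin d → R := fun k => ∑ i, Z hz (G.adjugate k i) * eR i with hDdef
  have r1 : ∀ j, r * eR j = ∑ k, Z hz (H j k) * eR k := by
    intro j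
    apply Subtype.ext
    rw [MulMemClass.coe_mul, hH2 j, AddSubmonoidClass.coe_finsetSum]
    refine Finset.sum_congr rfl fun k _ => ?_
    rw [MulMemClass.coe_mul, Z_val]
  have r2 : ∀ k, r * D k = ∑ j, Z hz (H j k) * D j := by
    intro k
    have h1 : r * D k = ∑ l, Z hz ((G.adjugate * H) k l) * eR l := by
      simp only [hDdef]
      rw [Finset.mul_sum]
      have h2 : ∀ i, r * (Z hz (G.adjugate k i) * eR i) =
          ∑ l, Z hz (G.adjugate k i * H i l) * eR l := by
        intro i
        rw [mul_left_comm, r1 i, Finset.mul_sum]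
        refine Finset.sum_congr rfl fun l _ => ?_
        rw [map_mul, mul_assoc]
      rw [Finset.sum_congr rfl fun i _ => h2 i, Finset.sum_comm]
      refine Finset.sum_congr rfl fun l _ => ?_
      rw [← Finset.sum_mul, ← map_sum, Matrix.mul_apply]
    have h3 : ∑ j, Z hz (H j k) * D j = ∑ l, Z hz ((H.transpose * G.adjugate) k l) * eR l := by
      simp only [hDdef, Finset.mul_sum]
      rw [Finset.sum_comm]
      refine Finset.sum_congr rfl fun l _ => ?_
      rw [Matrix.mul_apply, map_sum, Finset.sum_mul]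
      refine Finset.sum_congr rfl fun j _ => ?_
      rw [map_mul, mul_assoc, Matrix.transpose_apply]
    rw [h1, h3, hadj2]
  have r3 : ∑ j, D j * eR j = (d : R) * Z hz G.det := by
    have hy : ∑ j, e j * es j = (d : LaurentSeries κ) := by
      set w := ∑ j, e j * es j - (d : LaurentSeries κ) with hw
      have hw0 : ∀ x, pr0 κ d (w * x) = 0 := by
        intro x
        have h1 : w * x = ∑ j, x * e j * es j - d • x := by
          rw [hw, sub_mul, Finset.sum_mul, nsmul_eq_mul]
          congr 1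
          refine Finset.sum_congr rfl fun j _ => ?_
          ring
        rw [h1, map_sub, map_sum, hes3 x, map_nsmul, nsmul_eq_mul, sub_self]
      have h2 : w = 0 := by
        rw [hes2 w]
        refine Finset.sum_eq_zero fun j _ => ?_
        rw [hw0, zero_mul]
      exact sub_eq_zero.1 h2
    have hDv : ∀ j, ((D j : R) : LaurentSeries κ) = zpol κ d G.det * es j := by
      intro j
      rw [hes4 j]
      simp only [hDdef]
      rw [AddSubmonoidClass.coe_finsetSum]
      refine Finset.sum_congr rfl fun i _ => ?_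
      rw [MulMemClass.coe_mul, Z_val]
    apply Subtype.ext
    rw [AddSubmonoidClass.coe_finsetSum, MulMemClass.coe_mul, Z_val]
    have h5 : ∀ j, ((D j * eR j : R) : LaurentSeries κ) = zpol κ d G.det * (e j * es j) := by
      intro j
      rw [MulMemClass.coe_mul, hDv]
      simp only [heR]
      ring
    rw [Finset.sum_congr rfl fun j _ => h5 j, ← Finset.mul_sum, hy, mul_comm]
    rfl
  -- the two evaluations
  have s1 : ∑ j, p (D j) * E (r * eR j) = p r * ∑ k, p (D k) * E (eR k) := by
    have h1 : ∀ j, E (r * eR j) = ∑ k, (H j k).eval c * E (eR k) := by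
      intro j
      rw [r1 j, map_sum]
      refine Finset.sum_congr rfl fun k _ => ?_
      rw [hE, E_Z hz p E hE hEz, mul_zero, add_zero, p_Z hz p c hpz]
    have h2 : ∀ j, p (D j) * E (r * eR j) = ∑ k, p (Z hz (H j k) * D j) * E (eR k) := by
      intro j
      rw [h1 j, Finset.mul_sum]
      refine Finset.sum_congr rfl fun k _ => ?_
      rw [map_mul, p_Z hz p c hpz]
      ring
    rw [Finset.sum_congr rfl fun j _ => h2 j, Finset.sum_comm, Finset.mul_sum]
    refine Finset.sum_congr rfl fun k _ => ?_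
    rw [← Finset.sum_mul, ← map_sum, ← r2 k, map_mul, mul_assoc]
  have s2 : ∑ j, p (D j) * E (r * eR j) =
      p r * ∑ k, p (D k) * E (eR k) + p (∑ j, D j * eR j) * E r := by
    rw [map_sum, Finset.sum_mul, Finset.mul_sum, ← Finset.sum_add_distrib]
    refine Finset.sum_congr rfl fun j _ => ?_
    rw [hE, map_mul]
    ring
  have s3 : p (∑ j, D j * eR j) * E r = 0 := by
    have := s1.symm.trans s2
    exact left_eq_add.1 this
  rw [r3, map_mul, map_natCast, p_Z hz p c hpz, hGu, eval_mul] at s3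
  have hu0 : u.eval c ≠ 0 := (hu.map (evalRingHom c)).ne_zero
  exact (mul_eq_zero.1 s3).resolve_left (mul_ne_zero hdκ (mul_ne_zero hu0 hc))

end der

/-! ### Coordinate change of power series -/

section coord

variable {A : Type} [CommRing A]

theorem psl_coeff (f : PowerSeries A) (n : ℕ) :
    (psl A f).coeff (n : ℤ) = PowerSeries.coeff n f := HahnSeries.ofPowerSeries_apply_coeff f n

theorem psl_Po (f : PowerSeries A) : psl A f ∈ Po A 0 := by
  intro m hm
  refine HahnSeries.embDomain_of_notMem_range ?_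
  rintro ⟨k, hk⟩
  have : (k : ℤ) = m := hk
  omega

theorem psl_injective : Function.Injective (psl A) := HahnSeries.ofPowerSeries_injective

theorem exists_psl {f : LaurentSeries A} (h : f ∈ Po A 0) : ∃ a : PowerSeries A, psl A a = f := by
  refine ⟨PowerSeries.mk fun n => f.coeff (n : ℤ), ?_⟩
  ext m
  rcases lt_or_ge m 0 with hm | hm
  · rw [psl_Po _ m (by omega), h m (by omega)]
  · obtain ⟨n, rfl⟩ := Int.eq_ofNat_of_zero_le hm
    rw [psl_coeff, PowerSeries.coeff_mk]

/-- the inverse of the coordinate change `u ↦ w` on power series -/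
theorem exists_inv (hSUB : Stmt_SUB) (w : PowerSeries A) (h0 : PowerSeries.constantCoeff w = 0)
    (h1 : IsUnit (PowerSeries.coeff 1 w)) :
    ∃ σ : PowerSeries A →ₐ[A] PowerSeries A, σ w = PowerSeries.X ∧
      ∀ f, PowerSeries.constantCoeff (σ f) = PowerSeries.constantCoeff f := by
  obtain ⟨Φ, hΦ⟩ := hSUB.1 w h0 h1
  obtain ⟨_, hPo, _, _, _, _, _⟩ := hSUB.2.1 w h0 h1 _ hΦ
  have hPo' : ∀ (n : ℤ) (f : LaurentSeries A), Φ f ∈ Po A n ↔ f ∈ Po A n := hPo
  have hsymm : ∀ (n : ℤ) (f : LaurentSeries A), Φ.symm f ∈ Po A n ↔ f ∈ Po A n := by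
    intro n f
    rw [← hPo' n (Φ.symm f), AlgEquiv.apply_symm_apply]
  have hex : ∀ f : PowerSeries A, ∃ a : PowerSeries A, psl A a = Φ.symm (psl A f) := fun f =>
    exists_psl ((hsymm 0 _).2 (psl_Po f))
  choose σ hσ using hex
  have hC : ∀ a : A, psl A (algebraMap A (PowerSeries A) a) = algebraMap A (LaurentSeries A) a :=
    fun a => HahnSeries.ofPowerSeries_C a
  refine ⟨
    { toFun := σ
      map_one' := psl_injective (by rw [hσ, map_one, map_one])
      map_mul' := fun f g => psl_injective (by rw [hσ, map_mul, map_mul, map_mul, hσ, hσ])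
      map_zero' := psl_injective (by rw [hσ, map_zero, map_zero])
      map_add' := fun f g => psl_injective (by rw [hσ, map_add, map_add, map_add, hσ, hσ])
      commutes' := fun a => psl_injective (by rw [hσ, hC, AlgEquiv.commutes]) }, ?_, ?_⟩
  · change σ w = PowerSeries.X
    apply psl_injective
    have htau : Φ (HahnSeries.single 1 1) = psl A w := hΦ.tau
    rw [hσ, ← htau, AlgEquiv.symm_apply_apply]
    exact HahnSeries.ofPowerSeries_X.symm
  · intro f
    change PowerSeries.constantCoeff (σ f) = PowerSeries.constantCoeff f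
    have h2 : psl A (f - PowerSeries.C (PowerSeries.constantCoeff f)) ∈ Po A (-1) := by
      intro m hm
      rcases lt_or_ge m 0 with h | h
      · exact psl_Po _ m (by omega)
      · have hm0 : m = ((0 : ℕ) : ℤ) := by omega
        rw [hm0, psl_coeff, map_sub, PowerSeries.coeff_zero_eq_constantCoeff_apply,
          PowerSeries.coeff_zero_eq_constantCoeff_apply, PowerSeries.constantCoeff_C, sub_self]
    have h3 := (hsymm (-1) _).2 h2 0 (by omega)
    have h4 : Φ.symm (psl A (f - PowerSeries.C (PowerSeries.constantCoeff f))) =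
        psl A (σ f) - algebraMap A (LaurentSeries A) (PowerSeries.constantCoeff f) := by
      have h5 : psl A (PowerSeries.C (PowerSeries.constantCoeff f)) =
          algebraMap A (LaurentSeries A) (PowerSeries.constantCoeff f) := hC _
      rw [map_sub, h5, map_sub, AlgEquiv.commutes, hσ]
    rw [h4, HahnSeries.coeff_sub, coeff_algebraMap, if_pos rfl] at h3
    have h6 := psl_coeff (σ f) 0
    rw [PowerSeries.coeff_zero_eq_constantCoeff_apply] at h6
    rw [← h6]
    exact sub_eq_zero.1 h3

end coord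

/-! ### The formal point with parameter `z - c` -/

section pt

variable {κ : Type} [Field κ] {d : ℕ} {R : Subalgebra κ (LaurentSeries κ)}

/-- the isomorphism of `uno R` and `R` -/
def un (R : Subalgebra κ (LaurentSeries κ)) : uno R →ₐ[κ] R where
  toFun x := ⟨(x : KK Unit κ) (), x.2⟩
  map_one' := rfl
  map_mul' _ _ := rfl
  map_zero' := rfl
  map_add' _ _ := rfl
  commutes' _ := rfl

theorem exists_pt (hAPT : Stmt_APT) (hSUB : Stmt_SUB) (hZDU : Stmt_ZDU) {g : ℕ} (hd : 0 < d)
    (hdκ : (d : κ) ≠ 0) (hR : Kr g R) (hz : zz κ d ∈ R) {h : κ[X]} {c : κ} (hD : Disc d R h)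
    (hc : h.eval c ≠ 0) (hfs : Algebra.FormallySmooth κ (uno R)) (hsm : SmC κ (uno R))
    (p : R →ₐ[κ] κ) (hpz : p ⟨zz κ d, hz⟩ = c) :
    ∃ pt : FPt (uno R), (∀ f, pt.ev f = p (un R f)) ∧
      ∀ z : uno R, (z : KK Unit κ) () = zz κ d → pt.h z = PowerSeries.C c + PowerSeries.X := by
  obtain ⟨pt, hpt⟩ := hAPT hfs hsm (p.comp (un R))
  set zR : uno R := ⟨fun _ => zz κ d, hz⟩ with hzR
  -- the coefficient of `u` of the expansion of `z`
  have hne : PowerSeries.coeff 1 (pt.h zR) ≠ 0 := by
    intro h1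
    have hco : ∀ a b : PowerSeries κ, PowerSeries.coeff 1 (a * b) =
        PowerSeries.constantCoeff a * PowerSeries.coeff 1 b +
          PowerSeries.constantCoeff b * PowerSeries.coeff 1 a := by
      intro a b
      rw [PowerSeries.coeff_mul, Finset.Nat.sum_antidiagonal_eq_sum_range_succ_mk]
      simp only [Finset.sum_range_succ, Finset.sum_range_zero, zero_add, Nat.sub_zero,
        Nat.sub_self, PowerSeries.coeff_zero_eq_constantCoeff_apply]
      ring
    let up : R → uno R := fun x => ⟨fun _ => (x : LaurentSeries κ), x.2⟩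
    let E : R →ₗ[κ] κ :=
      { toFun := fun x => PowerSeries.coeff 1 (pt.h (up x))
        map_add' := fun x y => by
          have h2 : up (x + y) = up x + up y := rfl
          rw [h2, map_add, map_add]
        map_smul' := fun a x => by
          have h2 : up (a • x) = a • up x := rfl
          rw [h2, map_smul, map_smul]
          rfl }
    have hE := der_zero hZDU hd hdκ hR hz hD hc p hpz E (fun x y => by
      change PowerSeries.coeff 1 (pt.h (up (x * y))) = p x * PowerSeries.coeff 1 (pt.h (up y)) +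
        p y * PowerSeries.coeff 1 (pt.h (up x))
      have h2 : up (x * y) = up x * up y := rfl
      rw [h2, map_mul, hco]
      have h3 : ∀ x, PowerSeries.constantCoeff (pt.h (up x)) = p x := fun x => hpt (up x)
      rw [h3, h3]) h1
    have h4 := hE (un R pt.x)
    exact pt.par.ne_zero h4
  have hcc : PowerSeries.constantCoeff (pt.h zR) = c := (hpt zR).trans hpz
  obtain ⟨σ, hσ1, hσ2⟩ := exists_inv hSUB (pt.h zR - PowerSeries.C c) (by
    rw [map_sub, hcc, PowerSeries.constantCoeff_C, sub_self]) (by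
    rw [map_sub, PowerSeries.coeff_C, if_neg one_ne_zero, sub_zero]
    exact IsUnit.mk0 _ hne)
  have hCa : algebraMap κ (PowerSeries κ) c = PowerSeries.C c := rfl
  have hσz : σ (pt.h zR) = PowerSeries.C c + PowerSeries.X := by
    have h5 : pt.h zR = algebraMap κ (PowerSeries κ) c + (pt.h zR - PowerSeries.C c) := by
      rw [hCa]
      ring
    rw [h5, map_add, AlgHom.commutes, hσ1, hCa]
  refine ⟨⟨σ.comp pt.h, zR, ?_⟩, fun f => ?_, fun z hz' => ?_⟩
  · rw [AlgHom.comp_apply, hσz, map_add, PowerSeries.coeff_C, if_neg one_ne_zero, zero_add,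
      PowerSeries.coeff_one_X]
    exact isUnit_one
  · change PowerSeries.constantCoeff (σ (pt.h f)) = p (un R f)
    rw [hσ2]
    exact hpt f
  · have h6 : z = zR := by
      apply Subtype.ext
      funext i
      exact hz'
    rw [h6]
    exact hσz

end pt

end NPAx

open NPAx in
theorem t_NPA (hAPT : Stmt_APT) (hSUB : Stmt_SUB) (hKIL : Stmt_KIL) (hKIS : Stmt_KIS)
    (hPL2 : Stmt_PL2) (hZDU : Stmt_ZDU) (hNPG : Stmt_NPG) : Stmt_NPA := by
  intro κ _ _ g d P f h c hd hfac hP hz hDP hf hsep hc hrk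
  obtain ⟨R, hR, hPR, hDR, p, q, hpq, hmem, hpqz⟩ := hNPG hd hfac hP hz hDP hf hc hrk
  have hd0 : 0 < d := by omega
  have hdκ : (d : κ) ≠ 0 := by
    intro h0
    apply hfac
    obtain ⟨k, hk⟩ := Nat.dvd_factorial hd0 (le_refl d)
    rw [hk, Nat.cast_mul, h0, zero_mul]
  have hzR : zz κ d ∈ R := hPR hz
  obtain ⟨hfs, hsm⟩ := hKIS (by omega) hfac hR hzR
    (hKIL.1 (by omega) (IsUnit.mk0 _ hdκ) hR hzR hDR) hsep
  obtain ⟨hpz, hqz⟩ := hpqz ⟨zz κ d, hzR⟩ rfl
  obtain ⟨pp, hpp1, hpp2⟩ := exists_pt hAPT hSUB hZDU hd0 hdκ hR hzR hDR hc hfs hsm p hpz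
  obtain ⟨pq, hpq1, hpq2⟩ := exists_pt hAPT hSUB hZDU hd0 hdκ hR hzR hDR hc hfs hsm q hqz
  -- the two ideals are comaximal
  have hsup : pp.id ⊔ pq.id = ⊤ := by
    obtain ⟨x, hx⟩ : ∃ x : R, p x ≠ q x := by
      by_contra hcon
      push Not at hcon
      exact hpq (AlgHom.ext hcon)
    set y : uno R := ⟨fun _ => (x : LaurentSeries κ), x.2⟩ with hy
    have hy1 : ∀ a : κ, un R (y - algebraMap κ (uno R) a) = x - algebraMap κ R a := fun a => rfl
    rw [Ideal.eq_top_iff_one]
    have h1 : (y - algebraMap κ (uno R) (p x)) ∈ pp.id := by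
      rw [FPt.mem_id, hpp1, hy1, map_sub, AlgHom.commutes, Algebra.algebraMap_self,
        RingHom.id_apply, sub_self]
    have h2 : (y - algebraMap κ (uno R) (q x)) ∈ pq.id := by
      rw [FPt.mem_id, hpq1, hy1, map_sub, AlgHom.commutes, Algebra.algebraMap_self,
        RingHom.id_apply, sub_self]
    have h3 : (1 : uno R) = algebraMap κ (uno R) (q x - p x)⁻¹ *
        (y - algebraMap κ (uno R) (p x)) + (-algebraMap κ (uno R) (q x - p x)⁻¹) *
          (y - algebraMap κ (uno R) (q x)) := by
      have h4 : algebraMap κ (uno R) (q x - p x)⁻¹ * (y - algebraMap κ (uno R) (p x)) +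
          (-algebraMap κ (uno R) (q x - p x)⁻¹) * (y - algebraMap κ (uno R) (q x)) =
          algebraMap κ (uno R) (q x - p x)⁻¹ * algebraMap κ (uno R) (q x - p x) := by
        rw [map_sub]
        ring
      rw [h4, ← map_mul, inv_mul_cancel₀ (sub_ne_zero.2 (Ne.symm hx)), map_one]
    rw [h3]
    exact Ideal.add_mem _ (Ideal.mem_sup_left (Ideal.mul_mem_left _ _ h1))
      (Ideal.mem_sup_right (Ideal.mul_mem_left _ _ h2))
  have hdisj : Disj (fun b : Bool => if b then pp else pq) := by
    intro j k hjk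
    cases j <;> cases k
    · exact absurd rfl hjk
    · change pq.id ⊔ pp.id = ⊤
      rw [sup_comm]
      exact hsup
    · exact hsup
    · exact absurd rfl hjk
  refine ⟨R, hR, hPR, hDR, hfs, hsm, fun b => if b then pp else pq, hdisj, ?_, ?_⟩
  · intro b z hz'
    cases b
    · exact hpq2 z hz'
    · exact hpp2 z hz'
  · ext f
    rw [hPL2.2.2 hR hsm _ hdisj f]
    constructor
    · rintro ⟨r, rfl, hr⟩
      have hr' : p (un R r) = q (un R r) := by
        rw [← hpp1, ← hpq1]
        exact hr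
      exact (hmem (un R r)).2 hr'
    · intro hf'
      refine ⟨⟨f, hPR hf'⟩, rfl, ?_⟩
      change pp.ev ⟨f, hPR hf'⟩ = pq.ev ⟨f, hPR hf'⟩
      rw [hpp1, hpq1]
      exact (hmem (un R ⟨f, hPR hf'⟩)).1 hf'


end Pool.Agent.MG.G0
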