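import Pool.Agent.MG.G0.StmtsNB

/-!
# NPO: a Laurent series whose square has no pole
-/

namespace Pool.Agent.MG.G0

namespace NPO

section

variable {A : Type} [CommRing A]

theorem coeff_psl (f : PowerSeries A) (n : ℕ) : (psl A f).coeff n = PowerSeries.coeff n f :=
  HahnSeries.ofPowerSeries_apply_coeff f n

theorem coeff_psl_neg (f : PowerSeries A) {m : ℤ} (hm : m < 0) : (psl A f).coeff m = 0 := by
  rw [psl, HahnSeries.ofPowerSeries_apply]
  refine HahnSeries.embDomain_of_notMem_range ?_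
  rintro ⟨n, hn⟩
  have h : ((n : ℕ) : ℤ) = m := hn
  omega

theorem psl_mem (f : PowerSeries A) : psl A f ∈ Po A 0 := fun m hm =>
  coeff_psl_neg f (by omega)

theorem exists_psl {y : LaurentSeries A} (hy : y ∈ Po A 0) : ∃ Y, psl A Y = y := by
  refine ⟨PowerSeries.mk fun m => y.coeff m, ?_⟩
  ext m
  rcases lt_or_ge m 0 with h | h
  · rw [coeff_psl_neg _ h, hy m (by omega)]
  · obtain ⟨k, rfl⟩ := Int.eq_ofNat_of_zero_le h
    rw [coeff_psl, PowerSeries.coeff_mk]

theorem mul_mem {x y : LaurentSeries A} (hx : x ∈ Po A 0) (hy : y ∈ Po A 0) :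
    x * y ∈ Po A 0 := by
  obtain ⟨X, rfl⟩ := exists_psl hx
  obtain ⟨Y, rfl⟩ := exists_psl hy
  rw [← map_mul]
  exact psl_mem _

theorem coeff_mul_mem {J K : Ideal A} {x y : LaurentSeries A} (hx : ∀ n, x.coeff n ∈ J)
    (hy : ∀ n, y.coeff n ∈ K) (n : ℤ) : (x * y).coeff n ∈ J * K := by
  rw [HahnSeries.coeff_mul]
  exact Ideal.sum_mem _ fun p _ => Ideal.mul_mem_mul (hx _) (hy _)

/-- The polar part is small. -/
theorem step {m : Ideal A} (F W : PowerSeries A) (hW : 2 * F * W = 1)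
    (ν : LaurentSeries A) (h0 : ∀ n, 0 ≤ n → ν.coeff n = 0)
    (hs : (psl A F + ν) * (psl A F + ν) ∈ Po A 0) (k : ℕ) (hk : ∀ n, ν.coeff n ∈ m ^ (k + 1)) :
    ∀ n, ν.coeff n ∈ m ^ (k + 2) := by
  intro n
  rcases lt_or_ge n 0 with hn | hn
  · have e : ν = psl A W * ((psl A F + ν) * (psl A F + ν) - psl A F * psl A F) -
        psl A W * (ν * ν) := by
      have e1 : (2 : LaurentSeries A) * psl A F * psl A W = 1 := by
        have := congrArg (psl A) hW
        rw [map_mul, map_mul, map_ofNat, map_one] at this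
        exact this
      linear_combination (-ν) * e1
    have h1 : psl A W * ((psl A F + ν) * (psl A F + ν) - psl A F * psl A F) ∈ Po A 0 :=
      mul_mem (psl_mem W) (sub_mem hs (mul_mem (psl_mem F) (psl_mem F)))
    have h2 : (psl A W * (ν * ν)).coeff n ∈ (⊤ : Ideal A) * (m ^ (k + 1) * m ^ (k + 1)) :=
      coeff_mul_mem (fun _ => Submodule.mem_top) (coeff_mul_mem hk hk) n
    have h3 : (⊤ : Ideal A) * (m ^ (k + 1) * m ^ (k + 1)) ≤ m ^ (k + 2) := by
      rw [← pow_add]
      exact le_trans Ideal.mul_le_right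
        (Ideal.pow_le_pow_right (show k + 2 ≤ k + 1 + (k + 1) by omega))
    rw [e, HahnSeries.coeff_sub, h1 n (by omega), zero_sub]
    exact neg_mem (h3 h2)
  · rw [h0 n hn]
    exact zero_mem _

end

end NPO

theorem t_NPO : Stmt_NPO := by
  intro A κ _ _ rs hrs hnil h2 x hxx hx hx0
  obtain ⟨N, hN⟩ := hnil
  have hu : ∀ a : A, rs a ≠ 0 → IsUnit a := by
    intro a ha
    obtain ⟨b, hb⟩ := hrs (rs a)⁻¹
    have h3 : 1 - a * b ∈ RingHom.ker rs := by
      rw [RingHom.mem_ker, map_sub, map_one, map_mul, hb, mul_inv_cancel₀ ha, sub_self]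
    have h4 : IsNilpotent (1 - a * b) := by
      refine ⟨N, ?_⟩
      have h5 := Ideal.pow_mem_pow h3 N
      rw [hN] at h5
      exact h5
    have h5 : IsUnit (a * b) := by
      have h6 := h4.isUnit_one_sub
      rw [sub_sub_cancel] at h6
      exact h6
    exact isUnit_of_mul_isUnit_left h5
  have hF : ∃ F : PowerSeries A, ∀ n : ℕ, PowerSeries.coeff n F = x.coeff n :=
    ⟨PowerSeries.mk fun n => x.coeff n, fun n => PowerSeries.coeff_mk _ _⟩
  obtain ⟨F, hF⟩ := hF
  have hFu : IsUnit (2 * F) := by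
    rw [PowerSeries.isUnit_iff_constantCoeff, map_mul, map_ofNat]
    refine hu _ ?_
    rw [map_mul, map_ofNat]
    refine mul_ne_zero h2 ?_
    rw [← PowerSeries.coeff_zero_eq_constantCoeff_apply, hF]
    exact hx0
  obtain ⟨W, hW⟩ := hFu.exists_right_inv
  have hν0 : ∀ n, 0 ≤ n → (x - psl A F).coeff n = 0 := by
    intro n hn
    obtain ⟨k, rfl⟩ := Int.eq_ofNat_of_zero_le hn
    rw [HahnSeries.coeff_sub, NPO.coeff_psl, hF, sub_self]
  have hs : (psl A F + (x - psl A F)) * (psl A F + (x - psl A F)) ∈ Po A 0 := by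
    rw [add_sub_cancel]
    exact hxx
  have key : ∀ k : ℕ, ∀ n, (x - psl A F).coeff n ∈ RingHom.ker rs ^ (k + 1) := by
    intro k
    induction k with
    | zero =>
      intro n
      rw [zero_add, pow_one]
      rcases lt_or_ge n 0 with hn | hn
      · rw [HahnSeries.coeff_sub, NPO.coeff_psl_neg _ hn, sub_zero]
        exact hx n (by omega)
      · rw [hν0 n hn]
        exact zero_mem _
    | succ k ih => exact NPO.step F W hW _ hν0 hs k ih
  have h0 : x = psl A F := by
    rw [← sub_eq_zero]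
    ext n
    have h1 := key N n
    have h3 : RingHom.ker rs ^ (N + 1) = ⊥ := by
      rw [pow_succ, hN, Ideal.bot_mul]
    rw [h3] at h1
    rw [HahnSeries.coeff_zero]
    exact h1
  rw [h0]
  exact NPO.psl_mem F

end Pool.Agent.MG.G0
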