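import Pool.Agent.MG.G0.StmtsLOG

/-!
# PL0: the functions on the annulus `u v = t`
-/

namespace Pool.Agent.MG.G0

namespace PL0

variable {A : Type} [CommRing A] {t : A}

theorem uv_self (t : A) (b : Bool) : uv t b b = HahnSeries.single 1 1 := if_pos rfl

theorem uv_not (t : A) (b : Bool) : uv t b (!b) = HahnSeries.single (-1) t :=
  if_neg (by cases b <;> decide)

theorem uv_pow_self (t : A) (b : Bool) (j : ℕ) :
    (uv t b ^ j) b = HahnSeries.single (j : ℤ) 1 := by
  have h : j • (1 : ℤ) = (j : ℤ) := by rw [nsmul_eq_mul, mul_one]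
  rw [Pi.pow_apply, uv_self, HahnSeries.single_pow, one_pow, h]

theorem uv_pow_not (t : A) (b : Bool) (j : ℕ) :
    (uv t b ^ j) (!b) = HahnSeries.single (-(j : ℤ)) (t ^ j) := by
  have h : j • (-1 : ℤ) = -(j : ℤ) := by rw [nsmul_eq_mul, mul_neg, mul_one]
  rw [Pi.pow_apply, uv_not, HahnSeries.single_pow, h]

theorem eq_or_not (b c : Bool) : c = b ∨ c = !b := by
  cases b <;> cases c <;> simp

theorem uv_mem (t : A) (b : Bool) : uv t b ∈ Nt t := by
  intro c j
  rcases eq_or_not b c with rfl | rfl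
  · rw [uv_self, uv_not, HahnSeries.coeff_single_of_ne (by omega),
      HahnSeries.coeff_single_of_ne (by omega), mul_zero]
  · rw [Bool.not_not, uv_self, uv_not]
    by_cases h : j = 1
    · subst h
      rw [Nat.cast_one, HahnSeries.coeff_single_same, HahnSeries.coeff_single_same, pow_one,
        mul_one]
    · rw [HahnSeries.coeff_single_of_ne (by omega), HahnSeries.coeff_single_of_ne (by omega),
        mul_zero]

theorem nt_zero {F : KK Bool A} (hF : F ∈ Nt t) (b : Bool) :
    (F (!b)).coeff 0 = (F b).coeff 0 := by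
  have h := hF (!b) 0
  rw [Bool.not_not, pow_zero, one_mul, Nat.cast_zero, neg_zero] at h
  exact h

theorem nt_neg {F : KK Bool A} (hF : F ∈ Nt t) (b : Bool) {n : ℤ} {j : ℕ} (h : n = -(j : ℤ)) :
    (F b).coeff n = t ^ j * (F (!b)).coeff j := by
  rw [h]
  exact hF b j

theorem nt_ext {F F' : KK Bool A} (hF : F ∈ Nt t) (hF' : F' ∈ Nt t)
    (h : ∀ (b : Bool) (j : ℕ), (F b).coeff j = (F' b).coeff j) : F = F' := by
  funext b
  ext n
  rcases le_total 0 n with hn | hn
  · obtain ⟨j, rfl⟩ := Int.eq_ofNat_of_zero_le hn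
    exact h b j
  · obtain ⟨j, hj⟩ := Int.eq_ofNat_of_zero_le (neg_nonneg.2 hn)
    have h1 : n = -(j : ℤ) := by omega
    rw [nt_neg hF b h1, nt_neg hF' b h1, h]

/-- The function on the annulus with given coefficients. -/
theorem exists_nt {N : ℕ} (hN : t ^ N = 0) (a : Bool → ℕ → A) (ha : ∀ b, a b 0 = a (!b) 0) :
    ∃ F : KK Bool A, F ∈ Nt t ∧ ∀ (b : Bool) (j : ℕ), (F b).coeff j = a b j := by
  refine ⟨fun b => ⟨fun m => if m < -(N : ℤ) then 0 else
    if 0 ≤ m then a b m.toNat else t ^ (-m).toNat * a (!b) (-m).toNat, ?_⟩, ?_, ?_⟩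
  · refine Set.IsPWO.mono (t := Set.Ici (-(N : ℤ))) ?_ fun m hm => ?_
    · exact (BddBelow.isWF ⟨_, fun _ h => h⟩).isPWO
    · by_contra h
      rw [Set.mem_Ici, not_le] at h
      exact hm (if_pos h)
  · intro b j
    change (if -(j : ℤ) < -(N : ℤ) then 0 else if 0 ≤ -(j : ℤ) then a b (-(j : ℤ)).toNat else
      t ^ (-(-(j : ℤ))).toNat * a (!b) (-(-(j : ℤ))).toNat) = t ^ j *
      (if (j : ℤ) < -(N : ℤ) then 0 else if 0 ≤ (j : ℤ) then a (!b) (j : ℤ).toNat else
      t ^ (-(j : ℤ)).toNat * a (!!b) (-(j : ℤ)).toNat)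
    rw [if_neg (show ¬ (j : ℤ) < -(N : ℤ) by omega), if_pos (show (0 : ℤ) ≤ j by omega),
      Int.toNat_natCast, neg_neg, Int.toNat_natCast]
    split_ifs with h1 h2
    · have h3 : N ≤ j := by omega
      rw [pow_eq_zero_of_le h3 hN, zero_mul]
    · have h3 : j = 0 := by omega
      subst h3
      rw [pow_zero, one_mul, ← ha]
      rfl
    · rfl
  · intro b j
    change (if (j : ℤ) < -(N : ℤ) then 0 else if 0 ≤ (j : ℤ) then a b (j : ℤ).toNat else
      t ^ (-(j : ℤ)).toNat * a (!b) (-(j : ℤ)).toNat) = a b j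
    rw [if_neg (by omega), if_pos (by omega), Int.toNat_natCast]

/-! ### Derivatives -/

theorem exists_pd {N : ℕ} (hN : t ^ N = 0) (F : KK Bool A) (b : Bool) : ∃ G, IsPd t b F G := by
  obtain ⟨G, hG, h⟩ := exists_nt hN (fun c m => if c = b then (m + 1 : A) * (F b).coeff (m + 1)
    else if m = 0 then (F b).coeff 1 else 0) (by
      intro c
      cases b <;> cases c <;> simp)
  refine ⟨G, hG, fun m => ?_, fun m hm => ?_⟩
  · rw [h, if_pos rfl]
  · rw [h, if_neg (by cases b <;> decide), if_neg (by omega)]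

theorem pd_unique {F G G' : KK Bool A} {b : Bool} (h : IsPd t b F G) (h' : IsPd t b F G') :
    G = G' := by
  refine nt_ext h.mem h'.mem fun c j => ?_
  rcases eq_or_not b c with rfl | rfl
  · rw [h.pos, h'.pos]
  · rcases Nat.eq_zero_or_pos j with rfl | hj
    · rw [Nat.cast_zero, nt_zero h.mem, nt_zero h'.mem]
      have h1 := h.pos 0
      have h2 := h'.pos 0
      rw [Nat.cast_zero (R := ℤ)] at h1 h2
      rw [h1, h2]
    · rw [h.neg j hj, h'.neg j hj]

theorem pd_add {F G F' G' : KK Bool A} {b : Bool} (h : IsPd t b F G) (h' : IsPd t b F' G') :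
    IsPd t b (F + F') (G + G') := by
  refine ⟨add_mem h.mem h'.mem, fun m => ?_, fun m hm => ?_⟩
  · rw [Pi.add_apply, Pi.add_apply, HahnSeries.coeff_add, HahnSeries.coeff_add, h.pos, h'.pos,
      mul_add]
  · rw [Pi.add_apply, HahnSeries.coeff_add, h.neg m hm, h'.neg m hm, add_zero]

theorem pd_smul {F G : KK Bool A} {b : Bool} (a : A) (h : IsPd t b F G) :
    IsPd t b (a • F) (a • G) := by
  refine ⟨(Nt t).smul_mem h.mem a, fun m => ?_, fun m hm => ?_⟩
  · rw [Pi.smul_apply, Pi.smul_apply, HahnSeries.coeff_smul, HahnSeries.coeff_smul, h.pos,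
      smul_eq_mul, smul_eq_mul]
    ring
  · rw [Pi.smul_apply, HahnSeries.coeff_smul, h.neg m hm, smul_zero]

theorem pd_pow_self (t : A) (b : Bool) (j : ℕ) :
    IsPd t b (uv t b ^ j) ((j : A) • uv t b ^ (j - 1)) := by
  refine ⟨(Nt t).smul_mem (pow_mem (uv_mem t b) _) _, fun m => ?_, fun m hm => ?_⟩
  · rw [Pi.smul_apply, HahnSeries.coeff_smul, uv_pow_self, uv_pow_self, smul_eq_mul]
    by_cases h : j = m + 1
    · subst h
      have h1 : ((m + 1 : ℕ) : ℤ) = (m : ℤ) + 1 := by push_cast; ring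
      rw [Nat.add_sub_cancel, HahnSeries.coeff_single_same, h1, HahnSeries.coeff_single_same]
      push_cast
      ring
    · rw [HahnSeries.coeff_single_of_ne (a := (j : ℤ)) (by omega), mul_zero]
      by_cases h0 : j = 0
      · rw [h0, Nat.cast_zero, zero_mul]
      · rw [HahnSeries.coeff_single_of_ne (by omega), mul_zero]
  · rw [Pi.smul_apply, HahnSeries.coeff_smul, uv_pow_not,
      HahnSeries.coeff_single_of_ne (by omega), smul_zero]

theorem pd_pow_not (t : A) (b : Bool) (j : ℕ) : IsPd t (!b) (uv t b ^ j) 0 := by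
  refine ⟨zero_mem _, fun m => ?_, fun m hm => ?_⟩
  · rw [uv_pow_not, HahnSeries.coeff_single_of_ne (by omega), mul_zero]
    rfl
  · rfl

/-- The derivative `d/dτ` of a function on the annulus. -/
theorem dd_comp {F G G' : KK Bool A} {b : Bool} (hF : F ∈ Nt t) (h : IsPd t b F G)
    (h' : IsPd t (!b) F G') :
    ld (F b) = G b * ld (uv t b b) + G' b * ld (uv t (!b) b) := by
  have e1 : ld (uv t b b) = 1 := by
    rw [uv_self]
    ext n
    rw [ld_coeff, HahnSeries.coeff_one]
    by_cases hn : n = 0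
    · subst hn
      rw [zero_add, HahnSeries.coeff_single_same, if_pos rfl]
      simp
    · rw [HahnSeries.coeff_single_of_ne (by omega), if_neg hn, mul_zero]
  have e2 : ld (uv t (!b) b) = HahnSeries.single (-2) (-t) := by
    have e3 : uv t (!b) b = HahnSeries.single (-1) t := by
      have := uv_not t (!b)
      rwa [Bool.not_not] at this
    rw [e3]
    ext n
    rw [ld_coeff]
    by_cases hn : n = -2
    · subst hn
      have e4 : (-2 : ℤ) + 1 = -1 := by norm_num
      rw [e4, HahnSeries.coeff_single_same, HahnSeries.coeff_single_same]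
      push_cast
      ring
    · rw [HahnSeries.coeff_single_of_ne (by omega), HahnSeries.coeff_single_of_ne hn, mul_zero]
  rw [e1, e2, mul_one]
  ext n
  have e5 : (G' b * HahnSeries.single (-2) (-t)).coeff n = (G' b).coeff (n + 2) * -t := by
    have e6 : n = (n + 2) + -2 := by ring
    nth_rewrite 1 [e6]
    exact HahnSeries.coeff_mul_single_add
  rw [HahnSeries.coeff_add, e5, ld_coeff]
  rcases lt_trichotomy n (-1) with hn | hn | hn
  · obtain ⟨j, hj⟩ := Int.eq_ofNat_of_zero_le (a := -n - 2) (by omega)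
    have h1 : n + 1 = -((j + 1 : ℕ) : ℤ) := by omega
    have h2 : n = -((j + 2 : ℕ) : ℤ) := by omega
    have h3 : n + 2 = -(j : ℤ) := by omega
    have h4 := h'.pos j
    have h5 : ((j + 1 : ℕ) : ℤ) = (j : ℤ) + 1 := by push_cast; ring
    rw [nt_neg hF b h1, nt_neg h.mem b h2, nt_neg h'.mem b h3, h.neg _ (by omega), h4, h1, h5]
    push_cast
    ring
  · subst hn
    have h1 : (-1 : ℤ) = -((1 : ℕ) : ℤ) := by simp
    have h3 := h'.neg 1 le_rfl
    rw [Bool.not_not] at h3
    have h4 : (-1 : ℤ) + 2 = ((1 : ℕ) : ℤ) := by norm_num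
    rw [nt_neg h.mem b h1, h.neg 1 le_rfl, h4, h3]
    simp
  · obtain ⟨j, rfl⟩ := Int.eq_ofNat_of_zero_le (a := n) (by omega)
    have h3 := h'.neg (j + 2) (by omega)
    rw [Bool.not_not] at h3
    have h4 : (j : ℤ) + 2 = ((j + 2 : ℕ) : ℤ) := by push_cast; ring
    rw [h.pos, h4, h3]
    push_cast
    ring

/-! ### Derivations -/

theorem pd_small {N : ℕ} (hN : t ^ N = 0) {F G : KK Bool A} {b : Bool} (h : IsPd t b F G) {K : ℕ}
    (hK : N ≤ K) (hF : F ∈ Pol Bool A (-((K + 2 : ℕ) : ℤ))) :
    G ∈ Pol Bool A (-((K + 1 : ℕ) : ℤ)) := by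
  have h0 : ∀ j : ℕ, j < K + 1 → (G b).coeff j = 0 := by
    intro j hj
    rw [h.pos, hF b _ (by push_cast; omega), mul_zero]
  intro c n hn
  rw [neg_neg] at hn
  rcases eq_or_not b c with rfl | rfl
  · rcases le_total 0 n with h1 | h1
    · obtain ⟨j, rfl⟩ := Int.eq_ofNat_of_zero_le h1
      exact h0 j (by omega)
    · obtain ⟨j, hj⟩ := Int.eq_ofNat_of_zero_le (neg_nonneg.2 h1)
      have h2 : n = -(j : ℤ) := by omega
      rcases Nat.eq_zero_or_pos j with rfl | h3
      · have h4 : n = ((0 : ℕ) : ℤ) := by omega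
        rw [h4]
        exact h0 0 (by omega)
      · rw [nt_neg h.mem c h2, h.neg j h3, mul_zero]
  · rcases lt_trichotomy n 0 with h1 | h1 | h1
    · obtain ⟨j, hj⟩ := Int.eq_ofNat_of_zero_le (a := -n) (by omega)
      have h2 : n = -(j : ℤ) := by omega
      rw [nt_neg h.mem _ h2, Bool.not_not]
      by_cases h3 : j < K + 1
      · rw [h0 j h3, mul_zero]
      · rw [pow_eq_zero_of_le (by omega) hN, zero_mul]
    · rw [h1, nt_zero h.mem]
      exact h0 0 (by omega)
    · obtain ⟨j, rfl⟩ := Int.eq_ofNat_of_zero_le (a := n) (by omega)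
      exact h.neg j (by omega)

theorem uv_mem_Pol (t : A) (b : Bool) : uv t b ∈ Pol Bool A 1 := by
  intro c n hn
  rcases eq_or_not b c with rfl | rfl
  · rw [uv_self, HahnSeries.coeff_single_of_ne (by omega)]
  · rw [uv_not, HahnSeries.coeff_single_of_ne (by omega)]

variable {M : Type} [AddCommGroup M] [Module A M] [Module (Nt t) M] [IsScalarTower A (Nt t) M]

omit [IsScalarTower A (Nt t) M] in
theorem smul_der_zero {N : ℕ} (hN : t ^ N = 0) (δ : Derivation A (Nt t) M) {K : ℕ}
    (hδ : ∀ x : Nt t, (x : KK Bool A) ∈ Pol Bool A (-(K : ℤ)) → δ x = 0) (hK : N ≤ K) {b : Bool}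
    {F G U : Nt t} (h : IsPd t b (F : KK Bool A) G)
    (hF : (F : KK Bool A) ∈ Pol Bool A (-((K + 2 : ℕ) : ℤ))) (c : Bool)
    (hU : (U : KK Bool A) = uv t c) : G • δ U = 0 := by
  have h1 := pd_small hN h hK hF
  have h2 : δ G = 0 := hδ G (Pol_mono (by push_cast; omega) h1)
  have h3 : δ (G * U) = 0 := by
    refine hδ _ ?_
    have h4 : ((G * U : Nt t) : KK Bool A) = (G : KK Bool A) * uv t c := by rw [← hU]; rfl
    rw [h4]
    exact Pol_mono (by push_cast; omega) (mul_mem_Pol h1 (uv_mem_Pol t c))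
  rw [δ.leibniz, h2, smul_zero, add_zero] at h3
  exact h3

theorem nt_small {N : ℕ} (hN : t ^ N = 0) {x : KK Bool A} (hx : x ∈ Nt t) {m : ℕ} (hm : N ≤ m)
    (h : ∀ (b : Bool) (j : ℕ), j < m → (x b).coeff j = 0) : x ∈ Pol Bool A (-(m : ℤ)) := by
  intro b n hn
  rw [neg_neg] at hn
  rcases le_total 0 n with h1 | h1
  · obtain ⟨j, rfl⟩ := Int.eq_ofNat_of_zero_le h1
    exact h b j (by omega)
  · obtain ⟨j, hj⟩ := Int.eq_ofNat_of_zero_le (neg_nonneg.2 h1)
    have h2 : n = -(j : ℤ) := by omega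
    rw [nt_neg hx b h2]
    by_cases h3 : j < m
    · rw [h _ j h3, mul_zero]
    · rw [pow_eq_zero_of_le (by omega) hN, zero_mul]

theorem coeff_smul_pow_self (b : Bool) (a : A) (j m : ℕ) :
    ((a • uv t b ^ j) b).coeff (m : ℤ) = if m = j then a else 0 := by
  rw [Pi.smul_apply, HahnSeries.coeff_smul, uv_pow_self, smul_eq_mul]
  split_ifs with h
  · rw [h, HahnSeries.coeff_single_same, mul_one]
  · rw [HahnSeries.coeff_single_of_ne (by omega), mul_zero]

theorem coeff_smul_pow_not (b : Bool) (a : A) (j m : ℕ) (h : 0 < j + m) :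
    ((a • uv t b ^ j) (!b)).coeff (m : ℤ) = 0 := by
  rw [Pi.smul_apply, HahnSeries.coeff_smul, uv_pow_not, HahnSeries.coeff_single_of_ne (by omega),
    smul_zero]

/-- The formula for derivations. -/
theorem der_formula {N : ℕ} (hN : t ^ N = 0) (δ : Derivation A (Nt t) M) (K : ℕ)
    (hδ : ∀ x : Nt t, (x : KK Bool A) ∈ Pol Bool A (-(K : ℤ)) → δ x = 0) (U V : Nt t)
    (hU : (U : KK Bool A) = uv t true) (hV : (V : KK Bool A) = uv t false) (F : Nt t) :
    ∀ G G' : Nt t, IsPd t true (F : KK Bool A) G → IsPd t false (F : KK Bool A) G' →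
      δ F = G • δ U + G' • δ V := by
  classical
  let P : Nt t → Prop := fun x => ∀ G G' : Nt t, IsPd t true (x : KK Bool A) G →
    IsPd t false (x : KK Bool A) G' → δ x = G • δ U + G' • δ V
  have hadd : ∀ x y, P x → P y → P (x + y) := by
    intro x y hx hy G G' h h'
    obtain ⟨G1, h1⟩ := exists_pd hN (x : KK Bool A) true
    obtain ⟨G2, h2⟩ := exists_pd hN (y : KK Bool A) true
    obtain ⟨G3, h3⟩ := exists_pd hN (x : KK Bool A) false
    obtain ⟨G4, h4⟩ := exists_pd hN (y : KK Bool A) false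
    have e1 : G = ⟨G1, h1.mem⟩ + ⟨G2, h2.mem⟩ := Subtype.ext (pd_unique h (pd_add h1 h2))
    have e2 : G' = ⟨G3, h3.mem⟩ + ⟨G4, h4.mem⟩ := Subtype.ext (pd_unique h' (pd_add h3 h4))
    rw [e1, e2, map_add, hx ⟨G1, h1.mem⟩ ⟨G3, h3.mem⟩ h1 h3, hy ⟨G2, h2.mem⟩ ⟨G4, h4.mem⟩ h2 h4,
      add_smul, add_smul]
    abel
  have hsmul : ∀ (a : A) x, P x → P (a • x) := by
    intro a x hx G G' h h'
    obtain ⟨G1, h1⟩ := exists_pd hN (x : KK Bool A) true
    obtain ⟨G3, h3⟩ := exists_pd hN (x : KK Bool A) false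
    have e1 : G = a • (⟨G1, h1.mem⟩ : Nt t) := Subtype.ext (pd_unique h (pd_smul a h1))
    have e2 : G' = a • (⟨G3, h3.mem⟩ : Nt t) := Subtype.ext (pd_unique h' (pd_smul a h3))
    rw [e1, e2, δ.map_smul, hx ⟨G1, h1.mem⟩ ⟨G3, h3.mem⟩ h1 h3, smul_add, smul_assoc, smul_assoc]
  have hzero : P 0 := by
    intro G G' h h'
    have e1 : G = 0 := Subtype.ext (pd_unique h (by
      have h1 := pd_smul (0 : A) h
      rw [zero_smul, zero_smul] at h1
      exact h1))
    have e2 : G' = 0 := Subtype.ext (pd_unique h' (by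
      have h1 := pd_smul (0 : A) h'
      rw [zero_smul, zero_smul] at h1
      exact h1))
    rw [e1, e2, map_zero, zero_smul, zero_smul, add_zero]
  have hsum : ∀ (s : Finset ℕ) (f : ℕ → Nt t), (∀ j, P (f j)) → P (∑ j ∈ s, f j) := by
    intro s f hf
    induction s using Finset.induction_on with
    | empty => rw [Finset.sum_empty]; exact hzero
    | insert a s ha ih => rw [Finset.sum_insert ha]; exact hadd _ _ (hf a) ih
  have hpow : ∀ (b : Bool) (W : Nt t), (W : KK Bool A) = uv t b → ∀ (j : ℕ) (G G' : Nt t),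
      IsPd t b ((W ^ j : Nt t) : KK Bool A) G → IsPd t (!b) ((W ^ j : Nt t) : KK Bool A) G' →
      δ (W ^ j) = G • δ W ∧ G' = 0 := by
    intro b W hW j G G' h h'
    have e0 : ((W ^ j : Nt t) : KK Bool A) = uv t b ^ j := by rw [← hW]; rfl
    rw [e0] at h h'
    have e1 : G = (j : A) • W ^ (j - 1) := by
      refine Subtype.ext (pd_unique h ?_)
      have h1 := pd_pow_self t b j
      rw [← hW] at h1 ⊢
      exact h1
    have e2 : G' = 0 := Subtype.ext (pd_unique h' (pd_pow_not t b j))
    refine ⟨?_, e2⟩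
    rw [e1, δ.leibniz_pow, smul_assoc, Nat.cast_smul_eq_nsmul]
  have hPU : ∀ j, P (U ^ j) := by
    intro j G G' h h'
    obtain ⟨h1, h2⟩ := hpow true U hU j G G' h h'
    rw [h1, h2, zero_smul, add_zero]
  have hPV : ∀ j, P (V ^ j) := by
    intro j G G' h h'
    obtain ⟨h1, h2⟩ := hpow false V hV j G' G h' h
    rw [h1, h2, zero_smul, zero_add]
  -- small elements
  have hδ' : ∀ x : Nt t, (x : KK Bool A) ∈ Pol Bool A (-((K + N : ℕ) : ℤ)) → δ x = 0 :=
    fun x hx => hδ x (Pol_mono (by push_cast; omega) hx)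
  have hPs : ∀ x : Nt t, (x : KK Bool A) ∈ Pol Bool A (-((K + N + 2 : ℕ) : ℤ)) → P x := by
    intro x hx G G' h h'
    rw [smul_der_zero hN δ hδ' (by omega) h hx true hU,
      smul_der_zero hN δ hδ' (by omega) h' hx false hV, add_zero]
    exact hδ x (Pol_mono (by push_cast; omega) hx)
  -- decomposition
  set n : ℕ := K + N + 2 with hn
  set x₁ : Nt t := ∑ j ∈ Finset.range n, ((F : KK Bool A) true).coeff (j : ℤ) • U ^ j with hx₁
  set x₂ : Nt t := ∑ j ∈ Finset.range n,
    ((F : KK Bool A) false).coeff ((j + 1 : ℕ) : ℤ) • V ^ (j + 1) with hx₂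
  have hP1 : P x₁ := hsum _ _ fun j => hsmul _ _ (hPU j)
  have hP2 : P x₂ := hsum _ _ fun j => hsmul _ _ (hPV (j + 1))
  have c1 : (x₁ : KK Bool A) =
      ∑ j ∈ Finset.range n, ((F : KK Bool A) true).coeff (j : ℤ) • uv t true ^ j := by
    rw [hx₁, AddSubmonoidClass.coe_finsetSum]
    refine Finset.sum_congr rfl fun j _ => ?_
    rw [← hU]
    rfl
  have c2 : (x₂ : KK Bool A) = ∑ j ∈ Finset.range n,
      ((F : KK Bool A) false).coeff ((j + 1 : ℕ) : ℤ) • uv t false ^ (j + 1) := by
    rw [hx₂, AddSubmonoidClass.coe_finsetSum]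
    refine Finset.sum_congr rfl fun j _ => ?_
    rw [← hV]
    rfl
  have hR : ((F - x₁ - x₂ : Nt t) : KK Bool A) ∈ Pol Bool A (-(n : ℤ)) := by
    have ht : ∀ m : ℕ, m < n → (((F - x₁ - x₂ : Nt t) : KK Bool A) true).coeff (m : ℤ) = 0 := by
      intro m hm
      have e1 : ((x₁ : KK Bool A) true).coeff (m : ℤ) = ((F : KK Bool A) true).coeff (m : ℤ) := by
        rw [c1, Finset.sum_apply, HahnSeries.coeff_sum]
        rw [Finset.sum_congr rfl fun j _ => coeff_smul_pow_self true _ j m,
          Finset.sum_ite_eq, if_pos (Finset.mem_range.2 hm)]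
      have e2 : ((x₂ : KK Bool A) true).coeff (m : ℤ) = 0 := by
        rw [c2, Finset.sum_apply, HahnSeries.coeff_sum]
        exact Finset.sum_eq_zero fun j _ => coeff_smul_pow_not false _ (j + 1) m (by omega)
      change (((F : KK Bool A) true - (x₁ : KK Bool A) true) -
        (x₂ : KK Bool A) true).coeff (m : ℤ) = 0
      rw [HahnSeries.coeff_sub, HahnSeries.coeff_sub, e1, e2, sub_self, sub_zero]
    have hf : ∀ m : ℕ, m < n → (((F - x₁ - x₂ : Nt t) : KK Bool A) false).coeff (m : ℤ) = 0 := by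
      intro m hm
      rcases Nat.eq_zero_or_pos m with rfl | hm0
      · have h1 := nt_zero (F - x₁ - x₂ : Nt t).2 true
        rw [Nat.cast_zero]
        exact h1.trans (ht 0 hm)
      · obtain ⟨k, rfl⟩ : ∃ k, m = k + 1 := ⟨m - 1, by omega⟩
        have e1 : ((x₁ : KK Bool A) false).coeff ((k + 1 : ℕ) : ℤ) = 0 := by
          rw [c1, Finset.sum_apply, HahnSeries.coeff_sum]
          exact Finset.sum_eq_zero fun j _ => coeff_smul_pow_not true _ j (k + 1) (by omega)
        have e2 : ((x₂ : KK Bool A) false).coeff ((k + 1 : ℕ) : ℤ) =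
            ((F : KK Bool A) false).coeff ((k + 1 : ℕ) : ℤ) := by
          rw [c2, Finset.sum_apply, HahnSeries.coeff_sum]
          rw [Finset.sum_congr rfl fun j _ => coeff_smul_pow_self false _ (j + 1) (k + 1)]
          simp only [Nat.add_right_cancel_iff]
          rw [Finset.sum_ite_eq, if_pos (Finset.mem_range.2 (by omega))]
        change (((F : KK Bool A) false - (x₁ : KK Bool A) false) -
          (x₂ : KK Bool A) false).coeff ((k + 1 : ℕ) : ℤ) = 0
        rw [HahnSeries.coeff_sub, HahnSeries.coeff_sub, e1, e2, sub_zero, sub_self]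
    refine nt_small hN (F - x₁ - x₂ : Nt t).2 (by omega) fun b j hj => ?_
    cases b
    · exact hf j hj
    · exact ht j hj
  have hfin : P ((F - x₁ - x₂) + (x₁ + x₂)) := hadd _ _ (hPs _ hR) (hadd _ _ hP1 hP2)
  have e : (F - x₁ - x₂) + (x₁ + x₂) = F := by abel
  rw [e] at hfin
  exact hfin

end PL0

open PL0 in
/-- PL0 -/
theorem t_PL0 : Stmt_PL0 := by
  intro A _ t N hN
  refine ⟨?_, ?_, uv_mem t, ?_, ?_, ?_, ?_, ?_⟩
  · intro m hm F hF b j
    by_cases h0 : m = 0
    · have h1 : (1 : A) = 0 := by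
        have h2 : N = 0 := by omega
        rw [h2, pow_zero] at hN
        exact hN
      have : Subsingleton A := subsingleton_of_zero_eq_one h1.symm
      exact Subsingleton.elim _ _
    · rw [hF b _ (by omega)]
      by_cases h3 : j < m
      · rw [hF _ _ (by omega), mul_zero]
      · rw [pow_eq_zero_of_le (by omega) hN, zero_mul]
  · intro a b hab
    obtain ⟨F, hF, h⟩ := exists_nt hN (fun c m => if c then PowerSeries.coeff m a else
      PowerSeries.coeff m b) (by
        intro c
        rw [← PowerSeries.coeff_zero_eq_constantCoeff_apply,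
          ← PowerSeries.coeff_zero_eq_constantCoeff_apply] at hab
        cases c <;> simp [hab])
    refine ⟨F, ⟨hF, fun j => ⟨?_, ?_⟩⟩, ?_⟩
    · rw [h, if_pos rfl]
    · rw [h]
      rfl
    · rintro F' ⟨hF', h'⟩
      refine nt_ext hF' hF fun c j => ?_
      rw [h]
      cases c
      · rw [(h' j).2]
        rfl
      · rw [(h' j).1, if_pos rfl]
  · funext b
    rw [Pi.mul_apply, Pi.algebraMap_apply]
    cases b
    · have h1 := uv_self t false
      have h2 := uv_not t true
      rw [Bool.not_true] at h2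
      rw [h1, h2, HahnSeries.single_mul_single, mul_one]
      rfl
    · have h1 := uv_self t true
      have h2 := uv_not t false
      rw [Bool.not_false] at h2
      rw [h1, h2, HahnSeries.single_mul_single, one_mul]
      rfl
  · intro F _ b
    exact exists_pd hN F b
  · intro F hF G G' h h'
    funext b
    cases b
    · have h1 := dd_comp hF h' h
      change ld (F false) = G false * ld (uv t true false) + G' false * ld (uv t false false)
      rw [h1, Bool.not_false, add_comm]
    · exact dd_comp hF h h'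
  · intro M _ _ _ _ δ K hδ F G G' U V h h' hU hV
    exact der_formula hN δ K hδ U V hU hV F G G' h h'
  · intro η
    have hvp : vp A * (fun b => HahnSeries.single 1 (if b then (1 : A) else -1)) = 1 := by
      funext b
      rw [Pi.mul_apply, vp, HahnSeries.single_mul_single]
      cases b
      · simp
      · simp
    constructor
    · intro h
      refine ⟨η * (fun b => HahnSeries.single 1 (if b then (1 : A) else -1)), ?_, ?_⟩
      · intro b j
        have h1 := h (uv t b ^ j) (pow_mem (uv_mem t b) j)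
        have e1 : ∀ (c : Bool) (n : ℤ), (((η * (fun b => HahnSeries.single (1 : ℤ)
            (if b then (1 : A) else -1)) : KK Bool A)) c).coeff n =
            (η c).coeff (n - 1) * (if c then 1 else -1) := by
          intro c n
          rw [Pi.mul_apply]
          have e2 : n = (n - 1) + 1 := by ring
          nth_rewrite 1 [e2]
          exact HahnSeries.coeff_mul_single_add
        have e3 : ((η * uv t b ^ j) b).coeff (-1) = (η b).coeff (-(j : ℤ) - 1) := by
          rw [Pi.mul_apply, uv_pow_self]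
          have e4 : (-1 : ℤ) = (-(j : ℤ) - 1) + j := by ring
          nth_rewrite 1 [e4]
          rw [HahnSeries.coeff_mul_single_add, mul_one]
        have e5 : ((η * uv t b ^ j) (!b)).coeff (-1) = (η (!b)).coeff ((j : ℤ) - 1) * t ^ j := by
          rw [Pi.mul_apply, uv_pow_not]
          have e4 : (-1 : ℤ) = ((j : ℤ) - 1) + -(j : ℤ) := by ring
          nth_rewrite 1 [e4]
          exact HahnSeries.coeff_mul_single_add
        have e6 : res (η * uv t b ^ j) = ((η * uv t b ^ j) b).coeff (-1) +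
            ((η * uv t b ^ j) (!b)).coeff (-1) := by
          change ∑ c, ((η * uv t b ^ j) c).coeff (-1) = _
          rw [Fintype.sum_bool]
          cases b
          · rw [Bool.not_false, add_comm]
          · rfl
        rw [e6, e3, e5] at h1
        rw [e1, e1]
        cases b
        · rw [Bool.not_false] at h1 ⊢
          rw [if_neg (by decide), if_pos rfl]
          linear_combination -h1
        · rw [Bool.not_true] at h1 ⊢
          rw [if_pos rfl, if_neg (by decide)]
          linear_combination h1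
      · rw [mul_assoc, mul_comm _ (vp A), hvp, mul_one]
    · rintro ⟨F, hF, rfl⟩ G hG
      have h1 : F * vp A * G = (F * G) * vp A := by ring
      rw [h1]
      have h2 := mul_mem hF hG
      have e1 : ∀ c : Bool, (((F * G) * vp A) c).coeff (-1) =
          ((F * G) c).coeff 0 * (if c then 1 else -1) := by
        intro c
        rw [Pi.mul_apply]
        have e2 : (-1 : ℤ) = 0 + -1 := by ring
        nth_rewrite 1 [e2]
        exact HahnSeries.coeff_mul_single_add
      change ∑ c, (((F * G) * vp A) c).coeff (-1) = 0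
      rw [Fintype.sum_bool, e1, e1, if_pos rfl, if_neg (by decide)]
      have h3 := nt_zero h2 true
      rw [Bool.not_true] at h3
      rw [h3]
      ring

end Pool.Agent.MG.G0
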