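import Pool.Agent.MG.G0.StmtsB

/-!
# Gap sections, discriminants and translations of `z`
-/

open Polynomial

namespace Pool.Agent.MG.G0

namespace PSK_

section

variable {A B : Type} [CommRing A] [CommRing B]

/-! ### Series with coefficients in an ideal -/

theorem mul_coeff_mem {I J : Ideal A} {f h : LaurentSeries A} (hf : ∀ m, f.coeff m ∈ I)
    (hh : ∀ m, h.coeff m ∈ J) (m : ℤ) : (f * h).coeff m ∈ I * J := by
  rw [HahnSeries.coeff_mul]
  exact Ideal.sum_mem _ fun ij _ => Ideal.mul_mem_mul (hf _) (hh _)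

theorem pow_coeff_mem {J : Ideal A} {a : LaurentSeries A} (ha : ∀ m, a.coeff m ∈ J) (n : ℕ) :
    ∀ m, (a ^ n).coeff m ∈ J ^ n := by
  induction n with
  | zero =>
    intro m
    rw [pow_zero, Ideal.one_eq_top]
    exact Submodule.mem_top
  | succ n ih =>
    intro m
    rw [pow_succ, pow_succ]
    exact mul_coeff_mem ih ha m

theorem nilp {J : Ideal A} (hJ : ∃ n : ℕ, J ^ n = ⊥) {a : LaurentSeries A}
    (ha : ∀ m, a.coeff m ∈ J) : IsNilpotent a := by
  obtain ⟨n, hn⟩ := hJ
  refine ⟨n, ?_⟩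
  ext m
  have h := pow_coeff_mem ha n m
  rw [hn] at h
  rw [HahnSeries.coeff_zero]
  exact h

/-! ### Gap sections -/

/-- Elements of `R` with the same coefficients outside of the gaps are equal. -/
theorem GS.eq_of {Γ : Finset ℕ} {R : Subalgebra A (LaurentSeries A)} (h : GS Γ R)
    {p q : LaurentSeries A} (hp : p ∈ R) (hq : q ∈ R)
    (hpq : ∀ n : ℕ, n ∉ Γ → p.coeff (-(n : ℤ)) = q.coeff (-(n : ℤ))) : p = q := by
  obtain ⟨r, -, hr⟩ := h.2 p
  have h1 := hr p ⟨hp, fun n _ => by rw [sub_self, HahnSeries.coeff_zero]⟩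
  have h2 := hr q ⟨hq, fun n hn => by rw [HahnSeries.coeff_sub, hpq n hn, sub_self]⟩
  rw [h1, h2]

/-- The element of `R` with given coefficients outside of the gaps. -/
theorem GS.exists_sum {Γ : Finset ℕ} {R : Subalgebra A (LaurentSeries A)} (h : GS Γ R) :
    ∃ e : ℕ → LaurentSeries A, (∀ n, e n ∈ R) ∧ ∀ f : LaurentSeries A, ∃ N : ℕ,
      (∀ n : ℕ, n ∉ Γ → (f - ∑ i ∈ Finset.range N \ Γ, f.coeff (-(i : ℤ)) • e i).coeff
        (-(n : ℤ)) = 0) := by
  choose e he _ using fun n => h.ech n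
  refine ⟨e, fun n => (he n).mem, fun f => ?_⟩
  obtain ⟨N, hN⟩ := exists_low f
  refine ⟨N + 1, fun n hn => ?_⟩
  rw [HahnSeries.coeff_sub, HahnSeries.coeff_sum]
  have h1 : ∀ i ∈ Finset.range (N + 1) \ Γ, (f.coeff (-(i : ℤ)) • e i).coeff (-(n : ℤ)) =
      if n = i then f.coeff (-(n : ℤ)) else 0 := by
    intro i _
    rw [HahnSeries.coeff_smul, (he i).co n hn, smul_eq_mul]
    split_ifs with h2
    · rw [mul_one, h2]
    · rw [mul_zero]
  rw [Finset.sum_congr rfl h1, Finset.sum_ite_eq]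
  split_ifs with h2
  · rw [sub_self]
  · have h3 : N + 1 ≤ n := by
      by_contra hc
      exact h2 (Finset.mem_sdiff.2 ⟨Finset.mem_range.2 (by omega), hn⟩)
    rw [hN _ (by omega), sub_zero]

theorem sum_mem_R {R : Subalgebra A (LaurentSeries A)} {e : ℕ → LaurentSeries A}
    (he : ∀ n, e n ∈ R) (S : Finset ℕ) (c : ℕ → A) : ∑ i ∈ S, c i • e i ∈ R :=
  Subalgebra.sum_mem _ fun i _ => R.smul_mem (he i) _

theorem sum_coeff_mem {I : Ideal A} {e : ℕ → LaurentSeries A} (S : Finset ℕ) (c : ℕ → A)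
    (hc : ∀ i ∈ S, c i ∈ I) (m : ℤ) : (∑ i ∈ S, c i • e i).coeff m ∈ I := by
  rw [HahnSeries.coeff_sum]
  refine Ideal.sum_mem _ fun i hi => ?_
  rw [HahnSeries.coeff_smul, smul_eq_mul]
  exact I.mul_mem_right _ (hc i hi)

/-- An `A`-linear map which is congruent to the identity modulo `J` on series with coefficients
in `J ^ i`. -/
theorem near_id {I J : Ideal A} (ψ : LaurentSeries A →ₗ[A] LaurentSeries A)
    (hψ : ∀ f m, (ψ f - f).coeff m ∈ J) {e : ℕ → LaurentSeries A} (S : Finset ℕ) (c : ℕ → A)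
    (hc : ∀ i ∈ S, c i ∈ I) (m : ℤ) :
    (ψ (∑ i ∈ S, c i • e i) - ∑ i ∈ S, c i • e i).coeff m ∈ I * J := by
  rw [map_sum, ← Finset.sum_sub_distrib, HahnSeries.coeff_sum]
  refine Ideal.sum_mem _ fun i hi => ?_
  rw [map_smul, ← smul_sub, HahnSeries.coeff_smul, smul_eq_mul]
  exact Ideal.mul_mem_mul (hc i hi) (hψ _ _)

theorem gs_map {J : Ideal A} (hJ : ∃ n : ℕ, J ^ n = ⊥)
    (ψ : LaurentSeries A →ₗ[A] LaurentSeries A) (hψ : ∀ f m, (ψ f - f).coeff m ∈ J)
    {Γ : Finset ℕ} {R R' : Subalgebra A (LaurentSeries A)}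
    (hR' : ∀ x, x ∈ R' ↔ ∃ y ∈ R, x = ψ y) (h : GS Γ R) : GS Γ R' := by
  obtain ⟨n₀, hn₀⟩ := hJ
  obtain ⟨e, he, hsum⟩ := GS.exists_sum h
  refine ⟨h.1, fun f => ?_⟩
  have hex : ∀ i : ℕ, ∃ y ∈ R, ∃ f' : LaurentSeries A, (∀ m, f'.coeff m ∈ J ^ i) ∧
      ∀ n : ℕ, n ∉ Γ → (f - ψ y - f').coeff (-(n : ℤ)) = 0 := by
    intro i
    induction i with
    | zero =>
      refine ⟨0, zero_mem R, f, fun m => ?_, fun n _ => ?_⟩
      · rw [pow_zero, Ideal.one_eq_top]
        exact Submodule.mem_top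
      · rw [map_zero, sub_zero, sub_self, HahnSeries.coeff_zero]
    | succ i ih =>
      obtain ⟨y, hy, f', hf', hn⟩ := ih
      obtain ⟨N, hN⟩ := hsum f'
      set p := ∑ i ∈ Finset.range N \ Γ, f'.coeff (-(i : ℤ)) • e i with hp
      refine ⟨y + p, add_mem hy (sum_mem_R he _ _), -(ψ p - p), fun m => ?_, fun n hnΓ => ?_⟩
      · rw [HahnSeries.coeff_neg, pow_succ]
        exact neg_mem (near_id ψ hψ _ _ (fun i _ => hf' _) m)
      · have h1 : f - ψ (y + p) - -(ψ p - p) = (f - ψ y - f') + (f' - p) := by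
          rw [map_add]
          abel
        rw [h1, HahnSeries.coeff_add, hn n hnΓ, hN n hnΓ, add_zero]
  have huni : ∀ y ∈ R, (∀ n : ℕ, n ∉ Γ → (ψ y).coeff (-(n : ℤ)) = 0) → y = 0 := by
    intro y hy hyn
    have key : ∀ i : ℕ, ∀ m, y.coeff m ∈ J ^ i := by
      intro i
      induction i with
      | zero =>
        intro m
        rw [pow_zero, Ideal.one_eq_top]
        exact Submodule.mem_top
      | succ i ih =>
        obtain ⟨N, hN⟩ := hsum y
        have hyp : y = ∑ i ∈ Finset.range N \ Γ, y.coeff (-(i : ℤ)) • e i := by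
          refine GS.eq_of h hy (sum_mem_R he _ _) fun n hn => ?_
          have h1 := hN n hn
          rw [HahnSeries.coeff_sub, sub_eq_zero] at h1
          exact h1
        have h2 : ∀ n : ℕ, n ∉ Γ → y.coeff (-(n : ℤ)) ∈ J ^ (i + 1) := by
          intro n hn
          have h3 := near_id (I := J ^ i) ψ hψ (e := e) (Finset.range N \ Γ)
            (fun i => y.coeff (-(i : ℤ))) (fun j _ => ih _) (-(n : ℤ))
          rw [← hyp, HahnSeries.coeff_sub, hyn n hn, zero_sub, ← pow_succ] at h3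
          exact neg_mem_iff.1 h3
        intro m
        rw [hyp]
        refine sum_coeff_mem _ _ (fun j hj => h2 j ?_) m
        exact (Finset.mem_sdiff.1 hj).2
    ext m
    have h1 := key n₀ m
    rw [hn₀] at h1
    rw [HahnSeries.coeff_zero]
    exact h1
  obtain ⟨y, hy, f', hf', hn⟩ := hex n₀
  have hf0 : f' = 0 := by
    ext m
    have h1 := hf' m
    rw [hn₀] at h1
    rw [HahnSeries.coeff_zero]
    exact h1
  rw [hf0] at hn
  refine ⟨ψ y, ⟨(hR' _).2 ⟨y, hy, rfl⟩, fun n hnΓ => ?_⟩, ?_⟩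
  · have h1 := hn n hnΓ
    rwa [sub_zero] at h1
  · rintro q ⟨hq, hqn⟩
    obtain ⟨y', hy', rfl⟩ := (hR' _).1 hq
    have h1 : y' - y = 0 := by
      refine huni _ (sub_mem hy' hy) fun n hnΓ => ?_
      have h2 := hn n hnΓ
      have h3 := hqn n hnΓ
      rw [sub_zero, HahnSeries.coeff_sub, sub_eq_zero] at h2
      rw [HahnSeries.coeff_sub, sub_eq_zero] at h3
      rw [map_sub, HahnSeries.coeff_sub, ← h2, ← h3, sub_self]
    rw [sub_eq_zero.1 h1]

/-! ### The translation as a homomorphism -/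

/-- The translation as an algebra homomorphism. -/
noncomputable def psiA (d : ℕ) (a : LaurentSeries A) (h1 : psi d a 1 = 1)
    (hm : ∀ f h, psi d a (f * h) = psi d a f * psi d a h) :
    LaurentSeries A →ₐ[A] LaurentSeries A :=
  AlgHom.ofLinearMap (psi d a) h1 hm

theorem psiA_apply (d : ℕ) (a : LaurentSeries A) (h1 : psi d a 1 = 1)
    (hm : ∀ f h, psi d a (f * h) = psi d a f * psi d a h) (f : LaurentSeries A) :
    psiA d a h1 hm f = psi d a f := rfl

theorem psiR_eq (d : ℕ) (a : LaurentSeries A) (h1 : psi d a 1 = 1)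
    (hm : ∀ f h, psi d a (f * h) = psi d a f * psi d a h) (R : Subalgebra A (LaurentSeries A)) :
    psiR d a R = R.map (psiA d a h1 hm) := by
  apply le_antisymm
  · refine Algebra.adjoin_le ?_
    rintro _ ⟨y, hy, rfl⟩
    exact Subalgebra.mem_map.2 ⟨y, hy, rfl⟩
  · intro x hx
    obtain ⟨y, hy, hyx⟩ := Subalgebra.mem_map.1 hx
    exact Algebra.subset_adjoin ⟨y, hy, hyx⟩

theorem mem_psiR (d : ℕ) (a : LaurentSeries A) (h1 : psi d a 1 = 1)
    (hm : ∀ f h, psi d a (f * h) = psi d a f * psi d a h) (R : Subalgebra A (LaurentSeries A))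
    (x : LaurentSeries A) : x ∈ psiR d a R ↔ ∃ y ∈ R, x = psi d a y := by
  rw [psiR_eq d a h1 hm, Subalgebra.mem_map]
  exact ⟨fun ⟨y, hy, h⟩ => ⟨y, hy, h.symm⟩, fun ⟨y, hy, h⟩ => ⟨y, hy, h.symm⟩⟩

/-- Base change of the image: generators. -/
theorem bc1_psiR (d : ℕ) (a : LaurentSeries A) (h1 : psi d a 1 = 1)
    (hm : ∀ f h, psi d a (f * h) = psi d a f * psi d a h) (φ : A →+* B)
    (R : Subalgebra A (LaurentSeries A)) :
    bc1 φ (psiR d a R) = Algebra.adjoin B ((fun y => lmap φ (psi d a y)) ''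
      (R : Set (LaurentSeries A))) := by
  unfold bc1
  congr 1
  ext x
  constructor
  · rintro ⟨z, hz, rfl⟩
    obtain ⟨y, hy, rfl⟩ := (mem_psiR d a h1 hm R z).1 hz
    exact ⟨y, hy, rfl⟩
  · rintro ⟨y, hy, rfl⟩
    exact ⟨psi d a y, (mem_psiR d a h1 hm R _).2 ⟨y, hy, rfl⟩, rfl⟩

/-! ### Translations of polynomials -/

/-- `p ↦ p(X + α)`. -/
noncomputable def TA (α : A[X]) : A[X] →ₐ[A] A[X] := Polynomial.aeval (X + α)

theorem TA_apply (α p : A[X]) : TA α p = p.comp (X + α) := by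
  rw [TA, Polynomial.aeval_def, Polynomial.comp, Polynomial.algebraMap_eq]

theorem TA_X (α : A[X]) : TA α X = X + α := by
  rw [TA, Polynomial.aeval_X]

theorem pol_coeff_mul {J : Ideal A} (p q : A[X]) (hp : ∀ i, p.coeff i ∈ J) :
    ∀ i, (p * q).coeff i ∈ J := by
  intro i
  rw [Polynomial.coeff_mul]
  exact Ideal.sum_mem _ fun x _ => J.mul_mem_right _ (hp _)

theorem TA_sub {J : Ideal A} {α : A[X]} (hα : ∀ i, α.coeff i ∈ J) (p : A[X]) :
    ∀ i, (TA α p - p).coeff i ∈ J := by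
  induction p using Polynomial.induction_on' with
  | add p q hp hq =>
    intro i
    have h1 : TA α (p + q) - (p + q) = (TA α p - p) + (TA α q - q) := by
      rw [map_add]
      ring
    rw [h1, Polynomial.coeff_add]
    exact add_mem (hp i) (hq i)
  | monomial n c =>
    intro i
    have h1 : TA α (monomial n c) - monomial n c = C c * ((X + α) ^ n - X ^ n) := by
      rw [TA, Polynomial.aeval_monomial, ← Polynomial.C_mul_X_pow_eq_monomial,
        Polynomial.algebraMap_eq]
      ring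
    obtain ⟨q, hq⟩ : (X + α) - X ∣ (X + α) ^ n - X ^ n := sub_dvd_pow_sub_pow _ _ n
    have h2 : (X + α) - X = α := by ring
    rw [h2] at hq
    rw [h1, hq, Polynomial.coeff_C_mul]
    exact J.mul_mem_left _ (pol_coeff_mul α q hα i)

theorem TA_near {I J : Ideal A} {α : A[X]} (hα : ∀ i, α.coeff i ∈ J) (p : A[X])
    (hp : ∀ i, p.coeff i ∈ I) : ∀ i, (TA α p - p).coeff i ∈ I * J := by
  intro i
  have h1 : TA α p - p = ∑ n ∈ p.support, p.coeff n • (TA α (X ^ n) - X ^ n) := by
    conv_lhs => rw [p.as_sum_support]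
    rw [map_sum, ← Finset.sum_sub_distrib]
    refine Finset.sum_congr rfl fun n _ => ?_
    have h2 : (monomial n (p.coeff n) : A[X]) = p.coeff n • X ^ n := by
      rw [Polynomial.smul_X_eq_monomial]
    rw [h2, map_smul, smul_sub]
  rw [h1, Polynomial.finsetSum_coeff]
  refine Ideal.sum_mem _ fun n _ => ?_
  rw [Polynomial.coeff_smul, smul_eq_mul]
  exact Ideal.mul_mem_mul (hp n) (TA_sub hα _ i)

theorem TA_bij {J : Ideal A} (hJ : ∃ n : ℕ, J ^ n = ⊥) {α : A[X]} (hα : ∀ i, α.coeff i ∈ J) :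
    Function.Bijective (TA α) := by
  obtain ⟨n₀, hn₀⟩ := hJ
  constructor
  · rw [injective_iff_map_eq_zero]
    intro p hp
    have key : ∀ i : ℕ, ∀ j, p.coeff j ∈ J ^ i := by
      intro i
      induction i with
      | zero =>
        intro j
        rw [pow_zero, Ideal.one_eq_top]
        exact Submodule.mem_top
      | succ i ih =>
        intro j
        have h1 := TA_near hα p ih j
        rw [hp, zero_sub, Polynomial.coeff_neg, ← pow_succ] at h1
        exact neg_mem_iff.1 h1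
    ext j
    have h1 := key n₀ j
    rw [hn₀] at h1
    rw [Polynomial.coeff_zero]
    exact h1
  · intro p
    have key : ∀ i : ℕ, ∃ q : A[X], ∀ j, (p - TA α q).coeff j ∈ J ^ i := by
      intro i
      induction i with
      | zero =>
        refine ⟨0, fun j => ?_⟩
        rw [pow_zero, Ideal.one_eq_top]
        exact Submodule.mem_top
      | succ i ih =>
        obtain ⟨q, hq⟩ := ih
        refine ⟨q + (p - TA α q), fun j => ?_⟩
        have h1 := TA_near hα (p - TA α q) hq j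
        have h2 : p - TA α (q + (p - TA α q)) = -(TA α (p - TA α q) - (p - TA α q)) := by
          rw [map_add]
          ring
        rw [h2, Polynomial.coeff_neg, pow_succ]
        exact neg_mem h1
    obtain ⟨q, hq⟩ := key n₀
    refine ⟨q, ?_⟩
    have h1 : p - TA α q = 0 := by
      ext j
      have h2 := hq j
      rw [hn₀] at h2
      rw [Polynomial.coeff_zero]
      exact h2
    exact (sub_eq_zero.1 h1).symm

theorem zpol_coeff_mem {J : Ideal A} (d : ℕ) {α : A[X]} (hα : ∀ i, α.coeff i ∈ J) (m : ℤ) :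
    (zpol A d α).coeff m ∈ J := by
  have h1 : zpol A d α = ∑ n ∈ α.support, α.coeff n • zz A d ^ n := by
    rw [zpol, Polynomial.aeval_eq_sum_range]
    rw [Finset.sum_subset (Polynomial.supp_subset_range_natDegree_succ (p := α)) ?_]
    intro n _ hn
    rw [Polynomial.notMem_support_iff.1 hn, zero_smul]
  rw [h1, HahnSeries.coeff_sum]
  refine Ideal.sum_mem _ fun n _ => ?_
  rw [HahnSeries.coeff_smul, smul_eq_mul]
  exact J.mul_mem_right _ (hα n)

theorem pr0_one (d : ℕ) : pr0 A d 1 = 1 := by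
  ext m
  rw [pr0_coeff, HahnSeries.coeff_one]
  split_ifs with h1 h2 h3
  · rfl
  · rfl
  · rw [h3] at h1
    exact absurd (dvd_zero _) h1
  · rfl

theorem pr0_zpol (d : ℕ) (p : A[X]) : pr0 A d (zpol A d p) = zpol A d p := by
  have h1 := pr0_zpol_mul (A := A) d p 1
  rw [mul_one, pr0_one, mul_one] at h1
  exact h1

/-- Discriminants. -/
theorem disc_map {d : ℕ} {J : Ideal A} (hJ : ∃ n : ℕ, J ^ n = ⊥) {α : A[X]}
    (hα : ∀ i, α.coeff i ∈ J) (ψ : LaurentSeries A →ₐ[A] LaurentSeries A)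
    (hz : ψ (zz A d) = zz A d + zpol A d α) (hinj : Function.Injective ψ)
    (hpr : ∀ f, pr0 A d (ψ f) = ψ (pr0 A d f)) (R : Subalgebra A (LaurentSeries A))
    (hR : zz A d ∈ R) :
    zz A d ∈ R.map ψ ∧ ∀ f : A[X], Disc d R f → Disc d (R.map ψ) (f.comp (X + α)) := by
  have hψz : ∀ p : A[X], ψ (zpol A d p) = zpol A d (TA α p) := by
    intro p
    have h1 : ψ.comp (zpol A d) = (zpol A d).comp (TA α) := by
      apply Polynomial.algHom_ext
      rw [AlgHom.comp_apply, AlgHom.comp_apply, TA_X, map_add, zpol, Polynomial.aeval_X, hz]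
      rfl
    exact congrArg (fun F => F p) h1
  have hzp : ∀ p : A[X], zpol A d p ∈ R := by
    intro p
    rw [zpol]
    exact (Algebra.adjoin_le (Set.singleton_subset_iff.2 hR))
      (Polynomial.aeval_mem_adjoin_singleton A (zz A d))
  obtain ⟨hTi, hTs⟩ := TA_bij hJ hα
  constructor
  · obtain ⟨q, hq⟩ := hTs X
    refine Subalgebra.mem_map.2 ⟨zpol A d q, hzp q, ?_⟩
    have h1 := hψz q
    rw [hq, zpol, Polynomial.aeval_X] at h1
    exact h1
  · rintro f ⟨e, G, he, hG, u, hu, hdet⟩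
    refine ⟨fun i => ψ (e i), G.map (TA α), ⟨fun i => Subalgebra.mem_map.2 ⟨e i, he.mem i, rfl⟩, ?_⟩,
      ?_, TA α u, hu.map (TA α), ?_⟩
    · intro x hx
      obtain ⟨y, hy, hyx⟩ := Subalgebra.mem_map.1 hx
      obtain ⟨c, hc, hcu⟩ := he.uni y hy
      refine ⟨fun i => TA α (c i), ?_, ?_⟩
      · change x = ∑ i, zpol A d (TA α (c i)) * ψ (e i)
        have hyx' : ψ y = x := hyx
        rw [← hyx', hc, map_sum]
        refine Finset.sum_congr rfl fun i _ => ?_
        rw [map_mul, hψz]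
      · intro c' hc'
        choose b hb using fun i => hTs (c' i)
        have h1 : x = ψ (∑ i, zpol A d (b i) * e i) := by
          rw [map_sum]
          rw [hc']
          refine Finset.sum_congr rfl fun i _ => ?_
          rw [map_mul, hψz, hb]
        have h2 : y = ∑ i, zpol A d (b i) * e i := by
          apply hinj
          rw [← h1]
          exact hyx
        have h3 := hcu b h2
        funext i
        rw [← hb i, h3]
    · intro i j
      rw [Matrix.map_apply, ← hψz, hG i j, ← hpr, map_mul]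
    · have h1 : (G.map (TA α)).det = TA α G.det := by
        have := (TA α).map_det G
        rw [this]
        rfl
      rw [h1, hdet, map_mul, TA_apply α f]

end

end PSK_

open PSK_ in
theorem t_PSK (hPSI : Stmt_PSI) : Stmt_PSK := by
  intro A _ d hd hdu J hJ
  obtain ⟨-, -, -, -, h5⟩ := hPSI d hd hdu
  constructor
  · intro a ha
    have hnil := nilp hJ ha
    obtain ⟨hmul, hone, hzz, hbij, hcoef, hpr, hbc, -⟩ := h5 a hnil
    refine ⟨hnil, fun R => ⟨mem_psiR d a hone hmul R, fun Γ hΓ => ?_, ?_, ?_⟩⟩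
    · exact gs_map hJ (psi d a) (hcoef J ha) (mem_psiR d a hone hmul R) hΓ
    · intro B _ φ
      have hdB : IsUnit ((d : ℕ) : B) := by
        have := hdu.map φ
        rwa [map_natCast] at this
      obtain ⟨-, -, -, -, h5B⟩ := hPSI (A := B) d hd hdB
      obtain ⟨hmulB, honeB, -⟩ := h5B (lmap φ a) (hnil.map (lmap φ))
      rw [bc1_psiR d a hone hmul, psiR_eq d (lmap φ a) honeB hmulB]
      unfold bc1
      rw [AlgHom.map_adjoin, ← Set.image_comp]
      congr 1
      ext x
      constructor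
      · rintro ⟨y, hy, rfl⟩
        exact ⟨y, hy, (hbc φ y).symm⟩
      · rintro ⟨y, hy, rfl⟩
        exact ⟨y, hy, hbc φ y⟩
    · intro B _ φ hφ
      rw [bc1_psiR d a hone hmul]
      unfold bc1
      congr 1
      have h1 : ∀ y, lmap φ (psi d a y) = lmap φ y := by
        intro y
        ext m
        rw [lmap_coeff, lmap_coeff]
        have h2 := hφ _ (hcoef J ha y m)
        rw [HahnSeries.coeff_sub, map_sub, sub_eq_zero] at h2
        exact h2
      ext x
      constructor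
      · rintro ⟨y, hy, rfl⟩
        exact ⟨y, hy, (h1 y).symm⟩
      · rintro ⟨y, hy, rfl⟩
        exact ⟨y, hy, h1 y⟩
  · intro α hα R hR
    have ha : ∀ m, (zpol A d α).coeff m ∈ J := zpol_coeff_mem d hα
    have hnil := nilp hJ ha
    obtain ⟨hmul, hone, hzz, hbij, hcoef, hpr, hbc, -⟩ := h5 (zpol A d α) hnil
    rw [psiR_eq d (zpol A d α) hone hmul]
    exact disc_map hJ hα (psiA d (zpol A d α) hone hmul) hzz hbij.1
      (hpr (pr0_zpol d α)) R hR

end Pool.Agent.MG.G0
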