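import Pool.Agent.MG.G0.StmtsNB
import Pool.Agent.MG.G0.PSK
import Pool.Agent.MG.G0.NPO
import Pool.Agent.MG.G0.PL0
import Pool.Agent.MG.G0.KFL

/-!
# NPB: the local structure at a node over an artinian base
-/

open Polynomial

namespace Pool.Agent.MG.G0

namespace NPB

section

variable {A B κ : Type} [CommRing A] [CommRing B] [Field κ]

theorem psl_C (a : A) : psl A (PowerSeries.C a) = algebraMap A (LaurentSeries A) a :=
  HahnSeries.ofPowerSeries_C a

theorem psl_X : psl A PowerSeries.X = HahnSeries.single 1 1 := HahnSeries.ofPowerSeries_X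

theorem lmap_psl (φ : A →+* B) (f : PowerSeries A) :
    lmap φ (psl A f) = psl B (PowerSeries.map φ f) := by
  ext m
  rw [lmap_coeff]
  rcases lt_or_ge m 0 with h | h
  · rw [NPO.coeff_psl_neg _ h, NPO.coeff_psl_neg _ h, map_zero]
  · obtain ⟨n, rfl⟩ := Int.eq_ofNat_of_zero_le h
    rw [NPO.coeff_psl, NPO.coeff_psl, PowerSeries.coeff_map]

theorem isUnit_of_rs {φ : A →+* κ} (hφ : Function.Surjective φ)
    (hn : ∃ n : ℕ, RingHom.ker φ ^ n = ⊥) {a : A} (ha : φ a ≠ 0) : IsUnit a := by
  obtain ⟨N, hN⟩ := hn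
  obtain ⟨b, hb⟩ := hφ (φ a)⁻¹
  have h3 : 1 - a * b ∈ RingHom.ker φ := by
    rw [RingHom.mem_ker, map_sub, map_one, map_mul, hb, mul_inv_cancel₀ ha, sub_self]
  have h4 : IsNilpotent (1 - a * b) := by
    refine ⟨N, ?_⟩
    have h5 := Ideal.pow_mem_pow h3 N
    rw [hN] at h5
    exact h5
  have h5 : IsUnit (a * b) := by
    have h6 := h4.isUnit_one_sub
    rw [sub_sub_cancel] at h6
    exact h6
  exact isUnit_of_mul_isUnit_left h5

theorem isUnit_of_lmap {φ : A →+* κ} (hφ : Function.Surjective φ)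
    (hn : ∃ n : ℕ, RingHom.ker φ ^ n = ⊥) {x : LaurentSeries A} (hx : lmap φ x ≠ 0) :
    IsUnit x := by
  obtain ⟨w, hw⟩ := KFL.kmap_surj (I := Unit) hφ fun _ => (lmap φ x)⁻¹
  have hw' : lmap φ (w ()) = (lmap φ x)⁻¹ := congrFun hw ()
  have h1 : lmap φ (1 - x * w ()) = 0 := by
    rw [map_sub, map_one, map_mul, hw', mul_inv_cancel₀ hx, sub_self]
  have h2 : IsNilpotent (1 - x * w ()) := by
    refine PSK_.nilp hn fun m => ?_
    rw [RingHom.mem_ker, ← lmap_coeff, h1, HahnSeries.coeff_zero]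
  have h3 := h2.isUnit_one_sub
  rw [sub_sub_cancel] at h3
  exact isUnit_of_mul_isUnit_left h3

/-- `A[z] → A[[s]]`. -/
noncomputable def zevP (c : A) : A[X] →ₐ[A] PowerSeries A :=
  aeval (PowerSeries.C c + PowerSeries.X)

theorem psl_zevP (c : A) (p : A[X]) : psl A (zevP c p) = zev c p := by
  have h : (psl A).comp (zevP c : A[X] →+* PowerSeries A) = (zev c : A[X] →+* LaurentSeries A) := by
    refine Polynomial.ringHom_ext (fun a => ?_) ?_
    · change psl A (zevP c (C a)) = zev c (C a)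
      rw [zevP, zev, aeval_C, aeval_C]
      exact psl_C a
    · change psl A (zevP c X) = zev c X
      rw [zevP, zev, aeval_X, aeval_X, map_add, psl_C, psl_X]
  exact congrArg (fun F => F p) h

theorem const_zevP (c : A) (p : A[X]) : PowerSeries.constantCoeff (zevP c p) = p.eval c := by
  have h : (PowerSeries.constantCoeff (R := A)).comp (zevP c : A[X] →+* PowerSeries A) =
      (evalRingHom c) := by
    refine Polynomial.ringHom_ext (fun a => ?_) ?_
    · change PowerSeries.constantCoeff (zevP c (C a)) = eval c (C a)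
      rw [zevP, aeval_C, eval_C]
      exact PowerSeries.constantCoeff_C a
    · change PowerSeries.constantCoeff (zevP c X) = eval c X
      rw [zevP, aeval_X, eval_X, map_add, PowerSeries.constantCoeff_C,
        PowerSeries.constantCoeff_X, add_zero]
  exact congrArg (fun F => F p) h

theorem zev_map (φ : A →+* B) (c : A) (p : A[X]) : lmap φ (zev c p) = zev (φ c) (p.map φ) := by
  have h : (lmap φ).comp (zev c : A[X] →+* LaurentSeries A) =
      (zev (φ c) : B[X] →+* LaurentSeries B).comp (mapRingHom φ) := by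
    refine Polynomial.ringHom_ext (fun a => ?_) ?_
    · change lmap φ (zev c (C a)) = zev (φ c) ((C a).map φ)
      rw [zev, zev, map_C, aeval_C, aeval_C, lmap_algebraMap]
    · change lmap φ (zev c X) = zev (φ c) (map φ X)
      rw [zev, zev, map_X, aeval_X, aeval_X, map_add, lmap_algebraMap, lmap_single, map_one]
  exact congrArg (fun F => F p) h

/-- The conclusion from `T = A[[s]] + A[[s]] y` and the comparison of the discriminants. -/
theorem key {φ : A →+* κ} (hφ : Function.Surjective φ) (hn : ∃ n : ℕ, RingHom.ker φ ^ n = ⊥)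
    (h2 : (2 : κ) ≠ 0) {P : Type} [CommRing P] {Ψ : Bool → (P →+* LaurentSeries A)} {y : P}
    {W : PowerSeries A} (hW : IsUnit W) {y₀ : LaurentSeries A}
    (hy₀ : lmap φ y₀ = HahnSeries.single 1 1)
    (hT : ∀ x : P, ∃ a b : PowerSeries A, ∀ β : Bool, Ψ β x = psl A a + psl A b * Ψ β y)
    (hs : ∃ τ : PowerSeries A, Ψ true y + Ψ false y = psl A τ)
    (hβ : ∃ β : PowerSeries A, psl A W * (y₀ * y₀) = psl A β * (Ψ true y - Ψ false y) ^ 2)
    {a' : PowerSeries κ} (ha' : PowerSeries.constantCoeff a' ≠ 0)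
    (hη : lmap φ (Ψ true y - Ψ false y) = HahnSeries.single 1 1 * psl κ a') (x : P) :
    ∃ a b : PowerSeries A, ∀ β : Bool,
      Ψ β x = psl A a + if β then psl A b * y₀ else -(psl A b * y₀) := by
  set η := Ψ true y - Ψ false y with hηd
  have hs1 : (HahnSeries.single 1 1 : LaurentSeries κ) ≠ 0 :=
    HahnSeries.single_ne_zero one_ne_zero
  have ha'u : IsUnit a' := PowerSeries.isUnit_iff_constantCoeff.2 (IsUnit.mk0 _ ha')
  obtain ⟨w', hw'⟩ := ha'u.exists_right_inv
  have hηu : IsUnit η := by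
    refine isUnit_of_lmap hφ hn ?_
    rw [hη]
    refine mul_ne_zero hs1 ?_
    exact ((ha'u.map (psl κ)).ne_zero)
  obtain ⟨η', hη'⟩ := hηu.exists_right_inv
  set γ := y₀ * η' with hγ
  have hγη : γ * η = y₀ := by
    rw [hγ, mul_assoc, mul_comm η', hη', mul_one]
  -- the reduction of `γ`
  have hγr : lmap φ γ = psl κ w' := by
    have h1 : lmap φ γ * (HahnSeries.single 1 1 * psl κ a') = HahnSeries.single 1 1 := by
      rw [← hη, ← map_mul, hγη, hy₀]
    have h3 : psl κ a' * psl κ w' = 1 := by rw [← map_mul, hw', map_one]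
    have h4 : (HahnSeries.single 1 1 : LaurentSeries κ) * (lmap φ γ - psl κ w') = 0 := by
      linear_combination (psl κ w') * h1 - (HahnSeries.single 1 1 : LaurentSeries κ) *
        (lmap φ γ) * h3
    exact sub_eq_zero.1 ((mul_eq_zero.1 h4).resolve_left hs1)
  have hw0 : PowerSeries.constantCoeff w' ≠ 0 := by
    intro h
    have h1 := congrArg (PowerSeries.constantCoeff (R := κ)) hw'
    rw [map_mul, h, mul_zero, map_one] at h1
    exact zero_ne_one h1
  obtain ⟨β, hβ⟩ := hβ
  obtain ⟨V, hV⟩ := hW.exists_right_inv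
  have hγ2 : γ * γ = psl A (V * β) := by
    have h1 : psl A W * psl A V = 1 := by rw [← map_mul, hV, map_one]
    have h3 : psl A W * (γ * γ) = psl A β := by
      have h4 : (psl A W * (γ * γ)) * η ^ 2 = psl A β * η ^ 2 := by
        rw [← hβ, ← hγη]
        ring
      exact (hηu.pow 2).mul_right_cancel h4
    rw [map_mul, ← h3]
    linear_combination -(γ * γ) * h1
  have hγ0 : γ ∈ Po A 0 := by
    refine t_NPO φ hφ hn h2 γ ?_ ?_ ?_
    · rw [hγ2]
      exact NPO.psl_mem _
    · rw [hγr]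
      exact NPO.psl_mem _
    · rw [hγr]
      have := NPO.coeff_psl w' 0
      rw [Nat.cast_zero] at this
      rw [this, PowerSeries.coeff_zero_eq_constantCoeff_apply]
      exact hw0
  obtain ⟨g, hg⟩ := NPO.exists_psl hγ0
  have hgu : IsUnit g := by
    rw [PowerSeries.isUnit_iff_constantCoeff]
    refine isUnit_of_rs hφ hn ?_
    have h1 : PowerSeries.map φ g = w' := by
      have h3 : psl κ (PowerSeries.map φ g) = psl κ w' := by
        rw [← lmap_psl, hg, hγr]
      exact HahnSeries.ofPowerSeries_injective h3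
    rw [← h1] at hw0
    rw [← PowerSeries.coeff_zero_eq_constantCoeff_apply, PowerSeries.coeff_map] at hw0
    rw [← PowerSeries.coeff_zero_eq_constantCoeff_apply]
    exact hw0
  obtain ⟨g', hg'⟩ := hgu.exists_right_inv
  have h2u : IsUnit (2 : A) := by
    refine isUnit_of_rs hφ hn ?_
    rw [map_ofNat]
    exact h2
  obtain ⟨v, hv⟩ := h2u.exists_right_inv
  obtain ⟨τ, hτ⟩ := hs
  obtain ⟨a, b, hab⟩ := hT x
  have hηy : psl A g' * y₀ = η := by
    have h1 : psl A g * psl A g' = 1 := by rw [← map_mul, hg', map_one]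
    rw [← hγη, ← hg]
    linear_combination η * h1
  have hv2 : (2 : LaurentSeries A) * psl A (PowerSeries.C v) = 1 := by
    have h1 : (2 : LaurentSeries A) = psl A (PowerSeries.C 2) := by
      rw [map_ofNat, map_ofNat]
    rw [h1, ← map_mul, ← map_mul, hv, map_one, map_one]
  refine ⟨a + PowerSeries.C v * (b * τ), PowerSeries.C v * (b * g'), fun β => ?_⟩
  rw [hab β]
  have e1 : Ψ true y = psl A (PowerSeries.C v) * (psl A τ + η) := by
    rw [← hτ, hηd]
    linear_combination (-(Ψ true y)) * hv2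
  have e2 : Ψ false y = psl A (PowerSeries.C v) * (psl A τ - η) := by
    rw [← hτ, hηd]
    linear_combination (-(Ψ false y)) * hv2
  cases β
  · rw [e2]
    simp only [Bool.false_eq_true, if_false, map_add, map_mul]
    rw [← hηy]
    ring
  · rw [e1]
    simp only [if_true, map_add, map_mul]
    rw [← hηy]
    ring

/-- `A[z] → P`. -/
noncomputable def zP {P : Subalgebra A (LaurentSeries A)} {d : ℕ} (hz : zz A d ∈ P) :
    A[X] →ₐ[A] P := aeval (⟨zz A d, hz⟩ : P)

theorem zP_val {P : Subalgebra A (LaurentSeries A)} {d : ℕ} (hz : zz A d ∈ P) (p : A[X]) :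
    (zP hz p : LaurentSeries A) = zpol A d p := by
  have h : (P.val).comp (zP hz) = zpol A d := by
    refine Polynomial.algHom_ext ?_
    change ((zP hz X : P) : LaurentSeries A) = zpol A d X
    rw [zP, zpol, aeval_X, aeval_X]
  exact congrArg (fun F => F p) h

/-- The reduction map from `P` to `R`. -/
noncomputable def rd (φ : A →+* κ) {P : Subalgebra A (LaurentSeries A)}
    {R : Subalgebra κ (LaurentSeries κ)} (h : bc1 φ P ≤ R) : P →+* uno R where
  toFun x := ⟨fun _ => lmap φ x, h (Algebra.subset_adjoin ⟨x, x.2, rfl⟩)⟩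
  map_one' := Subtype.ext (funext fun _ => map_one (lmap φ))
  map_zero' := Subtype.ext (funext fun _ => map_zero (lmap φ))
  map_add' x y := Subtype.ext (funext fun _ => map_add (lmap φ) (x : LaurentSeries A) y)
  map_mul' x y := Subtype.ext (funext fun _ => map_mul (lmap φ) (x : LaurentSeries A) y)

theorem rd_val (φ : A →+* κ) {P : Subalgebra A (LaurentSeries A)}
    {R : Subalgebra κ (LaurentSeries κ)} (h : bc1 φ P ≤ R) (x : P) :
    (rd φ h x : KK Unit κ) () = lmap φ x := rfl

theorem rd_mem (φ : A →+* κ) {P : Subalgebra A (LaurentSeries A)}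
    {R : Subalgebra κ (LaurentSeries κ)} (h : bc1 φ P ≤ R) (x : P) :
    (rd φ h x : KK Unit κ) ∈ uno (bc1 φ P) :=
  Algebra.subset_adjoin ⟨x, x.2, rfl⟩

theorem rd_algebraMap (φ : A →+* κ) {P : Subalgebra A (LaurentSeries A)}
    {R : Subalgebra κ (LaurentSeries κ)} (h : bc1 φ P ≤ R) (a : A) :
    rd φ h (algebraMap A P a) = algebraMap κ (uno R) (φ a) :=
  Subtype.ext (funext fun _ => lmap_algebraMap φ a)

theorem rd_smul (φ : A →+* κ) {P : Subalgebra A (LaurentSeries A)}
    {R : Subalgebra κ (LaurentSeries κ)} (h : bc1 φ P ≤ R) (a : A) (x : P) :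
    rd φ h (a • x) = φ a • rd φ h x :=
  Subtype.ext (funext fun _ => lmap_smul φ a (x : LaurentSeries A))

/-- The expansions of the reduction. -/
theorem psi_zpol {φ : A →+* κ} {P : Subalgebra A (LaurentSeries A)} {d : ℕ}
    (hz : zz A d ∈ P) {R : Subalgebra κ (LaurentSeries κ)} (h : bc1 φ P ≤ R) {s : A}
    (F : uno R →ₐ[κ] PowerSeries κ)
    (hF : F (rd φ h ⟨zz A d, hz⟩) = PowerSeries.C (φ s) + PowerSeries.X) (a : A[X]) (z : P)
    (haz : (z : LaurentSeries A) = zpol A d a) :
    psl κ (F (rd φ h z)) = zev (φ s) (a.map φ) := by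
  have hz' : z = zP hz a := Subtype.ext (haz.trans (zP_val hz a).symm)
  have key : ((psl κ).comp ((F : uno R →+* PowerSeries κ).comp (rd φ h))).comp
      (zP hz : A[X] →+* P) = (zev (φ s) : κ[X] →+* LaurentSeries κ).comp (mapRingHom φ) := by
    refine Polynomial.ringHom_ext (fun a => ?_) ?_
    · change psl κ (F (rd φ h (zP hz (C a)))) = zev (φ s) ((C a).map φ)
      rw [zP, aeval_C, rd_algebraMap, AlgHom.commutes, map_C, zev, aeval_C]
      exact psl_C _
    · change psl κ (F (rd φ h (zP hz X))) = zev (φ s) (X.map φ)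
      rw [zP, aeval_X, hF, map_X, zev, aeval_X, map_add, psl_C, psl_X]
  rw [hz']
  exact congrArg (fun G => G a) key

end

end NPB

open NPB in
theorem t_NPB (hPL2 : Stmt_PL2) (hNLI : Stmt_NLI) (hNDB : Stmt_NDB) (hNSG : Stmt_NSG)
    (hNQY : Stmt_NQY) (hNKE : Stmt_NKE) (hNNK : Stmt_NNK) (hNCO : Stmt_NCO) : Stmt_NPB := by
  intro κ A _ _ _ _ rs g d P h s t R pt hnil hd hdf hKP hz hDisc hrt _ hev _ hKR hPR _ _ hSm
    hdis hpz hPT
  have hφ : Function.Surjective (rs : A →+* κ) := fun c => ⟨algebraMap κ A c, rs.commutes c⟩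
  have h2 : (2 : κ) ≠ 0 := by
    intro h2
    apply hdf
    obtain ⟨m, hm⟩ := Nat.dvd_factorial (by norm_num : 0 < 2) hd
    rw [hm, Nat.cast_mul, Nat.cast_ofNat, h2, zero_mul]
  have hdκ : ((d : ℕ) : κ) ≠ 0 := by
    intro h2
    apply hdf
    obtain ⟨m, hm⟩ := Nat.dvd_factorial (by omega : 0 < d) le_rfl
    rw [hm, Nat.cast_mul, h2, zero_mul]
  -- the expansions of the reduction
  have hψ : ∀ (b : Bool) (a : A[X]) (z : P), (z : LaurentSeries A) = zpol A d a →
      psl κ ((pt b).h (rd (rs : A →+* κ) hPR z)) = zev (rs s) (a.map (rs : A →+* κ)) :=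
    fun b a z haz => psi_zpol hz hPR (pt b).h (hpz b _ (lmap_zz _ d)) a z haz
  have hf0 : (((X - C s) ^ 2 - C (4 * t)) * h).map (rs : A →+* κ) ≠ 0 := by
    rw [Polynomial.map_mul, Polynomial.map_sub, Polynomial.map_pow, Polynomial.map_sub, map_X,
      map_C, map_C]
    have e : (rs : A →+* κ) (4 * t) = 0 := by
      change rs (4 * t) = 0
      rw [map_mul, hrt, mul_zero]
    rw [e, C_0, sub_zero]
    refine mul_ne_zero (pow_ne_zero _ (X_sub_C_ne_zero _)) ?_
    intro h0
    rw [h0, eval_zero] at hev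
    exact hev rfl
  choose Ψ hΨz hΨr using fun b => hNLI rs hnil (by omega) hdκ hKP hz hDisc hf0
    ((psl κ).comp (((pt b).h : uno R →+* PowerSeries κ).comp (rd (rs : A →+* κ) hPR))) (hψ b)
  replace hΨr : ∀ b x, lmap (rs : A →+* κ) (Ψ b x) =
      psl κ ((pt b).h (rd (rs : A →+* κ) hPR x)) := hΨr
  -- the reduction of `P`
  have hmem : ∀ r : uno R, (pt true).ev r = (pt false).ev r ↔
      (r : KK Unit κ) () ∈ bc1 (rs : A →+* κ) P := by
    intro r
    have h1 := hPL2.2.2 hKR hSm pt hdis (r : KK Unit κ)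
    rw [hPT] at h1
    constructor
    · intro h3
      exact h1.2 ⟨r, rfl, h3⟩
    · intro h3
      obtain ⟨r', hr', h4⟩ := h1.1 h3
      have h5 : r' = r := Subtype.ext hr'
      rw [← h5]
      exact h4
  obtain ⟨hlift, hker⟩ := hNKE (rs : A →+* κ) hφ hKP
  have lift : ∀ r : uno R, (pt true).ev r = (pt false).ev r →
      ∃ p : P, rd (rs : A →+* κ) hPR p = r := by
    intro r hr
    obtain ⟨p, hp, hpr⟩ := hlift _ ((hmem r).1 hr)
    exact ⟨⟨p, hp⟩, Subtype.ext (funext fun _ => hpr)⟩
  have hrev : ∀ x : P, (pt true).ev (rd (rs : A →+* κ) hPR x) =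
      (pt false).ev (rd (rs : A →+* κ) hPR x) := fun x => (hmem _).2 (rd_mem _ hPR x)
  obtain ⟨q₀, y₁, hq₀, hy₁, hyt, hyf, hx₀⟩ := hNQY (c := rs s)
    (rd (rs : A →+* κ) hPR ⟨zz A d, hz⟩) h2 hKR hSm hdis fun b => hpz b _ (lmap_zz _ d)
  obtain ⟨q, hq⟩ := lift q₀ (by rw [hq₀, hq₀])
  obtain ⟨y, hy⟩ := lift y₁ (by rw [hy₁, hy₁])
  have hker' : ∀ p₀ : P, rd (rs : A →+* κ) hPR p₀ = 0 → ∃ (n : ℕ) (μ : Fin n → A)
      (p : Fin n → P), (∀ k, (rs : A →+* κ) (μ k) = 0) ∧ p₀ = ∑ k, μ k • p k := by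
    intro p₀ h0
    have h3 : lmap (rs : A →+* κ) (p₀ : LaurentSeries A) = 0 :=
      congrFun (congrArg (fun r : uno R => (r : KK Unit κ)) h0) ()
    obtain ⟨n, μ, p, hμ, hp, hsum⟩ := hker _ p₀.2 h3
    refine ⟨n, μ, fun k => ⟨p k, hp k⟩, hμ, ?_⟩
    refine Subtype.ext ?_
    rw [hsum, AddSubmonoidClass.coe_finsetSum]
    rfl
  have hH : ∀ x : P, ∃ (α β : A) (r : P) (n : ℕ) (μ : Fin n → A) (p : Fin n → P),
      (∀ k, (rs : A →+* κ) (μ k) = 0) ∧ q * (x - algebraMap A P α - β • y) =
        (⟨zz A d, hz⟩ - algebraMap A P s) * r + ∑ k, μ k • p k := by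
    intro x
    obtain ⟨α, β, r, hr, hqr⟩ := hx₀ (rd (rs : A →+* κ) hPR x) (hrev x)
    obtain ⟨r', hr'⟩ := lift r hr
    have e1 : ∀ a : κ, (rs : A →+* κ) (algebraMap κ A a) = a := fun a => rs.commutes a
    have h3 : rd (rs : A →+* κ) hPR (q * (x - algebraMap A P (algebraMap κ A α) -
        (algebraMap κ A β) • y) - (⟨zz A d, hz⟩ - algebraMap A P s) * r') = 0 := by
      rw [map_sub, map_mul, map_sub, map_sub, rd_algebraMap, rd_smul, map_mul, map_sub,
        rd_algebraMap, hq, hy, hr', e1, e1, hqr]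
      exact sub_self _
    obtain ⟨n, μ, p, hμ, hsum⟩ := hker' _ h3
    exact ⟨algebraMap κ A α, algebraMap κ A β, r', n, μ, p, hμ, sub_eq_iff_eq_add'.1 hsum⟩
  obtain ⟨e, G, hZB, hZG, u, hu, hdet⟩ := hDisc
  have hT := hNNK (rs : A →+* κ) Ψ q y ⟨zz A d, hz⟩ hφ hnil h2 rfl hZB hΨz
    (fun x => ⟨fun b => (pt b).h (rd (rs : A →+* κ) hPR x), hrev x, fun b => hΨr b x⟩)
    (fun b => by
      rw [hΨr, hq]
      exact (NPO.coeff_psl _ 0).trans
        ((PowerSeries.coeff_zero_eq_constantCoeff_apply _).trans (hq₀ b)))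
    (fun b => by
      rw [hΨr, hy]
      exact (NPO.coeff_psl _ 0).trans
        ((PowerSeries.coeff_zero_eq_constantCoeff_apply _).trans (hy₁ b)))
    (by
      rw [hΨr, hy]
      exact (NPO.coeff_psl _ 1).trans hyt)
    (by
      rw [hΨr, hy]
      exact (NPO.coeff_psl _ 1).trans hyf) hH
  -- the difference of the expansions of `y`
  obtain ⟨a', ha'⟩ : ∃ a' : PowerSeries κ,
      (pt true).h y₁ - (pt false).h y₁ = PowerSeries.X * a' := by
    refine PowerSeries.X_dvd_iff.2 ?_
    rw [map_sub]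
    exact sub_eq_zero.2 ((hy₁ true).trans (hy₁ false).symm)
  have ha'0 : PowerSeries.constantCoeff a' ≠ 0 := by
    have h1 := congrArg (PowerSeries.coeff (0 + 1)) ha'
    rw [map_sub, PowerSeries.coeff_succ_X_mul, PowerSeries.coeff_zero_eq_constantCoeff_apply,
      zero_add, hyt, hyf] at h1
    rw [← h1, sub_neg_eq_add, one_add_one_eq_two]
    exact h2
  have hη : lmap (rs : A →+* κ) (Ψ true y - Ψ false y) = HahnSeries.single 1 1 * psl κ a' := by
    rw [map_sub, hΨr, hΨr, hy, ← map_sub, ha', map_mul, psl_X]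
  have hηu : IsUnit (Ψ true y - Ψ false y) := by
    refine isUnit_of_lmap hφ hnil ?_
    rw [hη]
    refine mul_ne_zero (HahnSeries.single_ne_zero one_ne_zero) ?_
    exact ((PowerSeries.isUnit_iff_constantCoeff.2 (IsUnit.mk0 _ ha'0)).map (psl κ)).ne_zero
  -- the discriminant
  obtain ⟨c, hcP, hcD, hcH⟩ := hNDB (by omega) P hKP hz e G hZB hZG
  have hL : ∀ x ∈ ((zP hz : A[X] →ₐ[A] P) : A[X] →+* P).range, ∃ a : A[X],
      (x : LaurentSeries A) = zpol A d a := by
    rintro _ ⟨a, rfl⟩
    exact ⟨a, zP_val hz a⟩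
  obtain ⟨hs, β, hβ, hβe⟩ := hNCO (psl A).range ((zP hz : A[X] →ₐ[A] P) : A[X] →+* P).range Ψ
    (fun k => ⟨e k, hZB.mem k⟩) (fun k => ⟨c k, hcP k⟩) ((d : P) * zP hz G.det) y
    (fun x hx => by
      obtain ⟨a, ha⟩ := hL x hx
      rw [hΨz true a x ha, hΨz false a x ha])
    (fun x => by
      obtain ⟨a, ha, -⟩ := hZB.uni x x.2
      refine ⟨fun k => zP hz (a k), fun k => ⟨a k, rfl⟩, Subtype.ext ?_⟩
      rw [AddSubmonoidClass.coe_finsetSum]
      refine ha.trans (Finset.sum_congr rfl fun k _ => ?_)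
      rw [← zP_val hz]
      rfl)
    (fun x H hH hxe l => by
      choose H' hH' using fun k l => hH k l
      refine Subtype.ext ?_
      rw [AddSubmonoidClass.coe_finsetSum]
      have h1 := hcH x x.2 H' (fun k => by
        have h3 := congrArg Subtype.val (hxe k)
        rw [AddSubmonoidClass.coe_finsetSum] at h3
        refine h3.trans (Finset.sum_congr rfl fun l _ => ?_)
        rw [← zP_val hz, ← hH' l k]
        rfl) l
      refine h1.trans (Finset.sum_congr rfl fun k _ => ?_)
      rw [← zP_val hz, ← hH' l k]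
      rfl)
    (by
      refine Subtype.ext ?_
      rw [AddSubmonoidClass.coe_finsetSum]
      refine hcD.trans ?_
      rw [← zP_val hz]
      rfl)
    (mul_mem (natCast_mem _ d) ⟨G.det, rfl⟩)
    (fun x => by
      obtain ⟨a, b, hab⟩ := hT x
      exact ⟨_, _, ⟨a, rfl⟩, ⟨b, rfl⟩, hab⟩)
    hηu
  obtain ⟨τ, hτ⟩ := hs
  obtain ⟨β₀, rfl⟩ := hβ
  -- the substitution
  have htn : IsNilpotent t := by
    obtain ⟨n, hn⟩ := hnil
    refine ⟨n, ?_⟩
    have h3 := Ideal.pow_mem_pow (show t ∈ RingHom.ker (rs : A →+* κ) from hrt) n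
    rw [hn] at h3
    exact h3
  obtain ⟨σ, hσ, hσN, hσr⟩ := hNSG t htn
  obtain ⟨y₀, hσy⟩ : ∃ y₀, σ y₀ = HahnSeries.single 1 1 - HahnSeries.single (-1) t :=
    ⟨_, σ.apply_symm_apply _⟩
  have hy₀ : lmap (rs : A →+* κ) y₀ = HahnSeries.single 1 1 := by
    have e : (rs : A →+* κ) t = 0 := hrt
    rw [← hσr (rs : A →+* κ) hrt y₀, hσy, map_sub, lmap_single, lmap_single, map_one, e,
      HahnSeries.single_eq_zero, sub_zero]
  have hzev : zev s ((X - C s) ^ 2 - C (4 * t)) = y₀ * y₀ := by
    apply σ.injective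
    have e1 : zev s ((X - C s) ^ 2 - C (4 * t)) =
        HahnSeries.single 1 1 ^ 2 - algebraMap A (LaurentSeries A) (4 * t) := by
      rw [zev, map_sub, map_pow, map_sub, aeval_X, aeval_C, aeval_C, add_sub_cancel_left]
    have e2 : (HahnSeries.single 1 1 : LaurentSeries A) * HahnSeries.single (-1) t =
        algebraMap A (LaurentSeries A) t := by
      rw [HahnSeries.single_mul_single, one_mul, add_neg_cancel]
      rfl
    rw [e1, map_sub, map_pow, hσ, AlgEquiv.commutes, map_mul σ, hσy, map_mul, map_ofNat]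
    linear_combination 4 * e2
  have hd1 : IsUnit ((d : ℕ) : A) := isUnit_of_rs hφ hnil (by
    rw [map_natCast]
    exact hdκ)
  have h21 : IsUnit (2 : A) := isUnit_of_rs hφ hnil (by
    rw [map_ofNat]
    exact h2)
  have hW : IsUnit (PowerSeries.C 2 * PowerSeries.C (d : A) * zevP s u * zevP s h) := by
    refine (((h21.map PowerSeries.C).mul (hd1.map PowerSeries.C)).mul (hu.map (zevP s))).mul ?_
    rw [PowerSeries.isUnit_iff_constantCoeff, const_zevP]
    refine isUnit_of_rs hφ hnil ?_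
    rw [← eval₂_at_apply, ← eval_map]
    exact hev
  have hβ' : ∃ β : PowerSeries A,
      psl A (PowerSeries.C 2 * PowerSeries.C (d : A) * zevP s u * zevP s h) * (y₀ * y₀) =
        psl A β * (Ψ true y - Ψ false y) ^ 2 := by
    refine ⟨β₀, Eq.trans ?_ hβe⟩
    have e1 : Ψ true ((d : P) * zP hz G.det) =
        (d : LaurentSeries A) * (zev s u * (y₀ * y₀ * zev s h)) := by
      rw [map_mul (Ψ true), map_natCast, hΨz true G.det _ (zP_val hz _), hdet, map_mul (zev s),
        map_mul (zev s), hzev]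
    have e2 : psl A (PowerSeries.C 2) = 2 := by rw [map_ofNat, map_ofNat]
    have e3 : psl A (PowerSeries.C (d : A)) = d := by rw [map_natCast, map_natCast]
    rw [e1, map_mul, map_mul, map_mul, e2, e3, psl_zevP, psl_zevP]
    ring
  have hK := key hφ hnil h2 hW hy₀ hT ⟨τ, hτ.symm⟩ hβ' ha'0 hη
  let j : uno P →ₐ[A] KK Bool A :=
    { toFun := fun x b => σ (Ψ b ⟨(x : KK Unit A) (), x.2⟩)
      map_one' := funext fun b => by
        change σ (Ψ b 1) = 1
        rw [map_one, map_one]
      map_zero' := funext fun b => by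
        change σ (Ψ b 0) = 0
        rw [map_zero, map_zero]
      map_add' := fun x y => funext fun b => by
        change σ (Ψ b (⟨(x : KK Unit A) (), x.2⟩ + ⟨(y : KK Unit A) (), y.2⟩)) = _
        rw [map_add, map_add]
        rfl
      map_mul' := fun x y => funext fun b => by
        change σ (Ψ b (⟨(x : KK Unit A) (), x.2⟩ * ⟨(y : KK Unit A) (), y.2⟩)) = _
        rw [map_mul, map_mul]
        rfl
      commutes' := fun a => funext fun b => by
        change σ (Ψ b (algebraMap A P a)) = algebraMap A (LaurentSeries A) a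
        rw [hΨz b (C a) _ (by rw [zpol, aeval_C]; rfl), zev, aeval_C, AlgEquiv.commutes] }
  have hj : ∀ (x : uno P) (b : Bool), j x b = σ (Ψ b ⟨(x : KK Unit A) (), x.2⟩) :=
    fun x b => rfl
  refine ⟨j, fun p => ?_, fun z hz' => ?_, fun p r hr b => ?_⟩
  · obtain ⟨a, b, hab⟩ := hK ⟨(p : KK Unit A) (), p.2⟩
    have e : j p = (fun _ => σ (psl A a)) + (fun _ => σ (psl A b)) * (uv t true - uv t false) := by
      funext β
      rw [hj, hab β, map_add]
      change _ = σ (psl A a) + σ (psl A b) * (uv t true β - uv t false β)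
      cases β
      · have e1 : uv t true false - uv t false false =
            -(HahnSeries.single 1 1 - HahnSeries.single (-1) t) := by
          have h3 := PL0.uv_self t false
          have h4 := PL0.uv_not t true
          rw [Bool.not_true] at h4
          rw [h3, h4]
          ring
        rw [e1, ← hσy]
        simp only [Bool.false_eq_true, if_false, map_neg, map_mul, mul_neg]
      · have e1 : uv t true true - uv t false true =
            HahnSeries.single 1 1 - HahnSeries.single (-1) t := by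
          have h3 := PL0.uv_self t true
          have h4 := PL0.uv_not t false
          rw [Bool.not_false] at h4
          rw [h3, h4]
        rw [e1, ← hσy]
        simp only [if_true, map_mul]
    rw [e]
    exact add_mem (hσN a) (mul_mem (hσN b) (sub_mem (PL0.uv_mem t true) (PL0.uv_mem t false)))
  · funext b
    rw [hj, hΨz b X _ (by rw [zpol, aeval_X]; exact hz'), zev, aeval_X, map_add,
      AlgEquiv.commutes, hσ]
    change _ = algebraMap A (LaurentSeries A) s + uv t true b + uv t false b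
    rw [add_assoc]
    congr 1
    cases b
    · have h3 := PL0.uv_self t false
      have h4 := PL0.uv_not t true
      rw [Bool.not_true] at h4
      rw [h3, h4, add_comm]
    · have h3 := PL0.uv_self t true
      have h4 := PL0.uv_not t false
      rw [Bool.not_false] at h4
      rw [h3, h4]
  · rw [hj, hσr (rs : A →+* κ) hrt, hΨr]
    congr 2
    refine Subtype.ext ?_
    rw [hr]
    rfl

end Pool.Agent.MG.G0
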