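import Pool.Agent.MG.G0.StmtsNP
import Pool.Agent.MG.G0.StmtsLOG
import Pool.Agent.MG.G0.KFL

/-!
# NPC: a deformation of a nodal curve is obtained by plumbing
-/

namespace Pool.Agent.MG.G0

namespace NPC

section basics

variable {A : Type} [CommRing A]

theorem mem_Pol_of_Nt {t : A} {N : ℕ} (hN : t ^ N = 0) {F : KK Bool A} (hF : F ∈ Nt t) :
    F ∈ Pol Bool A N := by
  intro b m hm
  obtain ⟨j, rfl⟩ : ∃ j : ℕ, m = -((N + j : ℕ) : ℤ) := by
    refine ⟨(-m - N).toNat, ?_⟩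
    push_cast
    omega
  rw [mem_Nt.1 hF b (N + j), pow_add, hN, zero_mul, zero_mul]

/-- The power series of a Laurent series. -/
noncomputable def ps (f : LaurentSeries A) : PowerSeries A :=
  PowerSeries.mk fun n => f.coeff (n : ℤ)

theorem psl_coeff_neg (f : PowerSeries A) {m : ℤ} (hm : m < 0) : (psl A f).coeff m = 0 := by
  rw [psl, HahnSeries.ofPowerSeries_apply]
  refine HahnSeries.embDomain_of_notMem_range ?_
  rintro ⟨n, hn⟩
  have h1 : ((n : ℕ) : ℤ) = m := hn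
  omega

theorem psl_coeff (f : PowerSeries A) (n : ℕ) :
    (psl A f).coeff (n : ℤ) = PowerSeries.coeff n f :=
  HahnSeries.ofPowerSeries_apply_coeff f n

theorem psl_ps {f : LaurentSeries A} (hf : ∀ m < 0, f.coeff m = 0) : psl A (ps f) = f := by
  ext m
  rcases lt_or_ge m 0 with h | h
  · rw [psl_coeff_neg _ h, hf m h]
  · obtain ⟨n, rfl⟩ := Int.eq_ofNat_of_zero_le h
    rw [psl_coeff, ps, PowerSeries.coeff_mk]

theorem psl_inj {f g : PowerSeries A} (h : psl A f = psl A g) : f = g := by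
  ext n
  rw [← psl_coeff, ← psl_coeff, h]

theorem uv_pow_self (t : A) (b : Bool) (m : ℕ) :
    (uv t b ^ m) b = HahnSeries.single (m : ℤ) 1 := by
  rw [Pi.pow_apply, uv, if_pos rfl, HahnSeries.single_pow, one_pow]
  congr 1
  simp

theorem uv_pow_not (t : A) (b : Bool) (m : ℕ) :
    (uv t (!b) ^ m) b = HahnSeries.single (-(m : ℤ)) (t ^ m) := by
  rw [Pi.pow_apply, uv, if_neg (by cases b <;> simp), HahnSeries.single_pow]
  congr 1
  simp

theorem sum_not {M : Type} [AddCommMonoid M] (f : Bool → M) (b : Bool) :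
    ∑ c, f c = f b + f (!b) := by
  cases b
  · rw [Fintype.sum_bool, add_comm]
    rfl
  · rw [Fintype.sum_bool]
    rfl

/-- The truncation of a function on the annulus. -/
theorem trunc {t : A} {N : ℕ} (hN : t ^ N = 0) {F : KK Bool A} (hF : F ∈ Nt t) :
    F - ((F true).coeff 0 • (1 : KK Bool A) +
      ∑ c, ∑ m ∈ Finset.Ico 1 N, (F c).coeff (m : ℤ) • uv t c ^ m) ∈
        Pol Bool A (-(N : ℤ)) := by
  intro b k hk
  rw [neg_neg] at hk
  rw [sum_not _ b]
  simp only [Pi.sub_apply, Pi.add_apply, Pi.smul_apply, Finset.sum_apply, Pi.one_apply,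
    uv_pow_self, uv_pow_not, HahnSeries.coeff_sub, HahnSeries.coeff_add, HahnSeries.coeff_sum,
    HahnSeries.coeff_smul, HahnSeries.coeff_single, HahnSeries.coeff_one, smul_eq_mul,
    mul_ite, mul_one, mul_zero]
  rcases lt_trichotomy k 0 with hk0 | rfl | hk0
  · obtain ⟨j, rfl⟩ : ∃ j : ℕ, k = -(j : ℤ) := ⟨(-k).toNat, by omega⟩
    have hj : 1 ≤ j := by omega
    rw [if_neg (by omega), mem_Nt.1 hF b j, Finset.sum_eq_zero, zero_add, zero_add]
    · by_cases hjN : j < N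
      · rw [Finset.sum_eq_single j]
        · rw [if_pos rfl]
          ring
        · intro m _ hm
          rw [if_neg (by omega)]
        · intro h
          exact absurd (Finset.mem_Ico.2 ⟨hj, hjN⟩) h
      · have h0 : t ^ j = 0 := by
          obtain ⟨c, rfl⟩ := Nat.exists_eq_add_of_le (not_lt.1 hjN)
          rw [pow_add, hN, zero_mul]
        rw [h0, zero_mul, zero_sub, neg_eq_zero]
        refine Finset.sum_eq_zero fun m hm => ?_
        rw [Finset.mem_Ico] at hm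
        rw [if_neg (by omega)]
    · intro m hm
      rw [Finset.mem_Ico] at hm
      rw [if_neg (by omega)]
  · rw [if_pos rfl, Finset.sum_eq_zero, Finset.sum_eq_zero, add_zero, add_zero]
    · cases b
      · have h := mem_Nt.1 hF false 0
        rw [pow_zero, one_mul, Nat.cast_zero, neg_zero] at h
        rw [h]
        exact sub_self _
      · exact sub_self _
    · intro m hm
      rw [Finset.mem_Ico] at hm
      rw [if_neg (by omega)]
    · intro m hm
      rw [Finset.mem_Ico] at hm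
      rw [if_neg (by omega)]
  · obtain ⟨j, rfl⟩ := Int.eq_ofNat_of_zero_le hk0.le
    rw [if_neg (by omega), zero_add, Finset.sum_eq_single j]
    · rw [if_pos rfl, Finset.sum_eq_zero, add_zero, sub_self]
      intro m hm
      rw [Finset.mem_Ico] at hm
      rw [if_neg (by omega)]
    · intro m _ hm
      rw [if_neg (by omega)]
    · intro h
      exact absurd (Finset.mem_Ico.2 ⟨by omega, by omega⟩) h

end basics

section dat

variable {I A : Type} [CommRing A] {P : Subalgebra A (KK I A)}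

/-- The data of NPY. -/
structure Dat (t : A) (j : P →ₐ[A] KK Bool A) where
  /-- the order -/
  N : ℕ
  /-- the element `y` -/
  y : P
  /-- the elements `e` -/
  e : ℕ → P
  /-- the inverse of `y` -/
  yi : KK I A
  /-- the inverse of `j y` -/
  Y : KK Bool A
  hN : 1 ≤ N
  tN : t ^ N = 0
  hj : ∀ p, j p ∈ Nt t
  hy : (y : KK I A) * yi = 1
  hY : j y * Y = 1
  jy : j y ∈ Pol Bool A (-(N : ℤ))
  Yp : Y ∈ Pol Bool A N
  dens : ∀ F ∈ Nt t, ∀ m : ℕ, ∃ p : P, j p - F ∈ Pol Bool A (-(m : ℤ))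
  he : ∀ L, ∃ F ∈ Nt t, j (e L) = j y ^ L * F
  hd : ∀ (L : ℕ) (q : P), (∃ F ∈ Nt t, j q = j y ^ L * F) → ∃ r : P, (1 - e L) * q = y ^ L * r
  low : ∀ m : ℕ, N ≤ m → ∀ F ∈ Pol Bool A (-(m : ℤ)), F ∈ Nt t
  huv : ∀ b, uv t b ∈ Nt t

namespace Dat

variable {t : A} {j : P →ₐ[A] KK Bool A} (D : Dat t j)

/-- `x` vanishes to order `N` at the node. -/
def C (x : P) : Prop := j x ∈ Pol Bool A (-(D.N : ℤ))

/-- The ring of the normalization. -/
def R : Subalgebra A (KK I A) where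
  carrier := {h | ∀ c : P, D.C c → ∃ c' : P, D.C c' ∧ (c' : KK I A) = h * c}
  mul_mem' := by
    intro h h' hh hh' c hc
    obtain ⟨c1, h1, e1⟩ := hh' c hc
    obtain ⟨c2, h2, e2⟩ := hh c1 h1
    exact ⟨c2, h2, by rw [e2, e1, mul_assoc]⟩
  add_mem' := by
    intro h h' hh hh' c hc
    obtain ⟨c1, h1, e1⟩ := hh c hc
    obtain ⟨c2, h2, e2⟩ := hh' c hc
    refine ⟨c1 + c2, ?_, ?_⟩
    · change j (c1 + c2) ∈ _
      rw [map_add]
      exact add_mem h1 h2
    · rw [add_mul, ← e1, ← e2]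
      rfl
  algebraMap_mem' a c hc := by
    refine ⟨a • c, ?_, ?_⟩
    · change j (a • c) ∈ _
      rw [map_smul]
      exact Submodule.smul_mem _ a hc
    · rw [← Algebra.smul_def]
      rfl

theorem mem_R {h : KK I A} :
    h ∈ D.R ↔ ∀ c : P, D.C c → ∃ c' : P, D.C c' ∧ (c' : KK I A) = h * c := Iff.rfl

theorem Cy : D.C D.y := D.jy

theorem neg_low {n m : ℤ} (h : m ≤ n) {F : KK Bool A} (hF : F ∈ Pol Bool A m) :
    F ∈ Pol Bool A n := Pol_mono h hF

/-- `h y` as an element of `P`. -/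
noncomputable def cy (h : D.R) : P := (h.2 D.y D.jy).choose

theorem cy_C (h : D.R) : D.C (D.cy h) := (h.2 D.y D.jy).choose_spec.1

theorem cy_eq (h : D.R) : (D.cy h : KK I A) = h * D.y := (h.2 D.y D.jy).choose_spec.2

/-- The expansion of an element of `R`. -/
noncomputable def jf (h : D.R) : KK Bool A := j (D.cy h) * D.Y

theorem jf_uniq (h : D.R) (x : P) (e : (x : KK I A) = h * D.y) : D.jf h = j x * D.Y := by
  have h1 : D.cy h = x := Subtype.ext ((D.cy_eq h).trans e.symm)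
  rw [jf, h1]

theorem jf_mul (h : D.R) (c c' : P) (e : (c' : KK I A) = h * c) : D.jf h * j c = j c' := by
  have h1 : c' * D.y = D.cy h * c := by
    refine Subtype.ext ?_
    change (c' : KK I A) * D.y = D.cy h * c
    rw [e, D.cy_eq]
    ring
  have h2 := congrArg j h1
  rw [map_mul, map_mul] at h2
  have h3 := D.hY
  rw [jf]
  linear_combination (-D.Y) * h2 + (j c') * h3

/-- The expansion at the two points. -/
noncomputable def jh : D.R →ₐ[A] KK Bool A where
  toFun := D.jf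
  map_one' := by
    rw [D.jf_uniq 1 D.y (by rw [OneMemClass.coe_one, one_mul]), D.hY]
  map_mul' h h' := by
    have e1 : (D.cy (h * h') : KK I A) = h * (D.cy h' : KK I A) := by
      rw [D.cy_eq, D.cy_eq, MulMemClass.coe_mul, mul_assoc]
    rw [jf, ← D.jf_mul h _ _ e1, mul_assoc]
    rfl
  map_zero' := by
    rw [D.jf_uniq 0 0 (by rw [ZeroMemClass.coe_zero, ZeroMemClass.coe_zero, zero_mul]), map_zero,
      zero_mul]
  map_add' h h' := by
    have e1 : ((D.cy h + D.cy h' : P) : KK I A) = ((h + h' : D.R) : KK I A) * D.y := by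
      rw [AddMemClass.coe_add, AddMemClass.coe_add, D.cy_eq, D.cy_eq, add_mul]
    rw [D.jf_uniq _ _ e1, map_add, add_mul]
    rfl
  commutes' a := by
    have e1 : ((a • D.y : P) : KK I A) = ((algebraMap A D.R a : D.R) : KK I A) * D.y := by
      have e2 : ((algebraMap A D.R a : D.R) : KK I A) = algebraMap A (KK I A) a := rfl
      rw [e2, ← Algebra.smul_def]
      rfl
    rw [D.jf_uniq _ _ e1, map_smul, smul_mul_assoc, D.hY, Algebra.algebraMap_eq_smul_one]

theorem jh_uniq (h : D.R) (x : P) (e : (x : KK I A) = h * D.y) : D.jh h = j x * D.Y :=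
  D.jf_uniq h x e

theorem jh_mul (h : D.R) (c c' : P) (e : (c' : KK I A) = h * c) : D.jh h * j c = j c' :=
  D.jf_mul h c c' e

theorem jh_Pol (h : D.R) : D.jh h ∈ Pol Bool A 0 := by
  have h1 := mul_mem_Pol (D.cy_C h) D.Yp
  rw [neg_add_cancel] at h1
  exact h1

/-- Products of elements vanishing to order `N`. -/
theorem C_mul {x c : P} (hx : j x ∈ Pol Bool A 0) (hc : D.C c) : D.C (x * c) := by
  have h1 := mul_mem_Pol hx hc
  rw [zero_add, ← map_mul] at h1
  exact h1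

theorem C_Pol0 {x : P} (hx : D.C x) : j x ∈ Pol Bool A 0 := Pol_mono (by omega) hx

/-- The elements of `P` which vanish to order `N` are in `R`. -/
theorem C_mem_R {x : P} (hx : D.C x) : (x : KK I A) ∈ D.R := fun _ hc =>
  ⟨x * _, D.C_mul (D.C_Pol0 hx) hc, rfl⟩

theorem jh_C {x : P} (h : D.R) (e : (h : KK I A) = x) : D.jh h = j x := by
  rw [D.jh_uniq h (x * D.y) (by rw [e]; rfl), map_mul, mul_assoc, D.hY, mul_one]

theorem y_cancel {a b : KK I A} (h : (D.y : KK I A) * a = D.y * b) : a = b := by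
  have h1 := D.hy
  linear_combination D.yi * h + (b - a) * h1

theorem jy_cancel {a b : KK Bool A} (h : j D.y * a = j D.y * b) : a = b := by
  have h1 := D.hY
  linear_combination D.Y * h + (b - a) * h1

/-- Division by `y`. -/
theorem div (L : ℕ) (q : P) (hq : ∃ F ∈ Nt t, j q = j D.y * F) :
    ∃ r : P, (1 - D.e (L + 1)) * q = D.y * r := by
  obtain ⟨F, hF, h1⟩ := hq
  obtain ⟨r, hr⟩ := D.hd (L + 1) (D.y ^ L * q) ⟨F, hF, by
    rw [map_mul, map_pow, h1, pow_succ, mul_assoc]⟩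
  refine ⟨r, Subtype.ext ?_⟩
  have h2 := congrArg (Subtype.val) hr
  have h3 : (D.y : KK I A) ^ L * (((1 - D.e (L + 1)) * q : P) : KK I A) =
      (D.y : KK I A) ^ L * ((D.y * r : P) : KK I A) := by
    have e1 : (((1 - D.e (L + 1)) * (D.y ^ L * q) : P) : KK I A) =
      (D.y : KK I A) ^ L * (((1 - D.e (L + 1)) * q : P) : KK I A) := by
      have e0 : (1 - D.e (L + 1)) * (D.y ^ L * q) = D.y ^ L * ((1 - D.e (L + 1)) * q) := by ring
      rw [e0]
      rfl
    have e2 : ((D.y ^ (L + 1) * r : P) : KK I A) =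
      (D.y : KK I A) ^ L * ((D.y * r : P) : KK I A) := by
      rw [pow_succ, mul_assoc]
      rfl
    rw [← e1, ← e2]
    exact h2
  have h4 : (D.y : KK I A) ^ L * D.yi ^ L = 1 := by rw [← mul_pow, D.hy, one_pow]
  linear_combination D.yi ^ L * h3 + ((((D.y * r : P) : KK I A)) -
    (((1 - D.e (L + 1)) * q : P) : KK I A)) * h4

theorem jy_pow (L : ℕ) : j D.y ^ L ∈ Pol Bool A (-((L * D.N : ℕ) : ℤ)) := by
  induction L with
  | zero =>
    rw [pow_zero, zero_mul, Nat.cast_zero, neg_zero]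
    exact one_mem_Pol0
  | succ L ih =>
    have h := mul_mem_Pol ih D.jy
    rw [← pow_succ] at h
    have e : -((L * D.N : ℕ) : ℤ) + -(D.N : ℤ) = -(((L + 1) * D.N : ℕ) : ℤ) := by
      push_cast
      ring
    rw [e] at h
    exact h

theorem e_Pol (L : ℕ) : j (D.e (L + 1)) ∈ Pol Bool A (-((L * D.N : ℕ) : ℤ)) := by
  obtain ⟨F, hF, h1⟩ := D.he (L + 1)
  rw [h1]
  have h2 := mul_mem_Pol (D.jy_pow (L + 1)) (mem_Pol_of_Nt D.tN hF)
  have e : -(((L + 1) * D.N : ℕ) : ℤ) + (D.N : ℤ) = -((L * D.N : ℕ) : ℤ) := by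
    push_cast
    ring
  rw [e] at h2
  exact h2

theorem e_Pol0 (L : ℕ) : j (D.e (L + 1)) ∈ Pol Bool A 0 :=
  Pol_mono (by omega) (D.e_Pol L)

theorem sub_e_Pol0 (L : ℕ) : j (1 - D.e (L + 1)) ∈ Pol Bool A 0 := by
  rw [map_sub, map_one]
  exact sub_mem one_mem_Pol0 (D.e_Pol0 L)

/-- Elements of `R` with prescribed expansions. -/
theorem exists_h (F : KK Bool A) (hF : F ∈ Pol Bool A 0) (M : ℕ) :
    ∃ h : D.R, D.jh h - F ∈ Pol Bool A (-(M : ℤ)) := by
  have h0 : j D.y * F ∈ Pol Bool A (-(D.N : ℤ)) := by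
    have h := mul_mem_Pol D.jy hF
    rw [add_zero] at h
    exact h
  obtain ⟨x, hx⟩ := D.dens _ (D.low D.N le_rfl _ h0) (M + D.N)
  obtain ⟨G, hG⟩ : ∃ G, G = j x - j D.y * F := ⟨_, rfl⟩
  rw [← hG] at hx
  have hGY : G * D.Y ∈ Pol Bool A (-(M : ℤ)) := by
    have h := mul_mem_Pol hx D.Yp
    have e : -((M + D.N : ℕ) : ℤ) + (D.N : ℤ) = -(M : ℤ) := by
      push_cast
      ring
    rw [e] at h
    exact h
  have hjx : j x = j D.y * (F + G * D.Y) := by
    have h1 := D.hY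
    linear_combination (-1 : KK Bool A) * hG - G * h1
  have hFG : F + G * D.Y ∈ Pol Bool A 0 := add_mem hF (Pol_mono (by omega) hGY)
  have key : ∀ c : P, D.C c → ∃ r : P, (1 - D.e (M + 1)) * (x * c) = D.y * r := by
    intro c hc
    refine D.div M (x * c) ⟨(F + G * D.Y) * j c, ?_, ?_⟩
    · refine D.low D.N le_rfl _ ?_
      have h := mul_mem_Pol hFG hc
      rw [zero_add] at h
      exact h
    · rw [map_mul, hjx, mul_assoc]
  have hmem : (((1 - D.e (M + 1)) * x : P) : KK I A) * D.yi ∈ D.R := by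
    intro c hc
    obtain ⟨r, hr⟩ := key c hc
    have hjr : j r = j (1 - D.e (M + 1)) * ((F + G * D.Y) * j c) := by
      have h1 := congrArg j hr
      rw [map_mul, map_mul, map_mul, hjx] at h1
      apply D.jy_cancel
      rw [← h1]
      ring
    refine ⟨r, ?_, ?_⟩
    · have h2 := mul_mem_Pol (D.sub_e_Pol0 M) (mul_mem_Pol hFG hc)
      rw [zero_add, zero_add, ← hjr] at h2
      exact h2
    · have h3 := congrArg Subtype.val hr
      have h4 : (((1 - D.e (M + 1)) * x : P) : KK I A) * c = D.y * r := by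
        rw [← mul_assoc] at h3
        exact h3
      have h5 := D.hy
      linear_combination (-D.yi) * h4 - (r : KK I A) * h5
  refine ⟨⟨_, hmem⟩, ?_⟩
  have h6 : D.jh ⟨_, hmem⟩ = j ((1 - D.e (M + 1)) * x) * D.Y := by
    refine D.jh_uniq _ _ ?_
    have h5 := D.hy
    change _ = (((1 - D.e (M + 1)) * x : P) : KK I A) * D.yi * D.y
    linear_combination (-(((1 - D.e (M + 1)) * x : P) : KK I A)) * h5
  have h7 : D.jh ⟨_, hmem⟩ - F = G * D.Y - j (D.e (M + 1)) * (F + G * D.Y) := by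
    rw [h6, map_mul, map_sub, map_one, hjx]
    have h1 := D.hY
    linear_combination (1 - j (D.e (M + 1))) * (F + G * D.Y) * h1
  rw [h7]
  refine sub_mem hGY ?_
  have h8 := mul_mem_Pol (D.e_Pol M) hFG
  rw [add_zero] at h8
  refine Pol_mono ?_ h8
  have := D.hN
  have h9 : M ≤ M * D.N := Nat.le_mul_of_pos_right _ this
  omega

/-- The elements of `R` which vanish to order `N` are in `P`. -/
theorem exists_c (h : D.R) (hh : D.jh h ∈ Pol Bool A (-(D.N : ℤ))) :
    ∃ c : P, D.C c ∧ (c : KK I A) = h ∧ j c = D.jh h := by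
  have h1 : j (D.cy h) = j D.y * D.jh h := by
    have h2 := D.hY
    change j (D.cy h) = j D.y * (j (D.cy h) * D.Y)
    linear_combination (-(j (D.cy h))) * h2
  obtain ⟨r, hr⟩ := D.div 1 (D.cy h) ⟨D.jh h, D.low D.N le_rfl _ hh, h1⟩
  have he : D.C (D.e 2) := by
    have h3 := D.e_Pol 1
    rw [one_mul] at h3
    exact h3
  obtain ⟨c', hc', e'⟩ := h.2 _ he
  have hr' : (r : KK I A) = (1 - D.e 2 : P) * (h : KK I A) := by
    apply D.y_cancel
    have h4 := congrArg Subtype.val hr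
    have h5 : ((1 - D.e 2 : P) : KK I A) * (D.cy h : KK I A) = D.y * r := h4
    rw [← h5, D.cy_eq]
    ring
  have hjr : j r = j (1 - D.e 2) * D.jh h := by
    apply D.jy_cancel
    have h4 := congrArg j hr
    rw [map_mul, map_mul, h1] at h4
    rw [← h4]
    ring
  have e1 : ((r + c' : P) : KK I A) = h := by
    have e2 : ((r + c' : P) : KK I A) = (r : KK I A) + c' := rfl
    have e3 : ((1 - D.e 2 : P) : KK I A) = 1 - (D.e 2 : KK I A) := rfl
    rw [e2, hr', e', e3]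
    ring
  have e4 : j (r + c') = D.jh h := by
    rw [map_add, hjr, ← D.jh_mul h _ _ e', map_sub, map_one]
    ring
  refine ⟨r + c', ?_, e1, e4⟩
  rw [← e4] at hh
  exact hh

/-- Elements of `P` which approximate `(uv t b) ^ m`. -/
noncomputable def xx (b : Bool) (m : ℕ) : P := (D.dens _ (pow_mem (D.huv b) m) D.N).choose

theorem xx_spec (b : Bool) (m : ℕ) : j (D.xx b m) - uv t b ^ m ∈ Pol Bool A (-(D.N : ℤ)) :=
  (D.dens _ (pow_mem (D.huv b) m) D.N).choose_spec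

/-- Coefficients. -/
noncomputable def cf (b : Bool) (m : ℤ) : KK Bool A →ₗ[A] A where
  toFun F := (F b).coeff m
  map_add' F G := by rw [Pi.add_apply, HahnSeries.coeff_add]
  map_smul' a F := by rw [Pi.smul_apply, HahnSeries.coeff_smul]; rfl

/-- A linear map to `P` with the same principal part at the node. -/
noncomputable def sg : P →ₗ[A] P :=
  ((cf true 0) ∘ₗ j.toLinearMap).smulRight 1 +
    ∑ c, ∑ m ∈ Finset.Ico 1 D.N, ((cf c (m : ℤ)) ∘ₗ j.toLinearMap).smulRight (D.xx c m)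

theorem sg_apply (p : P) : D.sg p = (j p true).coeff 0 • (1 : P) +
    ∑ c, ∑ m ∈ Finset.Ico 1 D.N, (j p c).coeff (m : ℤ) • D.xx c m := by
  simp only [sg, LinearMap.add_apply, LinearMap.sum_apply, LinearMap.smulRight_apply,
    LinearMap.comp_apply, AlgHom.toLinearMap_apply, cf, LinearMap.coe_mk, AddHom.coe_mk]

theorem sg_coe (p : P) : (D.sg p : KK I A) = (j p true).coeff 0 • (1 : KK I A) +
    ∑ c, ∑ m ∈ Finset.Ico 1 D.N, (j p c).coeff (m : ℤ) • (D.xx c m : KK I A) := by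
  have h := congrArg (P.val.toLinearMap) (D.sg_apply p)
  rw [map_add, map_sum, map_smul] at h
  simp only [map_sum, map_smul] at h
  exact h

theorem sub_sg (p : P) : D.C (p - D.sg p) := by
  have h1 := trunc D.tN (D.hj p)
  have h2 : ∑ c, ∑ m ∈ Finset.Ico 1 D.N, (j p c).coeff (m : ℤ) •
      (j (D.xx c m) - uv t c ^ m) ∈ Pol Bool A (-(D.N : ℤ)) :=
    Submodule.sum_mem _ fun c _ => Submodule.sum_mem _ fun m _ =>
      Submodule.smul_mem _ _ (D.xx_spec c m)
  have h3 := sub_mem h1 h2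
  have e : j (p - D.sg p) = j p - ((j p true).coeff 0 • (1 : KK Bool A) +
      ∑ c, ∑ m ∈ Finset.Ico 1 D.N, (j p c).coeff (m : ℤ) • uv t c ^ m) -
      ∑ c, ∑ m ∈ Finset.Ico 1 D.N, (j p c).coeff (m : ℤ) • (j (D.xx c m) - uv t c ^ m) := by
    rw [map_sub, D.sg_apply, map_add, map_smul, map_one, map_sum]
    simp only [map_sum, map_smul, smul_sub, Finset.sum_sub_distrib]
    ring
  change j (p - D.sg p) ∈ _
  rw [e]
  exact h3

theorem sg_zero {p : P} (hp : D.C p) : D.sg p = 0 := by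
  rw [D.sg_apply, hp true 0 (by have := D.hN; omega), zero_smul, zero_add]
  refine Finset.sum_eq_zero fun c _ => Finset.sum_eq_zero fun m hm => ?_
  rw [Finset.mem_Ico] at hm
  rw [hp c m (by omega), zero_smul]

/-- The expansions at the two points. -/
noncomputable def ptH (b : Bool) : D.R →ₐ[A] PowerSeries A where
  toFun h := ps (D.jh h b)
  map_one' := psl_inj (by
    rw [psl_ps (D.jh_Pol 1 b), map_one, map_one]
    rfl)
  map_mul' f g := psl_inj (by
    rw [psl_ps (D.jh_Pol _ b), map_mul, map_mul, psl_ps (D.jh_Pol f b),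
      psl_ps (D.jh_Pol g b)]
    rfl)
  map_zero' := psl_inj (by
    rw [psl_ps (D.jh_Pol 0 b), map_zero, map_zero]
    rfl)
  map_add' f g := psl_inj (by
    rw [psl_ps (D.jh_Pol _ b), map_add, map_add, psl_ps (D.jh_Pol f b),
      psl_ps (D.jh_Pol g b)]
    rfl)
  commutes' a := psl_inj (by
    rw [psl_ps (D.jh_Pol _ b), AlgHom.commutes]
    exact (HahnSeries.ofPowerSeries_C a).symm)

theorem ptH_psl (b : Bool) (h : D.R) : psl A (D.ptH b h) = D.jh h b :=
  psl_ps (D.jh_Pol h b)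

/-- The formal points of `R`. -/
noncomputable def pt (b : Bool) : FPt D.R where
  h := D.ptH b
  x := (D.exists_h (mon b 1 1) (mon_mem_Pol b (by omega) 1) 2).choose
  par := by
    have h1 := (D.exists_h (mon b 1 1) (mon_mem_Pol b (by omega) 1) 2).choose_spec b 1 (by omega)
    rw [Pi.sub_apply, HahnSeries.coeff_sub, mon_coeff_self, if_pos rfl, sub_eq_zero] at h1
    rw [← psl_coeff, ptH_psl, Nat.cast_one, h1]
    exact isUnit_one

theorem pt_h (b : Bool) (h : D.R) : psl A ((D.pt b).h h) = D.jh h b := D.ptH_psl b h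

theorem pt_ev (b : Bool) (h : D.R) : (D.pt b).ev h = (D.jh h b).coeff 0 := by
  rw [← D.pt_h, FPt.ev, ← PowerSeries.coeff_zero_eq_constantCoeff_apply, ← psl_coeff,
    Nat.cast_zero]

theorem disj : Disj D.pt := by
  intro b b' hb
  rw [Ideal.eq_top_iff_one]
  obtain ⟨h, hh⟩ := D.exists_h (mon b' 0 1) (mon_mem_Pol b' (by omega) 1) 1
  have h1 : h ∈ (D.pt b).id := by
    rw [FPt.mem_id, pt_ev]
    have h2 := hh b 0 (by omega)
    rw [Pi.sub_apply, HahnSeries.coeff_sub, mon_of_ne hb, HahnSeries.coeff_zero, sub_zero] at h2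
    exact h2
  have h3 : 1 - h ∈ (D.pt b').id := by
    rw [FPt.mem_id, pt_ev, map_sub, map_one]
    have h2 := hh b' 0 (by omega)
    rw [Pi.sub_apply, HahnSeries.coeff_sub, mon_coeff_self, if_pos rfl, sub_eq_zero] at h2
    rw [Pi.sub_apply, HahnSeries.coeff_sub, h2, Pi.one_apply, HahnSeries.coeff_one, if_pos rfl,
      sub_self]
  have h4 := Submodule.add_mem_sup h1 h3
  rw [add_sub_cancel] at h4
  exact h4

/-- The order of vanishing of the elements of powers of the ideal of the points. -/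
theorem ord {I A : Type} [CommRing A] {Q : Subalgebra A (KK I A)} (pt : Bool → FPt Q) (n : ℕ)
    {s : Q} (hs : s ∈ Ipt pt ^ n) (b : Bool) (m : ℤ) (hm : m < n) :
    (psl A ((pt b).h s)).coeff m = 0 := by
  rcases lt_or_ge m 0 with h | h
  · exact psl_coeff_neg _ h
  · obtain ⟨k, rfl⟩ := Int.eq_ofNat_of_zero_le h
    rw [psl_coeff]
    have h1 : s ∈ (pt b).id ^ n := Ideal.pow_right_mono (iInf_le _ b) n hs
    have h2 : (pt b).id ≤ (Ideal.span {(PowerSeries.X : PowerSeries A)}).comap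
        ((pt b).h : Q →+* PowerSeries A) := by
      intro x hx
      rw [Ideal.mem_comap, Ideal.mem_span_singleton, PowerSeries.X_dvd_iff]
      exact hx
    have h3 := Ideal.pow_right_mono h2 n h1
    have h4 := Ideal.le_comap_pow ((pt b).h : Q →+* PowerSeries A) n h3
    rw [Ideal.mem_comap, Ideal.span_singleton_pow, Ideal.mem_span_singleton,
      PowerSeries.X_pow_dvd_iff] at h4
    exact h4 k (by omega)

theorem P_le : P ≤ PT D.pt t := by
  intro f hf
  let f' : P := ⟨f, hf⟩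
  refine mem_PT.2 ⟨Sum.elim f (j f'), ?_, rfl, D.hj f'⟩
  refine (mem_WJ _).2 ⟨2 * D.N, fun s hs => ?_⟩
  have hs1 : D.jh s ∈ Pol Bool A (-((2 * D.N : ℕ) : ℤ)) := by
    intro b m hm
    rw [neg_neg] at hm
    rw [← D.pt_h]
    exact ord D.pt _ hs b m hm
  obtain ⟨c, hc, e1, e2⟩ := D.exists_c s (Pol_mono (by omega) hs1)
  have hcf : D.C (c * f') := by
    have h1 := mul_mem_Pol hs1 (mem_Pol_of_Nt D.tN (D.hj f'))
    rw [← e2, ← map_mul] at h1
    exact Pol_mono (by push_cast; omega) h1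
  refine ⟨⟨_, D.C_mem_R hcf⟩, ?_⟩
  have h2 : D.jh ⟨_, D.C_mem_R hcf⟩ = D.jh s * j f' := by
    rw [D.jh_C (x := c * f') ⟨_, D.C_mem_R hcf⟩ rfl, map_mul, e2]
  funext k
  rcases k with i | b
  · change (s : KK I A) i * f i = (c : KK I A) i * f i
    rw [e1]
  · change psl A ((D.pt b).h s) * j f' b = psl A ((D.pt b).h _)
    rw [D.pt_h, D.pt_h, h2]
    rfl

end Dat

end dat

section red

variable {I κ A : Type} [Fintype I] [Nonempty I] [Field κ] [CommRing A] {φ : A →+* κ}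
  (hφ : Function.Surjective φ) {P : Subalgebra A (KK I A)} {R₀ : Subalgebra κ (KK I κ)}
  (pt₀ : Bool → FPt R₀) {t : A} {j : P →ₐ[A] KK Bool A} (D : Dat t j)
  (hW : ∀ w ∈ WJ pt₀, (∀ b, ∀ m < 0, (w (Sum.inr b)).coeff m = 0) → ∃ r : R₀, w = hat pt₀ r)
  (hPT : PT pt₀ 0 = bc φ P)
  (hc : ∀ (p : P) (r : R₀), (r : KK I κ) = kmap φ (p : KK I A) → ∀ b,
    lmap φ (j p b) = psl κ ((pt₀ b).h r))

include hW hPT in
omit [Fintype I] [Nonempty I] in
theorem mem_R0 (p : P) : ∃ r : R₀, (r : KK I κ) = kmap φ (p : KK I A) := by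
  have h1 : kmap φ (p : KK I A) ∈ PT pt₀ 0 := by
    rw [hPT]
    exact kmap_mem_bc φ p.2
  obtain ⟨w, hw, e1, e2⟩ := mem_PT.1 h1
  obtain ⟨r, rfl⟩ := hW w hw fun b m hm => by
    obtain ⟨k, rfl⟩ : ∃ k : ℕ, m = -((k + 1 : ℕ) : ℤ) := ⟨(-m - 1).toNat, by omega⟩
    have h2 := mem_Nt.1 e2 b (k + 1)
    rw [pow_succ, mul_zero, zero_mul] at h2
    exact h2
  exact ⟨r, e1⟩

end red

section red2

variable {I κ A : Type} [Fintype I] [Nonempty I] [Field κ] [CommRing A] {φ : A →+* κ}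
  {P : Subalgebra A (KK I A)} {R₀ : Subalgebra κ (KK I κ)}
  (pt₀ : Bool → FPt R₀) {t : A} {j : P →ₐ[A] KK Bool A} (D : Dat t j)

omit [Fintype I] [Nonempty I] in
theorem kmap_sg (p : P) (h3 : ∀ b, ∀ m < (D.N : ℤ), φ ((j p b).coeff m) = 0) :
    kmap φ (D.sg p : KK I A) = 0 := by
  rw [D.sg_coe, map_add, kmap_smul, h3 _ _ (by have := D.hN; omega), zero_smul, zero_add, map_sum]
  refine Finset.sum_eq_zero fun c _ => ?_
  rw [map_sum]
  refine Finset.sum_eq_zero fun m hm => ?_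
  rw [Finset.mem_Ico] at hm
  rw [kmap_smul, h3 _ _ (by omega), zero_smul]

omit [Fintype I] [Nonempty I] in
theorem s_mem (s : R₀) (hs : ∀ b, ∀ m < (D.N : ℤ), (psl κ ((pt₀ b).h s)).coeff m = 0) :
    (s : KK I κ) ∈ PT pt₀ 0 := by
  refine mem_PT.2 ⟨hat pt₀ s, hat_mem pt₀ s, rfl, fun b k => ?_⟩
  change (psl κ ((pt₀ b).h s)).coeff _ = 0 ^ k * (psl κ ((pt₀ (!b)).h s)).coeff _
  rw [hs b _ (by have := D.hN; omega)]
  rcases k with _ | k
  · rw [hs _ _ (by have := D.hN; push_cast; omega), mul_zero]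
  · rw [pow_succ, mul_zero, zero_mul]

omit [Fintype I] [Nonempty I] in
theorem lift_s (hφ : Function.Surjective φ) (hPT : PT pt₀ 0 = bc φ P)
    (hc : ∀ (p : P) (r : R₀), (r : KK I κ) = kmap φ (p : KK I A) → ∀ b,
      lmap φ (j p b) = psl κ ((pt₀ b).h r))
    (s : R₀) (hs : ∀ b, ∀ m < (D.N : ℤ), (psl κ ((pt₀ b).h s)).coeff m = 0) :
    ∃ c : P, D.C c ∧ kmap φ (c : KK I A) = s := by
  have h1 := s_mem pt₀ D s hs
  rw [hPT] at h1
  obtain ⟨p', e⟩ : ∃ p' : P, kmap φ (p' : KK I A) = s := by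
    obtain ⟨p, hp, e⟩ := KFL.bc_surj hφ P h1
    exact ⟨⟨p, hp⟩, e⟩
  have h2 := hc p' s e.symm
  have h3 : ∀ b, ∀ m < (D.N : ℤ), φ ((j p' b).coeff m) = 0 := by
    intro b m hm
    rw [← lmap_coeff, h2 b]
    exact hs b m hm
  refine ⟨p' - D.sg p', D.sub_sg _, ?_⟩
  have e2 : ((p' - D.sg p' : P) : KK I A) = p' - (D.sg p' : KK I A) := rfl
  rw [e2, map_sub, kmap_sg D p' h3, sub_zero, e]

omit [Field κ] in
theorem ker_P {g : ℕ} (hKBT : Stmt_KBT) (hP : IsKr g P) (m : Ideal A) (c : P)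
    (h0 : kmap (Ideal.Quotient.mk m) (c : KK I A) = 0) : c ∈ m • (⊤ : Submodule A P) := by
  obtain ⟨h1, -⟩ := hKBT (B := A ⧸ m) hP
  have h2 := h1 1 (fun _ => 1) (fun _ => c) (by
    rw [Fin.sum_univ_one, one_smul]
    exact h0)
  rw [Fin.sum_univ_one] at h2
  rw [← Submodule.Quotient.mk_eq_zero, ← TensorProduct.quotTensorEquivQuotSMul_mk_one_tmul,
    h2, map_zero]

omit [Field κ] [Fintype I] [Nonempty I] in
theorem ker_T (m : Ideal A) (c : P) (hc : D.C c) (h3 : c ∈ m • (⊤ : Submodule A P)) :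
    (c : KK I A) ∈ m • Subalgebra.toSubmodule D.R := by
  obtain ⟨T, hT⟩ : ∃ T : P →ₗ[A] KK I A, ∀ x, T x = ((x - D.sg x : P) : KK I A) :=
    ⟨P.val.toLinearMap ∘ₗ (LinearMap.id - D.sg), fun x => rfl⟩
  have h4 : T c ∈ (m • (⊤ : Submodule A P)).map T := Submodule.mem_map_of_mem h3
  rw [Submodule.map_smul''] at h4
  have h5 : T c = c := by
    rw [hT, D.sg_zero hc, sub_zero]
  rw [h5] at h4
  refine Submodule.smul_mono le_rfl ?_ h4
  rintro _ ⟨x, -, rfl⟩
  rw [hT]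
  exact D.C_mem_R (D.sub_sg x)

theorem ker_C {g : ℕ} (hKBT : Stmt_KBT) (hP : IsKr g P) (c : P) (hc : D.C c)
    (h0 : kmap φ (c : KK I A) = 0) :
    (c : KK I A) ∈ RingHom.ker φ • Subalgebra.toSubmodule D.R := by
  refine ker_T D _ c hc (ker_P hKBT hP _ c ?_)
  funext i
  ext m
  rw [kmap_apply, lmap_coeff, Pi.zero_apply, HahnSeries.coeff_zero]
  refine Ideal.Quotient.eq_zero_iff_mem.2 ?_
  rw [RingHom.mem_ker, ← lmap_coeff, ← kmap_apply, h0, Pi.zero_apply, HahnSeries.coeff_zero]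

section full

variable (hφ : Function.Surjective φ) (hPT : PT pt₀ 0 = bc φ P)
  (hc : ∀ (p : P) (r : R₀), (r : KK I κ) = kmap φ (p : KK I A) → ∀ b,
    lmap φ (j p b) = psl κ ((pt₀ b).h r))
  (hW : ∀ w ∈ WJ pt₀, (∀ b, ∀ m < 0, (w (Sum.inr b)).coeff m = 0) → ∃ r : R₀, w = hat pt₀ r)

include hφ hPT hc hW

omit [Fintype I] [Nonempty I] in
theorem red_h (h : D.R) : ∃ r : R₀, (r : KK I κ) = kmap φ (h : KK I A) ∧
    ∀ b, lmap φ (D.jh h b) = psl κ ((pt₀ b).h r) := by
  have hw : (Sum.elim (kmap φ (h : KK I A)) (kmap φ (D.jh h)) : KK (I ⊕ Bool) κ) ∈ WJ pt₀ := by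
    refine (mem_WJ _).2 ⟨D.N, fun s hs => ?_⟩
    obtain ⟨c, hcC, e1⟩ := lift_s pt₀ D hφ hPT hc s fun b m hm => Dat.ord pt₀ _ hs b m hm
    obtain ⟨c', hc', e'⟩ := h.2 c hcC
    obtain ⟨r, hr⟩ := mem_R0 pt₀ hW hPT c'
    refine ⟨r, ?_⟩
    funext k
    rcases k with i | b
    · change (s : KK I κ) i * kmap φ (h : KK I A) i = (r : KK I κ) i
      rw [← e1, hr, e', map_mul, Pi.mul_apply, mul_comm]
    · change psl κ ((pt₀ b).h s) * lmap φ (D.jh h b) = psl κ ((pt₀ b).h r)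
      rw [← hc c s e1.symm b, ← hc c' r hr b, ← D.jh_mul h c c' e', Pi.mul_apply, map_mul,
        mul_comm]
  obtain ⟨r, hr⟩ := hW _ hw fun b m hm => by
    change (lmap φ (D.jh h b)).coeff m = 0
    rw [lmap_coeff, D.jh_Pol h b m (by omega), map_zero]
  refine ⟨r, ?_, ?_⟩
  · funext i
    exact (congrFun hr (Sum.inl i)).symm
  · intro b
    exact congrFun hr (Sum.inr b)

omit [Fintype I] [Nonempty I] in
theorem lift_r (ι : κ →+* A) (hι : φ.comp ι = RingHom.id κ) (r : R₀) :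
    ∃ h : D.R, kmap φ (h : KK I A) = r := by
  obtain ⟨F, hF⟩ : ∃ F : KK Bool κ, F = fun b => psl κ ((pt₀ b).h r) := ⟨_, rfl⟩
  have hF0 : F ∈ Pol Bool κ 0 := fun b m hm => by
    rw [hF]
    exact psl_coeff_neg _ (by omega)
  obtain ⟨h1, hh1⟩ := D.exists_h (kmap ι F) (kmap_mem_Pol ι hF0) D.N
  obtain ⟨r1, hr1, hr1'⟩ := red_h pt₀ D hφ hPT hc hW h1
  have hs : ∀ b, ∀ m < (D.N : ℤ), (psl κ ((pt₀ b).h (r - r1))).coeff m = 0 := by
    intro b m hm
    have e1 : psl κ ((pt₀ b).h (r - r1)) = F b - lmap φ (D.jh h1 b) := by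
      rw [map_sub, map_sub, hr1', hF]
    have e2 : φ (ι ((F b).coeff m)) = (F b).coeff m := RingHom.congr_fun hι _
    have e3 := hh1 b m (by omega)
    rw [Pi.sub_apply, HahnSeries.coeff_sub, kmap_apply, lmap_coeff, sub_eq_zero] at e3
    rw [e1, HahnSeries.coeff_sub, lmap_coeff, e3, e2, sub_self]
  obtain ⟨c, hcC, e⟩ := lift_s pt₀ D hφ hPT hc (r - r1) hs
  refine ⟨h1 + ⟨c, D.C_mem_R hcC⟩, ?_⟩
  have e4 : ((h1 + ⟨c, D.C_mem_R hcC⟩ : D.R) : KK I A) = h1 + c := rfl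
  have e5 : ((r - r1 : R₀) : KK I κ) = r - r1 := rfl
  rw [e4, map_add, e, e5, ← hr1, add_sub_cancel]

omit [Fintype I] [Nonempty I] in
theorem bc_eq (ι : κ →+* A) (hι : φ.comp ι = RingHom.id κ) : bc φ D.R = R₀ := by
  refine le_antisymm (Algebra.adjoin_le ?_) ?_
  · rintro _ ⟨h, hh, rfl⟩
    obtain ⟨r, hr, -⟩ := red_h pt₀ D hφ hPT hc hW ⟨h, hh⟩
    rw [← hr]
    exact r.2
  · intro r hr
    obtain ⟨h, hh⟩ := lift_r pt₀ D hφ hPT hc hW ι hι ⟨r, hr⟩
    change kmap φ (h : KK I A) = r at hh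
    rw [← hh]
    exact kmap_mem_bc φ h.2

theorem ker_R {g : ℕ} (hKBT : Stmt_KBT) (hP : IsKr g P) (h : D.R)
    (h0 : kmap φ (h : KK I A) = 0) :
    (h : KK I A) ∈ RingHom.ker φ • Subalgebra.toSubmodule D.R := by
  obtain ⟨r, hr, hr'⟩ := red_h pt₀ D hφ hPT hc hW h
  have hr0 : r = 0 := Subtype.ext (hr.trans h0)
  have hco : ∀ b m, φ ((D.jh h b).coeff m) = 0 := by
    intro b m
    rw [← lmap_coeff, hr' b, hr0, map_zero, map_zero, HahnSeries.coeff_zero]
  have hex : ∀ (b : Bool) (m : ℤ), ∃ g : D.R, 0 ≤ m →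
      D.jh g - mon b m 1 ∈ Pol Bool A (-(D.N : ℤ)) := by
    intro b m
    by_cases hm : 0 ≤ m
    · obtain ⟨g, hg⟩ := D.exists_h (mon b m 1) (mon_mem_Pol b (by omega) 1) D.N
      exact ⟨g, fun _ => hg⟩
    · exact ⟨0, fun h => absurd h hm⟩
  choose G hG using hex
  obtain ⟨S, hS⟩ : ∃ S : D.R, S = ∑ b, ∑ m ∈ Finset.Ico (-((0 : ℕ) : ℤ)) D.N,
    (D.jh h b).coeff m • G b m := ⟨_, rfl⟩
  have h1 : D.jh (h - S) ∈ Pol Bool A (-(D.N : ℤ)) := by
    have h2 := sub_mon_mem_Pol (n := 0) (D.jh_Pol h) D.N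
    have h3 : ∑ b, ∑ m ∈ Finset.Ico (-((0 : ℕ) : ℤ)) D.N,
        (D.jh h b).coeff m • (D.jh (G b m) - mon b m 1) ∈ Pol Bool A (-(D.N : ℤ)) := by
      refine Submodule.sum_mem _ fun b _ => Submodule.sum_mem _ fun m hm =>
        Submodule.smul_mem _ _ (hG b m ?_)
      rw [Finset.mem_Ico] at hm
      omega
    have h4 := sub_mem h2 h3
    have e : D.jh (h - S) = D.jh h - ∑ b, ∑ m ∈ Finset.Ico (-((0 : ℕ) : ℤ)) D.N,
        mon b m ((D.jh h b).coeff m) - ∑ b, ∑ m ∈ Finset.Ico (-((0 : ℕ) : ℤ)) D.N,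
        (D.jh h b).coeff m • (D.jh (G b m) - mon b m 1) := by
      rw [map_sub, hS, map_sum]
      simp only [map_sum, map_smul, smul_sub, Finset.sum_sub_distrib, smul_mon, mul_one]
      ring
    rw [e]
    exact h4
  obtain ⟨c, hcC, e1, -⟩ := D.exists_c (h - S) h1
  have hSc : (S : KK I A) = ∑ b, ∑ m ∈ Finset.Ico (-((0 : ℕ) : ℤ)) D.N,
      (D.jh h b).coeff m • (G b m : KK I A) := by
    have h5 := congrArg (D.R.val.toLinearMap) hS
    rw [map_sum] at h5
    simp only [map_sum, map_smul] at h5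
    exact h5
  have hS0 : kmap φ (S : KK I A) = 0 := by
    rw [hSc, map_sum]
    refine Finset.sum_eq_zero fun b _ => ?_
    rw [map_sum]
    refine Finset.sum_eq_zero fun m _ => ?_
    rw [kmap_smul, hco, zero_smul]
  have e2 : ((h - S : D.R) : KK I A) = h - S := rfl
  have h6 : kmap φ (c : KK I A) = 0 := by
    rw [e1, e2, map_sub, h0, hS0, sub_zero]
  have h7 : (h : KK I A) = c + S := by
    rw [e1, e2, sub_add_cancel]
  rw [h7]
  refine add_mem (ker_C D hKBT hP c hcC h6) ?_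
  rw [hSc]
  exact Submodule.sum_mem _ fun b _ => Submodule.sum_mem _ fun m _ =>
    Submodule.smul_mem_smul (hco b m) (G b m).2

end full

end red2

end NPC

open NPC in
theorem t_NPC (hKSP : Stmt_KSP) (hKFL : Stmt_KFL) (hKBT : Stmt_KBT) (hKEQ : Stmt_KEQ)
    (hAYE : Stmt_AYE) (hAWK : Stmt_AWK) (hPL0 : Stmt_PL0) (hPL1 : Stmt_PL1) (hTCA : Stmt_TCA)
    (hNPY : Stmt_NPY) : Stmt_NPC := by
  clear hKSP hAYE
  intro I κ A _ _ _ _ _ rs g P R₀ pt₀ t j hn hP hR₀ hfs hsm hd ht hPT hj hc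
  obtain ⟨dens, N, y, hN, tN, hyu, hu, he⟩ := hNPY rs pt₀ j hn hP hR₀ hfs hsm hd ht hPT hj hc
  obtain ⟨low, -, huv, -⟩ := hPL0 t N tN
  obtain ⟨-, -, -, -, hW, -⟩ := hAWK hR₀ hsm pt₀ hd
  obtain ⟨yi, hyi⟩ := hyu.exists_right_inv
  choose a ha hja using hu
  choose e he1 he2 using he
  have hs1 : ∀ (k : ℤ) (f : PowerSeries A), ∀ m < k,
      (HahnSeries.single k (1 : A) * psl A f : LaurentSeries A).coeff m = 0 := by
    intro k f m hm
    refine mul_low (a := k) (b := 0) (fun m hm => ?_) (fun m hm => psl_coeff_neg _ hm) m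
      (by omega)
    rw [HahnSeries.coeff_single, if_neg (by omega)]
  let D : Dat t j :=
    { N := N
      y := y
      e := e
      yi := yi
      Y := fun b => HahnSeries.single (-(N : ℤ)) 1 * psl A ((ha b).unit⁻¹ : (PowerSeries A)ˣ)
      hN := hN
      tN := tN
      hj := hj
      hy := hyi
      hY := by
        funext b
        have h1 : a b * ((ha b).unit⁻¹ : (PowerSeries A)ˣ) = 1 := (ha b).mul_val_inv
        have h2 : (HahnSeries.single (N : ℤ) (1 : A) * HahnSeries.single (-(N : ℤ)) (1 : A) :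
            LaurentSeries A) = 1 := by
          rw [HahnSeries.single_mul_single, mul_one, add_neg_cancel]
          rfl
        rw [Pi.mul_apply, hja b, mul_mul_mul_comm, h2, one_mul, ← map_mul, h1, map_one]
        rfl
      jy := fun b m hm => by
        rw [hja b]
        exact hs1 _ _ m (by omega)
      Yp := fun b m hm => hs1 _ _ m (by omega)
      dens := dens
      he := he1
      hd := he2
      low := low
      huv := huv }
  have hφ : Function.Surjective (rs : A →+* κ) := fun k => ⟨algebraMap κ A k, rs.commutes k⟩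
  have hι : (rs : A →+* κ).comp (algebraMap κ A) = RingHom.id κ :=
    RingHom.ext fun k => rs.commutes k
  have hbc := bc_eq pt₀ D hφ hPT hc hW (algebraMap κ A) hι
  have hkr : IsKr g D.R := by
    refine hKFL (rs : A →+* κ) hφ hn D.R (by rw [hbc]; exact hR₀) fun p hp h0 => ?_
    exact ker_R pt₀ D hφ hPT hc hW hKBT hP ⟨p, hp⟩ h0
  obtain ⟨h1, h2, -⟩ := hTCA rs hn hkr (by rw [hbc]; exact hfs) (by rw [hbc]; exact hsm)
  refine ⟨D.R, hkr, hbc, h1, h2, D.pt, D.disj, ?_⟩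
  exact (hKEQ hP (hPL1 hkr h2 D.pt D.disj t ⟨N, tN⟩) D.P_le).symm

end Pool.Agent.MG.G0
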