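import Pool.Agent.MG.G0.StmtsNP
import Pool.Agent.MG.G0.StmtsB
import Pool.Agent.MG.G0.KRK

/-!
# NPG: the normalization of a node (PAPER_NP.md)
-/

open Polynomial

namespace Pool.Agent.MG.G0

namespace NPG

open KRK

/-! ## Linear algebra -/

/-- The kernel of a matrix of corank one. -/
theorem exists_ker {κ : Type} [Field κ] {d : ℕ} (hd : 2 ≤ d) (M : Matrix (Fin d) (Fin d) κ)
    (hr : M.rank = d - 1) : ∃ (v : Fin d → κ) (i₀ : Fin d), v i₀ = 1 ∧ M.mulVec v = 0 ∧
      ∀ w, M.mulVec w = 0 → ∃ a : κ, w = a • v := by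
  have h1 := LinearMap.finrank_range_add_finrank_ker M.mulVecLin
  rw [Module.finrank_fin_fun] at h1
  have h2 : Module.finrank κ (LinearMap.range M.mulVecLin) = d - 1 := hr
  have h3 : Module.finrank κ (LinearMap.ker M.mulVecLin) = 1 := by omega
  obtain ⟨⟨v, hv⟩, hv0, hv1⟩ := finrank_eq_one_iff'.1 h3
  have hv2 : v ≠ 0 := fun h => hv0 (Subtype.ext h)
  obtain ⟨i₀, hi⟩ : ∃ i, v i ≠ 0 := Function.ne_iff.1 hv2
  have hv3 : M.mulVec v = 0 := hv
  refine ⟨(v i₀)⁻¹ • v, i₀, ?_, ?_, ?_⟩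
  · rw [Pi.smul_apply, smul_eq_mul, inv_mul_cancel₀ hi]
  · rw [Matrix.mulVec_smul, hv3, smul_zero]
  · intro w hw
    obtain ⟨a, ha⟩ := hv1 ⟨w, hw⟩
    refine ⟨a * v i₀, ?_⟩
    rw [smul_smul, mul_assoc, mul_inv_cancel₀ hi, mul_one]
    exact (congrArg Subtype.val ha).symm

/-- Division of the Gram matrix. -/
theorem exists_div {κ : Type} [Field κ] {d : ℕ} (hd : 2 ≤ d)
    (G : Matrix (Fin d) (Fin d) κ[X]) (hsym : ∀ i j, G i j = G j i) (c : κ)
    (hr : (G.map (Polynomial.eval c)).rank = d - 1)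
    {w h : κ[X]} (hdet : G.det = w * ((X - C c) ^ 2 * h)) :
    ∃ (v : Fin d → κ) (i₀ : Fin d) (r : Fin d → κ[X]) (ρ : κ[X]) (G' : Matrix (Fin d) (Fin d) κ[X]),
      v i₀ = 1 ∧ (∀ a : Fin d → κ, (∀ k, ∑ j, a j * (G j k).eval c = 0) →
        ∃ b : κ, ∀ j, a j = b * v j) ∧
      (∀ k, ∑ j, C (v j) * G j k = (X - C c) * r k) ∧ (∑ k, r k * C (v k) = (X - C c) * ρ) ∧
      (∀ i j, G' i j = if i = i₀ then (if j = i₀ then ρ else r j) else
        (if j = i₀ then r i else G i j)) ∧ G'.det = w * h := by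
  classical
  obtain ⟨v, i₀, hv1, hv2, hv3⟩ := exists_ker hd _ hr
  have h1 : ∀ k, (X - C c) ∣ ∑ j, C (v j) * G j k := by
    intro k
    rw [dvd_iff_isRoot, IsRoot.def, eval_finsetSum]
    have h2 := congrFun hv2 k
    rw [Matrix.mulVec, dotProduct] at h2
    rw [← Pi.zero_apply (M := fun _ => κ) k, ← h2]
    refine Finset.sum_congr rfl fun j _ => ?_
    rw [eval_mul, eval_C, hsym j k, Matrix.map_apply, mul_comm]
  choose r hr' using h1
  have hX : (X - C c : κ[X]) ≠ 0 := X_sub_C_ne_zero c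
  let G₁ := G.updateRow i₀ r
  have hG1 : ∀ j, j ≠ i₀ → ∀ k, G₁ j k = G j k := fun j hj k =>
    congrFun (Matrix.updateRow_ne hj) k
  have hG2 : ∀ k, G₁ i₀ k = r k := fun k => congrFun Matrix.updateRow_self k
  have h3 : G₁.det = w * ((X - C c) * h) := by
    apply mul_left_cancel₀ hX
    rw [← Matrix.det_updateRow_smul]
    have h4 : (X - C c) • r = ∑ k, C (v k) • G k := by
      funext k
      rw [Pi.smul_apply, smul_eq_mul, ← hr' k, Finset.sum_apply]
      rfl
    rw [h4, Matrix.det_updateRow_sum, hv1, C_1, one_smul, hdet]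
    ring
  -- the value at `c` of `∑ r v`
  have h5 : (X - C c) ∣ ∑ k, r k * C (v k) := by
    rw [dvd_iff_isRoot, IsRoot.def, eval_finsetSum]
    have h6 : ((evalRingHom c).mapMatrix G₁).det = 0 := by
      rw [← RingHom.map_det, h3, map_mul, map_mul]
      simp
    obtain ⟨u, hu0, hu⟩ := Matrix.exists_mulVec_eq_zero_iff.2 h6
    have h7 : ∀ j, j ≠ i₀ → ∑ k, (G j k).eval c * u k = 0 := by
      intro j hj
      have h8 := congrFun hu j
      rw [Matrix.mulVec, dotProduct] at h8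
      rw [← Pi.zero_apply (M := fun _ => κ) j, ← h8]
      refine Finset.sum_congr rfl fun k _ => ?_
      rw [RingHom.mapMatrix_apply, Matrix.map_apply, hG1 j hj]
      rfl
    have h9 : ∑ k, (r k).eval c * u k = 0 := by
      have h8 := congrFun hu i₀
      rw [Matrix.mulVec, dotProduct] at h8
      rw [← Pi.zero_apply (M := fun _ => κ) i₀, ← h8]
      refine Finset.sum_congr rfl fun k _ => ?_
      rw [RingHom.mapMatrix_apply, Matrix.map_apply, hG2]
      rfl
    have h10 : (G.map (Polynomial.eval c)).mulVec u = 0 := by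
      funext j
      by_cases hj : j = i₀
      · -- `∑_j v_j G_jk(c) = 0`
        have h11 : ∑ j, v j * (∑ k, (G j k).eval c * u k) = 0 := by
          have h12 : ∀ k, ∑ j, v j * (G j k).eval c = 0 := by
            intro k
            have h13 := congrArg (Polynomial.eval c) (hr' k)
            rw [eval_finsetSum, eval_mul, eval_sub, eval_X, eval_C, sub_self, zero_mul] at h13
            rw [← h13]
            refine Finset.sum_congr rfl fun j _ => ?_
            rw [eval_mul, eval_C]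
          simp only [Finset.mul_sum]
          rw [Finset.sum_comm]
          refine Finset.sum_eq_zero fun k _ => ?_
          have h14 : ∀ j, v j * ((G j k).eval c * u k) = (v j * (G j k).eval c) * u k :=
            fun j => by ring
          simp only [h14]
          rw [← Finset.sum_mul, h12, zero_mul]
        rw [Finset.sum_eq_single i₀, hv1, one_mul] at h11
        · rw [hj, Matrix.mulVec, dotProduct]
          exact h11
        · intro j _ hj'
          rw [h7 j hj', mul_zero]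
        · intro h
          exact absurd (Finset.mem_univ _) h
      · rw [Matrix.mulVec, dotProduct]
        exact h7 j hj
    obtain ⟨a, ha⟩ := hv3 u h10
    have ha0 : a ≠ 0 := by
      rintro rfl
      rw [zero_smul] at ha
      exact hu0 ha
    apply mul_left_cancel₀ ha0
    rw [mul_zero, ← h9, Finset.mul_sum]
    refine Finset.sum_congr rfl fun k _ => ?_
    rw [ha, eval_mul, eval_C, Pi.smul_apply, smul_eq_mul]
    ring
  obtain ⟨ρ, hρ⟩ := h5
  refine ⟨v, i₀, r, ρ, G₁.updateCol i₀ (fun i => if i = i₀ then ρ else r i), hv1, ?_, hr', hρ,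
    ?_, ?_⟩
  · intro a ha
    obtain ⟨b, hb⟩ := hv3 a (by
      funext k
      rw [Matrix.mulVec, dotProduct, Pi.zero_apply, ← ha k]
      refine Finset.sum_congr rfl fun j _ => ?_
      rw [Matrix.map_apply, hsym k j, mul_comm])
    exact ⟨b, fun j => congrFun hb j⟩
  · intro i j
    rw [Matrix.updateCol_apply]
    by_cases hj : j = i₀
    · rw [if_pos hj, if_pos hj, if_pos hj]
    · rw [if_neg hj, if_neg hj, if_neg hj]
      by_cases hi : i = i₀
      · rw [if_pos hi, hi]
        exact hG2 j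
      · rw [if_neg hi]
        exact hG1 i hi j
  · apply mul_left_cancel₀ hX
    rw [← Matrix.det_updateCol_smul]
    have h4 : (X - C c) • (fun i => if i = i₀ then ρ else r i) =
        fun i => ∑ k, C (v k) • G₁ i k := by
      funext i
      rw [Pi.smul_apply, smul_eq_mul]
      by_cases hi : i = i₀
      · rw [if_pos hi, ← hρ, hi]
        refine Finset.sum_congr rfl fun k _ => ?_
        rw [smul_eq_mul, mul_comm]
        congr 1
        exact (hG2 k).symm
      · rw [if_neg hi, ← hr']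
        refine Finset.sum_congr rfl fun k _ => ?_
        rw [smul_eq_mul, hsym k i]
        congr 1
        exact (hG1 i hi k).symm
    rw [h4, Matrix.det_updateCol_sum, hv1, C_1, one_smul, h3]
    ring

/-- Quadratic polynomials split. -/
theorem exists_roots {κ : Type} [Field κ] [IsAlgClosed κ] (h2 : (2 : κ) ≠ 0) (a b : κ) :
    ∃ r s : κ, r + s = a ∧ r * s = -b := by
  obtain ⟨z, hz⟩ := IsAlgClosed.exists_eq_mul_self (a ^ 2 + 4 * b)
  refine ⟨(a + z) / 2, (a - z) / 2, ?_, ?_⟩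
  · field_simp
    ring
  · field_simp
    linear_combination hz

/-! ## The trace -/

section

variable {κ : Type} [Field κ] {g d : ℕ}

theorem zpol_ne_zero (hd : 0 < d) {p : κ[X]} (hp : p ≠ 0) : zpol κ d p ≠ 0 := by
  intro h
  apply hp
  apply zpol_inj hd.ne'
  rw [h, map_zero]

theorem zpol_C_mul (a : κ) (x : LaurentSeries κ) : zpol κ d (C a) * x = a • x := by
  rw [zpol, aeval_C, Algebra.smul_def]

theorem zpol_X_sub (c : κ) : zpol κ d (X - C c) = zz κ d - algebraMap κ (LaurentSeries κ) c := by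
  rw [map_sub, zpol, aeval_X, aeval_C]

/-- An element which acts as a scalar modulo `z - c` up to a multiple of itself. -/
theorem trace_eval (hZDU : Stmt_ZDU) (hd : 0 < d) (hdκ : ((d : ℕ) : κ) ≠ 0)
    {R : Subalgebra κ (LaurentSeries κ)} (hR : Kr g R) (hz : zz κ d ∈ R)
    {e : Fin d → LaurentSeries κ} {G : Matrix (Fin d) (Fin d) κ[X]} (hb : ZBas d R e)
    (hG : ZGram d e G) (c : κ) {b : LaurentSeries κ} {a f : Fin d → κ}
    (hba : b = ∑ j, a j • e j) {q : κ[X]} (hq : pr0 κ d b = zpol κ d q)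
    (h : ∀ i, ∃ r ∈ R, b * e i = f i • b + zpol κ d (X - C c) * r) :
    ∑ i, f i * a i = d * q.eval c := by
  obtain ⟨es, h1, h2, h3, -⟩ := ((hZDU hd hdκ R hR hz).2 e G hb hG).2
  choose r hr hr' using h
  choose n hn hn' using fun i => hb.uni (r i) (hr i)
  have h4 : ∀ i, b * e i = ∑ j, zpol κ d (C (f i * a j) + (X - C c) * n i j) * e j := by
    intro i
    have h5 : ∀ j, zpol κ d (C (f i * a j) + (X - C c) * n i j) * e j =
        f i • (a j • e j) + zpol κ d (X - C c) * (zpol κ d (n i j) * e j) := by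
      intro j
      rw [map_add, add_mul, zpol_C_mul, map_mul, mul_assoc, smul_smul]
    simp only [h5]
    rw [Finset.sum_add_distrib, ← Finset.smul_sum, ← Finset.mul_sum, ← hba, hr' i]
    congr 2
    exact hn i
  have h5 : zpol κ d (∑ i, (C (f i * a i) + (X - C c) * n i i)) =
      (d : LaurentSeries κ) * pr0 κ d b := by
    rw [← h3 b, map_sum]
    refine Finset.sum_congr rfl fun i _ => ?_
    rw [h4 i, Finset.sum_mul, map_sum]
    have h6 : ∀ j, pr0 κ d (zpol κ d (C (f i * a j) + (X - C c) * n i j) * e j * es i) =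
        if j = i then zpol κ d (C (f i * a j) + (X - C c) * n i j) else 0 := by
      intro j
      rw [mul_assoc, pr0_zpol_mul, h1, mul_ite, mul_one, mul_zero]
    simp only [h6]
    rw [Finset.sum_ite_eq', if_pos (Finset.mem_univ _)]
  have h6 : ∑ i, (C (f i * a i) + (X - C c) * n i i) = C (d : κ) * q := by
    apply zpol_inj hd.ne'
    rw [h5, map_mul, hq]
    congr 1
    rw [zpol, aeval_C, map_natCast]
  have h7 := congrArg (Polynomial.eval c) h6
  rw [eval_finsetSum, eval_mul, eval_C] at h7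
  rw [← h7]
  refine Finset.sum_congr rfl fun i _ => ?_
  rw [eval_add, eval_C, eval_mul, eval_sub, eval_X, eval_C, sub_self, zero_mul, add_zero]

end

/-! ## The element `y` -/

/-- The data at the node. -/
structure Node {κ : Type} [Field κ] (d : ℕ) (P : Subalgebra κ (LaurentSeries κ))
    (e : Fin d → LaurentSeries κ) (G : Matrix (Fin d) (Fin d) κ[X]) (c : κ) (v : Fin d → κ)
    (i₀ : Fin d) (r : Fin d → κ[X]) (ρ : κ[X]) (y : LaurentSeries κ) : Prop where
  hd : 0 < d
  hz : zz κ d ∈ P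
  hb : ZBas d P e
  hG : ZGram d e G
  hv : v i₀ = 1
  ker : ∀ a : Fin d → κ, (∀ k, ∑ j, a j * (G j k).eval c = 0) → ∃ b : κ, ∀ j, a j = b * v j
  hr : ∀ k, ∑ j, C (v j) * G j k = (X - C c) * r k
  hρ : ∑ k, r k * C (v k) = (X - C c) * ρ
  hy : zpol κ d (X - C c) * y = ∑ j, v j • e j

namespace Node

variable {κ : Type} [Field κ] {d : ℕ} {P : Subalgebra κ (LaurentSeries κ)}
  {e : Fin d → LaurentSeries κ} {G : Matrix (Fin d) (Fin d) κ[X]} {c : κ} {v : Fin d → κ}
  {i₀ : Fin d} {r : Fin d → κ[X]} {ρ : κ[X]} {y : LaurentSeries κ}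
  (N : Node d P e G c v i₀ r ρ y)

include N

theorem s_ne : zpol κ d (X - C c : κ[X]) ≠ 0 := zpol_ne_zero N.hd (X_sub_C_ne_zero c)

theorem s_mem (q : κ[X]) : zpol κ d q ∈ P := zpol_mem N.hz q

theorem sy_mem : zpol κ d (X - C c) * y ∈ P := by
  rw [N.hy]
  exact Subalgebra.sum_mem _ fun j _ => P.smul_mem (N.hb.mem j) _

theorem pr_y_e (k : Fin d) : pr0 κ d (y * e k) = zpol κ d (r k) := by
  apply mul_left_cancel₀ N.s_ne
  rw [← pr0_zpol_mul, ← mul_assoc, N.hy, ← map_mul, ← N.hr k, Finset.sum_mul, map_sum, map_sum]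
  refine Finset.sum_congr rfl fun j _ => ?_
  rw [smul_mul_assoc, map_smul, ← N.hG j k, map_mul, zpol_C_mul]

/-- `pr0 (x p)` is a polynomial for `p` in `P` if it is one for the basis. -/
theorem pr_poly {x : LaurentSeries κ} (hx : ∀ k, ∃ q : κ[X], pr0 κ d (x * e k) = zpol κ d q)
    {p : LaurentSeries κ} (hp : p ∈ P) : ∃ q : κ[X], pr0 κ d (x * p) = zpol κ d q := by
  choose q hq using hx
  obtain ⟨a, ha, -⟩ := N.hb.uni p hp
  refine ⟨∑ k, a k * q k, ?_⟩
  rw [ha, Finset.mul_sum, map_sum, map_sum]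
  refine Finset.sum_congr rfl fun k _ => ?_
  rw [mul_left_comm, pr0_zpol_mul, hq, map_mul]

theorem pr_y {p : LaurentSeries κ} (hp : p ∈ P) :
    ∃ q : κ[X], pr0 κ d (y * p) = zpol κ d q :=
  N.pr_poly (fun k => ⟨r k, N.pr_y_e k⟩) hp

theorem pr_yy : pr0 κ d (y * y) = zpol κ d ρ := by
  apply mul_left_cancel₀ N.s_ne
  rw [← pr0_zpol_mul, ← mul_assoc, N.hy, ← map_mul, ← N.hρ, Finset.sum_mul, map_sum, map_sum]
  refine Finset.sum_congr rfl fun j _ => ?_
  rw [smul_mul_assoc, map_smul, mul_comm (e j), N.pr_y_e, mul_comm (r j), map_mul, zpol_C_mul]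

theorem mem_span {x : LaurentSeries κ} (hx : zpol κ d (X - C c) * x ∈ P)
    (h : ∀ k, ∃ q : κ[X], pr0 κ d (x * e k) = zpol κ d q) :
    ∃ p ∈ P, ∃ a : κ, x = p + a • y := by
  choose q hq using h
  obtain ⟨a, ha, -⟩ := N.hb.uni _ hx
  have h1 : ∀ k, ∑ j, a j * G j k = (X - C c) * q k := by
    intro k
    apply zpol_inj N.hd.ne'
    rw [map_mul, ← hq k, ← pr0_zpol_mul, ← mul_assoc, ha, Finset.sum_mul, map_sum, map_sum]
    refine Finset.sum_congr rfl fun j _ => ?_
    rw [mul_assoc, pr0_zpol_mul, map_mul, N.hG j k]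
  obtain ⟨b, hb⟩ := N.ker (fun j => (a j).eval c) (by
    intro k
    have h2 := congrArg (Polynomial.eval c) (h1 k)
    rw [eval_finsetSum, eval_mul, eval_sub, eval_X, eval_C, sub_self, zero_mul] at h2
    rw [← h2]
    refine Finset.sum_congr rfl fun j _ => ?_
    rw [eval_mul])
  have h3 : ∀ j, (X - C c) ∣ a j - C (b * v j) := by
    intro j
    rw [dvd_iff_isRoot, IsRoot.def, eval_sub, eval_C, ← hb j, sub_self]
  choose n hn using h3
  refine ⟨∑ j, zpol κ d (n j) * e j, Subalgebra.sum_mem _ fun j _ =>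
    mul_mem (N.s_mem _) (N.hb.mem j), b, ?_⟩
  apply mul_left_cancel₀ N.s_ne
  rw [mul_add, mul_smul_comm, N.hy, ha, Finset.mul_sum, Finset.smul_sum, ← Finset.sum_add_distrib]
  refine Finset.sum_congr rfl fun j _ => ?_
  rw [← mul_assoc, ← map_mul, ← hn j, map_sub, sub_mul, zpol_C_mul, smul_smul, sub_add_cancel]

theorem exists_y {p : LaurentSeries κ} (hp : p ∈ P) : ∃ p' ∈ P, ∃ a : κ, y * p = p' + a • y := by
  apply N.mem_span
  · rw [← mul_assoc]
    exact mul_mem N.sy_mem hp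
  · intro k
    rw [mul_assoc]
    exact N.pr_y (mul_mem hp (N.hb.mem k))

theorem not_mem : y ∉ P := by
  intro h
  obtain ⟨a, ha, -⟩ := N.hb.uni y h
  have h1 := N.hy
  rw [ha, Finset.mul_sum] at h1
  have h2 : (fun j => (X - C c) * a j) = fun j => C (v j) := by
    apply (N.hb.uni _ N.sy_mem).unique
    · rw [ha, Finset.mul_sum]
      refine Finset.sum_congr rfl fun j _ => ?_
      rw [← mul_assoc, map_mul]
    · rw [N.hy]
      refine Finset.sum_congr rfl fun j _ => ?_
      rw [zpol_C_mul]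
  have h3 := congrArg (Polynomial.eval c) (congrFun h2 i₀)
  simp only [eval_mul, eval_sub, eval_X, eval_C, sub_self, zero_mul, N.hv] at h3
  exact zero_ne_one h3

theorem pr_yyp {p : LaurentSeries κ} (hp : p ∈ P) :
    ∃ q : κ[X], pr0 κ d (y * y * p) = zpol κ d q := by
  obtain ⟨p', hp', a, ha⟩ := N.exists_y hp
  obtain ⟨q, hq⟩ := N.pr_y hp'
  refine ⟨q + C a * ρ, ?_⟩
  rw [mul_assoc, ha, mul_add, map_add, hq, mul_smul_comm, map_smul, N.pr_yy, map_add, map_mul,
    zpol_C_mul]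

theorem exists_mu : ∃ μ : LaurentSeries κ →ₗ[κ] κ, (∀ p ∈ P, μ p = 0) ∧ μ y = 1 := by
  obtain ⟨f, hf, hf'⟩ := Submodule.exists_le_ker_of_notMem (p := Subalgebra.toSubmodule P)
    N.not_mem
  refine ⟨(f y)⁻¹ • f, fun p hp => ?_, ?_⟩
  · have h1 : f p = 0 := hf' hp
    rw [LinearMap.smul_apply, h1, smul_zero]
  · rw [LinearMap.smul_apply, smul_eq_mul, inv_mul_cancel₀ hf]

theorem mu_mul {μ : LaurentSeries κ →ₗ[κ] κ} (hμ : ∀ p ∈ P, μ p = 0) (hμy : μ y = 1)
    {p : LaurentSeries κ} (hp : p ∈ P) : ∃ p' ∈ P, y * p = p' + μ (y * p) • y := by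
  obtain ⟨p', hp', a, ha⟩ := N.exists_y hp
  have h1 : μ (y * p) = a := by
    rw [ha, map_add, map_smul, hμ _ hp', hμy, smul_eq_mul, mul_one, zero_add]
  exact ⟨p', hp', by rw [h1, ha]⟩

theorem mu_xy (hZDU : Stmt_ZDU) (hdκ : ((d : ℕ) : κ) ≠ 0) {g : ℕ} (hP : Kr g P)
    {μ : LaurentSeries κ →ₗ[κ] κ} (hμ : ∀ p ∈ P, μ p = 0) (hμy : μ y = 1) :
    μ (y * (zpol κ d (X - C c) * y)) = 0 := by
  obtain ⟨q, hq⟩ := N.pr_y (one_mem P)
  have h1 := trace_eval hZDU N.hd hdκ hP N.hz N.hb N.hG c (b := zpol κ d (X - C c) * y)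
    (a := v) (f := fun i => μ (y * e i)) N.hy (q := (X - C c) * q) (by
      rw [pr0_zpol_mul, map_mul, ← hq, mul_one]) (by
      intro i
      obtain ⟨p', hp', h⟩ := N.mu_mul hμ hμy (N.hb.mem i)
      refine ⟨p', hp', ?_⟩
      rw [mul_assoc, h, mul_add, mul_smul_comm, add_comm, map_add, map_smul, hμ _ hp', hμy,
        zero_add, smul_eq_mul, mul_one])
  rw [eval_mul, eval_sub, eval_X, eval_C, sub_self, zero_mul, mul_zero] at h1
  rw [N.hy, Finset.mul_sum, map_sum, ← h1]
  refine Finset.sum_congr rfl fun i _ => ?_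
  rw [mul_smul_comm, map_smul, smul_eq_mul, mul_comm]

theorem y_y (hZDU : Stmt_ZDU) (hdκ : ((d : ℕ) : κ) ≠ 0) {g : ℕ} (hP : Kr g P) :
    ∃ p ∈ P, ∃ a : κ, y * y = p + a • y := by
  obtain ⟨μ, hμ, hμy⟩ := N.exists_mu
  apply N.mem_span
  · obtain ⟨p', hp', h⟩ := N.mu_mul hμ hμy N.sy_mem
    rw [N.mu_xy hZDU hdκ hP hμ hμy, zero_smul, add_zero] at h
    rw [← mul_assoc, mul_comm, h]
    exact hp'
  · intro k
    exact N.pr_yyp (N.hb.mem k)

/-- The ring `P + κ y`. -/
theorem exists_R (hyy : ∃ p ∈ P, ∃ a : κ, y * y = p + a • y) :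
    ∃ R : Subalgebra κ (LaurentSeries κ), ∀ x, x ∈ R ↔ ∃ p ∈ P, ∃ a : κ, x = p + a • y := by
  refine ⟨{ carrier := {x | ∃ p ∈ P, ∃ a : κ, x = p + a • y}
            mul_mem' := ?_
            add_mem' := ?_
            algebraMap_mem' := ?_ }, fun x => Iff.rfl⟩
  · rintro _ _ ⟨p, hp, a, rfl⟩ ⟨p', hp', b, rfl⟩
    obtain ⟨p₁, hp₁, a₁, h₁⟩ := N.exists_y hp
    obtain ⟨p₂, hp₂, a₂, h₂⟩ := N.exists_y hp'
    obtain ⟨p₃, hp₃, a₃, h₃⟩ := hyy
    refine ⟨p * p' + b • p₁ + a • p₂ + (a * b) • p₃, add_mem (add_mem (add_mem (mul_mem hp hp')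
      (P.smul_mem hp₁ _)) (P.smul_mem hp₂ _)) (P.smul_mem hp₃ _), b * a₁ + a * a₂ + a * b * a₃, ?_⟩
    simp only [Algebra.smul_def, map_add, map_mul] at h₁ h₂ h₃ ⊢
    linear_combination (algebraMap κ (LaurentSeries κ) b) * h₁ +
      (algebraMap κ (LaurentSeries κ) a) * h₂ +
      (algebraMap κ (LaurentSeries κ) a) * (algebraMap κ (LaurentSeries κ) b) * h₃
  · rintro _ _ ⟨p, hp, a, rfl⟩ ⟨p', hp', b, rfl⟩
    refine ⟨p + p', add_mem hp hp', a + b, ?_⟩
    rw [add_smul]
    abel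
  · intro a
    exact ⟨_, P.algebraMap_mem a, 0, by rw [zero_smul, add_zero]⟩

theorem kr_R [IsAlgClosed κ] (h2 : (2 : κ) ≠ 0) {g : ℕ} (hP : Kr (g + 1) P)
    {R : Subalgebra κ (LaurentSeries κ)}
    (hR : ∀ x, x ∈ R ↔ ∃ p ∈ P, ∃ a : κ, x = p + a • y) : Kr g R := by
  obtain ⟨h1, L, hL, hk⟩ := Kr_iff.1 hP
  have hyR : y ∈ R := (hR y).2 ⟨0, zero_mem P, 1, by rw [one_smul, zero_add]⟩
  have hPR : P ≤ R := fun x hx => (hR x).2 ⟨x, hx, 0, by rw [zero_smul, add_zero]⟩
  have K1 : ∀ f ∈ R, f ∈ Po κ 0 → ∃ a : κ, f = algebraMap κ (LaurentSeries κ) a := by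
    intro f hf hf0
    obtain ⟨p, hp, a, ha⟩ := (hR f).1 hf
    by_cases ha0 : a = 0
    · apply h1 f _ hf0
      rw [ha, ha0, zero_smul, add_zero]
      exact hp
    · obtain ⟨p₁, hp₁, a₁, ha₁⟩ := (hR (f * f)).1 (mul_mem hf hf)
      have h3 : p₁ - (a₁ / a) • p = f * f - (a₁ / a) • f := by
        have h4 : (a₁ / a) • f = (a₁ / a) • p + a₁ • y := by
          nth_rewrite 1 [ha]
          rw [smul_add, smul_smul, div_mul_cancel₀ _ ha0]
        rw [h4, ha₁]
        abel
      have h4 : p₁ - (a₁ / a) • p ∈ Po κ 0 := by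
        rw [h3]
        have h5 := ZL.mul_mem_Pl (a := 0) (b := 0) hf0 hf0
        rw [add_zero] at h5
        exact sub_mem h5 (Submodule.smul_mem _ _ hf0)
      obtain ⟨b, hb⟩ := h1 _ (sub_mem hp₁ (P.smul_mem hp _)) h4
      obtain ⟨r', s', h5, h6⟩ := exists_roots h2 (a₁ / a) b
      have h7 : (f - algebraMap κ (LaurentSeries κ) r') *
          (f - algebraMap κ (LaurentSeries κ) s') = 0 := by
        have h8 := congrArg (algebraMap κ (LaurentSeries κ)) h5
        have h9 := congrArg (algebraMap κ (LaurentSeries κ)) h6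
        rw [map_add] at h8
        rw [map_mul, map_neg] at h9
        rw [h3, Algebra.smul_def] at hb
        linear_combination hb - f * h8 + h9
      rcases mul_eq_zero.1 h7 with h8 | h8
      · exact ⟨r', sub_eq_zero.1 h8⟩
      · exact ⟨s', sub_eq_zero.1 h8⟩
  have hLy : L y ≠ 0 := by
    intro h
    obtain ⟨p, hp, hq⟩ := (hk y).1 h
    obtain ⟨a, ha⟩ := K1 _ (sub_mem hyR (hPR hp)) hq
    apply N.not_mem
    have h3 : y = algebraMap κ (LaurentSeries κ) a + p := by rw [← ha, sub_add_cancel]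
    rw [h3]
    exact add_mem (P.algebraMap_mem a) hp
  have h3 := Submodule.finrank_quotient_add_finrank (Submodule.span κ {L y})
  rw [finrank_span_singleton hLy, Module.finrank_fin_fun] at h3
  have h4 : Module.finrank κ ((Fin (g + 1) → κ) ⧸ Submodule.span κ {L y}) =
      Module.finrank κ (Fin g → κ) := by
    rw [Module.finrank_fin_fun]
    omega
  let φ := LinearEquiv.ofFinrankEq _ _ h4
  refine Kr_iff.2 ⟨K1, φ.toLinearMap ∘ₗ (Submodule.span κ {L y}).mkQ ∘ₗ L, ?_, ?_⟩
  · exact φ.surjective.comp ((Submodule.mkQ_surjective _).comp hL)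
  · intro f
    have h5 : (φ.toLinearMap ∘ₗ (Submodule.span κ {L y}).mkQ ∘ₗ L) f = 0 ↔
        L f ∈ Submodule.span κ {L y} := by
      change φ ((Submodule.span κ {L y}).mkQ (L f)) = 0 ↔ _
      rw [LinearEquiv.map_eq_zero_iff, Submodule.mkQ_apply, Submodule.Quotient.mk_eq_zero]
    rw [h5, Submodule.mem_span_singleton]
    constructor
    · rintro ⟨a, ha⟩
      have h6 : L (f - a • y) = 0 := by rw [map_sub, map_smul, ha, sub_self]
      obtain ⟨p, hp, hq⟩ := (hk _).1 h6
      refine ⟨p + a • y, (hR _).2 ⟨p, hp, a, rfl⟩, ?_⟩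
      have h7 : f - (p + a • y) = f - a • y - p := by abel
      rw [h7]
      exact hq
    · rintro ⟨r', hr', hq⟩
      obtain ⟨p, hp, a, ha⟩ := (hR _).1 hr'
      refine ⟨a, ?_⟩
      have h6 : L (f - a • y) = 0 := by
        rw [hk]
        refine ⟨p, hp, ?_⟩
        have h7 : f - a • y - p = f - r' := by
          rw [ha]
          abel
        rw [h7]
        exact hq
      rw [map_sub, map_smul, sub_eq_zero] at h6
      exact h6.symm

/-! ### The basis of `R` -/

omit N in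
theorem sum_upd (e : Fin d → LaurentSeries κ) (i₀ : Fin d) (y : LaurentSeries κ)
    (a : Fin d → κ[X]) : ∑ j, zpol κ d (a j) * Function.update e i₀ y j =
      ∑ j, zpol κ d (a j) * e j + zpol κ d (a i₀) * (y - e i₀) := by
  have h1 : ∀ j, zpol κ d (a j) * Function.update e i₀ y j = zpol κ d (a j) * e j +
      if j = i₀ then zpol κ d (a i₀) * (y - e i₀) else 0 := by
    intro j
    by_cases h : j = i₀
    · rw [if_pos h, h, Function.update_self]
      ring
    · rw [if_neg h, Function.update_of_ne h, add_zero]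
  simp only [h1]
  rw [Finset.sum_add_distrib, Finset.sum_ite_eq', if_pos (Finset.mem_univ _)]

theorem upd_unique {a b : Fin d → κ[X]}
    (h : ∑ j, zpol κ d (a j) * Function.update e i₀ y j =
      ∑ j, zpol κ d (b j) * Function.update e i₀ y j) : a = b := by
  have h1 : ∀ a : Fin d → κ[X], zpol κ d (X - C c) *
      (∑ j, zpol κ d (a j) * Function.update e i₀ y j) =
      ∑ j, zpol κ d (if j = i₀ then a i₀ else (X - C c) * a j + a i₀ * C (v j)) * e j := by
    intro a
    have h2 : ∀ j, zpol κ d (if j = i₀ then a i₀ else (X - C c) * a j + a i₀ * C (v j)) * e j =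
        zpol κ d (X - C c) * (zpol κ d (a j) * e j) + zpol κ d (a i₀) * (v j • e j) -
          if j = i₀ then zpol κ d (X - C c) * (zpol κ d (a i₀) * e i₀) else 0 := by
      intro j
      by_cases h : j = i₀
      · rw [if_pos h, if_pos h, h, N.hv, one_smul]
        ring
      · rw [if_neg h, if_neg h, map_add, map_mul, map_mul, add_mul, mul_assoc, mul_assoc,
          zpol_C_mul, sub_zero]
    simp only [h2]
    rw [sum_upd, Finset.sum_sub_distrib, Finset.sum_add_distrib, ← Finset.mul_sum,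
      ← Finset.mul_sum, ← N.hy, Finset.sum_ite_eq', if_pos (Finset.mem_univ _)]
    ring
  have h2 : (fun j => if j = i₀ then a i₀ else (X - C c) * a j + a i₀ * C (v j)) =
      fun j => if j = i₀ then b i₀ else (X - C c) * b j + b i₀ * C (v j) := by
    have hm : (∑ j, zpol κ d (if j = i₀ then a i₀ else (X - C c) * a j + a i₀ * C (v j)) * e j) ∈
        P := Subalgebra.sum_mem _ fun j _ => mul_mem (N.s_mem _) (N.hb.mem j)
    apply (N.hb.uni _ hm).unique
    · rfl
    · rw [← h1 a, h, h1 b]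
  have h3 : a i₀ = b i₀ := by
    have h4 := congrFun h2 i₀
    simp only [if_true] at h4
    exact h4
  funext j
  by_cases hj : j = i₀
  · rw [hj, h3]
  · have h4 := congrFun h2 j
    simp only [if_neg hj] at h4
    rw [h3] at h4
    exact mul_left_cancel₀ (X_sub_C_ne_zero c) (add_right_cancel h4)

theorem zbas_R {R : Subalgebra κ (LaurentSeries κ)}
    (hR : ∀ x, x ∈ R ↔ ∃ p ∈ P, ∃ a : κ, x = p + a • y) :
    ZBas d R (Function.update e i₀ y) := by
  have hyR : y ∈ R := (hR y).2 ⟨0, zero_mem P, 1, by rw [one_smul, zero_add]⟩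
  have hPR : P ≤ R := fun x hx => (hR x).2 ⟨x, hx, 0, by rw [zero_smul, add_zero]⟩
  refine ⟨fun i => ?_, fun x hx => ?_⟩
  · by_cases h : i = i₀
    · rw [h, Function.update_self]
      exact hyR
    · rw [Function.update_of_ne h]
      exact hPR (N.hb.mem i)
  · obtain ⟨p, hp, a, ha⟩ := (hR x).1 hx
    obtain ⟨b, hb, -⟩ := N.hb.uni p hp
    refine ⟨fun j => (b j - b i₀ * C (v j)) + if j = i₀ then b i₀ * (X - C c) + C a else 0,
      ?_, ?_⟩
    · change x = ∑ j, zpol κ d ((b j - b i₀ * C (v j)) +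
        if j = i₀ then b i₀ * (X - C c) + C a else 0) * Function.update e i₀ y j
      rw [sum_upd]
      have h1 : ∀ j, zpol κ d ((b j - b i₀ * C (v j)) +
          if j = i₀ then b i₀ * (X - C c) + C a else 0) * e j =
          zpol κ d (b j) * e j - zpol κ d (b i₀) * (v j • e j) +
            if j = i₀ then zpol κ d (b i₀ * (X - C c) + C a) * e i₀ else 0 := by
        intro j
        by_cases h : j = i₀
        · rw [if_pos h, if_pos h, h, map_add, map_sub, map_mul, add_mul, sub_mul, mul_assoc,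
            zpol_C_mul]
        · rw [if_neg h, if_neg h, map_add, map_sub, map_mul, add_mul, sub_mul, mul_assoc,
            zpol_C_mul, map_zero, zero_mul]
      simp only [h1]
      rw [Finset.sum_add_distrib, Finset.sum_sub_distrib, ← Finset.mul_sum, ← hb, ← N.hy,
        Finset.sum_ite_eq', if_pos (Finset.mem_univ _), if_pos trivial, N.hv, C_1, mul_one, sub_self,
        zero_add, ha, map_add, map_mul, add_mul, add_mul, mul_sub, mul_sub, zpol_C_mul,
        zpol_C_mul]
      ring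
    · intro a' ha'
      apply N.upd_unique
      rw [← ha', sum_upd]
      have h1 : ∀ j, zpol κ d ((b j - b i₀ * C (v j)) +
          if j = i₀ then b i₀ * (X - C c) + C a else 0) * e j =
          zpol κ d (b j) * e j - zpol κ d (b i₀) * (v j • e j) +
            if j = i₀ then zpol κ d (b i₀ * (X - C c) + C a) * e i₀ else 0 := by
        intro j
        by_cases h : j = i₀
        · rw [if_pos h, if_pos h, h, map_add, map_sub, map_mul, add_mul, sub_mul, mul_assoc,
            zpol_C_mul]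
        · rw [if_neg h, if_neg h, map_add, map_sub, map_mul, add_mul, sub_mul, mul_assoc,
            zpol_C_mul, map_zero, zero_mul]
      simp only [h1]
      rw [Finset.sum_add_distrib, Finset.sum_sub_distrib, ← Finset.mul_sum, ← hb, ← N.hy,
        Finset.sum_ite_eq', if_pos (Finset.mem_univ _), if_pos trivial, N.hv, C_1, mul_one,
        sub_self, zero_add, ha, map_add, map_mul, add_mul, add_mul, mul_sub, mul_sub, zpol_C_mul,
        zpol_C_mul]
      ring

theorem zgram_R {G' : Matrix (Fin d) (Fin d) κ[X]}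
    (hG' : ∀ i j, G' i j = if i = i₀ then (if j = i₀ then ρ else r j) else
        (if j = i₀ then r i else G i j)) : ZGram d (Function.update e i₀ y) G' := by
  intro i j
  rw [hG']
  by_cases hi : i = i₀
  · rw [if_pos hi, hi, Function.update_self]
    by_cases hj : j = i₀
    · rw [if_pos hj, hj, Function.update_self, N.pr_yy]
    · rw [if_neg hj, Function.update_of_ne hj, N.pr_y_e]
  · rw [if_neg hi, Function.update_of_ne hi]
    by_cases hj : j = i₀
    · rw [if_pos hj, hj, Function.update_self, mul_comm, N.pr_y_e]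
    · rw [if_neg hj, Function.update_of_ne hj, N.hG]

/-! ### The two points -/

/-- The functional `x ↦ μ (x (y - β))`. -/
noncomputable def F (μ : LaurentSeries κ →ₗ[κ] κ) (y : LaurentSeries κ) (β : κ) :
    LaurentSeries κ →ₗ[κ] κ :=
  μ ∘ₗ LinearMap.mulRight κ (y - algebraMap κ (LaurentSeries κ) β)

omit N in
theorem F_apply (μ : LaurentSeries κ →ₗ[κ] κ) (y : LaurentSeries κ) (β : κ)
    (x : LaurentSeries κ) : F μ y β x = μ (x * y) - β * μ x := by
  change μ (x * (y - algebraMap κ (LaurentSeries κ) β)) = _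
  rw [mul_sub, map_sub, mul_comm x (algebraMap κ (LaurentSeries κ) β), ← Algebra.smul_def,
    map_smul, smul_eq_mul]

omit N in
theorem F_one {μ : LaurentSeries κ →ₗ[κ] κ} (hμ : ∀ p ∈ P, μ p = 0) (hμy : μ y = 1) (β : κ) :
    F μ y β 1 = 1 := by
  rw [F_apply, one_mul, hμy, hμ 1 (one_mem P), mul_zero, sub_zero]

theorem F_zpol {μ : LaurentSeries κ →ₗ[κ] κ} (hμ : ∀ p ∈ P, μ p = 0) (hμy : μ y = 1) (β : κ)
    (q : κ[X]) : F μ y β (zpol κ d q) = q.eval c := by
  rw [F_apply, hμ _ (N.s_mem q), mul_zero, sub_zero]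
  obtain ⟨n, hn⟩ : (X - C c) ∣ q - C (q.eval c) := by
    rw [dvd_iff_isRoot, IsRoot.def, eval_sub, eval_C, sub_self]
  have h1 : q = (X - C c) * n + C (q.eval c) := by rw [← hn, sub_add_cancel]
  have h2 : zpol κ d q * y = zpol κ d n * (zpol κ d (X - C c) * y) + q.eval c • y := by
    nth_rewrite 1 [h1]
    rw [map_add, add_mul, zpol_C_mul, map_mul]
    ring
  rw [h2, map_add, hμ _ (mul_mem (N.s_mem _) N.sy_mem), map_smul, hμy, zero_add, smul_eq_mul,
    mul_one]

theorem F_mul {μ : LaurentSeries κ →ₗ[κ] κ} (hμ : ∀ p ∈ P, μ p = 0) (hμy : μ y = 1)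
    {p₀ : LaurentSeries κ} (hp₀ : p₀ ∈ P) {α β β' : κ} (hyy : y * y = p₀ + α • y)
    (h1 : β + β' = α) (h2 : β * β' = -μ (y * p₀)) {x x' : LaurentSeries κ}
    (hx : ∃ p ∈ P, ∃ a : κ, x = p + a • y) (hx' : ∃ p ∈ P, ∃ a : κ, x' = p + a • y) :
    F μ y β (x * x') = F μ y β x * F μ y β x' := by
  obtain ⟨p, hp, a, rfl⟩ := hx
  obtain ⟨p', hp', b, rfl⟩ := hx'
  have hyy' : μ (y * y) = α := by
    rw [hyy, map_add, hμ _ hp₀, map_smul, hμy, zero_add, smul_eq_mul, mul_one]
  have c1 : μ (p * p' * y) = μ (p * y) * μ (p' * y) := by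
    obtain ⟨p₁, hp₁, h⟩ := N.mu_mul hμ hμy hp'
    have h3 : p * p' * y = p * p₁ + μ (y * p') • (p * y) := by
      have h4 : p * p' * y = p * (y * p') := by ring
      nth_rewrite 1 [h4, h]
      rw [mul_add, mul_smul_comm]
    rw [h3, map_add, map_smul, hμ _ (mul_mem hp hp₁), zero_add, smul_eq_mul, mul_comm y p',
      mul_comm]
  have c2 : ∀ p ∈ P, μ (p * (y * y)) = α * μ (p * y) := by
    intro p hp
    rw [hyy, mul_add, map_add, hμ _ (mul_mem hp hp₀), mul_smul_comm, map_smul, zero_add,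
      smul_eq_mul]
  have c3 : μ (y * (y * y)) = μ (y * p₀) + α * α := by
    have h3 : y * (y * y) = y * p₀ + α • (y * y) := by
      nth_rewrite 1 [hyy]
      rw [mul_add, mul_smul_comm]
    rw [h3, map_add, map_smul, hyy', smul_eq_mul]
  have h3 : (p + a • y) * (p' + b • y) = p * p' + b • (p * y) + a • (p' * y) +
      (a * b) • (y * y) := by
    simp only [Algebra.smul_def, map_mul]
    ring
  have h4 : (p * p' + b • (p * y) + a • (p' * y) + (a * b) • (y * y)) * y =
      p * p' * y + b • (p * (y * y)) + a • (p' * (y * y)) + (a * b) • (y * (y * y)) := by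
    simp only [Algebra.smul_def, map_mul]
    ring
  have h5 : (p + a • y) * y = p * y + a • (y * y) := by
    rw [add_mul, smul_mul_assoc]
  have h6 : (p' + b • y) * y = p' * y + b • (y * y) := by
    rw [add_mul, smul_mul_assoc]
  rw [F_apply, F_apply, F_apply, h3, h4, h5, h6]
  simp only [map_add, map_smul, smul_eq_mul, hμ _ (mul_mem hp hp'), hμ _ hp, hμ _ hp', c1, c3,
    c2 _ hp, c2 _ hp', hyy', hμy]
  have h7 : μ (y * p₀) = -(β * β') := by rw [h2, neg_neg]
  rw [h7, ← h1]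
  ring

/-- The two values of `y` are different. -/
theorem ne_roots (hZDU : Stmt_ZDU) (hdκ : ((d : ℕ) : κ) ≠ 0) {g : ℕ}
    {R : Subalgebra κ (LaurentSeries κ)} (hKR : Kr g R)
    (hR : ∀ x, x ∈ R ↔ ∃ p ∈ P, ∃ a : κ, x = p + a • y)
    {G' : Matrix (Fin d) (Fin d) κ[X]} (hG' : ZGram d (Function.update e i₀ y) G')
    (hdet : G'.det.eval c ≠ 0)
    {μ : LaurentSeries κ →ₗ[κ] κ} (hμ : ∀ p ∈ P, μ p = 0) (hμy : μ y = 1)
    {p₀ : LaurentSeries κ} (hp₀ : p₀ ∈ P) {α β β' : κ} (hyy : y * y = p₀ + α • y)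
    (h1 : β + β' = α) (h2 : β * β' = -μ (y * p₀)) : β ≠ β' := by
  classical
  intro hβ
  have hyR : y ∈ R := (hR y).2 ⟨0, zero_mem P, 1, by rw [one_smul, zero_add]⟩
  have hPR : P ≤ R := fun x hx => (hR x).2 ⟨x, hx, 0, by rw [zero_smul, add_zero]⟩
  have hzR : ∀ q : κ[X], zpol κ d q ∈ R := fun q => hPR (N.s_mem q)
  have hyy' : μ (y * y) = α := by
    rw [hyy, map_add, hμ _ hp₀, map_smul, hμy, zero_add, smul_eq_mul, mul_one]
  have hb := N.zbas_R hR
  have hF : ∀ x ∈ R, ∀ x' ∈ R, F μ y β (x * x') = F μ y β x * F μ y β x' := fun x hx x' hx' =>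
    N.F_mul hμ hμy hp₀ hyy h1 h2 ((hR x).1 hx) ((hR x').1 hx')
  -- evaluation at `c`
  let M : Matrix (Fin d) (Fin d) κ := G'.map (Polynomial.eval c)
  have hM : M.det ≠ 0 := by
    have h3 : M = (evalRingHom c).mapMatrix G' := rfl
    rw [h3, ← RingHom.map_det]
    exact hdet
  have hM' : IsUnit M.det := isUnit_iff_ne_zero.2 hM
  let f : Fin d → κ := fun k => F μ y β (Function.update e i₀ y k)
  let a : Fin d → κ := Matrix.vecMul f M⁻¹
  have ha : ∀ k, ∑ j, a j * M j k = f k := by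
    intro k
    have h3 : Matrix.vecMul a M = f := by
      change Matrix.vecMul (Matrix.vecMul f M⁻¹) M = f
      rw [Matrix.vecMul_vecMul, Matrix.nonsing_inv_mul _ hM', Matrix.vecMul_one]
    exact congrFun h3 k
  let b : LaurentSeries κ := ∑ j, a j • Function.update e i₀ y j
  have hbR : b ∈ R := Subalgebra.sum_mem _ fun j _ => R.smul_mem (hb.mem j) _
  -- the dual property of `b`
  have hdual : ∀ x ∈ R, ∃ q : κ[X], pr0 κ d (b * x) = zpol κ d q ∧ q.eval c = F μ y β x := by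
    intro x hx
    obtain ⟨n, hn, -⟩ := hb.uni x hx
    refine ⟨∑ k, n k * ∑ j, C (a j) * G' j k, ?_, ?_⟩
    · change pr0 κ d ((∑ j, a j • Function.update e i₀ y j) * x) = _
      rw [hn, Finset.mul_sum, map_sum, map_sum]
      refine Finset.sum_congr rfl fun k _ => ?_
      rw [mul_left_comm, pr0_zpol_mul, map_mul (zpol κ d), Finset.sum_mul, map_sum, map_sum]
      congr 1
      refine Finset.sum_congr rfl fun j _ => ?_
      rw [smul_mul_assoc, map_smul, map_mul (zpol κ d), zpol_C_mul, hG' j k]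
    · rw [eval_finsetSum, hn, map_sum]
      refine Finset.sum_congr rfl fun k _ => ?_
      rw [hF _ (hzR _) _ (hb.mem k), N.F_zpol hμ hμy, eval_mul, eval_finsetSum]
      congr 1
      rw [← show f k = F μ y β (Function.update e i₀ y k) from rfl, ← ha k]
      refine Finset.sum_congr rfl fun j _ => ?_
      rw [eval_mul, eval_C]
      rfl
  have hdiv : ∀ x ∈ R, ∃ r' ∈ R, b * x = F μ y β x • b + zpol κ d (X - C c) * r' := by
    intro x hx
    have hu : b * x - F μ y β x • b ∈ R := sub_mem (mul_mem hbR hx) (R.smul_mem hbR _)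
    obtain ⟨m, hm, -⟩ := hb.uni _ hu
    have h3 : ∀ k, ∑ j, (m j).eval c * M j k = 0 := by
      intro k
      obtain ⟨q₁, hq₁, hq₁'⟩ := hdual (x * Function.update e i₀ y k) (mul_mem hx (hb.mem k))
      obtain ⟨q₂, hq₂, hq₂'⟩ := hdual (Function.update e i₀ y k) (hb.mem k)
      have h4 : ∑ j, m j * G' j k = q₁ - C (F μ y β x) * q₂ := by
        apply zpol_inj N.hd.ne'
        rw [map_sub, ← hq₁, map_mul (zpol κ d), zpol_C_mul, ← hq₂, ← map_smul, ← map_sub]
        have h5 : b * (x * Function.update e i₀ y k) -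
            F μ y β x • (b * Function.update e i₀ y k) =
            (b * x - F μ y β x • b) * Function.update e i₀ y k := by
          rw [sub_mul, smul_mul_assoc, mul_assoc]
        rw [h5, hm, Finset.sum_mul, map_sum, map_sum]
        refine Finset.sum_congr rfl fun j _ => ?_
        rw [mul_assoc, pr0_zpol_mul, map_mul, hG' j k]
      have h5 := congrArg (Polynomial.eval c) h4
      rw [eval_finsetSum, eval_sub, eval_mul, eval_C, hq₁', hq₂', hF _ hx _ (hb.mem k),
        sub_self] at h5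
      rw [← h5]
      refine Finset.sum_congr rfl fun j _ => ?_
      rw [eval_mul]
      rfl
    have h4 : (fun j => (m j).eval c) = 0 :=
      Matrix.eq_zero_of_vecMul_eq_zero hM (funext h3)
    have h5 : ∀ j, (X - C c) ∣ m j := fun j => dvd_iff_isRoot.2 (congrFun h4 j)
    choose n hn using h5
    refine ⟨∑ j, zpol κ d (n j) * Function.update e i₀ y j, Subalgebra.sum_mem _ fun j _ =>
      mul_mem (hzR _) (hb.mem j), ?_⟩
    rw [← sub_eq_iff_eq_add', hm, Finset.mul_sum]
    refine Finset.sum_congr rfl fun j _ => ?_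
    rw [hn j, map_mul, mul_assoc]
  -- the trace
  have hFb : F μ y β b = d := by
    obtain ⟨q, hq, hq'⟩ := hdual 1 (one_mem R)
    rw [mul_one] at hq
    have h3 := trace_eval hZDU N.hd hdκ hKR (hPR N.hz) hb hG' c (b := b) (a := a) (f := f) rfl hq
      (fun i => hdiv _ (hb.mem i))
    rw [hq', F_one hμ hμy, mul_one] at h3
    rw [← h3]
    change F μ y β (∑ j, a j • Function.update e i₀ y j) = _
    rw [map_sum]
    refine Finset.sum_congr rfl fun j _ => ?_
    rw [map_smul, smul_eq_mul, mul_comm]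
  have hn : y - algebraMap κ (LaurentSeries κ) β ∈ R := sub_mem hyR (R.algebraMap_mem β)
  obtain ⟨r', hr', h3⟩ := hdiv _ hn
  have h4 : F μ y β (y - algebraMap κ (LaurentSeries κ) β) = 0 := by
    have h5 : algebraMap κ (LaurentSeries κ) β = β • (1 : LaurentSeries κ) :=
      Algebra.algebraMap_eq_smul_one β
    rw [map_sub, h5, map_smul, F_one hμ hμy, F_apply, hyy', hμy, ← h1, ← hβ, smul_eq_mul]
    ring
  have h5 : zpol κ d (X - C c) * r' ∈ P := by
    obtain ⟨p, hp, a', ha'⟩ := (hR r').1 hr'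
    rw [ha', mul_add, mul_smul_comm]
    exact add_mem (mul_mem (N.s_mem _) hp) (P.smul_mem N.sy_mem _)
  apply hdκ
  rw [← hFb]
  change μ (b * (y - algebraMap κ (LaurentSeries κ) β)) = 0
  rw [h3, h4, zero_smul, zero_add]
  exact hμ _ h5

end Node

end NPG

open NPG KRK in
theorem t_NPG (hZDU : Stmt_ZDU) : Stmt_NPG := by
  intro κ _ _ g d P f h c hd hfac hP hz hDisc hf hhc hGRk
  have hd0 : 0 < d := by omega
  have hdκ : ((d : ℕ) : κ) ≠ 0 := by
    obtain ⟨k, hk⟩ := Nat.dvd_factorial hd0 (le_refl d)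
    intro h0
    apply hfac
    rw [hk, Nat.cast_mul, h0, zero_mul]
  have h2 : (2 : κ) ≠ 0 := by
    obtain ⟨k, hk⟩ := Nat.dvd_factorial (by norm_num : 0 < 2) hd
    intro h0
    apply hfac
    rw [hk, Nat.cast_mul, Nat.cast_ofNat, h0, zero_mul]
  obtain ⟨e0, G0, hb0, hG0, u0, hu0, hdet0⟩ := hDisc
  obtain ⟨e, G, hb, hG, hrk⟩ := hGRk
  obtain ⟨u1, hu1, hdet1⟩ := det_change hd0 hb0 hG0 hb hG
  have hdet : G.det = (u1 * u0) * ((X - C c) ^ 2 * h) := by
    rw [hdet1, hdet0, hf, mul_assoc]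
  have hsym : ∀ i j, G i j = G j i := by
    intro i j
    apply zpol_inj hd0.ne'
    rw [hG i j, hG j i, mul_comm]
  obtain ⟨v, i₀, r, ρ, G', hv, hker, hr, hρ, hG', hdet'⟩ := exists_div hd G hsym c hrk hdet
  have hs : zpol κ d (X - C c : κ[X]) ≠ 0 := zpol_ne_zero hd0 (X_sub_C_ne_zero c)
  let y : LaurentSeries κ := (zpol κ d (X - C c))⁻¹ * ∑ j, v j • e j
  have N : Node d P e G c v i₀ r ρ y :=
    { hd := hd0
      hz := hz
      hb := hb
      hG := hG
      hv := hv
      ker := hker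
      hr := hr
      hρ := hρ
      hy := mul_inv_cancel_left₀ hs _ }
  obtain ⟨p₀, hp₀, α, hyy⟩ := N.y_y hZDU hdκ hP
  obtain ⟨R, hR⟩ := N.exists_R ⟨p₀, hp₀, α, hyy⟩
  have hKR : Kr g R := N.kr_R h2 hP hR
  have hyR : y ∈ R := (hR y).2 ⟨0, zero_mem P, 1, by rw [one_smul, zero_add]⟩
  have hPR : P ≤ R := fun x hx => (hR x).2 ⟨x, hx, 0, by rw [zero_smul, add_zero]⟩
  have hGr := N.zgram_R hG'
  obtain ⟨μ, hμ, hμy⟩ := N.exists_mu
  obtain ⟨β, β', h3, h4⟩ := exists_roots h2 α (μ (y * p₀))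
  have hu : IsUnit (u1 * u0) := hu1.mul hu0
  have hev : G'.det.eval c ≠ 0 := by
    rw [hdet', eval_mul]
    refine mul_ne_zero ?_ hhc
    have h5 : IsUnit ((evalRingHom c) (u1 * u0)) := hu.map _
    exact h5.ne_zero
  have hne := N.ne_roots hZDU hdκ hKR hR hGr hev hμ hμy hp₀ hyy h3 h4
  have hyy' : μ (y * y) = α := by
    rw [hyy, map_add, hμ _ hp₀, map_smul, hμy, zero_add, smul_eq_mul, mul_one]
  -- the homomorphisms
  have hφ : ∀ β β' : κ, β + β' = α → β * β' = -μ (y * p₀) → ∃ p : R →ₐ[κ] κ, ∀ x : R,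
      p x = Node.F μ y β (x : LaurentSeries κ) := by
    intro β β' h3 h4
    refine ⟨AlgHom.ofLinearMap ((Node.F μ y β) ∘ₗ R.val.toLinearMap) ?_ ?_, fun x => rfl⟩
    · exact Node.F_one hμ hμy β
    · intro x x'
      exact N.F_mul hμ hμy hp₀ hyy h3 h4 ((hR x).1 x.2) ((hR x').1 x'.2)
  obtain ⟨p, hp⟩ := hφ β β' h3 h4
  obtain ⟨q, hq⟩ := hφ β' β (by rw [add_comm, h3]) (by rw [mul_comm, h4])
  refine ⟨R, hKR, hPR, ⟨_, G', N.zbas_R hR, hGr, u1 * u0, hu, hdet'⟩, p, q, ?_, ?_, ?_⟩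
  · intro hpq
    apply hne
    have h5 := congrArg (fun F => F (⟨y, hyR⟩ : R)) hpq
    simp only [hp, hq, Node.F_apply, hyy', hμy, mul_one] at h5
    linear_combination -h5
  · intro x
    obtain ⟨p', hp', a, ha⟩ := (hR x).1 x.2
    have h5 : μ x = a := by
      rw [ha, map_add, hμ _ hp', map_smul, hμy, zero_add, smul_eq_mul, mul_one]
    rw [hp, hq, Node.F_apply, Node.F_apply]
    constructor
    · intro hx
      rw [hμ _ hx, mul_zero, mul_zero]
    · intro h6
      have h7 : (β - β') * μ x = 0 := by linear_combination -h6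
      rcases mul_eq_zero.1 h7 with h8 | h8
      · exact absurd (sub_eq_zero.1 h8) hne
      · rw [ha, ← h5, h8, zero_smul, add_zero]
        exact hp'
  · intro z hzz
    have h5 : (z : LaurentSeries κ) = zpol κ d X := by
      rw [hzz, zpol, aeval_X]
    rw [hp, hq, h5, N.F_zpol hμ hμy, N.F_zpol hμ hμy, eval_X]
    exact ⟨rfl, rfl⟩

end Pool.Agent.MG.G0
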