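import Pool.Agent.MG.G0.StmtsNP
import Pool.Agent.MG.G0.ZL.ZD

/-!
# NPL: the plumbing structure of a Krichever ring with nodal reduction
-/

open Polynomial

namespace Pool.Agent.MG.G0

theorem t_NPL (hKBC : Stmt_KBC) (hNPA : Stmt_NPA) (hNPB : Stmt_NPB) (hTCA : Stmt_TCA)
    (hNPC : Stmt_NPC) : Stmt_NPL := by
  intro κ A _ _ _ _ rs g d P h s t hnil hfg hd hfac hkr hz hdisc ht hsep hev hG
  have hZDB := t_ZDB hKBC A κ (rs : A →+* κ) (g + 1) d P (by omega) hkr hz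
  have hkb : Kr (g + 1) (bc1 (rs : A →+* κ) P) := by
    have h1 := (hKBC.2.2.2 hkr (rs : A →+* κ)).1
    rw [bc_uno] at h1
    exact h1
  have hf : (((X - C s) ^ 2 - C (4 * t)) * h).map (rs : A →+* κ) =
      (X - C (rs s)) ^ 2 * h.map (rs : A →+* κ) := by
    rw [Polynomial.map_mul, Polynomial.map_sub, Polynomial.map_pow, Polynomial.map_sub,
      Polynomial.map_X, Polynomial.map_C, Polynomial.map_C]
    change ((X - C (rs s)) ^ 2 - C (rs (4 * t))) * _ = _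
    rw [map_mul, ht, mul_zero, C_0, sub_zero]
  have hdb := hZDB.2.2 _ hdisc
  obtain ⟨R₀, hR₀, hle, hdR, hfs, hsm, pt₀, hdj, hexp, hPT⟩ :=
    hNPA hd hfac hkb hZDB.1 hdb hf hsep hev hG
  obtain ⟨j, hj, -, hjr⟩ := hNPB rs pt₀ hnil hd hfac hkr hz hdisc ht hsep hev hG hR₀ hle hdR
    hfs hsm hdj hexp hPT
  have hPT' : PT pt₀ 0 = bc (rs : A →+* κ) (uno P) := by rw [hPT, bc_uno]
  obtain ⟨R, hR, hbc, hfsR, hsmR, pt, hdis, hpt⟩ := hNPC rs pt₀ j hnil hkr hR₀ hfs hsm hdj ht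
    hPT' hj hjr
  have hD : Dual R := by
    have h1 := hTCA rs hnil hR
    rw [hbc] at h1
    exact (h1 hfs hsm).2.2 inferInstance hfg
  exact ⟨R, hR, hfsR, hsmR, hD, pt, hdis, hpt⟩

end Pool.Agent.MG.G0
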