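import Pool.Agent.MG.G0.StmtsNP
import Pool.Agent.MG.G0.PL0
import Pool.Agent.MG.G0.KFL
import Pool.Agent.MG.G0.SUB

/-!
# NPY: approximation at a node of the reduction
-/

open TensorProduct

namespace Pool.Agent.MG.G0

namespace NPY

section gen

variable {I A B : Type} [CommRing A] [CommRing B]

theorem psl_coeff (f : PowerSeries A) (n : ℕ) :
    (psl A f).coeff (n : ℤ) = PowerSeries.coeff n f :=
  HahnSeries.ofPowerSeries_apply_coeff f n

theorem psl_neg (f : PowerSeries A) {m : ℤ} (h : m < 0) : (psl A f).coeff m = 0 := by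
  rw [SUB.psl_coeff, if_pos h]

theorem psl_inj : Function.Injective (psl A) := HahnSeries.ofPowerSeries_injective

theorem psl_X_pow (n : ℕ) : psl A (PowerSeries.X ^ n) = HahnSeries.single (n : ℤ) 1 :=
  HahnSeries.ofPowerSeries_X_pow n

/-- A series without terms below `m` is `u^m` times a power series. -/
theorem eq_single_mul (f : LaurentSeries A) (m : ℤ) (h : ∀ k < m, f.coeff k = 0) :
    f = HahnSeries.single m 1 * psl A (PowerSeries.mk fun i => f.coeff (m + i)) := by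
  ext k
  obtain ⟨l, rfl⟩ : ∃ l, k = l + m := ⟨k - m, by ring⟩
  rw [HahnSeries.coeff_single_mul_add, one_mul]
  rcases lt_or_ge l 0 with h1 | h1
  · rw [psl_neg _ h1]
    exact h _ (by omega)
  · obtain ⟨i, rfl⟩ := Int.eq_ofNat_of_zero_le h1
    rw [psl_coeff, PowerSeries.coeff_mk, add_comm]

theorem mul_coeff_mem {J K : Ideal A} {f h : LaurentSeries A} (hf : ∀ m, f.coeff m ∈ J)
    (hh : ∀ m, h.coeff m ∈ K) (m : ℤ) : (f * h).coeff m ∈ J * K := by
  rw [HahnSeries.coeff_mul]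
  exact Ideal.sum_mem _ fun ij _ => Ideal.mul_mem_mul (hf _) (hh _)

theorem pow_coeff_mem {J : Ideal A} {a : LaurentSeries A} (ha : ∀ m, a.coeff m ∈ J) (n : ℕ) :
    ∀ m, (a ^ n).coeff m ∈ J ^ n := by
  induction n with
  | zero =>
    intro m
    rw [pow_zero, Ideal.one_eq_top]
    exact Submodule.mem_top
  | succ n ih =>
    intro m
    rw [pow_succ, pow_succ]
    exact mul_coeff_mem ih ha m

theorem kmap_eq_zero_iff (φ : A →+* B) {f : KK I A} :
    kmap φ f = 0 ↔ ∀ i m, (f i).coeff m ∈ RingHom.ker φ := by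
  constructor
  · intro h i m
    have h1 := congrArg (fun F : KK I B => (F i).coeff m) h
    exact h1
  · intro h
    funext i
    ext m
    exact h i m

/-- Units modulo a nilpotent kernel. -/
theorem isUnit_of_kmap {φ : A →+* B} {σ : B →+* A} (hσ : ∀ b, φ (σ b) = b)
    (hn : ∃ n : ℕ, RingHom.ker φ ^ n = ⊥) {y : KK I A} (h : IsUnit (kmap φ y)) : IsUnit y := by
  obtain ⟨n, hn⟩ := hn
  obtain ⟨z, hz⟩ := h.exists_right_inv
  have h1 : kmap φ (y * kmap σ z - 1) = 0 := by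
    have h2 : kmap φ (kmap σ z) = z := by
      funext i
      ext m
      exact hσ _
    rw [map_sub, map_mul, h2, hz, map_one, sub_self]
  rw [kmap_eq_zero_iff] at h1
  have h3 : IsNilpotent (y * kmap σ z - 1) := by
    refine ⟨n, ?_⟩
    funext i
    ext m
    have h4 := pow_coeff_mem (h1 i) n m
    rw [hn] at h4
    exact h4
  have h5 : IsUnit (y * kmap σ z) := by
    have h6 := h3.isUnit_one_add
    rwa [add_sub_cancel] at h6
  exact isUnit_of_mul_isUnit_left h5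

/-- Units of the base ring modulo a nilpotent kernel. -/
theorem isUnit_of_map {φ : A →+* B} {σ : B →+* A} (hσ : ∀ b, φ (σ b) = b)
    (hn : ∃ n : ℕ, RingHom.ker φ ^ n = ⊥) {y : A} (h : IsUnit (φ y)) : IsUnit y := by
  obtain ⟨n, hn⟩ := hn
  obtain ⟨z, hz⟩ := h.exists_right_inv
  have h1 : y * σ z - 1 ∈ RingHom.ker φ := by
    rw [RingHom.mem_ker, map_sub, map_mul, hσ, hz, map_one, sub_self]
  have h3 : IsNilpotent (y * σ z - 1) := by
    refine ⟨n, ?_⟩
    have h4 := Ideal.pow_mem_pow h1 n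
    rw [hn] at h4
    exact h4
  have h5 : IsUnit (y * σ z) := by
    have h6 := h3.isUnit_one_add
    rwa [add_sub_cancel] at h6
  exact isUnit_of_mul_isUnit_left h5

/-- Elements of `P` with coefficients in the kernel. -/
theorem mem_smul [Fintype I] [Nonempty I] (hKBT : Stmt_KBT) (φ : A →+* B) {g : ℕ}
    {P : Subalgebra A (KK I A)} (hP : IsKr g P) (p : P) (h : kmap φ (p : KK I A) = 0) :
    p ∈ RingHom.ker φ • (⊤ : Submodule A P) := by
  obtain ⟨h1, -⟩ := hKBT (B := A ⧸ RingHom.ker φ) hP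
  have h2 := h1 1 (fun _ => 1) (fun _ => p) (by
    rw [Fin.sum_univ_one, one_smul, kmap_eq_zero_iff]
    intro i m
    have h3 := (kmap_eq_zero_iff φ).1 h i m
    rw [RingHom.mem_ker]
    exact Ideal.Quotient.eq_zero_iff_mem.2 h3)
  rw [Fin.sum_univ_one] at h2
  rw [← Submodule.Quotient.mk_eq_zero, ← TensorProduct.quotTensorEquivQuotSMul_mk_one_tmul,
    h2, map_zero]

theorem kmap_smul_mem (φ : A →+* B) {P : Subalgebra A (KK I A)} {p : P}
    (h : p ∈ RingHom.ker φ • (⊤ : Submodule A P)) : kmap φ (p : KK I A) = 0 := by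
  refine Submodule.smul_induction_on h ?_ ?_
  · intro a ha x _
    change kmap φ (a • (x : KK I A)) = 0
    rw [kmap_smul, (RingHom.mem_ker).1 ha, zero_smul]
  · intro x y hx hy
    change kmap φ ((x : KK I A) + (y : KK I A)) = 0
    rw [map_add, hx, hy, add_zero]

theorem exists_lift {φ : A →+* B} {σ : B →+* A} (hσ : ∀ b, φ (σ b) = b)
    {P : Subalgebra A (KK I A)} {w : KK I B} (hw : w ∈ bc φ P) :
    ∃ p : P, kmap φ (p : KK I A) = w := by
  refine Algebra.adjoin_induction (p := fun w _ => ∃ p : P, kmap φ (p : KK I A) = w)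
    ?_ ?_ ?_ ?_ hw
  · rintro _ ⟨p, hp, rfl⟩
    exact ⟨⟨p, hp⟩, rfl⟩
  · intro b
    refine ⟨algebraMap A P (σ b), ?_⟩
    change kmap φ (algebraMap A (KK I A) (σ b)) = _
    rw [kmap_algebraMap, hσ]
  · rintro x y _ _ ⟨p, rfl⟩ ⟨q, rfl⟩
    exact ⟨p + q, map_add _ _ _⟩
  · rintro x y _ _ ⟨p, rfl⟩ ⟨q, rfl⟩
    exact ⟨p * q, map_mul _ _ _⟩

end gen

/-! ### The annulus -/

section annulus

variable {A : Type} [CommRing A] {t : A}

/-- The coefficient of order `i` at `b`. -/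
def cf (A : Type) [CommRing A] (b : Bool) (i : ℤ) : KK Bool A →ₗ[A] A where
  toFun F := (F b).coeff i
  map_add' F G := by rw [Pi.add_apply, HahnSeries.coeff_add]
  map_smul' a F := by rw [Pi.smul_apply, HahnSeries.coeff_smul, RingHom.id_apply]

theorem cf_apply (b : Bool) (i : ℤ) (F : KK Bool A) : cf A b i F = (F b).coeff i := rfl

/-- The combination of the elements `p b i` with the coefficients of a function on the annulus. -/
noncomputable def sec {M : Type} [AddCommGroup M] [Module A M] (m : ℕ) (o : M)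
    (p : Bool → ℕ → M) : KK Bool A →ₗ[A] M :=
  (cf A true 0).smulRight o +
    ∑ b : Bool, ∑ i ∈ Finset.Ico 1 m, (cf A b i).smulRight (p b i)

theorem sec_apply {M : Type} [AddCommGroup M] [Module A M] (m : ℕ) (o : M)
    (p : Bool → ℕ → M) (F : KK Bool A) : sec m o p F = (F true).coeff 0 • o +
      ∑ b : Bool, ∑ i ∈ Finset.Ico 1 m, (F b).coeff i • p b i := by
  rw [sec, LinearMap.add_apply, LinearMap.smulRight_apply, LinearMap.sum_apply, cf_apply]
  congr 1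
  refine Finset.sum_congr rfl fun b _ => ?_
  rw [LinearMap.sum_apply]
  refine Finset.sum_congr rfl fun i _ => ?_
  rw [LinearMap.smulRight_apply, cf_apply]

/-- A function on the annulus is determined, up to high order, by its coefficients. -/
theorem decomp {N : ℕ} (hN : t ^ N = 0) {m : ℕ} (hm : N ≤ m) {G : KK Bool A} (hG : G ∈ Nt t) :
    G - sec m 1 (fun b i => uv t b ^ i) G ∈ Pol Bool A (-(m : ℤ)) := by
  have h0 : sec m 1 (fun b i => uv t b ^ i) G ∈ Nt t := by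
    rw [sec_apply]
    exact add_mem (Subalgebra.smul_mem _ (one_mem _) _) (sum_mem fun b _ => sum_mem fun i _ =>
      Subalgebra.smul_mem _ (pow_mem (PL0.uv_mem t b) i) _)
  refine PL0.nt_small hN (sub_mem hG h0) hm fun b k hk => ?_
  rw [Pi.sub_apply, HahnSeries.coeff_sub, sec_apply, Pi.add_apply, HahnSeries.coeff_add,
    Finset.sum_apply, HahnSeries.coeff_sum]
  have h1 : ∀ c : Bool, ((∑ i ∈ Finset.Ico 1 m, (G c).coeff i • uv t c ^ i : KK Bool A) b).coeff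
      (k : ℤ) = if c = b ∧ 1 ≤ k then (G b).coeff k else 0 := by
    intro c
    rw [Finset.sum_apply, HahnSeries.coeff_sum]
    rcases PL0.eq_or_not c b with rfl | rfl
    · have h2 : ∀ i ∈ Finset.Ico 1 m, ((((G b).coeff i • uv t b ^ i : KK Bool A)) b).coeff
          (k : ℤ) = if k = i then (G b).coeff i else 0 := fun i _ =>
        PL0.coeff_smul_pow_self b _ i k
      rw [Finset.sum_congr rfl h2, Finset.sum_ite_eq]
      simp only [Finset.mem_Ico, true_and]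
      split_ifs with h3 h4 h4
      · rfl
      · exact absurd h3.1 h4
      · exact absurd ⟨h4, hk⟩ h3
      · rfl
    · rw [if_neg (by simp)]
      refine Finset.sum_eq_zero fun i hi => ?_
      have h3 := Finset.mem_Ico.1 hi
      exact PL0.coeff_smul_pow_not c _ i k (by omega)
  rw [Finset.sum_congr rfl fun c _ => h1 c, Fintype.sum_bool, Pi.smul_apply,
    HahnSeries.coeff_smul, Pi.one_apply, HahnSeries.coeff_one]
  rcases Nat.eq_zero_or_pos k with rfl | h4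
  · have h5 : (G true).coeff 0 = (G b).coeff 0 := by
      cases b
      · exact PL0.nt_zero hG false
      · rfl
    simp [h5]
  · cases b
    · simp [h4.ne', Nat.one_le_iff_ne_zero]
    · simp [h4.ne', Nat.one_le_iff_ne_zero]

theorem sec_eq_zero {M : Type} [AddCommGroup M] [Module A M] {m : ℕ} (hm : 1 ≤ m) (o : M)
    (p : Bool → ℕ → M) {F : KK Bool A} (hF : F ∈ Pol Bool A (-(m : ℤ))) : sec m o p F = 0 := by
  rw [sec_apply, hF true 0 (by omega), zero_smul, zero_add]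
  refine Finset.sum_eq_zero fun b _ => Finset.sum_eq_zero fun i hi => ?_
  have h3 := Finset.mem_Ico.1 hi
  rw [hF b i (by omega), zero_smul]

theorem sec_mem {M : Type} [AddCommGroup M] [Module A M] {m : ℕ} (hm : 1 ≤ m) (o : M)
    (p : Bool → ℕ → M) {J : Ideal A} {S : Submodule A M} (ho : o ∈ S) (hp : ∀ b i, p b i ∈ S)
    {F : KK Bool A} (hF : ∀ b, ∀ i : ℕ, i < m → (F b).coeff i ∈ J) :
    sec m o p F ∈ J • S := by
  rw [sec_apply]
  refine add_mem (Submodule.smul_mem_smul ?_ ho) (sum_mem fun b _ => sum_mem fun i hi => ?_)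
  · exact hF true 0 (by omega)
  · exact Submodule.smul_mem_smul (hF b i (Finset.mem_Ico.1 hi).2) (hp b i)

/-- The map `sec` for approximations of the powers of `u` and `v`. -/
theorem map_sec {M : Type} [AddCommGroup M] [Module A M] (j : M →ₗ[A] KK Bool A) {N : ℕ}
    (hN : t ^ N = 0) {m : ℕ} (hm : N ≤ m) {o : M} {p : Bool → ℕ → M} (ho : j o = 1)
    (hp : ∀ b i, j (p b i) - uv t b ^ i ∈ Pol Bool A (-(m : ℤ))) {G : KK Bool A}
    (hG : G ∈ Nt t) : j (sec m o p G) - G ∈ Pol Bool A (-(m : ℤ)) := by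
  have h1 : j (sec m o p G) - G = (j (sec m o p G) - sec m 1 (fun b i => uv t b ^ i) G) -
      (G - sec m 1 (fun b i => uv t b ^ i) G) := by abel
  rw [h1]
  refine sub_mem ?_ (decomp hN hm hG)
  rw [sec_apply, sec_apply, map_add, map_smul, ho, add_sub_add_left_eq_sub, map_sum,
    ← Finset.sum_sub_distrib]
  refine sum_mem fun b _ => ?_
  rw [map_sum, ← Finset.sum_sub_distrib]
  refine sum_mem fun i _ => ?_
  rw [map_smul, ← smul_sub]
  exact Submodule.smul_mem _ _ (hp b i)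

end annulus

/-! ### The special fibre -/

section fibre

variable {I κ : Type} [Field κ] {R₀ : Subalgebra κ (KK I κ)}

theorem mem_Ipt {J : Type} {A : Type} [CommRing A] {P : Subalgebra A (KK I A)} {pt : J → FPt P}
    {x : P} : x ∈ Ipt pt ↔ ∀ b, PowerSeries.constantCoeff ((pt b).h x) = 0 := by
  rw [Ipt, Submodule.mem_iInf]
  exact Iff.rfl

theorem divide {pt₀ : Bool → FPt R₀} {y₀ e₀ : R₀} (hy₀ : y₀ ∈ Ipt pt₀)
    (hlin : ∀ j, IsUnit (PowerSeries.coeff 1 ((pt₀ j).h y₀)))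
    (hdiv : ∀ s ∈ Ipt pt₀, ∃ r : R₀, (1 - e₀) * s = y₀ * r) (k : ℕ) :
    ∀ (x : R₀) (f : Bool → PowerSeries κ), (∀ b, (pt₀ b).h x = (pt₀ b).h y₀ ^ k * f b) →
      ∃ r : R₀, (1 - e₀) ^ k * x = y₀ ^ k * r ∧
        ∀ b, (pt₀ b).h r = (1 - (pt₀ b).h e₀) ^ k * f b := by
  induction k with
  | zero =>
    intro x f hf
    refine ⟨x, by rw [pow_zero, pow_zero], fun b => ?_⟩
    rw [hf b, pow_zero, pow_zero]
  | succ k ih =>
    intro x f hf
    have hne : ∀ b, (pt₀ b).h y₀ ≠ 0 := by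
      intro b h0
      have h1 := hlin b
      rw [h0, map_zero] at h1
      exact not_isUnit_zero h1
    have hx : x ∈ Ipt pt₀ := by
      rw [mem_Ipt]
      intro b
      rw [hf b, pow_succ, map_mul, map_mul, (mem_Ipt.1 hy₀) b, mul_zero, zero_mul]
    obtain ⟨r₁, hr₁⟩ := hdiv x hx
    obtain ⟨r, hr, hr'⟩ := ih r₁ (fun b => (1 - (pt₀ b).h e₀) * f b) (fun b => by
      have h1 : (pt₀ b).h y₀ * (pt₀ b).h r₁ =
          (pt₀ b).h y₀ * ((pt₀ b).h y₀ ^ k * ((1 - (pt₀ b).h e₀) * f b)) := by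
        rw [← map_mul, ← hr₁, map_mul, map_sub, map_one, hf b, pow_succ]
        ring
      exact mul_left_cancel₀ (hne b) h1)
    refine ⟨r, ?_, fun b => ?_⟩
    · calc (1 - e₀) ^ (k + 1) * x = (1 - e₀) ^ k * ((1 - e₀) * x) := by ring
        _ = y₀ * ((1 - e₀) ^ k * r₁) := by rw [hr₁]; ring
        _ = y₀ ^ (k + 1) * r := by rw [hr]; ring
    · rw [hr' b, pow_succ]
      ring

/-- The `m`-th power of `1 - (1 - e₀)^k` vanishes to order `m`. -/
theorem low_pow {a : PowerSeries κ} (ha : PowerSeries.constantCoeff a = 0) (k m i : ℕ)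
    (hi : i < m) : PowerSeries.coeff i ((1 - (1 - a) ^ k) ^ m) = 0 := by
  have h1 : PowerSeries.X ∣ 1 - (1 - a) ^ k := by
    rw [PowerSeries.X_dvd_iff, map_sub, map_pow, map_sub, ha, map_one, sub_zero, one_pow, sub_self]
  exact (PowerSeries.X_pow_dvd_iff.1 (pow_dvd_pow_of_dvd h1 m)) i hi

end fibre

/-! ### Density -/

section main

variable {I κ A : Type} [Field κ] [CommRing A] {φ : A →+* κ} {σ : κ →+* A}
  {P : Subalgebra A (KK I A)} {R₀ : Subalgebra κ (KK I κ)} {pt₀ : Bool → FPt R₀} {t : A} {N : ℕ}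
  {j : P →ₐ[A] KK Bool A}

/-- The situation at the node. -/
structure Hyp (φ : A →+* κ) (σ : κ →+* A) (pt₀ : Bool → FPt R₀) (t : A) (N : ℕ)
    (j : P →ₐ[A] KK Bool A) : Prop where
  hσ : ∀ b, φ (σ b) = b
  nil : ∃ n : ℕ, RingHom.ker φ ^ n = ⊥
  hN : t ^ N = 0
  ht : φ t = 0
  one : 1 ≤ N
  mem : ∀ p, j p ∈ Nt t
  lift : ∀ r : R₀, PowerSeries.constantCoeff ((pt₀ true).h r) =
    PowerSeries.constantCoeff ((pt₀ false).h r) → ∃ p : P, kmap φ (p : KK I A) = r
  red : ∀ p : P, ∃ r : R₀, (r : KK I κ) = kmap φ (p : KK I A)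
  hj : ∀ (p : P) (r : R₀), (r : KK I κ) = kmap φ (p : KK I A) → ∀ b,
    lmap φ (j p b) = psl κ ((pt₀ b).h r)
  sm : ∀ p : P, kmap φ (p : KK I A) = 0 → p ∈ RingHom.ker φ • (⊤ : Submodule A P)
  tay : ∀ (n : ℕ) (f : Bool → PowerSeries κ), ∃ r : R₀,
    ∀ b, ∀ m < n, PowerSeries.coeff m ((pt₀ b).h r) = PowerSeries.coeff m (f b)

theorem Hyp.coeff (H : Hyp φ σ pt₀ t N j) {p : P} {r : R₀}
    (h : (r : KK I κ) = kmap φ (p : KK I A)) (b : Bool) (i : ℕ) :
    φ ((j p b).coeff i) = PowerSeries.coeff i ((pt₀ b).h r) := by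
  have h1 := congrArg (fun f : LaurentSeries κ => f.coeff (i : ℤ)) (H.hj p r h b)
  rw [← psl_coeff]
  exact h1

theorem Hyp.dens (H : Hyp φ σ pt₀ t N j) {m : ℕ} (hm : N ≤ m) {F : KK Bool A}
    (hF : F ∈ Nt t) : ∃ p : P, j p - F ∈ Pol Bool A (-(m : ℤ)) := by
  have hm1 : 1 ≤ m := H.one.trans hm
  have key : Subalgebra.toSubmodule (Nt t) ≤
      LinearMap.range j.toLinearMap ⊔ Pol Bool A (-(m : ℤ)) := by
    refine KFL.nak H.nil fun F hF => ?_
    obtain ⟨r, hr⟩ := H.tay m fun b => PowerSeries.mk fun i => φ ((F b).coeff i)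
    obtain ⟨p, hp⟩ := H.lift r (by
      rw [← PowerSeries.coeff_zero_eq_constantCoeff_apply,
        ← PowerSeries.coeff_zero_eq_constantCoeff_apply, hr true 0 (by omega),
        hr false 0 (by omega), PowerSeries.coeff_mk, PowerSeries.coeff_mk, Nat.cast_zero]
      exact congrArg φ (PL0.nt_zero hF false))
    have hG : F - j p ∈ Nt t := sub_mem hF (H.mem p)
    have hGc : ∀ b, ∀ i : ℕ, i < m → ((F - j p) b).coeff i ∈ RingHom.ker φ := by
      intro b i hi
      rw [RingHom.mem_ker, Pi.sub_apply, HahnSeries.coeff_sub, map_sub, H.coeff hp.symm,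
        hr b i hi, PowerSeries.coeff_mk, sub_self]
    have e : F = j p + ((F - j p) - sec m 1 (fun b i => uv t b ^ i) (F - j p)) +
        sec m 1 (fun b i => uv t b ^ i) (F - j p) := by abel
    rw [e]
    refine Submodule.add_mem_sup (Submodule.add_mem_sup ⟨p, rfl⟩ (decomp H.hN hm hG)) ?_
    exact sec_mem hm1 1 _ (one_mem (Nt t)) (fun b i => pow_mem (PL0.uv_mem t b) i) hGc
  obtain ⟨_, ⟨p, rfl⟩, q, hq, hpq⟩ := Submodule.mem_sup.1 (key hF)
  refine ⟨p, ?_⟩
  rw [← hpq]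
  change j p - (j p + q) ∈ _
  rw [sub_add_cancel_left]
  exact neg_mem hq

/-- Lifts of elements which vanish to high order. -/
theorem Hyp.lift_low (H : Hyp φ σ pt₀ t N j) {m : ℕ} (hm : N ≤ m) {r : R₀}
    (hr : ∀ b, ∀ i < m, PowerSeries.coeff i ((pt₀ b).h r) = 0) :
    ∃ p : P, kmap φ (p : KK I A) = r ∧ j p ∈ Pol Bool A (-(m : ℤ)) := by
  have hm1 : 1 ≤ m := H.one.trans hm
  choose p₀ hp₀ using fun (b : Bool) (i : ℕ) => H.dens hm (pow_mem (PL0.uv_mem t b) i)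
  obtain ⟨p₁, hp₁⟩ := H.lift r (by
    rw [← PowerSeries.coeff_zero_eq_constantCoeff_apply,
      ← PowerSeries.coeff_zero_eq_constantCoeff_apply, hr true 0 (by omega),
      hr false 0 (by omega)])
  have h1 : sec m 1 p₀ (j p₁) ∈ RingHom.ker φ • (⊤ : Submodule A P) :=
    sec_mem hm1 1 _ Submodule.mem_top (fun _ _ => Submodule.mem_top) fun b i hi => by
      rw [RingHom.mem_ker, H.coeff hp₁.symm, hr b i hi]
  refine ⟨p₁ - sec m 1 p₀ (j p₁), ?_, ?_⟩
  · change kmap φ ((p₁ : KK I A) - ((sec m 1 p₀ (j p₁) : P) : KK I A)) = _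
    rw [map_sub, kmap_smul_mem φ h1, sub_zero, hp₁]
  · have h2 := map_sec j.toLinearMap H.hN hm (o := (1 : P)) (map_one j) hp₀ (H.mem p₁)
    rw [map_sub, ← neg_sub]
    exact neg_mem h2

/-- The elements of `P` divisible by `(j y)^L` on the annulus. -/
noncomputable def KY (t : A) (j : P →ₐ[A] KK Bool A) (Y : KK Bool A) : Submodule A P :=
  ((Subalgebra.toSubmodule (Nt t)).map (LinearMap.mulLeft A Y)).comap j.toLinearMap

theorem mem_KY {Y : KK Bool A} {q : P} : q ∈ KY t j Y ↔ ∃ F ∈ Nt t, j q = Y * F := by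
  constructor
  · rintro ⟨F, hF, h⟩
    exact ⟨F, hF, h.symm⟩
  · rintro ⟨F, hF, h⟩
    exact ⟨F, hF, h.symm⟩

theorem Hyp.mul_KY (H : Hyp φ σ pt₀ t N j) {Y : KK Bool A} (p : P) {q : P}
    (hq : q ∈ KY t j Y) : p * q ∈ KY t j Y := by
  obtain ⟨F, hF, h⟩ := mem_KY.1 hq
  refine mem_KY.2 ⟨j p * F, mul_mem (H.mem p) hF, ?_⟩
  rw [map_mul, h]
  ring

theorem pow_mem_Pol {J B : Type} [CommRing B] {f : KK J B} {n : ℤ} (h : f ∈ Pol J B n) (L : ℕ) :
    f ^ L ∈ Pol J B (L * n) := by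
  induction L with
  | zero =>
    rw [pow_zero, Nat.cast_zero, zero_mul]
    exact one_mem_Pol0
  | succ L ih =>
    rw [pow_succ]
    refine Pol_mono ?_ (mul_mem_Pol ih h)
    push_cast
    linarith

/-- Elements which vanish to high order are in `KY`. -/
theorem Hyp.low_KY (H : Hyp φ σ pt₀ t N j) {Y V : KK Bool A} (hV : Y * V = 1) {k : ℕ}
    (hVk : V ∈ Pol Bool A k) {q : P} (hq : j q ∈ Pol Bool A (-((k + N : ℕ) : ℤ))) :
    q ∈ KY t j Y := by
  refine mem_KY.2 ⟨j q * V, ?_, ?_⟩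
  · refine (t_PL0 t N H.hN).1 N le_rfl _ (Pol_mono ?_ (mul_mem_Pol hq hVk))
    push_cast
    linarith
  · rw [mul_left_comm, hV, mul_one]

/-- Elements of `KY` with coefficients in the kernel. -/
theorem Hyp.ker_KY (H : Hyp φ σ pt₀ t N j) {Y V : KK Bool A} (hV : Y * V = 1) {k : ℕ}
    (hVk : V ∈ Pol Bool A k) (hY : Y ∈ Pol Bool A 0) {z w : P} (hw : j w = Y)
    (hz : z ∈ KY t j Y) (hz0 : kmap φ (z : KK I A) = 0) :
    z ∈ LinearMap.range (LinearMap.mulLeft A w) ⊔ RingHom.ker φ • KY t j Y := by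
  have hm : N ≤ k + N := by omega
  have hm1 : 1 ≤ k + N := H.one.trans hm
  choose p₀ hp₀ using fun (b : Bool) (i : ℕ) => H.dens hm (pow_mem (PL0.uv_mem t b) i)
  obtain ⟨F, hF, hzF⟩ := mem_KY.1 hz
  have hFV : F = j z * V := by
    rw [hzF, mul_right_comm, hV, one_mul]
  have hFc : ∀ b, ∀ i : ℕ, i < k + N → (F b).coeff i ∈ RingHom.ker φ := by
    intro b i _
    have h1 : lmap φ (F b) = 0 := by
      have h2 := H.hj z 0 (by rw [hz0]; rfl) b
      rw [map_zero, map_zero] at h2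
      rw [hFV, Pi.mul_apply, map_mul, h2, zero_mul]
    exact congrArg (fun f : LaurentSeries κ => f.coeff (i : ℤ)) h1
  have hx := sec_mem hm1 (1 : P) p₀ (J := RingHom.ker φ) (S := ⊤) Submodule.mem_top
    (fun _ _ => Submodule.mem_top) hFc
  have hxF := map_sec j.toLinearMap H.hN hm (o := (1 : P)) (map_one j) hp₀ hF
  set x : P := sec (k + N) 1 p₀ F with hxdef
  -- the projection
  let π : P →ₗ[A] P := LinearMap.id - sec (k + N) 1 p₀ ∘ₗ j.toLinearMap
  have hπ : ∀ q, π q = q - sec (k + N) 1 p₀ (j q) := fun q => rfl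
  have hπK : ∀ q, π q ∈ KY t j Y := by
    intro q
    refine H.low_KY hV hVk ?_
    have h1 := map_sec j.toLinearMap H.hN hm (o := (1 : P)) (map_one j) hp₀ (H.mem q)
    rw [hπ, map_sub, ← neg_sub]
    exact neg_mem h1
  have hz' : z - w * x ∈ RingHom.ker φ • (⊤ : Submodule A P) := by
    refine sub_mem (H.sm z hz0) ?_
    have h1 : w * x ∈ (RingHom.ker φ • (⊤ : Submodule A P)).map (LinearMap.mulLeft A w) :=
      ⟨x, hx, rfl⟩
    rw [Submodule.map_smul''] at h1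
    exact Submodule.smul_mono le_rfl le_top h1
  have hjz' : j (z - w * x) ∈ Pol Bool A (-((k + N : ℕ) : ℤ)) := by
    have h1 : j (z - w * x) = Y * -(j x - F) := by
      rw [map_sub, map_mul, hw, hzF]
      ring
    rw [h1]
    refine Pol_mono ?_ (mul_mem_Pol hY (neg_mem hxF))
    rw [zero_add]
  have hfix : π (z - w * x) = z - w * x := by
    rw [hπ, sec_eq_zero hm1 _ _ hjz', sub_zero]
  have h2 : z - w * x ∈ RingHom.ker φ • KY t j Y := by
    have h3 : π (z - w * x) ∈ (RingHom.ker φ • (⊤ : Submodule A P)).map π := ⟨_, hz', rfl⟩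
    rw [hfix, Submodule.map_smul''] at h3
    refine Submodule.smul_mono le_rfl ?_ h3
    rintro _ ⟨q, -, rfl⟩
    exact hπK q
  rw [← add_sub_cancel (w * x) z]
  exact Submodule.add_mem_sup ⟨x, rfl⟩ h2

/-- The main step. -/
theorem Hyp.step (H : Hyp φ σ pt₀ t N j) {y₀ e₀ : R₀} (hy₀ : y₀ ∈ Ipt pt₀) (he₀ : e₀ ∈ Ipt pt₀)
    (hlin : ∀ j, IsUnit (PowerSeries.coeff 1 ((pt₀ j).h y₀)))
    (hdiv : ∀ s ∈ Ipt pt₀, ∃ r : R₀, (1 - e₀) * s = y₀ * r) {y : P}
    (hy : kmap φ (y : KK I A) = ((y₀ ^ N : R₀) : KK I κ)) {v : KK Bool A} (hv : j y * v = 1)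
    (hvN : v ∈ Pol Bool A N) (hyN : j y ∈ Pol Bool A (-(N : ℤ))) (L : ℕ) {e₁ : P}
    (he₁ : kmap φ (e₁ : KK I A) =
      (((1 - (1 - e₀) ^ (N * L)) ^ (N * L + N) : R₀) : KK I κ))
    {x : P} (hx : x ∈ KY t j (j y ^ L)) : (1 - e₁) * x ∈
      LinearMap.range (LinearMap.mulLeft A (y ^ L)) ⊔ RingHom.ker φ • KY t j (j y ^ L) := by
  have hvL : j y ^ L * v ^ L = 1 := by rw [← mul_pow, hv, one_pow]
  have hvLN : v ^ L ∈ Pol Bool A ((N * L : ℕ) : ℤ) := by
    refine Pol_mono ?_ (pow_mem_Pol hvN L)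
    push_cast
    linarith
  have hyL : j y ^ L ∈ Pol Bool A 0 := by
    refine Pol_mono ?_ (pow_mem_Pol hyN L)
    have : (0 : ℤ) ≤ L * N := by positivity
    linarith
  obtain ⟨F, hF, hxF⟩ := mem_KY.1 hx
  obtain ⟨r₁, hr₁⟩ := H.red x
  -- the power series of `F` over `κ`
  have hFb : ∀ b, lmap φ (F b) = psl κ (PowerSeries.mk fun i => φ ((F b).coeff i)) := by
    intro b
    ext n
    rw [lmap_coeff]
    rcases lt_or_ge n 0 with h | h
    · obtain ⟨i, hi⟩ := Int.eq_ofNat_of_zero_le (neg_nonneg.2 h.le)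
      have h1 : n = -(i : ℤ) := by omega
      rw [psl_neg _ h, PL0.nt_neg hF b h1, map_mul, map_pow, H.ht, zero_pow (by omega), zero_mul]
    · obtain ⟨i, rfl⟩ := Int.eq_ofNat_of_zero_le h
      rw [psl_coeff, PowerSeries.coeff_mk]
  have hr₁F : ∀ b, (pt₀ b).h r₁ = (pt₀ b).h y₀ ^ (N * L) *
      PowerSeries.mk fun i => φ ((F b).coeff i) := by
    intro b
    apply psl_inj
    rw [← H.hj x r₁ hr₁ b, hxF, Pi.mul_apply, map_mul, hFb, Pi.pow_apply, map_pow,
      H.hj y (y₀ ^ N) hy.symm b, map_mul, map_pow, map_pow, map_pow, pow_mul]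
  obtain ⟨r, hr, hr'⟩ := divide hy₀ hlin hdiv (N * L) r₁ _ hr₁F
  have hce : ∀ b, PowerSeries.constantCoeff ((pt₀ b).h e₀) = 0 := mem_Ipt.1 he₀
  set w' : R₀ := ∑ i ∈ Finset.range (N * L + N), (1 - (1 - e₀) ^ (N * L)) ^ i with hw'
  have hgeo : 1 - (1 - (1 - e₀) ^ (N * L)) ^ (N * L + N) = w' * (1 - e₀) ^ (N * L) := by
    have h1 := geom_sum_mul (1 - (1 - e₀) ^ (N * L)) (N * L + N)
    rw [← hw'] at h1
    linear_combination h1
  have hcw : ∀ b, PowerSeries.constantCoeff ((pt₀ b).h w') = 1 := by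
    intro b
    rw [hw', map_sum, map_sum, Finset.sum_eq_single 0]
    · rw [pow_zero, map_one, map_one]
    · intro i _ hi
      simp only [map_pow, map_sub, map_one, hce, sub_zero, one_pow, sub_self, zero_pow hi]
    · intro h
      exact absurd (Finset.mem_range.2 (by have := H.one; omega)) h
  obtain ⟨ρ, hρ⟩ := H.lift (w' * r) (by
    have h1 : ∀ b, PowerSeries.constantCoeff ((pt₀ b).h (w' * r)) = φ ((F b).coeff 0) := by
      intro b
      rw [map_mul, map_mul, hcw, one_mul, hr' b, map_mul, map_pow, map_sub, hce, map_one,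
        sub_zero, one_pow, one_mul, ← PowerSeries.coeff_zero_eq_constantCoeff_apply,
        PowerSeries.coeff_mk, Nat.cast_zero]
    rw [h1, h1]
    exact congrArg φ (PL0.nt_zero hF false))
  have hz0 : kmap φ (((1 - e₁) * x - y ^ L * ρ : P) : KK I A) = 0 := by
    change kmap φ ((1 - (e₁ : KK I A)) * (x : KK I A) - (y : KK I A) ^ L * (ρ : KK I A)) = 0
    have h1 : ((1 - (1 - (1 - e₀) ^ (N * L)) ^ (N * L + N)) * r₁ - (y₀ ^ N) ^ L * (w' * r) :
        R₀) = 0 := by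
      rw [hgeo, mul_assoc, hr, ← pow_mul]
      ring
    rw [map_sub, map_mul, map_sub, map_one, map_mul, map_pow, he₁, hy, hρ, ← hr₁]
    exact congrArg (fun f : R₀ => (f : KK I κ)) h1
  have hzK : (1 - e₁) * x - y ^ L * ρ ∈ KY t j (j y ^ L) := by
    refine sub_mem (H.mul_KY _ hx) (mem_KY.2 ⟨j ρ, H.mem ρ, ?_⟩)
    rw [map_mul, map_pow]
  have h4 := H.ker_KY hvL hvLN hyL (w := y ^ L) (map_pow j y L) hzK hz0
  rw [← add_sub_cancel (y ^ L * ρ) ((1 - e₁) * x)]
  exact add_mem (Submodule.mem_sup_left ⟨ρ, rfl⟩) h4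

end main

theorem iter {A M : Type} [CommRing A] [AddCommGroup M] [Module A M] (J : Ideal A)
    (ψ : M →ₗ[A] M) (K T : Submodule A M) (hT : ∀ x ∈ T, ψ x ∈ T)
    (h : ∀ x ∈ K, ψ x ∈ T ⊔ J • K) (n : ℕ) : ∀ x ∈ K, (ψ ^ n) x ∈ T ⊔ J ^ n • K := by
  induction n with
  | zero =>
    intro x hx
    rw [pow_zero, pow_zero, Ideal.one_eq_top, Submodule.top_smul]
    exact Submodule.mem_sup_right hx
  | succ n ih =>
    intro x hx
    have h0 : (ψ ^ (n + 1)) x = ψ ((ψ ^ n) x) := by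
      rw [pow_succ' ψ n, Module.End.mul_apply]
    obtain ⟨a, ha, b, hb, hab⟩ := Submodule.mem_sup.1 (ih x hx)
    rw [h0, ← hab, map_add]
    refine add_mem (Submodule.mem_sup_left (hT a ha)) ?_
    have h1 : ψ b ∈ (J ^ n • K).map ψ := ⟨b, hb, rfl⟩
    rw [Submodule.map_smul''] at h1
    have h2 : K.map ψ ≤ T ⊔ J • K := by
      rintro _ ⟨y, hy, rfl⟩
      exact h y hy
    have h3 := Submodule.smul_mono (le_refl (J ^ n)) h2 h1
    rw [Submodule.smul_sup, ← Submodule.mul_smul, ← pow_succ] at h3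
    have h4 : J ^ n • T ⊔ J ^ (n + 1) • K ≤ T ⊔ J ^ (n + 1) • K :=
      sup_le_sup_right Submodule.smul_le_right _
    exact h4 h3

theorem coeff_pow_lin {B : Type} [CommRing B] {a : PowerSeries B}
    (ha : PowerSeries.constantCoeff a = 0) (n : ℕ) :
    PowerSeries.coeff n (a ^ n) = PowerSeries.coeff 1 a ^ n := by
  obtain ⟨c, rfl⟩ := PowerSeries.X_dvd_iff.2 ha
  have h1 : PowerSeries.coeff 1 (PowerSeries.X * c) = PowerSeries.constantCoeff c := by
    have h2 := PowerSeries.coeff_succ_X_mul 0 c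
    rw [zero_add] at h2
    rw [h2, PowerSeries.coeff_zero_eq_constantCoeff_apply]
  have h3 := PowerSeries.coeff_X_pow_mul (c ^ n) n 0
  rw [zero_add] at h3
  rw [h1, mul_pow, h3, PowerSeries.coeff_zero_eq_constantCoeff_apply, map_pow]

end NPY

theorem t_NPY (_hKSP : Stmt_KSP) (hKBT : Stmt_KBT) (hAYE : Stmt_AYE) (_hPL0 : Stmt_PL0)
    (hPL2 : Stmt_PL2) : Stmt_NPY := by
  intro I κ A _ _ _ _ _ rs g P R₀ pt₀ t j hnil hP hR₀ _ hSm hd ht hPT hmem hj
  obtain ⟨-, -, htay, y₀, e₀, d, hy₀, he₀, -, hmon, hlin, hdiv⟩ := hAYE hR₀ hSm pt₀ hd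
  obtain ⟨n, hn⟩ := hnil
  have hσ : ∀ b : κ, (rs : A →+* κ) (algebraMap κ A b) = b := fun b => rs.commutes b
  have H : NPY.Hyp (rs : A →+* κ) (algebraMap κ A) pt₀ t (n + 1) j := by
    refine ⟨hσ, ⟨n, hn⟩, ?_, ht, by omega, hmem, fun r hr => ?_, fun p => ?_, hj,
      fun p hp => NPY.mem_smul hKBT _ hP p hp, htay⟩
    · have h1 : t ^ n ∈ RingHom.ker (rs : A →+* κ) ^ n := Ideal.pow_mem_pow ht n
      rw [hn] at h1
      rw [pow_succ, (Ideal.mem_bot).1 h1, zero_mul]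
    · have h1 : (r : KK I κ) ∈ PT pt₀ 0 := (hPL2.2.2 hR₀ hSm pt₀ hd _).2 ⟨r, rfl, hr⟩
      rw [hPT] at h1
      exact NPY.exists_lift hσ h1
    · have h1 : kmap (rs : A →+* κ) (p : KK I A) ∈ PT pt₀ 0 := by
        rw [hPT]
        exact kmap_mem_bc _ p.2
      obtain ⟨r, hr, -⟩ := (hPL2.2.2 hR₀ hSm pt₀ hd _).1 h1
      exact ⟨r, hr⟩
  have hcy : ∀ b, PowerSeries.constantCoeff ((pt₀ b).h y₀) = 0 := NPY.mem_Ipt.1 hy₀
  have hce : ∀ b, PowerSeries.constantCoeff ((pt₀ b).h e₀) = 0 := NPY.mem_Ipt.1 he₀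
  refine ⟨fun F hF m => ?_, ?_⟩
  · obtain ⟨p, hp⟩ := H.dens (m := max m (n + 1)) (le_max_right _ _) hF
    exact ⟨p, Pol_mono (by omega) hp⟩
  obtain ⟨y, hy, hyN⟩ := H.lift_low (m := n + 1) le_rfl (r := y₀ ^ (n + 1)) (fun b i hi => by
    rw [map_pow]
    exact (PowerSeries.X_pow_dvd_iff.1 (pow_dvd_pow_of_dvd
      (PowerSeries.X_dvd_iff.2 (hcy b)) (n + 1))) i hi)
  have ha : ∀ b, ∃ a : PowerSeries A, IsUnit a ∧
      j y b = HahnSeries.single ((n + 1 : ℕ) : ℤ) 1 * psl A a := by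
    intro b
    refine ⟨_, ?_, NPY.eq_single_mul (j y b) ((n + 1 : ℕ) : ℤ) (fun k hk => hyN b k (by omega))⟩
    rw [PowerSeries.isUnit_iff_constantCoeff, ← PowerSeries.coeff_zero_eq_constantCoeff_apply,
      PowerSeries.coeff_mk, Nat.cast_zero, add_zero]
    refine NPY.isUnit_of_map hσ ⟨n, hn⟩ ?_
    rw [H.coeff hy.symm, map_pow, NPY.coeff_pow_lin (hcy b)]
    exact (hlin b).pow _
  refine ⟨n + 1, y, by omega, H.hN, ?_, ha, fun L => ?_⟩
  · refine NPY.isUnit_of_kmap hσ ⟨n, hn⟩ ?_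
    rw [hy, Pi.isUnit_iff]
    intro i
    change IsUnit (((y₀ : KK I κ) i) ^ (n + 1))
    refine IsUnit.pow _ (IsUnit.mk0 _ fun h0 => ?_)
    have h1 := hmon.2 i
    rw [h0, HahnSeries.coeff_zero] at h1
    exact zero_ne_one h1
  · choose a hau hya using ha
    choose c hc using fun b => (hau b).exists_right_inv
    obtain ⟨v, hv, hvN⟩ : ∃ v : KK Bool A, j y * v = 1 ∧ v ∈ Pol Bool A ((n + 1 : ℕ) : ℤ) := by
      refine ⟨fun b => SUB.ta A (-((n + 1 : ℕ) : ℤ)) * psl A (c b), ?_, ?_⟩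
      · funext b
        change j y b * (SUB.ta A (-((n + 1 : ℕ) : ℤ)) * psl A (c b)) = 1
        rw [hya b]
        change SUB.ta A ((n + 1 : ℕ) : ℤ) * psl A (a b) *
          (SUB.ta A (-((n + 1 : ℕ) : ℤ)) * psl A (c b)) = 1
        rw [mul_mul_mul_comm, SUB.ta_mul, ← map_mul, hc b, map_one, mul_one, add_neg_cancel,
          SUB.ta_zero]
      · intro b k hk
        refine mul_low (a := -((n + 1 : ℕ) : ℤ)) (b := 0) (fun m hm => ?_)
          (fun m hm => NPY.psl_neg _ hm) k (by omega)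
        rw [SUB.ta_coeff, if_neg (by omega)]
    obtain ⟨e₁, he₁, he₁N⟩ := H.lift_low (m := (n + 1) * L + (n + 1)) (by omega)
      (r := (1 - (1 - e₀) ^ ((n + 1) * L)) ^ ((n + 1) * L + (n + 1))) (fun b i hi => by
        have h1 : (pt₀ b).h ((1 - (1 - e₀) ^ ((n + 1) * L)) ^ ((n + 1) * L + (n + 1))) =
            (1 - (1 - (pt₀ b).h e₀) ^ ((n + 1) * L)) ^ ((n + 1) * L + (n + 1)) := by
          rw [map_pow, map_sub, map_one, map_pow, map_sub, map_one]
        rw [h1]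
        exact NPY.low_pow (hce b) _ _ i hi)
    have hstep : ∀ x ∈ NPY.KY t j (j y ^ L), (1 - e₁) * x ∈ _ := fun x hx =>
      H.step hy₀ he₀ hlin hdiv hy hv hvN hyN L he₁ hx
    have hvLN : v ^ L ∈ Pol Bool A (((n + 1) * L : ℕ) : ℤ) := by
      refine Pol_mono ?_ (NPY.pow_mem_Pol hvN L)
      push_cast
      linarith
    have he₁K : e₁ ∈ NPY.KY t j (j y ^ L) :=
      H.low_KY (by rw [← mul_pow, hv, one_pow]) hvLN he₁N
    have heK : 1 - (1 - e₁) ^ n ∈ NPY.KY t j (j y ^ L) := by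
      have h1 := sub_dvd_pow_sub_pow (1 : P) (1 - e₁) n
      rw [one_pow, sub_sub_cancel] at h1
      obtain ⟨z, hz⟩ := h1
      rw [hz, mul_comm]
      exact H.mul_KY z he₁K
    refine ⟨1 - (1 - e₁) ^ n, NPY.mem_KY.1 heK, fun q hq => ?_⟩
    have h2 := NPY.iter (RingHom.ker (rs : A →+* κ)) (LinearMap.mulLeft A (1 - e₁))
      (NPY.KY t j (j y ^ L)) (LinearMap.range (LinearMap.mulLeft A (y ^ L)))
      (by
        rintro _ ⟨r, rfl⟩
        refine ⟨(1 - e₁) * r, ?_⟩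
        rw [LinearMap.mulLeft_apply, LinearMap.mulLeft_apply, LinearMap.mulLeft_apply]
        ring) hstep n q (NPY.mem_KY.2 hq)
    rw [hn, Submodule.bot_smul, sup_bot_eq, LinearMap.pow_mulLeft, LinearMap.mulLeft_apply] at h2
    obtain ⟨r, hr⟩ := h2
    rw [LinearMap.mulLeft_apply] at hr
    refine ⟨r, ?_⟩
    rw [hr, sub_sub_cancel]

end Pool.Agent.MG.G0
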