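import Pool.Agent.MG.G0.StmtsNB

set_option autoImplicit false

/-!
# NQY: the elements `q` and `y` at the node, over a field
-/

open Polynomial

namespace Pool.Agent.MG.G0

namespace NQY

variable {I κ : Type} [Field κ] {R : Subalgebra κ (KK I κ)}

theorem mem_Ipt {J : Type} {pt : J → FPt R} {s : R} : s ∈ Ipt pt ↔ ∀ b, (pt b).ev s = 0 := by
  rw [Ipt, Ideal.mem_iInf]
  rfl

theorem ev_eq (p : FPt R) (s : R) : p.ev s = PowerSeries.coeff 0 (p.h s) := by
  rw [FPt.ev, PowerSeries.coeff_zero_eq_constantCoeff_apply]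

theorem h_algebraMap (p : FPt R) (a : κ) : p.h (algebraMap κ R a) = PowerSeries.C a := by
  rw [AlgHom.commutes]
  rfl

theorem ev_mul (p : FPt R) (s t : R) : p.ev (s * t) = p.ev s * p.ev t := by
  rw [FPt.ev, map_mul, map_mul]
  rfl

theorem ev_sub (p : FPt R) (s t : R) : p.ev (s - t) = p.ev s - p.ev t := by
  rw [FPt.ev, map_sub, map_sub]
  rfl

theorem ev_one (p : FPt R) : p.ev 1 = 1 := by
  rw [FPt.ev, map_one, map_one]

/-- the coefficient of `u` of a product if the second factor vanishes at the point -/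
theorem coeff_one_mul (p : FPt R) (s t : R) (h : p.ev t = 0) :
    PowerSeries.coeff 1 (p.h (s * t)) = p.ev s * PowerSeries.coeff 1 (p.h t) := by
  rw [map_mul, PowerSeries.coeff_mul, Finset.Nat.antidiagonal_succ]
  simp only [Finset.Nat.antidiagonal_zero, Finset.map_singleton, Finset.sum_cons,
    Finset.sum_singleton]
  rw [ev_eq] at h ⊢
  simp [h]

/-- division by an element with expansion `u` -/
theorem coeff_one_eq (p : FPt R) {z r s : R} (hz : p.h z = PowerSeries.X) (h : s = z * r) :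
    PowerSeries.coeff 1 (p.h s) = p.ev r := by
  rw [h, map_mul, hz, show (1 : ℕ) = 0 + 1 from rfl, PowerSeries.coeff_succ_X_mul, ev_eq]

end NQY

open NQY in
/-- NQY: the elements `q` and `y` at the node, over a field. -/
theorem t_NQY (hAYE : Stmt_AYE) : Stmt_NQY := by
  intro I κ _ _ _ g R pt c z h2 hKr hSm hDisj hz
  obtain ⟨-, -, hpre, y₀, e, -, hy₀, he, -, -, hu, hdiv⟩ := hAYE hKr hSm pt hDisj
  rw [mem_Ipt] at hy₀ he
  have hzc : ∀ b, (pt b).h (z - algebraMap κ R c) = PowerSeries.X := by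
    intro b
    rw [map_sub, hz, h_algebraMap, add_sub_cancel_left]
  have hzJ : z - algebraMap κ R c ∈ Ipt pt := by
    rw [mem_Ipt]
    intro b
    rw [FPt.ev, hzc, PowerSeries.constantCoeff_X]
  obtain ⟨r₀, hr₀⟩ := hdiv _ hzJ
  have hev : ∀ b, PowerSeries.coeff 1 ((pt b).h y₀) * (pt b).ev r₀ = 1 := by
    intro b
    have h1 : PowerSeries.coeff 1 ((pt b).h ((1 - e) * (z - algebraMap κ R c))) =
      PowerSeries.coeff 1 ((pt b).h (y₀ * r₀)) := by rw [hr₀]
    rw [coeff_one_mul _ _ _ (mem_Ipt.1 hzJ b), hzc, PowerSeries.coeff_one_X, mul_one, ev_sub,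
      ev_one, he b, sub_zero, mul_comm y₀ r₀, coeff_one_mul _ _ _ (hy₀ b)] at h1
    rw [h1, mul_comm]
  obtain ⟨w, hw⟩ := hpre 1 fun b => PowerSeries.C (PowerSeries.coeff 1 ((pt b).h y₀))
  obtain ⟨y, hy⟩ := hpre 2 fun b => if b = true then PowerSeries.X else -PowerSeries.X
  have hw' : ∀ b, (pt b).ev w = PowerSeries.coeff 1 ((pt b).h y₀) := by
    intro b
    rw [ev_eq, hw b 0 (by norm_num)]
    simp
  have hq : ∀ b, (pt b).ev ((1 - e) * r₀ * w) = 1 := by
    intro b
    rw [ev_mul, ev_mul, ev_sub, ev_one, he b, sub_zero, one_mul, hw' b, mul_comm, hev b]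
  have hyev : ∀ b, (pt b).ev y = 0 := by
    intro b
    rw [ev_eq, hy b 0 (by norm_num)]
    cases b <;> simp
  have hyt : PowerSeries.coeff 1 ((pt true).h y) = 1 := by
    rw [hy true 1 (by norm_num)]
    simp
  have hyf : PowerSeries.coeff 1 ((pt false).h y) = -1 := by
    rw [hy false 1 (by norm_num)]
    simp
  refine ⟨(1 - e) * r₀ * w, y, hq, hyev, hyt, hyf, fun x hx => ?_⟩
  set α := (pt true).ev x with hα
  set β := (PowerSeries.coeff 1 ((pt true).h x) - PowerSeries.coeff 1 ((pt false).h x)) / 2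
    with hβ
  have hc0 : ∀ b, (pt b).ev x = α := by
    intro b
    cases b
    · exact hx.symm
    · rfl
  have hsJ : x - algebraMap κ R α - β • y ∈ Ipt pt := by
    rw [mem_Ipt]
    intro b
    rw [ev_sub, ev_sub, hc0 b, FPt.ev, h_algebraMap, PowerSeries.constantCoeff_C, sub_self,
      zero_sub, neg_eq_zero, FPt.ev, map_smul, PowerSeries.constantCoeff_smul]
    have h3 := hyev b
    rw [FPt.ev] at h3
    rw [h3, smul_zero]
  obtain ⟨r, hr⟩ := hdiv _ hsJ
  refine ⟨α, β, (1 - e) * r * w, ?_, ?_⟩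
  · have key : (1 - e) * r₀ * w * (x - algebraMap κ R α - β • y) =
        (z - algebraMap κ R c) * ((1 - e) * r * w) := by
      linear_combination r₀ * w * hr - r * w * hr₀
    have hco : ∀ b, (pt b).ev ((1 - e) * r * w) =
        PowerSeries.coeff 1 ((pt b).h (x - algebraMap κ R α - β • y)) := by
      intro b
      rw [← coeff_one_eq (pt b) (hzc b) key, coeff_one_mul _ _ _ (mem_Ipt.1 hsJ b), hq b, one_mul]
    have hexp : ∀ b, PowerSeries.coeff 1 ((pt b).h (x - algebraMap κ R α - β • y)) =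
        PowerSeries.coeff 1 ((pt b).h x) - β * PowerSeries.coeff 1 ((pt b).h y) := by
      intro b
      rw [map_sub, map_sub, map_sub, map_sub, h_algebraMap, map_smul, PowerSeries.coeff_C,
        if_neg one_ne_zero, sub_zero, PowerSeries.coeff_smul, smul_eq_mul]
    rw [hco, hco, hexp, hexp, hyt, hyf]
    have h4 : β * 2 = PowerSeries.coeff 1 ((pt true).h x) - PowerSeries.coeff 1 ((pt false).h x) :=
      div_mul_cancel₀ _ h2
    linear_combination -h4
  · linear_combination r₀ * w * hr - r * w * hr₀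

end Pool.Agent.MG.G0
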