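import Pool.Agent.MG.G0.StmtsNB
import Pool.Agent.MG.G0.StmtsB
import Pool.Agent.MG.G0.PL0

/-!
# NSG: the substitution `s ↦ u + t/u`
-/

namespace Pool.Agent.MG.G0

namespace NSG

variable {A B : Type} [CommRing A] [CommRing B] {t : A}

/-- The image of `u`. -/
noncomputable def U (t : A) : LaurentSeries A :=
  HahnSeries.single 1 1 + HahnSeries.single (-1) t

theorem exists_c (ht : IsNilpotent t) : ∃ c : LaurentSeries A, (zz A 1 + t • c) * U t = 1 := by
  obtain ⟨N, hN⟩ := ht
  obtain ⟨x, hx⟩ : ∃ x : LaurentSeries A, x = HahnSeries.single (-2) t := ⟨_, rfl⟩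
  have hxN : x ^ N = 0 := by
    rw [hx, HahnSeries.single_pow, hN, HahnSeries.single_eq_zero]
  obtain ⟨w, hw⟩ : ∃ w : LaurentSeries A, (1 + x) * w = 1 := by
    refine ⟨∑ i ∈ Finset.range N, (-x) ^ i, ?_⟩
    have h := mul_neg_geom_sum (-x) N
    rw [sub_neg_eq_add, neg_pow, hxN, mul_zero, sub_zero] at h
    exact h
  have h1 : (zz A 1 : LaurentSeries A) * HahnSeries.single 1 1 = 1 := by
    rw [zz, HahnSeries.single_mul_single, mul_one]
    rfl
  have h2 : (zz A 1 : LaurentSeries A) * HahnSeries.single (-1) t = x := by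
    rw [zz, HahnSeries.single_mul_single, one_mul, hx]
    rfl
  have h3 : t • (HahnSeries.single (-3) 1 : LaurentSeries A) = zz A 1 * x := by
    rw [zz, hx, HahnSeries.single_mul_single, one_mul]
    ext m
    rw [HahnSeries.coeff_smul, smul_eq_mul, HahnSeries.coeff_single, HahnSeries.coeff_single]
    split_ifs with h4 h5 h5
    · rw [mul_one]
    · exact absurd h4 h5
    · exact absurd h5 h4
    · rw [mul_zero]
  refine ⟨-(HahnSeries.single (-3) 1 * w), ?_⟩
  have h4 : t • -(HahnSeries.single (-3) 1 * w) = -(zz A 1 * x * w) := by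
    rw [smul_neg, ← smul_mul_assoc, h3]
  rw [h4]
  have h5 : zz A 1 + -(zz A 1 * x * w) = zz A 1 * w := by
    linear_combination (-zz A 1) * hw
  rw [h5, U]
  linear_combination w * h1 + w * h2 + hw

theorem psl_coeff_neg (b : PowerSeries A) (m : ℤ) (hm : m < 0) : (psl A b).coeff m = 0 := by
  have h := PowerSeries.coeff_coe b m
  rw [if_pos hm] at h
  exact h

theorem pow_low {a : LaurentSeries A} {L : ℕ} (ha : ∀ m < -(L : ℤ), a.coeff m = 0) (n : ℕ) :
    ∀ m < -((n * L : ℕ) : ℤ), (a ^ n).coeff m = 0 := by
  induction n with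
  | zero =>
    intro m hm
    rw [pow_zero, HahnSeries.coeff_one, if_neg]
    rw [zero_mul, Nat.cast_zero, neg_zero] at hm
    omega
  | succ n ih =>
    intro m hm
    rw [pow_succ]
    refine mul_low ih ha m ?_
    push_cast at hm ⊢
    linarith

theorem psi_low {a f : LaurentSeries A} {L : ℕ} (ha : ∀ m < -(L : ℤ), a.coeff m = 0) {M : ℤ}
    (hf : ∀ m < M, f.coeff m = 0) :
    ∀ m < M - ((nilpotencyClass a * L : ℕ) : ℤ), (psi 1 a f).coeff m = 0 := by
  intro m hm
  rw [psi_apply, HahnSeries.coeff_sum]
  refine Finset.sum_eq_zero fun n hn => ?_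
  refine mul_low (pow_low ha n) (b := M) (fun k hk => ?_) m ?_
  · rw [dz_coeff, hf _ (by omega), mul_zero]
  · have h1 : n * L ≤ nilpotencyClass a * L :=
      Nat.mul_le_mul_right _ (Finset.mem_range.1 hn).le
    have h2 : ((n * L : ℕ) : ℤ) ≤ ((nilpotencyClass a * L : ℕ) : ℤ) := by exact_mod_cast h1
    omega

end NSG

open NSG in
theorem t_NSG (hPSI : Stmt_PSI) : Stmt_NSG := by
  intro A _ t ht
  obtain ⟨c, hc⟩ := exists_c ht
  have h1u : IsUnit ((1 : ℕ) : A) := by
    rw [Nat.cast_one]
    exact isUnit_one
  obtain ⟨-, -, -, -, hP⟩ := hPSI 1 one_pos h1u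
  have hnil : IsNilpotent (t • c) := by
    obtain ⟨N, hN⟩ := ht
    refine ⟨N, ?_⟩
    rw [smul_pow, hN, zero_smul]
  obtain ⟨hmul, hone, hzz, hbij, hJ, -, -, -⟩ := hP (t • c) hnil
  let σ₀ : LaurentSeries A →ₐ[A] LaurentSeries A := AlgHom.ofLinearMap (psi 1 (t • c)) hone hmul
  let σ : LaurentSeries A ≃ₐ[A] LaurentSeries A := AlgEquiv.ofBijective σ₀ hbij
  have hσ : ∀ x, σ x = psi 1 (t • c) x := fun x => rfl
  have hU : σ (HahnSeries.single 1 1) = U t := by
    have h1 : (zz A 1 : LaurentSeries A) * HahnSeries.single 1 1 = 1 := by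
      rw [zz, HahnSeries.single_mul_single, mul_one]
      rfl
    have h2 := congrArg σ h1
    rw [map_mul, map_one σ, hσ (zz A 1), hzz] at h2
    linear_combination (U t) * h2 - (σ (HahnSeries.single 1 1)) * hc
  refine ⟨σ, hU, ?_, ?_⟩
  · -- polynomials
    have hX : (fun _ : Bool => U t) ∈ Nt t := by
      have h := add_mem (PL0.uv_mem t true) (PL0.uv_mem t false)
      have e : uv t true + uv t false = fun _ : Bool => U t := by
        funext b
        cases b
        · change uv t true false + uv t false false = U t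
          rw [PL0.uv_self, show false = !true from rfl, PL0.uv_not, add_comm]
          rfl
        · change uv t true true + uv t false true = U t
          rw [PL0.uv_self, show true = !false from rfl, PL0.uv_not]
          rfl
      rwa [e] at h
    have hdec : ∀ (M : ℕ) (a : PowerSeries A), ∃ P b : PowerSeries A,
        a = P + PowerSeries.X ^ M * b ∧ (fun _ : Bool => σ (psl A P)) ∈ Nt t := by
      intro M
      induction M with
      | zero =>
        intro a
        refine ⟨0, a, by rw [pow_zero, one_mul, zero_add], ?_⟩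
        have e : (fun _ : Bool => σ (psl A 0)) = 0 := by
          funext b
          rw [map_zero, map_zero]
          rfl
        rw [e]
        exact zero_mem _
      | succ M ih =>
        intro a
        obtain ⟨P, b, h1, h2⟩ := ih (PowerSeries.mk fun p => PowerSeries.coeff (p + 1) a)
        refine ⟨PowerSeries.C (PowerSeries.constantCoeff a) + PowerSeries.X * P, b, ?_, ?_⟩
        · have h3 := PowerSeries.eq_X_mul_shift_add_const a
          rw [h1] at h3
          refine h3.trans ?_
          ring
        · have e : (fun _ : Bool => σ (psl A (PowerSeries.C (PowerSeries.constantCoeff a) +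
              PowerSeries.X * P))) = algebraMap A (KK Bool A) (PowerSeries.constantCoeff a) +
              (fun _ : Bool => U t) * (fun _ : Bool => σ (psl A P)) := by
            funext b
            have e1 : psl A (PowerSeries.C (PowerSeries.constantCoeff a)) =
                algebraMap A (LaurentSeries A) (PowerSeries.constantCoeff a) := by
              rw [psl, HahnSeries.ofPowerSeries_C]
              rfl
            have e2 : psl A (PowerSeries.X : PowerSeries A) = HahnSeries.single 1 1 :=
              HahnSeries.ofPowerSeries_X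
            rw [map_add, map_mul, map_add, map_mul, e1, e2, hU, AlgEquiv.commutes]
            rfl
          rw [e]
          exact add_mem (Subalgebra.algebraMap_mem _ _) (mul_mem hX h2)
    intro a
    rw [mem_Nt]
    intro _ j
    obtain ⟨L, hL⟩ := exists_low (t • c)
    obtain ⟨P, b, h1, h2⟩ := hdec (nilpotencyClass (t • c) * L + j + 1) a
    have hlow : ∀ m ≤ (j : ℤ), (σ (psl A (PowerSeries.X ^
        (nilpotencyClass (t • c) * L + j + 1) * b))).coeff m = 0 := by
      intro m hm
      rw [hσ]
      refine psi_low hL (M := ((nilpotencyClass (t • c) * L + j + 1 : ℕ) : ℤ)) ?_ m ?_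
      · intro k hk
        have e2 : psl A (PowerSeries.X : PowerSeries A) = HahnSeries.single 1 1 :=
          HahnSeries.ofPowerSeries_X
        rw [map_mul, map_pow, e2, HahnSeries.single_pow, one_pow]
        refine mul_low (a := ((nilpotencyClass (t • c) * L + j + 1 : ℕ) : ℤ)) (b := 0)
          (fun l hl => ?_) (psl_coeff_neg b) k (by omega)
        rw [HahnSeries.coeff_single_of_ne]
        rw [nsmul_eq_mul, mul_one]
        omega
      · push_cast
        omega
    have h3 := (mem_Nt.1 h2) true j
    change (σ (psl A a)).coeff (-(j : ℤ)) = t ^ j * (σ (psl A a)).coeff j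
    rw [h1, map_add, map_add, HahnSeries.coeff_add, HahnSeries.coeff_add, hlow _ (by omega),
      hlow _ le_rfl, add_zero, add_zero]
    exact h3
  · intro B _ φ hφ x
    ext m
    have h := hJ (RingHom.ker φ) (fun k => ?_) x m
    · rw [RingHom.mem_ker, HahnSeries.coeff_sub, map_sub, sub_eq_zero] at h
      rw [lmap_coeff, lmap_coeff]
      exact h
    · rw [RingHom.mem_ker, HahnSeries.coeff_smul, smul_eq_mul, map_mul, hφ, zero_mul]

end Pool.Agent.MG.G0
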