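import Pool.Agent.MG.G0.StmtsK

/-!
# PDP (PERP2): the double orthogonal
-/

namespace Pool.Agent.MG.G0

theorem PDP.res_mon {I A : Type} [Fintype I] [CommRing A] (i : I) (n : ℤ) (a : A) :
    res (mon i n a) = if n = -1 then a else 0 := by
  have h := res_mul_mon (1 : KK I A) i n a
  rw [one_mul] at h
  rw [h, Pi.one_apply, HahnSeries.coeff_one]
  by_cases hn : n = -1
  · rw [if_pos hn, if_pos (by omega), one_mul]
  · rw [if_neg hn, if_neg (by omega), zero_mul]

theorem PDP.mon_zero {I A : Type} [CommRing A] (i : I) (n : ℤ) : mon i n (0 : A) = 0 := by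
  funext j
  ext m
  rw [mon_coeff, Pi.zero_apply, HahnSeries.coeff_zero]
  split_ifs <;> rfl

theorem t_PDP (hKFO : Stmt_KFO) (hPPR : Stmt_PPR) : Stmt_PDP := by
  intro I A _ _ _ g P hP f hf
  obtain ⟨⟨ω, hω⟩, hE⟩ := hKFO hP
  have hωE := (hE ω hω).1
  obtain ⟨p, hp, ho⟩ := (hω.ker f).1 fun j => hf _ (hωE j).1
  obtain ⟨o, ho'⟩ : ∃ o, o = f - p := ⟨_, rfl⟩
  rw [← ho'] at ho
  have hres : ∀ η ∈ Perp P, res (η * o) = 0 := by
    intro η hη
    rw [ho', mul_sub, map_sub, hf η hη, hη p hp, sub_zero]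
  obtain ⟨i₀⟩ : Nonempty I := inferInstance
  obtain ⟨q, hq1, hq2, hq3, hq4⟩ := hPPR hP i₀
  have hx : ∀ x : KK I A, res x = 0 → res (o * x) = 0 := by
    intro x hx0
    have h1 := hq3 x
    rw [hx0, PDP.mon_zero, sub_zero] at h1
    have h2 : o * x = q x * o + (x - q x) * o := by ring
    rw [h2, map_add, hres _ (hq1 x), res_Pol0 (mul_mem_Pol0 h1 ho), add_zero]
  have hpos : ∀ (i : I) (m : ℤ), 0 < m → (o i).coeff m = 0 := by
    intro i m hm
    have h1 := hx (mon i (-1 - m) 1) (by rw [PDP.res_mon, if_neg (by omega)])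
    rw [res_mul_mon, mul_one] at h1
    have e : (-1 : ℤ) - (-1 - m) = m := by ring
    rwa [e] at h1
  have hzero : ∀ i : I, (o i).coeff 0 = (o i₀).coeff 0 := by
    intro i
    have h1 := hx (mon i (-1) 1 - mon i₀ (-1) 1) (by
      rw [map_sub, PDP.res_mon, PDP.res_mon, if_pos rfl, sub_self])
    rw [mul_sub, map_sub, res_mul_mon, res_mul_mon, mul_one, mul_one, sub_self] at h1
    exact sub_eq_zero.1 h1
  have hoc : o = algebraMap A (KK I A) ((o i₀).coeff 0) := by
    funext i
    ext m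
    rw [Pi.algebraMap_apply, coeff_algebraMap]
    rcases lt_trichotomy m 0 with h | h | h
    · rw [if_neg (by omega)]
      exact ho i m (by omega)
    · rw [if_pos h, h]
      exact hzero i
    · rw [if_neg (by omega)]
      exact hpos i m h
  have hf' : f = o + p := by rw [ho']; ring
  rw [hf']
  refine add_mem ?_ hp
  rw [hoc]
  exact P.algebraMap_mem _

end Pool.Agent.MG.G0
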