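import Pool.Agent.MG.G0.StmtsCQ

/-!
# PFB: forgetting punctures
-/

namespace Pool.Agent.MG.G0

namespace PFB

section

variable {I J A B : Type} [CommRing A] [CommRing B]

/-- Extension by zero at the additional punctures. -/
noncomputable def ext (I J A : Type) [CommRing A] : KK I A →ₗ[A] KK (I ⊕ J) A where
  toFun f := Sum.elim f fun _ => 0
  map_add' f g := by
    funext k
    rcases k with i | j
    · rfl
    · change (0 : LaurentSeries A) = 0 + 0
      rw [add_zero]
  map_smul' a f := by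
    funext k
    rcases k with i | j
    · rfl
    · change (0 : LaurentSeries A) = a • 0
      rw [smul_zero]

theorem ext_inl (f : KK I A) (i : I) : ext I J A f (Sum.inl i) = f i := rfl

theorem ext_inr (f : KK I A) (j : J) : ext I J A f (Sum.inr j) = 0 := rfl

theorem L_Pol0 {h : ℕ} {W : Subalgebra A (KK (I ⊕ J) A)}
    {L : KK (I ⊕ J) A →ₗ[A] (Fin h → A)}
    (hL : ∀ f, L f = 0 ↔ ∃ p ∈ W, f - p ∈ Pol (I ⊕ J) A 0) {f : KK (I ⊕ J) A}
    (hf : f ∈ Pol (I ⊕ J) A 0) : L f = 0 :=
  (hL f).2 ⟨0, zero_mem W, by rwa [sub_zero]⟩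

theorem L_W {h : ℕ} {W : Subalgebra A (KK (I ⊕ J) A)}
    {L : KK (I ⊕ J) A →ₗ[A] (Fin h → A)}
    (hL : ∀ f, L f = 0 ↔ ∃ p ∈ W, f - p ∈ Pol (I ⊕ J) A 0) {f : KK (I ⊕ J) A}
    (hf : f ∈ W) : L f = 0 :=
  (hL f).2 ⟨f, hf, by rw [sub_self]; exact zero_mem _⟩

theorem isKr_Rem {h : ℕ} {W : Subalgebra A (KK (I ⊕ J) A)} (hW : IsKr h W) (hD : Dn W) :
    IsKr h (Rem W) := by
  refine ⟨?_, ?_⟩
  · rintro f ⟨w, hw, h1, h2⟩ hf
    obtain ⟨a, ha⟩ := hW.k1 w hw (by
      intro k m hm
      rcases k with i | j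
      · rw [h2]
        exact hf i m hm
      · exact h1 j m (by omega))
    refine ⟨a, ?_⟩
    funext i
    rw [← h2, ha]
    rfl
  · obtain ⟨L, hs, hL⟩ := hW.k2
    refine ⟨L ∘ₗ ext I J A, ?_, ?_⟩
    · intro c
      obtain ⟨F, hF⟩ := hs c
      obtain ⟨w, hw, hwF⟩ := hD (fun j => F (Sum.inr j)) 0
      refine ⟨fun i => (F - w) (Sum.inl i), ?_⟩
      rw [LinearMap.comp_apply]
      have h1 : (F - w) - ext I J A (fun i => (F - w) (Sum.inl i)) ∈ Pol (I ⊕ J) A 0 := by
        intro k m hm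
        rcases k with i | j
        · rw [Pi.sub_apply, ext_inl, sub_self, HahnSeries.coeff_zero]
        · rw [Pi.sub_apply, ext_inr, sub_zero, Pi.sub_apply, HahnSeries.coeff_sub]
          rw [hwF j m (by omega), sub_self]
      have h2 := L_Pol0 hL h1
      rw [map_sub, map_sub, L_W hL hw, sub_zero, hF, sub_eq_zero] at h2
      exact h2.symm
    · intro f
      rw [LinearMap.comp_apply, hL]
      constructor
      · rintro ⟨p, hp, hfp⟩
        refine ⟨fun i => p (Sum.inl i), ⟨p, hp, fun j m hm => ?_, fun i => rfl⟩, fun i m hm => ?_⟩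
        · have h3 := hfp (Sum.inr j) m (by omega)
          rw [Pi.sub_apply, ext_inr, zero_sub, HahnSeries.coeff_neg, neg_eq_zero] at h3
          exact h3
        · exact hfp (Sum.inl i) m hm
      · rintro ⟨p, ⟨w, hw, h1, h2⟩, hfp⟩
        refine ⟨w, hw, ?_⟩
        intro k m hm
        rcases k with i | j
        · rw [Pi.sub_apply, ext_inl, h2]
          exact hfp i m hm
        · rw [Pi.sub_apply, ext_inr, zero_sub, HahnSeries.coeff_neg, h1 j m (by omega), neg_zero]

/-- A series with leading coefficient one is not a zero divisor. -/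
theorem eq_zero_of_mul {f v : LaurentSeries A} {a b : ℤ} (hf : ∀ m < a, f.coeff m = 0)
    (hv : ∀ m < b, v.coeff m = 0) (hv1 : v.coeff b = 1) (h : f * v = 0) : f = 0 := by
  have key : ∀ n : ℕ, ∀ m < a + n, f.coeff m = 0 := by
    intro n
    induction n with
    | zero =>
      intro m hm
      exact hf m (by push_cast at hm; omega)
    | succ n ih =>
      intro m hm
      rcases lt_or_ge m (a + n) with h1 | h1
      · exact ih m h1
      · have h2 : m = a + n := by push_cast at hm; omega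
        have h3 := mul_lead ih hv
        rw [h, HahnSeries.coeff_zero, hv1, mul_one] at h3
        rw [h2, ← h3]
  ext m
  rw [HahnSeries.coeff_zero]
  exact key (m - a + 1).toNat m (by omega)

/-- The restriction to the punctures `I` is injective. -/
theorem inj [Finite I] [Finite J] [Nonempty I] {h : ℕ} {W : Subalgebra A (KK (I ⊕ J) A)}
    (hW : IsKr h W) (hD : Dn W) : ∀ w ∈ W, (∀ i, w (Sum.inl i) = 0) → w = 0 := by
  classical
  intro w hw h0
  obtain ⟨i₀⟩ := ‹Nonempty I›
  obtain ⟨N, hN⟩ := exists_Pol w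
  funext k
  rcases k with i | j
  · exact h0 i
  · obtain ⟨v, hv, hvc⟩ := hD (fun j' => if j' = j then HahnSeries.single (N : ℤ) 1 else 0)
      ((N : ℤ) + 1)
    have hv0 : ∀ j', ∀ m < (N : ℤ), (v (Sum.inr j')).coeff m = 0 := by
      intro j' m hm
      rw [hvc j' m (by omega)]
      by_cases hj : j' = j
      · rw [if_pos hj]
        exact HahnSeries.coeff_single_of_ne (by omega)
      · rw [if_neg hj, HahnSeries.coeff_zero]
    have hv1 : (v (Sum.inr j)).coeff (N : ℤ) = 1 := by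
      rw [hvc j N (by omega), if_pos rfl]
      exact HahnSeries.coeff_single_same _ _
    have h1 : w * v ∈ Pol (I ⊕ J) A 0 := by
      intro k m hm
      rcases k with i | j'
      · rw [Pi.mul_apply, h0, zero_mul, HahnSeries.coeff_zero]
      · rw [Pi.mul_apply]
        exact mul_low (hN (Sum.inr j')) (hv0 j') m (by omega)
    obtain ⟨a, ha⟩ := hW.k1 _ (mul_mem hw hv) h1
    have h2 : w * v = 0 := by
      have h3 := congrArg (fun f : KK (I ⊕ J) A => (f (Sum.inl i₀)).coeff 0) ha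
      simp only [Pi.mul_apply, h0, zero_mul, HahnSeries.coeff_zero, Pi.algebraMap_apply,
        coeff_algebraMap, if_true] at h3
      rw [ha, ← h3, map_zero]
    have h4 : w (Sum.inr j) * v (Sum.inr j) = 0 := congrFun h2 (Sum.inr j)
    exact eq_zero_of_mul (hN (Sum.inr j)) (hv0 j) hv1 h4

theorem Dn_bc [Finite J] {W : Subalgebra A (KK (I ⊕ J) A)} (hD : Dn W) (φ : A →+* B) :
    Dn (bc φ W) := by
  classical
  cases nonempty_fintype J
  intro f M
  obtain ⟨n, hn⟩ := exists_Pol (f : KK J B)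
  choose w hw hwc using fun x : J × ℤ =>
    hD (fun j => if j = x.1 then HahnSeries.single x.2 (1 : A) else 0) M
  refine ⟨∑ j : J, ∑ m ∈ Finset.Ico (-(n : ℤ)) M, (f j).coeff m • kmap φ (w (j, m)), ?_, ?_⟩
  · refine Subalgebra.sum_mem _ fun j _ => Subalgebra.sum_mem _ fun m _ => ?_
    exact Subalgebra.smul_mem _ (kmap_mem_bc φ (hw _)) _
  · intro j l hl
    rw [Finset.sum_apply, HahnSeries.coeff_sum]
    have h1 : ∀ j' : J, ((∑ m ∈ Finset.Ico (-(n : ℤ)) M, (f j').coeff m • kmap φ (w (j', m)))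
        (Sum.inr j)).coeff l = if j' = j then (f j).coeff l else 0 := by
      intro j'
      rw [Finset.sum_apply, HahnSeries.coeff_sum]
      have h2 : ∀ m ∈ Finset.Ico (-(n : ℤ)) M,
          ((((f j').coeff m • kmap φ (w (j', m)) : KK (I ⊕ J) B)) (Sum.inr j)).coeff l =
          if m = l then (if j' = j then (f j).coeff l else 0) else 0 := by
        intro m _
        rw [Pi.smul_apply, HahnSeries.coeff_smul, kmap_apply, lmap_coeff, hwc (j', m) j l hl,
          smul_eq_mul]
        by_cases h3 : j' = j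
        · subst h3
          rw [if_pos rfl, if_pos rfl]
          by_cases h4 : m = l
          · subst h4
            rw [if_pos rfl, HahnSeries.coeff_single_same, map_one, mul_one]
          · rw [if_neg h4, HahnSeries.coeff_single_of_ne (Ne.symm h4), map_zero, mul_zero]
        · rw [if_neg (Ne.symm h3), if_neg h3, HahnSeries.coeff_zero, map_zero, mul_zero, ite_self]
      rw [Finset.sum_congr rfl h2, Finset.sum_ite_eq']
      by_cases h5 : l ∈ Finset.Ico (-(n : ℤ)) M
      · rw [if_pos h5]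
      · rw [if_neg h5]
        rw [Finset.mem_Ico] at h5
        have h6 : (f j).coeff l = 0 := hn j l (by omega)
        rw [h6, ite_self]
    rw [Finset.sum_congr rfl fun j' _ => h1 j', Finset.sum_ite_eq']
    rw [if_pos (Finset.mem_univ j)]

theorem bc_Rem_le (W : Subalgebra A (KK (I ⊕ J) A)) (φ : A →+* B) :
    bc φ (Rem W) ≤ Rem (bc φ W) := by
  refine Algebra.adjoin_le ?_
  rintro _ ⟨f, ⟨w, hw, h1, h2⟩, rfl⟩
  refine ⟨kmap φ w, kmap_mem_bc φ hw, fun j m hm => ?_, fun i => ?_⟩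
  · rw [kmap_apply, lmap_coeff, h1 j m hm, map_zero]
  · rw [kmap_apply, kmap_apply, h2]

end

end PFB

/-- PFB: forgetting punctures. -/
theorem t_PFB (hKBC : Stmt_KBC) (hKEQ : Stmt_KEQ) : Stmt_PFB := by
  intro I J A _ _ _ _ h W hW hD
  refine ⟨PFB.isKr_Rem hW hD, ⟨rfl, PFB.inj hW hD, hD⟩, ?_⟩
  intro B _ φ
  have hDB := PFB.Dn_bc hD φ
  have hWB := (hKBC.2.2.2 hW φ).1
  have h1 : IsKr h (bc φ (Rem W)) := (hKBC.2.2.2 (PFB.isKr_Rem hW hD) φ).1
  have h2 : bc φ (Rem W) = Rem (bc φ W) :=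
    hKEQ h1 (PFB.isKr_Rem hWB hDB) (PFB.bc_Rem_le W φ)
  exact ⟨hDB, h2, ⟨h2, PFB.inj hWB hDB, hDB⟩⟩

end Pool.Agent.MG.G0
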