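import Pool.Agent.MG.G0.StmtsLOG

/-!
# PL1: plumbing increases the genus by one
-/

namespace Pool.Agent.MG.G0

namespace PL1

section

variable {A : Type} [CommRing A]

/-- A perturbation, by a nilpotent multiple, of a surjection onto a projective module. -/
theorem pert {M T : Type} [AddCommGroup M] [AddCommGroup T] [Module A M] [Module A T]
    [Module.Projective A T] (F X : M →ₗ[A] T) (hF : Function.Surjective F) (t : A)
    (ht : IsNilpotent t) (hK : ∀ m, F m = 0 → t • X m = 0) :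
    (∃ σ : T →ₗ[A] M, ∀ y, F (σ y) + t • X (σ y) = y) ∧
      ∀ m, F m + t • X m = 0 → F m = 0 := by
  obtain ⟨s, hs⟩ := Module.projective_lifting_property F LinearMap.id hF
  have hs' : ∀ y, F (s y) = y := fun y => by
    have := congrArg (fun l : T →ₗ[A] T => l y) hs
    exact this
  have hn : IsNilpotent (t • (X.comp s) : Module.End A T) := by
    obtain ⟨n, hn⟩ := ht
    refine ⟨n, ?_⟩
    rw [smul_pow, hn, zero_smul]
  obtain ⟨U, hU⟩ := hn.isUnit_one_add
  have hU' : ∀ y, (U : Module.End A T) y = F (s y) + t • X (s y) := fun y => by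
    rw [hU, hs' y]
    rfl
  have h1 : ∀ y, (U : Module.End A T) ((↑U⁻¹ : Module.End A T) y) = y := fun y => by
    rw [← Module.End.mul_apply, Units.mul_inv, Module.End.one_apply]
  have h2 : ∀ y, (↑U⁻¹ : Module.End A T) ((U : Module.End A T) y) = y := fun y => by
    rw [← Module.End.mul_apply, Units.inv_mul, Module.End.one_apply]
  refine ⟨⟨s.comp (↑U⁻¹ : Module.End A T), fun y => ?_⟩, fun m hm => ?_⟩
  · rw [LinearMap.comp_apply, ← hU', h1]
  · have hk : F (m - s (F m)) = 0 := by rw [map_sub, hs', sub_self]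
    have hk' := hK _ hk
    rw [map_sub, smul_sub] at hk'
    have h3 : (U : Module.End A T) (F m) = 0 := by
      rw [hU', hs', ← hm, sub_eq_zero.1 hk']
    rw [← h2 (F m), h3, map_zero]

theorem polar_fin {I : Type} [Fintype I] (f : KK I A) :
    (Function.support fun p : I × ℕ => (f p.1).coeff (-((p.2 : ℤ) + 1))).Finite := by
  obtain ⟨n, hn⟩ := exists_Pol f
  refine ((Set.finite_univ (α := I)).prod (Set.finite_lt_nat n)).subset ?_
  rintro ⟨i, m⟩ h
  refine ⟨Set.mem_univ _, ?_⟩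
  change m < n
  by_contra hc
  exact h (hn i _ (by omega))

/-- The polar part. -/
noncomputable def polar {I : Type} [Fintype I] : KK I A →ₗ[A] (I × ℕ →₀ A) where
  toFun f := Finsupp.ofSupportFinite (fun p => (f p.1).coeff (-((p.2 : ℤ) + 1))) (polar_fin f)
  map_add' f g := by
    ext p
    rw [Finsupp.add_apply, Finsupp.ofSupportFinite_coe, Finsupp.ofSupportFinite_coe,
      Finsupp.ofSupportFinite_coe, Pi.add_apply, HahnSeries.coeff_add]
  map_smul' a f := by
    ext p
    rw [RingHom.id_apply, Finsupp.smul_apply, Finsupp.ofSupportFinite_coe,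
      Finsupp.ofSupportFinite_coe, Pi.smul_apply, HahnSeries.coeff_smul]

theorem polar_apply {I : Type} [Fintype I] (f : KK I A) (p : I × ℕ) :
    polar f p = (f p.1).coeff (-((p.2 : ℤ) + 1)) := by
  change Finsupp.ofSupportFinite _ _ p = _
  rw [Finsupp.ofSupportFinite_coe]

theorem polar_eq_zero {I : Type} [Fintype I] {f : KK I A} : polar f = 0 ↔ f ∈ Pol I A 0 := by
  constructor
  · intro h i m hm
    have h1 := DFunLike.congr_fun h (i, (-m - 1).toNat)
    rw [polar_apply, Finsupp.zero_apply] at h1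
    have e : -(((((i, (-m - 1).toNat) : I × ℕ).2 : ℕ) : ℤ) + 1) = m := by
      change -(((-m - 1).toNat : ℤ) + 1) = m
      omega
    rw [e] at h1
    exact h1
  · intro h
    ext p
    rw [polar_apply, Finsupp.zero_apply]
    exact h _ _ (by omega)

theorem polar_surj {I : Type} [Fintype I] (c : I × ℕ →₀ A) : ∃ f : KK I A, polar f = c := by
  classical
  induction c using Finsupp.induction_linear with
  | zero => exact ⟨0, map_zero _⟩
  | add c c' h h' =>
    obtain ⟨f, rfl⟩ := h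
    obtain ⟨g, rfl⟩ := h'
    exact ⟨f + g, map_add _ _ _⟩
  | single p a =>
    refine ⟨mon p.1 (-((p.2 : ℤ) + 1)) a, ?_⟩
    ext q
    rw [polar_apply, mon_coeff, Finsupp.single_apply]
    by_cases h : p = q
    · subst h
      simp
    · rw [if_neg h, if_neg]
      rintro ⟨h1, h2⟩
      exact h (Prod.ext h1.symm (by omega))

/-- The map `atI` as a linear map. -/
noncomputable def lI (I J A : Type) [CommRing A] : KK (I ⊕ J) A →ₗ[A] KK I A where
  toFun := atI
  map_add' _ _ := rfl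
  map_smul' _ _ := rfl

/-- The equations of the annulus. -/
noncomputable def Th (I : Type) (N : ℕ) (t : A) :
    KK (I ⊕ Bool) A →ₗ[A] (Bool × Fin N → A) where
  toFun w p := (w (Sum.inr p.1)).coeff (-((p.2 : ℤ) + 1)) -
    t ^ ((p.2 : ℕ) + 1) * (w (Sum.inr (!p.1))).coeff ((p.2 : ℤ) + 1)
  map_add' f g := by
    funext p
    simp only [Pi.add_apply, HahnSeries.coeff_add]
    ring
  map_smul' a f := by
    funext p
    simp only [Pi.smul_apply, HahnSeries.coeff_smul, smul_eq_mul, RingHom.id_apply]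
    ring

/-- The perturbation. -/
noncomputable def Xh (I : Type) (N : ℕ) (t : A) :
    KK (I ⊕ Bool) A →ₗ[A] (Bool × Fin N → A) where
  toFun w p := -(t ^ (p.2 : ℕ) * (w (Sum.inr (!p.1))).coeff ((p.2 : ℤ) + 1))
  map_add' f g := by
    funext p
    simp only [Pi.add_apply, HahnSeries.coeff_add]
    ring
  map_smul' a f := by
    funext p
    simp only [Pi.smul_apply, HahnSeries.coeff_smul, smul_eq_mul, RingHom.id_apply]
    ring

theorem Th_eq {I : Type} (N : ℕ) (t : A) (w : KK (I ⊕ Bool) A) :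
    Th I N t w = Th I N 0 w + t • Xh I N t w := by
  funext p
  change (w (Sum.inr p.1)).coeff (-((p.2 : ℤ) + 1)) -
    t ^ ((p.2 : ℕ) + 1) * (w (Sum.inr (!p.1))).coeff ((p.2 : ℤ) + 1) =
    ((w (Sum.inr p.1)).coeff (-((p.2 : ℤ) + 1)) -
    0 ^ ((p.2 : ℕ) + 1) * (w (Sum.inr (!p.1))).coeff ((p.2 : ℤ) + 1)) +
    t * -(t ^ (p.2 : ℕ) * (w (Sum.inr (!p.1))).coeff ((p.2 : ℤ) + 1))
  rw [zero_pow (Nat.succ_ne_zero _), pow_succ]
  ring

/-- The difference of the values. -/
noncomputable def dv (I A : Type) [CommRing A] : KK (I ⊕ Bool) A →ₗ[A] A where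
  toFun w := (w (Sum.inr true)).coeff 0 - (w (Sum.inr false)).coeff 0
  map_add' f g := by
    simp only [Pi.add_apply, HahnSeries.coeff_add]
    ring
  map_smul' a f := by
    simp only [Pi.smul_apply, HahnSeries.coeff_smul, smul_eq_mul, RingHom.id_apply]
    ring

theorem mem_Nt_iff {I : Type} {N : ℕ} {t : A} (ht : t ^ N = 0) {w : KK (I ⊕ Bool) A} :
    atJ w ∈ Nt t ↔ atJ w ∈ Pol Bool A N ∧ Th I N t w = 0 ∧ dv I A w = 0 := by
  constructor
  · intro h
    rw [mem_Nt] at h
    refine ⟨fun b m hm => ?_, ?_, ?_⟩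
    · have h1 := h b (-m).toNat
      have e : -(((-m).toNat : ℕ) : ℤ) = m := by omega
      rw [e] at h1
      rw [h1, pow_eq_zero_of_le (by omega : N ≤ (-m).toNat) ht, zero_mul]
    · funext p
      have h1 := h p.1 ((p.2 : ℕ) + 1)
      change (w (Sum.inr p.1)).coeff (-((p.2 : ℤ) + 1)) -
        t ^ ((p.2 : ℕ) + 1) * (w (Sum.inr (!p.1))).coeff ((p.2 : ℤ) + 1) = 0
      rw [sub_eq_zero]
      exact_mod_cast h1
    · have h1 := h true 0
      change (w (Sum.inr true)).coeff 0 - (w (Sum.inr false)).coeff 0 = 0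
      rw [sub_eq_zero]
      simpa [atJ] using h1
  · rintro ⟨h1, h2, h3⟩
    have h3' : (w (Sum.inr true)).coeff 0 = (w (Sum.inr false)).coeff 0 := sub_eq_zero.1 h3
    rw [mem_Nt]
    intro b j
    rcases Nat.eq_zero_or_pos j with h | h
    · subst h
      cases b
      · simpa [atJ] using h3'.symm
      · simpa [atJ] using h3'
    · rcases lt_or_ge N j with hj | hj
      · rw [h1 b _ (by omega), pow_eq_zero_of_le hj.le ht, zero_mul]
      · obtain ⟨k, rfl⟩ : ∃ k, j = k + 1 := ⟨j - 1, by omega⟩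
        have h4 := congrFun h2 (b, ⟨k, by omega⟩)
        have h5 : (w (Sum.inr b)).coeff (-((k : ℤ) + 1)) -
          t ^ (k + 1) * (w (Sum.inr (!b))).coeff ((k : ℤ) + 1) = 0 := h4
        have h6 := sub_eq_zero.1 h5
        change (w (Sum.inr b)).coeff (-((k + 1 : ℕ) : ℤ)) =
          t ^ (k + 1) * (w (Sum.inr (!b))).coeff ((k + 1 : ℕ) : ℤ)
        push_cast
        exact h6

/-- The functions with poles of order at most `N` at the new punctures. -/
noncomputable def WN {I : Type} (W : Subalgebra A (KK (I ⊕ Bool) A)) (N : ℕ) :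
    Submodule A (KK (I ⊕ Bool) A) where
  carrier := {w | w ∈ W ∧ atJ w ∈ Pol Bool A N}
  add_mem' hf hg := ⟨add_mem hf.1 hg.1, (Pol Bool A N).add_mem hf.2 hg.2⟩
  zero_mem' := ⟨zero_mem W, (Pol Bool A N).zero_mem⟩
  smul_mem' a _ hf := ⟨W.smul_mem hf.1 a, (Pol Bool A N).smul_mem a hf.2⟩

theorem psl_low (f : PowerSeries A) : ∀ m < 0, (psl A f).coeff m = 0 := fun m hm => by
  rw [psl, PowerSeries.coeff_coe, if_pos hm]

theorem psl_zero (f : PowerSeries A) : (psl A f).coeff 0 = PowerSeries.constantCoeff f := by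
  rw [psl, PowerSeries.coeff_coe, if_neg (by omega), Int.natAbs_zero,
    PowerSeries.coeff_zero_eq_constantCoeff_apply]

variable {I : Type} {R : Subalgebra A (KK I A)}

theorem dv_hat (pt : Bool → FPt R) (r : R) :
    dv I A (hat pt r) = (pt true).ev r - (pt false).ev r := by
  change (psl A ((pt true).h r)).coeff 0 - (psl A ((pt false).h r)).coeff 0 = _
  rw [psl_zero, psl_zero]
  rfl

theorem Th_hat (N : ℕ) (pt : Bool → FPt R) (r : R) : Th I N 0 (hat pt r) = 0 := by
  funext p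
  change (psl A ((pt p.1).h r)).coeff (-((p.2 : ℤ) + 1)) -
    0 ^ ((p.2 : ℕ) + 1) * (hat pt r (Sum.inr (!p.1))).coeff ((p.2 : ℤ) + 1) = 0
  rw [psl_low _ _ (by omega), zero_pow (Nat.succ_ne_zero _), zero_mul, sub_zero]

theorem hat_mem_WN (N : ℕ) (pt : Bool → FPt R) (r : R) : hat pt r ∈ WN (WJ pt) N :=
  ⟨hat_mem pt r, fun b m hm => psl_low _ _ (by omega)⟩

/-- The principal parts. -/
theorem exists_pp (N : ℕ) (θ : Bool × Fin N → A) (δ : A) :
    ∃ g : KK Bool A, (∀ b, ∀ m < -(N : ℤ), (g b).coeff m = 0) ∧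
      (∀ p : Bool × Fin N, (g p.1).coeff (-((p.2 : ℤ) + 1)) = θ p) ∧
      (g true).coeff 0 - (g false).coeff 0 = δ := by
  classical
  refine ⟨mon true 0 δ + ∑ p : Bool × Fin N, mon p.1 (-((p.2 : ℤ) + 1)) (θ p), ?_, ?_, ?_⟩
  · intro b m hm
    rw [Pi.add_apply, HahnSeries.coeff_add, Finset.sum_apply, HahnSeries.coeff_sum, mon_coeff,
      if_neg (by omega), zero_add]
    refine Finset.sum_eq_zero fun p _ => ?_
    rw [mon_coeff, if_neg]
    rintro ⟨-, h⟩
    have := p.2.2
    omega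
  · intro p
    rw [Pi.add_apply, HahnSeries.coeff_add, Finset.sum_apply, HahnSeries.coeff_sum, mon_coeff,
      if_neg (by omega), zero_add, Finset.sum_eq_single p]
    · rw [mon_coeff, if_pos ⟨rfl, rfl⟩]
    · intro q _ hq
      rw [mon_coeff, if_neg]
      rintro ⟨h1, h2⟩
      exact hq (Prod.ext h1.symm (Fin.ext (by omega)))
    · intro h
      exact absurd (Finset.mem_univ p) h
  · have h1 : ∀ b, ((∑ p : Bool × Fin N, mon p.1 (-((p.2 : ℤ) + 1)) (θ p) : KK Bool A) b).coeff 0 =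
        0 := by
      intro b
      rw [Finset.sum_apply, HahnSeries.coeff_sum]
      refine Finset.sum_eq_zero fun p _ => ?_
      rw [mon_coeff, if_neg]
      rintro ⟨-, h⟩
      omega
    rw [Pi.add_apply, HahnSeries.coeff_add, Pi.add_apply, HahnSeries.coeff_add, h1, h1, mon_coeff,
      mon_coeff, if_pos ⟨rfl, rfl⟩, if_neg (fun h => Bool.false_ne_true h.1)]
    ring

end

end PL1

open PL1 in
theorem t_PL1 (hKFO : Stmt_KFO) (hKBC : Stmt_KBC) (hKFL : Stmt_KFL) (hAYE : Stmt_AYE)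
    (hAWK : Stmt_AWK) (hAWB : Stmt_AWB) : Stmt_PL1 := by
  intro I A _ _ _ h R hR hS pt hd t ht
  obtain ⟨N, hN⟩ := id ht
  obtain ⟨hW, -, -, -, hreg, hdens, -⟩ := hAWK hR hS pt hd
  obtain ⟨L, hLs, hLk⟩ := hR.k2
  obtain ⟨sL, hsL⟩ := Module.projective_lifting_property L LinearMap.id hLs
  have hsL' : ∀ y, L (sL y) = y := fun y => congrArg (fun l : (Fin h → A) →ₗ[A] (Fin h → A) => l y) hsL
  have hLR : ∀ r : R, L (r : KK I A) = 0 := fun r =>
    (hLk _).2 ⟨r, r.2, by rw [sub_self]; exact (Pol I A 0).zero_mem⟩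
  have hLP : ∀ f ∈ Pol I A 0, L f = 0 := fun f hf =>
    (hLk _).2 ⟨0, zero_mem R, by rw [sub_zero]; exact hf⟩
  -- a function with different values
  obtain ⟨r0, hr0⟩ : ∃ r0 : R, dv I A (hat pt r0) = 1 := by
    obtain ⟨w, hw, hw1⟩ := hdens (fun b => if b then 1 else 0) 1
    have hlow : ∀ j : Bool, ∀ m < 0, (w (Sum.inr j)).coeff m = 0 := by
      intro j m hm
      rw [hw1 j m (by omega)]
      cases j
      · simp
      · simp only [if_true]
        rw [HahnSeries.coeff_one, if_neg (by omega)]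
    obtain ⟨r, rfl⟩ := hreg w hw hlow
    refine ⟨r, ?_⟩
    change (hat pt r (Sum.inr true)).coeff 0 - (hat pt r (Sum.inr false)).coeff 0 = 1
    rw [hw1 true 0 (by omega), hw1 false 0 (by omega)]
    simp
  -- the maps
  let M := (WN (WJ pt) N) × (A × (Fin h → A))
  let T := (I × ℕ →₀ A) × ((Bool × Fin N → A) × A)
  let p1 : M →ₗ[A] KK (I ⊕ Bool) A := (WN (WJ pt) N).subtype.comp (LinearMap.fst A _ _)
  let G : M →ₗ[A] KK I A := (lI I Bool A).comp p1 +
    ((LinearMap.toSpanSingleton A (KK I A) (r0 : KK I A)).comp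
      ((LinearMap.fst A _ _).comp (LinearMap.snd A _ _)) +
      sL.comp ((LinearMap.snd A _ _).comp (LinearMap.snd A _ _)))
  let F : M →ₗ[A] T := (polar.comp G).prod (((Th I N 0).comp p1).prod ((dv I A).comp p1))
  let X : M →ₗ[A] T := LinearMap.prod 0 (((Xh I N t).comp p1).prod 0)
  have hG : ∀ (w : WN (WJ pt) N) (a0 : A) (a : Fin h → A),
      G (w, (a0, a)) = atI (w : KK (I ⊕ Bool) A) + (a0 • (r0 : KK I A) + sL a) := fun _ _ _ => rfl
  have hF : ∀ (w : WN (WJ pt) N) (a0 : A) (a : Fin h → A),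
      F (w, (a0, a)) = (polar (atI (w : KK (I ⊕ Bool) A) + (a0 • (r0 : KK I A) + sL a)),
        (Th I N 0 (w : KK (I ⊕ Bool) A), dv I A (w : KK (I ⊕ Bool) A))) := fun _ _ _ => rfl
  have hX : ∀ (w : WN (WJ pt) N) (a0 : A) (a : Fin h → A),
      X (w, (a0, a)) = (0, (Xh I N t (w : KK (I ⊕ Bool) A), 0)) := fun _ _ _ => rfl
  have hFX : ∀ (w : WN (WJ pt) N) (a0 : A) (a : Fin h → A),
      F (w, (a0, a)) + t • X (w, (a0, a)) =
        (polar (atI (w : KK (I ⊕ Bool) A) + (a0 • (r0 : KK I A) + sL a)),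
        (Th I N t (w : KK (I ⊕ Bool) A), dv I A (w : KK (I ⊕ Bool) A))) := by
    intro w a0 a
    rw [hF, hX, Th_eq N t (w : KK (I ⊕ Bool) A)]
    refine Prod.ext ?_ (Prod.ext ?_ ?_)
    · change _ + t • (0 : I × ℕ →₀ A) = _
      rw [smul_zero, add_zero]
    · rfl
    · change _ + t • (0 : A) = _
      rw [smul_zero, add_zero]
  have hFs : Function.Surjective F := by
    rintro ⟨c, θ, δ⟩
    obtain ⟨f, rfl⟩ := polar_surj c
    obtain ⟨g, hg1, hg2, hg3⟩ := exists_pp N θ δ
    obtain ⟨w1, hw1, hw2⟩ := hdens g 1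
    have hw1N : w1 ∈ WN (WJ pt) N := ⟨hw1, fun b m hm => by
      change (w1 (Sum.inr b)).coeff m = 0
      rw [hw2 b m (by omega)]
      exact hg1 b m hm⟩
    obtain ⟨p, hp, hpp⟩ := (hLk (f - atI w1 - sL (L (f - atI w1)))).1
      (by rw [map_sub, hsL', sub_self])
    let r : R := ⟨p, hp⟩
    let d : A := dv I A (hat pt r)
    refine ⟨(⟨w1, hw1N⟩ + ⟨hat pt (r - d • r0), hat_mem_WN N pt _⟩, (d, L (f - atI w1))), ?_⟩
    rw [hF]
    refine Prod.ext ?_ (Prod.ext ?_ ?_)
    · change polar (atI w1 + (p - d • (r0 : KK I A)) + (d • (r0 : KK I A) + sL (L (f - atI w1)))) =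
        polar f
      rw [← sub_eq_zero, ← map_sub, polar_eq_zero]
      have e : atI w1 + (p - d • (r0 : KK I A)) + (d • (r0 : KK I A) + sL (L (f - atI w1))) - f =
          -(f - atI w1 - sL (L (f - atI w1)) - p) := by abel
      rw [e]
      exact (Pol I A 0).neg_mem hpp
    · change Th I N 0 (w1 + hat pt (r - d • r0)) = θ
      rw [map_add, Th_hat, add_zero]
      funext q
      change (w1 (Sum.inr q.1)).coeff (-((q.2 : ℤ) + 1)) -
        0 ^ ((q.2 : ℕ) + 1) * (w1 (Sum.inr (!q.1))).coeff ((q.2 : ℤ) + 1) = θ q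
      rw [zero_pow (Nat.succ_ne_zero _), zero_mul, sub_zero, hw2 _ _ (by omega)]
      exact hg2 q
    · change dv I A (w1 + hat pt (r - d • r0)) = δ
      rw [map_add, map_sub, map_sub, map_smul, map_smul, hr0, smul_eq_mul, mul_one, sub_self,
        add_zero]
      change (w1 (Sum.inr true)).coeff 0 - (w1 (Sum.inr false)).coeff 0 = δ
      rw [hw2 _ _ (by omega), hw2 _ _ (by omega)]
      exact hg3
  have hFk : ∀ (w : WN (WJ pt) N) (a0 : A) (a : Fin h → A), F (w, (a0, a)) = 0 →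
      (∃ c : A, (w : KK (I ⊕ Bool) A) = algebraMap A _ c) ∧ a0 = 0 ∧ a = 0 := by
    intro w a0 a hw
    rw [hF] at hw
    have h1 := congrArg Prod.fst hw
    have h2 := congrArg (fun x : T => x.2.1) hw
    have h3 := congrArg (fun x : T => x.2.2) hw
    replace h1 : polar (atI (w : KK (I ⊕ Bool) A) + (a0 • (r0 : KK I A) + sL a)) = 0 := h1
    replace h2 : Th I N 0 (w : KK (I ⊕ Bool) A) = 0 := h2
    replace h3 : dv I A (w : KK (I ⊕ Bool) A) = 0 := h3
    have hlow : ∀ j : Bool, ∀ m < 0, ((w : KK (I ⊕ Bool) A) (Sum.inr j)).coeff m = 0 := by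
      intro j m hm
      by_cases hm' : m < -(N : ℤ)
      · exact w.2.2 j m hm'
      · have h4 := congrFun h2 (j, ⟨(-m - 1).toNat, by omega⟩)
        replace h4 : ((w : KK (I ⊕ Bool) A) (Sum.inr j)).coeff (-(((-m - 1).toNat : ℤ) + 1)) -
          0 ^ ((-m - 1).toNat + 1) * ((w : KK (I ⊕ Bool) A) (Sum.inr (!j))).coeff
            (((-m - 1).toNat : ℤ) + 1) = 0 := h4
        have e : -(((-m - 1).toNat : ℤ) + 1) = m := by omega
        rw [e, zero_pow (Nat.succ_ne_zero _), zero_mul, sub_zero] at h4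
        exact h4
    obtain ⟨r, hr⟩ := hreg _ w.2.1 hlow
    rw [hr] at h1 h3
    have h5 : (r : KK I A) + (a0 • (r0 : KK I A) + sL a) ∈ Pol I A 0 := polar_eq_zero.1 h1
    have ha : a = 0 := by
      have h6 := hLP _ h5
      rw [map_add, map_add, map_smul, hLR, hLR, smul_zero, zero_add, zero_add, hsL'] at h6
      exact h6
    subst ha
    rw [map_zero, add_zero] at h5
    obtain ⟨c, hc⟩ := hR.k1 _ (add_mem r.2 (R.smul_mem r0.2 a0)) h5
    have hc' : r + a0 • r0 = algebraMap A R c := Subtype.ext hc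
    have h7 : dv I A (hat pt (r + a0 • r0)) = 0 := by
      rw [hc', AlgHom.commutes]
      change (algebraMap A (LaurentSeries A) c).coeff 0 -
        (algebraMap A (LaurentSeries A) c).coeff 0 = 0
      rw [sub_self]
    rw [map_add, map_add, map_smul, map_smul, hr0, h3, zero_add, smul_eq_mul, mul_one] at h7
    subst h7
    rw [zero_smul, add_zero] at hc'
    refine ⟨⟨c, ?_⟩, rfl, rfl⟩
    rw [hr, hc', AlgHom.commutes]
  obtain ⟨⟨σ, hσ⟩, hker⟩ := pert F X hFs t ⟨N, hN⟩ (by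
    rintro ⟨w, a0, a⟩ hm
    obtain ⟨⟨c, hc⟩, -, -⟩ := hFk w a0 a hm
    rw [hX, hc]
    have e : Xh I N t (algebraMap A (KK (I ⊕ Bool) A) c) = 0 := by
      funext p
      change -(t ^ (p.2 : ℕ) * (algebraMap A (LaurentSeries A) c).coeff ((p.2 : ℤ) + 1)) = 0
      rw [coeff_algebraMap, if_neg (by omega), mul_zero, neg_zero]
    rw [e]
    exact smul_zero t)
  have key : ∀ (w : WN (WJ pt) N) (a0 : A) (a : Fin h → A) (m : M),
      F (w, (a0, a)) + t • X (w, (a0, a)) = F m + t • X m → m.2 = (a0, a) := by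
    intro w a0 a m hm
    obtain ⟨w', a0', a'⟩ := m
    have h1 : F ((w, (a0, a)) - (w', (a0', a'))) + t • X ((w, (a0, a)) - (w', (a0', a'))) = 0 := by
      rw [map_sub, map_sub, smul_sub]
      have : F (w, (a0, a)) - F (w', (a0', a')) +
          (t • X (w, (a0, a)) - t • X (w', (a0', a'))) =
          (F (w, (a0, a)) + t • X (w, (a0, a))) - (F (w', (a0', a')) + t • X (w', (a0', a'))) := by
        abel
      rw [this, hm, sub_self]
    have h2 := hker _ h1
    obtain ⟨-, h3, h4⟩ := hFk (w - w') (a0 - a0') (a - a') h2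
    change (a0', a') = (a0, a)
    rw [sub_eq_zero.1 h3, sub_eq_zero.1 h4]
  have hFN : ∀ w ∈ WJ pt, ∀ hw : atJ w ∈ Nt t,
      ∃ w' : WN (WJ pt) N, (w' : KK (I ⊕ Bool) A) = w ∧
        F (w', (0, 0)) + t • X (w', (0, 0)) = (polar (atI w), 0) := by
    intro w hw hw'
    obtain ⟨h1, h2, h3⟩ := (mem_Nt_iff hN).1 hw'
    refine ⟨⟨w, hw, h1⟩, rfl, ?_⟩
    rw [hFX, map_zero, zero_smul, add_zero, add_zero]
    change (polar (atI w), (Th I N t w, dv I A w)) = _
    rw [h2, h3]
    rfl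
  refine ⟨?_, ?_⟩
  · rintro f ⟨w, hw, rfl, hw'⟩ hf
    obtain ⟨w', hw1, hw2⟩ := hFN w hw hw'
    rw [polar_eq_zero.2 hf] at hw2
    obtain ⟨⟨c, hc⟩, -, -⟩ := hFk _ _ _ (hker _ hw2)
    refine ⟨c, ?_⟩
    rw [← hw1, hc]
    rfl
  · let E : (A × (Fin h → A)) ≃ₗ[A] (Fin (h + 1) → A) := Fin.consLinearEquiv A (fun _ => A)
    let L' : KK I A →ₗ[A] (A × (Fin h → A)) :=
      (LinearMap.snd A _ _).comp (σ.comp ((LinearMap.inl A _ _).comp polar))
    have hL' : ∀ f, L' f = (σ (polar f, 0)).2 := fun _ => rfl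
    refine ⟨E.toLinearMap.comp L', ?_, fun f => ?_⟩
    · intro v
      obtain ⟨⟨a0, a⟩, rfl⟩ := E.surjective v
      refine ⟨a0 • (r0 : KK I A) + sL a, ?_⟩
      rw [LinearMap.comp_apply, hL']
      change E _ = E _
      congr 1
      refine key 0 a0 a _ ?_
      rw [hFX, hσ]
      change (polar (0 + (a0 • (r0 : KK I A) + sL a)), (Th I N t 0, dv I A 0)) = _
      rw [zero_add, map_zero, map_zero]
      rfl
    · have e1 : (E.toLinearMap.comp L') f = 0 ↔ (σ (polar f, 0)).2 = 0 := by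
        rw [LinearMap.comp_apply, hL']
        exact E.map_eq_zero_iff
      rw [e1]
      constructor
      · intro h0
        have h1 := hσ (polar f, 0)
        rcases hm : σ (polar f, 0) with ⟨w, a⟩
        rw [hm] at h0 h1
        replace h0 : a = (0, 0) := h0
        subst h0
        rw [hFX, map_zero, zero_smul, add_zero, add_zero] at h1
        have h2 := congrArg Prod.fst h1
        have h3 := congrArg (fun x : T => x.2.1) h1
        have h4 := congrArg (fun x : T => x.2.2) h1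
        replace h2 : polar (atI (w : KK (I ⊕ Bool) A)) = polar f := h2
        replace h3 : Th I N t (w : KK (I ⊕ Bool) A) = 0 := h3
        replace h4 : dv I A (w : KK (I ⊕ Bool) A) = 0 := h4
        refine ⟨atI (w : KK (I ⊕ Bool) A), ⟨w, w.2.1, rfl, (mem_Nt_iff hN).2 ⟨w.2.2, h3, h4⟩⟩, ?_⟩
        rw [← polar_eq_zero, map_sub, h2, sub_self]
      · rintro ⟨p, ⟨w, hw, rfl, hw'⟩, hp⟩
        obtain ⟨w', hw1, hw2⟩ := hFN w hw hw'
        have h1 : polar f = polar (atI w) := by
          rw [← sub_eq_zero, ← map_sub, polar_eq_zero]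
          exact hp
        refine key w' 0 0 _ ?_
        rw [hw2, hσ, h1]

end Pool.Agent.MG.G0
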