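import Pool.Agent.MG.G0.StmtsS

/-!
# SBC: base change, isomorphisms and localization of certificates of smoothness
-/

open TensorProduct

namespace Pool.Agent.MG.G0

namespace SBC

section bc

variable {A B R : Type} [CommRing A] [CommRing B] [CommRing R] [Algebra A B] [Algebra A R]

/-- The base change of a derivation. -/
noncomputable def bD (D : Derivation A R R) : Derivation B (B ⊗[A] R) (B ⊗[A] R) :=
  Derivation.mk' ((D : R →ₗ[A] R).baseChange B) (by
    intro x y
    induction x using TensorProduct.induction_on with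
    | zero => simp
    | add x x' hx hx' => rw [add_mul, map_add, hx, hx', map_add, add_smul, smul_add]; abel
    | tmul b r =>
      induction y using TensorProduct.induction_on with
      | zero => simp
      | add y y' hy hy' => rw [mul_add, map_add, hy, hy', map_add, add_smul, smul_add]; abel
      | tmul c s =>
        rw [Algebra.TensorProduct.tmul_mul_tmul, LinearMap.baseChange_tmul,
          LinearMap.baseChange_tmul, LinearMap.baseChange_tmul, smul_eq_mul, smul_eq_mul,
          Algebra.TensorProduct.tmul_mul_tmul, Algebra.TensorProduct.tmul_mul_tmul,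
          mul_comm c b, ← TensorProduct.tmul_add]
        congr 1
        exact D.leibniz r s)

theorem bD_tmul (D : Derivation A R R) (b : B) (r : R) : bD D (b ⊗ₜ[A] r) = b ⊗ₜ[A] D r := rfl

/-- A derivation which vanishes on `1 ⊗ R` is zero. -/
theorem ext_one {M : Type} [AddCommGroup M] [Module B M] [Module (B ⊗[A] R) M]
    [IsScalarTower B (B ⊗[A] R) M] (E : Derivation B (B ⊗[A] R) M)
    (h : ∀ r : R, E ((1 : B) ⊗ₜ[A] r) = 0) (x : B ⊗[A] R) : E x = 0 := by
  induction x using TensorProduct.induction_on with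
  | zero => exact map_zero E
  | add x y hx hy => rw [map_add, hx, hy, add_zero]
  | tmul b r =>
    have : b ⊗ₜ[A] r = b • ((1 : B) ⊗ₜ[A] r) := by
      rw [TensorProduct.smul_tmul', smul_eq_mul, mul_one]
    rw [this, E.map_smul, h, smul_zero]

end bc

/-- The derivation `h ↦ E(f) dh - E(h) df`. -/
noncomputable def cr (A W : Type) [CommRing A] [CommRing W] [Algebra A W]
    (E : Derivation A W W) (f : W) : Derivation A W (Ω[W⁄A]) :=
  E f • KaehlerDifferential.D A W -
    (LinearMap.toSpanSingleton W (Ω[W⁄A]) (KaehlerDifferential.D A W f)).compDer E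

theorem cr_apply {A W : Type} [CommRing A] [CommRing W] [Algebra A W]
    (E : Derivation A W W) (f h : W) : cr A W E f h =
      E f • KaehlerDifferential.D A W h - E h • KaehlerDifferential.D A W f := rfl

theorem cr_symm {A W : Type} [CommRing A] [CommRing W] [Algebra A W]
    (E : Derivation A W W) (f h : W) : cr A W E f h = - cr A W E h f := by
  rw [cr_apply, cr_apply, neg_sub]

theorem toCert (hSCO : Stmt_SCO) {A R : Type} [CommRing A] [CommRing R] [Algebra A R] {n : ℕ}
    (D : Fin n → Derivation A R R) (g : Fin n → R) (h1 : ∑ i, D i (g i) = 1)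
    (h2 : ∀ i f h, cr A R (D i) f h = 0) : SmC A R :=
  (hSCO.1 D g ⟨h1, fun i f h => sub_eq_zero.1 (h2 i f h)⟩).1

attribute [local instance] Algebra.TensorProduct.rightAlgebra in
theorem part1 (hSCO : Stmt_SCO) {A B R : Type} [CommRing A] [CommRing B] [CommRing R]
    [Algebra A B] [Algebra A R] (h : SmC A R) : SmC B (B ⊗[A] R) := by
  obtain ⟨n, D, g, hc⟩ := (hSCO.2 h).1
  refine toCert hSCO (fun i => bD (D i)) (fun i => (1 : B) ⊗ₜ[A] g i) ?_ ?_
  · simp only [bD_tmul]
    rw [← TensorProduct.tmul_sum, hc.one]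
    rfl
  · intro i
    have key : ∀ f h : R, cr B (B ⊗[A] R) (bD (D i)) ((1 : B) ⊗ₜ[A] f) ((1 : B) ⊗ₜ[A] h) = 0 := by
      intro f h
      have e := congrArg (KaehlerDifferential.map A B R (B ⊗[A] R)) (hc.cross i f h)
      rw [map_smul, map_smul, KaehlerDifferential.map_D, KaehlerDifferential.map_D,
        ← algebraMap_smul (B ⊗[A] R) (D i f), ← algebraMap_smul (B ⊗[A] R) (D i h)] at e
      exact sub_eq_zero.2 e
    have key2 : ∀ (f : R) (h : B ⊗[A] R),
        cr B (B ⊗[A] R) (bD (D i)) ((1 : B) ⊗ₜ[A] f) h = 0 :=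
      fun f h => ext_one (cr B (B ⊗[A] R) (bD (D i)) ((1 : B) ⊗ₜ[A] f)) (key f) h
    intro f h
    rw [cr_symm, neg_eq_zero]
    refine ext_one (cr B (B ⊗[A] R) (bD (D i)) h) (fun r => ?_) f
    rw [cr_symm, neg_eq_zero]
    exact key2 r h

theorem part3 (hSCO : Stmt_SCO) (hLOC : Stmt_LOC) {A R W : Type} [CommRing A] [CommRing R]
    [CommRing W] [Algebra A R] [Algebra A W] [Algebra R W] [IsScalarTower A R W] (hE : Ep R W)
    (h : SmC A R) : SmC A W := by
  obtain ⟨n, D, g, hc⟩ := (hSCO.2 h).1
  choose E hE1 hE2 using fun i => hLOC hE W ((Algebra.linearMap R W).compDer (D i))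
  have uni : ∀ F : Derivation A W (Ω[W⁄A]), (∀ r : R, F (algebraMap R W r) = 0) →
      ∀ w, F w = 0 := by
    intro F hF w
    obtain ⟨G, hG1, hG2⟩ := hLOC hE (Ω[W⁄A]) (0 : Derivation A R (Ω[W⁄A]))
    have e1 : F = G := hG2 F (fun r => hF r)
    have e2 : (0 : Derivation A W (Ω[W⁄A])) = G := hG2 0 (fun r => rfl)
    rw [e1, ← e2]
    rfl
  refine toCert hSCO E (fun i => algebraMap R W (g i)) ?_ ?_
  · have h1 : ∀ i, E i (algebraMap R W (g i)) = algebraMap R W (D i (g i)) :=
      fun i => hE1 i (g i)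
    simp only [h1]
    rw [← map_sum, hc.one, map_one]
  · intro i
    have key : ∀ f h : R, cr A W (E i) (algebraMap R W f) (algebraMap R W h) = 0 := by
      intro f h
      have e := congrArg (KaehlerDifferential.map A A R W) (hc.cross i f h)
      rw [map_smul, map_smul, KaehlerDifferential.map_D, KaehlerDifferential.map_D,
        ← algebraMap_smul W (D i f), ← algebraMap_smul W (D i h)] at e
      have e1 : E i (algebraMap R W f) = algebraMap R W (D i f) := hE1 i f
      have e2 : E i (algebraMap R W h) = algebraMap R W (D i h) := hE1 i h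
      rw [cr_apply, e1, e2]
      exact sub_eq_zero.2 e
    have key2 : ∀ (f : R) (h : W), cr A W (E i) (algebraMap R W f) h = 0 :=
      fun f h => uni (cr A W (E i) (algebraMap R W f)) (key f) h
    intro f h
    rw [cr_symm, neg_eq_zero]
    refine uni (cr A W (E i) h) (fun r => ?_) f
    rw [cr_symm, neg_eq_zero]
    exact key2 r h

theorem part2 (hSCO : Stmt_SCO) (hLOC : Stmt_LOC) {A R R' : Type} [CommRing A] [CommRing R]
    [CommRing R'] [Algebra A R] [Algebra A R'] (e : R ≃ₐ[A] R') (h : SmC A R) : SmC A R' := by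
  letI : Algebra R R' := (e : R →+* R').toAlgebra
  have hm : ∀ r, algebraMap R R' r = e r := fun r => rfl
  haveI : IsScalarTower A R R' := IsScalarTower.of_algebraMap_eq fun a => by
    rw [hm]
    exact (e.commutes a).symm
  refine part3 hSCO hLOC (R := R) (W := R') ⟨e.injective, fun w => ?_⟩ h
  refine ⟨1, fun _ => 1, fun _ => 1, ?_, fun _ => ⟨e.symm w, ?_⟩⟩
  · simp
  · rw [map_one, one_mul, hm, e.apply_symm_apply]

end SBC

theorem t_SBC (hSCO : Stmt_SCO) (hLOC : Stmt_LOC) : Stmt_SBC :=
  ⟨fun h => SBC.part1 hSCO h, fun e h => SBC.part2 hSCO hLOC e h,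
    fun hE h => SBC.part3 hSCO hLOC hE h⟩

end Pool.Agent.MG.G0
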