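import Pool.Agent.MG.G0.StmtsS

/-!
# SCO: consequences of a certificate of smoothness
-/

open TensorProduct

namespace Pool.Agent.MG.G0

namespace SCO

variable {A R : Type} [CommRing A] [CommRing R] [Algebra A R] {n : ℕ}
  {D : Fin n → Derivation A R R} {g : Fin n → R}

section

variable {M : Type} [AddCommGroup M] [Module A M] [Module R M] [IsScalarTower A R M]

theorem cross (h : IsCert A R D g) (E : Derivation A R M) (i : Fin n) (f k : R) :
    D i f • E k = D i k • E f := by
  have h1 := congrArg E.liftKaehlerDifferential (h.cross i f k)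
  rwa [map_smul, map_smul, Derivation.liftKaehlerDifferential_comp_D,
    Derivation.liftKaehlerDifferential_comp_D] at h1

theorem expand (h : IsCert A R D g) (E : Derivation A R M) (f : R) :
    E f = ∑ i, D i f • E (g i) := by
  have h1 : ∀ i, D i f • E (g i) = D i (g i) • E f := fun i => cross h E i f (g i)
  rw [Finset.sum_congr rfl fun i _ => h1 i, ← Finset.sum_smul, h.one, one_smul]

end

theorem smC (h : IsCert A R D g) : SmC A R := by
  refine ⟨n, D, g, h.one, fun E f k => ?_⟩
  rw [expand h E f, expand h E k, Finset.sum_smul, Finset.sum_smul]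
  refine Finset.sum_congr rfl fun i _ => ?_
  rw [smul_eq_mul, smul_eq_mul, mul_comm (D i f), mul_comm (D i k), mul_smul, mul_smul,
    h.cross i f k]

end SCO

theorem t_SCO : Stmt_SCO := by
  refine ⟨?_, ?_⟩
  · intro A R _ _ _ n D g h
    exact ⟨SCO.smC h, fun M _ _ _ _ E f => SCO.expand h E f⟩
  · intro A R _ _ _ hS
    obtain ⟨n, D, g, h1, h2⟩ := hS
    have h : IsCert A R D g := ⟨h1, fun i f k => h2 (D i) f k⟩
    refine ⟨⟨n, D, g, h⟩, ?_, ?_⟩
    · intro S _ _ _ _ E E' f k
      rw [SCO.expand h E f, SCO.expand h E k, Finset.sum_mul, Finset.sum_mul]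
      refine Finset.sum_congr rfl fun i _ => ?_
      rw [smul_mul_assoc, smul_mul_assoc, ← mul_smul_comm, ← mul_smul_comm,
        SCO.cross h E' i f k]
    · intro M N _ _ _ _ _ _ _ _ π hπ E
      choose m hm using fun i => hπ (E (g i))
      refine ⟨∑ i, (LinearMap.toSpanSingleton R M (m i)).compDer (D i), fun f => ?_⟩
      have h3 : (∑ i, (LinearMap.toSpanSingleton R M (m i)).compDer (D i)) f =
          ∑ i, D i f • m i := by
        have h4 : ∀ s : Finset (Fin n),
            (∑ i ∈ s, (LinearMap.toSpanSingleton R M (m i)).compDer (D i)) f =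
              ∑ i ∈ s, D i f • m i := by
          intro s
          classical
          induction s using Finset.induction_on with
          | empty => rfl
          | insert a s ha ih =>
            rw [Finset.sum_insert ha, Finset.sum_insert ha, Derivation.add_apply, ih]
            rfl
        exact h4 Finset.univ
      rw [h3, map_sum, SCO.expand h E f]
      exact Finset.sum_congr rfl fun i _ => by rw [map_smul, hm]

end Pool.Agent.MG.G0
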