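import Pool.Agent.MG.G0.StmtsLOG
import Pool.Agent.MG.G0.SBC
import Pool.Agent.MG.G0.SCO
import Pool.Agent.MG.G0.LOC
import Pool.Agent.MG.G0.KBT
import Pool.Agent.MG.G0.KSP
import Pool.Agent.MG.G0.KNZ

/-!
# PL2: base change, rescaling of the parameters, the nodal curve
-/

open TensorProduct

namespace Pool.Agent.MG.G0

namespace PL2

section

variable {I A B : Type} [CommRing A] [CommRing B]

theorem psl_coeff (f : PowerSeries A) (n : ℕ) : (psl A f).coeff (n : ℤ) = PowerSeries.coeff n f := by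
  have h1 := PowerSeries.coeff_coe f (n : ℤ)
  unfold psl
  rw [h1, if_neg (by omega), Int.natAbs_natCast]

theorem psl_low (f : PowerSeries A) (m : ℤ) (hm : m < 0) : (psl A f).coeff m = 0 := by
  have h1 := PowerSeries.coeff_coe f m
  unfold psl
  rw [h1, if_pos hm]

theorem psl_zero (f : PowerSeries A) : (psl A f).coeff 0 = PowerSeries.constantCoeff f := by
  have h := psl_coeff f 0
  rw [Nat.cast_zero] at h
  rw [h, PowerSeries.coeff_zero_eq_constantCoeff]

/-- The rescaling of the components at the new punctures. -/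
noncomputable def S {J : Type} (c : J → Aˣ) : KK (I ⊕ J) A →+* KK (I ⊕ J) A :=
  RingHom.pi fun k => match k with
    | Sum.inl i => Pi.evalRingHom _ (Sum.inl i)
    | Sum.inr j => ((sc (c j)⁻¹ : LaurentSeries A →ₐ[A] LaurentSeries A) :
        LaurentSeries A →+* LaurentSeries A).comp (Pi.evalRingHom _ (Sum.inr j))

theorem S_inl {J : Type} (c : J → Aˣ) (w : KK (I ⊕ J) A) (i : I) :
    S c w (Sum.inl i) = w (Sum.inl i) := rfl

theorem S_inr {J : Type} (c : J → Aˣ) (w : KK (I ⊕ J) A) (j : J) :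
    S c w (Sum.inr j) = sc (c j)⁻¹ (w (Sum.inr j)) := rfl

theorem S_S {J : Type} (c : J → Aˣ) (w : KK (I ⊕ J) A) : S c (S (fun j => (c j)⁻¹) w) = w := by
  funext k
  rcases k with i | j
  · rfl
  · rw [S_inr, S_inr, sc_sc, inv_inv, inv_mul_cancel, sc_one]

theorem psl_rescale (c : Aˣ) (f : PowerSeries A) :
    psl A (PowerSeries.rescale (c : A) f) = sc c⁻¹ (psl A f) := by
  ext m
  rcases lt_or_ge m 0 with h | h
  · rw [psl_low _ _ h, sc_coeff, psl_low _ _ h, mul_zero]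
  · obtain ⟨n, rfl⟩ := Int.eq_ofNat_of_zero_le h
    rw [psl_coeff, sc_coeff, psl_coeff, PowerSeries.coeff_rescale, inv_zpow, zpow_neg, inv_inv,
      zpow_natCast, Units.val_pow_eq_pow_val]

variable {R : Subalgebra A (KK I A)}

theorem resc_id (p : FPt R) (c : Aˣ) : (p.resc c).id = p.id := by
  ext f
  rw [FPt.mem_id, FPt.mem_id]
  have h : (p.resc c).ev f = p.ev f := by
    change PowerSeries.constantCoeff (PowerSeries.rescale (c : A) (p.h f)) = _
    rw [← PowerSeries.coeff_zero_eq_constantCoeff, PowerSeries.coeff_rescale, pow_zero, one_mul,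
      PowerSeries.coeff_zero_eq_constantCoeff]
    rfl
  rw [h]

theorem hat_resc {J : Type} (pt : J → FPt R) (c : J → Aˣ) (r : R) :
    hat (fun j => (pt j).resc (c j)) r = S c (hat pt r) := by
  funext k
  rcases k with i | j
  · rfl
  · rw [S_inr, hat_inr, hat_inr, ← psl_rescale]
    rfl

theorem Ipt_resc {J : Type} (pt : J → FPt R) (c : J → Aˣ) :
    Ipt (fun j => (pt j).resc (c j)) = Ipt pt :=
  iInf_congr fun j => resc_id (pt j) (c j)

theorem S_mem {J : Type} (pt : J → FPt R) (c : J → Aˣ) {w : KK (I ⊕ J) A} (hw : w ∈ WJ pt) :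
    S c w ∈ WJ fun j => (pt j).resc (c j) := by
  obtain ⟨n, hn⟩ := hw
  refine ⟨n, fun s hs => ?_⟩
  rw [Ipt_resc] at hs
  obtain ⟨r, hr⟩ := hn s hs
  exact ⟨r, by rw [hat_resc, hat_resc, ← map_mul, hr]⟩

theorem S_mem' {J : Type} (pt : J → FPt R) (c : J → Aˣ) {w : KK (I ⊕ J) A}
    (hw : w ∈ WJ fun j => (pt j).resc (c j)) : S (fun j => (c j)⁻¹) w ∈ WJ pt := by
  obtain ⟨n, hn⟩ := hw
  refine ⟨n, fun s hs => ?_⟩
  rw [← Ipt_resc pt c] at hs
  obtain ⟨r, hr⟩ := hn s hs
  refine ⟨r, ?_⟩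
  rw [hat_resc, hat_resc] at hr
  have h := congrArg (S fun j => (c j)⁻¹) hr
  have e : ∀ w : KK (I ⊕ J) A, S (fun j => (c j)⁻¹) (S c w) = w := by
    intro w
    have := S_S (fun j => (c j)⁻¹) w
    simpa only [inv_inv] using this
  rw [map_mul, e, e] at h
  exact h

theorem S_Nt (c : Bool → Aˣ) (t : A) (w : KK (I ⊕ Bool) A) :
    atJ (S c w) ∈ Nt t ↔ atJ w ∈ Nt ((c true : A) * (c false : A) * t) := by
  have hc : ∀ b : Bool, (c true : A) * (c false : A) = (c b : A) * (c (!b) : A) := by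
    intro b
    cases b
    · exact mul_comm _ _
    · rfl
  have key : ∀ (b : Bool) (j : ℕ),
      ((atJ (S c w) b).coeff (-(j : ℤ)) = t ^ j * (atJ (S c w) (!b)).coeff j) ↔
      ((atJ w b).coeff (-(j : ℤ)) =
        ((c true : A) * (c false : A) * t) ^ j * (atJ w (!b)).coeff j) := by
    intro b j
    change (sc (c b)⁻¹ (w (Sum.inr b))).coeff (-(j : ℤ)) =
      t ^ j * (sc (c (!b))⁻¹ (w (Sum.inr (!b)))).coeff j ↔
      (w (Sum.inr b)).coeff (-(j : ℤ)) = _ * (w (Sum.inr (!b))).coeff j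
    rw [sc_coeff, sc_coeff, hc b, neg_neg, zpow_natCast, inv_zpow, zpow_neg, inv_inv, zpow_natCast]
    simp only [Units.val_pow_eq_pow_val]
    have hu : (c b : A) ^ j * (((c b)⁻¹ : Aˣ) : A) ^ j = 1 := by
      rw [← mul_pow, Units.mul_inv, one_pow]
    constructor
    · intro h
      rw [mul_pow, mul_pow]
      linear_combination (c b : A) ^ j * h - (w (Sum.inr b)).coeff (-(j : ℤ)) * hu
    · intro h
      rw [h, mul_pow, mul_pow]
      linear_combination (c (!b) : A) ^ j * t ^ j * (w (Sum.inr (!b))).coeff j * hu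
  exact ⟨fun h b j => (key b j).1 (h b j), fun h b j => (key b j).2 (h b j)⟩

end

end PL2

open PL2 in
theorem t_PL2 (hKBC : Stmt_KBC) (hKEQ : Stmt_KEQ) (_hAYE : Stmt_AYE) (hAWK : Stmt_AWK)
    (hAWB : Stmt_AWB) (hPL1 : Stmt_PL1) : Stmt_PL2 := by
  refine ⟨?_, ?_, ?_⟩
  · intro I A B _ _ _ _ h R hR hS pt hd t ht φ pt' hpt'
    have hKBT : Stmt_KBT := t_KBT (t_KSP t_KNZ) hKBC
    have hSBC : Stmt_SBC := t_SBC t_SCO t_LOC
    have hS' : SmC B (bc φ R) := by
      let _ := φ.toAlgebra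
      obtain ⟨-, e, -⟩ := hKBT (B := B) hR
      exact hSBC.2.1 e (hSBC.1 hS)
    obtain ⟨hd', hW, -⟩ := (hAWB hR φ).2 hS pt pt' hpt' hd
    have ht' : IsNilpotent (φ t) := ht.map φ
    have h1 : IsKr (h + 1) (bc φ (PT pt t)) := (hKBC.2.2.2 (hPL1 hR hS pt hd t ht) φ).1
    have h2 : IsKr (h + 1) (PT pt' (φ t)) := hPL1 (hKBC.2.2.2 hR φ).1 hS' pt' hd' _ ht'
    refine (hKEQ h1 h2 (Algebra.adjoin_le ?_)).symm
    rintro _ ⟨f, ⟨w, hw, rfl, hN⟩, rfl⟩
    refine ⟨kmap φ w, ?_, rfl, ?_⟩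
    · rw [hW]
      exact kmap_mem_bc φ hw
    · intro b j
      have h3 := congrArg φ (hN b j)
      rw [map_mul, map_pow] at h3
      exact h3
  · intro I A _ R pt c t
    refine ⟨fun b => resc_id _ _, ?_⟩
    ext f
    constructor
    · rintro ⟨w, hw, rfl, hN⟩
      refine ⟨S (fun b => (c b)⁻¹) w, S_mem' pt c hw, rfl, ?_⟩
      rw [← S_Nt c t, S_S]
      exact hN
    · rintro ⟨w, hw, rfl, hN⟩
      exact ⟨S c w, S_mem pt c hw, rfl, (S_Nt c t w).2 hN⟩
  · intro I A _ _ _ h R hR hS pt hd f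
    constructor
    · rintro ⟨w, hw, rfl, hN⟩
      have h0 : ∀ j : Bool, ∀ m < 0, (w (Sum.inr j)).coeff m = 0 := by
        intro j m hm
        obtain ⟨n, hn⟩ := Int.eq_ofNat_of_zero_le (show 0 ≤ -m by omega)
        have h1 := hN j n
        rw [zero_pow (by omega), zero_mul] at h1
        have e : m = -(n : ℤ) := by omega
        rw [e]
        exact h1
      obtain ⟨r, rfl⟩ := (hAWK hR hS pt hd).2.2.2.2.1 w hw h0
      refine ⟨r, rfl, ?_⟩
      have h1 := hN true 0
      rw [pow_zero, one_mul, Nat.cast_zero, neg_zero] at h1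
      have h2 : (psl A ((pt true).h r)).coeff 0 = (psl A ((pt false).h r)).coeff 0 := h1
      rw [psl_zero, psl_zero] at h2
      exact h2
    · rintro ⟨r, rfl, hr⟩
      refine ⟨hat pt r, hat_mem pt r, rfl, ?_⟩
      have h2 : (psl A ((pt true).h r)).coeff 0 = (psl A ((pt false).h r)).coeff 0 := by
        rw [psl_zero, psl_zero]
        exact hr
      intro b j
      change (psl A ((pt b).h r)).coeff (-(j : ℤ)) = 0 ^ j * (psl A ((pt (!b)).h r)).coeff j
      rcases Nat.eq_zero_or_pos j with rfl | hj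
      · rw [pow_zero, one_mul, Nat.cast_zero, neg_zero]
        cases b
        · exact h2.symm
        · exact h2
      · rw [psl_low _ _ (by omega), zero_pow (by omega), zero_mul]

end Pool.Agent.MG.G0
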