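import Pool.Agent.MG.G0.StmtsLOG

/-!
# PL3 (L3): approximation at the annulus
-/

namespace Pool.Agent.MG.G0

namespace PL3

variable {I J A : Type} [CommRing A]

theorem atJ_mul (w v : KK (I ⊕ J) A) : atJ (w * v) = atJ w * atJ v := rfl

theorem atJ_add (w v : KK (I ⊕ J) A) : atJ (w + v) = atJ w + atJ v := rfl

theorem atJ_zero : atJ (0 : KK (I ⊕ J) A) = 0 := rfl

theorem atJ_one : atJ (1 : KK (I ⊕ J) A) = 1 := rfl

theorem atJ_dd (w : KK (I ⊕ J) A) : atJ (dd w) = dd (atJ w) := rfl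

theorem atJ_sum {n : ℕ} (w : Fin n → KK (I ⊕ J) A) : atJ (∑ k, w k) = ∑ k, atJ (w k) := by
  funext j
  rw [atJ, Finset.sum_apply, Finset.sum_apply]
  rfl

/-- The power series of a formal point, in nonnegative and negative degrees. -/
theorem psl_coeff (f : PowerSeries A) (n : ℕ) : (psl A f).coeff n = PowerSeries.coeff n f :=
  HahnSeries.ofPowerSeries_apply_coeff f n

theorem psl_neg (f : PowerSeries A) {m : ℤ} (h : m < 0) : (psl A f).coeff m = 0 := by
  refine HahnSeries.embDomain_of_notMem_range ?_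
  rintro ⟨x, hx⟩
  have h1 : ((x : ℕ) : ℤ) = m := hx
  omega

/-- Vanishing to order `n` at the formal points. -/
theorem hat_mem_Pol {P : Subalgebra A (KK I A)} {pt : J → FPt P} {n : ℕ} {r : P}
    (h : ∀ j, ∀ m < n, PowerSeries.coeff m ((pt j).h r) = 0) :
    atJ (hat pt r) ∈ Pol J A (-(n : ℤ)) := by
  intro j m hm
  change (psl A ((pt j).h r)).coeff m = 0
  rcases lt_or_ge m 0 with h0 | h0
  · exact psl_neg _ h0
  · obtain ⟨k, rfl⟩ := Int.eq_ofNat_of_zero_le h0
    rw [psl_coeff]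
    exact h j k (by omega)

theorem coeff_of_hat_mem {P : Subalgebra A (KK I A)} {pt : J → FPt P} {n : ℕ} {r : P}
    (h : atJ (hat pt r) ∈ Pol J A (-(n : ℤ))) (j : J) (m : ℕ) (hm : m < n) :
    PowerSeries.coeff m ((pt j).h r) = 0 := by
  rw [← psl_coeff]
  exact h j m (by omega)

end PL3

theorem t_PL3 (hAID : Stmt_AID) (hAYE : Stmt_AYE) (hAWK : Stmt_AWK) (hSTO : Stmt_STO)
    (hSCO : Stmt_SCO) : Stmt_PL3 := by
  intro I A _ _ _ h R hR hS pt hd
  obtain ⟨hW, hWS, -, -, hreg, happ, hloc⟩ := hAWK hR hS pt hd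
  obtain ⟨-, hpow, -, -⟩ := hAYE hR hS pt hd
  have hvan : ∀ (n : ℕ) (r : R), r ∈ Ipt pt ^ n ↔
      ∀ j, ∀ m < n, PowerSeries.coeff m ((pt j).h r) = 0 := by
    intro n r
    rw [hpow n r]
    refine forall_congr' fun j => ?_
    exact (hAID hR hS (pt j)).2.2.1 n r
  have h1 : ∀ (F : KK Bool A) (m : ℤ), ∃ w ∈ WJ pt, atJ w - F ∈ Pol Bool A (-m) := by
    intro F m
    obtain ⟨w, hw, hwF⟩ := happ F m
    refine ⟨w, hw, fun j k hk => ?_⟩
    rw [Pi.sub_apply, HahnSeries.coeff_sub, ← hwF j k (by omega)]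
    exact sub_self _
  refine ⟨h1, ?_, ?_, ?_⟩
  · intro w hw m
    obtain ⟨K, hK⟩ := exists_Pol (atJ w)
    obtain ⟨n, s, a, hs, ha, hsum⟩ := hloc (m.toNat + K)
    have h2 : ∀ k, atJ (hat pt (s k)) ∈ Pol Bool A (-((m.toNat + K : ℕ) : ℤ)) := fun k =>
      PL3.hat_mem_Pol ((hvan _ _).1 (hs k))
    refine ⟨n, fun k => hat pt (s k), a, fun k => hat_mem pt (s k), ha, fun k => ?_, fun k => ?_,
      hsum⟩
    · refine Pol_mono ?_ (h2 k)
      push_cast
      omega
    · have h3 := mul_mem_Pol (h2 k) hK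
      rw [← PL3.atJ_mul] at h3
      refine Pol_mono ?_ h3
      push_cast
      omega
  · intro w hw a b hab
    obtain ⟨r, rfl⟩ := hreg w hw (fun j m hm => hab j m (by omega))
    have hr : r ∈ Ipt pt ^ a * Ipt pt ^ b := by
      rw [← pow_add, hvan]
      exact fun j m hm => PL3.coeff_of_hat_mem hab j m hm
    refine Submodule.mul_induction_on hr ?_ ?_
    · intro x hx y hy
      refine Submodule.subset_span ⟨hat pt x, hat_mem pt x, hat pt y, hat_mem pt y, ?_, ?_, ?_⟩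
      · exact PL3.hat_mem_Pol ((hvan _ _).1 hx)
      · exact PL3.hat_mem_Pol ((hvan _ _).1 hy)
      · rw [map_mul]
    · intro x y hx hy
      rw [map_add]
      exact add_mem hx hy
  · intro ξ m
    obtain ⟨-, -, hTT, -, hST⟩ := hSTO hW
    obtain ⟨-, ⟨n, θ, g', hθ, hg', hsum⟩, -⟩ := hST hWS
    choose K hK using fun i => exists_Pol (atJ (θ i))
    set K₀ : ℕ := Finset.univ.sup K with hK₀
    have hKle : ∀ i, K i ≤ K₀ := fun i => Finset.le_sup (f := K) (Finset.mem_univ i)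
    choose w hw hwc using fun i => h1 (ξ * dd (atJ (g' i))) (m + K₀)
    refine ⟨∑ i, w i * θ i, sum_mem fun i _ => hTT _ (hw i) _ (hθ i), ?_⟩
    have e1 : ξ = ∑ i, (ξ * dd (atJ (g' i))) * atJ (θ i) := by
      have e2 : (1 : KK Bool A) = ∑ i, atJ (θ i) * dd (atJ (g' i)) := by
        rw [← PL3.atJ_one (I := I), ← hsum, PL3.atJ_sum]
        rfl
      calc ξ = ξ * 1 := (mul_one ξ).symm
        _ = ∑ i, (ξ * dd (atJ (g' i))) * atJ (θ i) := by
          rw [e2, Finset.mul_sum]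
          refine Finset.sum_congr rfl fun i _ => ?_
          ring
    have e3 : atJ (∑ i, w i * θ i) - ξ =
        ∑ i, (atJ (w i) - ξ * dd (atJ (g' i))) * atJ (θ i) := by
      rw [PL3.atJ_sum]
      conv_lhs => rw [e1]
      rw [← Finset.sum_sub_distrib]
      refine Finset.sum_congr rfl fun i _ => ?_
      rw [PL3.atJ_mul, sub_mul]
    rw [e3]
    refine sum_mem fun i _ => ?_
    have h4 := mul_mem_Pol (hwc i) (hK i)
    refine Pol_mono ?_ h4
    have := hKle i
    omega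

end Pool.Agent.MG.G0
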