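import Pool.Agent.MG.G0.StmtsLOG

/-!
# PL4: differentials on the plumbed curve
-/

namespace Pool.Agent.MG.G0

namespace PL4

variable {I J A : Type} [CommRing A]

theorem res_sum [Fintype I] [Fintype J] (f : KK (I ⊕ J) A) :
    res f = res (atI f) + res (atJ f) := by
  change ∑ k, (f k).coeff (-1) = _
  rw [Fintype.sum_sum_type]
  rfl

theorem mul_sub_res [Fintype I] {n : ℤ} {δ f g : KK I A} (hδ : δ ∈ Pol I A n)
    (h : f - g ∈ Pol I A (-n)) : res (δ * f) = res (δ * g) := by
  have h1 := mul_mem_Pol hδ h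
  rw [add_neg_cancel] at h1
  have h2 := res_Pol0 h1
  rw [mul_sub, map_sub, sub_eq_zero] at h2
  exact h2

theorem ext_sum {f g : KK (I ⊕ J) A} (h : atI f = atI g) (h' : atJ f = atJ g) : f = g := by
  funext k
  rcases k with i | j
  · exact congrFun h i
  · exact congrFun h' j

end PL4

open PL4 in
theorem t_PL4 (hKDU : Stmt_KDU) (hAWK : Stmt_AWK) (hPL0 : Stmt_PL0) : Stmt_PL4 := by
  intro I A _ _ _ h R hR hS pt hd t ht
  obtain ⟨N, hN⟩ := ht
  obtain ⟨hP1, -, -, -, -, -, -, hP8⟩ := hPL0 t N hN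
  obtain ⟨-, -, -, -, -, hdens, -⟩ := hAWK hR hS pt hd
  have dens : ∀ (G : KK Bool A) (M : ℤ), ∃ w ∈ WJ pt, atJ w - G ∈ Pol Bool A (-M) := by
    intro G M
    obtain ⟨w, hw, hw2⟩ := hdens G M
    refine ⟨w, hw, fun j m hm => ?_⟩
    rw [neg_neg] at hm
    rw [Pi.sub_apply, HahnSeries.coeff_sub, sub_eq_zero]
    exact hw2 j m hm
  refine ⟨fun η hη => ?_, fun ζ hζ F hF hζF f hf => ?_⟩
  · -- the functional
    have wd : ∀ v ∈ WJ pt, ∀ v' ∈ WJ pt, atJ v - atJ v' ∈ Nt t →
        res (η * atI v) = res (η * atI v') := by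
      intro v hv v' hv' hvv
      have h1 := hη (atI (v - v')) ⟨v - v', sub_mem hv hv', rfl, hvv⟩
      have h2 : η * atI (v - v') = η * atI v - η * atI v' := mul_sub η (atI v) (atI v')
      rw [h2, map_sub, sub_eq_zero] at h1
      exact h1
    have hex : ∀ G : KK Bool A, ∃ w ∈ WJ pt, atJ w - G ∈ Nt t := fun G => by
      obtain ⟨w, hw, hw2⟩ := dens G N
      exact ⟨w, hw, hP1 N le_rfl _ hw2⟩
    choose w hw hwG using hex
    let l : KK Bool A →ₗ[A] A :=
      { toFun := fun G => res (η * atI (w G))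
        map_add' := fun G G' => by
          have h1 : res (η * atI (w (G + G'))) = res (η * atI (w G + w G')) := by
            refine wd _ (hw _) _ (add_mem (hw _) (hw _)) ?_
            have h2 : atJ (w (G + G')) - atJ (w G + w G') =
                (atJ (w (G + G')) - (G + G')) - (atJ (w G) - G) - (atJ (w G') - G') := by
              change atJ (w (G + G')) - (atJ (w G) + atJ (w G')) = _
              ring
            rw [h2]
            exact sub_mem (sub_mem (hwG _) (hwG _)) (hwG _)
          rw [h1]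
          have h3 : η * atI (w G + w G') = η * atI (w G) + η * atI (w G') :=
            mul_add η (atI (w G)) (atI (w G'))
          rw [h3, map_add]
        map_smul' := fun a G => by
          have h1 : res (η * atI (w (a • G))) = res (η * atI (a • w G)) := by
            refine wd _ (hw _) _ ((WJ pt).smul_mem (hw _) a) ?_
            have h2 : atJ (w (a • G)) - atJ (a • w G) =
                (atJ (w (a • G)) - a • G) - a • (atJ (w G) - G) := by
              change atJ (w (a • G)) - a • atJ (w G) = _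
              rw [smul_sub]
              abel
            rw [h2]
            exact sub_mem (hwG _) ((Nt t).smul_mem (hwG _) a)
          rw [h1]
          have h3 : η * atI (a • w G) = a • (η * atI (w G)) := mul_smul_comm a η (atI (w G))
          rw [h3, map_smul, RingHom.id_apply] }
    have hl : ∀ G : KK Bool A, l G = res (η * atI (w G)) := fun G => rfl
    have hlw : ∀ v ∈ WJ pt, l (atJ v) = res (η * atI v) := fun v hv => by
      rw [hl]
      exact wd _ (hw _) _ hv (hwG _)
    have hlN : ∀ G ∈ Nt t, l G = 0 := fun G hG => by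
      rw [hl, wd _ (hw _) 0 (zero_mem _) ?_]
      · have : η * atI (0 : KK (I ⊕ Bool) A) = 0 := mul_zero η
        rw [this, map_zero]
      · have : atJ (w G) - atJ (0 : KK (I ⊕ Bool) A) = (atJ (w G) - G) + G := by
          change atJ (w G) - 0 = _
          ring
        rw [this]
        exact add_mem (hwG _) hG
    obtain ⟨ξ, ⟨hξ1, hξ2⟩, -⟩ := hKDU (N : ℤ) l fun f hf => hlN f (hP1 N le_rfl f hf)
    have hξN : ∀ F ∈ Nt t, res (-ξ * F) = 0 := fun F hF => by
      rw [neg_mul, map_neg, ← hξ2, hlN F hF, neg_zero]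
    let ζ : KK (I ⊕ Bool) A := Sum.elim η (-ξ)
    refine ⟨ζ, ⟨fun v hv => ?_, rfl, (hP8 (-ξ)).1 hξN⟩, ?_⟩
    · rw [res_sum]
      change res (η * atI v) + res (-ξ * atJ v) = 0
      rw [neg_mul, map_neg, ← hξ2, hlw v hv, add_neg_cancel]
    · rintro ζ' ⟨hζ'1, hζ'2, -⟩
      have hζ1 : ζ ∈ Perp (WJ pt) := fun v hv => by
        rw [res_sum]
        change res (η * atI v) + res (-ξ * atJ v) = 0
        rw [neg_mul, map_neg, ← hξ2, hlw v hv, add_neg_cancel]
      refine ext_sum hζ'2 ?_
      have hδ : ∀ v ∈ WJ pt, res ((atJ ζ' - atJ ζ) * atJ v) = 0 := fun v hv => by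
        have e1 := hζ'1 v hv
        have e2 := hζ1 v hv
        rw [res_sum] at e1 e2
        change res (atI ζ' * atI v) + res (atJ ζ' * atJ v) = 0 at e1
        change res (η * atI v) + res (atJ ζ * atJ v) = 0 at e2
        rw [hζ'2] at e1
        rw [sub_mul, map_sub, eq_neg_of_add_eq_zero_right e1, eq_neg_of_add_eq_zero_right e2,
          sub_self]
      obtain ⟨n, hn⟩ := exists_Pol (atJ ζ' - atJ ζ)
      rw [← sub_eq_zero]
      funext j
      ext k
      obtain ⟨v, hv, hv2⟩ := dens (mon j (-1 - k) 1) n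
      have e1 := mul_sub_res hn hv2
      rw [hδ v hv, res_mul_mon, mul_one] at e1
      have e2 : -1 - (-1 - k) = k := by ring
      rw [e2] at e1
      rw [← e1]
      rfl
  · obtain ⟨w, hw, rfl, hwN⟩ := hf
    have h1 := hζ w hw
    rw [res_sum] at h1
    change res (atI ζ * atI w) + res (atJ ζ * atJ w) = 0 at h1
    rw [(hP8 (atJ ζ)).2 ⟨F, hF, hζF⟩ (atJ w) hwN, add_zero] at h1
    exact h1

end Pool.Agent.MG.G0
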