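import Pool.Agent.MG.G0.StmtsLOG

/-!
# PL5: the structure of derivations of the plumbed ring (PAPER.md, LOG, L5)
-/

namespace Pool.Agent.MG.G0

namespace PL5

section

variable {I A : Type} [CommRing A] {R : Subalgebra A (KK I A)}

/-- The components at the new punctures as a homomorphism. -/
noncomputable def jHom (I A : Type) [CommRing A] : KK (I ⊕ Bool) A →ₐ[A] KK Bool A where
  toFun := atJ
  map_one' := rfl
  map_mul' _ _ := rfl
  map_zero' := rfl
  map_add' _ _ := rfl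
  commutes' _ := rfl

/-- The components at the old punctures as a homomorphism. -/
noncomputable def iHom (I A : Type) [CommRing A] : KK (I ⊕ Bool) A →ₐ[A] KK I A where
  toFun := atI
  map_one' := rfl
  map_mul' _ _ := rfl
  map_zero' := rfl
  map_add' _ _ := rfl
  commutes' _ := rfl

theorem atI_add (f g : KK (I ⊕ Bool) A) : atI (f + g) = atI f + atI g := rfl

theorem atI_sub (f g : KK (I ⊕ Bool) A) : atI (f - g) = atI f - atI g := rfl

theorem atI_mul (f g : KK (I ⊕ Bool) A) : atI (f * g) = atI f * atI g := rfl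

theorem atJ_add (f g : KK (I ⊕ Bool) A) : atJ (f + g) = atJ f + atJ g := rfl

theorem atJ_sub (f g : KK (I ⊕ Bool) A) : atJ (f - g) = atJ f - atJ g := rfl

theorem atJ_mul (f g : KK (I ⊕ Bool) A) : atJ (f * g) = atJ f * atJ g := rfl

theorem atI_smul (a : A) (f : KK (I ⊕ Bool) A) : atI (a • f) = a • atI f := rfl

theorem atJ_smul (a : A) (f : KK (I ⊕ Bool) A) : atJ (a • f) = a • atJ f := rfl

/-- The functions in `W` which are functions on the annulus. -/
noncomputable def Wt (pt : Bool → FPt R) (t : A) : Subalgebra A (KK (I ⊕ Bool) A) :=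
  WJ pt ⊓ (Nt t).comap (jHom I A)

theorem mem_Wt {pt : Bool → FPt R} {t : A} {w : KK (I ⊕ Bool) A} :
    w ∈ Wt pt t ↔ w ∈ WJ pt ∧ atJ w ∈ Nt t := Iff.rfl

/-- The element of `P_t` given by an element of `Wt`. -/
noncomputable def pr {pt : Bool → FPt R} {t : A} (w : Wt pt t) : PT pt t :=
  ⟨atI (w : KK (I ⊕ Bool) A), w, (mem_Wt.1 w.2).1, rfl, (mem_Wt.1 w.2).2⟩

/-- The series whose components at the old punctures are those of an element of `W`. -/
noncomputable def SW (pt : Bool → FPt R) : Submodule (WJ pt) (KK (I ⊕ Bool) A) where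
  carrier := {F | ∃ w ∈ WJ pt, atI F = atI w}
  add_mem' := by
    rintro F G ⟨w, hw, h⟩ ⟨v, hv, h'⟩
    exact ⟨w + v, add_mem hw hv, by rw [atI_add, atI_add, h, h']⟩
  zero_mem' := ⟨0, zero_mem _, rfl⟩
  smul_mem' := by
    rintro ⟨c, hc⟩ F ⟨w, hw, h⟩
    refine ⟨c * w, mul_mem hc hw, ?_⟩
    change atI (c * F) = _
    rw [atI_mul, atI_mul, h]

theorem mem_SW {pt : Bool → FPt R} {F : KK (I ⊕ Bool) A} :
    F ∈ SW pt ↔ ∃ w ∈ WJ pt, atI F = atI w := Iff.rfl

/-- Extension by zero. -/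
noncomputable def ext0 (f : KK I A) : KK (I ⊕ Bool) A := Sum.elim f fun _ => 0

theorem atI_ext0 (f : KK I A) : atI (ext0 f) = f := rfl

/-- Elements of `P_t` are restrictions of elements of `W`. -/
theorem mem_of_mem_PT {pt : Bool → FPt R} {t : A} {f : KK I A} (hf : f ∈ PT pt t) :
    ∃ w ∈ WJ pt, f = atI w := by
  obtain ⟨w, hw, h, -⟩ := mem_PT.1 hf
  exact ⟨w, hw, h.symm⟩

theorem exists_theta [Fintype I] (hLOC : Stmt_LOC) (hSCO : Stmt_SCO) (hSKK : Stmt_SKK) {h : ℕ}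
    {pt : Bool → FPt R} {t : A} (hK : IsKr h (WJ pt)) (hS : SmC A (WJ pt))
    (hloc : ∀ w ∈ WJ pt, ∀ m : ℤ, ∃ (n : ℕ) (s a : Fin n → KK (I ⊕ Bool) A),
      (∀ k, s k ∈ WJ pt) ∧ (∀ k, a k ∈ WJ pt) ∧ (∀ k, atJ (s k) ∈ Pol Bool A (-m)) ∧
      (∀ k, atJ (s k * w) ∈ Pol Bool A (-m)) ∧ ∑ k, a k * s k = 1)
    {N : ℤ} (hN : ∀ F ∈ Pol Bool A (-N), F ∈ Nt t) {D : PT pt t → KK I A}
    (hD : RDer (PT pt t) D) :
    ∃ θ : KK I A, ∀ f : PT pt t, ∃ x ∈ WJ pt, D f - θ * dd (f : KK I A) = atI x := by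
  have hle : Wt pt t ≤ WJ pt := fun w hw => (mem_Wt.1 hw).1
  let alg : Algebra (Wt pt t) (WJ pt) := (Subalgebra.inclusion hle).toRingHom.toAlgebra
  have t1 : IsScalarTower A (Wt pt t) (WJ pt) := IsScalarTower.of_algebraMap_eq (fun a => rfl)
  have t2 : IsScalarTower (Wt pt t) (WJ pt) (KK (I ⊕ Bool) A) :=
    ⟨fun a b c => mul_assoc (a : KK (I ⊕ Bool) A) (b : KK (I ⊕ Bool) A) c⟩
  have hEp : Ep (Wt pt t) (WJ pt) := by
    refine ⟨fun x y hxy => ?_, fun w => ?_⟩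
    · have e : ((algebraMap (Wt pt t) (WJ pt) x : WJ pt) : KK (I ⊕ Bool) A) =
          ((algebraMap (Wt pt t) (WJ pt) y : WJ pt) : KK (I ⊕ Bool) A) := by rw [hxy]
      exact Subtype.ext e
    · obtain ⟨n, s, a, h1, h2, h3, h4, h5⟩ := hloc w w.2 N
      refine ⟨n, fun k => ⟨s k, mem_Wt.2 ⟨h1 k, hN _ (h3 k)⟩⟩, fun k => ⟨a k, h2 k⟩, ?_, ?_⟩
      · apply Subtype.ext
        rw [AddSubmonoidClass.coe_finsetSum]
        exact h5
      · intro k
        exact ⟨⟨s k * w, mem_Wt.2 ⟨mul_mem (h1 k) w.2, hN _ (h4 k)⟩⟩, rfl⟩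
  let δ : Derivation A (Wt pt t) (KK (I ⊕ Bool) A ⧸ SW pt) := Derivation.mk'
    { toFun := fun w => (SW pt).mkQ (ext0 (D (pr w)))
      map_add' := fun f g => by
        rw [← map_add, ← sub_eq_zero, ← map_sub, Submodule.mkQ_apply,
          Submodule.Quotient.mk_eq_zero, mem_SW]
        obtain ⟨w, hw, h'⟩ := mem_of_mem_PT (hD.add (pr f) (pr g))
        refine ⟨w, hw, ?_⟩
        rw [← h', atI_sub, atI_add, atI_ext0, atI_ext0, atI_ext0, sub_sub]
        rfl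
      map_smul' := fun a f => by
        have e : (RingHom.id A a) • (SW pt).mkQ (ext0 (D (pr f))) =
            (SW pt).mkQ (a • ext0 (D (pr f))) := rfl
        rw [e, ← sub_eq_zero, ← map_sub, Submodule.mkQ_apply,
          Submodule.Quotient.mk_eq_zero, mem_SW]
        obtain ⟨w, hw, h'⟩ := mem_of_mem_PT (hD.smul a (pr f))
        refine ⟨w, hw, ?_⟩
        rw [← h', atI_sub, atI_smul, atI_ext0, atI_ext0]
        rfl }
    (fun f g => by
      have e : f • (SW pt).mkQ (ext0 (D (pr g))) + g • (SW pt).mkQ (ext0 (D (pr f))) =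
          (SW pt).mkQ ((f : KK (I ⊕ Bool) A) * ext0 (D (pr g)) +
            (g : KK (I ⊕ Bool) A) * ext0 (D (pr f))) := rfl
      refine Eq.trans ?_ e.symm
      change (SW pt).mkQ (ext0 (D (pr (f * g)))) = _
      rw [← sub_eq_zero, ← map_sub, Submodule.mkQ_apply, Submodule.Quotient.mk_eq_zero, mem_SW]
      obtain ⟨w, hw, h'⟩ := mem_of_mem_PT (hD.mul (pr f) (pr g))
      refine ⟨w, hw, ?_⟩
      rw [← h', atI_sub, atI_add, atI_mul, atI_mul, atI_ext0, atI_ext0, atI_ext0, sub_sub]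
      rfl)
  obtain ⟨E, hE, -⟩ := hLOC hEp (KK (I ⊕ Bool) A ⧸ SW pt) δ
  obtain ⟨E', hE'⟩ := (hSCO.2 hS).2.2 (KK (I ⊕ Bool) A) (KK (I ⊕ Bool) A ⧸ SW pt) (SW pt).mkQ
    (SW pt).mkQ_surjective E
  obtain ⟨Θ, hΘ, -⟩ := (hSKK hK).2 hS E'
  refine ⟨atI Θ, fun f => ?_⟩
  obtain ⟨w, hw, h1, h2⟩ := mem_PT.1 f.2
  have hf : f = pr (⟨w, mem_Wt.2 ⟨hw, h2⟩⟩ : Wt pt t) := Subtype.ext h1.symm
  have h3 := hE ⟨w, mem_Wt.2 ⟨hw, h2⟩⟩
  have h4 : (SW pt).mkQ (E' ⟨w, hw⟩) = (SW pt).mkQ (ext0 (D f)) := by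
    rw [hE', hf]
    exact h3
  rw [hΘ ⟨w, hw⟩] at h4
  rw [← sub_eq_zero, ← map_sub, Submodule.mkQ_apply, Submodule.Quotient.mk_eq_zero, mem_SW] at h4
  obtain ⟨x, hx, hx'⟩ := h4
  refine ⟨-x, neg_mem hx, ?_⟩
  have h5 : atI (-x) = -atI x := rfl
  have h6 : atI Θ * dd (f : KK I A) = atI (Θ * dd w) := by
    rw [← h1]
    rfl
  rw [h5, ← hx', atI_sub, atI_ext0, neg_sub, h6]

/-- Functions on the annulus have bounded poles. -/
theorem Nt_le_Pol {t : A} {N : ℕ} (ht : t ^ N = 0) {F : KK Bool A} (hF : F ∈ Nt t) :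
    F ∈ Pol Bool A N := fun b m hm => by
  obtain ⟨j, hj⟩ := Int.eq_ofNat_of_zero_le (show 0 ≤ -m by omega)
  have h1 := mem_Nt.1 hF b j
  have e : -(j : ℤ) = m := by omega
  rw [e] at h1
  rw [h1, show j = N + (j - N) by omega, pow_add, ht, zero_mul, zero_mul]

/-- The situation after the subtraction of `θ d/dτ`. -/
structure Sit (pt : Bool → FPt R) (t : A) (x L : PT pt t → KK (I ⊕ Bool) A) : Prop where
  inj : ∀ w ∈ WJ pt, atI w = 0 → w = 0
  xW : ∀ f, x f ∈ WJ pt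
  LW : ∀ f, L f ∈ WJ pt
  LI : ∀ f, atI (L f) = f
  LJ : ∀ f, atJ (L f) ∈ Nt t
  add : ∀ f g, atI (x (f + g)) - atI (x f) - atI (x g) ∈ PT pt t
  smul : ∀ (a : A) f, atI (x (a • f)) - a • atI (x f) ∈ PT pt t
  mul : ∀ f g, atI (x (f * g)) - (f : KK I A) * atI (x g) - (g : KK I A) * atI (x f) ∈ PT pt t

namespace Sit

variable {pt : Bool → FPt R} {t : A} {x L : PT pt t → KK (I ⊕ Bool) A}

theorem eqW (S : Sit pt t x L) {v w : KK (I ⊕ Bool) A} (hv : v ∈ WJ pt) (hw : w ∈ WJ pt)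
    (h : atI v = atI w) : v = w := by
  have h1 := S.inj (v - w) (sub_mem hv hw) (by rw [atI_sub, h, sub_self])
  exact sub_eq_zero.1 h1

theorem memJ (S : Sit pt t x L) {w : KK (I ⊕ Bool) A} (hw : w ∈ WJ pt)
    (h : atI w ∈ PT pt t) : atJ w ∈ Nt t := by
  obtain ⟨v, hv, h1, h2⟩ := mem_PT.1 h
  rwa [S.eqW hv hw h1] at h2

theorem L_eq (S : Sit pt t x L) {w : KK (I ⊕ Bool) A} (hw : w ∈ WJ pt) {f : PT pt t}
    (h : (f : KK I A) = atI w) : L f = w :=
  S.eqW (S.LW f) hw ((S.LI f).trans h)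

theorem L_add (S : Sit pt t x L) (f g : PT pt t) : L (f + g) = L f + L g :=
  S.L_eq (add_mem (S.LW f) (S.LW g)) (by rw [atI_add, S.LI, S.LI]; rfl)

theorem L_sub (S : Sit pt t x L) (f g : PT pt t) : L (f - g) = L f - L g :=
  S.L_eq (sub_mem (S.LW f) (S.LW g)) (by rw [atI_sub, S.LI, S.LI]; rfl)

theorem L_mul (S : Sit pt t x L) (f g : PT pt t) : L (f * g) = L f * L g :=
  S.L_eq (mul_mem (S.LW f) (S.LW g)) (by rw [atI_mul, S.LI, S.LI]; rfl)

theorem L_smul (S : Sit pt t x L) (a : A) (f : PT pt t) : L (a • f) = a • L f :=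
  S.L_eq ((WJ pt).smul_mem (S.LW f) a) (by rw [atI_smul, S.LI]; rfl)

theorem L_one (S : Sit pt t x L) : L 1 = 1 := S.L_eq (one_mem _) rfl

theorem dadd (S : Sit pt t x L) (f g : PT pt t) :
    atJ (x (f + g)) - atJ (x f) - atJ (x g) ∈ Nt t :=
  S.memJ (w := x (f + g) - x f - x g) (sub_mem (sub_mem (S.xW _) (S.xW _)) (S.xW _)) (S.add f g)

theorem dsmul (S : Sit pt t x L) (a : A) (f : PT pt t) :
    atJ (x (a • f)) - a • atJ (x f) ∈ Nt t :=
  S.memJ (w := x (a • f) - a • x f) (sub_mem (S.xW _) ((WJ pt).smul_mem (S.xW _) a)) (S.smul a f)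

theorem dmul (S : Sit pt t x L) (f g : PT pt t) :
    atJ (x (f * g)) - atJ (L f) * atJ (x g) - atJ (L g) * atJ (x f) ∈ Nt t := by
  refine S.memJ (w := x (f * g) - L f * x g - L g * x f)
    (sub_mem (sub_mem (S.xW _) (mul_mem (S.LW _) (S.xW _))) (mul_mem (S.LW _) (S.xW _))) ?_
  rw [atI_sub, atI_sub, atI_mul, atI_mul, S.LI, S.LI]
  exact S.mul f g

theorem done (S : Sit pt t x L) : atJ (x 1) ∈ Nt t := by
  have h := S.dmul 1 1
  have e : atJ (1 : KK (I ⊕ Bool) A) = 1 := rfl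
  rw [S.L_one, e, one_mul, one_mul] at h
  have h2 := neg_mem h
  rwa [sub_self, zero_sub, neg_neg] at h2

/-- There is a uniform bound for the poles of the derivatives. -/
theorem exists_bound (S : Sit pt t x L) (hfg : (⊤ : Subalgebra A (PT pt t)).FG) {N : ℕ}
    (hN : ∀ m : ℕ, N ≤ m → ∀ F ∈ Pol Bool A (-(m : ℤ)), F ∈ Nt t) :
    ∃ m : ℕ, N ≤ m ∧ ∀ f : PT pt t, ∀ F ∈ Pol Bool A (-(m : ℤ)), F * atJ (x f) ∈ Nt t := by
  obtain ⟨s, hs⟩ := hfg
  choose n hn using fun f : PT pt t => exists_Pol (atJ (x f))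
  refine ⟨N + s.sup n, Nat.le_add_right _ _, fun f => ?_⟩
  have hf : f ∈ Algebra.adjoin A (s : Set (PT pt t)) := by
    rw [hs]
    exact Algebra.mem_top
  have hN' : ∀ F ∈ Pol Bool A (-((N + s.sup n : ℕ) : ℤ)), F ∈ Nt t :=
    hN _ (Nat.le_add_right _ _)
  refine Algebra.adjoin_induction (p := fun f _ => ∀ F ∈ Pol Bool A (-((N + s.sup n : ℕ) : ℤ)),
    F * atJ (x f) ∈ Nt t) ?_ ?_ ?_ ?_ hf
  · intro g hg F hF
    refine hN N le_rfl _ (Pol_mono ?_ (mul_mem_Pol hF (hn g)))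
    have : n g ≤ s.sup n := Finset.le_sup hg
    omega
  · intro a F hF
    have h1 : atJ (x (algebraMap A (PT pt t) a)) ∈ Nt t := by
      have h2 := S.dsmul a 1
      have h3 := (Nt t).smul_mem S.done a
      have h4 := add_mem h2 h3
      rwa [sub_add_cancel, ← Algebra.algebraMap_eq_smul_one] at h4
    exact mul_mem (hN' F hF) h1
  · intro f g _ _ hf hg F hF
    have h1 := mul_mem (hN' F hF) (S.dadd f g)
    have e : F * atJ (x (f + g)) = F * (atJ (x (f + g)) - atJ (x f) - atJ (x g)) +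
        F * atJ (x f) + F * atJ (x g) := by ring
    rw [e]
    exact add_mem (add_mem h1 (hf F hF)) (hg F hF)
  · intro f g _ _ hf hg F hF
    have h1 := mul_mem (hN' F hF) (S.dmul f g)
    have e : F * atJ (x (f * g)) = F * (atJ (x (f * g)) - atJ (L f) * atJ (x g) -
        atJ (L g) * atJ (x f)) + atJ (L f) * (F * atJ (x g)) + atJ (L g) * (F * atJ (x f)) := by
      ring
    rw [e]
    exact add_mem (add_mem h1 (mul_mem (S.LJ f) (hg F hF))) (mul_mem (S.LJ g) (hf F hF))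

/-- The derivation kills the functions which vanish to a high order at the annulus. -/
theorem kill (S : Sit pt t x L) {m : ℕ} (hm : ∀ F ∈ Pol Bool A (-(m : ℤ)), F ∈ Nt t)
    (hb : ∀ f : PT pt t, ∀ F ∈ Pol Bool A (-(m : ℤ)), F * atJ (x f) ∈ Nt t)
    (hsp : ∀ w ∈ WJ pt, atJ w ∈ Pol Bool A (-((m + m : ℕ) : ℤ)) →
      w ∈ Submodule.span A {z : KK (I ⊕ Bool) A | ∃ x ∈ WJ pt, ∃ y ∈ WJ pt,
        atJ x ∈ Pol Bool A (-(m : ℤ)) ∧ atJ y ∈ Pol Bool A (-(m : ℤ)) ∧ z = x * y})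
    {f : PT pt t} (hf : atJ (L f) ∈ Pol Bool A (-((m + m : ℕ) : ℤ))) : atJ (x f) ∈ Nt t := by
  have key : ∀ z ∈ Submodule.span A {z : KK (I ⊕ Bool) A | ∃ x ∈ WJ pt, ∃ y ∈ WJ pt,
      atJ x ∈ Pol Bool A (-(m : ℤ)) ∧ atJ y ∈ Pol Bool A (-(m : ℤ)) ∧ z = x * y},
      ∃ f : PT pt t, (f : KK I A) = atI z ∧ atJ (x f) ∈ Nt t := by
    intro z hz
    refine Submodule.span_induction (p := fun z _ => ∃ f : PT pt t, (f : KK I A) = atI z ∧
      atJ (x f) ∈ Nt t) ?_ ?_ ?_ ?_ hz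
    · rintro z ⟨u, hu, v, hv, h1, h2, rfl⟩
      set f : PT pt t := ⟨atI u, u, hu, rfl, hm _ h1⟩ with hf
      set g : PT pt t := ⟨atI v, v, hv, rfl, hm _ h2⟩ with hg
      refine ⟨f * g, rfl, ?_⟩
      have e1 : L f = u := S.L_eq hu rfl
      have e2 : L g = v := S.L_eq hv rfl
      have h3 := S.dmul f g
      rw [e1, e2] at h3
      have h4 := hb g _ h1
      have h5 := hb f _ h2
      have h6 := add_mem (add_mem h3 h4) h5
      have e : atJ (x (f * g)) - atJ u * atJ (x g) - atJ v * atJ (x f) + atJ u * atJ (x g) +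
          atJ v * atJ (x f) = atJ (x (f * g)) := by ring
      rwa [e] at h6
    · refine ⟨0, rfl, ?_⟩
      have h1 := S.dsmul 0 1
      have h2 := (Nt t).smul_mem S.done (0 : A)
      have h3 := add_mem h1 h2
      rwa [sub_add_cancel, zero_smul] at h3
    · rintro z z' _ _ ⟨f, hf, h1⟩ ⟨g, hg, h2⟩
      refine ⟨f + g, by rw [atI_add, ← hf, ← hg]; rfl, ?_⟩
      have h3 := add_mem (add_mem (S.dadd f g) h1) h2
      have e : atJ (x (f + g)) - atJ (x f) - atJ (x g) + atJ (x f) + atJ (x g) =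
        atJ (x (f + g)) := by ring
      rwa [e] at h3
    · rintro a z _ ⟨f, hf, h1⟩
      refine ⟨a • f, by rw [atI_smul, ← hf]; rfl, ?_⟩
      have h3 := add_mem (S.dsmul a f) ((Nt t).smul_mem h1 a)
      rwa [sub_add_cancel] at h3
  obtain ⟨g, hg, h1⟩ := key (L f) (hsp _ (S.LW f) hf)
  have e : g = f := Subtype.ext (hg.trans (S.LI f))
  rwa [e] at h1

theorem wd (S : Sit pt t x L) {K : ℤ}
    (hk : ∀ f : PT pt t, atJ (L f) ∈ Pol Bool A (-K) → atJ (x f) ∈ Nt t) {f g : PT pt t}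
    (h : atJ (L f) - atJ (L g) ∈ Pol Bool A (-K)) : atJ (x f) - atJ (x g) ∈ Nt t := by
  have h1 := hk (f - g) (by rw [S.L_sub]; exact h)
  have h2 := S.dadd (f - g) g
  rw [sub_add_cancel] at h2
  have h3 := add_mem h2 h1
  have e : atJ (x f) - atJ (x (f - g)) - atJ (x g) + atJ (x (f - g)) =
    atJ (x f) - atJ (x g) := by ring
  rwa [e] at h3

/-- The derivation of the ring of functions on the annulus. -/
theorem exists_der (S : Sit pt t x L) {K N : ℕ} (ht : t ^ N = 0)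
    (hm : ∀ F ∈ Pol Bool A (-((K + N : ℕ) : ℤ)), F ∈ Nt t)
    (hb : ∀ f : PT pt t, ∀ F ∈ Pol Bool A (-(K : ℤ)), F * atJ (x f) ∈ Nt t)
    (hk : ∀ f : PT pt t, atJ (L f) ∈ Pol Bool A (-(K : ℤ)) → atJ (x f) ∈ Nt t)
    (happ : ∀ (F : KK Bool A) (m : ℤ), ∃ w ∈ WJ pt, atJ w - F ∈ Pol Bool A (-m)) :
    ∃ δ : Derivation A (Nt t) (KK Bool A ⧸ LinearMap.range (Algebra.linearMap (Nt t) (KK Bool A))),
      ∀ (F : Nt t) (f : PT pt t), atJ (L f) - (F : KK Bool A) ∈ Pol Bool A (-(K : ℤ)) →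
        δ F = Submodule.Quotient.mk (atJ (x f)) := by
  have hKN : Pol Bool A (-((K + N : ℕ) : ℤ)) ≤ Pol Bool A (-(K : ℤ)) := Pol_mono (by omega)
  have hc : ∀ F : Nt t, ∃ f : PT pt t,
      atJ (L f) - (F : KK Bool A) ∈ Pol Bool A (-((K + N : ℕ) : ℤ)) := by
    intro F
    obtain ⟨w, hw, h1⟩ := happ F ((K + N : ℕ) : ℤ)
    have h2 : atJ w ∈ Nt t := by
      have h3 := add_mem (hm _ h1) F.2
      rwa [sub_add_cancel] at h3
    refine ⟨⟨atI w, w, hw, rfl, h2⟩, ?_⟩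
    rw [S.L_eq hw rfl]
    exact h1
  choose c hc using hc
  have hmk : ∀ a b : KK Bool A, a - b ∈ Nt t →
      (Submodule.Quotient.mk a : KK Bool A ⧸ LinearMap.range (Algebra.linearMap (Nt t)
        (KK Bool A))) = Submodule.Quotient.mk b := by
    intro a b hab
    rw [Submodule.Quotient.eq]
    exact ⟨⟨a - b, hab⟩, rfl⟩
  have hwd : ∀ (F : Nt t) (f : PT pt t), atJ (L f) - (F : KK Bool A) ∈ Pol Bool A (-(K : ℤ)) →
      atJ (x (c F)) - atJ (x f) ∈ Nt t := by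
    intro F f hf
    refine S.wd hk ?_
    have e : atJ (L (c F)) - atJ (L f) = (atJ (L (c F)) - (F : KK Bool A)) -
      (atJ (L f) - (F : KK Bool A)) := by ring
    rw [e]
    exact sub_mem (hKN (hc F)) hf
  refine ⟨Derivation.mk'
    { toFun := fun F => Submodule.Quotient.mk (atJ (x (c F)))
      map_add' := fun F G => ?_
      map_smul' := fun a F => ?_ } fun F G => ?_, fun F f hf => hmk _ _ (hwd F f hf)⟩
  · rw [← Submodule.Quotient.mk_add]
    refine hmk _ _ ?_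
    have h1 := hwd (F + G) (c F + c G) (by
      rw [S.L_add, atJ_add]
      have e : atJ (L (c F)) + atJ (L (c G)) - ((F + G : Nt t) : KK Bool A) =
        (atJ (L (c F)) - (F : KK Bool A)) + (atJ (L (c G)) - (G : KK Bool A)) := by
        change atJ (L (c F)) + atJ (L (c G)) - ((F : KK Bool A) + (G : KK Bool A)) = _
        ring
      rw [e]
      exact add_mem (hKN (hc F)) (hKN (hc G)))
    have h2 := add_mem h1 (S.dadd (c F) (c G))
    have e : atJ (x (c (F + G))) - atJ (x (c F + c G)) +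
        (atJ (x (c F + c G)) - atJ (x (c F)) - atJ (x (c G))) =
        atJ (x (c (F + G))) - (atJ (x (c F)) + atJ (x (c G))) := by ring
    rwa [e] at h2
  · change Submodule.Quotient.mk (atJ (x (c (a • F)))) = Submodule.Quotient.mk (a • atJ (x (c F)))
    refine hmk _ _ ?_
    have h1 := hwd (a • F) (a • c F) (by
      rw [S.L_smul, atJ_smul]
      have e : a • atJ (L (c F)) - ((a • F : Nt t) : KK Bool A) =
        a • (atJ (L (c F)) - (F : KK Bool A)) := by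
        change a • atJ (L (c F)) - a • (F : KK Bool A) = _
        rw [smul_sub]
      rw [e]
      exact (Pol Bool A _).smul_mem a (hKN (hc F)))
    have h2 := add_mem h1 (S.dsmul a (c F))
    have e : atJ (x (c (a • F))) - atJ (x (a • c F)) + (atJ (x (a • c F)) - a • atJ (x (c F))) =
        atJ (x (c (a • F))) - a • atJ (x (c F)) := by ring
    rwa [e] at h2
  · change Submodule.Quotient.mk (atJ (x (c (F * G)))) =
      Submodule.Quotient.mk ((F : KK Bool A) * atJ (x (c G)) + (G : KK Bool A) * atJ (x (c F)))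
    refine hmk _ _ ?_
    have h1 := hwd (F * G) (c F * c G) (by
      rw [S.L_mul, atJ_mul]
      have e : atJ (L (c F)) * atJ (L (c G)) - ((F * G : Nt t) : KK Bool A) =
        (atJ (L (c F)) - (F : KK Bool A)) * atJ (L (c G)) +
          (F : KK Bool A) * (atJ (L (c G)) - (G : KK Bool A)) := by
        change atJ (L (c F)) * atJ (L (c G)) - (F : KK Bool A) * (G : KK Bool A) = _
        ring
      rw [e]
      refine add_mem (Pol_mono ?_ (mul_mem_Pol (hc F) (Nt_le_Pol ht (S.LJ (c G)))))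
        (Pol_mono ?_ (mul_mem_Pol (Nt_le_Pol ht F.2) (hc G)))
      · omega
      · omega)
    have h2 := add_mem (add_mem (add_mem h1 (S.dmul (c F) (c G)))
      (hb (c G) _ (hKN (hc F)))) (hb (c F) _ (hKN (hc G)))
    have e : atJ (x (c (F * G))) - atJ (x (c F * c G)) +
        (atJ (x (c F * c G)) - atJ (L (c F)) * atJ (x (c G)) - atJ (L (c G)) * atJ (x (c F))) +
        (atJ (L (c F)) - (F : KK Bool A)) * atJ (x (c G)) +
        (atJ (L (c G)) - (G : KK Bool A)) * atJ (x (c F)) =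
        atJ (x (c (F * G))) - ((F : KK Bool A) * atJ (x (c G)) +
          (G : KK Bool A) * atJ (x (c F))) := by ring
    rwa [e] at h2

end Sit

end

end PL5

theorem t_PL5 (hKFG : Stmt_KFG) (hSCO : Stmt_SCO) (hLOC : Stmt_LOC) (hSKK : Stmt_SKK)
    (hAWK : Stmt_AWK) (hPL0 : Stmt_PL0) (hPL1 : Stmt_PL1) (hPL3 : Stmt_PL3) : Stmt_PL5 := by
  intro I A _ _ _ h R hR hS pt hpt t ht D hD
  obtain ⟨N, hN⟩ := ht
  obtain ⟨hWK, hWS, -, hinj, -, -, -⟩ := hAWK hR hS pt hpt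
  obtain ⟨h3a, h3b, h3c, -⟩ := hPL3 hR hS pt hpt
  obtain ⟨h0a, -, h0c, h0d, -, -, h0g, -⟩ := hPL0 t N hN
  have hinj' : ∀ w ∈ WJ pt, atI w = 0 → w = 0 := fun w hw h1 => hinj w hw fun i => congrFun h1 i
  obtain ⟨θ, hθ⟩ := PL5.exists_theta hLOC hSCO hSKK hWK hWS h3b (N := N) (h0a N le_rfl) hD
  choose x hxW hx using hθ
  have hL : ∀ f : PT pt t, ∃ w ∈ WJ pt, atI w = f ∧ atJ w ∈ Nt t := fun f => mem_PT.1 f.2
  choose L hLW hLI hLJ using hL
  have S : PL5.Sit pt t x L := by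
    refine ⟨hinj', hxW, hLW, hLI, hLJ, fun f g => ?_, fun a f => ?_, fun f g => ?_⟩
    · rw [← hx, ← hx, ← hx]
      have e : D (f + g) - θ * dd ((f + g : PT pt t) : KK I A) - (D f - θ * dd (f : KK I A)) -
          (D g - θ * dd (g : KK I A)) = D (f + g) - D f - D g := by
        change D (f + g) - θ * dd ((f : KK I A) + (g : KK I A)) - _ - _ = _
        rw [dd_add]
        ring
      rw [e]
      exact hD.add f g
    · rw [← hx, ← hx]
      have e : D (a • f) - θ * dd ((a • f : PT pt t) : KK I A) -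
          a • (D f - θ * dd (f : KK I A)) = D (a • f) - a • D f := by
        change D (a • f) - θ * dd (a • (f : KK I A)) - _ = _
        rw [dd_smul, smul_sub, mul_smul_comm]
        ring
      rw [e]
      exact hD.smul a f
    · rw [← hx, ← hx, ← hx]
      have e : D (f * g) - θ * dd ((f * g : PT pt t) : KK I A) -
          (f : KK I A) * (D g - θ * dd (g : KK I A)) -
          (g : KK I A) * (D f - θ * dd (f : KK I A)) =
          D (f * g) - (f : KK I A) * D g - (g : KK I A) * D f := by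
        change D (f * g) - θ * dd ((f : KK I A) * (g : KK I A)) - _ - _ = _
        rw [dd_mul]
        ring
      rw [e]
      exact hD.mul f g
  have : Algebra.FinitePresentation A (PT pt t) := (hKFG (hPL1 hR hS pt hpt t ⟨N, hN⟩)).1
  have hfg : (⊤ : Subalgebra A (PT pt t)).FG :=
    (Algebra.FiniteType.of_finitePresentation (R := A) (A := PT pt t)).out
  obtain ⟨m, hNm, hb⟩ := S.exists_bound hfg h0a
  have hk : ∀ f : PT pt t, atJ (L f) ∈ Pol Bool A (-((m + m : ℕ) : ℤ)) → atJ (x f) ∈ Nt t :=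
    fun f hf => S.kill (h0a m hNm) hb (fun w hw h1 => h3c w hw m m h1) hf
  have hb' : ∀ f : PT pt t, ∀ F ∈ Pol Bool A (-((m + m : ℕ) : ℤ)), F * atJ (x f) ∈ Nt t :=
    fun f F hF => hb f F (Pol_mono (by omega) hF)
  obtain ⟨δ, hδ⟩ := S.exists_der (K := m + m) hN (h0a _ (by omega)) hb' hk h3a
  have happ : ∀ F : Nt t, ∃ f : PT pt t,
      atJ (L f) - (F : KK Bool A) ∈ Pol Bool A (-((m + m : ℕ) : ℤ)) := by
    intro F
    obtain ⟨w, hw, h1⟩ := h3a F ((m + m : ℕ) : ℤ)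
    have h2 : atJ w ∈ Nt t := by
      have h3 := add_mem (h0a (m + m) (by omega) _ h1) F.2
      rwa [sub_add_cancel] at h3
    refine ⟨⟨atI w, w, hw, rfl, h2⟩, ?_⟩
    rw [S.L_eq hw rfl]
    exact h1
  obtain ⟨fu, hfu⟩ := happ ⟨uv t true, h0c true⟩
  obtain ⟨fv, hfv⟩ := happ ⟨uv t false, h0c false⟩
  have hδu := hδ _ _ hfu
  have hδv := hδ _ _ hfv
  have hmk : ∀ a : KK Bool A, (Submodule.Quotient.mk a :
      KK Bool A ⧸ LinearMap.range (Algebra.linearMap (Nt t) (KK Bool A))) = 0 → a ∈ Nt t := by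
    intro a ha
    rw [Submodule.Quotient.mk_eq_zero] at ha
    obtain ⟨y, rfl⟩ := ha
    exact y.2
  refine ⟨θ, atJ (x fu), atJ (x fv), ?_, ?_⟩
  · apply hmk
    have h1 : δ (⟨uv t true, h0c true⟩ * ⟨uv t false, h0c false⟩) = 0 := by
      have e : (⟨uv t true, h0c true⟩ * ⟨uv t false, h0c false⟩ : Nt t) =
        algebraMap A (Nt t) t := Subtype.ext h0d
      rw [e, Derivation.map_algebraMap]
    rw [Derivation.leibniz, hδu, hδv] at h1
    exact h1
  · intro w hw hwJ G G' hG hG' f hf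
    refine ⟨x f, hxW f, ?_, ?_⟩
    · rw [hx f, sub_self]
      exact zero_mem _
    · apply hmk
      have h1 := h0g _ δ (m + m) (fun y hy => ?_) ⟨atJ w, hwJ⟩ ⟨G, hG.mem⟩ ⟨G', hG'.mem⟩
        ⟨uv t true, h0c true⟩ ⟨uv t false, h0c false⟩ hG hG' rfl rfl
      · have e : L f = w := S.L_eq hw hf
        rw [hδu, hδv, hδ ⟨atJ w, hwJ⟩ f (by rw [e]; simp)] at h1
        rw [Submodule.Quotient.mk_sub, sub_eq_zero]
        exact h1
      · obtain ⟨g, hg⟩ := happ y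
        rw [hδ y g hg]
        have h4 : atJ (L g) ∈ Pol Bool A (-((m + m : ℕ) : ℤ)) := by
          have h5 := add_mem hg hy
          rwa [sub_add_cancel] at h5
        rw [Submodule.Quotient.mk_eq_zero]
        exact ⟨⟨_, hk g h4⟩, rfl⟩

end Pool.Agent.MG.G0
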