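import Pool.Agent.MG.G0.StmtsLOG

/-!
# PL6 (LOG, L6): `t D` is given by a vector field
-/

namespace Pool.Agent.MG.G0

namespace PL6

variable {A : Type} [CommRing A]

theorem ld_single (n : ℤ) (a : A) :
    ld (HahnSeries.single n a : LaurentSeries A) = HahnSeries.single (n - 1) ((n : A) * a) := by
  ext m
  rw [ld_coeff, HahnSeries.coeff_single, HahnSeries.coeff_single]
  by_cases h : m = n - 1
  · subst h
    rw [if_pos rfl, if_pos (by ring), sub_add_cancel]
  · rw [if_neg h, if_neg (fun h' => h (by omega)), mul_zero]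

/-- The vector field on the annulus. -/
noncomputable def vf (t : A) (α β : KK Bool A) : KK Bool A := fun b =>
  if b then t • α true - HahnSeries.single 1 1 * (uv t true * β + uv t false * α) true
  else t • β false

theorem smul_eq (t : A) (f : LaurentSeries A) : t • f = HahnSeries.single 0 t * f := by
  ext n
  have h := HahnSeries.coeff_single_mul_add (r := t) (x := f) (a := n) (b := (0 : ℤ))
  rw [add_zero] at h
  rw [h, HahnSeries.coeff_smul, smul_eq_mul]

theorem vf_u (t : A) (α β : KK Bool A) :
    vf t α β * dd (uv t true) - t • α =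
      -(uv t true * (uv t true * β + uv t false * α)) := by
  funext b
  cases b
  · change (t • β false) * ld (HahnSeries.single (-1) t) - t • α false =
      -(HahnSeries.single (-1) t * (HahnSeries.single (-1) t * β false +
        HahnSeries.single 1 1 * α false))
    have h1 : (HahnSeries.single (-1) t * HahnSeries.single 1 1 : LaurentSeries A) =
        HahnSeries.single 0 t := by
      rw [HahnSeries.single_mul_single, mul_one]
      rfl
    have h2 : (HahnSeries.single 0 t * HahnSeries.single (-1 - 1) (((-1 : ℤ) : A) * t) :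
        LaurentSeries A) = -(HahnSeries.single (-1) t * HahnSeries.single (-1) t) := by
      rw [HahnSeries.single_mul_single, HahnSeries.single_mul_single, ← HahnSeries.single_neg]
      congr 1
      push_cast
      ring
    rw [ld_single, smul_eq, smul_eq, ← h1]
    rw [← h1] at h2
    linear_combination (β false) * h2
  · change (t • α true - HahnSeries.single 1 1 * (uv t true * β + uv t false * α) true) *
        ld (HahnSeries.single 1 1) - t • α true =
      -(HahnSeries.single 1 1 * (uv t true * β + uv t false * α) true)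
    have h1 : ld (HahnSeries.single 1 1 : LaurentSeries A) = 1 := by
      rw [ld_single]
      simp
    rw [h1, mul_one]
    ring

theorem vf_v (t : A) (α β : KK Bool A) :
    vf t α β * dd (uv t false) - t • β = 0 := by
  funext b
  cases b
  · change (t • β false) * ld (HahnSeries.single 1 1) - t • β false = 0
    have h1 : ld (HahnSeries.single 1 1 : LaurentSeries A) = 1 := by
      rw [ld_single]
      simp
    rw [h1, mul_one, sub_self]
  · change (t • α true - HahnSeries.single 1 1 * (HahnSeries.single 1 1 * β true +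
        HahnSeries.single (-1) t * α true)) * ld (HahnSeries.single (-1) t) - t • β true = 0
    have h0 : ld (HahnSeries.single (-1) t : LaurentSeries A) =
        -(HahnSeries.single (-1) 1 * HahnSeries.single (-1) t) := by
      rw [ld_single, HahnSeries.single_mul_single, ← HahnSeries.single_neg]
      congr 1
      push_cast
      ring
    have h1 : (HahnSeries.single 1 1 * HahnSeries.single (-1) 1 : LaurentSeries A) = 1 := by
      rw [HahnSeries.single_mul_single, mul_one]
      rfl
    have h2 : (HahnSeries.single 1 1 * HahnSeries.single (-1) t : LaurentSeries A) =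
        HahnSeries.single 0 t := by
      rw [HahnSeries.single_mul_single, one_mul]
      rfl
    rw [h0, smul_eq, smul_eq]
    rw [← h2]
    linear_combination (HahnSeries.single 1 1 * HahnSeries.single (-1) t * β true) * h1

theorem mem_Pol_of_Nt {t : A} {N : ℕ} (hN : t ^ N = 0) {F : KK Bool A} (hF : F ∈ Nt t) :
    F ∈ Pol Bool A N := by
  intro b m hm
  obtain ⟨j, rfl⟩ : ∃ j : ℕ, m = -((N + j : ℕ) : ℤ) := by
    refine ⟨(-m - N).toNat, ?_⟩
    push_cast
    omega
  rw [mem_Nt.1 hF b (N + j), pow_add, hN, zero_mul, zero_mul]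

end PL6

open PL6 in
theorem t_PL6 (hAWK : Stmt_AWK) (hPL0 : Stmt_PL0) (hPL3 : Stmt_PL3) (hPL5 : Stmt_PL5) :
    Stmt_PL6 := by
  clear hAWK
  intro I A _ _ _ h R hR hS pt hd t ht D hD
  obtain ⟨N, hN⟩ := ht
  obtain ⟨θ, α, β, hγ, key⟩ := hPL5 hR hS pt hd t ⟨N, hN⟩ D hD
  obtain ⟨hp1, -, huv, -, hpd, hdd, -, -⟩ := hPL0 t N hN
  obtain ⟨-, -, -, hden⟩ := hPL3 hR hS pt hd
  obtain ⟨θW, hθW, hclose⟩ := hden (vf t α β) ((2 * N + 1 : ℕ) : ℤ)
  refine ⟨t • θ + atI θW, fun f => ?_⟩
  obtain ⟨w, hw, hwf, hwN⟩ := mem_PT.1 f.2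
  obtain ⟨G, hG⟩ := hpd _ hwN true
  obtain ⟨G', hG'⟩ := hpd _ hwN false
  obtain ⟨x, hx, h1, h2⟩ := key w hw hwN G G' hG hG' f hwf.symm
  have hy : θW * dd w ∈ WJ pt := mem_TT.1 hθW w hw
  have h3 : t • x - θW * dd w ∈ WJ pt := sub_mem ((WJ pt).smul_mem hx t) hy
  have hddw : dd (atJ w) ∈ Pol Bool A ((N : ℤ) + 1) := dd_mem_Pol (mem_Pol_of_Nt hN hwN)
  have h4 : (atJ θW - vf t α β) * dd (atJ w) ∈ Nt t := by
    refine hp1 N le_rfl _ ?_
    refine Pol_mono ?_ (mul_mem_Pol hclose hddw)
    push_cast
    omega
  have h5 : vf t α β * dd (atJ w) - t • (G * α + G' * β) ∈ Nt t := by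
    have e : vf t α β * dd (atJ w) - t • (G * α + G' * β) =
        G * (-(uv t true * (uv t true * β + uv t false * α))) := by
      rw [hdd _ hwN G G' hG hG', ← vf_u, smul_add, ← mul_smul_comm, ← mul_smul_comm]
      linear_combination G' * vf_v t α β
    rw [e]
    exact mul_mem hG.mem (neg_mem (mul_mem (huv true) hγ))
  have h6 : atJ (t • x - θW * dd w) ∈ Nt t := by
    have e : atJ (t • x - θW * dd w) = t • (atJ x - (G * α + G' * β)) -
        (vf t α β * dd (atJ w) - t • (G * α + G' * β)) -
          (atJ θW - vf t α β) * dd (atJ w) := by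
      have e0 : atJ (t • x - θW * dd w) = t • atJ x - atJ θW * dd (atJ w) := rfl
      rw [e0, smul_sub]
      ring
    rw [e]
    exact sub_mem (sub_mem ((Nt t).smul_mem h2 t) h5) h4
  have h7 : atI (t • x - θW * dd w) ∈ PT pt t := mem_PT.2 ⟨_, h3, rfl, h6⟩
  have e : t • D f - (t • θ + atI θW) * dd (f : KK I A) =
      t • (D f - θ * dd (f : KK I A) - atI x) + atI (t • x - θW * dd w) := by
    have e0 : atI (t • x - θW * dd w) = t • atI x - atI θW * dd (f : KK I A) := by
      rw [← hwf]
      rfl
    rw [e0, smul_sub, smul_sub, add_mul, smul_mul_assoc]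
    ring
  rw [e]
  exact add_mem ((PT pt t).smul_mem h1 t) h7

end Pool.Agent.MG.G0
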