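import Pool.Agent.MG.G0.StmtsLOG

/-!
# PL7: `t ω` is a Kähler differential
-/

namespace Pool.Agent.MG.G0

namespace PL7

section

variable {A : Type} [CommRing A]

theorem ld_single (n : ℤ) (c : A) :
    ld (HahnSeries.single n c) = HahnSeries.single (n - 1) ((n : A) * c) := by
  ext m
  rw [ld_coeff, HahnSeries.coeff_single, HahnSeries.coeff_single]
  by_cases h : m = n - 1
  · subst h
    rw [if_pos rfl, if_pos (by ring)]
    push_cast
    ring
  · rw [if_neg h, if_neg (by omega), mul_zero]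

theorem smul_sgl (n : ℤ) (t c : A) :
    t • (HahnSeries.single n c : LaurentSeries A) = HahnSeries.single n (t * c) := by
  ext m
  rw [HahnSeries.coeff_smul, HahnSeries.coeff_single, HahnSeries.coeff_single]
  split_ifs <;> simp

/-- `v du = t du/u`. -/
theorem v_du (t : A) : uv t false * dd (uv t true) = t • vp A := by
  funext b
  cases b
  · change HahnSeries.single 1 1 * ld (HahnSeries.single (-1) t) =
      t • (HahnSeries.single (-1) (-1) : LaurentSeries A)
    rw [ld_single, HahnSeries.single_mul_single, smul_sgl]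
    congr 1
    push_cast
    ring
  · change HahnSeries.single (-1) t * ld (HahnSeries.single 1 1) =
      t • (HahnSeries.single (-1) 1 : LaurentSeries A)
    rw [ld_single, HahnSeries.single_mul_single, smul_sgl]
    congr 1
    push_cast
    ring

theorem single_low (n : ℤ) (c : A) (m : ℤ) (h : m < n) :
    (HahnSeries.single n c : LaurentSeries A).coeff m = 0 := by
  rw [HahnSeries.coeff_single, if_neg (by omega)]

theorem uv_mem_Pol (t : A) (b : Bool) : uv t b ∈ Pol Bool A 1 := by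
  intro b' m hm
  rw [uv]
  split_ifs
  · exact single_low _ _ _ (by omega)
  · exact single_low _ _ _ (by omega)

theorem atJ_Pol {I : Type} {w : KK (I ⊕ Bool) A} {n : ℤ} (h : w ∈ Pol (I ⊕ Bool) A n) :
    atJ w ∈ Pol Bool A n := fun j m hm => h (Sum.inr j) m hm

end

end PL7

open PL7 in
theorem t_PL7 (hSTO : Stmt_STO) (hSCO : Stmt_SCO) (hAWK : Stmt_AWK) (hAWD : Stmt_AWD)
    (hPL0 : Stmt_PL0) (hPL3 : Stmt_PL3) (hPL4 : Stmt_PL4) : Stmt_PL7 := by
  intro I A _ _ _ h R hR hS hD pt hdis t ht ω hω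
  obtain ⟨N, hN⟩ := ht
  obtain ⟨n1, -, n3, -⟩ := hPL0 t N hN
  obtain ⟨w1, w2, -⟩ := hAWK hR hS pt hdis
  have hDW : Dual (WJ pt) := hAWD hR hS pt hdis hD
  obtain ⟨s1, -, -, -, s5⟩ := hSTO w1
  obtain ⟨-, ⟨n, θ, g, hθ, hg, hone⟩, -⟩ := s5 w2
  obtain ⟨l1, -, l3, -⟩ := hPL3 hR hS pt hdis
  obtain ⟨ζ0, ⟨hζ0, hζI, F, hF, hζJ⟩, -⟩ := (hPL4 hR hS pt hdis t ⟨N, hN⟩).1 ω hω
  -- bounds for the orders of the poles
  obtain ⟨k0, hk0⟩ := exists_Pol F
  choose k1 hk1 using fun i => exists_Pol (θ i)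
  choose k2 hk2 using fun i => exists_Pol (g i)
  obtain ⟨K, hKF, hKθ, hKg⟩ : ∃ K : ℕ, F ∈ Pol Bool A K ∧ (∀ i, atJ (θ i) ∈ Pol Bool A K) ∧
      ∀ i, atJ (g i) ∈ Pol Bool A K := by
    have b1 : ∀ i, k1 i ≤ ∑ i, k1 i := fun i =>
      Finset.single_le_sum (fun _ _ => Nat.zero_le _) (Finset.mem_univ i)
    have b2 : ∀ i, k2 i ≤ ∑ i, k2 i := fun i =>
      Finset.single_le_sum (fun _ _ => Nat.zero_le _) (Finset.mem_univ i)
    refine ⟨k0 + ∑ i, k1 i + ∑ i, k2 i, Pol_mono (by omega) hk0,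
      fun i => ?_, fun i => ?_⟩
    · refine Pol_mono ?_ (atJ_Pol (hk1 i))
      have := b1 i
      omega
    · refine Pol_mono ?_ (atJ_Pol (hk2 i))
      have := b2 i
      omega
  -- the approximation
  obtain ⟨M, hM⟩ : ∃ M : ℕ, M = 2 * N + 4 * K + 2 := ⟨_, rfl⟩
  obtain ⟨p, hp, hpJ⟩ := l1 (F * uv t false) (M : ℤ)
  obtain ⟨q, hq, hqJ⟩ := l1 (uv t true) (M : ℤ)
  have hFv : F * uv t false ∈ Pol Bool A (K + 1) := mul_mem_Pol hKF (uv_mem_Pol t false)
  have hpP : atJ p ∈ Pol Bool A (K + 1) := by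
    have h1 := add_mem (Pol_mono (by omega) hpJ) hFv
    rwa [sub_add_cancel] at h1
  have hpN : atJ p ∈ Nt t := by
    have h1 := add_mem (n1 M (by omega) _ hpJ) (mul_mem hF (n3 false))
    rwa [sub_add_cancel] at h1
  have hqN : atJ q ∈ Nt t := by
    have h1 := add_mem (n1 M (by omega) _ hqJ) (n3 true)
    rwa [sub_add_cancel] at h1
  -- the difference
  obtain ⟨ζ, hζ⟩ : ∃ ζ, ζ = t • ζ0 - p * dd q := ⟨_, rfl⟩
  have hζW : ζ ∈ Perp (WJ pt) := by
    rw [hζ]
    refine sub_mem (Submodule.smul_mem _ _ hζ0) (s1 ?_)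
    exact Submodule.subset_span ⟨p, hp, q, hq, rfl⟩
  have hζP : atJ ζ ∈ Pol Bool A (K + 2 - M) := by
    have e : atJ ζ = -((atJ p - F * uv t false) * dd (uv t true)) -
        atJ p * dd (atJ q - uv t true) := by
      have e1 : atJ ζ = t • atJ ζ0 - atJ p * dd (atJ q) := by
        rw [hζ]
        rfl
      have e2 : dd (atJ q) = dd (atJ q - uv t true) + dd (uv t true) := by
        rw [← dd_add, sub_add_cancel]
      rw [e1, hζJ, e2]
      have e3 := v_du t
      have e4 : t • (F * vp A) = F * (t • vp A) := (mul_smul_comm _ _ _).symm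
      rw [e4, ← e3]
      ring
    rw [e]
    refine sub_mem (neg_mem ?_) ?_
    · refine Pol_mono ?_ (mul_mem_Pol hpJ (dd_mem_Pol (uv_mem_Pol t true)))
      omega
    · refine Pol_mono ?_ (mul_mem_Pol hpP (dd_mem_Pol hqJ))
      omega
  -- Kähler differentials of the plumbed curve
  have hOm : ∀ x ∈ WJ pt, atJ x ∈ Nt t → ∀ y ∈ WJ pt, atJ y ∈ Nt t →
      atI (x * dd y) ∈ Om (PT pt t) := by
    intro x hx hxN y hy hyN
    exact Submodule.subset_span ⟨atI x, ⟨x, hx, rfl, hxN⟩, atI y, ⟨y, hy, rfl, hyN⟩, rfl⟩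
  have hsum : ζ = ∑ i, θ i * ζ * dd (g i) := by
    have e : ∀ i, θ i * ζ * dd (g i) = ζ * (θ i * dd (g i)) := fun i => by ring
    rw [Finset.sum_congr rfl fun i _ => e i, ← Finset.mul_sum, hone, mul_one]
  have hterm : ∀ i, atI (θ i * ζ * dd (g i)) ∈ Om (PT pt t) := by
    intro i
    have h1 : θ i * ζ ∈ WJ pt := hDW (θ i) (hθ i) ζ hζW
    have h2 : atJ (θ i * ζ) ∈ Pol Bool A (-((N + K + (N + K) : ℕ) : ℤ)) := by
      refine Pol_mono ?_ (mul_mem_Pol (hKθ i) hζP)
      push_cast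
      omega
    have h3 := l3 (θ i * ζ) h1 (N + K) (N + K) h2
    clear h1 h2
    generalize θ i * ζ = w at h3 ⊢
    induction h3 using Submodule.span_induction with
    | mem z hz =>
      obtain ⟨x, hx, y, hy, hxJ, hyJ, rfl⟩ := hz
      have hyg : atJ (y * g i) ∈ Pol Bool A (-(N : ℤ)) := by
        refine Pol_mono ?_ (mul_mem_Pol hyJ (hKg i))
        push_cast
        omega
      have hxg : atJ (x * g i) ∈ Pol Bool A (-(N : ℤ)) := by
        refine Pol_mono ?_ (mul_mem_Pol hxJ (hKg i))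
        push_cast
        omega
      have hx' : atJ x ∈ Pol Bool A (-(N : ℤ)) := Pol_mono (by push_cast; omega) hxJ
      have hy' : atJ y ∈ Pol Bool A (-(N : ℤ)) := Pol_mono (by push_cast; omega) hyJ
      have e : x * y * dd (g i) = x * dd (y * g i) - (x * g i) * dd y := by
        rw [dd_mul]
        ring
      rw [e]
      exact sub_mem
        (hOm x hx (n1 N le_rfl _ hx') (y * g i) (mul_mem hy (hg i)) (n1 N le_rfl _ hyg))
        (hOm (x * g i) (mul_mem hx (hg i)) (n1 N le_rfl _ hxg) y hy (n1 N le_rfl _ hy'))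
    | zero =>
      rw [zero_mul]
      exact zero_mem _
    | add a b _ _ ha hb =>
      rw [add_mul]
      exact add_mem ha hb
    | smul c a _ ha =>
      rw [smul_mul_assoc]
      exact Submodule.smul_mem _ c ha
  have hfin : t • ω = atI ζ + atI (p * dd q) := by
    have e : t • ζ0 = ζ + p * dd q := by
      rw [hζ]
      ring
    have e2 := congrArg atI e
    rw [← hζI]
    exact e2
  rw [hfin]
  refine add_mem ?_ (hOm p hp hpN q hq hqN)
  rw [hsum]
  have e : atI (∑ i, θ i * ζ * dd (g i)) = ∑ i, atI (θ i * ζ * dd (g i)) := by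
    funext j
    simp only [atI, Finset.sum_apply]
  rw [e]
  exact Submodule.sum_mem _ fun i _ => hterm i

end Pool.Agent.MG.G0
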