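import Pool.Agent.MG.G0.StmtsLOG

/-!
# PLF (PAPER.md, L2): restriction of formal points, forgetting punctures of a plumbed curve
-/

namespace Pool.Agent.MG.G0

namespace PLF

section one

variable {A : Type} [CommRing A]

theorem psl_low (f : PowerSeries A) : ∀ m < 0, (psl A f).coeff m = 0 := fun m hm => by
  rw [psl, PowerSeries.coeff_coe, if_pos hm]

theorem psl_coeff (f : PowerSeries A) (n : ℕ) :
    (psl A f).coeff (n : ℤ) = PowerSeries.coeff n f := by
  rw [psl, PowerSeries.coeff_coe, if_neg (by omega), Int.natAbs_natCast]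

theorem psl_low_of {f : PowerSeries A} {n : ℕ} (h : ∀ m < n, PowerSeries.coeff m f = 0) :
    ∀ m < (n : ℤ), (psl A f).coeff m = 0 := fun m hm => by
  by_cases h0 : m < 0
  · exact psl_low f m h0
  · obtain ⟨k, rfl⟩ := Int.eq_ofNat_of_zero_le (not_lt.1 h0)
    rw [psl_coeff]
    exact h k (by omega)

theorem single_mul_single_neg :
    (HahnSeries.single (1 : ℤ) (1 : A)) * HahnSeries.single (-1 : ℤ) (1 : A) = 1 := by
  rw [HahnSeries.single_mul_single, add_neg_cancel, one_mul]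
  rfl

/-- A power series `u · unit`. -/
theorem exists_unit {f : PowerSeries A} (h0 : PowerSeries.constantCoeff f = 0)
    (h1 : IsUnit (PowerSeries.coeff 1 f)) : ∃ t t' : PowerSeries A, f = PowerSeries.X * t ∧
      t * t' = 1 := by
  obtain ⟨t, ht⟩ := PowerSeries.X_dvd_iff.2 h0
  have h2 : IsUnit t := by
    rw [PowerSeries.isUnit_iff_constantCoeff, ← PowerSeries.coeff_zero_eq_constantCoeff_apply]
    have h3 := PowerSeries.coeff_succ_X_mul 0 t
    rw [← ht] at h3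
    rw [← h3]
    exact h1
  obtain ⟨t', ht'⟩ := h2.exists_right_inv
  exact ⟨t, t', ht, ht'⟩

theorem psl_X : psl A PowerSeries.X = HahnSeries.single 1 1 := HahnSeries.ofPowerSeries_X

theorem isUnit_psl {f : PowerSeries A} (h0 : PowerSeries.constantCoeff f = 0)
    (h1 : IsUnit (PowerSeries.coeff 1 f)) : IsUnit (psl A f) := by
  obtain ⟨t, t', ht, htt⟩ := exists_unit h0 h1
  have h2 : psl A f * (HahnSeries.single (-1 : ℤ) (1 : A) * psl A t') = 1 := by
    rw [ht, map_mul, psl_X]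
    have e1 : HahnSeries.single 1 1 * psl A t * (HahnSeries.single (-1 : ℤ) (1 : A) * psl A t') =
        (HahnSeries.single 1 1 * HahnSeries.single (-1 : ℤ) (1 : A)) * (psl A t * psl A t') := by
      ring
    rw [e1, single_mul_single_neg, ← map_mul, htt, map_one, one_mul]
  exact IsUnit.of_mul_eq_one _ h2

theorem mem_Ipt {I J : Type} {P : Subalgebra A (KK I A)} {pt : J → FPt P} {r : P} :
    r ∈ Ipt pt ↔ ∀ j, PowerSeries.constantCoeff ((pt j).h r) = 0 := by
  rw [Ipt, Ideal.mem_iInf]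
  rfl

theorem Pol_zero_iff {I : Type} {f : KK I A} :
    f ∈ Pol I A 0 ↔ ∀ i, ∀ m < 0, (f i).coeff m = 0 := by
  rw [mem_Pol]
  constructor
  · intro h i m hm
    exact h i m (by omega)
  · intro h i m hm
    exact h i m (by omega)

end one

/-! ## The inclusion of the regular functions -/

section lift

variable {I J A : Type} [CommRing A] {Q : Subalgebra A (KK (I ⊕ J) A)}
  {R : Subalgebra A (KK I A)}

theorem atI_eq (F : Forget Q R) {q q' : Q}
    (h : ∀ i, (q : KK (I ⊕ J) A) (Sum.inl i) = (q' : KK (I ⊕ J) A) (Sum.inl i)) : q = q' := by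
  have h1 := F.inj ((q : KK (I ⊕ J) A) - q') (sub_mem q.2 q'.2) fun i =>
    sub_eq_zero.2 (h i)
  exact Subtype.ext (sub_eq_zero.1 h1)

theorem exists_lift (F : Forget Q R) (r : R) : ∃ q : Q,
    (∀ i, (q : KK (I ⊕ J) A) (Sum.inl i) = (r : KK I A) i) ∧
      ∀ j, ∀ m < 0, ((q : KK (I ⊕ J) A) (Sum.inr j)).coeff m = 0 := by
  have h0 : ∀ f ∈ R, f ∈ Rem Q := fun f hf => by rwa [← F.eq]
  have h1 := h0 r r.2
  obtain ⟨w, hw, h2, h3⟩ := h1
  exact ⟨⟨w, hw⟩, h3, h2⟩

/-- The extension of a function which is regular at `J`. -/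
noncomputable def ext (F : Forget Q R) (r : R) : Q := (exists_lift F r).choose

theorem ext_I (F : Forget Q R) (r : R) (i : I) :
    (ext F r : KK (I ⊕ J) A) (Sum.inl i) = (r : KK I A) i := (exists_lift F r).choose_spec.1 i

theorem ext_J (F : Forget Q R) (r : R) (j : J) :
    ∀ m < 0, ((ext F r : KK (I ⊕ J) A) (Sum.inr j)).coeff m = 0 :=
  (exists_lift F r).choose_spec.2 j

/-- The inclusion of the functions which are regular at `J`. -/
noncomputable def io (F : Forget Q R) : R →ₐ[A] Q where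
  toFun := ext F
  map_one' := atI_eq F fun i => ext_I F 1 i
  map_zero' := atI_eq F fun i => ext_I F 0 i
  map_mul' r r' := atI_eq F fun i => by
    refine (ext_I F (r * r') i).trans ?_
    change (r : KK I A) i * (r' : KK I A) i =
      (ext F r : KK (I ⊕ J) A) (Sum.inl i) * (ext F r' : KK (I ⊕ J) A) (Sum.inl i)
    rw [ext_I, ext_I]
  map_add' r r' := atI_eq F fun i => by
    refine (ext_I F (r + r') i).trans ?_
    change (r : KK I A) i + (r' : KK I A) i =
      (ext F r : KK (I ⊕ J) A) (Sum.inl i) + (ext F r' : KK (I ⊕ J) A) (Sum.inl i)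
    rw [ext_I, ext_I]
  commutes' a := atI_eq F fun i => ext_I F (algebraMap A R a) i

theorem io_I (F : Forget Q R) (r : R) (i : I) :
    (io F r : KK (I ⊕ J) A) (Sum.inl i) = (r : KK I A) i := ext_I F r i

theorem io_J (F : Forget Q R) (r : R) (j : J) :
    ∀ m < 0, ((io F r : KK (I ⊕ J) A) (Sum.inr j)).coeff m = 0 := ext_J F r j

theorem exists_io (F : Forget Q R) (w : Q)
    (hw : ∀ j, ∀ m < 0, ((w : KK (I ⊕ J) A) (Sum.inr j)).coeff m = 0) : ∃ r : R, io F r = w := by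
  have h1 : atI (w : KK (I ⊕ J) A) ∈ Rem Q := ⟨w, w.2, hw, fun i => rfl⟩
  rw [← F.eq] at h1
  exact ⟨⟨_, h1⟩, atI_eq F fun i => io_I F ⟨_, h1⟩ i⟩

theorem split_mul {X : Type} [CommRing X] {x y z w : X} (h : z * w = 1) :
    x * y - 1 = (x - z) * y + z * (y - w) := by linear_combination h

theorem single_neg_mul_single (n : ℤ) :
    HahnSeries.single (-n) (1 : A) * HahnSeries.single n (1 : A) = 1 := by
  rw [HahnSeries.single_mul_single, neg_add_cancel, one_mul]
  rfl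

theorem mul_sub_one_low {x y : LaurentSeries A} {n : ℤ}
    (hx : ∀ m < 0, x.coeff m = (HahnSeries.single (-n) (1 : A)).coeff m)
    (hy : ∀ m < 2 * n, y.coeff m = (HahnSeries.single n (1 : A)).coeff m)
    (hy' : ∀ m < n, y.coeff m = 0) : ∀ m < n, (x * y - 1).coeff m = 0 := fun m hm => by
  have h1 : ∀ l < 0, (x - HahnSeries.single (-n) (1 : A)).coeff l = 0 := fun l hl => by
    rw [HahnSeries.coeff_sub, hx l hl, sub_self]
  have h2 : ∀ l < -n, (HahnSeries.single (-n) (1 : A)).coeff l = 0 := fun l hl =>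
    HahnSeries.coeff_single_of_ne (by omega)
  have h3 : ∀ l < 2 * n, (y - HahnSeries.single n (1 : A)).coeff l = 0 := fun l hl => by
    rw [HahnSeries.coeff_sub, hy l hl, sub_self]
  rw [split_mul (single_neg_mul_single n), HahnSeries.coeff_add, mul_low h1 hy' m (by omega),
    mul_low h2 h3 m (by omega), add_zero]

/-- The functions which vanish to high order at `J` generate the unit ideal of `Q`. -/
theorem exists_van (F : Forget Q R) (n : ℕ) : ∃ (s r : R) (a : Q),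
    (∀ j, ∀ m < (n : ℤ), ((io F s : KK (I ⊕ J) A) (Sum.inr j)).coeff m = 0) ∧
    (∀ j, ∀ m < (n : ℤ), ((io F r : KK (I ⊕ J) A) (Sum.inr j)).coeff m = 0) ∧
    a * io F s - io F r = 1 := by
  obtain ⟨s, hs, h1⟩ := F.dns (fun _ => HahnSeries.single (n : ℤ) (1 : A)) (2 * (n : ℤ))
  obtain ⟨a, ha, h2⟩ := F.dns (fun _ => HahnSeries.single (-(n : ℤ)) (1 : A)) 0
  have h3 : ∀ j, ∀ m < (n : ℤ), (s (Sum.inr j)).coeff m = 0 := fun j m hm =>
    (h1 j m (by omega)).trans (HahnSeries.coeff_single_of_ne (by omega))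
  have h4 : ∀ j, ∀ m < (n : ℤ), ((a * s - 1) (Sum.inr j)).coeff m = 0 := fun j m hm =>
    mul_sub_one_low (h2 j) (h1 j) (h3 j) m hm
  obtain ⟨s', hs'⟩ := exists_io F ⟨s, hs⟩ fun j m hm => h3 j m (by omega)
  obtain ⟨r', hr'⟩ := exists_io F ⟨a * s - 1, sub_mem (mul_mem ha hs) (one_mem Q)⟩
    fun j m hm => h4 j m (by omega)
  refine ⟨s', r', ⟨a, ha⟩, ?_, ?_, ?_⟩
  · rw [hs']
    exact h3
  · rw [hr']
    exact h4
  · rw [hs', hr']
    exact Subtype.ext (sub_sub_cancel (a * s) 1)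

/-- `Q` is locally the ring of the functions which are regular at `J`. -/
theorem exists_loc [Finite J] (F : Forget Q R) (w : Q) : ∃ (n : ℕ) (s : Fin n → R)
    (a : Fin n → Q) (y : Fin n → R), (∀ k, io F (s k) * w = io F (y k)) ∧
      ∑ k, a k * io F (s k) = 1 := by
  obtain ⟨n, hn⟩ := exists_Pol (atJ (w : KK (I ⊕ J) A))
  obtain ⟨s, r, a, hs, hr, h1⟩ := exists_van F n
  have h2 : ∀ z : R, (∀ j, ∀ m < (n : ℤ), ((io F z : KK (I ⊕ J) A) (Sum.inr j)).coeff m = 0) →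
      ∃ y : R, io F y = io F z * w := fun z hz => exists_io F (io F z * w) fun j m hm =>
    mul_low (hz j) (hn j) m (by omega)
  obtain ⟨y1, hy1⟩ := h2 s hs
  obtain ⟨y2, hy2⟩ := h2 r hr
  refine ⟨2, ![s, r], ![a, -1], ![y1, y2], Fin.forall_fin_two.2 ⟨hy1.symm, hy2.symm⟩, ?_⟩
  rw [Fin.sum_univ_two]
  refine Eq.trans ?_ h1
  change a * io F s + (-1) * io F r = a * io F s - io F r
  ring

theorem rs_h (F : Forget Q R) {p : FPt Q} {p' : FPt R} (h : p.Rs p') (r : R) :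
    p'.h r = p.h (io F r) :=
  h (io F r) r (funext fun i => io_I F r i) (Pol_zero_iff.2 fun j => io_J F r j)

/-- The restriction of a formal point. -/
theorem exists_rs [Finite J] (F : Forget Q R) (p : FPt Q) : ∃ p' : FPt R, p.Rs p' := by
  obtain ⟨n, s, a, y, h1, h2⟩ := exists_loc F (p.x - algebraMap A Q (p.ev p.x))
  have h3 : PowerSeries.constantCoeff (p.h (p.x - algebraMap A Q (p.ev p.x))) = 0 := by
    rw [map_sub, AlgHom.commutes, map_sub]
    change PowerSeries.constantCoeff (p.h p.x) - PowerSeries.constantCoeff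
      (algebraMap A (PowerSeries A) (PowerSeries.constantCoeff (p.h p.x))) = 0
    simp
  have h4 : PowerSeries.coeff 1 (p.h (p.x - algebraMap A Q (p.ev p.x))) =
      PowerSeries.coeff 1 (p.h p.x) := by
    rw [map_sub, AlgHom.commutes, map_sub]
    simp
  have h5 : ∀ k, PowerSeries.coeff 1 (p.h (io F (y k))) =
      PowerSeries.constantCoeff (p.h (io F (s k))) * PowerSeries.coeff 1 (p.h p.x) := by
    intro k
    rw [← h1 k, map_mul, PowerSeries.coeff_one_mul, h3, h4]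
    ring
  have h6 : ∑ k, PowerSeries.constantCoeff (p.h (a k)) *
      PowerSeries.constantCoeff (p.h (io F (s k))) = 1 := by
    rw [← map_one PowerSeries.constantCoeff, ← map_one p.h, ← h2, map_sum, map_sum]
    exact Finset.sum_congr rfl fun k _ => by rw [map_mul, map_mul]
  refine ⟨⟨p.h.comp (io F), ∑ k, PowerSeries.constantCoeff (p.h (a k)) • y k, ?_⟩, ?_⟩
  · have h7 : PowerSeries.coeff 1 ((p.h.comp (io F))
        (∑ k, PowerSeries.constantCoeff (p.h (a k)) • y k)) = PowerSeries.coeff 1 (p.h p.x) := by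
      rw [map_sum, map_sum]
      calc ∑ k, PowerSeries.coeff 1 ((p.h.comp (io F))
            (PowerSeries.constantCoeff (p.h (a k)) • y k)) =
          ∑ k, (PowerSeries.constantCoeff (p.h (a k)) *
            PowerSeries.constantCoeff (p.h (io F (s k)))) * PowerSeries.coeff 1 (p.h p.x) := by
            refine Finset.sum_congr rfl fun k _ => ?_
            rw [map_smul, map_smul, AlgHom.comp_apply, h5 k, smul_eq_mul]
            ring
        _ = _ := by rw [← Finset.sum_mul, h6, one_mul]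
    rw [h7]
    exact p.par
  · intro w f h7 h8
    change p.h (io F f) = p.h w
    congr 1
    exact atI_eq F fun i => (io_I F f i).trans (congrFun h7 i).symm

/-- The restrictions of disjoint formal points are disjoint. -/
theorem disj_rs [Finite J] (F : Forget Q R) {pt : Bool → FPt Q} {pt' : Bool → FPt R}
    (h : ∀ b, (pt b).Rs (pt' b)) (hd : Disj pt) : Disj pt' := by
  intro j k hjk
  have h0 := hd j k hjk
  rw [Ideal.eq_top_iff_one, Submodule.mem_sup] at h0
  obtain ⟨u, hu, v, hv, huv⟩ := h0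
  rw [FPt.mem_id, FPt.ev] at hu hv
  obtain ⟨n, s, c, y, h1, h2⟩ := exists_loc F u
  have e1 : ∀ (b : Bool) (r : R), (pt' b).ev r = (pt b).ev (io F r) := fun b r => by
    rw [FPt.ev, FPt.ev, rs_h F (h b)]
  rw [Ideal.eq_top_iff_one]
  set J0 := (pt' j).id ⊔ (pt' k).id with hJ0
  have h3 : ∀ l, s l ∈ J0 := by
    intro l
    have h4 : y l ∈ (pt' j).id := by
      rw [FPt.mem_id, e1, ← h1 l, FPt.ev, map_mul, map_mul, hu, mul_zero]
    have h5 : s l - y l ∈ (pt' k).id := by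
      rw [FPt.mem_id, e1, map_sub, ← h1 l]
      have h6 : io F (s l) - io F (s l) * u = io F (s l) * v := by
        rw [← mul_one_sub]
        congr 1
        rw [sub_eq_iff_eq_add, add_comm]
        exact huv.symm
      rw [h6, FPt.ev, map_mul, map_mul, hv, mul_zero]
    have h6 : s l = y l + (s l - y l) := by ring
    rw [h6]
    exact add_mem (Ideal.mem_sup_left h4) (Ideal.mem_sup_right h5)
  have h7 : ∀ l, algebraMap A R ((pt' j).ev (s l)) ∈ J0 := by
    intro l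
    have h8 : s l - algebraMap A R ((pt' j).ev (s l)) ∈ (pt' j).id := by
      rw [FPt.mem_id]
      change PowerSeries.constantCoeff ((pt' j).h _) = 0
      rw [map_sub, AlgHom.commutes, map_sub]
      change PowerSeries.constantCoeff ((pt' j).h (s l)) - PowerSeries.constantCoeff
        (algebraMap A (PowerSeries A) (PowerSeries.constantCoeff ((pt' j).h (s l)))) = 0
      simp
    have h9 := sub_mem (h3 l) (Ideal.mem_sup_left h8 : _ ∈ J0)
    rwa [sub_sub_cancel] at h9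
  have h8 : ∑ l, (pt j).ev (c l) * (pt' j).ev (s l) = 1 := by
    have h9 : (pt j).ev 1 = 1 := by rw [FPt.ev, map_one, map_one]
    rw [← h9, ← h2]
    change _ = PowerSeries.constantCoeff ((pt j).h _)
    rw [map_sum, map_sum]
    refine Finset.sum_congr rfl fun l _ => ?_
    rw [e1, map_mul, map_mul]
    rfl
  have h9 : (1 : R) = ∑ l, algebraMap A R ((pt j).ev (c l)) * algebraMap A R ((pt' j).ev (s l)) := by
    rw [← map_one (algebraMap A R), ← h8, map_sum]
    exact Finset.sum_congr rfl fun l _ => map_mul _ _ _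
  rw [h9]
  exact sum_mem fun l _ => Ideal.mul_mem_left _ _ (h7 l)

end lift

/-! ## Functions with poles at the formal points -/

section wj

variable {I J A : Type} [CommRing A] {Q : Subalgebra A (KK (I ⊕ J) A)}
  {R : Subalgebra A (KK I A)} {pt : Bool → FPt Q} {pt' : Bool → FPt R}

/-- Forgetting the punctures `J`. -/
def rs : KK ((I ⊕ J) ⊕ Bool) A →+* KK (I ⊕ Bool) A where
  toFun w := fun k => w (Sum.map Sum.inl id k)
  map_one' := rfl
  map_zero' := rfl
  map_mul' _ _ := rfl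
  map_add' _ _ := rfl

theorem rs_hat (F : Forget Q R) (h : ∀ b, (pt b).Rs (pt' b)) (r : R) :
    rs (hat pt (io F r)) = hat pt' r := by
  funext k
  rcases k with i | b
  · exact io_I F r i
  · change psl A ((pt b).h (io F r)) = psl A ((pt' b).h r)
    rw [rs_h F (h b)]

theorem io_mem_pow (F : Forget Q R) (h : ∀ b, (pt b).Rs (pt' b)) {n : ℕ} {r : R}
    (hr : r ∈ Ipt pt' ^ n) : io F r ∈ Ipt pt ^ n := by
  have h1 : Ipt pt' ≤ (Ipt pt).comap (io F) := fun x hx => by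
    rw [Ideal.mem_comap, mem_Ipt]
    rw [mem_Ipt] at hx
    intro b
    rw [← rs_h F (h b)]
    exact hx b
  exact ((Ideal.pow_right_mono h1 n).trans (Ideal.le_comap_pow _ n)) hr

theorem rs_mem (F : Forget Q R) (h : ∀ b, (pt b).Rs (pt' b)) {w : KK ((I ⊕ J) ⊕ Bool) A}
    (hw : w ∈ WJ pt) (hj : ∀ j : J, ∀ m < 0, (w (Sum.inl (Sum.inr j))).coeff m = 0) :
    rs w ∈ WJ pt' := by
  obtain ⟨n, hn⟩ := hw
  refine ⟨n, fun s hs => ?_⟩
  obtain ⟨r, hr⟩ := hn (io F s) (io_mem_pow F h hs)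
  have h1 : ∀ j, ∀ m < 0, ((r : KK (I ⊕ J) A) (Sum.inr j)).coeff m = 0 := fun j m hm => by
    have h2 : (r : KK (I ⊕ J) A) (Sum.inr j) =
        (io F s : KK (I ⊕ J) A) (Sum.inr j) * w (Sum.inl (Sum.inr j)) :=
      (congrFun hr (Sum.inl (Sum.inr j))).symm
    rw [h2]
    exact mul_low (io_J F s j) (hj j) m (by omega)
  obtain ⟨r', hr'⟩ := exists_io F r h1
  refine ⟨r', ?_⟩
  rw [← rs_hat F h, ← rs_hat F h, hr', ← hr, map_mul]

/-- What is used of AYE and AWK. -/
structure Dat (pt : Bool → FPt Q) (pt' : Bool → FPt R) : Prop where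
  rs : ∀ b, (pt b).Rs (pt' b)
  regQ : ∀ w ∈ WJ pt, (∀ b, ∀ m < 0, (w (Sum.inr b)).coeff m = 0) → ∃ r : Q, w = hat pt r
  regR : ∀ w ∈ WJ pt', (∀ b, ∀ m < 0, (w (Sum.inr b)).coeff m = 0) → ∃ r : R, w = hat pt' r
  appQ : ∀ f : Bool → LaurentSeries A, ∃ w ∈ WJ pt,
    ∀ b, ∀ m < 0, (w (Sum.inr b)).coeff m = (f b).coeff m
  par : ∃ y ∈ Ipt pt', ∀ b, IsUnit (PowerSeries.coeff 1 ((pt' b).h y))
  appR : ∀ (n : ℕ) (f : Bool → PowerSeries A), ∃ r : R,
    ∀ b, ∀ m < n, PowerSeries.coeff m ((pt' b).h r) = PowerSeries.coeff m (f b)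

theorem exists_lift_W (F : Forget Q R) (D : Dat pt pt') {w' : KK (I ⊕ Bool) A} (hw : w' ∈ WJ pt') :
    ∃ w ∈ WJ pt, (∀ j : J, ∀ m < 0, (w (Sum.inl (Sum.inr j))).coeff m = 0) ∧
      PLF.rs w = w' := by
  obtain ⟨v, hv, h1⟩ := D.appQ fun b => w' (Sum.inr b)
  obtain ⟨q, hq, h2⟩ := F.dns (fun j => v (Sum.inl (Sum.inr j))) 0
  have h3 : v - hat pt ⟨q, hq⟩ ∈ WJ pt := sub_mem hv (hat_mem pt _)
  have h4 : ∀ j : J, ∀ m < 0,
      ((v - hat pt ⟨q, hq⟩) (Sum.inl (Sum.inr j))).coeff m = 0 := fun j m hm => by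
    change (v (Sum.inl (Sum.inr j)) - q (Sum.inr j)).coeff m = 0
    rw [HahnSeries.coeff_sub, h2 j m hm, sub_self]
  have h5 := rs_mem F D.rs h3 h4
  obtain ⟨r, hr⟩ := D.regR (PLF.rs (v - hat pt ⟨q, hq⟩) - w') (sub_mem h5 hw) (fun b m hm => by
    change (v (Sum.inr b) - psl A ((pt b).h ⟨q, hq⟩) - w' (Sum.inr b)).coeff m = 0
    rw [HahnSeries.coeff_sub, HahnSeries.coeff_sub, h1 b m hm, psl_low _ m hm, sub_zero,
      sub_self])
  refine ⟨v - hat pt ⟨q, hq⟩ - hat pt (io F r), sub_mem h3 (hat_mem pt _),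
    fun j m hm => ?_, ?_⟩
  · change ((v - hat pt ⟨q, hq⟩) (Sum.inl (Sum.inr j)) -
      (io F r : KK (I ⊕ J) A) (Sum.inr j)).coeff m = 0
    rw [HahnSeries.coeff_sub, h4 j m hm, io_J F r j m hm, sub_zero]
  · rw [map_sub, rs_hat F D.rs, ← hr, sub_sub_cancel]

theorem inj_W (F : Forget Q R) (D : Dat pt pt') {w : KK ((I ⊕ J) ⊕ Bool) A} (hw : w ∈ WJ pt)
    (h0 : ∀ i : I, w (Sum.inl (Sum.inl i)) = 0) : w = 0 := by
  obtain ⟨y, hy, hu⟩ := D.par
  have hw' := hw
  obtain ⟨n, hn⟩ := hw'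
  obtain ⟨r, hr⟩ := hn (io F (y ^ n)) (io_mem_pow F D.rs (Ideal.pow_mem_pow hy n))
  have h1 : r = 0 := atI_eq F fun i => by
    refine (congrFun hr (Sum.inl (Sum.inl i))).symm.trans ?_
    rw [Pi.mul_apply, h0, mul_zero]
    rfl
  have h2 : ∀ b, w (Sum.inr b) = 0 := fun b => by
    have h3 := congrFun hr (Sum.inr b)
    rw [h1, map_zero, Pi.mul_apply, Pi.zero_apply, hat_inr, ← rs_h F (D.rs b), map_pow,
      map_pow] at h3
    exact (((isUnit_psl (mem_Ipt.1 hy b) (hu b)).pow n).mul_right_eq_zero).1 h3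
  obtain ⟨r2, hr2⟩ := D.regQ w hw fun b m _ => by rw [h2, HahnSeries.coeff_zero]
  have h4 : r2 = 0 := atI_eq F fun i => by
    refine (congrFun hr2 (Sum.inl (Sum.inl i))).symm.trans ?_
    rw [h0]
    rfl
  rw [hr2, h4, map_zero]

theorem rem_PT (F : Forget Q R) (D : Dat pt pt') (t : A) : PT pt' t = Rem (PT pt t) := by
  ext f
  symm
  constructor
  · rintro ⟨_, ⟨w, hw, rfl, hN⟩, h1, h2⟩
    exact ⟨PLF.rs w, rs_mem F D.rs hw h1, funext h2, hN⟩
  · rintro ⟨w', hw, rfl, hN⟩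
    obtain ⟨w, h1, h2, rfl⟩ := exists_lift_W F D hw
    exact ⟨atI w, ⟨w, h1, rfl, hN⟩, h2, fun i => rfl⟩

theorem inj_PT (F : Forget Q R) (D : Dat pt pt') (t : A) :
    ∀ w ∈ PT pt t, (∀ i, w (Sum.inl i) = 0) → w = 0 := by
  rintro _ ⟨w, hw, rfl, -⟩ h0
  rw [inj_W F D hw h0]
  rfl

theorem dns_PT (F : Forget Q R) (D : Dat pt pt') {t : A} {N : ℕ}
    (hN : ∀ G ∈ Pol Bool A (-(N : ℤ)), G ∈ Nt t) (f : J → LaurentSeries A) (M : ℤ) :
    ∃ w ∈ PT pt t, ∀ j, ∀ m < M, (w (Sum.inr j)).coeff m = (f j).coeff m := by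
  obtain ⟨q, hq, h1⟩ := F.dns f M
  obtain ⟨s, r, a, hs, hr, h2⟩ := exists_van F M.toNat
  obtain ⟨c, hc⟩ := D.appR N fun b => (pt b).h (⟨q, hq⟩ * a)
  obtain ⟨e, he⟩ := D.appR N fun b => (pt b).h ⟨q, hq⟩
  refine ⟨_, ⟨hat pt (⟨q, hq⟩ - io F (c * s - e * r)), hat_mem pt _, rfl,
    hN _ fun b m hm => ?_⟩, fun j m hm => ?_⟩
  · have h3 : (⟨q, hq⟩ : Q) - io F (c * s - e * r) =
        (⟨q, hq⟩ * a - io F c) * io F s - (⟨q, hq⟩ - io F e) * io F r := by
      rw [map_sub, map_mul, map_mul]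
      have h4 : (⟨q, hq⟩ : Q) = ⟨q, hq⟩ * (a * io F s - io F r) := by rw [h2, mul_one]
      nth_rewrite 1 [h4]
      ring
    have h4 : ∀ k < N, PowerSeries.coeff k ((pt b).h (⟨q, hq⟩ * a - io F c)) = 0 :=
      fun k hk => by rw [map_sub, map_sub, ← rs_h F (D.rs b), hc b k hk, sub_self]
    have h5 : ∀ k < N, PowerSeries.coeff k ((pt b).h (⟨q, hq⟩ - io F e)) = 0 :=
      fun k hk => by rw [map_sub, map_sub, ← rs_h F (D.rs b), he b k hk, sub_self]
    change (psl A ((pt b).h (⟨q, hq⟩ - io F (c * s - e * r)))).coeff m = 0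
    rw [h3, map_sub, map_sub, map_mul, map_mul, map_mul, map_mul, HahnSeries.coeff_sub,
      mul_low (psl_low_of h4) (psl_low _) m (by omega),
      mul_low (psl_low_of h5) (psl_low _) m (by omega), sub_zero]
  · have h3 : (io F (c * s - e * r) : KK (I ⊕ J) A) (Sum.inr j) =
        (io F c : KK (I ⊕ J) A) (Sum.inr j) * (io F s : KK (I ⊕ J) A) (Sum.inr j) -
          (io F e : KK (I ⊕ J) A) (Sum.inr j) * (io F r : KK (I ⊕ J) A) (Sum.inr j) := by
      rw [map_sub, map_mul, map_mul]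
      rfl
    change (q (Sum.inr j) - (io F (c * s - e * r) : KK (I ⊕ J) A) (Sum.inr j)).coeff m = _
    rw [h3, HahnSeries.coeff_sub, HahnSeries.coeff_sub,
      mul_low (io_J F c j) (hs j) m (by omega), mul_low (io_J F e j) (hr j) m (by omega),
      sub_zero, sub_zero, h1 j m hm]

end wj

end PLF

theorem t_PLF (hAID : Stmt_AID) (hAYE : Stmt_AYE) (hAWK : Stmt_AWK) (hPL0 : Stmt_PL0) :
    Stmt_PLF := by
  intro I J A _ _ _ _ h Q R hQ hR sQ sR F
  refine ⟨PLF.exists_rs F, fun pt pt' hrs hd => ?_⟩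
  have hd' := PLF.disj_rs F hrs hd
  refine ⟨hd', fun t ht => ?_⟩
  obtain ⟨N, hN⟩ := ht
  have hNt : ∀ G ∈ Pol Bool A (-(N : ℤ)), G ∈ Nt t := (hPL0 t N hN).1 N le_rfl
  obtain ⟨-, -, -, -, q5, q6, -⟩ := hAWK hQ sQ pt hd
  obtain ⟨-, -, -, -, r5, -, -⟩ := hAWK hR sR pt' hd'
  obtain ⟨-, -, y3, y, -, -, hy, -, -, -, hu, -⟩ := hAYE hR sR pt' hd'
  have D : PLF.Dat pt pt' :=
    { rs := hrs
      regQ := q5
      regR := r5
      appQ := fun f => q6 f 0
      par := ⟨y, hy, hu⟩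
      appR := y3 }
  exact ⟨PLF.rem_PT F D t, PLF.inj_PT F D t, PLF.dns_PT F D hNt⟩

end Pool.Agent.MG.G0
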