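import Pool.Agent.MG.G0.StmtsLOG

/-!
# PLR: the residue at the node of a regular differential
-/

namespace Pool.Agent.MG.G0

namespace PLRx

section

variable {I A : Type} [CommRing A] {R : Subalgebra A (KK I A)}

/-- The value at a formal point as a linear map. -/
noncomputable def evl (p : FPt R) : R →ₗ[A] A where
  toFun := p.ev
  map_add' f g := by
    simp only [FPt.ev, map_add]
  map_smul' a f := by
    simp only [FPt.ev, map_smul, RingHom.id_apply]
    rw [PowerSeries.smul_eq_C_mul, map_mul, PowerSeries.constantCoeff_C, smul_eq_mul]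

theorem evl_apply (p : FPt R) (f : R) : evl p f = p.ev f := rfl

theorem ev_algebraMap (p : FPt R) (a : A) : p.ev (algebraMap A R a) = a := by
  rw [FPt.ev, AlgHom.commutes]
  exact PowerSeries.constantCoeff_C a

theorem ev_one (p : FPt R) : p.ev 1 = 1 := by
  rw [FPt.ev, map_one, map_one]

/-- The difference of the values. -/
noncomputable def del (pt : Bool → FPt R) : R →ₗ[A] A := evl (pt true) - evl (pt false)

theorem del_apply (pt : Bool → FPt R) (r : R) : del pt r = (pt true).ev r - (pt false).ev r := rfl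

theorem exists_r0 (pt : Bool → FPt R) (hd : Disj pt) : ∃ r₀ : R, del pt r₀ = 1 := by
  have h := hd true false (by decide)
  have h1 : (1 : R) ∈ (pt true).id ⊔ (pt false).id := by
    rw [h]
    trivial
  obtain ⟨a, ha, b, hb, hab⟩ := Submodule.mem_sup.1 h1
  have ha' : (pt true).ev a = 0 := ha
  have hb' : (pt false).ev b = 0 := hb
  refine ⟨b, ?_⟩
  have h2 : evl (pt true) a + evl (pt true) b = 1 := by
    rw [← map_add, hab, evl_apply, ev_one]
  rw [evl_apply, evl_apply, ha', zero_add] at h2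
  rw [del_apply, h2, hb', sub_zero]

theorem del_const {h : ℕ} (hR : IsKr h R) (pt : Bool → FPt R) (r : R)
    (hr : (r : KK I A) ∈ Pol I A 0) : del pt r = 0 := by
  obtain ⟨a, ha⟩ := hR.k1 _ r.2 hr
  have h1 : r = algebraMap A R a := Subtype.ext ha
  rw [h1, del_apply, ev_algebraMap, ev_algebraMap, sub_self]

/-- The functional on `KK`. -/
theorem exists_fun {h : ℕ} (hR : IsKr h R) (pt : Bool → FPt R) :
    ∃ l : KK I A →ₗ[A] A, (∀ f ∈ Pol I A 0, l f = 0) ∧ ∀ r : R, l (r : KK I A) = del pt r := by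
  obtain ⟨L, hL, hker⟩ := hR.k2
  choose v hv using fun j => hL (Pi.single j (1 : A))
  set T : KK I A →ₗ[A] KK I A := LinearMap.id - ∑ j, (LinearMap.proj j ∘ₗ L).smulRight (v j)
    with hT
  have hTa : ∀ f, T f = f - ∑ j, L f j • v j := by
    intro f
    simp [hT]
  have hLT : ∀ f, L (T f) = 0 := by
    intro f
    rw [hTa, map_sub, map_sum, sub_eq_zero]
    funext i
    simp [hv, Pi.single_apply]
  have hex : ∀ f, ∃ r : R, T f - (r : KK I A) ∈ Pol I A 0 := by
    intro f
    obtain ⟨p, hp, h1⟩ := (hker (T f)).1 (hLT f)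
    exact ⟨⟨p, hp⟩, h1⟩
  have huniq : ∀ (x : KK I A) (r r' : R), x - (r : KK I A) ∈ Pol I A 0 →
      x - (r' : KK I A) ∈ Pol I A 0 → del pt r = del pt r' := by
    intro x r r' h1 h2
    have h3 := sub_mem h1 h2
    rw [sub_sub_sub_cancel_left] at h3
    have h4 := del_const hR pt (r' - r) h3
    rw [map_sub, sub_eq_zero] at h4
    exact h4.symm
  choose ch hch using hex
  refine ⟨{ toFun := fun f => del pt (ch f), map_add' := ?_, map_smul' := ?_ }, ?_, ?_⟩
  · intro f g
    rw [← map_add]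
    refine huniq (T (f + g)) _ _ (hch _) ?_
    have := add_mem (hch f) (hch g)
    rw [map_add]
    have e : T f + T g - ((ch f + ch g : R) : KK I A) =
        T f - (ch f : KK I A) + (T g - (ch g : KK I A)) := by
      push_cast
      ring
    rwa [e]
  · intro a f
    rw [RingHom.id_apply, ← map_smul]
    refine huniq (T (a • f)) _ _ (hch _) ?_
    have := (Pol I A 0).smul_mem a (hch f)
    rw [map_smul]
    have e : a • T f - ((a • ch f : R) : KK I A) = a • (T f - (ch f : KK I A)) := by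
      rw [smul_sub]
      rfl
    rwa [e]
  · intro f hf
    change del pt (ch f) = 0
    rw [← map_zero (del pt)]
    refine huniq (T f) _ _ (hch f) ?_
    have h0 : L f = 0 := (hker f).2 ⟨0, zero_mem R, by rwa [sub_zero]⟩
    rw [hTa, h0]
    simpa using hf
  · intro r
    refine huniq (T r) _ _ (hch _) ?_
    have h0 : L (r : KK I A) = 0 := (hker _).2 ⟨r, r.2, by
      rw [sub_self]
      exact zero_mem _⟩
    rw [hTa, h0]
    simp

end

end PLRx

open PLRx in
/-- PLR -/
theorem t_PLR (hKDU : Stmt_KDU) (hKFO : Stmt_KFO) (hAYE : Stmt_AYE) (hAWK : Stmt_AWK)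
    (hPL1 : Stmt_PL1) (hPL2 : Stmt_PL2) : Stmt_PLR := by
  intro I A _ _ _ h R hR hs pt hd
  have hP := hPL2.2.2 hR hs pt hd
  obtain ⟨r₀, hr₀⟩ := exists_r0 pt hd
  have hmem : ∀ r : R, del pt r = 0 → (r : KK I A) ∈ PT pt 0 := by
    intro r hr
    rw [hP]
    exact ⟨r, rfl, sub_eq_zero.1 hr⟩
  have hle : ∀ f ∈ PT pt 0, f ∈ R := by
    intro f hf
    obtain ⟨r, rfl, -⟩ := (hP f).1 hf
    exact r.2
  refine ⟨?_, ?_, ?_, ?_⟩
  · rintro η ⟨hη, -⟩
    refine ⟨-res (η * (r₀ : KK I A)), ?_, ?_⟩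
    · intro r
      have h1 : (((r - del pt r • r₀ : R)) : KK I A) ∈ PT pt 0 := by
        apply hmem
        rw [map_sub, map_smul, hr₀, smul_eq_mul, mul_one, sub_self]
      have h2 := mem_Perp.1 hη _ h1
      have e : η * (((r - del pt r • r₀ : R)) : KK I A) =
          η * (r : KK I A) - del pt r • (η * (r₀ : KK I A)) := by
        rw [← mul_smul_comm, ← mul_sub]
        rfl
      rw [e, map_sub, map_smul, sub_eq_zero, smul_eq_mul] at h2
      rw [h2, del_apply]
      ring
    · intro ρ hρ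
      have h1 := hρ r₀
      rw [← del_apply, hr₀, mul_one] at h1
      rw [h1, neg_neg]
  · rintro η ⟨-, h0⟩ hρ
    refine ⟨?_, h0⟩
    intro r hr
    have := hρ ⟨r, hr⟩
    rwa [zero_mul, neg_zero] at this
  · rintro η ⟨hη, h0⟩
    refine ⟨⟨fun p hp => hη p (hle p hp), h0⟩, fun r => ?_⟩
    rw [zero_mul, neg_zero]
    exact hη _ r.2
  · intro a
    obtain ⟨l, hl0, hlr⟩ := exists_fun hR pt
    obtain ⟨η, ⟨hη0, hη⟩, -⟩ := hKDU 0 l (by
      rw [neg_zero]
      exact hl0)
    have hres : ∀ r : R, res (η * (r : KK I A)) = del pt r := fun r => by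
      rw [← hη, hlr]
    refine ⟨(-a) • η, ⟨?_, (Pol I A 0).smul_mem _ hη0⟩, ?_⟩
    · refine (Perp (PT pt 0)).smul_mem _ ?_
      intro p hp
      obtain ⟨r, rfl, hr⟩ := (hP p).1 hp
      rw [hres, del_apply, hr, sub_self]
    · intro r
      rw [smul_mul_assoc, map_smul, hres, del_apply, smul_eq_mul, neg_mul]

end Pool.Agent.MG.G0
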