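import Pool.Agent.MG.G0.StmtsK

/-!
# Elements of `Perp P` with coefficients in an ideal
-/

namespace Pool.Agent.MG.G0

theorem t_PNI (hPPR : Stmt_PPR) : Stmt_PNI := by
  intro I A _ _ _ g P hP J hJ x hx hxJ
  obtain ⟨n, hn⟩ := exists_Pol x
  obtain ⟨s, j, hj⟩ := Submodule.fg_iff_exists_fin_generating_family.1 hJ
  have hc : ∀ i m, ∃ c : Fin s → A, ∑ k, c k * j k = (x i).coeff m := by
    intro i m
    have h1 : (x i).coeff m ∈ Ideal.span (Set.range j) := by
      have h2 : Ideal.span (Set.range j) = J := hj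
      rw [h2]
      exact hxJ i m
    exact Ideal.mem_span_range_iff_exists_fun.1 h1
  choose c hc using hc
  have hb : ∀ k i, BddBelow (Function.support fun m : ℤ => if m < -(n : ℤ) then 0 else c i m k) := by
    intro k i
    refine ⟨-(n : ℤ), fun m hm => ?_⟩
    by_contra h
    exact hm (if_pos (not_le.1 h))
  obtain ⟨y, hy⟩ : ∃ y : Fin s → KK I A, ∀ k i m,
      (y k i).coeff m = if m < -(n : ℤ) then 0 else c i m k :=
    ⟨fun k i => HahnSeries.ofSuppBddBelow _ (hb k i), fun k i m => rfl⟩
  have hxy : x = ∑ k, j k • y k := by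
    funext i
    ext m
    rw [Finset.sum_apply, HahnSeries.coeff_sum]
    have h1 : ∀ k, ((j k • y k) i).coeff m = j k * (if m < -(n : ℤ) then 0 else c i m k) := by
      intro k
      rw [Pi.smul_apply, HahnSeries.coeff_smul, hy, smul_eq_mul]
    simp only [h1]
    by_cases hm : m < -(n : ℤ)
    · simp only [if_pos hm, mul_zero, Finset.sum_const_zero]
      exact hn i m hm
    · simp only [if_neg hm]
      rw [← hc i m]
      exact Finset.sum_congr rfl fun k _ => mul_comm _ _
  obtain ⟨q, hq1, hq2, -, -⟩ := hPPR hP (Classical.arbitrary I)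
  have hx2 : x = ∑ k, j k • q (y k) := by
    have h1 : q x = ∑ k, j k • q (y k) := by
      conv_lhs => rw [hxy]
      rw [map_sum]
      exact Finset.sum_congr rfl fun k _ => map_smul _ _ _
    rw [← h1, hq2 x hx]
  rw [hx2]
  refine Submodule.sum_mem _ fun k _ => Submodule.smul_mem_smul ?_ (hq1 _)
  have h2 : Ideal.span (Set.range j) = J := hj
  rw [← h2]
  exact Ideal.subset_span ⟨k, rfl⟩

end Pool.Agent.MG.G0
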