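import Pool.Agent.MG.G0.StmtsCQ

/-!
# POA: the polarisation and changes of the coordinates (PAPER_Q.md, POX, POA)
-/

open TensorProduct

namespace Pool.Agent.MG.G0

namespace POA

/-- The base change of an algebra and of a compatible change of coordinates. -/
theorem mem_bc_of {I A B : Type} [CommRing A] [CommRing B] (φ : A →+* B)
    (β : KK I A → KK I A) (β' : KK I B →ₗ[B] KK I B)
    (hβ : ∀ f : KK I A, β' (kmap φ f) = kmap φ (β f)) {P P' : Subalgebra A (KK I A)}
    (hP : ∀ f ∈ P, β f ∈ P') {f : KK I B} (hf : f ∈ bc φ P) : β' f ∈ bc φ P' := by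
  refine Submodule.span_induction (p := fun f _ => β' f ∈ bc φ P') ?_ ?_ ?_ ?_
    (mem_bc_span φ P hf)
  · rintro _ ⟨y, hy, rfl⟩
    rw [hβ]
    exact kmap_mem_bc φ (hP y hy)
  · rw [map_zero]
    exact zero_mem _
  · intro y z _ _ h1 h2
    rw [map_add]
    exact add_mem h1 h2
  · intro b y _ h1
    rw [map_smul]
    exact Subalgebra.smul_mem _ h1 b

theorem mem_bc_iff {I A B : Type} [CommRing A] [CommRing B] (φ : A →+* B)
    (α : KK I A ≃ₐ[A] KK I A) (α' : KK I B ≃ₐ[B] KK I B)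
    (h : ∀ f : KK I A, kmap φ (α f) = α' (kmap φ f)) {P P' : Subalgebra A (KK I A)}
    (hP : ∀ f, f ∈ P ↔ α f ∈ P') (f : KK I B) : f ∈ bc φ P ↔ α' f ∈ bc φ P' := by
  constructor
  · intro hf
    exact mem_bc_of φ α α'.toLinearMap (fun f => (h f).symm) (fun f hf => (hP f).1 hf) hf
  · intro hf
    have h1 := mem_bc_of φ α.symm α'.symm.toLinearMap (P := P') (P' := P)
      (fun f => by
        change α'.symm (kmap φ f) = kmap φ (α.symm f)
        rw [AlgEquiv.symm_apply_eq, ← h, AlgEquiv.apply_symm_apply])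
      (fun f hf => by
        rw [hP, AlgEquiv.apply_symm_apply]
        exact hf) hf
    change α'.symm (α' f) ∈ bc φ P at h1
    rwa [AlgEquiv.symm_apply_apply] at h1

/-- The compatibility of the residue pairings extends to the base change. -/
theorem res_ext {I A B : Type} [Fintype I] [CommRing A] [CommRing B] (φ : A →+* B)
    (α : KK I A ≃ₐ[A] KK I A) (α' : KK I B ≃ₐ[B] KK I B)
    (hα' : ∀ (n : ℤ) (f : KK I B), α' f ∈ Pol I B n ↔ f ∈ Pol I B n)
    (h : ∀ f : KK I A, kmap φ (α f) = α' (kmap φ f)) {x x' : KK I A}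
    (hx : ∀ f : KK I A, res (x' * α f) = res (x * f)) (f : KK I B) :
    res (kmap φ x' * α' f) = res (kmap φ x * f) := by
  obtain ⟨n1, hn1⟩ := exists_Pol x
  obtain ⟨n2, hn2⟩ := exists_Pol x'
  obtain ⟨m, hm⟩ := exists_Pol f
  have hn : ∃ n : ℤ, x ∈ Pol I A n ∧ x' ∈ Pol I A n :=
    ⟨max (n1 : ℤ) n2, Pol_mono (le_max_left _ _) hn1, Pol_mono (le_max_right _ _) hn2⟩
  obtain ⟨n, hx1, hx2⟩ := hn
  have hr := sub_mon_mem_Pol hm n
  set s : KK I B := ∑ i, ∑ l ∈ Finset.Ico (-(m : ℤ)) n, mon i l ((f i).coeff l) with hs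
  -- the monomials
  have hmon : ∀ (i : I) (l : ℤ) (b : B),
      res (kmap φ x' * α' (mon i l b)) = res (kmap φ x * mon i l b) := by
    intro i l b
    have h1 : mon i l b = b • kmap φ (mon i l (1 : A)) := by
      rw [kmap_mon, map_one, smul_mon, mul_one]
    rw [h1, map_smul, ← h, mul_smul_comm, mul_smul_comm, map_smul, map_smul, ← map_mul,
      ← map_mul, res_kmap, res_kmap, hx]
  have hsum : res (kmap φ x' * α' s) = res (kmap φ x * s) := by
    rw [hs, map_sum, Finset.mul_sum, Finset.mul_sum, map_sum, map_sum]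
    refine Finset.sum_congr rfl fun i _ => ?_
    rw [map_sum, Finset.mul_sum, Finset.mul_sum, map_sum, map_sum]
    exact Finset.sum_congr rfl fun l _ => hmon i l _
  have hz : ∀ {y : KK I A} {r : KK I B}, y ∈ Pol I A n → r ∈ Pol I B (-n) →
      res (kmap φ y * r) = 0 := by
    intro y r hy hr
    have h2 := mul_mem_Pol (kmap_mem_Pol φ hy) hr
    rw [add_neg_cancel] at h2
    exact res_Pol0 h2
  have h3 := hz hx1 hr
  have h4 := hz hx2 ((hα' _ _).2 hr)
  rw [mul_sub, map_sub, sub_eq_zero] at h3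
  rw [map_sub, mul_sub, map_sub, sub_eq_zero] at h4
  rw [h3, h4, hsum]

/-- Related quadratic differentials give related functionals after base change. -/
theorem Lq_rel {I A B : Type} [Fintype I] [CommRing A] [CommRing B] (φ : A →+* B)
    (α : KK I A ≃ₐ[A] KK I A) (α' : KK I B ≃ₐ[B] KK I B)
    (hα' : ∀ (n : ℤ) (f : KK I B), α' f ∈ Pol I B n ↔ f ∈ Pol I B n)
    (h : ∀ f : KK I A, kmap φ (α f) = α' (kmap φ f)) {P P' : Subalgebra A (KK I A)}
    {z : QD P × QD P'} (hz : z ∈ QA α P P') {D : DD (bc φ P)} {E : DD (bc φ P')}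
    (hDE : RelA α' D E) :
    Lq (bc φ P') (bcQ φ P' z.2) E = Lq (bc φ P) (bcQ φ P z.1) D := by
  refine Submodule.span_induction
    (p := fun z _ => Lq (bc φ P') (bcQ φ P' z.2) E = Lq (bc φ P) (bcQ φ P z.1) D)
    ?_ ?_ ?_ ?_ hz
  · rintro _ ⟨x, g, x', g', hx, hg, rfl⟩
    change Lq (bc φ P') (bcQ φ P' (x' ⊗ₜ g')) E = Lq (bc φ P) (bcQ φ P (x ⊗ₜ g)) D
    rw [bcQ_tmul, bcQ_tmul, Lq_tmul, Lq_tmul]
    obtain ⟨f, hf⟩ := mk_surj (bc φ P) (D (bcMap φ P g))
    have h1 : E (bcMap φ P' g') = mk (bc φ P') (α' f) := by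
      refine hDE (bcMap φ P g) (bcMap φ P' g') f ?_ hf.symm
      rw [bcMap_val, bcMap_val, hg, h]
    rw [h1, ← hf, rq_mk, rq_mk]
    exact res_ext φ α α' hα' h hx f
  · change Lq (bc φ P') (bcQ φ P' 0) E = Lq (bc φ P) (bcQ φ P 0) D
    rw [map_zero, map_zero, map_zero, map_zero, LinearMap.zero_apply, LinearMap.zero_apply]
  · intro y z _ _ h1 h2
    change Lq (bc φ P') (bcQ φ P' (y.2 + z.2)) E = Lq (bc φ P) (bcQ φ P (y.1 + z.1)) D
    rw [map_add, map_add, map_add, map_add, LinearMap.add_apply, LinearMap.add_apply, h1, h2]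
  · intro a y _ h1
    change Lq (bc φ P') (bcQ φ P' (a • y.2)) E = Lq (bc φ P) (bcQ φ P (a • y.1)) D
    rw [map_smulₛₗ (bcQ φ P'), map_smulₛₗ (bcQ φ P), map_smul, map_smul, LinearMap.smul_apply,
      LinearMap.smul_apply, h1]

/-- The value at a covector of a linear combination. -/
theorem cov_sum {I A B ι : Type} [Fintype I] [Fintype ι] [CommRing A] [CommRing B] (φ : A →+* B)
    (P : Subalgebra A (KK I A)) (q : ι → QR P) (y : ι → B) (D : DD (bc φ P)) :
    (cov (bc φ P) (∑ i, y i • bcR φ P (q i))).1 D =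
      ∑ i, y i * Lq (bc φ P) (bcQ φ P (q i)) D := by
  rw [cov_apply, Submodule.coe_sum, map_sum, LinearMap.sum_apply]
  refine Finset.sum_congr rfl fun i _ => ?_
  rw [Submodule.coe_smul, map_smul, LinearMap.smul_apply, smul_eq_mul]
  rfl

end POA

theorem t_POA (hGBC : Stmt_GBC) : Stmt_POA := by
  intro g E I A _ _ _ _ k α α' _ hα' h P P' hG hG' hP q q' hq
  have h1 := E.aut α' hα' (bc MvPolynomial.C P) (bc MvPolynomial.C P')
    (hGBC MvPolynomial.C g P hG) (hGBC MvPolynomial.C g P' hG')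
    (POA.mem_bc_iff MvPolynomial.C α α' h hP)
    (cov _ (∑ i, (MvPolynomial.X i : MvPolynomial (Fin k) A) •
        bcR (MvPolynomial.C : A →+* MvPolynomial (Fin k) A) P (q i)))
    (cov _ (∑ i, (MvPolynomial.X i : MvPolynomial (Fin k) A) •
        bcR (MvPolynomial.C : A →+* MvPolynomial (Fin k) A) P' (q' i)))
    (fun D D' hD => by
      rw [POA.cov_sum, POA.cov_sum]
      refine Finset.sum_congr rfl fun i _ => ?_
      rw [POA.Lq_rel MvPolynomial.C α α' hα' h (hq i) hD])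
  unfold Fk
  rw [h1]

end Pool.Agent.MG.G0
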