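import Pool.Agent.MG.G0.PSU

/-!
# POL: polarisation (PAPER_Q.md)
-/

open TensorProduct MvPolynomial

namespace Pool.Agent.MG.G0

namespace POL

theorem ones_apply {k : ℕ} (j : Fin k) : ones k j = 1 := rfl

section

variable {A : Type} [CommRing A] [Algebra ℂ A]

/-- A substitution. -/
noncomputable def sub {ι κ : Type} (f : ι → MvPolynomial κ A) :
    MvPolynomial ι A →ₐ[ℂ] MvPolynomial κ A :=
  (aeval f : MvPolynomial ι A →ₐ[A] MvPolynomial κ A).restrictScalars ℂ

theorem sub_C {ι κ : Type} (f : ι → MvPolynomial κ A) (a : A) : sub f (C a) = C a := by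
  change aeval f (C a) = C a
  rw [aeval_C]
  rfl

theorem sub_X {ι κ : Type} (f : ι → MvPolynomial κ A) (i : ι) : sub f (X i) = f i := by
  change aeval f (X i) = f i
  rw [aeval_X]

theorem sub_monomial {ι κ : Type} [Fintype ι] (f : ι → MvPolynomial κ A) (d : ι →₀ ℕ) (c : A) :
    sub f (monomial d c) = C c * ∏ i, f i ^ d i := by
  change aeval f (monomial d c) = _
  rw [aeval_monomial, Finsupp.prod_fintype _ _ fun i => pow_zero _]
  rfl

theorem prod_X {ι : Type} [Fintype ι] (d : ι → ℕ) (c : A) :
    (C c * ∏ i, (X i : MvPolynomial ι A) ^ d i) =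
      monomial (Finsupp.equivFunOnFinite.symm d) c := by
  rw [monomial_eq, Finsupp.prod_fintype _ _ fun i => pow_zero _]
  rfl

/-- Scaling of the variables. -/
theorem coeff_scale {ι : Type} [Fintype ι] (a : ι → A) (F : MvPolynomial ι A) (d : ι →₀ ℕ) :
    coeff d (sub (fun i => C (a i) * X i) F) = (∏ i, a i ^ d i) * coeff d F := by
  classical
  induction F using MvPolynomial.induction_on' with
  | monomial e c =>
    rw [sub_monomial]
    simp only [mul_pow, Finset.prod_mul_distrib]
    have h1 : ∏ i, (C (a i) : MvPolynomial ι A) ^ e i = C (∏ i, a i ^ e i) := by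
      rw [map_prod]
      simp only [map_pow]
    rw [h1, mul_left_comm, prod_X]
    have h2 : Finsupp.equivFunOnFinite.symm (e : ι → ℕ) = e := by
      ext i
      rfl
    rw [h2, coeff_C_mul, coeff_monomial]
    split_ifs with h
    · rw [h]
    · rw [mul_zero, mul_zero]
  | add p q hp hq => rw [map_add, coeff_add, coeff_add, hp, hq, mul_add]

/-- The three substitutions for additivity. -/
theorem coeff_add3 {k : ℕ} (i : Fin k) (F : MvPolynomial (Fin k ⊕ Unit) A) :
    coeff (ones k) (sub (Sum.elim (fun j => (X j : MvPolynomial (Fin k) A)) fun _ => X i) F) =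
      coeff (ones k) (sub (Sum.elim (fun j => (X j : MvPolynomial (Fin k) A)) fun _ => 0) F) +
      coeff (ones k) (sub (Sum.elim (fun j => if j = i then 0 else
        (X j : MvPolynomial (Fin k) A)) fun _ => X i) F) := by
  classical
  induction F using MvPolynomial.induction_on' with
  | monomial d c =>
    rw [sub_monomial, sub_monomial, sub_monomial, Fintype.prod_sum_type, Fintype.prod_sum_type,
      Fintype.prod_sum_type]
    simp only [Sum.elim_inl, Sum.elim_inr, Finset.univ_unique, Finset.prod_singleton]
    change coeff (ones k) (C c * ((∏ j : Fin k, X j ^ d (Sum.inl j)) * X i ^ d (Sum.inr ()))) =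
      coeff (ones k) (C c * ((∏ j : Fin k, X j ^ d (Sum.inl j)) * 0 ^ d (Sum.inr ()))) +
      coeff (ones k) (C c * ((∏ j : Fin k, (if j = i then 0 else X j) ^ d (Sum.inl j)) *
        X i ^ d (Sum.inr ())))
    have hX : (X i : MvPolynomial (Fin k) A) ^ d (Sum.inr ()) =
        ∏ j, X j ^ (if j = i then d (Sum.inr ()) else 0) := by
      rw [Finset.prod_eq_single i, if_pos rfl]
      · intro j _ hj
        rw [if_neg hj, pow_zero]
      · intro h
        exact absurd (Finset.mem_univ i) h
    have h1 : C c * ((∏ j : Fin k, (X j : MvPolynomial (Fin k) A) ^ d (Sum.inl j)) *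
        X i ^ d (Sum.inr ())) = monomial (Finsupp.equivFunOnFinite.symm fun j =>
          d (Sum.inl j) + if j = i then d (Sum.inr ()) else 0) c := by
      rw [hX, ← Finset.prod_mul_distrib, ← prod_X]
      simp only [pow_add]
    by_cases hb : d (Sum.inr ()) = 0
    · have h3 : coeff (ones k) (C c * ((∏ j : Fin k, (if j = i then 0 else
          (X j : MvPolynomial (Fin k) A)) ^ d (Sum.inl j)) * X i ^ d (Sum.inr ()))) = 0 := by
        by_cases ha : d (Sum.inl i) = 0
        · have h4 : (∏ j : Fin k, (if j = i then 0 else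
              (X j : MvPolynomial (Fin k) A)) ^ d (Sum.inl j)) =
              ∏ j : Fin k, (X j : MvPolynomial (Fin k) A) ^ d (Sum.inl j) := by
            refine Finset.prod_congr rfl fun j _ => ?_
            split_ifs with h
            · rw [h, ha, pow_zero, pow_zero]
            · rfl
          rw [h4, h1, coeff_monomial, if_neg]
          intro h5
          have h6 := DFunLike.congr_fun h5 i
          rw [ones_apply] at h6
          change d (Sum.inl i) + (if i = i then d (Sum.inr ()) else 0) = 1 at h6
          rw [if_pos rfl, ha, hb] at h6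
          exact absurd h6 (by norm_num)
        · rw [Finset.prod_eq_zero (Finset.mem_univ i) (by rw [if_pos rfl, zero_pow ha]), zero_mul,
            mul_zero, coeff_zero]
      rw [h3, add_zero, hb, pow_zero, pow_zero]
    · rw [zero_pow hb, mul_zero, mul_zero, coeff_zero, zero_add]
      by_cases ha : d (Sum.inl i) = 0
      · have h4 : (∏ j : Fin k, (if j = i then 0 else
            (X j : MvPolynomial (Fin k) A)) ^ d (Sum.inl j)) =
            ∏ j : Fin k, (X j : MvPolynomial (Fin k) A) ^ d (Sum.inl j) := by
          refine Finset.prod_congr rfl fun j _ => ?_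
          split_ifs with h
          · rw [h, ha, pow_zero, pow_zero]
          · rfl
        rw [h4]
      · rw [Finset.prod_eq_zero (f := fun j => (if j = i then 0 else
            (X j : MvPolynomial (Fin k) A)) ^ d (Sum.inl j)) (Finset.mem_univ i)
            (by rw [if_pos rfl, zero_pow ha]), zero_mul,
            mul_zero, coeff_zero, h1, coeff_monomial, if_neg]
        intro h5
        have h6 := DFunLike.congr_fun h5 i
        rw [ones_apply] at h6
        change d (Sum.inl i) + (if i = i then d (Sum.inr ()) else 0) = 1 at h6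
        rw [if_pos rfl] at h6
        omega
  | add p q hp hq =>
    rw [map_add, map_add, map_add, coeff_add, coeff_add, coeff_add, hp, hq]
    ring

/-- The substitution `y ↦ y_1 + ... + y_m`. -/
theorem coeff_sumX (m : ℕ) : ∃ N : ℕ, 0 < N ∧ ∀ G : MvPolynomial Unit A,
    coeff (ones m) (sub (fun _ : Unit => ∑ j : Fin m, (X j : MvPolynomial (Fin m) A)) G) =
      N * coeff (Finsupp.single () m) G := by
  classical
  set S : Finset (Fin m → Fin m) := Finset.univ.filter fun f =>
    ∑ l, (Finsupp.single (f l) 1 : Fin m →₀ ℕ) = ones m with hS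
  refine ⟨S.card, Finset.card_pos.2 ⟨id, ?_⟩, fun G => ?_⟩
  · rw [hS, Finset.mem_filter]
    refine ⟨Finset.mem_univ _, ?_⟩
    ext j
    rw [ones_apply, Finsupp.finsetSum_apply, Finset.sum_eq_single j]
    · exact Finsupp.single_eq_same
    · intro l _ hl
      exact Finsupp.single_eq_of_ne (Ne.symm hl)
    · intro h
      exact absurd (Finset.mem_univ j) h
  induction G using MvPolynomial.induction_on' with
  | monomial d c =>
    rw [sub_monomial]
    simp only [Finset.univ_unique, Finset.prod_singleton]
    change coeff (ones m) (C c * (∑ j : Fin m, X j) ^ d ()) = _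
    rw [coeff_C_mul, Fintype.sum_pow, MvPolynomial.coeff_sum]
    have h1 : ∀ (n : ℕ) (p : Fin n → Fin m), (∏ l, (X (p l) : MvPolynomial (Fin m) A)) =
        monomial (∑ l, Finsupp.single (p l) 1) 1 := by
      intro n p
      rw [monomial_sum_one]
      rfl
    have h2 : coeff (Finsupp.single () m) (monomial d c) = if d () = m then c else 0 := by
      rw [coeff_monomial]
      refine if_congr ?_ rfl rfl
      constructor
      · intro h
        rw [h]
        exact Finsupp.single_eq_same
      · intro h
        ext
        rw [← h]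
        exact Finsupp.single_eq_same.symm
    rw [h2]
    simp only [h1, coeff_monomial]
    split_ifs with h
    · rw [h, Finset.sum_boole, hS, mul_comm]
    · rw [mul_zero, Finset.sum_eq_zero, mul_zero]
      intro p _
      rw [if_neg]
      intro h3
      apply h
      have h4 := congrArg Finsupp.degree h3
      rw [map_sum] at h4
      simp only [Finsupp.degree_single, Finset.sum_const, Finset.card_univ, Fintype.card_fin,
        smul_eq_mul, mul_one] at h4
      rw [h4, Finsupp.degree_eq_sum]
      simp [ones_apply]
  | add p q hp hq =>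
    rw [map_add, coeff_add, coeff_add, hp, hq, mul_add]

end

section

variable {g : ℕ} (E : Ev g) {I A : Type} [Fintype I] [Nonempty I] [CommRing A] [Algebra ℂ A]

/-- Substitutions in polynomials over the same ring. -/
theorem Fx_sub (hPSU : Stmt_PSU) (P : Subalgebra A (KK I A)) (hP : Good g P) {ι κ : Type}
    [Fintype ι] [Fintype κ] (q : ι → QR P) (f : ι → MvPolynomial κ A) :
    E.Φ (MvPolynomial κ A) I (bc C P) (cov (bc C P) (∑ i, f i • bcR C P (q i))) =
      sub f (Fx E P q) := by
  have h := hPSU E P hP q (C : A →+* MvPolynomial κ A) (sub f) (sub_C f)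
  rw [← h]
  congr 2
  refine Finset.sum_congr rfl fun i _ => ?_
  rw [sub_X]

theorem Fk_smul (hPSU : Stmt_PSU) (P : Subalgebra A (KK I A)) (hP : Good g P) {k : ℕ}
    (q q' : Fin k → QR P) (a : Fin k → A) (h : ∀ i, q' i = a i • q i) :
    Fk E P q' = (∏ i, a i) * Fk E P q := by
  rw [Fk_eq, Fk_eq]
  have h1 := Fx_sub E hPSU P hP q fun i => C (a i) * X i
  have h2 : Fx E P q' = sub (fun i => C (a i) * X i) (Fx E P q) := by
    rw [← h1, Fx]
    congr 2
    refine Finset.sum_congr rfl fun i _ => ?_
    rw [h i, map_smulₛₗ, smul_smul, mul_comm]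
  rw [h2, coeff_scale]
  congr 1
  refine Finset.prod_congr rfl fun i _ => ?_
  rw [ones_apply, pow_one]

theorem Fk_add (hPSU : Stmt_PSU) (P : Subalgebra A (KK I A)) (hP : Good g P) {k : ℕ}
    (q q' q'' : Fin k → QR P) (i : Fin k) (h1 : ∀ j, j ≠ i → q j = q' j)
    (h2 : ∀ j, j ≠ i → q j = q'' j) (h3 : q i = q' i + q'' i) :
    Fk E P q = Fk E P q' + Fk E P q'' := by
  classical
  set r : Fin k ⊕ Unit → QR P := Sum.elim q' fun _ => q'' i with hr
  have e1 : Fx E P q =
      sub (Sum.elim (fun j => (X j : MvPolynomial (Fin k) A)) fun _ => X i) (Fx E P r) := by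
    rw [← Fx_sub E hPSU P hP r, Fx, Fintype.sum_sum_type]
    congr 2
    simp only [Sum.elim_inl, Sum.elim_inr, Finset.univ_unique, Finset.sum_singleton, hr]
    rw [← Finset.add_sum_erase _ _ (Finset.mem_univ i),
      ← Finset.add_sum_erase _ _ (Finset.mem_univ i), h3, map_add, smul_add]
    have h4 : ∑ x ∈ Finset.univ.erase i, (X x : MvPolynomial (Fin k) A) •
          (bcR (C : A →+* MvPolynomial (Fin k) A) P) (q x) =
        ∑ x ∈ Finset.univ.erase i, (X x : MvPolynomial (Fin k) A) •
          (bcR (C : A →+* MvPolynomial (Fin k) A) P) (q' x) :=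
      Finset.sum_congr rfl fun j hj => by rw [h1 j (Finset.ne_of_mem_erase hj)]
    rw [h4]
    abel
  have e2 : Fx E P q' =
      sub (Sum.elim (fun j => (X j : MvPolynomial (Fin k) A)) fun _ => 0) (Fx E P r) := by
    rw [← Fx_sub E hPSU P hP r, Fx, Fintype.sum_sum_type]
    congr 2
    simp only [Sum.elim_inl, Sum.elim_inr, Finset.univ_unique, Finset.sum_singleton, hr,
      zero_smul, add_zero]
  have e3 : Fx E P q'' =
      sub (Sum.elim (fun j => if j = i then 0 else (X j : MvPolynomial (Fin k) A))
        fun _ => X i) (Fx E P r) := by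
    rw [← Fx_sub E hPSU P hP r, Fx, Fintype.sum_sum_type]
    congr 2
    simp only [Sum.elim_inl, Sum.elim_inr, Finset.univ_unique, Finset.sum_singleton, hr]
    rw [← Finset.add_sum_erase _ _ (Finset.mem_univ i),
      ← Finset.add_sum_erase _ _ (Finset.mem_univ i), if_pos rfl, zero_smul, zero_add]
    have h4 : ∑ x ∈ Finset.univ.erase i, (X x : MvPolynomial (Fin k) A) •
          (bcR (C : A →+* MvPolynomial (Fin k) A) P) (q'' x) =
        ∑ x ∈ Finset.univ.erase i, (if x = i then 0 else (X x : MvPolynomial (Fin k) A)) •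
          (bcR (C : A →+* MvPolynomial (Fin k) A) P) (q' x) :=
      Finset.sum_congr rfl fun j hj => by
        rw [if_neg (Finset.ne_of_mem_erase hj), ← h1 j (Finset.ne_of_mem_erase hj),
          ← h2 j (Finset.ne_of_mem_erase hj)]
    rw [h4]
    abel
  rw [Fk_eq, Fk_eq, Fk_eq, e1, e2, e3]
  exact coeff_add3 i _

end

end POL

theorem t_POL (hPSU : Stmt_PSU) (hKBC : Stmt_KBC) : Stmt_POL := by
  classical
  intro g E I A _ _ _ _ P hP
  refine ⟨?_, ?_, ?_, ?_⟩
  · intro B _ _ φ k q
    set σ : MvPolynomial (Fin k) A →ₐ[ℂ] MvPolynomial (Fin k) B := mapAlgHom φ with hσ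
    set φ' : A →+* MvPolynomial (Fin k) B := (C : B →+* MvPolynomial (Fin k) B).comp
      (φ : A →+* B) with hφ'
    have hc : ∀ a, σ (C a) = φ' a := fun a => by
      rw [hσ, mapAlgHom_apply, map_C]
      rfl
    have h1 := hPSU E P hP q φ' σ hc
    have hbc : bc (C : B →+* MvPolynomial (Fin k) B) (bc (φ : A →+* B) P) = bc φ' P :=
      (hKBC.2.1 (φ : A →+* B) C P).symm
    have h2 := PSU.Phi_incR E hbc (∑ i, (X i : MvPolynomial (Fin k) B) •
      bcR C (bc (φ : A →+* B) P) (bcR (φ : A →+* B) P (q i)))
    have h3 : PSU.incR hbc (∑ i, (X i : MvPolynomial (Fin k) B) •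
        bcR C (bc (φ : A →+* B) P) (bcR (φ : A →+* B) P (q i))) =
        ∑ i, σ (X i) • bcR φ' P (q i) := by
      rw [map_sum]
      refine Finset.sum_congr rfl fun i _ => ?_
      rw [map_smul, PSU.incR_bcR (φ : A →+* B) C φ' P hbc fun _ => rfl]
      congr 1
      rw [hσ, mapAlgHom_apply, map_X]
    rw [h3, h1] at h2
    rw [Fk_eq, Fk_eq]
    change coeff (ones k) (E.Φ (MvPolynomial (Fin k) B) I _ (cov _ (∑ i,
      (X i : MvPolynomial (Fin k) B) • bcR C (bc (φ : A →+* B) P)
        (bcR (φ : A →+* B) P (q i))))) = _
    rw [← h2, hσ]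
    exact coeff_map (φ : A →+* B) (Fx E P q) (ones k)
  · intro k
    refine ⟨{ toFun := fun q => Fk E P q
              map_update_add' := ?_
              map_update_smul' := ?_ }, fun q => rfl⟩
    · intro _ q i x y
      refine POL.Fk_add E hPSU P hP _ _ _ i ?_ ?_ ?_
      · intro j hj
        rw [Function.update_of_ne hj, Function.update_of_ne hj]
      · intro j hj
        rw [Function.update_of_ne hj, Function.update_of_ne hj]
      · rw [Function.update_self, Function.update_self, Function.update_self]
    · intro _ q i c x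
      rw [POL.Fk_smul E hPSU P hP (Function.update q i x) (Function.update q i (c • x))
        (Function.update 1 i c)]
      · rw [Finset.prod_update_of_mem (Finset.mem_univ i)]
        simp
      · intro j
        rcases eq_or_ne j i with rfl | hj
        · rw [Function.update_self, Function.update_self, Function.update_self]
        · rw [Function.update_of_ne hj, Function.update_of_ne hj, Function.update_of_ne hj,
            Pi.one_apply, one_smul]
  · intro k q i hi
    have h1 := POL.Fx_sub E hPSU P hP q fun j => C ((Function.update 1 i 0 : Fin k → A) j) * X j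
    have h2 : cov (bc C P) (∑ j, (C ((Function.update 1 i 0 : Fin k → A) j) * X j :
        MvPolynomial (Fin k) A) • bcR (C : A →+* MvPolynomial (Fin k) A) P (q j)) =
        cov (bc C P) (∑ j, (X j : MvPolynomial (Fin k) A) •
          bcR (C : A →+* MvPolynomial (Fin k) A) P (q j)) := by
      rw [map_sum, map_sum]
      refine Finset.sum_congr rfl fun j _ => ?_
      rw [map_smul, map_smul]
      rcases eq_or_ne j i with rfl | hj
      · rw [hi, smul_zero, smul_zero]
      · rw [Function.update_of_ne hj, Pi.one_apply, map_one, one_mul]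
    rw [h2] at h1
    rw [Fk_eq]
    change Fx E P q = _ at h1
    rw [h1, POL.coeff_scale]
    rw [Finset.prod_eq_zero (Finset.mem_univ i), zero_mul]
    rw [Function.update_self, POL.ones_apply, pow_one]
  · intro q hq
    set G := Fx E P fun _ : Unit => q with hG
    have h1 : ∀ m : ℕ, 1 ≤ m → coeff (Finsupp.single () m) G = 0 := by
      intro m hm
      obtain ⟨N, hN, h2⟩ := POL.coeff_sumX (A := A) m
      have h3 := POL.Fx_sub E hPSU P hP (fun _ : Unit => q) fun _ : Unit =>
        ∑ j : Fin m, (X j : MvPolynomial (Fin m) A)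
      have h4 : ∑ i : Unit, (∑ j : Fin m, (X j : MvPolynomial (Fin m) A)) •
            bcR (C : A →+* MvPolynomial (Fin m) A) P q =
          ∑ j : Fin m, (X j : MvPolynomial (Fin m) A) •
            bcR (C : A →+* MvPolynomial (Fin m) A) P q := by
        rw [Finset.univ_unique, Finset.sum_singleton, Finset.sum_smul]
      rw [h4] at h3
      have h5 := h2 G
      rw [← h3] at h5
      have h6 := hq m hm
      rw [Fk_eq] at h6
      change coeff (ones m) (Fx E P fun _ : Fin m => q) = _ at h5
      rw [h6] at h5
      have h7 : IsUnit (N : A) := by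
        have h8 : IsUnit (N : ℂ) := (Nat.cast_ne_zero.2 hN.ne').isUnit
        have h9 := h8.map (algebraMap ℂ A)
        rwa [map_natCast] at h9
      exact (h7.mul_right_eq_zero).1 h5.symm
    have h2 : G = C (coeff 0 G) := by
      ext d
      rw [coeff_C]
      split_ifs with h
      · rw [← h]
      · have h3 : d = Finsupp.single () (d ()) := by
          ext
          exact Finsupp.single_eq_same.symm
        rw [h3]
        refine h1 _ (Nat.one_le_iff_ne_zero.2 fun h4 => h ?_)
        rw [h3, h4, Finsupp.single_zero]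
    have h3 : bc (RingHom.id A) P = P := hKBC.2.2.1 P
    have h4 : ∀ c : A, E.Φ A I P (cov P (c • q)) = coeff 0 G := by
      intro c
      have h5 := hPSU E P hP (fun _ : Unit => q) (RingHom.id A)
        ((aeval fun _ : Unit => c : MvPolynomial Unit A →ₐ[A] A).restrictScalars ℂ) fun a => by
          change aeval _ (C a) = a
          rw [aeval_C]
          rfl
      have h6 : ((aeval fun _ : Unit => c : MvPolynomial Unit A →ₐ[A] A).restrictScalars ℂ)
          (Fx E P fun _ : Unit => q) = coeff 0 G := by
        change aeval _ G = _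
        conv_lhs => rw [h2]
        rw [aeval_C]
        rfl
      have h7 : ∑ i : Unit, ((aeval fun _ : Unit => c : MvPolynomial Unit A →ₐ[A]
          A).restrictScalars ℂ) (X i) • bcR (RingHom.id A) P q =
          c • bcR (RingHom.id A) P q := by
        rw [Finset.univ_unique, Finset.sum_singleton]
        change aeval _ (X _) • _ = _
        rw [aeval_X]
      rw [h6] at h5
      rw [h7] at h5
      rw [← h5, ← PSU.Phi_incR E h3, map_smul (PSU.incR h3), PSU.incR_id]
    have h5 := h4 1
    have h6 := h4 0
    rw [one_smul] at h5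
    rw [zero_smul, map_zero] at h6
    rw [h5, h6]

end Pool.Agent.MG.G0
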