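import Pool.Agent.MG.G0.StmtsCQ

/-!
# POX: the polarisation and the change of the index set
-/

open TensorProduct

namespace Pool.Agent.MG.G0

namespace POX

section

variable {I I' A B : Type} [CommRing A] [CommRing B]

/-- The base change of `reix e P`. -/
theorem bc_reix (φ : A →+* B) (e : I' ≃ I) (P : Subalgebra A (KK I A)) :
    bc φ (reix e P) = reix e (bc φ P) := by
  apply le_antisymm
  · refine Algebra.adjoin_le ?_
    rintro _ ⟨f, hf, rfl⟩
    exact kmap_mem_bc φ (P := P) (f := fun i => f (e.symm i)) hf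
  · intro f hf
    have h1 : (fun i => f (e.symm i)) ∈ Submodule.span B (kmap φ '' (P : Set (KK I A))) :=
      mem_bc_span φ P hf
    have h2 : ∀ y ∈ Submodule.span B (kmap φ '' (P : Set (KK I A))),
        (fun i => y (e i)) ∈ bc φ (reix e P) := by
      intro y hy
      refine Submodule.span_induction (p := fun y _ => (fun i => y (e i)) ∈ bc φ (reix e P))
        ?_ ?_ ?_ ?_ hy
      · rintro _ ⟨f, hf, rfl⟩
        refine kmap_mem_bc φ (P := reix e P) (f := fun i => f (e i)) ?_
        change (fun i => f (e (e.symm i))) ∈ P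
        have h3 : (fun i => f (e (e.symm i))) = f := funext fun i => by rw [e.apply_symm_apply]
        rw [h3]
        exact hf
      · exact zero_mem (bc φ (reix e P))
      · intro x y _ _ hx hy
        exact add_mem hx hy
      · intro c x _ hx
        exact Subalgebra.smul_mem _ hx c
    have h4 := h2 _ h1
    have h5 : (fun i => (fun j => f (e.symm j)) (e i)) = f := funext fun i => by
      change f (e.symm (e i)) = f i
      rw [e.symm_apply_apply]
    rw [h5] at h4
    exact h4

variable [Fintype I] [Fintype I']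

theorem res_reix (e : I' ≃ I) (f : KK I A) : res (fun i => f (e i)) = res f :=
  Equiv.sum_comp e fun i => (f i).coeff (-1)

/-- The functionals of corresponding quadratic differentials agree. -/
theorem Lq_eq (e : I' ≃ I) {P : Subalgebra A (KK I A)} {P' : Subalgebra A (KK I' A)}
    {D : DD P} {E : DD P'} (h : RelI e D E) {z : QD P × QD P'} (hz : z ∈ QI e P P') :
    Lq P' z.2 E = Lq P z.1 D := by
  refine Submodule.span_induction (p := fun z _ => Lq P' z.2 E = Lq P z.1 D) ?_ ?_ ?_ ?_ hz
  · rintro _ ⟨x, g, x', g', hx, hg, rfl⟩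
    obtain ⟨r, hr⟩ := mk_surj P (D g)
    have h1 := h g g' r hg hr.symm
    change rq x' (E g') = rq x (D g)
    rw [h1, ← hr, rq_mk, rq_mk, ← res_reix e ((x : KK I A) * r)]
    congr 1
    funext i
    change (x' : KK I' A) i * r (e i) = (x : KK I A) (e i) * r (e i)
    rw [hx]
  · change Lq P' 0 E = Lq P 0 D
    rw [map_zero, map_zero]
    rfl
  · intro y z _ _ hy hz
    change Lq P' (y.2 + z.2) E = Lq P (y.1 + z.1) D
    rw [map_add, map_add, LinearMap.add_apply, LinearMap.add_apply, hy, hz]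
  · intro c y _ hy
    change Lq P' (c • y.2) E = Lq P (c • y.1) D
    rw [map_smul, map_smul, LinearMap.smul_apply, LinearMap.smul_apply, hy]

/-- Base change of corresponding quadratic differentials. -/
theorem bcQ_mem (φ : A →+* B) (e : I' ≃ I) {P : Subalgebra A (KK I A)}
    {P' : Subalgebra A (KK I' A)} {z : QD P × QD P'} (hz : z ∈ QI e P P') :
    (bcQ φ P z.1, bcQ φ P' z.2) ∈ QI e (bc φ P) (bc φ P') := by
  refine Submodule.span_induction
    (p := fun z _ => (bcQ φ P z.1, bcQ φ P' z.2) ∈ QI e (bc φ P) (bc φ P')) ?_ ?_ ?_ ?_ hz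
  · rintro _ ⟨x, g, x', g', hx, hg, rfl⟩
    refine Submodule.subset_span ⟨⟨kmap φ x, kmap_mem_Perp φ x.2⟩, bcMap φ P g,
      ⟨kmap φ x', kmap_mem_Perp φ x'.2⟩, bcMap φ P' g', fun i => ?_, fun i => ?_, rfl⟩
    · change lmap φ ((x' : KK I' A) i) = lmap φ ((x : KK I A) (e i))
      rw [hx]
    · change lmap φ ((g' : KK I' A) i) = lmap φ ((g : KK I A) (e i))
      rw [hg]
  · change (bcQ φ P 0, bcQ φ P' 0) ∈ _
    rw [map_zero, map_zero]
    exact zero_mem _
  · intro y z _ _ hy hz
    change (bcQ φ P (y.1 + z.1), bcQ φ P' (y.2 + z.2)) ∈ _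
    rw [map_add, map_add]
    exact add_mem hy hz
  · intro c y _ hy
    change (bcQ φ P (c • y.1), bcQ φ P' (c • y.2)) ∈ _
    rw [map_smulₛₗ, map_smulₛₗ]
    exact Submodule.smul_mem _ (φ c) hy

/-- A sum of multiples of base changes. -/
theorem coe_sum {k : ℕ} (φ : A →+* B) (P : Subalgebra A (KK I A)) (c : Fin k → B)
    (q : Fin k → QR P) :
    ((∑ i, c i • bcR φ P (q i) : QR (bc φ P)) : QD (bc φ P)) = ∑ i, c i • bcQ φ P (q i) := by
  rw [AddSubmonoidClass.coe_finsetSum]
  rfl

end

end POX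

theorem t_POX (hGBC : Stmt_GBC) : Stmt_POX := by
  intro g E I I' A _ _ _ _ _ _ e P P' hP hP' hPP k q q' hq
  have h1 := hGBC (MvPolynomial.C (R := A) (σ := Fin k)) g P hP
  have h2 := hGBC (MvPolynomial.C (R := A) (σ := Fin k)) g P' hP'
  have h3 : bc (MvPolynomial.C (R := A) (σ := Fin k)) P' =
      reix e (bc (MvPolynomial.C (R := A) (σ := Fin k)) P) := by
    rw [hPP, POX.bc_reix]
  have h4 : ((∑ i, (MvPolynomial.X i : MvPolynomial (Fin k) A) •
        bcQ (MvPolynomial.C (R := A) (σ := Fin k)) P (q i)),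
      (∑ i, (MvPolynomial.X i : MvPolynomial (Fin k) A) •
        bcQ (MvPolynomial.C (R := A) (σ := Fin k)) P' (q' i))) ∈
      QI e (bc (MvPolynomial.C (R := A) (σ := Fin k)) P)
        (bc (MvPolynomial.C (R := A) (σ := Fin k)) P') := by
    have h5 := Submodule.sum_mem (QI e (bc (MvPolynomial.C (R := A) (σ := Fin k)) P)
      (bc (MvPolynomial.C (R := A) (σ := Fin k)) P')) (t := Finset.univ)
      (f := fun i => (MvPolynomial.X i : MvPolynomial (Fin k) A) •
        (bcQ (MvPolynomial.C (R := A) (σ := Fin k)) P (q i : QD P),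
          bcQ (MvPolynomial.C (R := A) (σ := Fin k)) P' (q' i : QD P')))
      fun i _ => Submodule.smul_mem _ _ (POX.bcQ_mem _ e (hq i))
    have h6 : (∑ i, (MvPolynomial.X i : MvPolynomial (Fin k) A) •
        (bcQ (MvPolynomial.C (R := A) (σ := Fin k)) P (q i : QD P),
          bcQ (MvPolynomial.C (R := A) (σ := Fin k)) P' (q' i : QD P'))) =
        ((∑ i, (MvPolynomial.X i : MvPolynomial (Fin k) A) •
          bcQ (MvPolynomial.C (R := A) (σ := Fin k)) P (q i)),
        (∑ i, (MvPolynomial.X i : MvPolynomial (Fin k) A) •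
          bcQ (MvPolynomial.C (R := A) (σ := Fin k)) P' (q' i))) := by
      refine Prod.ext ?_ ?_
      · rw [Prod.fst_sum]
        rfl
      · rw [Prod.snd_sum]
        rfl
    rw [h6] at h5
    exact h5
  refine congrArg (MvPolynomial.coeff (ones k)) (E.rix e _ _ h1 h2 h3 _ _ fun D E' hDE => ?_)
  rw [cov_apply, cov_apply, POX.coe_sum, POX.coe_sum]
  exact POX.Lq_eq e hDE h4

end Pool.Agent.MG.G0
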