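import Pool.Agent.MG.G0.StmtsK

/-!
# The projection to `Perp P` (PERP1)
-/

namespace Pool.Agent.MG.G0

namespace PPR

section

variable {I A : Type} [Fintype I] [CommRing A]

theorem exists_dense {g : ℕ} {P : Subalgebra A (KK I A)} (hP : IsKr g P) :
    ∃ N : ℕ, Dense P N := by
  classical
  obtain ⟨L, hL, hker⟩ := hP.k2
  choose v hv using fun j : Fin g => hL (Pi.single j 1)
  choose n hn using fun j : Fin g => exists_Pol (v j)
  refine ⟨Finset.univ.sup n, fun f => ?_⟩
  have h0 : L (f - ∑ j, L f j • v j) = 0 := by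
    rw [map_sub, map_sum]
    simp only [map_smul, hv]
    rw [sub_eq_zero]
    funext k
    simp [Finset.sum_apply, Pi.single_apply]
  obtain ⟨p, hp, hfp⟩ := (hker _).1 h0
  refine ⟨p, hp, ?_⟩
  have h1 : f - p = (f - ∑ j, L f j • v j - p) + ∑ j, L f j • v j := by abel
  rw [h1]
  refine add_mem (Pol_mono (by omega) hfp) (Submodule.sum_mem _ fun j _ =>
    Submodule.smul_mem _ _ (Pol_mono ?_ (hn j)))
  have : n j ≤ Finset.univ.sup n := Finset.le_sup (Finset.mem_univ j)
  omega

/-- The functional `f -> res ((x - res x κ₀) s f)`, linear in `x` and `f`. -/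
noncomputable def fn (i₀ : I) (s : KK I A →ₗ[A] KK I A) :
    KK I A →ₗ[A] KK I A →ₗ[A] A :=
  LinearMap.mk₂ A (fun x f => res ((x - res x • mon i₀ (-1) 1) * s f))
    (fun x y f => by
      rw [← map_add, ← add_mul, map_add, add_smul]
      congr 2
      abel)
    (fun c x f => by
      rw [← map_smul, ← smul_mul_assoc, map_smul, smul_sub, smul_assoc])
    (fun x f g => by rw [map_add, mul_add, map_add])
    (fun c x f => by rw [map_smul, mul_smul_comm, map_smul])

theorem fn_apply (i₀ : I) (s : KK I A →ₗ[A] KK I A) (x f : KK I A) :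
    fn i₀ s x f = res ((x - res x • mon i₀ (-1) 1) * s f) := rfl

theorem res_mon (i : I) (a : A) : res (mon i (-1) a) = a := by
  have := res_mul_mon (1 : KK I A) i (-1) a
  rw [one_mul] at this
  rw [this]
  simp

end

end PPR

open PPR in
theorem t_PPR (hKDU : Stmt_KDU) (hKSP : Stmt_KSP) : Stmt_PPR := by
  classical
  intro I A _ _ g P hP i₀
  haveI : Nonempty I := ⟨i₀⟩
  obtain ⟨N, hN⟩ := exists_dense hP
  obtain ⟨⟨s, hs, _⟩, _⟩ := (hKSP hP).2 N hN
  have hz : ∀ x : KK I A, ∀ f ∈ Pol I A (-0), fn i₀ s x f = 0 := by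
    intro x f hf
    rw [neg_zero] at hf
    rw [fn_apply, hs.zero f hf, mul_zero, map_zero]
  choose E hE hEu using fun x : KK I A => hKDU 0 (fn i₀ s x) (hz x)
  have hEl : ∃ E' : KK I A →ₗ[A] KK I A, ∀ x, E' x = E x := by
    refine ⟨{ toFun := E, map_add' := fun x y => ?_, map_smul' := fun c x => ?_ }, fun x => rfl⟩
    · refine (hEu (x + y) _ ⟨add_mem (hE x).1 (hE y).1, fun f => ?_⟩).symm
      rw [map_add (fn i₀ s), LinearMap.add_apply, (hE x).2 f, (hE y).2 f, add_mul,
        map_add (res (I := I) (A := A))]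
    · refine (hEu (c • x) _ ⟨Submodule.smul_mem _ _ (hE x).1, fun f => ?_⟩).symm
      rw [map_smul (fn i₀ s), LinearMap.smul_apply, (hE x).2 f, RingHom.id_apply,
        smul_mul_assoc, map_smul (res (I := I) (A := A))]
  obtain ⟨E', hE'⟩ := hEl
  have hq : ∃ q : KK I A →ₗ[A] KK I A, ∀ x, q x = x - res x • mon i₀ (-1) 1 - E x :=
    ⟨LinearMap.id - (res (I := I) (A := A)).smulRight (mon i₀ (-1) 1) - E', fun x => by
      rw [LinearMap.sub_apply, LinearMap.sub_apply, hE']; rfl⟩
  obtain ⟨q, hq⟩ := hq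
  refine ⟨q, fun x p hp => ?_, fun x hx => ?_, fun x => ?_, fun n hn x hx => ?_⟩
  · obtain ⟨a, ha⟩ := hs.eq p hp
    have h1 : res ((x - res x • mon i₀ (-1) 1) * s p) = res (E x * p) := by
      rw [← fn_apply]
      exact (hE x).2 p
    have h2 : res ((x - res x • mon i₀ (-1) 1) * algebraMap A (KK I A) a) = 0 := by
      rw [mul_comm, ← Algebra.smul_def, map_smul, map_sub, map_smul, res_mon, smul_eq_mul,
        smul_eq_mul, mul_one, sub_self, mul_zero]
    rw [hq, sub_mul, map_sub, ← h1, ha, mul_add, map_add, h2, add_zero, sub_self]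
  · have hr : res x = 0 := by
      have := hx 1 (one_mem P)
      rwa [mul_one] at this
    have h0 : (0 : KK I A) = E x := by
      refine hEu x 0 ⟨zero_mem _, fun f => ?_⟩
      rw [fn_apply, hr, zero_smul, sub_zero, zero_mul, map_zero]
      exact hx _ (hs.mem f)
    rw [hq, hr, zero_smul, sub_zero, ← h0, sub_zero]
  · have h1 : x - q x - mon i₀ (-1) (res x) = E x := by
      rw [hq, smul_mon, mul_one]
      abel
    rw [h1]
    exact (hE x).1
  · rw [hq]
    exact sub_mem (sub_mem hx (Submodule.smul_mem _ _ (mon_mem_Pol _ (by omega) _)))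
      (Pol_mono (by omega) (hE x).1)

end Pool.Agent.MG.G0
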