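import Pool.Agent.MG.G0.StmtsR

/-!
# Roots of power series (module G0_ROO)
-/

namespace Pool.Agent.MG.G0

namespace ROO

variable {A : Type} [CommRing A]

/-- Only exponents divisible by `m`. -/
def Sup (m : ℕ) (f : PowerSeries A) : Prop := ∀ k : ℕ, ¬ m ∣ k → PowerSeries.coeff k f = 0

theorem Sup.one (m : ℕ) : Sup m (1 : PowerSeries A) := by
  intro k hk
  rw [PowerSeries.coeff_one, if_neg]
  rintro rfl
  exact hk (dvd_zero m)

theorem Sup.mul {m : ℕ} {f g : PowerSeries A} (hf : Sup m f) (hg : Sup m g) : Sup m (f * g) := by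
  intro k hk
  rw [PowerSeries.coeff_mul]
  refine Finset.sum_eq_zero fun p hp => ?_
  rw [Finset.HasAntidiagonal.mem_antidiagonal] at hp
  by_cases h1 : m ∣ p.1
  · have h2 : ¬ m ∣ p.2 := fun h => hk (hp ▸ dvd_add h1 h)
    rw [hg _ h2, mul_zero]
  · rw [hf _ h1, zero_mul]

theorem Sup.pow {m : ℕ} {f : PowerSeries A} (hf : Sup m f) (n : ℕ) : Sup m (f ^ n) := by
  induction n with
  | zero => rw [pow_zero]; exact Sup.one m
  | succ n ih => rw [pow_succ]; exact ih.mul hf

theorem geom (n : ℕ) (r s : PowerSeries A) (hr : PowerSeries.constantCoeff r = 1)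
    (hs : PowerSeries.constantCoeff s = 1) :
    PowerSeries.constantCoeff (∑ i ∈ Finset.range n, r ^ i * s ^ (n - 1 - i)) = (n : A) := by
  rw [map_sum]
  simp only [map_mul, map_pow, hr, hs, one_pow, mul_one, Finset.sum_const, Finset.card_range,
    nsmul_eq_mul]

theorem geom_eq (n : ℕ) (r s : PowerSeries A) :
    (r - s) * ∑ i ∈ Finset.range n, r ^ i * s ^ (n - 1 - i) = r ^ n - s ^ n :=
  (Commute.all r s).mul_geom_sum₂ n

theorem uniq (n : ℕ) (hn : IsUnit (n : A)) (r s : PowerSeries A)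
    (hr : PowerSeries.constantCoeff r = 1) (hs : PowerSeries.constantCoeff s = 1)
    (h : r ^ n = s ^ n) : r = s := by
  have h1 := geom_eq n r s
  rw [h, sub_self] at h1
  have h2 : IsUnit (∑ i ∈ Finset.range n, r ^ i * s ^ (n - 1 - i)) := by
    rw [PowerSeries.isUnit_iff_constantCoeff, geom n r s hr hs]
    exact hn
  exact sub_eq_zero.1 (h2.mul_left_eq_zero.1 h1)

/-- One step of the approximation. -/
theorem step (n : ℕ) {v : A} (hv : v * (n : A) = 1) (c r : PowerSeries A)
    (hr : PowerSeries.constantCoeff r = 1) (k : ℕ)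
    (h : ∀ j < k + 1, PowerSeries.coeff j (r ^ n) = PowerSeries.coeff j c) :
    ∃ r' : PowerSeries A, PowerSeries.constantCoeff r' = 1 ∧
      (∀ j < k + 2, PowerSeries.coeff j (r' ^ n) = PowerSeries.coeff j c) ∧
      (∀ j < k + 1, PowerSeries.coeff j r' = PowerSeries.coeff j r) ∧
      ∀ m : ℕ, Sup m c → Sup m r → Sup m r' := by
  set a : A := v * (PowerSeries.coeff (k + 1) c - PowerSeries.coeff (k + 1) (r ^ n)) with ha
  set d : PowerSeries A := PowerSeries.X ^ (k + 1) * PowerSeries.C a with hd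
  have hdj : ∀ j < k + 1, ∀ w : PowerSeries A, PowerSeries.coeff j (d * w) = 0 := by
    intro j hj w
    rw [hd, mul_assoc]
    exact PowerSeries.X_pow_dvd_iff.1 (dvd_mul_right _ _) j hj
  have hdk : ∀ w : PowerSeries A, PowerSeries.coeff (k + 1) (d * w) =
      a * PowerSeries.constantCoeff w := by
    intro w
    rw [hd, mul_assoc]
    have := PowerSeries.coeff_X_pow_mul (PowerSeries.C a * w) (k + 1) 0
    rw [zero_add] at this
    rw [this, PowerSeries.coeff_zero_eq_constantCoeff_apply, map_mul,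
      PowerSeries.constantCoeff_C]
  have hc1 : PowerSeries.constantCoeff (r + d) = 1 := by
    have := hdj 0 (by omega) 1
    rw [mul_one, PowerSeries.coeff_zero_eq_constantCoeff_apply] at this
    rw [map_add, hr, this, add_zero]
  have hpow : (r + d) ^ n = r ^ n + d * ∑ i ∈ Finset.range n, (r + d) ^ i * r ^ (n - 1 - i) := by
    have := geom_eq n (r + d) r
    rw [add_sub_cancel_left] at this
    rw [this]
    ring
  refine ⟨r + d, hc1, ?_, ?_, ?_⟩
  · intro j hj
    rw [hpow, map_add]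
    rcases Nat.lt_or_ge j (k + 1) with h1 | h1
    · rw [hdj j h1, add_zero, h j h1]
    · obtain rfl : j = k + 1 := by omega
      rw [hdk, geom n _ _ hc1 hr, ha]
      linear_combination (PowerSeries.coeff (k + 1) c - PowerSeries.coeff (k + 1) (r ^ n)) * hv
  · intro j hj
    have := hdj j hj 1
    rw [mul_one] at this
    rw [map_add, this, add_zero]
  · intro m hc hm j hj
    rw [map_add, hm j hj, zero_add, hd]
    rw [PowerSeries.coeff_mul_C, PowerSeries.coeff_X_pow]
    split_ifs with h1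
    · rw [one_mul, ha, ← h1, hc j hj, (hm.pow n) j hj, sub_zero, mul_zero]
    · rw [zero_mul]

theorem exists_root (n : ℕ) (hn : IsUnit (n : A)) (c : PowerSeries A)
    (hc : PowerSeries.constantCoeff c = 1) :
    ∃ r : PowerSeries A, PowerSeries.constantCoeff r = 1 ∧ r ^ n = c ∧
      ∀ m : ℕ, Sup m c → Sup m r := by
  obtain ⟨v, hv⟩ : ∃ v : A, v * (n : A) = 1 := hn.exists_left_inv
  let T : ℕ → Type := fun k => {r : PowerSeries A // PowerSeries.constantCoeff r = 1 ∧
    (∀ j < k + 1, PowerSeries.coeff j (r ^ n) = PowerSeries.coeff j c) ∧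
    ∀ m : ℕ, Sup m c → Sup m r}
  have h0 : PowerSeries.constantCoeff (1 : PowerSeries A) = 1 ∧
    (∀ j < 0 + 1, PowerSeries.coeff j ((1 : PowerSeries A) ^ n) = PowerSeries.coeff j c) ∧
    ∀ m : ℕ, Sup m c → Sup m (1 : PowerSeries A) := by
    refine ⟨map_one _, fun j hj => ?_, fun m _ => Sup.one m⟩
    obtain rfl : j = 0 := by omega
    rw [one_pow, PowerSeries.coeff_zero_eq_constantCoeff_apply,
      PowerSeries.coeff_zero_eq_constantCoeff_apply, hc, map_one]
  have hs : ∀ k : ℕ, ∀ r : T k, ∃ r' : T (k + 1),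
      ∀ j < k + 1, PowerSeries.coeff j r'.1 = PowerSeries.coeff j r.1 := by
    intro k r
    obtain ⟨r', h1, h2, h3, h4⟩ := step n hv c r.1 r.2.1 k r.2.2.1
    exact ⟨⟨r', h1, h2, fun m hm => h4 m hm (r.2.2.2 m hm)⟩, h3⟩
  choose nx hnx using hs
  let R : (k : ℕ) → T k := fun k => Nat.rec (motive := T) ⟨1, h0⟩ (fun k r => nx k r) k
  have hR : ∀ k, R (k + 1) = nx k (R k) := fun k => rfl
  have hst : ∀ k j i, j ≤ k → PowerSeries.coeff j (R (k + i)).1 = PowerSeries.coeff j (R k).1 := by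
    intro k j i hj
    induction i with
    | zero => rfl
    | succ i ih =>
      rw [← ih, ← add_assoc, hR, hnx _ _ j (by omega)]
  let r : PowerSeries A := PowerSeries.mk fun k => PowerSeries.coeff k (R k).1
  have hr : ∀ k j, j ≤ k → PowerSeries.coeff j r = PowerSeries.coeff j (R k).1 := by
    intro k j hj
    obtain ⟨i, rfl⟩ := Nat.exists_eq_add_of_le hj
    rw [hst j j i le_rfl]
    exact PowerSeries.coeff_mk _ _
  have hrc : PowerSeries.constantCoeff r = 1 := by
    rw [← PowerSeries.coeff_zero_eq_constantCoeff_apply, hr 0 0 le_rfl,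
      PowerSeries.coeff_zero_eq_constantCoeff_apply]
    exact (R 0).2.1
  refine ⟨r, hrc, ?_, ?_⟩
  · ext k
    rw [← (R k).2.2.1 k (by omega)]
    have h1 : PowerSeries.X ^ (k + 1) ∣ r - (R k).1 := by
      rw [PowerSeries.X_pow_dvd_iff]
      intro j hj
      rw [map_sub, hr k j (by omega), sub_self]
    have h2 : PowerSeries.X ^ (k + 1) ∣ r ^ n - (R k).1 ^ n :=
      h1.trans (sub_dvd_pow_sub_pow _ _ n)
    have h3 := PowerSeries.X_pow_dvd_iff.1 h2 k (by omega)
    rw [map_sub] at h3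
    exact sub_eq_zero.1 h3
  · intro m hm k hk
    rw [hr k k le_rfl]
    exact (R k).2.2.2 m hm k hk

end ROO

open ROO in
theorem t_ROO : Stmt_ROO := by
  intro A _ n hn c hc
  obtain ⟨r, h1, h2, h3⟩ := exists_root n hn c hc
  refine ⟨⟨r, ⟨h1, h2⟩, fun s hs => ?_⟩, fun s hs hsn m hm => ?_⟩
  · exact uniq n hn s r hs.1 h1 (hs.2.trans h2.symm)
  · rw [uniq n hn s r hs h1 (hsn.trans h2.symm)]
    exact h3 m hm

end Pool.Agent.MG.G0
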