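import Pool.Agent.MG.G0.StmtsB
import Pool.Agent.MG.G0.ROO
import Pool.Agent.MG.G0.ZL.L1

/-!
# PSI: translations of `z`
-/

open Polynomial

namespace Pool.Agent.MG.G0

namespace PSI_

variable {A B : Type} [CommRing A] [CommRing B] {d : ℕ}

/-! ## The coefficients of the powers of `(1 + y)^(-1/d)` -/

theorem one_add_X_unit : IsUnit (1 + PowerSeries.X : PowerSeries A) := by
  rw [PowerSeries.isUnit_iff_constantCoeff]
  simp

theorem exists_rt (hd : IsUnit (d : A)) :
    ∃ r : PowerSeries A, PowerSeries.constantCoeff r = 1 ∧ r ^ d * (1 + PowerSeries.X) = 1 := by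
  obtain ⟨c, hc⟩ := (one_add_X_unit (A := A)).exists_left_inv
  have hc1 : PowerSeries.constantCoeff c = 1 := by
    have := congrArg (PowerSeries.constantCoeff (R := A)) hc
    simpa using this
  obtain ⟨r, h1, h2, _⟩ := ROO.exists_root d hd c hc1
  exact ⟨r, h1, by rw [h2, hc]⟩

theorem rt_spec (hd : IsUnit (d : A)) :
    PowerSeries.constantCoeff (rt A d) = 1 ∧ rt A d ^ d * (1 + PowerSeries.X) = 1 := by
  have h := exists_rt hd
  rw [rt, dif_pos h]
  exact h.choose_spec

theorem rt_unit (hd : IsUnit (d : A)) : IsUnit (rt A d) := by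
  rw [PowerSeries.isUnit_iff_constantCoeff, (rt_spec hd).1]
  exact isUnit_one

theorem rt_uniq (hd : IsUnit (d : A)) (s : PowerSeries A) (h1 : PowerSeries.constantCoeff s = 1)
    (h2 : s ^ d * (1 + PowerSeries.X) = 1) : s = rt A d := by
  refine ROO.uniq d hd s _ h1 (rt_spec hd).1 ?_
  exact (one_add_X_unit (A := A)).mul_left_inj.1 (h2.trans (rt_spec hd).2.symm)

/-- The root as a unit. -/
noncomputable def ru (hd : IsUnit (d : A)) : (PowerSeries A)ˣ := (rt_unit hd).unit

theorem ru_val (hd : IsUnit (d : A)) : (ru hd : PowerSeries A) = rt A d := rfl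

theorem rtc_eq (hd : IsUnit (d : A)) (m : ℤ) (n : ℕ) : rtc A d m n =
    PowerSeries.coeff n ((ru hd ^ m : (PowerSeries A)ˣ) : PowerSeries A) := by
  rw [rtc, dif_pos (rt_unit hd)]
  rfl

theorem rtc_zero_right (hd : IsUnit (d : A)) (m : ℤ) : rtc A d m 0 = 1 := by
  have h1 : Units.map (PowerSeries.constantCoeff (R := A)).toMonoidHom (ru hd) = 1 := by
    ext
    exact (rt_spec hd).1
  have h2 : Units.map (PowerSeries.constantCoeff (R := A)).toMonoidHom (ru hd ^ m) = 1 := by
    rw [map_zpow, h1, one_zpow]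
  rw [rtc_eq hd, PowerSeries.coeff_zero_eq_constantCoeff_apply]
  exact congrArg Units.val h2

theorem rtc_add (hd : IsUnit (d : A)) (m m' : ℤ) (n : ℕ) : rtc A d (m + m') n =
    ∑ p ∈ Finset.HasAntidiagonal.antidiagonal n, rtc A d m p.1 * rtc A d m' p.2 := by
  simp only [rtc_eq hd]
  rw [zpow_add, Units.val_mul, PowerSeries.coeff_mul]

theorem rtc_zero_left (hd : IsUnit (d : A)) (n : ℕ) :
    rtc A d 0 n = if n = 0 then 1 else 0 := by
  rw [rtc_eq hd, zpow_zero, Units.val_one, PowerSeries.coeff_one]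

theorem rtc_neg (hd : IsUnit (d : A)) (n : ℕ) :
    rtc A d (-(d : ℤ)) n = PowerSeries.coeff n (1 + PowerSeries.X : PowerSeries A) := by
  rw [rtc_eq hd, zpow_neg, zpow_natCast]
  have h : (((ru hd ^ d)⁻¹ : (PowerSeries A)ˣ) : PowerSeries A) = 1 + PowerSeries.X :=
    Units.inv_eq_of_mul_eq_one_right (by
      rw [Units.val_pow_eq_pow_val, ru_val]
      exact (rt_spec hd).2)
  rw [h]

theorem anti_one {M : Type} [AddCommMonoid M] (F : ℕ × ℕ → M) :
    ∑ p ∈ Finset.HasAntidiagonal.antidiagonal 1, F p = F (0, 1) + F (1, 0) := by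
  have h : (Finset.HasAntidiagonal.antidiagonal 1 : Finset (ℕ × ℕ)) = {(0, 1), (1, 0)} := rfl
  rw [h, Finset.sum_pair (by simp)]

theorem rtc_one_add (hd : IsUnit (d : A)) (m m' : ℤ) :
    rtc A d (m + m') 1 = rtc A d m 1 + rtc A d m' 1 := by
  rw [rtc_add hd, anti_one, rtc_zero_right hd, rtc_zero_right hd, one_mul, mul_one, add_comm]

theorem rtc_one (hd : IsUnit (d : A)) (m : ℤ) : (d : A) * rtc A d m 1 = -(m : A) := by
  let f : ℤ →+ A := AddMonoidHom.mk' (fun m => rtc A d m 1) (rtc_one_add hd)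
  have h1 : ∀ m : ℤ, rtc A d m 1 = (m : A) * rtc A d 1 1 := by
    intro m
    have h2 : f (m • 1) = m • f 1 := map_zsmul f m 1
    rw [smul_eq_mul, mul_one, zsmul_eq_mul] at h2
    exact h2
  have h3 : rtc A d (-(d : ℤ)) 1 = 1 := by
    rw [rtc_neg hd]
    simp
  rw [h1] at h3
  push_cast at h3
  rw [h1]
  linear_combination (-(m : A)) * h3

theorem rtc_map (φ : A →+* B) (hd : IsUnit (d : A)) (m : ℤ) (n : ℕ) :
    φ (rtc A d m n) = rtc B d m n := by
  have hdB : IsUnit (d : B) := by
    have := hd.map φ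
    rwa [map_natCast] at this
  have h1 : PowerSeries.map φ (rt A d) = rt B d := by
    refine rt_uniq hdB _ ?_ ?_
    · rw [← PowerSeries.coeff_zero_eq_constantCoeff_apply, PowerSeries.coeff_map,
        PowerSeries.coeff_zero_eq_constantCoeff_apply, (rt_spec hd).1, map_one]
    · have := congrArg (PowerSeries.map φ) (rt_spec hd).2
      rwa [map_mul, map_pow, map_add, map_one, PowerSeries.map_X] at this
  have h2 : Units.map (PowerSeries.map φ).toMonoidHom (ru hd) = ru hdB := by
    ext1
    exact h1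
  have h3 : Units.map (PowerSeries.map φ).toMonoidHom (ru hd ^ m) = ru hdB ^ m := by
    rw [map_zpow, h2]
  rw [rtc_eq hd, rtc_eq hdB, ← h3]
  exact (PowerSeries.coeff_map φ n _).symm

/-! ## The divided powers of `d/dz` -/

theorem dz_zero (hd : IsUnit (d : A)) (f : LaurentSeries A) : dz A d 0 f = f := by
  ext m
  rw [dz_coeff, rtc_zero_right hd, one_mul, Nat.cast_zero, mul_zero, sub_zero]

theorem dz_low {f : LaurentSeries A} {a : ℤ} (hf : ∀ m < a, f.coeff m = 0) (i : ℕ) :
    ∀ m < a + d * i, (dz A d i f).coeff m = 0 := by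
  intro m hm
  rw [dz_coeff, hf _ (by omega), mul_zero]

theorem dz_mul_coeff {f h : LaurentSeries A} {a b : ℤ} (hf : ∀ m < a, f.coeff m = 0)
    (hh : ∀ m < b, h.coeff m = 0) {i j n : ℕ} (hij : i + j = n) (m : ℤ) :
    (dz A d i f * dz A d j h).coeff m = ∑ q ∈ Finset.Icc a (m - d * n - b),
      rtc A d q i * rtc A d (m - d * n - q) j * (f.coeff q * h.coeff (m - d * n - q)) := by
  rw [coeff_mul_Icc (dz_low hf i) (dz_low hh j)]
  have hn : (d : ℤ) * n = d * i + d * j := by
    rw [← hij]
    push_cast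
    ring
  refine Finset.sum_nbij' (fun p => p - d * i) (fun q => q + d * i) ?_ ?_ ?_ ?_ ?_
  · intro p hp
    simp only [Finset.mem_Icc] at hp ⊢
    omega
  · intro p hp
    simp only [Finset.mem_Icc] at hp ⊢
    omega
  · intro p _
    ring
  · intro p _
    ring
  · intro p _
    rw [dz_coeff, dz_coeff]
    have e : m - d * n - (p - d * i) = m - p - d * j := by omega
    rw [e]
    ring

theorem dz_mul (hd : IsUnit (d : A)) (n : ℕ) (f h : LaurentSeries A) :
    dz A d n (f * h) = ∑ p ∈ Finset.HasAntidiagonal.antidiagonal n, dz A d p.1 f * dz A d p.2 h := by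
  obtain ⟨a, ha⟩ := exists_low f
  obtain ⟨b, hb⟩ := exists_low h
  ext m
  rw [dz_coeff, coeff_mul_Icc ha hb, HahnSeries.coeff_sum, Finset.mul_sum]
  have h1 : ∀ p ∈ Finset.HasAntidiagonal.antidiagonal n, (dz A d p.1 f * dz A d p.2 h).coeff m =
      ∑ q ∈ Finset.Icc (-(a : ℤ)) (m - d * n - -(b : ℤ)),
        rtc A d q p.1 * rtc A d (m - d * n - q) p.2 *
          (f.coeff q * h.coeff (m - d * n - q)) := fun p hp =>
    dz_mul_coeff ha hb (Finset.HasAntidiagonal.mem_antidiagonal.1 hp) m
  rw [Finset.sum_congr rfl h1, Finset.sum_comm]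
  refine Finset.sum_congr rfl fun q _ => ?_
  rw [← Finset.sum_mul, ← rtc_add hd]
  congr 2
  ring

theorem dz_single (n : ℕ) (m : ℤ) : dz A d n (HahnSeries.single m 1) =
    HahnSeries.single (m + d * n) (rtc A d m n) := by
  ext l
  rw [dz_coeff, HahnSeries.coeff_single, HahnSeries.coeff_single]
  by_cases hl : l = m + d * n
  · subst hl
    rw [if_pos (by ring), if_pos rfl, mul_one, add_sub_cancel_right]
  · rw [if_neg (by omega), if_neg hl, mul_zero]

theorem dz_one (hd : IsUnit (d : A)) (n : ℕ) :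
    dz A d n (1 : LaurentSeries A) = if n = 0 then 1 else 0 := by
  have h : (1 : LaurentSeries A) = HahnSeries.single 0 1 := rfl
  rw [h, dz_single, rtc_zero_left hd]
  split_ifs with h0
  · rw [h0, Nat.cast_zero, mul_zero, add_zero]
  · rw [map_zero]

theorem dz_zz (hd : IsUnit (d : A)) (n : ℕ) : dz A d n (zz A d) =
    if n = 0 then zz A d else if n = 1 then 1 else 0 := by
  rw [zz, dz_single, rtc_neg hd]
  split_ifs with h0 h1
  · subst h0
    simp
  · subst h1
    rw [Nat.cast_one, mul_one, neg_add_cancel]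
    simp
  · have : PowerSeries.coeff n (1 + PowerSeries.X : PowerSeries A) = 0 := by
      rw [map_add, PowerSeries.coeff_one, if_neg h0, PowerSeries.coeff_X, if_neg h1, add_zero]
    rw [this, map_zero]

theorem dz_one_mul (hd : IsUnit (d : A)) (f h : LaurentSeries A) :
    dz A d 1 (f * h) = f * dz A d 1 h + h * dz A d 1 f := by
  rw [dz_mul hd, anti_one, dz_zero hd, dz_zero hd, mul_comm (dz A d 1 f) h]

theorem dz_pr0 (n : ℕ) (f : LaurentSeries A) :
    dz A d n (pr0 A d f) = pr0 A d (dz A d n f) := by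
  ext m
  rw [dz_coeff, pr0_coeff, pr0_coeff, dz_coeff]
  have h : (d : ℤ) ∣ m - d * n ↔ (d : ℤ) ∣ m := by
    rw [dvd_sub_left (dvd_mul_right _ _)]
  simp only [h]
  split_ifs
  · rfl
  · rw [mul_zero]

theorem dz_zpol (hd : IsUnit (d : A)) (p : A[X]) :
    dz A d 1 (zpol A d p) = zpol A d (derivative p) := by
  induction p using Polynomial.induction_on' with
  | add p q hp hq => rw [map_add, map_add, hp, hq, derivative_add, map_add]
  | monomial n a =>
    have h : ∀ n : ℕ, dz A d 1 (zz A d ^ (n + 1)) = ((n + 1 : ℕ) : LaurentSeries A) * zz A d ^ n := by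
      intro n
      induction n with
      | zero =>
        rw [zero_add, pow_one, dz_zz hd, if_neg one_ne_zero, if_pos rfl]
        simp
      | succ n ih =>
        rw [pow_succ, dz_one_mul hd, ih, dz_zz hd, if_neg one_ne_zero, if_pos rfl]
        push_cast
        ring
    rw [derivative_monomial, zpol, aeval_monomial, aeval_monomial, ← Algebra.smul_def,
      ← Algebra.smul_def, map_smul]
    rcases n with _ | n
    · rw [pow_zero, dz_one hd, if_neg one_ne_zero, smul_zero, Nat.cast_zero, mul_zero, zero_smul]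
    · rw [h, Nat.add_sub_cancel, mul_smul]
      congr 1
      rw [Algebra.smul_def, map_natCast]

theorem lmap_dz (φ : A →+* B) (hd : IsUnit (d : A)) (n : ℕ) (f : LaurentSeries A) :
    lmap φ (dz A d n f) = dz B d n (lmap φ f) := by
  ext m
  rw [lmap_coeff, dz_coeff, dz_coeff, lmap_coeff, map_mul, rtc_map φ hd]

theorem dz_ld (hd : IsUnit (d : A)) (f : LaurentSeries A) : (d : A) • dz A d 1 f =
    -(HahnSeries.single ((d : ℤ) + 1) (1 : A) * ld f) := by
  ext m
  rw [HahnSeries.coeff_smul, dz_coeff, HahnSeries.coeff_neg, smul_eq_mul, ← mul_assoc,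
    rtc_one hd]
  have h : m = (m - d - 1) + (d + 1) := by ring
  have h2 : (HahnSeries.single ((d : ℤ) + 1) (1 : A) * ld f).coeff m =
      (ld f).coeff (m - d - 1) := by
    rw [mul_comm]
    nth_rewrite 1 [h]
    rw [HahnSeries.coeff_mul_single_add, mul_one]
  rw [h2, ld_coeff, sub_add_cancel, Nat.cast_one, mul_one, neg_mul]

/-! ## The Taylor homomorphism -/

/-- The Taylor expansion. -/
noncomputable def T (d : ℕ) (f : LaurentSeries A) : PowerSeries (LaurentSeries A) :=
  PowerSeries.mk fun n => dz A d n f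

theorem T_mul (hd : IsUnit (d : A)) (f h : LaurentSeries A) : T d (f * h) = T d f * T d h := by
  ext1 n
  rw [T, PowerSeries.coeff_mk, PowerSeries.coeff_mul, dz_mul hd]
  refine Finset.sum_congr rfl fun p _ => ?_
  rw [T, T, PowerSeries.coeff_mk, PowerSeries.coeff_mk]

theorem T_one (hd : IsUnit (d : A)) : T d (1 : LaurentSeries A) = 1 := by
  ext1 n
  rw [T, PowerSeries.coeff_mk, PowerSeries.coeff_one, dz_one hd]

theorem T_pow (hd : IsUnit (d : A)) (f : LaurentSeries A) (n : ℕ) : T d (f ^ n) = T d f ^ n := by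
  induction n with
  | zero => rw [pow_zero, pow_zero, T_one hd]
  | succ n ih => rw [pow_succ, pow_succ, T_mul hd, ih]

theorem T_zero : T d (0 : LaurentSeries A) = 0 := by
  ext1 n
  rw [T, PowerSeries.coeff_mk, map_zero, map_zero]

theorem dz_nilpotent (hd : IsUnit (d : A)) {a : LaurentSeries A} (ha : IsNilpotent a) (n : ℕ) :
    IsNilpotent (dz A d n a) := by
  rw [nilpotent_iff_mem_prime]
  intro J hJ
  obtain ⟨N, hN⟩ := ha
  have h1 : T d a ^ N = 0 := by rw [← T_pow hd, hN, T_zero]
  have h2 : IsNilpotent (PowerSeries.map (Ideal.Quotient.mk J) (T d a)) :=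
    ⟨N, by rw [← map_pow, h1, map_zero]⟩
  have h3 := h2.eq_zero
  have h4 := congrArg (PowerSeries.coeff n) h3
  rw [PowerSeries.coeff_map, map_zero, T, PowerSeries.coeff_mk] at h4
  exact Ideal.Quotient.eq_zero_iff_mem.1 h4

/-! ## Translations -/

theorem psi_ext {a : LaurentSeries A} (ha : IsNilpotent a) (M : ℕ) (hM : nilpotencyClass a ≤ M)
    (f : LaurentSeries A) : psi d a f = ∑ n ∈ Finset.range M, a ^ n * dz A d n f := by
  rw [psi_apply]
  refine Finset.sum_subset (Finset.range_mono hM) fun n _ hn => ?_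
  have h1 : nilpotencyClass a ≤ n := by
    by_contra h
    exact hn (Finset.mem_range.2 (by omega))
  rw [pow_eq_zero_of_le h1 (pow_nilpotencyClass ha), zero_mul]

theorem psi_mul (hd : IsUnit (d : A)) {a : LaurentSeries A} (ha : IsNilpotent a)
    (f h : LaurentSeries A) : psi d a (f * h) = psi d a f * psi d a h := by
  classical
  set N := nilpotencyClass a with hN
  have haN : a ^ N = 0 := pow_nilpotencyClass ha
  rw [psi_ext ha (2 * N) (by omega), psi_ext ha N le_rfl, psi_ext ha N le_rfl,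
    Finset.sum_mul_sum, ← Finset.sum_product']
  let g : ℕ × ℕ → LaurentSeries A := fun p => (a ^ p.1 * dz A d p.1 f) * (a ^ p.2 * dz A d p.2 h)
  change _ = ∑ p ∈ Finset.range N ×ˢ Finset.range N, g p
  rw [← Finset.sum_fiberwise_of_maps_to (s := Finset.range N ×ˢ Finset.range N)
    (t := Finset.range (2 * N)) (g := fun p => p.1 + p.2)]
  · refine Finset.sum_congr rfl fun n _ => ?_
    rw [dz_mul hd, Finset.mul_sum]
    have h1 : ∀ p ∈ Finset.HasAntidiagonal.antidiagonal n, a ^ n * (dz A d p.1 f * dz A d p.2 h) = g p := by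
      intro p hp
      rw [← Finset.HasAntidiagonal.mem_antidiagonal.1 hp, pow_add]
      change _ = (a ^ p.1 * dz A d p.1 f) * (a ^ p.2 * dz A d p.2 h)
      ring
    rw [Finset.sum_congr rfl h1]
    symm
    refine Finset.sum_subset ?_ ?_
    · intro p hp
      rw [Finset.mem_filter] at hp
      exact Finset.HasAntidiagonal.mem_antidiagonal.2 hp.2
    · intro p hp hp2
      rw [Finset.mem_filter, Finset.mem_product, Finset.mem_range, Finset.mem_range] at hp2
      have hp3 := Finset.HasAntidiagonal.mem_antidiagonal.1 hp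
      change (a ^ p.1 * dz A d p.1 f) * (a ^ p.2 * dz A d p.2 h) = 0
      by_cases hp4 : p.1 < N
      · have hp5 : N ≤ p.2 := by
          by_contra hcon
          exact hp2 ⟨⟨hp4, by omega⟩, hp3⟩
        rw [pow_eq_zero_of_le hp5 haN, zero_mul, mul_zero]
      · rw [pow_eq_zero_of_le (not_lt.1 hp4) haN, zero_mul, zero_mul]
  · intro p hp
    rw [Finset.mem_product, Finset.mem_range, Finset.mem_range] at hp
    rw [Finset.mem_range]
    omega

theorem psi_one (hd : IsUnit (d : A)) {a : LaurentSeries A} (ha : IsNilpotent a) :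
    psi d a (1 : LaurentSeries A) = 1 := by
  rw [psi_ext ha (nilpotencyClass a + 1) (by omega), Finset.sum_range_succ',
    Finset.sum_eq_zero, zero_add, pow_zero, one_mul, dz_one hd, if_pos rfl]
  intro n _
  rw [dz_one hd, if_neg (Nat.succ_ne_zero n), mul_zero]

theorem psi_zz (hd : IsUnit (d : A)) {a : LaurentSeries A} (ha : IsNilpotent a) :
    psi d a (zz A d) = zz A d + a := by
  rw [psi_ext ha (nilpotencyClass a + 1 + 1) (by omega), Finset.sum_range_succ',
    Finset.sum_range_succ', Finset.sum_eq_zero, zero_add, pow_zero, one_mul, zero_add, pow_one,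
    dz_zz hd, dz_zz hd, if_pos rfl, if_neg one_ne_zero, if_pos rfl, mul_one, add_comm]
  intro n _
  rw [dz_zz hd, if_neg (by omega), if_neg (by omega), mul_zero]

/-- The difference quotient. -/
noncomputable def dl (d : ℕ) (a f : LaurentSeries A) : LaurentSeries A :=
  ∑ n ∈ Finset.range (nilpotencyClass a), a ^ n * dz A d (n + 1) f

theorem psi_eq (hd : IsUnit (d : A)) {a : LaurentSeries A} (ha : IsNilpotent a)
    (f : LaurentSeries A) : psi d a f = f + a * dl d a f := by
  rw [psi_ext ha (nilpotencyClass a + 1) (by omega), Finset.sum_range_succ', dl, Finset.mul_sum,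
    pow_zero, one_mul, dz_zero hd, add_comm]
  congr 1
  refine Finset.sum_congr rfl fun n _ => ?_
  rw [pow_succ]
  ring

theorem dl_nilpotent (hd : IsUnit (d : A)) {a : LaurentSeries A} (ha : IsNilpotent a) :
    IsNilpotent (dl d a a) := by
  rw [← mem_nilradical]
  exact Ideal.sum_mem _ fun n _ => Ideal.mul_mem_left _ _
    (mem_nilradical.2 (dz_nilpotent hd ha (n + 1)))

theorem psi_pow_self (hd : IsUnit (d : A)) {a : LaurentSeries A} (ha : IsNilpotent a) (i : ℕ) :
    psi d a (a ^ i) = a ^ i * (1 + dl d a a) ^ i := by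
  induction i with
  | zero => rw [pow_zero, pow_zero, psi_one hd ha, mul_one]
  | succ i ih =>
    rw [pow_succ, psi_mul hd ha, ih, psi_eq hd ha a]
    ring

theorem psi_surjective (hd : IsUnit (d : A)) {a : LaurentSeries A} (ha : IsNilpotent a) :
    Function.Surjective (psi d a) := by
  obtain ⟨v, hv⟩ := ((dl_nilpotent hd ha).isUnit_one_add).exists_left_inv
  set N := nilpotencyClass a with hN
  have haN : a ^ N = 0 := pow_nilpotencyClass ha
  have key : ∀ k ≤ N, ∀ x : LaurentSeries A, ∃ y, psi d a y = a ^ (N - k) * x := by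
    intro k
    induction k with
    | zero =>
      intro _ x
      exact ⟨0, by rw [map_zero, Nat.sub_zero, haN, zero_mul]⟩
    | succ k ih =>
      intro hk x
      set i := N - (k + 1) with hi
      have hi2 : N - k = i + 1 := by omega
      obtain ⟨y', hy'⟩ := ih (by omega) ((1 + dl d a a) ^ i * dl d a (v ^ i * x))
      refine ⟨a ^ i * (v ^ i * x) - y', ?_⟩
      rw [map_sub, hy', psi_mul hd ha, psi_pow_self hd ha, psi_eq hd ha (v ^ i * x), hi2]
      have hvi : (1 + dl d a a) ^ i * v ^ i = 1 := by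
        rw [← mul_pow, mul_comm (1 + dl d a a) v, hv, one_pow]
      have e : a ^ i * (1 + dl d a a) ^ i * (v ^ i * x + a * dl d a (v ^ i * x)) -
          a ^ (i + 1) * ((1 + dl d a a) ^ i * dl d a (v ^ i * x)) =
          a ^ i * (((1 + dl d a a) ^ i * v ^ i) * x) := by ring
      rw [e, hvi, one_mul]
  intro x
  obtain ⟨y, hy⟩ := key N le_rfl x
  exact ⟨y, by rw [hy, Nat.sub_self, pow_zero, one_mul]⟩

theorem psi_injective (hd : IsUnit (d : A)) {a : LaurentSeries A} (ha : IsNilpotent a) :
    Function.Injective (psi d a) := by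
  have hu := (dl_nilpotent hd ha).isUnit_one_add
  rw [injective_iff_map_eq_zero]
  intro x hx
  have key : ∀ i : ℕ, a ^ i ∣ x := by
    intro i
    induction i with
    | zero => rw [pow_zero]; exact one_dvd x
    | succ i ih =>
      obtain ⟨y, hy⟩ := ih
      have h1 : psi d a (a ^ i * y) = 0 := by rw [← hy, hx]
      rw [psi_mul hd ha, psi_pow_self hd ha, psi_eq hd ha y] at h1
      have h2 : (1 + dl d a a) ^ i * (a ^ i * (y + a * dl d a y)) = 0 := by
        rw [← h1]
        ring
      have h3 : a ^ i * (y + a * dl d a y) = 0 := (hu.pow i).mul_right_eq_zero.1 h2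
      refine ⟨-dl d a y, ?_⟩
      rw [hy, pow_succ]
      linear_combination h3
  have h4 := key (nilpotencyClass a)
  rw [pow_nilpotencyClass ha] at h4
  exact zero_dvd_iff.1 h4

theorem mem_iff_lmap (J : Ideal A) (f : LaurentSeries A) :
    (∀ m, f.coeff m ∈ J) ↔ lmap (Ideal.Quotient.mk J) f = 0 := by
  constructor
  · intro h
    ext m
    rw [lmap_coeff, HahnSeries.coeff_zero]
    exact Ideal.Quotient.eq_zero_iff_mem.2 (h m)
  · intro h m
    have := congrArg (fun x : LaurentSeries (A ⧸ J) => x.coeff m) h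
    exact Ideal.Quotient.eq_zero_iff_mem.1 this

theorem pr0_mul {a : LaurentSeries A} (ha : pr0 A d a = a) (f : LaurentSeries A) :
    pr0 A d (a * f) = a * pr0 A d f := by
  have h := ZL.pr_mul_of (d := d) (i := 0) (f := a) (by rw [ZL.pr_zero_eq, ha]) 0 f
  rw [sub_zero, ZL.pr_zero_eq, ZL.pr_zero_eq] at h
  exact h

theorem pr0_pow_mul {a : LaurentSeries A} (ha : pr0 A d a = a) (n : ℕ) (f : LaurentSeries A) :
    pr0 A d (a ^ n * f) = a ^ n * pr0 A d f := by
  induction n with
  | zero => rw [pow_zero, one_mul, one_mul]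
  | succ n ih => rw [pow_succ', mul_assoc, pr0_mul ha, ih, mul_assoc]

theorem psi_pr0 {a : LaurentSeries A} (h : pr0 A d a = a) (f : LaurentSeries A) :
    pr0 A d (psi d a f) = psi d a (pr0 A d f) := by
  rw [psi_apply, psi_apply, map_sum]
  refine Finset.sum_congr rfl fun n _ => ?_
  rw [pr0_pow_mul h, dz_pr0]

theorem lmap_psi (φ : A →+* B) (hd : IsUnit (d : A)) {a : LaurentSeries A} (ha : IsNilpotent a)
    (f : LaurentSeries A) : lmap φ (psi d a f) = psi d (lmap φ a) (lmap φ f) := by
  have ha' : IsNilpotent (lmap φ a) := ha.map (lmap φ)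
  rw [psi_ext ha (nilpotencyClass a + nilpotencyClass (lmap φ a)) (by omega),
    psi_ext ha' (nilpotencyClass a + nilpotencyClass (lmap φ a)) (by omega), map_sum]
  refine Finset.sum_congr rfl fun n _ => ?_
  rw [map_mul, map_pow, lmap_dz φ hd]

theorem psi_sq (hd : IsUnit (d : A)) {a : LaurentSeries A} (ha : IsNilpotent a) (h : a * a = 0)
    (f : LaurentSeries A) : psi d a f = f + a * dz A d 1 f := by
  rw [psi_ext ha (nilpotencyClass a + 1 + 1) (by omega), Finset.sum_range_succ',
    Finset.sum_range_succ', Finset.sum_eq_zero, zero_add, pow_zero, one_mul, zero_add, pow_one,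
    dz_zero hd, add_comm]
  intro n _
  rw [pow_succ, pow_succ, mul_assoc (a ^ n), h, mul_zero, zero_mul]

end PSI_

open PSI_ in
theorem t_PSI : Stmt_PSI := by
  intro A _ d _ hd
  refine ⟨dz_ld hd, dz_one_mul hd, dz_pr0 1, dz_zpol hd, fun a ha => ⟨psi_mul hd ha,
    psi_one hd ha, psi_zz hd ha, ⟨psi_injective hd ha, psi_surjective hd ha⟩, ?_,
    fun h f => psi_pr0 h f, fun φ f => lmap_psi φ hd ha f, fun h f => psi_sq hd ha h f⟩⟩
  intro J hJ f
  rw [mem_iff_lmap, psi_eq hd ha, add_sub_cancel_left, map_mul, (mem_iff_lmap J a).1 hJ, zero_mul]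

end Pool.Agent.MG.G0
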