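import Pool.Agent.MG.G0.StmtsCQ

/-!
# PSU: substitutions in `Fx` (PAPER_Q.md)
-/

open TensorProduct

namespace Pool.Agent.MG.G0

namespace PSU

section

variable {I : Type} [Fintype I] {D : Type} [CommRing D]

/-- The identification of `QD Q` and `QD Q'` for `Q = Q'`. -/
noncomputable def incQ {Q Q' : Subalgebra D (KK I D)} (h : Q = Q') : QD Q →ₗ[D] QD Q' :=
  TensorProduct.map
    { toFun := fun x => (⟨(x : KK I D), h ▸ x.2⟩ : Perp Q')
      map_add' := fun _ _ => rfl
      map_smul' := fun _ _ => rfl }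
    { toFun := fun x => (⟨(x : KK I D), h ▸ x.2⟩ : Q')
      map_add' := fun _ _ => rfl
      map_smul' := fun _ _ => rfl }

theorem incQ_tmul {Q Q' : Subalgebra D (KK I D)} (h : Q = Q') (x : Perp Q) (g : Q) :
    incQ h (x ⊗ₜ g) = (⟨(x : KK I D), h ▸ x.2⟩ : Perp Q') ⊗ₜ[D] (⟨(g : KK I D), h ▸ g.2⟩ : Q') :=
  rfl

theorem incQ_rfl {Q : Subalgebra D (KK I D)} (q : QD Q) : incQ rfl q = q := by
  induction q using TensorProduct.induction_on with
  | zero => rw [map_zero]
  | tmul x g => rfl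
  | add a b ha hb => rw [map_add, ha, hb]

theorem qk_incQ {Q Q' : Subalgebra D (KK I D)} (h : Q = Q') (q : QD Q) :
    qk Q' (incQ h q) = qk Q q := by
  subst h
  rw [incQ_rfl]

/-- The identification of `QR Q` and `QR Q'` for `Q = Q'`. -/
noncomputable def incR {Q Q' : Subalgebra D (KK I D)} (h : Q = Q') : QR Q →ₗ[D] QR Q' where
  toFun q := ⟨incQ h q, by rw [mem_QR, qk_incQ]; exact q.2⟩
  map_add' x y := Subtype.ext (map_add (incQ h) (x : QD Q) y)
  map_smul' a x := Subtype.ext (map_smul (incQ h) a (x : QD Q))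

theorem incR_val {Q Q' : Subalgebra D (KK I D)} (h : Q = Q') (q : QR Q) :
    (incR h q : QD Q') = incQ h q := rfl

theorem Phi_incR {g : ℕ} (E : Ev g) [Algebra ℂ D] {Q Q' : Subalgebra D (KK I D)} (h : Q = Q')
    (q : QR Q) : E.Φ D I Q' (cov Q' (incR h q)) = E.Φ D I Q (cov Q q) := by
  subst h
  have h1 : incR rfl q = q := Subtype.ext (incQ_rfl _)
  rw [h1]

theorem Phi_zero {g : ℕ} (E : Ev g) [Algebra ℂ D] {Q Q' : Subalgebra D (KK I D)} (h : Q = Q') :
    E.Φ D I Q' 0 = E.Φ D I Q 0 := by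
  subst h
  rfl

end

section

variable {I : Type} [Fintype I] {A B D : Type} [CommRing A] [CommRing B] [CommRing D]

theorem incQ_bcQ (α : A →+* B) (β : B →+* D) (φ : A →+* D) (P : Subalgebra A (KK I A))
    (h : bc β (bc α P) = bc φ P) (hφ : ∀ a, β (α a) = φ a) (q : QD P) :
    incQ h (bcQ β (bc α P) (bcQ α P q)) = bcQ φ P q := by
  have h1 : ∀ f : KK I A, kmap β (kmap α f) = kmap φ f := fun f => by
    funext i
    ext m
    rw [kmap_apply, kmap_apply, kmap_apply, lmap_coeff, lmap_coeff, lmap_coeff, hφ]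
  induction q using TensorProduct.induction_on with
  | zero => rw [map_zero, map_zero, map_zero, map_zero]
  | tmul x g =>
    rw [bcQ_tmul, bcQ_tmul, incQ_tmul, bcQ_tmul]
    congr 1
    · exact Subtype.ext (h1 _)
    · exact Subtype.ext (h1 _)
  | add a b ha hb => rw [map_add, map_add, map_add, ha, hb, map_add]

theorem incR_bcR (α : A →+* B) (β : B →+* D) (φ : A →+* D) (P : Subalgebra A (KK I A))
    (h : bc β (bc α P) = bc φ P) (hφ : ∀ a, β (α a) = φ a) (q : QR P) :
    incR h (bcR β (bc α P) (bcR α P q)) = bcR φ P q :=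
  Subtype.ext (incQ_bcQ α β φ P h hφ q)

theorem incR_id (P : Subalgebra A (KK I A)) (h : bc (RingHom.id A) P = P) (q : QR P) :
    incR h (bcR (RingHom.id A) P q) = q := by
  have h1 : ∀ f : KK I A, kmap (RingHom.id A) f = f := fun f => by
    funext i
    ext m
    rw [kmap_apply, lmap_coeff]
    rfl
  have h2 : ∀ q : QD P, incQ h (bcQ (RingHom.id A) P q) = q := by
    intro q
    induction q using TensorProduct.induction_on with
    | zero => rw [map_zero, map_zero]
    | tmul x g =>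
      rw [bcQ_tmul, incQ_tmul]
      exact congrArg₂ (fun a b => a ⊗ₜ[A] b) (Subtype.ext (h1 _)) (Subtype.ext (h1 _))
    | add a b ha hb => rw [map_add, map_add, ha, hb]
  exact Subtype.ext (h2 q)

end

end PSU

theorem t_PSU (hKBC : Stmt_KBC) (hCNT : Stmt_CNT) (hGBC : Stmt_GBC) : Stmt_PSU := by
  intro g E I A D _ _ _ _ _ _ P hP ι _ q φ σ hσ
  set C : A →+* MvPolynomial ι A := MvPolynomial.C with hC
  have hG : Good g (bc C P) := hGBC C g P hP
  have hφ : φ = (σ : MvPolynomial ι A →+* D).comp C := by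
    ext a
    exact (hσ a).symm
  have h1 : bc (σ : MvPolynomial ι A →+* D) (bc C P) = bc φ P := by
    rw [hφ]
    exact (hKBC.2.1 C (σ : MvPolynomial ι A →+* D) P).symm
  have h2 := E.nat σ (bc C P) hG _ _ ((hCNT (σ : MvPolynomial ι A →+* D) (bc C P)).1
    (∑ i, (MvPolynomial.X i : MvPolynomial ι A) • bcR C P (q i)))
  have h3 : bcR (σ : MvPolynomial ι A →+* D) (bc C P)
      (∑ i, (MvPolynomial.X i : MvPolynomial ι A) • bcR C P (q i)) =
      ∑ i, σ (MvPolynomial.X i) • bcR (σ : MvPolynomial ι A →+* D) (bc C P) (bcR C P (q i)) := by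
    rw [map_sum]
    refine Finset.sum_congr rfl fun i _ => ?_
    rw [map_smulₛₗ]
    rfl
  have h4 : PSU.incR h1 (∑ i, σ (MvPolynomial.X i) •
      bcR (σ : MvPolynomial ι A →+* D) (bc C P) (bcR C P (q i))) =
      ∑ i, σ (MvPolynomial.X i) • bcR φ P (q i) := by
    rw [map_sum]
    refine Finset.sum_congr rfl fun i _ => ?_
    rw [map_smul, PSU.incR_bcR C (σ : MvPolynomial ι A →+* D) φ P h1 hσ]
  rw [← h4, PSU.Phi_incR E h1, ← h3]
  exact h2

end Pool.Agent.MG.G0
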