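import Pool.Agent.MG.G0.StmtsCQ

/-!
# PTO: independence of the presentation after multiplication by `t` (PAPER_Q.md)
-/

open TensorProduct

namespace Pool.Agent.MG.G0

namespace PTO

/-- The covector of the base change of `t • q` vanishes if `qk q = 0`. -/
theorem cov_zero {I A B : Type} [Fintype I] [CommRing A] [CommRing B] (φ : A →+* B)
    (P : Subalgebra A (KK I A)) (t : A)
    (H : ∀ D : DD (bc φ P), ∃ θ : KK I B, φ t • D = tder (bc φ P) θ) (q : QR P)
    (hq : qk P (q : QD P) = 0) : cov (bc φ P) (bcR φ P (t • q)) = 0 := by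
  refine Subtype.ext (LinearMap.ext fun D => ?_)
  obtain ⟨θ, hθ⟩ := H D
  rw [map_smulₛₗ, map_smul]
  change φ t • (cov (bc φ P) (bcR φ P q)).1 D = 0
  rw [← map_smul, hθ, cov_apply]
  change Lq (bc φ P) (bcQ φ P (q : QD P)) (tder (bc φ P) θ) = 0
  rw [Lq_tder, qk_bcQ, hq, map_zero, mul_zero, map_zero]

end PTO

theorem t_PTO (hPOL : Stmt_POL) : Stmt_PTO := by
  intro g E I A _ _ _ _ P hG t k H
  obtain ⟨_, h2, h3, _⟩ := hPOL E P hG
  obtain ⟨M, hM⟩ := h2 k
  have key : ∀ (q : Fin k → QR P) (i : Fin k) (x : QR P), qk P (x : QD P) = 0 →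
      t * M (Function.update q i x) = 0 := by
    intro q i x hx
    rw [← smul_eq_mul, ← M.map_update_smul, hM]
    refine h3 _ i ?_
    rw [Function.update_self]
    exact PTO.cov_zero _ P t H x hx
  intro q q' hq
  rw [← hM, ← hM]
  have ind : ∀ s : Finset (Fin k), t * M (s.piecewise q' q) = t * M q := by
    intro s
    induction s using Finset.induction_on with
    | empty => rw [Finset.piecewise_empty]
    | insert i s hi ih =>
      rw [Finset.piecewise_insert, ← ih]
      have e1 : Function.update (s.piecewise q' q) i (q i) = s.piecewise q' q := by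
        rw [Function.update_eq_self_iff]
        exact (Finset.piecewise_eq_of_notMem _ _ _ hi).symm
      have e3 : qk P ((q' i + (-1 : A) • q i : QR P) : QD P) = 0 := by
        change qk P ((q' i : QD P) + (-1 : A) • (q i : QD P)) = 0
        rw [map_add, map_smul, hq i, neg_smul, one_smul, add_neg_cancel]
      have e4 := key (s.piecewise q' q) i (q' i + (-1 : A) • q i) e3
      rw [M.map_update_add, M.map_update_smul, e1, neg_smul, one_smul, mul_add, mul_neg,
        add_neg_eq_zero] at e4
      exact e4
  have h := ind Finset.univ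
  rw [Finset.piecewise_univ] at h
  exact h.symm

end Pool.Agent.MG.G0
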