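import Pool.Agent.MG.G0.StmtsS

/-!
# REM: removing a puncture
-/

namespace Pool.Agent.MG.G0

namespace REM

section

variable {I A B : Type} [CommRing A] [CommRing B]

/-- Extension by zero at the additional puncture. -/
noncomputable def ext (I A : Type) [CommRing A] : KK I A →ₗ[A] KK (I ⊕ Unit) A where
  toFun f := Sum.elim f fun _ => 0
  map_add' f g := by
    funext k
    rcases k with i | j
    · rfl
    · change (0 : LaurentSeries A) = 0 + 0
      rw [add_zero]
  map_smul' a f := by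
    funext k
    rcases k with i | j
    · rfl
    · change (0 : LaurentSeries A) = a • 0
      rw [smul_zero]

theorem ext_inl (f : KK I A) (i : I) : ext I A f (Sum.inl i) = f i := rfl

theorem ext_inr (f : KK I A) (j : Unit) : ext I A f (Sum.inr j) = 0 := rfl

theorem mem_Rem {W : Subalgebra A (KK (I ⊕ Unit) A)} {f : KK I A} :
    f ∈ Rem W ↔ ∃ w ∈ W, (∀ j : Unit, ∀ m < 0, (w (Sum.inr j)).coeff m = 0) ∧
      ∀ i, w (Sum.inl i) = f i := Iff.rfl

theorem L_Pol0 {h : ℕ} {W : Subalgebra A (KK (I ⊕ Unit) A)}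
    {L : KK (I ⊕ Unit) A →ₗ[A] (Fin h → A)}
    (hL : ∀ f, L f = 0 ↔ ∃ p ∈ W, f - p ∈ Pol (I ⊕ Unit) A 0) {f : KK (I ⊕ Unit) A}
    (hf : f ∈ Pol (I ⊕ Unit) A 0) : L f = 0 :=
  (hL f).2 ⟨0, zero_mem W, by rwa [sub_zero]⟩

theorem L_W {h : ℕ} {W : Subalgebra A (KK (I ⊕ Unit) A)}
    {L : KK (I ⊕ Unit) A →ₗ[A] (Fin h → A)}
    (hL : ∀ f, L f = 0 ↔ ∃ p ∈ W, f - p ∈ Pol (I ⊕ Unit) A 0) {f : KK (I ⊕ Unit) A}
    (hf : f ∈ W) : L f = 0 :=
  (hL f).2 ⟨f, hf, by rw [sub_self]; exact zero_mem _⟩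

theorem isKr_Rem {h : ℕ} {W : Subalgebra A (KK (I ⊕ Unit) A)} (hW : IsKr h W) (hD : Dns W) :
    IsKr h (Rem W) := by
  refine ⟨?_, ?_⟩
  · rintro f ⟨w, hw, h1, h2⟩ hf
    obtain ⟨a, ha⟩ := hW.k1 w hw (by
      intro k m hm
      rcases k with i | j
      · rw [h2]
        exact hf i m hm
      · exact h1 j m (by omega))
    refine ⟨a, ?_⟩
    funext i
    rw [← h2, ha]
    rfl
  · obtain ⟨L, hs, hL⟩ := hW.k2
    refine ⟨L ∘ₗ ext I A, ?_, ?_⟩
    · intro c
      obtain ⟨F, hF⟩ := hs c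
      obtain ⟨w, hw, hwF⟩ := hD (F (Sum.inr ()))
      refine ⟨fun i => (F - w) (Sum.inl i), ?_⟩
      rw [LinearMap.comp_apply]
      have h1 : (F - w) - ext I A (fun i => (F - w) (Sum.inl i)) ∈ Pol (I ⊕ Unit) A 0 := by
        intro k m hm
        rcases k with i | j
        · rw [Pi.sub_apply, ext_inl, sub_self, HahnSeries.coeff_zero]
        · rw [Pi.sub_apply, ext_inr, sub_zero, Pi.sub_apply, HahnSeries.coeff_sub]
          rw [hwF m (by omega), sub_self]
      have h2 := L_Pol0 hL h1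
      rw [map_sub, map_sub, L_W hL hw, sub_zero, hF, sub_eq_zero] at h2
      exact h2.symm
    · intro f
      rw [LinearMap.comp_apply, hL]
      constructor
      · rintro ⟨p, hp, hfp⟩
        refine ⟨fun i => p (Sum.inl i), ⟨p, hp, fun j m hm => ?_, fun i => rfl⟩, fun i m hm => ?_⟩
        · have h3 := hfp (Sum.inr j) m (by omega)
          rw [Pi.sub_apply, ext_inr, zero_sub, HahnSeries.coeff_neg, neg_eq_zero] at h3
          exact h3
        · exact hfp (Sum.inl i) m hm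
      · rintro ⟨p, ⟨w, hw, h1, h2⟩, hfp⟩
        refine ⟨w, hw, ?_⟩
        intro k m hm
        rcases k with i | j
        · rw [Pi.sub_apply, ext_inl, h2]
          exact hfp i m hm
        · rw [Pi.sub_apply, ext_inr, zero_sub, HahnSeries.coeff_neg, h1 j m (by omega), neg_zero]

/-- Combinations of elements with monomial principal part at the additional puncture. -/
theorem comb_coeff (n : ℕ) (w : ℤ → KK (I ⊕ Unit) A) (c : ℤ → A) (l : ℤ) :
    ((∑ m ∈ Finset.Ico (-(n : ℤ)) 0, c m • w m) (Sum.inr ())).coeff l =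
      ∑ m ∈ Finset.Ico (-(n : ℤ)) 0, c m * (w m (Sum.inr ())).coeff l := by
  rw [Finset.sum_apply, HahnSeries.coeff_sum]
  refine Finset.sum_congr rfl fun m _ => ?_
  rw [Pi.smul_apply, HahnSeries.coeff_smul, smul_eq_mul]

theorem sum_ind (n : ℕ) (c : ℤ → A) (l : ℤ) (hl : l < 0) (hc : ∀ m < -(n : ℤ), c m = 0) :
    ∑ m ∈ Finset.Ico (-(n : ℤ)) 0, c m * (if l = m then 1 else 0) = c l := by
  simp only [mul_ite, mul_one, mul_zero]
  rw [Finset.sum_ite_eq]
  split_ifs with h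
  · rfl
  · rw [Finset.mem_Ico] at h
    rw [hc l (by omega)]

theorem coeff_single' (m l : ℤ) :
    (HahnSeries.single m (1 : A) : LaurentSeries A).coeff l = if l = m then 1 else 0 := by
  rw [HahnSeries.coeff_single]
  split_ifs <;> rfl

theorem Dns_bc {W : Subalgebra A (KK (I ⊕ Unit) A)} (hD : Dns W) (φ : A →+* B) :
    Dns (bc φ W) := by
  intro f
  obtain ⟨n, hn⟩ := exists_low f
  choose w hw hwc using fun m : ℤ => hD (HahnSeries.single m (1 : A))
  refine ⟨∑ m ∈ Finset.Ico (-(n : ℤ)) 0, f.coeff m • kmap φ (w m), ?_, ?_⟩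
  · refine Subalgebra.sum_mem _ fun m _ => ?_
    exact Subalgebra.smul_mem _ (kmap_mem_bc φ (hw m)) _
  · intro l hl
    rw [comb_coeff]
    rw [← sum_ind n f.coeff l hl hn]
    refine Finset.sum_congr rfl fun m _ => ?_
    rw [kmap_apply, lmap_coeff, hwc m l hl, coeff_single']
    split_ifs <;> simp

theorem bc_Rem_le (W : Subalgebra A (KK (I ⊕ Unit) A)) (φ : A →+* B) :
    bc φ (Rem W) ≤ Rem (bc φ W) := by
  refine Algebra.adjoin_le ?_
  rintro _ ⟨f, ⟨w, hw, h1, h2⟩, rfl⟩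
  refine ⟨kmap φ w, kmap_mem_bc φ hw, fun j m hm => ?_, fun i => ?_⟩
  · rw [kmap_apply, lmap_coeff, h1 j m hm, map_zero]
  · rw [kmap_apply, kmap_apply, h2]

end

/-! ### Nilpotent thickenings -/

section

variable {I A B : Type} [CommRing A] [CommRing B]

theorem thick (hKBC : Stmt_KBC) {W : Subalgebra A (KK (I ⊕ Unit) A)} (φ : A →+* B)
    (hφ : Function.Surjective φ) (hn : ∃ n : ℕ, RingHom.ker φ ^ n = ⊥) (hD : Dns (bc φ W)) :
    Dns W := by
  -- the elements of the base change are images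
  have himg : ∀ v ∈ bc φ W, ∃ w ∈ W, kmap φ w = v := by
    intro v hv
    have h1 : v ∈ Subalgebra.toSubmodule (bc φ W) := hv
    rw [hKBC.1 φ W] at h1
    clear hv
    induction h1 using Submodule.span_induction with
    | mem x hx =>
      obtain ⟨w, hw, rfl⟩ := hx
      exact ⟨w, hw, rfl⟩
    | zero => exact ⟨0, zero_mem W, map_zero _⟩
    | add x y _ _ hx hy =>
      obtain ⟨a, ha, ha'⟩ := hx
      obtain ⟨b, hb, hb'⟩ := hy
      exact ⟨a + b, add_mem ha hb, by rw [map_add, ha', hb']⟩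
    | smul b x _ hx =>
      obtain ⟨w, hw, hw'⟩ := hx
      obtain ⟨a, rfl⟩ := hφ b
      exact ⟨a • w, W.smul_mem hw a, by rw [kmap_smul, hw']⟩
  have hmon : ∀ m : ℤ, ∃ w ∈ W, ∀ l < 0,
      (HahnSeries.single m (1 : A) : LaurentSeries A).coeff l - (w (Sum.inr ())).coeff l ∈
        RingHom.ker φ := by
    intro m
    obtain ⟨v, hv, hvc⟩ := hD (HahnSeries.single m (1 : B))
    obtain ⟨w, hw, rfl⟩ := himg v hv
    refine ⟨w, hw, fun l hl => ?_⟩
    have h2 := hvc l hl
    rw [kmap_apply, lmap_coeff, coeff_single'] at h2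
    rw [RingHom.mem_ker, map_sub, h2, coeff_single']
    split_ifs <;> simp
  choose w hw hwc using hmon
  have key : ∀ (k : ℕ) (f : LaurentSeries A), ∃ v ∈ W, ∀ l < 0,
      f.coeff l - (v (Sum.inr ())).coeff l ∈ RingHom.ker φ ^ k := by
    intro k
    induction k with
    | zero =>
      intro f
      exact ⟨0, zero_mem W, fun l _ => by rw [pow_zero, Ideal.one_eq_top]; exact Submodule.mem_top⟩
    | succ k ih =>
      intro f
      obtain ⟨v, hv, hvc⟩ := ih f
      obtain ⟨n, hn⟩ := exists_low (f - v (Sum.inr ()))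
      refine ⟨v + ∑ m ∈ Finset.Ico (-(n : ℤ)) 0, (f - v (Sum.inr ())).coeff m • w m,
        add_mem hv (Subalgebra.sum_mem _ fun m _ => Subalgebra.smul_mem _ (hw m) _), ?_⟩
      intro l hl
      rw [Pi.add_apply, HahnSeries.coeff_add, comb_coeff, ← sub_sub, ← HahnSeries.coeff_sub]
      nth_rewrite 1 [← sum_ind n (f - v (Sum.inr ())).coeff l hl hn]
      rw [← Finset.sum_sub_distrib]
      refine Ideal.sum_mem _ fun m hm => ?_
      rw [← mul_sub, ← coeff_single', pow_succ]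
      refine Ideal.mul_mem_mul ?_ (hwc m l hl)
      rw [Finset.mem_Ico] at hm
      rw [HahnSeries.coeff_sub]
      exact hvc m hm.2
  obtain ⟨n, hn⟩ := hn
  intro f
  obtain ⟨v, hv, hvc⟩ := key n f
  refine ⟨v, hv, fun m hm => ?_⟩
  have := hvc m hm
  rw [hn, Submodule.mem_bot, sub_eq_zero] at this
  exact this.symm

end

/-! ### Fields -/

section

variable {I κ : Type} [Field κ]

/-- A nonzero element which vanishes at the additional puncture. -/
theorem exists_y [Nonempty I] {W : Subalgebra κ (KK (I ⊕ Unit) κ)} {N : ℕ} (hN : Dense W N) :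
    ∃ y ∈ W, y ≠ 0 ∧ ∀ m ≤ 0, (y (Sum.inr ())).coeff m = 0 := by
  classical
  obtain ⟨i₀⟩ := (inferInstance : Nonempty I)
  choose p hp hpN using fun k : Fin (N + 2) =>
    hN (mon (Sum.inl i₀) (-((N : ℤ) + 1 + (k : ℕ))) (1 : κ))
  -- the coefficients of the order at most `N`
  have hJ : ∀ k, ∀ m < -(N : ℤ), (p k (Sum.inr ())).coeff m = 0 := by
    intro k m hm
    have h1 := hpN k (Sum.inr ()) m hm
    rw [Pi.sub_apply, mon_of_ne (by simp), zero_sub, HahnSeries.coeff_neg, neg_eq_zero] at h1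
    exact h1
  have hI : ∀ k, ∀ m < -(N : ℤ), (p k (Sum.inl i₀)).coeff m =
      if m = -((N : ℤ) + 1 + (k : ℕ)) then 1 else 0 := by
    intro k m hm
    have h1 := hpN k (Sum.inl i₀) m hm
    rw [Pi.sub_apply, HahnSeries.coeff_sub, mon_coeff_self, sub_eq_zero] at h1
    exact h1.symm
  -- the linear map
  let T : (Fin (N + 2) → κ) →ₗ[κ] (Fin (N + 1) → κ) :=
    { toFun := fun c j => ∑ k, c k * (p k (Sum.inr ())).coeff (-(j : ℕ) : ℤ)
      map_add' := fun c c' => by
        funext j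
        simp only [Pi.add_apply, add_mul, Finset.sum_add_distrib]
      map_smul' := fun a c => by
        funext j
        simp only [Pi.smul_apply, smul_eq_mul, RingHom.id_apply, Finset.mul_sum, mul_assoc] }
  have hker : ∃ c, T c = 0 ∧ c ≠ 0 := by
    by_contra hc
    push Not at hc
    have hinj : Function.Injective T := by
      rw [injective_iff_map_eq_zero]
      exact hc
    have := LinearMap.finrank_le_finrank_of_injective hinj
    simp at this
  obtain ⟨c, hc, hc0⟩ := hker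
  refine ⟨∑ k, c k • p k, Subalgebra.sum_mem _ fun k _ => Subalgebra.smul_mem _ (hp k) _, ?_, ?_⟩
  · intro h0
    obtain ⟨k, hk⟩ := Function.ne_iff.1 hc0
    apply hk
    have h1 := congrArg (fun f : KK (I ⊕ Unit) κ => (f (Sum.inl i₀)).coeff
      (-((N : ℤ) + 1 + (k : ℕ)))) h0
    simp only [Finset.sum_apply, HahnSeries.coeff_sum, Pi.smul_apply, HahnSeries.coeff_smul,
      smul_eq_mul, Pi.zero_apply, HahnSeries.coeff_zero] at h1
    rw [Finset.sum_eq_single k] at h1
    · rw [hI k _ (by omega), if_pos rfl, mul_one] at h1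
      exact h1
    · intro b _ hb
      rw [hI b _ (by omega), if_neg, mul_zero]
      intro h2
      apply hb
      ext
      omega
    · intro h2
      exact absurd (Finset.mem_univ k) h2
  · intro m hm
    simp only [Finset.sum_apply, HahnSeries.coeff_sum, Pi.smul_apply, HahnSeries.coeff_smul,
      smul_eq_mul]
    by_cases h1 : m < -(N : ℤ)
    · exact Finset.sum_eq_zero fun k _ => by rw [hJ k m h1, mul_zero]
    · have h2 := congrFun hc ⟨(-m).toNat, by omega⟩
      simp only [T, LinearMap.coe_mk, AddHom.coe_mk, Pi.zero_apply] at h2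
      have h3 : (-(((-m).toNat : ℕ) : ℤ)) = m := by omega
      rw [h3] at h2
      exact h2

theorem pow_low {f : LaurentSeries κ} (hf : ∀ m < 1, f.coeff m = 0) (n : ℕ) :
    ∀ m < (n : ℤ), (f ^ n).coeff m = 0 := by
  induction n with
  | zero =>
    intro m hm
    rw [pow_zero, HahnSeries.coeff_one, if_neg (by omega)]
  | succ n ih =>
    intro m hm
    rw [pow_succ]
    exact mul_low ih hf m (by push_cast at hm; omega)

theorem field_Dns [Fintype I] [Nonempty I] {h : ℕ} (hKNZ : Stmt_KNZ) {W : Subalgebra κ (KK (I ⊕ Unit) κ)} (hW : IsKr h W)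
    (hinj : ∀ w ∈ W, w (Sum.inr ()) = 0 → w = 0) : Dns W := by
  obtain ⟨N, hN⟩ := (hKNZ hW).1
  obtain ⟨y, hy, hy0, hyc⟩ := exists_y hN
  have hyJ : y (Sum.inr ()) ≠ 0 := fun h0 => hy0 (hinj y hy h0)
  intro f
  obtain ⟨p, hp, hpc⟩ := hN (Sum.elim (fun _ => 0) fun _ => (y (Sum.inr ()) ^ N)⁻¹ * f)
  refine ⟨y ^ N * p, mul_mem (pow_mem hy N) hp, fun m hm => ?_⟩
  have h1 : ∀ m < -(N : ℤ), ((y (Sum.inr ()) ^ N)⁻¹ * f - p (Sum.inr ())).coeff m = 0 := by
    intro m hm
    exact hpc (Sum.inr ()) m hm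
  have h2 : ∀ m < (N : ℤ), (y (Sum.inr ()) ^ N).coeff m = 0 :=
    pow_low (fun m hm => hyc m (by omega)) N
  have h3 := mul_low h2 h1 m (by omega)
  rw [mul_sub, ← mul_assoc, mul_inv_cancel₀ (pow_ne_zero _ hyJ), one_mul, HahnSeries.coeff_sub,
    sub_eq_zero] at h3
  rw [h3]
  rfl

end

end REM

theorem t_REM (hKEQ : Stmt_KEQ) (hKBC : Stmt_KBC) (hKNZ : Stmt_KNZ) : Stmt_REM := by
  refine ⟨?_, ?_, ?_⟩
  · intro I A _ _ _ h W hW hD
    refine ⟨REM.isKr_Rem hW hD, ?_⟩
    intro B _ φ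
    have hDB := REM.Dns_bc hD φ
    refine ⟨hDB, ?_⟩
    have h1 : IsKr h (bc φ (Rem W)) := (hKBC.2.2.2 (REM.isKr_Rem hW hD) φ).1
    have h2 : IsKr h (Rem (bc φ W)) := REM.isKr_Rem (hKBC.2.2.2 hW φ).1 hDB
    exact (hKEQ h1 h2 (REM.bc_Rem_le W φ)).symm
  · intro I κ _ _ _ h W hW hinj
    exact REM.field_Dns hKNZ hW hinj
  · intro I A B _ _ _ _ h W _ φ hφ hn hD
    exact REM.thick hKBC φ hφ hn hD

end Pool.Agent.MG.G0
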