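import Pool.Agent.MG.G0.StmtsK

/-!
# The residue theorem (PAPER RES2)

For `f`, `h` in a Krichever ring `P`, `res (f dh) = 0`.  The operators `x ↦ π (f * s x)` on the
polar parts, where `s` is the section of the polar part on `P`, differ from `x ↦ π (f * x)` by
operators of finite rank and their commutators have trace zero.
-/

namespace Pool.Agent.MG.G0

namespace RES

section general

variable {A M : Type} [CommRing A] [AddCommGroup M] [Module A M]

theorem fr_of_fintype {ι : Type} [Fintype ι] (F : M →ₗ[A] M) (l : ι → (M →ₗ[A] A)) (x : ι → M)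
    (h : ∀ m, F m = ∑ k, l k m • x k) : FR F := by
  classical
  refine ⟨Fintype.card ι, fun k => l ((Fintype.equivFin ι).symm k),
    fun k => x ((Fintype.equivFin ι).symm k), fun m => ?_⟩
  rw [h m]
  exact (Equiv.sum_comp (Fintype.equivFin ι).symm fun k => l k m • x k).symm

theorem comm_zero (hRTR : Stmt_RTR) {S : Type} (b : Module.Basis S A M) (F T : M →ₗ[A] M)
    (hF : FR F) : FR (F ∘ₗ T - T ∘ₗ F) ∧ ftr b (F ∘ₗ T - T ∘ₗ F) = 0 := by
  obtain ⟨-, h2, h3, h4⟩ := hRTR b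
  obtain ⟨hFT, hTF, he⟩ := h4 F T hF
  obtain ⟨hn, hne⟩ := h3 _ hTF
  obtain ⟨ha, hae⟩ := h2 _ _ hFT hn
  rw [sub_eq_add_neg]
  refine ⟨ha, ?_⟩
  rw [hae, hne, he, add_neg_cancel]

theorem trace_comm (hRTR : Stmt_RTR) {S : Type} (b : Module.Basis S A M)
    (F H D E : M →ₗ[A] M) (hD : FR D) (hE : FR E) (hFH : FR (F ∘ₗ H - H ∘ₗ F)) :
    ftr b ((F + D) ∘ₗ (H + E) - (H + E) ∘ₗ (F + D)) = ftr b (F ∘ₗ H - H ∘ₗ F) := by
  obtain ⟨-, h2, h3, h4⟩ := hRTR b
  obtain ⟨h5, h5'⟩ := comm_zero hRTR b E F hE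
  obtain ⟨h6, h6'⟩ := comm_zero hRTR b D (H + E) hD
  obtain ⟨h7, h7'⟩ := h3 _ h5
  obtain ⟨h8, h8'⟩ := h2 _ _ hFH h7
  obtain ⟨h9, h9'⟩ := h2 _ _ h8 h6
  have e : (F + D) ∘ₗ (H + E) - (H + E) ∘ₗ (F + D) =
      ((F ∘ₗ H - H ∘ₗ F) + -(E ∘ₗ F - F ∘ₗ E)) + (D ∘ₗ (H + E) - (H + E) ∘ₗ D) := by
    simp only [LinearMap.add_comp, LinearMap.comp_add]
    abel
  rw [e, h9', h8', h7', h6', h5', neg_zero, add_zero, add_zero]

end general

variable {I A : Type} [CommRing A]

theorem exists_dense [Fintype I] {g : ℕ} {P : Subalgebra A (KK I A)} (h : IsKr g P) :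
    ∃ N : ℕ, Dense P N := by
  classical
  obtain ⟨L, hL, hk⟩ := h.k2
  choose v hv using fun j : Fin g => hL (Pi.single j 1)
  choose n hn using fun j : Fin g => exists_Pol (v j)
  refine ⟨Finset.univ.sup n, fun f => ?_⟩
  have h1 : L (f - ∑ j, L f j • v j) = 0 := by
    rw [map_sub, map_sum]
    simp only [map_smul, hv]
    ext k
    simp [Finset.sum_apply, Pi.single_apply]
  obtain ⟨p, hp, hp0⟩ := (hk _).1 h1
  refine ⟨p, hp, ?_⟩
  have e : f - p = (f - ∑ j, L f j • v j - p) + ∑ j, L f j • v j := by abel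
  rw [e]
  refine add_mem (Pol_mono (Int.natCast_nonneg _) hp0)
    (sum_mem fun j _ => Submodule.smul_mem _ _ (Pol_mono ?_ (hn j)))
  exact Int.ofNat_le.2 (Finset.le_sup (f := n) (Finset.mem_univ j))

/-- A coefficient as a linear functional. -/
noncomputable def cf (i : I) (m : ℤ) : KK I A →ₗ[A] A where
  toFun f := (f i).coeff m
  map_add' f g := by rw [Pi.add_apply, HahnSeries.coeff_add]
  map_smul' a f := by rw [Pi.smul_apply, HahnSeries.coeff_smul, RingHom.id_apply]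

@[simp] theorem cf_apply (i : I) (m : ℤ) (f : KK I A) : cf i m f = (f i).coeff m := rfl

section pi

variable (π : KK I A →ₗ[A] Neg I A) (s : KK I A →ₗ[A] KK I A)

/-- `x ↦ π (f * x)` -/
noncomputable def mpi (f : KK I A) : Neg I A →ₗ[A] Neg I A :=
  π ∘ₗ LinearMap.mulLeft A f ∘ₗ (Neg I A).subtype

@[simp] theorem mpi_apply (f : KK I A) (x : Neg I A) : mpi π f x = π (f * x) := rfl

/-- `x ↦ π (f * s x)` -/
noncomputable def til (f : KK I A) : Neg I A →ₗ[A] Neg I A :=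
  π ∘ₗ LinearMap.mulLeft A f ∘ₗ s ∘ₗ (Neg I A).subtype

@[simp] theorem til_apply (f : KK I A) (x : Neg I A) : til π s f x = π (f * s x) := rfl

variable {π s}

/-- Multiplication by `f` of regular series, followed by the polar part, is of finite rank. -/
theorem pi_mul_reg [Fintype I] (h0 : ∀ f ∈ Pol I A 0, π f = 0) {n : ℕ} {f : KK I A}
    (hf : f ∈ Pol I A n) {o : KK I A} (ho : o ∈ Pol I A 0) :
    π (f * o) = ∑ k : I × Fin n, cf k.1 ((k.2 : ℕ) : ℤ) o • π (f * mon k.1 ((k.2 : ℕ) : ℤ) 1) := by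
  classical
  have h1 : o - ∑ i, ∑ m ∈ Finset.Ico (-((0 : ℕ) : ℤ)) (n : ℤ), mon i m ((o i).coeff m) ∈
      Pol I A (-(n : ℤ)) := sub_mon_mem_Pol (by simpa using ho) (n : ℤ)
  have h2 := h0 _ (by simpa using mul_mem_Pol hf h1)
  rw [mul_sub, map_sub, sub_eq_zero] at h2
  rw [h2, Finset.mul_sum, map_sum, Fintype.sum_prod_type]
  refine Finset.sum_congr rfl fun i _ => ?_
  rw [Finset.mul_sum, map_sum]
  have e : Finset.Ico (0 : ℤ) (n : ℤ) = (Finset.range n).map Nat.castEmbedding := by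
    ext k
    simp only [Finset.mem_Ico, Finset.mem_map, Finset.mem_range, Nat.castEmbedding_apply]
    constructor
    · intro hk
      exact ⟨k.toNat, by omega, by omega⟩
    · rintro ⟨a, ha, rfl⟩
      omega
  rw [e, Finset.sum_map, Finset.sum_range]
  refine Finset.sum_congr rfl fun k _ => ?_
  rw [← map_smul]
  congr 1
  rw [← mul_smul_comm, smul_mon, mul_one]
  rfl

end pi

/-- The operators `x ↦ π (f * s x)` and `x ↦ π (f * x)` differ by an operator of finite rank. -/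
theorem fr_til [Fintype I] (hRTR : Stmt_RTR) {g : ℕ} {P : Subalgebra A (KK I A)} (hP : IsKr g P)
    {S : Type} (b : Module.Basis S A (Neg I A))
    {π : KK I A →ₗ[A] Neg I A} (h1 : ∀ f : KK I A, f - π f ∈ Pol I A 0)
    (h0 : ∀ f ∈ Pol I A 0, π f = 0)
    {s : KK I A →ₗ[A] KK I A} (hs : IsSec P s) (f : KK I A) :
    FR (til π s f - mpi π f) := by
  classical
  obtain ⟨L, hL, hk⟩ := hP.k2
  choose v hv using fun j : Fin g => hL (Pi.single j 1)
  obtain ⟨n, hn⟩ := exists_Pol f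
  -- `δ u = π (u - s u)`
  let δ : KK I A →ₗ[A] Neg I A := π ∘ₗ (LinearMap.id - s)
  have hδ : ∀ u, δ u = π (u - s u) := fun u => rfl
  have hδP : ∀ p ∈ P, δ p = 0 := fun p hp => by
    obtain ⟨a, ha⟩ := hs.eq p hp
    rw [hδ, ha]
    refine h0 _ ?_
    have e : p - (p + algebraMap A (KK I A) a) = - algebraMap A (KK I A) a := by abel
    rw [e]
    exact neg_mem (algebraMap_mem_Pol0 a)
  have hδ0 : ∀ o ∈ Pol I A 0, δ o = 0 := fun o ho => by
    rw [hδ, hs.zero o ho, sub_zero]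
    exact h0 o ho
  have hδu : ∀ u, δ u = ∑ j, L u j • δ (v j) := by
    intro u
    have h3 : L (u - ∑ j, L u j • v j) = 0 := by
      rw [map_sub, map_sum]
      simp only [map_smul, hv]
      ext k
      simp [Finset.sum_apply, Pi.single_apply]
    obtain ⟨p, hp, hp0⟩ := (hk _).1 h3
    have h4 := hδ0 _ hp0
    rw [map_sub, hδP p hp, sub_zero, map_sub, sub_eq_zero, map_sum] at h4
    rw [h4]
    exact Finset.sum_congr rfl fun j _ => map_smul _ _ _
  -- `o m = s m - m + δ m`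
  let o : Neg I A →ₗ[A] KK I A := s ∘ₗ (Neg I A).subtype - (Neg I A).subtype +
    (Neg I A).subtype ∘ₗ δ ∘ₗ (Neg I A).subtype
  have ho : ∀ m : Neg I A, o m = s m - m + (δ m : KK I A) := fun m => rfl
  have ho0 : ∀ m : Neg I A, o m ∈ Pol I A 0 := by
    intro m
    have h5 := h1 ((m : KK I A) - s m)
    rw [← hδ] at h5
    have e : o m = -((m : KK I A) - s m - (δ m : KK I A)) := by
      rw [ho]
      abel
    rw [e]
    exact neg_mem h5
  -- the two parts
  let D1 : Neg I A →ₗ[A] Neg I A := -(π ∘ₗ LinearMap.mulLeft A f ∘ₗ (Neg I A).subtype ∘ₗ δ ∘ₗ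
    (Neg I A).subtype)
  let D2 : Neg I A →ₗ[A] Neg I A := π ∘ₗ LinearMap.mulLeft A f ∘ₗ o
  have hD : til π s f - mpi π f = D1 + D2 := by
    refine LinearMap.ext fun m => ?_
    have e1 : D1 m = -π (f * (δ m : KK I A)) := rfl
    have e2 : D2 m = π (f * o m) := rfl
    rw [LinearMap.sub_apply, LinearMap.add_apply, e1, e2, til_apply, mpi_apply, ho, mul_add,
      mul_sub, map_add, map_sub]
    abel
  have hf1 : FR D1 := by
    refine ⟨g, fun j => (LinearMap.proj j) ∘ₗ L ∘ₗ (Neg I A).subtype,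
      fun j => -π (f * (δ (v j) : KK I A)), fun m => ?_⟩
    have e1 : D1 m = -π (f * (δ m : KK I A)) := rfl
    rw [e1, hδu, Submodule.coe_sum, Finset.mul_sum, map_sum, ← Finset.sum_neg_distrib]
    refine Finset.sum_congr rfl fun j _ => ?_
    rw [Submodule.coe_smul, mul_smul_comm, map_smul, smul_neg]
    rfl
  have hf2 : FR D2 := by
    refine fr_of_fintype D2 (fun k : I × Fin n => cf k.1 ((k.2 : ℕ) : ℤ) ∘ₗ o)
      (fun k => π (f * mon k.1 ((k.2 : ℕ) : ℤ) 1)) fun m => ?_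
    exact pi_mul_reg h0 hn (ho0 m)
  rw [hD]
  exact ((hRTR b).2.1 D1 D2 hf1 hf2).1

/-- The commutator of the operators `x ↦ π (f * s x)` has trace zero. -/
theorem ftr_til [Fintype I] [Nonempty I] (hRTR : Stmt_RTR) {P : Subalgebra A (KK I A)}
    {S : Type} (b : Module.Basis S A (Neg I A))
    {π : KK I A →ₗ[A] Neg I A} (h1 : ∀ f : KK I A, f - π f ∈ Pol I A 0)
    {s : KK I A →ₗ[A] KK I A} (hs : IsSec P s) {f h : KK I A} (hf : f ∈ P) (hh : h ∈ P) :
    ftr b (til π s f ∘ₗ til π s h - til π s h ∘ₗ til π s f) = 0 := by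
  classical
  obtain ⟨i₀⟩ := ‹Nonempty I›
  let c : KK I A →ₗ[A] A := cf i₀ 0 ∘ₗ (s - LinearMap.id)
  have hc : ∀ p ∈ P, s p = p + algebraMap A (KK I A) (c p) := by
    intro p hp
    obtain ⟨a, ha⟩ := hs.eq p hp
    have e : c p = a := by
      change ((s p - p) i₀).coeff 0 = a
      rw [ha, add_sub_cancel_left, Pi.algebraMap_apply, coeff_algebraMap, if_pos rfl]
    rw [e, ha]
  have hsπ : ∀ u, s (π u : KK I A) = s u := by
    intro u
    have h3 := hs.zero _ (h1 u)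
    rw [map_sub, sub_eq_zero] at h3
    exact h3.symm
  have key : ∀ f ∈ P, ∀ h ∈ P, ∀ m : Neg I A, til π s f (til π s h m) =
      π (f * (h * s m)) + c (h * s m) • π f := by
    intro f _ h hh m
    rw [til_apply, til_apply, hsπ, hc _ (mul_mem hh (hs.mem _)), mul_add, map_add]
    congr 1
    rw [mul_comm f (algebraMap A (KK I A) _), ← Algebra.smul_def, map_smul]
  have hC : ∀ m : Neg I A, (til π s f ∘ₗ til π s h - til π s h ∘ₗ til π s f) m =
      ∑ k : Fin 2, (![c ∘ₗ LinearMap.mulLeft A h ∘ₗ s ∘ₗ (Neg I A).subtype,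
        c ∘ₗ LinearMap.mulLeft A f ∘ₗ s ∘ₗ (Neg I A).subtype] k) m • (![π f, -π h] k) := by
    intro m
    rw [LinearMap.sub_apply, LinearMap.comp_apply, LinearMap.comp_apply, key f hf h hh,
      key h hh f hf, Fin.sum_univ_two]
    change π (f * (h * s m)) + c (h * s m) • π f - (π (h * (f * s m)) + c (f * s m) • π h) =
      c (h * s m) • π f + c (f * s m) • -π h
    rw [smul_neg, mul_left_comm]
    abel
  rw [((hRTR b).1 _ _ _ _ hC).2, Fin.sum_univ_two]
  change c (h * s (π f : KK I A)) + c (f * s ((-π h : Neg I A) : KK I A)) = 0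
  have hcc : ∀ f ∈ P, ∀ h ∈ P, c (h * s f) = c (h * f) + c f * c h := by
    intro f hf h _
    rw [hc f hf, mul_add, map_add, mul_comm h (algebraMap A (KK I A) _), ← Algebra.smul_def,
      map_smul, smul_eq_mul]
  rw [Submodule.coe_neg, map_neg, mul_neg, map_neg, hsπ, hsπ, hcc f hf h hh, hcc h hh f hf,
    mul_comm h f]
  ring

end RES

theorem t_RES (hRTR : Stmt_RTR) (hRTA : Stmt_RTA) (hKSP : Stmt_KSP) : Stmt_RES := by
  intro I A _ _ _ g P hP f hf h hh
  obtain ⟨π, b, h1, h0, -, -, hT⟩ := hRTA (I := I) (A := A)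
  obtain ⟨N, hN⟩ := RES.exists_dense hP
  obtain ⟨s, hs, -⟩ := ((hKSP hP).2 N hN).1
  obtain ⟨hFR, htr⟩ := hT h f (RES.mpi π h) (RES.mpi π f) (fun _ => rfl) (fun _ => rfl)
  have h3 := RES.trace_comm hRTR b (RES.mpi π h) (RES.mpi π f)
    (RES.til π s h - RES.mpi π h) (RES.til π s f - RES.mpi π f)
    (RES.fr_til hRTR hP b h1 h0 hs h) (RES.fr_til hRTR hP b h1 h0 hs f) hFR
  have e : ∀ F G : Neg I A →ₗ[A] Neg I A, F + (G - F) = G := fun F G =>
    LinearMap.ext fun m => by rw [LinearMap.add_apply, LinearMap.sub_apply, add_sub_cancel]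
  rw [e, e, RES.ftr_til hRTR b h1 hs hh hf] at h3
  rw [← htr, ← h3]

end Pool.Agent.MG.G0
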