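import Pool.Agent.MG.G0.StmtsR

/-!
# Invariance of the residue (RIN, PAPER RES4)
-/

namespace Pool.Agent.MG.G0

namespace RIN

section tr

variable {A M S : Type} [CommRing A] [AddCommGroup M] [Module A M]

theorem FR_of {σ : Type} (s : Finset σ) (l : σ → (M →ₗ[A] A)) (x : σ → M) (F : M →ₗ[A] M)
    (h : ∀ m, F m = ∑ k ∈ s, l k m • x k) : FR F := by
  refine ⟨s.card, fun k => l (s.equivFin.symm k), fun k => x (s.equivFin.symm k), fun m => ?_⟩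
  rw [h m, ← Finset.sum_coe_sort s]
  exact (Equiv.sum_comp s.equivFin.symm fun k : s => l k m • x k).symm

theorem comm0 (hRTR : Stmt_RTR) (b : Module.Basis S A M) {G : M →ₗ[A] M} (hG : FR G)
    (X : M →ₗ[A] M) : FR (G ∘ₗ X - X ∘ₗ G) ∧ ftr b (G ∘ₗ X - X ∘ₗ G) = 0 := by
  obtain ⟨_, hadd, hneg, hcomp⟩ := hRTR b
  obtain ⟨h1, h2, h3⟩ := hcomp G X hG
  obtain ⟨h4, h5⟩ := hneg _ h2
  obtain ⟨h6, h7⟩ := hadd _ _ h1 h4
  rw [sub_eq_add_neg]
  refine ⟨h6, ?_⟩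
  rw [h7, h5, h3, add_neg_cancel]

/-- The trace of a commutator does not change under conjugation and perturbations of finite
rank. -/
theorem pert (hRTR : Stmt_RTR) (b : Module.Basis S A M) {F H F' H' T U : M →ₗ[A] M}
    (hU : U ∘ₗ T = LinearMap.id) (hF : FR (F' - T ∘ₗ F ∘ₗ U)) (hH : FR (H' - T ∘ₗ H ∘ₗ U))
    (hc : FR (F ∘ₗ H - H ∘ₗ F)) :
    ftr b (F' ∘ₗ H' - H' ∘ₗ F') = ftr b (F ∘ₗ H - H ∘ₗ F) := by
  obtain ⟨_, hadd, hneg, hcomp⟩ := hRTR b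
  obtain ⟨G, hG⟩ : ∃ G, G = F' - T ∘ₗ F ∘ₗ U := ⟨_, rfl⟩
  obtain ⟨R, hR⟩ : ∃ R, R = H' - T ∘ₗ H ∘ₗ U := ⟨_, rfl⟩
  rw [← hG] at hF
  rw [← hR] at hH
  have e1 : F' = T ∘ₗ F ∘ₗ U + G := by rw [hG]; abel
  have e2 : H' = T ∘ₗ H ∘ₗ U + R := by rw [hR]; abel
  have hU' : ∀ x, U (T x) = x := fun x => LinearMap.congr_fun hU x
  have key : F' ∘ₗ H' - H' ∘ₗ F' =
      (T ∘ₗ ((F ∘ₗ H - H ∘ₗ F) ∘ₗ U)) + ((G ∘ₗ H' - H' ∘ₗ G) +
        -(R ∘ₗ (T ∘ₗ F ∘ₗ U) - (T ∘ₗ F ∘ₗ U) ∘ₗ R)) := by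
    rw [e1, e2]
    ext1 x
    simp only [LinearMap.sub_apply, LinearMap.add_apply, LinearMap.comp_apply,
      LinearMap.neg_apply, map_add, map_sub, hU']
    abel
  obtain ⟨c1, c2⟩ := comm0 hRTR b hF H'
  obtain ⟨c3, c4⟩ := comm0 hRTR b hH (T ∘ₗ F ∘ₗ U)
  obtain ⟨c5, c6⟩ := hneg _ c3
  obtain ⟨c7, c8⟩ := hadd _ _ c1 c5
  obtain ⟨d1, _, _⟩ := hcomp _ U hc
  obtain ⟨d2, d3, d4⟩ := hcomp _ T d1
  obtain ⟨_, d6⟩ := hadd _ _ d3 c7
  rw [key, d6, c8, c2, c6, c4, ← d4, neg_zero, add_zero, add_zero]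
  congr 1
  ext1 x
  simp only [LinearMap.comp_apply, hU']

end tr

section main

variable {I A : Type} [Fintype I] [CommRing A]

/-- Multiplication by `f`, followed by the polar part. -/
noncomputable def op (π : KK I A →ₗ[A] Neg I A) (f : KK I A) : Neg I A →ₗ[A] Neg I A :=
  π ∘ₗ (LinearMap.mulLeft A f) ∘ₗ (Neg I A).subtype

omit [Fintype I] in
theorem op_apply (π : KK I A →ₗ[A] Neg I A) (f : KK I A) (x : Neg I A) :
    op π f x = π (f * x) := rfl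

/-- An automorphism, followed by the polar part. -/
noncomputable def tr (π : KK I A →ₗ[A] Neg I A) (α : KK I A →ₗ[A] KK I A) :
    Neg I A →ₗ[A] Neg I A :=
  π ∘ₗ α ∘ₗ (Neg I A).subtype

omit [Fintype I] in
theorem tr_apply (π : KK I A →ₗ[A] Neg I A) (α : KK I A →ₗ[A] KK I A) (x : Neg I A) :
    tr π α x = π (α x) := rfl

/-- The coefficient functional of `y`. -/
noncomputable def cf (y : Neg I A →ₗ[A] KK I A) (q : I × ℤ) : Neg I A →ₗ[A] A where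
  toFun x := ((y x) q.1).coeff q.2
  map_add' x z := by
    rw [map_add]
    rfl
  map_smul' a x := by
    rw [map_smul]
    rfl

/-- Multiplication on series without poles is of finite rank on polar parts. -/
theorem finrank (π : KK I A →ₗ[A] Neg I A) (h2 : ∀ f ∈ Pol I A 0, π f = 0) (u : KK I A)
    (y : Neg I A →ₗ[A] KK I A) (hy : ∀ x, y x ∈ Pol I A 0) (G : Neg I A →ₗ[A] Neg I A)
    (hG : ∀ x, G x = π (u * y x)) : FR G := by
  classical
  obtain ⟨a, ha⟩ := exists_Pol u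
  refine FR_of ((Finset.univ : Finset I) ×ˢ Finset.Ico (0 : ℤ) a) (fun q => cf y q)
    (fun q => π (u * mon q.1 q.2 1)) G fun x => ?_
  have h0 : y x ∈ Pol I A ((0 : ℕ) : ℤ) := hy x
  have h3 := sub_mon_mem_Pol h0 (a : ℤ)
  have h4 : u * (y x - ∑ i, ∑ m ∈ Finset.Ico (-((0 : ℕ) : ℤ)) (a : ℤ),
      mon i m (((y x) i).coeff m)) ∈ Pol I A 0 := by
    have := mul_mem_Pol ha h3
    rwa [add_neg_cancel] at this
  have h5 := h2 _ h4
  rw [mul_sub, map_sub, sub_eq_zero] at h5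
  rw [hG, h5, Finset.mul_sum, map_sum, Finset.sum_product]
  refine Finset.sum_congr rfl fun i _ => ?_
  rw [Finset.mul_sum, map_sum, Nat.cast_zero, neg_zero]
  refine Finset.sum_congr rfl fun m _ => ?_
  have h6 : mon i m (((y x) i).coeff m) = ((y x) i).coeff m • mon i m (1 : A) := by
    rw [smul_mon, mul_one]
  rw [h6, mul_smul_comm, map_smul]
  rfl

end main

end RIN

open RIN in
theorem t_RIN (hRTR : Stmt_RTR) (hRTA : Stmt_RTA) : Stmt_RIN := by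
  intro I A _ _ α hα f h
  obtain ⟨π, b, h1, h2, h3, _, h5⟩ := hRTA (I := I) (A := A)
  obtain ⟨αl, hαl⟩ : ∃ αl : KK I A →ₗ[A] KK I A, ∀ x, αl x = α x :=
    ⟨(α : KK I A →ₐ[A] KK I A).toLinearMap, fun x => rfl⟩
  obtain ⟨βl, hβl⟩ : ∃ βl : KK I A →ₗ[A] KK I A, ∀ x, βl x = α.symm x :=
    ⟨(α.symm : KK I A →ₐ[A] KK I A).toLinearMap, fun x => rfl⟩
  have hβ : ∀ x, α.symm x ∈ Pol I A 0 ↔ x ∈ Pol I A 0 := by
    intro x
    rw [← hα, AlgEquiv.apply_symm_apply]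
  -- the polar part of `α y` depends only on the polar part of `y`
  have hp : ∀ y : KK I A, π (α (π y)) = π (α y) := by
    intro y
    have h6 : α (y - π y) ∈ Pol I A 0 := (hα _).2 (h1 y)
    have h7 := h2 _ h6
    rw [map_sub, map_sub, sub_eq_zero] at h7
    exact h7.symm
  have hq : ∀ y : KK I A, π (α.symm (π y)) = π (α.symm y) := by
    intro y
    have h6 : α.symm (y - π y) ∈ Pol I A 0 := (hβ _).2 (h1 y)
    have h7 := h2 _ h6
    rw [map_sub, map_sub, sub_eq_zero] at h7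
    exact h7.symm
  have hU : tr π βl ∘ₗ tr π αl = LinearMap.id := by
    ext1 x
    rw [LinearMap.comp_apply, tr_apply, tr_apply, hαl, hβl, hq, AlgEquiv.symm_apply_apply, h3]
    rfl
  have hfr : ∀ u : KK I A, FR (op π (α u) - tr π αl ∘ₗ op π u ∘ₗ tr π βl) := by
    intro u
    refine finrank π h2 (α u) ((Neg I A).subtype - αl ∘ₗ (Neg I A).subtype ∘ₗ tr π βl) ?_ _ ?_
    · intro x
      have h6 : α (α.symm x - π (α.symm x)) ∈ Pol I A 0 := (hα _).2 (h1 _)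
      rw [map_sub, AlgEquiv.apply_symm_apply] at h6
      rw [LinearMap.sub_apply, LinearMap.comp_apply, LinearMap.comp_apply, tr_apply, hαl, hβl]
      exact h6
    · intro x
      have e1 : (op π (α u) - tr π αl ∘ₗ op π u ∘ₗ tr π βl) x =
          π (α u * x) - π (αl (π (u * π (βl x)))) := rfl
      have e2 : ((Neg I A).subtype - αl ∘ₗ (Neg I A).subtype ∘ₗ tr π βl) x =
          x - αl (π (βl x)) := rfl
      rw [e1, e2, hαl, hαl, hβl, hp, map_mul α u, mul_sub, map_sub]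
  obtain ⟨c1, c2⟩ := h5 f h (op π f) (op π h) (fun _ => rfl) (fun _ => rfl)
  obtain ⟨_, c4⟩ := h5 (α f) (α h) (op π (α f)) (op π (α h)) (fun _ => rfl) (fun _ => rfl)
  rw [← c4, ← c2]
  exact pert hRTR b hU (hfr f) (hfr h) c1

end Pool.Agent.MG.G0
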