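import Pool.Agent.MG.G0.StmtsK

/-!
# Tate's formula for the residue (RTA, PAPER RES1)
-/

namespace Pool.Agent.MG.G0

namespace RTA

/-! ### Endomorphisms of finite rank -/

section fr

variable {A M S σ : Type} [CommRing A] [AddCommGroup M] [Module A M]

theorem FR_of (s : Finset σ) (l : σ → (M →ₗ[A] A)) (x : σ → M) (F : M →ₗ[A] M)
    (h : ∀ m, F m = ∑ k ∈ s, l k m • x k) : FR F := by
  refine ⟨s.card, fun k => l (s.equivFin.symm k), fun k => x (s.equivFin.symm k), fun m => ?_⟩
  rw [h m, ← Finset.sum_coe_sort s]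
  exact (Equiv.sum_comp s.equivFin.symm fun k : s => l k m • x k).symm

theorem ftr_of (b : Module.Basis S A M) (s : Finset σ) (l : σ → (M →ₗ[A] A)) (x : σ → M)
    (F : M →ₗ[A] M) (h : ∀ m, F m = ∑ k ∈ s, l k m • x k) :
    ftr b F = ∑ k ∈ s, l k (x k) := by
  classical
  set t : Finset S := s.biUnion fun k => (b.repr (x k)).support with ht
  have h1 : ∀ i, b.repr (F (b i)) i = ∑ k ∈ s, l k (b i) * b.repr (x k) i := by
    intro i
    rw [h (b i), map_sum, Finsupp.finsetSum_apply]
    refine Finset.sum_congr rfl fun k _ => ?_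
    rw [map_smul, Finsupp.smul_apply, smul_eq_mul]
  have h2 : (Function.support fun i => b.repr (F (b i)) i) ⊆ (t : Set S) := by
    intro i hi
    rw [Function.mem_support, h1] at hi
    obtain ⟨k, hk, hne⟩ := Finset.exists_ne_zero_of_sum_ne_zero hi
    rw [ht, Finset.mem_coe, Finset.mem_biUnion]
    exact ⟨k, hk, Finsupp.mem_support_iff.2 (right_ne_zero_of_mul hne)⟩
  rw [ftr, finsum_eq_sum_of_support_subset _ h2]
  simp only [h1]
  rw [Finset.sum_comm]
  refine Finset.sum_congr rfl fun k hk => ?_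
  have h3 : x k = ∑ i ∈ t, b.repr (x k) i • b i := by
    conv_lhs => rw [← b.linearCombination_repr (x k)]
    rw [Finsupp.linearCombination_apply, Finsupp.sum]
    refine Finset.sum_subset ?_ ?_
    · intro i hi
      rw [ht, Finset.mem_biUnion]
      exact ⟨k, hk, hi⟩
    · intro i _ hi
      rw [Finsupp.notMem_support_iff.1 hi, zero_smul]
  conv_rhs => rw [h3]
  rw [map_sum]
  refine Finset.sum_congr rfl fun i _ => ?_
  rw [map_smul, smul_eq_mul, mul_comm]

end fr

/-! ### The polar part -/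

section polar

variable {I A : Type} [CommRing A]

/-- The polar part of a Laurent series. -/
noncomputable def ln (f : LaurentSeries A) : LaurentSeries A where
  coeff m := if m < 0 then f.coeff m else 0
  isPWO_support' := f.isPWO_support.mono fun m hm => by
    rw [Function.mem_support] at hm
    rw [HahnSeries.mem_support]
    intro h
    apply hm
    rw [h]
    simp

theorem ln_coeff (f : LaurentSeries A) (m : ℤ) :
    (ln f).coeff m = if m < 0 then f.coeff m else 0 := rfl

variable (I A) in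
/-- The polar part. -/
noncomputable def pp : KK I A →ₗ[A] Neg I A where
  toFun f := ⟨fun i => ln (f i), fun i m hm => by rw [ln_coeff, if_neg (not_lt.2 hm)]⟩
  map_add' f g := by
    refine Subtype.ext (funext fun i => ?_)
    ext m
    change (ln ((f + g) i)).coeff m = (ln (f i) + ln (g i)).coeff m
    rw [HahnSeries.coeff_add, ln_coeff, ln_coeff, ln_coeff, Pi.add_apply, HahnSeries.coeff_add]
    split_ifs <;> simp
  map_smul' a f := by
    refine Subtype.ext (funext fun i => ?_)
    ext m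
    change (ln ((a • f) i)).coeff m = (a • ln (f i)).coeff m
    rw [HahnSeries.coeff_smul, ln_coeff, ln_coeff, Pi.smul_apply, HahnSeries.coeff_smul]
    split_ifs <;> simp

theorem pp_coeff (f : KK I A) (i : I) (m : ℤ) :
    ((pp I A f : KK I A) i).coeff m = if m < 0 then (f i).coeff m else 0 := rfl

theorem sub_pp (f : KK I A) : f - pp I A f ∈ Pol I A 0 := by
  intro i m hm
  rw [neg_zero] at hm
  rw [Pi.sub_apply, HahnSeries.coeff_sub, pp_coeff, if_pos hm, sub_self]

theorem pp_zero {f : KK I A} (hf : f ∈ Pol I A 0) : pp I A f = 0 := by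
  refine Subtype.ext (funext fun i => ?_)
  ext m
  rw [pp_coeff]
  split_ifs with h
  · rw [hf i m (by omega)]
    rfl
  · rfl

theorem pp_self (f : Neg I A) : pp I A f = f := by
  refine Subtype.ext (funext fun i => ?_)
  ext m
  rw [pp_coeff]
  split_ifs with h
  · rfl
  · exact (f.2 i m (not_lt.1 h)).symm

theorem mon_mem_Neg (i : I) (m : ℕ) : mon i (-((m : ℤ) + 1)) (1 : A) ∈ Neg I A := by
  intro j k hk
  rw [mon_coeff]
  simp only [ite_eq_right_iff, and_imp]
  intro _ h2
  omega

/-- The vectors of the basis. -/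
noncomputable def bv (q : I × ℕ) : Neg I A := ⟨mon q.1 (-((q.2 : ℤ) + 1)) 1, mon_mem_Neg q.1 q.2⟩

/-- The coefficients. -/
noncomputable def co (q : I × ℕ) : Neg I A →ₗ[A] A where
  toFun x := ((x : KK I A) q.1).coeff (-((q.2 : ℤ) + 1))
  map_add' x y := rfl
  map_smul' a x := rfl

theorem co_apply (q : I × ℕ) (x : Neg I A) :
    co q x = ((x : KK I A) q.1).coeff (-((q.2 : ℤ) + 1)) := rfl

theorem co_bv (q q' : I × ℕ) : co q (bv q' : Neg I A) = open Classical in
    if q' = q then 1 else 0 := by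
  classical
  rw [co_apply]
  change (mon q'.1 (-((q'.2 : ℤ) + 1)) (1 : A) q.1).coeff (-((q.2 : ℤ) + 1)) = _
  rw [mon_coeff]
  by_cases h : q' = q
  · subst h
    rw [if_pos rfl, if_pos ⟨rfl, rfl⟩]
  · rw [if_neg h, if_neg]
    rintro ⟨h1, h2⟩
    apply h
    refine Prod.ext h1.symm ?_
    omega

theorem Neg_ext {x y : Neg I A} (h : ∀ q : I × ℕ, co q x = co q y) : x = y := by
  refine Subtype.ext (funext fun i => ?_)
  ext m
  by_cases hm : m < 0
  · obtain ⟨k, hk⟩ : ∃ k : ℕ, m = -((k : ℤ) + 1) := ⟨(-m - 1).toNat, by omega⟩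
    have := h (i, k)
    rw [co_apply, co_apply] at this
    rw [hk]
    exact this
  · rw [x.2 i m (not_lt.1 hm), y.2 i m (not_lt.1 hm)]

theorem li : LinearIndependent A (bv : I × ℕ → Neg I A) := by
  classical
  rw [linearIndependent_iff']
  intro s g hg q hq
  have h1 := congrArg (co q) hg
  rw [map_sum, map_zero, Finset.sum_eq_single q] at h1
  · rw [map_smul, co_bv, if_pos rfl, smul_eq_mul, mul_one] at h1
    exact h1
  · intro q' _ hne
    rw [map_smul, co_bv, if_neg hne, smul_zero]
  · intro h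
    exact absurd hq h

theorem span_top [Fintype I] : (⊤ : Submodule A (Neg I A)) ≤ Submodule.span A (Set.range bv) := by
  classical
  intro x _
  obtain ⟨n, hn⟩ := exists_Pol (x : KK I A)
  have hx : x = ∑ q ∈ (Finset.univ : Finset I) ×ˢ Finset.range n, co q x • bv q := by
    refine Neg_ext fun q => ?_
    rw [map_sum]
    by_cases hq : q.2 < n
    · rw [Finset.sum_eq_single q]
      · rw [map_smul, co_bv, if_pos rfl, smul_eq_mul, mul_one]
      · intro q' _ hne
        rw [map_smul, co_bv, if_neg hne, smul_zero]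
      · intro h
        exfalso
        apply h
        rw [Finset.mem_product]
        exact ⟨Finset.mem_univ _, Finset.mem_range.2 hq⟩
    · rw [Finset.sum_eq_zero]
      · rw [co_apply]
        exact hn q.1 _ (by omega)
      · intro q' hq'
        rw [Finset.mem_product, Finset.mem_range] at hq'
        rw [map_smul, co_bv, if_neg, smul_zero]
        rintro rfl
        exact hq hq'.2
  rw [hx]
  exact Submodule.sum_mem _ fun q _ => Submodule.smul_mem _ _ (Submodule.subset_span ⟨q, rfl⟩)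

variable (I A) in
/-- The basis. -/
noncomputable def bb [Fintype I] : Module.Basis (I × ℕ) A (Neg I A) := Module.Basis.mk li span_top

theorem bb_apply [Fintype I] (q : I × ℕ) : bb I A q = bv q := Module.Basis.mk_apply _ _ _

/-! ### The commutator -/

/-- Multiplication by a series in the nonnegative part. -/
theorem pos_part [Fintype I] {a : ℕ} {f : KK I A} (hf : f ∈ Pol I A a) (y : KK I A) :
    pp I A (f * (y - pp I A y)) =
      ∑ q ∈ (Finset.univ : Finset I) ×ˢ Finset.Ico (0 : ℤ) a,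
        (y q.1).coeff q.2 • pp I A (f * mon q.1 q.2 1) := by
  classical
  have h0 : y - pp I A y ∈ Pol I A ((0 : ℕ) : ℤ) := sub_pp y
  have h1 := sub_mon_mem_Pol h0 (a : ℤ)
  have h2 : f * (y - pp I A y - ∑ i, ∑ m ∈ Finset.Ico (-((0 : ℕ) : ℤ)) (a : ℤ),
      mon i m (((y - pp I A y) i).coeff m)) ∈ Pol I A 0 := by
    have := mul_mem_Pol hf h1
    rwa [add_neg_cancel] at this
  have h3 := pp_zero h2
  rw [mul_sub, map_sub, sub_eq_zero] at h3
  rw [h3, Finset.mul_sum, map_sum, Finset.sum_product]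
  refine Finset.sum_congr rfl fun i _ => ?_
  rw [Finset.mul_sum, map_sum]
  rw [show (-((0 : ℕ) : ℤ)) = 0 by simp]
  refine Finset.sum_congr rfl fun m hm => ?_
  rw [Finset.mem_Ico] at hm
  have h4 : ((y - pp I A y) i).coeff m = (y i).coeff m := by
    rw [Pi.sub_apply, HahnSeries.coeff_sub, pp_coeff, if_neg (by omega), sub_zero]
  have h5 : mon i m (((y - pp I A y) i).coeff m) = (y i).coeff m • mon i m (1 : A) := by
    rw [smul_mon, mul_one, h4]
  rw [h5, mul_smul_comm, map_smul]

/-- The functional of the commutator. -/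
noncomputable def fl (f : KK I A) (q : I × ℤ) : Neg I A →ₗ[A] A where
  toFun x := ((f * (x : KK I A)) q.1).coeff q.2
  map_add' x y := by
    rw [Submodule.coe_add, mul_add]
    rfl
  map_smul' a x := by
    rw [Submodule.coe_smul, mul_smul_comm]
    rfl

theorem fl_apply (f : KK I A) (q : I × ℤ) (x : Neg I A) :
    fl f q x = ((f * (x : KK I A)) q.1).coeff q.2 := rfl

/-- The diagonal values. -/
theorem fl_val {a : ℕ} {f h : KK I A} (hf : f ∈ Pol I A a) (hh : h ∈ Pol I A a) (i : I) {j : ℤ}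
    (hj : 0 ≤ j) : fl f (i, j) (pp I A (h * mon i j 1)) =
      ∑ p ∈ Finset.Icc (-(a : ℤ)) a,
        if j < p then (f i).coeff p * (h i).coeff (-p) else 0 := by
  classical
  have hc : ∀ m : ℤ, ((h * mon i j (1 : A) : KK I A) i).coeff m = (h i).coeff (m - j) := by
    intro m
    rw [Pi.mul_apply, mon, if_pos rfl]
    have : m = (m - j) + j := by ring
    conv_lhs => rw [this]
    rw [HahnSeries.coeff_mul_single_add, mul_one]
  have hg : ∀ m < -(a : ℤ), ((pp I A (h * mon i j 1) : KK I A) i).coeff m = 0 := by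
    intro m hm
    rw [pp_coeff, hc]
    split_ifs
    · exact hh i _ (by omega)
    · rfl
  rw [fl_apply]
  change (f i * (pp I A (h * mon i j 1) : KK I A) i).coeff j = _
  rw [coeff_mul_Icc (hf i) hg]
  have e1 : ∀ p : ℤ, (f i).coeff p * ((pp I A (h * mon i j 1) : KK I A) i).coeff (j - p) =
      if j < p then (f i).coeff p * (h i).coeff (-p) else 0 := by
    intro p
    rw [pp_coeff, hc]
    have e2 : j - p - j = -p := by ring
    rw [e2]
    by_cases hp : j < p
    · rw [if_pos hp, if_pos (by omega)]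
    · rw [if_neg hp, if_neg (by omega), mul_zero]
  rw [Finset.sum_congr rfl fun p _ => e1 p]
  symm
  refine Finset.sum_subset ?_ ?_
  · intro p hp
    rw [Finset.mem_Icc] at hp ⊢
    omega
  · intro p _ hp
    rw [Finset.mem_Icc] at hp
    split_ifs with h1
    · rw [hh i (-p) (by omega), mul_zero]
    · rfl

/-- The sum over the exponents. -/
theorem sum_val {a : ℕ} {f h : KK I A} (hf : f ∈ Pol I A a) (hh : h ∈ Pol I A a) (i : I) :
    ∑ j ∈ Finset.Ico (0 : ℤ) a, fl f (i, j) (pp I A (h * mon i j 1)) =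
      ∑ p ∈ Finset.Icc (-(a : ℤ)) a, (p.toNat : A) * ((f i).coeff p * (h i).coeff (-p)) := by
  classical
  have h1 : ∀ j ∈ Finset.Ico (0 : ℤ) a, fl f (i, j) (pp I A (h * mon i j 1)) =
      ∑ p ∈ Finset.Icc (-(a : ℤ)) a,
        if j < p then (f i).coeff p * (h i).coeff (-p) else 0 := fun j hj =>
    fl_val hf hh i (Finset.mem_Ico.1 hj).1
  rw [Finset.sum_congr rfl h1, Finset.sum_comm]
  refine Finset.sum_congr rfl fun p hp => ?_
  rw [Finset.mem_Icc] at hp
  rw [← Finset.sum_filter, Finset.sum_const, nsmul_eq_mul]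
  congr 2
  have h2 : (Finset.Ico (0 : ℤ) a).filter (fun j => j < p) = Finset.Ico 0 p := by
    ext j
    rw [Finset.mem_filter, Finset.mem_Ico, Finset.mem_Ico]
    omega
  rw [h2, Int.card_Ico, sub_zero]

theorem res_val [Fintype I] {a : ℕ} {f h : KK I A} (hf : f ∈ Pol I A a) (hh : h ∈ Pol I A a) :
    res (h * dd f) = ∑ i, ∑ p ∈ Finset.Icc (-(a : ℤ)) a,
      (p : A) * ((f i).coeff p * (h i).coeff (-p)) := by
  change ∑ i, ((h * dd f) i).coeff (-1) = _
  refine Finset.sum_congr rfl fun i _ => ?_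
  change (h i * ld (f i)).coeff (-1) = _
  have hd : ∀ m < -(a : ℤ) - 1, (ld (f i)).coeff m = 0 := by
    intro m hm
    rw [ld_coeff, hf i _ (by omega), mul_zero]
  rw [coeff_mul_Icc (hh i) hd]
  have e0 : (-1 : ℤ) - (-(a : ℤ) - 1) = a := by ring
  rw [e0]
  refine Finset.sum_nbij' (fun q => -q) (fun q => -q) ?_ ?_ ?_ ?_ ?_
  · intro q hq
    rw [Finset.mem_Icc] at hq ⊢
    omega
  · intro q hq
    rw [Finset.mem_Icc] at hq ⊢
    omega
  · intro q _
    ring
  · intro q _
    ring
  · intro q _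
    rw [ld_coeff]
    have e1 : (-1 : ℤ) - q + 1 = -q := by ring
    rw [e1, neg_neg]
    ring

end polar

end RTA

open RTA in
theorem t_RTA : Stmt_RTA := by
  classical
  intro I A _ _
  refine ⟨pp I A, bb I A, sub_pp, fun f hf => pp_zero hf, pp_self, fun i m => by
    rw [bb_apply]
    rfl, ?_⟩
  intro f h F H hF hH
  obtain ⟨n1, hn1⟩ := exists_Pol f
  obtain ⟨n2, hn2⟩ := exists_Pol h
  set a : ℕ := max n1 n2 with ha
  have hf : f ∈ Pol I A a := Pol_mono (by simp [ha]) hn1
  have hh : h ∈ Pol I A a := Pol_mono (by simp [ha]) hn2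
  set s : Finset (I × ℤ) := (Finset.univ : Finset I) ×ˢ Finset.Ico (0 : ℤ) a with hs
  set l : (I × ℤ) ⊕ (I × ℤ) → (Neg I A →ₗ[A] A) :=
    Sum.elim (fun q => fl f q) (fun q => fl h q) with hl
  set x : (I × ℤ) ⊕ (I × ℤ) → Neg I A :=
    Sum.elim (fun q => pp I A (h * mon q.1 q.2 1)) (fun q => - pp I A (f * mon q.1 q.2 1)) with hx
  have key : ∀ m : Neg I A, (F ∘ₗ H - H ∘ₗ F) m = ∑ k ∈ s.disjSum s, l k m • x k := by
    intro m
    have e1 : (F ∘ₗ H - H ∘ₗ F) m = F (H m) - H (F m) := rfl
    have e2 : F (H m) = pp I A (f * (h * m)) - pp I A (f * (h * m - pp I A (h * m))) := by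
      rw [hF, hH, ← map_sub, ← mul_sub, sub_sub_cancel]
    have e3 : H (F m) = pp I A (h * (f * m)) - pp I A (h * (f * m - pp I A (f * m))) := by
      rw [hH, hF, ← map_sub, ← mul_sub, sub_sub_cancel]
    have e4 : f * (h * (m : KK I A)) = h * (f * m) := by ring
    rw [e1, e2, e3, pos_part hf, pos_part hh, e4, Finset.sum_disjSum]
    simp only [hl, hx, Sum.elim_inl, Sum.elim_inr, smul_neg, Finset.sum_neg_distrib, fl_apply]
    abel
  refine ⟨FR_of _ l x _ key, ?_⟩
  rw [ftr_of (bb I A) _ l x _ key, Finset.sum_disjSum]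
  simp only [hl, hx, Sum.elim_inl, Sum.elim_inr, map_neg, Finset.sum_neg_distrib]
  rw [hs, Finset.sum_product, Finset.sum_product, res_val hf hh]
  rw [Finset.sum_congr rfl fun i _ => sum_val hf hh i, Finset.sum_congr rfl fun i _ => sum_val hh hf i,
    ← sub_eq_add_neg, ← Finset.sum_sub_distrib]
  refine Finset.sum_congr rfl fun i _ => ?_
  have e5 : ∑ p ∈ Finset.Icc (-(a : ℤ)) a, (p.toNat : A) * ((h i).coeff p * (f i).coeff (-p)) =
      ∑ p ∈ Finset.Icc (-(a : ℤ)) a, ((-p).toNat : A) * ((f i).coeff p * (h i).coeff (-p)) := by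
    refine Finset.sum_nbij' (fun q => -q) (fun q => -q) ?_ ?_ ?_ ?_ ?_
    · intro q hq
      rw [Finset.mem_Icc] at hq ⊢
      omega
    · intro q hq
      rw [Finset.mem_Icc] at hq ⊢
      omega
    · intro q _
      ring
    · intro q _
      ring
    · intro q _
      rw [neg_neg]
      ring
  rw [e5, ← Finset.sum_sub_distrib]
  refine Finset.sum_congr rfl fun p _ => ?_
  rw [← sub_mul]
  congr 1
  have e6 : (p : ℤ) = (p.toNat : ℤ) - ((-p).toNat : ℤ) := by omega
  conv_rhs => rw [e6]
  push_cast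
  rfl

end Pool.Agent.MG.G0
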