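import Pool.Agent.MG.G0.StmtsK

/-!
# RES0: the trace of endomorphisms of finite rank
-/

namespace Pool.Agent.MG.G0.RTR

variable {A M S : Type} [CommRing A] [AddCommGroup M] [Module A M]

theorem main (b : Module.Basis S A M) (F : M →ₗ[A] M) (n : ℕ) (l : Fin n → (M →ₗ[A] A))
    (x : Fin n → M) (h : ∀ m, F m = ∑ k, l k m • x k) :
    (Function.support fun i => b.repr (F (b i)) i).Finite ∧ ftr b F = ∑ k, l k (x k) := by
  classical
  set U : Finset S := Finset.univ.biUnion fun k => (b.repr (x k)).support with hU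
  have h1 : ∀ i, b.repr (F (b i)) i = ∑ k, l k (b i) * b.repr (x k) i := by
    intro i
    rw [h, map_sum, Finsupp.finsetSum_apply]
    refine Finset.sum_congr rfl fun k _ => ?_
    rw [map_smul, Finsupp.smul_apply, smul_eq_mul]
  have h2 : (Function.support fun i => b.repr (F (b i)) i) ⊆ (U : Set S) := by
    intro i hi
    rw [Function.mem_support, h1] at hi
    obtain ⟨k, _, hk⟩ := Finset.exists_ne_zero_of_sum_ne_zero hi
    rw [Finset.mem_coe, hU, Finset.mem_biUnion]
    exact ⟨k, Finset.mem_univ k, Finsupp.mem_support_iff.mpr (right_ne_zero_of_mul hk)⟩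
  refine ⟨(Finset.finite_toSet U).subset h2, ?_⟩
  rw [ftr, finsum_eq_sum_of_support_subset _ h2]
  simp only [h1]
  rw [Finset.sum_comm]
  refine Finset.sum_congr rfl fun k _ => ?_
  have h3 : x k = ∑ i ∈ U, b.repr (x k) i • b i := by
    have h4 : (b.repr (x k)).support ⊆ U := by
      intro i hi
      rw [hU, Finset.mem_biUnion]
      exact ⟨k, Finset.mem_univ k, hi⟩
    conv_lhs => rw [← b.linearCombination_repr (x k), Finsupp.linearCombination_apply]
    rw [Finsupp.sum_of_support_subset _ h4]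
    intro i _
    rw [zero_smul]
  conv_rhs => rw [h3, map_sum]
  refine Finset.sum_congr rfl fun i _ => ?_
  rw [map_smul, smul_eq_mul, mul_comm]

theorem fin_supp (b : Module.Basis S A M) {F : M →ₗ[A] M} (hF : FR F) :
    (Function.support fun i => b.repr (F (b i)) i).Finite := by
  obtain ⟨n, l, x, h⟩ := hF
  exact (main b F n l x h).1

theorem fr_add {F G : M →ₗ[A] M} (hF : FR F) (hG : FR G) : FR (F + G) := by
  obtain ⟨n, l, x, h⟩ := hF
  obtain ⟨n', l', x', h'⟩ := hG
  refine ⟨n + n', Fin.append l l', Fin.append x x', fun m => ?_⟩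
  rw [LinearMap.add_apply, h, h', Fin.sum_univ_add]
  simp only [Fin.append_left, Fin.append_right]

theorem fr_neg {F : M →ₗ[A] M} (hF : FR F) : FR (-F) := by
  obtain ⟨n, l, x, h⟩ := hF
  refine ⟨n, fun k => - l k, x, fun m => ?_⟩
  rw [LinearMap.neg_apply, h, ← Finset.sum_neg_distrib]
  refine Finset.sum_congr rfl fun k _ => ?_
  rw [LinearMap.neg_apply, neg_smul]

end Pool.Agent.MG.G0.RTR

namespace Pool.Agent.MG.G0

theorem t_RTR : Stmt_RTR := by
  intro A M S _ _ _ b
  refine ⟨fun F n l x h => RTR.main b F n l x h, ?_, ?_, ?_⟩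
  · intro F G hF hG
    refine ⟨RTR.fr_add hF hG, ?_⟩
    unfold ftr
    rw [← finsum_add_distrib (RTR.fin_supp b hF) (RTR.fin_supp b hG)]
    refine finsum_congr fun i => ?_
    rw [LinearMap.add_apply, map_add, Finsupp.add_apply]
  · intro F hF
    refine ⟨RTR.fr_neg hF, ?_⟩
    unfold ftr
    rw [← finsum_neg_distrib]
    refine finsum_congr fun i => ?_
    rw [LinearMap.neg_apply, map_neg, Finsupp.neg_apply]
  · rintro F T ⟨n, l, x, h⟩
    have h1 : ∀ m, (F ∘ₗ T) m = ∑ k, (l k ∘ₗ T) m • x k := by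
      intro m
      rw [LinearMap.comp_apply, h]
      rfl
    have h2 : ∀ m, (T ∘ₗ F) m = ∑ k, l k m • T (x k) := by
      intro m
      rw [LinearMap.comp_apply, h, map_sum]
      refine Finset.sum_congr rfl fun k _ => ?_
      rw [map_smul]
    refine ⟨⟨n, fun k => l k ∘ₗ T, x, h1⟩, ⟨n, l, fun k => T (x k), h2⟩, ?_⟩
    rw [(RTR.main b (F ∘ₗ T) n (fun k => l k ∘ₗ T) x h1).2,
      (RTR.main b (T ∘ₗ F) n l (fun k => T (x k)) h2).2]
    rfl

end Pool.Agent.MG.G0
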