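import Pool.Agent.MG.G0.StmtsS

/-!
# Base change of smooth Krichever rings (PAPER SM6)
-/

open TensorProduct

namespace Pool.Agent.MG.G0

namespace SDB

variable {I A B : Type} [CommRing A] [CommRing B]

theorem mem_bc_iff (hKBC : Stmt_KBC) (φ : A →+* B) (P : Subalgebra A (KK I A)) {f : KK I B} :
    f ∈ bc φ P ↔ f ∈ Submodule.span B (kmap φ '' (P : Set (KK I A))) := by
  rw [← hKBC.1 φ P, Subalgebra.mem_toSubmodule]

theorem kmap_mem_TT (hKBC : Stmt_KBC) (φ : A →+* B) {P : Subalgebra A (KK I A)} {θ : KK I A}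
    (hθ : θ ∈ TT P) : kmap φ θ ∈ TT (bc φ P) := by
  intro f hf
  rw [mem_bc_iff hKBC] at hf
  induction hf using Submodule.span_induction with
  | mem x hx =>
    obtain ⟨p, hp, rfl⟩ := hx
    rw [← kmap_dd, ← map_mul]
    exact kmap_mem_bc φ (hθ p hp)
  | zero =>
    have h0 : dd (0 : KK I B) = 0 := map_zero (ddD I B)
    rw [h0, mul_zero]
    exact zero_mem _
  | add x y _ _ hx hy =>
    rw [dd_add, mul_add]
    exact add_mem hx hy
  | smul b x _ hx =>
    rw [dd_smul, mul_smul_comm]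
    exact (bc φ P).smul_mem hx b

theorem mul_mem_TT {P : Subalgebra A (KK I A)} {p θ : KK I A} (hp : p ∈ P) (hθ : θ ∈ TT P) :
    p * θ ∈ TT P := fun f hf => by
  rw [mul_assoc]
  exact mul_mem hp (hθ f hf)

/-- The vector fields on the base change. -/
theorem TT_bc [Fintype I] [Nonempty I] (hKBC : Stmt_KBC) (hSTO : Stmt_STO) {g : ℕ}
    {P : Subalgebra A (KK I A)} (hP : IsKr g P) (hS : SmC A P) (φ : A →+* B) :
    TT (bc φ P) = Submodule.span B (kmap φ '' (TT P : Set (KK I A))) := by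
  obtain ⟨-, -, -, -, h⟩ := hSTO hP
  obtain ⟨-, ⟨n, θ, g', hθ, hg', h1⟩, -⟩ := h hS
  refine le_antisymm ?_ ?_
  · intro x hx
    have e1 : x = ∑ i, (x * dd (kmap φ (g' i))) * kmap φ (θ i) := by
      have e2 : kmap φ (∑ i, θ i * dd (g' i)) = 1 := by rw [h1, map_one]
      rw [map_sum] at e2
      calc x = x * 1 := (mul_one x).symm
        _ = x * ∑ i, kmap φ (θ i * dd (g' i)) := by rw [e2]
        _ = ∑ i, (x * dd (kmap φ (g' i))) * kmap φ (θ i) := by
          rw [Finset.mul_sum]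
          refine Finset.sum_congr rfl fun i _ => ?_
          rw [map_mul, kmap_dd]
          ring
    rw [e1]
    refine sum_mem fun i _ => ?_
    have h2 : x * dd (kmap φ (g' i)) ∈ bc φ P := hx _ (kmap_mem_bc φ (hg' i))
    rw [mem_bc_iff hKBC] at h2
    generalize x * dd (kmap φ (g' i)) = w at h2 ⊢
    induction h2 using Submodule.span_induction with
    | mem y hy =>
      obtain ⟨p, hp, rfl⟩ := hy
      rw [← map_mul]
      exact Submodule.subset_span ⟨p * θ i, mul_mem_TT hp (hθ i), rfl⟩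
    | zero =>
      rw [zero_mul]
      exact zero_mem _
    | add y z _ _ hy hz =>
      rw [add_mul]
      exact add_mem hy hz
    | smul b y _ hy =>
      rw [smul_mul_assoc]
      exact Submodule.smul_mem _ b hy
  · rw [Submodule.span_le]
    rintro _ ⟨θ', hθ', rfl⟩
    exact kmap_mem_TT hKBC φ hθ'

/-- Smoothness of the base change. -/
theorem SmC_bc [Fintype I] [Nonempty I] (hKBT : Stmt_KBT) (hSBC : Stmt_SBC) {g : ℕ}
    {P : Subalgebra A (KK I A)} (hP : IsKr g P) (hS : SmC A P) (φ : A →+* B) :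
    SmC B (bc φ P) := by
  let _ : Algebra A B := φ.toAlgebra
  obtain ⟨-, e, -⟩ := hKBT (B := B) hP
  exact hSBC.2.1 e (hSBC.1 hS)

end SDB

theorem t_SDB (hKBC : Stmt_KBC) (hKBT : Stmt_KBT) (hSTO : Stmt_STO) (hSBC : Stmt_SBC)
    (hPBC : Stmt_PBC) : Stmt_SDB := by
  intro I A B _ _ _ _ g P hP hS φ
  refine ⟨SDB.SmC_bc hKBT hSBC hP hS φ, fun hD => ?_, SDB.TT_bc hKBC hSTO hP hS φ⟩
  intro θ hθ η hη
  rw [SDB.TT_bc hKBC hSTO hP hS φ] at hθ
  rw [hPBC hP φ] at hη
  induction hθ using Submodule.span_induction with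
  | mem x hx =>
    obtain ⟨θ', hθ', rfl⟩ := hx
    induction hη using Submodule.span_induction with
    | mem y hy =>
      obtain ⟨η', hη', rfl⟩ := hy
      rw [← map_mul]
      exact kmap_mem_bc φ (hD θ' hθ' η' hη')
    | zero =>
      rw [mul_zero]
      exact zero_mem _
    | add y z _ _ hy hz =>
      rw [mul_add]
      exact add_mem hy hz
    | smul b y _ hy =>
      rw [mul_smul_comm]
      exact (bc φ P).smul_mem hy b
  | zero =>
    rw [zero_mul]
    exact zero_mem _
  | add y z _ _ hy hz =>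
    rw [add_mul]
    exact add_mem hy hz
  | smul b y _ hy =>
    rw [smul_mul_assoc]
    exact (bc φ P).smul_mem hy b

end Pool.Agent.MG.G0
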