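import Pool.Agent.MG.G0.StmtsS
import Pool.Agent.MG.G0.KNZ

/-!
# Module SDF (PAPER SM8): duality over algebraically closed fields
-/

namespace Pool.Agent.MG.G0

namespace SDF

section general

variable {I A : Type} [CommRing A]

theorem theta_om {P : Subalgebra A (KK I A)} {θ ω : KK I A} (hθ : θ ∈ TT P) (hω : ω ∈ Om P) :
    θ * ω ∈ P := by
  refine Submodule.span_induction (p := fun ω _ => θ * ω ∈ P) ?_ ?_ ?_ ?_ hω
  · rintro _ ⟨p, hp, f, hf, rfl⟩
    have h : θ * (p * dd f) = p * (θ * dd f) := by ring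
    rw [h]
    exact mul_mem hp (hθ f hf)
  · rw [mul_zero]
    exact zero_mem P
  · intro x y _ _ hx hy
    rw [mul_add]
    exact add_mem hx hy
  · intro a x _ hx
    rw [mul_smul_comm]
    exact P.smul_mem hx a

theorem mul_dd_mem_Om {P : Subalgebra A (KK I A)} {p f : KK I A} (hp : p ∈ P) (hf : f ∈ P) :
    p * dd f ∈ Om P := Submodule.subset_span ⟨p, hp, f, hf, rfl⟩

theorem psl_coeff_nat (f : PowerSeries A) (n : ℕ) :
    (psl A f).coeff (n : ℤ) = PowerSeries.coeff n f := by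
  rw [psl, HahnSeries.ofPowerSeries_apply_coeff]

theorem psl_coeff_neg (f : PowerSeries A) {m : ℤ} (hm : m < 0) : (psl A f).coeff m = 0 := by
  rw [psl, HahnSeries.ofPowerSeries_apply]
  refine HahnSeries.embDomain_of_notMem_range ?_
  rintro ⟨n, hn⟩
  have h2 : ((n : ℕ) : ℤ) = m := hn
  omega

theorem ld_psl (f : PowerSeries A) : ld (psl A f) = psl A (PowerSeries.derivative A f) := by
  ext m
  rw [ld_coeff]
  rcases lt_or_ge m 0 with hm | hm
  · rw [psl_coeff_neg _ hm]
    rcases eq_or_ne (m + 1) 0 with h | h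
    · rw [h]
      simp
    · rw [psl_coeff_neg f (by omega), mul_zero]
  · obtain ⟨n, rfl⟩ := Int.eq_ofNat_of_zero_le hm
    have e : ((n : ℤ) + 1) = ((n + 1 : ℕ) : ℤ) := by push_cast; ring
    rw [e, psl_coeff_nat, psl_coeff_nat, PowerSeries.coeff_derivative]
    push_cast
    ring

end general

section finite

variable {I κ : Type} [Fintype I] [Nonempty I] [Field κ] {g : ℕ} {P : Subalgebra κ (KK I κ)}

/-- The series in `Perp P` with bounded poles form a space of finite dimension. -/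
theorem perp_pol (hP : IsKr g P) (M : ℕ) :
    (Perp P ⊓ Pol I κ M : Submodule κ (KK I κ)).FG := by
  classical
  obtain ⟨L, hL, hker⟩ := hP.k2
  choose v hv using fun j : Fin g => hL (Pi.single j 1)
  rw [← Module.Finite.iff_fg]
  let F : ↥(Perp P ⊓ Pol I κ M : Submodule κ (KK I κ)) →ₗ[κ] (Fin g → κ) × (I × Fin M → κ) :=
    { toFun := fun x => (fun j => res ((x : KK I κ) * v j),
        fun q => ((x : KK I κ) q.1).coeff (-((q.2 : ℕ) : ℤ) - 1))
      map_add' := fun x y => by
        refine Prod.ext (funext fun j => ?_) (funext fun q => ?_)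
        · change res (((x : KK I κ) + (y : KK I κ)) * v j) =
            res ((x : KK I κ) * v j) + res ((y : KK I κ) * v j)
          rw [add_mul, map_add]
        · change ((x : KK I κ) q.1 + (y : KK I κ) q.1).coeff _ = _
          rw [HahnSeries.coeff_add]
          rfl
      map_smul' := fun a x => by
        refine Prod.ext (funext fun j => ?_) (funext fun q => ?_)
        · change res ((a • (x : KK I κ)) * v j) = a • res ((x : KK I κ) * v j)
          rw [smul_mul_assoc, map_smul]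
        · change (a • (x : KK I κ) q.1).coeff _ = _
          rw [HahnSeries.coeff_smul]
          rfl }
  refine Module.Finite.of_injective F ?_
  rw [injective_iff_map_eq_zero]
  intro x hx
  have h1 : ∀ j, res ((x : KK I κ) * v j) = 0 := fun j => congrFun (congrArg Prod.fst hx) j
  have h2 : ∀ q : I × Fin M, ((x : KK I κ) q.1).coeff (-((q.2 : ℕ) : ℤ) - 1) = 0 :=
    fun q => congrFun (congrArg Prod.snd hx) q
  have h3 : (x : KK I κ) ∈ Pol I κ 0 := by
    intro i m hm
    by_cases h : m < -(M : ℤ)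
    · exact x.2.2 i m h
    · have h4 := h2 (i, ⟨(-m - 1).toNat, by omega⟩)
      have e : (-(((-m - 1).toNat : ℕ) : ℤ) - 1) = m := by omega
      simpa only [e] using h4
  have h5 : ∀ f : KK I κ, res ((x : KK I κ) * f) = 0 := by
    intro f
    have h0 : L (f - ∑ j, L f j • v j) = 0 := by
      rw [map_sub, map_sum]
      have h1 : ∀ j : Fin g, L (L f j • v j) = Pi.single j (L f j) := fun j => by
        rw [map_smul, hv]
        funext k
        by_cases hk : k = j
        · subst hk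
          simp
        · simp [Pi.single_eq_of_ne hk]
      rw [Finset.sum_congr rfl fun j _ => h1 j, Finset.univ_sum_single, sub_self]
    obtain ⟨p, hp, hp'⟩ := (hker _).1 h0
    have e : (x : KK I κ) * f = (x : KK I κ) * (f - ∑ j, L f j • v j - p) + (x : KK I κ) * p +
        ∑ j, L f j • ((x : KK I κ) * v j) := by
      simp only [← mul_smul_comm, ← Finset.mul_sum]
      ring
    rw [e, map_add, map_add, res_Pol0 (mul_mem_Pol0 h3 hp'), x.2.1 p hp, map_sum]
    simp only [map_smul, h1, smul_zero, Finset.sum_const_zero, add_zero]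
  refine Subtype.ext ?_
  funext i
  ext m
  have h6 := h5 (mon i (-1 - m) 1)
  rw [res_mul_mon] at h6
  have e : -1 - (-1 - m) = m := by ring
  rw [e, mul_one] at h6
  rw [h6]
  simp

/-- `Perp P` is `Om P` up to a space of finite dimension. -/
theorem perp_le (hP : IsKr g P) (hom : Om P ≤ Perp P) : ∃ F : Submodule κ (KK I κ), F.FG ∧ Perp P ≤ Om P ⊔ F := by
  classical
  obtain ⟨L, hL, hker⟩ := hP.k2
  obtain ⟨N, hN⟩ := KNZ.exists_dense hP
  obtain ⟨d, hd1, hd2⟩ : ∃ d : ℕ, (N : ℤ) < d ∧ ((d : ℕ) : κ) ≠ 0 := by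
    by_cases h : ((N + 1 : ℕ) : κ) = 0
    · refine ⟨N + 2, by push_cast; omega, fun h2 => ?_⟩
      have h3 : ((N + 2 : ℕ) : κ) = ((N + 1 : ℕ) : κ) + 1 := by
        push_cast
        ring
      rw [h3, h, zero_add] at h2
      exact one_ne_zero h2
    · exact ⟨N + 1, by push_cast; omega, h⟩
  obtain ⟨z, hz, hz1, hz2⟩ := KNZ.exists_lead hN hd1 fun _ => (1 : κ)
  have hu : ∃ w : KK I κ, dd z * w = 1 := by
    have h1 : ∀ i, ld (z i) ≠ 0 := by
      intro i hi
      have h2 : (ld (z i)).coeff (-(d : ℤ) - 1) = 0 := by rw [hi, HahnSeries.coeff_zero]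
      rw [ld_coeff] at h2
      have e : -(d : ℤ) - 1 + 1 = -(d : ℤ) := by ring
      rw [e, hz2 i, mul_one] at h2
      have h3 : ((-(d : ℤ) : ℤ) : κ) = -((d : ℕ) : κ) := by push_cast; ring
      rw [h3, neg_eq_zero] at h2
      exact hd2 h2
    exact ⟨fun i => (ld (z i))⁻¹, funext fun i => mul_inv_cancel₀ (h1 i)⟩
  obtain ⟨w, hw⟩ := hu
  let ℓ : KK I κ →ₗ[κ] (Fin g → κ) := L ∘ₗ LinearMap.mulRight κ w
  have hFG : ((Perp P).map ℓ).FG := IsNoetherian.noetherian _
  obtain ⟨S, hS⟩ := hFG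
  have hS' : ∀ s ∈ S, ∃ x ∈ Perp P, ℓ x = s := fun s hs =>
    Submodule.mem_map.1 (hS ▸ Submodule.subset_span hs)
  choose! ξ hξ1 hξ2 using hS'
  refine ⟨Submodule.span κ (ξ '' S) ⊔ (Perp P ⊓ Pol I κ ((d + 1 : ℕ) : ℤ)),
    Submodule.FG.sup (Submodule.fg_span (S.finite_toSet.image ξ)) (perp_pol hP (d + 1)), ?_⟩
  intro x hx
  have h1 : ℓ x ∈ Submodule.span κ (ℓ '' (ξ '' S)) := by
    have h2 : ℓ '' (ξ '' S) = S := by
      ext t
      constructor
      · rintro ⟨_, ⟨s, hs, rfl⟩, rfl⟩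
        rw [hξ2 s hs]
        exact hs
      · intro ht
        exact ⟨ξ t, ⟨t, ht, rfl⟩, hξ2 t ht⟩
    rw [h2, hS]
    exact Submodule.mem_map_of_mem hx
  rw [← Submodule.map_span] at h1
  obtain ⟨x', hx', hx''⟩ := h1
  have hx'P : x' ∈ Perp P := by
    refine (Submodule.span_le.2 ?_) hx'
    rintro _ ⟨s, hs, rfl⟩
    exact hξ1 s hs
  have h3 : L ((x - x') * w) = 0 := by
    have h4 : ℓ (x - x') = 0 := by rw [map_sub, hx'', sub_self]
    exact h4
  obtain ⟨p, hp, hp'⟩ := (hker _).1 h3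
  have e : x - x' = p * dd z + ((x - x') * w - p) * dd z := by
    have : (x - x') * (dd z * w) = x - x' := by rw [hw, mul_one]
    linear_combination -this
  have h5 : ((x - x') * w - p) * dd z ∈ Perp P ⊓ Pol I κ ((d + 1 : ℕ) : ℤ) := by
    refine ⟨?_, ?_⟩
    · have h6 : ((x - x') * w - p) * dd z = (x - x') - p * dd z := by
        linear_combination -e
      rw [h6]
      exact sub_mem (sub_mem hx hx'P) (hom (mul_dd_mem_Om hp hz))
    · have := mul_mem_Pol hp' (dd_mem_Pol hz1)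
      rw [zero_add] at this
      exact_mod_cast this
  have e2 : x = p * dd z + (x' + ((x - x') * w - p) * dd z) := by
    linear_combination e
  rw [e2]
  refine Submodule.add_mem_sup (mul_dd_mem_Om hp hz) (Submodule.add_mem_sup hx' h5)

/-- The functions which send `η` to `Om P`. -/
noncomputable def JJ (hmul : ∀ p ∈ P, ∀ ω ∈ Om P, p * ω ∈ Om P) (η : KK I κ) : Ideal P where
  carrier := {s | (s : KK I κ) * η ∈ Om P}
  add_mem' {a b} ha hb := by
    change ((a : KK I κ) + (b : KK I κ)) * η ∈ Om P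
    rw [add_mul]
    exact add_mem ha hb
  zero_mem' := by
    change (0 : KK I κ) * η ∈ Om P
    rw [zero_mul]
    exact zero_mem _
  smul_mem' c x hx := by
    change ((c : KK I κ) * (x : KK I κ)) * η ∈ Om P
    rw [mul_assoc]
    exact hmul _ c.2 _ hx

theorem mem_JJ {hmul : ∀ p ∈ P, ∀ ω ∈ Om P, p * ω ∈ Om P} {η : KK I κ} {s : P} :
    s ∈ JJ hmul η ↔ (s : KK I κ) * η ∈ Om P := Iff.rfl

theorem finite_JJ (hP : IsKr g P) (hom : Om P ≤ Perp P)
    (hmul : ∀ p ∈ P, ∀ ω ∈ Om P, p * ω ∈ Om P) {η : KK I κ} (hη : η ∈ Perp P) :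
    Module.Finite κ (P ⧸ JJ hmul η) := by
  obtain ⟨F, hF, hle⟩ := perp_le hP hom
  let φ : P →ₗ[κ] (KK I κ ⧸ Om P) :=
    (Om P).mkQ ∘ₗ (LinearMap.mulRight κ η) ∘ₗ P.val.toLinearMap
  have hker : LinearMap.ker φ = (JJ hmul η).restrictScalars κ := by
    ext s
    rw [LinearMap.mem_ker]
    change (Om P).mkQ ((s : KK I κ) * η) = 0 ↔ (s : KK I κ) * η ∈ Om P
    rw [Submodule.mkQ_apply, Submodule.Quotient.mk_eq_zero]
  have hrange : LinearMap.range φ ≤ F.map (Om P).mkQ := by
    rintro _ ⟨s, rfl⟩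
    have h1 : (s : KK I κ) * η ∈ Perp P := mul_mem_Perp s.2 hη
    obtain ⟨a, ha, b, hb, hab⟩ := Submodule.mem_sup.1 (hle h1)
    refine ⟨b, hb, ?_⟩
    change (Om P).mkQ b = (Om P).mkQ ((s : KK I κ) * η)
    rw [← hab, map_add]
    have : (Om P).mkQ a = 0 := by
      rw [Submodule.mkQ_apply, Submodule.Quotient.mk_eq_zero]
      exact ha
    rw [this, zero_add]
  have : Module.Finite κ (F.map (Om P).mkQ) := Module.Finite.iff_fg.2 (hF.map _)
  have : Module.Finite κ (LinearMap.range φ) := Submodule.finiteDimensional_of_le hrange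
  have : Module.Finite κ (P ⧸ LinearMap.ker φ) :=
    Module.Finite.equiv (LinearMap.quotKerEquivRange φ).symm
  rw [hker] at this
  exact Module.Finite.equiv (Submodule.Quotient.restrictScalarsEquiv κ (JJ hmul η))

/-- An eigenvector in `Perp P / Om P`. -/
theorem eig [IsAlgClosed κ] (hfg : Algebra.FinitePresentation κ P) (hP : IsKr g P)
    (hom : Om P ≤ Perp P) (hmul : ∀ p ∈ P, ∀ ω ∈ Om P, p * ω ∈ Om P) (h : ¬ Perp P ≤ Om P) :
    ∃ η ∈ Perp P, η ∉ Om P ∧ ∃ p : P →ₐ[κ] κ, ∀ s : P, p s = 0 → (s : KK I κ) * η ∈ Om P := by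
  have : Algebra.FiniteType κ P := inferInstance
  have : IsNoetherianRing P := Algebra.FiniteType.isNoetherianRing κ P
  obtain ⟨η, hη, hη'⟩ := SetLike.not_le_iff_exists.1 h
  have h1 : (Ideal.Quotient.mk (JJ hmul η) 1 : P ⧸ JJ hmul η) ≠ 0 := by
    rw [Ne, Ideal.Quotient.eq_zero_iff_mem, mem_JJ]
    intro hc
    refine hη' ?_
    have : ((1 : P) : KK I κ) * η = η := one_mul _
    rwa [this] at hc
  obtain ⟨𝔭, h𝔭, -⟩ := exists_le_isAssociatedPrime_of_isNoetherianRing P
    (Ideal.Quotient.mk (JJ hmul η) 1 : P ⧸ JJ hmul η) h1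
  obtain ⟨hprime, x, hx⟩ := isAssociatedPrime_iff.1 h𝔭
  obtain ⟨f, rfl⟩ := Ideal.Quotient.mk_surjective x
  have h2 : 𝔭 = JJ hmul ((f : KK I κ) * η) := by
    ext s
    rw [hx, Submodule.mem_colon_singleton, Submodule.mem_bot, mem_JJ, ← mul_assoc]
    change Ideal.Quotient.mk (JJ hmul η) (s * f) = 0 ↔ _
    rw [Ideal.Quotient.eq_zero_iff_mem, mem_JJ]
    exact Iff.rfl
  have hη2 : (f : KK I κ) * η ∈ Perp P := mul_mem_Perp f.2 hη
  have := finite_JJ hP hom hmul hη2
  rw [← h2] at this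
  have : IsDomain (P ⧸ 𝔭) := Ideal.Quotient.isDomain 𝔭
  have : Algebra.IsIntegral κ (P ⧸ 𝔭) := Algebra.IsIntegral.of_finite κ (P ⧸ 𝔭)
  have hbij : Function.Bijective (algebraMap κ (P ⧸ 𝔭)) :=
    IsAlgClosed.algebraMap_bijective_of_isIntegral
  let e : κ ≃ₐ[κ] (P ⧸ 𝔭) := AlgEquiv.ofBijective (Algebra.ofId κ (P ⧸ 𝔭)) hbij
  refine ⟨(f : KK I κ) * η, hη2, fun hc => hprime.ne_top ?_,
    (e.symm : (P ⧸ 𝔭) →ₐ[κ] κ).comp (Ideal.Quotient.mkₐ κ 𝔭), fun s hs => ?_⟩
  · rw [Ideal.eq_top_iff_one, h2, mem_JJ]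
    have : ((1 : P) : KK I κ) * ((f : KK I κ) * η) = (f : KK I κ) * η := one_mul _
    rwa [this]
  · have h3 : Ideal.Quotient.mk 𝔭 s = 0 := by
      have h4 : e.symm (Ideal.Quotient.mk 𝔭 s) = 0 := hs
      exact (map_eq_zero_iff e.symm e.symm.injective).1 h4
    rw [Ideal.Quotient.eq_zero_iff_mem, h2, mem_JJ] at h3
    exact h3

end finite

section main

variable {I κ : Type} [Field κ] {P : Subalgebra κ (KK I κ)}

/-- The relation between two derivations in `κ[[u]]`. -/
theorem cross (hSCO : Stmt_SCO) (hsm : SmC κ P) (pt : FPt P) (D : Derivation κ P P) (f y : P) :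
    pt.h (D f) * PowerSeries.derivative κ (pt.h y) =
      pt.h (D y) * PowerSeries.derivative κ (pt.h f) := by
  letI : Algebra P (PowerSeries κ) := (pt.h : P →+* PowerSeries κ).toAlgebra
  have : IsScalarTower κ P (PowerSeries κ) :=
    IsScalarTower.of_algebraMap_eq fun a => (pt.h.commutes a).symm
  have hs : ∀ (s : P) (x : PowerSeries κ), s • x = pt.h s * x := fun s x => Algebra.smul_def s x
  let E : Derivation κ P (PowerSeries κ) :=
    Derivation.mk' (pt.h.toLinearMap ∘ₗ (D : P →ₗ[κ] P)) fun a b => by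
      change pt.h (D (a * b)) = a • pt.h (D b) + b • pt.h (D a)
      rw [hs, hs, D.leibniz, smul_eq_mul, smul_eq_mul, map_add, map_mul, map_mul]
  let E' : Derivation κ P (PowerSeries κ) :=
    Derivation.mk' (((PowerSeries.derivative κ : Derivation κ (PowerSeries κ) (PowerSeries κ)) :
      PowerSeries κ →ₗ[κ] PowerSeries κ) ∘ₗ pt.h.toLinearMap) fun a b => by
      change PowerSeries.derivative κ (pt.h (a * b)) =
        a • PowerSeries.derivative κ (pt.h b) + b • PowerSeries.derivative κ (pt.h a)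
      rw [hs, hs, map_mul, Derivation.leibniz, smul_eq_mul, smul_eq_mul]
  exact (hSCO.2 hsm).2.1 (PowerSeries κ) E E' f y

theorem low_of_mul {Y q : LaurentSeries κ} (hY : ∀ m < 1, Y.coeff m = 0) (hY1 : Y.coeff 1 ≠ 0)
    (hq : ∀ m < 0, (Y * q).coeff m = 0) : ∀ m < -1, q.coeff m = 0 := by
  obtain ⟨n, hn⟩ := exists_low q
  have key : ∀ k : ℕ, ∀ m : ℤ, m < -(n : ℤ) + k → m < -1 → q.coeff m = 0 := by
    intro k
    induction k with
    | zero =>
      intro m hm _
      exact hn m (by simpa using hm)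
    | succ k ih =>
      intro m hm hm'
      by_cases h : m < -(n : ℤ) + k
      · exact ih m h hm'
      · have hm2 : m = -(n : ℤ) + k := by
          push_cast at hm
          omega
        have h1 := mul_lead (f := Y) (g := q) (a := 1) (b := m) hY
          (fun l hl => ih l (by omega) (by omega))
        rw [hq (1 + m) (by omega)] at h1
        exact (mul_eq_zero.1 h1.symm).resolve_left hY1
  intro m hm
  exact key (m + n + 1).toNat m (by omega) hm

theorem mem_id_of_mem {pts : Unit → FPt P} {s : P} (hs : s ∈ Ipt pts) : s ∈ (pts ()).id :=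
  (iInf_le (fun j => (pts j).id) ()) hs

/-- The element of `WJ` with given components at `I`. -/
theorem lift_W (pts : Unit → FPt P) {y : P} (hy : y ∈ Ipt pts)
    (hy1 : IsUnit (PowerSeries.coeff 1 ((pts ()).h y))) (w : KK I κ)
    (hw : ∀ s ∈ Ipt pts, (s : KK I κ) * w ∈ P) :
    ∃ W ∈ WJ pts, (∀ i, W (Sum.inl i) = w i) ∧ ∀ m < -1, (W (Sum.inr ())).coeff m = 0 := by
  have hY : ∀ m < 1, (psl κ ((pts ()).h y)).coeff m = 0 := by
    intro m hm
    rcases lt_or_ge m 0 with h | h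
    · exact psl_coeff_neg _ h
    · obtain rfl : m = ((0 : ℕ) : ℤ) := by
        push_cast
        omega
      rw [psl_coeff_nat, PowerSeries.coeff_zero_eq_constantCoeff]
      exact mem_id_of_mem hy
  have hY1 : (psl κ ((pts ()).h y)).coeff 1 ≠ 0 := by
    have h := psl_coeff_nat ((pts ()).h y) 1
    rw [Nat.cast_one] at h
    rw [h]
    exact hy1.ne_zero
  have hY0 : psl κ ((pts ()).h y) ≠ 0 := by
    intro h
    rw [h, HahnSeries.coeff_zero] at hY1
    exact hY1 rfl
  let ry : P := ⟨(y : KK I κ) * w, hw y hy⟩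
  have hq : psl κ ((pts ()).h y) * ((psl κ ((pts ()).h y))⁻¹ * psl κ ((pts ()).h ry)) =
      psl κ ((pts ()).h ry) := by
    rw [← mul_assoc, mul_inv_cancel₀ hY0, one_mul]
  refine ⟨Sum.elim w fun _ => (psl κ ((pts ()).h y))⁻¹ * psl κ ((pts ()).h ry), ?_,
    fun i => rfl, ?_⟩
  · rw [mem_WJ]
    refine ⟨1, fun s hs => ?_⟩
    rw [pow_one] at hs
    let r : P := ⟨(s : KK I κ) * w, hw s hs⟩
    refine ⟨r, ?_⟩
    funext k
    rcases k with i | j
    · rfl
    · change psl κ ((pts ()).h s) * ((psl κ ((pts ()).h y))⁻¹ * psl κ ((pts ()).h ry)) =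
        psl κ ((pts ()).h r)
      have h1 : s * ry = y * r := by
        refine Subtype.ext ?_
        change (s : KK I κ) * ((y : KK I κ) * w) = (y : KK I κ) * ((s : KK I κ) * w)
        ring
      have h2 : psl κ ((pts ()).h s) * psl κ ((pts ()).h ry) =
          psl κ ((pts ()).h y) * psl κ ((pts ()).h r) := by
        rw [← map_mul, ← map_mul, h1, map_mul, map_mul]
      have h3 : psl κ ((pts ()).h s) * ((psl κ ((pts ()).h y))⁻¹ * psl κ ((pts ()).h ry)) =
          (psl κ ((pts ()).h y))⁻¹ * (psl κ ((pts ()).h s) * psl κ ((pts ()).h ry)) := by ring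
      rw [h3, h2, ← mul_assoc, inv_mul_cancel₀ hY0, one_mul]
  · refine low_of_mul hY hY1 ?_
    intro m hm
    change (psl κ ((pts ()).h y) * ((psl κ ((pts ()).h y))⁻¹ * psl κ ((pts ()).h ry))).coeff m = 0
    rw [hq]
    exact psl_coeff_neg _ hm

end main

end SDF

theorem t_SDF (hKFG : Stmt_KFG) (hRES : Stmt_RES) (hSTO : Stmt_STO) (hSCO : Stmt_SCO)
    (hAPT : Stmt_APT) (hAYE : Stmt_AYE) (hAWK : Stmt_AWK) : Stmt_SDF := by
  intro I κ _ _ _ _ g P hP hfs hsm
  obtain ⟨hom, hmul, -, hD, hsto⟩ := hSTO hP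
  obtain ⟨-, ⟨n, θ, g', hθ, hg', hone⟩, hdual⟩ := hsto hsm
  rw [hdual]
  by_contra hcon
  obtain ⟨η, hη, hηn, p, hp⟩ := SDF.eig (hKFG hP).1 hP hom hmul hcon
  obtain ⟨pt, hpt⟩ := hAPT hfs hsm p
  let pts : Unit → FPt P := fun _ => pt
  have hdisj : Disj pts := fun j k hjk => (hjk (Subsingleton.elim _ _)).elim
  obtain ⟨-, -, -, y, e, d, hy, -, -, -, hyu, -⟩ := hAYE hP hsm pts hdisj
  obtain ⟨hWk, hWs, -, hW0, hW1, -, -⟩ := hAWK hP hsm pts hdisj
  obtain ⟨homW, -⟩ := hSTO hWk
  have hI : ∀ s : P, s ∈ Ipt pts → p s = 0 := fun s hs => by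
    rw [← hpt]
    exact SDF.mem_id_of_mem hs
  have hw : ∀ i, ∀ s ∈ Ipt pts, (s : KK I κ) * (θ i * η) ∈ P := fun i s hs => by
    have h := SDF.theta_om (hθ i) (hp s (hI s hs))
    rwa [mul_left_comm] at h
  choose Wi hWi hWi1 hWi2 using fun i => SDF.lift_W pts hy (hyu ()) (θ i * η) (hw i)
  let G : Fin n → P := fun i => ⟨g' i, hg' i⟩
  let ηh : KK (I ⊕ Unit) κ := ∑ i, Wi i * dd (hat pts (G i))
  have hηh : ηh ∈ Om (WJ pts) :=
    Submodule.sum_mem _ fun i _ => SDF.mul_dd_mem_Om (hWi i) (hat_mem pts (G i))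
  have hηP := homW hηh
  have hsum : ∀ i : I, ∑ j, (θ j * η) i * (dd (g' j)) i = η i := by
    intro i
    have h1 : (∑ j, θ j * dd (g' j)) i = 1 := by
      rw [hone]
      rfl
    rw [Finset.sum_apply] at h1
    calc ∑ j, (θ j * η) i * (dd (g' j)) i = η i * ∑ j, (θ j * dd (g' j)) i := by
          rw [Finset.mul_sum]
          refine Finset.sum_congr rfl fun j _ => ?_
          rw [Pi.mul_apply, Pi.mul_apply]
          ring
      _ = η i := by rw [h1, mul_one]
  have hinl : ∀ i, ηh (Sum.inl i) = η i := by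
    intro i
    rw [← hsum i]
    change (∑ j, Wi j * dd (hat pts (G j))) (Sum.inl i) = _
    rw [Finset.sum_apply]
    refine Finset.sum_congr rfl fun j _ => ?_
    rw [Pi.mul_apply, hWi1]
    rfl
  have hinr : ηh (Sum.inr ()) =
      ∑ j, Wi j (Sum.inr ()) * psl κ (PowerSeries.derivative κ (pt.h (G j))) := by
    change (∑ j, Wi j * dd (hat pts (G j))) (Sum.inr ()) = _
    rw [Finset.sum_apply]
    refine Finset.sum_congr rfl fun j _ => ?_
    rw [Pi.mul_apply]
    change Wi j (Sum.inr ()) * ld (psl κ (pt.h (G j))) = _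
    rw [SDF.ld_psl]
  have hlow1 : ∀ m < -1, (ηh (Sum.inr ())).coeff m = 0 := by
    intro m hm
    rw [hinr, HahnSeries.coeff_sum]
    refine Finset.sum_eq_zero fun j _ => ?_
    exact mul_low (a := -1) (b := 0) (hWi2 j) (fun l hl => SDF.psl_coeff_neg _ hl) m (by omega)
  have hlow : ∀ m < 0, (ηh (Sum.inr ())).coeff m = 0 := by
    intro m hm
    by_cases h : m < -1
    · exact hlow1 m h
    · obtain rfl : m = -1 := by omega
      have h1 := hηP 1 (one_mem _)
      rw [mul_one] at h1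
      have h2 := hη 1 (one_mem _)
      rw [mul_one] at h2
      change ∑ k : I ⊕ Unit, (ηh k).coeff (-1) = 0 at h1
      change ∑ i : I, (η i).coeff (-1) = 0 at h2
      rw [Fintype.sum_sum_type] at h1
      simp only [hinl, h2, zero_add] at h1
      simpa using h1
  choose D hD' using fun i => hD (θ i) (hθ i)
  have hyunit : IsUnit (PowerSeries.derivative κ (pt.h y)) := by
    rw [PowerSeries.isUnit_iff_constantCoeff, ← PowerSeries.coeff_zero_eq_constantCoeff_apply,
      PowerSeries.coeff_derivative]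
    simpa using hyu ()
  obtain ⟨c, hc⟩ := hyunit.exists_right_inv
  have ht : ∀ i (f : P), pt.h (D i f) =
      pt.h (D i y) * c * PowerSeries.derivative κ (pt.h f) := by
    intro i f
    have h := SDF.cross hSCO hsm pt (D i) f y
    calc pt.h (D i f) = pt.h (D i f) * (PowerSeries.derivative κ (pt.h y) * c) := by
          rw [hc, mul_one]
      _ = pt.h (D i f) * PowerSeries.derivative κ (pt.h y) * c := by ring
      _ = _ := by
          rw [h]
          ring
  have hWu : ∀ i, Wi i (Sum.inr ()) = psl κ (pt.h (D i y) * c) * ηh (Sum.inr ()) := by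
    intro i
    have hV : (∑ j, Wi j * hat pts (D i (G j))) - Wi i ∈ WJ pts :=
      sub_mem (sum_mem fun j _ => mul_mem (hWi j) (hat_mem pts _)) (hWi i)
    have hV0 : (∑ j, Wi j * hat pts (D i (G j))) - Wi i = 0 := by
      refine hW0 _ hV fun i' => ?_
      rw [Pi.sub_apply, Finset.sum_apply, hWi1, sub_eq_zero]
      have h1 : ∀ j, (Wi j * hat pts (D i (G j))) (Sum.inl i') =
          θ i i' * ((θ j * η) i' * (dd (g' j)) i') := by
        intro j
        rw [Pi.mul_apply, hWi1, hat_inl, hD']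
        change (θ j * η) i' * (θ i i' * (dd (g' j)) i') = _
        ring
      rw [Finset.sum_congr rfl fun j _ => h1 j, ← Finset.mul_sum, hsum]
      rfl
    have h2 : (∑ j, Wi j * hat pts (D i (G j))) (Sum.inr ()) = Wi i (Sum.inr ()) := by
      rw [sub_eq_zero.1 hV0]
    rw [← h2, Finset.sum_apply, hinr, Finset.mul_sum]
    refine Finset.sum_congr rfl fun j _ => ?_
    rw [Pi.mul_apply, hat_inr]
    change Wi j (Sum.inr ()) * psl κ (pt.h (D i (G j))) = _
    rw [ht i (G j), map_mul]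
    ring
  have hmem : ∀ i, θ i * η ∈ P := by
    intro i
    obtain ⟨r, hr⟩ := hW1 (Wi i) (hWi i) fun j m hm => by
      rw [hWu i]
      exact mul_low (a := 0) (b := 0) (fun l hl => SDF.psl_coeff_neg _ hl) hlow m (by omega)
    have h1 : θ i * η = (r : KK I κ) := by
      funext i'
      rw [← hWi1 i i', hr, hat_inl]
    rw [h1]
    exact r.2
  refine hηn ?_
  have h1 : η = ∑ j, (θ j * η) * dd (g' j) := by
    funext i
    rw [Finset.sum_apply, ← hsum i]
    rfl
  rw [h1]
  exact Submodule.sum_mem _ fun j _ => SDF.mul_dd_mem_Om (hmem j) (hg' j)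

end Pool.Agent.MG.G0
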