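import Pool.Agent.MG.G0.StmtsS

/-!
# SDN: duality lifts along nilpotent thickenings
-/

namespace Pool.Agent.MG.G0

namespace SDN

section

variable {I A B : Type} [CommRing A] [CommRing B]

theorem exists_lift (hKBC : Stmt_KBC) {φ : A →+* B} (hφ : Function.Surjective φ)
    {P : Subalgebra A (KK I A)} {w : KK I B} (hw : w ∈ bc φ P) : ∃ p ∈ P, kmap φ p = w := by
  have h2 : w ∈ Submodule.span B (kmap φ '' (P : Set (KK I A))) := by
    rw [← hKBC.1 φ P]
    exact hw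
  clear hw
  induction h2 using Submodule.span_induction with
  | mem x hx =>
    obtain ⟨p, hp, rfl⟩ := hx
    exact ⟨p, hp, rfl⟩
  | zero => exact ⟨0, zero_mem P, map_zero _⟩
  | add x y _ _ hx hy =>
    obtain ⟨p, hp, rfl⟩ := hx
    obtain ⟨q, hq, rfl⟩ := hy
    exact ⟨p + q, add_mem hp hq, map_add _ _ _⟩
  | smul b x _ hx =>
    obtain ⟨p, hp, rfl⟩ := hx
    obtain ⟨a, rfl⟩ := hφ b
    exact ⟨a • p, P.smul_mem hp a, kmap_smul _ _ _⟩

theorem kmap_mem_TT (hKBC : Stmt_KBC) {φ : A →+* B} (hφ : Function.Surjective φ)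
    {P : Subalgebra A (KK I A)} {θ : KK I A} (hθ : θ ∈ TT P) : kmap φ θ ∈ TT (bc φ P) := by
  intro f hf
  obtain ⟨p, hp, rfl⟩ := exists_lift hKBC hφ hf
  rw [← kmap_dd, ← map_mul]
  exact kmap_mem_bc φ (hθ p hp)

theorem kmap_mem_Perp [Fintype I] (hKBC : Stmt_KBC) {φ : A →+* B} (hφ : Function.Surjective φ)
    {P : Subalgebra A (KK I A)} {η : KK I A} (hη : η ∈ Perp P) : kmap φ η ∈ Perp (bc φ P) := by
  intro f hf
  obtain ⟨p, hp, rfl⟩ := exists_lift hKBC hφ hf
  rw [← map_mul, res_kmap, hη p hp, map_zero]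

theorem le_of_le_nilpotent {M : Type} [AddCommGroup M] [Module A M] (J : Ideal A)
    (K N : Submodule A M) (h : N ≤ K ⊔ J • N) (n : ℕ) : N ≤ K ⊔ J ^ n • N := by
  induction n with
  | zero =>
    rw [pow_zero, Ideal.one_eq_top, Submodule.top_smul]
    exact le_sup_right
  | succ n ih =>
    refine ih.trans (sup_le le_sup_left ?_)
    calc J ^ n • N ≤ J ^ n • (K ⊔ J • N) := Submodule.smul_mono le_rfl h
      _ = J ^ n • K ⊔ J ^ (n + 1) • N := by
        rw [Submodule.smul_sup, ← Submodule.mul_smul, ← pow_succ]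
      _ ≤ K ⊔ J ^ (n + 1) • N := sup_le_sup_right Submodule.smul_le_right _

end

end SDN

theorem t_SDN (hKBC : Stmt_KBC) (hSTO : Stmt_STO) (hPNI : Stmt_PNI) : Stmt_SDN := by
  intro I A B _ _ _ _ g P hP hS φ hφ hfg hnil hD
  obtain ⟨n, hn⟩ := hnil
  obtain ⟨hOm, -, -, -, h1⟩ := hSTO hP
  obtain ⟨-, ⟨m, θ, γ, hθ, hγ, hsum⟩, hdual⟩ := h1 hS
  rw [hdual]
  have key : Perp P ≤ Om P ⊔ RingHom.ker φ • Perp P := by
    intro η hη
    have h2 : ∀ i, ∃ p ∈ P, kmap φ p = kmap φ (θ i) * kmap φ η := fun i =>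
      SDN.exists_lift hKBC hφ
        (hD _ (SDN.kmap_mem_TT hKBC hφ (hθ i)) _ (SDN.kmap_mem_Perp hKBC hφ hη))
    choose w hw hw1 using h2
    have h3 : ∑ i, w i * dd (γ i) ∈ Om P :=
      Submodule.sum_mem _ fun i _ => Submodule.subset_span ⟨w i, hw i, γ i, hγ i, rfl⟩
    have h4 : kmap φ (η - ∑ i, w i * dd (γ i)) = 0 := by
      have h5 : η = ∑ i, θ i * η * dd (γ i) := by
        calc η = (∑ i, θ i * dd (γ i)) * η := by rw [hsum, one_mul]
          _ = ∑ i, θ i * η * dd (γ i) := by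
            rw [Finset.sum_mul]
            exact Finset.sum_congr rfl fun i _ => by ring
      have h6 : kmap φ η = ∑ i, kmap φ (θ i) * kmap φ η * kmap φ (dd (γ i)) := by
        conv_lhs => rw [h5]
        rw [map_sum]
        exact Finset.sum_congr rfl fun i _ => by rw [map_mul, map_mul]
      rw [map_sub, map_sum, h6, sub_eq_zero]
      exact Finset.sum_congr rfl fun i _ => by rw [map_mul, hw1]
    have h5 : η - ∑ i, w i * dd (γ i) ∈ RingHom.ker φ • Perp P := by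
      refine hPNI hP (RingHom.ker φ) hfg _ (Submodule.sub_mem _ hη (hOm h3)) fun i k => ?_
      rw [RingHom.mem_ker, ← lmap_coeff, ← kmap_apply, h4, Pi.zero_apply, HahnSeries.coeff_zero]
    rw [Submodule.mem_sup]
    exact ⟨_, h3, _, h5, by abel⟩
  have h2 := SDN.le_of_le_nilpotent (RingHom.ker φ) (Om P) (Perp P) key n
  rwa [hn, Submodule.bot_smul, sup_bot_eq] at h2

end Pool.Agent.MG.G0
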