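import Pool.Agent.MG.G0.StmtsS

/-!
# SKK (SM3): derivations of a Krichever ring with values in Laurent series
-/

namespace Pool.Agent.MG.G0

namespace SKK

variable {I A : Type} [CommRing A]

/-- A series without poles and with constant term `1` is a unit. -/
theorem isUnit_lead_one {f : LaurentSeries A} (h0 : ∀ m < 0, f.coeff m = 0) (h1 : f.coeff 0 = 1) :
    IsUnit f := by
  rcases subsingleton_or_nontrivial A with hA | hA
  · have : f = 1 := by
      ext m
      exact Subsingleton.elim _ _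
    rw [this]
    exact isUnit_one
  · refine HahnSeries.isUnit_of_orderTop_pos ?_
    have h2 : ((0 : ℤ) : WithTop ℤ) < (f - 1).orderTop := by
      refine lt_of_lt_of_le (b := ((1 : ℤ) : WithTop ℤ)) (by exact_mod_cast zero_lt_one) ?_
      refine HahnSeries.le_orderTop_iff_forall.2 fun m hm => ?_
      have hm' : m < 1 := by exact_mod_cast hm
      rw [HahnSeries.coeff_sub, HahnSeries.coeff_one]
      by_cases h : m = 0
      · rw [if_pos h, h, h1, sub_self]
      · rw [if_neg h, h0 m (by omega), sub_zero]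
    exact h2

theorem isUnit_pi {f : KK I A} (h0 : f ∈ Pol I A 0) (h1 : ∀ i, (f i).coeff 0 = 1) :
    IsUnit f := by
  rw [Pi.isUnit_iff]
  exact fun i => isUnit_lead_one (fun m hm => h0 i m (by omega)) (h1 i)

/-- The monomial `τ^n` at all punctures. -/
noncomputable def tau (I A : Type) [CommRing A] (n : ℤ) : KK I A :=
  fun _ => HahnSeries.single n 1

theorem tau_coeff (n : ℤ) (i : I) (m : ℤ) :
    (tau I A n i).coeff m = if m = n then 1 else 0 := by
  rw [tau, HahnSeries.coeff_single]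
  split_ifs <;> rfl

theorem tau_mem (n : ℤ) : tau I A n ∈ Pol I A (-n) := fun i m hm => by
  rw [tau_coeff, if_neg (by omega)]

theorem tau_dd_mem {d : ℤ} {z : KK I A} (hz : z ∈ Pol I A d) :
    tau I A (d + 1) * dd z ∈ Pol I A 0 := by
  have h := mul_mem_Pol (tau_mem (I := I) (A := A) (d + 1)) (dd_mem_Pol hz)
  rwa [neg_add_cancel] at h

theorem tau_dd_coeff {d : ℤ} {z : KK I A} (hz : Mon d z) (i : I) :
    ((tau I A (d + 1) * dd z) i).coeff 0 = -(d : A) := by
  have h := mul_Pol_lead (tau_mem (I := I) (A := A) (d + 1)) (dd_mem_Pol hz.1) i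
  have e : -(-(d + 1) + (d + 1)) = (0 : ℤ) := by ring
  rw [e] at h
  rw [h, tau_coeff, if_pos (by ring), one_mul]
  change (ld (z i)).coeff (-(d + 1)) = _
  rw [ld_coeff]
  have e2 : -(d + 1) + 1 = -d := by ring
  rw [e2, hz.2 i]
  push_cast
  ring

/-- The ideal generated by the derivatives of the elements of `P` is everything. -/
theorem exists_one (hKNZ : Stmt_KNZ) [Fintype I] {g : ℕ} {P : Subalgebra A (KK I A)}
    (hP : IsKr g P) :
    ∃ (m : ℕ) (c : Fin m → KK I A) (f : Fin m → P), ∑ l, c l * dd (f l : KK I A) = 1 := by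
  obtain ⟨⟨N, hN⟩, h⟩ := hKNZ hP
  obtain ⟨-, -, hz⟩ := h N hN
  obtain ⟨z, hzP, hzm⟩ := hz (N + 1) (by omega)
  obtain ⟨w, hwP, hwm⟩ := hz (N + 2) (by omega)
  have hu : IsUnit (tau I A ((N : ℤ) + 1 + 1) * dd z - tau I A ((N : ℤ) + 2 + 1) * dd w) := by
    refine isUnit_pi (sub_mem (tau_dd_mem hzm.1) (tau_dd_mem hwm.1)) fun i => ?_
    rw [Pi.sub_apply, HahnSeries.coeff_sub, tau_dd_coeff hzm, tau_dd_coeff hwm]
    push_cast
    ring
  obtain ⟨v, hv⟩ := hu.exists_left_inv
  refine ⟨2, ![v * tau I A ((N : ℤ) + 1 + 1), -(v * tau I A ((N : ℤ) + 2 + 1))],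
    ![⟨z, hzP⟩, ⟨w, hwP⟩], ?_⟩
  rw [Fin.sum_univ_two]
  simp only [Matrix.cons_val_zero, Matrix.cons_val_one]
  rw [← hv]
  ring

end SKK

theorem t_SKK (hKNZ : Stmt_KNZ) (hSCO : Stmt_SCO) : Stmt_SKK := by
  intro I A _ _ g P hP
  obtain ⟨m, c, f, hcf⟩ := SKK.exists_one hKNZ hP
  refine ⟨⟨m, c, f, hcf⟩, fun hS E => ?_⟩
  obtain ⟨-, h4, -⟩ := hSCO.2 hS
  have h5 : ∀ x y : P, E x * dd (y : KK I A) = E y * dd (x : KK I A) := fun x y =>
    h4 (KK I A) E ((ddD I A).compAlgebraMap P) x y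
  refine ⟨∑ l, c l * E (f l), fun x => ?_, fun θ hθ => ?_⟩
  · calc E x = (∑ l, c l * dd (f l : KK I A)) * E x := by rw [hcf, one_mul]
      _ = (∑ l, c l * E (f l)) * dd (x : KK I A) := by
        rw [Finset.sum_mul, Finset.sum_mul]
        refine Finset.sum_congr rfl fun l _ => ?_
        rw [mul_assoc, mul_assoc, ← h5 x (f l)]
        ring
  · calc θ = θ * ∑ l, c l * dd (f l : KK I A) := by rw [hcf, mul_one]
      _ = ∑ l, c l * E (f l) := by
        rw [Finset.mul_sum]
        refine Finset.sum_congr rfl fun l _ => ?_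
        rw [hθ (f l)]
        ring

end Pool.Agent.MG.G0
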