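import Pool.Agent.MG.G0.StmtsV
import Pool.Agent.MG.G0.KIS

/-!
# SMO: if all `η` with `res (η R) = 0` are Kähler differentials then the curve is smooth
(PAPER_V.md, SMO)
-/

open Polynomial

namespace Pool.Agent.MG.G0

namespace SMO

variable {κ : Type} [Field κ] {g : ℕ} {R : Subalgebra κ (LaurentSeries κ)}

/-- An element of `R` with positive order is zero. -/
theorem eq_zero_of_pos (hR : Kr g R) {x : LaurentSeries κ} (hx : x ∈ R)
    (h : ∀ m : ℤ, m ≤ 0 → x.coeff m = 0) : x = 0 := by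
  obtain ⟨h1, -⟩ := Kr_iff.1 hR
  obtain ⟨a, ha⟩ := h1 x hx fun m hm => h m (by omega)
  have h2 := h 0 le_rfl
  rw [ha] at h2
  have h3 : (algebraMap κ (LaurentSeries κ) a).coeff 0 = a := HahnSeries.coeff_single_same 0 a
  rw [h3] at h2
  rw [ha, h2, map_zero]

/-- A ring containing `R` with `c R' ⊂ R` is a Krichever ring. -/
theorem kr_over (hR : Kr g R) (R' : Subalgebra κ (LaurentSeries κ)) (h : R ≤ R')
    (c : LaurentSeries κ) (hc : c ≠ 0) (hcR : ∀ x ∈ R', c * x ∈ R) : ∃ g', Kr g' R' := by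
  have key : ∀ f ∈ R', f ∈ Po κ 0 → ∃ a : κ, f = algebraMap κ (LaurentSeries κ) a := by
    intro f hf hf0
    refine ⟨f.coeff 0, ?_⟩
    by_contra hne
    set y := f - algebraMap κ (LaurentSeries κ) (f.coeff 0) with hy
    have hy0 : y ≠ 0 := fun h0 => hne (sub_eq_zero.1 h0)
    have hyR : y ∈ R' := sub_mem hf (R'.algebraMap_mem _)
    have hyc : ∀ m : ℤ, m ≤ 0 → y.coeff m = 0 := by
      intro m hm
      rcases hm.lt_or_eq with hm | rfl
      · rw [hy, HahnSeries.coeff_sub, hf0 m (by omega)]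
        have : (algebraMap κ (LaurentSeries κ) (f.coeff 0)).coeff m = 0 :=
          HahnSeries.coeff_single_of_ne (ne_of_lt hm)
        rw [this, sub_zero]
      · have : (algebraMap κ (LaurentSeries κ) (f.coeff 0)).coeff 0 = f.coeff 0 :=
          HahnSeries.coeff_single_same 0 _
        rw [hy, HahnSeries.coeff_sub, this, sub_self]
    have hord : 1 ≤ y.order := by
      by_contra hcon
      exact hy0 (HahnSeries.coeff_order_eq_zero.1 (hyc _ (by omega)))
    obtain ⟨k, hk⟩ : ∃ k : ℕ, 0 < c.order + k * y.order := by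
      refine ⟨(1 - c.order).toNat, ?_⟩
      have h1 : 1 - c.order ≤ ((1 - c.order).toNat : ℤ) := Int.self_le_toNat _
      nlinarith
    have hz : c * y ^ k ≠ 0 := mul_ne_zero hc (pow_ne_zero _ hy0)
    refine hz (eq_zero_of_pos hR (hcR _ (pow_mem hyR k)) fun m hm => ?_)
    apply HahnSeries.coeff_eq_zero_of_lt_order
    rw [HahnSeries.order_mul hc (pow_ne_zero _ hy0), HahnSeries.order_pow, nsmul_eq_mul]
    exact lt_of_le_of_lt hm hk
  obtain ⟨-, L, hL1, hL2⟩ := Kr_iff.1 hR
  set W : Submodule κ (LaurentSeries κ) := Subalgebra.toSubmodule R' ⊔ Po κ 0 with hW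
  have hker : LinearMap.ker L ≤ W := by
    intro f hf
    obtain ⟨p, hp, hq⟩ := (hL2 f).1 hf
    have h1 : f = p + (f - p) := by ring
    rw [h1]
    exact add_mem (Submodule.mem_sup_left (h hp)) (Submodule.mem_sup_right hq)
  have hfin0 : Module.Finite κ (LaurentSeries κ ⧸ LinearMap.ker L) :=
    Module.Finite.equiv (L.quotKerEquivOfSurjective hL1).symm
  have hfin : Module.Finite κ (LaurentSeries κ ⧸ W) :=
    Module.Finite.of_surjective (Submodule.factor hker) (Submodule.factor_surjective hker)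
  refine ⟨Module.finrank κ (LaurentSeries κ ⧸ W), Kr_iff.2 ⟨key,
    ((Module.finBasis κ (LaurentSeries κ ⧸ W)).equivFun : _ →ₗ[κ] _) ∘ₗ W.mkQ, ?_, ?_⟩⟩
  · rw [LinearMap.coe_comp]
    exact (LinearEquiv.surjective _).comp (Submodule.mkQ_surjective _)
  · intro f
    rw [LinearMap.comp_apply, LinearEquiv.coe_coe, LinearEquiv.map_eq_zero_iff,
      Submodule.mkQ_apply, Submodule.Quotient.mk_eq_zero, hW, Submodule.mem_sup]
    constructor
    · rintro ⟨p, hp, q, hq, rfl⟩
      exact ⟨p, hp, by rwa [add_sub_cancel_left]⟩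
    · rintro ⟨p, hp, hq⟩
      exact ⟨p, hp, f - p, hq, by ring⟩

/-- `R` is completely integrally closed in `κ((τ))`. -/
theorem mem_of_alm (hPDP : Stmt_PDP) (hRES : Stmt_RES) (hR : Kr g R)
    (hPO : Perp (uno R) ≤ Om (uno R)) (x c : LaurentSeries κ) (hc0 : c ≠ 0)
    (hc : ∀ k : ℕ, c * x ^ k ∈ R) : x ∈ R := by
  set R' : Subalgebra κ (LaurentSeries κ) :=
    ((aeval x : R[X] →ₐ[R] LaurentSeries κ).range).restrictScalars κ with hR'
  have hmem : ∀ y, y ∈ R' ↔ ∃ q : R[X], aeval x q = y := fun y => Iff.rfl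
  have hRR' : R ≤ R' := by
    intro y hy
    rw [hmem]
    exact ⟨C ⟨y, hy⟩, aeval_C _ _⟩
  have hxR' : x ∈ R' := by
    rw [hmem]
    exact ⟨X, aeval_X _⟩
  have hcR : ∀ y ∈ R', c * y ∈ R := by
    intro y hy
    obtain ⟨q, rfl⟩ := (hmem y).1 hy
    induction q using Polynomial.induction_on' with
    | add p q hp hq =>
      rw [map_add, mul_add]
      exact add_mem (hp ((hmem _).2 ⟨p, rfl⟩)) (hq ((hmem _).2 ⟨q, rfl⟩))
    | monomial n a =>
      rw [aeval_monomial, mul_left_comm]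
      exact mul_mem a.2 (hc n)
  obtain ⟨g', hg'⟩ := kr_over hR R' hRR' c hc0 hcR
  have h1 : (fun _ : Unit => x) ∈ uno R := by
    apply hPDP (show IsKr g (uno R) from hR)
    intro η hη
    have h2 : η ∈ Om (uno R) := hPO hη
    clear hη
    induction h2 using Submodule.span_induction with
    | mem η hη =>
      obtain ⟨p, hp, f, hf, rfl⟩ := hη
      have e : p * dd f * (fun _ : Unit => x) = (p * fun _ : Unit => x) * dd f := by ring
      rw [e]
      refine hRES (show IsKr g' (uno R') from hg') _ ?_ _ ?_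
      · exact mul_mem (S := Subalgebra κ (LaurentSeries κ)) (hRR' hp) hxR'
      · exact hRR' hf
    | zero => rw [zero_mul, map_zero]
    | add a b _ _ ha hb => rw [add_mul, map_add, ha, hb, add_zero]
    | smul r a _ ha => rw [smul_mul_assoc, map_smul, ha, smul_zero]
  exact h1

theorem intClosed (hPDP : Stmt_PDP) (hRES : Stmt_RES) (hR : Kr g R)
    (hPO : Perp (uno R) ≤ Om (uno R)) : IsIntegrallyClosed R := by
  rw [isIntegrallyClosed_iff (FractionRing R)]
  intro x hx
  have hinj : Function.Injective (algebraMap R (LaurentSeries κ)) := Subtype.val_injective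
  let φ : FractionRing R →+* LaurentSeries κ := IsFractionRing.lift hinj
  have hφ : ∀ r : R, φ (algebraMap R (FractionRing R) r) = r := fun r =>
    IsFractionRing.lift_algebraMap hinj r
  obtain ⟨c, hc, hcx⟩ := hx.isAlmostIntegral
  have h1 : φ x ∈ R := by
    refine mem_of_alm hPDP hRES hR hPO (φ x) (c : LaurentSeries κ) ?_ fun k => ?_
    · intro h0
      exact nonZeroDivisors.ne_zero hc (Subtype.ext h0)
    · obtain ⟨r, hr⟩ := hcx k
      have h2 := congrArg φ hr
      rw [hφ, Algebra.smul_def, map_mul, hφ, map_pow] at h2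
      rw [← h2]
      exact r.2
  refine ⟨⟨φ x, h1⟩, φ.injective ?_⟩
  rw [hφ]

theorem dimLE {A : Type} [CommRing A] [IsDomain A] [Algebra κ[X] A] [Module.Finite κ[X] A] :
    Ring.DimensionLEOne A := by
  refine ⟨fun {p} hp0 hp => ?_⟩
  obtain ⟨x, hx, hx0⟩ := Submodule.exists_mem_ne_zero_of_ne_bot hp0
  have h1 : p.comap (algebraMap κ[X] A) ≠ ⊥ :=
    Ideal.comap_ne_bot_of_integral_mem hx0 hx (Algebra.IsIntegral.isIntegral x)
  have h2 : (p.comap (algebraMap κ[X] A)).IsMaximal :=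
    IsPrime.to_maximal_ideal h1
  exact Ideal.isMaximal_of_isIntegral_of_isMaximal_comap p h2

theorem loc {A : Type} [CommRing A] [IsDedekindDomain A] (M : Ideal A) [hM : M.IsMaximal]
    (hM0 : M ≠ ⊥) : ∃ a ∈ M, ∃ u ∉ M, ∀ m ∈ M, ∃ r, u * m = a * r := by
  obtain ⟨a, ha, ha2⟩ := Ideal.exists_mem_pow_notMem_pow_succ M hM0 hM.ne_top 1
  rw [pow_one] at ha
  obtain ⟨J, hJ⟩ := Ideal.dvd_span_singleton.2 ha
  have hJM : ¬ J ≤ M := by
    intro h1
    apply ha2
    have h2 : a ∈ M * J := hJ ▸ Ideal.mem_span_singleton_self a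
    rw [pow_succ, pow_one]
    exact Ideal.mul_mono_right h1 h2
  obtain ⟨u, hu, huM⟩ := SetLike.not_le_iff_exists.1 hJM
  refine ⟨a, ha, u, huM, fun m hm => ?_⟩
  have h3 : m * u ∈ M * J := Ideal.mul_mem_mul hm hu
  rw [← hJ, Ideal.mem_span_singleton'] at h3
  obtain ⟨r, hr⟩ := h3
  exact ⟨r, by rw [mul_comm u, ← hr, mul_comm]⟩

end SMO

open KIS in
theorem t_SMO (hKFG : Stmt_KFG) (hPDP : Stmt_PDP) (hRES : Stmt_RES) (_hSTO : Stmt_STO)
    (hSCR : Stmt_SCR) : Stmt_SMO := by
  intro κ _ _ _ g d R hd hR hz hPO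
  have hfac : ((d.factorial : ℕ) : κ) ≠ 0 := Nat.cast_ne_zero.2 (Nat.factorial_ne_zero d)
  have hdκ : (d : κ) ≠ 0 := Nat.cast_ne_zero.2 (by omega)
  obtain ⟨⟨_, -, e, -, he, -⟩, -, -⟩ := t_ZD2 κ g d R hd hdκ hR hz
  obtain ⟨hfp, hfg⟩ := hKFG hR
  obtain ⟨n0, hn0⟩ := KNZ.exists_dense hR
  have hfp' : Algebra.FinitePresentation κ R := Algebra.FinitePresentation.equiv (unoE R)
  have hft : Algebra.FiniteType κ R := Algebra.FiniteType.of_finitePresentation
  have hic : IsIntegrallyClosed R := SMO.intClosed hPDP hRES hR hPO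
  have hno : IsNoetherianRing R := Algebra.FiniteType.isNoetherianRing κ R
  let z : uno R := (unoE R).symm (zR hz)
  have hzm : Mon d (z : KK Unit κ) := by
    refine ⟨?_, fun i => ?_⟩
    · intro i m hm
      change (zz κ d).coeff m = 0
      rw [zz, HahnSeries.coeff_single_of_ne (by omega)]
    · change (zz κ d).coeff _ = 1
      rw [zz, HahnSeries.coeff_single_same]
  have hdom : IsDomain (uno R) := (unoE R).toMulEquiv.isDomain R
  obtain ⟨-, -, hfin, -, -⟩ := hfg n0 d z hn0 (by exact_mod_cast hd) hzm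
  have hdim : Ring.DimensionLEOne R := by
    let _ := alg hz
    have : Module.Finite κ[X] R := by
      obtain ⟨b, -⟩ := exists_basis hz he
      exact Module.Finite.of_basis b
    exact SMO.dimLE (κ := κ)
  have hded : IsDedekindDomain R := { }
  have hM0 : ∀ M : Ideal R, M.IsMaximal → M ≠ ⊥ := by
    intro M hM
    obtain ⟨c, hc⟩ := Two.exists_sub_mem (k := κ) M (zR hz)
    rintro rfl
    exact zz_sub_ne (by omega) c (congrArg Subtype.val hc)
  have hsm : Algebra.FormallySmooth κ R :=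
    smooth_of_loc hM0 (fun M hM => SMO.loc M (hM0 M hM))
  have hsm' : Algebra.FormallySmooth κ (uno R) :=
    Algebra.FormallySmooth.of_equiv (unoE R).symm
  refine ⟨hsm', ?_⟩
  let _ : Algebra κ[X] (uno R) := (aeval (R := κ) z).toRingHom.toAlgebra
  have hfin' : Module.Finite κ[X] (uno R) := hfin
  obtain ⟨F, hF, hU⟩ := unram_of (κ := κ) (A := uno R) fun y => by
    apply exists_sep hfac
    obtain ⟨p, hp1, hp2, hp3⟩ := exists_charpoly hz he (unoE R y)
    refine ⟨p, hp1, hp2, ?_⟩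
    have h1 := congrArg (unoE R).symm hp3
    rw [map_zero] at h1
    rw [← h1]
    have h2 := hom_eval₂ p (aeval (R := κ) (zR hz)).toRingHom
      ((unoE R).symm : R →+* uno R) (unoE R y)
    refine Eq.trans ?_ h2.symm
    have h3 : ((unoE R).symm : R →+* uno R).comp (aeval (R := κ) (zR hz)).toRingHom =
        (aeval (R := κ) z).toRingHom := by
      refine ringHom_ext (fun x => ?_) ?_
      · change (unoE R).symm (aeval (zR hz) (C x)) = aeval z (C x)
        rw [aeval_C, aeval_C, AlgEquiv.commutes]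
      · change (unoE R).symm (aeval (zR hz) X) = aeval z X
        rw [aeval_X, aeval_X]
    rw [h3]
    rfl
  exact hSCR hR hsm' d z (by exact_mod_cast hd) hzm F hF hU

end Pool.Agent.MG.G0
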