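import Pool.Agent.MG.G0.StmtsV
import Pool.Agent.MG.G0.RES
import Pool.Agent.MG.G0.RTR
import Pool.Agent.MG.G0.RTA
import Pool.Agent.MG.G0.KSP
import Pool.Agent.MG.G0.KNZ
import Pool.Agent.MG.G0.KFO
import Pool.Agent.MG.G0.KDU

/-!
# SPR (PAPER_V): `t Perp R ⊂ Om R` lifts from a quotient of a local domain
-/

open Polynomial

namespace Pool.Agent.MG.G0

namespace SPR

section one

variable {A : Type} [CommRing A]

theorem zz_pow (d n : ℕ) : zz A d ^ n = HahnSeries.single (-((d : ℤ) * n)) 1 := by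
  have h : n • (-(d : ℤ)) = -((d : ℤ) * n) := by
    rw [nsmul_eq_mul]
    ring
  rw [zz, HahnSeries.single_pow, one_pow, h]

theorem zpol_coeff (d : ℕ) (p : A[X]) {n : ℕ} (hn : p.natDegree ≤ n) (m : ℤ) :
    (zpol A d p).coeff m = ∑ i ∈ Finset.range (n + 1), if m = -((d : ℤ) * i) then p.coeff i
      else 0 := by
  rw [zpol, Polynomial.aeval_eq_sum_range' (Nat.lt_succ_of_le hn), HahnSeries.coeff_sum]
  refine Finset.sum_congr rfl fun i _ => ?_
  rw [HahnSeries.coeff_smul, zz_pow, HahnSeries.coeff_single, smul_eq_mul]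
  split_ifs <;> simp

theorem zpol_low (d : ℕ) (p : A[X]) {n : ℕ} (hn : p.natDegree ≤ n) :
    ∀ m < -((d : ℤ) * n), (zpol A d p).coeff m = 0 := by
  intro m hm
  rw [zpol_coeff d p hn]
  refine Finset.sum_eq_zero fun i hi => if_neg ?_
  have h1 : i ≤ n := Nat.lt_succ_iff.1 (Finset.mem_range.1 hi)
  have h2 : (d : ℤ) * i ≤ d * n := by
    apply mul_le_mul_of_nonneg_left
    · exact_mod_cast h1
    · positivity
  omega

theorem zpol_lead {d : ℕ} (hd : 1 ≤ d) (p : A[X]) {n : ℕ} (hn : p.natDegree ≤ n) :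
    (zpol A d p).coeff (-((d : ℤ) * n)) = p.coeff n := by
  rw [zpol_coeff d p hn, Finset.sum_eq_single n]
  · rw [if_pos rfl]
  · intro i _ hi
    refine if_neg fun h => hi ?_
    have h1 : (d : ℤ) * n = d * i := neg_injective h
    have h2 : (n : ℤ) = i := mul_left_cancel₀ (by omega) h1
    exact_mod_cast h2.symm
  · intro h
    exact absurd (Finset.mem_range.2 (Nat.lt_succ_self n)) h

theorem zpol_mem {d : ℕ} {R : Subalgebra A (LaurentSeries A)} (hz : zz A d ∈ R) (p : A[X]) :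
    zpol A d p ∈ R := by
  rw [zpol]
  exact Polynomial.aeval_mem_adjoin_singleton A (zz A d) |> fun h =>
    (Algebra.adjoin_le (Set.singleton_subset_iff.2 hz)) h

/-- The residue theorem. -/
theorem res_thm : Stmt_RES := t_RES t_RTR t_RTA (t_KSP t_KNZ)

theorem Om_le_Perp {g : ℕ} {P : Subalgebra A (KK Unit A)} (hP : IsKr g P) : Om P ≤ Perp P := by
  unfold Om
  rw [Submodule.span_le]
  rintro _ ⟨p, hp, f, hf, rfl⟩
  intro q hq
  have h := res_thm hP (p * q) (mul_mem hp hq) f hf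
  have h2 : p * dd f * q = p * q * dd f := by ring
  rw [h2]
  exact h

/-- `P^⊥` is finitely generated modulo `Ω`. -/
theorem exists_V (hPPR : Stmt_PPR) {g d : ℕ} {R : Subalgebra A (LaurentSeries A)} {f : A[X]}
    (hd : 1 ≤ d) (hR : Kr g R) (hz : zz A d ∈ R) (hf : f.Monic) (hK : Kil d R f) :
    ∃ V : Submodule A (KK Unit A), V.FG ∧ V ≤ Perp (uno R) ∧ Perp (uno R) ≤ Om (uno R) ⊔ V := by
  classical
  obtain ⟨q, hq1, hq2, hq3, hq4⟩ := hPPR hR ()
  set N : ℕ := f.natDegree with hN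
  set D : ℕ := d * N with hD
  -- `f(z)`
  set F : KK Unit A := fun _ => zpol A d f with hF
  have hF1 : F ∈ uno R := zpol_mem hz f
  have hF2 : F ∈ Pol Unit A (D : ℤ) := by
    intro _ m hm
    refine zpol_low d f (le_refl _) m ?_
    rw [← hN]
    push_cast [hD] at hm
    exact hm
  have hF3 : (F ()).coeff (-(D : ℤ)) = 1 := by
    have h := zpol_lead hd f (le_refl f.natDegree)
    rw [hf.coeff_natDegree, ← hN] at h
    push_cast [hD]
    exact h
  have hF4 : ∀ x ∈ Perp (uno R), F * x ∈ Om (uno R) := by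
    intro x hx
    obtain ⟨y, hy, hy2⟩ := hK (x ()) (fun p hp => (res_unit _).symm.trans (hx (fun _ => p) hp))
    refine Submodule.subset_span ⟨fun _ => y, hy, fun _ => zz A d, hz, ?_⟩
    funext u
    exact hy2
  -- the leading coefficient of `q (a τ^(-n))`
  have hlead : ∀ (n : ℕ) (a : A), 2 ≤ n → q (mon () (-(n : ℤ)) a) ∈ Pol Unit A (n : ℤ) ∧
      (q (mon () (-(n : ℤ)) a) ()).coeff (-(n : ℤ)) = a := by
    intro n a hn
    have h1 : mon () (-(n : ℤ)) a ∈ Pol Unit A (n : ℤ) := mon_mem_Pol () (le_refl _) a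
    refine ⟨hq4 n (by omega) _ h1, ?_⟩
    have h2 := hq3 (mon () (-(n : ℤ)) a) () (-(n : ℤ)) (by omega)
    rw [Pi.sub_apply, Pi.sub_apply, HahnSeries.coeff_sub, HahnSeries.coeff_sub, mon_coeff_self,
      if_pos rfl, mon_coeff_self, if_neg (by omega), sub_zero, sub_eq_zero] at h2
    exact h2.symm
  -- reduction of the pole order
  have hred : ∀ n : ℕ, ∀ x ∈ Perp (uno R), x ∈ Pol Unit A ((D : ℤ) + 1 + n) →
      x ∈ Om (uno R) ⊔ (Perp (uno R) ⊓ Pol Unit A ((D : ℤ) + 1)) := by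
    intro n
    induction n with
    | zero =>
      intro x hx hx2
      rw [Nat.cast_zero, add_zero] at hx2
      exact Submodule.mem_sup_right ⟨hx, hx2⟩
    | succ n ih =>
      intro x hx hx2
      set a : A := (x ()).coeff (-((D : ℤ) + 1 + (n + 1 : ℕ))) with ha
      set e := q (mon () (-((n + 2 : ℕ) : ℤ)) a) with he
      obtain ⟨h1, h2⟩ := hlead (n + 2) a (by omega)
      rw [← he] at h1 h2
      have h3 : F * e ∈ Pol Unit A ((D : ℤ) + ((n + 2 : ℕ) : ℤ)) := mul_mem_Pol hF2 h1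
      have h4 := mul_Pol_lead hF2 h1 ()
      rw [hF3, h2, one_mul] at h4
      have h5 : x - F * e ∈ Perp (uno R) :=
        Submodule.sub_mem _ hx (mul_mem_Perp hF1 (hq1 _))
      have h6 : x - F * e ∈ Pol Unit A ((D : ℤ) + 1 + n) := by
        rintro ⟨⟩ m hm
        rw [Pi.sub_apply, HahnSeries.coeff_sub]
        by_cases hm2 : m = -((D : ℤ) + ((n + 2 : ℕ) : ℤ))
        · rw [hm2, h4, ha]
          have h7 : -((D : ℤ) + ((n + 2 : ℕ) : ℤ)) = -((D : ℤ) + 1 + (n + 1 : ℕ)) := by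
            push_cast
            ring
          rw [h7, sub_self]
        · have h8 : m < -((D : ℤ) + ((n + 2 : ℕ) : ℤ)) := by
            push_cast at hm2 ⊢
            omega
          rw [h3 () m h8, hx2 () m (by push_cast at h8 ⊢; omega), sub_zero]
      have h7 := ih _ h5 h6
      have h8 : x = (x - F * e) + F * e := by ring
      rw [h8]
      exact Submodule.add_mem _ h7 (Submodule.mem_sup_left (hF4 _ (hq1 _)))
  -- generators of `P^⊥ ∩ Pol (D + 1)`
  obtain ⟨⟨ω, hω⟩, hfo⟩ := (t_KFO t_KDU) hR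
  obtain ⟨hω1, hω2⟩ := hfo ω hω
  let s : Finset ℤ := Finset.Ico (-((D + 1 : ℕ) : ℤ)) 0
  let V : Submodule A (KK Unit A) := Submodule.span A
    ((fun m : ℤ => q (mon () m (1 : A))) '' (s : Set ℤ) ∪ Set.range ω)
  have hV1 : V.FG := Submodule.fg_span
    (((Finset.finite_toSet s).image _).union (Set.finite_range ω))
  have hV2 : V ≤ Perp (uno R) := by
    refine Submodule.span_le.2 ?_
    rintro _ (⟨m, -, rfl⟩ | ⟨j, rfl⟩)
    · exact hq1 _
    · exact (hω1 j).1
  have hV3 : Perp (uno R) ⊓ Pol Unit A ((D : ℤ) + 1) ≤ V := by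
    rintro x ⟨hx1, hx2⟩
    have hx2' : x ∈ Pol Unit A ((D + 1 : ℕ) : ℤ) := by
      push_cast
      exact hx2
    have h1 := sub_mon_mem_Pol hx2' 0
    rw [Fintype.sum_unique, neg_zero] at h1
    set o : KK Unit A := x - ∑ m ∈ Finset.Ico (-((D + 1 : ℕ) : ℤ)) 0,
      mon default m ((x default).coeff m) with ho
    have h2 : q o ∈ EE (uno R) := by
      refine ⟨hq1 _, ?_⟩
      have h3 := hq3 o
      rw [res_Pol0 h1] at h3
      have h4 : mon () (-1) (0 : A) = 0 := by
        funext u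
        ext m
        rw [mon_coeff, Pi.zero_apply, HahnSeries.coeff_zero]
        split_ifs <;> rfl
      rw [h4, sub_zero] at h3
      have h5 : q o = o - (o - q o) := by ring
      rw [h5]
      exact Submodule.sub_mem _ h1 h3
    have h3 : q o ∈ V := by
      obtain ⟨c, hc, -⟩ := hω2 _ h2
      rw [hc]
      exact Submodule.sum_mem _ fun j _ => Submodule.smul_mem _ _
        (Submodule.subset_span (Or.inr ⟨j, rfl⟩))
    have h4 : x = q o + ∑ m ∈ s, (x default).coeff m • q (mon () m (1 : A)) := by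
      have h5 : q o = q x - ∑ m ∈ s, (x default).coeff m • q (mon () m (1 : A)) := by
        rw [ho, map_sub, map_sum]
        congr 1
        refine Finset.sum_congr rfl fun m _ => ?_
        rw [← map_smul, smul_mon, mul_one]
      rw [h5, hq2 x hx1]
      ring
    rw [h4]
    refine Submodule.add_mem _ h3 (Submodule.sum_mem _ fun m hm => Submodule.smul_mem _ _
      (Submodule.subset_span (Or.inl ⟨m, hm, rfl⟩)))
  refine ⟨V, hV1, hV2, fun x hx => ?_⟩
  obtain ⟨n, hn⟩ := exists_Pol x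
  have h1 : x ∈ Pol Unit A ((D : ℤ) + 1 + n) := Pol_mono (by omega) hn
  exact (sup_le_sup_left hV3 _) (hred n x hx h1)

end one

section quot

variable {A B : Type} [CommRing A] [CommRing B]

/-- For surjective base change all elements of the base change are images. -/
theorem exists_lift (hKBC : Stmt_KBC) {I : Type} (φ : A →+* B) (hφ : Function.Surjective φ)
    (P : Subalgebra A (KK I A)) {x : KK I B} (hx : x ∈ bc φ P) : ∃ y ∈ P, kmap φ y = x := by
  have h1 : x ∈ Subalgebra.toSubmodule (bc φ P) := hx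
  rw [hKBC.1 φ P] at h1
  refine Submodule.span_induction ?_ ?_ ?_ ?_ h1
  · rintro _ ⟨y, hy, rfl⟩
    exact ⟨y, hy, rfl⟩
  · exact ⟨0, zero_mem P, map_zero _⟩
  · rintro _ _ _ _ ⟨y, hy, rfl⟩ ⟨y', hy', rfl⟩
    exact ⟨y + y', add_mem hy hy', map_add _ _ _⟩
  · rintro b _ _ ⟨y, hy, rfl⟩
    obtain ⟨a, rfl⟩ := hφ b
    exact ⟨a • y, P.smul_mem hy a, kmap_smul _ _ _⟩

theorem exists_Om_lift (hKBC : Stmt_KBC) {I : Type} (φ : A →+* B) (hφ : Function.Surjective φ)
    (P : Subalgebra A (KK I A)) {x : KK I B} (hx : x ∈ Om (bc φ P)) : ∃ y ∈ Om P, kmap φ y = x := by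
  refine Submodule.span_induction ?_ ?_ ?_ ?_ hx
  · rintro _ ⟨p, hp, f, hf, rfl⟩
    obtain ⟨p', hp', rfl⟩ := exists_lift hKBC φ hφ P hp
    obtain ⟨f', hf', rfl⟩ := exists_lift hKBC φ hφ P hf
    exact ⟨p' * dd f', Submodule.subset_span ⟨p', hp', f', hf', rfl⟩, by
      rw [map_mul, kmap_dd]⟩
  · exact ⟨0, Submodule.zero_mem _, map_zero _⟩
  · rintro _ _ _ _ ⟨y, hy, rfl⟩ ⟨y', hy', rfl⟩
    exact ⟨y + y', Submodule.add_mem _ hy hy', map_add _ _ _⟩
  · rintro b _ _ ⟨y, hy, rfl⟩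
    obtain ⟨a, rfl⟩ := hφ b
    exact ⟨a • y, Submodule.smul_mem _ _ hy, kmap_smul _ _ _⟩

/-- Division of a series by a scalar. -/
theorem exists_div {I : Type} (c : A) (F : KK I A) (h : ∀ i m, c ∣ (F i).coeff m) :
    ∃ w : KK I A, F = c • w := by
  classical
  choose G hG using h
  refine ⟨fun i =>
    { coeff := fun m => if (F i).coeff m = 0 then 0 else G i m
      isPWO_support' := (F i).isPWO_support.mono fun m hm h0 => hm (by
        change (if (F i).coeff m = 0 then 0 else G i m) = 0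
        rw [if_pos h0]) }, ?_⟩
  funext i
  ext m
  rw [Pi.smul_apply, HahnSeries.coeff_smul, smul_eq_mul]
  change _ = c * (if (F i).coeff m = 0 then 0 else G i m)
  split_ifs with h0
  · rw [h0, mul_zero]
  · exact hG i m

end quot

end SPR

theorem t_SPR (hPPR : Stmt_PPR) (hPBC : Stmt_PBC) (hKBC : Stmt_KBC) : Stmt_SPR := by
  intro O A _ _ _ _ ρ g d R f π u m M hρ hπ hπu hu hmM hker hd hdu hR hz hf hK hH
  obtain ⟨V, hV1, hV2, hV3⟩ := SPR.exists_V hPPR hd hR hz hf hK
  have hOm : Om (uno R) ≤ Perp (uno R) := SPR.Om_le_Perp hR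
  have hπM : π ^ M ≠ 0 := pow_ne_zero M hπ
  -- division
  have hdiv : ∀ x ∈ Perp (uno R), ∃ y ∈ Om (uno R), ∃ w ∈ Perp (uno R),
      (u * π ^ m) • x = y + π ^ M • w := by
    intro x hx
    have h1 : kmap ρ x ∈ Perp (uno (bc1 ρ R)) := by
      rw [← bc_uno, hPBC hR ρ]
      exact Submodule.subset_span ⟨x, hx, rfl⟩
    have h2 := hH _ h1
    rw [← bc_uno, ← kmap_smul] at h2
    obtain ⟨y, hy, hxy⟩ := SPR.exists_Om_lift hKBC ρ hρ (uno R) h2
    obtain ⟨w, hw⟩ := SPR.exists_div (π ^ M) ((u * π ^ m) • x - y) (by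
      intro i n
      rw [← hker]
      have h3 : kmap ρ ((u * π ^ m) • x - y) = 0 := by
        rw [map_sub, hxy, sub_self]
      have h4 := congrArg (fun F : KK Unit A => (F i).coeff n) h3
      exact h4)
    refine ⟨y, hy, w, fun p hp => ?_, by rw [← hw]; ring⟩
    have h3 : π ^ M * res (w * p) = 0 := by
      rw [← smul_eq_mul, ← map_smul, ← smul_mul_assoc, ← hw, sub_mul, map_sub, smul_mul_assoc,
        map_smul, hx p hp, smul_zero, hOm hy p hp, sub_zero]
    exact (mul_eq_zero.1 h3).resolve_left hπM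
  -- Nakayama
  obtain ⟨u', rfl⟩ := hu
  set N' : Submodule O (KK Unit O) := V.map (LinearMap.lsmul O (KK Unit O) ((u' : O) * π ^ m))
    with hN'
  have hNle : N' ≤ Om (uno R) := by
    refine Submodule.le_of_le_smul_of_le_jacobson_bot (I := IsLocalRing.maximalIdeal O)
      (hV1.map _) (IsLocalRing.maximalIdeal_le_jacobson _) ?_
    rintro _ ⟨x, hx, rfl⟩
    obtain ⟨y, hy, w, hw, hxyw⟩ := hdiv x (hV2 hx)
    obtain ⟨y', hy', v', hv', rfl⟩ := Submodule.mem_sup.1 (hV3 hw)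
    have h1 : (LinearMap.lsmul O (KK Unit O) ((u' : O) * π ^ m)) x =
        (y + π ^ M • y') + (((u'⁻¹ : Oˣ) : O) * π ^ (M - m)) •
          (LinearMap.lsmul O (KK Unit O) ((u' : O) * π ^ m)) v' := by
      rw [LinearMap.lsmul_apply, LinearMap.lsmul_apply, hxyw, smul_add, smul_smul, add_assoc]
      congr 3
      have h2 : π ^ M = π ^ (M - m) * π ^ m := by
        rw [← pow_add]
        congr 1
        omega
      calc π ^ M = (((u'⁻¹ : Oˣ) : O) * u') * (π ^ (M - m) * π ^ m) := by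
            rw [Units.inv_mul, one_mul, h2]
        _ = _ := by ring
    rw [h1]
    refine Submodule.add_mem_sup (Submodule.add_mem _ hy (Submodule.smul_mem _ _ hy')) ?_
    refine Submodule.smul_mem_smul ?_ ⟨v', hv', rfl⟩
    refine Ideal.mul_mem_left _ _ ?_
    have h3 : M - m = (M - m - 1) + 1 := by omega
    rw [h3, pow_succ]
    exact Ideal.mul_mem_left _ _ ((IsLocalRing.mem_maximalIdeal _).2 hπu)
  intro x hx
  obtain ⟨y, hy, v, hv, rfl⟩ := Submodule.mem_sup.1 (hV3 hx)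
  rw [smul_add]
  exact Submodule.add_mem _ (Submodule.smul_mem _ _ hy) (hNle ⟨v, hv, rfl⟩)

end Pool.Agent.MG.G0
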