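import Pool.Agent.MG.G0.StmtsS

/-!
# Vector fields and differentials (PAPER.md, SM4)
-/

namespace Pool.Agent.MG.G0

namespace STO

variable {I A : Type} [CommRing A] {P : Subalgebra A (KK I A)}

theorem mul_mem_Om {p η : KK I A} (hp : p ∈ P) (hη : η ∈ Om P) : p * η ∈ Om P := by
  unfold Om at hη ⊢
  induction hη using Submodule.span_induction with
  | mem x hx =>
    obtain ⟨q, hq, f, hf, rfl⟩ := hx
    refine Submodule.subset_span ⟨p * q, mul_mem hp hq, f, hf, ?_⟩
    rw [mul_assoc]
  | zero =>
    rw [mul_zero]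
    exact Submodule.zero_mem _
  | add x y _ _ hx hy =>
    rw [mul_add]
    exact Submodule.add_mem _ hx hy
  | smul a x _ hx =>
    rw [mul_smul_comm]
    exact Submodule.smul_mem _ a hx

theorem mul_mem_of_Om {θ η : KK I A} (hθ : θ ∈ TT P) (hη : η ∈ Om P) : θ * η ∈ P := by
  unfold Om at hη
  induction hη using Submodule.span_induction with
  | mem x hx =>
    obtain ⟨q, hq, f, hf, rfl⟩ := hx
    rw [mul_left_comm]
    exact mul_mem hq (hθ f hf)
  | zero =>
    rw [mul_zero]
    exact zero_mem P
  | add x y _ _ hx hy =>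
    rw [mul_add]
    exact add_mem hx hy
  | smul a x _ hx =>
    rw [mul_smul_comm]
    exact P.smul_mem hx a

/-- The derivation of `P` given by a vector field. -/
noncomputable def der (θ : KK I A) (hθ : θ ∈ TT P) : Derivation A P P :=
  Derivation.mk'
    { toFun := fun f => ⟨θ * dd (f : KK I A), hθ f f.2⟩
      map_add' := fun f h => by
        apply Subtype.ext
        change θ * dd ((f : KK I A) + (h : KK I A)) = θ * dd (f : KK I A) + θ * dd (h : KK I A)
        rw [dd_add, mul_add]
      map_smul' := fun a f => by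
        apply Subtype.ext
        change θ * dd (a • (f : KK I A)) = a • (θ * dd (f : KK I A))
        rw [dd_smul, mul_smul_comm] }
    (fun f h => by
      apply Subtype.ext
      change θ * dd ((f : KK I A) * (h : KK I A)) = (f : KK I A) * (θ * dd (h : KK I A)) +
        (h : KK I A) * (θ * dd (f : KK I A))
      rw [dd_mul]
      ring)

theorem der_apply (θ : KK I A) (hθ : θ ∈ TT P) (f : P) :
    (der θ hθ f : KK I A) = θ * dd (f : KK I A) := rfl

/-- A derivation of `P` as a derivation with values in Laurent series. -/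
noncomputable def ext (D : Derivation A P P) : Derivation A P (KK I A) :=
  Derivation.mk'
    { toFun := fun f => (D f : KK I A)
      map_add' := fun f h => by rw [map_add]; rfl
      map_smul' := fun a f => by rw [D.map_smul]; rfl }
    (fun f h => by
      change ((D (f * h) : P) : KK I A) = (f : KK I A) * D h + (h : KK I A) * D f
      rw [D.leibniz]
      rfl)

theorem ext_apply (D : Derivation A P P) (f : P) : ext D f = (D f : KK I A) := rfl

theorem exists_theta (hSKK : Stmt_SKK) [Fintype I] {g : ℕ} (hP : IsKr g P) (hS : SmC A P)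
    (D : Derivation A P P) : ∃ θ ∈ TT P, ∀ f : P, (D f : KK I A) = θ * dd (f : KK I A) := by
  obtain ⟨θ, hθ, _⟩ := (hSKK hP).2 hS (ext D)
  refine ⟨θ, fun f hf => ?_, hθ⟩
  have h := hθ ⟨f, hf⟩
  change ((D ⟨f, hf⟩ : P) : KK I A) = θ * dd f at h
  rw [← h]
  exact (D ⟨f, hf⟩).2

end STO

theorem t_STO (hRES : Stmt_RES) (hSKK : Stmt_SKK) : Stmt_STO := by
  intro I A _ _ _ g P hP
  refine ⟨?_, fun p hp η hη => STO.mul_mem_Om hp hη, fun p hp θ hθ f hf => ?_,
    fun θ hθ => ⟨STO.der θ hθ, fun f => STO.der_apply θ hθ f⟩, fun hS => ?_⟩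
  · unfold Om
    rw [Submodule.span_le]
    rintro η ⟨p, hp, f, hf, rfl⟩
    rw [SetLike.mem_coe, mem_Perp]
    intro q hq
    rw [mul_right_comm]
    exact hRES hP _ (mul_mem hp hq) f hf
  · rw [mul_assoc]
    exact mul_mem hp (hθ f hf)
  · obtain ⟨n, D, g', h1, _⟩ := hS
    have hS : SmC A P := ⟨n, D, g', h1, by assumption⟩
    choose θ hθ hθ' using fun i => STO.exists_theta hSKK hP hS (D i)
    have hsum : ∑ i, θ i * dd (g' i : KK I A) = 1 := by
      have h2 : ((∑ i, (D i) (g' i) : P) : KK I A) = ((1 : P) : KK I A) := by rw [h1]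
      rw [AddSubmonoidClass.coe_finset_sum] at h2
      rw [← Finset.sum_congr rfl fun i _ => hθ' i (g' i), h2]
      rfl
    refine ⟨fun D => STO.exists_theta hSKK hP hS D,
      ⟨n, θ, fun i => g' i, hθ, fun i => (g' i).2, hsum⟩, fun hD η hη => ?_,
      fun hO θ hθ η hη => STO.mul_mem_of_Om hθ (hO hη)⟩
    have h3 : η = ∑ i, (θ i * η) * dd (g' i : KK I A) := by
      have h4 : ∑ i, (θ i * η) * dd (g' i : KK I A) = η * ∑ i, θ i * dd (g' i : KK I A) := by
        rw [Finset.mul_sum]
        refine Finset.sum_congr rfl fun i _ => ?_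
        ring
      rw [h4, hsum, mul_one]
    rw [h3]
    unfold Om
    exact Submodule.sum_mem _ fun i _ =>
      Submodule.subset_span ⟨θ i * η, hD _ (hθ i) _ hη, g' i, (g' i).2, rfl⟩

end Pool.Agent.MG.G0
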