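import Pool.Agent.MG.G0.StmtsK

/-!
# KBC: base change of Krichever rings
-/

namespace Pool.Agent.MG.G0

namespace KBC

section

variable {I A B C : Type} [CommRing A] [CommRing B] [CommRing C]

theorem bc_span (φ : A →+* B) (P : Subalgebra A (KK I A)) :
    Subalgebra.toSubmodule (bc φ P) = Submodule.span B (kmap φ '' (P : Set (KK I A))) := by
  rw [bc, Algebra.adjoin_eq_span]
  have h : (Submonoid.closure (kmap φ '' (P : Set (KK I A))) : Set (KK I B)) =
      kmap φ '' (P : Set (KK I A)) := by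
    have h1 : kmap φ '' (P : Set (KK I A)) = ((Submonoid.map (kmap φ : KK I A →+* KK I B)
        (Subalgebra.toSubsemiring P).toSubmonoid : Submonoid (KK I B)) : Set (KK I B)) := rfl
    rw [h1, Submonoid.closure_eq]
  rw [h]

theorem mem_bc (φ : A →+* B) (P : Subalgebra A (KK I A)) {f : KK I B} :
    f ∈ bc φ P ↔ f ∈ Submodule.span B (kmap φ '' (P : Set (KK I A))) := by
  rw [← bc_span, Subalgebra.mem_toSubmodule]

/-- The elements of the base change. -/
theorem exists_sum (φ : A →+* B) (P : Subalgebra A (KK I A)) {f : KK I B} (hf : f ∈ bc φ P) :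
    ∃ (m : ℕ) (b : Fin m → B) (p : Fin m → KK I A), (∀ k, p k ∈ P) ∧
      f = ∑ k, b k • kmap φ (p k) := by
  rw [mem_bc, Submodule.mem_span_set'] at hf
  obtain ⟨m, b, q, hq⟩ := hf
  choose p hp hp' using fun k => (q k).2
  exact ⟨m, b, p, hp, by rw [← hq]; exact Finset.sum_congr rfl fun k _ => by rw [hp']⟩

theorem bc_comp (φ : A →+* B) (ψ : B →+* C) (P : Subalgebra A (KK I A)) :
    bc (ψ.comp φ) P = bc ψ (bc φ P) := by
  apply le_antisymm
  · refine Algebra.adjoin_le ?_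
    rintro _ ⟨p, hp, rfl⟩
    rw [kmap_comp]
    exact kmap_mem_bc ψ (kmap_mem_bc φ hp)
  · refine Algebra.adjoin_le ?_
    rintro _ ⟨f, hf, rfl⟩
    obtain ⟨m, b, p, hp, rfl⟩ := exists_sum φ P hf
    rw [map_sum]
    refine sum_mem fun k _ => ?_
    rw [kmap_smul, ← kmap_comp]
    exact Subalgebra.smul_mem _ (kmap_mem_bc _ (hp k)) _

theorem bc_id (P : Subalgebra A (KK I A)) : bc (RingHom.id A) P = P := by
  have h : kmap (RingHom.id A) '' (P : Set (KK I A)) = (P : Set (KK I A)) := by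
    ext f
    constructor
    · rintro ⟨p, hp, rfl⟩
      exact hp
    · intro hf
      exact ⟨f, hf, rfl⟩
  rw [bc, h, Algebra.adjoin_eq]

theorem coeff_sum_kmap (φ : A →+* B) {m : ℕ} (b : Fin m → B) (p : Fin m → KK I A) (i : I)
    (l : ℤ) :
    ((∑ k, b k • kmap φ (p k)) i).coeff l = ∑ k, b k * φ ((p k i).coeff l) := by
  rw [Finset.sum_apply, HahnSeries.coeff_sum]
  refine Finset.sum_congr rfl fun k _ => ?_
  rw [Pi.smul_apply, HahnSeries.coeff_smul, kmap_apply, lmap_coeff, smul_eq_mul]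

variable [Fintype I]

/-- An element of the base change is determined by its polar part up to a constant. -/
theorem sec (φ : A →+* B) {P : Subalgebra A (KK I A)} (s : KK I A →ₗ[A] KK I A)
    (hs : IsSec P s) {f : KK I B} (hf : f ∈ bc φ P) :
    ∃ (n : ℕ) (c : B), f = (∑ i, ∑ l ∈ Finset.Ico (-(n : ℤ)) 0,
      ((f i).coeff l) • kmap φ (s (mon i l 1))) + algebraMap B (KK I B) c := by
  classical
  obtain ⟨m, b, p, hp, hfs⟩ := exists_sum φ P hf
  choose n' hn' using fun k => exists_Pol (p k)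
  obtain ⟨n, hn⟩ : ∃ n : ℕ, ∀ k, p k ∈ Pol I A n := by
    refine ⟨Finset.univ.sup n', fun k => Pol_mono ?_ (hn' k)⟩
    exact_mod_cast Finset.le_sup (f := n') (Finset.mem_univ k)
  choose a ha using fun k => hs.eq (p k) (hp k)
  refine ⟨n, -∑ k, b k * φ (a k), ?_⟩
  have h1 : ∀ k, kmap φ (s (p k)) = ∑ i, ∑ l ∈ Finset.Ico (-(n : ℤ)) 0,
      φ ((p k i).coeff l) • kmap φ (s (mon i l 1)) := by
    intro k
    have e2 := hs.zero _ (sub_mon_mem_Pol (hn k) 0)
    rw [map_sub, map_sum, sub_eq_zero] at e2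
    rw [e2, map_sum]
    refine Finset.sum_congr rfl fun i _ => ?_
    rw [map_sum, map_sum]
    refine Finset.sum_congr rfl fun l _ => ?_
    rw [← kmap_smul, ← map_smul, smul_mon, mul_one]
  have h2 : ∑ k, b k • kmap φ (s (p k)) = ∑ i, ∑ l ∈ Finset.Ico (-(n : ℤ)) 0,
      ((f i).coeff l) • kmap φ (s (mon i l 1)) := by
    have e1 : ∀ k, b k • kmap φ (s (p k)) = ∑ i, ∑ l ∈ Finset.Ico (-(n : ℤ)) 0,
        (b k * φ ((p k i).coeff l)) • kmap φ (s (mon i l 1)) := by
      intro k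
      rw [h1, Finset.smul_sum]
      refine Finset.sum_congr rfl fun i _ => ?_
      rw [Finset.smul_sum]
      exact Finset.sum_congr rfl fun l _ => smul_smul _ _ _
    rw [Finset.sum_congr rfl fun k _ => e1 k, Finset.sum_comm]
    refine Finset.sum_congr rfl fun i _ => ?_
    rw [Finset.sum_comm]
    refine Finset.sum_congr rfl fun l _ => ?_
    rw [← Finset.sum_smul, hfs, coeff_sum_kmap]
  have h3 : ∑ k, b k • kmap φ (s (p k)) =
      f + algebraMap B (KK I B) (∑ k, b k * φ (a k)) := by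
    rw [hfs, map_sum, ← Finset.sum_add_distrib]
    refine Finset.sum_congr rfl fun k _ => ?_
    rw [ha, map_add, smul_add, kmap_algebraMap, map_mul, ← Algebra.smul_def]
  rw [← h2, h3, map_neg]
  abel

/-- Property (K1) for the base change. -/
theorem bc_k1 (φ : A →+* B) {P : Subalgebra A (KK I A)} (s : KK I A →ₗ[A] KK I A)
    (hs : IsSec P s) (f : KK I B) (hf : f ∈ bc φ P) (h0 : f ∈ Pol I B 0) :
    ∃ b : B, f = algebraMap B (KK I B) b := by
  obtain ⟨n, c, hc⟩ := sec φ s hs hf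
  refine ⟨c, hc.trans ?_⟩
  rw [Finset.sum_eq_zero, zero_add]
  intro i _
  refine Finset.sum_eq_zero fun l hl => ?_
  rw [Finset.mem_Ico] at hl
  rw [h0 i l (by omega), zero_smul]

omit [Fintype I] in
theorem one_mem_Pol {n : ℤ} (h : 0 ≤ n) : (1 : KK I A) ∈ Pol I A n :=
  Pol_mono h one_mem_Pol0

/-- Bounded pole orders. -/
theorem bc_PP (φ : A →+* B) {P : Subalgebra A (KK I A)} (s : KK I A →ₗ[A] KK I A)
    (hs : IsSec P s) {N : ℕ} (hN : ∀ n : ℤ, N ≤ n → ∀ f ∈ Pol I A n, s f ∈ Pol I A n) (n : ℤ)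
    (hn : N ≤ n) :
    PP (bc φ P) n = Submodule.span B (kmap φ '' (PP P n : Set (KK I A))) := by
  apply le_antisymm
  · intro f hf
    obtain ⟨h1, h2⟩ := mem_PP.1 hf
    obtain ⟨m, c, hc⟩ := sec φ s hs h1
    rw [hc]
    refine add_mem (sum_mem fun i _ => sum_mem fun l _ => ?_) ?_
    · by_cases hl : l < -n
      · rw [h2 i l hl, zero_smul]
        exact zero_mem _
      · refine Submodule.smul_mem _ _ (Submodule.subset_span ⟨_, ?_, rfl⟩)
        exact mem_PP.2 ⟨hs.mem _, hN n hn _ (mon_mem_Pol i (by omega) 1)⟩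
    · rw [Algebra.algebraMap_eq_smul_one]
      refine Submodule.smul_mem _ _ (Submodule.subset_span ⟨1, ?_, map_one _⟩)
      exact mem_PP.2 ⟨one_mem P, one_mem_Pol (by omega)⟩
  · rw [Submodule.span_le]
    rintro _ ⟨p, hp, rfl⟩
    obtain ⟨h1, h2⟩ := mem_PP.1 hp
    exact mem_PP.2 ⟨kmap_mem_bc φ h1, kmap_mem_Pol φ h2⟩

omit [Fintype I] in
theorem mon_eq (φ : A →+* B) (i : I) (l : ℤ) (b : B) : mon i l b = b • kmap φ (mon i l 1) := by
  rw [kmap_mon, smul_mon, map_one, mul_one]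

theorem bc_dense (φ : A →+* B) {P : Subalgebra A (KK I A)} {N : ℕ} (hN : Dense P N) :
    Dense (bc φ P) N := by
  intro f
  obtain ⟨n, hn⟩ := exists_Pol f
  have h1 := sub_mon_mem_Pol hn (-(N : ℤ))
  rw [neg_neg] at h1
  choose p hp hpN using fun (x : I × ℤ) => hN (mon x.1 x.2 1)
  refine ⟨∑ i, ∑ l ∈ Finset.Ico (-(n : ℤ)) (-(N : ℤ)), ((f i).coeff l) • kmap φ (p (i, l)),
    sum_mem fun i _ => sum_mem fun l _ => Subalgebra.smul_mem _ (kmap_mem_bc φ (hp _)) _, ?_⟩
  have h2 : f - ∑ i, ∑ l ∈ Finset.Ico (-(n : ℤ)) (-(N : ℤ)), ((f i).coeff l) • kmap φ (p (i, l)) =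
      (f - ∑ i, ∑ l ∈ Finset.Ico (-(n : ℤ)) (-(N : ℤ)), mon i l ((f i).coeff l)) +
      ∑ i, ∑ l ∈ Finset.Ico (-(n : ℤ)) (-(N : ℤ)),
        ((f i).coeff l) • kmap φ (mon i l 1 - p (i, l)) := by
    have e : ∑ i, ∑ l ∈ Finset.Ico (-(n : ℤ)) (-(N : ℤ)),
        ((f i).coeff l) • kmap φ (mon i l 1 - p (i, l)) =
        ∑ i, ∑ l ∈ Finset.Ico (-(n : ℤ)) (-(N : ℤ)), mon i l ((f i).coeff l) -
        ∑ i, ∑ l ∈ Finset.Ico (-(n : ℤ)) (-(N : ℤ)), ((f i).coeff l) • kmap φ (p (i, l)) := by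
      rw [← Finset.sum_sub_distrib]
      refine Finset.sum_congr rfl fun i _ => ?_
      rw [← Finset.sum_sub_distrib]
      refine Finset.sum_congr rfl fun l _ => ?_
      rw [mon_eq φ, map_sub, smul_sub]
    rw [e]
    abel
  rw [h2]
  refine add_mem h1 (sum_mem fun i _ => sum_mem fun l _ => Submodule.smul_mem _ _ ?_)
  exact kmap_mem_Pol φ (hpN (i, l))

theorem res_kmap_mul (φ : A →+* B) (w v : KK I A) (b : B) :
    res (kmap φ w * (b • kmap φ v)) = b * φ (res (w * v)) := by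
  rw [mul_smul_comm, map_smul, ← map_mul, res_kmap, smul_eq_mul]

theorem bc_forms {g : ℕ} (φ : A →+* B) {P : Subalgebra A (KK I A)} {w : Fin g → KK I A}
    (h : IsForms P w) : IsForms (bc φ P) fun j => kmap φ (w j) := by
  classical
  choose v hv using fun j : Fin g => h.surj (Pi.single j 1)
  have hv' : ∀ j k, res (w k * v j) = if k = j then 1 else 0 := fun j k => by
    rw [hv, Pi.single_apply]
  -- the map `f ↦ f - ∑ res (w_j f) v_j`
  let T : KK I B →ₗ[B] KK I B := LinearMap.id -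
    ∑ j, ((res ∘ₗ LinearMap.mulLeft B (kmap φ (w j))).smulRight (kmap φ (v j)))
  have hT : ∀ f, T f = f - ∑ j, res (kmap φ (w j) * f) • kmap φ (v j) := fun f => by
    simp only [T, LinearMap.sub_apply, LinearMap.id_apply, LinearMap.sum_apply,
      LinearMap.smulRight_apply, LinearMap.comp_apply, LinearMap.mulLeft_apply]
  have hP0 : ∀ f ∈ Pol I B 0, T f ∈ Subalgebra.toSubmodule (bc φ P) ⊔ Pol I B 0 := by
    intro f hf
    rw [hT, Finset.sum_eq_zero, sub_zero]
    · exact Submodule.mem_sup_right hf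
    · intro j _
      rw [res_Pol0 (mul_mem_Pol0 (kmap_mem_Pol φ (h.reg j)) hf), zero_smul]
  have hk : ∀ f : KK I A, T (kmap φ f) ∈ Subalgebra.toSubmodule (bc φ P) ⊔ Pol I B 0 := by
    intro f
    have e1 : T (kmap φ f) = kmap φ (f - ∑ j, res (w j * f) • v j) := by
      rw [hT, map_sub, map_sum]
      congr 1
      refine Finset.sum_congr rfl fun j _ => ?_
      rw [kmap_smul, ← map_mul, res_kmap]
    obtain ⟨p, hp, hp0⟩ := (h.ker (f - ∑ j, res (w j * f) • v j)).1 (by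
      intro k
      rw [mul_sub, map_sub, Finset.mul_sum, map_sum, Finset.sum_eq_single k]
      · rw [mul_smul_comm, map_smul, hv', if_pos rfl, smul_eq_mul, mul_one, sub_self]
      · intro j _ hj
        rw [mul_smul_comm, map_smul, hv', if_neg (Ne.symm hj), smul_zero]
      · intro hk
        exact absurd (Finset.mem_univ k) hk)
    have e2 : T (kmap φ f) = kmap φ p + kmap φ (f - ∑ j, res (w j * f) • v j - p) := by
      rw [e1, ← map_add]
      congr 1
      abel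
    rw [e2]
    exact add_mem (Submodule.mem_sup_left (kmap_mem_bc φ hp))
      (Submodule.mem_sup_right (kmap_mem_Pol φ hp0))
  have hall : ∀ f : KK I B, T f ∈ Subalgebra.toSubmodule (bc φ P) ⊔ Pol I B 0 := by
    intro f
    obtain ⟨n, hn⟩ := exists_Pol f
    have h1 := hP0 _ (by simpa using sub_mon_mem_Pol hn 0)
    have e : T f = T (f - ∑ i, ∑ m ∈ Finset.Ico (-(n : ℤ)) 0, mon i m ((f i).coeff m)) +
        ∑ i, ∑ m ∈ Finset.Ico (-(n : ℤ)) 0, (f i).coeff m • T (kmap φ (mon i m 1)) := by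
      have e1 : ∑ i, ∑ m ∈ Finset.Ico (-(n : ℤ)) 0, (f i).coeff m • T (kmap φ (mon i m 1)) =
          T (∑ i, ∑ m ∈ Finset.Ico (-(n : ℤ)) 0, mon i m ((f i).coeff m)) := by
        rw [map_sum]
        refine Finset.sum_congr rfl fun i _ => ?_
        rw [map_sum]
        refine Finset.sum_congr rfl fun m _ => ?_
        rw [mon_eq φ i m ((f i).coeff m), map_smul]
      rw [e1, ← map_add]
      congr 1
      abel
    rw [e]
    exact add_mem h1 (sum_mem fun i _ => sum_mem fun m _ => Submodule.smul_mem _ _ (hk _))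
  refine ⟨fun j => kmap_mem_Pol φ (h.reg j), fun c => ?_, fun f => ⟨fun hf => ?_, ?_⟩⟩
  · refine ⟨∑ j, c j • kmap φ (v j), fun k => ?_⟩
    rw [Finset.mul_sum, map_sum, Finset.sum_eq_single k]
    · rw [res_kmap_mul, hv', if_pos rfl, map_one, mul_one]
    · intro j _ hj
      rw [res_kmap_mul, hv', if_neg (Ne.symm hj), map_zero, mul_zero]
    · intro hk
      exact absurd (Finset.mem_univ k) hk
  · have h1 := hall f
    rw [hT, Finset.sum_eq_zero (fun j _ => by rw [hf j, zero_smul]), sub_zero,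
      Submodule.mem_sup] at h1
    obtain ⟨p, hp, o, ho, hpo⟩ := h1
    refine ⟨p, hp, ?_⟩
    rw [← hpo, add_sub_cancel_left]
    exact ho
  · rintro ⟨p, hp, hp0⟩ j
    obtain ⟨m, b, q, hq, hps⟩ := exists_sum φ P hp
    have e : f = p + (f - p) := by abel
    rw [e, mul_add, map_add, res_Pol0 (mul_mem_Pol0 (kmap_mem_Pol φ (h.reg j)) hp0), add_zero,
      hps, Finset.mul_sum, map_sum]
    refine Finset.sum_eq_zero fun k _ => ?_
    rw [res_kmap_mul, (h.ker (q k)).2 ⟨q k, hq k, by rw [sub_self]; exact zero_mem _⟩ j, map_zero,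
      mul_zero]

/-- A family of forms gives (K2). -/
theorem k2_of_forms {g : ℕ} {P : Subalgebra A (KK I A)} {w : Fin g → KK I A}
    (h : IsForms P w) : ∃ L : KK I A →ₗ[A] (Fin g → A), Function.Surjective L ∧
      ∀ f, L f = 0 ↔ ∃ p ∈ P, f - p ∈ Pol I A 0 := by
  refine ⟨LinearMap.pi fun j => res ∘ₗ LinearMap.mulLeft A (w j), fun c => ?_, fun f => ?_⟩
  · obtain ⟨f, hf⟩ := h.surj c
    exact ⟨f, funext hf⟩
  · rw [← h.ker f, funext_iff]
    rfl

end

end KBC

theorem t_KBC (hKFO : Stmt_KFO) (hKNZ : Stmt_KNZ) (hKSP : Stmt_KSP) : Stmt_KBC := by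
  refine ⟨fun φ P => KBC.bc_span φ P, fun φ ψ P => KBC.bc_comp φ ψ P, fun P => KBC.bc_id P, ?_⟩
  intro I A B _ _ _ _ g P hP φ
  obtain ⟨N, hN⟩ := (hKNZ hP).1
  obtain ⟨s, hs, -⟩ := ((hKSP hP).2 N hN).1
  obtain ⟨w, hw⟩ := (hKFO hP).1
  refine ⟨⟨KBC.bc_k1 φ s hs, KBC.k2_of_forms (KBC.bc_forms φ hw)⟩,
    fun ω hω => KBC.bc_forms φ hω, fun N' hN' => ⟨KBC.bc_dense φ hN', fun n hn => ?_⟩⟩
  obtain ⟨s', hs', hsN⟩ := ((hKSP hP).2 N' hN').1
  exact KBC.bc_PP φ s' hs' hsN n hn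

end Pool.Agent.MG.G0
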