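import Pool.Agent.MG.G0.StmtsNP
import Pool.Agent.MG.G0.KBC
import Pool.Agent.MG.G0.KFO
import Pool.Agent.MG.G0.KDU
import Pool.Agent.MG.G0.KNZ

/-!
# TCA: deformations of smooth Krichever rings are trivial over nilpotent thickenings
-/

open TensorProduct

namespace Pool.Agent.MG.G0

namespace TCA

section nak

variable {A M : Type} [CommRing A] [AddCommGroup M] [Module A M] {J : Ideal A}

theorem nak_bot (hJ : ∃ n : ℕ, J ^ n = ⊥) {K : Submodule A M} (h : K ≤ J • K) : K = ⊥ := by
  obtain ⟨n, hn⟩ := hJ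
  have h1 : ∀ k : ℕ, K ≤ J ^ k • K := by
    intro k
    induction k with
    | zero => rw [pow_zero, Ideal.one_eq_top, Submodule.top_smul]
    | succ k ih =>
      rw [pow_succ', Submodule.mul_smul]
      exact h.trans (Submodule.smul_mono le_rfl ih)
  have h2 := h1 n
  rw [hn, Submodule.bot_smul] at h2
  exact le_bot_iff.mp h2

theorem nak_top (hJ : ∃ n : ℕ, J ^ n = ⊥) {S : Submodule A M} (h : ⊤ ≤ S ⊔ J • (⊤ : Submodule A M)) :
    S = ⊤ := by
  obtain ⟨n, hn⟩ := hJ
  have h1 : ∀ k : ℕ, ⊤ ≤ S ⊔ J ^ k • (⊤ : Submodule A M) := by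
    intro k
    induction k with
    | zero =>
      rw [pow_zero, Ideal.one_eq_top, Submodule.top_smul]
      exact le_sup_right
    | succ k ih =>
      refine ih.trans (sup_le le_sup_left ?_)
      refine (Submodule.smul_mono (le_refl (J ^ k)) h).trans ?_
      rw [Submodule.smul_sup, ← Submodule.mul_smul, ← pow_succ]
      exact sup_le (Submodule.smul_le_right.trans le_sup_left) le_sup_right
  have h2 := h1 n
  rw [hn, Submodule.bot_smul, sup_bot_eq] at h2
  exact top_le_iff.mp h2

end nak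

/-- A deformation of a formally smooth algebra over a nilpotent thickening of a field is trivial. -/
theorem trivial_def {κ A R B : Type} [Field κ] [CommRing A] [Algebra κ A] [CommRing R]
    [Algebra A R] [CommRing B] [Algebra κ B] (rs : A →ₐ[κ] κ)
    (hn : ∃ n : ℕ, RingHom.ker (rs : A →+* κ) ^ n = ⊥) (π : R →+* B)
    (hπ : Function.Surjective π) (hπa : ∀ a : A, π (algebraMap A R a) = algebraMap κ B (rs a))
    (hker : ∀ x, π x = 0 → x ∈ RingHom.ker (rs : A →+* κ) • (⊤ : Submodule A R))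
    [Module.Projective A R] [Algebra.FormallySmooth κ B] :
    Nonempty ((A ⊗[κ] B) ≃ₐ[A] R) := by
  let _ : Algebra κ R := ((algebraMap A R).comp (algebraMap κ A)).toAlgebra
  have _ : IsScalarTower κ A R := IsScalarTower.of_algebraMap_eq fun _ => rfl
  have hrs : ∀ c : κ, rs (algebraMap κ A c) = c := fun c => by
    rw [AlgHom.commutes]
    rfl
  let πk : R →ₐ[κ] B :=
    { π with
      commutes' := fun c => by
        change π (algebraMap A R (algebraMap κ A c)) = algebraMap κ B c
        rw [hπa, hrs] }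
  have hπk : ∀ x, πk x = π x := fun _ => rfl
  have hnil : IsNilpotent (RingHom.ker (πk : R →+* B)) := by
    obtain ⟨n, hn⟩ := hn
    refine ⟨n, ?_⟩
    have h1 : RingHom.ker (πk : R →+* B) ≤
        (RingHom.ker (rs : A →+* κ)).map (algebraMap A R) := by
      intro x hx
      have h2 := hker x hx
      refine Submodule.smul_induction_on h2 ?_ fun a b => Ideal.add_mem _
      intro a ha y _
      rw [Algebra.smul_def]
      exact Ideal.mul_mem_right _ _ (Ideal.mem_map_of_mem _ ha)
    have h3 := Ideal.pow_right_mono h1 n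
    rw [← Ideal.map_pow, hn, Ideal.map_bot] at h3
    exact le_bot_iff.mp h3
  let σ : B →ₐ[κ] R := Algebra.FormallySmooth.liftOfSurjective (AlgHom.id κ B) πk hπ hnil
  have hσ : ∀ b, π (σ b) = b := fun b =>
    Algebra.FormallySmooth.liftOfSurjective_apply (AlgHom.id κ B) πk hπ hnil b
  let Φ : A ⊗[κ] B →ₐ[A] R :=
    Algebra.TensorProduct.lift (Algebra.ofId A R) σ fun _ _ => Commute.all _ _
  have hΦ : ∀ a b, Φ (a ⊗ₜ b) = algebraMap A R a * σ b := fun a b => by
    rw [Algebra.TensorProduct.lift_tmul]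
    rfl
  have hsurj : Function.Surjective Φ := by
    have h1 : LinearMap.range Φ.toLinearMap = ⊤ := by
      refine nak_top hn ?_
      intro x _
      have h2 : x = Φ.toLinearMap (1 ⊗ₜ π x) + (x - σ (π x)) := by
        change x = Φ (1 ⊗ₜ π x) + (x - σ (π x))
        rw [hΦ, map_one, one_mul]
        ring
      rw [h2]
      refine Submodule.add_mem_sup ⟨_, rfl⟩ (hker _ ?_)
      rw [map_sub, hσ, sub_self]
    exact LinearMap.range_eq_top.mp h1
  have hinj : Function.Injective Φ := by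
    have hx : ∀ x : A ⊗[κ] B, x - 1 ⊗ₜ[κ] (π (Φ x)) ∈
        RingHom.ker (rs : A →+* κ) • (⊤ : Submodule A (A ⊗[κ] B)) := by
      intro x
      induction x with
      | zero =>
        rw [map_zero, map_zero, TensorProduct.tmul_zero, sub_zero]
        exact Submodule.zero_mem _
      | tmul a b =>
        have h1 : a ⊗ₜ[κ] b - 1 ⊗ₜ[κ] (π (Φ (a ⊗ₜ[κ] b))) =
            (a - algebraMap κ A (rs a)) • ((1 : A) ⊗ₜ[κ] b) := by
          rw [hΦ, map_mul, hπa, hσ, sub_smul, TensorProduct.smul_tmul', TensorProduct.smul_tmul',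
            smul_eq_mul, mul_one, smul_eq_mul, mul_one, ← Algebra.smul_def,
            ← TensorProduct.smul_tmul, Algebra.smul_def, mul_one]
        rw [h1]
        refine Submodule.smul_mem_smul ?_ trivial
        rw [RingHom.mem_ker]
        change rs (a - algebraMap κ A (rs a)) = 0
        rw [map_sub, hrs, sub_self]
      | add x y hx hy =>
        have h1 : x + y - 1 ⊗ₜ[κ] (π (Φ (x + y))) =
            (x - 1 ⊗ₜ[κ] (π (Φ x))) + (y - 1 ⊗ₜ[κ] (π (Φ y))) := by
          rw [map_add, map_add, TensorProduct.tmul_add]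
          abel
        rw [h1]
        exact Submodule.add_mem _ hx hy
    obtain ⟨s, hs⟩ := Module.projective_lifting_property Φ.toLinearMap LinearMap.id hsurj
    have hs' : ∀ y, Φ (s y) = y := fun y => LinearMap.congr_fun hs y
    let p : A ⊗[κ] B →ₗ[A] A ⊗[κ] B := LinearMap.id - s ∘ₗ Φ.toLinearMap
    have hp : ∀ x, p x = x - s (Φ x) := fun _ => rfl
    have h1 : LinearMap.ker Φ.toLinearMap = ⊥ := by
      refine nak_bot hn ?_
      intro x hxk
      have h2 : Φ x = 0 := hxk
      have h3 := hx x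
      rw [h2, map_zero, TensorProduct.tmul_zero, sub_zero] at h3
      have h4 : p x = x := by rw [hp, h2, map_zero, sub_zero]
      rw [← h4]
      have h5 := Submodule.mem_map_of_mem (f := p) h3
      rw [Submodule.map_smul''] at h5
      refine Submodule.smul_mono le_rfl ?_ h5
      rintro _ ⟨y, _, rfl⟩
      change Φ (p y) = 0
      rw [hp, map_sub, hs', sub_self]
    exact LinearMap.ker_eq_bot.mp h1
  exact ⟨AlgEquiv.ofBijective Φ ⟨hinj, hsurj⟩⟩

/-- The kernel of the reduction. -/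
theorem one_tmul_eq_zero {κ A R : Type} [Field κ] [CommRing A] [Algebra κ A] [AddCommGroup R]
    [Module A R] (rs : A →ₐ[κ] κ) [Algebra A κ] (hal : ∀ a, algebraMap A κ a = rs a) (x : R)
    (h : (1 : κ) ⊗ₜ[A] x = 0) : x ∈ RingHom.ker (rs : A →+* κ) • (⊤ : Submodule A R) := by
  have hrs : ∀ c : κ, rs (algebraMap κ A c) = c := fun c => by
    rw [AlgHom.commutes]
    rfl
  let J := RingHom.ker (rs : A →+* κ) • (⊤ : Submodule A R)
  let F : κ →ₗ[A] R →ₗ[A] (R ⧸ J) := LinearMap.mk₂ A
    (fun c y => Submodule.Quotient.mk (algebraMap κ A c • y))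
    (fun c c' y => by rw [map_add, add_smul, Submodule.Quotient.mk_add])
    (fun a c y => by
      rw [← Submodule.Quotient.mk_smul, Submodule.Quotient.eq, smul_smul, ← sub_smul]
      refine Submodule.smul_mem_smul ?_ trivial
      rw [RingHom.mem_ker]
      change rs (algebraMap κ A (a • c) - a * algebraMap κ A c) = 0
      rw [map_sub, map_mul, hrs, hrs, Algebra.smul_def, hal, sub_self])
    (fun c y y' => by rw [smul_add, Submodule.Quotient.mk_add])
    (fun a c y => by rw [← Submodule.Quotient.mk_smul, smul_comm])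
  have h1 : TensorProduct.lift F ((1 : κ) ⊗ₜ[A] x) = Submodule.Quotient.mk x := by
    rw [TensorProduct.lift.tmul]
    change Submodule.Quotient.mk (algebraMap κ A 1 • x) = Submodule.Quotient.mk x
    rw [map_one, one_smul]
  rw [h, map_zero] at h1
  exact (Submodule.Quotient.mk_eq_zero J).mp h1.symm

/-- The reduction is surjective. -/
theorem bcMap_surj {I κ A : Type} [Field κ] [CommRing A] [Algebra κ A] (rs : A →ₐ[κ] κ)
    (R : Subalgebra A (KK I A)) : Function.Surjective (bcMap (rs : A →+* κ) R) := by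
  rintro ⟨y, hy⟩
  suffices h : ∃ x ∈ R, kmap (rs : A →+* κ) x = y by
    obtain ⟨x, hx, hxy⟩ := h
    exact ⟨⟨x, hx⟩, Subtype.ext hxy⟩
  refine Algebra.adjoin_induction (p := fun y _ => ∃ x ∈ R, kmap (rs : A →+* κ) x = y)
    ?_ ?_ ?_ ?_ hy
  · rintro _ ⟨x, hx, rfl⟩
    exact ⟨x, hx, rfl⟩
  · intro c
    refine ⟨algebraMap A (KK I A) (algebraMap κ A c), R.algebraMap_mem _, ?_⟩
    rw [kmap_algebraMap]
    congr 1
    change rs (algebraMap κ A c) = c
    rw [AlgHom.commutes]
    rfl
  · rintro _ _ _ _ ⟨x, hx, rfl⟩ ⟨x', hx', rfl⟩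
    exact ⟨x + x', add_mem hx hx', map_add _ _ _⟩
  · rintro _ _ _ _ ⟨x, hx, rfl⟩ ⟨x', hx', rfl⟩
    exact ⟨x * x', mul_mem hx hx', map_mul _ _ _⟩

end TCA

theorem t_TCA (hKSP : Stmt_KSP) (hKBT : Stmt_KBT) (hSBC : Stmt_SBC) (hSDF : Stmt_SDF)
    (hSDN : Stmt_SDN) : Stmt_TCA := by
  intro I κ A _ _ _ _ _ rs g R hn hR hFS hSm
  have hrs : ∀ c : κ, rs (algebraMap κ A c) = c := fun c => by
    rw [AlgHom.commutes]
    rfl
  have _ : Module.Projective A R := (hKSP hR).1
  have hker : ∀ x, bcMap (rs : A →+* κ) R x = 0 →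
      x ∈ RingHom.ker (rs : A →+* κ) • (⊤ : Submodule A R) := by
    intro x hx
    let _ : Algebra A κ := (rs : A →+* κ).toAlgebra
    refine TCA.one_tmul_eq_zero rs (fun _ => rfl) x ?_
    have h1 := (hKBT (B := κ) hR).1 1 (fun _ => 1) (fun _ => x) (by
      rw [Fin.sum_univ_one, one_smul]
      exact congrArg Subtype.val hx)
    rwa [Fin.sum_univ_one] at h1
  obtain ⟨e⟩ := TCA.trivial_def rs hn (bcMap (rs : A →+* κ) R) (TCA.bcMap_surj rs R)
    (fun a => Subtype.ext (kmap_algebraMap (rs : A →+* κ) a)) hker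
  have hFS' : Algebra.FormallySmooth A R := Algebra.FormallySmooth.of_equiv e
  have hSm' : SmC A R := hSBC.2.1 e (hSBC.1 hSm)
  refine ⟨hFS', hSm', fun hc hfg => ?_⟩
  have hKBC : Stmt_KBC := t_KBC (t_KFO t_KDU) t_KNZ hKSP
  refine hSDN hR hSm' (rs : A →+* κ) (fun c => ⟨algebraMap κ A c, hrs c⟩) hfg hn ?_
  exact hSDF (hKBC.2.2.2 hR (rs : A →+* κ)).1 hFS hSm

end Pool.Agent.MG.G0
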