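import Pool.Agent.MG.G0.Ev

/-!
# Functions of pairs of formal points (PAPER.md, TG): definitions and the form of Theorem G
-/

namespace Pool.Agent.MG.G0

section

variable {B₀ R : Type} [CommRing B₀] [CommRing R] [Algebra B₀ R]

/-- The homomorphism `p : R → A[[u]]` is a formal point: the coefficients of `u` generate the unit
ideal of `A`. -/
def FPm {A : Type} [CommRing A] [Algebra B₀ A] (p : R →ₐ[B₀] PowerSeries A) : Prop :=
  Ideal.span (Set.range fun r : R => PowerSeries.coeff 1 (p r)) = ⊤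

/-- The formal points `p`, `q` are disjoint. -/
def DJm {A : Type} [CommRing A] [Algebra B₀ A] (p q : R →ₐ[B₀] PowerSeries A) : Prop :=
  Ideal.span (Set.range fun r : R =>
    PowerSeries.constantCoeff (p r) - PowerSeries.constantCoeff (q r)) = ⊤

variable (B₀ R) in
/-- Functions of pairs of formal points of `R` over `B₀`-algebras `A`, with values in `A`. -/
def CF : Type 1 :=
  ∀ (A : Type) [CommRing A] [Algebra B₀ A], (R →ₐ[B₀] PowerSeries A) →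
    (R →ₐ[B₀] PowerSeries A) → A

/-- The formal points `p` and `q` lie in the open set where `b` is invertible. -/
def UnP {A : Type} [CommRing A] [Algebra B₀ A] (b : R) (p q : R →ₐ[B₀] PowerSeries A) : Prop :=
  IsUnit (PowerSeries.constantCoeff (p b)) ∧ IsUnit (PowerSeries.constantCoeff (q b))

/-- Naturality (for disjoint formal points in the open set where `b` is invertible). -/
def CF.Nat (b : R) (c : CF B₀ R) : Prop :=
  ∀ {A A' : Type} [CommRing A] [Algebra B₀ A] [CommRing A'] [Algebra B₀ A'] (φ : A →ₐ[B₀] A')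
    (p q : R →ₐ[B₀] PowerSeries A) (p' q' : R →ₐ[B₀] PowerSeries A'), FPm p → FPm q → DJm p q →
    UnP b p q → (∀ r, p' r = PowerSeries.map (φ : A →+* A') (p r)) →
    (∀ r, q' r = PowerSeries.map (φ : A →+* A') (q r)) → c A' p' q' = φ (c A p q)

/-- Weight `-w` under rescaling of the parameters. -/
def CF.Wt (b : R) (w : ℕ) (c : CF B₀ R) : Prop :=
  ∀ {A : Type} [CommRing A] [Algebra B₀ A] (x y : Aˣ) (p q p' q' : R →ₐ[B₀] PowerSeries A),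
    FPm p → FPm q → DJm p q → UnP b p q →
    (∀ r, p' r = PowerSeries.rescale (x : A) (p r)) →
    (∀ r, q' r = PowerSeries.rescale (y : A) (q r)) →
    ((x : A) * (y : A)) ^ w * c A p' q' = c A p q

end

section

variable {B₀ R₁ R₂ R₁₂ : Type} [CommRing B₀] [CommRing R₁] [CommRing R₂] [CommRing R₁₂]
  [Algebra B₀ R₁] [Algebra B₀ R₂] [Algebra B₀ R₁₂]

/-- Agreement on the pairs of formal points of `R₁₂` in the open set where `b₁ b₂` is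
invertible. -/
def CF.Agr (b₁ : R₁) (b₂ : R₂) (ι₁ : R₁ →ₐ[B₀] R₁₂) (ι₂ : R₂ →ₐ[B₀] R₁₂) (c₁ : CF B₀ R₁)
    (c₂ : CF B₀ R₂) : Prop :=
  ∀ {A : Type} [CommRing A] [Algebra B₀ A] (p q : R₁₂ →ₐ[B₀] PowerSeries A), FPm p → FPm q →
    DJm p q → FPm (p.comp ι₁) → FPm (q.comp ι₁) → DJm (p.comp ι₁) (q.comp ι₁) →
    FPm (p.comp ι₂) → FPm (q.comp ι₂) → DJm (p.comp ι₂) (q.comp ι₂) →
    UnP b₁ (p.comp ι₁) (q.comp ι₁) → UnP b₂ (p.comp ι₂) (q.comp ι₂) →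
    c₁ A (p.comp ι₁) (q.comp ι₁) = c₂ A (p.comp ι₂) (q.comp ι₂)

/-- THEOREM G: functions of positive weight vanish. -/
def ThmG (b₁ : R₁) (b₂ : R₂) (ι₁ : R₁ →ₐ[B₀] R₁₂) (ι₂ : R₂ →ₐ[B₀] R₁₂) : Prop :=
  ∀ (w : ℕ), 1 ≤ w → ∀ (c₁ : CF B₀ R₁) (c₂ : CF B₀ R₂), c₁.Nat b₁ → c₂.Nat b₂ →
    c₁.Wt b₁ w → c₂.Wt b₂ w → CF.Agr b₁ b₂ ι₁ ι₂ c₁ c₂ →
    (∀ {A : Type} [CommRing A] [Algebra B₀ A] (p q : R₁ →ₐ[B₀] PowerSeries A), FPm p → FPm q →
      DJm p q → UnP b₁ p q → c₁ A p q = 0) ∧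
    ∀ {A : Type} [CommRing A] [Algebra B₀ A] (p q : R₂ →ₐ[B₀] PowerSeries A), FPm p → FPm q →
      DJm p q → UnP b₂ p q → c₂ A p q = 0

end

section

variable {B₀ I₁ I₂ : Type} [Fintype I₁] [Fintype I₂] [CommRing B₀]

/-- A smooth Krichever ring. -/
structure SKr {I : Type} [Fintype I] (h : ℕ) (R : Subalgebra B₀ (KK I B₀)) : Prop where
  kr : IsKr h R
  fs : Algebra.FormallySmooth B₀ R
  smc : SmC B₀ R
  dual : Dual R

/-- The rings of two charts of a smooth curve: the complements of the disjoint sets of punctures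
`I₁` and `I₂`, and their intersection. -/
structure Chp (h : ℕ) (R₁ : Subalgebra B₀ (KK I₁ B₀)) (R₂ : Subalgebra B₀ (KK I₂ B₀))
    (R₁₂ : Subalgebra B₀ (KK (I₁ ⊕ I₂) B₀)) : Prop where
  s1 : SKr h R₁
  s2 : SKr h R₂
  s12 : SKr h R₁₂
  f1 : R₁ = Rem R₁₂
  f2 : R₂ = Rem (reix (Equiv.sumComm I₂ I₁) R₁₂)
  d1 : Dn R₁₂
  d2 : Dn (reix (Equiv.sumComm I₂ I₁) R₁₂)
  i1 : ∀ w ∈ R₁₂, (∀ i, w (Sum.inl i) = 0) → w = 0
  i2 : ∀ w ∈ R₁₂, (∀ i, w (Sum.inr i) = 0) → w = 0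

/-- `ι₁`, `ι₂` are the inclusions of the rings of the charts. -/
structure Inc {R₁ : Subalgebra B₀ (KK I₁ B₀)} {R₂ : Subalgebra B₀ (KK I₂ B₀)}
    {R₁₂ : Subalgebra B₀ (KK (I₁ ⊕ I₂) B₀)} (ι₁ : R₁ →ₐ[B₀] R₁₂) (ι₂ : R₂ →ₐ[B₀] R₁₂) : Prop where
  e1 : ∀ (f : R₁) (i : I₁), (ι₁ f : KK (I₁ ⊕ I₂) B₀) (Sum.inl i) = (f : KK I₁ B₀) i
  e2 : ∀ (f : R₂) (i : I₂), (ι₂ f : KK (I₁ ⊕ I₂) B₀) (Sum.inr i) = (f : KK I₂ B₀) i
  r1 : ∀ (f : R₁) (i : I₂), ∀ m < 0, ((ι₁ f : KK (I₁ ⊕ I₂) B₀) (Sum.inr i)).coeff m = 0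
  r2 : ∀ (f : R₂) (i : I₁), ∀ m < 0, ((ι₂ f : KK (I₁ ⊕ I₂) B₀) (Sum.inl i)).coeff m = 0

end

end Pool.Agent.MG.G0
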