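import Pool.Agent.MG.G0.Hv
import Pool.Agent.MG.G0.Tg
import Pool.Agent.MG.G0.StmtsLOG

/-!
# Statements: the leading coefficients of the values at plumbed curves (PAPER_M.md, LOGM)
-/

open TensorProduct

namespace Pool.Agent.MG.G0

/-- MTR: truncated polynomials `A[T]/T^N`. -/
def Stmt_MTR : Prop :=
  (∀ {A : Type} [CommRing A] {N : ℕ}, tt A N ^ N = 0 ∧
    (∀ x : TrA A N, x = ∑ i ∈ Finset.range N, co i x • tt A N ^ i) ∧
    (∀ (x y : TrA A N) (i : ℕ), i < N → co i (x + y) = co i x + co i y) ∧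
    (∀ (a : A) (x : TrA A N) (i : ℕ), i < N → co i (a • x) = a * co i x) ∧
    (∀ x : TrA A N, (∀ i, i < N → co i x = 0) → x = 0) ∧
    (∀ x : TrA A N, 0 < N → co 0 (tt A N * x) = 0) ∧
    (∀ (x : TrA A N) (i : ℕ), i + 1 < N → co (i + 1) (tt A N * x) = co i x) ∧
    (∀ (x : TrA A N) (m : ℕ), (∀ i, i < m → i < N → co i x = 0) → ∃ y, x = tt A N ^ m * y) ∧
    ∀ x : TrA A N, tt A N * x = 0 → ∀ i, i + 1 < N → co i x = 0) ∧
  (∀ {A B : Type} [CommRing A] [CommRing B] {N : ℕ} (φ : A →+* B),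
    (∃ σ : TrA A N →+* TrA B N, TrM φ σ) ∧ ∀ σ : TrA A N →+* TrA B N, TrM φ σ →
      ∀ (x : TrA A N) (i : ℕ), i < N → co i (σ x) = φ (co i x)) ∧
  (∀ {A : Type} [CommRing A] {N : ℕ} (c : A),
    (∃ ψ : TrA A N →ₐ[A] TrA A N, ψ (tt A N) = c • tt A N) ∧
    ∀ ψ : TrA A N →ₐ[A] TrA A N, ψ (tt A N) = c • tt A N →
      ∀ (x : TrA A N) (i : ℕ), i < N → co i (ψ x) = c ^ i * co i x) ∧
  (∀ {A B : Type} [CommRing A] [CommRing B] [Algebra A B] {N : ℕ} (t : B), t ^ N = 0 →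
    ∃ σ : TrA A N →ₐ[A] B, σ (tt A N) = t) ∧
  ∀ {A : Type} [CommRing A] {N : ℕ} (π : TrA A N →ₐ[A] A), π (tt A N) = 0 → 0 < N →
    ∀ x : TrA A N, π x = co 0 x ∧ (π x = 0 → ∃ y, x = tt A N * y)

/-- MEE: regular differentials and base change. -/
def Stmt_MEE : Prop :=
  ∀ {I A B : Type} [Fintype I] [Nonempty I] [CommRing A] [CommRing B] {g : ℕ}
    {P : Subalgebra A (KK I A)}, IsKr g P → ∀ φ : A →+* B,
    (∀ u ∈ EE P, kmap φ u ∈ EE (bc φ P)) ∧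
    EE (bc φ P) = Submodule.span B (kmap φ '' (EE P : Set (KK I A))) ∧
    (Function.Surjective φ → (∀ ω ∈ EE (bc φ P), ∃ u ∈ EE P, kmap φ u = ω) ∧
      ∀ t : A, φ t = 0 → (∀ a, φ a = 0 → ∃ b, a = t * b) → ∀ u ∈ EE P, kmap φ u = 0 →
        ∃ v ∈ EE P, u = t • v)

/-- MFE: regular differentials and forgetting punctures. -/
def Stmt_MFE : Prop :=
  (∀ {I J A : Type} [Fintype I] [Nonempty I] [Fintype J] [CommRing A] {h : ℕ}
    {W : Subalgebra A (KK (I ⊕ J) A)} {P : Subalgebra A (KK I A)}, IsKr h W → IsKr h P →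
    Forget W P → (∀ u ∈ EE W, atI u ∈ EE P) ∧ ∀ ω ∈ EE P, ∃! u, u ∈ EE W ∧ atI u = ω) ∧
  ∀ {I J A : Type} [Fintype I] [Nonempty I] [Fintype J] [CommRing A]
    {W : Subalgebra A (KK (I ⊕ J) A)} {P : Subalgebra A (KK I A)}, Forget W P →
    ∀ (pt : Bool → FPt W) (pt' : Bool → FPt P), (∀ b, (pt b).Rs (pt' b)) →
      ∀ (η : KK (I ⊕ J) A) (ρ : A), η ∈ Pol (I ⊕ J) A 0 → IsRho pt η ρ → IsRho pt' (atI η) ρ

/-- `p'` is the base change of the formal point `p` (`R' = bc φ R`). -/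
def Bcr {I A B : Type} [CommRing A] [CommRing B] (φ : A →+* B) {R : Subalgebra A (KK I A)}
    {R' : Subalgebra B (KK I B)} (p : FPt R) (p' : FPt R') : Prop :=
  R' = bc φ R ∧ ∀ (f : R) (f' : R'), (f' : KK I B) = kmap φ (f : KK I A) →
    p'.h f' = PowerSeries.map φ (p.h f)

/-- MPB: base change of plumbed curves, in the form with `Bcr`. -/
def Stmt_MPB : Prop :=
  ∀ {I A : Type} [Fintype I] [Nonempty I] [CommRing A] {h : ℕ} {R : Subalgebra A (KK I A)},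
    IsKr h R → SmC A R → ∀ pt : Bool → FPt R, Disj pt →
    (∀ {B : Type} [CommRing B] (φ : A →+* B) (R' : Subalgebra B (KK I B))
      (pt' : Bool → FPt R'), (∀ b, Bcr φ (pt b) (pt' b)) →
      Disj pt' ∧ ∀ t : A, IsNilpotent t → PT pt' (φ t) = bc φ (PT pt t)) ∧
    (∀ {B C : Type} [CommRing B] [CommRing C] (φ : A →+* B) (ψ : B →+* C)
      (R' : Subalgebra B (KK I B)) (R'' : Subalgebra C (KK I C)) (pt' : Bool → FPt R')
      (pt'' : Bool → FPt R''), (∀ b, Bcr φ (pt b) (pt' b)) →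
      (∀ b, Bcr (ψ.comp φ) (pt b) (pt'' b)) → ∀ b, Bcr ψ (pt' b) (pt'' b)) ∧
    (∀ (R' : Subalgebra A (KK I A)) (pt' : Bool → FPt R'),
      (∀ b, Bcr (RingHom.id A) (pt b) (pt' b)) → ∀ t, PT pt' t = PT pt t) ∧
    ∀ {B : Type} [CommRing B] (φ : A →+* B) (pt' : Bool → FPt (bc φ R)),
      (∀ b, (pt b).Bc φ (pt' b)) → ∀ b, Bcr φ (pt b) (pt' b)

/-- MPG: plumbed curves are good; the hypotheses of the polarised values. -/
def Stmt_MPG : Prop :=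
  ∀ {I A : Type} [Fintype I] [Nonempty I] [CommRing A] {h : ℕ} {R : Subalgebra A (KK I A)},
    SKr h R → ∀ pt : Bool → FPt R, Disj pt → ∀ t : A, IsNilpotent t →
    Good (h + 1) (PT pt t) ∧ (∀ ω ∈ EE (PT pt t), t • ω ∈ Om (PT pt t)) ∧
    (∀ {B : Type} [CommRing B] (φ : A →+* B) (D : DD (bc φ (PT pt t))),
      ∃ θ : KK I B, φ t • D = tder (bc φ (PT pt t)) θ) ∧
    ∀ {B : Type} [CommRing B] (φ : A →+* B), SKr h (bc φ R)

/-- The values of order `k` (over `A[T]/T^N`) vanish modulo `T^m`. -/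
def IHm {g : ℕ} (E : Ev g) {A I : Type} [CommRing A] [Algebra ℂ A] [Fintype I]
    {R : Subalgebra A (KK I A)} (pt : Bool → FPt R) (N k m : ℕ) : Prop :=
  ∀ (u u' : Fin k → KK I (TrA A N)) (x : TrA A N), Vl E pt u u' x → ∀ i < m, co i x = 0

/-- MVX: existence of values; two values agree modulo `T^(N-1)`. -/
def Stmt_MVX : Prop :=
  ∀ {I A : Type} [Fintype I] [Nonempty I] [CommRing A] [Algebra ℂ A] {h : ℕ}
    {R : Subalgebra A (KK I A)}, SKr h R → ∀ pt : Bool → FPt R, Disj pt →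
    ∀ (E : Ev (h + 1)) (N k : ℕ),
    (∃ pt' : Bool → FPt (bc (algebraMap A (TrA A N)) R),
      ∀ b, (pt b).Bc (algebraMap A (TrA A N)) (pt' b)) ∧
    (∀ pt' : Bool → FPt (bc (algebraMap A (TrA A N)) R),
      (∀ b, (pt b).Bc (algebraMap A (TrA A N)) (pt' b)) →
      IsKr (h + 1) (PT pt' (tt A N)) ∧
      (∀ u u' : Fin k → KK I (TrA A N), (∀ i, u i ∈ EE (PT pt' (tt A N))) →
        (∀ i, u' i ∈ EE (PT pt' (tt A N))) → ∃ x, Vl E pt u u' x) ∧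
      ∀ (u u' : Fin k → KK I (TrA A N)) (x : TrA A N), Vl E pt u u' x →
        (∀ i, u i ∈ EE (PT pt' (tt A N))) ∧ ∀ i, u' i ∈ EE (PT pt' (tt A N))) ∧
    ∀ (u u' : Fin k → KK I (TrA A N)) (x y : TrA A N), Vl E pt u u' x → Vl E pt u u' y →
      ∀ i, i + 1 < N → co i x = co i y

/-- MVN: naturality of the values in `A`. -/
def Stmt_MVN : Prop :=
  ∀ {I A B : Type} [Fintype I] [Nonempty I] [CommRing A] [Algebra ℂ A] [CommRing B]
    [Algebra ℂ B] {h : ℕ} {R : Subalgebra A (KK I A)}, SKr h R →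
    ∀ pt : Bool → FPt R, Disj pt → ∀ (E : Ev (h + 1)) (N k : ℕ) (φ : A →ₐ[ℂ] B)
    (R' : Subalgebra B (KK I B)) (pt' : Bool → FPt R'),
    (∀ b, Bcr (φ : A →+* B) (pt b) (pt' b)) → ∀ σ : TrA A N →+* TrA B N,
    TrM (φ : A →+* B) σ → ∀ (u u' : Fin k → KK I (TrA A N)) (x : TrA A N), Vl E pt u u' x →
      Vl E pt' (fun i => kmap σ (u i)) (fun i => kmap σ (u' i)) (σ x)

/-- MVS: rescaling of the parameters. -/
def Stmt_MVS : Prop :=
  ∀ {I A : Type} [Fintype I] [Nonempty I] [CommRing A] [Algebra ℂ A] {h : ℕ}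
    {R : Subalgebra A (KK I A)}, SKr h R → ∀ pt : Bool → FPt R, Disj pt →
    ∀ (E : Ev (h + 1)) (N k : ℕ) (c : Bool → Aˣ) (ψ : TrA A N →ₐ[A] TrA A N),
    ψ (tt A N) = ((c true : A) * (c false : A)) • tt A N →
    ∀ (u u' : Fin k → KK I (TrA A N)) (x : TrA A N), Vl E pt u u' x →
      Vl E (fun b => (pt b).resc (c b)) (fun i => kmap (ψ : TrA A N →+* TrA A N) (u i))
        (fun i => kmap (ψ : TrA A N →+* TrA A N) (u' i))
        (((((c true)⁻¹ : Aˣ) : A) * (((c false)⁻¹ : Aˣ) : A)) ^ k • ψ x)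

/-- MVF: forgetting punctures. -/
def Stmt_MVF : Prop :=
  ∀ {I J A : Type} [Fintype I] [Nonempty I] [Fintype J] [CommRing A] [Algebra ℂ A] {h : ℕ}
    {W : Subalgebra A (KK (I ⊕ J) A)} {R : Subalgebra A (KK I A)}, SKr h W → SKr h R →
    Forget W R → ∀ (pt : Bool → FPt W) (pt₁ : Bool → FPt R), (∀ b, (pt b).Rs (pt₁ b)) →
    Disj pt → ∀ (E : Ev (h + 1)),
    (∀ (N k : ℕ) (u u' : Fin k → KK (I ⊕ J) (TrA A N)) (x : TrA A N), Vl E pt u u' x →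
      ∃ y : TrA A N, Vl E pt₁ (fun i => atI (u i)) (fun i => atI (u' i)) y ∧
        ∀ i, i + 1 < N → co i x = co i y) ∧
    ∀ (t : A) (k : ℕ) (u u' : Fin k → KK (I ⊕ J) A) (x : A), IsNilpotent t →
      (∀ i, u i ∈ EE (PT pt t)) → (∀ i, u' i ∈ EE (PT pt t)) →
      HV E (PT pt₁ t) t (fun i => atI (u i)) (fun i => atI (u' i)) x →
      HV E (PT pt t) t u u' x

/-- MVR: the same, for a change of the index set of the punctures. -/
def Stmt_MVR : Prop :=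
  ∀ {I I' A : Type} [Fintype I] [Nonempty I] [Fintype I'] [Nonempty I'] [CommRing A]
    [Algebra ℂ A] {h : ℕ} {R : Subalgebra A (KK I A)} (e : I' ≃ I), SKr h R →
    SKr h (reix e R) ∧ ∀ (pt : Bool → FPt R) (pt₁ : Bool → FPt (reix e R)), Disj pt →
    (∀ (b : Bool) (f : R) (f' : reix e R), (∀ i, (f' : KK I' A) i = (f : KK I A) (e i)) →
      (pt₁ b).h f' = (pt b).h f) → ∀ (E : Ev (h + 1)) (N k : ℕ)
      (u u' : Fin k → KK I (TrA A N)) (x : TrA A N), Vl E pt u u' x →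
      Vl E pt₁ (fun j i => u j (e i)) (fun j i => u' j (e i)) x

/-- MCM: the coefficient of `T^m` is a multilinear form on the regular differentials of the nodal
curve. -/
def Stmt_MCM : Prop :=
  ∀ {I A : Type} [Fintype I] [Nonempty I] [CommRing A] [Algebra ℂ A] {h : ℕ}
    {R : Subalgebra A (KK I A)}, SKr h R → ∀ pt : Bool → FPt R, Disj pt →
    ∀ (E : Ev (h + 1)) (N k m : ℕ), m < k → k < N → IHm E pt N k m →
    ∀ π : TrA A N →ₐ[A] A, π (tt A N) = 0 →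
    ∃ M : MultilinearMap A (fun _ : Fin k ⊕ Fin k => EE (PT pt (0 : A))) A,
      (∀ (ω : Fin k ⊕ Fin k → EE (PT pt (0 : A))) (u u' : Fin k → KK I (TrA A N))
        (x : TrA A N), Vl E pt u u' x →
        (∀ i, kmap (π : TrA A N →+* A) (u i) = ω (Sum.inl i)) →
        (∀ i, kmap (π : TrA A N →+* A) (u' i) = ω (Sum.inr i)) → co m x = M ω) ∧
      ∀ ω : Fin k ⊕ Fin k → EE (PT pt (0 : A)), ∃ (u u' : Fin k → KK I (TrA A N))
        (x : TrA A N), Vl E pt u u' x ∧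
        (∀ i, kmap (π : TrA A N →+* A) (u i) = ω (Sum.inl i)) ∧
        ∀ i, kmap (π : TrA A N →+* A) (u' i) = ω (Sum.inr i)

/-- MAL: an abstract lemma on families of multilinear forms. -/
def Stmt_MAL : Prop :=
  ∀ {n : Type} [Fintype n] [DecidableEq n] (S : Type 1) (A V : S → Type)
    [∀ s, CommRing (A s)] [∀ s, AddCommGroup (V s)] [∀ s, Module (A s) (V s)]
    (M : ∀ s, MultilinearMap (A s) (fun _ : n => V s) (A s)) (ρ : ∀ s, V s →ₗ[A s] A s)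
    (E₀ : Type) [Nonempty E₀] (io : ∀ s, E₀ → V s), (∀ s, ∃ v, ρ s v = 1) → (∀ s e, ρ s (io s e) = 0) →
    (∀ s v, ρ s v = 0 → v ∈ Submodule.span (A s) (Set.range (io s))) →
    (∀ (Z : Finset n) (e : n → E₀),
      (∀ (s : S) (ω ω' : n → V s), (∀ i, i ∉ Z → ω i = io s (e i) ∧ ω' i = io s (e i)) →
        (∀ i ∈ Z, ρ s (ω i) = 1 ∧ ρ s (ω' i) = 1) → M s ω = M s ω') →
      ∀ (s : S) (ω : n → V s), (∀ i, i ∉ Z → ω i = io s (e i)) →
        (∀ i ∈ Z, ρ s (ω i) = 1) → M s ω = 0) → ∀ s, M s = 0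

/-- MEX: homomorphisms to power series and formal points. -/
def Stmt_MEX : Prop :=
  ∀ {I B₀ A : Type} [Fintype I] [Nonempty I] [CommRing B₀] [CommRing A] [Algebra B₀ A] {h : ℕ}
    {R : Subalgebra B₀ (KK I B₀)}, IsKr h R → SmC B₀ R →
    (∀ p : R →ₐ[B₀] PowerSeries A, FPm p → ∃ pt : FPt (bc (algebraMap B₀ A) R),
      ∀ r : R, pt.h (bcMap (algebraMap B₀ A) R r) = p r) ∧
    (∀ pt : FPt (bc (algebraMap B₀ A) R), ∃ p : R →ₐ[B₀] PowerSeries A, FPm p ∧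
      ∀ r : R, pt.h (bcMap (algebraMap B₀ A) R r) = p r) ∧
    (∀ pt pt' : FPt (bc (algebraMap B₀ A) R), (∀ r : R, pt.h (bcMap (algebraMap B₀ A) R r) =
      pt'.h (bcMap (algebraMap B₀ A) R r)) → pt.h = pt'.h) ∧
    ∀ (pt : Bool → FPt (bc (algebraMap B₀ A) R)) (p : Bool → (R →ₐ[B₀] PowerSeries A)),
      (∀ (b : Bool) (r : R), (pt b).h (bcMap (algebraMap B₀ A) R r) = p b r) →
      (Disj pt ↔ DJm (p true) (p false))

/-- MCB: base change of a pair of charts. -/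
def Stmt_MCB : Prop :=
  (∀ {I J A B : Type} [Fintype I] [Nonempty I] [Fintype J] [CommRing A] [CommRing B] {h : ℕ}
    {W : Subalgebra A (KK (I ⊕ J) A)}, IsKr h W → Dn W → IsKr h (Rem W) ∧
      ∀ φ : A →+* B, Dn (bc φ W) ∧ Rem (bc φ W) = bc φ (Rem W) ∧
        ∀ w ∈ bc φ W, (∀ i, w (Sum.inl i) = 0) → w = 0) ∧
  (∀ {I I' A B : Type} [CommRing A] [CommRing B] (φ : A →+* B) (e : I' ≃ I)
    (P : Subalgebra A (KK I A)), bc φ (reix e P) = reix e (bc φ P)) ∧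
  ∀ {B₀ A I₁ I₂ : Type} [CommRing B₀] [CommRing A] [Fintype I₁] [Nonempty I₁] [Fintype I₂]
    [Nonempty I₂] {h : ℕ} {R₁ : Subalgebra B₀ (KK I₁ B₀)} {R₂ : Subalgebra B₀ (KK I₂ B₀)}
    {R₁₂ : Subalgebra B₀ (KK (I₁ ⊕ I₂) B₀)}, Chp h R₁ R₂ R₁₂ → ∀ φ : B₀ →+* A,
      Chp h (bc φ R₁) (bc φ R₂) (bc φ R₁₂)

/-- MLG: THEOREM LOG for a curve with two charts. -/
def Stmt_MLG : Prop :=
  ∀ {B₀ I₁ I₂ : Type} [CommRing B₀] [Algebra ℂ B₀] [Fintype I₁] [Nonempty I₁] [Fintype I₂]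
    [Nonempty I₂] {h : ℕ} {R₁ : Subalgebra B₀ (KK I₁ B₀)} {R₂ : Subalgebra B₀ (KK I₂ B₀)}
    {R₁₂ : Subalgebra B₀ (KK (I₁ ⊕ I₂) B₀)}, Chp h R₁ R₂ R₁₂ →
    ∀ (b₁ : R₁) (b₂ : R₂) (ι₁ : R₁ →ₐ[B₀] R₁₂) (ι₂ : R₂ →ₐ[B₀] R₁₂), Inc ι₁ ι₂ →
    ThmG b₁ b₂ ι₁ ι₂ → ∀ (E : Ev (h + 1)) (N k : ℕ), k < N →
    ∀ {A : Type} [CommRing A] [Algebra ℂ A] [Algebra B₀ A] [IsScalarTower ℂ B₀ A]
      (pt : Bool → FPt (bc (algebraMap B₀ A) R₁)), Disj pt →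
      (∀ b, IsUnit ((pt b).ev (bcMap (algebraMap B₀ A) R₁ b₁))) → IHm E pt N k k

/-- LOG: THEOREM LOG, final form. -/
def Stmt_LOGF : Prop :=
  ∀ {A κ : Type} [CommRing A] [Algebra ℂ A] [Field κ] [IsAlgClosed κ] [CharZero κ]
    [Algebra κ A] (r : A →ₐ[κ] κ), (∃ n : ℕ, RingHom.ker r ^ n = ⊥) → (RingHom.ker r).FG →
    ∀ {h : ℕ}, 2 ≤ h → ∀ (E : Ev (h + 1)) {R : Subalgebra A (KK Unit A)}, SKr h R →
    ∀ pt : Bool → FPt R, Disj pt → ∀ t : A, IsNilpotent t →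
    ∀ (k : ℕ) (u u' : Fin k → KK Unit A) (x : A), (∀ i, u i ∈ EE (PT pt t)) →
      HV E (PT pt t) t u u' x → ∃ y z : A, x = t ^ k * y + z ∧ t * z = 0

end Pool.Agent.MG.G0
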