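import Pool.Agent.MG.G0.StmtsTG
import Pool.Agent.MG.G0.StmtsM

/-!
# Construction of two charts (PAPER_TG.md, section TC)
-/

open TensorProduct

namespace Pool.Agent.MG.G0

/-! ## Removing a puncture -/

/-- TLC: the chart of a localization. -/
def Stmt_TLC : Prop :=
  ∀ {B R S : Type} [CommRing B] [CommRing R] [CommRing S] [Algebra B R] [Algebra B S]
    [Algebra R S] [IsScalarTower B R S] (M : Submonoid R) [IsLocalization M S]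
    (D : Derivation B R R) (g : R),
    (∀ f h : R, D f • KaehlerDifferential.D B R h = D h • KaehlerDifferential.D B R f) →
    IsUnit (algebraMap R S (D g)) → ∃ Δ : Derivation B S S,
      (∀ f : R, algebraMap R S (D g) * Δ (algebraMap R S f) = algebraMap R S (D f)) ∧
      IsChart B S (algebraMap R S g) Δ

/-- TEP: functions without poles at a puncture. -/
def Stmt_TEP : Prop :=
  ∀ {I A : Type} [Fintype I] [Nonempty I] [CommRing A] {h : ℕ}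
    {W : Subalgebra A (KK (I ⊕ Unit) A)} {R : Subalgebra A (KK I A)}, IsKr h W → Dn W →
    R = Rem W → ∃ ι : R →ₐ[A] W, Function.Injective ι ∧
      (∀ (f : R) (i : I), (ι f : KK (I ⊕ Unit) A) (Sum.inl i) = (f : KK I A) i) ∧
      (∀ f : R, ∀ m < 0, ((ι f : KK (I ⊕ Unit) A) (Sum.inr ())).coeff m = 0) ∧
      (∀ w : W, (∀ m < 0, ((w : KK (I ⊕ Unit) A) (Sum.inr ())).coeff m = 0) →
        ∃ f, ι f = w) ∧
      ∀ M : ℕ, ∃ (n : ℕ) (s : Fin n → R) (a : Fin n → W), ∑ k, a k * ι (s k) = 1 ∧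
        ∀ k, ∀ m < (M : ℤ), ((ι (s k) : KK (I ⊕ Unit) A) (Sum.inr ())).coeff m = 0

/-- TCH: vector fields of `Rem W` as vector fields of `W`. -/
def Stmt_TCH : Prop :=
  ∀ {I A : Type} [Fintype I] [Nonempty I] [CommRing A] {h : ℕ}
    {W : Subalgebra A (KK (I ⊕ Unit) A)} {R : Subalgebra A (KK I A)}, IsKr h W → SmC A W →
    Dn W → R = Rem W → ∀ ι : R →ₐ[A] W,
    (∀ (f : R) (i : I), (ι f : KK (I ⊕ Unit) A) (Sum.inl i) = (f : KK I A) i) →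
    (∀ f : R, ∀ m < 0, ((ι f : KK (I ⊕ Unit) A) (Sum.inr ())).coeff m = 0) →
    ∀ D : Derivation A R R, ∃ θ ∈ TT W, (∀ m < 0, (θ (Sum.inr ())).coeff m = 0) ∧
      ∀ f : R, θ * dd (ι f : KK (I ⊕ Unit) A) = (ι (D f) : KK (I ⊕ Unit) A)

/-- TCO: differentials of `Rem W`. -/
def Stmt_TCO : Prop :=
  ∀ {I A : Type} [Fintype I] [Nonempty I] [CommRing A] {h : ℕ}
    {W : Subalgebra A (KK (I ⊕ Unit) A)}, IsKr h W → SmC A W → Dual W → Dn W →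
    Perp (Rem W) ≤ Om (Rem W)

/-- TCY: smoothness from `Perp R ≤ Om R`. -/
def Stmt_TCY : Prop :=
  ∀ {κ : Type} [Field κ] [IsAlgClosed κ] [CharZero κ] {h : ℕ}
    {R : Subalgebra κ (KK Unit κ)}, IsKr h R → Perp R ≤ Om R → TypeS R

/-! ## Choices -/

/-- TRX: base change and change of the index set of smooth Krichever rings. -/
def Stmt_TRX : Prop :=
  (∀ {I A B : Type} [Fintype I] [Nonempty I] [CommRing A] [CommRing B] {h : ℕ}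
    {R : Subalgebra A (KK I A)}, SKr h R → ∀ φ : A →+* B, SKr h (bc φ R)) ∧
  ∀ {I I' A : Type} [Fintype I] [Nonempty I] [Fintype I'] [Nonempty I'] [CommRing A] {h : ℕ}
    {R : Subalgebra A (KK I A)} (e : I' ≃ I), SKr h R → SKr h (reix e R)

/-- TNS: formal smoothness with an additional puncture. -/
def Stmt_TNS : Prop :=
  ∀ {I κ : Type} [Fintype I] [Nonempty I] [Field κ] {h : ℕ}
    {W : Subalgebra κ (KK (I ⊕ Unit) κ)}, IsKr h W → Dn W →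
    Algebra.FormallySmooth κ (Rem W) → Algebra.FormallySmooth κ W

/-- TDN: density at the first puncture. -/
def Stmt_TDN : Prop :=
  ∀ {A κ : Type} [CommRing A] [Field κ] [Algebra κ A] (r : A →ₐ[κ] κ),
    (∃ n : ℕ, RingHom.ker r ^ n = ⊥) → ∀ {h : ℕ} {P : Subalgebra A (KK (Unit ⊕ Unit) A)},
    IsKr h P → Dn P → Dn (reix (Equiv.sumComm Unit Unit) P)

/-- TCN: a second puncture. -/
def Stmt_TCN : Prop :=
  ∀ {A κ : Type} [CommRing A] [Field κ] [IsAlgClosed κ] [CharZero κ] [Algebra κ A]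
    (r : A →ₐ[κ] κ), (∃ n : ℕ, RingHom.ker r ^ n = ⊥) → (RingHom.ker r).FG →
    ∀ {h : ℕ} {R : Subalgebra A (KK Unit A)}, SKr h R →
    ∃ (P : Subalgebra A (KK (Unit ⊕ Unit) A)) (ι : R →ₐ[A] P) (p : FPt R), SKr h P ∧
      R = Rem P ∧ Dn P ∧
      ∀ f : R, (ι f : KK (Unit ⊕ Unit) A) (Sum.inl ()) = (f : KK Unit A) () ∧
        (ι f : KK (Unit ⊕ Unit) A) (Sum.inr ()) = psl A (p.h f)

/-- TCR: the second chart. -/
def Stmt_TCR : Prop :=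
  ∀ {A κ : Type} [CommRing A] [Field κ] [IsAlgClosed κ] [CharZero κ] [Algebra κ A]
    (r : A →ₐ[κ] κ), (∃ n : ℕ, RingHom.ker r ^ n = ⊥) → (RingHom.ker r).FG →
    ∀ {h : ℕ} {R : Subalgebra A (KK Unit A)} {P : Subalgebra A (KK (Unit ⊕ Unit) A)},
      SKr h R → SKr h P → R = Rem P → Dn P → ∃ R₂ : Subalgebra A (KK Unit A), Chp h R R₂ P

/-- TCQ: a derivation and a function whose derivative does not vanish at given points. -/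
def Stmt_TCQ : Prop :=
  ∀ {κ A R : Type} [Field κ] [Infinite κ] [CommRing A] [CommRing R] [Algebra κ A]
    [Algebra A R] (r : A →ₐ[κ] κ), SmC A R → ∃ (m : ℕ) (y : Fin m → R),
      ∀ (n : ℕ) (e : Fin n → (R →+* κ)), (∀ l a, e l (algebraMap A R a) = r a) → ∀ z : R,
        ∃ (D : Derivation A R R) (μ : Fin m → κ),
          ∀ l, e l (D (z + ∑ k, algebraMap κ A (μ k) • y k)) ≠ 0

/-- TCF: the zeros of a function. -/
def Stmt_TCF : Prop :=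
  ∀ {I κ : Type} [Fintype I] [Nonempty I] [Field κ] [IsAlgClosed κ] {h : ℕ}
    {P : Subalgebra κ (KK I κ)}, IsKr h P → ∀ f : P, IsUnit (f : KK I κ) →
    {e : P →ₐ[κ] κ | e f = 0}.Finite ∧
    ∀ b : P, (∀ e : P →ₐ[κ] κ, e f = 0 → e b ≠ 0) → ∃ u v : P, u * f + v * b = 1

/-- Two charts of a smooth curve with coordinates `g₁`, `g₂`. -/
structure TCD {A : Type} [CommRing A] (h : ℕ) {R₁ R₂ : Subalgebra A (KK Unit A)}
    {P : Subalgebra A (KK (Unit ⊕ Unit) A)} (ι₁ : R₁ →ₐ[A] P) (ι₂ : R₂ →ₐ[A] P)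
    (D₁ : Derivation A R₁ R₁) (g₁ : R₁) (D₂ : Derivation A R₂ R₂) (g₂ : R₂) : Prop where
  chp : Chp h R₁ R₂ P
  inc : Inc ι₁ ι₂
  inv : ∀ n : ℕ, n ≠ 0 → IsUnit (n : A)
  m1 : ∃ d : ℤ, 1 ≤ d ∧ Mon d (g₁ : KK Unit A)
  m2 : ∃ d : ℤ, 1 ≤ d ∧ Mon d (g₂ : KK Unit A)
  u1 : IsUnit (ι₁ (D₁ g₁) : KK (Unit ⊕ Unit) A)
  u2 : IsUnit (ι₂ (D₂ g₂) : KK (Unit ⊕ Unit) A)
  v1 : IsUnit (((ι₁ (D₁ g₁) : KK (Unit ⊕ Unit) A) (Sum.inr ())).coeff 0)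
  v2 : IsUnit (((ι₂ (D₂ g₂) : KK (Unit ⊕ Unit) A) (Sum.inl ())).coeff 0)
  cov : ∃ u v : P, u * ι₁ (D₁ g₁) + v * ι₂ (D₂ g₂) = 1
  frm : ∃ ω ω' : KK (Unit ⊕ Unit) A, ω ∈ EE P ∧ ω' ∈ EE P ∧ IsUnit ω ∧
    ∀ {B : Type} [CommRing B] (φ : A →+* B) (a a' : B),
      a • kmap φ ω' = a' • kmap φ ω → a = 0 ∧ a' = 0

/-- TZU: units modulo nilpotent elements. -/
def Stmt_TZU : Prop :=
  ∀ {A κ : Type} [CommRing A] [Field κ] [Algebra κ A] (r : A →ₐ[κ] κ),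
    (∃ n : ℕ, RingHom.ker r ^ n = ⊥) →
    (∀ x : A, r x ≠ 0 → IsUnit x) ∧
    (∀ {I : Type} (f : KK I A), (∀ i, kmap (r : A →+* κ) f i ≠ 0) → IsUnit f) ∧
    (∀ {I : Type} [Finite I] (f : KK I A), (∀ i, ∀ m < 0, (f i).coeff m = 0) →
      (∀ i, r ((f i).coeff 0) ≠ 0) → IsUnit f) ∧
    ∀ {I : Type} (P : Subalgebra A (KK I A)) (f : P),
      kmap (r : A →+* κ) (f : KK I A) = 1 → IsUnit f

/-- TZF: two independent forms. -/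
def Stmt_TZF : Prop :=
  ∀ {A κ : Type} [CommRing A] [Field κ] [Algebra κ A] (r : A →ₐ[κ] κ),
    (∃ n : ℕ, RingHom.ker r ^ n = ⊥) → ∀ {h : ℕ}, 2 ≤ h →
    ∀ {R₁ R₂ : Subalgebra A (KK Unit A)} {P : Subalgebra A (KK (Unit ⊕ Unit) A)},
    Chp h R₁ R₂ P → ∃ ω ω' : KK (Unit ⊕ Unit) A, ω ∈ EE P ∧ ω' ∈ EE P ∧ IsUnit ω ∧
      ∀ {B : Type} [CommRing B] (φ : A →+* B) (a a' : B),
        a • kmap φ ω' = a' • kmap φ ω → a = 0 ∧ a' = 0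

/-- TCZ: existence of the charts. -/
def Stmt_TCZ : Prop :=
  ∀ {A κ : Type} [CommRing A] [Field κ] [IsAlgClosed κ] [CharZero κ] [Algebra κ A]
    (r : A →ₐ[κ] κ), (∃ n : ℕ, RingHom.ker r ^ n = ⊥) → (RingHom.ker r).FG →
    ∀ {h : ℕ}, 2 ≤ h → ∀ {R : Subalgebra A (KK Unit A)}, SKr h R → ∀ pt : Bool → FPt R,
    ∃ (R₂ : Subalgebra A (KK Unit A)) (P : Subalgebra A (KK (Unit ⊕ Unit) A))
      (ι₁ : R →ₐ[A] P) (ι₂ : R₂ →ₐ[A] P) (D₁ : Derivation A R R) (g₁ : R)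
      (D₂ : Derivation A R₂ R₂) (g₂ : R₂), TCD h ι₁ ι₂ D₁ g₁ D₂ g₂ ∧
        ∀ b, IsUnit ((pt b).ev (D₁ g₁))

/-! ## The data of Theorem G -/

/-- TCI: the base change of `R[1/b]` in the Laurent series. -/
def Stmt_TCI : Prop :=
  ∀ {I A B : Type} [Fintype I] [Nonempty I] [CommRing A] [CommRing B] [Algebra A B] {h : ℕ}
    {R : Subalgebra A (KK I A)}, IsKr h R → ∀ b : R, IsUnit (b : KK I A) →
    ∃ E : (B ⊗[A] Localization.Away b) →ₐ[B] KK I B, Function.Injective E ∧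
      (∀ (a : B) (f : R), E (a ⊗ₜ[A] algebraMap R (Localization.Away b) f) =
        a • kmap (algebraMap A B) (f : KK I A)) ∧
      ∀ y : B ⊗[A] Localization.Away b, ∃ (n m : ℕ) (a : Fin m → B) (f : Fin m → R),
        ((1 : B) ⊗ₜ[A] algebraMap R (Localization.Away b) (b ^ n)) * y =
          ∑ k, a k ⊗ₜ[A] algebraMap R (Localization.Away b) (f k)

/-- TCM: there are no vector fields. -/
def Stmt_TCM : Prop :=
  ∀ {A : Type} [CommRing A] {h : ℕ} {R₁ R₂ : Subalgebra A (KK Unit A)}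
    {P : Subalgebra A (KK (Unit ⊕ Unit) A)} {ι₁ : R₁ →ₐ[A] P} {ι₂ : R₂ →ₐ[A] P}
    {D₁ : Derivation A R₁ R₁} {g₁ : R₁} {D₂ : Derivation A R₂ R₂} {g₂ : R₂},
    TCD h ι₁ ι₂ D₁ g₁ D₂ g₂ → ∀ {B : Type} [CommRing B] (φ : A →+* B)
    (F₁ F₂ : KK (Unit ⊕ Unit) B) (c : B) (n : ℕ), 1 ≤ n → IsUnit c →
    (∃ N : ℕ, kmap φ (ι₁ (D₁ g₁) : KK (Unit ⊕ Unit) A) ^ N * F₁ ∈ bc φ P ∧
      ∀ m < 0, ((kmap φ (ι₁ (D₁ g₁) : KK (Unit ⊕ Unit) A) ^ N * F₁) (Sum.inr ())).coeff m = 0) →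
    (∃ N : ℕ, kmap φ (ι₂ (D₂ g₂) : KK (Unit ⊕ Unit) A) ^ N * F₂ ∈ bc φ P ∧
      ∀ m < 0, ((kmap φ (ι₂ (D₂ g₂) : KK (Unit ⊕ Unit) A) ^ N * F₂) (Sum.inl ())).coeff m = 0) →
    kmap φ (dd (ι₁ g₁ : KK (Unit ⊕ Unit) A)) ^ n * F₂ =
      c • (kmap φ (dd (ι₂ g₂ : KK (Unit ⊕ Unit) A)) ^ n * F₁) → F₁ = 0

/-- TCG: the data of Theorem G. -/
def Stmt_TCG : Prop :=
  ∀ {A : Type} [CommRing A] {h : ℕ} {R₁ R₂ : Subalgebra A (KK Unit A)}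
    {P : Subalgebra A (KK (Unit ⊕ Unit) A)} {ι₁ : R₁ →ₐ[A] P} {ι₂ : R₂ →ₐ[A] P}
    {D₁ : Derivation A R₁ R₁} {g₁ : R₁} {D₂ : Derivation A R₂ R₂} {g₂ : R₂},
    TCD h ι₁ ι₂ D₁ g₁ D₂ g₂ → ∃ (S : Bool → Type) (_ : ∀ j, CommRing (S j))
      (_ : ∀ j, Algebra A (S j)) (T : Type) (_ : CommRing T) (_ : Algebra A T) (G : TGD A S T)
      (l₁ : R₁ →ₐ[A] S true) (l₂ : R₂ →ₐ[A] S false) (l : P →ₐ[A] T),
      l₁ g₁ = G.x true ∧ l₂ g₂ = G.x false ∧ (∀ f, G.i true (l₁ f) = l (ι₁ f)) ∧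
      (∀ f, G.i false (l₂ f) = l (ι₂ f)) ∧ IsUnit (l₁ (D₁ g₁)) ∧ IsUnit (l₂ (D₂ g₂)) ∧
      (∀ {B : Type} [CommRing B] [Algebra A B] (p : R₁ →ₐ[A] B), IsUnit (p (D₁ g₁)) →
        ∃! p' : S true →ₐ[A] B, p'.comp l₁ = p) ∧
      ∀ {B : Type} [CommRing B] [Algebra A B] (p : R₂ →ₐ[A] B), IsUnit (p (D₂ g₂)) →
        ∃! p' : S false →ₐ[A] B, p'.comp l₂ = p

/-- TCX: Theorem G for Krichever rings. -/
def Stmt_TCX : Prop :=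
  ∀ {A : Type} [CommRing A] {h : ℕ} {R₁ R₂ : Subalgebra A (KK Unit A)}
    {P : Subalgebra A (KK (Unit ⊕ Unit) A)} {ι₁ : R₁ →ₐ[A] P} {ι₂ : R₂ →ₐ[A] P}
    {D₁ : Derivation A R₁ R₁} {g₁ : R₁} {D₂ : Derivation A R₂ R₂} {g₂ : R₂},
    TCD h ι₁ ι₂ D₁ g₁ D₂ g₂ → ThmG (D₁ g₁) (D₂ g₂) ι₁ ι₂

end Pool.Agent.MG.G0
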