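import Pool.Agent.MG.G0.LOGF
import Pool.Agent.MG.G0.StmtsTC

/-!
# TCx: the form of the statement on two charts which is used in LOGF
-/

namespace Pool.Agent.MG.G0

theorem t_TCx (hTCZ : Stmt_TCZ) (hTCX : Stmt_TCX) : Stmt_TCx := by
  intro A κ _ _ _ _ _ _ r hn hfg h h2 R hR pt _
  obtain ⟨R₂, P, ι₁, ι₂, D₁, g₁, D₂, g₂, hT, hu⟩ := hTCZ r hn hfg h2 hR pt
  exact ⟨R₂, P, D₁ g₁, D₂ g₂, ι₁, ι₂, hT.chp, hT.inc, hTCX hT, hu⟩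

end Pool.Agent.MG.G0
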