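import Pool.Agent.MG.G0.StmtsCQ

/-!
# GRX: good Krichever rings, change of the index set and scaling of the coordinate
-/

namespace Pool.Agent.MG.G0

namespace GRX

section

variable {I I' A B : Type} [CommRing A] [CommRing B]

/-- Smooth curves: isomorphic rings. -/
theorem typeS_equiv {κ : Type} [Field κ] (hSBC : Stmt_SBC) {P : Subalgebra κ (KK I κ)}
    {P' : Subalgebra κ (KK I' κ)} (i : P ≃ₐ[κ] P') (h : TypeS P) : TypeS P' := by
  obtain ⟨h1, h2⟩ := h
  exact ⟨Algebra.FormallySmooth.of_equiv i, hSBC.2.1 i h2⟩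

/-! ### The change of the index set -/

theorem mem_reix {e : I' ≃ I} {P : Subalgebra A (KK I A)} {f : KK I' A} :
    f ∈ reix e P ↔ (fun i => f (e.symm i) : KK I A) ∈ P := Iff.rfl

/-- The isomorphism of `P` and `reix e P`. -/
noncomputable def reE (e : I' ≃ I) (P : Subalgebra A (KK I A)) : P ≃ₐ[A] reix e P where
  toFun f := ⟨fun i' => (f : KK I A) (e i'), by
    rw [mem_reix]
    have h : (fun i => (f : KK I A) (e (e.symm i)) : KK I A) = f := by
      funext i
      rw [e.apply_symm_apply]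
    rw [h]
    exact f.2⟩
  invFun f := ⟨fun i => (f : KK I' A) (e.symm i), f.2⟩
  left_inv f := Subtype.ext (by
    funext i
    change (f : KK I A) (e (e.symm i)) = _
    rw [e.apply_symm_apply])
  right_inv f := Subtype.ext (by
    funext i
    change (f : KK I' A) (e.symm (e i)) = _
    rw [e.symm_apply_apply])
  map_mul' _ _ := rfl
  map_add' _ _ := rfl
  commutes' _ := rfl

/-- The change of the index set as an algebra homomorphism. -/
noncomputable def reH (e : I' ≃ I) : KK I A →ₐ[A] KK I' A where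
  toFun f := fun i' => f (e i')
  map_one' := rfl
  map_mul' _ _ := rfl
  map_zero' := rfl
  map_add' _ _ := rfl
  commutes' _ := rfl

theorem bc_reix (φ : A →+* B) (e : I' ≃ I) (P : Subalgebra A (KK I A)) :
    bc φ (reix e P) = reix e (bc φ P) := by
  apply le_antisymm
  · refine Algebra.adjoin_le ?_
    rintro _ ⟨f, hf, rfl⟩
    exact kmap_mem_bc φ (P := P) hf
  · have h : bc φ P ≤ (bc φ (reix e P)).comap (reH (A := B) e) := by
      refine Algebra.adjoin_le ?_
      rintro _ ⟨f, hf, rfl⟩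
      exact kmap_mem_bc φ (P := reix e P) (f := fun i' => f (e i')) (reE e P ⟨f, hf⟩).2
    intro f hf
    have h1 := h hf
    rw [Subalgebra.mem_comap] at h1
    have h2 : reH e (fun i => f (e.symm i)) = f := by
      funext i
      change f (e.symm (e i)) = f i
      rw [e.symm_apply_apply]
    rw [h2] at h1
    exact h1

theorem typeN_reix {κ : Type} [Field κ] (hKAU : Stmt_KAU) (hSBC : Stmt_SBC) (e : I' ≃ I) {g : ℕ}
    {P : Subalgebra κ (KK I κ)} (h : TypeN g P) : TypeN g (reix e P) := by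
  obtain ⟨k, R, p, q, hg, hR, hS, hpq, hP⟩ := h
  refine ⟨k, reix e R, p.comp (reE e R).symm, q.comp (reE e R).symm, hg, hKAU.2 R e hR,
    typeS_equiv hSBC (reE e R) hS, ?_, ?_⟩
  · intro h
    apply hpq
    refine AlgHom.ext fun r => ?_
    have h1 := DFunLike.congr_fun h (reE e R r)
    change p ((reE e R).symm (reE e R r)) = q ((reE e R).symm (reE e R r)) at h1
    rwa [AlgEquiv.symm_apply_apply] at h1
  · intro f
    rw [mem_reix, hP]
    exact Iff.rfl

/-! ### Changes of the coordinates -/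

/-- The isomorphism of `P` and `α P`. -/
noncomputable def mapE (α : KK I A ≃ₐ[A] KK I A) (P : Subalgebra A (KK I A)) :
    P ≃ₐ[A] P.map (α : KK I A →ₐ[A] KK I A) :=
  AlgEquiv.subalgebraMap α P

theorem mapE_val (α : KK I A ≃ₐ[A] KK I A) (P : Subalgebra A (KK I A)) (f : P) :
    (mapE α P f : KK I A) = α f := rfl

theorem bc_map (φ : A →+* B) (α : KK I A ≃ₐ[A] KK I A) (α' : KK I B ≃ₐ[B] KK I B)
    (h : ∀ f, kmap φ (α f) = α' (kmap φ f)) (P : Subalgebra A (KK I A)) :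
    bc φ (P.map (α : KK I A →ₐ[A] KK I A)) = (bc φ P).map (α' : KK I B →ₐ[B] KK I B) := by
  apply le_antisymm
  · refine Algebra.adjoin_le ?_
    rintro _ ⟨_, ⟨f, hf, rfl⟩, rfl⟩
    exact ⟨kmap φ f, kmap_mem_bc φ hf, (h f).symm⟩
  · rw [Subalgebra.map_le]
    refine Algebra.adjoin_le ?_
    rintro _ ⟨f, hf, rfl⟩
    change α' (kmap φ f) ∈ bc φ (P.map (α : KK I A →ₐ[A] KK I A))
    rw [← h]
    exact kmap_mem_bc φ ⟨f, hf, rfl⟩

theorem typeN_map {κ : Type} [Field κ] (hKAU : Stmt_KAU) (hSBC : Stmt_SBC)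
    (α : KK I κ ≃ₐ[κ] KK I κ) (hα : ∀ f, α f ∈ Pol I κ 0 ↔ f ∈ Pol I κ 0) {g : ℕ}
    {P : Subalgebra κ (KK I κ)} (h : TypeN g P) :
    TypeN g (P.map (α : KK I κ →ₐ[κ] KK I κ)) := by
  obtain ⟨k, R, p, q, hg, hR, hS, hpq, hP⟩ := h
  refine ⟨k, R.map (α : KK I κ →ₐ[κ] KK I κ), p.comp (mapE α R).symm, q.comp (mapE α R).symm, hg,
    hKAU.1 R α hα hR, typeS_equiv hSBC (mapE α R) hS, ?_, ?_⟩
  · intro h
    apply hpq
    refine AlgHom.ext fun r => ?_
    have h1 := DFunLike.congr_fun h (mapE α R r)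
    change p ((mapE α R).symm (mapE α R r)) = q ((mapE α R).symm (mapE α R r)) at h1
    rwa [AlgEquiv.symm_apply_apply] at h1
  · have key : ∀ r : R, ∀ hr : α r ∈ R.map (α : KK I κ →ₐ[κ] KK I κ),
        (mapE α R).symm ⟨α r, hr⟩ = r := fun r hr =>
      (mapE α R).symm_apply_eq.2 (Subtype.ext rfl)
    intro f
    rw [Subalgebra.mem_map]
    constructor
    · rintro ⟨f, hf, rfl⟩
      obtain ⟨hf1, hf2⟩ := (hP f).1 hf
      refine ⟨⟨f, hf1, rfl⟩, ?_⟩
      change p ((mapE α R).symm ⟨α (⟨f, hf1⟩ : R), _⟩) = q ((mapE α R).symm ⟨α (⟨f, hf1⟩ : R), _⟩)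
      rw [key]
      exact hf2
    · rintro ⟨⟨r, hr, rfl⟩, h1⟩
      refine ⟨r, (hP r).2 ⟨hr, ?_⟩, rfl⟩
      change p ((mapE α R).symm ⟨α (⟨r, hr⟩ : R), _⟩) =
        q ((mapE α R).symm ⟨α (⟨r, hr⟩ : R), _⟩) at h1
      rwa [key] at h1

/-! ### Scaling -/

/-- The scaling of `KK Unit A`. -/
noncomputable def ks (c : Aˣ) : KK Unit A ≃ₐ[A] KK Unit A := AlgEquiv.piCongrRight fun _ => scE c

theorem ks_apply (c : Aˣ) (f : KK Unit A) : ks c f () = sc c (f ()) := rfl

theorem uno_map (c : Aˣ) (R : Subalgebra A (LaurentSeries A)) :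
    (uno R).map (ks c : KK Unit A →ₐ[A] KK Unit A) = uno (R.map (sc c)) := by
  ext f
  rw [mem_uno, Subalgebra.mem_map, Subalgebra.mem_map]
  constructor
  · rintro ⟨g, hg, rfl⟩
    exact ⟨g (), hg, rfl⟩
  · rintro ⟨g, hg, hf⟩
    exact ⟨fun _ => g, hg, funext fun _ => hf⟩

theorem ks_mem (c : Aˣ) (f : KK Unit A) : ks c f ∈ Pol Unit A 0 ↔ f ∈ Pol Unit A 0 := by
  rw [mem_Pol_unit, mem_Pol_unit, ks_apply]
  constructor
  · intro h
    have h1 := sc_mem_Po c⁻¹ h
    rwa [sc_sc, inv_mul_cancel, sc_one] at h1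
  · exact sc_mem_Po c

theorem kmap_ks (φ : A →+* B) (c : Aˣ) (f : KK Unit A) :
    kmap φ (ks c f) = ks (Units.map (φ : A →* B) c) (kmap φ f) :=
  funext fun _ => lmap_sc φ c (f ())

end

end GRX

open GRX in
/-- GRX: the change of the index set and the scaling of the coordinate. -/
theorem t_GRX (hKAU : Stmt_KAU) (_hKBC : Stmt_KBC) (hSBC : Stmt_SBC) : Stmt_GRX := by
  refine ⟨?_, ?_⟩
  · intro I I' A _ _ _ _ e g P hP
    refine ⟨hKAU.2 P e hP.1, fun κ _ _ φ => ?_⟩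
    rw [bc_reix]
    rcases hP.2 κ φ with h | h
    · exact Or.inl (typeS_equiv hSBC (reE e _) h)
    · exact Or.inr (typeN_reix hKAU hSBC e h)
  · intro A _ c g R hR
    rw [← uno_map]
    refine ⟨hKAU.1 _ (ks c) (ks_mem c) hR.1, fun κ _ _ φ => ?_⟩
    rw [bc_map φ (ks c) (ks (Units.map (φ : A →* κ) c)) (kmap_ks φ c)]
    rcases hR.2 κ φ with h | h
    · exact Or.inl (typeS_equiv hSBC (mapE _ _) h)
    · exact Or.inr (typeN_map hKAU hSBC _ (ks_mem _) h)

end Pool.Agent.MG.G0
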