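import Pool.Agent.MG.G0.Cut

/-!
# Models of a Krichever ring at a place
-/

open Polynomial

namespace Pool.Agent.MG.G0

section

variable {κ : Type} [Field κ]

/-- The Gram matrix of `R` over `κ[z]` has rank `r` at `z = c`. -/
def GRk (d : ℕ) (R : Subalgebra κ (LaurentSeries κ)) (c : κ) (r : ℕ) : Prop :=
  ∃ (e : Fin d → LaurentSeries κ) (G : Matrix (Fin d) (Fin d) κ[X]),
    ZBas d R e ∧ ZGram d e G ∧ (G.map (Polynomial.eval c)).rank = r

/-- `f` has the double root `c`, and no other multiple root. -/
def Dbl (f : κ[X]) (c : κ) : Prop :=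
  ∃ h : κ[X], f = (X - C c) ^ 2 * h ∧ h.eval c ≠ 0 ∧ h.Separable

end

/-- A local domain `O` with residue field `κ ⊂ O`, and a generator `π` of the maximal ideal. -/
structure LD (κ O : Type) [Field κ] [CommRing O] [Algebra κ O] where
  /-- the residue map -/
  rs : O →ₐ[κ] κ
  /-- the uniformizer -/
  π : O
  ne : π ≠ 0
  ker : ∀ x, rs x = 0 → π ∣ x
  rsπ : rs π = 0
  unit : ∀ x, rs x ≠ 0 → IsUnit x

/-- A model over `O` of the Krichever ring `R` over the field of fractions `L` of `O`: a Krichever
ring `P` over `O` with base change `R`, and the discriminant `f` of `R`, with coefficients in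
`O`. -/
structure Mdl (κ O L : Type) [Field κ] [CommRing O] [IsDomain O] [Field L] [Algebra κ O]
    [Algebra O L] (g d : ℕ) (R : Subalgebra L (LaurentSeries L)) extends LD κ O where
  /-- the Krichever ring over `O` -/
  P : Subalgebra O (LaurentSeries O)
  /-- the discriminant -/
  f : O[X]
  val : ValuationRing O
  frac : IsFractionRing O L
  kr : Kr g P
  z : zz O d ∈ P
  bc : bc1 (algebraMap O L) P = R
  monic : f.Monic
  deg : f.natDegree + 1 = 2 * g + d
  disc : Disc d R (f.map (algebraMap O L))
  sep : (f.map (algebraMap O L)).Separable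

section

variable {κ O L : Type} [Field κ] [CommRing O] [IsDomain O] [Field L] [Algebra κ O]
  [Algebra O L] {g d : ℕ} {R : Subalgebra L (LaurentSeries L)}

/-- The reduction. -/
noncomputable def Mdl.Pb (M : Mdl κ O L g d R) : Subalgebra κ (LaurentSeries κ) :=
  bc1 (M.rs : O →+* κ) M.P

/-- The discriminant of the reduction. -/
noncomputable def Mdl.fb (M : Mdl κ O L g d R) : κ[X] := M.f.map (M.rs : O →+* κ)

/-- The discriminant of the reduction has no multiple root, or one double root at which the Gram
matrix has corank two. (Then the reduction is smooth.) -/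
def Mdl.Smo (M : Mdl κ O L g d R) : Prop :=
  M.fb.Separable ∨ ∃ c : κ, Dbl M.fb c ∧ GRk d M.Pb c (d - 2)

/-- The discriminant of the reduction has one double root, the Gram matrix has corank one there,
and the discriminant of the two colliding branch points is a unit times `π²`. (Then the reduction
has one node.) -/
def Mdl.Nod (M : Mdl κ O L g d R) : Prop :=
  ∃ (c : κ) (s₀ u : O) (h : O[X]), Dbl M.fb c ∧ GRk d M.Pb c (d - 1) ∧ M.rs s₀ = c ∧ IsUnit u ∧
    M.f = ((X - C s₀) ^ 2 - C (M.π ^ 2 * u)) * h ∧ (h.map (M.rs : O →+* κ)).eval c ≠ 0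

end

end Pool.Agent.MG.G0
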