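import Pool.Agent.MG.G0.Plumb
import Pool.Agent.MG.G0.Model

/-!
# Statements on nodal reductions (PAPER.md, NP, TC1)
-/

open Polynomial

namespace Pool.Agent.MG.G0

/-- NPG: normalization of a node (over a field), algebraic part. -/
def Stmt_NPG : Prop :=
  ∀ {κ : Type} [Field κ] [IsAlgClosed κ] {g d : ℕ} {P : Subalgebra κ (LaurentSeries κ)}
    {f h : κ[X]} {c : κ}, 2 ≤ d → ((d.factorial : ℕ) : κ) ≠ 0 → Kr (g + 1) P → zz κ d ∈ P →
    Disc d P f → f = (X - C c) ^ 2 * h → h.eval c ≠ 0 → GRk d P c (d - 1) →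
    ∃ R : Subalgebra κ (LaurentSeries κ), Kr g R ∧ P ≤ R ∧ Disc d R h ∧
      ∃ p q : R →ₐ[κ] κ, p ≠ q ∧ (∀ x : R, (x : LaurentSeries κ) ∈ P ↔ p x = q x) ∧
        ∀ z : R, (z : LaurentSeries κ) = zz κ d → p z = c ∧ q z = c

/-- NPA: normalization of a node (over a field): formal points. -/
def Stmt_NPA : Prop :=
  ∀ {κ : Type} [Field κ] [IsAlgClosed κ] {g d : ℕ} {P : Subalgebra κ (LaurentSeries κ)}
    {f h : κ[X]} {c : κ}, 2 ≤ d → ((d.factorial : ℕ) : κ) ≠ 0 → Kr (g + 1) P → zz κ d ∈ P →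
    Disc d P f → f = (X - C c) ^ 2 * h → h.Separable → h.eval c ≠ 0 → GRk d P c (d - 1) →
    ∃ R : Subalgebra κ (LaurentSeries κ), Kr g R ∧ P ≤ R ∧ Disc d R h ∧
      Algebra.FormallySmooth κ (uno R) ∧ SmC κ (uno R) ∧ ∃ pt : Bool → FPt (uno R), Disj pt ∧
        (∀ (b : Bool) (z : uno R), (z : KK Unit κ) () = zz κ d →
          (pt b).h z = PowerSeries.C c + PowerSeries.X) ∧
        PT pt 0 = uno P

/-- NPB: the local structure at the node over an artinian base. -/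
def Stmt_NPB : Prop :=
  ∀ {κ A : Type} [Field κ] [IsAlgClosed κ] [CommRing A] [Algebra κ A] (rs : A →ₐ[κ] κ) {g d : ℕ}
    {P : Subalgebra A (LaurentSeries A)} {h : A[X]} {s t : A}
    {R : Subalgebra κ (LaurentSeries κ)} (pt : Bool → FPt (uno R)),
    (∃ n : ℕ, RingHom.ker (rs : A →+* κ) ^ n = ⊥) → 2 ≤ d → ((d.factorial : ℕ) : κ) ≠ 0 →
    Kr (g + 1) P → zz A d ∈ P → Disc d P (((X - C s) ^ 2 - C (4 * t)) * h) → rs t = 0 →
    (h.map (rs : A →+* κ)).Separable → (h.map (rs : A →+* κ)).eval (rs s) ≠ 0 →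
    GRk d (bc1 (rs : A →+* κ) P) (rs s) (d - 1) →
    Kr g R → bc1 (rs : A →+* κ) P ≤ R → Disc d R (h.map (rs : A →+* κ)) →
    Algebra.FormallySmooth κ (uno R) → SmC κ (uno R) → Disj pt →
    (∀ (b : Bool) (z : uno R), (z : KK Unit κ) () = zz κ d →
      (pt b).h z = PowerSeries.C (rs s) + PowerSeries.X) →
    PT pt 0 = uno (bc1 (rs : A →+* κ) P) →
    ∃ j : uno P →ₐ[A] KK Bool A, (∀ p, j p ∈ Nt t) ∧
      (∀ z : uno P, (z : KK Unit A) () = zz A d →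
        j z = algebraMap A (KK Bool A) s + uv t true + uv t false) ∧
      ∀ (p : uno P) (r : uno R), (r : KK Unit κ) = kmap (rs : A →+* κ) (p : KK Unit A) →
        ∀ b, lmap (rs : A →+* κ) (j p b) = psl κ ((pt b).h r)

/-- TCA (TC1): deformations of smooth Krichever rings. -/
def Stmt_TCA : Prop :=
  ∀ {I κ A : Type} [Fintype I] [Nonempty I] [Field κ] [CommRing A] [Algebra κ A]
    (rs : A →ₐ[κ] κ) {g : ℕ} {R : Subalgebra A (KK I A)},
    (∃ n : ℕ, RingHom.ker (rs : A →+* κ) ^ n = ⊥) → IsKr g R →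
    Algebra.FormallySmooth κ (bc (rs : A →+* κ) R) → SmC κ (bc (rs : A →+* κ) R) →
    Algebra.FormallySmooth A R ∧ SmC A R ∧
      (IsAlgClosed κ → (RingHom.ker (rs : A →+* κ)).FG → Dual R)

/-- NPY: approximation at the node: an element `y` of `P` with `j y = (u^N a, v^N b)`, `a`, `b`
units, and for all `L` an element `e` (zero to high order at the node) such that `(1 - e) q` is
divisible by `y^L` if `j q` is divisible by `(j y)^L`. -/
def Stmt_NPY : Prop :=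
  ∀ {I κ A : Type} [Fintype I] [Nonempty I] [Field κ] [CommRing A] [Algebra κ A]
    (rs : A →ₐ[κ] κ) {g : ℕ} {P : Subalgebra A (KK I A)} {R₀ : Subalgebra κ (KK I κ)}
    (pt₀ : Bool → FPt R₀) {t : A} (j : P →ₐ[A] KK Bool A),
    (∃ n : ℕ, RingHom.ker (rs : A →+* κ) ^ n = ⊥) → IsKr (g + 1) P → IsKr g R₀ →
    Algebra.FormallySmooth κ R₀ → SmC κ R₀ → Disj pt₀ → rs t = 0 →
    PT pt₀ 0 = bc (rs : A →+* κ) P → (∀ p, j p ∈ Nt t) →
    (∀ (p : P) (r : R₀), (r : KK I κ) = kmap (rs : A →+* κ) (p : KK I A) → ∀ b,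
      lmap (rs : A →+* κ) (j p b) = psl κ ((pt₀ b).h r)) →
    (∀ F ∈ Nt t, ∀ m : ℕ, ∃ p : P, j p - F ∈ Pol Bool A (-(m : ℤ))) ∧
    ∃ (N : ℕ) (y : P), 1 ≤ N ∧ t ^ N = 0 ∧ IsUnit (y : KK I A) ∧
      (∀ b, ∃ a : PowerSeries A, IsUnit a ∧ j y b = HahnSeries.single (N : ℤ) 1 * psl A a) ∧
      ∀ L : ℕ, ∃ e : P, (∃ F ∈ Nt t, j e = j y ^ L * F) ∧
        ∀ q : P, (∃ F ∈ Nt t, j q = j y ^ L * F) → ∃ r : P, (1 - e) * q = y ^ L * r

/-- NPC: a deformation of a nodal curve is obtained by plumbing. -/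
def Stmt_NPC : Prop :=
  ∀ {I κ A : Type} [Fintype I] [Nonempty I] [Field κ] [CommRing A] [Algebra κ A]
    (rs : A →ₐ[κ] κ) {g : ℕ} {P : Subalgebra A (KK I A)} {R₀ : Subalgebra κ (KK I κ)}
    (pt₀ : Bool → FPt R₀) {t : A} (j : P →ₐ[A] KK Bool A),
    (∃ n : ℕ, RingHom.ker (rs : A →+* κ) ^ n = ⊥) → IsKr (g + 1) P → IsKr g R₀ →
    Algebra.FormallySmooth κ R₀ → SmC κ R₀ → Disj pt₀ → rs t = 0 →
    PT pt₀ 0 = bc (rs : A →+* κ) P → (∀ p, j p ∈ Nt t) →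
    (∀ (p : P) (r : R₀), (r : KK I κ) = kmap (rs : A →+* κ) (p : KK I A) → ∀ b,
      lmap (rs : A →+* κ) (j p b) = psl κ ((pt₀ b).h r)) →
    ∃ R : Subalgebra A (KK I A), IsKr g R ∧ bc (rs : A →+* κ) R = R₀ ∧
      Algebra.FormallySmooth A R ∧ SmC A R ∧ ∃ pt : Bool → FPt R, Disj pt ∧ PT pt t = P

/-- NPL: the plumbing structure of a Krichever ring with nodal reduction. -/
def Stmt_NPL : Prop :=
  ∀ {κ A : Type} [Field κ] [IsAlgClosed κ] [CommRing A] [Algebra κ A] (rs : A →ₐ[κ] κ) {g d : ℕ}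
    {P : Subalgebra A (LaurentSeries A)} {h : A[X]} {s t : A},
    (∃ n : ℕ, RingHom.ker (rs : A →+* κ) ^ n = ⊥) → (RingHom.ker (rs : A →+* κ)).FG →
    2 ≤ d → ((d.factorial : ℕ) : κ) ≠ 0 → Kr (g + 1) P → zz A d ∈ P →
    Disc d P (((X - C s) ^ 2 - C (4 * t)) * h) → rs t = 0 →
    (h.map (rs : A →+* κ)).Separable → (h.map (rs : A →+* κ)).eval (rs s) ≠ 0 →
    GRk d (bc1 (rs : A →+* κ) P) (rs s) (d - 1) →
    ∃ R : Subalgebra A (KK Unit A), IsKr g R ∧ Algebra.FormallySmooth A R ∧ SmC A R ∧ Dual R ∧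
      ∃ pt : Bool → FPt R, Disj pt ∧ PT pt t = uno P

end Pool.Agent.MG.G0
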