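import Pool.Agent.MG.G0.SCDef

/-!
# Statements on the special curve (PAPER.md, section G)
-/

namespace Pool.Agent.MG.G0

/-- GST: the structure of the ring of the special curve (G1, G2). -/
def Stmt_GST : Prop :=
  ∀ {A : Type} [CommRing A] (S : SCD A),
    S.Y ^ 2 = zpol A 3 S.pA * S.W ∧ S.Y * S.W = zpol A 3 S.pD ∧ S.W ^ 2 = zpol A 3 S.pB * S.Y ∧
    S.pA * S.pB = S.pD ∧ S.Yi * S.Y = 1 ∧ S.Wi * S.W = 1 ∧
    (3 : A) • (zpol A 3 S.pD * ld S.Y) = zpol A 3 S.cY * S.Y * ld (zz A 3) ∧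
    (3 : A) • (zpol A 3 S.pD * ld S.W) = zpol A 3 S.cW * S.W * ld (zz A 3) ∧
    (∀ f, f ∈ S.R ↔ ∃ p q s : Polynomial A,
      f = zpol A 3 p + zpol A 3 q * S.Y + zpol A 3 s * S.W) ∧
    (∀ p q s : Polynomial A, zpol A 3 p + zpol A 3 q * S.Y + zpol A 3 s * S.W = 0 →
      p = 0 ∧ q = 0 ∧ s = 0) ∧
    (∀ f : LaurentSeries A, f = pr0 A 3 f + pr0 A 3 (f * S.Yi) * S.Y + pr0 A 3 (f * S.Wi) * S.W) ∧
    (∀ f : LaurentSeries A, (∃ p ∈ S.R, f - p ∈ Po A 0) ↔
      (∀ i : ℕ, 1 ≤ i → 3 * i < S.n1 → (f * S.Yi).coeff (3 * i) = 0) ∧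
      (∀ j : ℕ, 1 ≤ j → 3 * j < S.n2 → (f * S.Wi).coeff (3 * j) = 0)) ∧
    Kr S.g S.R

/-- GLF: homomorphisms from the ring of the special curve. -/
def Stmt_GLF : Prop :=
  ∀ {A : Type} [CommRing A] (S : SCD A) (B : Type) [CommRing B] [Algebra A B] (x y w : B),
    y ^ 2 = x ^ S.a * w → y * w = x ^ (S.g + 1) - x →
    w ^ 2 = (x ^ (S.g + 1 - S.a) - x ^ (1 - S.a)) * y →
    ∃! h : S.R →ₐ[A] B, h S.x = x ∧ h S.y = y ∧ h S.w = w

/-- GFS: the special curve is smooth. -/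
def Stmt_GFS : Prop :=
  ∀ {A : Type} [CommRing A] (S : SCD A), Algebra.FormallySmooth A S.R

/-- GSM: the special curve has a smoothness certificate (G3). -/
def Stmt_GSM : Prop :=
  ∀ {A : Type} [CommRing A] (S : SCD A), SmC A S.R

/-- GTT: vector fields on the special curve (G4, G5). -/
def Stmt_GTT : Prop :=
  ∀ {A : Type} [CommRing A] (S : SCD A),
    (∀ θ, θ ∈ TT1 S.R ↔ ∃ p q s : Polynomial A, θ * ld (zz A 3) =
      zpol A 3 (S.pD * p) + zpol A 3 (S.pB * q) * S.Y + zpol A 3 (S.pA * s) * S.W) ∧ Rgd S.R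

/-- GNO: Noether's theorem for the special curve (G6). -/
def Stmt_GNO : Prop :=
  ∀ {A : Type} [CommRing A] (S : SCD A), Noe S.R

/-- GFR: the special curve is superspecial (G7). -/
def Stmt_GFR : Prop :=
  ∀ {A : Type} [CommRing A] (S : SCD A) (p : ℕ), p.Prime → CharP A p →
    p % (3 * S.g) = 3 * S.g - 1 → Ssp p S.R

/-- GDV: the derivation `d/dζ` of the separable closure of `F(ζ)`. -/
def Stmt_GDV : Prop :=
  ∀ {F K : Type} [Field F] [Field K] [Algebra F K] (ζ : K), Transcendental F ζ →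
    ∃ (L : IntermediateField F K) (hζ : ζ ∈ L) (δ : Derivation F L L), δ ⟨ζ, hζ⟩ = 1 ∧
      ∀ (q : Polynomial L) (x : K), q.Separable → Polynomial.aeval x q = 0 → x ∈ L

/-- GCV: the critical points of `X^(2g+3) + ζ Y` and their values (G8). -/
def Stmt_GCV : Prop :=
  ∀ {F K : Type} [Field F] [Field K] [Algebra F K] [IsAlgClosed K] (g a : ℕ), 2 ≤ g → a ≤ 1 →
    ¬ 3 ∣ g + 1 + a → (((6 * g + 9).factorial : ℕ) : K) ≠ 0 → ∀ ζ : K, Transcendental F ζ →
    ∃ β : Fin (8 * g + 8) → K, Function.Injective β ∧ ∀ l, ∃ x y w : DualNumber K,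
      y ^ 2 = x ^ a * w ∧ y * w = x ^ (g + 1) - x ∧
      w ^ 2 = (x ^ (g + 1 - a) - x ^ (1 - a)) * y ∧
      (x.snd ≠ 0 ∨ y.snd ≠ 0 ∨ w.snd ≠ 0) ∧
      x ^ (2 * g + 3) + TrivSqZeroExt.inl ζ * y = TrivSqZeroExt.inl (β l)

/-- GDG: the Gram determinant vanishes at critical values. -/
def Stmt_GDG : Prop :=
  ∀ {K : Type} [Field K] (g d : ℕ), 0 < d → ((d : ℕ) : K) ≠ 0 →
    ∀ (R : Subalgebra K (LaurentSeries K)), Kr g R → ∀ z : R, (z : LaurentSeries K) = zz K d →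
    ∀ (e : Fin d → LaurentSeries K) (G : Matrix (Fin d) (Fin d) (Polynomial K)),
      ZBas d R e → ZGram d e G →
      ∀ (β : K) (h : R →ₐ[K] DualNumber K), h z = TrivSqZeroExt.inl β →
        (∃ f : R, (h f).snd ≠ 0) → G.det.eval β = 0

/-- GDB: base change of discriminants. -/
def Stmt_GDB : Prop :=
  ∀ {A B : Type} [CommRing A] [CommRing B] (φ : A →+* B) (g d : ℕ), 0 < d → IsUnit (d : A) →
    ∀ R : Subalgebra A (LaurentSeries A), Kr g R → ∀ f : Polynomial A, Disc d R f →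
      Disc d (bc1 φ R) (f.map φ)

/-- GTR: transport of the properties by a change of coordinates (G9). -/
def Stmt_GTR : Prop :=
  ∀ {A : Type} [CommRing A] (u : PowerSeries A), PowerSeries.constantCoeff u = 0 →
    IsUnit (PowerSeries.coeff 1 u) → ∀ Φ : LaurentSeries A ≃ₐ[A] LaurentSeries A,
    IsSub u (Φ : LaurentSeries A →ₐ[A] LaurentSeries A) →
    ∀ R R' : Subalgebra A (LaurentSeries A),
      R' = R.comap (Φ : LaurentSeries A →ₐ[A] LaurentSeries A) →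
      (∀ g : ℕ, Kr g R → Kr g R') ∧ (SmC A R → SmC A (uno R')) ∧
      (Algebra.FormallySmooth A R → Algebra.FormallySmooth A (uno R')) ∧
      (Rgd R → Rgd R') ∧ (Noe R → Noe R') ∧ (∀ p : ℕ, Ssp p R → Ssp p R')

/-- GRA: the special curve in the coordinate `τ` (Result G, all rings). -/
def Stmt_GRA : Prop :=
  ∀ g : ℕ, 2 ≤ g →
    (∀ {A : Type} [CommRing A] (ζ : A), IsUnit (((6 * g + 9).factorial : ℕ) : A) →
      ∃ R : Subalgebra A (LaurentSeries A), RG g ζ R) ∧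
    (∀ {A : Type} [CommRing A] (ζ : A) (R : Subalgebra A (LaurentSeries A)), RG g ζ R →
      (∀ R' : Subalgebra A (LaurentSeries A), RG g ζ R' → R' = R) ∧ Kr g R ∧
      zz A (6 * g + 9) ∈ R ∧ Algebra.FormallySmooth A (uno R) ∧ SmC A (uno R) ∧ Rgd R ∧ Noe R ∧
      ∀ p : ℕ, p.Prime → CharP A p → p % (3 * g) = 3 * g - 1 → Ssp p R) ∧
    (∀ {A B : Type} [CommRing A] [CommRing B] (ζ : A) (R : Subalgebra A (LaurentSeries A)),
      RG g ζ R → ∀ φ : A →+* B, RG g (φ ζ) (bc1 φ R))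

/-- GRF: the special curve over algebraically closed fields (Result G). -/
def Stmt_GRF : Prop :=
  ∀ g : ℕ, 2 ≤ g → ∀ {K : Type} [Field K] [IsAlgClosed K] (ζ : K)
    (R : Subalgebra K (LaurentSeries K)), RG g ζ R → Dual (uno R) ∧
      ∀ {F : Type} [Field F] [Algebra F K], Transcendental F ζ →
        ∃ β : Fin (8 * g + 8) → K, Function.Injective β ∧
          Disc (6 * g + 9) R (∏ l, (Polynomial.X - Polynomial.C (β l))) ∧
          ∀ {k : Type} [Field k] (φ : K →+* k),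
            Disc (6 * g + 9) (bc1 φ R) (∏ l, (Polynomial.X - Polynomial.C (φ (β l))))

end Pool.Agent.MG.G0
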