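import Pool.Agent.MG.G0.StmtsR

/-!
# The special curve `Y^3 = X^(1+a)(X^g - 1)` (PAPER.md, section G): definitions

`a` is `0` or `1` with `3 ∤ g + 1 + a`; `σ` is the coordinate at infinity with `X = σ^(-3)`,
`Y = σ^(-(g+1+a)) r`, `W = σ^(-(2g+2-a)) r^2`, where `r^3 = 1 - σ^(3g)`, `r = 1 + ...`.
Then `Y^2 = X^a W`, `Y W = X^(g+1) - X`, `W^2 = (X^(g+1-a) - X^(1-a)) Y`.
-/

namespace Pool.Agent.MG.G0

/-- The data of the special curve of genus `g` over `A`. -/
structure SCD (A : Type) [CommRing A] where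
  /-- the genus -/
  g : ℕ
  /-- zero or one -/
  a : ℕ
  /-- the cube root of `1 - σ^(3g)` -/
  r : PowerSeries A
  hg : 2 ≤ g
  ha : a ≤ 1
  h3 : ¬ 3 ∣ g + 1 + a
  hd : IsUnit (((6 * g + 9).factorial : ℕ) : A)
  r1 : PowerSeries.constantCoeff r = 1
  r3 : r ^ 3 = 1 - PowerSeries.X ^ (3 * g)
  rc : ∀ k : ℕ, ¬ 3 ∣ k → PowerSeries.coeff k r = 0

namespace SCD

variable {A : Type} [CommRing A] (S : SCD A)

/-- The pole order of `Y`. -/
def n1 : ℕ := S.g + 1 + S.a

/-- The pole order of `W`. -/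
def n2 : ℕ := 2 * S.g + 2 - S.a

/-- The inverse of `r`. -/
noncomputable def ri : PowerSeries A := PowerSeries.invOfUnit S.r 1

/-- The function `Y`. -/
noncomputable def Y : LaurentSeries A := HahnSeries.single (-(S.n1 : ℤ)) 1 * psl A S.r

/-- The function `W`. -/
noncomputable def W : LaurentSeries A := HahnSeries.single (-(S.n2 : ℤ)) 1 * psl A (S.r ^ 2)

/-- The inverse of `Y`. -/
noncomputable def Yi : LaurentSeries A := HahnSeries.single (S.n1 : ℤ) 1 * psl A S.ri

/-- The inverse of `W`. -/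
noncomputable def Wi : LaurentSeries A := HahnSeries.single (S.n2 : ℤ) 1 * psl A (S.ri ^ 2)

/-- The ring of functions regular outside infinity. -/
noncomputable def R : Subalgebra A (LaurentSeries A) := Algebra.adjoin A {zz A 3, S.Y, S.W}

/-- `X` as an element of `R`. -/
noncomputable def x : S.R := ⟨zz A 3, Algebra.subset_adjoin (by simp)⟩

/-- `Y` as an element of `R`. -/
noncomputable def y : S.R := ⟨S.Y, Algebra.subset_adjoin (by simp)⟩

/-- `W` as an element of `R`. -/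
noncomputable def w : S.R := ⟨S.W, Algebra.subset_adjoin (by simp)⟩

/-- `A(X) = X^a`. -/
noncomputable def pA : Polynomial A := Polynomial.X ^ S.a

/-- `B(X) = X^(g+1-a) - X^(1-a)`. -/
noncomputable def pB : Polynomial A :=
  Polynomial.X ^ (S.g + 1 - S.a) - Polynomial.X ^ (1 - S.a)

/-- `(A B)(X) = X^(g+1) - X`. -/
noncomputable def pD : Polynomial A := Polynomial.X ^ (S.g + 1) - Polynomial.X

/-- `cY` with `3 (AB) dY = cY Y dX`. -/
noncomputable def cY : Polynomial A :=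
  Polynomial.C (S.g + 1 + S.a : A) * Polynomial.X ^ S.g - Polynomial.C (1 + S.a : A)

/-- `cW` with `3 (AB) dW = cW W dX`. -/
noncomputable def cW : Polynomial A :=
  Polynomial.C (2 * S.g + 2 - S.a : A) * Polynomial.X ^ S.g - Polynomial.C (2 - S.a : A)

end SCD

/-- Noether's theorem: a vector field with `res (θ ω ω') = 0` for all regular differentials is a
sum of one of the affine curve and a regular one. -/
def Noe {A : Type} [CommRing A] (R : Subalgebra A (LaurentSeries A)) : Prop :=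
  ∀ θ : LaurentSeries A, (∀ ω ∈ EE1 R, ∀ ω' ∈ EE1 R, (θ * ω * ω').coeff (-1) = 0) →
    ∃ θ' ∈ TT1 R, θ - θ' ∈ Po A 0

/-- There is no regular vector field. -/
def Rgd {A : Type} [CommRing A] (R : Subalgebra A (LaurentSeries A)) : Prop :=
  ∀ θ ∈ TT1 R, θ ∈ Po A 0 → θ = 0

/-- Superspecial: `f^p ∈ R + A[[τ]]` for all `f`. -/
def Ssp {A : Type} [CommRing A] (p : ℕ) (R : Subalgebra A (LaurentSeries A)) : Prop :=
  ∀ f : LaurentSeries A, ∃ h ∈ R, f ^ p - h ∈ Po A 0

/-- `R` is the ring of the special curve of genus `g` in the coordinate `τ` with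
`τ^(-(6g+9)) = X^(2g+3) + ζ Y`. -/
def RG {A : Type} [CommRing A] (g : ℕ) (ζ : A) (R : Subalgebra A (LaurentSeries A)) : Prop :=
  ∃ (S : SCD A) (u : PowerSeries A) (Φ : LaurentSeries A ≃ₐ[A] LaurentSeries A),
    S.g = g ∧ S.a = (if 3 ∣ g + 1 then 1 else 0) ∧ PowerSeries.constantCoeff u = 0 ∧
    PowerSeries.coeff 1 u = 1 ∧ IsSub u (Φ : LaurentSeries A →ₐ[A] LaurentSeries A) ∧
    psl A u ^ (6 * g + 9) * (zz A 3 ^ (2 * g + 3) + ζ • S.Y) = 1 ∧
    R = S.R.comap (Φ : LaurentSeries A →ₐ[A] LaurentSeries A)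

end Pool.Agent.MG.G0
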