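import Pool.Agent.MG.G0.Hv
import Pool.Agent.MG.G0.StmtsU
import Pool.Agent.MG.G0.SCDef

/-!
# Statements on the values of regular functions at a family (PAPER.md, U2 to U8; PAPER_V.md)
-/

open Polynomial

namespace Pool.Agent.MG.G0

/-! ## Smoothness, `Perp` and `Om` -/

/-- SMO: if all `η` with `res (η R) = 0` are Kähler differentials then the curve is smooth. -/
def Stmt_SMO : Prop :=
  ∀ {κ : Type} [Field κ] [IsAlgClosed κ] [CharZero κ] {g d : ℕ}
    {R : Subalgebra κ (LaurentSeries κ)}, 1 ≤ d → Kr g R → zz κ d ∈ R →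
    Perp (uno R) ≤ Om (uno R) → TypeS (uno R)

/-- SPR: `t Perp R ⊂ Om R` lifts from a quotient of a local domain. -/
def Stmt_SPR : Prop :=
  ∀ {O A : Type} [CommRing O] [IsDomain O] [IsLocalRing O] [CommRing A] (ρ : O →+* A)
    {g d : ℕ} {R : Subalgebra O (LaurentSeries O)} {f : O[X]} {π u : O} {m M : ℕ},
    Function.Surjective ρ → π ≠ 0 → ¬ IsUnit π → IsUnit u → m < M →
    (∀ x, ρ x = 0 ↔ π ^ M ∣ x) → 1 ≤ d → IsUnit (d : O) → Kr g R → zz O d ∈ R → f.Monic →
    Kil d R f → (∀ x ∈ Perp (uno (bc1 ρ R)), ρ (u * π ^ m) • x ∈ Om (uno (bc1 ρ R))) →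
    ∀ x ∈ Perp (uno R), (u * π ^ m) • x ∈ Om (uno R)

/-- UGL (U2, generic fibre): Krichever rings over fields of characteristic zero with separable
discriminant. -/
def Stmt_UGL : Prop :=
  ∀ {L : Type} [Field L] [CharZero L] {g d : ℕ} {R : Subalgebra L (LaurentSeries L)} {f : L[X]},
    1 ≤ d → Kr g R → zz L d ∈ R → Disc d R f → f.Separable →
    Good g (uno R) ∧ SmC L (uno R) ∧ Dual (uno R) ∧ Perp (uno R) ≤ Om (uno R) ∧
    ∀ {K : Type} [Field K] [IsAlgClosed K] (φ : L →+* K), TypeS (bc φ (uno R)) ∧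
      Dual (bc φ (uno R)) ∧ Disc d (bc1 φ R) (f.map φ)

section

variable {κ O L : Type} [Field κ] [CommRing O] [IsDomain O] [Field L] [Algebra κ O]
  [Algebra O L] {g d : ℕ} {R : Subalgebra L (LaurentSeries L)}

/-- The reduction is smooth or nodal. -/
def Mdl.Tst (M : Mdl κ O L g d R) : Prop := M.Smo ∨ M.Nod

end

/-- UPO (U3): Kähler differentials on a model. -/
def Stmt_UPO : Prop :=
  ∀ {κ O L : Type} [Field κ] [IsAlgClosed κ] [CharZero κ] [CommRing O] [IsDomain O] [Field L]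
    [Algebra κ O] [Algebra O L] {g d : ℕ} {R : Subalgebra L (LaurentSeries L)}
    (M : Mdl κ O L g d R), 1 ≤ g → 2 ≤ d →
    (M.Smo → Perp (uno M.P) ≤ Om (uno M.P)) ∧
    (M.Nod → ∀ x ∈ Perp (uno M.P), M.π ^ 2 • x ∈ Om (uno M.P))

/-- UGD (U2): models are good. -/
def Stmt_UGD : Prop :=
  ∀ {κ O L : Type} [Field κ] [IsAlgClosed κ] [CharZero κ] [CommRing O] [IsDomain O] [Field L]
    [Algebra κ O] [Algebra O L] {g d : ℕ} {R : Subalgebra L (LaurentSeries L)}
    (M : Mdl κ O L g d R), 1 ≤ g → 2 ≤ d → M.Tst → Good g (uno M.P) ∧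
      (M.Smo → TypeS (uno M.Pb))

/-! ## Vector fields -/

/-- UZT (ZH1): the ideal `T dz`. -/
def Stmt_UZT : Prop :=
  ∀ {K : Type} [Field K] [IsAlgClosed K] {g d : ℕ} {R : Subalgebra K (LaurentSeries K)}
    {f : K[X]}, 1 ≤ d → ((d.factorial : ℕ) : K) ≠ 0 → Kr g R → zz K d ∈ R → Disc d R f →
    f.Separable →
    (∃ θ ∈ TT1 R, zpol K d f = θ * ld (zz K d)) ∧
    (∀ x ∈ R, ∃ (a : K[X]) (θ : LaurentSeries K), θ ∈ TT1 R ∧
      x = zpol K d a + θ * ld (zz K d)) ∧
    ∀ a : K[X], (∃ θ ∈ TT1 R, zpol K d a = θ * ld (zz K d)) → f ∣ a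

/-- DIT (U6, DIMT): there are no regular vector fields, and the dimension of the space of vector
fields with poles of order at most `n`. -/
def Stmt_DIT : Prop :=
  ∀ {K : Type} [Field K] [IsAlgClosed K] {g d : ℕ} {R : Subalgebra K (LaurentSeries K)}
    {f : K[X]}, 2 ≤ g → 1 ≤ d → ((d.factorial : ℕ) : K) ≠ 0 → Kr g R → zz K d ∈ R → Disc d R f →
    f.Separable → f.natDegree + 1 = 2 * g + d → Rgd R ∧
    ∃ N : ℕ, ∀ n : ℕ, N ≤ n → Module.Finite K (TT1 R ⊓ Po K n : Submodule K (LaurentSeries K)) ∧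
      Module.finrank K (TT1 R ⊓ Po K n : Submodule K (LaurentSeries K)) + 3 * g = n + 3

/-- UNO (U6): Noether's theorem at the generic point of a family. -/
def Stmt_UNO : Prop :=
  ∀ {O κ K : Type} [CommRing O] [Field κ] [IsAlgClosed κ] [Field K] [IsAlgClosed K] (ρ : O →+* κ)
    (φ : O →+* K) {g d : ℕ} {R : Subalgebra O (LaurentSeries O)} {f : κ[X]} {f' : K[X]},
    Function.Injective φ → 2 ≤ g → 1 ≤ d → ((d.factorial : ℕ) : κ) ≠ 0 →
    ((d.factorial : ℕ) : K) ≠ 0 → Kr g R → zz O d ∈ R →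
    Disc d (bc1 ρ R) f → f.Separable → f.natDegree + 1 = 2 * g + d →
    Disc d (bc1 φ R) f' → f'.Separable → f'.natDegree + 1 = 2 * g + d →
    Noe (bc1 ρ R) → Noe (bc1 φ R)

/-- UVL (U7): the covectors are sums of products of regular differentials. -/
def Stmt_UVL : Prop :=
  ∀ {K : Type} [Field K] {g : ℕ} {R : Subalgebra K (LaurentSeries K)}, Kr g R → Noe R →
    ∀ l : CovL (uno R), ∃ (n : ℕ) (ω ω' : Fin n → EE (uno R)), ∀ θ : KK Unit K,
      l.1 (tder (uno R) θ) = ∑ i, res (θ * ((ω i : KK Unit K) * (ω' i : KK Unit K)))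

/-- UGN (U8): genericity. -/
def Stmt_UGN : Prop :=
  ∀ {K : Type} [Field K] [IsAlgClosed K] [Algebra ℂ K] {g d b : ℕ}
    {R : Subalgebra K (LaurentSeries K)} (r : Fin b → K), 1 ≤ d → 2 * g ≤ d + 2 → Kr g R →
    zz K d ∈ R → Disc d R (∏ l, (X - C (r l))) → AlgebraicIndependent ℂ r → Gnr (uno R)

/-! ## The value at the zero covector -/

/-- UH1 (U5): the value at the zero covector is integral, and reduces to the value of the
reduction. -/
def Stmt_UH1 : Prop :=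
  ∀ {k L : Type} [Field k] [IsAlgClosed k] [Field L] [Algebra ℂ k] [Algebra ℂ L] [Algebra k L]
    [IsScalarTower ℂ k L] {g d : ℕ} {R : Subalgebra L (LaurentSeries L)} {f : L[X]} (E : Ev g),
    1 ≤ g → 2 ≤ d → Kr g R → zz L d ∈ R → Disc d R f → f.Separable →
    ∀ v : Plc k L g d R, v.M.Tst → ∃ x : v.O, algebraMap v.O L x = E.Φ L Unit (uno R) 0 ∧
      v.M.rs x = E.Φ k Unit (uno v.M.Pb) 0

/-- USC: the value at the special curve is a complex number. -/
def Stmt_USC : Prop :=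
  ∀ {g : ℕ}, 2 ≤ g → ∀ {k : Type} [Field k] [IsAlgClosed k] [Algebra ℂ k] (E : Ev g), ∃ c : ℂ,
    ∀ (ζ : k) (R : Subalgebra k (LaurentSeries k)), RG g ζ R →
      E.Φ k Unit (uno R) 0 = algebraMap ℂ k c

/-- USN: the value at the special curve with marked points is a complex number. -/
def Stmt_USN : Prop :=
  ∀ {g n : ℕ}, 2 ≤ g → ∀ {k : Type} [Field k] [IsAlgClosed k] [Algebra ℂ k] (E : Ev0 g n),
    ∃ c : ℂ, ∀ (ζ : k) (R : Subalgebra k (LaurentSeries k)), RG g ζ R →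
      ∀ p : Fin n → (uno R →ₐ[k] k), Marks (uno R) p →
        E.Φ k Unit (uno R) p = algebraMap ℂ k c

/-- UM0: marked points exist. -/
def Stmt_UM0 : Prop :=
  ∀ {κ : Type} [Field κ] [IsAlgClosed κ] {g d : ℕ} {R : Subalgebra κ (LaurentSeries κ)} (n : ℕ),
    1 ≤ d → Kr g R → zz κ d ∈ R → TypeS (uno R) →
    ∃ p : Fin n → (uno R →ₐ[κ] κ), Marks (uno R) p

/-- UM1 (U5, marked points): the value at a curve over the algebraic closure `K` of `L` with marked
points. -/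
def Stmt_UM1 : Prop :=
  ∀ {L K : Type} [Field L] [Field K] [IsAlgClosed K] [Algebra ℂ L] [Algebra ℂ K] [Algebra L K]
    [IsScalarTower ℂ L K] [Algebra.IsAlgebraic L K] {g d n : ℕ}
    {R : Subalgebra L (LaurentSeries L)} {f : L[X]} (E : Ev0 g n), 1 ≤ d → Kr g R →
    zz L d ∈ R → Disc d R f → f.Separable →
    ∃ s : L, ∀ p, Marks (bc (algebraMap L K) (uno R)) p →
      E.Φ K Unit (bc (algebraMap L K) (uno R)) p = algebraMap L K s

/-- UM2 (U5, marked points): this value is integral, and reduces to the value of the reduction. -/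
def Stmt_UM2 : Prop :=
  ∀ {k L K : Type} [Field k] [IsAlgClosed k] [Field L] [Field K] [IsAlgClosed K] [Algebra ℂ k]
    [Algebra ℂ L] [Algebra ℂ K] [Algebra k L] [Algebra L K] [IsScalarTower ℂ k L]
    [IsScalarTower ℂ L K] [Algebra.IsAlgebraic L K] {g d n : ℕ}
    {R : Subalgebra L (LaurentSeries L)} {f : L[X]} (E : Ev0 g n), 1 ≤ g → 2 ≤ d → Kr g R →
    zz L d ∈ R → Disc d R f → f.Separable → ∀ s : L,
    (∀ p, Marks (bc (algebraMap L K) (uno R)) p →
      E.Φ K Unit (bc (algebraMap L K) (uno R)) p = algebraMap L K s) →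
    ∀ v : Plc k L g d R, v.M.Tst → ∃ x : v.O, algebraMap v.O L x = s ∧
      (v.M.Smo → ∀ p, Marks (uno v.M.Pb) p → v.M.rs x = E.Φ k Unit (uno v.M.Pb) p)

/-! ## The polarised values -/

/-- `S` is the polarised value of `E` at the quadratic differentials `ω ω'`. -/
def IsS {g : ℕ} (E : Ev g) {L : Type} [Field L] [Algebra ℂ L]
    (R : Subalgebra L (LaurentSeries L)) (m : ℕ)
    (S : MultilinearMap L (fun _ : Fin (m + m) => EE1 R) L) : Prop :=
  ∀ (ω ω' : Fin m → EE1 R) (x : L),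
    HV E (uno R) 1 (fun i _ => (ω i : LaurentSeries L)) (fun i _ => (ω' i : LaurentSeries L)) x →
    S (Fin.append ω ω') = x

/-- USX (U4): the polarised value exists. -/
def Stmt_USX : Prop :=
  ∀ {L : Type} [Field L] [Algebra ℂ L] {g d : ℕ} {R : Subalgebra L (LaurentSeries L)}
    {f : L[X]} (E : Ev g) (m : ℕ), 1 ≤ d → Kr g R → zz L d ∈ R → Disc d R f → f.Separable →
    ∃ S : MultilinearMap L (fun _ : Fin (m + m) => EE1 R) L, IsS E R m S

/-- UIN (U4 (a)): the polarised value is integral at the places with smooth or nodal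
reduction. -/
def Stmt_UIN : Prop :=
  ∀ {k L : Type} [Field k] [IsAlgClosed k] [Field L] [Algebra ℂ k] [Algebra ℂ L] [Algebra k L]
    [IsScalarTower ℂ k L] {g d : ℕ} {R : Subalgebra L (LaurentSeries L)} {f : L[X]} (E : Ev g)
    (m : ℕ) (S : MultilinearMap L (fun _ : Fin (m + m) => EE1 R) L), 3 ≤ g → 2 ≤ d → Kr g R →
    zz L d ∈ R → Disc d R f → f.Separable → IsS E R m S →
    ∀ v : Plc k L g d R, v.M.Tst → v.Int S

/-- UVK (U7): if the polarised values are zero then the value does not depend on the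
covector. -/
def Stmt_UVK : Prop :=
  ∀ {L K : Type} [Field L] [Field K] [IsAlgClosed K] [Algebra ℂ L] [Algebra ℂ K]
    (φ : L →ₐ[ℂ] K) {g d : ℕ} {R : Subalgebra L (LaurentSeries L)} {f : L[X]} (E : Ev g),
    1 ≤ d → Kr g R → zz L d ∈ R → Disc d R f → f.Separable → Noe (bc1 (φ : L →+* K) R) →
    (∀ m : ℕ, 1 ≤ m → IsS E R m 0) → ∀ l : CovL (bc (φ : L →+* K) (uno R)),
      E.Φ K Unit (bc (φ : L →+* K) (uno R)) l = φ (E.Φ L Unit (uno R) 0)

end Pool.Agent.MG.G0
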