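import Pool.Agent.MG.G0.StmtsU

/-!
# Elements which are integral at all ultraproducts of places (module G0_TRZ)
-/

namespace Pool.Agent.MG.G0

theorem t_TRZ : Stmt_TRZ := by
  classical
  intro 𝒰 k L _ _ _ g d R T hT hc s hs
  obtain ⟨f, rfl⟩ := umk_surj 𝒰 s
  -- places where `f n` is not integral, if there are any
  have hv : ∀ n, ∃ v : Plc (k n) (L n) g d (R n), T n v ∧
      ((∃ x : v.O, algebraMap v.O (L n) x = f n) → ∃ a : k n, algebraMap (k n) (L n) a = f n) := by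
    intro n
    by_cases h : ∀ v, T n v → ∃ x : v.O, algebraMap v.O (L n) x = f n
    · obtain ⟨v, hv⟩ := hT n
      exact ⟨v, hv, fun _ => hc n (f n) h⟩
    · rw [not_forall] at h
      obtain ⟨v, hv⟩ := h
      rw [Classical.not_imp] at hv
      exact ⟨v, hv.1, fun hx => absurd hx hv.2⟩
  choose v hv1 hv2 using hv
  obtain ⟨x, hx⟩ := hs v hv1
  obtain ⟨y, rfl⟩ := umk_surj 𝒰 x
  have h1 : umk 𝒰 (fun n => algebraMap (v n).O (L n) (y n)) = umk 𝒰 f := hx
  rw [umk_eq] at h1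
  refine ⟨umk 𝒰 fun n => if h : ∃ a : k n, algebraMap (k n) (L n) a = f n then h.choose else 0,
    ?_⟩
  rw [umap_umk, umk_eq]
  filter_upwards [h1] with n hn
  have h2 : ∃ a : k n, algebraMap (k n) (L n) a = f n := hv2 n ⟨y n, hn⟩
  rw [dif_pos h2]
  exact h2.choose_spec

end Pool.Agent.MG.G0
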