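import Pool.Agent.MG.G0.StmtsW

/-!
# UAI: the branch points are algebraically independent
-/

open Polynomial

namespace Pool.Agent.MG.G0

namespace UAI

section one

variable {F k : Type} [Field F] [Field k] [Algebra F k]

theorem prod_bnd {ι : Type} (s : Finset ι) (f : ι → k[X]) (d : ι → ℕ)
    (h : ∀ i ∈ s, (f i).natDegree ≤ d i) :
    (∏ i ∈ s, f i).natDegree ≤ ∑ i ∈ s, d i ∧
      (∏ i ∈ s, f i).coeff (∑ i ∈ s, d i) = ∏ i ∈ s, (f i).coeff (d i) := by
  classical
  induction s using Finset.induction_on with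
  | empty => simp
  | insert a s ha ih =>
    obtain ⟨h1, h2⟩ := ih fun i hi => h i (Finset.mem_insert_of_mem hi)
    have h3 := h a (Finset.mem_insert_self a s)
    rw [Finset.prod_insert ha, Finset.sum_insert ha, Finset.prod_insert ha]
    exact ⟨natDegree_mul_le.trans (add_le_add h3 h1), by
      rw [coeff_mul_add_eq_of_natDegree_le h3 h1, h2]⟩

theorem term {b : ℕ} (β α : Fin b → k) (s : Fin b →₀ ℕ) :
    (∏ i, (C (β i) + X * C (α i)) ^ s i).natDegree ≤ s.degree ∧
      (∏ i, (C (β i) + X * C (α i)) ^ s i).coeff s.degree = ∏ i, α i ^ s i := by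
  have hd : s.degree = ∑ i, s i := Finsupp.degree_eq_sum s
  have h1 : ∀ i, (C (β i) + X * C (α i)).natDegree ≤ 1 := fun i => by
    refine (natDegree_add_le _ _).trans (max_le (by simp) ?_)
    refine natDegree_mul_le.trans ?_
    rw [natDegree_X, natDegree_C]
  have h2 : ∀ i, ((C (β i) + X * C (α i)) ^ s i).natDegree ≤ s i := fun i => by
    refine natDegree_pow_le.trans ?_
    calc s i * _ ≤ s i * 1 := Nat.mul_le_mul_left _ (h1 i)
      _ = s i := mul_one _
  obtain ⟨h3, h4⟩ := prod_bnd Finset.univ (fun i => (C (β i) + X * C (α i)) ^ s i) (fun i => s i)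
    fun i _ => h2 i
  rw [hd]
  refine ⟨h3, h4.trans (Finset.prod_congr rfl fun i _ => ?_)⟩
  have h5 := coeff_pow_of_natDegree_le (m := s i) (h1 i)
  rw [mul_one] at h5
  rw [h5]
  simp [coeff_C]

theorem top {b : ℕ} (β α : Fin b → k) (G : MvPolynomial (Fin b) F) (D : ℕ)
    (hD : ∀ s ∈ G.support, s.degree ≤ D) :
    (MvPolynomial.aeval (fun l => C (β l) + X * C (α l)) G : k[X]).coeff D =
      MvPolynomial.aeval α (MvPolynomial.homogeneousComponent D G) := by
  rw [MvPolynomial.aeval_def, MvPolynomial.eval₂_eq', finsetSum_coeff,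
    MvPolynomial.homogeneousComponent_apply, map_sum, Finset.sum_filter]
  refine Finset.sum_congr rfl fun s hs => ?_
  obtain ⟨h1, h2⟩ := term β α s
  have h3 : algebraMap F k[X] (MvPolynomial.coeff s G) =
      C (algebraMap F k (MvPolynomial.coeff s G)) := rfl
  rw [h3, coeff_C_mul]
  split_ifs with h
  · rw [← h, h2, MvPolynomial.aeval_monomial, Finsupp.prod_fintype _ _ fun i => pow_zero _]
  · rw [coeff_eq_zero_of_natDegree_lt, mul_zero]
    exact lt_of_le_of_lt h1 (lt_of_le_of_ne (hD s hs) h)

theorem ind {b : ℕ} (β α : Fin b → k) (h : AlgebraicIndependent F α) (G : MvPolynomial (Fin b) F)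
    (hG : (MvPolynomial.aeval (fun l => C (β l) + X * C (α l)) G : k[X]) = 0) : G = 0 := by
  by_contra h0
  obtain ⟨s, hs, hm⟩ := Finset.exists_max_image G.support (fun s => s.degree)
    (MvPolynomial.support_nonempty.2 h0)
  have h1 := top β α G s.degree hm
  rw [hG, coeff_zero] at h1
  have h2 := (algebraicIndependent_iff.1 h) _ h1.symm
  have h3 := MvPolynomial.coeff_homogeneousComponent s.degree G s
  rw [h2, if_pos rfl, MvPolynomial.coeff_zero] at h3
  exact MvPolynomial.mem_support_iff.1 hs h3.symm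

end one

theorem part1 {F k L : Type} [Field F] [Field k] [Field L] [Algebra F k] [Algebra k L]
    [Algebra F L] [IsScalarTower F k L] {b d : ℕ} (β α : Fin b → k) (t : L) (hd : 0 < d)
    (hα : AlgebraicIndependent F α) (ht : Transcendental k t) :
    AlgebraicIndependent F fun l => algebraMap k L (β l) + t ^ d * algebraMap k L (α l) := by
  rw [algebraicIndependent_iff]
  intro G hG
  refine ind β α hα G ?_
  have ht' : Transcendental k (t ^ d) := ht.pow hd
  have h1 : Function.Injective (aeval (t ^ d) : k[X] →ₐ[k] L) := transcendental_iff_injective.1 ht'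
  refine h1 ?_
  rw [map_zero, ← hG]
  have h2 : ((aeval (t ^ d) : k[X] →ₐ[k] L).restrictScalars F).comp
      (MvPolynomial.aeval fun l => C (β l) + X * C (α l)) =
      MvPolynomial.aeval fun l => algebraMap k L (β l) + t ^ d * algebraMap k L (α l) := by
    ext l
    simp only [AlgHom.comp_apply, AlgHom.restrictScalars_apply, MvPolynomial.aeval_X, map_add,
      map_mul, aeval_C, aeval_X]
  exact DFunLike.congr_fun h2 G

theorem part2 (𝒰 : Ultrafilter ℕ) {k L : ℕ → Type} [∀ n, Field (k n)] [∀ n, Field (L n)]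
    [∀ n, Algebra (k n) (L n)] (t : ∀ n, L n) (ht : ∀ n, Transcendental (k n) (t n)) :
    letI : Algebra (Ul 𝒰 k) (Ul 𝒰 L) := (umap 𝒰 fun n => algebraMap (k n) (L n)).toAlgebra
    Transcendental (Ul 𝒰 k) (umk 𝒰 t) := by
  let _ : Algebra (Ul 𝒰 k) (Ul 𝒰 L) := (umap 𝒰 fun n => algebraMap (k n) (L n)).toAlgebra
  change Transcendental (Ul 𝒰 k) (umk 𝒰 t)
  rw [transcendental_iff]
  intro P hP
  choose p hp using fun i : ℕ => umk_surj 𝒰 (P.coeff i)
  have h1 : (aeval (umk 𝒰 t) P : Ul 𝒰 L) = umk 𝒰 fun n =>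
      ∑ i ∈ Finset.range (P.natDegree + 1), algebraMap (k n) (L n) (p i n) * t n ^ i := by
    have h2 : (fun n => ∑ i ∈ Finset.range (P.natDegree + 1),
        algebraMap (k n) (L n) (p i n) * t n ^ i) =
        ∑ i ∈ Finset.range (P.natDegree + 1),
          (fun n => algebraMap (k n) (L n) (p i n)) * t ^ i := by
      funext n
      simp [Finset.sum_apply]
    rw [h2, map_sum, aeval_eq_sum_range]
    refine Finset.sum_congr rfl fun i _ => ?_
    rw [map_mul, map_pow, Algebra.smul_def, ← hp i]
    rfl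
  rw [h1, umk_eq_zero] at hP
  ext j
  rw [coeff_zero]
  by_cases hj : j ≤ P.natDegree
  · rw [← hp j, umk_eq_zero]
    filter_upwards [hP] with n hn
    have h3 : (∑ i ∈ Finset.range (P.natDegree + 1), C (p i n) * X ^ i : (k n)[X]) = 0 := by
      refine (transcendental_iff.1 (ht n)) _ ?_
      rw [map_sum, ← hn]
      refine Finset.sum_congr rfl fun i _ => ?_
      rw [map_mul, aeval_C, map_pow, aeval_X]
    have h4 := congrArg (fun Q => Polynomial.coeff Q j) h3
    simp only [finsetSum_coeff, coeff_C_mul, coeff_X_pow, coeff_zero] at h4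
    rw [Finset.sum_eq_single j] at h4
    · simpa using h4
    · intro i _ hi
      rw [if_neg hi.symm, mul_zero]
    · intro h5
      exact absurd (Finset.mem_range.2 (by omega)) h5
  · exact coeff_eq_zero_of_natDegree_lt (by omega)

open scoped IntermediateField.algebraAdjoinAdjoin in
theorem part3 {F K : Type} [Field F] [Field K] [IsAlgClosed K] [Algebra F K] {b : ℕ}
    (v : Fin (b + 1) → K) (hv : AlgebraicIndependent F v) :
    ∃ (k₁ : Type) (_ : Field k₁) (_ : IsAlgClosed k₁) (_ : Algebra F k₁) (_ : Algebra k₁ K)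
      (_ : IsScalarTower F k₁ K) (ζ : k₁), algebraMap k₁ K ζ = v 0 ∧ Transcendental F ζ ∧
      AlgebraicIndependent k₁ fun l : Fin b => v l.succ := by
  have h1 : AlgebraicIndependent F (Sum.elim (fun l : Fin b => v l.succ) fun _ : Unit => v 0) := by
    have h2 := hv.comp (Sum.elim (fun l : Fin b => l.succ) fun _ : Unit => 0) (by
      rintro (i | i) (j | j) h
      · exact congrArg Sum.inl (Fin.succ_injective _ h)
      · exact absurd h (Fin.succ_ne_zero i)
      · exact absurd h.symm (Fin.succ_ne_zero j)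
      · rfl)
    have e : (Sum.elim (fun l : Fin b => v l.succ) fun _ : Unit => v 0) =
        v ∘ (Sum.elim (fun l : Fin b => l.succ) fun _ : Unit => 0) := by
      funext x
      rcases x with x | x <;> rfl
    rw [e]
    exact h2
  obtain ⟨_, h3⟩ := AlgebraicIndependent.sumElim_iff.1 h1
  set S : Set K := Set.range fun _ : Unit => v 0 with hS
  have h4 : Algebra.IsAlgebraic (Algebra.adjoin F S) (IntermediateField.adjoin F S) :=
    IsLocalization.isAlgebraic _ (nonZeroDivisors (Algebra.adjoin F S))
  have h5 : AlgebraicIndependent (IntermediateField.adjoin F S) fun l : Fin b => v l.succ :=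
    h3.extendScalars _
  have h6 := h5.algebraicClosure
  have h7 : v 0 ∈ IntermediateField.adjoin F S := IntermediateField.subset_adjoin F S ⟨(), rfl⟩
  have h9 : IsScalarTower F (algebraicClosure (IntermediateField.adjoin F S) K) K :=
    IsScalarTower.of_algebraMap_eq fun _ => rfl
  refine ⟨algebraicClosure (IntermediateField.adjoin F S) K, inferInstance,
    IsAlgClosure.isAlgClosed (IntermediateField.adjoin F S), inferInstance, inferInstance,
    h9, algebraMap (IntermediateField.adjoin F S) _ ⟨v 0, h7⟩, rfl, ?_, h6⟩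
  intro h8
  refine hv.transcendental 0 ?_
  exact h8.algebraMap

end UAI

/-- UAI: the branch points are algebraically independent. -/
theorem t_UAI : Stmt_UAI :=
  ⟨fun β α t hd hα ht => UAI.part1 β α t hd hα ht, fun 𝒰 _ _ _ _ _ t ht => UAI.part2 𝒰 t ht,
    fun v hv => UAI.part3 v hv⟩

end Pool.Agent.MG.G0
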