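import Pool.Agent.MG.G0.StmtsU

/-!
# Ultraproducts of algebraically closed fields which contain the complex numbers (PAPER.md, U0)
-/

open Polynomial

namespace Pool.Agent.MG.G0

namespace UEM

section alg

variable (𝒰 : Ultrafilter ℕ) {k : ℕ → Type} [∀ n, Field (k n)]

theorem algClosed (h : ∀ n, IsAlgClosed (k n)) : IsAlgClosed (Ul 𝒰 k) := by
  refine IsAlgClosed.of_exists_root _ fun F hF hirr => ?_
  have hd : F.natDegree ≠ 0 := hirr.natDegree_pos.ne'
  choose c hc using fun m : ℕ => umk_surj 𝒰 (F.coeff m)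
  have hroot : ∀ n, ∃ r : k n, r ^ F.natDegree +
      ∑ m ∈ Finset.range F.natDegree, c m n * r ^ m = 0 := by
    intro n
    let f : (k n)[X] := X ^ F.natDegree + ∑ m ∈ Finset.range F.natDegree, C (c m n) * X ^ m
    have hlt : (∑ m ∈ Finset.range F.natDegree, C (c m n) * X ^ m : (k n)[X]).degree <
        (F.natDegree : WithBot ℕ) := by
      refine (Polynomial.degree_sum_le _ _).trans_lt ?_
      rw [Finset.sup_lt_iff (WithBot.bot_lt_coe _)]
      intro m hm
      refine (Polynomial.degree_C_mul_X_pow_le _ _).trans_lt ?_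
      exact_mod_cast Finset.mem_range.1 hm
    have hfd : f.degree = (F.natDegree : WithBot ℕ) := by
      change (X ^ F.natDegree + _ : (k n)[X]).degree = _
      rw [Polynomial.degree_add_eq_left_of_degree_lt, Polynomial.degree_X_pow]
      rw [Polynomial.degree_X_pow]
      exact hlt
    obtain ⟨r, hr⟩ := IsAlgClosed.exists_root f (by
      rw [hfd]
      exact_mod_cast hd)
    refine ⟨r, ?_⟩
    have h1 : f.eval r = r ^ F.natDegree +
        ∑ m ∈ Finset.range F.natDegree, c m n * r ^ m := by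
      change (X ^ F.natDegree + _ : (k n)[X]).eval r = _
      rw [Polynomial.eval_add, Polynomial.eval_pow, Polynomial.eval_X,
        Polynomial.eval_finsetSum]
      simp only [Polynomial.eval_mul, Polynomial.eval_C, Polynomial.eval_pow, Polynomial.eval_X]
    rw [← h1]
    exact hr
  choose r hr using hroot
  refine ⟨umk 𝒰 r, ?_⟩
  rw [Polynomial.eval_eq_sum_range, Finset.sum_range_succ]
  have h1 : F.coeff F.natDegree = 1 := hF
  rw [h1, one_mul]
  simp only [← hc, ← map_pow, ← map_mul, ← map_sum, ← map_add]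
  rw [umk_eq_zero]
  refine Filter.Eventually.of_forall fun n => ?_
  rw [← hr n, add_comm]
  simp only [Pi.add_apply, Pi.pow_apply, Finset.sum_apply, Pi.mul_apply]

end alg

section ind

variable (𝒰 : Ultrafilter ℕ) {k : ℕ → Type} [∀ n, Field (k n)] {p : ℕ → ℕ}
  [∀ n, CharP (k n) (p n)]

theorem indep (hp : ∀ N : ℕ, ∀ᶠ n in (𝒰 : Filter ℕ), N < p n) {σ : Type} (x : ∀ n, σ → k n)
    (hx : ∀ n, @AlgebraicIndependent σ (ZMod (p n)) (k n) (x n) _ _ (ZMod.algebra _ _)) :
    AlgebraicIndependent ℤ (fun s => umk 𝒰 fun n => x n s : σ → Ul 𝒰 k) := by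
  rw [algebraicIndependent_iff]
  intro P hP
  by_contra hne
  obtain ⟨m, hm⟩ := MvPolynomial.ne_zero_iff.1 hne
  have h1 : MvPolynomial.aeval (fun s => umk 𝒰 fun n => x n s : σ → Ul 𝒰 k) P =
      umk 𝒰 fun n => MvPolynomial.aeval (x n) P := by
    clear hP hne hm
    induction P using MvPolynomial.induction_on with
    | C a =>
      have h : ∀ n, MvPolynomial.aeval (x n) (MvPolynomial.C a) = (a : k n) := fun n => by
        rw [MvPolynomial.aeval_C, eq_intCast]
      simp only [h]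
      rw [MvPolynomial.aeval_C, eq_intCast]
      exact (map_intCast (umk 𝒰 : (∀ n, k n) →+* Ul 𝒰 k) a).symm
    | add P Q hP hQ =>
      rw [map_add, hP, hQ, ← map_add]
      simp only [map_add]
      rfl
    | mul_X P s hP =>
      rw [map_mul, hP, MvPolynomial.aeval_X, ← map_mul]
      simp only [map_mul, MvPolynomial.aeval_X]
      rfl
  rw [h1, umk_eq_zero] at hP
  have h2 : ∀ᶠ n in (𝒰 : Filter ℕ), (P.coeff m).natAbs < p n := hp _
  obtain ⟨n, hn1, hn2⟩ := (hP.and h2).exists
  let _ := ZMod.algebra (k n) (p n)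
  have h3 : MvPolynomial.aeval (x n) (MvPolynomial.map (Int.castRingHom (ZMod (p n))) P) =
      MvPolynomial.aeval (x n) P := by
    rw [MvPolynomial.aeval_def, MvPolynomial.eval₂_map, MvPolynomial.aeval_def]
    congr 1
    exact RingHom.ext_int _ _
  rw [hn1] at h3
  have h4 := (algebraicIndependent_iff.1 (hx n)) _ h3
  have h5 := congrArg (MvPolynomial.coeff m) h4
  rw [MvPolynomial.coeff_map, MvPolynomial.coeff_zero] at h5
  have h6 : ((P.coeff m : ℤ) : ZMod (p n)) = 0 := h5
  rw [ZMod.intCast_zmod_eq_zero_iff_dvd] at h6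
  have h7 := Int.natAbs_dvd_natAbs.2 h6
  rw [Int.natAbs_natCast] at h7
  have h8 := Nat.le_of_dvd (Int.natAbs_pos.2 hm) h7
  omega

/-- The embedding of the complex numbers. -/
theorem embed (hp : ∀ N : ℕ, ∀ᶠ n in (𝒰 : Filter ℕ), N < p n) (hcl : ∀ n, IsAlgClosed (k n))
    {ι β : Type} {t : ι → ℂ} (ht : IsTranscendenceBasis ℤ t) (x : ∀ n, β ⊕ ι → k n)
    (hx : ∀ n, @AlgebraicIndependent (β ⊕ ι) (ZMod (p n)) (k n) (x n) _ _ (ZMod.algebra _ _)) :
    ∃ i : ℂ →+* Ul 𝒰 k, @AlgebraicIndependent β ℂ (Ul 𝒰 k)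
      (fun j => umk 𝒰 fun n => x n (Sum.inl j)) _ _ i.toAlgebra := by
  have hcl' : IsAlgClosed (Ul 𝒰 k) := algClosed 𝒰 hcl
  have hX := indep 𝒰 hp x hx
  let X : ι → Ul 𝒰 k := fun s => umk 𝒰 fun n => x n (Sum.inr s)
  let Y : β → Ul 𝒰 k := fun s => umk 𝒰 fun n => x n (Sum.inl s)
  have hXY : (fun s => umk 𝒰 fun n => x n s : β ⊕ ι → Ul 𝒰 k) = Sum.elim Y X := by
    funext s
    cases s <;> rfl
  rw [hXY, AlgebraicIndependent.sumElim_iff] at hX
  obtain ⟨hX, hY⟩ := hX
  let S := Algebra.adjoin ℤ (Set.range X)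
  let T := Algebra.adjoin ℤ (Set.range t)
  let e : S ≃+* T := (hX.aevalEquiv.symm.trans ht.1.aevalEquiv).toRingEquiv
  let _ : Algebra S ℂ := ((algebraMap T ℂ).comp (e : S →+* T)).toAlgebra
  have hT : Algebra.IsAlgebraic T ℂ := ht.isAlgebraic
  have hS : Algebra.IsAlgebraic S ℂ := by
    refine ⟨fun z => ?_⟩
    obtain ⟨q, hq0, hq⟩ := hT.isAlgebraic z
    refine ⟨q.map (e.symm : T →+* S), ?_, ?_⟩
    · rw [Polynomial.map_ne_zero_iff e.symm.injective]
      exact hq0
    · rw [Polynomial.aeval_def, Polynomial.eval₂_map]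
      have h1 : (algebraMap S ℂ).comp (e.symm : T →+* S) = algebraMap T ℂ := by
        refine RingHom.ext fun y => ?_
        change algebraMap T ℂ (e (e.symm y)) = _
        rw [e.apply_symm_apply]
      rw [h1]
      exact hq
  have hinj : Function.Injective (algebraMap S ℂ) := fun a b hab =>
    e.injective (Subtype.val_injective hab)
  have hf1 : Module.IsTorsionFree S ℂ := Module.isTorsionFree_iff_algebraMap_injective.2 hinj
  have hf2 : Module.IsTorsionFree S (Ul 𝒰 k) :=
    Module.isTorsionFree_iff_algebraMap_injective.2 Subtype.val_injective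
  let i : ℂ →ₐ[S] Ul 𝒰 k := IsAlgClosed.lift
  refine ⟨i, ?_⟩
  let _ : Algebra ℂ (Ul 𝒰 k) := (i : ℂ →+* Ul 𝒰 k).toAlgebra
  have : IsScalarTower S ℂ (Ul 𝒰 k) := IsScalarTower.of_algebraMap_eq fun y => (i.commutes y).symm
  exact AlgebraicIndependent.extendScalars ℂ hY

end ind

end UEM

open UEM in
theorem t_UEM : Stmt_UEM := by
  intro 𝒰 b p hpr hp
  have hpf : ∀ n, Fact (p n).Prime := fun n => ⟨hpr n⟩
  obtain ⟨ι, t, ht⟩ := exists_isTranscendenceBasis' ℤ ℂ
  let k : ℕ → Type := fun n =>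
    AlgebraicClosure (FractionRing (MvPolynomial (Fin b ⊕ ι) (ZMod (p n))))
  have hdom : ∀ n, IsDomain (MvPolynomial (Fin b ⊕ ι) (ZMod (p n))) := fun n => inferInstance
  let φ : ∀ n, MvPolynomial (Fin b ⊕ ι) (ZMod (p n)) →+* k n := fun n =>
    (algebraMap (FractionRing (MvPolynomial (Fin b ⊕ ι) (ZMod (p n))))
      (AlgebraicClosure (FractionRing (MvPolynomial (Fin b ⊕ ι) (ZMod (p n)))))).comp
      (algebraMap (MvPolynomial (Fin b ⊕ ι) (ZMod (p n)))
        (FractionRing (MvPolynomial (Fin b ⊕ ι) (ZMod (p n)))))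
  have hφ : ∀ n, Function.Injective (φ n) := fun n => by
    have h1 : Function.Injective
        (algebraMap (FractionRing (MvPolynomial (Fin b ⊕ ι) (ZMod (p n))))
          (AlgebraicClosure (FractionRing (MvPolynomial (Fin b ⊕ ι) (ZMod (p n)))))) :=
      RingHom.injective _
    have h2 : Function.Injective (algebraMap (MvPolynomial (Fin b ⊕ ι) (ZMod (p n)))
        (FractionRing (MvPolynomial (Fin b ⊕ ι) (ZMod (p n))))) :=
      IsFractionRing.injective _ _
    exact h1.comp h2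
  let x : ∀ n, Fin b ⊕ ι → k n := fun n s => φ n (MvPolynomial.X s)
  have hc : ∀ n, CharP (k n) (p n) := fun n => charP_of_injective_ringHom (hφ n) (p n)
  have hx : ∀ n, @AlgebraicIndependent (Fin b ⊕ ι) (ZMod (p n)) (k n) (x n) _ _
      (ZMod.algebra _ _) := by
    intro n
    let _ := ZMod.algebra (k n) (p n)
    rw [algebraicIndependent_iff]
    intro P hP
    refine hφ n ?_
    rw [map_zero, ← hP]
    have h : (φ n) = (MvPolynomial.aeval (x n) : MvPolynomial (Fin b ⊕ ι) (ZMod (p n)) →ₐ[_] k n)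
        := by
      refine MvPolynomial.ringHom_ext' (RingHom.ext_zmod _ _) fun s => ?_
      change φ n (MvPolynomial.X s) = MvPolynomial.aeval (x n) (MvPolynomial.X s)
      rw [MvPolynomial.aeval_X]
    exact congrArg (fun F => F P) h
  obtain ⟨i, hi⟩ := embed 𝒰 hp (fun n => inferInstanceAs (IsAlgClosed (AlgebraicClosure _))) ht
    x hx
  refine ⟨k, inferInstance, hc, fun n => inferInstanceAs (IsAlgClosed (AlgebraicClosure _)),
    fun n j => x n (Sum.inl j), i, fun n => ?_, hi⟩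
  let _ := ZMod.algebra (k n) (p n)
  exact (hx n).comp _ Sum.inl_injective

end Pool.Agent.MG.G0
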