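import Pool.Agent.MG.G0.StmtsB
import Pool.Agent.MG.G0.ZL.ZD
import Pool.Agent.MG.G0.ZL.ZI

/-!
# ZBE: a Krichever ring is defined over a finite separable extension of the field of definition of
its branch points
-/

open Polynomial

namespace Pool.Agent.MG.G0

open ZL

namespace ZBEm

/-! ## Lifting of Laurent series -/

section

variable {K W : Type} [Field K] [Field W]

theorem exists_lift (φ : K →+* W) (f : LaurentSeries W) (hf : ∀ m, ∃ c, φ c = f.coeff m) :
    ∃ f' : LaurentSeries K, lmap φ f' = f := by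
  choose c hc using hf
  refine ⟨{ coeff := c, isPWO_support' := f.isPWO_support.mono fun m hm => ?_ }, ?_⟩
  · rw [HahnSeries.mem_support, ← hc m]
    intro h
    exact hm ((map_eq_zero φ).1 h)
  · ext m
    rw [lmap_coeff]
    exact hc m

end

/-! ## The gap set -/

section

variable {κ : Type} [Field κ] {g : ℕ} {R : Subalgebra κ (LaurentSeries κ)} {Γ : Finset ℕ}

/-- The elements with the coefficients `δ` span `R`. -/
theorem eq_sum (hA : Stmt_BGA) (hΓ : GS Γ R) {H : ℕ → LaurentSeries κ}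
    (hH : ∀ n, IsEch Γ R n (H n)) {x : LaurentSeries κ} (hx : x ∈ R) :
    ∃ N : ℕ, x = ∑ n ∈ Finset.range N \ Γ, x.coeff (-(n : ℤ)) • H n := by
  obtain ⟨N, c, h, hh, hc⟩ := ((hA.1 Γ R hΓ).2 x).1 hx
  have h1 : ∀ n ∉ Γ, h n = H n := fun n hn => (hΓ.ech n).unique (hh n hn) (hH n)
  refine ⟨N, ?_⟩
  have h2 : x = ∑ n ∈ Finset.range N \ Γ, c n • H n := by
    rw [hc]
    refine Finset.sum_congr rfl fun n hn => ?_
    rw [h1 n (Finset.mem_sdiff.1 hn).2]
  have h3 : ∀ n ∈ Finset.range N \ Γ, x.coeff (-(n : ℤ)) = c n := by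
    intro n hn
    have h4 : ∀ k, (c k • H k).coeff (-(n : ℤ)) = if k = n then c n else 0 := by
      intro k
      rw [HahnSeries.coeff_smul, (hH k).co n (Finset.mem_sdiff.1 hn).2, smul_eq_mul]
      by_cases hk : k = n
      · rw [if_pos hk, if_pos hk.symm, hk, mul_one]
      · rw [if_neg hk, if_neg (Ne.symm hk), mul_zero]
    rw [h2, HahnSeries.coeff_sum, Finset.sum_congr rfl fun k _ => h4 k, Finset.sum_ite_eq',
      if_pos hn]
  conv_lhs => rw [h2]
  exact Finset.sum_congr rfl fun n hn => by rw [h3 n hn]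

/-- The orders are the numbers outside `Γ`. -/
theorem ord_iff (hΓ : GS Γ R) (hA : Stmt_BGA)
    (hPo : ∀ n ∉ Γ, ∀ h, IsEch Γ R n h → h ∈ Po κ n) (n : ℕ) : Ord R n ↔ n ∉ Γ := by
  constructor
  · rintro ⟨p, hp, hp1, hp2⟩ hn
    choose H hH using fun n => (hΓ.ech n).exists
    obtain ⟨N, hN⟩ := eq_sum hA hΓ hH hp
    have h1 : ∀ k ∈ Finset.range N \ Γ, (p.coeff (-(k : ℤ)) • H k).coeff (-(n : ℤ)) = 0 := by
      intro k hk
      have hk' := (Finset.mem_sdiff.1 hk).2
      rw [HahnSeries.coeff_smul, smul_eq_mul]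
      rcases lt_trichotomy k n with h | h | h
      · rw [hPo k hk' _ (hH k) _ (by omega), mul_zero]
      · exact absurd (h ▸ hn) hk'
      · rw [hp1 _ (by omega), zero_mul]
    rw [hN, HahnSeries.coeff_sum, Finset.sum_eq_zero h1] at hp2
    exact zero_ne_one hp2
  · intro hn
    obtain ⟨h, hh⟩ := (hΓ.ech n).exists
    exact ⟨h, hh.mem, hPo n hn h hh, by rw [hh.co n hn, if_pos rfl]⟩

end

/-! ## The ring over a smaller field -/

section

variable {K W : Type} [Field K] [Field W] {g : ℕ} {R : Subalgebra W (LaurentSeries W)}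
  {Γ : Finset ℕ}

theorem lmap_smul' (φ : K →+* W) (c : K) (f : LaurentSeries K) :
    lmap φ (c • f) = φ c • lmap φ f := by
  ext m
  rw [lmap_coeff, HahnSeries.coeff_smul, smul_eq_mul, map_mul, HahnSeries.coeff_smul, lmap_coeff,
    smul_eq_mul]

/-- The gap sections over a smaller field. -/
theorem cut_spec (hA : Stmt_BGA) (hΓ : GS Γ R) (φ : K →+* W) {H : ℕ → LaurentSeries W}
    (hH : ∀ n, IsEch Γ R n (H n)) (hK : ∀ n ∉ Γ, ∀ m, ∃ c, φ c = (H n).coeff m) :
    GS Γ (cut φ R) ∧ bc1 φ (cut φ R) = R ∧ ∃ h : ℕ → LaurentSeries K,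
      ∀ n ∉ Γ, lmap φ (h n) = H n ∧ IsEch Γ (cut φ R) n (h n) := by
  classical
  have hinj : Function.Injective (lmap φ) := lmap_injective φ.injective
  have h0 : ∀ n, ∃ h : LaurentSeries K, n ∉ Γ → lmap φ h = H n := by
    intro n
    by_cases hn : n ∈ Γ
    · exact ⟨0, fun h => absurd hn h⟩
    · obtain ⟨h, hh⟩ := exists_lift φ (H n) (hK n hn)
      exact ⟨h, fun _ => hh⟩
  choose h hh using h0
  have hcut : ∀ n ∉ Γ, h n ∈ cut φ R := by
    intro n hn
    rw [mem_cut, hh n hn]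
    exact (hH n).mem
  refine ⟨⟨hΓ.1, fun f => ?_⟩, ?_, h, fun n hn => ⟨hh n hn, hcut n hn, fun m hm => ?_⟩⟩
  · obtain ⟨p, ⟨hp, hq⟩, hu⟩ := hΓ.2 (lmap φ f)
    obtain ⟨N, hN⟩ := eq_sum hA hΓ hH hp
    have hc : ∀ n ∉ Γ, p.coeff (-(n : ℤ)) = φ (f.coeff (-(n : ℤ))) := by
      intro n hn
      have := hq n hn
      rw [HahnSeries.coeff_sub, lmap_coeff, sub_eq_zero] at this
      exact this.symm
    let p' : LaurentSeries K := ∑ n ∈ Finset.range N \ Γ, f.coeff (-(n : ℤ)) • h n
    have hp' : lmap φ p' = p := by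
      rw [hN, map_sum]
      refine Finset.sum_congr rfl fun n hn => ?_
      have hn' := (Finset.mem_sdiff.1 hn).2
      rw [lmap_smul', hh n hn', hc n hn']
    refine ⟨p', ⟨?_, fun n hn => ?_⟩, fun y hy => ?_⟩
    · rw [mem_cut, hp']
      exact hp
    · apply φ.injective
      rw [← lmap_coeff, map_sub, hp', hq n hn, map_zero]
    · apply hinj
      rw [hp']
      refine hu _ ⟨hy.1, fun n hn => ?_⟩
      rw [← map_sub, lmap_coeff, hy.2 n hn, map_zero]
  · apply le_antisymm
    · refine Algebra.adjoin_le ?_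
      rintro _ ⟨f, hf, rfl⟩
      exact hf
    · intro x hx
      obtain ⟨N, hN⟩ := eq_sum hA hΓ hH hx
      rw [hN]
      refine sum_mem fun n hn => ?_
      have hn' := (Finset.mem_sdiff.1 hn).2
      exact (bc1 φ (cut φ R)).smul_mem (Algebra.subset_adjoin ⟨h n, hcut n hn', hh n hn'⟩) _
  · apply φ.injective
    rw [← lmap_coeff, hh n hn, (hH n).co m hm]
    split_ifs
    · rw [map_one]
    · rw [map_zero]

/-- The structure constants over a smaller field. -/
theorem struct_mem (hA : Stmt_BGA) {d : ℕ} [NeZero d] (hR : Kr g R) (hz : zz W d ∈ R)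
    (hΓ : GS Γ R) (hcard : Γ.card = g) (hPo : ∀ n ∉ Γ, ∀ h, IsEch Γ R n h → h ∈ Po W n)
    (φ : K →+* W) {H : ℕ → LaurentSeries W}
    (hH : ∀ n, IsEch Γ R n (H n)) (hK : ∀ n ∉ Γ, ∀ m, ∃ c, φ c = (H n).coeff m)
    (N : ZMod d → ℕ) (hN : ∀ i, (N i : ZMod d) = i) (hN' : ∀ n : ℕ, Ord R n ↔ N n ≤ n)
    (S : ZMod d → ZMod d → ZMod d → W[X])
    (hS : ∀ i j, H (N i) * H (N j) = ∑ l, ev d (S i j l) * H (N l)) (i j l : ZMod d) (k : ℕ) :
    ∃ c, φ c = (S i j l).coeff k := by
  classical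
  obtain ⟨h1, -, h, h2⟩ := cut_spec hA hΓ φ hH hK
  have hNΓ : ∀ i, N i ∉ Γ := by
    intro i
    rw [← ord_iff hΓ hA hPo, hN', hN]
  have hkr : Kr g (cut φ R) := hcard ▸ (hA.1 Γ _ h1).1
  have hz' : zz K d ∈ cut φ R := by
    rw [mem_cut, lmap_zz]
    exact hz
  have hP : ∀ n ∉ Γ, h n ∈ Pl K n := by
    intro n hn m hm
    apply φ.injective
    rw [← lmap_coeff, (h2 n hn).1, hPo n hn _ (hH n) m hm, map_zero]
  have hord : ∀ n : ℕ, Ord (cut φ R) n ↔ N n ≤ n := by
    intro n
    rw [← hN']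
    constructor
    · rintro ⟨p, hp, hp1, hp2⟩
      exact ⟨lmap φ p, hp, lmap_mem_Pl φ hp1, by rw [lmap_coeff, hp2, map_one]⟩
    · intro hn
      rw [ord_iff hΓ hA hPo] at hn
      exact ⟨h n, (h2 n hn).2.mem, hP n hn, by rw [(h2 n hn).2.co n hn, if_pos rfl]⟩
  have hspn : Spn (cut φ R) fun i => h (N i) :=
    spn_of_ech hkr hz' N hN hord _ (fun i => (h2 _ (hNΓ i)).2.mem) (fun i => hP _ (hNΓ i))
      fun i => by rw [(h2 _ (hNΓ i)).2.co _ (hNΓ i), if_pos rfl]
  obtain ⟨q, hq⟩ := hspn.2 (h (N i) * h (N j)) (mul_mem (hspn.1 i) (hspn.1 j))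
  have hspnR : Spn R fun i => H (N i) :=
    spn_of_ech hR hz N hN hN' _ (fun i => (hH _).mem) (fun i => hPo _ (hNΓ i) _ (hH _))
      fun i => by rw [(hH _).co _ (hNΓ i), if_pos rfl]
  have h3 : ∑ l, ev d (S i j l) * H (N l) = ∑ l, ev d ((q l).map φ) * H (N l) := by
    rw [← hS i j, ← (h2 _ (hNΓ i)).1, ← (h2 _ (hNΓ j)).1, ← map_mul, hq, map_sum]
    refine Finset.sum_congr rfl fun l _ => ?_
    rw [map_mul, lmap_ev, (h2 _ (hNΓ l)).1]
  have h4 := congrFun (coef_unique (cmat_isUnit hR hspnR) h3) l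
  exact ⟨(q l).coeff k, by rw [h4, coeff_map]⟩

end

/-! ## Finitely many coefficients generate all -/

section

variable {κ : Type} [Field κ] {g : ℕ} {R : Subalgebra κ (LaurentSeries κ)} {d : ℕ} [NeZero d]

/-- The coefficients of the representation in an echelon basis. -/
theorem exists_repr (hR : Kr g R) (hz : zz κ d ∈ R) (N : ZMod d → ℕ)
    (hN : ∀ i, (N i : ZMod d) = i) (hN' : ∀ n : ℕ, Ord R n ↔ N n ≤ n)
    (e : ZMod d → LaurentSeries κ) (he : ∀ i, e i ∈ R) (he1 : ∀ i, e i ∈ Pl κ (N i))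
    (he2 : ∀ i, (e i).coeff (-(N i : ℤ)) = 1) :
    ∀ n : ℕ, ∀ x ∈ R, x ∈ Pl κ ((n : ℤ) - 1) →
      ∃ q : ZMod d → κ[X], x = ∑ i, ev d (q i) * e i ∧
        ∀ i k, (q i).coeff k ≠ 0 → N i + d * k < n := by
  classical
  intro n
  induction n with
  | zero =>
    intro x hx hx'
    refine ⟨0, ?_, fun i k h => absurd (coeff_zero k) h⟩
    rw [eq_zero_of_neg hR hx (by simpa using hx')]
    simp
  | succ n ih =>
    intro x hx hx'
    have hx'' : x ∈ Pl κ n := by
      have h1 : ((n + 1 : ℕ) : ℤ) - 1 = n := by push_cast; ring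
      rwa [h1] at hx'
    by_cases ha : x.coeff (-(n : ℤ)) = 0
    · obtain ⟨q, hq, hq'⟩ := ih x hx (mem_Pl_pred hx'' ha)
      exact ⟨q, hq, fun i k h => (hq' i k h).trans (Nat.lt_succ_self n)⟩
    · have h1 : N n ≤ n := (hN' n).1 (ord_of_coeff hx hx'' ha)
      have h2 : d ∣ n - N n := by
        rw [← ZMod.natCast_eq_zero_iff, Nat.cast_sub h1, hN, sub_self]
      obtain ⟨k, hk⟩ := h2
      have h3 : (n : ℤ) = (d * k : ℕ) + (N n : ℤ) := by omega
      let y : LaurentSeries κ := ev d (C (x.coeff (-(n : ℤ))) * X ^ k) * e n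
      have hy : y ∈ R := by
        refine mul_mem ?_ (he _)
        rw [map_mul, ev_C, map_pow, ev_X]
        exact mul_mem (R.algebraMap_mem _) (pow_mem hz k)
      have hy1 : y = x.coeff (-(n : ℤ)) • (ev d (X ^ k) * e n) := by
        show ev d (C (x.coeff (-(n : ℤ))) * X ^ k) * e n = _
        rw [map_mul, ev_C, mul_assoc, ← Algebra.smul_def]
      have hy2 : y ∈ Pl κ n := by
        rw [hy1, h3]
        exact Submodule.smul_mem _ _ (zzpow_mul_mem_Pl k (he1 _))
      have hy3 : y.coeff (-(n : ℤ)) = x.coeff (-(n : ℤ)) := by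
        have h4 := zzpow_mul_coeff (d := d) k (he1 (n : ZMod d))
        rw [← h3, he2] at h4
        rw [hy1, HahnSeries.coeff_smul, h4, smul_eq_mul, mul_one]
      obtain ⟨q, hq, hq'⟩ := ih (x - y) (sub_mem hx hy)
        (mem_Pl_pred (Submodule.sub_mem _ hx'' hy2) (by
          rw [HahnSeries.coeff_sub, hy3, sub_self]))
      refine ⟨q + Pi.single (n : ZMod d) (C (x.coeff (-(n : ℤ))) * X ^ k), ?_, ?_⟩
      · have h5 : x = (x - y) + y := by abel
        conv_lhs => rw [h5, hq]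
        have h6 : ∀ i, ev d ((q + Pi.single (n : ZMod d)
            (C (x.coeff (-(n : ℤ))) * X ^ k) : ZMod d → κ[X]) i) * e i =
              ev d (q i) * e i + if i = (n : ZMod d) then y else 0 := by
          intro i
          rw [Pi.add_apply, map_add, add_mul]
          congr 1
          by_cases hi : i = (n : ZMod d)
          · rw [if_pos hi, hi, Pi.single_eq_same]
          · rw [if_neg hi, Pi.single_eq_of_ne hi, map_zero, zero_mul]
        rw [Finset.sum_congr rfl fun i _ => h6 i, Finset.sum_add_distrib, Finset.sum_ite_eq',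
          if_pos (Finset.mem_univ _)]
      · intro i l hl
        by_cases hi : i = (n : ZMod d)
        · subst hi
          rw [Pi.add_apply, Pi.single_eq_same, coeff_add, coeff_C_mul, coeff_X_pow] at hl
          by_cases hlk : l = k
          · subst hlk
            omega
          · rw [if_neg hlk, mul_zero, add_zero] at hl
            exact (hq' _ l hl).trans (Nat.lt_succ_self n)
        · rw [Pi.add_apply, Pi.single_eq_of_ne hi, add_zero] at hl
          exact (hq' i l hl).trans (Nat.lt_succ_self n)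

omit [NeZero d] in
theorem ev_mul_coeff (q : κ[X]) (f : LaurentSeries κ) (m : ℤ) :
    (ev d q * f).coeff m = ∑ k ∈ q.support, q.coeff k * f.coeff (m + d * k) := by
  rw [ev_eq_sum, Finset.sum_mul, HahnSeries.coeff_sum]
  refine Finset.sum_congr rfl fun k _ => ?_
  rw [HahnSeries.coeff_single_mul]
  congr 2
  push_cast
  ring

/-- The subring spanned by the echelon basis over a subring `E[z]`. -/
def R0 (E : Subring κ) (S : ZMod d → ZMod d → ZMod d → κ[X]) (e : ZMod d → LaurentSeries κ)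
    (h0 : e 0 = 1) (hS : ∀ i j, e i * e j = ∑ l, ev d (S i j l) * e l)
    (hE : ∀ i j l k, (S i j l).coeff k ∈ E) : Subring (LaurentSeries κ) where
  carrier := {x | ∃ q : ZMod d → κ[X], (∀ i k, (q i).coeff k ∈ E) ∧ x = ∑ i, ev d (q i) * e i}
  mul_mem' := by
    rintro x y ⟨q, hq, rfl⟩ ⟨p, hp, rfl⟩
    refine ⟨fun l => ∑ i, ∑ j, q i * p j * S i j l, fun l k => ?_, ?_⟩
    · rw [finsetSum_coeff]
      refine sum_mem fun i _ => ?_
      rw [finsetSum_coeff]
      refine sum_mem fun j _ => ?_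
      rw [coeff_mul]
      refine sum_mem fun ab _ => mul_mem ?_ (hE _ _ _ _)
      rw [coeff_mul]
      exact sum_mem fun cd _ => mul_mem (hq _ _) (hp _ _)
    · have h1 : ∀ l, ev d (∑ i, ∑ j, q i * p j * S i j l) * e l =
          ∑ i, ∑ j, ev d (q i) * ev d (p j) * (ev d (S i j l) * e l) := by
        intro l
        rw [map_sum, Finset.sum_mul]
        refine Finset.sum_congr rfl fun i _ => ?_
        rw [map_sum, Finset.sum_mul]
        refine Finset.sum_congr rfl fun j _ => ?_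
        rw [map_mul, map_mul, mul_assoc]
      rw [Finset.sum_congr rfl fun l _ => h1 l, Finset.sum_comm, Finset.sum_mul]
      refine Finset.sum_congr rfl fun i _ => ?_
      rw [Finset.sum_comm, Finset.mul_sum]
      refine Finset.sum_congr rfl fun j _ => ?_
      rw [← Finset.mul_sum, ← hS]
      ring
  one_mem' := by
    classical
    refine ⟨Pi.single 0 1, fun i k => ?_, ?_⟩
    · by_cases hi : i = 0
      · rw [hi, Pi.single_eq_same, coeff_one]
        split_ifs
        · exact one_mem _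
        · exact zero_mem _
      · rw [Pi.single_eq_of_ne hi, coeff_zero]
        exact zero_mem _
    · rw [Finset.sum_eq_single 0]
      · rw [Pi.single_eq_same, map_one, one_mul, h0]
      · intro i _ hi
        rw [Pi.single_eq_of_ne hi, map_zero, zero_mul]
      · intro h
        exact absurd (Finset.mem_univ _) h
  add_mem' := by
    rintro x y ⟨q, hq, rfl⟩ ⟨p, hp, rfl⟩
    refine ⟨q + p, fun i k => ?_, ?_⟩
    · rw [Pi.add_apply, coeff_add]
      exact add_mem (hq i k) (hp i k)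
    · rw [← Finset.sum_add_distrib]
      refine Finset.sum_congr rfl fun i _ => ?_
      rw [Pi.add_apply, map_add, add_mul]
  zero_mem' := ⟨0, fun i k => by rw [Pi.zero_apply, coeff_zero]; exact zero_mem _, by simp⟩
  neg_mem' := by
    rintro x ⟨q, hq, rfl⟩
    refine ⟨-q, fun i k => ?_, ?_⟩
    · rw [Pi.neg_apply, coeff_neg]
      exact neg_mem (hq i k)
    · rw [← Finset.sum_neg_distrib]
      refine Finset.sum_congr rfl fun i _ => ?_
      rw [Pi.neg_apply, map_neg, neg_mul]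

theorem single_mem_R0 (E : Subring κ) (S : ZMod d → ZMod d → ZMod d → κ[X])
    (e : ZMod d → LaurentSeries κ)
    (h0 : e 0 = 1) (hS : ∀ i j, e i * e j = ∑ l, ev d (S i j l) * e l)
    (hE : ∀ i j l k, (S i j l).coeff k ∈ E) (i : ZMod d) (p : κ[X])
    (hp : ∀ k, p.coeff k ∈ E) : ev d p * e i ∈ R0 E S e h0 hS hE := by
  classical
  refine ⟨Pi.single i p, fun j k => ?_, ?_⟩
  · by_cases hj : j = i
    · rw [hj, Pi.single_eq_same]
      exact hp k
    · rw [Pi.single_eq_of_ne hj, coeff_zero]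
      exact zero_mem _
  · rw [Finset.sum_eq_single i]
    · rw [Pi.single_eq_same]
    · intro j _ hj
      rw [Pi.single_eq_of_ne hj, map_zero, zero_mul]
    · intro h
      exact absurd (Finset.mem_univ _) h

/-- The coefficients of the elements of the subring. -/
theorem coeff_mem_R0 (hR : Kr g R) (hz : zz κ d ∈ R) (N : ZMod d → ℕ)
    (hN : ∀ i, (N i : ZMod d) = i) (hN' : ∀ n : ℕ, Ord R n ↔ N n ≤ n)
    (e : ZMod d → LaurentSeries κ) (he : ∀ i, e i ∈ R) (he1 : ∀ i, e i ∈ Pl κ (N i))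
    (he2 : ∀ i, (e i).coeff (-(N i : ℤ)) = 1) (E : Subring κ)
    (hdE : ∃ c ∈ E, c * (d : κ) = 1) (S : ZMod d → ZMod d → ZMod d → κ[X])
    (h0 : e 0 = 1) (hS : ∀ i j, e i * e j = ∑ l, ev d (S i j l) * e l)
    (hE : ∀ i j l k, (S i j l).coeff k ∈ E) :
    ∀ x ∈ R0 E S e h0 hS hE, ∀ m : ℤ, x.coeff m ∈ E := by
  classical
  have hd0 : 0 < d := Nat.pos_of_ne_zero (NeZero.ne d)
  have hspn : Spn R e := spn_of_ech hR hz N hN hN' e he he1 he2
  refine t_ZINT κ E d (R0 E S e h0 hS hE) (2 * g) hd0 hdE (fun a ha => ?_) ?_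
    (fun n hn => ?_) (fun n hn x hx hxn => ?_)
  · have h1 := single_mem_R0 E S e h0 hS hE 0 (C a) (fun k => by
      rw [coeff_C]
      split_ifs
      · exact ha
      · exact zero_mem _)
    rwa [h0, mul_one, ev_C] at h1
  · have h1 := single_mem_R0 E S e h0 hS hE 0 X (fun k => by
      rw [coeff_X]
      split_ifs
      · exact one_mem _
      · exact zero_mem _)
    rwa [h0, mul_one, ev_X] at h1
  · have h1 : N n ≤ n := (hN' n).1 (ord_of_two_mul_le hR hz hn)
    have h2 : d ∣ n - N n := by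
      rw [← ZMod.natCast_eq_zero_iff, Nat.cast_sub h1, hN, sub_self]
    obtain ⟨k, hk⟩ := h2
    have h3 : (n : ℤ) = (d * k : ℕ) + (N n : ℤ) := by omega
    refine ⟨ev d (X ^ k) * e n, single_mem_R0 E S e h0 hS hE n (X ^ k) (fun l => ?_), ?_, ?_⟩
    · rw [coeff_X_pow]
      split_ifs
      · exact one_mem _
      · exact zero_mem _
    · rw [h3]
      exact zzpow_mul_mem_Pl k (he1 _)
    · have h4 := zzpow_mul_coeff (d := d) k (he1 (n : ZMod d))
      rw [← h3, he2] at h4
      exact h4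
  · obtain ⟨q, hq, hx'⟩ := hx
    have hxR : x ∈ R := by
      rw [hx']
      refine sum_mem fun i _ => mul_mem ?_ (he i)
      have h1 : ∀ p : κ[X], ev d p ∈ R := by
        intro p
        have h2 : (zpol κ d p) = aeval (zz κ d) p := rfl
        show zpol κ d p ∈ R
        rw [h2, aeval_eq_sum_range]
        exact sum_mem fun i _ => R.smul_mem (pow_mem hz _) _
      exact h1 _
    obtain ⟨p, hp, hp'⟩ := exists_repr hR hz N hN hN' e he he1 he2 (n + 1) x hxR (by
      have h1 : ((n + 1 : ℕ) : ℤ) - 1 = n := by push_cast; ring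
      rw [h1]
      exact hxn)
    have hqp : q = p := coef_unique (cmat_isUnit hR hspn) (hx'.symm.trans hp)
    rw [hx', HahnSeries.coeff_sum]
    refine sum_mem fun i _ => ?_
    rw [ev_mul_coeff]
    refine sum_mem fun k hk => mul_mem (hq i k) ?_
    have h1 := hp' i k (by rw [← hqp]; exact mem_support_iff.1 hk)
    rcases Nat.lt_or_ge (N i + d * k) n with h2 | h2
    · rw [he1 i _ (by
        have h3 : (N i : ℤ) + d * k < n := by exact_mod_cast h2
        omega)]
      exact zero_mem _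
    · have h3 : N i + d * k = n := by omega
      have h4 : (N i : ℤ) + d * k = n := by exact_mod_cast h3
      have h5 : (-(n : ℤ) + d * k) = -(N i : ℤ) := by omega
      rw [h5, he2]
      exact one_mem _

theorem H_mem (hA : Stmt_BGA) {Γ : Finset ℕ} (hR : Kr g R) (hz : zz κ d ∈ R)
    (hΓ : GS Γ R) (hPo : ∀ n ∉ Γ, ∀ h, IsEch Γ R n h → h ∈ Po κ n)
    {H : ℕ → LaurentSeries κ} (hH : ∀ n, IsEch Γ R n (H n))
    (N : ZMod d → ℕ) (hN : ∀ i, (N i : ZMod d) = i) (hN' : ∀ n : ℕ, Ord R n ↔ N n ≤ n)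
    (E : Subring κ) (hdE : ∃ c ∈ E, c * (d : κ) = 1) (S : ZMod d → ZMod d → ZMod d → κ[X])
    (hS : ∀ i j, H (N i) * H (N j) = ∑ l, ev d (S i j l) * H (N l))
    (hE : ∀ i j l k, (S i j l).coeff k ∈ E) :
    ∀ n ∉ Γ, ∀ m : ℤ, (H n).coeff m ∈ E := by
  classical
  have hNΓ : ∀ i, N i ∉ Γ := by
    intro i
    rw [← ord_iff hΓ hA hPo, hN', hN]
  have hN0 : N 0 = 0 := by
    have h1 := (hN' 0).1 (ord_zero R)
    rw [Nat.cast_zero] at h1
    omega
  have hH0 : H (N 0) = 1 := by
    rw [hN0]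
    refine (hΓ.ech 0).unique (hH 0) ⟨one_mem R, fun m _ => ?_⟩
    rw [HahnSeries.coeff_one]
    have : (-(m : ℤ) = 0) ↔ (m = 0) := by omega
    simp only [this]
  have key := coeff_mem_R0 hR hz N hN hN' (fun i => H (N i)) (fun i => (hH _).mem)
    (fun i => hPo _ (hNΓ i) _ (hH _))
    (fun i => by rw [(hH _).co _ (hNΓ i), if_pos rfl]) E hdE S hH0 hS hE
  intro n
  induction n using Nat.strong_induction_on with
  | _ n ih =>
    intro hn
    have h1 : N n ≤ n := by
      rw [← hN', ord_iff hΓ hA hPo]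
      exact hn
    have h2 : d ∣ n - N n := by
      rw [← ZMod.natCast_eq_zero_iff, Nat.cast_sub h1, hN, sub_self]
    obtain ⟨k, hk⟩ := h2
    have h3 : (n : ℤ) = (d * k : ℕ) + (N n : ℤ) := by omega
    set y : LaurentSeries κ := ev d (X ^ k) * H (N n) with hy
    have hyR : y ∈ R := by
      rw [hy, map_pow, ev_X]
      exact mul_mem (pow_mem hz k) (hH _).mem
    have hyP : y ∈ Pl κ n := by
      rw [h3]
      exact zzpow_mul_mem_Pl k (hPo _ (hNΓ _) _ (hH _))
    have hy1 : y.coeff (-(n : ℤ)) = 1 := by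
      have h4 := zzpow_mul_coeff (d := d) k (hPo _ (hNΓ (n : ZMod d)) _ (hH _))
      rw [(hH _).co _ (hNΓ _), if_pos rfl] at h4
      rw [h3]
      exact h4
    have hyE : ∀ m : ℤ, y.coeff m ∈ E := by
      refine key y (single_mem_R0 E S _ hH0 hS hE (n : ZMod d) (X ^ k) fun l => ?_)
      rw [coeff_X_pow]
      split_ifs
      · exact one_mem _
      · exact zero_mem _
    have h5 : H n = y - ∑ m ∈ Finset.range n \ Γ, y.coeff (-(m : ℤ)) • H m := by
      refine (hΓ.ech n).unique (hH n) ⟨sub_mem hyR (sum_mem fun m _ =>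
        R.smul_mem (hH m).mem _), fun m hm => ?_⟩
      rw [HahnSeries.coeff_sub, HahnSeries.coeff_sum]
      have h6 : ∀ l ∈ Finset.range n \ Γ, (y.coeff (-(l : ℤ)) • H l).coeff (-(m : ℤ)) =
          if l = m then y.coeff (-(m : ℤ)) else 0 := by
        intro l _
        rw [HahnSeries.coeff_smul, (hH l).co m hm, smul_eq_mul]
        by_cases hl : l = m
        · rw [if_pos hl, if_pos hl.symm, hl, mul_one]
        · rw [if_neg hl, if_neg (Ne.symm hl), mul_zero]
      rw [Finset.sum_congr rfl h6, Finset.sum_ite_eq']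
      rcases lt_trichotomy m n with h | h | h
      · rw [if_pos (Finset.mem_sdiff.2 ⟨Finset.mem_range.2 h, hm⟩), sub_self, if_neg h.ne]
      · rw [if_neg (fun h' => by
          have := Finset.mem_range.1 (Finset.mem_sdiff.1 h').1
          omega), if_pos h, h, hy1, sub_zero]
      · rw [if_neg (fun h' => by
          have := Finset.mem_range.1 (Finset.mem_sdiff.1 h').1
          omega), if_neg h.ne', sub_zero, hyP _ (by omega)]
    intro m
    rw [h5, HahnSeries.coeff_sub, HahnSeries.coeff_sum]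
    refine sub_mem (hyE m) (sum_mem fun l hl => ?_)
    obtain ⟨hl1, hl2⟩ := Finset.mem_sdiff.1 hl
    rw [HahnSeries.coeff_smul, smul_eq_mul]
    exact mul_mem (hyE _) (ih l (Finset.mem_range.1 hl1) hl2 m)

end

/-! ## Discriminants -/

theorem disc_unique {κ : Type} [Field κ] {g d : ℕ} (hd : 0 < d)
    {R : Subalgebra κ (LaurentSeries κ)} (hR : Kr g R) {f f' : κ[X]} (hf : f.Monic)
    (hf' : f'.Monic) (h : Disc d R f) (h' : Disc d R f') : f = f' := by
  have : NeZero d := ⟨hd.ne'⟩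
  obtain ⟨e, he, u, hu, hdet⟩ := dsc_of_disc h
  obtain ⟨e', he', u', hu', hdet'⟩ := dsc_of_disc h'
  obtain ⟨a, ha, hae⟩ := exists_change hR he he'
  have h1 := gram_det_mul a e e' hae
  rw [hdet, hdet', ← map_mul] at h1
  have h2 := ev_injective d hd.ne' h1
  have h3 : Associated f f' := by
    have h4 : Associated (u * f) f := associated_unit_mul_left f u hu
    have h5 : Associated (a.det ^ 2 * (u' * f')) f' := by
      rw [← mul_assoc]
      exact associated_unit_mul_left f' _ ((ha.pow 2).mul hu')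
    rw [← h2] at h5
    exact h4.symm.trans h5
  exact eq_of_monic_of_associated hf hf' h3

/-! ## Derivations -/

theorem formallyUnramified_of {F L : Type} [Field F] [Field L] [Algebra F L]
    (h : ∀ D : Derivation F L L, D = 0) : Algebra.FormallyUnramified F L := by
  constructor
  have h1 : ∀ f : Module.Dual L (Ω[L⁄F]), f = 0 := by
    intro f
    have h2 := h (KaehlerDifferential.linearMapEquivDerivation F L f)
    exact (LinearEquiv.map_eq_zero_iff _).1 h2
  refine ⟨fun x y => ?_⟩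
  rw [← sub_eq_zero, ← Module.forall_dual_apply_eq_zero_iff L]
  intro f
  rw [h1 f]
  rfl

end ZBEm

open ZBEm in
/-- ZBE. -/
theorem t_ZBE (hA : Stmt_BGA) (hL : Stmt_BGL) (hKBC : Stmt_KBC) (hCYC : Stmt_CYC)
    (hBPB : Stmt_BPB) : Stmt_ZBE := by
  classical
  intro F W _ _ _ g d b hd h2d R hR hz r hr hDisc
  have : NeZero d := ⟨hd.ne'⟩
  have hdF : (d : F) ≠ 0 := by
    intro h
    apply h2d
    push_cast
    rw [h, mul_zero]
  have hcast : ∀ {K : Type} [Field K] [Algebra F K], ((2 * d : ℕ) : K) ≠ 0 ∧ (d : K) ≠ 0 := by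
    intro K _ _
    have h1 : ∀ n : ℕ, (n : F) ≠ 0 → (n : K) ≠ 0 := by
      intro n hn h
      rw [← map_natCast (algebraMap F K)] at h
      exact hn ((map_eq_zero _).1 h)
    exact ⟨h1 _ h2d, h1 _ hdF⟩
  obtain ⟨Γ, hcard, hΓ, hPo⟩ := hL.2.1 R hR
  choose H hH using fun n => (hΓ.ech n).exists
  obtain ⟨N, hN, hN'⟩ := exists_ech hR hz
  have hNΓ : ∀ i, N i ∉ Γ := by
    intro i
    rw [← ord_iff hΓ hA hPo, hN', hN]
  have hspn : Spn R fun i => H (N i) :=
    spn_of_ech hR hz N hN hN' _ (fun i => (hH _).mem) (fun i => hPo _ (hNΓ i) _ (hH _))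
      fun i => by rw [(hH _).co _ (hNΓ i), if_pos rfl]
  choose S hS using fun i j : ZMod d => hspn.2 (H (N i) * H (N j))
    (mul_mem (hH _).mem (hH _).mem)
  -- the field of definition
  let G : Set W := {x | ∃ n, n ∉ Γ ∧ ∃ m : ℤ, x = (H n).coeff m}
  let L : IntermediateField F W := IntermediateField.adjoin F G
  have hGL : ∀ n ∉ Γ, ∀ m : ℤ, (H n).coeff m ∈ L := fun n hn m =>
    IntermediateField.subset_adjoin F G ⟨n, hn, m, rfl⟩
  have hLH : ∀ n ∉ Γ, ∀ m : ℤ, ∃ c : L, algebraMap L W c = (H n).coeff m :=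
    fun n hn m => ⟨⟨_, hGL n hn m⟩, rfl⟩
  obtain ⟨hG1, hG2, h, hh⟩ := cut_spec hA hΓ (algebraMap L W) hH hLH
  have hkr : Kr g (cut (algebraMap L W) R) := hcard ▸ (hA.1 Γ _ hG1).1
  have hzS : zz L d ∈ cut (algebraMap L W) R := by
    rw [mem_cut, lmap_zz]
    exact hz
  have hhc : ∀ n (hn : n ∉ Γ) (m : ℤ), (h n).coeff m = ⟨(H n).coeff m, hGL n hn m⟩ := by
    intro n hn m
    apply Subtype.ext
    have h1 := congrArg (fun f : LaurentSeries W => f.coeff m) (hh n hn).1
    simp only [lmap_coeff] at h1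
    exact h1
  -- finite generation
  have hFG : L.FG := by
    let t : Finset W := Finset.univ.biUnion fun x : ZMod d × ZMod d × ZMod d =>
      (S x.1 x.2.1 x.2.2).coeffs
    refine ⟨t, le_antisymm ?_ ?_⟩
    · rw [IntermediateField.adjoin_le_iff]
      intro x hx
      obtain ⟨y, -, hy⟩ := Finset.mem_biUnion.1 (Finset.mem_coe.1 hx)
      obtain ⟨k, -, hk⟩ := mem_coeffs_iff.1 hy
      obtain ⟨c, hc⟩ := struct_mem hA hR hz hΓ hcard hPo (algebraMap L W) hH hLH N hN hN' S hS
        y.1 y.2.1 y.2.2 k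
      rw [hk, ← hc]
      exact c.2
    · rw [IntermediateField.adjoin_le_iff]
      rintro x ⟨n, hn, m, rfl⟩
      have hE : ∀ i j l k, (S i j l).coeff k ∈
          (IntermediateField.adjoin F (t : Set W)).toSubfield.toSubring := by
        intro i j l k
        by_cases h0 : (S i j l).coeff k = 0
        · rw [h0]
          exact zero_mem _
        · refine IntermediateField.subset_adjoin F _ ?_
          rw [Finset.mem_coe, Finset.mem_biUnion]
          exact ⟨(i, j, l), Finset.mem_univ _, coeff_mem_coeffs h0⟩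
      have hdE : ∃ c ∈ (IntermediateField.adjoin F (t : Set W)).toSubfield.toSubring,
          c * (d : W) = 1 := by
        refine ⟨((d : W))⁻¹, ?_, inv_mul_cancel₀ hcast.2⟩
        exact (IntermediateField.adjoin F (t : Set W)).inv_mem (natCast_mem _ d)
      exact H_mem hA hR hz hΓ hPo hH N hN hN' _ hdE S hS hE n hn m
  -- the discriminant
  have hDS : Disc d (cut (algebraMap L W) R) (∏ l, (X - C (algebraMap F L (r l)))) := by
    obtain ⟨⟨f, hf, hfD⟩, -, -⟩ := t_ZD2 L g d (cut (algebraMap L W) R) hd hcast.2 hkr hzS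
    have h1 := (t_ZDB hKBC L W (algebraMap L W) g d _ hd hkr hzS).2.2 f hfD
    rw [hG2] at h1
    have h2 : f.map (algebraMap L W) = ∏ l, (X - C (algebraMap F W (r l))) :=
      disc_unique hd hR (hf.map _) (monic_prod_of_monic _ _ fun l _ => monic_X_sub_C _) h1 hDisc
    have h3 : f = ∏ l, (X - C (algebraMap F L (r l))) := by
      apply map_injective (algebraMap L W) (algebraMap L W).injective
      rw [h2, Polynomial.map_prod]
      refine Finset.prod_congr rfl fun l _ => ?_
      rw [Polynomial.map_sub, map_X, map_C]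
      rfl
    rw [← h3]
    exact hfD
  have hCyc : Cyc d (cut (algebraMap L W) R) :=
    (hCYC hd hcast.2 _ hkr hzS).2 b (fun l => algebraMap F L (r l))
      ((algebraMap F L).injective.comp hr) hDS
  -- derivations
  have hess : Algebra.EssFiniteType F L := IntermediateField.essFiniteType_iff.2 hFG
  have hunr : Algebra.FormallyUnramified F L := by
    refine formallyUnramified_of fun D => ?_
    have hp : pder (D.restrictScalars ℤ) (∏ l, (X - C (algebraMap F L (r l)))) = 0 := by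
      have h1 : (∏ l, (X - C (algebraMap F L (r l)))) =
          (∏ l, (X - C (r l))).map (algebraMap F L) := by
        rw [Polynomial.map_prod]
        refine Finset.prod_congr rfl fun l _ => ?_
        rw [Polynomial.map_sub, map_X, map_C]
      ext n
      rw [pder_coeff, h1, coeff_map, Derivation.restrictScalars_apply, Derivation.map_algebraMap,
        coeff_zero]
    have h1 := (hBPB hd hcast.1 _ hkr hzS hCyc _ hDS (D.restrictScalars ℤ) 0
      ⟨0, by rw [hp, zero_mul, zero_mul, add_zero]⟩).2 rfl Γ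
    have h2 : ∀ n (hn : n ∉ Γ) (m : ℤ), D ⟨(H n).coeff m, hGL n hn m⟩ = 0 := by
      intro n hn m
      have h3 := h1 n (h n) hG1 (hh n hn).2 hn m
      rw [hhc n hn m] at h3
      exact h3
    ext ⟨x, hx⟩
    induction hx using IntermediateField.adjoin_induction with
    | mem x hx =>
      obtain ⟨n, hn, m, rfl⟩ := hx
      rw [h2 n hn m]
      rfl
    | algebraMap x =>
      have h3 : (⟨algebraMap F W x, algebraMap_mem _ _⟩ : L) = algebraMap F L x := rfl
      rw [h3, Derivation.map_algebraMap]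
      rfl
    | add x y hx hy ihx ihy =>
      have h3 : (⟨x + y, add_mem hx hy⟩ : L) = ⟨x, hx⟩ + ⟨y, hy⟩ := rfl
      have h4 : D (⟨x, hx⟩ : L) = 0 := Subtype.ext ihx
      have h5 : D (⟨y, hy⟩ : L) = 0 := Subtype.ext ihy
      rw [h3, map_add, h4, h5, add_zero]
      rfl
    | inv x hx ihx =>
      have h3 : (⟨x⁻¹, inv_mem hx⟩ : L) = (⟨x, hx⟩ : L)⁻¹ := rfl
      have h4 : D (⟨x, hx⟩ : L) = 0 := Subtype.ext ihx
      rw [h3, Derivation.leibniz_inv, h4, smul_zero]
      rfl
    | mul x y hx hy ihx ihy =>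
      have h3 : (⟨x * y, mul_mem hx hy⟩ : L) = ⟨x, hx⟩ * ⟨y, hy⟩ := rfl
      have h4 : D (⟨x, hx⟩ : L) = 0 := Subtype.ext ihx
      have h5 : D (⟨y, hy⟩ : L) = 0 := Subtype.ext ihy
      rw [h3, Derivation.leibniz, h4, h5, smul_zero, smul_zero, add_zero]
      rfl
  refine ⟨L, cut (algebraMap L W) R, Algebra.FormallyUnramified.finite_of_free F L,
    Algebra.FormallyUnramified.isSeparable F L, hkr, hzS, hG2, hDS, ?_⟩
  -- minimality
  intro M hM T hT hzT hTS
  have hGT : GS Γ T := hL.1 M.subtype T Γ hT (by rw [hTS]; exact hG1)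
  have hcoef : ∀ n ∉ Γ, ∀ m : ℤ, (h n).coeff m ∈ M := by
    intro n hn m
    obtain ⟨x, hx⟩ := (hGT.ech n).exists
    have h1 := (hA.2 M.subtype Γ T hGT).2 n x hx
    rw [hTS] at h1
    have h2 : lmap M.subtype x = h n := (hG1.ech n).unique h1 (hh n hn).2
    rw [← h2, lmap_coeff]
    exact (x.coeff m).2
  let M' : IntermediateField F L := M.toIntermediateField hM
  have hle : L ≤ M'.map L.val := by
    refine (IntermediateField.adjoin_le_iff).2 ?_
    rintro x ⟨n, hn, m, rfl⟩
    refine ⟨(h n).coeff m, hcoef n hn m, ?_⟩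
    rw [hhc n hn m]
    rfl
  rw [eq_top_iff]
  rintro ⟨x, hx⟩ -
  obtain ⟨y, hy, hyx⟩ := hle hx
  have h1 : (⟨x, hx⟩ : L) = y := Subtype.ext hyx.symm
  rw [h1]
  exact hy

end Pool.Agent.MG.G0
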