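import Pool.Agent.MG.G0.StmtsW
import Pool.Agent.MG.G0.StmtsG
import Pool.Agent.MG.G0.ZBE

/-!
# The final statement on Krichever rings: assembly
-/

open Polynomial

namespace Pool.Agent.MG.G0

namespace UFI

theorem kr_bc1 (hKBC : Stmt_KBC) {A B : Type} [CommRing A] [CommRing B] {g : ℕ}
    {R : Subalgebra A (LaurentSeries A)} (h : Kr g R) (φ : A →+* B) : Kr g (bc1 φ R) := by
  have h1 := (hKBC.2.2.2 (P := uno R) h φ).1
  rw [bc_uno] at h1
  exact h1

theorem zz_bc1 {A B : Type} [CommRing A] [CommRing B] {d : ℕ}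
    {R : Subalgebra A (LaurentSeries A)} (h : zz A d ∈ R) (φ : A →+* B) : zz B d ∈ bc1 φ R := by
  rw [← lmap_zz φ d]
  exact Algebra.subset_adjoin ⟨zz A d, h, rfl⟩

theorem map_sc_one {A : Type} [CommRing A] (R : Subalgebra A (LaurentSeries A)) :
    R.map (sc (1 : Aˣ)) = R := by
  ext f
  rw [Subalgebra.mem_map]
  constructor
  · rintro ⟨x, hx, rfl⟩
    rwa [sc_one]
  · intro hf
    exact ⟨f, hf, sc_one f⟩

theorem mprod {A B : Type} [CommRing A] [CommRing B] (φ : A →+* B) {b : ℕ} (r : Fin b → A) :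
    (∏ l, (X - C (r l))).map φ = ∏ l, (X - C (φ (r l))) := by
  rw [Polynomial.map_prod]
  refine Finset.prod_congr rfl fun l _ => ?_
  rw [Polynomial.map_sub, Polynomial.map_X, Polynomial.map_C]

theorem bc1_comp (hKBC : Stmt_KBC) {A B C' : Type} [CommRing A] [CommRing B] [CommRing C']
    (φ : A →+* B) (ψ : B →+* C') (R : Subalgebra A (LaurentSeries A)) :
    bc1 (ψ.comp φ) R = bc1 ψ (bc1 φ R) := by
  have h1 := hKBC.2.1 φ ψ (uno R)
  rw [bc_uno, bc_uno, bc_uno] at h1
  rw [← duo_uno (bc1 (ψ.comp φ) R), h1, duo_uno]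

theorem natDegree_mprod {K : Type} [Field K] {b : ℕ} (r : Fin b → K) :
    (∏ l, (X - C (r l))).natDegree = b := by
  rw [natDegree_prod_of_monic _ _ fun l _ => monic_X_sub_C _]
  simp

theorem factorial_ne {K : Type} [Field K] [Algebra ℂ K] (n : ℕ) : ((n.factorial : ℕ) : K) ≠ 0 := by
  have : CharZero K := charZero_of_injective_algebraMap (algebraMap ℂ K).injective
  exact Nat.cast_ne_zero.2 (Nat.factorial_ne_zero n)

/-- An element of the field of constants which comes from the valuation ring is its own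
residue. -/
theorem rs_const {k O L : Type} [Field k] [CommRing O] [IsDomain O] [Field L] [Algebra k L]
    [Algebra k O] [Algebra O L] [IsScalarTower k O L] {g d : ℕ}
    {R : Subalgebra L (LaurentSeries L)} (M : Mdl k O L g d R) {x : O} {a : k}
    (h : algebraMap O L x = algebraMap k L a) : M.rs x = a := by
  have hfrac : IsFractionRing O L := M.frac
  have h1 : x = algebraMap k O a := by
    apply IsFractionRing.injective O L
    rw [h, IsScalarTower.algebraMap_apply k O L]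
  rw [h1]
  exact M.rs.commutes a

end UFI

open UFI in
theorem t_UFI (hKBC : Stmt_KBC) (hGRA : Stmt_GRA) (hUGL : Stmt_UGL) (hUNO : Stmt_UNO)
    (hUGN : Stmt_UGN) (hUH1 : Stmt_UH1) (hUSC : Stmt_USC) (hUSN : Stmt_USN) (hUM1 : Stmt_UM1)
    (hUM2 : Stmt_UM2) (hUSX : Stmt_USX) (hUIN : Stmt_UIN) (hUVK : Stmt_UVK) (hUZU : Stmt_UZU)
    (hUM0 : Stmt_UM0) (hMSM : Stmt_MSM) : Stmt_UFI := by
  intro g hg
  obtain ⟨k, L, ik, iak, iL, aCk, aCL, akL, tw, R, r, hkr, hz, hdisc, hind,
    ⟨v, ζ, hTst, hc, hRG, β, hβ, hdβ⟩, hconst, hform⟩ := hUZU g (by omega)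
  have chL : CharZero L := charZero_of_injective_algebraMap (algebraMap ℂ L).injective
  have hd1 : 1 ≤ 6 * g + 9 := by omega
  have hd2 : 2 ≤ 6 * g + 9 := by omega
  have hrinj : Function.Injective r := hind.injective
  have hsep : (∏ l, (X - C (r l))).Separable := separable_prod_X_sub_C_iff.2 hrinj
  -- the algebraic closure
  let φ : L →ₐ[ℂ] AlgebraicClosure L := IsScalarTower.toAlgHom ℂ L (AlgebraicClosure L)
  have hφ : (φ : L →+* AlgebraicClosure L) = algebraMap L (AlgebraicClosure L) := rfl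
  have hGL := hUGL hd1 hkr hz hdisc hsep
  have hGK := hGL.2.2.2.2 (φ : L →+* AlgebraicClosure L)
  have hkrK : Kr g (bc1 (φ : L →+* AlgebraicClosure L) R) := kr_bc1 hKBC hkr _
  have hzK : zz (AlgebraicClosure L) (6 * g + 9) ∈ bc1 (φ : L →+* AlgebraicClosure L) R :=
    zz_bc1 hz _
  have hdK : Disc (6 * g + 9) (bc1 (φ : L →+* AlgebraicClosure L) R)
      (∏ l, (X - C (φ (r l)))) := by
    have h1 := hGK.2.2
    rw [mprod] at h1
    exact h1
  have hsepK : (∏ l, (X - C (φ (r l)))).Separable :=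
    separable_prod_X_sub_C_iff.2 ((φ : L →+* AlgebraicClosure L).injective.comp hrinj)
  have hindK : AlgebraicIndependent ℂ fun l => φ (r l) :=
    hind.map' (f := φ) (φ : L →+* AlgebraicClosure L).injective
  -- Noether's theorem
  have hRGb := hGRA g (by omega)
  have hb := hRGb.2.1 ζ v.M.Pb hRG
  have hbcv : bc1 ((φ : L →+* AlgebraicClosure L).comp (algebraMap v.O L)) v.M.P =
      bc1 (φ : L →+* AlgebraicClosure L) R := by
    rw [bc1_comp hKBC, v.M.bc, hc, map_sc_one]
  have hfrac : IsFractionRing v.O L := v.M.frac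
  have hNoe : Noe (bc1 (φ : L →+* AlgebraicClosure L) R) := by
    have h1 := hUNO (v.M.rs : v.O →+* k)
      ((φ : L →+* AlgebraicClosure L).comp (algebraMap v.O L)) (g := g) (d := 6 * g + 9)
      (R := v.M.P) (f := ∏ l, (X - C (β l))) (f' := ∏ l, (X - C (φ (r l))))
      ((φ : L →+* AlgebraicClosure L).injective.comp (IsFractionRing.injective v.O L))
      (by omega) hd1 (factorial_ne _) (factorial_ne _) v.M.kr v.M.z hdβ
      (separable_prod_X_sub_C_iff.2 hβ) (by rw [natDegree_mprod]; omega)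
      (by rw [hbcv]; exact hdK) hsepK (by rw [natDegree_mprod]; omega) hb.2.2.2.2.2.2.1
    rw [hbcv] at h1
    exact h1
  -- the reduction at v is smooth
  have hPbz : zz k (6 * g + 9) ∈ v.M.Pb := hb.2.2.1
  have hPbk : Kr g v.M.Pb := hb.2.1
  have hSmo : v.M.Smo := by
    left
    have h1 : Disc (6 * g + 9) v.M.Pb v.M.fb :=
      (hMSM v.M hd2 (factorial_ne _)).2.1 (v.M.rs : v.O →+* k)
        ⟨1, by rw [pow_one]; exact v.M.rsπ⟩
    have h2 : v.M.fb = ∏ l, (X - C (β l)) :=
      ZBEm.disc_unique (by omega) hPbk (v.M.monic.map _)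
        (monic_prod_of_monic _ _ fun l _ => monic_X_sub_C _) h1 hdβ
    rw [h2]
    exact separable_prod_X_sub_C_iff.2 hβ
  have hTypS : TypeS (uno v.M.Pb) := ⟨hb.2.2.2.1, hb.2.2.2.2.1⟩
  refine ⟨AlgebraicClosure L, inferInstance, inferInstance, inferInstance,
    bc (φ : L →+* AlgebraicClosure L) (uno R), ?_, hGK.1, ?_, ?_, ?_⟩
  · rw [bc_uno]
    exact hkrK
  · rw [bc_uno]
    exact hUGN (fun l => φ (r l)) hd1 (by omega) hkrK hzK hdK hindK
  · intro E
    obtain ⟨c, hcc⟩ := hUSC (g := g) (by omega) (k := k) E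
    refine ⟨c, fun l => ?_⟩
    -- the value at zero is a constant
    have h1 := hUH1 (k := k) E (by omega) hd2 hkr hz hdisc hsep
    obtain ⟨a, ha⟩ := hconst (E.Φ L Unit (uno R) 0) fun w hw => by
      obtain ⟨x, hx, -⟩ := h1 w hw
      exact ⟨x, hx⟩
    obtain ⟨x, hx, hx2⟩ := h1 v hTst
    have h2 : v.M.rs x = a := rs_const v.M (by rw [hx, ha])
    have h3 : a = algebraMap ℂ k c := by
      rw [← h2, hx2]
      exact hcc ζ v.M.Pb hRG
    have h4 : E.Φ L Unit (uno R) 0 = algebraMap ℂ L c := by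
      rw [← ha, h3, ← IsScalarTower.algebraMap_apply ℂ k L]
    have h5 : ∀ m : ℕ, 1 ≤ m → IsS E R m 0 := by
      intro m hm
      obtain ⟨S, hS⟩ := hUSX E m hd1 hkr hz hdisc hsep
      have h6 : S = 0 := hform (m + m) (by omega) S fun w hw =>
        hUIN E m S hg hd2 hkr hz hdisc hsep hS w hw
      rw [h6] at hS
      exact hS
    rw [hUVK φ E hd1 hkr hz hdisc hsep hNoe h5 l, h4]
    exact φ.commutes c
  · intro n E
    obtain ⟨c, hcc⟩ := hUSN (g := g) (n := n) (by omega) (k := k) E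
    refine ⟨c, fun p hp => ?_⟩
    obtain ⟨s, hs⟩ := hUM1 (K := AlgebraicClosure L) E hd1 hkr hz hdisc hsep
    have h1 := hUM2 (k := k) (K := AlgebraicClosure L) E (by omega) hd2 hkr hz hdisc hsep s hs
    obtain ⟨a, ha⟩ := hconst s fun w hw => by
      obtain ⟨x, hx, -⟩ := h1 w hw
      exact ⟨x, hx⟩
    obtain ⟨x, hx, hx2⟩ := h1 v hTst
    obtain ⟨q, hq⟩ := hUM0 n hd1 hPbk hPbz hTypS
    have h2 : v.M.rs x = a := rs_const v.M (by rw [hx, ha])
    have h3 : a = algebraMap ℂ k c := by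
      rw [← h2, hx2 hSmo q hq]
      exact hcc ζ v.M.Pb hRG q hq
    have h4 : s = algebraMap ℂ L c := by
      rw [← ha, h3, ← IsScalarTower.algebraMap_apply ℂ k L]
    have h5 := hs p hp
    rw [h4] at h5
    exact h5.trans (φ.commutes c)

end Pool.Agent.MG.G0
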