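import Pool.Agent.MG.G0.StmtsV
import Pool.Agent.MG.G0.StmtsLOG
import Pool.Agent.MG.G0.StmtsNP
import Pool.Agent.MG.G0.MSM
import Pool.Agent.MG.G0.SDB
import Pool.Agent.MG.G0.KBT
import Pool.Agent.MG.G0.KSP
import Pool.Agent.MG.G0.KNZ
import Pool.Agent.MG.G0.KEQ
import Pool.Agent.MG.G0.KFG
import Pool.Agent.MG.G0.SCO
import Pool.Agent.MG.G0.AID
import Pool.Agent.MG.G0.AYE
import Pool.Agent.MG.G0.AWK
import Pool.Agent.MG.G0.AWB

/-!
# UGD: models are good
-/

open Polynomial TensorProduct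

namespace Pool.Agent.MG.G0

namespace UGD

section

variable {O κ : Type} [CommRing O] [Field κ]

/-- Coprimality lifts from the residue field, for monic polynomials. -/
theorem coprime_lift (rs : O →+* κ) (hu : ∀ x, rs x ≠ 0 → IsUnit x) {f g : O[X]} (hf : f.Monic)
    (h : IsCoprime (f.map rs) (g.map rs)) : IsCoprime f g := by
  rw [← isUnit_resultant_iff_isCoprime hf]
  rw [← isUnit_resultant_iff_isCoprime (hf.map rs)] at h
  apply hu
  have h1 : (f.map rs).natDegree = f.natDegree := hf.natDegree_map rs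
  have hle : (g.map rs).natDegree ≤ g.natDegree := natDegree_map_le
  obtain ⟨k, hk⟩ := Nat.exists_eq_add_of_le hle
  have h2 := resultant_add_right_deg (f.map rs) (g.map rs) (f.map rs).natDegree
    (g.map rs).natDegree k le_rfl
  rw [(hf.map rs).coeff_natDegree, one_pow, one_mul, ← hk, h1, resultant_map_map] at h2
  rw [h2]
  rw [h1] at h
  exact h.ne_zero

/-- Separability of a monic polynomial lifts from the residue field. -/
theorem separable_lift (rs : O →+* κ) (hu : ∀ x, rs x ≠ 0 → IsUnit x) {f : O[X]} (hf : f.Monic)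
    (h : (f.map rs).Separable) : f.Separable := by
  refine coprime_lift rs hu hf ?_
  rw [← derivative_map]
  exact h

/-- The quadratic factor is separable. -/
theorem quad_separable {K : Type} [Field K] (h2 : (2 : K) ≠ 0) {s w : K} (hw : w ≠ 0) :
    ((X - C s) ^ 2 - C w : K[X]).Separable := by
  refine ⟨-C w⁻¹, C (w⁻¹ * 2⁻¹) * (X - C s), ?_⟩
  have e1 : derivative ((X - C s) ^ 2 - C w : K[X]) = C 2 * (X - C s) := by
    simp only [derivative_sub, derivative_pow, derivative_X, derivative_C, sub_zero, mul_one]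
    norm_num
  have e2 : (C w⁻¹ * C w : K[X]) = 1 := by
    rw [← C_mul, inv_mul_cancel₀ hw, C_1]
  have e3 : (C (w⁻¹ * 2⁻¹) * C 2 : K[X]) = C w⁻¹ := by
    rw [← C_mul, mul_assoc, inv_mul_cancel₀ h2, mul_one]
  rw [e1]
  linear_combination e2 + (X - C s) ^ 2 * e3

theorem quad_monic (s w : O) [Nontrivial O] : ((X - C s) ^ 2 - C w : O[X]).Monic := by
  refine ((monic_X_sub_C s).pow 2).sub_of_left ?_
  have h1 : ((X - C s : O[X]) ^ 2).natDegree = 2 := by
    rw [(monic_X_sub_C s).natDegree_pow, natDegree_X_sub_C, mul_one]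
  have h2 : 0 < ((X - C s : O[X]) ^ 2).degree :=
    natDegree_pos_iff_degree_pos.1 (by omega)
  exact degree_C_le.trans_lt h2

/-- The discriminant stays separable where the parameter of the node does not vanish. -/
theorem nod_separable [IsDomain O] {K : Type} [Field K] (h2 : (2 : K) ≠ 0) (rs : O →+* κ)
    (hu : ∀ x, rs x ≠ 0 → IsUnit x) {f h : O[X]} {s w : O} (hf : f.Monic)
    (e : f = ((X - C s) ^ 2 - C w) * h) (hw : rs w = 0) (hs : (h.map rs).Separable)
    (h0 : (h.map rs).eval (rs s) ≠ 0) (φ : O →+* K) (hφ : φ w ≠ 0) : (f.map φ).Separable := by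
  have hm : h.Monic := by
    rw [e] at hf
    exact (quad_monic s w).of_mul_monic_left hf
  have h3 : (h.map φ).Separable := (separable_lift rs hu hm hs).map
  have h4 : IsCoprime ((X - C s) ^ 2 - C w) h := by
    refine coprime_lift rs hu (quad_monic s w) ?_
    have e1 : ((X - C s) ^ 2 - C w : O[X]).map rs = (X - C (rs s)) ^ 2 := by
      rw [Polynomial.map_sub, Polynomial.map_pow, Polynomial.map_sub, map_X, map_C, map_C, hw,
        C_0, sub_zero]
    rw [e1]
    refine IsCoprime.pow_left ?_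
    refine ((Polynomial.irreducible_X_sub_C (rs s)).coprime_iff_not_dvd).2 fun h5 => h0 ?_
    exact Polynomial.dvd_iff_isRoot.1 h5
  have h5 : (((X - C s) ^ 2 - C w : O[X]).map φ).Separable := by
    have e1 : ((X - C s) ^ 2 - C w : O[X]).map φ = (X - C (φ s)) ^ 2 - C (φ w) := by
      rw [Polynomial.map_sub, Polynomial.map_pow, Polynomial.map_sub, map_X, map_C, map_C]
    rw [e1]
    exact quad_separable h2 hφ
  rw [e, Polynomial.map_mul]
  refine h5.mul h3 ?_
  exact h4.map (Polynomial.mapRingHom φ)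

end

section

variable {I A B : Type} [CommRing A] [CommRing B]

theorem kmap_mem_Om (φ : A →+* B) {P : Subalgebra A (KK I A)} {η : KK I A} (h : η ∈ Om P) :
    kmap φ η ∈ Om (bc φ P) := by
  rw [Om] at h
  induction h using Submodule.span_induction with
  | mem x hx =>
    obtain ⟨p, hp, f, hf, rfl⟩ := hx
    refine Submodule.subset_span ⟨kmap φ p, kmap_mem_bc φ hp, kmap φ f, kmap_mem_bc φ hf, ?_⟩
    rw [map_mul, kmap_dd]
  | zero =>
    rw [map_zero]
    exact zero_mem _
  | add x y _ _ hx hy =>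
    rw [map_add]
    exact add_mem hx hy
  | smul a x _ hx =>
    rw [kmap_smul]
    exact Submodule.smul_mem _ _ hx

theorem perp_le_om [Fintype I] [Nonempty I] (hPBC : Stmt_PBC) {g : ℕ}
    {P : Subalgebra A (KK I A)} (hP : IsKr g P) (h : Perp P ≤ Om P) (φ : A →+* B) :
    Perp (bc φ P) ≤ Om (bc φ P) := by
  rw [hPBC hP φ, Submodule.span_le]
  rintro _ ⟨η, hη, rfl⟩
  exact kmap_mem_Om φ (h hη)

/-- Evaluation at a formal point. -/
noncomputable def pa {P : Subalgebra A (KK I A)} (p : FPt P) : P →ₐ[A] A :=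
  { toRingHom := (PowerSeries.constantCoeff (R := A)).comp (p.h : P →+* PowerSeries A)
    commutes' := fun a => by
      change PowerSeries.constantCoeff (p.h (algebraMap A P a)) = a
      rw [AlgHom.commutes]
      exact PowerSeries.constantCoeff_C a }

theorem pa_apply {P : Subalgebra A (KK I A)} (p : FPt P) (f : P) : pa p f = p.ev f := rfl

theorem fs_bc [Fintype I] [Nonempty I] (hKBT : Stmt_KBT) {g : ℕ}
    {P : Subalgebra A (KK I A)} (hP : IsKr g P) (hS : Algebra.FormallySmooth A P) (φ : A →+* B) :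
    Algebra.FormallySmooth B (bc φ P) := by
  let _ : Algebra A B := φ.toAlgebra
  obtain ⟨-, e, -⟩ := hKBT (B := B) hP
  have h1 : Algebra.FormallySmooth B (B ⊗[A] P) := inferInstance
  exact Algebra.FormallySmooth.of_equiv e

theorem pa_ne [Nontrivial A] {P : Subalgebra A (KK I A)} {pt : Bool → FPt P} (hd : Disj pt) :
    pa (pt true) ≠ pa (pt false) := by
  intro h
  have h1 : (pt true).id = (pt false).id := by
    ext f
    rw [FPt.mem_id, FPt.mem_id, ← pa_apply, ← pa_apply, h]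
  have h2 := hd true false (by decide)
  rw [h1, sup_idem] at h2
  have h3 : (1 : P) ∈ (pt false).id := by
    rw [h2]
    exact Submodule.mem_top
  rw [FPt.mem_id, ← pa_apply, map_one] at h3
  exact one_ne_zero h3

theorem typeN_bc {κ κ' : Type} [Field κ] [Field κ'] [Fintype I] [Nonempty I] (hKBC : Stmt_KBC)
    (hKBT : Stmt_KBT) (hSBC : Stmt_SBC) (hAWB : Stmt_AWB) (hPL2 : Stmt_PL2) {g : ℕ}
    {R : Subalgebra κ (KK I κ)} (hR : IsKr g R) (hF : Algebra.FormallySmooth κ R)
    (hS : SmC κ R) (pt : Bool → FPt R) (hd : Disj pt) (ψ : κ →+* κ') :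
    TypeN (g + 1) (bc ψ (PT pt 0)) := by
  have hR' : IsKr g (bc ψ R) := (hKBC.2.2.2 hR ψ).1
  have hS' : SmC κ' (bc ψ R) := SDB.SmC_bc hKBT hSBC hR hS ψ
  have hF' := fs_bc hKBT hR hF ψ
  choose pt' hpt' using fun b => ((hAWB hR ψ).1 (pt b)).exists
  obtain ⟨hd', -, -⟩ := (hAWB hR ψ).2 hS pt pt' hpt' hd
  have h1 : PT pt' 0 = bc ψ (PT pt 0) := by
    have h2 := hPL2.1 hR hS pt hd 0 IsNilpotent.zero ψ pt' hpt'
    rwa [map_zero] at h2
  refine ⟨g, bc ψ R, pa (pt' true), pa (pt' false), rfl, hR', ⟨hF', hS'⟩, pa_ne hd', fun f => ?_⟩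
  rw [← h1, hPL2.2.2 hR' hS' pt' hd' f]
  constructor
  · rintro ⟨r, rfl, h2⟩
    exact ⟨r.2, h2⟩
  · rintro ⟨hf, h2⟩
    exact ⟨⟨f, hf⟩, rfl, h2⟩

end

section

variable {κ O L : Type} [Field κ] [CommRing O] [IsDomain O] [Field L] [Algebra κ O]
  [Algebra O L] {g d : ℕ} {R : Subalgebra L (LaurentSeries L)}

/-- A homomorphism which kills `π` factors through the residue field. -/
theorem factor (M : Mdl κ O L g d R) {K : Type} [Field K] (φ : O →+* K) (h : φ M.π = 0) :
    φ = (φ.comp (algebraMap κ O)).comp (M.rs : O →+* κ) := by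
  ext x
  have h1 : M.rs (x - algebraMap κ O (M.rs x)) = 0 := by
    rw [map_sub, AlgHom.commutes, Algebra.algebraMap_self, RingHom.id_apply, sub_self]
  obtain ⟨y, hy⟩ := M.ker _ h1
  have h2 : φ (x - algebraMap κ O (M.rs x)) = 0 := by
    rw [hy, map_mul, h, zero_mul]
  rw [map_sub, sub_eq_zero] at h2
  exact h2

/-- The reduction of the cofactor of the double factor. -/
theorem red_cofactor (M : Mdl κ O L g d R) {c : κ} {s₀ u : O} {h : O[X]} (hD : Dbl M.fb c)
    (hs : M.rs s₀ = c) (e : M.f = ((X - C s₀) ^ 2 - C (M.π ^ 2 * u)) * h) :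
    M.fb = (X - C c) ^ 2 * h.map (M.rs : O →+* κ) ∧ (h.map (M.rs : O →+* κ)).Separable := by
  have h1 : M.fb = (X - C c) ^ 2 * h.map (M.rs : O →+* κ) := by
    rw [Mdl.fb, e, Polynomial.map_mul, Polynomial.map_sub, Polynomial.map_pow,
      Polynomial.map_sub, map_X, map_C, map_C]
    have h2 : (M.rs : O →+* κ) s₀ = c := hs
    have h3 : (M.rs : O →+* κ) (M.π ^ 2 * u) = 0 := by
      rw [map_mul, map_pow]
      have h4 : (M.rs : O →+* κ) M.π = 0 := M.rsπ
      rw [h4, zero_pow two_ne_zero, zero_mul]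
    rw [h2, h3, C_0, sub_zero]
  refine ⟨h1, ?_⟩
  obtain ⟨h', h5, -, h6⟩ := hD
  have h7 : ((X - C c) ^ 2 : κ[X]) ≠ 0 := pow_ne_zero 2 (X_sub_C_ne_zero c)
  have h8 : h.map (M.rs : O →+* κ) = h' := mul_left_cancel₀ h7 (h1.symm.trans h5)
  rw [h8]
  exact h6

end

end UGD

open UGD in
/-- UGD (U2): models are good. -/
theorem t_UGD (hKBC : Stmt_KBC) (hPBC : Stmt_PBC) (hSBC : Stmt_SBC) (hKIL : Stmt_KIL)
    (hKIS : Stmt_KIS) (hMSM : Stmt_MSM) (hPL2 : Stmt_PL2) (hNPL : Stmt_NPL) (hUPO : Stmt_UPO)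
    (hSMO : Stmt_SMO) : Stmt_UGD := by
  have hKSP : Stmt_KSP := t_KSP t_KNZ
  have hKBT : Stmt_KBT := t_KBT hKSP hKBC
  have hAWK : Stmt_AWK := t_AWK t_KNZ hSBC (t_AYE t_KNZ (t_AID t_SCO (t_KFG t_KNZ hKSP)))
  have hAWB : Stmt_AWB := t_AWB hKBC hKBT t_KEQ hAWK
  intro κ O L _ _ _ _ _ _ _ _ g d R M hg hd hT
  have hd1 : 1 ≤ d := by omega
  have hfac : ((d.factorial : ℕ) : κ) ≠ 0 := by
    exact_mod_cast d.factorial_ne_zero
  obtain ⟨hKil, hDisc, hSm⟩ := hMSM M hd hfac
  have hkr : IsKr g (uno M.P) := M.kr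
  refine ⟨⟨hkr, fun κ' _ _ φ => ?_⟩, fun h => hSm inferInstance h⟩
  have hcz : CharZero κ' := (RingHom.charZero_iff (φ.comp (algebraMap κ O)).injective).1
    inferInstance
  have hfac' : ((d.factorial : ℕ) : κ') ≠ 0 := by
    exact_mod_cast d.factorial_ne_zero
  have hkr' : Kr g (bc1 φ M.P) := MSM.kr_bc1 hKBC M.kr φ
  have hz' : zz κ' d ∈ bc1 φ M.P := MSM.zz_bc1 M.z φ
  rcases hT with hT | ⟨c, s₀, u, h, hD, hG, hs, hu, e, h0⟩
  · left
    have h1 := perp_le_om hPBC hkr ((hUPO M hg hd).1 hT) φ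
    rw [bc_uno] at h1 ⊢
    exact hSMO hd1 hkr' hz' h1
  · obtain ⟨e1, hsep⟩ := red_cofactor M hD hs e
    by_cases hπ : φ M.π = 0
    · right
      have hfac2 := factor M φ hπ
      obtain ⟨g', rfl⟩ : ∃ g', g = g' + 1 := ⟨g - 1, by omega⟩
      have hbid : bc1 (RingHom.id κ) M.Pb = M.Pb := by
        have h2 := hKBC.2.2.1 (uno M.Pb)
        rw [bc_uno] at h2
        have h3 := congrArg duo h2
        rwa [duo_uno, duo_uno] at h3
      have hDb : Disc d M.Pb M.fb := hDisc (M.rs : O →+* κ) ⟨1, by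
        rw [pow_one]
        exact M.rsπ⟩
      obtain ⟨R', hR', hF', hS', -, pt, hpt, hPT⟩ := hNPL (A := κ) (AlgHom.id κ κ) (g := g')
        (d := d) (P := M.Pb) (h := h.map (M.rs : O →+* κ)) (s := c) (t := 0) ⟨1, by
          rw [pow_one]
          exact (RingHom.injective_iff_ker_eq_bot _).1 fun x y hxy => hxy⟩ (by
            have h4 : RingHom.ker ((AlgHom.id κ κ : κ →ₐ[κ] κ) : κ →+* κ) = ⊥ :=
              (RingHom.injective_iff_ker_eq_bot _).1 fun x y hxy => hxy
            rw [h4]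
            exact Submodule.fg_bot) hd hfac (MSM.kr_bc1 hKBC M.kr _) (MSM.zz_bc1 M.z _) (by
            rw [mul_zero, C_0, sub_zero, ← e1]
            exact hDb) rfl (by
            have h5 : (h.map (M.rs : O →+* κ)).map ((AlgHom.id κ κ : κ →ₐ[κ] κ) : κ →+* κ) =
                h.map (M.rs : O →+* κ) := Polynomial.map_id
            rw [h5]
            exact hsep) (by
            have h5 : (h.map (M.rs : O →+* κ)).map ((AlgHom.id κ κ : κ →ₐ[κ] κ) : κ →+* κ) =
                h.map (M.rs : O →+* κ) := Polynomial.map_id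
            rw [h5]
            exact h0) (by
            have h6 : bc1 ((AlgHom.id κ κ : κ →ₐ[κ] κ) : κ →+* κ) M.Pb = M.Pb := hbid
            rw [h6]
            exact hG)
      have h7 := typeN_bc hKBC hKBT hSBC hAWB hPL2 hR' hF' hS' pt hpt
        (φ.comp (algebraMap κ O))
      rw [hPT] at h7
      have h8 : bc φ (uno M.P) = bc (φ.comp (algebraMap κ O)) (uno M.Pb) := by
        conv_lhs => rw [hfac2]
        rw [hKBC.2.1, Mdl.Pb, bc_uno]
      rw [h8]
      exact h7
    · left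
      have h2 : (2 : κ') ≠ 0 := two_ne_zero
      have hw : φ (M.π ^ 2 * u) ≠ 0 := by
        rw [map_mul, map_pow]
        exact mul_ne_zero (pow_ne_zero 2 hπ) (hu.map φ).ne_zero
      have hw0 : (M.rs : O →+* κ) (M.π ^ 2 * u) = 0 := by
        rw [map_mul, map_pow]
        have h4 : (M.rs : O →+* κ) M.π = 0 := M.rsπ
        rw [h4, zero_pow two_ne_zero, zero_mul]
      have h3 : (M.f.map φ).Separable := nod_separable h2 (M.rs : O →+* κ) M.unit M.monic e hw0
        hsep (by
          have h5 : (M.rs : O →+* κ) s₀ = c := hs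
          rw [h5]
          exact h0) φ hw
      have h4 := hKIS hd1 hfac' hkr' hz' (hKIL.2.1 φ M.kr hKil) h3
      rw [bc_uno]
      exact h4

end Pool.Agent.MG.G0
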