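import Pool.Agent.MG.G0.StmtsV
import Pool.Agent.MG.G0.ZL.ZD
import Pool.Agent.MG.G0.SBC
import Pool.Agent.MG.G0.SCO
import Pool.Agent.MG.G0.LOC

/-!
# UGL: Krichever rings over fields of characteristic zero with separable discriminant
-/

open Polynomial TensorProduct

namespace Pool.Agent.MG.G0

namespace UGL

section desc

variable {I L K : Type} [Field L] [Field K] [Algebra L K]

/-- An `L`-linear functional applied to the coefficients. -/
noncomputable def kl (lam : K →ₗ[L] L) : KK I K →+ KK I L where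
  toFun f i := HahnSeries.map (f i) lam
  map_zero' := by
    funext i
    ext n
    rw [HahnSeries.map_coeff, Pi.zero_apply, HahnSeries.coeff_zero, Pi.zero_apply,
      HahnSeries.coeff_zero, map_zero]
  map_add' f g := by
    funext i
    ext n
    rw [Pi.add_apply, HahnSeries.map_coeff, Pi.add_apply, HahnSeries.coeff_add,
      HahnSeries.coeff_add, HahnSeries.map_coeff, HahnSeries.map_coeff, map_add]

theorem kl_coeff (lam : K →ₗ[L] L) (f : KK I K) (i : I) (n : ℤ) :
    (kl lam f i).coeff n = lam ((f i).coeff n) := rfl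

/-- The functional `x ↦ lam (b x)`. -/
noncomputable def tw (lam : K →ₗ[L] L) (b : K) : K →ₗ[L] L := lam ∘ₗ LinearMap.mulLeft L b

theorem tw_apply (lam : K →ₗ[L] L) (b x : K) : tw lam b x = lam (b * x) := rfl

theorem kl_smul (lam : K →ₗ[L] L) (b : K) (f : KK I K) : kl lam (b • f) = kl (tw lam b) f := by
  funext i
  ext n
  rw [kl_coeff, kl_coeff, tw_apply, Pi.smul_apply, HahnSeries.coeff_smul, smul_eq_mul]

theorem kl_mul_kmap (lam : K →ₗ[L] L) (x : KK I K) (y : KK I L) :
    kl lam (x * kmap (algebraMap L K) y) = kl lam x * y := by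
  funext i
  obtain ⟨a, ha⟩ := exists_low (x i)
  obtain ⟨b, hb⟩ := exists_low (y i)
  ext n
  have ha' : ∀ m < -(a : ℤ), (kl lam x i).coeff m = 0 := fun m hm => by
    rw [kl_coeff, ha m hm, map_zero]
  have hb' : ∀ m < -(b : ℤ), (kmap (algebraMap L K) y i).coeff m = 0 := fun m hm => by
    rw [kmap_apply, lmap_coeff, hb m hm, map_zero]
  rw [kl_coeff, Pi.mul_apply, Pi.mul_apply, coeff_mul_Icc ha hb', coeff_mul_Icc ha' hb, map_sum]
  refine Finset.sum_congr rfl fun j _ => ?_
  rw [kl_coeff, kmap_apply, lmap_coeff, mul_comm, ← Algebra.smul_def, map_smul, smul_eq_mul,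
    mul_comm]

theorem kl_one (lam : K →ₗ[L] L) (h : lam 1 = 1) : kl lam (1 : KK I K) = 1 := by
  funext i
  ext n
  rw [kl_coeff, Pi.one_apply, Pi.one_apply, HahnSeries.coeff_one, HahnSeries.coeff_one]
  split_ifs
  · exact h
  · exact map_zero lam

theorem kl_kmap (lam : K →ₗ[L] L) (y : KK I L) :
    kl lam (kmap (algebraMap L K) y) = lam 1 • y := by
  funext i
  ext n
  rw [kl_coeff, kmap_apply, lmap_coeff, Algebra.algebraMap_eq_smul_one, map_smul, Pi.smul_apply,
    HahnSeries.coeff_smul, smul_eq_mul, smul_eq_mul, mul_comm]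

/-- The `K`-span of a space over `L` is mapped to this space. -/
theorem kl_span {M : Submodule L (KK I L)} {x : KK I K}
    (hx : x ∈ Submodule.span K (kmap (algebraMap L K) '' (M : Set (KK I L)))) :
    ∀ lam : K →ₗ[L] L, kl lam x ∈ M := by
  induction hx using Submodule.span_induction with
  | mem x hx =>
    obtain ⟨y, hy, rfl⟩ := hx
    intro lam
    rw [kl_kmap]
    exact M.smul_mem _ hy
  | zero =>
    intro lam
    rw [map_zero]
    exact zero_mem _
  | add x y _ _ hx hy =>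
    intro lam
    rw [map_add]
    exact add_mem (hx lam) (hy lam)
  | smul b x _ hx =>
    intro lam
    rw [kl_smul]
    exact hx _

theorem kl_bc {P : Subalgebra L (KK I L)} {x : KK I K} (hx : x ∈ bc (algebraMap L K) P)
    (lam : K →ₗ[L] L) : kl lam x ∈ P :=
  kl_span (M := Subalgebra.toSubmodule P) (mem_bc_span (algebraMap L K) P hx) lam

theorem kl_TT {P : Subalgebra L (KK I L)} {θ : KK I K} (hθ : θ ∈ TT (bc (algebraMap L K) P))
    (lam : K →ₗ[L] L) : kl lam θ ∈ TT P := by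
  intro f hf
  have h1 := hθ _ (kmap_mem_bc (algebraMap L K) hf)
  rw [← kmap_dd] at h1
  have h2 := kl_bc h1 lam
  rwa [kl_mul_kmap] at h2

/-- Kähler differentials over `K` are mapped to Kähler differentials over `L`. -/
theorem kl_Om {P : Subalgebra L (KK I L)} {η : KK I K} (hη : η ∈ Om (bc (algebraMap L K) P))
    (lam : K →ₗ[L] L) : kl lam η ∈ Om P := by
  refine kl_span (M := Om P) ?_ lam
  have key : ∀ p ∈ bc (algebraMap L K) P, ∀ f ∈ bc (algebraMap L K) P,
      p * dd f ∈ Submodule.span K (kmap (algebraMap L K) '' (Om P : Set (KK I L))) := by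
    intro p hp f hf
    have hp' := mem_bc_span (algebraMap L K) P hp
    have hf' := mem_bc_span (algebraMap L K) P hf
    clear hp hf
    induction hp' using Submodule.span_induction with
    | mem x hx =>
      obtain ⟨q, hq, rfl⟩ := hx
      induction hf' using Submodule.span_induction with
      | mem y hy =>
        obtain ⟨r, hr, rfl⟩ := hy
        rw [← kmap_dd, ← map_mul]
        exact Submodule.subset_span ⟨q * dd r, Submodule.subset_span ⟨q, hq, r, hr, rfl⟩, rfl⟩
      | zero =>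
        have h0 : dd (0 : KK I K) = 0 := map_zero (ddD I K)
        rw [h0, mul_zero]
        exact zero_mem _
      | add x y _ _ hx hy =>
        rw [dd_add, mul_add]
        exact add_mem hx hy
      | smul b x _ hx =>
        rw [dd_smul, mul_smul_comm]
        exact Submodule.smul_mem _ b hx
    | zero =>
      rw [zero_mul]
      exact zero_mem _
    | add x y _ _ hx hy =>
      rw [add_mul]
      exact add_mem hx hy
    | smul b x _ hx =>
      rw [smul_mul_assoc]
      exact Submodule.smul_mem _ b hx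
  have h1 : Om (bc (algebraMap L K) P) ≤
      Submodule.span K (kmap (algebraMap L K) '' (Om P : Set (KK I L))) := by
    refine Submodule.span_le.2 ?_
    rintro _ ⟨p, hp, f, hf, rfl⟩
    exact key p hp f hf
  exact h1 hη

/-- Sums of `θ dg`. -/
noncomputable def SS {A : Type} [CommRing A] (P : Subalgebra A (KK I A)) :
    Submodule A (KK I A) :=
  Submodule.span A {x | ∃ θ ∈ TT P, ∃ f ∈ P, x = θ * dd f}

theorem kl_SS {P : Subalgebra L (KK I L)} {f : KK I K} (hf : f ∈ bc (algebraMap L K) P)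
    (lam : K →ₗ[L] L) :
    ∀ θ ∈ TT (bc (algebraMap L K) P), kl lam (θ * dd f) ∈ SS P := by
  have hf' := mem_bc_span (algebraMap L K) P hf
  clear hf
  induction hf' using Submodule.span_induction with
  | mem y hy =>
    obtain ⟨r, hr, rfl⟩ := hy
    intro θ hθ
    rw [← kmap_dd, kl_mul_kmap]
    exact Submodule.subset_span ⟨_, kl_TT hθ lam, r, hr, rfl⟩
  | zero =>
    intro θ hθ
    have h0 : dd (0 : KK I K) = 0 := map_zero (ddD I K)
    rw [h0, mul_zero, map_zero]
    exact zero_mem _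
  | add x y _ _ hx hy =>
    intro θ hθ
    rw [dd_add, mul_add, map_add]
    exact add_mem (hx θ hθ) (hy θ hθ)
  | smul b x _ hx =>
    intro θ hθ
    rw [dd_smul, mul_smul_comm, ← smul_mul_assoc]
    exact hx _ (Submodule.smul_mem _ b hθ)

theorem SS_sum {P : Subalgebra L (KK I L)} {x : KK I L} (hx : x ∈ SS P) :
    ∃ (n : ℕ) (θ g : Fin n → KK I L), (∀ i, θ i ∈ TT P) ∧ (∀ i, g i ∈ P) ∧
      ∑ i, θ i * dd (g i) = x := by
  obtain ⟨n, a, s, hs⟩ := Submodule.mem_span_set'.1 hx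
  choose θ hθ f hf he using fun i => (s i).2
  refine ⟨n, fun i => a i • θ i, f, fun i => Submodule.smul_mem _ _ (hθ i), hf, ?_⟩
  rw [← hs]
  refine Finset.sum_congr rfl fun i _ => ?_
  rw [smul_mul_assoc, ← he i]

end desc

/-! ## Kähler differentials -/

theorem ex_lam (L K : Type) [Field L] [Field K] [Algebra L K] :
    ∃ lam : K →ₗ[L] L, lam 1 = 1 := by
  obtain ⟨l, hl⟩ := (Algebra.linearMap L K).exists_leftInverse_of_injective
    (LinearMap.ker_eq_bot.2 (algebraMap L K).injective)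
  refine ⟨l, ?_⟩
  have h := LinearMap.congr_fun hl 1
  rwa [LinearMap.comp_apply, Algebra.linearMap_apply, map_one, LinearMap.id_apply] at h

attribute [local instance] Algebra.TensorProduct.rightAlgebra in
theorem map_inj (L K P : Type) [Field L] [Field K] [Algebra L K] [CommRing P] [Algebra L P]
    (x : Ω[P⁄L]) (hx : KaehlerDifferential.map L K P (K ⊗[L] P) x = 0) : x = 0 := by
  obtain ⟨lam, hlam⟩ := ex_lam L K
  have h1 : KaehlerDifferential.tensorKaehlerEquivBase L K P (K ⊗[L] P) ((1 : K) ⊗ₜ[L] x) = 0 := by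
    have h2 : KaehlerDifferential.tensorKaehlerEquivBase L K P (K ⊗[L] P) ((1 : K) ⊗ₜ[L] x) =
        (1 : K) • KaehlerDifferential.map L K P (K ⊗[L] P) x := rfl
    rw [h2, hx, smul_zero]
  have h2 : (1 : K) ⊗ₜ[L] x = 0 := by
    rwa [LinearEquiv.map_eq_zero_iff] at h1
  have h3 := congrArg (fun y => TensorProduct.lid L (Ω[P⁄L]) (lam.rTensor (Ω[P⁄L]) y)) h2
  simp only [LinearMap.rTensor_tmul, TensorProduct.lid_tmul, hlam, one_smul, map_zero] at h3
  exact h3

attribute [local instance] Algebra.TensorProduct.rightAlgebra in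
/-- The cross relation descends. -/
theorem cross {L K P : Type} [Field L] [Field K] [Algebra L K] [CommRing P] [Algebra L P]
    (h : SmC K (K ⊗[L] P)) (E : Derivation L P P) (f g : P) :
    E f • KaehlerDifferential.D L P g = E g • KaehlerDifferential.D L P f := by
  rw [← sub_eq_zero]
  refine map_inj L K P _ ?_
  obtain ⟨n, D, s, -, hc⟩ := h
  have e := hc (SBC.bD E) ((1 : K) ⊗ₜ[L] f) ((1 : K) ⊗ₜ[L] g)
  rw [SBC.bD_tmul, SBC.bD_tmul] at e
  rw [map_sub, map_smul, map_smul, KaehlerDifferential.map_D, KaehlerDifferential.map_D,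
    ← algebraMap_smul (K ⊗[L] P) (E f), ← algebraMap_smul (K ⊗[L] P) (E g)]
  exact sub_eq_zero.2 e

/-- The geometric fibres. -/
theorem geo (hKBC : Stmt_KBC) (hKIL : Stmt_KIL) (hKIS : Stmt_KIS) (hSDF : Stmt_SDF) {L : Type}
    [Field L] [CharZero L] {g d : ℕ} {R : Subalgebra L (LaurentSeries L)} {f : L[X]}
    (hd : 1 ≤ d) (hK : Kr g R) (hz : zz L d ∈ R) (hD : Disc d R f) (hf : f.Separable)
    {K : Type} [Field K] [IsAlgClosed K] (φ : L →+* K) :
    TypeS (bc φ (uno R)) ∧ Dual (bc φ (uno R)) ∧ Disc d (bc1 φ R) (f.map φ) := by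
  have hDB := t_ZDB hKBC L K φ g d R hd hK hz
  have h1 : Disc d (bc1 φ R) (f.map φ) := hDB.2.2 f hD
  have h2 : Kr g (bc1 φ R) := by
    have h := (hKBC.2.2.2 hK φ).1
    rwa [bc_uno] at h
  have : CharZero K := charZero_of_injective_ringHom φ.injective
  have hd0 : (d : K) ≠ 0 := Nat.cast_ne_zero.2 (by omega)
  have hkil := hKIL.1 hd (isUnit_iff_ne_zero.2 hd0) h2 hDB.1 h1
  have h3 := hKIS hd (Nat.cast_ne_zero.2 (Nat.factorial_ne_zero d)) h2 hDB.1 hkil hf.map
  rw [bc_uno]
  exact ⟨h3, hSDF (P := uno (bc1 φ R)) h2 h3.1 h3.2, h1⟩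

/-- Smoothness descends. -/
theorem smc_desc (hKBT : Stmt_KBT) (hSTO : Stmt_STO) {I : Type} [Fintype I] [Nonempty I]
    {L K : Type} [Field L] [Field K] [Algebra L K] {g : ℕ} {P : Subalgebra L (KK I L)}
    (hP : IsKr g P) (hPK : IsKr g (bc (algebraMap L K) P))
    (hS : SmC K (bc (algebraMap L K) P)) : SmC L P := by
  obtain ⟨lam, hlam⟩ := ex_lam L K
  obtain ⟨-, -, -, hD, -⟩ := hSTO hP
  obtain ⟨-, -, -, -, hK⟩ := hSTO hPK
  obtain ⟨-, ⟨n, θ, g', hθ, hg', h1⟩, -⟩ := hK hS
  have h2 : (1 : KK I L) ∈ SS P := by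
    rw [← kl_one lam hlam, ← h1, map_sum]
    exact sum_mem fun i _ => kl_SS (hg' i) lam _ (hθ i)
  obtain ⟨m, θ', g₁, hθ', hg₁, h3⟩ := SS_sum h2
  choose D hDe using fun i => hD (θ' i) (hθ' i)
  have hT : SmC K (K ⊗[L] P) := by
    obtain ⟨-, e, -⟩ := hKBT (B := K) hP
    exact (t_SBC t_SCO t_LOC).2.1 e.symm hS
  refine ⟨m, D, fun i => ⟨g₁ i, hg₁ i⟩, ?_, fun E f h => cross hT E f h⟩
  apply Subtype.ext
  rw [AddSubmonoidClass.coe_finsetSum]
  simp only [hDe]
  exact h3

end UGL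

theorem t_UGL (hKBC : Stmt_KBC) (hKBT : Stmt_KBT) (_hKFG : Stmt_KFG) (_hPBC : Stmt_PBC)
    (hSTO : Stmt_STO) (_hSDB : Stmt_SDB) (hSDF : Stmt_SDF) (hKIL : Stmt_KIL)
    (hKIS : Stmt_KIS) : Stmt_UGL := by
  intro L _ _ g d R f hd hK hz hD hf
  have hgeo : ∀ {K : Type} [Field K] [IsAlgClosed K] (φ : L →+* K), TypeS (bc φ (uno R)) ∧
      Dual (bc φ (uno R)) ∧ Disc d (bc1 φ R) (f.map φ) := fun φ =>
    UGL.geo hKBC hKIL hKIS hSDF hd hK hz hD hf φ
  obtain ⟨⟨-, hS⟩, hDu, -⟩ := hgeo (algebraMap L (AlgebraicClosure L))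
  have hPK : IsKr g (bc (algebraMap L (AlgebraicClosure L)) (uno R)) := (hKBC.2.2.2 hK _).1
  have hSL : SmC L (uno R) := UGL.smc_desc hKBT hSTO hK hPK hS
  have hOm : Perp (uno R) ≤ Om (uno R) := by
    intro x hx
    obtain ⟨lam, hlam⟩ := UGL.ex_lam L (AlgebraicClosure L)
    obtain ⟨-, -, -, -, hKs⟩ := hSTO hPK
    have h1 := (hKs hS).2.2.1 hDu (kmap_mem_Perp (algebraMap L (AlgebraicClosure L)) hx)
    have h2 := UGL.kl_Om h1 lam
    rwa [UGL.kl_kmap, hlam, one_smul] at h2
  refine ⟨⟨hK, fun K _ _ φ => Or.inl (hgeo φ).1⟩, hSL, ?_, hOm, hgeo⟩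
  obtain ⟨-, -, -, -, hLs⟩ := hSTO hK
  exact (hLs hSL).2.2.2 hOm

end Pool.Agent.MG.G0
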