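import Pool.Agent.MG.G0.StmtsV
import Pool.Agent.MG.G0.PSI

/-!
# UGN: genericity
-/

open Polynomial

namespace Pool.Agent.MG.G0

namespace UGN

section

open TensorProduct

theorem ext_der {R S T M : Type*} [CommRing R] [CommRing S] [CommRing T] [Algebra R S] [Algebra R T]
  [Algebra S T] [IsScalarTower R S T] [AddCommGroup M] [Module R M] [Module S M] [Module T M]
  [IsScalarTower S T M] [IsScalarTower R S M] [IsScalarTower R T M] [Algebra.FormallyEtale S T] (d : Derivation R S M) :
    ∃ D : Derivation R T M, ∀ s, D (algebraMap S T s) = d s := by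
  let l : KaehlerDifferential R S →ₗ[S] M := d.liftKaehlerDifferential
  let l' : KaehlerDifferential R T →ₗ[T] M := (LinearMap.liftBaseChange T l).comp
    (KaehlerDifferential.tensorKaehlerEquivOfFormallyEtale R S T).symm.toLinearMap
  refine ⟨l'.compDer (KaehlerDifferential.D R T), fun s => ?_⟩
  change l' (KaehlerDifferential.D R T (algebraMap S T s)) = d s
  simp only [l', LinearMap.comp_apply, LinearEquiv.coe_coe]
  rw [KaehlerDifferential.tensorKaehlerEquivOfFormallyEtale_symm_D_algebraMap,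
    LinearMap.liftBaseChange_tmul, one_smul]
  exact d.liftKaehlerDifferential_comp_D s

open scoped IntermediateField.algebraAdjoinAdjoin in
theorem etale {K ι : Type} [Field K] [Algebra ℂ K] (v : ι → K) (hv : IsTranscendenceBasis ℂ v) :
    Algebra.FormallyEtale (Algebra.adjoin ℂ (Set.range v)) K := by
  have hc : CharZero K := charZero_of_injective_algebraMap (algebraMap ℂ K).injective
  have h1 : Algebra.FormallyEtale (Algebra.adjoin ℂ (Set.range v))
      (IntermediateField.adjoin ℂ (Set.range v)) := .of_isLocalization (nonZeroDivisors _)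
  have h0 : Algebra.IsAlgebraic (Algebra.adjoin ℂ (Set.range v)) K := hv.isAlgebraic
  have h2 : Algebra.IsAlgebraic (IntermediateField.adjoin ℂ (Set.range v)) K :=
    hv.isAlgebraic_field
  have h3 : Algebra.FormallyEtale (IntermediateField.adjoin ℂ (Set.range v)) K :=
    Algebra.FormallyEtale.of_isSeparable _ K
  exact .comp _ (IntermediateField.adjoin ℂ (Set.range v)) _

theorem ex_der {K : Type} [Field K] [Algebra ℂ K] {b : ℕ} (r : Fin b → K)
    (hr : AlgebraicIndependent ℂ r) (c : Fin b → K) :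
    ∃ δ : Derivation ℂ K K, ∀ l, δ (r l) = c l := by
  classical
  have hri : Function.Injective r := hr.injective
  obtain ⟨t, hst, ht⟩ := exists_isTranscendenceBasis_superset (R := ℂ) (s := Set.range r)
    hr.coe_range
  let v : t → K := fun x => (x : K)
  have hv : IsTranscendenceBasis ℂ v := ht
  have het := etale v hv
  let e := hv.1.aevalEquiv
  let A0 := Algebra.adjoin ℂ (Set.range v)
  let _ : Module (MvPolynomial t ℂ) K := Module.compHom K ((e : MvPolynomial t ℂ ≃ₐ[ℂ] A0) : MvPolynomial t ℂ →+* A0)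
  have hsm : ∀ (p : MvPolynomial t ℂ) (x : K), p • x = e p • x := fun _ _ => rfl
  have hst' : IsScalarTower ℂ (MvPolynomial t ℂ) K := ⟨fun a p x => by
    rw [hsm, hsm, map_smul, smul_assoc]⟩
  let w : t → K := fun x => if h : ∃ l, r l = (x : K) then c h.choose else 0
  let d0 : Derivation ℂ (MvPolynomial t ℂ) K := MvPolynomial.mkDerivation ℂ w
  let d : Derivation ℂ A0 K :=
    { toFun := fun x => d0 (e.symm x)
      map_add' := fun x y => by rw [map_add, map_add]
      map_smul' := fun a x => by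
        rw [map_smul, RingHom.id_apply]
        exact d0.toLinearMap.map_smul a _
      map_one_eq_zero' := by
        show d0 (e.symm 1) = 0
        rw [map_one, Derivation.map_one_eq_zero]
      leibniz' := fun x y => by
        show d0 (e.symm (x * y)) = x • d0 (e.symm y) + y • d0 (e.symm x)
        rw [map_mul, Derivation.leibniz, hsm, hsm, e.apply_symm_apply, e.apply_symm_apply] }
  obtain ⟨D, hD⟩ := ext_der (R := ℂ) (S := A0) (T := K) d
  refine ⟨D, fun l => ?_⟩
  have hl : r l ∈ t := hst (Set.mem_range_self l)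
  have h1 : (e (MvPolynomial.X ⟨r l, hl⟩) : K) = r l := by
    rw [AlgebraicIndependent.aevalEquiv_apply_coe, MvPolynomial.aeval_X]
  have h2 : D (r l) = d (e (MvPolynomial.X ⟨r l, hl⟩)) := by
    rw [← hD]
    congr 1
    exact h1.symm
  have h3 : d (e (MvPolynomial.X ⟨r l, hl⟩)) = w ⟨r l, hl⟩ := by
    show d0 (e.symm (e (MvPolynomial.X ⟨r l, hl⟩))) = _
    rw [e.symm_apply_apply]
    exact MvPolynomial.mkDerivation_X ℂ w _
  rw [h2, h3]
  have hex : ∃ l', r l' = r l := ⟨l, rfl⟩
  have h4 : w ⟨r l, hl⟩ = c hex.choose := dif_pos hex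
  rw [h4, hri hex.choose_spec]

end

/-! ### polynomials -/

section

variable {K : Type} [Field K] (δ : Derivation ℤ K K)

theorem pder_one : pder δ (1 : K[X]) = 0 := by
  ext n
  rw [pder_coeff, coeff_one, coeff_zero]
  split_ifs
  · exact δ.map_one_eq_zero
  · exact map_zero δ

theorem pder_X_sub (c : K) (q : K[X]) :
    pder δ ((X - C c) * q) = (X - C c) * pder δ q - C (δ c) * q := by
  ext n
  rw [pder_coeff, sub_mul, coeff_sub, coeff_sub, sub_mul, coeff_sub, coeff_C_mul, coeff_C_mul,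
    coeff_C_mul, pder_coeff, map_sub, Derivation.leibniz, smul_eq_mul, smul_eq_mul]
  cases n with
  | zero =>
    rw [coeff_X_mul_zero, coeff_X_mul_zero, map_zero]
    ring
  | succ n =>
    rw [coeff_X_mul, coeff_X_mul, pder_coeff]
    ring

theorem ex_v {b : ℕ} (r : Fin b → K) (a : K[X]) (h : ∀ l, δ (r l) = a.eval (r l))
    (s : Finset (Fin b)) : ∃ v : K[X], pder δ (∏ l ∈ s, (X - C (r l))) +
      a * derivative (∏ l ∈ s, (X - C (r l))) = v * ∏ l ∈ s, (X - C (r l)) := by
  classical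
  induction s using Finset.induction_on with
  | empty =>
    refine ⟨0, ?_⟩
    rw [Finset.prod_empty, pder_one, derivative_one]
    ring
  | insert l s hl ih =>
    obtain ⟨v, hv⟩ := ih
    obtain ⟨u, hu⟩ := X_sub_C_dvd_sub_C_eval (a := r l) (p := a)
    refine ⟨v + u, ?_⟩
    rw [Finset.prod_insert hl, pder_X_sub, h l, derivative_mul, derivative_sub, derivative_X,
      derivative_C]
    have h1 : a = C (eval (r l) a) + (X - C (r l)) * u := by rw [← hu]; ring
    linear_combination (X - C (r l)) * hv + (∏ l ∈ s, (X - C (r l))) * h1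

end

/-! ### series -/

section

variable {K : Type} [Field K]

theorem ld_zz {d : ℕ} : ld (zz K d) = HahnSeries.single (-((d : ℤ) + 1)) (-(d : K)) := by
  ext m
  rw [ld_coeff, zz]
  by_cases hm : m = -((d : ℤ) + 1)
  · subst hm
    have h3 : -((d : ℤ) + 1) + 1 = -(d : ℤ) := by ring
    rw [h3, HahnSeries.coeff_single_same, HahnSeries.coeff_single_same]
    push_cast
    ring
  · rw [HahnSeries.coeff_single_of_ne hm, HahnSeries.coeff_single_of_ne (by omega), mul_zero]

theorem one_eq : (HahnSeries.single (0 : ℤ) (1 : K) : LaurentSeries K) = 1 := rfl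

theorem ui_mul {d : ℕ} (hd : (d : K) ≠ 0) :
    (HahnSeries.single ((d : ℤ) + 1) (-(d : K)⁻¹) : LaurentSeries K) * ld (zz K d) = 1 := by
  have h3 : (d : ℤ) + 1 + -((d : ℤ) + 1) = 0 := by ring
  rw [ld_zz, HahnSeries.single_mul_single, ← one_eq, h3, neg_mul_neg, inv_mul_cancel₀ hd]

theorem dz_mul {d : ℕ} (hd : 0 < d) (hdk : (d : K) ≠ 0) (h : LaurentSeries K) :
    dz K d 1 h * ld (zz K d) = ld h := by
  have h1 := (t_PSI (A := K) d hd (IsUnit.mk0 _ hdk)).1 h
  have h2 : ld (zz K d) = (d : K) • HahnSeries.single (-((d : ℤ) + 1)) (-1 : K) := by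
    rw [ld_zz]
    ext m
    rw [HahnSeries.coeff_smul, HahnSeries.coeff_single, HahnSeries.coeff_single]
    split_ifs
    · rw [smul_eq_mul, mul_neg_one]
    · rw [smul_zero]
  rw [h2, mul_smul_comm, ← smul_mul_assoc, h1, neg_mul, mul_comm _ (ld h), mul_assoc,
    HahnSeries.single_mul_single]
  have h3 : (d : ℤ) + 1 + -((d : ℤ) + 1) = 0 := by ring
  have h4 : (HahnSeries.single (0 : ℤ) (-1 : K) : LaurentSeries K) = -1 := by
    rw [← one_eq, HahnSeries.single_neg]
  rw [h3, one_mul, h4]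
  ring

theorem mul_single_mem {y : LaurentSeries K} {n : ℤ} (hy : y ∈ Po K n) (c : K) :
    HahnSeries.single n c * y ∈ Po K 0 := by
  intro m hm
  have h1 : m = (m - n) + n := by ring
  rw [mul_comm, h1, HahnSeries.coeff_mul_single_add, hy _ (by omega), zero_mul]

end

end UGN

open UGN in
theorem t_UGN (hSCO : Stmt_SCO) (hSKK : Stmt_SKK) (hKIL : Stmt_KIL) (hKIS : Stmt_KIS)
    (hKGP : Stmt_KGP) (hBPB : Stmt_BPB) (hCYC : Stmt_CYC) (hUZT : Stmt_UZT) : Stmt_UGN := by
  intro K _ _ _ g d b R r hd hgd hKr hz hDisc hr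
  have hc : CharZero K := charZero_of_injective_algebraMap (algebraMap ℂ K).injective
  have hdK : (d : K) ≠ 0 := Nat.cast_ne_zero.2 (by omega)
  have hdf : ((d.factorial : ℕ) : K) ≠ 0 := Nat.cast_ne_zero.2 d.factorial_ne_zero
  have h2d : ((2 * d : ℕ) : K) ≠ 0 := Nat.cast_ne_zero.2 (by omega)
  have hinj : Function.Injective r := hr.injective
  have hsep : (∏ l, (X - C (r l)) : K[X]).Separable := separable_prod_X_sub_C_iff.2 hinj
  have hKil := hKIL.1 hd (IsUnit.mk0 _ hdK) hKr hz hDisc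
  have hSm : SmC K (uno R) := (hKIS hd hdf hKr hz hKil hsep).2
  have hCyc : Cyc d R := (hCYC (by omega) hdK R hKr hz).2 b r hinj hDisc
  obtain ⟨-, hU, -⟩ := hUZT hd hdf hKr hz hDisc hsep
  intro δ
  obtain ⟨-, -, hlift⟩ := hSCO.2 hSm
  obtain ⟨E', hE'⟩ := hlift (KK Unit K) (MM (uno R)) (mk (uno R)) (mk_surj _) δ
  obtain ⟨θ, hθ, -⟩ := (hSKK hKr).2 hSm E'
  -- the decomposition
  have hdense : ∃ p ∈ R, θ () * ld (zz K d) - p ∈ Po K ((d : ℤ) + 1) := by
    rcases Nat.eq_zero_or_pos g with h0 | h0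
    · subst h0
      obtain ⟨-, L, -, hL⟩ := Kr_iff.1 hKr
      obtain ⟨p, hp, hp'⟩ := (hL (θ () * ld (zz K d))).1 (Subsingleton.elim _ _)
      exact ⟨p, hp, fun m hm => hp' m (by omega)⟩
    · obtain ⟨p, hp, hp'⟩ := hKGP h0 hKr (fun _ => θ () * ld (zz K d))
      refine ⟨p (), hp, fun m hm => ?_⟩
      exact hp' () m (by omega)
  obtain ⟨p, hp, hpo⟩ := hdense
  obtain ⟨a, θ', hθ', hpa⟩ := hU p hp
  set ui : LaurentSeries K := HahnSeries.single ((d : ℤ) + 1) (-(d : K)⁻¹) with hui
  have hu1 : ui * ld (zz K d) = 1 := ui_mul hdK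
  set o : LaurentSeries K := ui * (θ () * ld (zz K d) - p) with ho
  have hoPo : o ∈ Po K 0 := mul_single_mem hpo _
  have hθo : θ () = zpol K d a * ui + θ' + o := by
    have h1 : o = θ () * (ui * ld (zz K d)) - ui * p := by rw [ho]; ring
    rw [hu1, mul_one] at h1
    have h2 : ui * p = zpol K d a * ui + θ' * (ui * ld (zz K d)) := by rw [hpa]; ring
    rw [hu1, mul_one] at h2
    rw [h1, h2]
    ring
  obtain ⟨D0, hD0⟩ := ex_der r hr fun l => a.eval (r l)
  obtain ⟨v, hv⟩ := ex_v (D0.restrictScalars ℤ) r a hD0 Finset.univ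
  have hB := (hBPB (by omega) h2d R hKr hz hCyc _ hDisc (D0.restrictScalars ℤ) a ⟨v, hv⟩).1
  refine ⟨-D0, fun _ => o, mem_Pol_unit.2 hoPo, fun f => ?_⟩
  rw [← hE' f, ← map_add, mk_eq, mem_uno, hθ f]
  have hx : (f : KK Unit K) () ∈ R := f.2
  have h1 := hB _ hx
  have h2 := hθ' _ hx
  have h3 := dz_mul (by omega : 0 < d) hdK ((f : KK Unit K) ())
  have h4 : (kadd ((-D0 : Derivation ℂ K K) : K →+ K) (f : KK Unit K)) () =
      -cder (D0.restrictScalars ℤ) ((f : KK Unit K) ()) := by
    ext m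
    rw [HahnSeries.coeff_neg]
    rfl
  have h5 : (θ * dd (f : KK Unit K) -
      (kadd ((-D0 : Derivation ℂ K K) : K →+ K) (f : KK Unit K) +
        (fun _ => o) * dd (f : KK Unit K)) : KK Unit K) () =
      (cder (D0.restrictScalars ℤ) ((f : KK Unit K) ()) +
        zpol K d a * dz K d 1 ((f : KK Unit K) ())) + θ' * ld ((f : KK Unit K) ()) := by
    rw [Pi.sub_apply, Pi.add_apply, Pi.mul_apply, Pi.mul_apply, h4, hθo]
    change (zpol K d a * ui + θ' + o) * ld ((f : KK Unit K) ()) - (_ + o * ld _) = _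
    have h6 : ui * ld ((f : KK Unit K) ()) = dz K d 1 ((f : KK Unit K) ()) := by
      rw [← h3, mul_comm (dz K d 1 _), ← mul_assoc, hu1, one_mul]
    rw [← h6]
    ring
  rw [h5]
  exact add_mem h1 h2

end Pool.Agent.MG.G0
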