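import Pool.Agent.MG.G0.StmtsV
import Pool.Agent.MG.G0.KAU

/-!
# UH1: the value at the zero covector is integral and reduces to the value of the reduction
-/

open Polynomial

namespace Pool.Agent.MG.G0

namespace UH1

section

variable {A : Type} [CommRing A]

/-- Scaling at one puncture. -/
noncomputable def kk (c : Aˣ) : KK Unit A ≃ₐ[A] KK Unit A := AlgEquiv.piCongrRight fun _ => scE c

theorem kk_apply (c : Aˣ) (f : KK Unit A) (i : Unit) : kk c f i = sc c (f i) := rfl

theorem kk_pol (c : Aˣ) (n : ℤ) (f : KK Unit A) : kk c f ∈ Pol Unit A n ↔ f ∈ Pol Unit A n := by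
  constructor
  · intro h i m hm
    have h1 := h i m hm
    rw [kk_apply, sc_coeff] at h1
    exact (Units.mul_right_eq_zero _).1 h1
  · intro h i m hm
    rw [kk_apply, sc_coeff, h i m hm, mul_zero]

theorem sc_inj (c : Aˣ) {f h : LaurentSeries A} (e : sc c f = sc c h) : f = h :=
  (scE c).injective e

theorem mem_iff (c : Aˣ) (R : Subalgebra A (LaurentSeries A)) (f : KK Unit A) :
    f ∈ uno R ↔ kk c f ∈ uno (R.map (sc c)) := by
  rw [mem_uno, mem_uno, kk_apply, Subalgebra.mem_map]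
  constructor
  · intro h
    exact ⟨f (), h, rfl⟩
  · rintro ⟨h, hh, e⟩
    rwa [← sc_inj c e]

theorem kr {g : ℕ} (c : Aˣ) {R : Subalgebra A (LaurentSeries A)} (h : Kr g R) :
    Kr g (R.map (sc c)) := by
  have h1 := t_KAU.1 (uno R) (kk c) (kk_pol c 0) h
  have h2 : (uno R).map (kk c : KK Unit A →ₐ[A] KK Unit A) = uno (R.map (sc c)) := by
    ext f
    rw [Subalgebra.mem_map]
    constructor
    · rintro ⟨h, hh, rfl⟩
      exact (mem_iff c R h).1 hh
    · intro hf
      refine ⟨(kk c).symm f, (mem_iff c R _).2 ?_, (kk c).apply_symm_apply f⟩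
      rw [AlgEquiv.apply_symm_apply]
      exact hf
  rw [h2] at h1
  exact h1

theorem zz_mem (c : Aˣ) (d : ℕ) {R : Subalgebra A (LaurentSeries A)} (h : zz A d ∈ R) :
    zz A d ∈ R.map (sc c) := by
  have h1 : sc c (zz A d) ∈ R.map (sc c) := ⟨_, h, rfl⟩
  rw [sc_zz] at h1
  have h2 := (R.map (sc c)).smul_mem h1 (((c ^ (d : ℤ))⁻¹ : Aˣ) : A)
  rwa [smul_smul, Units.inv_mul, one_smul] at h2

end

/-- The value at `0` depends only on the ring. -/
theorem val_congr {g : ℕ} (E : Ev g) {A I : Type} [CommRing A] [Algebra ℂ A] [Fintype I]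
    {P P' : Subalgebra A (KK I A)} (h : P = P') : E.Φ A I P 0 = E.Φ A I P' 0 := by
  subst h
  rfl

theorem nat0 {g : ℕ} (E : Ev g) {A B I : Type} [CommRing A] [CommRing B] [Algebra ℂ A]
    [Algebra ℂ B] [Fintype I] [Nonempty I] (φ : A →ₐ[ℂ] B) (P : Subalgebra A (KK I A))
    (h : Good g P) : E.Φ B I (bc (φ : A →+* B) P) 0 = φ (E.Φ A I P 0) := by
  refine E.nat φ P h 0 0 fun D D' _ => ?_
  change (0 : B) = φ ((0 : A))
  rw [map_zero]

theorem aut0 {g : ℕ} (E : Ev g) {A : Type} [CommRing A] [Algebra ℂ A]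
    {R : Subalgebra A (LaurentSeries A)} (c : Aˣ) (h : Good g (uno R))
    (h' : Good g (uno (R.map (sc c)))) :
    E.Φ A Unit (uno (R.map (sc c))) 0 = E.Φ A Unit (uno R) 0 :=
  E.aut (kk c) (kk_pol c) (uno R) (uno (R.map (sc c))) h h' (mem_iff c R) 0 0 fun _ _ _ => rfl

end UH1

theorem t_UH1 (hUGL : Stmt_UGL) (hUGD : Stmt_UGD) : Stmt_UH1 := by
  intro k L _ _ _ _ _ _ _ g d R f E hg hd hkr hz hdisc hsep v hv
  haveI : CharZero k := charZero_of_injective_algebraMap (algebraMap ℂ k).injective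
  haveI : CharZero L := charZero_of_injective_algebraMap (algebraMap ℂ L).injective
  letI : Algebra ℂ v.O := ((algebraMap k v.O).comp (algebraMap ℂ k)).toAlgebra
  have hM := (hUGD v.M hg hd hv).1
  have hR := (hUGL (show 1 ≤ d by omega) hkr hz hdisc hsep).1
  have hR' := (hUGL (show 1 ≤ d by omega) (UH1.kr v.c hkr) (UH1.zz_mem v.c d hz) v.M.disc
    v.M.sep).1
  let φ : v.O →ₐ[ℂ] L :=
    { algebraMap v.O L with
      commutes' := fun z => by
        change algebraMap v.O L (algebraMap k v.O (algebraMap ℂ k z)) = algebraMap ℂ L z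
        rw [← IsScalarTower.algebraMap_apply k v.O L, ← IsScalarTower.algebraMap_apply ℂ k L] }
  let ψ : v.O →ₐ[ℂ] k :=
    { (v.M.rs : v.O →+* k) with
      commutes' := fun z => by
        change v.M.rs (algebraMap k v.O (algebraMap ℂ k z)) = algebraMap ℂ k z
        rw [AlgHom.commutes]
        rfl }
  refine ⟨E.Φ v.O Unit (uno v.M.P) 0, ?_, ?_⟩
  · have h1 := UH1.nat0 E φ (uno v.M.P) hM
    have h2 : bc (φ : v.O →+* L) (uno v.M.P) = uno (R.map (sc v.c)) := by
      rw [bc_uno]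
      exact congrArg uno v.M.bc
    rw [UH1.val_congr E h2, UH1.aut0 E v.c hR hR'] at h1
    exact h1.symm
  · have h1 := UH1.nat0 E ψ (uno v.M.P) hM
    have h2 : bc (ψ : v.O →+* k) (uno v.M.P) = uno v.M.Pb := by
      rw [bc_uno]
      rfl
    rw [UH1.val_congr E h2] at h1
    exact h1.symm

end Pool.Agent.MG.G0
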