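import Pool.Agent.MG.G0.DefsQ
import Pool.Agent.MG.G0.StmtsHV

/-!
# Statements on covectors and polarisation (PAPER.md, COVQ, POL; PAPER_Q.md)
-/

open TensorProduct

namespace Pool.Agent.MG.G0

/-! ## Base change, smooth curves -/

/-- CNT: base change of covectors. -/
def Stmt_CNT : Prop :=
  ∀ {I A B : Type} [Fintype I] [CommRing A] [CommRing B] (φ : A →+* B)
    (P : Subalgebra A (KK I A)),
    (∀ q : QR P, CompatL φ (cov P q) (cov (bc φ P) (bcR φ P q))) ∧
    ∀ (ω : EE P) (η : DR P), bcR φ P (twR P ω η) = twR (bc φ P) (bcE φ P ω) (bcDR φ P η)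

/-- CSM: on a smooth curve all first order deformations are given by vector fields. -/
def Stmt_CSM : Prop :=
  ∀ {I A : Type} [Fintype I] [CommRing A] {g : ℕ} {P : Subalgebra A (KK I A)}, IsKr g P →
    SmC A P → (∀ D : DD P, ∃ θ : KK I A, D = tder P θ) ∧ ∀ q : QD P, Lq P q = 0 ↔ qk P q = 0

/-- GBC: base change of good Krichever rings. -/
def Stmt_GBC : Prop :=
  ∀ {I A B : Type} [Fintype I] [Nonempty I] [CommRing A] [CommRing B] (φ : A →+* B) (g : ℕ)
    (P : Subalgebra A (KK I A)), Good g P → Good g (bc φ P)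

/-- GRX: the change of the index set and the scaling of the coordinate. -/
def Stmt_GRX : Prop :=
  (∀ {I I' A : Type} [Fintype I] [Fintype I'] [Nonempty I] [CommRing A] (e : I' ≃ I) (g : ℕ)
    (P : Subalgebra A (KK I A)), Good g P → Good g (reix e P)) ∧
  ∀ {A : Type} [CommRing A] (c : Aˣ) (g : ℕ) (R : Subalgebra A (LaurentSeries A)),
    Good g (uno R) → Good g (uno (R.map (sc c)))

/-! ## Polarisation -/

/-- PSU: substitutions in `Fx`. -/
def Stmt_PSU : Prop :=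
  ∀ {g : ℕ} (E : Ev g) {I A D : Type} [Fintype I] [Nonempty I] [CommRing A] [Algebra ℂ A]
    [CommRing D] [Algebra ℂ D] (P : Subalgebra A (KK I A)), Good g P →
    ∀ {ι : Type} [Fintype ι] (q : ι → QR P) (φ : A →+* D) (σ : MvPolynomial ι A →ₐ[ℂ] D),
      (∀ a, σ (MvPolynomial.C a) = φ a) →
      E.Φ D I (bc φ P) (cov (bc φ P) (∑ i, σ (MvPolynomial.X i) • bcR φ P (q i))) =
        σ (Fx E P q)

/-- POL: polarisation. -/
def Stmt_POL : Prop :=
  ∀ {g : ℕ} (E : Ev g) {I A : Type} [Fintype I] [Nonempty I] [CommRing A] [Algebra ℂ A]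
    (P : Subalgebra A (KK I A)), Good g P →
    (∀ {B : Type} [CommRing B] [Algebra ℂ B] (φ : A →ₐ[ℂ] B) {k : ℕ} (q : Fin k → QR P),
      Fk E (bc (φ : A →+* B) P) (fun i => bcR (φ : A →+* B) P (q i)) = φ (Fk E P q)) ∧
    (∀ k : ℕ, ∃ M : MultilinearMap A (fun _ : Fin k => QR P) A, ∀ q, M q = Fk E P q) ∧
    (∀ {k : ℕ} (q : Fin k → QR P) (i : Fin k),
      cov (bc (MvPolynomial.C (R := A) (σ := Fin k)) P)
        (bcR (MvPolynomial.C (R := A) (σ := Fin k)) P (q i)) = 0 → Fk E P q = 0) ∧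
    ∀ q : QR P, (∀ m : ℕ, 1 ≤ m → Fk E P (fun _ : Fin m => q) = 0) →
      E.Φ A I P (cov P q) = E.Φ A I P 0

/-- PTO: independence of the presentation, after multiplication by `t`. -/
def Stmt_PTO : Prop :=
  ∀ {g : ℕ} (E : Ev g) {I A : Type} [Fintype I] [Nonempty I] [CommRing A] [Algebra ℂ A]
    (P : Subalgebra A (KK I A)), Good g P → ∀ (t : A) (k : ℕ),
    (∀ D : DD (bc (MvPolynomial.C (R := A) (σ := Fin k)) P), ∃ θ : KK I (MvPolynomial (Fin k) A),
      MvPolynomial.C (σ := Fin k) t • D = tder _ θ) → Ivk E P t k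

/-- IVS: the hypothesis of PTO on smooth curves, and descent along injective maps. -/
def Stmt_IVS : Prop :=
  (∀ {g : ℕ} (E : Ev g) {I A : Type} [Fintype I] [Nonempty I] [CommRing A] [Algebra ℂ A]
    (P : Subalgebra A (KK I A)), Good g P → SmC A P → ∀ k : ℕ, Ivk E P 1 k) ∧
  ∀ {g : ℕ} (E : Ev g) {I A B : Type} [Fintype I] [Nonempty I] [CommRing A] [Algebra ℂ A]
    [CommRing B] [Algebra ℂ B] (P : Subalgebra A (KK I A)), Good g P → ∀ φ : A →ₐ[ℂ] B,
    Function.Injective φ → ∀ (t : A) (k : ℕ), Ivk E (bc (φ : A →+* B) P) (φ t) k → Ivk E P t k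

/-! ## Forgetting punctures -/

/-- PFB: forgetting punctures: the ring without poles at `J`, injectivity, base change. -/
def Stmt_PFB : Prop :=
  ∀ {I J A : Type} [Fintype I] [Nonempty I] [Fintype J] [CommRing A] {h : ℕ}
    {W : Subalgebra A (KK (I ⊕ J) A)}, IsKr h W → Dn W →
    IsKr h (Rem W) ∧ Forget W (Rem W) ∧
    ∀ {B : Type} [CommRing B] (φ : A →+* B), Dn (bc φ W) ∧ bc φ (Rem W) = Rem (bc φ W) ∧
      Forget (bc φ W) (bc φ (Rem W))

/-- EEF: regular differentials and forgetting punctures. -/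
def Stmt_EEF : Prop :=
  ∀ {I J A : Type} [Fintype I] [Nonempty I] [Fintype J] [CommRing A] {h : ℕ}
    {P : Subalgebra A (KK I A)} {W : Subalgebra A (KK (I ⊕ J) A)}, IsKr h W → Forget W P →
    (∀ ω ∈ EE W, atI ω ∈ EE P) ∧
    (∀ ω ∈ Perp W, atI ω = 0 → atJ ω ∈ Pol J A 0 → ω = 0) ∧
    ∀ ω ∈ EE P, ∃! ω' : KK (I ⊕ J) A, ω' ∈ EE W ∧ atI ω' = ω

/-- POF: the polarisation and forgetting punctures. -/
def Stmt_POF : Prop :=
  ∀ {g : ℕ} (E : Ev g) {I J A : Type} [Fintype I] [Nonempty I] [Fintype J] [CommRing A]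
    [Algebra ℂ A] (P : Subalgebra A (KK I A)) (W : Subalgebra A (KK (I ⊕ J) A)), Good g W →
    Good g P → Forget W P → ∀ {k : ℕ} (q : Fin k → QR P) (q' : Fin k → QR W),
      (∀ i, ((q i : QD P), (q' i : QD W)) ∈ QF P W) → Fk E W q' = Fk E P q

/-- POX: the polarisation and the change of the index set. -/
def Stmt_POX : Prop :=
  ∀ {g : ℕ} (E : Ev g) {I I' A : Type} [Fintype I] [Nonempty I] [Fintype I'] [Nonempty I']
    [CommRing A] [Algebra ℂ A] (e : I' ≃ I) (P : Subalgebra A (KK I A))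
    (P' : Subalgebra A (KK I' A)), Good g P → Good g P' → P' = reix e P →
    ∀ {k : ℕ} (q : Fin k → QR P) (q' : Fin k → QR P'),
      (∀ i, ((q i : QD P), (q' i : QD P')) ∈ QI e P P') → Fk E P' q' = Fk E P q

/-- POA: the polarisation and changes of the coordinates. -/
def Stmt_POA : Prop :=
  ∀ {g : ℕ} (E : Ev g) {I A : Type} [Fintype I] [Nonempty I] [CommRing A] [Algebra ℂ A]
    {k : ℕ} (α : KK I A ≃ₐ[A] KK I A)
    (α' : KK I (MvPolynomial (Fin k) A) ≃ₐ[MvPolynomial (Fin k) A] KK I (MvPolynomial (Fin k) A)),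
    (∀ (n : ℤ) (f : KK I A), α f ∈ Pol I A n ↔ f ∈ Pol I A n) →
    (∀ (n : ℤ) (f : KK I (MvPolynomial (Fin k) A)), α' f ∈ Pol I (MvPolynomial (Fin k) A) n ↔
      f ∈ Pol I (MvPolynomial (Fin k) A) n) →
    (∀ f : KK I A, kmap (MvPolynomial.C (R := A) (σ := Fin k)) (α f) =
      α' (kmap (MvPolynomial.C (R := A) (σ := Fin k)) f)) →
    ∀ P P' : Subalgebra A (KK I A), Good g P → Good g P' → (∀ f, f ∈ P ↔ α f ∈ P') →
    ∀ (q : Fin k → QR P) (q' : Fin k → QR P'),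
      (∀ i, ((q i : QD P), (q' i : QD P')) ∈ QA α P P') → Fk E P' q' = Fk E P q

end Pool.Agent.MG.G0
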