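import Pool.Agent.MG.G0.StmtsV
import Pool.Agent.MG.G0.StmtsNP
import Pool.Agent.MG.G0.StmtsHV
import Pool.Agent.MG.G0.StmtsM
import Pool.Agent.MG.G0.StmtsCQ
import Pool.Agent.MG.G0.StmtsK

/-!
# UIN: the polarised value is integral at the places with smooth or nodal reduction
-/

open Polynomial

namespace Pool.Agent.MG.G0

namespace UINaux

/-- The hypothesis of `HV2` on smooth curves. -/
theorem hyp2 (hSDB : Stmt_SDB) (hCSM : Stmt_CSM) (hKBC : Stmt_KBC) {A I : Type} [CommRing A]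
    [Fintype I] [Nonempty I] {g : ℕ} {P : Subalgebra A (KK I A)} (hK : IsKr g P) (hS : SmC A P)
    (t : A) {B : Type} [CommRing B] (φ : A →+* B) (D : DD (bc φ P)) :
    ∃ θ : KK I B, φ t • D = tder (bc φ P) θ :=
  (hCSM (hKBC.2.2.2 hK φ).1 (hSDB hK hS φ).1).1 (φ t • D)

theorem bc1_comp (hKBC : Stmt_KBC) {A B C : Type} [CommRing A] [CommRing B] [CommRing C]
    (φ : A →+* B) (ψ : B →+* C) (R : Subalgebra A (LaurentSeries A)) :
    bc1 (ψ.comp φ) R = bc1 ψ (bc1 φ R) := by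
  have h := hKBC.2.1 φ ψ (uno R)
  rw [bc_uno, bc_uno, bc_uno] at h
  have h2 := congrArg duo h
  rwa [duo_uno, duo_uno] at h2

theorem Kr_bc1 (hKBC : Stmt_KBC) {A B : Type} [CommRing A] [CommRing B] {g : ℕ}
    {R : Subalgebra A (LaurentSeries A)} (hR : Kr g R) (φ : A →+* B) : Kr g (bc1 φ R) := by
  have h := (hKBC.2.2.2 hR φ).1
  rwa [bc_uno] at h

theorem zz_bc1 {A B : Type} [CommRing A] [CommRing B] {d : ℕ}
    {R : Subalgebra A (LaurentSeries A)} (hz : zz A d ∈ R) (φ : A →+* B) :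
    zz B d ∈ bc1 φ R := by
  rw [← lmap_zz φ d]
  exact Algebra.subset_adjoin ⟨_, hz, rfl⟩

/-- Divisibility at a place with nodal reduction. -/
theorem nod (hNPL : Stmt_NPL) (hMSM : Stmt_MSM) (hKBC : Stmt_KBC) (hHV4 : Stmt_HV4)
    (hLOGF : Stmt_LOGF) {κ O L : Type} [Field κ] [IsAlgClosed κ] [CharZero κ] [CommRing O]
    [IsDomain O] [Field L] [Algebra κ O] [Algebra ℂ O] [Algebra O L] {g d : ℕ}
    {R : Subalgebra L (LaurentSeries L)} (E : Ev g) (M : Mdl κ O L g d R) (hg : 3 ≤ g)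
    (hd : 2 ≤ d) (hG : Good g (uno M.P)) {c : κ} {s₀ u : O} {h : O[X]} (hc : Dbl M.fb c)
    (hGr : GRk d M.Pb c (d - 1)) (hs : M.rs s₀ = c) (hu : IsUnit u)
    (hf : M.f = ((X - C s₀) ^ 2 - C (M.π ^ 2 * u)) * h) {t : O} (ht : 4 * t = M.π ^ 2 * u)
    {m : ℕ} (v v' : Fin m → KK Unit O) (hv : ∀ i, v i ∈ EE (uno M.P)) {y : O}
    (hy : HV E (uno M.P) t v v' y) : t ^ m ∣ y := by
  obtain ⟨g, rfl⟩ : ∃ g', g = g' + 1 := ⟨g - 1, by omega⟩
  have h4 : IsUnit (4 : O) := by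
    have h1 : IsUnit ((4 : κ)) := isUnit_iff_ne_zero.2 (by norm_num)
    have h2 := h1.map (algebraMap κ O)
    rwa [map_ofNat] at h2
  have hπ0 : M.rs M.π = 0 := M.rsπ
  -- the quotient
  set N : ℕ := 2 * m + 2 with hN
  let J : Ideal O := Ideal.span {M.π ^ N}
  let ρ : O →ₐ[ℂ] (O ⧸ J) := Ideal.Quotient.mkₐ ℂ J
  have hρs : Function.Surjective ρ := Ideal.Quotient.mk_surjective
  have hρ0 : ∀ x : O, ρ x = 0 ↔ M.π ^ N ∣ x := by
    intro x
    refine (Ideal.Quotient.eq_zero_iff_mem (I := J)).trans ?_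
    exact Ideal.mem_span_singleton
  have hJ : ∀ a : O, a ∈ J → M.rs a = 0 := by
    intro a ha
    obtain ⟨b, rfl⟩ := Ideal.mem_span_singleton.1 ha
    rw [map_mul, map_pow, hπ0, zero_pow (by omega), zero_mul]
  let r : (O ⧸ J) →ₐ[κ] κ := Ideal.Quotient.liftₐ J M.rs hJ
  have hr : ∀ x : O, r (ρ x) = M.rs x := fun x => rfl
  have hker : RingHom.ker r = Ideal.span {ρ M.π} := by
    ext x
    obtain ⟨x, rfl⟩ := hρs x
    rw [RingHom.mem_ker, hr, Ideal.mem_span_singleton]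
    constructor
    · intro hx
      exact map_dvd ρ (M.ker x hx)
    · rintro ⟨b, hb⟩
      obtain ⟨b, rfl⟩ := hρs b
      rw [← hr, hb, map_mul, hr, hπ0, zero_mul]
  have hfg : (RingHom.ker r).FG := by
    rw [hker]
    exact ⟨{ρ M.π}, by simp⟩
  have hnil : ∃ n : ℕ, RingHom.ker r ^ n = ⊥ := by
    refine ⟨N, ?_⟩
    rw [hker, Ideal.span_singleton_pow, ← map_pow, (hρ0 _).2 dvd_rfl]
    exact Ideal.span_singleton_eq_bot.2 rfl
  have hfac : ((d.factorial : ℕ) : κ) ≠ 0 := Nat.cast_ne_zero.2 (Nat.factorial_ne_zero d)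
  -- the plumbing structure
  have hD := (hMSM M hd hfac).2.1 (ρ : O →+* (O ⧸ J)) ⟨N, (hρ0 _).2 dvd_rfl⟩
  have hD' : Disc d (bc1 (ρ : O →+* (O ⧸ J)) M.P)
      (((X - C (ρ s₀)) ^ 2 - C (4 * ρ t)) * h.map (ρ : O →+* (O ⧸ J))) := by
    have e : M.f.map (ρ : O →+* (O ⧸ J)) =
        ((X - C (ρ s₀)) ^ 2 - C (4 * ρ t)) * h.map (ρ : O →+* (O ⧸ J)) := by
      rw [hf, ← ht]
      simp only [Polynomial.map_mul, Polynomial.map_sub, Polynomial.map_pow, Polynomial.map_X,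
        Polynomial.map_C, RingHom.coe_coe]
      rw [map_mul ρ, map_ofNat ρ]
    rwa [e] at hD
  have hrρ : ((r : (O ⧸ J) →ₐ[κ] κ) : (O ⧸ J) →+* κ).comp (ρ : O →+* (O ⧸ J)) =
      (M.rs : O →+* κ) := rfl
  have hhm : (h.map (ρ : O →+* (O ⧸ J))).map ((r : (O ⧸ J) →ₐ[κ] κ) : (O ⧸ J) →+* κ) =
      h.map (M.rs : O →+* κ) := by
    rw [Polynomial.map_map, hrρ]
  obtain ⟨h', hh1, hh2, hh3⟩ := hc
  have hheq : h.map (M.rs : O →+* κ) = h' := by
    have e : M.fb = (X - C c) ^ 2 * h.map (M.rs : O →+* κ) := by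
      rw [Mdl.fb, hf]
      simp only [Polynomial.map_mul, Polynomial.map_sub, Polynomial.map_pow, Polynomial.map_X,
        Polynomial.map_C, RingHom.coe_coe, hs]
      rw [map_mul M.rs, map_pow M.rs, hπ0, zero_pow two_ne_zero, zero_mul, C_0, sub_zero]
    rw [e] at hh1
    exact mul_left_cancel₀ (pow_ne_zero 2 (X_sub_C_ne_zero c)) hh1
  have hrt : M.rs t = 0 := by
    have e := congrArg M.rs ht
    rw [map_mul, map_mul, map_pow, hπ0, zero_pow (by norm_num), zero_mul, map_ofNat] at e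
    exact (mul_eq_zero.1 e).resolve_left (by norm_num)
  obtain ⟨R₁, hR1, hR2, hR3, hR4, pt, hdis, hPT⟩ := hNPL r hnil hfg hd hfac
    (Kr_bc1 hKBC M.kr (ρ : O →+* (O ⧸ J))) (zz_bc1 M.z (ρ : O →+* (O ⧸ J))) hD'
    ((hr t).trans hrt) (by rw [hhm, hheq]; exact hh3)
    (by
      rw [hhm, hheq, hr, hs]
      exact hh2)
    (by
      rw [← bc1_comp hKBC, hrρ, hr, hs]
      exact hGr)
  -- the value
  have hy' := hHV4 E t hG ρ v v' y hy
  rw [bc_uno, ← hPT] at hy'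
  have htn : IsNilpotent (ρ t) := by
    refine ⟨N, ?_⟩
    rw [← map_pow, hρ0]
    obtain ⟨b, hb⟩ := M.ker t hrt
    rw [hb, mul_pow]
    exact dvd_mul_right _ _
  have hmem : ∀ i, kmap (ρ : O →+* (O ⧸ J)) (v i) ∈ EE (PT pt (ρ t)) := by
    intro i
    rw [hPT, ← bc_uno]
    exact (bcE (ρ : O →+* (O ⧸ J)) (uno M.P) ⟨v i, hv i⟩).2
  obtain ⟨y', z, hyz, htz⟩ := hLOGF r hnil hfg (by omega : 2 ≤ g) E ⟨hR1, hR2, hR3, hR4⟩ pt hdis
    (ρ t) htn m _ _ _ hmem hy'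
  obtain ⟨y', rfl⟩ := hρs y'
  obtain ⟨z, rfl⟩ := hρs z
  -- divisibility
  have ha : M.π ^ 2 ∣ t ∧ t ∣ M.π ^ 2 := by
    constructor
    · obtain ⟨b, hb⟩ := h4
      refine ⟨u * ((b⁻¹ : Oˣ) : O), ?_⟩
      have e : t = ((b⁻¹ : Oˣ) : O) * (4 * t) := by
        rw [← hb, ← mul_assoc, Units.inv_mul, one_mul]
      rw [e, ht]
      ring
    · obtain ⟨b, rfl⟩ := hu
      refine ⟨4 * ((b⁻¹ : Oˣ) : O), ?_⟩
      have e : M.π ^ 2 = (M.π ^ 2 * (b : O)) * ((b⁻¹ : Oˣ) : O) := by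
        rw [mul_assoc, Units.mul_inv, mul_one]
      rw [e, ← ht]
      ring
  have hz : t ^ m ∣ z := by
    rw [← map_mul, hρ0] at htz
    have h1 : M.π ^ N ∣ M.π ^ 2 * z := htz.trans (mul_dvd_mul_right ha.2 z)
    have h2 : M.π ^ (2 * m) ∣ z := by
      have e : M.π ^ N = M.π ^ 2 * M.π ^ (2 * m) := by
        rw [← pow_add]
        congr 1
        omega
      rw [e] at h1
      exact (mul_dvd_mul_iff_left (pow_ne_zero 2 M.ne)).1 h1
    refine dvd_trans ?_ h2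
    rw [pow_mul]
    exact pow_dvd_pow_of_dvd ha.2 m
  have hw : t ^ m ∣ y - (t ^ m * y' + z) := by
    have h1 : M.π ^ N ∣ y - (t ^ m * y' + z) := by
      rw [← hρ0, map_sub, map_add, map_mul, map_pow, sub_eq_zero]
      exact hyz
    refine dvd_trans ?_ h1
    have e : M.π ^ N = (M.π ^ 2) ^ m * M.π ^ 2 := by
      rw [← pow_mul, ← pow_add]
    rw [e]
    exact (pow_dvd_pow_of_dvd ha.2 m).trans (dvd_mul_right _ _)
  have hfin : y = (y - (t ^ m * y' + z)) + (t ^ m * y' + z) := by ring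
  rw [hfin]
  exact dvd_add hw (dvd_add (dvd_mul_right _ _) hz)

end UINaux

theorem t_UIN (hNPL : Stmt_NPL) (hUGL : Stmt_UGL) (hUPO : Stmt_UPO) (hUGD : Stmt_UGD)
    (hHV1 : Stmt_HV1) (hHV2 : Stmt_HV2) (hHV4 : Stmt_HV4) (hHV5 : Stmt_HV5) (hHV8 : Stmt_HV8)
    (hLOGF : Stmt_LOGF) (hKBC : Stmt_KBC) (hSDB : Stmt_SDB) (hCSM : Stmt_CSM)
    (hMSM : Stmt_MSM) : Stmt_UIN := by
  intro k L _ _ _ _ _ _ _ g d R f E m S hg hd hR hz hf hfs hS v hv ω η hη
  haveI : CharZero k := charZero_of_injective_algebraMap (algebraMap ℂ k).injective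
  haveI : CharZero L := charZero_of_injective_algebraMap (algebraMap ℂ L).injective
  letI : Algebra ℂ v.O := ((algebraMap k v.O).comp (algebraMap ℂ k)).toAlgebra
  haveI := v.M.frac
  have hinj : Function.Injective (algebraMap v.O L) := IsFractionRing.injective v.O L
  let φ : v.O →ₐ[ℂ] L :=
    { algebraMap v.O L with
      commutes' := fun c => by
        change algebraMap v.O L (algebraMap k v.O (algebraMap ℂ k c)) = algebraMap ℂ L c
        rw [← IsScalarTower.algebraMap_apply k v.O L, ← IsScalarTower.algebraMap_apply ℂ k L] }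
  have hφ : ∀ x, φ x = algebraMap v.O L x := fun x => rfl
  have hφ' : (φ : v.O →+* L) = algebraMap v.O L := rfl
  have hd1 : 1 ≤ d := by omega
  -- over `L`
  obtain ⟨hG, hSm, hDu, hPO, -⟩ := hUGL hd1 hR hz hf hfs
  set ω1 : Fin m → EE1 R := fun i => ω (Fin.castAdd m i) with hω1
  set ω2 : Fin m → EE1 R := fun i => ω (Fin.natAdd m i) with hω2
  have hω : Fin.append ω1 ω2 = ω := Fin.append_castAdd_natAdd
  obtain ⟨x, hx⟩ := hHV1 E (1 : L) (P := uno R)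
    (fun ζ hζ => by
      rw [one_smul]
      exact hPO hζ.1)
    (fun i _ => (ω1 i : LaurentSeries L)) (fun i _ => (ω2 i : LaurentSeries L))
    (fun i => mem_EE_uno.2 (ω1 i).2) (fun i => mem_EE_uno.2 (ω2 i).2)
  have hSx : S ω = x := by
    rw [← hω]
    exact hS ω1 ω2 x hx
  have hx' := (hHV8 E v.c (1 : L) hG).2 _ _ _ hx
  set η1 : Fin m → KK Unit v.O := fun j _ => (η (Fin.castAdd m j) : LaurentSeries v.O) with hη1
  set η2 : Fin m → KK Unit v.O := fun j _ => (η (Fin.natAdd m j) : LaurentSeries v.O) with hη2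
  have e1 : (fun (j : Fin m) (_ : Unit) =>
      ((v.c⁻¹ : Lˣ) : L) • sc v.c (ω1 j : LaurentSeries L)) =
      fun j => kmap (φ : v.O →+* L) (η1 j) := by
    funext j i
    exact (hη _).symm
  have e2 : (fun (j : Fin m) (_ : Unit) =>
      ((v.c⁻¹ : Lˣ) : L) • sc v.c (ω2 j : LaurentSeries L)) =
      fun j => kmap (φ : v.O →+* L) (η2 j) := by
    funext j i
    exact (hη _).symm
  have hx2 : HV E (uno (R.map (sc v.c))) 1 (fun j => kmap (φ : v.O →+* L) (η1 j))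
      (fun j => kmap (φ : v.O →+* L) (η2 j)) x := by
    rw [← e1, ← e2]
    exact hx'
  -- the transported ring
  have hbc : bc (φ : v.O →+* L) (uno v.M.P) = uno (R.map (sc v.c)) := by
    rw [bc_uno, hφ', v.M.bc]
  have hKQ : Kr g (R.map (sc v.c)) := by
    rw [← v.M.bc]
    exact UINaux.Kr_bc1 hKBC v.M.kr _
  have hzQ : zz L d ∈ R.map (sc v.c) := by
    have h := UINaux.zz_bc1 v.M.z (algebraMap v.O L)
    rwa [v.M.bc] at h
  obtain ⟨hGQ, hSmQ, -, -, -⟩ := hUGL hd1 hKQ hzQ v.M.disc v.M.sep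
  -- over `O`
  obtain ⟨hGM, -⟩ := hUGD v.M (by omega) hd hv
  have hη1m : ∀ i, η1 i ∈ EE (uno v.M.P) := fun i => mem_EE_uno.2 (η _).2
  have hη2m : ∀ i, η2 i ∈ EE (uno v.M.P) := fun i => mem_EE_uno.2 (η _).2
  have key : ∀ t : v.O, φ t ≠ 0 → (∀ ζ ∈ EE (uno v.M.P), t • ζ ∈ Om (uno v.M.P)) →
      ∃ y : v.O, HV E (uno v.M.P) t η1 η2 y ∧ φ y = φ t ^ m * x := by
    intro t ht hO
    obtain ⟨y, hy⟩ := hHV1 E t hO η1 η2 hη1m hη2m
    refine ⟨y, hy, ?_⟩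
    have h1 := hHV4 E t hGM φ η1 η2 y hy
    rw [hbc] at h1
    have h2 := hHV5 E (1 : L) (φ t) hGQ _ _ _ hx2
    rw [mul_one] at h2
    have h3 := (hHV2 E (φ t) hGQ
      (fun {B} _ ψ D => UINaux.hyp2 hSDB hCSM hKBC hKQ hSmQ (φ t) ψ D) m).1 _ _ _ _ h1 h2
    have h4 := (mul_eq_zero.1 h3).resolve_left ht
    exact sub_eq_zero.1 h4
  obtain ⟨hU1, hU2⟩ := hUPO v.M (by omega) hd
  rcases hv with hv | hv
  · obtain ⟨y, -, hy⟩ := key 1 (by rw [map_one]; exact one_ne_zero) (fun ζ hζ => by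
      rw [one_smul]
      exact hU1 hv hζ.1)
    refine ⟨y, ?_⟩
    rw [map_one, one_pow, one_mul] at hy
    rw [hSx]
    exact hy
  · have hv' := hv
    obtain ⟨c, s₀, u, h, hc, hGr, hs, hu, hff, -⟩ := hv
    set q : v.O := algebraMap k v.O (4 : k)⁻¹ with hq
    have h4q : 4 * q = 1 := by
      have e : algebraMap k v.O (4 * (4 : k)⁻¹) = 1 := by
        rw [mul_inv_cancel₀ (by norm_num), map_one]
      rw [map_mul, map_ofNat] at e
      exact e
    have ht : 4 * (q * (v.M.π ^ 2 * u)) = v.M.π ^ 2 * u := by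
      rw [← mul_assoc, h4q, one_mul]
    have hne : φ (q * (v.M.π ^ 2 * u)) ≠ 0 := by
      rw [hφ]
      intro h0
      rw [map_eq_zero_iff _ hinj] at h0
      rw [h0, mul_zero] at ht
      rcases mul_eq_zero.1 ht.symm with h1 | h1
      · exact v.M.ne (pow_eq_zero_iff (by norm_num) |>.1 h1)
      · exact hu.ne_zero h1
    obtain ⟨y, hy1, hy2⟩ := key (q * (v.M.π ^ 2 * u)) hne (fun ζ hζ => by
      have h1 := hU2 hv' ζ hζ.1
      have e : (q * (v.M.π ^ 2 * u)) • ζ = (q * u) • (v.M.π ^ 2 • ζ) := by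
        rw [smul_smul]
        congr 1
        ring
      rw [e]
      exact Submodule.smul_mem _ _ h1)
    obtain ⟨w, hw⟩ := UINaux.nod hNPL hMSM hKBC hHV4 hLOGF E v.M hg hd hGM hc hGr hs hu hff ht
      η1 η2 hη1m hy1
    refine ⟨w, ?_⟩
    rw [hSx]
    rw [hw, map_mul, map_pow] at hy2
    exact mul_left_cancel₀ (pow_ne_zero m hne) hy2

end Pool.Agent.MG.G0
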