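import Pool.Agent.MG.G0.StmtsU

/-!
# UKR: ultraproducts of Krichever rings
-/

open Polynomial

namespace Pool.Agent.MG.G0

namespace UKR

section

variable (𝒰 : Ultrafilter ℕ) {R : ℕ → Type} [∀ n, CommRing (R n)]

/-- The class of a bounded family. -/
theorem exists_ser (f : ∀ n, LaurentSeries (R n)) (h : ∃ N : ℤ, ∀ n, f n ∈ Po (R n) N) :
    ∃ F : LaurentSeries (Ul 𝒰 R), USer 𝒰 F f := by
  obtain ⟨N, hN⟩ := h
  refine ⟨⟨fun m => umk 𝒰 fun n => (f n).coeff m, ?_⟩, ⟨N, hN⟩, fun m => rfl⟩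
  refine (Set.IsPWO.mono (t := Set.Ici (-N)) ?_ fun m hm => ?_)
  · exact (BddBelow.isWF ⟨_, fun _ h => h⟩).isPWO
  · by_contra h
    rw [Set.mem_Ici, not_le] at h
    apply hm
    change umk 𝒰 (fun n => (f n).coeff m) = 0
    rw [umk_eq_zero]
    exact Filter.Eventually.of_forall fun n => hN n m h

variable {F G : LaurentSeries (Ul 𝒰 R)} {f g : ∀ n, LaurentSeries (R n)}

theorem ser_zero : USer 𝒰 (0 : LaurentSeries (Ul 𝒰 R)) (fun _ => 0) := by
  refine ⟨⟨0, fun n => zero_mem _⟩, fun m => ?_⟩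
  rw [HahnSeries.coeff_zero]
  symm
  rw [umk_eq_zero]
  exact Filter.Eventually.of_forall fun n => HahnSeries.coeff_zero

theorem ser_sub (h : USer 𝒰 F f) (k : USer 𝒰 G g) : USer 𝒰 (F - G) (fun n => f n - g n) := by
  obtain ⟨⟨N, hN⟩, h1⟩ := h
  obtain ⟨⟨M, hM⟩, k1⟩ := k
  refine ⟨⟨max N M, fun n m hm => ?_⟩, fun m => ?_⟩
  · rw [HahnSeries.coeff_sub, hN n m (by omega), hM n m (by omega), sub_zero]
  · rw [HahnSeries.coeff_sub, h1, k1, ← map_sub]
    rfl

theorem ser_smul (c : ∀ n, R n) (h : USer 𝒰 F f) :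
    USer 𝒰 (umk 𝒰 c • F) (fun n => c n • f n) := by
  obtain ⟨⟨N, hN⟩, h1⟩ := h
  refine ⟨⟨N, fun n => Submodule.smul_mem _ _ (hN n)⟩, fun m => ?_⟩
  rw [HahnSeries.coeff_smul, h1, smul_eq_mul, ← map_mul]
  rfl

theorem ser_sum {ι : Type} (s : Finset ι) {F : ι → LaurentSeries (Ul 𝒰 R)}
    {f : ι → ∀ n, LaurentSeries (R n)} (h : ∀ i ∈ s, USer 𝒰 (F i) (f i)) :
    USer 𝒰 (∑ i ∈ s, F i) (fun n => ∑ i ∈ s, f i n) := by
  classical
  induction s using Finset.induction_on with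
  | empty =>
    simp only [Finset.sum_empty]
    exact ser_zero 𝒰
  | insert a s ha ih =>
    simp only [Finset.sum_insert ha]
    exact (h a (Finset.mem_insert_self a s)).add 𝒰
      (ih fun i hi => h i (Finset.mem_insert_of_mem hi))

theorem ser_congr (h : USer 𝒰 F f) (e : ∀ᶠ n in (𝒰 : Filter ℕ), f n = g n)
    (hg : ∃ N : ℤ, ∀ n, g n ∈ Po (R n) N) : USer 𝒰 F g := by
  refine ⟨hg, fun m => ?_⟩
  rw [h.2 m, umk_eq]
  filter_upwards [e] with n hn
  rw [hn]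

theorem ser_ext (h : USer 𝒰 F f) (k : USer 𝒰 G f) : F = G := by
  ext m
  rw [h.2, k.2]

theorem po_iff (h : USer 𝒰 F f) (N : ℤ) :
    F ∈ Po (Ul 𝒰 R) N ↔ ∀ᶠ n in (𝒰 : Filter ℕ), f n ∈ Po (R n) N := by
  obtain ⟨⟨M, hM⟩, h1⟩ := h
  constructor
  · intro hF
    have h2 : ∀ᶠ n in (𝒰 : Filter ℕ), ∀ m ∈ Finset.Ico (-M) (-N), (f n).coeff m = 0 := by
      rw [Filter.eventually_all_finset]
      intro m hm
      rw [Finset.mem_Ico] at hm
      rw [← umk_eq_zero, ← h1]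
      exact hF m hm.2
    filter_upwards [h2] with n hn
    intro m hm
    by_cases hm' : m < -M
    · exact hM n m hm'
    · exact hn m (Finset.mem_Ico.2 ⟨by omega, hm⟩)
  · intro hf m hm
    rw [h1, umk_eq_zero]
    filter_upwards [hf] with n hn
    exact hn m hm

theorem coeff_mul (h : USer 𝒰 F f) (k : USer 𝒰 G g) (m : ℤ) :
    (F * G).coeff m = umk 𝒰 fun n => (f n * g n).coeff m := (h.mul 𝒰 k).2 m

/-- The constants. -/
theorem ser_alg (c : ∀ n, R n) :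
    USer 𝒰 (@algebraMap (Ul 𝒰 R) (LaurentSeries (Ul 𝒰 R)) _ _ (lsAlgebra (Ul 𝒰 R)) (umk 𝒰 c))
      (fun n => @algebraMap (R n) (LaurentSeries (R n)) _ _ (lsAlgebra (R n)) (c n)) := by
  refine ⟨⟨0, fun n m hm => ?_⟩, fun m => ?_⟩
  · rw [coeff_algebraMap, if_neg (by omega)]
  · rw [coeff_algebraMap]
    simp only [coeff_algebraMap]
    split_ifs with h
    · rfl
    · exact (map_zero (umk 𝒰)).symm

/-- The main construction. -/
theorem main (hKFO : Stmt_KFO) (hKGP : Stmt_KGP) {g : ℕ}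
    (P : ∀ n, Subalgebra (R n) (LaurentSeries (R n))) (hg : 1 ≤ g) (hP : ∀ n, Kr g (P n)) :
    ∃ (w : ∀ n, Fin g → LaurentSeries (R n)) (W : Fin g → LaurentSeries (Ul 𝒰 R)),
      (∀ j, USer 𝒰 (W j) fun n => w n j) ∧ (∀ n j, w n j ∈ EE1 (P n)) ∧
      (∀ c : Fin g → Ul 𝒰 R, ∃ F, ∀ j, (W j * F).coeff (-1) = c j) ∧
      ∀ F, (∀ j, (W j * F).coeff (-1) = 0) ↔ ∃ p ∈ UP 𝒰 P, F - p ∈ Po (Ul 𝒰 R) 0 := by
  choose ω hω using fun n => (hKFO (hP n)).1
  have hE : ∀ n j, ω n j () ∈ EE1 (P n) := fun n j =>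
    mem_EE_uno.1 (((hKFO (hP n)).2 (ω n) (hω n)).1 j)
  choose W hW using fun j => exists_ser 𝒰 (fun n => ω n j ()) ⟨0, fun n => (hE n j).2⟩
  have hres : ∀ n j (f : LaurentSeries (R n)), res (ω n j * fun _ => f) =
      (ω n j () * f).coeff (-1) := fun n j f => res_unit _
  refine ⟨fun n j => ω n j (), W, hW, hE, ?_, ?_⟩
  · intro c
    choose c' hc' using fun j => umk_surj 𝒰 (c j)
    have h1 : ∀ n, ∃ f : LaurentSeries (R n), f ∈ Po (R n) (2 * g - 1) ∧
        ∀ j, (ω n j () * f).coeff (-1) = c' j n := by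
      intro n
      obtain ⟨f, hf⟩ := (hω n).surj fun j => c' j n
      obtain ⟨p, hp, hfp⟩ := hKGP hg (hP n) f
      refine ⟨f () - p (), mem_Pol_unit.1 hfp, fun j => ?_⟩
      rw [mul_sub, HahnSeries.coeff_sub, (hE n j).1 (p ()) hp, sub_zero, ← hf j]
      exact (res_unit (ω n j * f)).symm
    choose f hf1 hf2 using h1
    obtain ⟨F, hF⟩ := exists_ser 𝒰 f ⟨_, hf1⟩
    refine ⟨F, fun j => ?_⟩
    rw [coeff_mul 𝒰 (hW j) hF, ← hc' j]
    congr 1
    funext n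
    exact hf2 n j
  · intro F
    constructor
    · intro h
      obtain ⟨f, hf⟩ := USer.exists 𝒰 F
      have h1 : ∀ᶠ n in (𝒰 : Filter ℕ), ∀ j, (ω n j () * f n).coeff (-1) = 0 := by
        rw [Filter.eventually_all]
        intro j
        rw [← umk_eq_zero, ← coeff_mul 𝒰 (hW j) hf]
        exact h j
      have h2 : ∀ n, ∃ p : LaurentSeries (R n), p ∈ P n ∧
          ((∀ j, (ω n j () * f n).coeff (-1) = 0) → f n - p ∈ Po (R n) 0) ∧
          ((¬ ∀ j, (ω n j () * f n).coeff (-1) = 0) → p = 0) := by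
        intro n
        by_cases hn : ∀ j, (ω n j () * f n).coeff (-1) = 0
        · obtain ⟨p, hp, hfp⟩ := ((hω n).ker fun _ => f n).1 fun j => (hres n j (f n)).trans (hn j)
          exact ⟨p (), hp, fun _ => mem_Pol_unit.1 hfp, fun hc => absurd hn hc⟩
        · exact ⟨0, zero_mem _, fun hc => absurd hc hn, fun _ => rfl⟩
      choose p hp1 hp2 hp3 using h2
      obtain ⟨N, hN⟩ := hf.1
      have hpN : ∀ n, p n ∈ Po (R n) (max N 0) := by
        intro n
        by_cases hn : ∀ j, (ω n j () * f n).coeff (-1) = 0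
        · have h3 := hp2 n hn
          intro m hm
          have h4 := h3 m (by omega)
          rw [HahnSeries.coeff_sub, hN n m (by omega), zero_sub, neg_eq_zero] at h4
          exact h4
        · rw [hp3 n hn]
          exact zero_mem _
      obtain ⟨Q, hQ⟩ := exists_ser 𝒰 p ⟨_, hpN⟩
      refine ⟨Q, ⟨p, hQ, hp1⟩, ?_⟩
      rw [po_iff 𝒰 (ser_sub 𝒰 hf hQ)]
      filter_upwards [h1] with n hn
      exact hp2 n hn
    · rintro ⟨Q, ⟨p, hQ, hp⟩, h0⟩ j
      obtain ⟨f, hf⟩ := USer.exists 𝒰 F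
      rw [coeff_mul 𝒰 (hW j) hf, umk_eq_zero]
      filter_upwards [(po_iff 𝒰 (ser_sub 𝒰 hf hQ) 0).1 h0] with n hn
      have h3 : (ω n j () * (f n - p n)).coeff (-1) = 0 := mul_low (hE n j).2 hn (-1) (by omega)
      rw [mul_sub, HahnSeries.coeff_sub, (hE n j).1 (p n) (hp n), sub_zero] at h3
      exact h3

/-- The linear map to the dual of the differentials. -/
noncomputable def lin {g : ℕ} {A : Type} [CommRing A] (W : Fin g → LaurentSeries A) :
    LaurentSeries A →ₗ[A] (Fin g → A) where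
  toFun F j := (W j * F).coeff (-1)
  map_add' x y := by
    funext j
    rw [Pi.add_apply, mul_add, HahnSeries.coeff_add]
  map_smul' a x := by
    funext j
    rw [Pi.smul_apply, mul_smul_comm, HahnSeries.coeff_smul]
    rfl

theorem kr (hKFO : Stmt_KFO) (hKGP : Stmt_KGP) {g : ℕ}
    (P : ∀ n, Subalgebra (R n) (LaurentSeries (R n))) (hg : 1 ≤ g) (hP : ∀ n, Kr g (P n)) :
    Kr g (UP 𝒰 P) := by
  obtain ⟨w, W, hW, hE, hs, hk⟩ := main 𝒰 hKFO hKGP P hg hP
  rw [Kr_iff]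
  refine ⟨?_, lin W, fun c => ?_, fun F => ?_⟩
  · rintro F ⟨f, hf, hfP⟩ hF0
    have h1 := (po_iff 𝒰 hf 0).1 hF0
    have h2 : ∀ n, ∃ a : R n, f n ∈ Po (R n) 0 → f n = algebraMap (R n) _ a := by
      intro n
      by_cases hn : f n ∈ Po (R n) 0
      · obtain ⟨a, ha⟩ := (Kr_iff.1 (hP n)).1 (f n) (hfP n) hn
        exact ⟨a, fun _ => ha⟩
      · exact ⟨0, fun h => absurd h hn⟩
    choose a ha using h2
    refine ⟨umk 𝒰 a, ?_⟩
    have h3 : ∀ᶠ n in (𝒰 : Filter ℕ), f n = algebraMap (R n) (LaurentSeries (R n)) (a n) := by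
      filter_upwards [h1] with n hn
      exact ha n hn
    exact ser_ext 𝒰 (ser_congr 𝒰 hf h3 (ser_alg 𝒰 a).1) (ser_alg 𝒰 a)
  · obtain ⟨F, hF⟩ := hs c
    exact ⟨F, funext hF⟩
  · rw [← hk F]
    exact funext_iff

theorem units_zpow (c : ∀ n, (R n)ˣ) (c' : (Ul 𝒰 R)ˣ)
    (h : (c' : Ul 𝒰 R) = umk 𝒰 (fun n => (c n : R n))) (k : ℤ) :
    ((c' ^ k : (Ul 𝒰 R)ˣ) : Ul 𝒰 R) = umk 𝒰 fun n => ((c n ^ k : (R n)ˣ) : R n) := by
  have h1 : c' = Units.map ((umk 𝒰 : (∀ n, R n) →+* Ul 𝒰 R) : (∀ n, R n) →* Ul 𝒰 R)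
      (MulEquiv.piUnits.symm c) := Units.ext h
  rw [h1, ← map_zpow, ← map_zpow]
  rfl

end

end UKR

open UKR in
theorem t_UKR (hKFO : Stmt_KFO) (_hKNZ : Stmt_KNZ) (hKBC : Stmt_KBC) (hKEQ : Stmt_KEQ)
    (hKGP : Stmt_KGP) : Stmt_UKR := by
  intro 𝒰 R _ g P hg hP
  have hKr := UKR.kr 𝒰 hKFO hKGP P hg hP
  refine ⟨hKr, ?_, ?_, ?_, ?_, ?_⟩
  · intro F
    constructor
    · intro hF
      obtain ⟨w, W, hW, hE, hs, hk⟩ := main 𝒰 hKFO hKGP P hg hP
      have hforms : IsForms (uno (UP 𝒰 P)) fun (j : Fin g) (_ : Unit) => W j := by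
        refine ⟨fun j => ?_, fun c => ?_, fun f => ?_⟩
        · exact mem_Pol_unit.2 ((po_iff 𝒰 (hW j) 0).2
            (Filter.Eventually.of_forall fun n => (hE n j).2))
        · obtain ⟨F, hF⟩ := hs c
          exact ⟨fun _ => F, fun j => (res_unit _).trans (hF j)⟩
        · have h1 : (∀ j, res ((fun _ : Unit => W j) * f) = 0) ↔
              ∀ j, (W j * f ()).coeff (-1) = 0 :=
            forall_congr' fun j => by rw [res_unit]; rfl
          rw [h1, hk]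
          constructor
          · rintro ⟨p, hp, h⟩
            exact ⟨fun _ => p, hp, mem_Pol_unit.2 h⟩
          · rintro ⟨p, hp, h⟩
            exact ⟨p (), hp, mem_Pol_unit.1 h⟩
      obtain ⟨c, hc, -⟩ := ((hKFO hKr).2 _ hforms).2 (fun _ => F)
        (mem_EE_uno.2 hF)
      have hc' : F = ∑ j, c j • W j := by
        have := congrFun hc ()
        rw [Finset.sum_apply] at this
        exact this
      choose b hb using fun j => umk_surj 𝒰 (c j)
      refine ⟨fun n => ∑ j, b j n • w n j, ?_, fun n => ?_⟩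
      · rw [hc']
        refine ser_sum 𝒰 Finset.univ (F := fun j => c j • W j) (f := fun j n => b j n • w n j)
          fun j _ => ?_
        rw [← hb j]
        exact ser_smul 𝒰 (b j) (hW j)
      · exact Submodule.sum_mem _ fun j _ => Submodule.smul_mem _ _ (hE n j)
    · rintro ⟨f, hf, hfE⟩
      refine ⟨?_, (po_iff 𝒰 hf 0).2 (Filter.Eventually.of_forall fun n => (hfE n).2)⟩
      rintro Q ⟨q, hQ, hq⟩
      rw [coeff_mul 𝒰 hf hQ, umk_eq_zero]
      exact Filter.Eventually.of_forall fun n => (hfE n).1 _ (hq n)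
  · have key : ∀ P Q : ∀ n, Subalgebra (R n) (LaurentSeries (R n)),
        (∀ᶠ n in (𝒰 : Filter ℕ), P n = Q n) → UP 𝒰 P ≤ UP 𝒰 Q := by
      rintro P Q h F ⟨f, hf, hfP⟩
      classical
      refine ⟨fun n => if P n = Q n then f n else 0, ?_, fun n => ?_⟩
      · refine ser_congr 𝒰 hf ?_ ?_
        · filter_upwards [h] with n hn
          rw [if_pos hn]
        · obtain ⟨N, hN⟩ := hf.1
          refine ⟨N, fun n => ?_⟩
          split_ifs
          · exact hN n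
          · exact zero_mem _
      · change (if P n = Q n then f n else 0) ∈ Q n
        split_ifs with hn
        · rw [← hn]
          exact hfP n
        · exact zero_mem _
    intro Q h
    exact le_antisymm (key P Q h) (key Q P (h.mono fun n hn => hn.symm))
  · intro S _ φ
    have hKbc : ∀ {A B : Type} [CommRing A] [CommRing B] (ψ : A →+* B)
        (T : Subalgebra A (LaurentSeries A)), Kr g T → Kr g (bc1 ψ T) := by
      intro A B _ _ ψ T hT
      have := (hKBC.2.2.2 hT ψ).1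
      rw [bc_uno] at this
      exact this
    have h1 : Kr g (UP 𝒰 fun n => bc1 (φ n) (P n)) :=
      UKR.kr 𝒰 hKFO hKGP _ hg fun n => hKbc (φ n) (P n) (hP n)
    have h2 : Kr g (bc1 (umap 𝒰 φ) (UP 𝒰 P)) := hKbc _ _ hKr
    have h3 : bc1 (umap 𝒰 φ) (UP 𝒰 P) ≤ UP 𝒰 fun n => bc1 (φ n) (P n) := by
      refine Algebra.adjoin_le ?_
      rintro _ ⟨F, ⟨f, hf, hfP⟩, rfl⟩
      refine ⟨fun n => lmap (φ n) (f n), ⟨?_, fun m => ?_⟩, fun n =>
        Algebra.subset_adjoin ⟨f n, hfP n, rfl⟩⟩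
      · obtain ⟨N, hN⟩ := hf.1
        refine ⟨N, fun n m hm => ?_⟩
        rw [lmap_coeff, hN n m hm, map_zero]
      · rw [lmap_coeff, hf.2, umap_umk]
        rfl
    have h4 : uno (bc1 (umap 𝒰 φ) (UP 𝒰 P)) ≤ uno (UP 𝒰 fun n => bc1 (φ n) (P n)) :=
      fun x hx => h3 hx
    have h5 := hKEQ h2 h1 h4
    rw [← duo_uno (UP 𝒰 fun n => bc1 (φ n) (P n)), ← h5, duo_uno]
  · intro c c' hc
    have hz := UKR.units_zpow 𝒰 c c' hc
    have hsc : ∀ (F : LaurentSeries (Ul 𝒰 R)) (f : ∀ n, LaurentSeries (R n)), USer 𝒰 F f →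
        USer 𝒰 (sc c' F) (fun n => sc (c n) (f n)) := by
      rintro F f ⟨⟨N, hN⟩, h1⟩
      refine ⟨⟨N, fun n m hm => ?_⟩, fun m => ?_⟩
      · change ((c n ^ (-m) : (R n)ˣ) : R n) * (f n).coeff m = 0
        rw [hN n m hm, mul_zero]
      · change ((c' ^ (-m) : (Ul 𝒰 R)ˣ) : Ul 𝒰 R) * F.coeff m = _
        rw [hz, h1, ← map_mul]
        rfl
    apply le_antisymm
    · rintro F ⟨f, hf, hfP⟩
      choose q hq hqf using fun n => (hfP n : f n ∈ (P n).map (sc (c n)))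
      have hb : ∃ N : ℤ, ∀ n, q n ∈ Po (R n) N := by
        obtain ⟨N, hN⟩ := hf.1
        refine ⟨N, fun n m hm => ?_⟩
        have h1 := hN n m hm
        rw [← hqf n] at h1
        change ((c n ^ (-m) : (R n)ˣ) : R n) * (q n).coeff m = 0 at h1
        exact (Units.mul_right_eq_zero _).1 h1
      obtain ⟨Q, hQ⟩ := exists_ser 𝒰 q hb
      refine ⟨Q, ⟨q, hQ, hq⟩, ?_⟩
      have h2 := hsc Q q hQ
      have h3 : (fun n => sc (c n) (q n)) = f := funext hqf
      rw [h3] at h2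
      exact ser_ext 𝒰 h2 hf
    · rintro _ ⟨Q, ⟨q, hQ, hq⟩, rfl⟩
      exact ⟨_, hsc Q q hQ, fun n => ⟨q n, hq n, rfl⟩⟩
  · intro d hd
    refine ⟨fun n => zz (R n) d, ⟨⟨d, fun n m hm => ?_⟩, fun m => ?_⟩, hd⟩
    · change (zz (R n) d).coeff m = 0
      rw [zz, HahnSeries.coeff_single, if_neg (by omega)]
    · rw [zz, HahnSeries.coeff_single]
      simp only [zz, HahnSeries.coeff_single]
      split_ifs with h
      · exact (map_one (umk 𝒰)).symm
      · exact (map_zero (umk 𝒰)).symm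

end Pool.Agent.MG.G0
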