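import Pool.Agent.MG.G0.StmtsU

/-!
# ULR: first order properties of ultraproducts of rings (helper94)
-/

open Polynomial

namespace Pool.Agent.MG.G0

namespace ULR

section rings

variable (𝒰 : Ultrafilter ℕ) {R : ℕ → Type} [∀ n, CommRing (R n)]

theorem isDomain (h : ∀ n, IsDomain (R n)) : IsDomain (Ul 𝒰 R) := by
  have hp : (ulI 𝒰 R).IsPrime := by
    refine ⟨fun ht => ?_, fun {x y} hxy => ?_⟩
    · have h1 : (1 : ∀ n, R n) ∈ ulI 𝒰 R := ht ▸ Submodule.mem_top
      have h2 : ∀ᶠ n in (𝒰 : Filter ℕ), (1 : ∀ n, R n) n = 0 := h1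
      obtain ⟨n, hn⟩ := h2.exists
      exact one_ne_zero (α := R n) hn
    · have h2 : ∀ᶠ n in (𝒰 : Filter ℕ), x n * y n = 0 := hxy
      have h3 : ∀ᶠ n in (𝒰 : Filter ℕ), x n = 0 ∨ y n = 0 := by
        filter_upwards [h2] with n hn
        exact mul_eq_zero.1 hn
      exact Ultrafilter.eventually_or.1 h3
  exact Ideal.Quotient.isDomain _

theorem isUnit_iff (f : ∀ n, R n) :
    IsUnit (umk 𝒰 f) ↔ ∀ᶠ n in (𝒰 : Filter ℕ), IsUnit (f n) := by
  classical
  constructor
  · intro h
    obtain ⟨b, hb⟩ := h.exists_right_inv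
    obtain ⟨g, rfl⟩ := umk_surj 𝒰 b
    rw [← map_mul, ← map_one (umk 𝒰), umk_eq] at hb
    filter_upwards [hb] with n hn
    exact IsUnit.of_mul_eq_one (g n) hn
  · intro h
    refine IsUnit.of_mul_eq_one
      (umk 𝒰 fun n => if hu : IsUnit (f n) then ((hu.unit⁻¹ : (R n)ˣ) : R n) else 0) ?_
    rw [← map_mul, ← map_one (umk 𝒰), umk_eq]
    filter_upwards [h] with n hn
    show f n * (if hu : IsUnit (f n) then ((hu.unit⁻¹ : (R n)ˣ) : R n) else 0) = 1
    rw [dif_pos hn]
    exact hn.mul_val_inv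

theorem inj {S : ℕ → Type} [∀ n, CommRing (S n)] (φ : ∀ n, R n →+* S n)
    (h : ∀ n, Function.Injective (φ n)) : Function.Injective (umap 𝒰 φ) := by
  rw [injective_iff_map_eq_zero]
  intro a ha
  obtain ⟨f, rfl⟩ := umk_surj 𝒰 a
  rw [umap_umk, umk_eq_zero] at ha
  rw [umk_eq_zero]
  filter_upwards [ha] with n hn
  exact (injective_iff_map_eq_zero (φ n)).1 (h n) _ hn

end rings

theorem isAlgClosed (𝒰 : Ultrafilter ℕ) (K : ℕ → Type) [∀ n, Field (K n)]
    (h : ∀ n, IsAlgClosed (K n)) : IsAlgClosed (Ul 𝒰 K) := by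
  refine IsAlgClosed.of_exists_root _ fun p hp hirr => ?_
  have hN : 0 < p.natDegree := hirr.natDegree_pos
  choose c hc using fun m : ℕ => umk_surj 𝒰 (p.coeff m)
  have hroot : ∀ n, ∃ x : K n, x ^ p.natDegree +
      ∑ m ∈ Finset.range p.natDegree, c m n * x ^ m = 0 := by
    intro n
    let q : (K n)[X] := X ^ p.natDegree + ∑ m ∈ Finset.range p.natDegree, C (c m n) * X ^ m
    have hd : (∑ m ∈ Finset.range p.natDegree, C (c m n) * X ^ m : (K n)[X]).degree <
        (p.natDegree : ℕ) := by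
      refine (Polynomial.degree_sum_le _ _).trans_lt ?_
      rw [Finset.sup_lt_iff (by exact WithBot.bot_lt_coe _)]
      intro m hm
      refine (Polynomial.degree_C_mul_X_pow_le _ _).trans_lt ?_
      exact_mod_cast Finset.mem_range.1 hm
    have hq : q.degree = (p.natDegree : ℕ) := by
      have := Polynomial.degree_add_eq_left_of_degree_lt
        (p := (X ^ p.natDegree : (K n)[X])) (q := ∑ m ∈ Finset.range p.natDegree, C (c m n) * X ^ m)
        (by rw [Polynomial.degree_X_pow]; exact hd)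
      rw [this, Polynomial.degree_X_pow]
    obtain ⟨x, hx⟩ := IsAlgClosed.exists_root q (by
      rw [hq]
      exact_mod_cast hN.ne')
    refine ⟨x, ?_⟩
    have h1 : q.eval x = 0 := hx
    simpa [q, Polynomial.eval_finset_sum] using h1
  choose x hx using hroot
  refine ⟨umk 𝒰 x, ?_⟩
  rw [Polynomial.eval_eq_sum_range, Finset.sum_range_succ]
  have hl : p.coeff p.natDegree = 1 := hp
  rw [hl, one_mul]
  simp only [← hc, ← map_pow, ← map_mul, ← map_sum, ← map_add]
  rw [umk_eq_zero]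
  refine Filter.Eventually.of_forall fun n => ?_
  have := hx n
  rw [Pi.add_apply, Finset.sum_apply, add_comm]
  exact this

end ULR

open ULR in
/-- ULR -/
theorem t_ULR : Stmt_ULR := by
  intro 𝒰
  refine ⟨fun R _ h => isDomain 𝒰 h, fun R _ f => isUnit_iff 𝒰 f, ?_,
    fun K _ h => isAlgClosed 𝒰 K h, ?_, fun R S _ _ φ h => inj 𝒰 φ h, ?_⟩
  · intro R _ _ h hd
    refine { cond' := fun a b => ?_ }
    obtain ⟨f, rfl⟩ := umk_surj 𝒰 a
    obtain ⟨g, rfl⟩ := umk_surj 𝒰 b
    have h1 : ∀ n, ∃ c : R n, f n * c = g n ∨ g n * c = f n := fun n => by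
      have := h n
      exact PreValuationRing.cond (f n) (g n)
    choose c hc using h1
    refine ⟨umk 𝒰 c, ?_⟩
    have h2 : ∀ᶠ n in (𝒰 : Filter ℕ), f n * c n = g n ∨ g n * c n = f n :=
      Filter.Eventually.of_forall hc
    rw [Ultrafilter.eventually_or] at h2
    rw [← map_mul, ← map_mul, umk_eq, umk_eq]
    exact h2
  · intro R _ h
    refine charZero_of_inj_zero fun m hm => ?_
    by_contra h0
    have h1 : umk 𝒰 (m : ∀ n, R n) = 0 := by
      rw [map_natCast]
      exact hm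
    rw [umk_eq_zero] at h1
    obtain ⟨n, hn, hn'⟩ := (h1.and (h m h0)).exists
    exact hn' hn
  · intro O L _ _ _ _ h
    letI := (umap 𝒰 fun n => algebraMap (O n) (L n)).toAlgebra
    have hD : IsDomain (Ul 𝒰 O) := isDomain 𝒰 inferInstance
    have hinj : Function.Injective (umap 𝒰 fun n => algebraMap (O n) (L n)) :=
      inj 𝒰 _ fun n => by
        have := h n
        exact IsFractionRing.injective (O n) (L n)
    refine (isLocalization_iff _ _).2 ⟨fun y => ?_, fun z => ?_, fun {x y} hxy => ?_⟩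
    · have hy : (y : Ul 𝒰 O) ≠ 0 := nonZeroDivisors.ne_zero y.2
      refine isUnit_iff_ne_zero.2 fun h0 => hy (hinj ?_)
      rw [map_zero]
      exact h0
    · obtain ⟨f, rfl⟩ := umk_surj 𝒰 z
      have h1 : ∀ n, ∃ xy : O n × nonZeroDivisors (O n),
          f n * algebraMap (O n) (L n) xy.2 = algebraMap (O n) (L n) xy.1 := fun n => by
        have := h n
        exact IsLocalization.surj (nonZeroDivisors (O n)) (f n)
      choose xy hxy using h1
      have hne : umk 𝒰 (fun n => ((xy n).2 : O n)) ≠ 0 := by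
        intro h0
        rw [umk_eq_zero] at h0
        obtain ⟨n, hn⟩ := h0.exists
        exact nonZeroDivisors.ne_zero (xy n).2.2 hn
      refine ⟨(umk 𝒰 fun n => (xy n).1, ⟨umk 𝒰 fun n => ((xy n).2 : O n),
        mem_nonZeroDivisors_of_ne_zero hne⟩), ?_⟩
      show umk 𝒰 f * umap 𝒰 _ (umk 𝒰 _) = umap 𝒰 _ (umk 𝒰 _)
      rw [umap_umk, umap_umk, ← map_mul]
      congr 1
      funext n
      exact hxy n
    · exact ⟨1, by rw [hinj hxy]⟩

end Pool.Agent.MG.G0
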