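import Pool.Agent.MG.G0.StmtsV
import Pool.Agent.MG.G0.StmtsS

/-!
# Marked points exist (PAPER_V.md, UM0)
-/

namespace Pool.Agent.MG.G0

namespace UM0

variable {κ : Type} [Field κ]

theorem zz_sub_coeff {d : ℕ} (hd : 1 ≤ d) (c : κ) :
    (∀ m < -(d : ℤ), (zz κ d - algebraMap κ (LaurentSeries κ) c).coeff m = 0) ∧
      (zz κ d - algebraMap κ (LaurentSeries κ) c).coeff (-(d : ℤ)) = 1 := by
  constructor
  · intro m hm
    rw [HahnSeries.coeff_sub, coeff_algebraMap, if_neg (by omega), sub_zero, zz,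
      HahnSeries.coeff_single_of_ne (by omega)]
  · rw [HahnSeries.coeff_sub, coeff_algebraMap, if_neg (by omega), sub_zero, zz,
      HahnSeries.coeff_single_same]

theorem not_unit {g d : ℕ} {R : Subalgebra κ (LaurentSeries κ)} (hd : 1 ≤ d) (hR : Kr g R)
    (hz : zz κ d ∈ R) (c : κ) :
    ¬ IsUnit ((⟨fun _ => zz κ d, hz⟩ : uno R) - algebraMap κ (uno R) c) := by
  intro hu
  obtain ⟨y, hy⟩ := hu.exists_right_inv
  have hy1 : (zz κ d - algebraMap κ (LaurentSeries κ) c) * (y : KK Unit κ) () = 1 :=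
    congrFun (congrArg Subtype.val hy) ()
  set v : LaurentSeries κ := (y : KK Unit κ) () with hv
  have hv0 : v ≠ 0 := by
    intro h
    rw [h, mul_zero] at hy1
    exact zero_ne_one hy1
  have hlow : ∀ m < v.order, v.coeff m = 0 := fun m hm => HahnSeries.coeff_eq_zero_of_lt_order hm
  have hne : v.coeff v.order ≠ 0 := mt HahnSeries.coeff_order_eq_zero.1 hv0
  have h1 := mul_lead (zz_sub_coeff hd c).1 hlow
  rw [hy1, (zz_sub_coeff hd c).2, one_mul, HahnSeries.coeff_one] at h1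
  have h2 : -(d : ℤ) + v.order = 0 := by
    by_contra h
    rw [if_neg h] at h1
    exact hne h1.symm
  have hPo : (y : KK Unit κ) ∈ Pol Unit κ 0 := fun i m hm => hlow m (by omega)
  obtain ⟨a, ha⟩ := hR.k1 y y.2 hPo
  have hva : v = algebraMap κ (LaurentSeries κ) a := congrFun ha ()
  have ha0 : a = 0 := by
    have h3 := hlow 0 (by omega)
    rw [hva, coeff_algebraMap, if_pos rfl] at h3
    exact h3
  rw [ha0, map_zero] at hva
  exact hv0 hva

/-- Points over `z = c`. -/
theorem exists_pt [IsAlgClosed κ] {g d : ℕ} {R : Subalgebra κ (LaurentSeries κ)} (hd : 1 ≤ d)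
    (hR : Kr g R) (hz : zz κ d ∈ R) (hfp : Algebra.FiniteType κ (uno R)) (c : κ) :
    ∃ p : uno R →ₐ[κ] κ, p ⟨fun _ => zz κ d, hz⟩ = c := by
  obtain ⟨M, hM, hzM⟩ := exists_max_ideal_of_mem_nonunits
    (mem_nonunits_iff.2 (not_unit hd hR hz c))
  let _ : Field (uno R ⧸ M) := Ideal.Quotient.field M
  have hft : Algebra.FiniteType κ (uno R ⧸ M) :=
    Algebra.FiniteType.of_surjective (Ideal.Quotient.mkₐ κ M) (Ideal.Quotient.mkₐ_surjective κ M)
  have hfin : Module.Finite κ (uno R ⧸ M) := finite_of_finite_type_of_isJacobsonRing κ (uno R ⧸ M)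
  have hbij := IsAlgClosed.algebraMap_bijective_of_isIntegral (k := κ) (K := uno R ⧸ M)
  let e : κ ≃ₐ[κ] (uno R ⧸ M) := AlgEquiv.ofBijective (Algebra.ofId κ (uno R ⧸ M)) hbij
  refine ⟨(e.symm : (uno R ⧸ M) →ₐ[κ] κ).comp (Ideal.Quotient.mkₐ κ M), ?_⟩
  change e.symm (Ideal.Quotient.mk M ⟨fun _ => zz κ d, hz⟩) = c
  rw [AlgEquiv.symm_apply_eq]
  have h1 : Ideal.Quotient.mk M ((⟨fun _ => zz κ d, hz⟩ : uno R) - algebraMap κ (uno R) c) = 0 :=
    Ideal.Quotient.eq_zero_iff_mem.2 hzM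
  rw [map_sub, sub_eq_zero] at h1
  rw [h1]
  rfl

end UM0

/-- UM0: marked points exist. -/
theorem t_UM0 (hKFG : Stmt_KFG) (hAPT : Stmt_APT) (hAID : Stmt_AID) : Stmt_UM0 := by
  intro κ _ _ g d R n hd hR hz hT
  have hfp : Algebra.FinitePresentation κ (uno R) := (hKFG hR).1
  have hft : Algebra.FiniteType κ (uno R) := inferInstance
  have hinf : Infinite κ := IsAlgClosed.instInfinite
  let c : Fin n ↪ κ := (Fin.valEmbedding).trans (Infinite.natEmbedding κ)
  choose p hp using fun i => UM0.exists_pt hd hR hz hft (c i)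
  refine ⟨p, fun i j hij => ?_, fun i => ?_⟩
  · rw [Ideal.eq_top_iff_one]
    have hc : c i - c j ≠ 0 := sub_ne_zero.2 fun h => hij (c.injective h)
    set z : uno R := ⟨fun _ => zz κ d, hz⟩ with hzdef
    have h1 : z - algebraMap κ (uno R) (c i) ∈ RingHom.ker (p i) := by
      rw [RingHom.mem_ker, map_sub, AlgHom.commutes, hp]
      exact sub_self _
    have h2 : z - algebraMap κ (uno R) (c j) ∈ RingHom.ker (p j) := by
      rw [RingHom.mem_ker, map_sub, AlgHom.commutes, hp]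
      exact sub_self _
    have h3 : (1 : uno R) = algebraMap κ (uno R) (-(c i - c j)⁻¹) *
        (z - algebraMap κ (uno R) (c i)) +
          algebraMap κ (uno R) ((c i - c j)⁻¹) * (z - algebraMap κ (uno R) (c j)) := by
      have h4 : algebraMap κ (uno R) ((c i - c j)⁻¹) *
          (algebraMap κ (uno R) (c i) - algebraMap κ (uno R) (c j)) = 1 := by
        rw [← (algebraMap κ (uno R)).map_sub, ← (algebraMap κ (uno R)).map_mul, inv_mul_cancel₀ hc,
        map_one]
      rw [map_neg]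
      linear_combination (-1 : uno R) * h4
    rw [h3]
    exact Submodule.add_mem_sup (Ideal.mul_mem_left _ _ h1) (Ideal.mul_mem_left _ _ h2)
  · obtain ⟨pt, hpt⟩ := hAPT hT.1 hT.2 (p i)
    have hid : pt.id = RingHom.ker (p i) := by
      ext f
      rw [FPt.mem_id, hpt, RingHom.mem_ker]
    obtain ⟨-, h2, -, -⟩ := hAID hR hT.2 pt
    refine ⟨pt.x - algebraMap κ (uno R) (pt.ev pt.x), ?_, fun f hf => ?_⟩
    · rw [RingHom.mem_ker, map_sub, AlgHom.commutes, hpt]
      exact sub_self _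
    · obtain ⟨a, ha⟩ := h2 1 f (by
        rw [pow_one, hid]
        exact hf)
      refine ⟨a, ?_⟩
      rw [pow_one, hid] at ha
      exact ha

end Pool.Agent.MG.G0
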