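import Pool.Agent.MG.G0.StmtsV
import Pool.Agent.MG.G0.KBC
import Pool.Agent.MG.G0.KBT
import Pool.Agent.MG.G0.KFO
import Pool.Agent.MG.G0.KDU
import Pool.Agent.MG.G0.KSP
import Pool.Agent.MG.G0.KNZ
import Pool.Agent.MG.KX.KBP

/-!
# UM1: the value at a curve with marked points is defined over the base field
-/

open Polynomial

namespace Pool.Agent.MG.G0

namespace UM1

/-- Independence of the marked points. -/
theorem pos_eq {K : Type} [Field K] [IsAlgClosed K] [Algebra ℂ K] {g n : ℕ} (E : Ev0 g n)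
    {P Q : Subalgebra K (KK Unit K)} (hQ : IsKr g Q) (hS : TypeS Q) (e : P = Q)
    (p : Fin n → (P →ₐ[K] K)) (q : Fin n → (Q →ₐ[K] K)) (hp : Marks P p) (hq : Marks Q q) :
    E.Φ K Unit P p = E.Φ K Unit Q q := by
  subst e
  exact E.pos p q hQ hS hp hq

/-- Goodness of the base change. -/
theorem good_bc (hKBC : Stmt_KBC) {L : Type} [Field L] {g : ℕ} {P : Subalgebra L (KK Unit L)}
    (hP : IsKr g P) (hT : ∀ {K : Type} [Field K] [IsAlgClosed K] (φ : L →+* K), TypeS (bc φ P))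
    {K : Type} [Field K] (φ : L →+* K) : Good g (bc φ P) := by
  refine ⟨(hKBC.2.2.2 hP φ).1, fun κ _ _ ψ => Or.inl ?_⟩
  rw [← hKBC.2.1 φ ψ P]
  exact hT (ψ.comp φ)

/-- The value is fixed by the Galois group. -/
theorem fixed (hKBC : Stmt_KBC) (hKBT : Stmt_KBT) {L K : Type} [Field L] [Field K]
    [IsAlgClosed K] [Algebra ℂ L] [Algebra ℂ K] [Algebra L K] [IsScalarTower ℂ L K] {g n : ℕ}
    (E : Ev0 g n) {P : Subalgebra L (KK Unit L)} (hP : IsKr g P)
    (hT : ∀ {K : Type} [Field K] [IsAlgClosed K] (φ : L →+* K), TypeS (bc φ P))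
    (p : Fin n → (bc (algebraMap L K) P →ₐ[K] K)) (hp : Marks (bc (algebraMap L K) P) p)
    (σ : K ≃ₐ[L] K) :
    σ (E.Φ K Unit (bc (algebraMap L K) P) p) = E.Φ K Unit (bc (algebraMap L K) P) p := by
  have hK : IsKr g (bc (algebraMap L K) P) := (hKBC.2.2.2 hP _).1
  let s : K →ₐ[ℂ] K := (σ : K →ₐ[L] K).restrictScalars ℂ
  obtain ⟨p', hp'⟩ := (KX.t_KBP hKBT hKBC).1 hK (s : K →+* K) p
  have hm : Marks (bc (s : K →+* K) (bc (algebraMap L K) P)) p' :=
    (KX.t_KBP hKBT hKBC).2 hK (s : K →+* K) p p' hp' hp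
  have h1 := E.nat s p p' (good_bc hKBC hP hT (algebraMap L K)) hp
    fun i f => hp' i f (bcMap (s : K →+* K) _ f) rfl
  have e : bc (s : K →+* K) (bc (algebraMap L K) P) = bc (algebraMap L K) P := by
    rw [← hKBC.2.1]
    congr 1
    ext x
    exact σ.commutes x
  rw [pos_eq E hK (hT _) e p' p hm hp] at h1
  exact h1.symm

end UM1

theorem t_UM1 (hUGL : Stmt_UGL) : Stmt_UM1 := by
  intro L K _ _ _ _ _ _ _ _ g d n R f E hd hR hz hf hs
  have hKSP : Stmt_KSP := t_KSP t_KNZ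
  have hKBC : Stmt_KBC := t_KBC (t_KFO t_KDU) t_KNZ hKSP
  have hKBT : Stmt_KBT := t_KBT hKSP hKBC
  have hc0 : CharZero L := charZero_of_injective_algebraMap (algebraMap ℂ L).injective
  obtain ⟨hG, -, -, -, hT⟩ := hUGL hd hR hz hf hs
  have hT' : ∀ {K : Type} [Field K] [IsAlgClosed K] (φ : L →+* K), TypeS (bc φ (uno R)) :=
    fun φ => (hT φ).1
  by_cases hex : ∃ p : Fin n → (bc (algebraMap L K) (uno R) →ₐ[K] K),
      Marks (bc (algebraMap L K) (uno R)) p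
  · obtain ⟨p₀, hp₀⟩ := hex
    have hc1 : IsAlgClosure L K := ⟨inferInstance, inferInstance⟩
    have hc2 : Normal L K := IsAlgClosure.normal L K
    have hc3 : IsGalois L K := ⟨⟩
    obtain ⟨s, hs⟩ := (InfiniteGalois.mem_range_algebraMap_iff_fixed
      (E.Φ K Unit (bc (algebraMap L K) (uno R)) p₀)).2
        fun σ => UM1.fixed hKBC hKBT E hG.1 hT' p₀ hp₀ σ
    refine ⟨s, fun p hp => ?_⟩
    rw [hs]
    exact UM1.pos_eq E (hKBC.2.2.2 hG.1 _).1 (hT' _) rfl p p₀ hp hp₀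
  · exact ⟨0, fun p hp => absurd ⟨p, hp⟩ hex⟩

end Pool.Agent.MG.G0
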