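import Pool.Agent.MG.G0.StmtsB
import Pool.Agent.MG.G0.ZL.ZD

/-!
# The dual basis for the form `pr₀(x y)`
-/

open Polynomial

namespace Pool.Agent.MG.G0

namespace ZDUx

open ZL

section

variable {A : Type} [CommRing A] {d : ℕ} [NeZero d]

/-- The multiplication by `x` in terms of components. -/
theorem cmat_mul_cm (e : ZMod d → LaurentSeries A) (x : LaurentSeries A) (j k : ZMod d) :
    (cmat e * cm d x) j k = pr k (x * e j) := by
  rw [Matrix.mul_apply, mul_comm x, pr_mul]
  rfl

/-- Dual families: the expansion of `x` and the trace of the multiplication by `x`. -/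
theorem dual_core (e es : ZMod d → LaurentSeries A)
    (h : ∀ i j, pr (0 : ZMod d) (e i * es j) = if i = j then 1 else 0) :
    (∀ x, x = ∑ j, pr (0 : ZMod d) (x * es j) * e j) ∧
    ∀ x, ∑ j, pr (0 : ZMod d) (x * e j * es j) = (d : LaurentSeries A) * pr (0 : ZMod d) x := by
  classical
  let S : Matrix (ZMod d) (ZMod d) (LaurentSeries A) := Matrix.of fun k j => pr (-k) (es j)
  have hS : ∀ k j, S k j = pr (0 - k) (es j) := fun k j => by
    rw [zero_sub]
    rfl
  have hCS : cmat e * S = 1 := by
    ext1 i j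
    rw [Matrix.mul_apply, Matrix.one_apply, ← h i j, pr_mul]
    refine Finset.sum_congr rfl fun k _ => ?_
    rw [hS]
    rfl
  have hSC : S * cmat e = 1 := mul_eq_one_comm.mp hCS
  refine ⟨fun x => ?_, fun x => ?_⟩
  · have key : ∀ l : ZMod d, pr l (∑ j, pr (0 : ZMod d) (x * es j) * e j) = pr l x := by
      intro l
      rw [map_sum]
      have h1 : ∀ j, pr l (pr (0 : ZMod d) (x * es j) * e j) =
          ∑ k, pr k x * (S k j * cmat e j l) := by
        intro j
        rw [pr_mul_of (pr_pr_same 0 _), sub_zero, pr_mul, Finset.sum_mul]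
        refine Finset.sum_congr rfl fun k _ => ?_
        rw [hS, mul_assoc]
        rfl
      rw [Finset.sum_congr rfl fun j _ => h1 j, Finset.sum_comm]
      have h2 : ∀ k, ∑ j, pr k x * (S k j * cmat e j l) = if k = l then pr k x else 0 := by
        intro k
        rw [← Finset.mul_sum, ← Matrix.mul_apply, hSC, Matrix.one_apply, mul_ite, mul_one,
          mul_zero]
      rw [Finset.sum_congr rfl fun k _ => h2 k, Finset.sum_ite_eq', if_pos (Finset.mem_univ _)]
    rw [← sum_pr (d := d) (∑ j, pr (0 : ZMod d) (x * es j) * e j),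
      Finset.sum_congr rfl fun l _ => key l, sum_pr]
  · have h1 : ∀ j, pr (0 : ZMod d) (x * e j * es j) = (cmat e * cm d x * S) j j := by
      intro j
      rw [Matrix.mul_apply, pr_mul]
      refine Finset.sum_congr rfl fun k _ => ?_
      rw [cmat_mul_cm, hS]
    rw [Finset.sum_congr rfl fun j _ => h1 j]
    have h2 : ∑ j, (cmat e * cm d x * S) j j = (cmat e * cm d x * S).trace := rfl
    rw [h2, Matrix.trace_mul_comm, ← Matrix.mul_assoc, hSC, Matrix.one_mul, trace_cm]

end

section

variable {κ : Type} [Field κ] {d : ℕ}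

theorem pr0_inv_mul {p : κ[X]} (hp : zpol κ d p ≠ 0) (y : LaurentSeries κ) :
    pr0 κ d ((zpol κ d p)⁻¹ * y) = (zpol κ d p)⁻¹ * pr0 κ d y := by
  have h1 := pr0_zpol_mul d p ((zpol κ d p)⁻¹ * y)
  rw [← mul_assoc, mul_inv_cancel₀ hp, one_mul] at h1
  rw [h1, ← mul_assoc, inv_mul_cancel₀ hp, one_mul]

end

end ZDUx

open ZL ZDUx

theorem t_ZDU : Stmt_ZDU := by
  classical
  intro κ _ g d hd hdκ R hR hz
  have : NeZero d := ⟨hd.ne'⟩
  have hu : IsUnit (d : κ) := IsUnit.mk0 _ hdκ
  refine ⟨fun x hx => ?_, fun e G he hG => ?_⟩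
  · obtain ⟨⟨f, -, e, G, he, -, -⟩, -, -⟩ := t_ZD2 κ g d R hd hdκ hR hz
    exact (t_ZD1 κ g d R hd hR e he x hx).2 hu
  · have hs := spn_of_zbas he
    have hC := cmat_isUnit hR hs
    -- the Gram determinant
    have hgr : gram (fun i => e ((sg d).symm i)) =
        (G.submatrix (sg d).symm (sg d).symm).map (ev d) := by
      ext1 i j
      rw [gram, Matrix.of_apply, pr_zero_eq, Matrix.map_apply, Matrix.submatrix_apply]
      exact (hG _ _).symm
    have hdet : (gram fun i => e ((sg d).symm i)).det = zpol κ d G.det := by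
      rw [hgr, det_map_ev, Matrix.det_submatrix_equiv_self]
    have hne : zpol κ d G.det ≠ 0 := by
      rw [← hdet, gram_det]
      refine mul_ne_zero (pow_ne_zero 2 hC.ne_zero) ?_
      rcases Jm_det (A := LaurentSeries κ) (d := d) with h | h
      · rw [h]
        exact one_ne_zero
      · rw [h]
        exact neg_ne_zero.2 one_ne_zero
    have hinj := ev_injective (A := κ) d hd.ne'
    have hsym : ∀ i j, G i j = G j i := by
      intro i j
      apply hinj
      show zpol κ d (G i j) = zpol κ d (G j i)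
      rw [hG, hG, mul_comm]
    refine ⟨fun h => hne (by rw [h, map_zero]), ?_⟩
    let es : Fin d → LaurentSeries κ := fun j =>
      (zpol κ d G.det)⁻¹ * ∑ i, zpol κ d (G.adjugate j i) * e i
    have hdual : ∀ i j, pr0 κ d (e i * es j) = if i = j then 1 else 0 := by
      intro i j
      have h1 : e i * es j = (zpol κ d G.det)⁻¹ * ∑ k, zpol κ d (G.adjugate j k) * (e i * e k) := by
        show e i * ((zpol κ d G.det)⁻¹ * ∑ k, zpol κ d (G.adjugate j k) * e k) = _
        rw [mul_left_comm, Finset.mul_sum]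
        congr 1
        refine Finset.sum_congr rfl fun k _ => ?_
        rw [mul_left_comm]
      have h2 : pr0 κ d (∑ k, zpol κ d (G.adjugate j k) * (e i * e k)) =
          zpol κ d (∑ k, G.adjugate j k * G k i) := by
        rw [map_sum, map_sum]
        refine Finset.sum_congr rfl fun k _ => ?_
        rw [pr0_zpol_mul, hsym k i, ← hG i k, ← map_mul]
      rw [h1, pr0_inv_mul hne, h2, ← Matrix.mul_apply, Matrix.adjugate_mul, Matrix.smul_apply,
        Matrix.one_apply, smul_eq_mul, mul_ite, mul_one, mul_zero]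
      by_cases hij : i = j
      · rw [if_pos hij, if_pos hij.symm, inv_mul_cancel₀ hne]
      · rw [if_neg hij, if_neg (Ne.symm hij), map_zero, mul_zero]
    have hdual' : ∀ i j : ZMod d, pr (0 : ZMod d) (e ((sg d).symm i) * es ((sg d).symm j)) =
        if i = j then 1 else 0 := by
      intro i j
      rw [pr_zero_eq, hdual]
      simp only [EmbeddingLike.apply_eq_iff_eq]
    obtain ⟨h3, h4⟩ := dual_core (fun i => e ((sg d).symm i)) (fun i => es ((sg d).symm i)) hdual'
    refine ⟨es, hdual, fun x => ?_, fun x => ?_, fun j => ?_⟩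
    · have h5 := h3 x
      simp only [pr_zero_eq] at h5
      rw [Equiv.sum_comp (sg d).symm fun j => pr0 κ d (x * es j) * e j] at h5
      exact h5
    · have h5 := h4 x
      simp only [pr_zero_eq] at h5
      rw [Equiv.sum_comp (sg d).symm fun j => pr0 κ d (x * e j * es j)] at h5
      exact h5
    · show zpol κ d G.det * ((zpol κ d G.det)⁻¹ * ∑ i, zpol κ d (G.adjugate j i) * e i) = _
      rw [← mul_assoc, mul_inv_cancel₀ hne, one_mul]

end Pool.Agent.MG.G0
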