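import Pool.Agent.MG.G0.StmtsV
import Pool.Agent.MG.G0.DSC
import Pool.Agent.MG.G0.KBT
import Pool.Agent.MG.G0.KBC
import Pool.Agent.MG.G0.KSP
import Pool.Agent.MG.G0.KNZ
import Pool.Agent.MG.G0.KFO
import Pool.Agent.MG.G0.KDU
import Pool.Agent.MG.G0.NPA
import Pool.Agent.MG.G0.ZDU

/-!
# Module UM2: the value at curves with marked points is integral at the places of the base
-/

open Polynomial TensorProduct

namespace Pool.Agent.MG.G0

namespace UM2

theorem hKBC : Stmt_KBC := t_KBC (t_KFO t_KDU) t_KNZ (t_KSP t_KNZ)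

theorem hKBT : Stmt_KBT := t_KBT (t_KSP t_KNZ) hKBC

/-- A homomorphism to an algebraically closed field extends to an integral extension. -/
theorem exists_ext {R S K : Type} [CommRing R] [CommRing S] [Field K] [IsAlgClosed K]
    (f : R →+* S) (hf : f.IsIntegral) (hi : Function.Injective f) (φ : R →+* K) :
    ∃ ψ : S →+* K, ∀ x, ψ (f x) = φ x := by
  let _ : Algebra R S := f.toAlgebra
  have _ : Algebra.IsIntegral R S := ⟨hf⟩
  have hp : (RingHom.ker φ).IsPrime := RingHom.ker_isPrime φ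
  obtain ⟨Q, -, hQ, hQc⟩ := Ideal.exists_ideal_over_prime_of_isIntegral (RingHom.ker φ)
    (⊥ : Ideal S) (by
      intro x hx
      have h1 : f x = 0 := hx
      rw [(injective_iff_map_eq_zero f).1 hi x h1]
      exact zero_mem _)
  have hle : RingHom.ker φ ≤ Q.comap f := hQc.ge
  let F : R ⧸ RingHom.ker φ →+* S ⧸ Q := Ideal.quotientMap Q f hle
  let _ : Algebra (R ⧸ RingHom.ker φ) (S ⧸ Q) := F.toAlgebra
  let _ : Algebra (R ⧸ RingHom.ker φ) K := (RingHom.kerLift φ).toAlgebra
  have hF : Function.Injective F := Ideal.quotientMap_injective' hQc.le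
  have _ : Module.IsTorsionFree (R ⧸ RingHom.ker φ) (S ⧸ Q) :=
    Module.isTorsionFree_iff_algebraMap_injective.2 hF
  have _ : Module.IsTorsionFree (R ⧸ RingHom.ker φ) K :=
    Module.isTorsionFree_iff_algebraMap_injective.2 (RingHom.kerLift_injective φ)
  have _ : Algebra.IsIntegral (R ⧸ RingHom.ker φ) (S ⧸ Q) := by
    refine ⟨?_⟩
    have h1 : ((Ideal.Quotient.mk Q).comp f).IsIntegral :=
      RingHom.IsIntegral.trans f _ hf
        (RingHom.isIntegral_of_surjective _ Ideal.Quotient.mk_surjective)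
    have h2 : (Ideal.Quotient.mk Q).comp f = F.comp (Ideal.Quotient.mk (RingHom.ker φ)) := by
      ext x
      exact (Ideal.quotientMap_mk (H := hle)).symm
    rw [h2] at h1
    exact RingHom.IsIntegral.tower_top _ F h1
  let ψ : S ⧸ Q →ₐ[R ⧸ RingHom.ker φ] K := IsAlgClosed.lift
  refine ⟨(ψ : S ⧸ Q →+* K).comp (Ideal.Quotient.mk Q), fun x => ?_⟩
  have h1 : Ideal.Quotient.mk Q (f x) = algebraMap (R ⧸ RingHom.ker φ) (S ⧸ Q)
      (Ideal.Quotient.mk _ x) := (Ideal.quotientMap_mk (H := hle)).symm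
  rw [RingHom.comp_apply, h1]
  exact ψ.commutes _

section bc

variable {I A B : Type} [Fintype I] [Nonempty I] [CommRing A] [CommRing B] {g : ℕ}
  {P : Subalgebra A (KK I A)}

/-- A point of `P` with values in `B` extends to the base change. -/
theorem exists_hom (hP : IsKr g P) (φ : A →+* B) (q : P →+* B)
    (hq : ∀ a, q (algebraMap A P a) = φ a) :
    ∃ p : bc φ P →ₐ[B] B, ∀ x, p (bcMap φ P x) = q x := by
  let _ : Algebra A B := φ.toAlgebra
  obtain ⟨-, e, he⟩ := hKBT (A := A) (B := B) hP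
  let q' : P →ₐ[A] B := { q with commutes' := hq }
  let F : B ⊗[A] P →ₐ[B] B :=
    Algebra.TensorProduct.lift (AlgHom.id B B) q' fun _ _ => Commute.all _ _
  refine ⟨(F.comp (e.symm : bc φ P →ₐ[B] B ⊗[A] P)), fun x => ?_⟩
  have h1 : e ((1 : B) ⊗ₜ[A] x) = bcMap φ P x := by
    apply Subtype.ext
    rw [he, one_smul]
    rfl
  rw [AlgHom.comp_apply]
  change F (e.symm (bcMap φ P x)) = q x
  rw [← h1, e.symm_apply_apply]
  change AlgHom.id B B 1 * q' x = q x
  rw [map_one, one_mul]
  rfl

/-- A linear map on `P` with values in `B` extends to the base change. -/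
theorem exists_lin (hP : IsKr g P) (φ : A →+* B) (q : P →+ B)
    (hq : ∀ (a : A) (x : P), q (a • x) = φ a * q x) :
    ∃ p : bc φ P →ₗ[B] B, ∀ x, p (bcMap φ P x) = q x := by
  let _ : Algebra A B := φ.toAlgebra
  obtain ⟨-, e, he⟩ := hKBT (A := A) (B := B) hP
  let q' : P →ₗ[A] B := { q with map_smul' := hq }
  refine ⟨(q'.liftBaseChange B).comp (e.symm : bc φ P ≃ₐ[B] B ⊗[A] P).toLinearMap,
    fun x => ?_⟩
  have h1 : e ((1 : B) ⊗ₜ[A] x) = bcMap φ P x := by
    apply Subtype.ext
    rw [he, one_smul]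
    rfl
  rw [LinearMap.comp_apply]
  change q'.liftBaseChange B (e.symm (bcMap φ P x)) = q x
  rw [← h1, e.symm_apply_apply, LinearMap.liftBaseChange_tmul, one_smul]
  rfl

omit [Fintype I] [Nonempty I] in
theorem bc_induction (φ : A →+* B) {C : bc φ P → Prop} (x : bc φ P)
    (h0 : ∀ x, C (bcMap φ P x)) (h1 : ∀ x y, C x → C y → C (x + y))
    (h2 : ∀ (b : B) x, C x → C (b • x)) : C x := by
  obtain ⟨x, hx⟩ := x
  have h3 : x ∈ Submodule.span B (kmap φ '' (P : Set (KK I A))) := mem_bc_span φ P hx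
  have hle : Submodule.span B (kmap φ '' (P : Set (KK I A))) ≤
      Subalgebra.toSubmodule (bc φ P) := by
    rw [Submodule.span_le]
    rintro _ ⟨y, hy, rfl⟩
    exact kmap_mem_bc φ hy
  refine Submodule.span_induction (p := fun x hx => C ⟨x, hle hx⟩) ?_ ?_ ?_ ?_ h3
  · rintro _ ⟨y, hy, rfl⟩
    exact h0 ⟨y, hy⟩
  · have := h2 0 _ (h0 0)
    rw [zero_smul] at this
    exact this
  · intro x y _ _ hx hy
    exact h1 _ _ hx hy
  · intro b x _ hx
    exact h2 b _ hx

omit [Fintype I] [Nonempty I] in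
/-- Base change of marked points. -/
theorem marks_bc {n : ℕ} (φ : A →+* B) {p : Fin n → (P →ₐ[A] A)}
    {p' : Fin n → (bc φ P →ₐ[B] B)} (h : ∀ i f, p' i (bcMap φ P f) = φ (p i f))
    (hp : Marks P p) : Marks (bc φ P) p' := by
  have hker : ∀ i, ∀ x ∈ RingHom.ker (p i), bcMap φ P x ∈ RingHom.ker (p' i) := by
    intro i x hx
    rw [RingHom.mem_ker] at hx ⊢
    rw [h]
    exact (congrArg φ hx).trans (map_zero φ)
  refine ⟨fun i j hij => ?_, fun i => ?_⟩
  · have h1 := hp.dis i j hij
    rw [Ideal.eq_top_iff_one, Submodule.mem_sup] at h1 ⊢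
    obtain ⟨x, hx, y, hy, hxy⟩ := h1
    refine ⟨bcMap φ P x, hker i x hx, bcMap φ P y, hker j y hy, ?_⟩
    rw [← map_add, hxy, map_one]
  · obtain ⟨t, ht, hsm⟩ := hp.sm i
    refine ⟨bcMap φ P t, hker i t ht, ?_⟩
    have key : ∀ f : bc φ P, ∃ c : B, f - algebraMap B (bc φ P) (p' i f) -
        c • bcMap φ P t ∈ RingHom.ker (p' i) ^ 2 := by
      intro f
      refine bc_induction φ (C := fun f => ∃ c : B, f - algebraMap B (bc φ P) (p' i f) -
        c • bcMap φ P t ∈ RingHom.ker (p' i) ^ 2) f ?_ ?_ ?_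
      · intro x
        have hx : x - algebraMap A P (p i x) ∈ RingHom.ker (p i) := by
          rw [RingHom.mem_ker, map_sub, AlgHom.commutes]
          exact sub_self _
        obtain ⟨c, hc⟩ := hsm _ hx
        refine ⟨φ c, ?_⟩
        have h1 : bcMap φ P (x - algebraMap A P (p i x) - c • t) ∈ RingHom.ker (p' i) ^ 2 := by
          have h2 : (RingHom.ker (p i) ^ 2).map (bcMap φ P) ≤ RingHom.ker (p' i) ^ 2 := by
            rw [Ideal.map_pow]
            exact Ideal.pow_right_mono (Ideal.map_le_iff_le_comap.2 fun x hx =>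
              Ideal.mem_comap.2 (hker i x hx)) 2
          exact h2 (Ideal.mem_map_of_mem _ hc)
        have h3 : bcMap φ P (x - algebraMap A P (p i x) - c • t) =
            bcMap φ P x - algebraMap B (bc φ P) (p' i (bcMap φ P x)) - φ c • bcMap φ P t := by
          rw [map_sub, map_sub, h]
          congr 1
          · congr 1
            apply Subtype.ext
            exact kmap_algebraMap φ _
          · apply Subtype.ext
            exact kmap_smul φ c _
        rw [← h3]
        exact h1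
      · rintro x y ⟨c, hc⟩ ⟨c', hc'⟩
        refine ⟨c + c', ?_⟩
        have h1 := add_mem hc hc'
        have h2 : x + y - algebraMap B (bc φ P) (p' i (x + y)) - (c + c') • bcMap φ P t =
            x - algebraMap B (bc φ P) (p' i x) - c • bcMap φ P t +
              (y - algebraMap B (bc φ P) (p' i y) - c' • bcMap φ P t) := by
          rw [map_add, map_add, add_smul]
          ring
        rw [h2]
        exact h1
      · rintro b x ⟨c, hc⟩
        refine ⟨b * c, ?_⟩
        have h1 : b • (x - algebraMap B (bc φ P) (p' i x) - c • bcMap φ P t) ∈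
            RingHom.ker (p' i) ^ 2 := by
          rw [Algebra.smul_def]
          exact Ideal.mul_mem_left _ _ hc
        have h2 : b • x - algebraMap B (bc φ P) (p' i (b • x)) - (b * c) • bcMap φ P t =
            b • (x - algebraMap B (bc φ P) (p' i x) - c • bcMap φ P t) := by
          rw [map_smul, smul_eq_mul, map_mul, smul_sub, smul_sub, mul_smul, Algebra.smul_def b
            (algebraMap B (bc φ P) (p' i x))]
        rw [h2]
        exact h1
    intro f hf
    obtain ⟨c, hc⟩ := key f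
    refine ⟨c, ?_⟩
    have h1 : p' i f = 0 := hf
    rw [h1, map_zero, sub_zero] at hc
    exact hc

/-- Base change of good families. -/
theorem good_bc {g : ℕ} (φ : A →+* B) (h : Good g P) : Good g (bc φ P) := by
  refine ⟨(hKBC.2.2.2 h.1 φ).1, fun κ _ _ ψ => ?_⟩
  have h1 := h.2 κ (ψ.comp φ)
  rw [hKBC.2.1] at h1
  exact h1

end bc

/-- Marked points and isomorphisms. -/
theorem marks_equiv {I J A : Type} [CommRing A] {P : Subalgebra A (KK I A)}
    {Q : Subalgebra A (KK J A)} (e : P ≃ₐ[A] Q) {n : ℕ} {p : Fin n → (P →ₐ[A] A)}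
    {q : Fin n → (Q →ₐ[A] A)} (h : ∀ i x, q i (e x) = p i x) (hp : Marks P p) : Marks Q q := by
  have hker : ∀ i, RingHom.ker (q i) = (RingHom.ker (p i)).map (e : P →+* Q) := by
    intro i
    apply le_antisymm
    · intro x hx
      have h1 : e (e.symm x) = x := e.apply_symm_apply x
      rw [← h1]
      refine Ideal.mem_map_of_mem (e : P →+* Q) ?_
      rw [RingHom.mem_ker]
      have h2 := h i (e.symm x)
      rw [h1] at h2
      exact h2.symm.trans hx
    · rw [Ideal.map_le_iff_le_comap]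
      intro x hx
      exact (h i x).trans hx
  refine ⟨fun i j hij => ?_, fun i => ?_⟩
  · rw [hker, hker, ← Ideal.map_sup, hp.dis i j hij, Ideal.map_top]
  · obtain ⟨t, ht, hsm⟩ := hp.sm i
    refine ⟨e t, ?_, fun f hf => ?_⟩
    · rw [hker]
      exact Ideal.mem_map_of_mem (e : P →+* Q) ht
    · have h1 : e (e.symm f) = f := e.apply_symm_apply f
      have h2 : e.symm f ∈ RingHom.ker (p i) := by
        have h3 := h i (e.symm f)
        rw [h1] at h3
        exact h3.symm.trans hf
      obtain ⟨c, hc⟩ := hsm _ h2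
      refine ⟨c, ?_⟩
      rw [hker, ← Ideal.map_pow]
      have h3 := Ideal.mem_map_of_mem (e : P →+* Q) hc
      have h4 : (e : P →+* Q) (e.symm f - c • t) = f - c • e t := by
        change e (e.symm f - c • t) = _
        rw [map_sub, h1, map_smul]
      rw [h4] at h3
      exact h3


/-! ### Unramified points -/

section unram

variable {A κ : Type} [CommRing A] [Field κ] {g d : ℕ} {R : Subalgebra A (LaurentSeries A)}

/-- `z` as an element of `uno R`. -/
noncomputable def zu (hz : zz A d ∈ R) : uno R := ⟨fun _ => zz A d, hz⟩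

/-- A derivation at an unramified point with values in a field which kills `z` is zero. -/
theorem der_zero (hR : Kr g R) (hd : 0 < d) (hz : zz A d ∈ R) (φ : A →+* κ)
    (hdκ : (d : κ) ≠ 0) {h : κ[X]} (hD : Disc d (bc1 φ R) h) (p : uno R →ₐ[A] A)
    (hc : h.eval (φ (p (zu hz))) ≠ 0) (E : uno R →+ κ)
    (hEs : ∀ (a : A) x, E (a • x) = φ a * E x)
    (hE : ∀ x y, E (x * y) = φ (p x) * E y + φ (p y) * E x) (hEz : E (zu hz) = 0)
    (x : uno R) : E x = 0 := by
  obtain ⟨pb, hpb⟩ := exists_hom hR φ (φ.comp (p : uno R →+* A)) (fun a => by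
    rw [RingHom.comp_apply]
    exact congrArg φ (p.commutes a))
  obtain ⟨Eb, hEb⟩ := exists_lin hR φ E hEs
  have hder : ∀ x y, Eb (x * y) = pb x * Eb y + pb y * Eb x := by
    intro x y
    refine bc_induction φ (C := fun x => Eb (x * y) = pb x * Eb y + pb y * Eb x) x ?_ ?_ ?_
    · intro x
      refine bc_induction φ (C := fun y => Eb (bcMap φ (uno R) x * y) =
        pb (bcMap φ (uno R) x) * Eb y + pb y * Eb (bcMap φ (uno R) x)) y ?_ ?_ ?_
      · intro y
        rw [← map_mul, hEb, hEb, hEb, hpb, hpb, hE]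
        rfl
      · intro y y' h1 h2
        rw [mul_add, map_add, h1, h2, map_add, map_add]
        ring
      · intro b y h1
        rw [mul_smul_comm, map_smul, h1, map_smul, map_smul]
        simp only [smul_eq_mul]
        ring
    · intro x x' h1 h2
      rw [add_mul, map_add, h1, h2, map_add, map_add]
      ring
    · intro b x h1
      rw [smul_mul_assoc, map_smul, h1, map_smul, map_smul]
      simp only [smul_eq_mul]
      ring
  -- transport to `bc1 φ R`
  let j : bc1 φ R →ₐ[κ] bc φ (uno R) :=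
    { toFun := fun x => ⟨fun _ => x, by rw [bc_uno]; exact x.2⟩
      map_one' := rfl
      map_mul' := fun _ _ => rfl
      map_zero' := rfl
      map_add' := fun _ _ => rfl
      commutes' := fun _ => rfl }
  have hzb : zz κ d ∈ bc1 φ R := by
    rw [← lmap_zz φ d]
    exact Algebra.subset_adjoin ⟨zz A d, hz, rfl⟩
  have hjz : j ⟨zz κ d, hzb⟩ = bcMap φ (uno R) (zu hz) := by
    apply Subtype.ext
    funext i
    exact (lmap_zz φ d).symm
  have hRb : Kr g (bc1 φ R) := by
    have h1 := (hKBC.2.2.2 (P := uno R) hR φ).1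
    rw [bc_uno] at h1
    exact h1
  have hcb : h.eval ((pb.comp j) ⟨zz κ d, hzb⟩) ≠ 0 := by
    rw [AlgHom.comp_apply, hjz, hpb]
    exact hc
  have h1 := NPAx.der_zero t_ZDU hd hdκ hRb hzb hD hcb (pb.comp j) rfl
    (Eb.comp j.toLinearMap) (fun x y => by
      change Eb (j (x * y)) = pb (j x) * Eb (j y) + pb (j y) * Eb (j x)
      rw [map_mul, hder]) (by
      change Eb (j ⟨zz κ d, hzb⟩) = 0
      rw [hjz, hEb, hEz])
  have h2 : bcMap φ (uno R) x = j ⟨lmap φ ((x : KK Unit A) ()),
      Algebra.subset_adjoin ⟨_, x.2, rfl⟩⟩ := by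
    apply Subtype.ext
    rfl
  rw [← hEb, h2]
  exact h1 _


/-- A point of `uno R` over `A` which is unramified over the `z`-line in all closed fibres lies in
the smooth locus. -/
theorem sm_of {A : Type} [CommRing A] {g d : ℕ} {R : Subalgebra A (LaurentSeries A)}
    (hKFG : Stmt_KFG) (hR : Kr g R) (hd : 0 < d) (hz : zz A d ∈ R) (p : uno R →ₐ[A] A)
    (H : ∀ m : Ideal A, m.IsMaximal → ∃ (κ : Type) (_ : Field κ) (φ : A →+* κ) (h : κ[X]),
      RingHom.ker φ = m ∧ (d : κ) ≠ 0 ∧ Disc d (bc1 φ R) h ∧ h.eval (φ (p (zu hz))) ≠ 0) :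
    ∀ x ∈ RingHom.ker p, ∃ c : A,
      x - c • (zu hz - algebraMap A (uno R) (p (zu hz))) ∈ RingHom.ker p ^ 2 := by
  set t : uno R := zu hz - algebraMap A (uno R) (p (zu hz)) with ht
  let J : Submodule A (uno R) :=
    Submodule.span A {t} ⊔ (RingHom.ker p ^ 2).restrictScalars A
  let D₀ : uno R →ₗ[A] uno R :=
    LinearMap.id - (Algebra.linearMap A (uno R)).comp p.toLinearMap
  have hD₀ : ∀ x, D₀ x = x - algebraMap A (uno R) (p x) := fun x => rfl
  have hD₀k : ∀ x, D₀ x ∈ RingHom.ker p := by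
    intro x
    rw [hD₀, RingHom.mem_ker, map_sub, AlgHom.commutes]
    exact sub_self _
  let D : uno R →ₗ[A] (uno R ⧸ J) := J.mkQ.comp D₀
  have hDmul : ∀ x y, D (x * y) = p x • D y + p y • D x := by
    intro x y
    have h1 : D₀ (x * y) = D₀ x * D₀ y + (p x • D₀ y + p y • D₀ x) := by
      rw [hD₀, hD₀, hD₀, map_mul, map_mul, Algebra.smul_def, Algebra.smul_def]
      ring
    have h2 : J.mkQ (D₀ x * D₀ y) = 0 := by
      rw [Submodule.mkQ_apply, Submodule.Quotient.mk_eq_zero]
      refine Submodule.mem_sup_right ?_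
      change D₀ x * D₀ y ∈ RingHom.ker p ^ 2
      rw [pow_two]
      exact Ideal.mul_mem_mul (hD₀k x) (hD₀k y)
    change J.mkQ (D₀ (x * y)) = p x • J.mkQ (D₀ y) + p y • J.mkQ (D₀ x)
    rw [h1, map_add, h2, zero_add, map_add, map_smul, map_smul]
  have hDz : D (zu hz) = 0 := by
    change J.mkQ (D₀ (zu hz)) = 0
    rw [Submodule.mkQ_apply, Submodule.Quotient.mk_eq_zero]
    exact Submodule.mem_sup_left (Submodule.mem_span_singleton_self _)
  have hDa : ∀ a : A, D (algebraMap A (uno R) a) = 0 := by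
    intro a
    change J.mkQ (D₀ (algebraMap A (uno R) a)) = 0
    rw [hD₀, AlgHom.commutes]
    simp
  set N : Submodule A (uno R ⧸ J) := LinearMap.range D with hN
  have hfg : N.FG := by
    have h1 : Algebra.FiniteType A (uno R) := by
      have := (hKFG hR).1
      infer_instance
    obtain ⟨s, hs⟩ := h1.out
    classical
    refine ⟨s.image D, le_antisymm ?_ ?_⟩
    · rw [Submodule.span_le]
      intro y hy
      rw [Finset.mem_coe, Finset.mem_image] at hy
      obtain ⟨x, -, rfl⟩ := hy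
      exact ⟨x, rfl⟩
    · rintro _ ⟨x, rfl⟩
      have hx : x ∈ Algebra.adjoin A (s : Set (uno R)) := by
        rw [hs]
        trivial
      induction hx using Algebra.adjoin_induction with
      | mem x hx =>
        refine Submodule.subset_span ?_
        rw [Finset.mem_coe, Finset.mem_image]
        exact ⟨x, hx, rfl⟩
      | algebraMap a =>
        rw [hDa]
        exact zero_mem _
      | add x y _ _ h1 h2 =>
        rw [map_add]
        exact add_mem h1 h2
      | mul x y _ _ h1 h2 =>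
        rw [hDmul]
        exact add_mem (Submodule.smul_mem _ _ h2) (Submodule.smul_mem _ _ h1)
  have hN0 : N = ⊥ := by
    by_contra hne
    have _ : Nontrivial N := Submodule.nontrivial_iff_ne_bot.2 hne
    have _ : Module.Finite A N := Module.Finite.of_fg hfg
    obtain ⟨S, hS, -⟩ := (eq_top_or_exists_le_coatom (⊥ : Submodule A N)).resolve_left bot_ne_top
    obtain ⟨m, hm, ⟨e⟩⟩ := isSimpleModule_iff_quot_maximal.1 (isSimpleModule_iff_isCoatom.2 hS)
    obtain ⟨κ, _, φ, h, hφ, hdκ, hDisc, hc⟩ := H m hm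
    let ι : A ⧸ m →+* κ := Ideal.Quotient.lift m φ fun a ha => by
      rw [← hφ] at ha
      exact ha
    have hι : Function.Injective ι := by
      rw [injective_iff_map_eq_zero]
      intro x hx
      obtain ⟨a, rfl⟩ := Ideal.Quotient.mk_surjective x
      rw [Ideal.Quotient.eq_zero_iff_mem, ← hφ]
      exact hx
    let q : N →ₗ[A] A ⧸ m := (e : (N ⧸ S) →ₗ[A] A ⧸ m).comp S.mkQ
    have hq : Function.Surjective q := e.surjective.comp S.mkQ_surjective
    let D₁ : uno R →ₗ[A] A ⧸ m := q.comp D.rangeRestrict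
    have hD₁ : Function.Surjective D₁ := hq.comp D.surjective_rangeRestrict
    have hιs : ∀ (a : A) (y : A ⧸ m), ι (a • y) = φ a * ι y := by
      intro a y
      rw [Algebra.smul_def, map_mul]
      rfl
    have hrr : ∀ x y, D.rangeRestrict (x * y) =
        p x • D.rangeRestrict y + p y • D.rangeRestrict x := by
      intro x y
      apply Subtype.ext
      exact hDmul x y
    let E : uno R →+ κ := (ι : A ⧸ m →+ κ).comp (D₁ : uno R →+ A ⧸ m)
    have hE : ∀ x, E x = ι (D₁ x) := fun x => rfl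
    have h0 : ∀ x, E x = 0 := by
      refine der_zero hR hd hz φ hdκ hDisc p hc E (fun a x => ?_) (fun x y => ?_) ?_
      · rw [hE, hE, map_smul, hιs]
      · have h1 : D₁ (x * y) = p x • D₁ y + p y • D₁ x := by
          change q (D.rangeRestrict (x * y)) = _
          rw [hrr, map_add, map_smul, map_smul]
          rfl
        rw [hE, hE, hE, h1, map_add, hιs, hιs]
      · have h1 : D₁ (zu hz) = 0 := by
          change q (D.rangeRestrict (zu hz)) = 0
          have h2 : D.rangeRestrict (zu hz) = 0 := Subtype.ext hDz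
          rw [h2, map_zero]
        rw [hE, h1, map_zero]
    obtain ⟨x, hx⟩ := hD₁ 1
    have h1 := h0 x
    rw [hE, hx, map_one] at h1
    exact one_ne_zero h1
  intro x hx
  have h1 : D x ∈ N := ⟨x, rfl⟩
  rw [hN0, Submodule.mem_bot] at h1
  have h2 : J.mkQ (D₀ x) = 0 := h1
  rw [Submodule.mkQ_apply, Submodule.Quotient.mk_eq_zero] at h2
  have h3 : D₀ x = x := by
    have h4 : p x = 0 := hx
    rw [hD₀, h4, map_zero, sub_zero]
  rw [h3, Submodule.mem_sup] at h2
  obtain ⟨y, hy, w, hw, hyw⟩ := h2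
  obtain ⟨c, rfl⟩ := Submodule.mem_span_singleton.1 hy
  refine ⟨c, ?_⟩
  rw [← hyw, add_sub_cancel_left]
  exact hw

end unram


/-! ### Points with given `z` -/

section points

theorem bc1_comp {A B C : Type} [CommRing A] [CommRing B] [CommRing C] (φ : A →+* B)
    (ψ : B →+* C) (R : Subalgebra A (LaurentSeries A)) :
    bc1 (ψ.comp φ) R = bc1 ψ (bc1 φ R) := by
  rw [← duo_uno (bc1 (ψ.comp φ) R), ← bc_uno, hKBC.2.1, bc_uno, bc_uno, duo_uno]

theorem mon_zu {A : Type} [CommRing A] {d : ℕ} {R : Subalgebra A (LaurentSeries A)}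
    (hz : zz A d ∈ R) : Mon (d : ℤ) (zu hz : KK Unit A) := by
  refine ⟨fun i m hm => ?_, fun i => ?_⟩
  · change (zz A d).coeff m = 0
    rw [zz, HahnSeries.coeff_single_of_ne (by omega)]
  · change (zz A d).coeff (-(d : ℤ)) = 1
    rw [zz, HahnSeries.coeff_single_same]

/-- Points with a given value of `z` and values in the integral closure. -/
theorem exists_pt (hKFG : Stmt_KFG) {O K : Type} [CommRing O] [Field K] [IsAlgClosed K]
    [Algebra O K] {g d : ℕ} {R : Subalgebra O (LaurentSeries O)} (hR : Kr g R) (hd : 1 ≤ d)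
    (hz : zz O d ∈ R) (c : O) : ∃ q : uno R →+* integralClosure O K,
      (∀ a, q (algebraMap O (uno R) a) = algebraMap O (integralClosure O K) a) ∧
      q (zu hz) = algebraMap O (integralClosure O K) c := by
  obtain ⟨N, hN⟩ := (t_KNZ (P := uno R) hR).1
  obtain ⟨-, -, hfin, -, hinj⟩ := (hKFG (P := uno R) hR).2 N d (zu hz) hN (by exact_mod_cast hd)
    (mon_zu hz)
  set f : O[X] →+* uno R := (Polynomial.aeval (R := O) (zu hz)).toRingHom with hf
  obtain ⟨q, hq⟩ := exists_ext f hfin.to_isIntegral hinj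
    ((algebraMap O K).comp (Polynomial.evalRingHom c))
  have hqa : ∀ a, q (algebraMap O (uno R) a) = algebraMap O K a := by
    intro a
    have h1 := hq (C a)
    have h2 : f (C a) = algebraMap O (uno R) a := Polynomial.aeval_C _ _
    rw [h2, RingHom.comp_apply, Polynomial.coe_evalRingHom, Polynomial.eval_C] at h1
    exact h1
  have hqz : q (zu hz) = algebraMap O K c := by
    have h1 := hq X
    have h2 : f X = zu hz := Polynomial.aeval_X _
    rw [h2, RingHom.comp_apply, Polynomial.coe_evalRingHom, Polynomial.eval_X] at h1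
    exact h1
  have hint : ∀ x, q x ∈ integralClosure O K := by
    intro x
    obtain ⟨F, hF, hFx⟩ := hfin.to_isIntegral x
    refine ⟨F.map (Polynomial.evalRingHom c), hF.map _, ?_⟩
    rw [Polynomial.eval₂_map]
    have h1 : (algebraMap O K).comp (Polynomial.evalRingHom c) = q.comp f := by
      refine RingHom.ext fun y => ?_
      exact (hq y).symm
    rw [h1, ← Polynomial.hom_eval₂, hFx, map_zero]
  refine ⟨q.codRestrict (integralClosure O K) hint, fun a => ?_, ?_⟩
  · apply Subtype.ext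
    exact hqa a
  · apply Subtype.ext
    exact hqz

/-- Points which are unramified over the `z`-line are marked points. -/
theorem marks_of (hKFG : Stmt_KFG) {O A : Type} [CommRing O] [CommRing A] {g d n : ℕ}
    {R : Subalgebra O (LaurentSeries O)} (hR : Kr g R) (hd : 0 < d) (hz : zz O d ∈ R)
    (ι : O →+* A) (c : Fin n → O) (p : Fin n → (bc ι (uno R) →ₐ[A] A))
    (hpz : ∀ i, p i (bcMap ι (uno R) (zu hz)) = ι (c i))
    (hdis : ∀ i j, i ≠ j → IsUnit (c i - c j))
    (H : ∀ i, ∀ m : Ideal A, m.IsMaximal → ∃ (κ : Type) (_ : Field κ) (φ : A →+* κ) (h : κ[X]),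
      RingHom.ker φ = m ∧ (d : κ) ≠ 0 ∧ Disc d (bc1 (φ.comp ι) R) h ∧
        h.eval (φ (ι (c i))) ≠ 0) : Marks (bc ι (uno R)) p := by
  let e : bc ι (uno R) ≃ₐ[A] uno (bc1 ι R) := Subalgebra.equivOfEq _ _ (bc_uno ι R)
  have hR' : Kr g (bc1 ι R) := by
    have h1 := (hKBC.2.2.2 (P := uno R) hR ι).1
    rw [bc_uno] at h1
    exact h1
  have hz' : zz A d ∈ bc1 ι R := by
    rw [← lmap_zz ι d]
    exact Algebra.subset_adjoin ⟨zz O d, hz, rfl⟩
  have hez : e (bcMap ι (uno R) (zu hz)) = zu hz' := by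
    apply Subtype.ext
    funext i
    exact lmap_zz ι d
  let q : Fin n → (uno (bc1 ι R) →ₐ[A] A) := fun i =>
    (p i).comp (e.symm : uno (bc1 ι R) →ₐ[A] bc ι (uno R))
  have hq : ∀ i x, q i x = p i (e.symm x) := fun i x => rfl
  have hqz : ∀ i, q i (zu hz') = ι (c i) := by
    intro i
    rw [hq, ← hez, e.symm_apply_apply, hpz]
  refine marks_equiv e.symm (p := q) (fun i x => (hq i x).symm) ⟨fun i j hij => ?_, fun i => ?_⟩
  · have h1 : ∀ i, zu hz' - algebraMap A _ (ι (c i)) ∈ RingHom.ker (q i) := by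
      intro i
      rw [RingHom.mem_ker, map_sub, hqz, AlgHom.commutes]
      exact sub_self _
    have hu : IsUnit (algebraMap A (uno (bc1 ι R)) (ι (c i - c j))) :=
      ((hdis i j hij).map ι).map _
    refine Ideal.eq_top_of_isUnit_mem _ ?_ hu
    have h2 : algebraMap A (uno (bc1 ι R)) (ι (c i - c j)) =
        -(zu hz' - algebraMap A _ (ι (c i))) + (zu hz' - algebraMap A _ (ι (c j))) := by
      rw [map_sub, map_sub]
      ring
    rw [h2]
    exact add_mem (Ideal.mem_sup_left (neg_mem (h1 i))) (Ideal.mem_sup_right (h1 j))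
  · refine ⟨zu hz' - algebraMap A (uno (bc1 ι R)) (q i (zu hz')), ?_, ?_⟩
    · rw [RingHom.mem_ker, map_sub, AlgHom.commutes]
      exact sub_self _
    · refine sm_of hKFG hR' hd hz' (q i) fun m hm => ?_
      obtain ⟨κ, hκ, φ, h, h1, h2, h3, h4⟩ := H i m hm
      refine ⟨κ, hκ, φ, h, h1, h2, ?_, ?_⟩
      · rw [← bc1_comp]
        exact h3
      · rw [hqz]
        exact h4

end points


/-! ### The values -/

/-- Marked points over the integral closure. -/
theorem exists_marks (hKFG : Stmt_KFG) {k O L K : Type} [Field k] [IsAlgClosed k]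
    [CommRing O] [IsDomain O] [Field L] [Field K] [IsAlgClosed K] [CharZero k]
    [Algebra k O] [Algebra O L] [Algebra O K] {g d : ℕ} {R' : Subalgebra L (LaurentSeries L)}
    (hd : 2 ≤ d) (M : Mdl k O L g d R') (n : ℕ) :
    ∃ p : Fin n → (bc (algebraMap O (integralClosure O K)) (uno M.P) →ₐ[integralClosure O K]
      integralClosure O K), Marks (bc (algebraMap O (integralClosure O K)) (uno M.P)) p := by
  have _ : ValuationRing O := M.val
  have _ : IsFractionRing O L := M.frac
  have hdk : (d : k) ≠ 0 := Nat.cast_ne_zero.2 (by omega)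
  have hdO : IsUnit (d : O) := by
    have h1 := (isUnit_iff_ne_zero.2 hdk).map (algebraMap k O)
    rwa [map_natCast] at h1
  -- distinct values of `z`
  have hfb : M.fb ≠ 0 := (M.monic.map _).ne_zero
  have hinf : Set.Infinite {c : k | M.fb.eval c ≠ 0} := by
    have h1 : {c : k | M.fb.eval c ≠ 0} = {c : k | M.fb.IsRoot c}ᶜ := rfl
    rw [h1]
    exact (Polynomial.finite_setOfPred_isRoot hfb).infinite_compl
  let cc : ℕ ↪ {c : k | M.fb.eval c ≠ 0} := hinf.natEmbedding
  let c : Fin n → O := fun i => algebraMap k O (cc i)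
  have hrc : ∀ i, M.rs (c i) = cc i := fun i => M.rs.commutes _
  have hdis : ∀ i j, i ≠ j → IsUnit (c i - c j) := by
    intro i j hij
    rw [← map_sub]
    refine (isUnit_iff_ne_zero.2 (sub_ne_zero.2 fun h => hij ?_)).map _
    have h1 := cc.injective (Subtype.ext h)
    exact Fin.ext h1
  have hfc : ∀ i, IsUnit (M.f.eval (c i)) := by
    intro i
    refine M.unit _ ?_
    have h1 : M.rs (M.f.eval (c i)) = M.fb.eval (M.rs (c i)) := by
      rw [Mdl.fb, Polynomial.eval_map]
      exact (Polynomial.eval₂_hom (f := (M.rs : O →+* k)) (p := M.f) (c i)).symm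
    rw [h1, hrc]
    exact (cc i).2
  -- the points over the integral closure
  choose q hqa hqz using fun i => exists_pt (K := K) hKFG M.kr (by omega) M.z (c i)
  have hint : (algebraMap O (integralClosure O K)).IsIntegral :=
    fun x => integralClosure.isIntegral x
  choose p hp using fun i => exists_hom (P := uno M.P) M.kr
    (algebraMap O (integralClosure O K)) (q i) (hqa i)
  have hmax : ∀ m : Ideal (integralClosure O K), m.IsMaximal →
      ∀ x ∈ IsLocalRing.maximalIdeal O, algebraMap O (integralClosure O K) x ∈ m := by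
    intro m hm x hx
    have _ : Algebra.IsIntegral O (integralClosure O K) := ⟨hint⟩
    have h1 : (m.comap (algebraMap O (integralClosure O K))).IsMaximal :=
      Ideal.isMaximal_comap_of_isIntegral_of_isMaximal (R := O) m
    rw [← IsLocalRing.eq_maximalIdeal h1] at hx
    exact hx
  have hdisc : Disc d (bc1 (algebraMap O L) M.P) (M.f.map (algebraMap O L)) := by
    rw [M.bc]
    exact M.disc
  refine ⟨p, marks_of hKFG M.kr (by omega) M.z _ c p (fun i => ?_) hdis fun i m hm => ?_⟩
  · rw [hp, hqz]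
  · let ψ : O →+* (integralClosure O K) ⧸ m :=
      (Ideal.Quotient.mk m).comp (algebraMap O (integralClosure O K))
    refine ⟨(integralClosure O K) ⧸ m, Ideal.Quotient.field m, Ideal.Quotient.mk m,
      M.f.map ψ, Ideal.mk_ker, ?_, ?_, ?_⟩
    · have h1 := hdO.map ψ
      rw [map_natCast] at h1
      exact h1.ne_zero
    · refine t_DSC hKBC hKBT (L := L) (by omega) hdO M.kr M.z M.monic M.deg hdisc
        ψ ⟨1, fun x hx => ?_⟩
      rw [pow_one] at hx
      rw [RingHom.comp_apply, Ideal.Quotient.eq_zero_iff_mem]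
      exact hmax m hm x hx
    · have h1 : (M.f.map ψ).eval (ψ (c i)) = ψ (M.f.eval (c i)) := by
        rw [Polynomial.eval_map]
        exact Polynomial.eval₂_hom (f := ψ) (p := M.f) (c i)
      change (M.f.map ψ).eval (ψ (c i)) ≠ 0
      rw [h1]
      exact ((hfc i).map ψ).ne_zero


/-- Base change of the value. -/
theorem exists_val {A B : Type} [CommRing A] [CommRing B] [Algebra ℂ A] [Algebra ℂ B]
    {g n : ℕ} (E : Ev0 g n) (φ : A →+* B)
    (hφ : ∀ w : ℂ, φ (algebraMap ℂ A w) = algebraMap ℂ B w) {P : Subalgebra A (KK Unit A)}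
    (hP : Good g P) (p : Fin n → (P →ₐ[A] A)) (hp : Marks P p) :
    ∃ p' : Fin n → (bc φ P →ₐ[B] B), Marks (bc φ P) p' ∧
      E.Φ B Unit (bc φ P) p' = φ (E.Φ A Unit P p) := by
  choose p' hp' using fun i => exists_hom (P := P) hP.1 φ (φ.comp (p i : P →+* A)) (fun a => by
    rw [RingHom.comp_apply]
    exact congrArg φ ((p i).commutes a))
  refine ⟨p', marks_bc φ (p := p) (fun i f => hp' i f) hp, ?_⟩
  let φ' : A →ₐ[ℂ] B := { φ with commutes' := hφ }
  exact E.nat φ' p p' hP hp fun i f => hp' i f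

/-- The value over the algebraic closure is integral and reduces to the value of the
reduction. -/
theorem main (hKFG : Stmt_KFG) (hUGD : Stmt_UGD) {k O L K : Type} [Field k] [IsAlgClosed k]
    [CommRing O] [IsDomain O] [Field L] [Field K] [IsAlgClosed K] [Algebra ℂ k] [Algebra ℂ K]
    [Algebra k O] [Algebra O L] [Algebra O K] [Algebra L K] [IsScalarTower O L K]
    (hℂ : ∀ w : ℂ, algebraMap ℂ K w = algebraMap O K (algebraMap k O (algebraMap ℂ k w)))
    {g d n : ℕ} {R' : Subalgebra L (LaurentSeries L)} (E : Ev0 g n) (hg : 1 ≤ g) (hd : 2 ≤ d)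
    (M : Mdl k O L g d R') (hT : M.Tst) :
    ∃ (y : K) (p : Fin n → (bc (algebraMap L K) (uno R') →ₐ[K] K)),
      Good g (bc (algebraMap L K) (uno R')) ∧ Marks (bc (algebraMap L K) (uno R')) p ∧
      E.Φ K Unit (bc (algebraMap L K) (uno R')) p = y ∧ IsIntegral O y ∧
      ∀ x : O, algebraMap O K x = y → M.Smo → ∀ p, Marks (uno M.Pb) p →
        M.rs x = E.Φ k Unit (uno M.Pb) p := by
  have _ : CharZero k := charZero_of_injective_algebraMap (algebraMap ℂ k).injective
  have _ : ValuationRing O := M.val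
  have _ : IsFractionRing O L := M.frac
  have hOL : Function.Injective (algebraMap O L) := IsFractionRing.injective O L
  have hOK : Function.Injective (algebraMap O K) := by
    rw [IsScalarTower.algebraMap_eq O L K]
    exact (algebraMap L K).injective.comp hOL
  obtain ⟨hgood, hsm⟩ := hUGD M hg hd hT
  obtain ⟨p, hp⟩ := exists_marks (K := K) hKFG hd M n
  let ι : O →+* integralClosure O K := algebraMap O (integralClosure O K)
  have hι : Function.Injective ι := fun x y h => hOK (congrArg Subtype.val h)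
  have hint : ι.IsIntegral := fun x => integralClosure.isIntegral x
  let _ : Algebra ℂ (integralClosure O K) :=
    (ι.comp ((algebraMap k O).comp (algebraMap ℂ k))).toAlgebra
  have hP : Good g (bc ι (uno M.P)) := good_bc ι hgood
  let a : integralClosure O K := E.Φ (integralClosure O K) Unit (bc ι (uno M.P)) p
  -- over `K`
  let φ : integralClosure O K →+* K := (integralClosure O K).subtype
  have hφι : φ.comp ι = (algebraMap L K).comp (algebraMap O L) := by
    rw [← IsScalarTower.algebraMap_eq O L K]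
    rfl
  have h1 := exists_val E φ (fun w => (hℂ w).symm) hP p hp
  have h2 : bc φ (bc ι (uno M.P)) = bc (algebraMap L K) (uno R') := by
    rw [← hKBC.2.1, hφι, hKBC.2.1, bc_uno (algebraMap O L), M.bc]
  have h3 := good_bc φ hP
  rw [h2] at h1 h3
  obtain ⟨p₁, hp₁, hv₁⟩ := h1
  refine ⟨φ a, p₁, h3, hp₁, hv₁, a.2, fun x hx hS p' hp' => ?_⟩
  -- over `k`
  obtain ⟨r, hr⟩ := exists_ext ι hint hι (M.rs : O →+* k)
  have hxa : ι x = a := Subtype.ext hx
  have h4 := exists_val E r (fun w => by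
    change r (ι (algebraMap k O (algebraMap ℂ k w))) = _
    rw [hr]
    exact M.rs.commutes _) hP p hp
  have h5 : bc r (bc ι (uno M.P)) = uno M.Pb := by
    have h6 : r.comp ι = (M.rs : O →+* k) := RingHom.ext hr
    rw [← hKBC.2.1, h6, bc_uno]
    rfl
  rw [h5] at h4
  obtain ⟨p₂, hp₂, hv₂⟩ := h4
  have h6 : IsKr g (uno M.Pb) := by
    have h7 := (good_bc r hP).1
    rw [h5] at h7
    exact h7
  rw [← E.pos p₂ p' h6 (hsm hS) hp₂ hp', hv₂]
  change M.rs x = r a
  rw [← hxa, hr]
  rfl

/-! ### Scaling -/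

section scaling

/-- Scaling as an automorphism of `KK Unit A`. -/
noncomputable def ksc {A : Type} [CommRing A] (c : Aˣ) : KK Unit A ≃ₐ[A] KK Unit A :=
  AlgEquiv.piCongrRight fun _ => scE c

theorem ksc_apply {A : Type} [CommRing A] (c : Aˣ) (f : KK Unit A) (i : Unit) :
    ksc c f i = sc c (f i) := rfl

theorem ksc_Pol {A : Type} [CommRing A] (c : Aˣ) (n : ℤ) (f : KK Unit A) :
    ksc c f ∈ Pol Unit A n ↔ f ∈ Pol Unit A n := by
  constructor
  · intro h
    have h1 := sc_mem_Po c⁻¹ (mem_Pol_unit.1 h)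
    rw [ksc_apply, sc_sc, inv_mul_cancel, sc_one] at h1
    exact mem_Pol_unit.2 h1
  · intro h
    exact mem_Pol_unit.2 (sc_mem_Po c (mem_Pol_unit.1 h))

theorem bc1_sc {A B : Type} [CommRing A] [CommRing B] (φ : A →+* B) (c : Aˣ)
    (R : Subalgebra A (LaurentSeries A)) :
    bc1 φ (R.map (sc c)) = (bc1 φ R).map (sc (Units.map (φ : A →* B) c)) := by
  rw [bc1, bc1, AlgHom.map_adjoin]
  congr 1
  ext f
  constructor
  · rintro ⟨_, ⟨h, hh, rfl⟩, rfl⟩
    exact ⟨lmap φ h, ⟨h, hh, rfl⟩, (lmap_sc φ c h).symm⟩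
  · rintro ⟨_, ⟨h, hh, rfl⟩, rfl⟩
    exact ⟨sc c h, ⟨h, hh, rfl⟩, lmap_sc φ c h⟩

theorem map_ksc {A B : Type} [CommRing A] [CommRing B] (φ : A →+* B) (c : Aˣ)
    (R : Subalgebra A (LaurentSeries A)) :
    (bc φ (uno (R.map (sc c)))).map
      (ksc (Units.map (φ : A →* B) c)⁻¹ : KK Unit B →ₐ[B] KK Unit B) = bc φ (uno R) := by
  rw [bc_uno, bc_uno, bc1_sc]
  ext f
  constructor
  · rintro ⟨h, ⟨w, hw, hwh⟩, rfl⟩
    change sc (Units.map (φ : A →* B) c)⁻¹ (h ()) ∈ bc1 φ R
    have h1 : sc (Units.map (φ : A →* B) c) w = h () := hwh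
    rw [← h1, sc_sc, inv_mul_cancel, sc_one]
    exact hw
  · intro hf
    refine ⟨fun _ => sc (Units.map (φ : A →* B) c) (f ()), ⟨f (), hf, rfl⟩, ?_⟩
    funext i
    change sc (Units.map (φ : A →* B) c)⁻¹ (sc (Units.map (φ : A →* B) c) (f ())) = f i
    rw [sc_sc, inv_mul_cancel, sc_one]

/-- Change of coordinates of the value. -/
theorem exists_aut {A : Type} [CommRing A] [Algebra ℂ A] {g n : ℕ} (E : Ev0 g n)
    (α : KK Unit A ≃ₐ[A] KK Unit A)
    (hα : ∀ (n : ℤ) (f : KK Unit A), α f ∈ Pol Unit A n ↔ f ∈ Pol Unit A n)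
    {P : Subalgebra A (KK Unit A)} (hP : Good g P)
    (hQ : Good g (P.map (α : KK Unit A →ₐ[A] KK Unit A))) (p : Fin n → (P →ₐ[A] A))
    (hp : Marks P p) :
    ∃ p' : Fin n → (P.map (α : KK Unit A →ₐ[A] KK Unit A) →ₐ[A] A),
      Marks (P.map (α : KK Unit A →ₐ[A] KK Unit A)) p' ∧
      E.Φ A Unit (P.map (α : KK Unit A →ₐ[A] KK Unit A)) p' = E.Φ A Unit P p := by
  let e : P ≃ₐ[A] P.map (α : KK Unit A →ₐ[A] KK Unit A) :=
    P.equivMapOfInjective (α : KK Unit A →ₐ[A] KK Unit A) α.injective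
  have he : ∀ f : P, e f = ⟨α f, ⟨f, f.2, rfl⟩⟩ := fun f => rfl
  let p' : Fin n → (P.map (α : KK Unit A →ₐ[A] KK Unit A) →ₐ[A] A) :=
    fun i => (p i).comp (e.symm : P.map (α : KK Unit A →ₐ[A] KK Unit A) →ₐ[A] P)
  have hp' : ∀ i x, p' i (e x) = p i x := by
    intro i x
    change p i (e.symm (e x)) = p i x
    rw [e.symm_apply_apply]
  have hq : Marks (P.map (α : KK Unit A →ₐ[A] KK Unit A)) p' := marks_equiv e hp' hp
  exact ⟨p', hq, E.aut α hα p p' hP hp hQ hq fun i f => hp' i f⟩

end scaling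

end UM2

open UM2

theorem t_UM2 (hKFG : Stmt_KFG) (hUGL : Stmt_UGL) (hUGD : Stmt_UGD) : Stmt_UM2 := by
  intro k L K _ _ _ _ _ _ _ _ _ _ _ _ _ g d n R f E hg hd hR hz hD hf s hs v hT
  have _ : ValuationRing v.O := v.M.val
  have _ : IsFractionRing v.O L := v.M.frac
  let _ : Algebra v.O K := ((algebraMap L K).comp (algebraMap v.O L)).toAlgebra
  have _ : IsScalarTower v.O L K := IsScalarTower.of_algebraMap_eq fun _ => rfl
  obtain ⟨y, p, hgood, hp, hv, hy, hred⟩ := UM2.main (K := K) hKFG hUGD (fun w => by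
    rw [IsScalarTower.algebraMap_apply ℂ L K, IsScalarTower.algebraMap_apply ℂ k L,
      IsScalarTower.algebraMap_apply k v.O L]
    rfl) E hg hd v.M hT
  have _ : CharZero L := charZero_of_injective_algebraMap (algebraMap ℂ L).injective
  have h1 := map_ksc (algebraMap L K) v.c R
  have hgR : Good g (bc (algebraMap L K) (uno R)) :=
    good_bc _ (hUGL (by omega) hR hz hD hf).1
  rw [← h1] at hgR
  obtain ⟨p', hp', hv'⟩ := exists_aut E
    (ksc (Units.map (algebraMap L K : L →* K) v.c)⁻¹) (ksc_Pol _) hgood hgR p hp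
  rw [← h1] at hs
  have h2 := hs p' hp'
  rw [hv', hv] at h2
  have h3 : IsIntegral v.O s := by
    rw [h2] at hy
    exact (isIntegral_algebraMap_iff (algebraMap L K).injective).1 hy
  obtain ⟨x, hx⟩ := IsIntegrallyClosed.isIntegral_iff.1 h3
  refine ⟨x, hx, fun hS p hp => hred x ?_ hS p hp⟩
  rw [h2, ← hx]
  rfl

end Pool.Agent.MG.G0
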