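import Pool.Agent.MG.G0.StmtsV

/-!
# UNO: Noether's theorem at the generic point of a family

Let `ω` be a basis of the regular differentials of `R` over `O`. The matrix `(ωᵢ ωⱼ)_m` with
`0 ≤ m < n` describes the functionals `θ ↦ res (θ ωᵢ ωⱼ)` on the principal parts of order at most
`n`. At the special point its kernel consists of principal parts of vector fields, so that the rank
is at least `3 g - 3`; a minor shows the same at the generic point, and there the kernel contains
the principal parts of the vector fields, a space of the same dimension.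
-/

open Polynomial

namespace Pool.Agent.MG.G0

namespace UNO

section minors

/-- A nonzero minor. -/
theorem exists_minor {κ m n : Type} [Field κ] [Fintype m] [Fintype n] (A : Matrix m n κ) {r : ℕ}
    (h : r ≤ A.rank) : ∃ (a : Fin r → m) (b : Fin r → n), (A.submatrix a b).det ≠ 0 := by
  classical
  rw [Matrix.rank_eq_finrank_span_cols] at h
  obtain ⟨f, hf, -, hli⟩ := Submodule.exists_fun_fin_finrank_span_eq κ (Set.range A.col)
  choose b hb using hf
  let b' : Fin r → n := fun i => b (Fin.castLE h i)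
  have hB : LinearIndependent κ (A.submatrix id b').col := by
    have h1 : (A.submatrix id b').col = fun i => f (Fin.castLE h i) := by
      funext i
      rw [← hb]
      rfl
    rw [h1]
    exact hli.comp _ (Fin.castLE_injective h)
  have hrk : (A.submatrix id b').rank = r := by
    rw [← Matrix.rank_transpose, LinearIndependent.rank_matrix (by exact hB), Fintype.card_fin]
  rw [Matrix.rank_eq_finrank_span_row] at hrk
  obtain ⟨f', hf', -, hli'⟩ := Submodule.exists_fun_fin_finrank_span_eq κ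
    (Set.range (A.submatrix id b').row)
  choose a ha using hf'
  let a' : Fin r → m := fun i => a (Fin.cast hrk.symm i)
  refine ⟨a', b', ?_⟩
  have hC : LinearIndependent κ (A.submatrix a' b').row := by
    have h1 : (A.submatrix a' b').row = fun i => f' (Fin.cast hrk.symm i) := by
      funext i
      rw [← ha]
      rfl
    rw [h1]
    exact hli'.comp _ (Fin.cast_injective _)
  have hu := Matrix.linearIndependent_rows_iff_isUnit.1 hC
  exact ((Matrix.isUnit_iff_isUnit_det _).1 hu).ne_zero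

/-- A nonzero minor bounds the rank. -/
theorem le_rank {κ m n : Type} [Field κ] [Fintype m] [Fintype n] (A : Matrix m n κ) {r : ℕ}
    (a : Fin r → m) (b : Fin r → n) (h : (A.submatrix a b).det ≠ 0) : r ≤ A.rank := by
  classical
  have hu : IsUnit (A.submatrix a b) := (Matrix.isUnit_iff_isUnit_det _).2 (Ne.isUnit h)
  have hli : LinearIndependent κ (A.submatrix a b).col :=
    Matrix.linearIndependent_cols_iff_isUnit.2 hu
  have h1 : LinearIndependent κ fun i => A.col (b i) := by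
    refine LinearIndependent.of_comp (LinearMap.funLeft κ κ a) ?_
    exact hli
  rw [Matrix.rank_eq_finrank_span_cols]
  have h2 : LinearIndependent κ fun i : Fin r =>
      (⟨A.col (b i), Submodule.subset_span ⟨b i, rfl⟩⟩ : Submodule.span κ (Set.range A.col)) := by
    refine LinearIndependent.of_comp (Submodule.subtype _) ?_
    exact h1
  have h3 := h2.fintype_card_le_finrank
  rwa [Fintype.card_fin] at h3

/-- The rank does not drop at the generic point. -/
theorem rank_le {O κ K m n : Type} [CommRing O] [Field κ] [Field K] [Fintype m] [Fintype n]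
    (ρ : O →+* κ) (φ : O →+* K) (hφ : Function.Injective φ) (A : Matrix m n O) {r : ℕ}
    (h : r ≤ (A.map ρ).rank) : r ≤ (A.map φ).rank := by
  obtain ⟨a, b, hab⟩ := exists_minor (A.map ρ) h
  refine le_rank _ a b ?_
  have h1 : ((A.map ρ).submatrix a b).det = ρ ((A.submatrix a b).det) := by
    rw [RingHom.map_det]
    rfl
  have h2 : ((A.map φ).submatrix a b).det = φ ((A.submatrix a b).det) := by
    rw [RingHom.map_det]
    rfl
  rw [h2]
  intro h0
  apply hab
  rw [h1, hφ (h0.trans (map_zero φ).symm), map_zero]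

end minors

section polar

variable {F : Type} [CommRing F]

/-- The principal part of order at most `n`. -/
noncomputable def pol (F : Type) [CommRing F] (n : ℕ) : LaurentSeries F →ₗ[F] (Fin n → F) where
  toFun θ m := θ.coeff (-((m : ℕ) + 1 : ℤ))
  map_add' x y := by
    funext m
    rw [HahnSeries.coeff_add]
    rfl
  map_smul' a x := by
    funext m
    rw [HahnSeries.coeff_smul]
    rfl

theorem pol_apply (n : ℕ) (θ : LaurentSeries F) (m : Fin n) :
    pol F n θ m = θ.coeff (-((m : ℕ) + 1 : ℤ)) := rfl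

/-- The series with a given principal part. -/
noncomputable def thc (n : ℕ) (c : Fin n → F) : LaurentSeries F :=
  ∑ m : Fin n, HahnSeries.single (-((m : ℕ) + 1 : ℤ)) (c m)

theorem thc_mem (n : ℕ) (c : Fin n → F) : thc n c ∈ Po F n := by
  refine Submodule.sum_mem _ fun m _ => ?_
  intro k hk
  refine HahnSeries.coeff_single_of_ne ?_
  have := m.2
  omega

theorem pol_thc (n : ℕ) (c : Fin n → F) : pol F n (thc n c) = c := by
  funext m
  rw [pol_apply, thc, HahnSeries.coeff_sum, Finset.sum_eq_single m]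
  · exact HahnSeries.coeff_single_same _ _
  · intro k _ hk
    refine HahnSeries.coeff_single_of_ne ?_
    intro h
    apply hk
    apply Fin.ext
    omega
  · intro h
    exact (h (Finset.mem_univ _)).elim

theorem pol_eq_zero {n : ℕ} {θ : LaurentSeries F} (h0 : θ ∈ Po F 0) : pol F n θ = 0 := by
  funext m
  exact h0 _ (by omega)

theorem mem_Po0 {n : ℕ} {θ : LaurentSeries F} (h : θ ∈ Po F n) (h0 : pol F n θ = 0) :
    θ ∈ Po F 0 := by
  intro m hm
  by_cases hmn : m < -(n : ℤ)
  · exact h m hmn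
  · have hlt : (-m - 1).toNat < n := by omega
    have h1 := congrFun h0 ⟨(-m - 1).toNat, hlt⟩
    rw [pol_apply] at h1
    have h2 : (-((((-m - 1).toNat : ℕ) : ℤ) + 1) : ℤ) = m := by omega
    simp only [h2] at h1
    exact h1

theorem Po_mono {m n : ℤ} (h : m ≤ n) : Po F m ≤ Po F n := fun _ hf k hk => hf k (by omega)

/-- The residue of a product with a series without pole. -/
theorem coeff_mul_neg_one {n : ℕ} {θ u : LaurentSeries F} (hθ : θ ∈ Po F n) (hu : u ∈ Po F 0) :
    (θ * u).coeff (-1) = ∑ m : Fin n, u.coeff ((m : ℕ) : ℤ) * pol F n θ m := by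
  have hu' : ∀ m < (0 : ℤ), u.coeff m = 0 := fun m hm => hu m (by omega)
  rw [coeff_mul_Icc hθ hu']
  symm
  refine Finset.sum_bij' (fun (m : Fin n) _ => (-((m : ℕ) + 1 : ℤ)))
    (fun i hi => ⟨(-i - 1).toNat, by rw [Finset.mem_Icc] at hi; omega⟩) ?_ ?_ ?_ ?_ ?_
  · intro m _
    have := m.2
    rw [Finset.mem_Icc]
    omega
  · intro i _
    exact Finset.mem_univ _
  · intro m _
    apply Fin.ext
    simp only
    omega
  · intro i hi
    rw [Finset.mem_Icc] at hi
    simp only
    omega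
  · intro m _
    rw [pol_apply, mul_comm]
    congr 2
    omega

end polar

section matrices

variable {O F : Type} [CommRing O] [CommRing F] {g : ℕ}

/-- The matrix of the coefficients of the products. -/
noncomputable def mat (w : Fin g → LaurentSeries O) (n : ℕ) : Matrix (Fin g × Fin g) (Fin n) O :=
  Matrix.of fun ij m => (w ij.1 * w ij.2).coeff ((m : ℕ) : ℤ)

theorem mat_map (ψ : O →+* F) (w : Fin g → LaurentSeries O) (n : ℕ) :
    (mat w n).map ψ = mat (fun j => lmap ψ (w j)) n := by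
  ext ij m
  change ψ ((w ij.1 * w ij.2).coeff _) = (lmap ψ (w ij.1) * lmap ψ (w ij.2)).coeff _
  rw [← map_mul, lmap_coeff]

theorem mulVec_mat {n : ℕ} {w : Fin g → LaurentSeries F} (hw : ∀ j, w j ∈ Po F 0)
    {θ : LaurentSeries F} (hθ : θ ∈ Po F n) (ij : Fin g × Fin g) :
    (mat w n).mulVec (pol F n θ) ij = (θ * w ij.1 * w ij.2).coeff (-1) := by
  have h : w ij.1 * w ij.2 ∈ Po F 0 := by
    intro m hm
    exact mul_low (a := 0) (b := 0) (fun k hk => hw ij.1 k (by omega))
      (fun k hk => hw ij.2 k (by omega)) m (by omega)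
  rw [mul_assoc, coeff_mul_neg_one hθ h]
  rfl

end matrices

section forms

variable {O F : Type} [CommRing O] [CommRing F] {g : ℕ} {R : Subalgebra O (LaurentSeries O)}

theorem mem_kmap (ψ : O →+* F) {η : KK Unit O} (h6 : kmap ψ η ∈ EE (uno (bc1 ψ R))) :
    lmap ψ (η ()) ∈ EE1 (bc1 ψ R) := by
  have h := (mem_EE_uno (η := kmap ψ η)).1 h6
  rw [kmap_apply] at h
  exact h

/-- The base change of the basis of the regular differentials. -/
theorem forms_bc (hKFO : Stmt_KFO) (hKBC : Stmt_KBC) (hR : Kr g R) (ψ : O →+* F)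
    {ω : Fin g → KK Unit O} (hω : IsForms (uno R) ω) :
    Kr g (bc1 ψ R) ∧ (∀ j, lmap ψ (ω j ()) ∈ EE1 (bc1 ψ R)) ∧
      ∀ η ∈ EE1 (bc1 ψ R), ∃ c : Fin g → F, η = ∑ j, c j • lmap ψ (ω j ()) := by
  have h0 := hKBC.2.2.2 hR ψ
  have h1 := h0.1
  have h2 := h0.2.1 ω hω
  rw [bc_uno] at h1 h2
  have h6 := (hKFO h1).2 (fun j => kmap ψ (ω j)) h2
  have h7 : ∀ j, lmap ψ (ω j ()) ∈ EE1 (bc1 ψ R) := fun j => mem_kmap ψ (h6.1 j)
  have h8 : ∀ η ∈ EE1 (bc1 ψ R), ∃ c : Fin g → F, η = ∑ j, c j • lmap ψ (ω j ()) := by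
    intro η hη
    obtain ⟨c, hc, -⟩ := h6.2 (fun _ => η) ((mem_EE_uno (η := (fun _ : Unit => η : KK Unit F))).2 hη)
    refine ⟨c, ?_⟩
    have h9 : η = (∑ j, c j • kmap ψ (ω j)) () := congrFun hc ()
    rw [h9, Finset.sum_apply]
    refine Finset.sum_congr rfl fun j _ => ?_
    rw [Pi.smul_apply, kmap_apply]
  exact ⟨h1, h7, h8⟩

/-- The residues with all regular differentials. -/
theorem res_all {w : Fin g → LaurentSeries F} {θ ω ω' : LaurentSeries F} {c c' : Fin g → F}
    (hω : ω = ∑ j, c j • w j) (hω' : ω' = ∑ j, c' j • w j)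
    (h : ∀ i j, (θ * w i * w j).coeff (-1) = 0) : (θ * ω * ω').coeff (-1) = 0 := by
  have e : θ * ω * ω' = ∑ i, ∑ j, (c i * c' j) • (θ * w i * w j) := by
    rw [hω, Finset.mul_sum, Finset.sum_mul, hω']
    refine Finset.sum_congr rfl fun i _ => ?_
    rw [Finset.mul_sum]
    refine Finset.sum_congr rfl fun j _ => ?_
    rw [mul_smul_comm, mul_smul_comm, smul_mul_assoc, smul_smul, mul_comm]
  rw [e, HahnSeries.coeff_sum]
  refine Finset.sum_eq_zero fun i _ => ?_
  rw [HahnSeries.coeff_sum]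
  refine Finset.sum_eq_zero fun j _ => ?_
  rw [HahnSeries.coeff_smul, h, smul_zero]

end forms

section dims

variable {F : Type} [Field F] {g : ℕ} {R : Subalgebra F (LaurentSeries F)}

/-- The rank at the special point. -/
theorem rank_ge {w : Fin g → LaurentSeries F} (hw : ∀ j, w j ∈ EE1 R)
    (hspan : ∀ η ∈ EE1 R, ∃ c : Fin g → F, η = ∑ j, c j • w j) (hN : Noe R) {n : ℕ}
    [Module.Finite F (TT1 R ⊓ Po F n : Submodule F (LaurentSeries F))]
    (hdim : Module.finrank F (TT1 R ⊓ Po F n : Submodule F (LaurentSeries F)) + 3 * g = n + 3) :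
    3 * g - 3 ≤ (mat w n).rank := by
  have hw0 : ∀ j, w j ∈ Po F 0 := fun j => (hw j).2
  have hle : LinearMap.ker (mat w n).mulVecLin ≤
      (TT1 R ⊓ Po F n : Submodule F (LaurentSeries F)).map (pol F n) := by
    intro c hc
    have hc' : (mat w n).mulVec c = 0 := hc
    have hres : ∀ i j, (thc n c * w i * w j).coeff (-1) = 0 := by
      intro i j
      rw [← mulVec_mat hw0 (thc_mem n c) (i, j), pol_thc, hc']
      rfl
    obtain ⟨θ', hθ', hd⟩ := hN (thc n c) fun ω hω ω' hω' => by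
      obtain ⟨a, ha⟩ := hspan ω hω
      obtain ⟨b, hb⟩ := hspan ω' hω'
      exact res_all ha hb hres
    refine ⟨θ', ⟨hθ', ?_⟩, ?_⟩
    · have e : θ' = thc n c - (thc n c - θ') := by ring
      rw [e]
      exact sub_mem (thc_mem n c) (Po_mono (by positivity) hd)
    · have h1 := pol_eq_zero (n := n) hd
      rw [map_sub, pol_thc, sub_eq_zero] at h1
      exact h1.symm
  have h1 : Module.finrank F (LinearMap.ker (mat w n).mulVecLin) ≤
      Module.finrank F (TT1 R ⊓ Po F n : Submodule F (LaurentSeries F)) :=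
    (Submodule.finrank_mono hle).trans (Submodule.finrank_map_le _ _)
  have h2 := LinearMap.finrank_range_add_finrank_ker (mat w n).mulVecLin
  rw [Module.finrank_fin_fun] at h2
  have h3 : (mat w n).rank = Module.finrank F (LinearMap.range (mat w n).mulVecLin) := rfl
  omega

/-- Noether's theorem from the rank. -/
theorem noe_of_rank {w : Fin g → LaurentSeries F} (hg : 1 ≤ g) (hw : ∀ j, w j ∈ EE1 R)
    (hdual : ∀ θ ∈ TT1 R, ∀ ω ∈ EE1 R, ∀ ω' ∈ EE1 R, (θ * ω * ω').coeff (-1) = 0)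
    (hR : Rgd R) {n : ℕ} (hr : 3 * g - 3 ≤ (mat w n).rank)
    [Module.Finite F (TT1 R ⊓ Po F n : Submodule F (LaurentSeries F))]
    (hdim : Module.finrank F (TT1 R ⊓ Po F n : Submodule F (LaurentSeries F)) + 3 * g = n + 3)
    {θ : LaurentSeries F} (hθ : θ ∈ Po F n)
    (h : ∀ i j, (θ * w i * w j).coeff (-1) = 0) : ∃ θ' ∈ TT1 R, θ - θ' ∈ Po F 0 := by
  have hw0 : ∀ j, w j ∈ Po F 0 := fun j => (hw j).2
  let T : Submodule F (LaurentSeries F) := TT1 R ⊓ Po F n
  have hle : T.map (pol F n) ≤ LinearMap.ker (mat w n).mulVecLin := by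
    rintro _ ⟨x, ⟨hx, hxn⟩, rfl⟩
    change (mat w n).mulVec (pol F n x) = 0
    funext ij
    rw [mulVec_mat hw0 hxn]
    exact hdual x hx _ (hw ij.1) _ (hw ij.2)
  have hinj : Function.Injective ((pol F n).domRestrict T) := by
    rw [injective_iff_map_eq_zero]
    rintro ⟨x, hx, hxn⟩ h0
    have h1 : pol F n x = 0 := h0
    exact Subtype.ext (hR x hx (mem_Po0 hxn h1))
  have h1 : Module.finrank F (T.map (pol F n)) = Module.finrank F T := by
    rw [← LinearMap.range_domRestrict]
    exact LinearMap.finrank_range_of_inj hinj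
  have h2 := LinearMap.finrank_range_add_finrank_ker (mat w n).mulVecLin
  rw [Module.finrank_fin_fun] at h2
  have h3 : (mat w n).rank = Module.finrank F (LinearMap.range (mat w n).mulVecLin) := rfl
  have hdim' : Module.finrank F T + 3 * g = n + 3 := hdim
  have heq : T.map (pol F n) = LinearMap.ker (mat w n).mulVecLin :=
    Submodule.eq_of_le_of_finrank_le hle (by omega)
  have hmem : pol F n θ ∈ LinearMap.ker (mat w n).mulVecLin := by
    change (mat w n).mulVec (pol F n θ) = 0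
    funext ij
    rw [mulVec_mat hw0 hθ]
    exact h ij.1 ij.2
  rw [← heq] at hmem
  obtain ⟨θ', ⟨hθ', hθn⟩, he⟩ := hmem
  refine ⟨θ', hθ', mem_Po0 (n := n) (sub_mem hθ hθn) ?_⟩
  rw [map_sub, he, sub_self]

end dims

/-- Duality for a smooth curve with one puncture. -/
theorem dual_res (hKIL : Stmt_KIL) (hKIS : Stmt_KIS) (hSDF : Stmt_SDF) {K : Type} [Field K]
    [IsAlgClosed K] {g d : ℕ} {R : Subalgebra K (LaurentSeries K)} {f : K[X]} (hd : 1 ≤ d)
    (hfac : ((d.factorial : ℕ) : K) ≠ 0) (hR : Kr g R) (hz : zz K d ∈ R) (hD : Disc d R f)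
    (hf : f.Separable) :
    ∀ θ ∈ TT1 R, ∀ ω ∈ EE1 R, ∀ ω' ∈ EE1 R, (θ * ω * ω').coeff (-1) = 0 := by
  have hd0 : (d : K) ≠ 0 := by
    intro h0
    apply hfac
    obtain ⟨k, hk⟩ := Nat.dvd_factorial hd le_rfl
    rw [hk, Nat.cast_mul, h0, zero_mul]
  obtain ⟨h1, h2⟩ := hKIS hd hfac hR hz (hKIL.1 hd (Ne.isUnit hd0) hR hz hD) hf
  have h3 : Dual (uno R) := hSDF hR h1 h2
  intro θ hθ ω hω ω' hω'
  have h5 : (fun _ : Unit => θ : KK Unit K) ∈ TT (uno R) :=
    (mem_TT_uno (θ := (fun _ : Unit => θ : KK Unit K))).2 hθ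
  have h6 : (fun _ : Unit => ω : KK Unit K) ∈ EE (uno R) :=
    (mem_EE_uno (η := (fun _ : Unit => ω : KK Unit K))).2 hω
  have h7 : (fun _ : Unit => θ : KK Unit K) * (fun _ : Unit => ω : KK Unit K) ∈ uno R :=
    h3 _ h5 _ h6.1
  have h4 : θ * ω ∈ R := h7
  rw [mul_comm (θ * ω)]
  exact hω'.1 (θ * ω) h4

end UNO

open UNO in
/-- UNO (U6): Noether's theorem at the generic point of a family. -/
theorem t_UNO (hKFO : Stmt_KFO) (hKBC : Stmt_KBC) (hDIT : Stmt_DIT) (hKIL : Stmt_KIL)
    (hKIS : Stmt_KIS) (hSDF : Stmt_SDF) : Stmt_UNO := by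
  intro O κ K _ _ _ _ _ ρ φ g d R f f' hφ hg hd hfac hfac' hR hz hD hf hdeg hD' hf' hdeg' hN
  obtain ⟨ω, hω⟩ := (hKFO hR).1
  obtain ⟨hRκ, hwκ, hsκ⟩ := forms_bc hKFO hKBC hR ρ hω
  obtain ⟨hRK, hwK, -⟩ := forms_bc hKFO hKBC hR φ hω
  have hzκ : zz κ d ∈ bc1 ρ R := Algebra.subset_adjoin ⟨zz O d, hz, lmap_zz ρ d⟩
  have hzK : zz K d ∈ bc1 φ R := Algebra.subset_adjoin ⟨zz O d, hz, lmap_zz φ d⟩
  obtain ⟨-, N1, hN1⟩ := hDIT hg hd hfac hRκ hzκ hD hf hdeg
  obtain ⟨hrig, N2, hN2⟩ := hDIT hg hd hfac' hRK hzK hD' hf' hdeg'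
  intro θ hθ
  obtain ⟨N3, hN3⟩ := exists_low θ
  obtain ⟨n, hn1, hn2, hn3⟩ : ∃ n : ℕ, N1 ≤ n ∧ N2 ≤ n ∧ N3 ≤ n :=
    ⟨max N1 (max N2 N3), by omega, by omega, by omega⟩
  obtain ⟨i1, d1⟩ := hN1 n hn1
  obtain ⟨i2, d2⟩ := hN2 n hn2
  have hr := rank_ge hwκ hsκ hN d1
  rw [← mat_map] at hr
  have hr2 := rank_le ρ φ hφ _ hr
  rw [mat_map] at hr2
  refine noe_of_rank (n := n) (by omega) hwK
    (dual_res hKIL hKIS hSDF hd hfac' hRK hzK hD' hf') hrig hr2 d2 ?_ ?_
  · intro m hm
    exact hN3 m (by omega)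
  · intro i j
    exact hθ _ (hwK i) _ (hwK j)

end Pool.Agent.MG.G0
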