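import Pool.Agent.MG.G0.StmtsW

/-!
# UPL: ultraproducts of places (PAPER_V.md)

The ultraproduct of the models over `Rₙ.map (sc cₙ)` (UMD) is a model over
`UP (Rₙ.map (sc cₙ)) = (UP R).map (sc c)` (UKR). For almost all `n` the model is of type `Smo`, or
for almost all `n` it is of type `Nod`.
-/

open Polynomial

namespace Pool.Agent.MG.G0

namespace UPL

/-- Transport of a model along an equality of Krichever rings. -/
theorem cast {k O L : Type} [Field k] [CommRing O] [IsDomain O] [Field L] [Algebra k O]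
    [Algebra O L] {g d : ℕ} {R R' : Subalgebra L (LaurentSeries L)} (e : R' = R)
    (M : Mdl k O L g d R') : ∃ M' : Mdl k O L g d R, M'.P = M.P ∧ M'.Pb = M.Pb ∧
      (M.Smo → M'.Smo) ∧ (M.Nod → M'.Nod) := by
  subst e
  exact ⟨M, rfl, rfl, id, id⟩

/-- Transport of differentials along an equality of Krichever rings. -/
theorem cast_EE {O : Type} [CommRing O] {P P' : Subalgebra O (LaurentSeries O)} (e : P = P')
    {r : ℕ} (η : Fin r → EE1 P') :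
    ∃ η' : Fin r → EE1 P, ∀ i, (η' i : LaurentSeries O) = (η i : LaurentSeries O) := by
  subst e
  exact ⟨η, fun _ => rfl⟩

variable (𝒰 : Ultrafilter ℕ)

/-- The tower of ultraproducts. -/
theorem tower {k O L : ℕ → Type} [∀ n, CommRing (k n)] [∀ n, CommRing (O n)]
    [∀ n, CommRing (L n)] [∀ n, Algebra (k n) (O n)] [∀ n, Algebra (O n) (L n)]
    [∀ n, Algebra (k n) (L n)] [∀ n, IsScalarTower (k n) (O n) (L n)] (x : Ul 𝒰 k) :
    umap 𝒰 (fun n => algebraMap (k n) (L n)) x =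
      umap 𝒰 (fun n => algebraMap (O n) (L n)) (umap 𝒰 (fun n => algebraMap (k n) (O n)) x) := by
  obtain ⟨a, rfl⟩ := umk_surj 𝒰 x
  rw [umap_umk, umap_umk, umap_umk]
  congr 1
  funext n
  exact IsScalarTower.algebraMap_apply (k n) (O n) (L n) (a n)

/-- The reduction of the ultraproduct of models. -/
theorem Pb_eq (hUKR : Stmt_UKR) {k O L : ℕ → Type} [∀ n, Field (k n)] [∀ n, CommRing (O n)]
    [∀ n, IsDomain (O n)] [∀ n, Field (L n)] [∀ n, Algebra (k n) (O n)]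
    [∀ n, Algebra (O n) (L n)] {g d : ℕ} {R : ∀ n, Subalgebra (L n) (LaurentSeries (L n))}
    (M : ∀ n, Mdl (k n) (O n) (L n) g d (R n)) (hg : 1 ≤ g) (rs : Ul 𝒰 O →+* Ul 𝒰 k)
    (hrs : ∀ x : ∀ n, O n, rs (umk 𝒰 x) = umk 𝒰 fun n => (M n).rs (x n)) :
    bc1 rs (UP 𝒰 fun n => (M n).P) = UP 𝒰 fun n => (M n).Pb := by
  have h := (hUKR 𝒰 (fun n => (M n).P) hg (fun n => (M n).kr)).2.2.2.1
    (fun n => ((M n).rs : O n →+* k n))
  have h2 : rs = umap 𝒰 (fun n => ((M n).rs : O n →+* k n)) := RingHom.ext fun x => by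
    obtain ⟨a, rfl⟩ := umk_surj 𝒰 x
    exact hrs a
  rw [h2, ← h]
  rfl

end UPL

/-- UPL: ultraproducts of places. -/
theorem t_UPL (hUKR : Stmt_UKR) (hUMD : Stmt_UMD) : Stmt_UPL := by
  intro 𝒰 k L _ _ _ g d R v hg hd hR hT
  let a1 : Algebra (Ul 𝒰 k) (Ul 𝒰 L) := (umap 𝒰 fun n => algebraMap (k n) (L n)).toAlgebra
  let a2 : Algebra (Ul 𝒰 k) (UO 𝒰 v) := (umap 𝒰 fun n => algebraMap (k n) (v n).O).toAlgebra
  let a3 : Algebra (UO 𝒰 v) (Ul 𝒰 L) := (umap 𝒰 fun n => algebraMap (v n).O (L n)).toAlgebra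
  have a4 : IsScalarTower (Ul 𝒰 k) (UO 𝒰 v) (Ul 𝒰 L) :=
    IsScalarTower.of_algebraMap_eq fun x => UPL.tower (O := fun n => (v n).O) 𝒰 x
  obtain ⟨a5, M, hrs, -, hP, -, hS, hN⟩ := hUMD 𝒰 (fun n => (v n).M) hg hd
  have e : UP 𝒰 (fun n => (R n).map (sc (v n).c)) = (UP 𝒰 R).map (sc (uc 𝒰 v)) :=
    (hUKR 𝒰 R hg hR).2.2.2.2.1 (fun n => (v n).c) (uc 𝒰 v) rfl
  have hPb : M.Pb = UP 𝒰 (fun n => (v n).M.Pb) := by
    rw [← UPL.Pb_eq 𝒰 hUKR (fun n => (v n).M) hg (M.rs : Ul 𝒰 (fun n => (v n).O) →+* Ul 𝒰 k) hrs,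
      ← hP]
    rfl
  obtain ⟨M', h1, h2, h3, h4⟩ := UPL.cast e M
  refine ⟨⟨UO 𝒰 v, uc 𝒰 v, M'⟩, ?_, ?_, h2.trans hPb, ?_, ?_⟩
  · have h5 : ∀ᶠ n in (𝒰 : Filter ℕ), (v n).M.Smo ∨ (v n).M.Nod :=
      Filter.Eventually.of_forall hT
    rw [Ultrafilter.eventually_or] at h5
    exact h5.imp (fun h => h3 (hS h)) fun h => h4 (hN h)
  · intro h
    refine Units.ext ?_
    change umk 𝒰 (fun n => ((v n).c : L n)) = 1
    rw [← map_one (umk 𝒰)]
    congr 1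
    funext n
    rw [h n]
    rfl
  · intro s h
    exact h
  · intro r S h ω η hη
    have h6 : M'.P = uOP 𝒰 v := h1.trans hP
    obtain ⟨η', h7⟩ := UPL.cast_EE h6 η
    exact h ω η' fun i => (congrArg (lmap (uOL 𝒰 v)) (h7 i)).trans (hη i)

end Pool.Agent.MG.G0
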