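import Pool.Agent.MG.G0.StmtsV
import Pool.Agent.MG.G0.StmtsK
import Pool.Agent.MG.G0.StmtsS
import Pool.Agent.MG.G0.StmtsLOG
import Pool.Agent.MG.G0.StmtsNP

/-!
# UPO: Kähler differentials on a model (helper98)
-/

open Polynomial

namespace Pool.Agent.MG.G0

namespace UPO

theorem kr_bc1 (hKBC : Stmt_KBC) {A B : Type} [CommRing A] [CommRing B] {g : ℕ}
    {R : Subalgebra A (LaurentSeries A)} (h : Kr g R) (φ : A →+* B) : Kr g (bc1 φ R) := by
  have h1 := (hKBC.2.2.2 (P := uno R) h φ).1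
  rw [bc_uno] at h1
  exact h1

theorem zz_bc1 {A B : Type} [CommRing A] [CommRing B] {d : ℕ}
    {R : Subalgebra A (LaurentSeries A)} (h : zz A d ∈ R) (φ : A →+* B) : zz B d ∈ bc1 φ R := by
  rw [← lmap_zz φ d]
  exact Algebra.subset_adjoin ⟨zz A d, h, rfl⟩

theorem bc1_comp (hKBC : Stmt_KBC) {A B C : Type} [CommRing A] [CommRing B] [CommRing C]
    (φ : A →+* B) (ψ : B →+* C) (R : Subalgebra A (LaurentSeries A)) :
    bc1 (ψ.comp φ) R = bc1 ψ (bc1 φ R) := by
  have h := hKBC.2.1 (I := Unit) φ ψ (uno R)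
  rw [bc_uno, bc_uno, bc_uno] at h
  have h2 := congrArg duo h
  rwa [duo_uno, duo_uno] at h2

/-- The quotient of `O` by the power `π ^ 3`, and its residue map. -/
theorem quot {κ O : Type} [Field κ] [CommRing O] [Algebra κ O] (D : LD κ O) :
    ∃ (A : Type) (_ : CommRing A) (_ : Algebra κ A) (ρ : O →+* A) (rs : A →ₐ[κ] κ),
      Function.Surjective ρ ∧ (∀ x, ρ x = 0 ↔ D.π ^ 3 ∣ x) ∧
      (rs : A →+* κ).comp ρ = (D.rs : O →+* κ) ∧ RingHom.ker (rs : A →+* κ) ^ 3 = ⊥ ∧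
      (RingHom.ker (rs : A →+* κ)).FG := by
  let I : Ideal O := Ideal.span {D.π ^ 3}
  have hI : ∀ a, a ∈ I → D.rs a = 0 := by
    intro a ha
    obtain ⟨b, rfl⟩ := Ideal.mem_span_singleton.1 ha
    rw [map_mul, map_pow, D.rsπ]
    ring
  let rs : (O ⧸ I) →ₐ[κ] κ := Ideal.Quotient.liftₐ I D.rs hI
  have hrs : ∀ x : O, rs (Ideal.Quotient.mk I x) = D.rs x := fun x => rfl
  have hker : RingHom.ker (rs : (O ⧸ I) →+* κ) = Ideal.span {Ideal.Quotient.mk I D.π} := by
    apply le_antisymm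
    · intro x hx
      obtain ⟨y, rfl⟩ := Ideal.Quotient.mk_surjective x
      have h1 : D.rs y = 0 := hx
      obtain ⟨z, rfl⟩ := D.ker y h1
      rw [Ideal.mem_span_singleton]
      exact ⟨Ideal.Quotient.mk I z, map_mul _ _ _⟩
    · rw [Ideal.span_singleton_le_iff_mem]
      change rs (Ideal.Quotient.mk I D.π) = 0
      rw [hrs, D.rsπ]
  refine ⟨O ⧸ I, inferInstance, inferInstance, Ideal.Quotient.mk I, rs,
    Ideal.Quotient.mk_surjective, ?_, ?_, ?_, ?_⟩
  · intro x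
    rw [Ideal.Quotient.eq_zero_iff_mem]
    exact Ideal.mem_span_singleton
  · exact RingHom.ext fun x => hrs x
  · rw [hker, Ideal.span_singleton_pow, ← map_pow]
    have h0 : Ideal.Quotient.mk I (D.π ^ 3) = 0 :=
      Ideal.Quotient.eq_zero_iff_mem.2 (Ideal.mem_span_singleton_self _)
    rw [h0, Ideal.span_singleton_eq_bot]
  · rw [hker]
    exact ⟨{Ideal.Quotient.mk I D.π}, by rw [Finset.coe_singleton]⟩

end UPO

open UPO in
/-- UPO -/
theorem t_UPO (hKBC : Stmt_KBC) (hSDF : Stmt_SDF) (hSTO : Stmt_STO) (hMSM : Stmt_MSM)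
    (hPL7 : Stmt_PL7) (hNPL : Stmt_NPL) (hSPR : Stmt_SPR) : Stmt_UPO := by
  intro κ O L _ _ _ _ _ _ _ _ g d R M hg hd
  obtain ⟨g', rfl⟩ : ∃ g', g = g' + 1 := ⟨g - 1, by omega⟩
  have hfac : ((d.factorial : ℕ) : κ) ≠ 0 := Nat.cast_ne_zero.2 (Nat.factorial_ne_zero d)
  have hval : ValuationRing O := M.val
  have hd1 : 1 ≤ d := by omega
  have hcast : ∀ n : ℕ, n ≠ 0 → IsUnit (n : O) := by
    intro n hn
    have h1 : IsUnit (n : κ) := isUnit_iff_ne_zero.2 (Nat.cast_ne_zero.2 hn)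
    have h2 := h1.map (algebraMap κ O)
    rwa [map_natCast] at h2
  have hdO : IsUnit (d : O) := hcast d (by omega)
  have hπu : ¬ IsUnit M.π := by
    intro h
    have h1 := h.map M.rs
    rw [M.rsπ] at h1
    exact not_isUnit_zero h1
  obtain ⟨hKil, hDisc, hSm⟩ := hMSM M hd hfac
  refine ⟨fun hS => ?_, fun hN => ?_⟩
  · obtain ⟨h1, h2⟩ := hSm inferInstance hS
    have hkr : IsKr (g' + 1) (uno M.Pb) := kr_bc1 hKBC M.kr _
    have hD : Dual (uno M.Pb) := hSDF hkr h1 h2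
    have hP : Perp (uno M.Pb) ≤ Om (uno M.Pb) := ((hSTO hkr).2.2.2.2 h2).2.2.1 hD
    have hrs : Function.Surjective (M.rs : O →+* κ) :=
      fun c => ⟨algebraMap κ O c, M.rs.commutes c⟩
    have h3 := hSPR (M.rs : O →+* κ) (R := M.P) (f := M.f) (π := M.π) (u := 1) (m := 0) (M := 1)
      hrs M.ne hπu isUnit_one (by norm_num)
      (fun x => ⟨fun h => by rw [pow_one]; exact M.ker x h, fun h => by
        rw [pow_one] at h
        obtain ⟨y, rfl⟩ := h
        change M.rs (M.π * y) = 0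
        rw [map_mul, M.rsπ, zero_mul]⟩) hd1 hdO M.kr M.z M.monic hKil
      (fun x hx => by
        rw [pow_zero, mul_one, map_one, one_smul]
        exact hP hx)
    intro x hx
    have h4 := h3 x hx
    rwa [pow_zero, mul_one, one_smul] at h4
  · obtain ⟨c, s₀, u, h, ⟨h', hfb, hc', hsep⟩, hGRk, hs, hu, hf, hev⟩ := hN
    obtain ⟨A, _, _, ρ, rs, hρ, hρ0, hcomp, hk3, hFG⟩ := quot M.toLD
    have hcomp' : ∀ x, rs (ρ x) = M.rs x := fun x => congrArg (fun F => F x) hcomp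
    have h4O : IsUnit (4 : O) := by
      have := hcast 4 (by norm_num)
      exact_mod_cast this
    obtain ⟨v, hv⟩ := h4O.exists_left_inv
    have hv' : IsUnit v := IsUnit.of_mul_eq_one (4 : O) hv
    have hvu : IsUnit (v * u) := hv'.mul hu
    have h4t : (4 : O) * (v * u * M.π ^ 2) = M.π ^ 2 * u := by
      linear_combination (u * M.π ^ 2) * hv
    have h4t' : (4 : A) * ρ (v * u * M.π ^ 2) = ρ (M.π ^ 2 * u) := by
      rw [← h4t, map_mul ρ 4, map_ofNat]
    have hdisc : Disc d (bc1 ρ M.P)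
        (((X - C (ρ s₀)) ^ 2 - C (4 * ρ (v * u * M.π ^ 2))) * h.map ρ) := by
      have h1 := hDisc ρ ⟨3, (hρ0 _).2 (dvd_refl _)⟩
      rw [hf, Polynomial.map_mul, Polynomial.map_sub, Polynomial.map_pow, Polynomial.map_sub,
        Polynomial.map_X, Polynomial.map_C, Polynomial.map_C, ← h4t'] at h1
      exact h1
    have hmap : (h.map ρ).map (rs : A →+* κ) = h.map (M.rs : O →+* κ) := by
      rw [Polynomial.map_map, hcomp]
    have hπ0 : M.rs (M.π ^ 2 * u) = 0 := by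
      rw [map_mul, map_pow, M.rsπ]
      ring
    have hfb2 : M.fb = (X - C c) ^ 2 * h.map (M.rs : O →+* κ) := by
      have h1 : M.fb = M.f.map (M.rs : O →+* κ) := rfl
      have h2 : (M.rs : O →+* κ) (M.π ^ 2 * u) = 0 := hπ0
      have h3 : (M.rs : O →+* κ) s₀ = c := hs
      rw [h1, hf, Polynomial.map_mul, Polynomial.map_sub, Polynomial.map_pow, Polynomial.map_sub,
        Polynomial.map_X, Polynomial.map_C, Polynomial.map_C, h2, h3, C_0, sub_zero]
    have hh' : h.map (M.rs : O →+* κ) = h' := by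
      have h1 : (X - C c) ^ 2 ≠ 0 := pow_ne_zero 2 (X_sub_C_ne_zero c)
      exact mul_left_cancel₀ h1 (hfb2.symm.trans hfb)
    have hbcb : bc1 (rs : A →+* κ) (bc1 ρ M.P) = M.Pb := by
      rw [← bc1_comp hKBC, hcomp]
      rfl
    have ht0 : rs (ρ (v * u * M.π ^ 2)) = 0 := by
      rw [hcomp', map_mul, map_pow, M.rsπ]
      ring
    obtain ⟨R', hR', hfs, hsm, hdual, pt, hdisj, hPT⟩ := hNPL rs (P := bc1 ρ M.P)
      (h := h.map ρ) (s := ρ s₀) (t := ρ (v * u * M.π ^ 2)) ⟨3, hk3⟩ hFG hd hfac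
      (kr_bc1 hKBC M.kr ρ) (zz_bc1 M.z ρ) hdisc ht0 (by rw [hmap, hh']; exact hsep)
      (by
        rw [hmap, hcomp', hs]
        exact hev)
      (by
        rw [hbcb, hcomp', hs]
        exact hGRk)
    have hnil : IsNilpotent (ρ (v * u * M.π ^ 2)) := by
      refine ⟨2, ?_⟩
      rw [← map_pow, hρ0]
      exact ⟨(v * u) ^ 2 * M.π, by ring⟩
    have hP7 := hPL7 hR' hsm hdual pt hdisj _ hnil
    rw [hPT] at hP7
    have h3 := hSPR ρ (R := M.P) (f := M.f) (π := M.π) (u := v * u) (m := 2) (M := 3)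
      hρ M.ne hπu hvu (by norm_num) hρ0 hd1 hdO M.kr M.z M.monic hKil hP7
    intro x hx
    have h4 := h3 x hx
    obtain ⟨w, hw⟩ := hvu.exists_left_inv
    have h5 := Submodule.smul_mem (Om (uno M.P)) w h4
    rw [smul_smul, ← mul_assoc, hw, one_mul] at h5
    exact h5

end Pool.Agent.MG.G0
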