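import Pool.Agent.MG.G0.StmtsW

/-!
# UPR: primes congruent to -1 modulo m
-/

namespace Pool.Agent.MG.G0

theorem t_UPR : Stmt_UPR := by
  intro m N hm
  have : NeZero m := ⟨by omega⟩
  obtain ⟨p, hp, hpp, hpm⟩ := Nat.forall_exists_prime_gt_and_eq_mod
    (q := m) (a := -1) isUnit_one.neg N
  refine ⟨p, hp, hpp, ?_⟩
  have h1 : ((p + 1 : ℕ) : ZMod m) = 0 := by
    push_cast
    rw [hpm]
    ring
  rw [ZMod.natCast_eq_zero_iff] at h1
  obtain ⟨c, hc⟩ := h1
  have hc0 : 1 ≤ c := by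
    rcases Nat.eq_zero_or_pos c with h | h
    · subst h
      omega
    · exact h
  obtain ⟨c', rfl⟩ := Nat.exists_eq_add_of_le hc0
  have h2 : p = (m - 1) + m * c' := by
    have : p + 1 = m + m * c' := by
      rw [hc]
      ring
    omega
  rw [h2, Nat.add_mul_mod_self_left]
  exact Nat.mod_eq_of_lt (by omega)

end Pool.Agent.MG.G0
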