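import Pool.Agent.MG.G0.StmtsW
import Pool.Agent.MG.G0.StmtsG

/-!
# URG: the ultraproduct of special curves is a special curve (PAPER_V.md, URG)
-/

namespace Pool.Agent.MG.G0

namespace URG

variable (𝒰 : Ultrafilter ℕ) {k : ℕ → Type} [∀ n, Field (k n)]

theorem USer_lmap (f : LaurentSeries (∀ n, k n)) :
    USer 𝒰 (lmap (umk 𝒰) f) (fun n => lmap (Pi.evalRingHom k n) f) := by
  obtain ⟨N, hN⟩ := exists_low f
  refine ⟨⟨N, fun n m hm => ?_⟩, fun m => ?_⟩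
  · rw [lmap_coeff, hN m hm, map_zero]
  · rw [lmap_coeff]
    rfl

theorem le_UP (R' : Subalgebra (∀ n, k n) (LaurentSeries (∀ n, k n)))
    (R : ∀ n, Subalgebra (k n) (LaurentSeries (k n)))
    (h : ∀ n, bc1 (Pi.evalRingHom k n) R' = R n) : bc1 (umk 𝒰) R' ≤ UP 𝒰 R := by
  refine Algebra.adjoin_le ?_
  rintro _ ⟨f, hf, rfl⟩
  refine ⟨_, USer_lmap 𝒰 f, fun n => ?_⟩
  rw [← h n]
  exact Algebra.subset_adjoin ⟨f, hf, rfl⟩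

end URG

theorem t_URG (hKEQ : Stmt_KEQ) (hUKR : Stmt_UKR) (hGRA : Stmt_GRA) : Stmt_URG := by
  intro 𝒰 k _ g ζ R hg hfac hR
  obtain ⟨h1, h2, h3⟩ := hGRA g hg
  have hu : IsUnit (((6 * g + 9).factorial : ℕ) : ∀ n, k n) := by
    rw [Pi.isUnit_iff]
    intro n
    rw [Pi.natCast_apply]
    exact (hfac n).isUnit
  obtain ⟨R', hR'⟩ := h1 ζ hu
  have hb : ∀ n, bc1 (Pi.evalRingHom k n) R' = R n := fun n =>
    (h2 (ζ n) (R n) (hR n)).1 _ (h3 ζ R' hR' (Pi.evalRingHom k n))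
  have hU : RG g (umk 𝒰 ζ) (bc1 (umk 𝒰) R') := h3 ζ R' hR' (umk 𝒰)
  have hK1 : Kr g (bc1 (umk 𝒰) R') := (h2 _ _ hU).2.1
  have hK2 : Kr g (UP 𝒰 R) := (hUKR 𝒰 R (by omega) fun n => (h2 _ _ (hR n)).2.1).1
  have hle : uno (bc1 (umk 𝒰) R') ≤ uno (UP 𝒰 R) := fun f hf => URG.le_UP 𝒰 R' R hb hf
  have he := hKEQ hK1 hK2 hle
  have he' : bc1 (umk 𝒰) R' = UP 𝒰 R := by
    rw [← duo_uno (bc1 (umk 𝒰) R'), he, duo_uno]
  rw [← he']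
  exact hU

end Pool.Agent.MG.G0
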