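import Pool.Agent.MG.G0.GRA

/-!
# The special curve in the coordinate `σ` (`ζ = 0`)
-/

namespace Pool.Agent.MG.G0

/-- GSC: `S.R` is the ring of the special curve for `ζ = 0`; the rings for different `ζ` differ by
a change of the coordinate. -/
def Stmt_GSC : Prop :=
  ∀ {A : Type} [CommRing A] (g : ℕ), 2 ≤ g →
    (∀ S : SCD A, S.g = g → (S.a = if 3 ∣ g + 1 then 1 else 0) → RG g 0 S.R) ∧
    ∀ (ζ : A) (R R₀ : Subalgebra A (LaurentSeries A)), RG g ζ R → RG g 0 R₀ →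
      ∃ (u : PowerSeries A) (Φ : LaurentSeries A ≃ₐ[A] LaurentSeries A),
        PowerSeries.constantCoeff u = 0 ∧ PowerSeries.coeff 1 u = 1 ∧
        IsSub u (Φ : LaurentSeries A →ₐ[A] LaurentSeries A) ∧
        R = R₀.comap (Φ : LaurentSeries A →ₐ[A] LaurentSeries A)

namespace GSC

theorem rg_zero {A : Type} [CommRing A] (g : ℕ) (S : SCD A) (h1 : S.g = g)
    (h2 : S.a = if 3 ∣ g + 1 then 1 else 0) : RG g 0 S.R := by
  have hX : psl A PowerSeries.X = HahnSeries.single (1 : ℤ) 1 := HahnSeries.ofPowerSeries_X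
  refine ⟨S, PowerSeries.X, AlgEquiv.refl, h1, h2, PowerSeries.constantCoeff_X,
    PowerSeries.coeff_one_X, ⟨fun n f hf => hf, ?_⟩, ?_, ?_⟩
  · change HahnSeries.single 1 1 = psl A PowerSeries.X
    rw [hX]
  · rw [zero_smul, add_zero, hX, HahnSeries.single_pow, one_pow, zz, HahnSeries.single_pow,
      one_pow, HahnSeries.single_mul_single, one_mul, nsmul_eq_mul, nsmul_eq_mul]
    have : ((6 * g + 9 : ℕ) : ℤ) * 1 + ((2 * g + 3 : ℕ) : ℤ) * (-((3 : ℕ) : ℤ)) = 0 := by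
      push_cast
      ring
    rw [this]
    rfl
  · ext f
    rfl

end GSC

open GSC in
theorem t_GSC (hGRA : Stmt_GRA) : Stmt_GSC := by
  intro A _ g hg
  refine ⟨fun S => rg_zero g S, ?_⟩
  intro ζ R R₀ hR hR₀
  obtain ⟨S, u, Φ, hS1, hS2, hu0, hu1, hΦ, hu, hRe⟩ := hR
  have h0 := rg_zero g S hS1 hS2
  have h1 := ((hGRA g hg).2.1 0 S.R h0).1 R₀ hR₀
  subst h1
  exact ⟨u, Φ, hu0, hu1, hΦ, hRe⟩

end Pool.Agent.MG.G0
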