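import Pool.Agent.MG.G0.StmtsV
import Pool.Agent.MG.G0.GSC

/-!
# USC: the value at the special curve is a complex number
-/

namespace Pool.Agent.MG.G0

namespace USC

open SUB

theorem rg_good (hGRA : Stmt_GRA) {g : ℕ} (hg : 2 ≤ g) {A : Type} [CommRing A] {ζ : A}
    {R : Subalgebra A (LaurentSeries A)} (hR : RG g ζ R) : Good g (uno R) := by
  refine ⟨((hGRA g hg).2.1 ζ R hR).2.1, fun κ _ _ φ => Or.inl ?_⟩
  have h1 := (hGRA g hg).2.2 ζ R hR φ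
  have h2 := (hGRA g hg).2.1 _ _ h1
  rw [bc_uno]
  exact ⟨h2.2.2.2.1, h2.2.2.2.2.1⟩

theorem phi_congr {g : ℕ} {A : Type} [CommRing A] [Algebra ℂ A] (E : Ev g)
    {P P' : Subalgebra A (KK Unit A)} (h : P = P') :
    E.Φ A Unit P 0 = E.Φ A Unit P' 0 := by
  subst h
  rfl

end USC

open USC SUB in
/-- USC: the value at the special curve is a complex number. -/
theorem t_USC (hGRA : Stmt_GRA) : Stmt_USC := by
  intro g hg k _ _ _ E
  obtain ⟨R₀, hR₀⟩ := (hGRA g hg).1 (A := ℂ) 0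
    (IsUnit.mk0 _ (Nat.cast_ne_zero.2 (Nat.factorial_ne_zero _)))
  refine ⟨E.Φ ℂ Unit (uno R₀) 0, fun ζ R hR => ?_⟩
  -- base change to `k`
  let φ : ℂ →ₐ[ℂ] k := Algebra.ofId ℂ k
  have h1 : E.Φ k Unit (bc (φ : ℂ →+* k) (uno R₀)) 0 = φ (E.Φ ℂ Unit (uno R₀) 0) := by
    refine E.nat φ (uno R₀) (rg_good hGRA hg hR₀) 0 0 ?_
    intro D D' _
    exact (map_zero (φ : ℂ →+* k)).symm
  have h2 : E.Φ k Unit (bc (φ : ℂ →+* k) (uno R₀)) 0 =
      E.Φ k Unit (uno (bc1 (φ : ℂ →+* k) R₀)) 0 := phi_congr E (bc_uno _ _)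
  have hR1 : RG g (0 : k) (bc1 (φ : ℂ →+* k) R₀) := by
    have := (hGRA g hg).2.2 0 R₀ hR₀ (φ : ℂ →+* k)
    rwa [map_zero] at this
  -- change of the coordinate
  obtain ⟨u, Φ, hu0, hu1, hΦ, hRe⟩ := (t_GSC hGRA g hg).2 ζ R _ hR hR1
  have hu1' : IsUnit (PowerSeries.coeff 1 u) := by rw [hu1]; exact isUnit_one
  have h3 : E.Φ k Unit (uno (bc1 (φ : ℂ →+* k) R₀)) 0 = E.Φ k Unit (uno R) 0 := by
    refine E.aut (kk Φ) (fun n f => ?_) (uno R) _ (rg_good hGRA hg hR) (rg_good hGRA hg hR1)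
      (fun f => ?_) 0 0 (fun _ _ _ => rfl)
    · rw [mem_Pol_unit, mem_Pol_unit, kk_apply]
      exact mem_iff hΦ n (f ())
    · rw [mem_uno, mem_uno, kk_apply, hRe, Subalgebra.mem_comap]
      rfl
  rw [← h3, ← h2, h1]
  rfl

end Pool.Agent.MG.G0
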