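import Pool.Agent.MG.G0.StmtsB
import Pool.Agent.MG.G0.StmtsZL
import Pool.Agent.MG.G0.ZL.L1

/-!
# ZBA: the family over a ring with a nilpotent `t`
-/

open Polynomial

namespace Pool.Agent.MG.G0

namespace ZBA

section

variable {A : Type} [CommRing A]

/-- The coefficients of `q(z)` are coefficients of `q`. -/
theorem zpol_coeff_mem {J : Ideal A} {d : ℕ} (hd : d ≠ 0) {q : A[X]}
    (hq : ∀ i, q.coeff i ∈ J) (m : ℤ) : (zpol A d q).coeff m ∈ J := by
  by_cases h : ∃ k : ℕ, m = -((d * k : ℕ) : ℤ)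
  · obtain ⟨k, rfl⟩ := h
    have e : (zpol A d q).coeff (-((d * k : ℕ) : ℤ)) = q.coeff k := ZL.ev_coeff d hd q k
    rw [e]
    exact hq k
  · have e : (zpol A d q).coeff m = 0 := ZL.ev_coeff_ne d q m fun k hk => h ⟨k, hk⟩
    rw [e]
    exact J.zero_mem

theorem span_pow {t : A} (ht : IsNilpotent t) : ∃ n : ℕ, Ideal.span {t} ^ n = ⊥ := by
  obtain ⟨n, hn⟩ := ht
  exact ⟨n, by rw [Ideal.span_singleton_pow, hn, Ideal.span_singleton_eq_bot]⟩

/-- A polynomial which divides and is divided modulo a nilpotent ideal. -/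
theorem exists_unit {t : A} (ht : IsNilpotent t) {F P : A[X]} (hP : P.Monic) (hdvd : P ∣ F)
    (hF : F.map (Ideal.Quotient.mk (Ideal.span {t})) =
      P.map (Ideal.Quotient.mk (Ideal.span {t}))) :
    ∃ q : A[X], IsUnit q ∧ F = q * P := by
  obtain ⟨q, hq⟩ := hdvd
  refine ⟨q, ?_, by rw [hq, mul_comm]⟩
  have h1 : q.map (Ideal.Quotient.mk (Ideal.span {t})) = 1 := by
    have h2 : (P.map (Ideal.Quotient.mk (Ideal.span {t}))).Monic := hP.map _
    rw [hq, Polynomial.map_mul] at hF
    refine h2.isRegular.left ?_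
    change P.map _ * q.map _ = P.map _ * 1
    rw [hF, mul_one]
  have h3 : IsNilpotent (q - 1) := by
    rw [Polynomial.isNilpotent_iff]
    intro i
    have h4 : (q - 1).coeff i ∈ Ideal.span {t} := by
      rw [← Ideal.Quotient.eq_zero_iff_mem, ← Polynomial.coeff_map, Polynomial.map_sub, h1,
        Polynomial.map_one, sub_self, Polynomial.coeff_zero]
    obtain ⟨c, hc⟩ := Ideal.mem_span_singleton'.1 h4
    rw [← hc]
    exact (Commute.all c t).isNilpotent_mul_left ht
  have h5 : q = 1 + (q - 1) := by ring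
  rw [h5]
  exact h3.isUnit_one_add

theorem disc_of_unit {d : ℕ} {R : Subalgebra A (LaurentSeries A)} {P q : A[X]} (hq : IsUnit q)
    (h : Disc d R (q * P)) : Disc d R P := by
  obtain ⟨e, G, he, hG, u, hu, hdet⟩ := h
  exact ⟨e, G, he, hG, u * q, hu.mul hq, by rw [hdet, mul_assoc]⟩

end

end ZBA

/-- ZBA: the family over a ring with a nilpotent `t`. -/
theorem t_ZBA (hZDB : Stmt_ZDB) (hBGA : Stmt_BGA) (hPSK : Stmt_PSK) : Stmt_ZBA := by
  intro k A _ _ _ g d b hd hdk R hR hz β α hβ hDisc t ht a ha hr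
  have hdA : IsUnit (d : A) := by
    have h := (IsUnit.mk0 _ hdk).map (algebraMap k A)
    rwa [map_natCast] at h
  obtain ⟨hz', -, hD⟩ := hZDB k A (algebraMap k A) g d R hd hR hz
  obtain ⟨h1, h2⟩ := hPSK d hd hdA (Ideal.span {t}) (ZBA.span_pow ht)
  obtain ⟨h3, h4⟩ := h2 a ha (bc1 (algebraMap k A) R) hz'
  refine ⟨h3, ?_, fun Γ hΓ => ?_⟩
  · have h5 := h4 _ (hD _ hDisc)
    set F : A[X] := ((∏ l, (X - C (β l))).map (algebraMap k A)).comp (X + a) with hFdef
    have hF : F = ∏ l, (X + a - C (algebraMap k A (β l))) := by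
      rw [hFdef, Polynomial.map_prod, Polynomial.prod_comp]
      refine Finset.prod_congr rfl fun l _ => ?_
      rw [Polynomial.map_sub, Polynomial.map_X, Polynomial.map_C, Polynomial.sub_comp,
        Polynomial.X_comp, Polynomial.C_comp]
    have hmon : (ft d β α t).Monic := monic_prod_of_monic _ _ fun l _ => monic_X_sub_C _
    have hdvd : ft d β α t ∣ F := by
      refine Finset.prod_dvd_of_coprime ?_ ?_
      · intro l _ m _ hlm
        refine isCoprime_X_sub_C_of_isUnit_sub ?_
        have e : algebraMap k A (β l) + t ^ d * algebraMap k A (α l) -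
            (algebraMap k A (β m) + t ^ d * algebraMap k A (α m)) =
            algebraMap k A (β l - β m) + t ^ d * algebraMap k A (α l - α m) := by
          rw [map_sub, map_sub]
          ring
        rw [e]
        refine IsNilpotent.isUnit_add_left_of_commute ?_ ?_ (Commute.all _ _)
        · exact ((Commute.all _ _).isNilpotent_mul_right ((IsNilpotent.pow_iff_pos hd.ne').2 ht))
        · exact (IsUnit.mk0 _ (sub_ne_zero.2 fun h => hlm (hβ h))).map (algebraMap k A)
      · intro l _
        rw [dvd_iff_isRoot, IsRoot.def, hF, eval_prod]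
        refine Finset.prod_eq_zero (Finset.mem_univ l) ?_
        rw [eval_sub, eval_add, eval_X, eval_C, hr l]
        ring
    have hmap : F.map (Ideal.Quotient.mk (Ideal.span {t})) =
        (ft d β α t).map (Ideal.Quotient.mk (Ideal.span {t})) := by
      have ha0 : a.map (Ideal.Quotient.mk (Ideal.span {t})) = 0 := by
        ext i
        rw [Polynomial.coeff_map, Polynomial.coeff_zero, Ideal.Quotient.eq_zero_iff_mem]
        exact ha i
      have ht0 : Ideal.Quotient.mk (Ideal.span {t}) t = 0 :=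
        Ideal.Quotient.eq_zero_iff_mem.2 (Ideal.mem_span_singleton_self t)
      rw [hF, ft, Polynomial.map_prod, Polynomial.map_prod]
      refine Finset.prod_congr rfl fun l _ => ?_
      rw [Polynomial.map_sub, Polynomial.map_add, Polynomial.map_X, ha0, add_zero,
        Polynomial.map_C, Polynomial.map_sub, Polynomial.map_X, Polynomial.map_C, map_add,
        map_mul, map_pow, ht0, zero_pow hd.ne', zero_mul, add_zero]
    obtain ⟨q, hq, hFq⟩ := ZBA.exists_unit ht hmon hdvd hmap
    rw [hFq] at h5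
    exact ZBA.disc_of_unit hq h5
  · exact ((h1 (zpol A d a) (ZBA.zpol_coeff_mem hd.ne' ha)).2 (bc1 (algebraMap k A) R)).2.1 Γ
      ((hBGA.2 (algebraMap k A) Γ R hΓ).1)

end Pool.Agent.MG.G0
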