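import Pool.Agent.MG.G0.StmtsB

/-!
# Limits of gap sections over `k[[t]]/tᵐ` (ZBL)
-/

open Polynomial IsLocalRing

namespace Pool.Agent.MG.G0

namespace ZBL

variable {k : Type} [Field k]

theorem tmk_surj (m : ℕ) : Function.Surjective (tmk k m) := Ideal.Quotient.mk_surjective

theorem tmk_eq {m : ℕ} {a b : PowerSeries k} :
    tmk k m a = tmk k m b ↔ ∀ i < m, PowerSeries.coeff i a = PowerSeries.coeff i b := by
  rw [tmk, Ideal.Quotient.eq, Ideal.mem_span_singleton, PowerSeries.X_pow_dvd_iff]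
  refine forall_congr' fun i => forall_congr' fun _ => ?_
  rw [map_sub, sub_eq_zero]

theorem tmk_mono {m n : ℕ} (h : m ≤ n) {a b : PowerSeries k} (e : tmk k n a = tmk k n b) :
    tmk k m a = tmk k m b :=
  tmk_eq.2 fun i hi => tmk_eq.1 e i (hi.trans_le h)

/-- Lifts of Laurent series along a surjection. -/
theorem exists_lift {A B : Type} [CommRing A] [CommRing B] (φ : A →+* B)
    (hφ : Function.Surjective φ) (x : LaurentSeries B) : ∃ y : LaurentSeries A, lmap φ y = x := by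
  classical
  choose g hg using hφ
  refine ⟨{ coeff := fun n => if x.coeff n = 0 then 0 else g (x.coeff n)
            isPWO_support' := x.isPWO_support.mono fun n hn h0 => hn (if_pos h0) }, ?_⟩
  ext n
  rw [lmap_coeff]
  change φ (if x.coeff n = 0 then 0 else g (x.coeff n)) = x.coeff n
  split_ifs with h
  · rw [map_zero, h]
  · exact hg _

/-- The limit of the subalgebras. -/
noncomputable def QQ (P : ∀ m, Subalgebra (Tr k m) (LaurentSeries (Tr k m))) :
    Subalgebra (PowerSeries k) (LaurentSeries (PowerSeries k)) where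
  carrier := {x | ∀ m, lmap (tmk k m) x ∈ P m}
  mul_mem' := fun {x y} hx hy m => by
    rw [map_mul]
    exact mul_mem (hx m) (hy m)
  add_mem' := fun {x y} hx hy m => by
    rw [map_add]
    exact add_mem (hx m) (hy m)
  algebraMap_mem' a m := by
    rw [lmap_algebraMap]
    exact (P m).algebraMap_mem _

theorem mem_QQ {P : ∀ m, Subalgebra (Tr k m) (LaurentSeries (Tr k m))}
    {x : LaurentSeries (PowerSeries k)} : x ∈ QQ P ↔ ∀ m, lmap (tmk k m) x ∈ P m := Iff.rfl

variable {Γ : Finset ℕ} {P : ∀ m, Subalgebra (Tr k m) (LaurentSeries (Tr k m))}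

theorem gs_uniq {A : Type} [CommRing A] {R : Subalgebra A (LaurentSeries A)} (h : GS Γ R)
    {x y : LaurentSeries A} (hx : x ∈ R) (hy : y ∈ R)
    (e : ∀ n : ℕ, n ∉ Γ → x.coeff (-(n : ℤ)) = y.coeff (-(n : ℤ))) : x = y := by
  obtain ⟨p, _, hu⟩ := h.2 x
  rw [hu x ⟨hx, fun n _ => by rw [sub_self, HahnSeries.coeff_zero]⟩,
    hu y ⟨hy, fun n hn => by rw [HahnSeries.coeff_sub, e n hn, sub_self]⟩]

theorem eq_of_all {x y : PowerSeries k} (h : ∀ m, tmk k m x = tmk k m y) : x = y := by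
  ext i
  exact tmk_eq.1 (h (i + 1)) i (Nat.lt_succ_self i)

/-- The limit of a compatible sequence of elements. -/
theorem exists_limit (hP : ∀ m, GS Γ (P m))
    (hc : ∀ (m : ℕ) (x : LaurentSeries (PowerSeries k)),
      lmap (tmk k (m + 1)) x ∈ P (m + 1) → lmap (tmk k m) x ∈ P m)
    (f : LaurentSeries (PowerSeries k)) :
    ∃ p ∈ QQ P, ∀ n : ℕ, n ∉ Γ → (f - p).coeff (-(n : ℤ)) = 0 := by
  classical
  choose p hp _ using fun m => (hP m).2 (lmap (tmk k m) f)
  choose L hL using fun m => exists_lift (tmk k m) (tmk_surj m) (p m)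
  have hgap : ∀ m (n : ℕ), n ∉ Γ →
      tmk k m ((L m).coeff (-(n : ℤ))) = tmk k m (f.coeff (-(n : ℤ))) := by
    intro m n hn
    have h1 := (hp m).2 n hn
    rw [HahnSeries.coeff_sub, ← hL m, lmap_coeff, lmap_coeff, sub_eq_zero] at h1
    exact h1.symm
  have hstep : ∀ m (j : ℤ), tmk k m ((L (m + 1)).coeff j) = tmk k m ((L m).coeff j) := by
    intro m j
    have h1 : lmap (tmk k m) (L (m + 1)) ∈ P m := hc m _ (by rw [hL]; exact (hp (m + 1)).1)
    have h2 : lmap (tmk k m) (L m) ∈ P m := by rw [hL]; exact (hp m).1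
    have h3 := gs_uniq (hP m) h1 h2 fun n hn => by
      rw [lmap_coeff, lmap_coeff, hgap m n hn]
      exact tmk_mono (Nat.le_succ m) (hgap (m + 1) n hn)
    have h4 := congrArg (fun x : LaurentSeries (Tr k m) => x.coeff j) h3
    exact h4
  have hmono : ∀ m l (j : ℤ), tmk k m ((L (m + l)).coeff j) = tmk k m ((L m).coeff j) := by
    intro m l j
    induction l with
    | zero => rfl
    | succ l ih =>
      rw [← ih]
      exact tmk_mono (Nat.le_add_right m l) (hstep (m + l) j)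
  let c : ℤ → PowerSeries k := fun j => PowerSeries.mk fun i =>
    PowerSeries.coeff i ((L (i + 1)).coeff j)
  have hcm : ∀ m (j : ℤ), tmk k m (c j) = tmk k m ((L m).coeff j) := by
    intro m j
    rw [tmk_eq]
    intro i hi
    obtain ⟨l, rfl⟩ : ∃ l, m = (i + 1) + l := ⟨m - (i + 1), by omega⟩
    change PowerSeries.coeff i (PowerSeries.mk fun i =>
      PowerSeries.coeff i ((L (i + 1)).coeff j)) = _
    rw [PowerSeries.coeff_mk]
    exact (tmk_eq.1 (hmono (i + 1) l j) i (Nat.lt_succ_self i)).symm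
  have hcg : ∀ n : ℕ, n ∉ Γ → c (-(n : ℤ)) = f.coeff (-(n : ℤ)) := by
    intro n hn
    refine eq_of_all fun m => ?_
    rw [hcm, hgap m n hn]
  obtain ⟨N, hN⟩ := exists_low f
  have hbdd : BddBelow (Function.support c) := by
    refine ⟨-((N : ℤ) + (Γ.sup id : ℕ) + 1), fun j hj => ?_⟩
    by_contra hlt
    push Not at hlt
    obtain ⟨n, rfl⟩ : ∃ n : ℕ, j = -(n : ℤ) := ⟨(-j).toNat, by omega⟩
    apply hj
    have hn : n ∉ Γ := by
      intro hmem
      have : n ≤ Γ.sup id := Finset.le_sup (f := id) hmem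
      omega
    rw [hcg n hn]
    exact hN _ (by omega)
  let q : LaurentSeries (PowerSeries k) := HahnSeries.ofSuppBddBelow c hbdd
  have hq : ∀ j, q.coeff j = c j := fun _ => rfl
  refine ⟨q, fun m => ?_, fun n hn => ?_⟩
  · have h1 : lmap (tmk k m) q = p m := by
      ext j
      rw [lmap_coeff, hq, hcm, ← hL m, lmap_coeff]
    rw [h1]
    exact (hp m).1
  · rw [HahnSeries.coeff_sub, hq, hcg n hn, sub_self]

end ZBL

theorem t_ZBL : Stmt_ZBL := by
  intro k _ Γ P hP hc
  have hu : ∀ x ∈ ZBL.QQ P, ∀ y ∈ ZBL.QQ P,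
      (∀ n : ℕ, n ∉ Γ → x.coeff (-(n : ℤ)) = y.coeff (-(n : ℤ))) → x = y := by
    intro x hx y hy e
    ext j
    refine congrArg _ (ZBL.eq_of_all fun m => ?_)
    have h := ZBL.gs_uniq (hP m) (hx m) (hy m) fun n hn => by
      rw [lmap_coeff, lmap_coeff, e n hn]
    have h4 := congrArg (fun x : LaurentSeries (Tr k m) => x.coeff j) h
    exact h4
  refine ⟨ZBL.QQ P, ⟨(hP 0).1, fun f => ?_⟩, fun x => ZBL.mem_QQ, fun m => ?_⟩
  · obtain ⟨p, hp, hn⟩ := ZBL.exists_limit hP hc f
    refine ⟨p, ⟨hp, hn⟩, fun y hy => hu y hy.1 p hp fun n h => ?_⟩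
    have h1 := hn n h
    have h2 := hy.2 n h
    rw [HahnSeries.coeff_sub, sub_eq_zero] at h1 h2
    rw [← h1, ← h2]
  · apply le_antisymm
    · refine Algebra.adjoin_le ?_
      rintro _ ⟨x, hx, rfl⟩
      exact hx m
    · intro x hx
      obtain ⟨f, hf⟩ := ZBL.exists_lift (tmk k m) (ZBL.tmk_surj m) x
      obtain ⟨p, hp, hn⟩ := ZBL.exists_limit hP hc f
      have h1 : x = lmap (tmk k m) p := by
        refine ZBL.gs_uniq (hP m) hx (hp m) fun n h => ?_
        have h1 := hn n h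
        rw [HahnSeries.coeff_sub, sub_eq_zero] at h1
        rw [← hf, lmap_coeff, lmap_coeff, h1]
      rw [h1]
      exact Algebra.subset_adjoin ⟨p, hp, rfl⟩

end Pool.Agent.MG.G0
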