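import Pool.Agent.MG.G0.StmtsB
import Pool.Agent.MG.G0.ZL.ZD

set_option autoImplicit false

/-!
# ZBO: the discriminant over `k((t))`
-/

open Polynomial

namespace Pool.Agent.MG.G0

open ZL

namespace ZBOp

section general

variable {A B C' : Type} [CommRing A] [CommRing B] [CommRing C']

/-- For a surjective homomorphism the base change is the image. -/
theorem exists_lift (hKBC : Stmt_KBC) (φ : A →+* B) (hφ : Function.Surjective φ)
    (P : Subalgebra A (LaurentSeries A)) {x : LaurentSeries B} (hx : x ∈ bc1 φ P) :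
    ∃ y ∈ P, lmap φ y = x := by
  have h1 : (fun _ : Unit => x) ∈ Submodule.span B (kmap φ '' (uno P : Set (KK Unit A))) := by
    rw [← hKBC.1 φ (uno P), bc_uno]
    exact hx
  have key : ∀ y ∈ Submodule.span B (kmap φ '' (uno P : Set (KK Unit A))),
      ∃ w ∈ P, lmap φ w = y () := by
    intro y hy
    induction hy using Submodule.span_induction with
    | mem y hy =>
      obtain ⟨w, hw, rfl⟩ := hy
      exact ⟨w (), hw, rfl⟩
    | zero => exact ⟨0, zero_mem _, map_zero _⟩
    | add y y' _ _ h h' =>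
      obtain ⟨w, hw, h1⟩ := h
      obtain ⟨w', hw', h1'⟩ := h'
      exact ⟨w + w', add_mem hw hw', by rw [map_add, h1, h1', Pi.add_apply]⟩
    | smul b y _ h =>
      obtain ⟨w, hw, h1⟩ := h
      obtain ⟨a, rfl⟩ := hφ b
      exact ⟨a • w, P.smul_mem hw a, by rw [lmap_smul, h1, Pi.smul_apply]⟩
  exact key _ h1

theorem bc1_comp (hKBC : Stmt_KBC) (φ : A →+* B) (ψ : B →+* C')
    (P : Subalgebra A (LaurentSeries A)) : bc1 (ψ.comp φ) P = bc1 ψ (bc1 φ P) := by
  have h := hKBC.2.1 φ ψ (uno P)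
  rw [bc_uno, bc_uno, bc_uno] at h
  rw [← duo_uno (bc1 (ψ.comp φ) P), h, duo_uno]

theorem exists_div [IsDomain A] {t : A} (ht : t ≠ 0) (x : LaurentSeries A)
    (h : ∀ m, t ∣ x.coeff m) : ∃ y : LaurentSeries A, x = t • y := by
  choose c hc using h
  refine ⟨⟨c, x.isPWO_support.mono fun m hm => ?_⟩, ?_⟩
  · rw [Function.mem_support] at hm
    rw [HahnSeries.mem_support, hc m]
    exact mul_ne_zero ht hm
  · ext m
    rw [hc m]
    rfl

/-- Division by a scalar in a Krichever ring. -/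
theorem kr_div [IsDomain A] {g : ℕ} {P : Subalgebra A (LaurentSeries A)} (hP : Kr g P) {t : A}
    (ht : t ≠ 0) {x : LaurentSeries A} (hx : x ∈ P) (h : ∀ m, t ∣ x.coeff m) :
    ∃ y ∈ P, x = t • y := by
  obtain ⟨hc, L, -, hk⟩ := Kr_iff.1 hP
  obtain ⟨y, rfl⟩ := exists_div ht x h
  have h1 : L (t • y) = 0 := (hk _).2 ⟨t • y, hx, by rw [sub_self]; exact zero_mem _⟩
  have h2 : L y = 0 := by
    rw [map_smul] at h1
    funext j
    have h3 := congrFun h1 j
    rw [Pi.smul_apply, smul_eq_mul, Pi.zero_apply] at h3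
    exact (mul_eq_zero.1 h3).resolve_left ht
  obtain ⟨p, hp, hq⟩ := (hk y).1 h2
  obtain ⟨a, ha⟩ := hc (t • (y - p)) (by rw [smul_sub]; exact sub_mem hx (P.smul_mem hp t))
    (Submodule.smul_mem _ _ hq)
  have h4 : y - p = algebraMap A (LaurentSeries A) ((y - p).coeff 0) := by
    ext m
    rw [coeff_algebraMap]
    split_ifs with hm
    · rw [hm]
    · have h5 : t * (y - p).coeff m = 0 := by
        have h6 := congrArg (fun f : LaurentSeries A => f.coeff m) ha
        simp only [HahnSeries.coeff_smul, smul_eq_mul] at h6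
        rw [h6, coeff_algebraMap, if_neg hm]
      exact (mul_eq_zero.1 h5).resolve_left ht
  refine ⟨y, ?_, rfl⟩
  have h7 : y = p + algebraMap A (LaurentSeries A) ((y - p).coeff 0) := by
    rw [← h4]
    abel
  rw [h7]
  exact add_mem hp (P.algebraMap_mem _)

/-- A Laurent series which becomes a polynomial in `z` over a larger ring is one. -/
theorem exists_ev {d : ℕ} (hd : d ≠ 0) {φ : A →+* B} (hφ : Function.Injective φ)
    {y : LaurentSeries A} {q : B[X]} (h : lmap φ y = ev d q) :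
    ∃ p : A[X], y = ev d p ∧ p.map φ = q := by
  have h1 : (∑ j ∈ Finset.range (q.natDegree + 1),
      monomial j (y.coeff (-((d * j : ℕ) : ℤ)))).map φ = q := by
    ext n
    rw [coeff_map, finsetSum_coeff]
    have h2 : ∀ j, φ (y.coeff (-((d * j : ℕ) : ℤ))) = q.coeff j := by
      intro j
      rw [← lmap_coeff, h, ev_coeff d hd]
    simp only [coeff_monomial]
    rw [Finset.sum_ite_eq' (Finset.range (q.natDegree + 1)) n
      fun j => y.coeff (-((d * j : ℕ) : ℤ))]
    split_ifs with hn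
    · exact h2 n
    · rw [map_zero, coeff_eq_zero_of_natDegree_lt]
      rw [Finset.mem_range] at hn
      omega
  refine ⟨_, ?_, h1⟩
  apply lmap_injective hφ
  rw [lmap_ev, h1, h]

end general

theorem ev_mem {A : Type} [CommRing A] {d : ℕ} {R : Subalgebra A (LaurentSeries A)}
    (hz : zz A d ∈ R) (q : A[X]) : (ev d q : LaurentSeries A) ∈ R := by
  have h1 : (ev d q : LaurentSeries A) ∈ Algebra.adjoin A {zz A d} :=
    Polynomial.aeval_mem_adjoin_singleton A (zz A d)
  exact Algebra.adjoin_le (Set.singleton_subset_iff.2 hz) h1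

section approx

variable {A B C' : Type} [CommRing A] [IsDomain A] [CommRing B] [CommRing C'] {g d : ℕ} [NeZero d]

/-- Generation modulo all powers of `t`. -/
theorem approx (φ : A →+* B) (hφ : Function.Surjective φ) {t : A} (ht : t ≠ 0)
    (hk : ∀ a, φ a = 0 → t ∣ a) {P : Subalgebra A (LaurentSeries A)}
    (hP : Kr g P) (hz : zz A d ∈ P) {e : ZMod d → LaurentSeries A}
    (he : ∀ i, e i ∈ P) (hs : Spn (bc1 φ P) fun i => lmap φ (e i)) (m : ℕ) :
    ∀ x ∈ P, ∃ q : ZMod d → A[X], ∃ y ∈ P, x = ∑ i, ev d (q i) * e i + t ^ m • y := by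
  induction m with
  | zero =>
    intro x hx
    refine ⟨0, x, hx, ?_⟩
    rw [pow_zero, one_smul]
    simp
  | succ m ih =>
    intro x hx
    obtain ⟨q, y, hy, hxy⟩ := ih x hx
    have h1 : lmap φ y ∈ bc1 φ P := Algebra.subset_adjoin ⟨y, hy, rfl⟩
    obtain ⟨r', hr'⟩ := hs.2 _ h1
    choose r hr using fun i => Polynomial.map_surjective φ hφ (r' i)
    have h2 : y - ∑ i, ev d (r i) * e i ∈ P :=
      sub_mem hy (sum_mem fun i _ => mul_mem (ev_mem hz _) (he i))
    have h3 : lmap φ (y - ∑ i, ev d (r i) * e i) = 0 := by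
      rw [map_sub, hr', map_sum, sub_eq_zero]
      refine Finset.sum_congr rfl fun i _ => ?_
      rw [map_mul, lmap_ev, hr]
    obtain ⟨y', hy', hyy⟩ := kr_div hP ht h2 (by
        intro n
        apply hk
        have h4 := congrArg (fun f : LaurentSeries B => f.coeff n) h3
        simpa only [lmap_coeff, HahnSeries.coeff_zero] using h4)
    refine ⟨fun i => q i + C (t ^ m) * r i, y', hy', ?_⟩
    have h5 : y = ∑ i, ev d (r i) * e i + t • y' := by
      rw [← hyy]
      abel
    rw [hxy]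
    conv_lhs => rw [h5]
    rw [smul_add, smul_smul, ← pow_succ, ← add_assoc]
    refine congrArg (fun f => f + _) ?_
    rw [Finset.smul_sum, ← Finset.sum_add_distrib]
    refine Finset.sum_congr rfl fun i _ => ?_
    rw [map_add, map_mul, ev_C, add_mul, Algebra.smul_def]
    ring

theorem spn_mod (hKBC : Stmt_KBC) (φ : A →+* B) (hφ : Function.Surjective φ) {t : A}
    (ht : t ≠ 0) (hk : ∀ a, φ a = 0 → t ∣ a) {P : Subalgebra A (LaurentSeries A)}
    (hP : Kr g P) (hz : zz A d ∈ P) {e : ZMod d → LaurentSeries A}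
    (he : ∀ i, e i ∈ P) (hs : Spn (bc1 φ P) fun i => lmap φ (e i)) (ψ : A →+* C')
    (hψ : Function.Surjective ψ) (m : ℕ) (hm : ψ (t ^ m) = 0) :
    Spn (bc1 ψ P) fun i => lmap ψ (e i) := by
  refine ⟨fun i => Algebra.subset_adjoin ⟨e i, he i, rfl⟩, fun x hx => ?_⟩
  obtain ⟨y, hy, rfl⟩ := exists_lift hKBC ψ hψ P hx
  obtain ⟨q, w, hw, hyw⟩ := approx φ hφ ht hk hP hz he hs m y hy
  refine ⟨fun i => (q i).map ψ, ?_⟩
  rw [hyw, map_add, lmap_smul, hm, zero_smul, add_zero, map_sum]
  refine Finset.sum_congr rfl fun i _ => ?_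
  rw [map_mul, lmap_ev]

/-- The Gram determinant modulo powers of `t`. -/
theorem gram_mod (hKBC : Stmt_KBC) (φ : A →+* B) (hφ : Function.Surjective φ) {t : A}
    (ht : t ≠ 0) (hk : ∀ a, φ a = 0 → t ∣ a) {P : Subalgebra A (LaurentSeries A)}
    (hP : Kr g P) (hz : zz A d ∈ P) {e : ZMod d → LaurentSeries A}
    (he : ∀ i, e i ∈ P) (hs : Spn (bc1 φ P) fun i => lmap φ (e i)) (ψ : A →+* C')
    (hψ : Function.Surjective ψ) (m : ℕ) (hm : ψ (t ^ m) = 0) {G : A[X]}
    (hG : (gram e).det = ev d G) {f : C'[X]} (hf : Disc d (bc1 ψ P) f) :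
    ∃ u : C'[X], IsUnit u ∧ G.map ψ = u * f := by
  have h1 := spn_mod hKBC φ hφ ht hk hP hz he hs ψ hψ m hm
  obtain ⟨e', he', u, hu, hdet⟩ := dsc_of_disc hf
  obtain ⟨a, ha, hae⟩ := exists_change (kr_bc hKBC hP ψ) h1 he'
  refine ⟨a.det ^ 2 * u, (ha.pow 2).mul hu, ?_⟩
  apply ev_injective d (NeZero.ne d)
  rw [← lmap_ev, ← hG, ← lmap_gram_det, gram_det_mul a _ e' hae, hdet, ← map_mul, mul_assoc]

end approx

/-- The comparison of the discriminants over a field. -/
theorem core {W : Type} [Field W] {b : ℕ} {r : Fin b → W} (hr : Function.Injective r)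
    {D G Q δ u : W[X]} (hG1 : G = Q * ∏ l, (X - C (r l))) (hQ : ∀ l, Q.eval (r l) ≠ 0)
    (hG2 : G = δ ^ 2 * (u * D)) (hu : IsUnit u) (hD : D.Monic) (hb : D.natDegree = b) :
    D = ∏ l, (X - C (r l)) := by
  classical
  have hroot : ∀ l, (X - C (r l)) ∣ D := by
    intro l
    rw [dvd_iff_isRoot]
    by_contra hne
    have h1 : G.eval (r l) = 0 := by
      rw [hG1, eval_mul, eval_prod, Finset.prod_eq_zero (Finset.mem_univ l), mul_zero]
      rw [eval_sub, eval_X, eval_C, sub_self]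
    have hul : u.eval (r l) ≠ 0 := (hu.map (evalRingHom (r l))).ne_zero
    rw [hG2, eval_mul, eval_mul, eval_pow] at h1
    have h2 : δ.eval (r l) = 0 := by
      rcases mul_eq_zero.1 h1 with h | h
      · exact pow_eq_zero_iff (two_ne_zero) |>.1 h
      · exact absurd h (mul_ne_zero hul hne)
    obtain ⟨δ', hδ⟩ := dvd_iff_isRoot.2 h2
    have h3 : (X - C (r l)) * ((X - C (r l)) * (δ' ^ 2 * (u * D))) =
        (X - C (r l)) * (Q * ∏ l' ∈ Finset.univ.erase l, (X - C (r l'))) := by
      have h4 := Finset.mul_prod_erase Finset.univ (fun l' => (X - C (r l') : W[X]))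
        (Finset.mem_univ l)
      have h5 : G = (X - C (r l)) * (Q * ∏ l' ∈ Finset.univ.erase l, (X - C (r l'))) := by
        rw [hG1, ← h4]
        ring
      rw [← h5, hG2, hδ]
      ring
    have h4 := mul_left_cancel₀ (X_sub_C_ne_zero (r l)) h3
    have h5 := congrArg (eval (r l)) h4
    rw [eval_mul, eval_sub, eval_X, eval_C, sub_self, zero_mul, eval_mul, eval_prod] at h5
    have h6 : ∏ l' ∈ Finset.univ.erase l, eval (r l) (X - C (r l')) ≠ 0 := by
      refine Finset.prod_ne_zero_iff.2 fun l' hl' => ?_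
      rw [eval_sub, eval_X, eval_C, sub_ne_zero]
      intro h
      exact (Finset.ne_of_mem_erase hl') (hr h).symm
    exact mul_ne_zero (hQ l) h6 h5.symm
  have hdvd : (∏ l, (X - C (r l))) ∣ D :=
    Finset.prod_dvd_of_coprime ((pairwise_coprime_X_sub_C hr).set_pairwise _) fun l _ => hroot l
  refine eq_of_monic_of_dvd_of_natDegree_le (monic_prod_X_sub_C _ _) hD hdvd ?_
  rw [hb, natDegree_finsetProd_X_sub_C_eq_card, Finset.card_univ, Fintype.card_fin]

section pw

variable {k : Type} [Field k]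

/-- The constant coefficient. -/
noncomputable abbrev cc (k : Type) [Field k] : PowerSeries k →+* k :=
  PowerSeries.constantCoeff (R := k)

theorem cc_surjective : Function.Surjective (cc k) := fun a => ⟨PowerSeries.C a, by simp⟩

/-- The residue homomorphism of `k[[t]]/t`. -/
noncomputable def rs (k : Type) [Field k] : Tr k 1 →+* k :=
  Ideal.Quotient.lift _ (cc k) fun a ha => by
    rw [pow_one, Ideal.mem_span_singleton] at ha
    exact PowerSeries.X_dvd_iff.1 ha

theorem rs_comp : (rs k).comp (tmk k 1) = cc k := by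
  ext a
  rfl

/-- The polynomial of the branch points over `k[[t]]`. -/
noncomputable def FF' {b : ℕ} (d : ℕ) (β α : Fin b → k) : (PowerSeries k)[X] :=
  ∏ l, (X - C (bpt d β α l))

theorem FF'_monic {b : ℕ} (d : ℕ) (β α : Fin b → k) : (FF' d β α).Monic :=
  monic_prod_X_sub_C _ _

theorem FF'_map {B : Type} [CommRing B] {b : ℕ} (d : ℕ) (β α : Fin b → k)
    (φ : PowerSeries k →+* B) : (FF' d β α).map φ = ∏ l, (X - C (φ (bpt d β α l))) := by
  rw [FF', Polynomial.map_prod]
  refine Finset.prod_congr rfl fun l _ => ?_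
  rw [Polynomial.map_sub, Polynomial.map_X, Polynomial.map_C]

theorem FF'_tmk {b : ℕ} (d : ℕ) (β α : Fin b → k) (m : ℕ) :
    (FF' d β α).map (tmk k m) = ft d β α (tmk k m PowerSeries.X) := by
  rw [FF'_map, ft]
  refine Finset.prod_congr rfl fun l _ => ?_
  rw [bpt, map_add, map_mul, map_pow]
  rfl

theorem cc_bpt {b d : ℕ} (hd : 0 < d) (β α : Fin b → k) (l : Fin b) :
    cc k (bpt d β α l) = β l := by
  rw [bpt, map_add, map_mul, map_pow]
  simp [hd.ne']

theorem FF'_cc {b d : ℕ} (hd : 0 < d) (β α : Fin b → k) :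
    (FF' d β α).map (cc k) = ∏ l, (X - C (β l)) := by
  rw [FF'_map]
  simp only [cc_bpt hd]

end pw

end ZBOp

open ZBOp in
/-- ZBO: the discriminant over `k((t))`. -/
theorem t_ZBO (hKBC : Stmt_KBC) : Stmt_ZBO := by
  classical
  intro k _ g d b hd h2d β α hβ P hP hz hD
  have : NeZero d := ⟨hd.ne'⟩
  have hdk : ((d : ℕ) : k) ≠ 0 := by
    intro h
    apply h2d
    push_cast
    rw [h, mul_zero]
  -- the reduction to `k`
  have hDk : Disc d (bc1 (cc k) P) (∏ l, (X - C (β l))) := by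
    have h1 := (t_ZDB hKBC (Tr k 1) k (rs k) g d (bc1 (tmk k 1) P) hd (kr_bc hKBC hP _)
      (zz_mem_bc hz _)).2.2 _ (hD 1)
    rw [← bc1_comp hKBC, rs_comp, ← FF'_tmk, Polynomial.map_map, rs_comp, FF'_cc hd] at h1
    exact h1
  have hb : b = 2 * g + (d - 1) := by
    have h1 := ((t_ZD2 k g d _ hd hdk (kr_bc hKBC hP (cc k)) (zz_mem_bc hz _)).2.1 _ hDk).2
    rw [natDegree_finsetProd_X_sub_C_eq_card, Finset.card_univ, Fintype.card_fin] at h1
    exact h1
  obtain ⟨e₀, he₀, -, -, -⟩ := dsc_of_disc hDk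
  choose e he hlift using fun i => exists_lift hKBC (cc k) cc_surjective P (he₀.1 i)
  have hs : Spn (bc1 (cc k) P) fun i => lmap (cc k) (e i) := by
    simp only [hlift]
    exact he₀
  -- the generic fibre
  set φ : PowerSeries k →+* LaurentSeries k := HahnSeries.ofPowerSeries ℤ k with hφdef
  have hφ : Function.Injective φ := HahnSeries.ofPowerSeries_injective
  have hdΩ : ((d : ℕ) : LaurentSeries k) ≠ 0 := by
    intro h
    apply hdk
    have h1 : (algebraMap k (LaurentSeries k)) ((d : ℕ) : k) = 0 := by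
      rw [map_natCast]
      exact h
    exact (map_eq_zero _).1 h1
  obtain ⟨⟨D, hDm, hDΩ⟩, hdeg, -⟩ := t_ZD2 (LaurentSeries k) g d _ hd hdΩ (kr_bc hKBC hP φ)
    (zz_mem_bc hz _)
  have hDdeg := (hdeg D hDΩ).2
  obtain ⟨ε, hε, u, hu, hdet⟩ := dsc_of_disc hDΩ
  choose a ha using fun i => hε.2 (lmap φ (e i)) (Algebra.subset_adjoin ⟨e i, he i, rfl⟩)
  have h1 := gram_det_mul (Matrix.of a) (fun i => lmap φ (e i)) ε ha
  rw [lmap_gram_det, hdet, ← map_mul] at h1
  obtain ⟨G, hG, hGφ⟩ := exists_ev (NeZero.ne d) hφ h1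
  have hk : ∀ x : PowerSeries k, cc k x = 0 → (PowerSeries.X : PowerSeries k) ∣ x :=
    fun x hx => PowerSeries.X_dvd_iff.2 hx
  -- divisibility by the polynomial of the branch points
  have hmod : G %ₘ FF' d β α = 0 := by
    have h2 : ∀ m, (G %ₘ FF' d β α).map (tmk k m) = 0 := by
      intro m
      obtain ⟨v, -, hv⟩ := gram_mod hKBC (cc k) cc_surjective PowerSeries.X_ne_zero hk hP hz he hs
        (tmk k m) Ideal.Quotient.mk_surjective m
        (Ideal.Quotient.eq_zero_iff_mem.2 (Ideal.mem_span_singleton_self _)) hG (hD m)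
      rw [map_modByMonic _ (FF'_monic d β α), hv, ← FF'_tmk,
        modByMonic_eq_zero_iff_dvd ((FF'_monic d β α).map _)]
      exact Dvd.intro_left v rfl
    ext1 n
    ext j
    have h3 := congrArg (fun p => coeff p n) (h2 (j + 1))
    simp only [coeff_map, coeff_zero] at h3
    rw [Ideal.Quotient.eq_zero_iff_mem, Ideal.mem_span_singleton, PowerSeries.X_pow_dvd_iff] at h3
    rw [h3 j (Nat.lt_succ_self j), coeff_zero, map_zero]
  obtain ⟨Q, hQ⟩ := (modByMonic_eq_zero_iff_dvd (FF'_monic d β α)).1 hmod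
  have hQk : IsUnit (Q.map (cc k)) := by
    obtain ⟨v, hv, hGv⟩ := gram_mod hKBC (cc k) cc_surjective PowerSeries.X_ne_zero hk hP hz he hs
      (cc k) cc_surjective 1 (by simp) hG hDk
    rw [hQ, Polynomial.map_mul, FF'_cc hd, mul_comm] at hGv
    rw [mul_right_cancel₀ (monic_prod_X_sub_C β Finset.univ).ne_zero hGv]
    exact hv
  have hbpt : Function.Injective fun l => φ (bpt d β α l) := by
    intro l l' h
    apply hβ
    rw [← cc_bpt hd β α l, ← cc_bpt hd β α l', hφ h]
  have key := core hbpt (G := G.map φ) (Q := Q.map φ) (δ := (Matrix.of a).det) (u := u) (D := D)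
    (by rw [hQ, Polynomial.map_mul, FF'_map, mul_comm]) (fun l => by
      rw [eval_map, eval₂_at_apply]
      intro h
      have h4 := (map_eq_zero_iff φ hφ).1 h
      have h5 := congrArg (cc k) h4
      rw [← eval₂_at_apply, ← eval_map, map_zero] at h5
      exact (hQk.map (evalRingHom (cc k (bpt d β α l)))).ne_zero h5)
    hGφ hu hDm (by rw [hDdeg, hb])
  rw [← key]
  exact hDΩ

end Pool.Agent.MG.G0
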