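import Pool.Agent.MG.G0.StmtsB
import Pool.Agent.MG.G0.StmtsZL
import Pool.Agent.MG.G0.BGA
import Pool.Agent.MG.G0.BPA

/-!
# ZBR: the family is unramified over `k[t]` at places with cyclic dual
-/

open Polynomial IsLocalRing

namespace Pool.Agent.MG.G0

namespace ZBRx

theorem lmap_inj {A B : Type} [CommRing A] [CommRing B] {φ : A →+* B}
    (hφ : Function.Injective φ) : Function.Injective (lmap φ) := by
  intro f f' h
  ext m
  apply hφ
  have := congrArg (fun x : LaurentSeries B => x.coeff m) h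
  simpa only [lmap_coeff] using this

/-- a series with coefficients in a subfield -/
theorem exists_lift {L : Type} [Field L] (M : Subfield L) (f : LaurentSeries L)
    (hf : ∀ m, f.coeff m ∈ M) : ∃ f' : LaurentSeries M, lmap M.subtype f' = f := by
  refine ⟨{ coeff := fun m => ⟨f.coeff m, hf m⟩, isPWO_support' := ?_ }, ?_⟩
  · refine f.isPWO_support.mono fun m hm h0 => hm ?_
    exact Subtype.ext h0
  · ext m
    rfl

/-- the elements of a subalgebra with coefficients in a subfield -/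
noncomputable def rsub {L : Type} [Field L] (M : Subfield L) (R : Subalgebra L (LaurentSeries L)) :
    Subalgebra M (LaurentSeries M) where
  carrier := {x | lmap M.subtype x ∈ R}
  mul_mem' {x y} hx hy := by
    change lmap M.subtype (x * y) ∈ R
    rw [map_mul]
    exact mul_mem hx hy
  add_mem' {x y} hx hy := by
    change lmap M.subtype (x + y) ∈ R
    rw [map_add]
    exact add_mem hx hy
  algebraMap_mem' a := by
    change lmap M.subtype (algebraMap M (LaurentSeries M) a) ∈ R
    rw [lmap_algebraMap]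
    exact R.algebraMap_mem _

theorem mem_rsub {L : Type} [Field L] (M : Subfield L) (R : Subalgebra L (LaurentSeries L))
    (x : LaurentSeries M) : x ∈ rsub M R ↔ lmap M.subtype x ∈ R := Iff.rfl

theorem gs_rsub {L : Type} [Field L] (M : Subfield L) (R : Subalgebra L (LaurentSeries L))
    {Γ : Finset ℕ} (h : GS Γ R) {H : ℕ → LaurentSeries L} (hH : ∀ n, n ∉ Γ → IsEch Γ R n (H n))
    (hM : ∀ n, n ∉ Γ → ∀ m, (H n).coeff m ∈ M) :
    GS Γ (rsub M R) ∧ bc1 M.subtype (rsub M R) = R := by
  have hex : ∀ n, ∃ H' : LaurentSeries M, n ∉ Γ → lmap M.subtype H' = H n := by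
    intro n
    by_cases hn : n ∉ Γ
    · obtain ⟨H', hH'⟩ := exists_lift M (H n) (hM n hn)
      exact ⟨H', fun _ => hH'⟩
    · exact ⟨0, fun hn' => absurd hn' hn⟩
  choose H' hH' using hex
  have hmem : ∀ n, n ∉ Γ → H' n ∈ rsub M R := fun n hn => by
    rw [mem_rsub, hH' n hn]
    exact (hH n hn).mem
  have hinj : Function.Injective (lmap M.subtype) := lmap_inj M.subtype_injective
  have hech : ∀ n, n ∉ Γ → IsEch Γ (rsub M R) n (H' n) := fun n hn => by
    refine ⟨hmem n hn, fun m hm => ?_⟩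
    have h1 := (hH n hn).co m hm
    rw [← hH' n hn, lmap_coeff] at h1
    apply M.subtype_injective
    rw [h1]
    split_ifs
    · exact (map_one _).symm
    · exact (map_zero _).symm
  constructor
  · refine ⟨h.1, fun f => ?_⟩
    obtain ⟨N, hN⟩ := exists_low f
    refine ⟨∑ n ∈ Finset.range (N + 1) \ Γ, f.coeff (-(n : ℤ)) • H' n, ⟨?_, ?_⟩, ?_⟩
    · exact sum_mem fun n hn => Subalgebra.smul_mem _ (hmem n (Finset.mem_sdiff.mp hn).2) _
    · intro m hm
      rw [HahnSeries.coeff_sub,
        BGA.sum_coeff hech (N + 1) (fun n => f.coeff (-(n : ℤ))) hm]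
      split_ifs with h1
      · exact sub_self _
      · rw [sub_zero]
        exact hN _ (by omega)
    · intro q hq
      have hq1 : lmap M.subtype q ∈ R := hq.1
      have hs : (∑ n ∈ Finset.range (N + 1) \ Γ, f.coeff (-(n : ℤ)) • H' n) ∈ rsub M R :=
        sum_mem fun n hn => Subalgebra.smul_mem _ (hmem n (Finset.mem_sdiff.mp hn).2) _
      apply hinj
      refine BGA.uniq h hq1 ((mem_rsub M R _).1 hs) fun m hm => ?_
      rw [lmap_coeff, lmap_coeff,
        BGA.sum_coeff hech (N + 1) (fun n => f.coeff (-(n : ℤ))) hm]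
      have h2 := hq.2 m hm
      rw [HahnSeries.coeff_sub, sub_eq_zero] at h2
      rw [← h2]
      split_ifs with h1
      · rfl
      · rw [hN _ (by omega)]
  · apply le_antisymm
    · refine Algebra.adjoin_le ?_
      rintro _ ⟨x, hx, rfl⟩
      exact hx
    · intro x hx
      obtain ⟨N, hN⟩ := BGA.expand h hH hx
      rw [hN]
      refine sum_mem fun n hn => Subalgebra.smul_mem _ ?_ _
      have hn' := (Finset.mem_sdiff.mp hn).2
      rw [← hH' n hn']
      exact Algebra.subset_adjoin ⟨H' n, hmem n hn', rfl⟩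

end ZBRx

open BPAx ZBRx in
theorem t_ZBR (hBPA : Stmt_BPA) (hZRT : Stmt_ZRT) (hZRV : Stmt_ZRV) (hBGL : Stmt_BGL)
    (hKBC : Stmt_KBC) (hZDB : Stmt_ZDB) : Stmt_ZBR := by
  intro k O L _ _ _ _ _ _ _ _ g d hd h2d ρ t hρt ht F hF R hR hz hDisc hCyc hmin
  -- `ρ` is local
  have hρs : Function.Surjective (ρ : O →+* k) := fun c =>
    ⟨algebraMap k O c, ρ.commutes c⟩
  have hker : ∀ x : O, ρ x = 0 → x ∈ maximalIdeal O := by
    intro x hx hu
    exact (hu.map ρ).ne_zero hx
  have hloc : IsLocalHom (ρ : O →+* k) := ⟨fun x hx => by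
    by_contra hnu
    have h1 : x ∈ maximalIdeal O := hnu
    have hkm : RingHom.ker (ρ : O →+* k) = maximalIdeal O :=
      IsLocalRing.eq_maximalIdeal (RingHom.ker_isMaximal_of_surjective _ hρs)
    rw [← hkm, RingHom.mem_ker] at h1
    rw [h1] at hx
    exact not_isUnit_zero hx⟩
  have hKR0 : Kr g (bc1 (ρ : O →+* k) R) := kr_bc1 hKBC hR _
  obtain ⟨Γ, hΓg, hΓ0, -⟩ := hBGL.2.1 _ hKR0
  have hΓ : GS Γ R := hBGL.1 (ρ : O →+* k) R Γ hR hΓ0
  choose H hH hHu using fun n => hΓ.ech n
  -- coefficients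
  have hco : ∀ n, n ∉ Γ → ∀ j : ℤ, ∀ m : ℕ, ∃ c : k[X],
      (H n).coeff j - aeval t c ∈ Ideal.span {t ^ m} := by
    intro n hn j m
    rcases Nat.eq_zero_or_pos m with rfl | hm
    · exact ⟨0, by rw [pow_zero, Ideal.span_singleton_one]; exact Submodule.mem_top⟩
    obtain ⟨A, iA1, iA2, iA3, p, q, σ, hpq, hpt, hptm, hσp, hσq, hfin⟩ := hZRT ρ t hρt ht m hm
    have hqtm : q t ^ m = 0 := by rw [← hpt, hptm]
    have haev : (p.comp (aeval (R := k) t).toRingHom) =
        (q.comp (aeval (R := k) t).toRingHom) := by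
      refine Polynomial.ringHom_ext ?_ ?_
      · intro c
        change p (aeval t (C c)) = q (aeval t (C c))
        rw [aeval_C, hpq]
      · change p (aeval t X) = q (aeval t X)
        rw [aeval_X, hpt]
    have hlift : ∀ r : O →+* A, r t ^ m = 0 →
        Disc d (bc1 r R) (F.map (r.comp (aeval (R := k) t).toRingHom)) := by
      intro r hr
      have h0 : ∀ a ∈ Ideal.span {t ^ m}, r a = 0 := by
        intro a ha
        obtain ⟨b, rfl⟩ := Ideal.mem_span_singleton'.1 ha
        rw [map_mul, map_pow, hr, mul_zero]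
      have h1 := (hZDB _ _ (Ideal.Quotient.lift (Ideal.span {t ^ m}) r h0) g d _ hd
        (kr_bc1 hKBC hR (Ideal.Quotient.mk (Ideal.span {t ^ m})))
        (hZDB _ _ (Ideal.Quotient.mk (Ideal.span {t ^ m})) g d R hd hR hz).1).2.2 _ (hDisc m)
      rw [← bc1_comp hKBC, Ideal.Quotient.lift_comp_mk, Polynomial.map_map,
        Ideal.Quotient.lift_comp_mk, Polynomial.map_map] at h1
      exact h1
    have hσ1 : bc1 σ (bc1 p R) = bc1 (ρ : O →+* k) R := by
      rw [← bc1_comp hKBC]
      congr 1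
      ext x
      exact hσp x
    have hσ2 : bc1 σ (bc1 q R) = bc1 (ρ : O →+* k) R := by
      rw [← bc1_comp hKBC]
      congr 1
      ext x
      exact hσq x
    have hσs : Function.Surjective σ := fun c => by
      obtain ⟨x, hx⟩ := hρs c
      exact ⟨p x, (hσp x).trans hx⟩
    have hu : IsUnit ((2 * d : ℕ) : A) := by
      have h1 := ((IsUnit.mk0 _ h2d).map (algebraMap k O)).map p
      rwa [map_natCast, map_natCast] at h1
    have heq : bc1 p R = bc1 q R := by
      refine hBPA σ hσs hd hu _ _ (F.map (p.comp (aeval (R := k) t).toRingHom))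
        (kr_bc1 hKBC hR p) (kr_bc1 hKBC hR q)
        (hZDB _ _ p g d R hd hR hz).1 (hZDB _ _ q g d R hd hR hz).1 (hF.map _) (hlift p hptm) ?_
        (hσ1.trans hσ2.symm) ?_
      · rw [haev]
        exact hlift q hqtm
      · rw [hσ1]
        exact hCyc
    have hgs : GS Γ (bc1 q R) := BGA.bc_gs q hΓ
    have h1 : IsEch Γ (bc1 q R) n (lmap p (H n)) := by
      rw [← heq]
      exact BGA.ech_map p (hH n)
    have h2 : IsEch Γ (bc1 q R) n (lmap q (H n)) := BGA.ech_map q (hH n)
    have h3 : lmap p (H n) = lmap q (H n) := (hgs.ech n).unique h1 h2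
    refine hfin _ ?_
    have h4 := congrArg (fun x : LaurentSeries A => x.coeff j) h3
    simpa only [lmap_coeff] using h4
  obtain ⟨M, hMk, hMt, hMx, hMtop⟩ := hZRV (k := k) (O := O) (L := L) t (hker t hρt) ht
  have hΓL : GS Γ (bc1 (algebraMap O L) R) := BGA.bc_gs _ hΓ
  obtain ⟨hgs, hbc⟩ := gs_rsub M (bc1 (algebraMap O L) R) hΓL
    (H := fun n => lmap (algebraMap O L) (H n)) (fun n _ => BGA.ech_map _ (hH n))
    (fun n hn j => hMx _ (hco n hn j))
  have hkr : Kr g (rsub M (bc1 (algebraMap O L) R)) := hΓg ▸ BGA.kr hgs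
  refine hMtop (hmin M hMk hMt (rsub M (bc1 (algebraMap O L) R)) hkr ?_ hbc)
  rw [mem_rsub, lmap_zz]
  exact (hZDB _ _ (algebraMap O L) g d R hd hR hz).1

end Pool.Agent.MG.G0
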