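import Pool.Agent.MG.G0.StmtsB

/-!
# ZBT: the family over `k[[t]]`
-/

open Polynomial IsLocalRing

namespace Pool.Agent.MG.G0

namespace ZBT

section

variable {A B C' : Type} [CommRing A] [CommRing B] [CommRing C']

theorem lmap_mem (φ : A →+* B) {R : Subalgebra A (LaurentSeries A)} {f : LaurentSeries A}
    (hf : f ∈ R) : lmap φ f ∈ bc1 φ R := Algebra.subset_adjoin ⟨f, hf, rfl⟩

theorem lmap_comp (φ : A →+* B) (ψ : B →+* C') (f : LaurentSeries A) :
    lmap ψ (lmap φ f) = lmap (ψ.comp φ) f := by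
  ext n
  rfl

theorem bc_comp (φ : A →+* B) (ψ : B →+* C') (R : Subalgebra A (LaurentSeries A)) :
    bc1 ψ (bc1 φ R) = bc1 (ψ.comp φ) R := by
  apply le_antisymm
  · refine Algebra.adjoin_le ?_
    rintro _ ⟨f, hf, rfl⟩
    have hf' : f ∈ Algebra.adjoin B (lmap φ '' (R : Set (LaurentSeries A))) := hf
    induction hf' using Algebra.adjoin_induction with
    | mem x hx =>
      obtain ⟨y, hy, rfl⟩ := hx
      rw [lmap_comp]
      exact lmap_mem _ hy
    | algebraMap r =>
      rw [SetLike.mem_coe, lmap_algebraMap]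
      exact Subalgebra.algebraMap_mem _ _
    | add x y hx hy h1 h2 =>
      rw [SetLike.mem_coe, map_add]
      exact add_mem (h1 hx) (h2 hy)
    | mul x y hx hy h1 h2 =>
      rw [SetLike.mem_coe, map_mul]
      exact mul_mem (h1 hx) (h2 hy)
  · refine Algebra.adjoin_le ?_
    rintro _ ⟨f, hf, rfl⟩
    rw [SetLike.mem_coe, ← lmap_comp]
    exact lmap_mem _ (lmap_mem _ hf)

theorem lmap_id (f : LaurentSeries A) : lmap (RingHom.id A) f = f := by
  ext n
  rfl

theorem bc_id (R : Subalgebra A (LaurentSeries A)) : bc1 (RingHom.id A) R = R := by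
  apply le_antisymm
  · refine Algebra.adjoin_le ?_
    rintro _ ⟨f, hf, rfl⟩
    rw [lmap_id]
    exact hf
  · intro f hf
    have := lmap_mem (RingHom.id A) hf
    rwa [lmap_id] at this

theorem zpol_mem (d : ℕ) (J : Ideal A) (p : A[X]) (hp : ∀ i, p.coeff i ∈ J) (m : ℤ) :
    (zpol A d p).coeff m ∈ J := by
  have h : zpol A d p = ∑ i ∈ p.support, p.coeff i • zz A d ^ i := by
    rw [zpol, Polynomial.aeval_def, Polynomial.eval₂_eq_sum, Polynomial.sum_def]
    refine Finset.sum_congr rfl fun i _ => ?_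
    rw [Algebra.smul_def]
  rw [h, HahnSeries.coeff_sum]
  refine Ideal.sum_mem _ fun i _ => ?_
  rw [HahnSeries.coeff_smul, smul_eq_mul]
  exact Ideal.mul_mem_right _ _ (hp i)

end

section

variable {k : Type} [Field k]

theorem unit_sub {d b : ℕ} (hd : 0 < d) {β : Fin b → k} (α : Fin b → k)
    (hβ : Function.Injective β) {l m : Fin b} (h : l ≠ m) :
    IsUnit (bpt d β α l - bpt d β α m) := by
  rw [PowerSeries.isUnit_iff_constantCoeff]
  have h1 : PowerSeries.constantCoeff (bpt d β α l - bpt d β α m) = β l - β m := by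
    simp [bpt, hd.ne']
  rw [h1]
  exact (sub_ne_zero.2 (hβ.ne h)).isUnit

/-- Interpolation. -/
theorem interp {d b : ℕ} (hd : 0 < d) {β : Fin b → k} (α : Fin b → k)
    (hβ : Function.Injective β) : ∃ a : (PowerSeries k)[X],
      (∀ i, (PowerSeries.X : PowerSeries k) ^ d ∣ a.coeff i) ∧
      ∀ l, a.eval (bpt d β α l) = -(PowerSeries.X ^ d * PowerSeries.C (α l)) := by
  classical
  have hu : ∀ l m : Fin b, ∃ v : PowerSeries k, l ≠ m → v * (bpt d β α l - bpt d β α m) = 1 := by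
    intro l m
    by_cases h : l = m
    · exact ⟨0, fun h' => absurd h h'⟩
    · obtain ⟨v, hv⟩ := (unit_sub hd α hβ h).exists_left_inv
      exact ⟨v, fun _ => hv⟩
  choose v hv using hu
  refine ⟨∑ l, C (-(PowerSeries.X ^ d * PowerSeries.C (α l))) *
    ∏ m ∈ Finset.univ.erase l, (C (v l m) * (X - C (bpt d β α m))), fun i => ?_, fun l => ?_⟩
  · rw [Polynomial.finsetSum_coeff]
    refine Finset.dvd_sum fun l _ => ?_
    rw [Polynomial.coeff_C_mul]
    exact Dvd.dvd.mul_right (dvd_neg.2 (dvd_mul_right _ _)) _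
  · rw [Polynomial.eval_finset_sum, Finset.sum_eq_single l]
    · rw [Polynomial.eval_mul, Polynomial.eval_C, Polynomial.eval_prod, Finset.prod_eq_one, mul_one]
      intro m hm
      rw [Polynomial.eval_mul, Polynomial.eval_C, Polynomial.eval_sub, Polynomial.eval_X,
        Polynomial.eval_C]
      exact hv l m (Finset.ne_of_mem_erase hm).symm
    · intro m _ hm
      rw [Polynomial.eval_mul, Polynomial.eval_prod, Finset.prod_eq_zero (i := l), mul_zero]
      · exact Finset.mem_erase.2 ⟨hm.symm, Finset.mem_univ _⟩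
      · rw [Polynomial.eval_mul, Polynomial.eval_sub, Polynomial.eval_X, Polynomial.eval_C,
          Polynomial.eval_C, sub_self, mul_zero]
    · intro h
      exact absurd (Finset.mem_univ l) h

theorem tX_pow (m : ℕ) : (tmk k m PowerSeries.X) ^ m = 0 := by
  rw [← map_pow]
  exact Ideal.Quotient.eq_zero_iff_mem.2 (Ideal.mem_span_singleton_self _)

theorem tmk_C (m : ℕ) (c : k) : tmk k m (PowerSeries.C c) = algebraMap k (Tr k m) c := rfl

/-- The homomorphism `k[[t]]/t^(m+1) → k[[t]]/t^m`. -/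
noncomputable def tr (k : Type) [Field k] (m : ℕ) : Tr k (m + 1) →+* Tr k m :=
  Ideal.Quotient.lift _ (tmk k m) (by
    intro a ha
    rw [Ideal.mem_span_singleton] at ha
    refine Ideal.Quotient.eq_zero_iff_mem.2 (Ideal.mem_span_singleton.2 ?_)
    exact (pow_dvd_pow _ (Nat.le_succ m)).trans ha)

theorem tr_comp (m : ℕ) : (tr k m).comp (tmk k (m + 1)) = tmk k m := by
  refine RingHom.ext fun x => ?_
  rfl

theorem tr_alg (m : ℕ) : (tr k m).comp (algebraMap k (Tr k (m + 1))) = algebraMap k (Tr k m) := by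
  ext c
  rw [RingHom.comp_apply, ← tmk_C, ← tmk_C, ← RingHom.comp_apply, tr_comp]

/-- The homomorphism `k[[t]]/t → k`. -/
noncomputable def ev (k : Type) [Field k] : Tr k 1 →+* k :=
  Ideal.Quotient.lift _ (PowerSeries.constantCoeff (R := k)) (by
    intro a ha
    rw [Ideal.mem_span_singleton, pow_one] at ha
    exact PowerSeries.X_dvd_iff.1 ha)

theorem ev_comp : (ev k).comp (tmk k 1) = PowerSeries.constantCoeff (R := k) := by
  refine RingHom.ext fun x => ?_
  rfl

theorem ev_alg : (ev k).comp (algebraMap k (Tr k 1)) = RingHom.id k := by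
  ext c
  rw [RingHom.comp_apply, ← tmk_C, ← RingHom.comp_apply, ev_comp]
  simp

end

end ZBT

open ZBT in
theorem t_ZBT (hBGA : Stmt_BGA) (hBGL : Stmt_BGL) (hPSK : Stmt_PSK) (hZBA : Stmt_ZBA)
    (hZBL : Stmt_ZBL) : Stmt_ZBT := by
  intro k _ g d b hd h2 R hR hz β α hβ hD
  have hdk : ((d : ℕ) : k) ≠ 0 := by
    intro h
    apply h2
    rw [Nat.cast_mul, h, mul_zero]
  obtain ⟨a, ha1, ha2⟩ := interp hd α hβ
  have hdu : ∀ m, IsUnit ((d : ℕ) : Tr k m) := by
    intro m
    have h := (hdk.isUnit).map (algebraMap k (Tr k m))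
    rwa [map_natCast] at h
  have hspan : ∀ m i, (a.map (tmk k m)).coeff i ∈ Ideal.span {tmk k m PowerSeries.X} := by
    intro m i
    rw [Polynomial.coeff_map, Ideal.mem_span_singleton]
    exact map_dvd (tmk k m) ((dvd_pow_self _ hd.ne').trans (ha1 i))
  have hnil : ∀ m, Ideal.span {tmk k m PowerSeries.X} ^ m = ⊥ := by
    intro m
    rw [Ideal.span_singleton_pow, tX_pow, Ideal.span_singleton_eq_bot.2 rfl]
  set P : ∀ m, Subalgebra (Tr k m) (LaurentSeries (Tr k m)) := fun m =>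
    psiR d (zpol _ d (a.map (tmk k m))) (bc1 (algebraMap k (Tr k m)) R) with hP
  have hev : ∀ m l, (a.map (tmk k m)).eval (algebraMap k (Tr k m) (β l) +
      (tmk k m PowerSeries.X) ^ d * algebraMap k (Tr k m) (α l)) =
      -((tmk k m PowerSeries.X) ^ d * algebraMap k (Tr k m) (α l)) := by
    intro m l
    have h := congrArg (tmk k m) (ha2 l)
    rw [← Polynomial.eval_map_apply, map_neg, map_mul, map_pow, bpt, map_add, map_mul, map_pow,
      tmk_C, tmk_C] at h
    exact h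
  have hA := fun m => hZBA (A := Tr k m) hd hdk R hR hz β α hβ hD (tmk k m PowerSeries.X)
    ⟨m, tX_pow m⟩ (a.map (tmk k m)) (hspan m) (hev m)
  obtain ⟨Γ, hΓ1, hΓ2, -⟩ := hBGL.2.1 R hR
  have hPc : ∀ m, bc1 (tr k m) (P (m + 1)) = P m := by
    intro m
    obtain ⟨-, h⟩ := (hPSK d hd (hdu (m + 1)) _ ⟨m + 1, hnil (m + 1)⟩).1
      (zpol _ d (a.map (tmk k (m + 1)))) (zpol_mem d _ _ (hspan (m + 1)))
    obtain ⟨-, -, h, -⟩ := h (bc1 (algebraMap k (Tr k (m + 1))) R)
    rw [hP]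
    dsimp only
    rw [h, lmap_zpol, Polynomial.map_map, tr_comp, bc_comp, tr_alg]
  obtain ⟨Q, hQ1, hQ2, hQ3⟩ := hZBL Γ P (fun m => (hA m).2.2 Γ hΓ2) (by
    intro m x hx
    rw [← hPc m, ← tr_comp, ← lmap_comp]
    exact lmap_mem _ hx)
  have h6 : bc1 (PowerSeries.constantCoeff (R := k)) Q = R := by
    rw [← ev_comp, ← bc_comp, hQ3]
    obtain ⟨-, h⟩ := (hPSK d hd (hdu 1) _ ⟨1, hnil 1⟩).1
      (zpol _ d (a.map (tmk k 1))) (zpol_mem d _ _ (hspan 1))
    obtain ⟨-, -, -, h⟩ := h (bc1 (algebraMap k (Tr k 1)) R)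
    rw [hP]
    dsimp only
    rw [h (ev k), bc_comp, ev_alg, bc_id]
    intro x hx
    have h0 : Ideal.span {tmk k 1 PowerSeries.X} = ⊥ := (pow_one _).symm.trans (hnil 1)
    rw [h0, Ideal.mem_bot] at hx
    rw [hx, map_zero]
  refine ⟨a, Q, ha1, ha2, ?_, ?_, hQ3, h6, ?_⟩
  · rw [hQ2]
    intro m
    rw [lmap_zz]
    exact (hA m).1
  · intro Γ' hΓ'
    have : IsLocalHom (PowerSeries.constantCoeff (R := k)) :=
      ⟨fun x hx => PowerSeries.isUnit_iff_constantCoeff.2 hx⟩
    refine hBGL.1 (PowerSeries.constantCoeff (R := k)) Q Γ' ((hBGA.1 Γ Q hQ1).1) ?_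
    rw [h6]
    exact hΓ'
  · intro m
    rw [hQ3 m]
    exact (hA m).2.1

end Pool.Agent.MG.G0
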