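import Pool.Agent.MG.G0.StmtsB

/-!
# ZRT: the truncated double of a discrete valuation ring over `k[t]`
-/

open Polynomial TensorProduct

namespace Pool.Agent.MG.G0

namespace ZRTaux

section dvr

variable {k O : Type} [Field k] [CommRing O] [IsDomain O] [IsDiscreteValuationRing O] [Algebra k O]
  (ρ : O →ₐ[k] k)

theorem ker_eq (π : O) (hπ : Irreducible π) : RingHom.ker (ρ : O →+* k) = Ideal.span {π} := by
  have hs : Function.Surjective (ρ : O →+* k) := fun c => ⟨algebraMap k O c, by simp⟩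
  have h1 : (RingHom.ker (ρ : O →+* k)).IsMaximal :=
    RingHom.ker_isMaximal_of_surjective _ hs
  rw [IsLocalRing.eq_maximalIdeal h1]
  exact hπ.maximalIdeal_eq

include ρ in
theorem span_pow (π : O) (hπ : Irreducible π) (n : ℕ) (x : O) :
    ∃ y ∈ Submodule.span k (Set.range fun i : Fin n => π ^ (i : ℕ)), ∃ z : O, x = y + π ^ n * z := by
  induction n generalizing x with
  | zero => exact ⟨0, Submodule.zero_mem _, x, by simp⟩
  | succ n ih =>
    obtain ⟨y, hy, z, hz⟩ := ih x
    have h1 : z - algebraMap k O (ρ z) ∈ RingHom.ker (ρ : O →+* k) := by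
      rw [RingHom.mem_ker]; simp
    rw [ker_eq ρ π hπ, Ideal.mem_span_singleton'] at h1
    obtain ⟨w, hw⟩ := h1
    refine ⟨y + (ρ z) • π ^ n, Submodule.add_mem _ ?_ ?_, w, ?_⟩
    · refine Submodule.span_mono ?_ hy
      rintro _ ⟨i, rfl⟩
      exact ⟨i.castSucc, by simp⟩
    · refine Submodule.smul_mem _ _ (Submodule.subset_span ⟨Fin.last n, by simp⟩)
    · rw [hz, Algebra.smul_def]
      have : z = w * π + algebraMap k O (ρ z) := by rw [hw]; ring
      calc y + π ^ n * z = y + π ^ n * (w * π + algebraMap k O (ρ z)) := by rw [← this]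
        _ = _ := by ring

include ρ in
theorem fin_quot (x : O) (hx : x ≠ 0) : Module.Finite k (O ⧸ Ideal.span {x}) := by
  obtain ⟨π, hπ⟩ := IsDiscreteValuationRing.exists_irreducible O
  obtain ⟨n, hn⟩ := IsDiscreteValuationRing.associated_pow_irreducible hx hπ
  have hs : Ideal.span {x} = Ideal.span {π ^ n} := Ideal.span_singleton_eq_span_singleton.mpr hn
  rw [hs]
  refine ⟨⟨(Set.finite_range fun i : Fin n =>
    Ideal.Quotient.mk (Ideal.span {π ^ n}) (π ^ (i : ℕ))).toFinset, ?_⟩⟩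
  rw [Set.Finite.coe_toFinset, eq_top_iff]
  intro y _
  obtain ⟨y, rfl⟩ := Ideal.Quotient.mk_surjective y
  obtain ⟨a, ha, z, hz⟩ := span_pow ρ π hπ n y
  have h0 : Ideal.Quotient.mk (Ideal.span {π ^ n}) y = Ideal.Quotient.mk (Ideal.span {π ^ n}) a := by
    rw [Ideal.Quotient.eq, hz]
    exact Ideal.mem_span_singleton'.mpr ⟨z, by ring⟩
  rw [h0]
  have h2 : (Ideal.Quotient.mkₐ k (Ideal.span {π ^ n})).toLinearMap a ∈
      (Submodule.span k (Set.range fun i : Fin n => π ^ (i : ℕ))).map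
        (Ideal.Quotient.mkₐ k (Ideal.span {π ^ n})).toLinearMap := Submodule.mem_map_of_mem ha
  rw [Submodule.map_span, ← Set.range_comp] at h2
  exact h2

theorem nilp (x : O) (hx : x ≠ 0) (y : O) (hy : ρ y = 0) :
    IsNilpotent (Ideal.Quotient.mk (Ideal.span {x}) y) := by
  obtain ⟨π, hπ⟩ := IsDiscreteValuationRing.exists_irreducible O
  obtain ⟨n, hn⟩ := IsDiscreteValuationRing.associated_pow_irreducible hx hπ
  have hs : Ideal.span {x} = Ideal.span {π ^ n} := Ideal.span_singleton_eq_span_singleton.mpr hn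
  have h1 : y ∈ RingHom.ker (ρ : O →+* k) := by rw [RingHom.mem_ker]; simpa using hy
  rw [ker_eq ρ π hπ, Ideal.mem_span_singleton'] at h1
  obtain ⟨w, rfl⟩ := h1
  refine ⟨n, ?_⟩
  rw [← map_pow, Ideal.Quotient.eq_zero_iff_mem, hs, mul_pow]
  exact Ideal.mul_mem_left _ _ (Ideal.mem_span_singleton_self _)

omit [IsDiscreteValuationRing O] in
/-- the powers of `t` below `m` are independent modulo `t ^ m` -/
theorem indep (t : O) (ht : ρ t = 0) (h0 : t ≠ 0) (m : ℕ) (c : ℕ → k)
    (h : ∑ i ∈ Finset.range m, c i • t ^ i ∈ Ideal.span {t ^ m}) : ∀ i < m, c i = 0 := by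
  induction m generalizing c with
  | zero => intro i hi; omega
  | succ m ih =>
    rw [Ideal.mem_span_singleton'] at h
    obtain ⟨a, ha⟩ := h
    rw [Finset.sum_range_succ'] at ha
    have hc0 : c 0 = 0 := by
      have := congrArg ρ ha
      simp only [map_mul, map_pow, ht, map_add, map_sum, map_smul, pow_zero, map_one] at this
      simpa using this.symm
    have h2 : t * (∑ i ∈ Finset.range m, c (i + 1) • t ^ i) = t * (a * t ^ m) := by
      rw [hc0, zero_smul, add_zero] at ha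
      rw [Finset.mul_sum, ← mul_assoc, mul_comm t a, mul_assoc, ← pow_succ', ha]
      refine Finset.sum_congr rfl fun i _ => ?_
      rw [mul_smul_comm, pow_succ']
    have h3 := mul_left_cancel₀ h0 h2
    have h4 := ih (fun i => c (i + 1)) (by
      rw [h3]; exact Ideal.mul_mem_left _ _ (Ideal.mem_span_singleton_self _))
    intro i hi
    rcases i with _ | i
    · exact hc0
    · exact h4 i (by omega)

end dvr

section double

variable {k M : Type} [Field k] [CommRing M] [Algebra k M] (u : M)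

/-- the ideal of the diagonal of `u` -/
def di : Ideal (M ⊗[k] M) := Ideal.span {u ⊗ₜ[k] (1 : M) - (1 : M) ⊗ₜ[k] u}

variable (lam : M →ₗ[k] k) (m : ℕ)

/-- the coordinates given by `lam` -/
noncomputable def RR : M →ₗ[k] M :=
  ∑ i ∈ Finset.range m, (LinearMap.toSpanSingleton k M (u ^ i)) ∘ₗ lam ∘ₗ
    LinearMap.mulLeft k (u ^ (m - 1 - i))

theorem RR_apply (x : M) : RR u lam m x =
    ∑ i ∈ Finset.range m, lam (u ^ (m - 1 - i) * x) • u ^ i := by
  simp [RR, LinearMap.sum_apply]

theorem RR_mul (hm : 0 < m) (hu : u ^ m = 0) (x : M) : RR u lam m (u * x) = u * RR u lam m x := by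
  obtain ⟨n, rfl⟩ : ∃ n, m = n + 1 := ⟨m - 1, by omega⟩
  rw [RR_apply, RR_apply, Finset.sum_range_succ', Finset.sum_range_succ]
  simp only [Nat.add_sub_cancel, Nat.sub_zero, Nat.sub_self, pow_zero, one_mul]
  rw [← mul_assoc, ← pow_succ, hu, zero_mul, map_zero, zero_smul, add_zero, mul_add,
    mul_smul_comm, ← pow_succ', hu, smul_zero, add_zero, Finset.mul_sum]
  refine Finset.sum_congr rfl fun i hi => ?_
  rw [Finset.mem_range] at hi
  have e1 : n - (i + 1) + 1 = n - i := by omega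
  rw [← mul_assoc, ← pow_succ, e1, mul_smul_comm, ← pow_succ']

/-- the map `x ⊗ y ↦ R x * y` -/
noncomputable def Φ : M ⊗[k] M →ₗ[k] M := TensorProduct.lift (LinearMap.mul k M ∘ₗ RR u lam m)

theorem Φ_tmul (x y : M) : Φ u lam m (x ⊗ₜ y) = RR u lam m x * y := by
  simp [Φ]

theorem Φ_di (hm : 0 < m) (hu : u ^ m = 0) (z : M ⊗[k] M) (hz : z ∈ di (k := k) u) :
    Φ u lam m z = 0 := by
  rw [di, Ideal.mem_span_singleton'] at hz
  obtain ⟨a, rfl⟩ := hz
  induction a with
  | zero => simp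
  | add a b ha hb => rw [add_mul, map_add, ha, hb, add_zero]
  | tmul x y =>
    rw [mul_sub, Algebra.TensorProduct.tmul_mul_tmul, Algebra.TensorProduct.tmul_mul_tmul,
      map_sub, Φ_tmul, Φ_tmul, mul_one, mul_one, mul_comm x u, RR_mul u lam m hm hu]
    ring

variable (ρ : M →ₐ[k] k)

/-- the augmentation of the double -/
noncomputable def aug : M ⊗[k] M →ₐ[k] k := Algebra.TensorProduct.lift ρ ρ fun _ _ => Commute.all _ _

theorem aug_tmul (x y : M) : aug ρ (x ⊗ₜ y) = ρ x * ρ y := by simp [aug]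

theorem aug_nilp (hn : ∀ x, ρ x = 0 → IsNilpotent x) (z : M ⊗[k] M) :
    IsNilpotent (z - algebraMap k (M ⊗[k] M) (aug ρ z)) := by
  induction z with
  | zero => simp
  | add a b ha hb =>
    have : a + b - algebraMap k (M ⊗[k] M) (aug ρ (a + b)) =
      (a - algebraMap k (M ⊗[k] M) (aug ρ a)) + (b - algebraMap k (M ⊗[k] M) (aug ρ b)) := by
      rw [map_add, map_add]; ring
    rw [this]
    exact Commute.isNilpotent_add (Commute.all _ _) ha hb
  | tmul x y =>
    have h1 : IsNilpotent (x - algebraMap k M (ρ x)) := hn _ (by simp)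
    have h2 : IsNilpotent (y - algebraMap k M (ρ y)) := hn _ (by simp)
    have h3 : IsNilpotent ((x - algebraMap k M (ρ x)) ⊗ₜ[k] (1 : M)) :=
      h1.map (Algebra.TensorProduct.includeLeft (R := k) (S := k) (A := M) (B := M))
    have h4 : IsNilpotent ((1 : M) ⊗ₜ[k] (y - algebraMap k M (ρ y))) :=
      h2.map (Algebra.TensorProduct.includeRight (R := k) (A := M) (B := M))
    have e : x ⊗ₜ[k] y - algebraMap k (M ⊗[k] M) (aug ρ (x ⊗ₜ y)) =
        ((x - algebraMap k M (ρ x)) ⊗ₜ[k] (1 : M)) * ((1 : M) ⊗ₜ[k] y) +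
        algebraMap k (M ⊗[k] M) (ρ x) * ((1 : M) ⊗ₜ[k] (y - algebraMap k M (ρ y))) := by
      rw [aug_tmul, Algebra.TensorProduct.tmul_mul_tmul, one_mul, mul_one, TensorProduct.sub_tmul,
        TensorProduct.tmul_sub, map_mul, mul_sub]
      have e1 : algebraMap k M (ρ x) ⊗ₜ[k] y = algebraMap k (M ⊗[k] M) (ρ x) * ((1 : M) ⊗ₜ[k] y) := by
        rw [Algebra.TensorProduct.algebraMap_apply, Algebra.TensorProduct.tmul_mul_tmul, mul_one,
          one_mul]
      have e2 : (1 : M) ⊗ₜ[k] algebraMap k M (ρ y) = algebraMap k (M ⊗[k] M) (ρ y) := by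
        rw [Algebra.TensorProduct.algebraMap_apply']
      rw [e1, e2]
      ring
    rw [e]
    exact Commute.isNilpotent_add (Commute.all _ _)
      (Commute.isNilpotent_mul_right (Commute.all _ _) h3)
      (Commute.isNilpotent_mul_left (Commute.all _ _) h4)

theorem loc (hn : ∀ x, ρ x = 0 → IsNilpotent x) : IsLocalRing (M ⊗[k] M) := by
  have : Nontrivial (M ⊗[k] M) := (aug ρ).toRingHom.domain_nontrivial
  refine IsLocalRing.of_isUnit_or_isUnit_one_sub_self fun a => ?_
  have h := aug_nilp ρ hn a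
  by_cases h0 : aug ρ a = 0
  · right
    rw [h0, map_zero, sub_zero] at h
    exact h.isUnit_one_sub
  · left
    have h1 : IsUnit (algebraMap k (M ⊗[k] M) (aug ρ a)) := (IsUnit.mk0 _ h0).map _
    have h2 := h.isUnit_add_left_of_commute h1 (Commute.all _ _)
    simpa using h2

end double

end ZRTaux

open ZRTaux in
theorem t_ZRT : Stmt_ZRT := by
  intro k O _ _ _ _ _ ρ t ht h0 m hm
  have htm : t ^ m ≠ 0 := pow_ne_zero _ h0
  have hρ : ∀ a ∈ Ideal.span {t ^ m}, ρ a = 0 := by
    intro a ha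
    rw [Ideal.mem_span_singleton'] at ha
    obtain ⟨b, rfl⟩ := ha
    rw [map_mul, map_pow, ht, zero_pow (by omega), mul_zero]
  let M : Type := O ⧸ Ideal.span {t ^ m}
  let ρ' : M →ₐ[k] k := Ideal.Quotient.liftₐ (Ideal.span {t ^ m}) ρ hρ
  let u : M := Ideal.Quotient.mk _ t
  have hu : u ^ m = 0 := by
    change (Ideal.Quotient.mk _ t) ^ m = 0
    rw [← map_pow, Ideal.Quotient.eq_zero_iff_mem]
    exact Ideal.mem_span_singleton_self _
  have hn : ∀ x : M, ρ' x = 0 → IsNilpotent x := by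
    intro x hx
    obtain ⟨x, rfl⟩ := Ideal.Quotient.mk_surjective x
    exact nilp ρ _ htm x hx
  have hfin : Module.Finite k M := fin_quot ρ _ htm
  have hloc : IsLocalRing (M ⊗[k] M) := loc ρ' hn
  have haug : ∀ a ∈ di (k := k) u, (aug ρ' : M ⊗[k] M →+* k) a = 0 := by
    intro a ha
    rw [di, Ideal.mem_span_singleton'] at ha
    obtain ⟨b, rfl⟩ := ha
    have : aug ρ' (u ⊗ₜ[k] (1 : M) - (1 : M) ⊗ₜ[k] u) = 0 := by
      rw [map_sub, aug_tmul, aug_tmul]; ring
    change aug ρ' _ = 0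
    rw [map_mul, this, mul_zero]
  let A : Type := (M ⊗[k] M) ⧸ di (k := k) u
  let σ : A →+* k := Ideal.Quotient.lift (di (k := k) u) (aug ρ' : M ⊗[k] M →+* k) haug
  have : Nontrivial A := σ.domain_nontrivial
  have hlA : IsLocalRing A := IsLocalRing.of_surjective' (Ideal.Quotient.mk (di (k := k) u))
    Ideal.Quotient.mk_surjective
  have : Module.Finite k A := Module.Finite.of_surjective
    (Ideal.Quotient.mkₐ k (di (k := k) u)).toLinearMap (Ideal.Quotient.mkₐ_surjective k _)
  have hart : IsArtinianRing A := IsArtinianRing.of_finite k A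
  let p : O →+* A := (Ideal.Quotient.mk (di (k := k) u)).comp
    ((Algebra.TensorProduct.includeLeft (R := k) (S := k) (A := M) (B := M) : M →+* M ⊗[k] M).comp
      (Ideal.Quotient.mk (Ideal.span {t ^ m})))
  let q : O →+* A := (Ideal.Quotient.mk (di (k := k) u)).comp
    ((Algebra.TensorProduct.includeRight (R := k) (A := M) (B := M) : M →+* M ⊗[k] M).comp
      (Ideal.Quotient.mk (Ideal.span {t ^ m})))
  have hp : ∀ x, p x = Ideal.Quotient.mk (di (k := k) u)
      ((Ideal.Quotient.mk (Ideal.span {t ^ m}) x : M) ⊗ₜ[k] (1 : M)) := fun x => rfl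
  have hq : ∀ x, q x = Ideal.Quotient.mk (di (k := k) u)
      ((1 : M) ⊗ₜ[k] (Ideal.Quotient.mk (Ideal.span {t ^ m}) x : M)) := fun x => rfl
  refine ⟨A, inferInstance, hlA, hart, p, q, σ, ?_, ?_, ?_, ?_, ?_, ?_⟩
  · intro c
    rw [hp, hq]
    congr 1
    have e1 : (Ideal.Quotient.mk (Ideal.span {t ^ m}) (algebraMap k O c) : M) =
      algebraMap k M c := rfl
    rw [e1, ← Algebra.TensorProduct.algebraMap_apply, Algebra.TensorProduct.algebraMap_apply']
  · rw [hp, hq, Ideal.Quotient.eq]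
    exact Ideal.mem_span_singleton_self _
  · rw [← map_pow]
    change Ideal.Quotient.mk (di (k := k) u) _ = 0
    have e1 : (Ideal.Quotient.mk (Ideal.span {t ^ m}) (t ^ m) : M) = 0 := by
      rw [Ideal.Quotient.eq_zero_iff_mem]
      exact Ideal.mem_span_singleton_self _
    rw [RingHom.comp_apply, e1, map_zero, map_zero]
  · intro x
    rw [hp]
    have e : σ (Ideal.Quotient.mk (di (k := k) u)
      ((Ideal.Quotient.mk (Ideal.span {t ^ m}) x : M) ⊗ₜ[k] (1 : M))) =
      aug ρ' ((Ideal.Quotient.mk (Ideal.span {t ^ m}) x : M) ⊗ₜ[k] (1 : M)) :=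
      Ideal.Quotient.lift_mk _ _ _
    rw [e, aug_tmul, map_one, mul_one]
    rfl
  · intro x
    rw [hq]
    have e : σ (Ideal.Quotient.mk (di (k := k) u)
      ((1 : M) ⊗ₜ[k] (Ideal.Quotient.mk (Ideal.span {t ^ m}) x : M))) =
      aug ρ' ((1 : M) ⊗ₜ[k] (Ideal.Quotient.mk (Ideal.span {t ^ m}) x : M)) :=
      Ideal.Quotient.lift_mk _ _ _
    rw [e, aug_tmul, map_one, one_mul]
    rfl
  · intro x hx
    rw [hp, hq, Ideal.Quotient.eq] at hx
    have hnot : u ^ (m - 1) ∉ Submodule.span k (Set.range fun i : Fin (m - 1) => u ^ (i : ℕ)) := by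
      intro hmem
      rw [Submodule.mem_span_range_iff_exists_fun] at hmem
      obtain ⟨c, hc⟩ := hmem
      let d : ℕ → k := fun i => if h : i < m - 1 then c ⟨i, h⟩ else -1
      have h1 : ∑ i ∈ Finset.range m, d i • t ^ i ∈ Ideal.span {t ^ m} := by
        rw [← Ideal.Quotient.eq_zero_iff_mem]
        have h2 : ∀ i, (Ideal.Quotient.mk (Ideal.span {t ^ m}) (d i • t ^ i) : M) = d i • u ^ i := by
          intro i
          exact (Ideal.Quotient.mkₐ k (Ideal.span {t ^ m})).toLinearMap.map_smul (d i) (t ^ i)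
        obtain ⟨n, rfl⟩ : ∃ n, m = n + 1 := ⟨m - 1, by omega⟩
        rw [map_sum, Finset.sum_range_succ, Finset.sum_range]
        simp only [h2]
        have h3 : ∀ i : Fin n, d i = c i := fun i => by simp [d]
        have h4 : d n = -1 := by simp [d]
        simp only [h3, h4]
        rw [neg_smul, one_smul, ← sub_eq_add_neg, sub_eq_zero]
        exact hc
      have h5 := indep ρ t ht h0 m d h1 (m - 1) (by omega)
      simp [d] at h5
    obtain ⟨lam, hl1, hl2⟩ := Submodule.exists_le_ker_of_notMem hnot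
    have hR1 : RR u lam m 1 = lam (u ^ (m - 1)) • (1 : M) := by
      rw [RR_apply]
      obtain ⟨n, rfl⟩ : ∃ n, m = n + 1 := ⟨m - 1, by omega⟩
      rw [Finset.sum_range_succ', Finset.sum_eq_zero, zero_add]
      · simp
      · intro i hi
        rw [Finset.mem_range] at hi
        have : u ^ (n + 1 - 1 - (i + 1)) * 1 ∈ LinearMap.ker lam := by
          refine hl2 (Submodule.subset_span ⟨⟨n - (i + 1), by simp; omega⟩, ?_⟩)
          simp
        rw [LinearMap.mem_ker] at this
        rw [this, zero_smul]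
    have h1 := Φ_di u lam m hm hu _ hx
    rw [map_sub, Φ_tmul, Φ_tmul, mul_one, hR1, smul_mul_assoc, one_mul, sub_eq_zero, RR_apply] at h1
    refine ⟨∑ i ∈ Finset.range m, C ((lam (u ^ (m - 1)))⁻¹ *
      lam (u ^ (m - 1 - i) * (Ideal.Quotient.mk (Ideal.span {t ^ m}) x : M))) * X ^ i, ?_⟩
    rw [← Ideal.Quotient.eq_zero_iff_mem, map_sub, sub_eq_zero]
    have h2 : (Ideal.Quotient.mk (Ideal.span {t ^ m}) x : M) = (lam (u ^ (m - 1)))⁻¹ •
        (lam (u ^ (m - 1)) • (Ideal.Quotient.mk (Ideal.span {t ^ m}) x : M)) := by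
      rw [smul_smul, inv_mul_cancel₀ hl1, one_smul]
    have h3 : ∀ (a : k) (i : ℕ), (Ideal.Quotient.mk (Ideal.span {t ^ m}) (a • t ^ i) : M) =
        a • u ^ i := by
      intro a i
      exact (Ideal.Quotient.mkₐ k (Ideal.span {t ^ m})).toLinearMap.map_smul a (t ^ i)
    rw [map_sum, map_sum]
    have h4 : (Ideal.Quotient.mk (Ideal.span {t ^ m}) x : M) = ∑ i ∈ Finset.range m,
        ((lam (u ^ (m - 1)))⁻¹ *
      lam (u ^ (m - 1 - i) * (Ideal.Quotient.mk (Ideal.span {t ^ m}) x : M))) • u ^ i := by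
      conv_lhs => rw [h2, ← h1, Finset.smul_sum]
      simp only [smul_smul]
    refine h4.trans (Finset.sum_congr rfl fun i _ => ?_)
    have h5 : ∀ a : k, aeval t (C a * X ^ i) = a • t ^ i := by
      intro a
      rw [map_mul, aeval_C, map_pow, aeval_X, ← Algebra.smul_def]
    rw [h5]
    exact (h3 _ _).symm

end Pool.Agent.MG.G0
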