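import Pool.Agent.MG.G0.StmtsB

/-!
# Values of series in `t` (module ZRV)
-/

open Polynomial IsLocalRing

namespace Pool.Agent.MG.G0

namespace ZRV

variable {k O : Type} [Field k] [CommRing O] [IsDomain O] [IsDiscreteValuationRing O] [Algebra k O]

theorem unit_add {u y : O} (hu : IsUnit u) (hy : y ∈ maximalIdeal O) : IsUnit (u + y) := by
  by_contra h
  have h1 : u + y ∈ maximalIdeal O := (mem_maximalIdeal _).2 h
  have h2 : u ∈ maximalIdeal O := by
    have := (maximalIdeal O).sub_mem h1 hy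
    rwa [add_sub_cancel_right] at this
  exact (mem_maximalIdeal _).1 h2 hu

/-- The elements which are series in `t`. -/
def Ser (k : Type) {O : Type} [Field k] [CommRing O] [Algebra k O] (t : O) : Subring O where
  carrier := {x | ∀ m : ℕ, ∃ c : k[X], x - aeval t c ∈ Ideal.span {t ^ m}}
  mul_mem' := by
    intro a b ha hb m
    obtain ⟨c, hc⟩ := ha m
    obtain ⟨d, hd⟩ := hb m
    refine ⟨c * d, ?_⟩
    have : a * b - aeval t (c * d) = b * (a - aeval t c) + aeval t c * (b - aeval t d) := by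
      rw [map_mul]
      ring
    rw [this]
    exact Ideal.add_mem _ (Ideal.mul_mem_left _ _ hc) (Ideal.mul_mem_left _ _ hd)
  one_mem' := fun m => ⟨1, by rw [map_one, sub_self]; exact Ideal.zero_mem _⟩
  add_mem' := by
    intro a b ha hb m
    obtain ⟨c, hc⟩ := ha m
    obtain ⟨d, hd⟩ := hb m
    refine ⟨c + d, ?_⟩
    have : a + b - aeval t (c + d) = (a - aeval t c) + (b - aeval t d) := by
      rw [map_add]
      ring
    rw [this]
    exact Ideal.add_mem _ hc hd
  zero_mem' := fun m => ⟨0, by rw [map_zero, sub_self]; exact Ideal.zero_mem _⟩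
  neg_mem' := by
    intro a ha m
    obtain ⟨c, hc⟩ := ha m
    refine ⟨-c, ?_⟩
    have : -a - aeval t (-c) = -(a - aeval t c) := by
      rw [map_neg]
      ring
    rw [this]
    exact Ideal.neg_mem_iff _ |>.2 hc

/-- A nonzero series in `t` is a power of `t` times a unit. -/
theorem assoc (t x : O) (ht : t ∈ maximalIdeal O) (hx : x ≠ 0) (h : x ∈ Ser k t) :
    ∃ n, Associated x (t ^ n) := by
  have htu : ¬ IsUnit t := (mem_maximalIdeal _).1 ht
  obtain ⟨m, hm⟩ := FiniteMultiplicity.of_not_isUnit htu hx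
  obtain ⟨c, hc⟩ := h (m + 1)
  rw [Ideal.mem_span_singleton] at hc
  have hc0 : c ≠ 0 := by
    rintro rfl
    rw [map_zero, sub_zero] at hc
    exact hm hc
  obtain ⟨q, hq, hnd⟩ := exists_eq_pow_rootMultiplicity_mul_and_not_dvd c hc0 0
  rw [C_0, sub_zero] at hq hnd
  set n := c.rootMultiplicity 0
  have hq0 : q.coeff 0 ≠ 0 := by
    intro h0
    exact hnd (X_dvd_iff.2 h0)
  have hcn : aeval t c = t ^ n * aeval t q := by
    conv_lhs => rw [hq]
    rw [map_mul, map_pow, aeval_X]
  have hqt : aeval t q = algebraMap k O (q.coeff 0) + aeval t q.divX * t := by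
    conv_lhs => rw [← q.divX_mul_X_add]
    rw [map_add, map_mul, aeval_X, aeval_C, add_comm]
  have hu : IsUnit (algebraMap k O (q.coeff 0)) := (IsUnit.mk0 _ hq0).map (algebraMap k O)
  have hqu : IsUnit (aeval t q) := by
    rw [hqt]
    exact unit_add hu (Ideal.mul_mem_left _ _ ht)
  have hnm : n < m + 1 := by
    by_contra hle
    push Not at hle
    apply hm
    have h1 : t ^ (m + 1) ∣ aeval t c := by
      rw [hcn]
      exact (pow_dvd_pow t hle).mul_right _
    have := dvd_add hc h1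
    rwa [sub_add_cancel] at this
  obtain ⟨y, hy⟩ := hc
  obtain ⟨l, hl⟩ := Nat.exists_eq_add_of_lt hnm
  have hx2 : x = t ^ n * (aeval t q + t ^ (l + 1) * y) := by
    have : x = aeval t c + t ^ (m + 1) * y := by rw [← hy]; ring
    rw [this, hcn, hl, add_assoc, pow_add]
    ring
  have hv : IsUnit (aeval t q + t ^ (l + 1) * y) := by
    refine unit_add hqu (Ideal.mul_mem_right _ _ ?_)
    rw [pow_succ]
    exact Ideal.mul_mem_left _ _ ht
  refine ⟨n, ?_⟩
  rw [hx2]
  exact associated_mul_unit_left _ _ hv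

theorem unif (t π u v : O) (ht : t ∈ maximalIdeal O) (hπ : Irreducible π) (hu0 : u ≠ 0)
    (hv0 : v ≠ 0) (hu : u ∈ Ser k t) (hv : v ∈ Ser k t) (h : π * v = u) : Associated t π := by
  have htu : ¬ IsUnit t := (mem_maximalIdeal _).1 ht
  obtain ⟨a, ha⟩ := assoc (k := k) t u ht hu0 hu
  obtain ⟨b, hb⟩ := assoc (k := k) t v ht hv0 hv
  have ht0 : t ^ b ≠ 0 := fun h0 => hv0 (by
    rw [h0, associated_zero_iff_eq_zero] at hb
    exact hb)
  have h1 : Associated (π * t ^ b) (t ^ a) := by
    refine ((Associated.mul_left π hb.symm).trans ?_).trans ha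
    rw [h]
  have hab : b < a := by
    by_contra hle
    push Not at hle
    obtain ⟨l, rfl⟩ := Nat.exists_eq_add_of_le hle
    have ht1 : t ^ a ≠ 0 := fun h0 => ht0 (by rw [pow_add, h0, zero_mul])
    have h2 : π * t ^ (a + l) ∣ t ^ a := h1.dvd
    have h3 : t ^ a * (π * t ^ l) ∣ t ^ a * 1 := by
      rw [mul_one]
      refine dvd_trans (dvd_of_eq ?_) h2
      rw [pow_add]
      ring
    have h4 : π * t ^ l ∣ 1 := (mul_dvd_mul_iff_left ht1).1 h3
    exact hπ.not_isUnit (isUnit_of_dvd_one ((dvd_mul_right π _).trans h4))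
  obtain ⟨l, rfl⟩ := Nat.exists_eq_add_of_lt hab
  have h2 : t ^ b * t ∣ t ^ b * π := by
    rw [mul_comm (t ^ b) π, ← pow_succ]
    refine (pow_dvd_pow t ?_).trans h1.symm.dvd
    omega
  have h3 : t ∣ π := (mul_dvd_mul_iff_left ht0).1 h2
  obtain ⟨w, hw⟩ := h3
  have h4 : IsUnit w := (hπ.isUnit_or_isUnit hw).resolve_left htu
  rw [hw]
  exact (associated_mul_unit_left t w h4).symm

end ZRV

/-- ZRV: values of series in `t`. -/
theorem t_ZRV : Stmt_ZRV := by
  intro k O L _ _ _ _ _ _ _ _ t ht ht0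
  let S := ZRV.Ser k t
  let SL : Subring L := S.map (algebraMap O L)
  refine ⟨Subfield.closure (SL : Set L), ?_, ?_, ?_, ?_⟩
  · intro c
    refine Subfield.subset_closure ⟨_, fun m => ⟨C c, ?_⟩, rfl⟩
    rw [aeval_C, sub_self]
    exact Ideal.zero_mem _
  · refine Subfield.subset_closure ⟨_, fun m => ⟨X, ?_⟩, rfl⟩
    rw [aeval_X, sub_self]
    exact Ideal.zero_mem _
  · intro x hx
    exact Subfield.subset_closure ⟨x, hx, rfl⟩
  · intro hM
    obtain ⟨π, hπ⟩ := IsDiscreteValuationRing.exists_irreducible O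
    have h1 : algebraMap O L π ∈ Subfield.closure (SL : Set L) := by
      rw [hM]
      exact Subfield.mem_top _
    rw [Subfield.mem_closure_iff] at h1
    obtain ⟨y, hy, z, hz, hyz⟩ := h1
    rw [Subring.closure_eq] at hy hz
    obtain ⟨u, hu, rfl⟩ := hy
    obtain ⟨v, hv, rfl⟩ := hz
    have hinj : Function.Injective (algebraMap O L) := IsFractionRing.injective O L
    have hπ0 : algebraMap O L π ≠ 0 := fun h => hπ.ne_zero (hinj (by rw [h, map_zero]))
    have hv0 : v ≠ 0 := by
      rintro rfl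
      rw [map_zero, div_zero] at hyz
      exact hπ0 hyz.symm
    have hu0 : u ≠ 0 := by
      rintro rfl
      rw [map_zero, zero_div] at hyz
      exact hπ0 hyz.symm
    have hvL : algebraMap O L v ≠ 0 := fun h => hv0 (hinj (by rw [h, map_zero]))
    have h2 : π * v = u := by
      apply hinj
      rw [map_mul, ← hyz, div_mul_cancel₀ _ hvL]
    have h3 := ZRV.unif (k := k) t π u v ht hπ hu0 hv0 hu hv h2
    rw [hπ.maximalIdeal_eq]
    exact (Ideal.span_singleton_eq_span_singleton.2 h3).symm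

end Pool.Agent.MG.G0
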