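import Pool.Agent.MG.G0.BCO
import Pool.Agent.MG.G0.BGL
import Pool.Agent.MG.G0.PSI
import Pool.Agent.MG.G0.PSK
import Pool.Agent.MG.G0.ZDU
import Pool.Agent.MG.G0.CYC
import Pool.Agent.MG.G0.BPD
import Pool.Agent.MG.G0.BPX
import Pool.Agent.MG.G0.BPA
import Pool.Agent.MG.G0.BPB
import Pool.Agent.MG.G0.BGA
import Pool.Agent.MG.G0.ZBA
import Pool.Agent.MG.G0.ZBL
import Pool.Agent.MG.G0.ZBT
import Pool.Agent.MG.G0.ZBO
import Pool.Agent.MG.G0.ZBE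
import Pool.Agent.MG.G0.ZRT
import Pool.Agent.MG.G0.ZRV
import Pool.Agent.MG.G0.ZBR
import Pool.Agent.MG.G0.KBT
import Pool.Agent.MG.G0.KBC
import Pool.Agent.MG.G0.KFO
import Pool.Agent.MG.G0.KDU
import Pool.Agent.MG.G0.KSP
import Pool.Agent.MG.G0.KNZ

/-!
# The theorems of sections BP and ZB (StmtsB.lean) without hypotheses
-/

namespace Pool.Agent.MG.G0.FinB

theorem kSP : Stmt_KSP := t_KSP t_KNZ

theorem kFO : Stmt_KFO := t_KFO t_KDU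

theorem kBC : Stmt_KBC := t_KBC kFO t_KNZ kSP

theorem kBT : Stmt_KBT := t_KBT kSP kBC

theorem zDB : Stmt_ZDB := t_ZDB kBC

theorem bGL : Stmt_BGL := t_BGL t_BGA kFO kBC

theorem pSK : Stmt_PSK := t_PSK t_PSI

theorem cYC : Stmt_CYC := t_CYC t_ZDU

theorem bPD : Stmt_BPD := t_BPD t_BCO t_ZDU

theorem bPX : Stmt_BPX := t_BPX bPD kBC kBT

theorem bPA : Stmt_BPA := t_BPA bPX kBC zDB

theorem bPB : Stmt_BPB := t_BPB bPD t_PSI t_ZD1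

theorem zBA : Stmt_ZBA := t_ZBA zDB t_BGA pSK

theorem zBT : Stmt_ZBT := t_ZBT t_BGA bGL pSK zBA t_ZBL

theorem zBO : Stmt_ZBO := t_ZBO kBC

theorem zBE : Stmt_ZBE := t_ZBE t_BGA bGL kBC cYC bPB

theorem zBR : Stmt_ZBR := t_ZBR bPA t_ZRT t_ZRV bGL kBC zDB

end Pool.Agent.MG.G0.FinB
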