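import Pool.Agent.MG.G0.StmtsV
import Pool.Agent.MG.G0.StmtsG
import Pool.Agent.MG.G0.GSC
import Pool.Agent.MG.G0.AWB
import Pool.Agent.MG.G0.FinB

/-!
# USN: the value at the special curve with marked points is a complex number
-/

open TensorProduct

namespace Pool.Agent.MG.G0

namespace USNx

/-! ## Base change of points and marks -/

section

variable {I A B : Type} [CommRing A] [CommRing B] {P : Subalgebra A (KK I A)}

/-- The base change of a point. -/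
theorem exists_p [Fintype I] [Nonempty I] [Algebra A B] {g : ℕ}
    (hP : IsKr g P) (p : P →ₐ[A] A) :
    ∃ h : bc (algebraMap A B) P →ₐ[B] B, ∀ f : P,
      h (bcMap (algebraMap A B) P f) = algebraMap A B (p f) := by
  obtain ⟨-, e, he⟩ := FinB.kBT (B := B) hP
  refine ⟨(Algebra.TensorProduct.lift (AlgHom.id B B) ((Algebra.ofId A B).comp p)
    (fun _ _ => Commute.all _ _)).comp (e.symm : bc (algebraMap A B) P →ₐ[B] B ⊗[A] P),
    fun f => ?_⟩
  have h1 : e (1 ⊗ₜ f) = bcMap (algebraMap A B) P f := by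
    apply Subtype.ext
    rw [he, one_smul]
    rfl
  rw [AlgHom.comp_apply, ← h1]
  change (Algebra.TensorProduct.lift (AlgHom.id B B) ((Algebra.ofId A B).comp p)
    (fun _ _ => Commute.all _ _)) (e.symm (e (1 ⊗ₜ f))) = _
  rw [AlgEquiv.symm_apply_apply, Algebra.TensorProduct.lift_tmul, map_one, one_mul]
  rfl

/-- The base change of points. -/
theorem exists_pts [Fintype I] [Nonempty I] {g : ℕ} (hP : IsKr g P) (φ : A →+* B) {n : ℕ}
    (p : Fin n → (P →ₐ[A] A)) : ∃ p' : Fin n → (bc φ P →ₐ[B] B), ∀ i f,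
      p' i (bcMap φ P f) = φ (p i f) := by
  have key : ∀ i, ∃ h : bc φ P →ₐ[B] B, ∀ f : P, h (bcMap φ P f) = φ (p i f) := by
    intro i
    let _ : Algebra A B := φ.toAlgebra
    exact exists_p hP (p i)
  choose p' hp' using key
  exact ⟨p', hp'⟩

variable {φ : A →+* B} {n : ℕ} {p : Fin n → (P →ₐ[A] A)} {p' : Fin n → (bc φ P →ₐ[B] B)}

theorem ker_le (h : ∀ i f, p' i (bcMap φ P f) = φ (p i f)) (i : Fin n) :
    (RingHom.ker (p i)).map (bcMap φ P) ≤ RingHom.ker (p' i) := by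
  rw [Ideal.map_le_iff_le_comap]
  intro f hf
  rw [Ideal.mem_comap, RingHom.mem_ker, h, RingHom.mem_ker.1 hf, map_zero]

theorem sm (h : ∀ i f, p' i (bcMap φ P f) = φ (p i f)) (i : Fin n) (t : P)
    (ht : ∀ f ∈ RingHom.ker (p i), ∃ c : A, f - c • t ∈ RingHom.ker (p i) ^ 2) (f : bc φ P) :
    ∃ c : B, f - algebraMap B (bc φ P) (p' i f) - c • bcMap φ P t ∈ RingHom.ker (p' i) ^ 2 := by
  refine AWB.bc_ind φ FinB.kBC (C := fun f => ∃ c : B,
    f - algebraMap B (bc φ P) (p' i f) - c • bcMap φ P t ∈ RingHom.ker (p' i) ^ 2)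
    (fun f => ?_) ?_ ?_ f
  · have h1 : f - algebraMap A P (p i f) ∈ RingHom.ker (p i) := by
      rw [RingHom.mem_ker, map_sub, AlgHom.commutes]
      exact sub_self _
    obtain ⟨c, hc⟩ := ht _ h1
    refine ⟨φ c, ?_⟩
    have h2 : bcMap φ P (f - algebraMap A P (p i f) - c • t) ∈ RingHom.ker (p' i) ^ 2 := by
      have h3 := Ideal.mem_map_of_mem (bcMap φ P) hc
      rw [Ideal.map_pow] at h3
      exact Ideal.pow_right_mono (ker_le h i) 2 h3
    have e : bcMap φ P (f - algebraMap A P (p i f) - c • t) =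
        bcMap φ P f - algebraMap B (bc φ P) (p' i (bcMap φ P f)) - φ c • bcMap φ P t := by
      rw [map_sub, map_sub, AWB.bcMap_algebraMap, h, Algebra.smul_def, map_mul,
        AWB.bcMap_algebraMap, ← Algebra.smul_def]
    rw [← e]
    exact h2
  · rintro f g ⟨c, hc⟩ ⟨d, hd⟩
    refine ⟨c + d, ?_⟩
    have e : f + g - algebraMap B (bc φ P) (p' i (f + g)) - (c + d) • bcMap φ P t =
        (f - algebraMap B (bc φ P) (p' i f) - c • bcMap φ P t) +
        (g - algebraMap B (bc φ P) (p' i g) - d • bcMap φ P t) := by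
      rw [map_add, map_add, add_smul]
      ring
    rw [e]
    exact add_mem hc hd
  · rintro b f ⟨c, hc⟩
    refine ⟨b * c, ?_⟩
    have e : b • f - algebraMap B (bc φ P) (p' i (b • f)) - (b * c) • bcMap φ P t =
        algebraMap B (bc φ P) b * (f - algebraMap B (bc φ P) (p' i f) - c • bcMap φ P t) := by
      rw [map_smul, smul_eq_mul, map_mul, Algebra.smul_def, Algebra.smul_def, Algebra.smul_def,
        map_mul]
      ring
    rw [e]
    exact Ideal.mul_mem_left _ _ hc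

/-- The base change of marks. -/
theorem marks_bc (h : ∀ i f, p' i (bcMap φ P f) = φ (p i f)) (hm : Marks P p) :
    Marks (bc φ P) p' := by
  refine ⟨fun i j hij => ?_, fun i => ?_⟩
  · rw [eq_top_iff]
    refine le_trans ?_ (sup_le_sup (ker_le h i) (ker_le h j))
    rw [← Ideal.map_sup, hm.dis i j hij, Ideal.map_top]
  · obtain ⟨t, ht, hs⟩ := hm.sm i
    refine ⟨bcMap φ P t, ?_, fun f hf => ?_⟩
    · rw [RingHom.mem_ker, h, RingHom.mem_ker.1 ht, map_zero]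
    · obtain ⟨c, hc⟩ := sm h i t hs f
      rw [RingHom.mem_ker.1 hf, map_zero, sub_zero] at hc
      exact ⟨c, hc⟩

end

/-! ## Marks and isomorphisms -/

theorem marks_equiv {I I' A : Type} [CommRing A] {P : Subalgebra A (KK I A)}
    {P' : Subalgebra A (KK I' A)} (e : P ≃ₐ[A] P') {n : ℕ} {p : Fin n → (P →ₐ[A] A)}
    {p' : Fin n → (P' →ₐ[A] A)} (h : ∀ i f, p' i (e f) = p i f) (hm : Marks P p) :
    Marks P' p' := by
  have hk : ∀ i, (RingHom.ker (p i)).map (e : P →+* P') ≤ RingHom.ker (p' i) := by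
    intro i
    rw [Ideal.map_le_iff_le_comap]
    intro f hf
    change p' i (e f) = 0
    rw [h]
    exact hf
  refine ⟨fun i j hij => ?_, fun i => ?_⟩
  · rw [eq_top_iff]
    refine le_trans ?_ (sup_le_sup (hk i) (hk j))
    rw [← Ideal.map_sup, hm.dis i j hij, Ideal.map_top]
  · obtain ⟨t, ht, hs⟩ := hm.sm i
    refine ⟨e t, ?_, fun f hf => ?_⟩
    · change p' i (e t) = 0
      rw [h]
      exact ht
    · obtain ⟨c, hc⟩ := hs (e.symm f) (by
        change p i (e.symm f) = 0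
        rw [← h, AlgEquiv.apply_symm_apply]
        exact hf)
      refine ⟨c, ?_⟩
      have h3 := Ideal.mem_map_of_mem (e : P →+* P') hc
      rw [Ideal.map_pow] at h3
      have h4 := Ideal.pow_right_mono (hk i) 2 h3
      have h5 : (e : P →+* P') (e.symm f - c • t) = f - c • e t := by
        change e (e.symm f - c • t) = f - c • e t
        rw [map_sub, AlgEquiv.apply_symm_apply, map_smul]
      rwa [h5] at h4

theorem transport {g n : ℕ} (E : Ev0 g n) {k : Type} [CommRing k] [Algebra ℂ k]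
    {P₁ P₂ : Subalgebra k (KK Unit k)} (h : P₁ = P₂) (q : Fin n → (P₂ →ₐ[k] k)) :
    ∃ q' : Fin n → (P₁ →ₐ[k] k), (Marks P₂ q → Marks P₁ q') ∧
      E.Φ k Unit P₁ q' = E.Φ k Unit P₂ q := by
  subst h
  exact ⟨q, id, rfl⟩

/-! ## The special curve is good -/

theorem typeS_of (hGRA : Stmt_GRA) {g : ℕ} (hg : 2 ≤ g) {κ : Type} [Field κ] {ζ : κ}
    {R : Subalgebra κ (LaurentSeries κ)} (hR : RG g ζ R) : TypeS (uno R) := by
  obtain ⟨-, -, -, h1, h2, -⟩ := (hGRA g hg).2.1 ζ R hR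
  exact ⟨h1, h2⟩

theorem good_of (hGRA : Stmt_GRA) {g : ℕ} (hg : 2 ≤ g) {A : Type} [CommRing A] {ζ : A}
    {R : Subalgebra A (LaurentSeries A)} (hR : RG g ζ R) : Good g (uno R) := by
  refine ⟨((hGRA g hg).2.1 ζ R hR).2.1, fun κ _ _ φ => Or.inl ?_⟩
  rw [bc_uno]
  exact typeS_of hGRA hg ((hGRA g hg).2.2 ζ R hR φ)

theorem exists_e {I A : Type} [CommRing A] (α : KK I A ≃ₐ[A] KK I A)
    (P : Subalgebra A (KK I A)) : ∃ e : P ≃ₐ[A] P.map (α : KK I A →ₐ[A] KK I A), ∀ f : P,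
      e f = ⟨α f, ⟨f, f.2, rfl⟩⟩ :=
  ⟨P.equivMapOfInjective (α : KK I A →ₐ[A] KK I A) α.injective, fun f =>
    Subtype.ext (Subalgebra.coe_equivMapOfInjective_apply P (α : KK I A →ₐ[A] KK I A)
      α.injective f)⟩

/-- Change of the coordinate. -/
theorem aut_val {g n : ℕ} (E : Ev0 g n) {k : Type} [CommRing k] [Algebra ℂ k]
    {u : PowerSeries k} (Φ : LaurentSeries k ≃ₐ[k] LaurentSeries k)
    (hΦ : IsSub u (Φ : LaurentSeries k →ₐ[k] LaurentSeries k))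
    {R R₁ : Subalgebra k (LaurentSeries k)}
    (hR : R.map (Φ : LaurentSeries k →ₐ[k] LaurentSeries k) = R₁) (hG : Good g (uno R))
    (hG₁ : Good g (uno R₁)) {p : Fin n → (uno R →ₐ[k] k)} (hp : Marks (uno R) p) :
    ∃ p' : Fin n → (uno R₁ →ₐ[k] k), Marks (uno R₁) p' ∧
      E.Φ k Unit (uno R₁) p' = E.Φ k Unit (uno R) p := by
  obtain ⟨e, he⟩ := exists_e (SUB.kk Φ) (uno R)
  have hpe : ∀ i f, ((p i).comp (e.symm : _ →ₐ[k] uno R)) (e f) = p i f := by
    intro i f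
    change p i (e.symm (e f)) = p i f
    rw [AlgEquiv.symm_apply_apply]
  have hm := marks_equiv e hpe hp
  have hP : (uno R).map (SUB.kk Φ : KK Unit k →ₐ[k] KK Unit k) = uno R₁ := by
    rw [SUB.uno_map, hR]
  have hG₂ : Good g ((uno R).map (SUB.kk Φ : KK Unit k →ₐ[k] KK Unit k)) := by
    rw [hP]
    exact hG₁
  have haut := E.aut (SUB.kk Φ) (fun n f => by
    rw [mem_Pol_unit, mem_Pol_unit, SUB.kk_apply]
    exact SUB.mem_iff hΦ n (f ())) p (fun i => (p i).comp (e.symm : _ →ₐ[k] uno R))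
    hG hp hG₂ hm (fun i f => by
      rw [← he f]
      exact hpe i f)
  obtain ⟨q', hq1, hq2⟩ := transport E hP.symm (fun i => (p i).comp (e.symm : _ →ₐ[k] uno R))
  exact ⟨q', hq1 hm, hq2.trans haut⟩

/-- Base change. -/
theorem bc_val {g n : ℕ} (E : Ev0 g n) {k : Type} [CommRing k] [Algebra ℂ k]
    (φ : ℂ →ₐ[ℂ] k) {R : Subalgebra ℂ (LaurentSeries ℂ)} (hG : Good g (uno R))
    {p : Fin n → (uno R →ₐ[ℂ] ℂ)} (hp : Marks (uno R) p) :
    ∃ p' : Fin n → (uno (bc1 (φ : ℂ →+* k) R) →ₐ[k] k), Marks (uno (bc1 (φ : ℂ →+* k) R)) p' ∧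
      E.Φ k Unit (uno (bc1 (φ : ℂ →+* k) R)) p' = φ (E.Φ ℂ Unit (uno R) p) := by
  obtain ⟨q, hq⟩ := exists_pts hG.1 (φ : ℂ →+* k) p
  have hqm : Marks (bc (φ : ℂ →+* k) (uno R)) q := marks_bc hq hp
  have hnat := E.nat φ p q hG hp hq
  obtain ⟨q', hq1, hq2⟩ := transport E (bc_uno (φ : ℂ →+* k) R).symm q
  exact ⟨q', hq1 hqm, hq2.trans hnat⟩

theorem map_of_comap {k : Type} [CommRing k] (Φ : LaurentSeries k ≃ₐ[k] LaurentSeries k)
    {R R₁ : Subalgebra k (LaurentSeries k)}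
    (h : R = R₁.comap (Φ : LaurentSeries k →ₐ[k] LaurentSeries k)) :
    R.map (Φ : LaurentSeries k →ₐ[k] LaurentSeries k) = R₁ := by
  rw [h]
  ext f
  rw [Subalgebra.mem_map]
  constructor
  · rintro ⟨h, hh, rfl⟩
    exact hh
  · intro hf
    refine ⟨Φ.symm f, ?_, Φ.apply_symm_apply f⟩
    change Φ (Φ.symm f) ∈ R₁
    rw [Φ.apply_symm_apply]
    exact hf

end USNx

open USNx in
theorem t_USN (hGRA : Stmt_GRA) (hUM0 : Stmt_UM0) : Stmt_USN := by
  intro g n hg k _ _ _ E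
  obtain ⟨R₀, h0⟩ := (hGRA g hg).1 (A := ℂ) 0
    (isUnit_iff_ne_zero.2 (Nat.cast_ne_zero.2 (Nat.factorial_ne_zero _)))
  obtain ⟨-, hKr, hzz, -⟩ := (hGRA g hg).2.1 0 R₀ h0
  obtain ⟨p₀, hp₀⟩ := hUM0 n (d := 6 * g + 9) (by omega) hKr hzz (typeS_of hGRA hg h0)
  refine ⟨E.Φ ℂ Unit (uno R₀) p₀, ?_⟩
  intro ζ R hR p hp
  obtain ⟨q, hqm, hq⟩ := bc_val E (Algebra.ofId ℂ k) (good_of hGRA hg h0) hp₀
  have h1 : RG g 0 (bc1 ((Algebra.ofId ℂ k : ℂ →ₐ[ℂ] k) : ℂ →+* k) R₀) := by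
    have := (hGRA g hg).2.2 0 R₀ h0 ((Algebra.ofId ℂ k : ℂ →ₐ[ℂ] k) : ℂ →+* k)
    rwa [map_zero] at this
  obtain ⟨u, Φ, hu0, hu1, hΦ, hRe⟩ := (t_GSC hGRA g hg).2 ζ R _ hR h1
  obtain ⟨p', hpm, hp'⟩ := aut_val E Φ hΦ (map_of_comap Φ hRe) (good_of hGRA hg hR)
    (good_of hGRA hg h1) hp
  have hpos := E.pos p' q ((hGRA g hg).2.1 0 _ h1).2.1 (typeS_of hGRA hg h1) hpm hqm
  exact hp'.symm.trans (hpos.trans hq)

end Pool.Agent.MG.G0
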