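import Pool.Agent.MG.G0.StmtsV
import Pool.Agent.MG.G0.StmtsHV
import Pool.Agent.MG.G0.KDU
import Pool.Agent.MG.G0.KFO
import Pool.Agent.MG.G0.KNZ
import Pool.Agent.MG.G0.KSP
import Pool.Agent.MG.G0.KBC

/-!
# USX: the polarised value exists
-/

open Polynomial

namespace Pool.Agent.MG.G0

namespace USX

theorem kbc : Stmt_KBC := t_KBC (t_KFO t_KDU) t_KNZ (t_KSP t_KNZ)

section

variable {I A B : Type} [CommRing A] [CommRing B]

/-- Over a smooth ring all first order deformations are `θ d/dτ`. -/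
theorem ex_th [Fintype I] {g : ℕ} {P : Subalgebra A (KK I A)} (hSCO : Stmt_SCO)
    (hSKK : Stmt_SKK) (hP : IsKr g P) (hs : SmC A P) (D : DD P) :
    ∃ θ : KK I A, D = tder P θ := by
  obtain ⟨E, hE⟩ := (hSCO.2 hs).2.2 (KK I A) (MM P) (mk P) (mk_surj P) D
  obtain ⟨θ, hθ, -⟩ := (hSKK hP).2 hs E
  refine ⟨θ, Derivation.ext fun f => ?_⟩
  rw [tder_apply, ← hE f, hθ f]

theorem ex_bc [Fintype I] [Nonempty I] {g : ℕ} {P : Subalgebra A (KK I A)} (hSCO : Stmt_SCO)
    (hSKK : Stmt_SKK) (hSDB : Stmt_SDB) (hP : IsKr g P) (hs : SmC A P) (φ : A →+* B)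
    (D : DD (bc φ P)) : ∃ θ : KK I B, φ 1 • D = tder (bc φ P) θ := by
  obtain ⟨θ, hθ⟩ := ex_th hSCO hSKK (kbc.2.2.2 hP φ).1 (hSDB hP hs φ).1 D
  exact ⟨θ, by rw [map_one, one_smul, hθ]⟩

/-- Regular differentials of the curve with one puncture. -/
noncomputable def ee (R : Subalgebra A (LaurentSeries A)) : EE1 R →ₗ[A] EE (uno R) where
  toFun ω := ⟨fun _ => (ω : LaurentSeries A), mem_EE_uno.2 ω.2⟩
  map_add' _ _ := rfl
  map_smul' _ _ := rfl

theorem ee_apply (R : Subalgebra A (LaurentSeries A)) (ω : EE1 R) :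
    (ee R ω : KK Unit A) = fun _ => (ω : LaurentSeries A) := rfl

end

end USX

open USX in
theorem t_USX (hSCO : Stmt_SCO) (hSKK : Stmt_SKK) (hSDB : Stmt_SDB) (_ : Stmt_HV1)
    (hHV2 : Stmt_HV2) (hUGL : Stmt_UGL) : Stmt_USX := by
  intro L _ _ g d R f E m hd hR hz hD hf
  have hc : CharZero L := charZero_of_injective_algebraMap (algebraMap ℂ L).injective
  obtain ⟨hG, hs, -, hPO, -⟩ := hUGL hd hR hz hD hf
  have hP : IsKr g (uno R) := hR
  obtain ⟨-, h2⟩ := hHV2 E (P := uno R) (1 : L) hG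
    (fun φ D => ex_bc hSCO hSKK hSDB hP hs φ D) m
  obtain ⟨G, hGv⟩ := h2 (fun ω hω => by
    rw [one_smul]
    exact hPO hω.1)
  refine ⟨(G.compLinearMap fun _ => ee R).domDomCongr finSumFinEquiv, ?_⟩
  intro ω ω' x hx
  have h := hGv (fun s => ee R (Fin.append ω ω' (finSumFinEquiv s))) x (by
    have e1 : (fun i : Fin m => ((ee R (Fin.append ω ω' (finSumFinEquiv (Sum.inl i))) :
        EE (uno R)) : KK Unit L)) = fun i _ => (ω i : LaurentSeries L) := by
      funext i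
      rw [finSumFinEquiv_apply_left, Fin.append_left, ee_apply]
    have e2 : (fun i : Fin m => ((ee R (Fin.append ω ω' (finSumFinEquiv (Sum.inr i))) :
        EE (uno R)) : KK Unit L)) = fun i _ => (ω' i : LaurentSeries L) := by
      funext i
      rw [finSumFinEquiv_apply_right, Fin.append_right, ee_apply]
    rw [e1, e2]
    exact hx)
  rw [one_mul] at h
  rw [← h]
  rfl

end Pool.Agent.MG.G0
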