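import Pool.Agent.MG.G0.StmtsV
import Pool.Agent.MG.G0.StmtsHV
import Pool.Agent.MG.G0.KDU
import Pool.Agent.MG.G0.KFO

/-!
# UVK: the value does not depend on the covector if the polarised values are zero
-/

open TensorProduct Polynomial

namespace Pool.Agent.MG.G0

namespace UVK

section

variable {I A : Type} [Fintype I] [CommRing A]

omit [Fintype I] in
/-- The form `dk` is surjective onto `Om`. -/
theorem om_dk {P : Subalgebra A (KK I A)} {η : KK I A} (h : η ∈ Om P) :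
    ∃ y : P ⊗[A] P, dk P y = η := by
  refine Submodule.span_induction (p := fun η _ => ∃ y : P ⊗[A] P, dk P y = η) ?_ ?_ ?_ ?_ h
  · rintro _ ⟨p, hp, f, hf, rfl⟩
    exact ⟨(⟨p, hp⟩ : P) ⊗ₜ (⟨f, hf⟩ : P), dk_tmul P ⟨p, hp⟩ ⟨f, hf⟩⟩
  · exact ⟨0, map_zero _⟩
  · rintro x y _ _ ⟨a, ha⟩ ⟨b, hb⟩
    exact ⟨a + b, by rw [map_add, ha, hb]⟩
  · rintro c x _ ⟨a, ha⟩
    exact ⟨c • a, by rw [map_smul, ha]⟩

/-- Existence of values. -/
theorem hv1 [Algebra ℂ A] {g : ℕ} (E : Ev g) {P : Subalgebra A (KK I A)} (t : A)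
    (h : ∀ ω ∈ EE P, t • ω ∈ Om P) {k : ℕ} (u u' : Fin k → KK I A) (hu : ∀ i, u i ∈ EE P)
    (hu' : ∀ i, u' i ∈ EE P) : ∃ x, HV E P t u u' x := by
  have h1 : ∀ i, ∃ η : DR P, dk P η = t • u i := by
    intro i
    obtain ⟨y, hy⟩ := om_dk (h (u i) (hu i))
    exact ⟨⟨y, (show dk P y ∈ Pol I A 0 from hy ▸ Submodule.smul_mem _ t (hu i).2)⟩, hy⟩
  choose η hη using h1
  exact ⟨_, hu', η, hη, rfl⟩

end

/-- Every deformation of a smooth curve comes from a vector field. -/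
theorem dd_tder (hSCO : Stmt_SCO) (hSKK : Stmt_SKK) {I A : Type} [Fintype I] [CommRing A]
    {g : ℕ} {P : Subalgebra A (KK I A)} (hK : IsKr g P) (hS : SmC A P) (D : DD P) :
    ∃ θ : KK I A, D = tder P θ := by
  obtain ⟨E, hE⟩ := (hSCO.2 hS).2.2 (KK I A) (MM P) (mk P) (mk_surj P) D
  obtain ⟨θ, hθ, -⟩ := (hSKK hK).2 hS E
  refine ⟨θ, Derivation.ext fun f => ?_⟩
  rw [tder_apply, ← hθ f, hE f]

/-- A multilinear form which vanishes on a spanning family is zero. -/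
theorem multi_zero {K M ι : Type} [Field K] [AddCommGroup M] [Module K M] [Fintype ι]
    [DecidableEq ι] {n : ℕ} (W : Fin n → M) (hW : ∀ m : M, ∃ c : Fin n → K, m = ∑ j, c j • W j)
    (G : MultilinearMap K (fun _ : ι => M) K) (h : ∀ r : ι → Fin n, G (fun i => W (r i)) = 0)
    (ω : ι → M) : G ω = 0 := by
  choose c hc using hW
  have h1 : ω = fun i => ∑ j, c (ω i) j • W j := funext fun i => hc (ω i)
  rw [h1, MultilinearMap.map_sum]
  refine Finset.sum_eq_zero fun r _ => ?_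
  rw [MultilinearMap.map_smul_univ, h, smul_zero]

/-- UVL for a subalgebra equal to `uno R`. -/
theorem uvl (hUVL : Stmt_UVL) {K : Type} [Field K] {g : ℕ}
    {R : Subalgebra K (LaurentSeries K)} (hR : Kr g R) (hN : Noe R)
    (Q : Subalgebra K (KK Unit K)) (hQ : Q = uno R) (l : CovL Q) :
    ∃ (n : ℕ) (ω ω' : Fin n → EE Q), ∀ θ : KK Unit K,
      l.1 (tder Q θ) = ∑ i, res (θ * ((ω i : KK Unit K) * (ω' i : KK Unit K))) := by
  subst hQ
  exact hUVL hR hN l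

end UVK

open UVK in
/-- UVK (U7): if the polarised values are zero then the value does not depend on the
covector. -/
theorem t_UVK (hKBC : Stmt_KBC) (hSTO : Stmt_STO) (hSCO : Stmt_SCO) (hSKK : Stmt_SKK)
    (hSDB : Stmt_SDB) (hHV2 : Stmt_HV2) (hHV4 : Stmt_HV4) (hHV9 : Stmt_HV9) (hUGL : Stmt_UGL)
    (hUVL : Stmt_UVL) : Stmt_UVK := by
  clear hSTO
  intro L K _ _ _ _ _ φ g d R f E hd hR hz hf hsep hN hS l
  have : CharZero L := charZero_of_injective_algebraMap (algebraMap ℂ L).injective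
  have : CharZero K := charZero_of_injective_algebraMap (algebraMap ℂ K).injective
  obtain ⟨hG, hSm, hDu, hPe, hA⟩ := hUGL hd hR hz hf hsep
  obtain ⟨-, -, hf'⟩ := hA (φ : L →+* K)
  -- the curve over K
  have hKr : IsKr g (bc (φ : L →+* K) (uno R)) := (hKBC.2.2.2 hR (φ : L →+* K)).1
  have hbc : bc (φ : L →+* K) (uno R) = uno (bc1 (φ : L →+* K) R) := bc_uno _ _
  have hR' : Kr g (bc1 (φ : L →+* K) R) := by
    change IsKr g (uno (bc1 (φ : L →+* K) R))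
    rw [← hbc]
    exact hKr
  have hz' : zz K d ∈ bc1 (φ : L →+* K) R :=
    Algebra.subset_adjoin ⟨zz L d, hz, lmap_zz _ _⟩
  have hsep' : (f.map (φ : L →+* K)).Separable := hsep.map
  obtain ⟨hG', hSm', -, hPe', -⟩ := hUGL hd hR' hz' hf' hsep'
  have hP1 : ∀ ω ∈ EE (uno R), (1 : L) • ω ∈ Om (uno R) := fun ω hω => by
    rw [one_smul]
    exact hPe hω.1
  -- the covectors
  rw [← hbc] at hG' hSm' hPe'
  have hP1' : ∀ ω ∈ EE (bc (φ : L →+* K) (uno R)), (1 : K) • ω ∈ Om (bc (φ : L →+* K) (uno R)) :=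
    fun ω hω => by
      rw [one_smul]
      exact hPe' hω.1
  -- a spanning family
  obtain ⟨⟨ω, hω⟩, hω2⟩ := t_KFO t_KDU hR
  obtain ⟨hωE, -⟩ := hω2 ω hω
  have hF := (hKBC.2.2.2 hR (φ : L →+* K)).2.1 ω hω
  obtain ⟨hWE, hWs⟩ := (t_KFO t_KDU hKr).2 _ hF
  have hW : ∀ m : EE (bc (φ : L →+* K) (uno R)), ∃ c : Fin g → K, m = ∑ j, c j •
      (⟨kmap (φ : L →+* K) (ω j), hWE j⟩ : EE (bc (φ : L →+* K) (uno R))) := by
    intro m
    obtain ⟨c, hc, -⟩ := hWs m m.2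
    refine ⟨c, Subtype.ext ?_⟩
    rw [AddSubmonoidClass.coe_finsetSum]
    exact hc
  have hT : ∀ {B : Type} [CommRing B] (ψ : K →+* B) (D : DD (bc ψ (bc (φ : L →+* K) (uno R)))),
      ∃ θ : KK Unit B, ψ 1 • D = tder (bc ψ (bc (φ : L →+* K) (uno R))) θ := by
    intro B _ ψ D
    rw [map_one, one_smul]
    exact dd_tder hSCO hSKK (hKBC.2.2.2 hKr ψ).1 (hSDB hKr hSm' ψ).1 D
  have hzero : ∀ (m : ℕ) (u u' : Fin m → KK Unit K) (x : K), 1 ≤ m →
      (∀ i, u i ∈ EE (bc (φ : L →+* K) (uno R))) →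
      HV E (bc (φ : L →+* K) (uno R)) 1 u u' x → x = 0 := by
    intro m u u' x hm hu hx
    obtain ⟨G, hGx⟩ := (hHV2 E (1 : K) hG' hT m).2 hP1'
    obtain ⟨hu', hx'⟩ := id hx
    have h0 : ∀ ω' : Fin m ⊕ Fin m → EE (bc (φ : L →+* K) (uno R)), G ω' = 0 := by
      refine multi_zero _ hW G fun r => ?_
      obtain ⟨y, hy⟩ := hv1 E (1 : L) hP1 (fun i => ω (r (Sum.inl i))) (fun i => ω (r (Sum.inr i)))
        (fun i => hωE _) (fun i => hωE _)
      have h1 := hS m hm (fun i => ⟨ω (r (Sum.inl i)) (), mem_EE_uno.1 (hωE _)⟩)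
        (fun i => ⟨ω (r (Sum.inr i)) (), mem_EE_uno.1 (hωE _)⟩) y hy
      have h2 : y = 0 := by rw [← h1, MultilinearMap.zero_apply]
      have h3 := hHV4 E (1 : L) hG φ _ _ _ hy
      rw [h2, map_zero, map_one] at h3
      have h4 := hGx (fun i => ⟨kmap (φ : L →+* K) (ω (r i)), hWE (r i)⟩) 0 h3
      rw [h4, mul_zero]
    have h5 := hGx (Sum.elim (fun i => ⟨u i, hu i⟩) (fun i => ⟨u' i, hu' i⟩)) x hx
    rw [h0, one_mul] at h5
    exact h5.symm
  obtain ⟨n, ω1, ω2, h12⟩ := uvl hUVL hR' hN _ hbc l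
  have h6 := hHV9 E hG' hSm' hzero l n ω1 ω2 (fun i => hPe' (ω1 i).2.1) h12
  rw [h6]
  refine E.nat φ (uno R) hG 0 0 ?_
  intro D D' _
  change (0 : K) = φ 0
  rw [map_zero]

end Pool.Agent.MG.G0
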