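import Pool.Agent.MG.G0.StmtsV

/-!
# The covectors are sums of products of regular differentials (PAPER_V, UVL)
-/

namespace Pool.Agent.MG.G0

namespace UVL

section

variable {I A : Type} [CommRing A] (P : Subalgebra A (KK I A))

theorem tder_add (θ θ' : KK I A) : tder P (θ + θ') = tder P θ + tder P θ' := by
  refine Derivation.ext fun f => ?_
  rw [Derivation.add_apply, tder_apply, tder_apply, tder_apply, add_mul, map_add]

theorem tder_smul (a : A) (θ : KK I A) : tder P (a • θ) = a • tder P θ := by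
  refine Derivation.ext fun f => ?_
  rw [Derivation.smul_apply, tder_apply, tder_apply, smul_mul_assoc, mk_smulA]

theorem tder_TT {θ : KK I A} (hθ : θ ∈ TT P) : tder P θ = 0 := by
  refine Derivation.ext fun f => ?_
  rw [tder_apply, Derivation.zero_apply, ← map_zero (mk P), mk_eq, sub_zero]
  exact hθ _ f.2

/-- A functional on the first order deformations as a functional of the vector field. -/
noncomputable def Lam (l : DD P →ₗ[A] A) : KK I A →ₗ[A] A where
  toFun θ := l (tder P θ)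
  map_add' θ θ' := by rw [tder_add, map_add]
  map_smul' a θ := by rw [tder_smul, map_smul, RingHom.id_apply]

theorem Lam_apply (l : DD P →ₗ[A] A) (θ : KK I A) : Lam P l θ = l (tder P θ) := rfl

/-- `θ ↦ res (θ x)` -/
noncomputable def rs [Fintype I] (x : KK I A) : KK I A →ₗ[A] A :=
  res ∘ₗ LinearMap.mulRight A x

theorem rs_apply [Fintype I] (x θ : KK I A) : rs x θ = res (θ * x) := rfl

end

variable {K : Type} [Field K] {g : ℕ} {R : Subalgebra K (LaurentSeries K)}

/-- The residues with a basis of the regular differentials determine all residues. -/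
theorem res_all {ω : Fin g → KK Unit K} (hω : ∀ η ∈ EE (uno R), ∃ c : Fin g → K, η = ∑ j, c j • (ω j : KK Unit K))
    {θ : KK Unit K} (hθ : ∀ i j, res (θ * (ω i * ω j)) = 0) {x y : KK Unit K}
    (hx : x ∈ EE (uno R)) (hy : y ∈ EE (uno R)) : res (θ * (x * y)) = 0 := by
  obtain ⟨c, rfl⟩ := hω x hx
  obtain ⟨d, rfl⟩ := hω y hy
  rw [Finset.sum_mul, Finset.mul_sum, map_sum]
  refine Finset.sum_eq_zero fun i _ => ?_
  rw [Finset.mul_sum, Finset.mul_sum, map_sum]
  refine Finset.sum_eq_zero fun j _ => ?_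
  rw [smul_mul_smul_comm, mul_smul_comm, map_smul, hθ, smul_zero]

theorem res_one {ω : Fin g → KK Unit K}
    (hω : ∀ η ∈ EE (uno R), ∃ c : Fin g → K, η = ∑ j, c j • (ω j : KK Unit K))
    {θ : KK Unit K} (hθ : ∀ i j, res (θ * (ω i * ω j)) = 0) :
    ∀ x ∈ EE1 R, ∀ y ∈ EE1 R, (θ () * x * y).coeff (-1) = 0 := by
  intro x hx y hy
  have hx' : (fun _ => x : KK Unit K) ∈ EE (uno R) := mem_EE_uno.2 hx
  have hy' : (fun _ => y : KK Unit K) ∈ EE (uno R) := mem_EE_uno.2 hy
  have h2 := res_all hω hθ hx' hy'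
  rw [res_unit] at h2
  rw [mul_assoc]
  exact h2

theorem Lam_zero (l : CovL (uno R)) {θ : KK Unit K} {θ' : LaurentSeries K} (hθ' : θ' ∈ TT1 R)
    (hd : θ () - θ' ∈ Po K 0) : Lam (uno R) l.1 θ = 0 := by
  have h1 : (fun _ => θ' : KK Unit K) ∈ TT (uno R) := mem_TT_uno.2 hθ'
  have h2 : (fun _ => θ () - θ' : KK Unit K) ∈ Pol Unit K 0 := mem_Pol_unit.2 hd
  have e : θ = (fun _ => θ' : KK Unit K) + (fun _ => θ () - θ' : KK Unit K) := by
    funext u
    exact (add_sub_cancel θ' (θ ())).symm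
  have h3 : Lam (uno R) l.1 (fun _ => θ' : KK Unit K) = 0 := by
    rw [Lam_apply, tder_TT (uno R) h1, map_zero]
  have h4 : Lam (uno R) l.1 (fun _ => θ () - θ' : KK Unit K) = 0 := l.2 _ h2
  rw [e, map_add, h3, h4, add_zero]

theorem fin {ω : Fin g → KK Unit K} (hE : ∀ j, ω j ∈ EE (uno R)) (l : CovL (uno R))
    (hs : Lam (uno R) l.1 ∈ Submodule.span K
      (Set.range fun k : Fin g × Fin g => (rs (ω k.1 * ω k.2) : KK Unit K →ₗ[K] K))) :
    ∃ (n : ℕ) (ω ω' : Fin n → EE (uno R)), ∀ θ : KK Unit K,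
      l.1 (tder (uno R) θ) = ∑ i, res (θ * ((ω i : KK Unit K) * (ω' i : KK Unit K))) := by
  rw [Submodule.mem_span_range_iff_exists_fun] at hs
  obtain ⟨c, hc⟩ := hs
  refine ⟨g * g, fun k => ⟨c (finProdFinEquiv.symm k) • ω (finProdFinEquiv.symm k).1,
    Submodule.smul_mem _ _ (hE _)⟩, fun k => ⟨ω (finProdFinEquiv.symm k).2, hE _⟩, fun θ => ?_⟩
  have h1 : l.1 (tder (uno R) θ) = ∑ k : Fin g × Fin g, c k * res (θ * (ω k.1 * ω k.2)) := by
    rw [← Lam_apply, ← hc, LinearMap.sum_apply]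
    rfl
  rw [h1, ← Equiv.sum_comp finProdFinEquiv.symm]
  refine Finset.sum_congr rfl fun k _ => ?_
  rw [← smul_eq_mul, ← map_smul, ← mul_smul_comm, ← smul_mul_assoc]

end UVL

theorem t_UVL (hKFO : Stmt_KFO) : Stmt_UVL := by
  intro K _ g R hR hN l
  obtain ⟨⟨ω, hω⟩, hF⟩ := hKFO hR
  obtain ⟨hE, hu⟩ := hF ω hω
  have hu' : ∀ η ∈ EE (uno R), ∃ c : Fin g → K, η = ∑ j, c j • (ω j : KK Unit K) :=
    fun η hη => (hu η hη).exists
  have hker : ⨅ k : Fin g × Fin g, LinearMap.ker (UVL.rs (ω k.1 * ω k.2)) ≤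
      LinearMap.ker (UVL.Lam (uno R) l.1) := by
    intro θ hθ
    rw [Submodule.mem_iInf] at hθ
    rw [LinearMap.mem_ker]
    have h0 : ∀ i j, res (θ * (ω i * ω j)) = 0 := fun i j => LinearMap.mem_ker.1 (hθ (i, j))
    obtain ⟨θ', hθ', hd⟩ := hN (θ ()) (UVL.res_one hu' h0)
    exact UVL.Lam_zero l hθ' hd
  exact UVL.fin hE l (mem_span_of_iInf_ker_le_ker hker)

end Pool.Agent.MG.G0
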