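import Pool.Agent.MG.G0.StmtsV
import Pool.Agent.MG.G0.KIL
import Pool.Agent.MG.G0.ZDU

/-!
# UZT: the ideal `T dz`
-/

namespace Pool.Agent.MG.G0

namespace UZT

open Polynomial ZL Matrix

section

variable {K : Type} [Field K] {d : ℕ}

/-- The adjugate does not vanish at a simple zero of the determinant. -/
theorem adj_ne (hd : 1 ≤ d) {G : Matrix (Fin d) (Fin d) K[X]} {f u : K[X]} (hu : IsUnit u)
    (hdet : G.det = u * f) (hf : f.Separable) {β : K} (hβ : f.eval β = 0) :
    ∃ j i, (G.adjugate j i).eval β ≠ 0 := by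
  by_contra hcon
  simp only [not_exists, not_not] at hcon
  have h1 : ∀ j i, ∃ q, G.adjugate j i = (X - C β) * q :=
    fun j i => dvd_iff_isRoot.2 (hcon j i)
  choose N hN using h1
  have h2 : G.adjugate = (X - C β) • Matrix.of N := by
    ext1 j i
    exact hN j i
  obtain ⟨h, hh⟩ : ∃ h, f = (X - C β) * h := dvd_iff_isRoot.2 hβ
  have h3 : h.eval β ≠ 0 := by
    have h4 : f.derivative.eval β ≠ 0 := by
      have h5 := hf.eval₂_derivative_ne_zero (RingHom.id K) (x := β)
        (by rw [eval₂_id]; exact hβ)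
      rwa [eval₂_id] at h5
    rw [hh, derivative_mul] at h4
    simpa using h4
  have h5 := congrArg Matrix.det h2
  rw [Matrix.det_adjugate, Matrix.det_smul, Fintype.card_fin, hdet, hh] at h5
  obtain ⟨n, rfl⟩ : ∃ n, d = n + 1 := ⟨d - 1, by omega⟩
  rw [Nat.add_sub_cancel] at h5
  have h6 : (X - C β) ^ n * ((u * h) ^ n) = (X - C β) ^ n * ((X - C β) * (Matrix.of N).det) := by
    calc (X - C β) ^ n * ((u * h) ^ n) = (u * ((X - C β) * h)) ^ n := by
          rw [mul_pow, mul_pow, mul_pow, mul_left_comm]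
      _ = (X - C β) ^ (n + 1) * (Matrix.of N).det := h5
      _ = _ := by ring
  have h7 := mul_left_cancel₀ (pow_ne_zero n (X_sub_C_ne_zero β)) h6
  have h8 := congrArg (eval β) h7
  rw [eval_pow, eval_mul, eval_mul, eval_sub, eval_X, eval_C, sub_self, zero_mul] at h8
  have h9 : u.eval β ≠ 0 := by
    obtain ⟨c, hc, rfl⟩ := Polynomial.isUnit_iff.1 hu
    rw [eval_C]
    exact hc.ne_zero
  exact pow_ne_zero n (mul_ne_zero h9 h3) h8

theorem vecMul_update {G : Matrix (Fin d) (Fin d) K} (i : Fin d) (r w : Fin d → K)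
    (hw : w i = 0) : w ᵥ* (G.updateRow i r) = w ᵥ* G := by
  ext k
  simp only [Matrix.vecMul, dotProduct]
  refine Finset.sum_congr rfl fun l _ => ?_
  by_cases h : l = i
  · subst h
    rw [hw, zero_mul, zero_mul]
  · rw [Matrix.updateRow_ne h]

/-- The left kernel is spanned by a nonzero row of the adjugate. -/
theorem ker_row {G : Matrix (Fin d) (Fin d) K} (hG : G.det = 0) {j i : Fin d}
    (h : G.adjugate j i ≠ 0) (w : Fin d → K) (hw : w ᵥ* G = 0) :
    w = (w i / G.adjugate j i) • G.adjugate j := by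
  have h0 : (G.adjugate j) ᵥ* G = 0 := by
    ext k
    have h1 : (G.adjugate * G) j k = 0 := by
      rw [Matrix.adjugate_mul, hG, zero_smul]
      rfl
    exact h1
  have h1 : (w - (w i / G.adjugate j i) • G.adjugate j) ᵥ*
      (G.updateRow i (Pi.single j 1)) = 0 := by
    rw [vecMul_update i _ _ (by
      rw [Pi.sub_apply, Pi.smul_apply, smul_eq_mul, div_mul_cancel₀ _ h, sub_self]),
      Matrix.sub_vecMul, Matrix.smul_vecMul, hw, h0, smul_zero, sub_zero]
  have h2 : (G.updateRow i (Pi.single j 1)).det ≠ 0 := by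
    rw [← Matrix.adjugate_apply]
    exact h
  exact sub_eq_zero.1 (Matrix.eq_zero_of_vecMul_eq_zero h2 h1)

/-- If `M G` is symmetric at a simple zero, then `adj(G) M` is a multiple of `adj(G)`. -/
theorem adj_char {G M : Matrix (Fin d) (Fin d) K} (hG : G.det = 0) {j i : Fin d}
    (h : G.adjugate j i ≠ 0) (hM : M * G = G * Mᵀ) :
    ∃ χ : K, G.adjugate * M = χ • G.adjugate := by
  set N := G.adjugate with hN
  have h1 : N * M * G = 0 := by
    rw [Matrix.mul_assoc, hM, ← Matrix.mul_assoc, hN, Matrix.adjugate_mul, hG, zero_smul,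
      Matrix.zero_mul]
  have h2 : N * G = 0 := by
    rw [hN, Matrix.adjugate_mul, hG, zero_smul]
  have h3 : ∀ k, N k = (N k i / N j i) • N j := fun k =>
    ker_row hG h (N k) (by
      ext l
      exact congrFun (congrFun h2 k) l)
  have h4 : (N * M) j = ((N * M) j i / N j i) • N j :=
    ker_row hG h ((N * M) j) (by
      ext l
      exact congrFun (congrFun h1 j) l)
  refine ⟨(N * M) j i / N j i, ?_⟩
  ext k l
  have h5 : (N * M) k l = (N k i / N j i) * (N * M) j l := by
    rw [Matrix.mul_apply, Matrix.mul_apply, Finset.mul_sum]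
    refine Finset.sum_congr rfl fun m _ => ?_
    have h6 := congrFun (h3 k) m
    rw [Pi.smul_apply, smul_eq_mul] at h6
    rw [← mul_assoc, ← h6]
  have h6 := congrFun h4 l
  rw [Pi.smul_apply, smul_eq_mul] at h6
  have h7 := congrFun (h3 k) l
  rw [Pi.smul_apply, smul_eq_mul] at h7
  rw [h5, h6, Matrix.smul_apply, smul_eq_mul, h7]
  ring

theorem dvd_of_roots [IsAlgClosed K] {f a : K[X]} (hf : f.Separable)
    (h : ∀ β, f.eval β = 0 → a.eval β = 0) : f ∣ a := by
  classical
  by_cases ha : a = 0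
  · rw [ha]
    exact dvd_zero f
  have hf0 : f ≠ 0 := hf.ne_zero
  refine ((IsAlgClosed.splits f).dvd_iff_roots_le_roots hf0 ha).2 ?_
  refine (Multiset.le_iff_subset (nodup_roots hf)).2 fun β hβ => ?_
  rw [mem_roots hf0] at hβ
  rw [mem_roots ha]
  exact h β hβ

end

section

variable {K : Type} [Field K] {g d : ℕ} {R : Subalgebra K (LaurentSeries K)}

theorem zpol_mem (hz : zz K d ∈ R) (p : K[X]) : zpol K d p ∈ R :=
  (Algebra.adjoin_le (S := R) (Set.singleton_subset_iff.2 hz))
    (Polynomial.aeval_mem_adjoin_singleton K (zz K d))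

theorem ld_perp (hOP : Om (uno R) ≤ Perp (uno R)) {h : LaurentSeries K} (hh : h ∈ R) :
    ∀ p ∈ R, (ld h * p).coeff (-1) = 0 := by
  have h1 : dd (fun _ : Unit => h) ∈ Perp (uno R) := by
    refine hOP (Submodule.subset_span ?_)
    exact ⟨1, one_mem _, fun _ => h, hh, (one_mul _).symm⟩
  intro p hp
  have h2 := mem_Perp.1 h1 (fun _ => p) hp
  rw [res_unit] at h2
  exact h2

/-- The expansion of the elements of `R^⊥`. -/
theorem perp_exp {e es : Fin d → LaurentSeries K} (hd : 1 ≤ d) (hdK : (d : K) ≠ 0) (hR : Kr g R)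
    (hz : zz K d ∈ R) (he : ZBas d R e)
    (hes : ∀ i j, pr0 K d (e i * es j) = if i = j then 1 else 0) {x : LaurentSeries K}
    (hx : ∀ p ∈ R, (x * p).coeff (-1) = 0) :
    ∃ q : Fin d → K[X], x = (∑ j, zpol K d (q j) * es j) * ld (zz K d) := by
  have : NeZero d := ⟨by omega⟩
  have hC := cmat_isUnit hR (spn_of_zbas he)
  have hu : IsUnit (d : K) := IsUnit.mk0 _ hdK
  obtain ⟨U, hU⟩ := KIL.isUnit_ld_zz (A := K) hu
  set x' : LaurentSeries K := x * (↑U⁻¹ : LaurentSeries K) with hx'
  have hxx : x' * ld (zz K d) = x := by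
    rw [hx', ← hU, mul_assoc, Units.inv_mul, mul_one]
  have h1 : ∀ j, ∃ q : K[X], pr0 K d (e j * x') = zpol K d q := by
    intro j
    refine KIL.exists_poly hd _ fun k => ?_
    have h2 := hx (zz K d ^ k * e j) (mul_mem (pow_mem hz k) (he.mem j))
    have h3 : x * (zz K d ^ k * e j) = (zz K d ^ k * (e j * x')) * ld (zz K d) := by
      conv_lhs => rw [← hxx]
      ring
    rw [h3, KIL.coeff_mul_ld_zz, KIL.coeff_zzpow_mul] at h2
    exact (mul_eq_zero.1 h2).resolve_left (neg_ne_zero.2 hdK)
  choose q hq using h1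
  refine ⟨q, ?_⟩
  have h5 : ∀ i, pr0 K d (e i * (x' - ∑ j, zpol K d (q j) * es j)) = 0 := by
    intro i
    have h6 : e i * (∑ j, zpol K d (q j) * es j) = ∑ j, zpol K d (q j) * (e i * es j) := by
      rw [Finset.mul_sum]
      exact Finset.sum_congr rfl fun j _ => mul_left_comm _ _ _
    have h7 : ∀ j, pr0 K d (zpol K d (q j) * (e i * es j)) =
        if i = j then zpol K d (q j) else 0 := by
      intro j
      rw [pr0_zpol_mul, hes, mul_ite, mul_one, mul_zero]
    rw [mul_sub, map_sub, hq, h6, map_sum, Finset.sum_congr rfl fun j _ => h7 j,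
      Finset.sum_ite_eq, if_pos (Finset.mem_univ _), sub_self]
  have h11 : x' - ∑ j, zpol K d (q j) * es j = 0 := by
    refine KIL.nondeg hC fun i => ?_
    rw [pr_zero_eq]
    exact h5 _
  rw [← sub_eq_zero.1 h11, hxx]

/-- The dual basis times `∂z` is in `R^⊥`. -/
theorem es_perp {e es : Fin d → LaurentSeries K} (hd : 1 ≤ d) (he : ZBas d R e)
    (hes : ∀ i j, pr0 K d (e i * es j) = if i = j then 1 else 0) (j : Fin d) :
    ∀ p ∈ R, (es j * ld (zz K d) * p).coeff (-1) = 0 := by
  intro p hp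
  obtain ⟨c, hc, -⟩ := he.uni p hp
  have h1 : es j * ld (zz K d) * p = (es j * p) * ld (zz K d) := by ring
  have h2 : pr0 K d (es j * p) = zpol K d (c j) := by
    have h3 : es j * p = ∑ i, zpol K d (c i) * (e i * es j) := by
      conv_lhs => rw [hc]
      rw [Finset.mul_sum]
      refine Finset.sum_congr rfl fun i _ => ?_
      ring
    have h4 : ∀ i, pr0 K d (zpol K d (c i) * (e i * es j)) =
        if i = j then zpol K d (c i) else 0 := by
      intro i
      rw [pr0_zpol_mul, hes, mul_ite, mul_one, mul_zero]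
    rw [h3, map_sum, Finset.sum_congr rfl fun i _ => h4 i, Finset.sum_ite_eq',
      if_pos (Finset.mem_univ _)]
  have h3 : (es j * p).coeff (d : ℤ) = (pr0 K d (es j * p)).coeff (d : ℤ) := by
    rw [pr0_coeff, if_pos (dvd_refl _)]
  have h4 : (zpol K d (c j)).coeff (d : ℤ) = 0 := ev_coeff_pos d (c j) _ (by omega)
  rw [h1, KIL.coeff_mul_ld_zz, h3, h2, h4, mul_zero]

/-- The matrix of the multiplication by an element. -/
theorem mulMat {e : Fin d → LaurentSeries K} (he : ZBas d R e) {x : LaurentSeries K}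
    (hx : x ∈ R) :
    ∃ M : Matrix (Fin d) (Fin d) K[X], ∀ i, x * e i = ∑ j, zpol K d (M i j) * e j := by
  choose c hc hu using fun i => he.uni (x * e i) (mul_mem hx (he.mem i))
  exact ⟨Matrix.of c, fun i => hc i⟩

theorem mat_sym (hd : 1 ≤ d) {e : Fin d → LaurentSeries K} {G M : Matrix (Fin d) (Fin d) K[X]}
    (hG : ZGram d e G) {x : LaurentSeries K}
    (hM : ∀ i, x * e i = ∑ j, zpol K d (M i j) * e j) : M * G = G * Mᵀ := by
  have hinj := ev_injective (A := K) d (by omega)
  have hsym : ∀ i j, G i j = G j i := by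
    intro i j
    apply hinj
    show zpol K d (G i j) = zpol K d (G j i)
    rw [hG, hG, mul_comm]
  have h1 : ∀ i k, zpol K d ((M * G) i k) = pr0 K d (x * e i * e k) := by
    intro i k
    rw [Matrix.mul_apply, map_sum, hM, Finset.sum_mul, map_sum]
    refine Finset.sum_congr rfl fun j _ => ?_
    rw [map_mul, hG, mul_assoc, pr0_zpol_mul]
  have h2 : ∀ i k, (G * Mᵀ) i k = (M * G) k i := by
    intro i k
    rw [Matrix.mul_apply, Matrix.mul_apply]
    refine Finset.sum_congr rfl fun j _ => ?_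
    rw [Matrix.transpose_apply, hsym i j, mul_comm]
  ext1 i k
  apply hinj
  show zpol K d ((M * G) i k) = zpol K d ((G * Mᵀ) i k)
  rw [h1, h2, h1]
  congr 1
  ring

/-- `x` is congruent to a polynomial in `z` modulo the different. -/
theorem exists_poly_diff [IsAlgClosed K] {e es : Fin d → LaurentSeries K}
    {G : Matrix (Fin d) (Fin d) K[X]} {f u : K[X]} (hd : 1 ≤ d) (hz : zz K d ∈ R)
    (he : ZBas d R e) (hG : ZGram d e G) (hu : IsUnit u) (hdet : G.det = u * f)
    (hf : f.Separable) (hes : ∀ j, zpol K d G.det * es j = ∑ i, zpol K d (G.adjugate j i) * e i)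
    {x : LaurentSeries K} (hx : x ∈ R) :
    ∃ a : K[X], ∀ j, es j * (x - zpol K d a) ∈ R := by
  classical
  obtain ⟨M, hM⟩ := mulMat he hx
  have hMG := mat_sym hd hG hM
  have hdet0 : G.det ≠ 0 := by
    rw [hdet]
    exact mul_ne_zero hu.ne_zero hf.ne_zero
  have hinj := ev_injective (A := K) d (by omega)
  have h0 : ∀ β : K, ∃ χ : K, f.eval β = 0 →
      ∀ j k, ((G.adjugate * M) j k).eval β = χ * (G.adjugate j k).eval β := by
    intro β
    by_cases hβ : f.eval β = 0
    · obtain ⟨j, i, hji⟩ := adj_ne hd hu hdet hf hβ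
      have h1 : (G.map (evalRingHom β)).det = 0 := by
        have h2 := RingHom.map_det (evalRingHom β) G
        rw [RingHom.mapMatrix_apply] at h2
        rw [← h2, hdet, map_mul, coe_evalRingHom, hβ, mul_zero]
      have h2 : (G.map (evalRingHom β)).adjugate = G.adjugate.map (evalRingHom β) := by
        have h3 := RingHom.map_adjugate (evalRingHom β) G
        rw [RingHom.mapMatrix_apply, RingHom.mapMatrix_apply] at h3
        exact h3.symm
      have h3 : M.map (evalRingHom β) * G.map (evalRingHom β) =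
          G.map (evalRingHom β) * (M.map (evalRingHom β))ᵀ := by
        have h4 := congrArg (fun F => Matrix.map F (evalRingHom β)) hMG
        simp only [Matrix.map_mul] at h4
        rw [h4, Matrix.transpose_map]
      obtain ⟨χ, hχ⟩ := adj_char (j := j) (i := i) h1 (by rw [h2]; exact hji) h3
      refine ⟨χ, fun _ j k => ?_⟩
      have h5 := congrFun (congrFun hχ j) k
      rw [h2, ← Matrix.map_mul] at h5
      exact h5
    · exact ⟨0, fun h => absurd h hβ⟩
  choose χ hχ using h0
  let s : Finset K := f.roots.toFinset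
  let a : K[X] := Lagrange.interpolate s id χ
  have ha : ∀ β, f.eval β = 0 → a.eval β = χ β := by
    intro β hβ
    have h1 : β ∈ s := by
      rw [Multiset.mem_toFinset, mem_roots hf.ne_zero]
      exact hβ
    exact Lagrange.eval_interpolate_at_node χ (fun _ _ _ _ h => h) h1
  have hN : ∀ j k, G.det ∣ (G.adjugate * (M - a • (1 : Matrix (Fin d) (Fin d) K[X]))) j k := by
    intro j k
    have h1 : f ∣ (G.adjugate * (M - a • (1 : Matrix (Fin d) (Fin d) K[X]))) j k := by
      refine dvd_of_roots hf fun β hβ => ?_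
      rw [Matrix.mul_sub, Matrix.mul_smul, Matrix.mul_one, Matrix.sub_apply, Matrix.smul_apply,
        smul_eq_mul, eval_sub, eval_mul, hχ β hβ j k, ha β hβ, sub_self]
    rw [hdet]
    exact (hu.mul_left_dvd).2 h1
  choose Q hQ using hN
  refine ⟨a, fun j => ?_⟩
  have h1 : ∀ i, e i * (x - zpol K d a) =
      ∑ k, zpol K d ((M - a • (1 : Matrix (Fin d) (Fin d) K[X])) i k) * e k := by
    intro i
    have h2 : ∀ k, zpol K d ((M - a • (1 : Matrix (Fin d) (Fin d) K[X])) i k) * e k =
        zpol K d (M i k) * e k - (if i = k then zpol K d a * e k else 0) := by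
      intro k
      rw [Matrix.sub_apply, Matrix.smul_apply, Matrix.one_apply, smul_eq_mul, map_sub, sub_mul]
      split_ifs
      · rw [mul_one]
      · rw [mul_zero, map_zero, zero_mul]
    rw [Finset.sum_congr rfl fun k _ => h2 k, Finset.sum_sub_distrib, ← hM i, Finset.sum_ite_eq,
      if_pos (Finset.mem_univ _)]
    ring
  have h2 : zpol K d G.det * (es j * (x - zpol K d a)) =
      zpol K d G.det * ∑ k, zpol K d (Q j k) * e k := by
    rw [← mul_assoc, hes, Finset.sum_mul, Finset.mul_sum]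
    have h3 : ∀ i, zpol K d (G.adjugate j i) * e i * (x - zpol K d a) =
        ∑ k, zpol K d (G.adjugate j i * (M - a • (1 : Matrix (Fin d) (Fin d) K[X])) i k) * e k := by
      intro i
      rw [mul_assoc, h1, Finset.mul_sum]
      refine Finset.sum_congr rfl fun k _ => ?_
      rw [map_mul, mul_assoc]
    rw [Finset.sum_congr rfl fun i _ => h3 i, Finset.sum_comm]
    refine Finset.sum_congr rfl fun k _ => ?_
    rw [← Finset.sum_mul, ← map_sum, ← Matrix.mul_apply, hQ, map_mul, mul_assoc]
  have h3 : zpol K d G.det ≠ 0 := fun h => hdet0 (hinj (by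
    show zpol K d G.det = zpol K d 0
    rw [h, map_zero]))
  rw [mul_left_cancel₀ h3 h2]
  exact sum_mem fun k _ => mul_mem (zpol_mem hz _) (he.mem k)

end

end UZT

open Polynomial ZL UZT in
/-- UZT -/
theorem t_UZT (hSTO : Stmt_STO) (hSDF : Stmt_SDF) (hPPR : Stmt_PPR) (hKIL : Stmt_KIL)
    (hKIS : Stmt_KIS) : Stmt_UZT := by
  classical
  intro K _ _ g d R f hd hfac hR hz hD hf
  have hdK : (d : K) ≠ 0 := by
    intro h
    apply hfac
    obtain ⟨n, rfl⟩ : ∃ n, d = n + 1 := ⟨d - 1, by omega⟩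
    rw [Nat.factorial_succ, Nat.cast_mul, h, zero_mul]
  have hu : IsUnit (d : K) := IsUnit.mk0 _ hdK
  have hKil := hKIL.1 hd hu hR hz hD
  obtain ⟨hFS, hSm⟩ := hKIS hd hfac hR hz hKil hf
  have hDual : Dual (uno R) := hSDF hR hFS hSm
  obtain ⟨hOP, -⟩ := hSTO (P := uno R) hR
  have hld : ∀ h ∈ R, ∀ p ∈ R, (ld h * p).coeff (-1) = 0 := fun h hh => ld_perp hOP hh
  obtain ⟨e, G, he, hG, u, hu', hdet⟩ := hD
  obtain ⟨hdet0, es, hes, -, -, hes4⟩ := (t_ZDU (by omega) hdK R hR hz).2 e G he hG
  obtain ⟨U, hU⟩ := KIL.isUnit_ld_zz (A := K) hu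
  refine ⟨⟨zpol K d f * (↑U⁻¹ : LaurentSeries K), fun h hh => ?_, ?_⟩, fun x hx => ?_,
    fun a ha => ?_⟩
  · obtain ⟨y, hy, hyy⟩ := hKil (ld h) (hld h hh)
    have h1 : zpol K d f * (↑U⁻¹ : LaurentSeries K) * ld h = y := by
      rw [mul_right_comm, hyy, ← hU, Units.mul_inv_cancel_right]
    rw [h1]
    exact hy
  · rw [← hU, Units.inv_mul_cancel_right]
  · obtain ⟨a, ha⟩ := exists_poly_diff hd hz he hG hu' hdet hf hes4 hx
    refine ⟨a, (x - zpol K d a) * (↑U⁻¹ : LaurentSeries K), fun h hh => ?_, ?_⟩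
    · obtain ⟨q, hq⟩ := perp_exp hd hdK hR hz he hes (hld h hh)
      have h1 : (x - zpol K d a) * (↑U⁻¹ : LaurentSeries K) * ld h =
          ∑ j, zpol K d (q j) * (es j * (x - zpol K d a)) := by
        have h2 : (x - zpol K d a) * (↑U⁻¹ : LaurentSeries K) * ld h =
            (∑ j, zpol K d (q j) * es j) * (x - zpol K d a) *
              ((U : LaurentSeries K) * (↑U⁻¹ : LaurentSeries K)) := by
          rw [hq, ← hU]
          ring
        rw [h2, Units.mul_inv, mul_one, Finset.sum_mul]
        exact Finset.sum_congr rfl fun j _ => mul_assoc _ _ _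
      rw [h1]
      exact sum_mem fun j _ => mul_mem (zpol_mem hz _) (ha j)
    · rw [← hU, Units.inv_mul_cancel_right]
      ring
  · obtain ⟨θ, hθ, hθa⟩ := ha
    have h1 : ∀ j, zpol K d a * es j ∈ R := by
      intro j
      have h2 := hDual (fun _ => θ) (mem_TT_uno.2 hθ) (fun _ => es j * ld (zz K d))
        (KIL.perp_unit.2 (es_perp hd he hes j))
      have h3 : θ * (es j * ld (zz K d)) = zpol K d a * es j := by
        rw [hθa]
        ring
      rw [← h3]
      exact h2
    have h2 : ∀ j i, f ∣ a * G.adjugate j i := by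
      intro j i
      obtain ⟨c, hc, -⟩ := he.uni _ (h1 j)
      have h3 : zpol K d G.det * (zpol K d a * es j) ∈ R := mul_mem (zpol_mem hz _) (h1 j)
      obtain ⟨c', -, huniq⟩ := he.uni _ h3
      have h4 : (fun i => a * G.adjugate j i) = c' := by
        refine huniq _ ?_
        show zpol K d G.det * (zpol K d a * es j) = ∑ i, zpol K d (a * G.adjugate j i) * e i
        rw [mul_left_comm, hes4, Finset.mul_sum]
        refine Finset.sum_congr rfl fun i _ => ?_
        rw [map_mul, mul_assoc]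
      have h5 : (fun i => G.det * c i) = c' := by
        refine huniq _ ?_
        show zpol K d G.det * (zpol K d a * es j) = ∑ i, zpol K d (G.det * c i) * e i
        rw [hc, Finset.mul_sum]
        refine Finset.sum_congr rfl fun i _ => ?_
        rw [map_mul, mul_assoc]
      have h6 : a * G.adjugate j i = G.det * c i := congrFun (h4.trans h5.symm) i
      refine ⟨u * c i, ?_⟩
      rw [h6, hdet]
      ring
    refine dvd_of_roots hf fun β hβ => ?_
    obtain ⟨j, i, hji⟩ := adj_ne hd hu' hdet hf hβ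
    obtain ⟨q, hq⟩ := h2 j i
    have h3 := congrArg (eval β) hq
    rw [eval_mul, eval_mul, hβ, zero_mul] at h3
    exact (mul_eq_zero.1 h3).resolve_right hji

end Pool.Agent.MG.G0
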