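import Pool.Agent.MG.G0.StmtsZH

/-!
# Theorem Z: assembly
-/

open Polynomial

namespace Pool.Agent.MG.G0

namespace ZZZ

theorem kr_bc1 (hKBC : Stmt_KBC) {A B : Type} [CommRing A] [CommRing B] {g : ℕ}
    {R : Subalgebra A (LaurentSeries A)} (h : Kr g R) (φ : A →+* B) : Kr g (bc1 φ R) := by
  have h1 := (hKBC.2.2.2 (P := uno R) h φ).1
  rw [bc_uno] at h1
  exact h1

theorem zz_bc1 {A B : Type} [CommRing A] [CommRing B] {d : ℕ}
    {R : Subalgebra A (LaurentSeries A)} (h : zz A d ∈ R) (φ : A →+* B) : zz B d ∈ bc1 φ R := by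
  rw [← lmap_zz φ d]
  exact Algebra.subset_adjoin ⟨zz A d, h, rfl⟩

theorem map_sc_one {A : Type} [CommRing A] (R : Subalgebra A (LaurentSeries A)) :
    R.map (sc (1 : Aˣ)) = R := by
  ext f
  rw [Subalgebra.mem_map]
  constructor
  · rintro ⟨x, hx, rfl⟩
    rwa [sc_one]
  · intro hf
    exact ⟨f, hf, sc_one f⟩

theorem mprod {A B : Type} [CommRing A] [CommRing B] (φ : A →+* B) {b : ℕ} (r : Fin b → A) :
    (∏ l, (X - C (r l))).map φ = ∏ l, (X - C (φ (r l))) := by
  rw [Polynomial.map_prod]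
  refine Finset.prod_congr rfl fun l _ => ?_
  rw [Polynomial.map_sub, Polynomial.map_X, Polynomial.map_C]

/-- The residue map. -/
noncomputable def rs {k O : Type} [Field k] [CommRing O] [Algebra k O]
    (j : O →ₐ[k] PowerSeries k) : O →ₐ[k] k where
  toRingHom := (PowerSeries.constantCoeff (R := k)).comp (j : O →+* PowerSeries k)
  commutes' a := by
    change PowerSeries.constantCoeff (j (algebraMap k O a)) = a
    rw [AlgHom.commutes]
    change PowerSeries.constantCoeff (PowerSeries.C (R := k) a) = a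
    exact PowerSeries.constantCoeff_C a

theorem rs_apply {k O : Type} [Field k] [CommRing O] [Algebra k O]
    (j : O →ₐ[k] PowerSeries k) (x : O) : rs j x = PowerSeries.constantCoeff (j x) := rfl

end ZZZ

open ZZZ in
theorem t_ZZZ (hKBC : Stmt_KBC) (hZDB : Stmt_ZDB) (hZPC : Stmt_ZPC) (hZFM : Stmt_ZFM)
    (hZOR : Stmt_ZOR) (hZOI : Stmt_ZOI) (hZOD : Stmt_ZOD) (hZPL : Stmt_ZPL) (hZOB : Stmt_ZOB)
    (hZPM : Stmt_ZPM) (hZPB : Stmt_ZPB) (hZFD : Stmt_ZFD) (hZFV : Stmt_ZFV) : Stmt_ZZZ := by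
  intro k₁ k _ _ _ _ p hp hchar g d b R₁ β α hg hd hfac hb hkr hz hβ hdisc hSm hDu hSs hα
  have hd0 : 0 < d := by omega
  have hdk : (d : k) ≠ 0 := by
    intro h
    apply hfac
    obtain ⟨e, he⟩ := Nat.dvd_factorial hd0 le_rfl
    rw [he, Nat.cast_mul, h, zero_mul]
  have h2k : ((2 * d : ℕ) : k) ≠ 0 := by
    rw [Nat.cast_mul]
    refine mul_ne_zero ?_ hdk
    intro h
    apply hfac
    obtain ⟨e, he⟩ := Nat.dvd_factorial (by omega : 0 < 2) hd
    rw [he, Nat.cast_mul, h, zero_mul]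
  have hkrb : Kr g (bc1 (algebraMap k₁ k) R₁) := kr_bc1 hKBC hkr _
  have hzb : zz k d ∈ bc1 (algebraMap k₁ k) R₁ := zz_bc1 hz _
  have hβ' : Function.Injective fun l => algebraMap k₁ k (β l) := fun l m h =>
    hβ ((algebraMap k₁ k).injective h)
  have hdb : Disc d (bc1 (algebraMap k₁ k) R₁) (∏ l, (X - C (algebraMap k₁ k (β l)))) := by
    have h1 := (hZDB k₁ k (algebraMap k₁ k) g d R₁ hd0 hkr hz).2.2 _ hdisc
    rwa [mprod] at h1
  obtain ⟨Y⟩ := hZFM (fun l => algebraMap k₁ k (β l)) α hd0 h2k hkrb hzb hβ' hdb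
  -- ordinarity
  obtain ⟨a, ha, hfst⟩ := Y.first
  have hOr := hZOR p hp hchar β α hd0 hdk hkr hz hβ hdisc hSm hDu hSs hα a ha
  have hOI := hZOI p hp hchar a hd0 hdk hkrb Y.krI Y.redI hfst hOr
  rw [← Y.bcI] at hOI
  have hcL : CharP Y.L p := charP_of_injective_algebraMap (algebraMap k Y.L).injective p
  have hOrd : Ord p Y.R := hZOD _ p hp hcL Y.kr hOI
  -- the parameter
  have htr : Transcendental k (algebraMap Y.F Y.L Y.t) :=
    (transcendental_algebraMap_iff (algebraMap Y.F Y.L).injective).2 Y.tr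
  have hEn := hZPL (bc1 (algebraMap k₁ k) R₁) β α hg hd hfac hb hβ hα Y
  -- the base point
  obtain ⟨O, _, _, _, _, _, _, _, j, x, hx1, hx2, hx3, hx4⟩ := hZOB Y.ψ _ Y.ψt
  have hrx : PowerSeries.constantCoeff (j x) = 0 := by
    rw [hx4, IsLocalRing.mem_maximalIdeal]
    exact hx2.not_isUnit
  have hr : ∀ l, algebraMap O Y.L (algebraMap k O (algebraMap k₁ k (β l)) +
      x ^ d * algebraMap k O (α l)) = algebraMap k Y.L (algebraMap k₁ k (β l)) +
      algebraMap Y.F Y.L Y.t ^ d * algebraMap k Y.L (α l) := by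
    intro l
    rw [map_add, map_mul, map_pow, hx1, ← IsScalarTower.algebraMap_apply k O Y.L,
      ← IsScalarTower.algebraMap_apply k O Y.L]
  have hinj : Function.Injective fun l => algebraMap k O (algebraMap k₁ k (β l)) +
      x ^ d * algebraMap k O (α l) := by
    intro l m h
    refine (hZPC β α hd0 hβ hα).2.1 Y.L _ htr ?_
    change algebraMap k Y.L (algebraMap k₁ k (β l)) + algebraMap Y.F Y.L Y.t ^ d *
      algebraMap k Y.L (α l) = algebraMap k Y.L (algebraMap k₁ k (β m)) +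
      algebraMap Y.F Y.L Y.t ^ d * algebraMap k Y.L (α m)
    rw [← hr, ← hr]
    exact congrArg (algebraMap O Y.L) h
  obtain ⟨M, hM1, hM2, hM3, hM4, hM5, hM6, hM7⟩ := hZPM (g := g) (d := d) (L := Y.L)
    (R := Y.R.map (sc (1 : Y.Lˣ))) (rs j) x
    (fun l => algebraMap k O (algebraMap k₁ k (β l)) + x ^ d * algebraMap k O (α l))
    hd0 hfac hb (fun y => by rw [rs_apply]; exact hx4 y) hx2
    (by rw [map_sc_one]; exact Y.kr) (by rw [map_sc_one]; exact Y.z) hinj (by
      rw [map_sc_one]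
      simp only [hr]
      exact Y.disc)
  let v₀ : Plc k Y.L g d Y.R := { O := O, c := 1, M := M }
  have hPb : v₀.M.Pb = bc1 (algebraMap k₁ k) R₁ := by
    change bc1 (M.rs : O →+* k) M.P = _
    rw [hM1, hM3]
    have hkc : Kr g (cut (algebraMap O Y.L) (Y.R.map (sc (1 : Y.Lˣ)))) := by
      rw [← hM3]
      exact M.kr
    rw [map_sc_one] at hkc ⊢
    have h1 := hZPB (g := g) (Y.ψ : Y.L →+* LaurentSeries k) (j : O →+* PowerSeries k) Y.R Y.RI
      Y.krI hkc Y.bcI hx3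
    rw [Y.redI] at h1
    exact h1
  have hT : v₀.Tst := by
    left
    left
    change (M.f.map (M.rs : O →+* k)).Separable
    rw [hM4, hM1, mprod, separable_prod_X_sub_C_iff]
    intro l m h
    apply hβ'
    have h2 : ∀ l, (rs j : O →+* k) (algebraMap k O (algebraMap k₁ k (β l)) +
        x ^ d * algebraMap k O (α l)) = algebraMap k₁ k (β l) := by
      intro l
      rw [map_add, map_mul, map_pow]
      have h3 : (rs j : O →+* k) x = 0 := hrx
      rw [h3, zero_pow hd0.ne', zero_mul, add_zero]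
      exact (rs j).commutes _
    have h4 := h
    simp only [h2] at h4
    exact h4
  have hcap : ∀ y : v₀.O, (∀ n : ℕ, v₀.M.π ^ n ∣ y) → y = 0 := by
    intro y hy
    change ∀ n : ℕ, M.π ^ n ∣ y at hy
    rw [hM2] at hy
    by_contra hne
    obtain ⟨n, u, hu⟩ := IsDiscreteValuationRing.associated_pow_irreducible hne hx2
    obtain ⟨w, hw⟩ := hy (n + 1)
    apply hx2.not_isUnit
    have hxn : x ^ n ≠ 0 := pow_ne_zero _ hx2.ne_zero
    have h5 : x ^ n * (x * w * u) = x ^ n * 1 := by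
      calc x ^ n * (x * w * u) = (x ^ (n + 1) * w) * u := by ring
        _ = y * u := by rw [← hw]
        _ = x ^ n * 1 := by rw [mul_one]; exact hu
    exact IsUnit.of_mul_eq_one (w * u) (by
      rw [← mul_assoc]
      exact mul_left_cancel₀ hxn h5)
  refine ⟨Y.L, Y.fL, Y.kL, algebraMap Y.F Y.L Y.t, Y.R, htr, Y.kr, Y.z, Y.disc,
    ⟨v₀, hT, rfl, hPb⟩, ?_, ?_⟩
  · exact (hZFD Y.t Y.tr Y.gen Y.fin Y.sep Plc.Tst {1, algebraMap Y.F Y.L Y.t}
      (Set.toFinite _) hg Y.kr hEn).2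
  · intro r hr1 S hS
    exact hZFV Y.t Y.tr Y.gen Y.fin Y.sep p hp hchar Plc.Tst {1, algebraMap Y.F Y.L Y.t}
      (Set.toFinite _) hg Y.kr hEn hOrd v₀ hT (by rw [hPb]; exact hSs) hcap r hr1 S hS

end Pool.Agent.MG.G0
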