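import Pool.Agent.MG.G0.StmtsW
import Pool.Agent.MG.G0.StmtsG
import Pool.Agent.MG.G0.KRK
import Pool.Agent.MG.G0.ZZZ

/-!
# UZU: Theorem Z in characteristic zero (PAPER_V.md)
-/

open Polynomial

namespace Pool.Agent.MG.G0

namespace UZU

/-- Theorem Z over `k`, in characteristic `p`. -/
theorem level (hGRA : Stmt_GRA) (hGRF : Stmt_GRF) (hZZZ : Stmt_ZZZ) (hUAI : Stmt_UAI) {g : ℕ}
    (hg : 2 ≤ g) (p : ℕ) (hp : p.Prime) (hpd : 6 * g + 9 < p) (hpm : p % (3 * g) = 3 * g - 1)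
    (k : Type) [Field k] [CharP k p] [IsAlgClosed k] (v : Fin (8 * g + 8 + 1) → k)
    (hv : @AlgebraicIndependent (Fin (8 * g + 8 + 1)) (ZMod p) k v _ _ (ZMod.algebra _ _)) :
    ∃ (β : Fin (8 * g + 8) → k) (P : Subalgebra k (LaurentSeries k)) (L : Type) (_ : Field L)
      (_ : Algebra k L) (t : L) (R : Subalgebra L (LaurentSeries L)), RG g (v 0) P ∧
      Transcendental k t ∧ Kr g R ∧ zz L (6 * g + 9) ∈ R ∧
      Disc (6 * g + 9) R (ft (6 * g + 9) β (fun l => v l.succ) t) ∧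
      (∃ w : Plc k L g (6 * g + 9) R, w.Tst ∧ w.c = 1 ∧ w.M.Pb = P) ∧
      (∀ s : L, (∀ w : Plc k L g (6 * g + 9) R, w.Tst → ∃ x : w.O, algebraMap w.O L x = s) →
        ∃ a : k, algebraMap k L a = s) ∧
      ∀ r : ℕ, 1 ≤ r → ∀ S : MultilinearMap L (fun _ : Fin r => EE1 R) L,
        (∀ w : Plc k L g (6 * g + 9) R, w.Tst → w.Int S) → S = 0 := by
  have : Fact p.Prime := ⟨hp⟩
  let _ : Algebra (ZMod p) k := ZMod.algebra k p
  obtain ⟨k₁, f1, ac1, aF, ak, tow, ζ, hζ, hζt, hα⟩ := hUAI.2.2 v hv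
  have hc1 : CharP k₁ p := RingHom.charP (algebraMap k₁ k) (algebraMap k₁ k).injective p
  have hnd : ¬ p ∣ (6 * g + 9).factorial := by
    rw [hp.dvd_factorial]
    omega
  have hu1 : IsUnit (((6 * g + 9).factorial : ℕ) : k₁) := by
    rw [isUnit_iff_ne_zero, Ne, CharP.cast_eq_zero_iff k₁ p]
    exact hnd
  have hu : (((6 * g + 9).factorial : ℕ) : k) ≠ 0 := by
    rw [Ne, CharP.cast_eq_zero_iff k p]
    exact hnd
  obtain ⟨G1, G2, G3⟩ := hGRA g hg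
  obtain ⟨R₁, hR₁⟩ := G1 ζ hu1
  obtain ⟨-, hK, hz, -⟩ := G2 ζ R₁ hR₁
  obtain ⟨-, hF⟩ := hGRF g hg ζ R₁ hR₁
  obtain ⟨β, hβ, hD, -⟩ := hF (F := ZMod p) hζt
  have hR : RG g (v 0) (bc1 (algebraMap k₁ k) R₁) := by
    rw [← hζ]
    exact G3 ζ R₁ hR₁ (algebraMap k₁ k)
  obtain ⟨-, -, -, -, hS, -, -, hSs⟩ := G2 (v 0) _ hR
  obtain ⟨hDu, -⟩ := hGRF g hg (v 0) _ hR
  obtain ⟨L, fL, aL, t, R, ht, hKR, hzR, hDR, hP, hs, hr⟩ := hZZZ (k₁ := k₁) (k := k) p hp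
    inferInstance β (fun l => v l.succ) (by omega) (by omega) hu (by omega) hK hz hβ hD hS hDu
    (hSs p hp inferInstance hpm) hα
  exact ⟨fun l => algebraMap k₁ k (β l), bc1 (algebraMap k₁ k) R₁, L, fL, aL, t, R, hR, ht, hKR,
    hzR, hDR, hP, hs, hr⟩

/-- The monic discriminant is unique. -/
theorem disc_unique {κ : Type} [Field κ] {d : ℕ} (hd : 0 < d)
    {R : Subalgebra κ (LaurentSeries κ)} {f f' : κ[X]} (hf : f.Monic) (hf' : f'.Monic)
    (h : Disc d R f) (h' : Disc d R f') : f = f' := by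
  obtain ⟨e, G, hb, hG, u, hu, hdet⟩ := h
  obtain ⟨e', G', hb', hG', u', hu', hdet'⟩ := h'
  obtain ⟨w, hw, hww⟩ := KRK.det_change hd hb hG hb' hG'
  rw [hdet, hdet'] at hww
  apply eq_of_monic_of_associated hf hf'
  have h1 : Associated f (u' * f') := by
    rw [hww, ← mul_assoc]
    exact (associated_unit_mul_left f (w * u) (hw.mul hu)).symm
  exact h1.trans (associated_unit_mul_left f' u' hu')

theorem disc_cast {A : Type} [CommRing A] {d : ℕ} {R R' : Subalgebra A (LaurentSeries A)}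
    (h : R' = R) {f : A[X]} (hf : Disc d R' f) : Disc d R f := by
  subst h
  exact hf

theorem ft_monic {k R : Type} [Field k] [CommRing R] [Nontrivial R] [Algebra k R] {b : ℕ}
    (d : ℕ) (β α : Fin b → k) (t : R) : (ft d β α t).Monic :=
  monic_prod_of_monic _ _ fun _ _ => monic_X_sub_C _

/-- The product `∏ (X - r_l)` over an ultraproduct. -/
theorem prod_coeff (𝒰 : Ultrafilter ℕ) {L : ℕ → Type} [∀ n, CommRing (L n)] {b : ℕ}
    (r : ∀ n, Fin b → L n) (m : ℕ) :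
    (∏ l, (X - C (umk 𝒰 fun n => r n l)) : (Ul 𝒰 L)[X]).coeff m =
      umk 𝒰 fun n => (∏ l, (X - C (r n l)) : (L n)[X]).coeff m := by
  let F : (∀ n, L n)[X] := ∏ l, (X - C fun n => r n l)
  have h1 : (∏ l, (X - C (umk 𝒰 fun n => r n l)) : (Ul 𝒰 L)[X]) = F.map (umk 𝒰) := by
    rw [Polynomial.map_prod]
    refine Finset.prod_congr rfl fun l _ => ?_
    rw [Polynomial.map_sub, Polynomial.map_X, Polynomial.map_C]
  rw [h1, coeff_map]
  congr 1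
  funext n
  have h2 : (∏ l, (X - C (r n l)) : (L n)[X]) = F.map (Pi.evalRingHom L n) := by
    rw [Polynomial.map_prod]
    refine Finset.prod_congr rfl fun l _ => ?_
    rw [Polynomial.map_sub, Polynomial.map_X, Polynomial.map_C]
    rfl
  rw [h2, coeff_map]
  rfl

end UZU

open UZU in
theorem t_UZU (hKBC : Stmt_KBC) (hULR : Stmt_ULR) (hUEM : Stmt_UEM) (hUKR : Stmt_UKR)
    (hTRA : Stmt_TRA) (hTRZ : Stmt_TRZ) (hUMD : Stmt_UMD) (hGRA : Stmt_GRA) (hGRF : Stmt_GRF)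
    (hZZZ : Stmt_ZZZ) (hURG : Stmt_URG) (hUPL : Stmt_UPL) (hUAI : Stmt_UAI) (hUPR : Stmt_UPR) :
    Stmt_UZU := by
  intro g hg
  choose p hpN hpp hpm using fun n : ℕ => hUPR (3 * g) (n + (6 * g + 9)) (by omega)
  let 𝒰 : Ultrafilter ℕ := Filter.hyperfilter ℕ
  obtain ⟨k, fk, cp, ac, v, i, hv, hvi⟩ := hUEM 𝒰 (8 * g + 8 + 1) p hpp (by
    intro N
    have h1 : ∀ᶠ n : ℕ in Filter.cofinite, N < p n := by
      rw [Nat.cofinite_eq_atTop]
      filter_upwards [Filter.eventually_ge_atTop N] with n hn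
      have := hpN n
      omega
    exact h1.filter_mono Filter.hyperfilter_le_cofinite)
  choose β P L fL aL t R h1 h2 h3 h4 h5 h6 h7 h8 using fun n =>
    level hGRA hGRF hZZZ hUAI hg (p n) (hpp n) (by have := hpN n; omega) (hpm n) (k n) (v n) (hv n)
  choose v0 w1 w2 w3 using h6
  have hg1 : 1 ≤ g := by omega
  have hd1 : 1 ≤ 6 * g + 9 := by omega
  let kL : Ul 𝒰 k →+* Ul 𝒰 L := umap 𝒰 fun n => algebraMap (k n) (L n)
  let _ : Algebra ℂ (Ul 𝒰 k) := i.toAlgebra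
  let _ : Algebra (Ul 𝒰 k) (Ul 𝒰 L) := kL.toAlgebra
  let _ : Algebra ℂ (Ul 𝒰 L) := (kL.comp i).toAlgebra
  have tow : IsScalarTower ℂ (Ul 𝒰 k) (Ul 𝒰 L) := IsScalarTower.of_algebraMap_eq fun _ => rfl
  have hac : IsAlgClosed (Ul 𝒰 k) := (hULR 𝒰).2.2.2.1 k ac
  have hnd : ∀ n, (((6 * g + 9).factorial : ℕ) : k n) ≠ 0 := by
    intro n
    have := cp n
    rw [Ne, CharP.cast_eq_zero_iff (k n) (p n), (hpp n).dvd_factorial]
    have := hpN n
    omega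
  -- the branch points
  let ρ : ∀ n, Fin (8 * g + 8) → L n := fun n l =>
    algebraMap (k n) (L n) (β n l) + t n ^ (6 * g + 9) * algebraMap (k n) (L n) (v n l.succ)
  let r : Fin (8 * g + 8) → Ul 𝒰 L := fun l => umk 𝒰 fun n => ρ n l
  have hKR := hUKR 𝒰 R hg1 h3
  refine ⟨Ul 𝒰 k, Ul 𝒰 L, inferInstance, hac, inferInstance, inferInstance, inferInstance,
    inferInstance, tow, UP 𝒰 R, r, hKR.1, hKR.2.2.2.2.2 _ h4, ?_, ?_, ?_, ?_, ?_⟩
  · let _ : Algebra (Ul 𝒰 k) (Ul 𝒰 fun n => (v0 n).O) :=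
      (umap 𝒰 fun n => algebraMap (k n) (v0 n).O).toAlgebra
    let _ : Algebra (Ul 𝒰 fun n => (v0 n).O) (Ul 𝒰 L) :=
      (umap 𝒰 fun n => algebraMap (v0 n).O (L n)).toAlgebra
    obtain ⟨hdom, M', -, -, -, hM'f, -, -⟩ := hUMD 𝒰 (fun n => (v0 n).M) hg1 hd1
    have hRR : ∀ n, (R n).map (sc (v0 n).c) = R n := by
      intro n
      rw [w2 n, ZZZ.map_sc_one]
    have hf : ∀ n, (v0 n).M.f.map (algebraMap (v0 n).O (L n)) =
        ft (6 * g + 9) (β n) (fun l => v n l.succ) (t n) := by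
      intro n
      exact disc_unique (by omega) ((v0 n).M.monic.map _) (ft_monic _ _ _ _)
        (disc_cast (hRR n) (v0 n).M.disc) (h5 n)
    have hff : M'.f.map (algebraMap (Ul 𝒰 fun n => (v0 n).O) (Ul 𝒰 L)) =
        ∏ l, (X - C (r l)) := by
      ext m
      rw [coeff_map, hM'f.2 m]
      refine Eq.trans ?_ (prod_coeff 𝒰 ρ m).symm
      change umk 𝒰 (fun n => algebraMap (v0 n).O (L n) ((v0 n).M.f.coeff m)) = _
      congr 1
      funext n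
      rw [← coeff_map, hf n]
      rfl
    have h9 := M'.disc
    rw [hff] at h9
    exact disc_cast (congrArg (UP 𝒰) (funext hRR)) h9
  · have h9 := hUAI.1 (F := ℂ) (k := Ul 𝒰 k) (L := Ul 𝒰 L) (d := 6 * g + 9)
      (fun l => umk 𝒰 fun n => β n l) (fun l : Fin (8 * g + 8) => umk 𝒰 fun n => v n l.succ)
      (umk 𝒰 t) (by omega) (hvi.comp Fin.succ (Fin.succ_injective _)) (hUAI.2.1 𝒰 t h2)
    have h10 : r = fun l => algebraMap (Ul 𝒰 k) (Ul 𝒰 L) (umk 𝒰 fun n => β n l) +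
        umk 𝒰 t ^ (6 * g + 9) * algebraMap (Ul 𝒰 k) (Ul 𝒰 L) (umk 𝒰 fun n => v n l.succ) := by
      funext l
      change umk 𝒰 (fun n => ρ n l) = umk 𝒰 (fun n => algebraMap (k n) (L n) (β n l)) +
        umk 𝒰 t ^ (6 * g + 9) * umk 𝒰 (fun n => algebraMap (k n) (L n) (v n l.succ))
      rw [← map_pow, ← map_mul, ← map_add]
      rfl
    rw [h10]
    exact h9
  · obtain ⟨w, hw1, hw2, hw3, -, -⟩ := hUPL 𝒰 v0 hg1 hd1 h3 w1
    have h9 : RG g (umk 𝒰 fun n => v n 0) w.M.Pb := by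
      rw [hw3, funext w3]
      exact hURG 𝒰 (fun n => v n 0) P hg hnd h1
    obtain ⟨β', hβ', hD', -⟩ := (hGRF g hg _ _ h9).2 (F := ℂ) (hvi.transcendental 0)
    exact ⟨w, _, hw1, hw2 w2, h9, β', hβ', hD'⟩
  · intro s hs
    exact hTRZ 𝒰 R (fun n w => w.Tst) (fun n => ⟨v0 n, w1 n⟩) h7 s fun v hv => by
      obtain ⟨w, hw1, -, -, hw4, -⟩ := hUPL 𝒰 v hg1 hd1 h3 hv
      exact hw4 s (hs w hw1)
  · intro m hm S hS
    exact hTRA 𝒰 R (fun n w => w.Tst) hg1 h3 (fun n => ⟨v0 n, w1 n⟩) (fun n => h8 n m hm) S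
      fun v hv => by
        obtain ⟨w, hw1, -, -, -, hw5⟩ := hUPL 𝒰 v hg1 hd1 h3 hv
        exact hw5 m S (hS w hw1)

end Pool.Agent.MG.G0
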