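import Pool.Agent.MG.G0.StmtsZH

/-!
# The Cartier operator: additivity, semilinearity, residues (ZCA)
-/

namespace Pool.Agent.MG.G0

namespace ZCA

variable {A : Type} [CommRing A]

theorem intCast_pow (p : ℕ) (hp : p.Prime) (hA : CharP A p) (n : ℤ) : ((n : ℤ) : A) ^ p = n := by
  have := Fact.mk hp
  have := hA
  have h := map_intCast (frobenius A p) n
  rwa [frobenius_def] at h

theorem pow_low (hZCE : Stmt_ZCE) (p : ℕ) (hp : p.Prime) (hA : CharP A p) (f : LaurentSeries A)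
    (N : ℕ) (hf : ∀ m < -(N : ℤ), f.coeff m = 0) :
    ∀ m < -((p : ℤ) * N), (f ^ p).coeff m = 0 := by
  intro m hm
  have hp0 : (0 : ℤ) < p := by exact_mod_cast hp.pos
  by_cases hd : (p : ℤ) ∣ m
  · obtain ⟨j, rfl⟩ := hd
    rw [(hZCE.2 p hp hA f j).1, hf j ?_, zero_pow hp.ne_zero]
    by_contra hc
    have h1 : (p : ℤ) * (-(N : ℤ)) ≤ p * j := mul_le_mul_of_nonneg_left (by omega) hp0.le
    linarith
  · exact (hZCE.2 p hp hA f m).2 hd

theorem car_ld (hZCE : Stmt_ZCE) (p : ℕ) (hp : p.Prime) (hA : CharP A p) (f : LaurentSeries A) :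
    Car p (f ^ (p - 1) * ld f) (ld f) := by
  intro m
  have h1 := hZCE.1 f p (m + 1) hp.pos
  have e1 : (p : ℤ) * (m + 1) - 1 = p * m + (p - 1) := by ring
  rw [e1, (hZCE.2 p hp hA f (m + 1)).1] at h1
  rw [h1, ld_coeff, mul_pow]
  congr 1
  exact (intCast_pow (A := A) p hp hA (m + 1)).symm

theorem car_mul (hZCE : Stmt_ZCE) (p : ℕ) (hp : p.Prime) (hA : CharP A p)
    (η' η f : LaurentSeries A) (h : Car p η' η) : Car p (f ^ p * η') (f * η) := by
  intro m
  have := Fact.mk hp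
  have := hA
  have hp0 : (0 : ℤ) < p := by exact_mod_cast hp.pos
  obtain ⟨a, ha⟩ := exists_low f
  obtain ⟨b, hb⟩ := exists_low η
  obtain ⟨c, hc⟩ := exists_low η'
  obtain ⟨N, hN⟩ : ∃ N : ℕ, N = max a (max b c) := ⟨_, rfl⟩
  have haN : a ≤ N := hN ▸ le_max_left _ _
  have hbN : b ≤ N := hN ▸ (le_max_left _ _).trans (le_max_right _ _)
  have hcN : c ≤ N := hN ▸ (le_max_right _ _).trans (le_max_right _ _)
  have ha' : ∀ m < -(N : ℤ), f.coeff m = 0 := fun m hm => ha m (by omega)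
  have hb' : ∀ m < -(N : ℤ), η.coeff m = 0 := fun m hm => hb m (by omega)
  have hpN : (N : ℤ) ≤ (p : ℤ) * N := by
    have h1 : (1 : ℤ) ≤ p := by omega
    nlinarith [Int.natCast_nonneg N]
  have hc' : ∀ m < -((p : ℤ) * N), η'.coeff m = 0 := fun m hm => hc m (by omega)
  have hf' := pow_low hZCE p hp hA f N ha'
  rw [coeff_mul_Icc hf' hc', coeff_mul_Icc ha' hb', sum_pow_char]
  symm
  refine Finset.sum_of_injOn (fun j : ℤ => (p : ℤ) * j) ?_ ?_ ?_ ?_
  · intro x _ y _ hxy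
    exact mul_left_cancel₀ hp0.ne' hxy
  · intro j hj
    simp only [Finset.coe_Icc, Set.mem_Icc] at hj ⊢
    constructor
    · nlinarith [hj.1]
    · nlinarith [hj.2]
  · intro i hi hni
    rw [(hZCE.2 p hp hA f i).2, zero_mul]
    rintro ⟨j, rfl⟩
    apply hni
    refine ⟨j, ?_, rfl⟩
    simp only [Finset.coe_Icc, Set.mem_Icc]
    rw [Finset.mem_Icc] at hi
    constructor
    · by_contra hcj
      have : (p : ℤ) * j ≤ p * (-(N : ℤ) - 1) := mul_le_mul_of_nonneg_left (by omega) hp0.le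
      nlinarith [hi.1]
    · by_contra hcj
      have : (p : ℤ) * (m + N + 1) ≤ p * j := mul_le_mul_of_nonneg_left (by omega) hp0.le
      nlinarith [hi.2]
  · intro j _
    have e : (p : ℤ) * m + (p - 1) - p * j = p * (m - j) + (p - 1) := by ring
    rw [mul_pow, (hZCE.2 p hp hA f j).1, e, h (m - j)]

end ZCA

theorem t_ZCA (hZCE : Stmt_ZCE) : Stmt_ZCA := by
  intro A _ p hp hA
  refine ⟨fun f => ZCA.car_ld hZCE p hp hA f, fun η' η f h => ZCA.car_mul hZCE p hp hA η' η f h,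
    ?_, ?_⟩
  · intro η' η ξ' ξ h1 h2 m
    have := Fact.mk hp
    have := hA
    rw [HahnSeries.coeff_add, HahnSeries.coeff_add, h1 m, h2 m, add_pow_char]
  · intro η' η f h
    have h1 := ZCA.car_mul hZCE p hp hA η' η f h (-1)
    have e : (p : ℤ) * (-1) + (p - 1) = -1 := by ring
    rwa [e] at h1

end Pool.Agent.MG.G0
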