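import Pool.Agent.MG.G0.StmtsZH

/-!
# ZCE: coefficients of `fⁿ⁻¹ df` and of `fᵖ`
-/

open Polynomial

namespace Pool.Agent.MG.G0

namespace ZCE_

section

variable {A B : Type} [CommRing A] [CommRing B]

theorem ld_pow_succ (f : LaurentSeries A) (k : ℕ) :
    ld (f ^ (k + 1)) = ((k + 1 : ℕ) : A) • (f ^ k * ld f) := by
  induction k with
  | zero => simp
  | succ k ih =>
    rw [pow_succ f (k + 1), ld_mul, ih, smul_mul_assoc]
    have h : f ^ k * ld f * f = f ^ (k + 1) * ld f := by rw [pow_succ]; ring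
    rw [h]
    have h2 : ((k + 1 + 1 : ℕ) : A) = 1 + ((k + 1 : ℕ) : A) := by push_cast; ring
    rw [h2, add_smul, one_smul]

theorem part_one_tf (h0 : ∀ (n : ℕ) (a : A), 0 < n → (n : A) * a = 0 → a = 0)
    (f : LaurentSeries A) (n : ℕ) (m : ℤ) (hn : 0 < n) :
    (f ^ (n - 1) * ld f).coeff (n * m - 1) = (m : A) * (f ^ n).coeff (n * m) := by
  obtain ⟨k, rfl⟩ : ∃ k, n = k + 1 := ⟨n - 1, by omega⟩
  rw [Nat.add_sub_cancel]
  have h1 : (ld (f ^ (k + 1))).coeff (((k + 1 : ℕ) : ℤ) * m - 1) =
      (((k + 1 : ℕ) : A) • (f ^ k * ld f)).coeff (((k + 1 : ℕ) : ℤ) * m - 1) := by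
    rw [ld_pow_succ]
  rw [ld_coeff, HahnSeries.coeff_smul, sub_add_cancel, smul_eq_mul] at h1
  refine sub_eq_zero.1 (h0 (k + 1) _ hn ?_)
  rw [mul_sub, ← h1]
  push_cast
  ring

/-- A lift of a series to polynomials over the integers. -/
noncomputable def lift (f : LaurentSeries A) : LaurentSeries (MvPolynomial A ℤ) where
  coeff m := open Classical in if f.coeff m = 0 then 0 else MvPolynomial.X (f.coeff m)
  isPWO_support' := f.isPWO_support.mono fun m hm => by
    classical
    simp only [Function.mem_support, ne_eq] at hm ⊢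
    intro h
    exact hm (by rw [if_pos h])

theorem lmap_lift (f : LaurentSeries A) :
    lmap (MvPolynomial.eval₂Hom (Int.castRingHom A) id) (lift f) = f := by
  classical
  ext m
  rw [lmap_coeff]
  change (MvPolynomial.eval₂Hom (Int.castRingHom A) id)
    (if f.coeff m = 0 then 0 else MvPolynomial.X (f.coeff m)) = f.coeff m
  split_ifs with h
  · rw [map_zero, h]
  · rw [MvPolynomial.eval₂Hom_X', id]

theorem part_one (f : LaurentSeries A) (n : ℕ) (m : ℤ) (hn : 0 < n) :
    (f ^ (n - 1) * ld f).coeff (n * m - 1) = (m : A) * (f ^ n).coeff (n * m) := by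
  have h0 : ∀ (n : ℕ) (a : MvPolynomial A ℤ), 0 < n → (n : MvPolynomial A ℤ) * a = 0 → a = 0 := by
    intro n a hn h
    rcases mul_eq_zero.1 h with h | h
    · exact absurd (Nat.cast_eq_zero.1 h) (by omega)
    · exact h
  have h1 := part_one_tf h0 (lift f) n m hn
  have h2 := congrArg (MvPolynomial.eval₂Hom (Int.castRingHom A) id) h1
  rw [map_mul, ← lmap_coeff, ← lmap_coeff, map_mul, map_pow, map_pow, lmap_ld, lmap_lift,
    map_intCast] at h2
  exact h2

theorem pow_low {g : LaurentSeries A} {b : ℤ} (hg : ∀ m < b, g.coeff m = 0) (n : ℕ) :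
    ∀ m < n * b, (g ^ n).coeff m = 0 := by
  induction n with
  | zero =>
    intro m hm
    rw [pow_zero, HahnSeries.coeff_one, if_neg]
    rw [Nat.cast_zero, zero_mul] at hm
    omega
  | succ n ih =>
    intro m hm
    rw [pow_succ]
    refine mul_low ih hg m ?_
    push_cast at hm
    linarith

theorem sum_single_coeff (s : Finset ℤ) (u : ℤ → ℤ) (hu : Function.Injective u) (c : ℤ → A)
    (m : ℤ) :
    ((∑ i ∈ s, HahnSeries.single (u i) (c i) : LaurentSeries A).coeff (u m) =
      if m ∈ s then c m else 0) := by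
  rw [HahnSeries.coeff_sum]
  split_ifs with h
  · rw [Finset.sum_eq_single_of_mem m h, HahnSeries.coeff_single_same]
    intro i _ hi
    exact HahnSeries.coeff_single_of_ne fun h' => hi (hu h'.symm)
  · refine Finset.sum_eq_zero fun i hi => HahnSeries.coeff_single_of_ne fun h' => h ?_
    rw [hu h']
    exact hi

theorem part_two (p : ℕ) (hp : p.Prime) (hA : CharP A p) (f : LaurentSeries A) (N : ℤ) :
    (f ^ p).coeff N = if (p : ℤ) ∣ N then (f.coeff (N / p)) ^ p else 0 := by
  classical
  have : Fact p.Prime := ⟨hp⟩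
  have : CharP (LaurentSeries A) p :=
    charP_of_injective_ringHom (HahnSeries.C_injective (Γ := ℤ) (R := A)) p
  obtain ⟨a, ha⟩ := exists_low f
  have hp0 : (0 : ℤ) < p := by exact_mod_cast hp.pos
  set K : ℤ := |N| + 1 with hK
  have hKN : N < p * K := by
    have h1 : N ≤ |N| := le_abs_self N
    have h2 : (0 : ℤ) ≤ |N| := abs_nonneg N
    have h3 : (1 : ℤ) * K ≤ p * K := mul_le_mul_of_nonneg_right (by omega) (by omega)
    omega
  set S : LaurentSeries A := ∑ i ∈ Finset.Ico (-(a : ℤ)) K, HahnSeries.single i (f.coeff i)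
    with hS
  have hScoeff : ∀ m, S.coeff m = if -(a : ℤ) ≤ m ∧ m < K then f.coeff m else 0 := by
    intro m
    have h := sum_single_coeff (Finset.Ico (-(a : ℤ)) K) (fun i => i) (fun _ _ h => h)
      (fun i => f.coeff i) m
    simp only [Finset.mem_Ico] at h
    exact h
  have hg : ∀ m < K, (f - S).coeff m = 0 := by
    intro m hm
    rw [HahnSeries.coeff_sub, hScoeff]
    split_ifs with h
    · exact sub_self _
    · rw [ha m (by omega), sub_zero]
  have hf : f ^ p = S ^ p + (f - S) ^ p := by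
    rw [← add_pow_char, add_sub_cancel]
  have hSp : S ^ p = ∑ i ∈ Finset.Ico (-(a : ℤ)) K,
      HahnSeries.single ((p : ℤ) * i) (f.coeff i ^ p) := by
    have h1 := map_sum (frobenius (LaurentSeries A) p)
      (fun i => HahnSeries.single i (f.coeff i)) (Finset.Ico (-(a : ℤ)) K)
    rw [frobenius_def] at h1
    rw [hS, h1]
    refine Finset.sum_congr rfl fun i _ => ?_
    rw [frobenius_def, HahnSeries.single_pow, nsmul_eq_mul]
  rw [hf, HahnSeries.coeff_add, pow_low hg p N hKN, add_zero, hSp]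
  split_ifs with h
  · obtain ⟨m, rfl⟩ := h
    rw [Int.mul_ediv_cancel_left _ hp0.ne']
    have h1 := sum_single_coeff (Finset.Ico (-(a : ℤ)) K) (fun i => (p : ℤ) * i)
      (fun _ _ h => mul_left_cancel₀ hp0.ne' h) (fun i => f.coeff i ^ p) m
    rw [h1]
    split_ifs with h2
    · rfl
    · rw [Finset.mem_Ico] at h2
      have h3 : m < K := by
        have h4 : m ≤ |(p : ℤ) * m| := by
          rw [abs_mul, Nat.abs_cast]
          have h5 : m ≤ |m| := le_abs_self m
          have h6 : (1 : ℤ) * |m| ≤ p * |m| :=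
            mul_le_mul_of_nonneg_right (by omega) (abs_nonneg m)
          omega
        omega
      rw [ha m (by omega), zero_pow hp.ne_zero]
  · rw [HahnSeries.coeff_sum]
    refine Finset.sum_eq_zero fun i _ => HahnSeries.coeff_single_of_ne fun h' => h ⟨i, h'⟩

end

end ZCE_

theorem t_ZCE : Stmt_ZCE := by
  refine ⟨fun f n m hn => ZCE_.part_one f n m hn, fun p hp hA f m => ⟨?_, fun h => ?_⟩⟩
  · rw [ZCE_.part_two p hp hA f, if_pos (Dvd.intro _ rfl), Int.mul_ediv_cancel_left]
    exact_mod_cast hp.ne_zero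
  · rw [ZCE_.part_two p hp hA f, if_neg h]

end Pool.Agent.MG.G0
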