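import Pool.Agent.MG.G0.StmtsZH

/-!
# ZCI: if `vᵖ = h + o` and `dh = 0` then `v` is in `R + K[[τ]]`
-/

open Polynomial

namespace Pool.Agent.MG.G0

namespace ZCI

variable {K : Type} [Field K]

/-- Every element of `Om` is a value of the Cartier operator on `Om`. -/
theorem exists_car (hZCA : Stmt_ZCA) {p : ℕ} (hp : p.Prime) (hc : CharP K p)
    (P : Subalgebra K (KK Unit K)) (η : KK Unit K) (hη : η ∈ Om P) :
    ∃ η' ∈ Om P, Car p (η' ()) (η ()) := by
  obtain ⟨z1, z2, z3, -⟩ := hZCA p hp hc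
  refine Submodule.span_induction ?_ ?_ ?_ ?_ hη
  · rintro _ ⟨q, hq, f, hf, rfl⟩
    refine ⟨(q ^ p * f ^ (p - 1)) * dd f, Submodule.subset_span
      ⟨q ^ p * f ^ (p - 1), mul_mem (pow_mem hq p) (pow_mem hf (p - 1)), f, hf, rfl⟩, ?_⟩
    have h1 := z2 (f () ^ (p - 1) * ld (f ())) (ld (f ())) (q ()) (z1 (f ()))
    have e1 : ((q ^ p * f ^ (p - 1)) * dd f) () = q () ^ p * (f () ^ (p - 1) * ld (f ())) :=
      mul_assoc _ _ _
    rw [e1]
    exact h1
  · refine ⟨0, zero_mem _, fun m => ?_⟩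
    rw [Pi.zero_apply, HahnSeries.coeff_zero, HahnSeries.coeff_zero, zero_pow hp.ne_zero]
  · rintro x y _ _ ⟨x', hx', hx⟩ ⟨y', hy', hy⟩
    exact ⟨x' + y', add_mem hx' hy', z3 _ _ _ _ hx hy⟩
  · rintro a x _ ⟨x', hx', hx⟩
    refine ⟨a ^ p • x', Submodule.smul_mem _ _ hx', fun m => ?_⟩
    rw [Pi.smul_apply, Pi.smul_apply, HahnSeries.coeff_smul, HahnSeries.coeff_smul, hx m,
      smul_eq_mul, smul_eq_mul, mul_pow]

/-- A series without poles with exponents divisible by `p` is a `p`-th power. -/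
theorem exists_root [IsAlgClosed K] (hZCE : Stmt_ZCE) {p : ℕ} (hp : p.Prime) (hc : CharP K p)
    (o : LaurentSeries K) (ho : o ∈ Po K 0) (hm : ∀ m : ℤ, ¬ (p : ℤ) ∣ m → o.coeff m = 0) :
    ∃ w ∈ Po K 0, w ^ p = o := by
  choose r hr using fun k : ℕ => IsAlgClosed.exists_pow_nat_eq (o.coeff (p * k)) hp.pos
  have hz := (hZCE.2 p hp hc)
  have hneg : ∀ m : ℤ, m < 0 → (psl K (PowerSeries.mk r)).coeff m = 0 := by
    intro m h
    rw [psl, HahnSeries.ofPowerSeries_apply, HahnSeries.embDomain_of_notMem_range]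
    rintro ⟨k, hk⟩
    have hk' : (k : ℤ) = m := hk
    omega
  have hpos : ∀ k : ℕ, (psl K (PowerSeries.mk r)).coeff k = r k := by
    intro k
    rw [psl]
    have := HahnSeries.ofPowerSeries_apply_coeff (Γ := ℤ) (PowerSeries.mk r) k
    rw [PowerSeries.coeff_mk] at this
    exact this
  refine ⟨psl K (PowerSeries.mk r), fun m h => hneg m (by omega), ?_⟩
  ext m
  by_cases hd : (p : ℤ) ∣ m
  · obtain ⟨n, rfl⟩ := hd
    rw [(hz _ n).1]
    rcases lt_or_ge n 0 with h | h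
    · rw [hneg n h, zero_pow hp.ne_zero, ho]
      have : (0 : ℤ) < p := by exact_mod_cast hp.pos
      have h2 := mul_neg_of_pos_of_neg this h
      omega
    · obtain ⟨k, rfl⟩ := Int.eq_ofNat_of_zero_le h
      rw [hpos, hr]
  · rw [(hz _ m).2 hd, hm m hd]

end ZCI

theorem t_ZCI (hKFO : Stmt_KFO) (hRES : Stmt_RES) (hSTO : Stmt_STO) (hZCE : Stmt_ZCE)
    (hZCA : Stmt_ZCA) : Stmt_ZCI := by
  intro K _ _ p hp hchar g R hR hsm hdual v h hh hvh hdh
  obtain ⟨hOP, -, -, -, hst⟩ := hSTO hR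
  have hPO : Perp (uno R) ≤ Om (uno R) := (hst hsm).2.2.1 hdual
  obtain ⟨⟨ω, hω⟩, hfo⟩ := hKFO hR
  have hE := (hfo ω hω).1
  -- `o = vᵖ - h` is a `p`-th power
  have hz := hZCE.2 p hp hchar
  obtain ⟨w, hw, hwo⟩ := ZCI.exists_root hZCE hp hchar (v ^ p - h) hvh (by
    intro m hm
    have h1 := congrArg (fun f : LaurentSeries K => f.coeff (m - 1)) hdh
    simp only [ld_coeff, HahnSeries.coeff_zero, sub_add_cancel] at h1
    have h2 : ((m : ℤ) : K) ≠ 0 := by
      intro h3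
      exact hm ((CharP.intCast_eq_zero_iff K p m).1 h3)
    rw [HahnSeries.coeff_sub, (hz v m).2 hm, (mul_eq_zero.1 h1).resolve_left h2, sub_zero])
  -- the residues of `v η`
  have key : ∀ η : KK Unit K, η ∈ EE (uno R) → (v * η ()).coeff (-1) = 0 := by
    intro η hη
    obtain ⟨η', hη', hcar⟩ := ZCI.exists_car hZCA hp hchar (uno R) η (hPO hη.1)
    obtain ⟨-, -, -, z4⟩ := hZCA p hp hchar
    have e1 := z4 _ _ v hcar
    have e2 := z4 _ _ w hcar
    have e3 : (w * η ()).coeff (-1) = 0 :=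
      mul_low (a := 0) (b := 0) (fun m hm => hw m (by omega)) (fun m hm => hη.2 () m (by omega))
        (-1) (by omega)
    have e4 : (h * η' ()).coeff (-1) = 0 := by
      have := hOP hη' (fun _ => h) hh
      rw [res_unit] at this
      rw [mul_comm]
      exact this
    rw [e3, zero_pow hp.ne_zero, hwo, sub_mul, HahnSeries.coeff_sub, e4, sub_zero, e1] at e2
    exact pow_eq_zero_iff hp.ne_zero |>.1 e2
  obtain ⟨q, hq, hq0⟩ := (hω.ker fun _ => v).1 fun j => by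
    rw [res_unit, mul_comm]
    exact key (ω j) (hE j)
  exact ⟨q (), hq, hq0 ()⟩

end Pool.Agent.MG.G0
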