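import Pool.Agent.MG.G0.StmtsZH

/-!
# ZFC: the Frobenius preserves integral forms and contracts at superspecial places
-/

open Polynomial

namespace Pool.Agent.MG.G0

namespace ZFC

variable {A B : Type} [CommRing A] [CommRing B]

/-- The product of two series without poles has no residue. -/
theorem coeff_Po0 {x y : LaurentSeries A} (hx : x ∈ Po A 0) (hy : y ∈ Po A 0) :
    (x * y).coeff (-1) = 0 :=
  mul_low (a := 0) (b := 0) (fun m hm => hx m (by omega)) (fun m hm => hy m (by omega)) (-1)
    (by omega)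

/-- The image of a regular differential is orthogonal to the base change. -/
theorem perp_bc {I : Type} [Fintype I] (hKBC : Stmt_KBC) (φ : A →+* B)
    {P : Subalgebra A (KK I A)} {η : KK I A} (hη : ∀ p ∈ P, res (η * p) = 0) {q : KK I B}
    (hq : q ∈ bc φ P) : res (kmap φ η * q) = 0 := by
  have hp' : q ∈ Submodule.span B (kmap φ '' (P : Set (KK I A))) := by
    rw [← hKBC.1 φ P]
    exact hq
  refine Submodule.span_induction ?_ ?_ ?_ ?_ hp'
  · rintro _ ⟨r, hr, rfl⟩
    rw [← map_mul, res_kmap, hη r hr, map_zero]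
  · rw [mul_zero, map_zero]
  · intro x y _ _ hx hy
    rw [mul_add, map_add, hx, hy, add_zero]
  · intro a x _ hx
    rw [mul_smul_comm, map_smul, hx, smul_zero]

/-- The same for one puncture. -/
theorem perp_bc1 (hKBC : Stmt_KBC) (φ : A →+* B) {P : Subalgebra A (LaurentSeries A)}
    {η : LaurentSeries A} (hη : ∀ p ∈ P, (η * p).coeff (-1) = 0) {q : LaurentSeries B}
    (hq : q ∈ bc1 φ P) : (lmap φ η * q).coeff (-1) = 0 := by
  have hq' : (fun _ : Unit => q) ∈ bc φ (uno P) := by
    rw [bc_uno, mem_uno]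
    exact hq
  have h1 : ∀ p ∈ uno P, res ((fun _ : Unit => η) * p) = 0 := fun p hp =>
    (res_unit _).trans (hη (p ()) hp)
  exact (res_unit _).symm.trans (perp_bc hKBC φ h1 hq')

end ZFC

open ZFC in
/-- ZFC -/
theorem t_ZFC (hKBC : Stmt_KBC) (hZFE : Stmt_ZFE) : Stmt_ZFC := by
  intro k L _ _ _ p hp hchar g d r R v hg F hF
  obtain ⟨h1, ω, η, f, hη, -, hexp⟩ := hZFE v hg
  have hinj : Function.Injective (algebraMap v.O L) := by
    have := v.M.frac
    exact IsFractionRing.injective v.O L
  -- the formula for `F S`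
  have hFS : ∀ (S : MultilinearMap L (fun _ : Fin r => EE1 R) L)
      (x : (Fin r → Fin g) → v.O), (∀ K, algebraMap v.O L (x K) = S fun j => ω (K j)) →
      ∀ (ω' : Fin r → EE1 R) (η' : Fin r → EE1 v.M.P),
      (∀ i, lmap (algebraMap v.O L) (η' i : LaurentSeries v.O) =
        ((v.c⁻¹ : Lˣ) : L) • sc v.c (ω' i : LaurentSeries L)) →
      F S ω' = algebraMap v.O L (∑ K, x K ^ p *
        ∏ j, ((η' j : LaurentSeries v.O) * f (K j) ^ p).coeff (-1)) := by
    intro S x hx ω' η' hη'
    conv_lhs => rw [hexp r S]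
    rw [hF, tns_apply, map_sum]
    refine Finset.sum_congr rfl fun K _ => ?_
    rw [map_mul, map_pow, hx, map_prod]
    congr 1
    refine Finset.prod_congr rfl fun j _ => ?_
    rw [← h1 (ω' j) (η' j) (hη' j) (f (K j) ^ p), map_pow, map_pow]
  refine ⟨fun S hS => ?_, fun hr hssp n S hS => ?_, fun hsep S hS => ?_⟩
  · intro ω' η' hη'
    choose x hx using fun K : Fin r → Fin g =>
      hS (fun j => ω (K j)) (fun j => η (K j)) fun i => hη (K i)
    exact ⟨_, (hFS S x hx ω' η' hη').symm⟩
  · intro ω' η' hη'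
    choose x hx using fun K : Fin r → Fin g =>
      hS (fun j => ω (K j)) (fun j => η (K j)) fun i => hη (K i)
    -- divisibility of the residues
    have hdiv : ∀ (μ : EE1 v.M.P) (h : LaurentSeries v.O),
        ∃ y : v.O, ((μ : LaurentSeries v.O) * h ^ p).coeff (-1) = v.M.π * y := by
      intro μ h
      refine v.M.ker _ ?_
      obtain ⟨q, hq, ho⟩ := hssp (lmap (v.M.rs : v.O →+* k) h)
      have e1 : v.M.rs (((μ : LaurentSeries v.O) * h ^ p).coeff (-1)) =
          (lmap (v.M.rs : v.O →+* k) (μ : LaurentSeries v.O) *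
            lmap (v.M.rs : v.O →+* k) h ^ p).coeff (-1) := by
        rw [← map_pow, ← map_mul, lmap_coeff]
        rfl
      have e2 : (lmap (v.M.rs : v.O →+* k) (μ : LaurentSeries v.O) * q).coeff (-1) = 0 :=
        perp_bc1 hKBC _ μ.2.1 hq
      have e3 : (lmap (v.M.rs : v.O →+* k) (μ : LaurentSeries v.O) *
          (lmap (v.M.rs : v.O →+* k) h ^ p - q)).coeff (-1) = 0 := by
        refine coeff_Po0 (fun m hm => ?_) ho
        rw [lmap_coeff, μ.2.2 m hm, map_zero]
      rw [mul_sub, HahnSeries.coeff_sub, e2, sub_zero] at e3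
      rw [e1, e3]
    choose y hy using hdiv
    have hle : n + 1 ≤ n * p + r := by
      have h2 : n ≤ n * p := Nat.le_mul_of_pos_right n hp.pos
      omega
    refine ⟨v.M.π ^ (n * p + r - (n + 1)) * ∑ K, x K ^ p * ∏ j, y (η' j) (f (K j)), ?_⟩
    rw [hFS S (fun K => v.M.π ^ n * x K) hx ω' η' hη']
    congr 1
    rw [← mul_assoc, ← pow_add, Nat.add_sub_cancel' hle, Finset.mul_sum]
    refine Finset.sum_congr rfl fun K _ => ?_
    have e4 : ∏ j, ((η' j : LaurentSeries v.O) * f (K j) ^ p).coeff (-1) =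
        v.M.π ^ r * ∏ j, y (η' j) (f (K j)) := by
      rw [Finset.prod_congr rfl fun j _ => hy (η' j) (f (K j)), Finset.prod_mul_distrib,
        Finset.prod_const, Finset.card_univ, Fintype.card_fin]
    rw [e4, pow_add, pow_mul, mul_pow]
    ring
  · have hz : ∀ K : Fin r → Fin g, (S fun j => ω (K j)) = 0 := by
      intro K
      choose x hx using fun n : ℕ =>
        hS n (fun j => ω (K j)) (fun j => η (K j)) fun i => hη (K i)
      have h0 : v.M.π ^ 0 * x 0 = 0 := by
        refine hsep _ fun n => ⟨x n, hinj ?_⟩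
        rw [hx 0, hx n]
      rw [← hx 0, h0, map_zero]
    rw [hexp r S]
    ext μ
    rw [tns_apply]
    refine Finset.sum_eq_zero fun K _ => ?_
    rw [hz K, zero_mul]

end Pool.Agent.MG.G0
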