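import Pool.Agent.MG.G0.StmtsZH

/-!
# ZFD: integral multilinear forms are a finite dimensional space
-/

open Polynomial

namespace Pool.Agent.MG.G0

namespace ZFD

/-- The residue of a product of a regular series and a series with a pole of bounded order. -/
theorem res_mul {A : Type} [CommRing A] {N : ℕ} {f h : LaurentSeries A} (hf : f ∈ Po A 0)
    (hh : ∀ m : ℤ, m < -(N : ℤ) → h.coeff m = 0) :
    (f * h).coeff (-1) = ∑ n : Fin N, f.coeff ((n : ℕ) : ℤ) * h.coeff (-((n : ℕ) : ℤ) - 1) := by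
  rw [coeff_mul_Icc (a := 0) (b := -(N : ℤ)) (fun m hm => hf m (by simpa using hm)) hh]
  rw [← Fin.sum_univ_eq_sum_range (fun n => f.coeff (n : ℤ) * h.coeff (-(n : ℤ) - 1)) N |>.symm]
  symm
  refine Finset.sum_nbij' (fun n : ℕ => (n : ℤ)) (fun i : ℤ => i.toNat) ?_ ?_ ?_ ?_ ?_
  · intro n hn
    rw [Finset.mem_range] at hn
    rw [Finset.mem_Icc]
    omega
  · intro i hi
    rw [Finset.mem_Icc] at hi
    rw [Finset.mem_range]
    omega
  · intro n _
    simp
  · intro i hi
    rw [Finset.mem_Icc] at hi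
    omega
  · intro n _
    congr 2
    ring

theorem prod_mem {O L : Type} [CommRing O] [Field L] [Algebra O L] {N r : ℕ}
    (a : Fin r → Fin N → O) (b : Fin r → Fin N → L) (s : Set L)
    (hs : ∀ n : Fin r → Fin N, ∏ j, b j (n j) ∈ s) :
    ∏ j, ∑ n, algebraMap O L (a j n) * b j n ∈ Submodule.span O s := by
  rw [Finset.prod_univ_sum]
  refine Submodule.sum_mem _ fun n _ => ?_
  rw [Finset.prod_mul_distrib, ← map_prod, ← Algebra.smul_def]
  exact Submodule.smul_mem _ _ (Submodule.subset_span (hs n))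

/-- A basis of the regular differentials. -/
theorem forms (hKFO : Stmt_KFO) {L : Type} [Field L] {g : ℕ}
    {R : Subalgebra L (LaurentSeries L)} (hR : Kr g R) :
    ∃ ω : Fin g → EE1 R, ∀ μ : EE1 R, ∃ c : Fin g → L, μ = ∑ j, c j • ω j := by
  obtain ⟨⟨ω, hω⟩, h2⟩ := hKFO (P := uno R) hR
  obtain ⟨h3, h4⟩ := h2 ω hω
  refine ⟨fun j => ⟨ω j (), mem_EE_uno.1 (h3 j)⟩, fun μ => ?_⟩
  obtain ⟨c, hc, -⟩ := h4 (fun _ => (μ : LaurentSeries L)) (mem_EE_uno.2 μ.2)
  refine ⟨c, Subtype.ext ?_⟩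
  have h5 := congrFun hc ()
  rw [Submodule.coe_sum]
  simpa using h5

/-- The values of a multilinear form at a basis. -/
noncomputable def vals {k L : Type} [Field k] [Field L] [Algebra k L] {g r : ℕ}
    {R : Subalgebra L (LaurentSeries L)} (ω : Fin g → EE1 R) :
    MultilinearMap L (fun _ : Fin r => EE1 R) L →ₗ[k] ((Fin r → Fin g) → L) where
  toFun S := fun M => S fun j => ω (M j)
  map_add' S T := by
    funext M
    rfl
  map_smul' a S := by
    funext M
    rfl

theorem vals_apply {k L : Type} [Field k] [Field L] [Algebra k L] {g r : ℕ}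
    {R : Subalgebra L (LaurentSeries L)} (ω : Fin g → EE1 R)
    (S : MultilinearMap L (fun _ : Fin r => EE1 R) L) (M : Fin r → Fin g) :
    vals (k := k) ω S M = S fun j => ω (M j) := rfl

theorem vals_inj {k L : Type} [Field k] [Field L] [Algebra k L] {g r : ℕ}
    {R : Subalgebra L (LaurentSeries L)} (ω : Fin g → EE1 R)
    (hω : ∀ μ : EE1 R, ∃ c : Fin g → L, μ = ∑ j, c j • ω j) :
    Function.Injective (vals (k := k) (r := r) ω) := by
  rw [injective_iff_map_eq_zero]
  intro S hS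
  ext μ
  choose c hc using hω
  have h1 : μ = fun j => ∑ i, c (μ j) i • ω i := funext fun j => hc (μ j)
  rw [h1, MultilinearMap.map_sum]
  refine Finset.sum_eq_zero fun M _ => ?_
  rw [MultilinearMap.map_smul_univ]
  have h2 : S (fun j => ω (M j)) = 0 := congrFun hS M
  rw [h2, smul_zero]

/-- The set of the coefficients. -/
noncomputable def gen {L : Type} [Field L] {g : ℕ} {R : Subalgebra L (LaurentSeries L)}
    (ω : Fin g → EE1 R) (N r : ℕ) (x : L × (Fin r → Fin g) × (Fin r → Fin N)) : L :=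
  ∏ j, (x.1⁻¹ ^ ((x.2.2 j : ℕ) + 1) * ((ω (x.2.1 j) : LaurentSeries L)).coeff
    ((x.2.2 j : ℕ) : ℤ))

theorem mem_span (hZFE : Stmt_ZFE) {k L : Type} [Field k] [Field L] [Algebra k L] {g d : ℕ}
    {R : Subalgebra L (LaurentSeries L)} (hg : 1 ≤ g) (ω : Fin g → EE1 R)
    (v : Plc k L g d R) {r : ℕ} (S : MultilinearMap L (fun _ : Fin r => EE1 R) L) (hS : v.Int S)
    (O : Type) [CommRing O] [Algebra O L]
    (hO : ∀ x : v.O, ∃ y : O, algebraMap O L y = algebraMap v.O L x) (s : Set L)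
    (hs : ∀ (M : Fin r → Fin g) (n : Fin r → Fin (2 * g - 1)),
      gen ω (2 * g - 1) r ((v.c : L), M, n) ∈ s) (M : Fin r → Fin g) :
    S (fun j => ω (M j)) ∈ Submodule.span O s := by
  choose τ hτ using hO
  obtain ⟨ω', η', f, h1, h2, h3⟩ := (hZFE v hg).2
  have h4 := h3 r S
  have h5 : S (fun j => ω (M j)) = ∑ K : Fin r → Fin g, S (fun j => ω' (K j)) *
      ∏ j, ((ω (M j) : LaurentSeries L) *
        sc v.c⁻¹ (lmap (algebraMap v.O L) (f (K j)))).coeff (-1) := by
    have h6 := congrArg (fun T : MultilinearMap L (fun _ : Fin r => EE1 R) L =>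
      T fun j => ω (M j)) h4
    exact h6.trans (tns_apply R _ _ _)
  rw [h5]
  refine Submodule.sum_mem _ fun K _ => ?_
  obtain ⟨x, hx⟩ := hS (fun j => ω' (K j)) (fun j => η' (K j)) fun i => h1 (K i)
  rw [← hx, ← hτ, ← Algebra.smul_def]
  refine Submodule.smul_mem _ _ ?_
  have h6 : ∀ j, ((ω (M j) : LaurentSeries L) *
      sc v.c⁻¹ (lmap (algebraMap v.O L) (f (K j)))).coeff (-1) =
      ∑ n : Fin (2 * g - 1), algebraMap O L (τ ((f (K j)).coeff (-((n : ℕ) : ℤ) - 1))) *
        (((v.c : L))⁻¹ ^ ((n : ℕ) + 1) * ((ω (M j) : LaurentSeries L)).coeff ((n : ℕ) : ℤ)) := by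
    intro j
    rw [res_mul (N := 2 * g - 1) (ω (M j)).2.2]
    · refine Finset.sum_congr rfl fun n _ => ?_
      rw [sc_coeff, lmap_coeff, hτ]
      have e1 : -(-((n : ℕ) : ℤ) - 1) = (((n : ℕ) + 1 : ℕ) : ℤ) := by
        push_cast
        ring
      rw [e1, zpow_natCast, Units.val_pow_eq_pow_val, Units.val_inv_eq_inv_val]
      ring
    · intro m hm
      rw [sc_coeff, lmap_coeff, h2 (K j) m (by omega), map_zero, mul_zero]
  simp only [h6]
  exact prod_mem (fun j n => τ ((f (K j)).coeff (-((n : ℕ) : ℤ) - 1)))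
    (fun j n => ((v.c : L))⁻¹ ^ ((n : ℕ) + 1) *
      ((ω (M j) : LaurentSeries L)).coeff ((n : ℕ) : ℤ)) s fun n => hs M n

/-- An element whose powers lie in a finite dimensional space is a constant. -/
theorem const {k L : Type} [Field k] [IsAlgClosed k] [Field L] [Algebra k L] (s : L)
    (V : Submodule k L) (hV : FiniteDimensional k V) (h : ∀ n : ℕ, s ^ n ∈ V) :
    ∃ a : k, algebraMap k L a = s := by
  have hle : Subalgebra.toSubmodule (Algebra.adjoin k {s}) ≤ V := by
    rw [Algebra.adjoin_eq_span, Submodule.span_le]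
    intro x hx
    obtain ⟨n, rfl⟩ := Submonoid.mem_closure_singleton.1 hx
    exact h n
  have hfin : FiniteDimensional k (Subalgebra.toSubmodule (Algebra.adjoin k {s})) :=
    Submodule.finiteDimensional_of_le hle
  have hfg : (Subalgebra.toSubmodule (Algebra.adjoin k {s})).FG :=
    Module.Finite.iff_fg.1 hfin
  have hint : IsIntegral k s :=
    IsIntegral.of_mem_of_fg _ hfg s (Algebra.self_mem_adjoin_singleton k s)
  have hdeg : (minpoly k s).degree = 1 :=
    IsAlgClosed.degree_eq_one_of_irreducible k (minpoly.irreducible hint)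
  exact minpoly.mem_range_of_degree_eq_one k s hdeg

end ZFD

open ZFD in
theorem t_ZFD (hKFO : Stmt_KFO) (hZFE : Stmt_ZFE) (hZRR : Stmt_ZRR) : Stmt_ZFD := by
  classical
  intro k F L _ _ _ _ _ _ _ _ t ht htop hfin hsep g d R T cs hcs hg hR hE
  constructor
  · intro r
    obtain ⟨ω, hω⟩ := forms hKFO hR
    let s : Finset L := (hcs.toFinset ×ˢ (Finset.univ : Finset ((Fin r → Fin g) ×
      (Fin r → Fin (2 * g - 1))))).image (gen ω (2 * g - 1) r)
    obtain ⟨V₀, hV₀, h₀⟩ := hZRR (k := k) (F := F) (L := L) t ht htop hfin hsep s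
    let V : Submodule k (MultilinearMap L (fun _ : Fin r => EE1 R) L) :=
      (Submodule.pi Set.univ fun _ : Fin r → Fin g => V₀).comap (vals (k := k) ω)
    have hV : ∀ S, S ∈ V ↔ ∀ M : Fin r → Fin g, S (fun j => ω (M j)) ∈ V₀ := by
      intro S
      rw [Submodule.mem_comap, Submodule.mem_pi]
      exact ⟨fun h M => h M (Set.mem_univ M), fun h M _ => h M⟩
    refine ⟨V, ?_, ?_⟩
    · let φ : V →ₗ[k] ((Fin r → Fin g) → V₀) := LinearMap.pi fun M =>
        LinearMap.codRestrict V₀ ((LinearMap.proj M ∘ₗ vals (k := k) ω) ∘ₗ V.subtype)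
          fun S => (hV S.1).1 S.2 M
      have hφ : Function.Injective φ := by
        intro S S' h
        refine Subtype.ext (vals_inj (k := k) ω hω ?_)
        funext M
        exact congrArg Subtype.val (congrFun h M)
      exact FiniteDimensional.of_injective φ hφ
    · intro S hS
      rw [hV]
      intro M
      refine h₀ _ ?_
      intro O _ _ _ _ _ _ _
      obtain ⟨v, hv, hc, hO⟩ := hE O
      refine mem_span hZFE hg ω v S (hS v hv) O hO _ ?_ M
      intro M' n
      refine Finset.mem_coe.2 (Finset.mem_image.2 ⟨((v.c : L), M', n), ?_, rfl⟩)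
      rw [Finset.mem_product]
      exact ⟨hcs.mem_toFinset.2 hc, Finset.mem_univ _⟩
  · intro s hs
    obtain ⟨V₀, hV₀, h₀⟩ := hZRR (k := k) (F := F) (L := L) t ht htop hfin hsep {1}
    refine const s V₀ hV₀ fun n => h₀ _ ?_
    intro O _ _ _ _ _ _ _
    obtain ⟨v, hv, hc, hO⟩ := hE O
    obtain ⟨x, hx⟩ := hs v hv
    obtain ⟨y, hy⟩ := hO x
    have h1 : s ^ n = (y ^ n) • (1 : L) := by
      rw [Algebra.smul_def, map_pow, hy, hx, mul_one]
    rw [h1]
    refine Submodule.smul_mem _ _ (Submodule.subset_span ?_)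
    simp

end Pool.Agent.MG.G0
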