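import Pool.Agent.MG.G0.StmtsZH

/-!
# Expansion of multilinear forms at a place (module ZFE)
-/

open Polynomial

namespace Pool.Agent.MG.G0

namespace ZFE

section

variable {A B : Type} [CommRing A] [CommRing B]

theorem sc_res (c : Aˣ) (f : LaurentSeries A) :
    (sc c f).coeff (-1) = (c : A) * f.coeff (-1) := by
  rw [sc_coeff, neg_neg, zpow_one]

theorem sc_inv_sc (c : Aˣ) (f : LaurentSeries A) : sc c⁻¹ (sc c f) = f := by
  rw [sc_sc, inv_mul_cancel, sc_one]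

theorem sc_sc_inv (c : Aˣ) (f : LaurentSeries A) : sc c (sc c⁻¹ f) = f := by
  rw [sc_sc, mul_inv_cancel, sc_one]

/-- The inverse of `μ ↦ c⁻¹ • sc c μ`. -/
theorem back (c : Aˣ) (μ η : LaurentSeries A) (h : η = ((c⁻¹ : Aˣ) : A) • sc c μ) :
    μ = (c : A) • sc c⁻¹ η := by
  rw [h, map_smul, sc_inv_sc, smul_smul, Units.mul_inv, one_smul]

theorem pairing (φ : A →+* B) (c : Bˣ) (μ : LaurentSeries B) (η x : LaurentSeries A)
    (h : lmap φ η = ((c⁻¹ : Bˣ) : B) • sc c μ) :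
    (μ * sc c⁻¹ (lmap φ x)).coeff (-1) = φ ((η * x).coeff (-1)) := by
  rw [back c μ _ h, smul_mul_assoc, ← map_mul, ← map_mul, HahnSeries.coeff_smul, sc_res,
    smul_eq_mul, lmap_coeff, ← mul_assoc, Units.mul_inv, one_mul]

theorem mem_scale {R : Subalgebra A (LaurentSeries A)} (c : Aˣ) {μ : LaurentSeries A}
    (h : μ ∈ EE1 R) : ((c⁻¹ : Aˣ) : A) • sc c μ ∈ EE1 (R.map (sc c)) := by
  refine ⟨?_, Submodule.smul_mem _ _ (sc_mem_Po c h.2)⟩
  rintro _ ⟨p, hp, rfl⟩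
  change ((((c⁻¹ : Aˣ) : A) • sc c μ) * sc c p).coeff (-1) = 0
  rw [smul_mul_assoc, ← map_mul, HahnSeries.coeff_smul, sc_res, h.1 p hp, mul_zero, smul_zero]

theorem mem_unscale {R : Subalgebra A (LaurentSeries A)} (c : Aˣ) {η : LaurentSeries A}
    (h : η ∈ EE1 (R.map (sc c))) : (c : A) • sc c⁻¹ η ∈ EE1 R := by
  refine ⟨fun p hp => ?_, Submodule.smul_mem _ _ (sc_mem_Po _ h.2)⟩
  have h1 : p = sc c⁻¹ (sc c p) := (sc_inv_sc c p).symm
  rw [h1, smul_mul_assoc, ← map_mul, HahnSeries.coeff_smul, sc_res,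
    h.1 (sc c p) ⟨p, hp, rfl⟩, mul_zero, smul_zero]

theorem scale_unscale (c : Aˣ) (η : LaurentSeries A) :
    ((c⁻¹ : Aˣ) : A) • sc c ((c : A) • sc c⁻¹ η) = η := by
  rw [map_smul, sc_sc_inv, smul_smul, Units.inv_mul, one_smul]

/-- Dual systems with bounded poles. -/
theorem dual (hKFO : Stmt_KFO) (hKGP : Stmt_KGP) {g : ℕ} (hg : 1 ≤ g)
    {P : Subalgebra A (LaurentSeries A)} (hP : Kr g P) :
    ∃ (w : Fin g → KK Unit A) (f : Fin g → LaurentSeries A), IsForms (uno P) w ∧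
      (∀ i, f i ∈ Po A (2 * g - 1)) ∧
      ∀ i j, ((w i ()) * f j).coeff (-1) = if i = j then 1 else 0 := by
  obtain ⟨⟨w, hw⟩, hu⟩ := hKFO (I := Unit) (P := uno P) hP
  have hE := (hu w hw).1
  choose F hF using fun j : Fin g => hw.surj (Pi.single j 1)
  choose p hp hq using fun j : Fin g => hKGP hg hP (F j)
  refine ⟨w, fun j => F j () - p j (), hw, fun i => mem_Pol_unit.1 (hq i), fun i j => ?_⟩
  have h1 : ((w i ()) * F j ()).coeff (-1) = if i = j then 1 else 0 := by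
    have h2 := hF j i
    rw [res_unit, Pi.single_apply] at h2
    exact h2
  have h3 : ((w i ()) * p j ()).coeff (-1) = 0 := (mem_EE_uno.1 (hE i)).1 _ (mem_uno.1 (hp j))
  change ((w i ()) * (F j () - p j ())).coeff (-1) = _
  rw [mul_sub, HahnSeries.coeff_sub, h1, h3, sub_zero]

theorem forms (hKFO : Stmt_KFO) {g : ℕ} {P : Subalgebra A (LaurentSeries A)} (hP : Kr g P)
    {w : Fin g → KK Unit A} (hw : IsForms (uno P) w) :
    (∀ j, w j () ∈ EE1 P) ∧ ∀ η ∈ EE1 P, ∃ c : Fin g → A, η = ∑ j, c j • w j () := by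
  obtain ⟨h1, h2⟩ := (hKFO hP).2 w hw
  refine ⟨fun j => mem_EE_uno.1 (h1 j), fun η hη => ?_⟩
  obtain ⟨c, hc, -⟩ := h2 (fun _ => η) (mem_EE_uno.2 hη)
  refine ⟨c, ?_⟩
  have h3 := congrFun hc ()
  rw [Finset.sum_apply] at h3
  exact h3

end

end ZFE

open ZFE in
theorem t_ZFE (hKFO : Stmt_KFO) (hKBC : Stmt_KBC) (hKGP : Stmt_KGP) : Stmt_ZFE := by
  classical
  intro k L _ _ _ g d R v hg
  refine ⟨fun μ η h x => pairing (algebraMap v.O L) v.c _ _ x h, ?_⟩
  obtain ⟨w, f, hw, hf, hwf⟩ := dual hKFO hKGP hg v.M.kr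
  have hwE := (forms hKFO v.M.kr hw).1
  obtain ⟨hkb, hfb, -⟩ := hKBC.2.2.2 (P := uno v.M.P) v.M.kr (algebraMap v.O L)
  have hfb' := hfb w hw
  rw [bc_uno, v.M.bc] at hkb hfb'
  have hb := forms hKFO (P := R.map (sc v.c)) hkb hfb'
  have hb1 : ∀ j, lmap (algebraMap v.O L) (w j ()) ∈ EE1 (R.map (sc v.c)) := hb.1
  let ω : Fin g → EE1 R := fun j =>
    ⟨(v.c : L) • sc v.c⁻¹ (lmap (algebraMap v.O L) (w j ())), mem_unscale v.c (hb1 j)⟩
  have hω : ∀ i, lmap (algebraMap v.O L) (w i ()) =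
      ((v.c⁻¹ : Lˣ) : L) • sc v.c (ω i : LaurentSeries L) := fun i =>
    (scale_unscale v.c _).symm
  have hpair : ∀ i j, ((ω i : LaurentSeries L) *
      sc v.c⁻¹ (lmap (algebraMap v.O L) (f j))).coeff (-1) = if i = j then 1 else 0 := by
    intro i j
    rw [pairing (algebraMap v.O L) v.c _ _ (f j) (hω i), hwf]
    split_ifs
    · rw [map_one]
    · rw [map_zero]
  have hexp : ∀ μ : EE1 R, μ = ∑ i, ((μ : LaurentSeries L) *
      sc v.c⁻¹ (lmap (algebraMap v.O L) (f i))).coeff (-1) • ω i := by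
    intro μ
    obtain ⟨x, hx⟩ := hb.2 _ (mem_scale v.c μ.2)
    have h1 : μ = ∑ i, x i • ω i := by
      apply Subtype.ext
      rw [back v.c (μ : LaurentSeries L) _ hx.symm, map_sum, Finset.smul_sum, Submodule.coe_sum]
      refine Finset.sum_congr rfl fun i _ => ?_
      rw [map_smul, smul_comm]
      rfl
    have h2 : ∀ j, ((μ : LaurentSeries L) *
        sc v.c⁻¹ (lmap (algebraMap v.O L) (f j))).coeff (-1) = x j := by
      intro j
      have h3 : rf R (sc v.c⁻¹ (lmap (algebraMap v.O L) (f j))) μ = x j := by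
        conv_lhs => rw [h1]
        rw [map_sum]
        have h4 : ∀ i, rf R (sc v.c⁻¹ (lmap (algebraMap v.O L) (f j))) (x i • ω i) =
            if i = j then x i else 0 := by
          intro i
          rw [map_smul, rf_apply, hpair, smul_eq_mul, mul_ite, mul_one, mul_zero]
        rw [Finset.sum_congr rfl fun i _ => h4 i, Finset.sum_ite_eq', if_pos (Finset.mem_univ j)]
      exact h3
    conv_lhs => rw [h1]
    exact Finset.sum_congr rfl fun i _ => by rw [h2 i]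
  refine ⟨ω, fun i => ⟨w i (), hwE i⟩, f, hω, hf, fun r S => ?_⟩
  ext μ
  rw [tns_apply]
  have h5 : μ = fun j => ∑ i, ((μ j : LaurentSeries L) *
      sc v.c⁻¹ (lmap (algebraMap v.O L) (f i))).coeff (-1) • ω i := funext fun j => hexp (μ j)
  conv_lhs => rw [h5]
  rw [MultilinearMap.map_sum]
  refine Finset.sum_congr rfl fun K _ => ?_
  rw [MultilinearMap.map_smul_univ, smul_eq_mul, mul_comm]

end Pool.Agent.MG.G0
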