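import Pool.Agent.MG.G0.StmtsZH

/-!
# ZFF: the Frobenius on multilinear forms
-/

open Polynomial

namespace Pool.Agent.MG.G0

namespace ZFFaux

section

variable {L : Type} [Field L] {g : ℕ} {R : Subalgebra L (LaurentSeries L)}

theorem rf_add (f h : LaurentSeries L) (μ : EE1 R) : rf R (f + h) μ = rf R f μ + rf R h μ := by
  rw [rf_apply, rf_apply, rf_apply, mul_add, HahnSeries.coeff_add]

theorem rf_smul (c : L) (f : LaurentSeries L) (μ : EE1 R) : rf R (c • f) μ = c * rf R f μ := by
  rw [rf_apply, rf_apply, mul_smul_comm, HahnSeries.coeff_smul, smul_eq_mul]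

theorem rf_sum {ι : Type} (s : Finset ι) (f : ι → LaurentSeries L) (μ : EE1 R) :
    rf R (∑ i ∈ s, f i) μ = ∑ i ∈ s, rf R (f i) μ := by
  classical
  induction s using Finset.induction_on with
  | empty => rw [Finset.sum_empty, Finset.sum_empty, rf_apply, mul_zero, HahnSeries.coeff_zero]
  | insert a s ha ih => rw [Finset.sum_insert ha, Finset.sum_insert ha, rf_add, ih]

theorem rf_mem {q : LaurentSeries L} (hq : q ∈ R) (μ : EE1 R) : rf R q μ = 0 := μ.2.1 q hq

theorem rf_Po {o : LaurentSeries L} (ho : o ∈ Po L 0) (μ : EE1 R) : rf R o μ = 0 := by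
  rw [rf_apply]
  have h1 : ∀ m < -(0 : ℤ), (μ : LaurentSeries L).coeff m = 0 := μ.2.2
  exact mul_low (a := 0) (b := 0) h1 ho (-1) (by norm_num)

/-- A dual system. -/
theorem dual_system (hKFO : Stmt_KFO) (hR : Kr g R) :
    ∃ (ω : Fin g → EE1 R) (f : Fin g → LaurentSeries L),
      (∀ i j, rf R (f j) (ω i) = if i = j then 1 else 0) ∧
      (∀ μ : EE1 R, μ = ∑ j, rf R (f j) μ • ω j) ∧
      ∀ h : LaurentSeries L, ∃ q ∈ R, h - ∑ j, rf R h (ω j) • f j - q ∈ Po L 0 := by
  obtain ⟨⟨ω, hω⟩, hu⟩ := hKFO (I := Unit) (P := uno R) hR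
  obtain ⟨h1, h2⟩ := hu ω hω
  choose F hF using fun j : Fin g => hω.surj (Pi.single j 1)
  have hmem : ∀ j, ω j () ∈ EE1 R := fun j => mem_EE_uno.1 (h1 j)
  have hres : ∀ (j : Fin g) (x : KK Unit L), res (ω j * x) = rf R (x ()) ⟨ω j (), hmem j⟩ := by
    intro j x
    rw [res_unit, rf_apply]
    rfl
  have hδ : ∀ i j, rf R (F j ()) ⟨ω i (), hmem i⟩ = if i = j then 1 else 0 := by
    intro i j
    rw [← hres, hF, Pi.single_apply]
  refine ⟨fun j => ⟨ω j (), hmem j⟩, fun j => F j (), hδ, fun μ => ?_, fun h => ?_⟩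
  · have hμ : (fun _ : Unit => (μ : LaurentSeries L)) ∈ EE (uno R) := mem_EE_uno.2 μ.2
    obtain ⟨c, hc, -⟩ := h2 _ hμ
    have hc1 : μ = ∑ j, c j • (⟨ω j (), hmem j⟩ : EE1 R) := by
      apply Subtype.ext
      rw [Submodule.coe_sum]
      have := congrFun hc ()
      rw [Finset.sum_apply] at this
      exact this
    have hc2 : ∀ i, rf R (F i ()) μ = c i := by
      intro i
      conv_lhs => rw [hc1]
      rw [map_sum]
      simp only [map_smul, hδ, smul_eq_mul, mul_ite, mul_one, mul_zero]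
      rw [Finset.sum_ite_eq' Finset.univ i, if_pos (Finset.mem_univ i)]
    conv_lhs => rw [hc1]
    exact Finset.sum_congr rfl fun j _ => by rw [hc2 j]
  · let H : KK Unit L := fun _ => h - ∑ j, rf R h ⟨ω j (), hmem j⟩ • F j ()
    have hH : ∀ i, res (ω i * H) = 0 := by
      intro i
      rw [hres]
      change rf R (h - ∑ j, rf R h ⟨ω j (), hmem j⟩ • F j ()) ⟨ω i (), hmem i⟩ = 0
      have h3 : rf R h ⟨ω i (), hmem i⟩ =
          rf R (h - ∑ j, rf R h ⟨ω j (), hmem j⟩ • F j ()) ⟨ω i (), hmem i⟩ +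
          rf R (∑ j, rf R h ⟨ω j (), hmem j⟩ • F j ()) ⟨ω i (), hmem i⟩ := by
        rw [← rf_add, sub_add_cancel]
      have h4 : rf R (∑ j, rf R h ⟨ω j (), hmem j⟩ • F j ()) ⟨ω i (), hmem i⟩ =
          rf R h ⟨ω i (), hmem i⟩ := by
        rw [rf_sum]
        simp only [rf_smul, hδ, mul_ite, mul_one, mul_zero]
        rw [Finset.sum_ite_eq Finset.univ i, if_pos (Finset.mem_univ i)]
      rw [h4] at h3
      exact (left_eq_add.mp (h3.trans (add_comm _ _)))
    obtain ⟨q, hq, hq2⟩ := (hω.ker H).1 hH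
    exact ⟨q (), mem_uno.1 hq, mem_Pol_unit.1 hq2⟩

/-- The residue of a power. -/
theorem rf_pow {p : ℕ} (hp : p.Prime) (hc : CharP L p) {ω : Fin g → EE1 R}
    {f : Fin g → LaurentSeries L}
    (h3 : ∀ h : LaurentSeries L, ∃ q ∈ R, h - ∑ j, rf R h (ω j) • f j - q ∈ Po L 0)
    (h : LaurentSeries L) (μ : EE1 R) :
    rf R (h ^ p) μ = ∑ m, rf R h (ω m) ^ p * rf R (f m ^ p) μ := by
  have : Fact p.Prime := ⟨hp⟩
  have hch : CharP (LaurentSeries L) p :=
    charP_of_injective_algebraMap (algebraMap L (LaurentSeries L)).injective p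
  obtain ⟨q, hq, ho⟩ := h3 h
  have h4 : h = (∑ j, rf R h (ω j) • f j) + q + (h - ∑ j, rf R h (ω j) • f j - q) := by ring
  have h5 : h ^ p = (∑ j, rf R h (ω j) ^ p • f j ^ p) + q ^ p +
      (h - ∑ j, rf R h (ω j) • f j - q) ^ p := by
    conv_lhs => rw [h4]
    rw [add_pow_char, add_pow_char, sum_pow_char]
    simp only [_root_.smul_pow]
  have h6 : (h - ∑ j, rf R h (ω j) • f j - q) ^ p ∈ Po L 0 := by
    have h7 : ∀ n : ℕ, (h - ∑ j, rf R h (ω j) • f j - q) ^ n ∈ Po L 0 := by
      intro n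
      induction n with
      | zero =>
        rw [pow_zero]
        intro m hm
        rw [← HahnSeries.single_zero_one, HahnSeries.coeff_single_of_ne (by omega)]
      | succ n ih =>
        rw [pow_succ]
        intro m hm
        exact mul_low (a := 0) (b := 0) ih ho m (by omega)
    exact h7 p
  rw [h5, rf_add, rf_add, rf_sum, rf_mem (R.pow_mem hq p), rf_Po h6, add_zero, add_zero]
  exact Finset.sum_congr rfl fun m _ => rf_smul _ _ _

theorem tns_rf {ι : Type} [Fintype ι] {r : ℕ} (a : ι → L) (f : ι → Fin r → LaurentSeries L)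
    (μ : Fin r → EE1 R) : tns R a f μ = ∑ i, a i * ∏ j, rf R (f i j) (μ j) := tns_apply R a f μ

end

end ZFFaux

open ZFFaux

/-- ZFF: the Frobenius on multilinear forms. -/
theorem t_ZFF (hKFO : Stmt_KFO) : Stmt_ZFF := by
  classical
  intro L _ p hp hc g R hR r
  have : Fact p.Prime := ⟨hp⟩
  obtain ⟨ω, f, h1, h2, h3⟩ := dual_system hKFO hR
  refine ⟨fun S => tns R (fun K : Fin r → Fin g => (S fun j => ω (K j)) ^ p)
    (fun K j => f (K j) ^ p), fun {ι} _ a f' => ?_, fun S T => ?_, fun c S => ?_, fun hO S hS => ?_⟩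
  · refine MultilinearMap.ext fun μ => ?_
    rw [tns_rf, tns_rf]
    have h4 : ∀ K : Fin r → Fin g, (tns R a f' fun j => ω (K j)) ^ p *
        ∏ j, rf R (f (K j) ^ p) (μ j) =
        ∑ i, a i ^ p * ∏ j, (rf R (f' i j) (ω (K j)) ^ p * rf R (f (K j) ^ p) (μ j)) := by
      intro K
      rw [tns_rf, sum_pow_char, Finset.sum_mul]
      refine Finset.sum_congr rfl fun i _ => ?_
      rw [mul_pow, Finset.prod_mul_distrib, Finset.prod_pow, mul_assoc]
    rw [Finset.sum_congr rfl fun K _ => h4 K, Finset.sum_comm]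
    refine Finset.sum_congr rfl fun i _ => ?_
    rw [← Finset.mul_sum]
    congr 1
    have h5 : ∀ j, rf R (f' i j ^ p) (μ j) =
        ∑ m, rf R (f' i j) (ω m) ^ p * rf R (f m ^ p) (μ j) :=
      fun j => rf_pow hp hc h3 (f' i j) (μ j)
    rw [Finset.prod_congr rfl fun j _ => h5 j, Finset.prod_univ_sum, Fintype.piFinset_univ]
  · refine MultilinearMap.ext fun μ => ?_
    rw [add_apply, tns_rf, tns_rf, tns_rf, ← Finset.sum_add_distrib]
    refine Finset.sum_congr rfl fun K _ => ?_
    rw [add_apply, add_pow_char, add_mul]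
  · refine MultilinearMap.ext fun μ => ?_
    rw [smul_apply, tns_rf, tns_rf, smul_eq_mul, Finset.mul_sum]
    refine Finset.sum_congr rfl fun K _ => ?_
    rw [smul_apply, smul_eq_mul, mul_pow, mul_assoc]
  · -- the functionals `res (μ fₘᵖ)` are a basis of the dual
    have hker : ∀ μ : EE1 R, (∀ m, rf R (f m ^ p) μ = 0) → μ = 0 := by
      intro μ hμ
      apply Subtype.ext
      refine hO (μ : LaurentSeries L) μ.2 fun h => ?_
      have h4 := rf_pow hp hc h3 h μ
      rw [rf_apply] at h4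
      rw [h4]
      exact Finset.sum_eq_zero fun m _ => by rw [hμ m, mul_zero]
    let Λ : (Fin g → L) →ₗ[L] (Fin g → L) :=
      LinearMap.pi fun m => (rf R (f m ^ p)).comp (Fintype.linearCombination L ω)
    have hΛ : ∀ c m, Λ c m = rf R (f m ^ p) (∑ j, c j • ω j) := by
      intro c m
      change rf R (f m ^ p) (Fintype.linearCombination L ω c) = _
      rw [Fintype.linearCombination_apply]
    have hinj : Function.Injective Λ := by
      rw [injective_iff_map_eq_zero]
      intro c hcc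
      have h4 : (∑ j, c j • ω j) = 0 := hker _ fun m => by rw [← hΛ, hcc]; rfl
      funext i
      have h5 : rf R (f i) (∑ j, c j • ω j) = c i := by
        rw [map_sum]
        simp only [map_smul, h1, smul_eq_mul, mul_ite, mul_one, mul_zero]
        rw [Finset.sum_ite_eq' Finset.univ i, if_pos (Finset.mem_univ i)]
      rw [← h5, h4, map_zero]
      rfl
    have hsurj : Function.Surjective Λ := LinearMap.injective_iff_surjective.1 hinj
    choose c hcn using fun n : Fin g => hsurj (Pi.single n 1)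
    have hμ : ∀ n m, rf R (f m ^ p) (∑ j, c n j • ω j) = if m = n then 1 else 0 := by
      intro n m
      rw [← hΛ, hcn, Pi.single_apply]
    have hSω : ∀ K₀ : Fin r → Fin g, (S fun j => ω (K₀ j)) = 0 := by
      intro K₀
      have h4 : (tns R (fun K : Fin r → Fin g => (S fun j => ω (K j)) ^ p)
          (fun K j => f (K j) ^ p)) (fun j => ∑ i, c (K₀ j) i • ω i) = 0 := by
        have := congrArg (fun T : MultilinearMap L (fun _ : Fin r => EE1 R) L =>
          T (fun j => ∑ i, c (K₀ j) i • ω i)) hS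
        exact this
      rw [tns_rf] at h4
      have h5 : ∀ K : Fin r → Fin g, (S fun j => ω (K j)) ^ p *
          ∏ j, rf R (f (K j) ^ p) (∑ i, c (K₀ j) i • ω i) =
          if K = K₀ then (S fun j => ω (K₀ j)) ^ p else 0 := by
        intro K
        split_ifs with hK
        · subst hK
          rw [Finset.prod_eq_one fun j _ => by rw [hμ, if_pos rfl], mul_one]
        · obtain ⟨j, hj⟩ := Function.ne_iff.1 hK
          rw [Finset.prod_eq_zero (Finset.mem_univ j) (by rw [hμ, if_neg hj]), mul_zero]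
      rw [Finset.sum_congr rfl fun K _ => h5 K, Finset.sum_ite_eq' Finset.univ K₀,
        if_pos (Finset.mem_univ K₀)] at h4
      exact pow_eq_zero_iff hp.ne_zero |>.1 h4
    refine MultilinearMap.ext fun μ => ?_
    have h6 : μ = fun j => ∑ m, rf R (f m) (μ j) • ω m := by
      funext j
      exact h2 (μ j)
    rw [h6, MultilinearMap.map_sum, zero_apply]
    refine Finset.sum_eq_zero fun K _ => ?_
    rw [MultilinearMap.map_smul_univ S (fun j => rf R (f (K j)) (μ j)) (fun j => ω (K j)), hSω,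
      smul_zero]

end Pool.Agent.MG.G0
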