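import Pool.Agent.MG.G0.StmtsZH
import Pool.Agent.MG.G0.ZL.Fin

/-!
# The family of covers through a given curve
-/

open Polynomial

namespace Pool.Agent.MG.G0.ZFM

open Pool.Agent.MG.G0.ZL

section

variable {k : Type} [Field k]

theorem aeval_single (q : k[X]) :
    aeval (HahnSeries.single (1 : ℤ) (1 : k) : LaurentSeries k) q =
      HahnSeries.ofPowerSeries ℤ k (q : PowerSeries k) := by
  induction q using Polynomial.induction_on with
  | C a =>
    rw [aeval_C, Polynomial.coe_C, HahnSeries.ofPowerSeries_C]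
    rfl
  | add p q hp hq =>
    rw [map_add, hp, hq, Polynomial.coe_add, map_add]
  | monomial n a h =>
    have h1 : ((C a * X ^ n * X : k[X]) : PowerSeries k) =
        ((C a * X ^ n : k[X]) : PowerSeries k) * PowerSeries.X := by
      rw [Polynomial.coe_mul, Polynomial.coe_X]
    rw [pow_succ, ← mul_assoc, map_mul, h, aeval_X, h1, map_mul (HahnSeries.ofPowerSeries ℤ k),
      HahnSeries.ofPowerSeries_X]

theorem transcendental_single :
    Transcendental k (HahnSeries.single (1 : ℤ) (1 : k) : LaurentSeries k) := by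
  rw [transcendental_iff]
  intro p hp
  rw [aeval_single] at hp
  have h1 : (p : PowerSeries k) = 0 := by
    apply HahnSeries.ofPowerSeries_injective (Γ := ℤ)
    rw [hp, map_zero]
  exact Polynomial.coe_eq_zero_iff.1 h1

end

section

variable {A B : Type} [CommRing A] [CommRing B]

/-- The derivative `d/dz` commutes with the change of the ring of coefficients. -/
theorem lmap_dz (hPSI : Stmt_PSI) {d : ℕ} (hd : 0 < d) (hA : IsUnit (d : A)) (φ : A →+* B)
    (f : LaurentSeries A) : lmap φ (dz A d 1 f) = dz B d 1 (lmap φ f) := by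
  have hB : IsUnit (d : B) := by
    have := hA.map φ
    rwa [map_natCast] at this
  have h1 := (hPSI (A := A) d hd hA).1 f
  have h2 := (hPSI (A := B) d hd hB).1 (lmap φ f)
  have h3 := congrArg (lmap φ) h1
  rw [lmap_smul, map_natCast, map_neg, map_mul, lmap_single, map_one, lmap_ld, ← h2] at h3
  obtain ⟨u, hu⟩ := hB
  have h4 := congrArg (fun x => ((u⁻¹ : Bˣ) : B) • x) h3
  simp only [smul_smul] at h4
  rw [← hu, Units.inv_mul, one_smul, one_smul] at h4
  exact h4

end

section

variable {A : Type} [CommRing A] [IsDomain A]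

/-- Divisibility of series. -/
theorem exists_smul_of_dvd {r : A} (hr : r ≠ 0) {z : LaurentSeries A}
    (h : ∀ m, r ∣ z.coeff m) : ∃ w : LaurentSeries A, z = r • w := by
  choose c hc using h
  refine ⟨⟨c, z.isPWO_support'.mono fun m hm => ?_⟩, ?_⟩
  · rw [Function.mem_support] at hm ⊢
    rw [hc]
    exact mul_ne_zero hr hm
  · ext m
    exact hc m

end

section

variable {k : Type} [Field k]

theorem dz_mul_ld_zz (hPSI : Stmt_PSI) {d : ℕ} (hd : 0 < d) (hdk : (d : k) ≠ 0)
    (h : LaurentSeries k) : dz k d 1 h * ld (zz k d) = ld h := by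
  have h1 := (hPSI (A := k) d hd (IsUnit.mk0 _ hdk)).1 h
  have h2 : ld (zz k d) = (d : k) • HahnSeries.single (-((d : ℤ) + 1)) (-1 : k) := by
    ext m
    rw [ld_coeff, zz, HahnSeries.coeff_smul, smul_eq_mul]
    by_cases hm : m = -((d : ℤ) + 1)
    · subst hm
      have h3 : -((d : ℤ) + 1) + 1 = -(d : ℤ) := by ring
      rw [h3, HahnSeries.coeff_single_same, HahnSeries.coeff_single_same]
      push_cast
      ring
    · rw [HahnSeries.coeff_single_of_ne hm, HahnSeries.coeff_single_of_ne (by omega), mul_zero,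
        mul_zero]
  rw [h2, mul_smul_comm, ← smul_mul_assoc, h1, neg_mul, mul_comm _ (ld h), mul_assoc,
    HahnSeries.single_mul_single]
  have h3 : (d : ℤ) + 1 + -((d : ℤ) + 1) = 0 := by ring
  rw [h3, one_mul]
  have h4 : (HahnSeries.single (0 : ℤ) (-1 : k) : LaurentSeries k) = -1 := by
    ext m
    rw [HahnSeries.coeff_neg, HahnSeries.coeff_single, HahnSeries.coeff_one]
    split_ifs <;> simp
  rw [h4, mul_neg, mul_one, neg_neg]

/-- The first order part of the family. -/
theorem fst_of (hPSI : Stmt_PSI) {d b : ℕ} (hd : 0 < d) (hdk : (d : k) ≠ 0)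
    {Rb : Subalgebra k (LaurentSeries k)} {β α : Fin b → k} {a : (PowerSeries k)[X]}
    {P : Subalgebra (PowerSeries k) (LaurentSeries (PowerSeries k))}
    (ha : ∀ i, (PowerSeries.X : PowerSeries k) ^ d ∣ a.coeff i)
    (hev : ∀ l, a.eval (bpt d β α l) = -(PowerSeries.X ^ d * PowerSeries.C (α l)))
    (hbc : bc1 (tmk k (d + 1)) P = psiR d (zpol _ d (a.map (tmk k (d + 1))))
      (bc1 (algebraMap k (Tr k (d + 1))) Rb)) :
    ∃ a₀ : k[X], (∀ l, a₀.eval (β l) = α l) ∧ Fst d Rb P a₀ := by
  classical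
  obtain ⟨a', ha'⟩ := (C_dvd_iff_dvd_coeff _ _).2 ha
  have hX : (PowerSeries.X : PowerSeries k) ^ d ≠ 0 := pow_ne_zero _ PowerSeries.X_ne_zero
  set a₁ : k[X] := a'.map (PowerSeries.constantCoeff (R := k)) with ha₁
  refine ⟨-a₁, fun l => ?_, fun h hh => ?_⟩
  · have h1 : a'.eval (bpt d β α l) = -PowerSeries.C (α l) := by
      have h2 := hev l
      rw [ha', eval_mul, eval_C, ← mul_neg] at h2
      exact mul_left_cancel₀ hX h2
    have h2 : PowerSeries.constantCoeff (bpt d β α l) = β l := by
      rw [bpt, map_add, PowerSeries.constantCoeff_C, map_mul, map_pow,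
        PowerSeries.constantCoeff_X, zero_pow hd.ne', zero_mul, add_zero]
    have h3 : a₁.eval (β l) = -α l := by
      rw [ha₁, ← h2, eval_map, eval₂_at_apply, h1, map_neg, PowerSeries.constantCoeff_C]
    rw [eval_neg, h3, neg_neg]
  · refine ⟨zpol k d (-a₁) * dz k d 1 h, ?_⟩
    have hdP : IsUnit (d : PowerSeries k) := by
      have := (IsUnit.mk0 _ hdk).map (PowerSeries.C (R := k))
      rwa [map_natCast] at this
    have hdT : IsUnit (d : Tr k (d + 1)) := by
      have := hdP.map (tmk k (d + 1))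
      rwa [map_natCast] at this
    -- the lift
    have ht : psi d (zpol _ d (a.map (tmk k (d + 1)))) (lmap (algebraMap k (Tr k (d + 1))) h) ∈
        bc1 (tmk k (d + 1)) P := by
      rw [hbc]
      exact Algebra.subset_adjoin ⟨_, Algebra.subset_adjoin ⟨h, hh, rfl⟩, rfl⟩
    obtain ⟨p, hp, hp'⟩ := exists_lift_bc Ideal.Quotient.mk_surjective ht
    have hlift : lmap (algebraMap k (Tr k (d + 1))) h =
        lmap (tmk k (d + 1)) (lmap (PowerSeries.C (R := k)) h) := by
      ext m
      rfl
    have hTX : tmk k (d + 1) (PowerSeries.X ^ (d + 1)) = 0 :=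
      Ideal.Quotient.eq_zero_iff_mem.2 (Ideal.mem_span_singleton_self _)
    have hsq : zpol (Tr k (d + 1)) d (a.map (tmk k (d + 1))) *
        zpol (Tr k (d + 1)) d (a.map (tmk k (d + 1))) = 0 := by
      rw [← map_mul, ha', Polynomial.map_mul, map_C]
      have h1 : (C (tmk k (d + 1) (PowerSeries.X ^ d)) * a'.map (tmk k (d + 1))) *
          (C (tmk k (d + 1) (PowerSeries.X ^ d)) * a'.map (tmk k (d + 1))) =
          C (tmk k (d + 1) (PowerSeries.X ^ (d + 1))) *
            (C (tmk k (d + 1) (PowerSeries.X ^ (d - 1))) *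
              (a'.map (tmk k (d + 1)) * a'.map (tmk k (d + 1)))) := by
        have h2 : C (tmk k (d + 1) (PowerSeries.X ^ d)) * C (tmk k (d + 1) (PowerSeries.X ^ d)) =
            C (tmk k (d + 1) (PowerSeries.X ^ (d + 1))) *
              C (tmk k (d + 1) (PowerSeries.X ^ (d - 1))) := by
          have h3 : d + d = (d + 1) + (d - 1) := by omega
          rw [← C_mul, ← C_mul, ← map_mul, ← map_mul, ← pow_add, ← pow_add, h3]
        calc (C (tmk k (d + 1) (PowerSeries.X ^ d)) * a'.map (tmk k (d + 1))) *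
            (C (tmk k (d + 1) (PowerSeries.X ^ d)) * a'.map (tmk k (d + 1))) =
            (C (tmk k (d + 1) (PowerSeries.X ^ d)) * C (tmk k (d + 1) (PowerSeries.X ^ d))) *
              (a'.map (tmk k (d + 1)) * a'.map (tmk k (d + 1))) := by ring
          _ = _ := by rw [h2, mul_assoc]
      rw [h1, hTX, C_0, zero_mul, map_zero]
    have hpsi := (hPSI (A := Tr k (d + 1)) d hd hdT).2.2.2.2
      (zpol (Tr k (d + 1)) d (a.map (tmk k (d + 1)))) ⟨2, by rw [pow_two, hsq]⟩
    have hpsi2 := hpsi.2.2.2.2.2.2.2 hsq (lmap (algebraMap k (Tr k (d + 1))) h)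
    rw [hpsi2, hlift, ← lmap_dz hPSI hd hdP, ← lmap_zpol, ← map_mul, ← map_add] at hp'
    -- the difference
    obtain ⟨a'', ha''⟩ : C PowerSeries.X ∣ a' - a₁.map (PowerSeries.C (R := k)) := by
      rw [C_dvd_iff_dvd_coeff]
      intro i
      rw [PowerSeries.X_dvd_iff, coeff_sub, coeff_map, ha₁, coeff_map, map_sub,
        PowerSeries.constantCoeff_C, sub_self]
    have hcomb : a + C (PowerSeries.X ^ d) * (-a₁).map (PowerSeries.C (R := k)) =
        C (PowerSeries.X ^ (d + 1)) * a'' := by
      rw [ha', ← mul_add, Polynomial.map_neg, ← sub_eq_add_neg, ha'', ← mul_assoc, ← C_mul,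
        ← pow_succ]
    set z : LaurentSeries (PowerSeries k) := p - (lmap (PowerSeries.C (R := k)) h -
      (PowerSeries.X : PowerSeries k) ^ d • lmap (PowerSeries.C (R := k))
        (zpol k d (-a₁) * dz k d 1 h)) with hz
    have hzT : lmap (tmk k (d + 1)) z = 0 := by
      have h1 : lmap (PowerSeries.C (R := k)) h + zpol (PowerSeries k) d a *
          dz (PowerSeries k) d 1 (lmap (PowerSeries.C (R := k)) h) -
          (lmap (PowerSeries.C (R := k)) h - (PowerSeries.X : PowerSeries k) ^ d •
            lmap (PowerSeries.C (R := k)) (zpol k d (-a₁) * dz k d 1 h)) =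
          zpol (PowerSeries k) d (C (PowerSeries.X ^ (d + 1)) * a'') *
            dz (PowerSeries k) d 1 (lmap (PowerSeries.C (R := k)) h) := by
        rw [← hcomb, map_add, map_mul (zpol (PowerSeries k) d), map_mul (lmap _), lmap_zpol,
          lmap_dz hPSI hd (IsUnit.mk0 _ hdk)]
        have h2 : zpol (PowerSeries k) d (C (PowerSeries.X ^ d)) =
            algebraMap (PowerSeries k) _ (PowerSeries.X ^ d) := by
          rw [zpol, aeval_C]
        rw [h2, Algebra.smul_def]
        ring
      rw [hz, map_sub, hp', ← map_sub, h1, map_mul (lmap _), lmap_zpol, Polynomial.map_mul,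
        map_C, hTX, C_0, zero_mul, map_zero, zero_mul]
    obtain ⟨w, hw⟩ := exists_smul_of_dvd (r := (PowerSeries.X : PowerSeries k) ^ (d + 1))
      (pow_ne_zero _ PowerSeries.X_ne_zero) (z := z) (fun m => by
        rw [← Ideal.mem_span_singleton, ← Ideal.Quotient.eq_zero_iff_mem]
        have h1 := congrArg (fun x => x.coeff m) hzT
        exact h1)
    refine ⟨w, ?_, ?_⟩
    · rw [mul_assoc, dz_mul_ld_zz hPSI hd hdk]
    · rw [← hw, hz]
      have h1 : lmap (PowerSeries.C (R := k)) h - (PowerSeries.X : PowerSeries k) ^ d •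
          lmap (PowerSeries.C (R := k)) (zpol k d (-a₁) * dz k d 1 h) +
          (p - (lmap (PowerSeries.C (R := k)) h - (PowerSeries.X : PowerSeries k) ^ d •
            lmap (PowerSeries.C (R := k)) (zpol k d (-a₁) * dz k d 1 h))) = p := by
        abel
      rw [h1]
      exact hp

end

end Pool.Agent.MG.G0.ZFM

namespace Pool.Agent.MG.G0

open ZFM ZL

/-- The family exists. -/
theorem t_ZFM (hKBC : Stmt_KBC) (hBGA : Stmt_BGA) (hBGL : Stmt_BGL) (hPSI : Stmt_PSI)
    (hZBT : Stmt_ZBT) (hZBO : Stmt_ZBO) (hZBE : Stmt_ZBE) : Stmt_ZFM := by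
  classical
  intro k _ g d b Rb β α hd hdk hR hz hβ hDisc
  have hd0 : 0 < d := hd
  have hdk' : (d : k) ≠ 0 := by
    intro h
    apply hdk
    push_cast
    rw [h, mul_zero]
  obtain ⟨Γ, hΓ, hGS, -⟩ := hBGL.2.1 Rb hR
  obtain ⟨a, P, ha, hev, hzP, hGSP, hbcP, hredP, hDiscP⟩ :=
    hZBT hd0 hdk Rb hR hz β α hβ hDisc
  have hKrP : Kr g P := by
    have h1 := (hBGA.1 Γ P (hGSP Γ hGS)).1
    rwa [hΓ] at h1
  obtain ⟨a₀, ha₀, hFst⟩ := fst_of hPSI hd0 hdk' ha hev (hbcP (d + 1))
  have hDiscΩ := hZBO hd0 hdk β α hβ P hKrP hzP hDiscP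
  -- the field `k(t)`
  let F : IntermediateField k (LaurentSeries k) :=
    IntermediateField.adjoin k {HahnSeries.single (1 : ℤ) (1 : k)}
  have hmem : (HahnSeries.single (1 : ℤ) (1 : k) : LaurentSeries k) ∈ F :=
    IntermediateField.mem_adjoin_simple_self k _
  let t : F := ⟨HahnSeries.single (1 : ℤ) (1 : k), hmem⟩
  let r : Fin b → F := fun l => algebraMap k F (β l) + t ^ d * algebraMap k F (α l)
  have hr : ∀ l, algebraMap F (LaurentSeries k) (r l) =
      HahnSeries.ofPowerSeries ℤ k (bpt d β α l) := by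
    intro l
    show algebraMap F (LaurentSeries k) (algebraMap k F (β l) + t ^ d * algebraMap k F (α l)) = _
    rw [map_add, map_mul, map_pow, bpt, map_add, map_mul (HahnSeries.ofPowerSeries ℤ k),
      map_pow, HahnSeries.ofPowerSeries_C, HahnSeries.ofPowerSeries_C,
      HahnSeries.ofPowerSeries_X]
    rfl
  have hrinj : Function.Injective r := by
    intro l m hlm
    apply hβ
    have h1 : bpt d β α l = bpt d β α m := by
      apply HahnSeries.ofPowerSeries_injective (Γ := ℤ)
      rw [← hr, ← hr, hlm]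
    have h2 := congrArg (PowerSeries.constantCoeff (R := k)) h1
    simp only [bpt, map_add, map_mul, map_pow, PowerSeries.constantCoeff_C,
      PowerSeries.constantCoeff_X, zero_pow hd0.ne', zero_mul, add_zero] at h2
    exact h2
  have : NeZero d := ⟨hd0.ne'⟩
  have hKrΩ : Kr g (bc1 (psl k) P) := kr_bc hKBC hKrP (psl k)
  have hzΩ : zz (LaurentSeries k) d ∈ bc1 (psl k) P := zz_mem_bc hzP (psl k)
  have hDiscΩ' : Disc d (bc1 (psl k) P)
      (∏ l, (X - C (algebraMap F (LaurentSeries k) (r l)))) := by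
    simp only [hr]
    exact hDiscΩ
  have hdF : ((2 * d : ℕ) : F) ≠ 0 := by
    intro h
    apply hdk
    apply (algebraMap k F).injective
    rw [map_natCast, h, map_zero]
  obtain ⟨L, S, hfin, hsep, hKrS, hzS, hbcS, hDiscS, hmini⟩ :=
    hZBE hd0 hdF (bc1 (psl k) P) hKrΩ hzΩ r hrinj hDiscΩ'
  refine ⟨{
    F := F
    L := L
    t := t
    R := S
    ψ := L.val.restrictScalars k
    RI := P
    tr := ?_
    gen := ?_
    fin := hfin
    sep := hsep
    ψt := rfl
    kr := hKrS
    z := hzS
    disc := ?_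
    krI := hKrP
    redI := hredP
    bcI := hbcS
    first := ⟨a₀, ha₀, hFst⟩
    mini := hmini }⟩
  · have h1 := transcendental_single (k := k)
    rw [transcendental_iff] at h1 ⊢
    intro p hp
    apply h1 p
    have h2 : (aeval (HahnSeries.single (1 : ℤ) (1 : k) : LaurentSeries k) p) =
        algebraMap F (LaurentSeries k) (aeval t p) := by
      rw [← aeval_algebraMap_apply]
      rfl
    rw [h2, hp, map_zero]
  · apply IntermediateField.lift_injective F
    rw [IntermediateField.lift_adjoin_simple, IntermediateField.lift_top]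
  · have h1 : ft d β α (algebraMap F L t) = ∏ l, (X - C (algebraMap F L (r l))) := by
      rw [ft]
      refine Finset.prod_congr rfl fun l _ => ?_
      have h2 : algebraMap F L (r l) = algebraMap k L (β l) +
          (algebraMap F L t) ^ d * algebraMap k L (α l) := by
        show algebraMap F L (algebraMap k F (β l) + t ^ d * algebraMap k F (α l)) = _
        rw [map_add, map_mul, map_pow]
        rfl
      rw [h2]
    rw [h1]
    exact hDiscS

end Pool.Agent.MG.G0
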