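import Pool.Agent.MG.G0.StmtsZH

/-!
# ZFV: the vanishing theorem
-/

open Polynomial

namespace Pool.Agent.MG.G0

namespace ZFV

section

variable {k L : Type} [Field k] [Field L] [Algebra k L] {g d : ℕ}
  {R : Subalgebra L (LaurentSeries L)}

theorem int_add (v : Plc k L g d R) {r : ℕ}
    {S S' : MultilinearMap L (fun _ : Fin r => EE1 R) L} (h : v.Int S) (h' : v.Int S') :
    v.Int (S + S') := by
  intro ω η hη
  obtain ⟨x, hx⟩ := h ω η hη
  obtain ⟨x', hx'⟩ := h' ω η hη
  refine ⟨x + x', ?_⟩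
  rw [map_add, hx, hx']
  rfl

theorem int_zero (v : Plc k L g d R) {r : ℕ} :
    v.Int (0 : MultilinearMap L (fun _ : Fin r => EE1 R) L) := by
  intro ω η _
  exact ⟨0, by rw [map_zero]; rfl⟩

theorem int_smul (v : Plc k L g d R) {r : ℕ} (a : k)
    {S : MultilinearMap L (fun _ : Fin r => EE1 R) L} (h : v.Int S) : v.Int (a • S) := by
  intro ω η hη
  obtain ⟨x, hx⟩ := h ω η hη
  refine ⟨algebraMap k v.O a * x, ?_⟩
  rw [map_mul, hx, ← IsScalarTower.algebraMap_apply k v.O L, ← Algebra.smul_def]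
  rfl

theorem smul_eq {r : ℕ} (a : k) (S : MultilinearMap L (fun _ : Fin r => EE1 R) L) :
    a • S = algebraMap k L a • S := by
  refine MultilinearMap.ext fun m => ?_
  change a • S m = algebraMap k L a * S m
  exact Algebra.smul_def _ _

/-- The forms which are integral at the places in `T`. -/
def HH (T : Plc k L g d R → Prop) (r : ℕ) :
    Submodule k (MultilinearMap L (fun _ : Fin r => EE1 R) L) where
  carrier := {S | ∀ v, T v → v.Int S}
  add_mem' h h' v hv := int_add v (h v hv) (h' v hv)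
  zero_mem' v _ := int_zero v
  smul_mem' a _ h v hv := int_smul v a (h v hv)

theorem int_zero_pow (v : Plc k L g d R) {r : ℕ}
    {S : MultilinearMap L (fun _ : Fin r => EE1 R) L} (h : v.Int S) : v.IntN 0 S := by
  intro ω η hη
  obtain ⟨x, hx⟩ := h ω η hη
  exact ⟨x, by rw [pow_zero, one_mul, hx]⟩

end

end ZFV

open ZFV in
/-- **ZFV** -/
theorem t_ZFV (hZFF : Stmt_ZFF) (hZFC : Stmt_ZFC) (hZSL : Stmt_ZSL) (hZFD : Stmt_ZFD) :
    Stmt_ZFV := by
  intro k F L _ _ _ _ _ _ _ _ t ht hgen hfin hsep p hp hchar g d R T cs hcs hg hKr hE hOrd v₀ hv₀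
    hSsp hinf r hr S hS
  have hcL : CharP L p := charP_of_injective_algebraMap (algebraMap k L).injective p
  obtain ⟨Fr, hF1, hFadd, hFsm, hFinj⟩ := hZFF p hp hcL hKr r
  obtain ⟨V, hVfin, hV⟩ := (hZFD t ht hgen hfin hsep T cs hcs hg hKr hE).1 r
  have hHV : HH T r ≤ V := fun S hS => hV S hS
  have hHfin : FiniteDimensional k (HH T r) := Submodule.finiteDimensional_of_le hHV
  have hsur := hZSL p hp hchar (HH T r) hHfin Fr hFadd (fun a x => by
      rw [smul_eq a x, hFsm, ← map_pow, ← smul_eq])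
    (fun x hx v hv => (hZFC p hp hchar v hg Fr hF1).1 x (hx v hv))
    (fun x _ hx0 => hFinj hOrd x hx0)
  have key : ∀ n : ℕ, ∀ x ∈ HH T r, v₀.IntN n x := by
    intro n
    induction n with
    | zero => exact fun x hx => int_zero_pow v₀ (hx v₀ hv₀)
    | succ n ih =>
      intro x hx
      obtain ⟨y, hy, rfl⟩ := hsur x hx
      exact (hZFC p hp hchar v₀ hg Fr hF1).2.1 hr hSsp n y (ih y hy)
  exact (hZFC p hp hchar v₀ hg Fr hF1).2.2 hinf S (fun n => key n S hS)

end Pool.Agent.MG.G0
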