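import Pool.Agent.MG.G0.StmtsZH

set_option autoImplicit false

/-!
# ZGR: ranks of a matrix at simple and double roots of its determinant
-/

open Polynomial

namespace Pool.Agent.MG.G0

namespace ZGR

theorem rank_lt {κ : Type} [Field κ] {d : ℕ} (M : Matrix (Fin d) (Fin d) κ) (h : M.det = 0) :
    M.rank < d := by
  obtain ⟨v, hv, hMv⟩ := Matrix.exists_mulVec_eq_zero_iff.2 h
  have h1 : Module.finrank κ (LinearMap.range M.mulVecLin) +
      Module.finrank κ (LinearMap.ker M.mulVecLin) = d := by
    rw [LinearMap.finrank_range_add_finrank_ker]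
    simp
  have h2 : 0 < Module.finrank κ (LinearMap.ker M.mulVecLin) := by
    rw [Module.finrank_pos_iff, Submodule.nontrivial_iff_ne_bot, Submodule.ne_bot_iff]
    exact ⟨v, by rw [LinearMap.mem_ker, Matrix.mulVecLin_apply, hMv], hv⟩
  rw [Matrix.rank]
  omega

theorem det_eval {κ : Type} [Field κ] {d : ℕ} (G : Matrix (Fin d) (Fin d) κ[X]) (c : κ) :
    (G.map (eval c)).det = G.det.eval c := by
  have h := RingHom.map_det (evalRingHom c) G
  rw [coe_evalRingHom] at h
  rw [h]
  rfl

end ZGR

/-- ZGR: ranks of a matrix at simple and double roots of its determinant. -/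
theorem t_ZGR (hZLA : Stmt_ZLA) : Stmt_ZGR := by
  intro κ _ d G u f hd hu hG
  have hdvd : ∀ c, (X - C c) ^ (d - (G.map (eval c)).rank) ∣ f := by
    intro c
    have h1 := hZLA.1 G c
    rw [hG] at h1
    exact (hu.dvd_mul_left).1 h1
  refine ⟨fun c hc => ?_, fun c h hf hh => ?_⟩
  · by_contra hlt
    exact hc ((pow_dvd_pow _ (by omega)).trans (hdvd c))
  · have h1 : (G.map (eval c)).rank < d := by
      apply ZGR.rank_lt
      rw [ZGR.det_eval, hG, hf]
      simp
    have h2 : d - (G.map (eval c)).rank ≤ 2 := by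
      by_contra hlt
      have h3 : (X - C c) ^ 3 ∣ f := (pow_dvd_pow _ (by omega)).trans (hdvd c)
      rw [hf, pow_succ] at h3
      have h4 : (X - C c) ∣ h :=
        (mul_dvd_mul_iff_left (pow_ne_zero 2 (X_sub_C_ne_zero c))).1 h3
      exact hh (dvd_iff_isRoot.1 h4)
    omega

end Pool.Agent.MG.G0
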