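import Pool.Agent.MG.G0.StmtsZH

/-!
# ZLA: the corank of a matrix at a point is at most the order of the determinant
-/

open Polynomial

namespace Pool.Agent.MG.G0

namespace ZLA

variable {K : Type} [Field K] {n : ℕ}

/-- An invertible matrix, some of whose columns span the kernel of `M`. -/
theorem exists_adapted (M : Matrix (Fin n) (Fin n) K) :
    ∃ (U : Matrix (Fin n) (Fin n) K) (S : Finset (Fin n)), IsUnit U.det ∧
      S.card = n - M.rank ∧ ∀ j ∈ S, M.mulVec (fun i => U i j) = 0 := by
  classical
  have hrk : M.rank + Module.finrank K (LinearMap.ker M.mulVecLin) = n := by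
    have h := LinearMap.finrank_range_add_finrank_ker M.mulVecLin
    rw [Module.finrank_fin_fun] at h
    exact h
  set k := LinearMap.ker M.mulVecLin
  obtain ⟨W, hW⟩ := Submodule.exists_isCompl k
  let bk := Module.finBasis K k
  let bW := Module.finBasis K W
  let b0 := (bk.prod bW).map (Submodule.prodEquivOfIsCompl k W hW)
  have hcard : Fintype.card (Fin (Module.finrank K k) ⊕ Fin (Module.finrank K W)) =
      Fintype.card (Fin n) := by
    rw [← Module.finrank_eq_card_basis b0, Module.finrank_fin_fun, Fintype.card_fin]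
  let e := Fintype.equivOfCardEq hcard
  let b := b0.reindex e
  refine ⟨(Pi.basisFun K (Fin n)).toMatrix b,
    Finset.univ.map ((⟨Sum.inl, Sum.inl_injective⟩ : Fin (Module.finrank K k) ↪
      Fin (Module.finrank K k) ⊕ Fin (Module.finrank K W)).trans e.toEmbedding), ?_, ?_, ?_⟩
  · have h := (Pi.basisFun K (Fin n)).toMatrix_mul_toMatrix_flip b
    have h2 := congrArg Matrix.det h
    rw [Matrix.det_mul, Matrix.det_one] at h2
    exact IsUnit.of_mul_eq_one _ h2
  · rw [Finset.card_map, Finset.card_univ, Fintype.card_fin]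
    omega
  · intro j hj
    rw [Finset.mem_map] at hj
    obtain ⟨l, -, rfl⟩ := hj
    have h1 : (fun i => (Pi.basisFun K (Fin n)).toMatrix b i
        ((⟨Sum.inl, Sum.inl_injective⟩ : Fin (Module.finrank K k) ↪
          Fin (Module.finrank K k) ⊕ Fin (Module.finrank K W)).trans e.toEmbedding l)) =
        (bk l : Fin n → K) := by
      funext i
      rw [Module.Basis.toMatrix_apply, Pi.basisFun_repr]
      have h2 : b (((⟨Sum.inl, Sum.inl_injective⟩ : Fin (Module.finrank K k) ↪
          Fin (Module.finrank K k) ⊕ Fin (Module.finrank K W)).trans e.toEmbedding) l) =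
          (bk l : Fin n → K) := by
        change (b0.reindex e) (e (Sum.inl l)) = _
        rw [Module.Basis.reindex_apply, Equiv.symm_apply_apply]
        change Submodule.prodEquivOfIsCompl k W hW ((bk.prod bW) (Sum.inl l)) = _
        rw [Module.Basis.prod_apply]
        simp
      rw [h2]
    rw [h1]
    exact LinearMap.mem_ker.1 (bk l).2

theorem pow_dvd_det (M : Matrix (Fin n) (Fin n) K[X]) (c : K) :
    (X - C c) ^ (n - (M.map (eval c)).rank) ∣ M.det := by
  classical
  obtain ⟨U, S, hU, hS, hker⟩ := exists_adapted (M.map (eval c))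
  have hdiv : ∀ i, ∀ j ∈ S, (X - C c) ∣ (M * U.map C) i j := by
    intro i j hj
    rw [Polynomial.dvd_iff_isRoot, Polynomial.IsRoot.def, Matrix.mul_apply,
      Polynomial.eval_finsetSum]
    have h1 := congrFun (hker j hj) i
    rw [Matrix.mulVec, dotProduct, Pi.zero_apply] at h1
    rw [← h1]
    refine Finset.sum_congr rfl fun k _ => ?_
    rw [Polynomial.eval_mul, Matrix.map_apply, Matrix.map_apply, Polynomial.eval_C]
  have hN : ∀ i j, ∃ p : K[X], (M * U.map C) i j = (if j ∈ S then X - C c else 1) * p := by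
    intro i j
    by_cases hj : j ∈ S
    · obtain ⟨p, hp⟩ := hdiv i j hj
      exact ⟨p, by rw [if_pos hj, hp]⟩
    · exact ⟨(M * U.map C) i j, by rw [if_neg hj, one_mul]⟩
  choose N hN using hN
  have h1 : M * U.map C = Matrix.of fun i j => (if j ∈ S then X - C c else (1 : K[X])) * N i j := by
    ext1 i j
    exact hN i j
  have h2 := congrArg Matrix.det h1
  rw [Matrix.det_mul_row (fun j => if j ∈ S then X - C c else (1 : K[X])) N, Matrix.det_mul,
    Finset.prod_ite_mem, Finset.univ_inter, Finset.prod_const, hS] at h2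
  have h3 : IsUnit (U.map C).det := by
    have h4 : (U.map C).det = C U.det := by
      rw [RingHom.map_det]
      rfl
    rw [h4]
    exact hU.map C
  have h5 : (X - C c) ^ (n - (M.map (eval c)).rank) ∣ M.det * (U.map C).det := ⟨_, h2⟩
  exact (IsUnit.dvd_mul_right h3).1 h5

end ZLA

theorem t_ZLA : Stmt_ZLA := by
  refine ⟨fun M c => ZLA.pow_dvd_det M c, ?_⟩
  intro K _ n M c hdet v w hv hw hv0
  have hrk : (M.map (eval c)).rank +
      Module.finrank K (LinearMap.ker (M.map (eval c)).mulVecLin) = n := by
    have h := LinearMap.finrank_range_add_finrank_ker (M.map (eval c)).mulVecLin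
    rw [Module.finrank_fin_fun] at h
    exact h
  have h1 : n - (M.map (eval c)).rank ≤ 1 := by
    by_contra h
    exact hdet ((pow_dvd_pow _ (by omega)).trans (ZLA.pow_dvd_det M c))
  have hv' : v ∈ LinearMap.ker (M.map (eval c)).mulVecLin := by
    rw [LinearMap.mem_ker, Matrix.mulVecLin_apply, hv]
  have hw' : w ∈ LinearMap.ker (M.map (eval c)).mulVecLin := by
    rw [LinearMap.mem_ker, Matrix.mulVecLin_apply, hw]
  have hne : (⟨v, hv'⟩ : LinearMap.ker (M.map (eval c)).mulVecLin) ≠ 0 := fun h =>
    hv0 (congrArg Subtype.val h)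
  have hfin : Module.finrank K (LinearMap.ker (M.map (eval c)).mulVecLin) = 1 := by
    have h2 : 0 < Module.finrank K (LinearMap.ker (M.map (eval c)).mulVecLin) := by
      have : Nontrivial (LinearMap.ker (M.map (eval c)).mulVecLin) := ⟨⟨_, _, hne⟩⟩
      exact Module.finrank_pos
    omega
  obtain ⟨a, ha⟩ := exists_smul_eq_of_finrank_eq_one hfin hne ⟨w, hw'⟩
  exact ⟨a, (congrArg Subtype.val ha).symm⟩

end Pool.Agent.MG.G0
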