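import Pool.Agent.MG.G0.StmtsZH

/-!
# ZOB: the discrete valuation ring given by an embedding in `k((t))` (PAPER_Z.md)
-/

open Polynomial

namespace Pool.Agent.MG.G0

namespace ZOBx

section

variable {k L : Type} [Field k] [Field L] [Algebra k L]

theorem psl_coeff (f : PowerSeries k) (n : ℕ) :
    (psl k f).coeff (n : ℤ) = PowerSeries.coeff n f := HahnSeries.ofPowerSeries_apply_coeff f n

theorem psl_Po (f : PowerSeries k) : psl k f ∈ Po k 0 := by
  intro m hm
  refine HahnSeries.embDomain_of_notMem_range ?_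
  rintro ⟨n, hn⟩
  have : (n : ℤ) = m := hn
  omega

theorem psl_inj : Function.Injective (psl k) := HahnSeries.ofPowerSeries_injective

theorem exists_psl {f : LaurentSeries k} (h : f ∈ Po k 0) : ∃ a : PowerSeries k, psl k a = f := by
  refine ⟨PowerSeries.mk fun n => f.coeff (n : ℤ), ?_⟩
  ext m
  rcases lt_or_ge m 0 with hm | hm
  · rw [psl_Po _ m (by omega), h m (by omega)]
  · obtain ⟨n, rfl⟩ := Int.eq_ofNat_of_zero_le hm
    rw [psl_coeff, PowerSeries.coeff_mk]

/-- the elements of `L` whose series is a power series -/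
noncomputable def OO (ψ : L →ₐ[k] LaurentSeries k) : Subalgebra k L where
  carrier := {y | ψ y ∈ Po k 0}
  mul_mem' := by
    intro a b ha hb m hm
    rw [map_mul]
    exact mul_low (a := 0) (b := 0) (fun m hm => ha m (by omega)) (fun m hm => hb m (by omega)) m
      (by omega)
  add_mem' := by
    intro a b ha hb
    change ψ (a + b) ∈ Po k 0
    rw [map_add]
    exact add_mem ha hb
  algebraMap_mem' := by
    intro a
    change ψ (algebraMap k L a) ∈ Po k 0
    rw [AlgHom.commutes]
    intro m hm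
    rw [coeff_algebraMap, if_neg (by omega)]

theorem mem_OO {ψ : L →ₐ[k] LaurentSeries k} {y : L} : y ∈ OO ψ ↔ ψ y ∈ Po k 0 := Iff.rfl

theorem exists_j (ψ : L →ₐ[k] LaurentSeries k) :
    ∃ j : OO ψ →ₐ[k] PowerSeries k, ∀ y : OO ψ, psl k (j y) = ψ (y : L) := by
  have h : ∀ y : OO ψ, ∃ a : PowerSeries k, psl k a = ψ (y : L) := fun y => exists_psl y.2
  choose j hj using h
  have hC : ∀ a : k, psl k (algebraMap k (PowerSeries k) a) = algebraMap k (LaurentSeries k) a :=
    fun a => HahnSeries.ofPowerSeries_C a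
  exact ⟨
    { toFun := j
      map_one' := psl_inj (by rw [hj, map_one, OneMemClass.coe_one, map_one])
      map_mul' := fun a b => psl_inj (by
        rw [hj, map_mul, MulMemClass.coe_mul, map_mul, hj, hj])
      map_zero' := psl_inj (by rw [hj, map_zero, ZeroMemClass.coe_zero, map_zero])
      map_add' := fun a b => psl_inj (by
        rw [hj, map_add, AddMemClass.coe_add, map_add, hj, hj])
      commutes' := fun a => psl_inj (by
        rw [hj, hC]
        exact ψ.commutes a) }, hj⟩

end

end ZOBx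

open ZOBx in
theorem t_ZOB : Stmt_ZOB := by
  intro k L _ _ _ ψ t ht
  obtain ⟨j, hj⟩ := exists_j ψ
  have hψ : Function.Injective ψ := ψ.toRingHom.injective
  have hs : psl k PowerSeries.X = HahnSeries.single 1 1 := HahnSeries.ofPowerSeries_X
  have htO : t ∈ OO ψ := by
    rw [mem_OO, ht, ← hs]
    exact psl_Po _
  set x : OO ψ := ⟨t, htO⟩ with hx
  have hjx : j x = PowerSeries.X := psl_inj (by rw [hj, hs]; exact ht)
  have hjinj : Function.Injective j := by
    intro a b hab
    apply Subtype.ext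
    apply hψ
    rw [← hj, ← hj, hab]
  have ht0 : t ≠ 0 := by
    intro h
    rw [h, map_zero] at ht
    have h1 := congrArg (fun f => HahnSeries.coeff f (1 : ℤ)) ht
    simp at h1
  -- units
  have hunit : ∀ y : OO ψ, PowerSeries.constantCoeff (j y) ≠ 0 → IsUnit y := by
    intro y hy
    have hy0 : (y : L) ≠ 0 := by
      intro h
      have h1 : y = 0 := Subtype.ext h
      rw [h1, map_zero, map_zero] at hy
      exact hy rfl
    obtain ⟨w, hw⟩ := (PowerSeries.isUnit_iff_constantCoeff.2 (IsUnit.mk0 _ hy) :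
      IsUnit (j y)).exists_right_inv
    have h2 : ψ ((y : L)⁻¹) = psl k w := by
      have h3 : ψ (y : L) * psl k w = 1 := by
        rw [← hj, ← map_mul, hw, map_one]
      have h4 : ψ (y : L) * ψ ((y : L)⁻¹) = 1 := by
        rw [← map_mul, mul_inv_cancel₀ hy0, map_one]
      have h5 : ψ (y : L) ≠ 0 := fun h => one_ne_zero (α := LaurentSeries k) (by
        rw [← h4, h, zero_mul])
      exact mul_left_cancel₀ h5 (h4.trans h3.symm)
    have h6 : (y : L)⁻¹ ∈ OO ψ := by
      rw [mem_OO, h2]
      exact psl_Po _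
    refine IsUnit.of_mul_eq_one ⟨(y : L)⁻¹, h6⟩ (Subtype.ext ?_)
    rw [MulMemClass.coe_mul, OneMemClass.coe_one]
    exact mul_inv_cancel₀ hy0
  have hunit' : ∀ y : OO ψ, IsUnit y ↔ PowerSeries.constantCoeff (j y) ≠ 0 := by
    intro y
    refine ⟨fun h => ?_, hunit y⟩
    have h1 := h.map ((PowerSeries.constantCoeff (R := k)).comp (j : OO ψ →+* PowerSeries k))
    exact h1.ne_zero
  have hirr : Irreducible x := by
    rw [irreducible_iff]
    constructor
    · rw [hunit', hjx, PowerSeries.constantCoeff_X]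
      exact fun h => h rfl
    · intro a b hab
      have h1 : (PowerSeries.X : PowerSeries k) = j a * j b := by rw [← hjx, hab, map_mul]
      rcases (PowerSeries.X_irreducible (R := k)).isUnit_or_isUnit h1 with h | h
      · exact Or.inl (hunit a (PowerSeries.isUnit_iff_constantCoeff.1 h).ne_zero)
      · exact Or.inr (hunit b (PowerSeries.isUnit_iff_constantCoeff.1 h).ne_zero)
  have hfac : ∀ y : OO ψ, y ≠ 0 → ∃ n : ℕ, Associated (x ^ n) y := by
    intro y hy
    have hjy : j y ≠ 0 := fun h => hy (hjinj (by rw [h, map_zero]))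
    obtain ⟨n, u, hu⟩ := IsDiscreteValuationRing.eq_unit_mul_pow_irreducible hjy
      (PowerSeries.X_irreducible (R := k))
    have h1 : ψ ((y : L) * (t ^ n)⁻¹) = psl k (u : PowerSeries k) := by
      have h2 : ψ ((y : L) * (t ^ n)⁻¹) * ψ (t ^ n) = psl k (u : PowerSeries k) * ψ (t ^ n) := by
        rw [← map_mul, mul_assoc, inv_mul_cancel₀ (pow_ne_zero _ ht0), mul_one, ← hj, hu, map_mul,
          map_pow, map_pow, hs, ht]
      have h3 : ψ (t ^ n) ≠ 0 := fun h => pow_ne_zero n ht0 (hψ (by rw [h, map_zero]))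
      exact mul_right_cancel₀ h3 h2
    have h4 : (y : L) * (t ^ n)⁻¹ ∈ OO ψ := by
      rw [mem_OO, h1]
      exact psl_Po _
    have h5 : j ⟨(y : L) * (t ^ n)⁻¹, h4⟩ = u := psl_inj (by rw [hj]; exact h1)
    have h6 : IsUnit (⟨(y : L) * (t ^ n)⁻¹, h4⟩ : OO ψ) := by
      apply hunit
      rw [h5]
      exact (PowerSeries.isUnit_iff_constantCoeff.1 u.isUnit).ne_zero
    refine ⟨n, h6.unit, Subtype.ext ?_⟩
    rw [MulMemClass.coe_mul, SubmonoidClass.coe_pow, IsUnit.unit_spec]
    change t ^ n * ((y : L) * (t ^ n)⁻¹) = y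
    rw [mul_left_comm, mul_inv_cancel₀ (pow_ne_zero _ ht0), mul_one]
  have hdvr : IsDiscreteValuationRing (OO ψ) :=
    IsDiscreteValuationRing.ofHasUnitMulPowIrreducibleFactorization ⟨x, hirr, fun {y} hy => hfac y hy⟩
  have hfrac : IsFractionRing (OO ψ) L := by
    refine (isLocalization_iff (nonZeroDivisors (OO ψ)) L).2 ⟨?_, ?_, ?_⟩
    · intro y
      refine IsUnit.mk0 _ fun h => ?_
      have h1 : (y : OO ψ) = 0 := Subtype.ext h
      exact nonZeroDivisors.ne_zero y.2 h1
    · intro z
      obtain ⟨n, hn⟩ := exists_low (ψ z)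
      have h1 : z * t ^ n ∈ OO ψ := by
        rw [mem_OO, map_mul, map_pow, ht]
        intro m hm
        rw [HahnSeries.single_pow]
        refine mul_low (a := -(n : ℤ)) (b := (n : ℤ)) hn (fun i hi => ?_) m (by omega)
        rw [HahnSeries.coeff_single_of_ne]
        simp only [nsmul_eq_mul, mul_one]
        omega
      have h2 : x ^ n ∈ nonZeroDivisors (OO ψ) :=
        mem_nonZeroDivisors_of_ne_zero (pow_ne_zero _ hirr.ne_zero)
      refine ⟨(⟨z * t ^ n, h1⟩, ⟨x ^ n, h2⟩), ?_⟩
      change z * ((x ^ n : OO ψ) : L) = z * t ^ n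
      rw [SubmonoidClass.coe_pow]
    · intro a b hab
      refine ⟨1, ?_⟩
      rw [Subtype.ext hab]
  refine ⟨OO ψ, inferInstance, inferInstance, hdvr, inferInstance, inferInstance, inferInstance,
    hfrac, j, x, rfl, hirr, hj, fun y => ?_⟩
  rw [IsLocalRing.mem_maximalIdeal, mem_nonunits_iff, hunit', not_not]

end Pool.Agent.MG.G0
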