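import Pool.Agent.MG.G0.StmtsZH

/-!
# ZOD: descent of ordinarity along a field extension
-/

open Polynomial

namespace Pool.Agent.MG.G0

theorem ZOD.pow_mem_Pol0 {A : Type} [CommRing A] {o : KK Unit A} (h : o ∈ Pol Unit A 0)
    (n : ℕ) : o ^ n ∈ Pol Unit A 0 := by
  induction n with
  | zero =>
    rw [pow_zero]
    exact one_mem_Pol0
  | succ n ih =>
    rw [pow_succ]
    exact mul_mem_Pol0 ih h

theorem t_ZOD (hKFO : Stmt_KFO) (hKBC : Stmt_KBC) : Stmt_ZOD := by
  intro L Ω _ _ ψ p hp hch g R hR hO μ hμ hμ0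
  have : Fact p.Prime := ⟨hp⟩
  have : CharP Ω p := charP_of_injective_ringHom ψ.injective p
  have : CharP (KK Unit Ω) p :=
    charP_of_injective_ringHom (algebraMap Ω (KK Unit Ω)).injective p
  have hbc : bc ψ (uno R) = uno (bc1 ψ R) := bc_uno ψ R
  have hKr : IsKr g (uno R) := hR
  obtain ⟨⟨ω, hω⟩, hω2⟩ := hKFO hKr
  have hQ := hKBC.2.2.2 hKr ψ
  have hωQ := hQ.2.1 ω hω
  have hQ2 := (hKFO hQ.1).2 _ hωQ
  have hν : kmap ψ (fun _ => μ : KK Unit L) ∈ EE (bc ψ (uno R)) := by
    obtain ⟨c, hc, -⟩ := (hω2 ω hω).2 (fun _ => μ) (mem_EE_uno.2 hμ)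
    have hc' : (fun _ => μ : KK Unit L) = ∑ j, c j • ω j := hc
    rw [hc', map_sum]
    refine Submodule.sum_mem _ fun j _ => ?_
    rw [kmap_smul]
    exact Submodule.smul_mem _ _ (hQ2.1 j)
  have hf : ∀ j, ∃ f : KK Unit L, ∀ i, res (ω i * f) = if i = j then 1 else 0 := fun j =>
    hω.surj fun i => if i = j then 1 else 0
  choose f hf using hf
  have hres : ∀ (x : Ω) (F : KK Unit Ω), res (x • F) = x * res F := fun x F => by
    rw [map_smul, smul_eq_mul]
  have key : ∀ G : KK Unit Ω, res (kmap ψ (fun _ => μ : KK Unit L) * G ^ p) = 0 := by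
    intro G
    set x : Fin g → Ω := fun j => res (kmap ψ (ω j) * G) with hx
    have h1 : ∀ i, res (kmap ψ (ω i) * (G - ∑ j, x j • kmap ψ (f j))) = 0 := by
      intro i
      rw [mul_sub, Finset.mul_sum, map_sub, map_sum]
      have h2 : ∀ j, res (kmap ψ (ω i) * (x j • kmap ψ (f j))) =
          if i = j then x j else 0 := by
        intro j
        rw [mul_smul_comm, hres, ← map_mul (kmap ψ), res_kmap, hf]
        split_ifs
        · rw [map_one, mul_one]
        · rw [map_zero, mul_zero]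
      rw [Finset.sum_congr rfl fun j _ => h2 j, Finset.sum_ite_eq, if_pos (Finset.mem_univ i),
        sub_self]
    obtain ⟨q, hq, ho⟩ := (hωQ.ker _).1 h1
    have h3 : G = ∑ j, x j • kmap ψ (f j) + q + (G - ∑ j, x j • kmap ψ (f j) - q) := by ring
    have h4 : G ^ p = ∑ j, x j ^ p • kmap ψ (f j ^ p) + q ^ p +
        (G - ∑ j, x j • kmap ψ (f j) - q) ^ p := by
      conv_lhs => rw [h3]
      rw [add_pow_char, add_pow_char, sum_pow_char]
      congr 2
      refine Finset.sum_congr rfl fun j _ => ?_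
      rw [_root_.smul_pow, map_pow]
    rw [h4, mul_add, mul_add, map_add, map_add, Finset.mul_sum, map_sum]
    have h5 : ∀ j, res (kmap ψ (fun _ => μ : KK Unit L) * (x j ^ p • kmap ψ (f j ^ p))) = 0 := by
      intro j
      rw [mul_smul_comm, hres, ← map_mul (kmap ψ), res_kmap, res_unit]
      have h6 : (((fun _ => μ : KK Unit L) * f j ^ p) ()).coeff (-1) = 0 := hμ0 (f j ())
      rw [h6, map_zero, mul_zero]
    have h7 : res (kmap ψ (fun _ => μ : KK Unit L) * q ^ p) = 0 :=
      mem_Perp.1 (Submodule.mem_inf.1 hν).1 _ (Subalgebra.pow_mem _ hq p)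
    have h8 : res (kmap ψ (fun _ => μ : KK Unit L) *
        (G - ∑ j, x j • kmap ψ (f j) - q) ^ p) = 0 := by
      exact res_Pol0 (mul_mem_Pol0 (Submodule.mem_inf.1 hν).2 (ZOD.pow_mem_Pol0 ho p))
    rw [Finset.sum_congr rfl fun j _ => h5 j, Finset.sum_const_zero, h7, h8, add_zero, add_zero]
  have h9 : lmap ψ μ = 0 := by
    refine hO (lmap ψ μ) ?_ fun G => ?_
    · rw [hbc] at hν
      have h12 := (mem_EE_uno (R := bc1 ψ R) (η := kmap ψ (fun _ => μ : KK Unit L))).1 hν
      rw [kmap_apply] at h12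
      exact h12
    · have h10 := key (fun _ => G)
      rw [res_unit, Pi.mul_apply, Pi.pow_apply, kmap_apply] at h10
      exact h10
  ext m
  have h11 := congrArg (fun F : LaurentSeries Ω => F.coeff m) h9
  change ψ (μ.coeff m) = 0 at h11
  rw [HahnSeries.coeff_zero]
  exact (map_eq_zero ψ).1 h11

end Pool.Agent.MG.G0
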