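import Pool.Agent.MG.G0.StmtsZH

/-!
# ZOI (PAPER_Z): ordinarity of the family over `k((t))`
-/

open Polynomial

namespace Pool.Agent.MG.G0

namespace ZOI

section forms

variable {A B : Type} [CommRing A] [CommRing B]

theorem psl_low (f : PowerSeries A) : ∀ m < 0, (psl A f).coeff m = 0 := fun m hm => by
  rw [psl, PowerSeries.coeff_coe, if_pos hm]

theorem psl_coeff (f : PowerSeries A) (n : ℕ) :
    (psl A f).coeff (n : ℤ) = PowerSeries.coeff n f := by
  rw [psl, PowerSeries.coeff_coe, if_neg (by omega), Int.natAbs_natCast]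

theorem psl_injective : Function.Injective (psl A) := HahnSeries.ofPowerSeries_injective

theorem exists_psl {f : LaurentSeries A} (h : ∀ m < 0, f.coeff m = 0) :
    ∃ g : PowerSeries A, psl A g = f := by
  refine ⟨PowerSeries.mk fun n => f.coeff n, ?_⟩
  ext m
  by_cases hm : m < 0
  · rw [psl_low _ m hm, h m hm]
  · obtain ⟨n, rfl⟩ := Int.eq_ofNat_of_zero_le (not_lt.1 hm)
    rw [psl_coeff, PowerSeries.coeff_mk]

/-- The forms of a Krichever ring with one puncture, and those of its base changes. -/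
theorem forms (hKFO : Stmt_KFO) (hKBC : Stmt_KBC) {g : ℕ} {R : Subalgebra A (LaurentSeries A)}
    (h : Kr g R) : ∃ ω : Fin g → LaurentSeries A, (∀ j, ω j ∈ EE1 R) ∧
      ∀ {B : Type} [CommRing B] (φ : A →+* B), ∀ η ∈ EE1 (bc1 φ R),
        ∃! c : Fin g → B, η = ∑ j, c j • lmap φ (ω j) := by
  obtain ⟨⟨ω, hω⟩, h2⟩ := hKFO h
  refine ⟨fun j => ω j (), fun j => mem_EE_uno.1 ((h2 ω hω).1 j), ?_⟩
  intro B _ φ η hη
  obtain ⟨h3, h4, -⟩ := hKBC.2.2.2 h φ
  have h5 := h4 ω hω
  rw [bc_uno] at h3 h5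
  obtain ⟨c, hc, hu⟩ := ((hKFO h3).2 _ h5).2 (fun _ => η) (mem_EE_uno.2 hη)
  have key : ∀ c : Fin g → B, ((fun _ => η : KK Unit B) = ∑ j, c j • kmap φ (ω j)) ↔
      η = ∑ j, c j • lmap φ (ω j ()) := by
    intro c
    constructor
    · intro h
      have := congrFun h ()
      rw [Finset.sum_apply] at this
      exact this
    · intro h
      funext u
      rw [Finset.sum_apply]
      exact h
  refine ⟨c, (key c).1 hc, fun y hy => hu y ((key y).2 hy)⟩

theorem lmap_mem_EE1 (hKFO : Stmt_KFO) (hKBC : Stmt_KBC) {g : ℕ}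
    {R : Subalgebra A (LaurentSeries A)} (h : Kr g R) (φ : A →+* B) {η : LaurentSeries A}
    (hη : η ∈ EE1 R) : lmap φ η ∈ EE1 (bc1 φ R) := by
  obtain ⟨⟨ω, hω⟩, h2⟩ := hKFO h
  obtain ⟨c, hc, -⟩ := (h2 ω hω).2 (fun _ => η) (mem_EE_uno.2 hη)
  obtain ⟨h3, h4, -⟩ := hKBC.2.2.2 h φ
  have h5 := h4 ω hω
  rw [bc_uno] at h3 h5
  have h6 : (fun _ => lmap φ η : KK Unit B) = ∑ j, φ (c j) • kmap φ (ω j) := by
    have h7 : kmap φ (fun _ => η : KK Unit A) = ∑ j, φ (c j) • kmap φ (ω j) := by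
      rw [hc, map_sum]
      exact Finset.sum_congr rfl fun j _ => kmap_smul φ _ _
    exact h7
  have h8 : (fun _ => lmap φ η : KK Unit B) ∈ EE (uno (bc1 φ R)) := by
    rw [h6]
    exact Submodule.sum_mem _ fun j _ => Submodule.smul_mem _ _ (((hKFO h3).2 _ h5).1 j)
  exact (mem_EE_uno (η := fun _ => lmap φ η)).1 h8

theorem mul_mem_Po {m n : ℤ} {f g : LaurentSeries A} (hf : f ∈ Po A m) (hg : g ∈ Po A n) :
    f * g ∈ Po A (m + n) := fun k hk => mul_low hf hg k (by omega)

theorem res_Po0 {f : LaurentSeries A} (hf : f ∈ Po A 0) : f.coeff (-1) = 0 := hf (-1) (by norm_num)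

end forms

section field

variable {k : Type} [Field k]

/-- Scaling of a nonzero vector over `k((t))`. -/
theorem scale {g : ℕ} (c : Fin g → LaurentSeries k) (hc : c ≠ 0) :
    ∃ (s : LaurentSeries k) (x : Fin g → PowerSeries k), (∀ j, s * c j = psl k (x j)) ∧
      ∃ j, PowerSeries.constantCoeff (x j) ≠ 0 := by
  classical
  obtain ⟨j₁, hj₁⟩ : ∃ j, c j ≠ 0 := by
    by_contra h
    push Not at h
    exact hc (funext h)
  obtain ⟨j₀, hj₀, hmin⟩ := Finset.exists_min_image
    (Finset.univ.filter fun j => c j ≠ 0) (fun j => (c j).order)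
    ⟨j₁, Finset.mem_filter.2 ⟨Finset.mem_univ _, hj₁⟩⟩
  have hj₀' : c j₀ ≠ 0 := (Finset.mem_filter.1 hj₀).2
  set n : ℤ := (c j₀).order with hn
  have hlow : ∀ j, ∀ m < n, (c j).coeff m = 0 := by
    intro j m hm
    by_cases hj : c j = 0
    · rw [hj, HahnSeries.coeff_zero]
    · exact HahnSeries.coeff_eq_zero_of_lt_order
        (lt_of_lt_of_le hm (hmin j (Finset.mem_filter.2 ⟨Finset.mem_univ _, hj⟩)))
  have hco : ∀ j m, (HahnSeries.single (-n) (1 : k) * c j).coeff m = (c j).coeff (m + n) := by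
    intro j m
    have h : m = (m + n) + -n := by ring
    rw [mul_comm]
    nth_rewrite 1 [h]
    rw [HahnSeries.coeff_mul_single_add, mul_one]
  have hx : ∀ j, ∃ x : PowerSeries k, psl k x = HahnSeries.single (-n) (1 : k) * c j := by
    intro j
    refine exists_psl fun m hm => ?_
    rw [hco]
    exact hlow j _ (by omega)
  choose x hx using hx
  refine ⟨HahnSeries.single (-n) 1, x, fun j => (hx j).symm, j₀, ?_⟩
  have h1 := psl_coeff (x j₀) 0
  rw [hx, hco, Nat.cast_zero, zero_add, PowerSeries.coeff_zero_eq_constantCoeff_apply] at h1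
  rw [← h1]
  intro h0
  exact hj₀' (HahnSeries.coeff_order_eq_zero.1 h0)

theorem ld_zz_ne {d : ℕ} (hd : (d : k) ≠ 0) : ld (zz k d) ≠ 0 := by
  intro h
  have h1 := congrArg (fun f : LaurentSeries k => f.coeff (-(d : ℤ) - 1)) h
  simp only [HahnSeries.coeff_zero] at h1
  rw [ld_coeff, zz, sub_add_cancel, HahnSeries.coeff_single_same, mul_one] at h1
  apply hd
  push_cast at h1
  simpa using h1

theorem lmap_cc_C (f : LaurentSeries k) :
    lmap (PowerSeries.constantCoeff (R := k)) (lmap (PowerSeries.C (R := k)) f) = f := by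
  ext m
  rw [lmap_coeff, lmap_coeff, PowerSeries.constantCoeff_C]

end field

end ZOI

theorem t_ZOI (hKFO : Stmt_KFO) (hKBC : Stmt_KBC) : Stmt_ZOI := by
  intro k _ p hp hchar g d Rb RI a hd1 hd hRb hRI hbc hF H μ hμ hμf
  by_contra hμ0
  obtain ⟨ω, hω, hfo⟩ := ZOI.forms hKFO hKBC hRI
  obtain ⟨c, hc, -⟩ := hfo (psl k) μ hμ
  have hc0 : c ≠ 0 := by
    rintro rfl
    apply hμ0
    rw [hc]
    exact Finset.sum_eq_zero fun j _ => by rw [Pi.zero_apply, zero_smul]
  obtain ⟨s, x, hsx, j₀, hj₀⟩ := ZOI.scale c hc0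
  set ρ : LaurentSeries (PowerSeries k) := ∑ j, x j • ω j with hρ
  have hρE : ρ ∈ EE1 RI := Submodule.sum_mem _ fun j _ => Submodule.smul_mem _ _ (hω j)
  have hρμ : lmap (psl k) ρ = s • μ := by
    rw [hρ, map_sum, hc, Finset.smul_sum]
    refine Finset.sum_congr rfl fun j _ => ?_
    rw [lmap_smul, smul_smul, ← hsx, ← smul_eq_mul]
  have hbar : lmap (PowerSeries.constantCoeff (R := k)) ρ ∈ EE1 Rb := by
    rw [← hbc]
    exact ZOI.lmap_mem_EE1 hKFO hKBC hRI _ hρE
  have hbar0 : lmap (PowerSeries.constantCoeff (R := k)) ρ ≠ 0 := by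
    intro h0
    obtain ⟨c', -, hu⟩ := hfo (PowerSeries.constantCoeff (R := k)) 0 (Submodule.zero_mem _)
    have h1 := hu (fun _ => 0) (by
      change 0 = _
      exact (Finset.sum_eq_zero fun j _ => zero_smul _ _).symm)
    have h2 := hu (fun j => PowerSeries.constantCoeff (x j)) (by
      change 0 = _
      rw [← h0, hρ, map_sum]
      exact Finset.sum_congr rfl fun j _ => lmap_smul _ _ _)
    exact hj₀ (congrFun (h2.trans h1.symm) j₀)
  apply hbar0
  apply H _ hbar
  intro v h y hh hvh hy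
  -- the residue of `ρ h`
  have e1 : (ρ * lmap (PowerSeries.C (R := k)) v ^ p).coeff (-1) = 0 := by
    apply ZOI.psl_injective
    have h1 := hμf (lmap (psl k) (lmap (PowerSeries.C (R := k)) v))
    have h2 : lmap (psl k) (ρ * lmap (PowerSeries.C (R := k)) v ^ p) =
        s • (μ * lmap (psl k) (lmap (PowerSeries.C (R := k)) v) ^ p) := by
      rw [map_mul, hρμ, map_pow, smul_mul_assoc]
    rw [← lmap_coeff, h2, HahnSeries.coeff_smul, h1, smul_zero, map_zero]
  have e2 : (ρ * lmap (PowerSeries.C (R := k)) h).coeff (-1) = 0 := by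
    have h1 : ρ * lmap (PowerSeries.C (R := k)) (v ^ p - h) ∈ Po (PowerSeries k) 0 := by
      refine ZOI.mul_mem_Po (m := 0) (n := 0) hρE.2 fun m hm => ?_
      rw [lmap_coeff, hvh m hm, map_zero]
    have h2 := ZOI.res_Po0 h1
    rw [map_sub, map_pow, mul_sub, HahnSeries.coeff_sub, e1, zero_sub, neg_eq_zero] at h2
    exact h2
  obtain ⟨y', w, hy', hw⟩ := hF h hh
  have hyy : y' = y := by
    have h1 : y' * ld (zz k d) = y * ld (zz k d) := hy'.trans hy.symm
    exact mul_right_cancel₀ (ZOI.ld_zz_ne hd) h1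
  rw [hyy] at hw
  have e3 := hρE.1 _ hw
  rw [mul_add, mul_sub, mul_smul_comm, mul_smul_comm, HahnSeries.coeff_add, HahnSeries.coeff_sub,
    HahnSeries.coeff_smul, HahnSeries.coeff_smul, e2, zero_sub, smul_eq_mul, smul_eq_mul] at e3
  have e4 : (ρ * lmap (PowerSeries.C (R := k)) y).coeff (-1) =
      PowerSeries.X * (ρ * w).coeff (-1) := by
    have h1 : (PowerSeries.X : PowerSeries k) ^ d *
        (ρ * lmap (PowerSeries.C (R := k)) y).coeff (-1) =
        (PowerSeries.X : PowerSeries k) ^ d * (PowerSeries.X * (ρ * w).coeff (-1)) := by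
      rw [pow_succ] at e3
      linear_combination -e3
    exact mul_left_cancel₀ (pow_ne_zero d PowerSeries.X_ne_zero) h1
  have e5 := congrArg (PowerSeries.constantCoeff (R := k)) e4
  rw [map_mul, PowerSeries.constantCoeff_X, zero_mul, ← lmap_coeff, map_mul,
    ZOI.lmap_cc_C] at e5
  exact e5

end Pool.Agent.MG.G0
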