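import Pool.Agent.MG.G0.StmtsZH

/-!
# ZOR: the first order part of the Hasse-Witt matrix is injective
-/

open Polynomial

namespace Pool.Agent.MG.G0

namespace ZOR

variable {k : Type} [Field k]

theorem ld_pow_char (p : ℕ) [CharP k p] (v : LaurentSeries k) : ld (v ^ p) = 0 := by
  have h := (ddD Unit k).leibniz_pow (fun _ => v) p
  have h1 := congrFun h ()
  have h2 : ld (v ^ p) = p • (v ^ (p - 1) * ld v) := h1
  rw [h2]
  ext m
  rw [← Nat.cast_smul_eq_nsmul k, CharP.cast_eq_zero, zero_smul]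

theorem coeff_sum_mul {g : ℕ} (c : Fin g → k) (f : Fin g → LaurentSeries k) (u : LaurentSeries k)
    (m : ℤ) : ((∑ j, c j • f j) * u).coeff m = ∑ j, c j * (f j * u).coeff m := by
  rw [Finset.sum_mul, HahnSeries.coeff_sum]
  refine Finset.sum_congr rfl fun j _ => ?_
  rw [smul_mul_assoc, HahnSeries.coeff_smul, smul_eq_mul]

theorem coeff_mul_sum {g : ℕ} (c : Fin g → k) (f : Fin g → LaurentSeries k) (u : LaurentSeries k)
    (m : ℤ) : (u * ∑ j, c j • f j).coeff m = ∑ j, c j * (u * f j).coeff m := by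
  rw [mul_comm, coeff_sum_mul]
  refine Finset.sum_congr rfl fun j _ => ?_
  rw [mul_comm u]

theorem ld_Po {f : LaurentSeries k} (hf : f ∈ Po k 0) : ld f ∈ Po k 0 :=
  mem_Pol_unit.1 (dd_mem_Pol0 (f := fun _ : Unit => f) (mem_Pol_unit.2 hf))

/-- Every regular differential is the differential of the polar part of a `p`-th power. -/
theorem main (hKFO : Stmt_KFO) (hRES : Stmt_RES) (hZCI : Stmt_ZCI) [IsAlgClosed k] (p : ℕ)
    (hp : p.Prime) (hchar : CharP k p) {g : ℕ} {R : Subalgebra k (LaurentSeries k)}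
    (hR : Kr g R) (hsm : SmC k (uno R)) (hdu : Dual (uno R)) (hss : Ssp p R) :
    ∀ ω ∈ EE1 R, ∃ v h : LaurentSeries k, h ∈ R ∧ v ^ p - h ∈ Po k 0 ∧ ld h = ω := by
  classical
  haveI : Fact p.Prime := ⟨hp⟩
  haveI : CharP (LaurentSeries k) p :=
    charP_of_injective_algebraMap (algebraMap k (LaurentSeries k)).injective p
  have hR' : IsKr g (uno R) := hR
  obtain ⟨⟨om, hom⟩, hall⟩ := hKFO hR'
  obtain ⟨hEE, huniq⟩ := hall om hom
  choose vf hvf using fun j : Fin g => hom.surj (Pi.single j 1)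
  have hwv : ∀ i j, (om i () * vf j ()).coeff (-1) = if i = j then 1 else 0 := by
    intro i j
    have h1 := hvf j i
    rw [res_unit, Pi.single_apply] at h1
    exact h1
  choose h hh ho using fun j => hss (vf j ())
  have hzero : ∀ η ∈ EE1 R, (∀ i, (η * vf i ()).coeff (-1) = 0) → η = 0 := by
    intro η hη h0
    obtain ⟨c, hc, _⟩ := huniq (fun _ => η) (mem_EE_uno.2 hη)
    have h1 : η = ∑ j, c j • om j () := by
      have h2 := congrFun hc ()
      have h3 : (∑ j, c j • om j) () = ∑ j, c j • om j () := by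
        rw [Finset.sum_apply]
        rfl
      exact h2.trans h3
    have h4 : ∀ i, c i = 0 := by
      intro i
      have h5 := h0 i
      rw [h1, coeff_sum_mul] at h5
      simp only [hwv, mul_ite, mul_one, mul_zero, Finset.sum_ite_eq', Finset.mem_univ,
        if_true] at h5
      exact h5
    rw [h1]
    refine Finset.sum_eq_zero fun j _ => ?_
    rw [h4, zero_smul]
  have hH : ∀ c : Fin g → k, (∑ j, c j • h j) ∈ R := fun c =>
    sum_mem fun j _ => R.smul_mem (hh j) (c j)
  have hu : ∀ c : Fin g → k, ∃ u : LaurentSeries k, u ^ p - ∑ j, c j • h j ∈ Po k 0 ∧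
      ∀ i, ((om i () * u).coeff (-1)) ^ p = c i := by
    intro c
    choose b hb using fun j => IsAlgClosed.exists_pow_nat_eq (c j) hp.pos
    refine ⟨∑ j, b j • vf j (), ?_, ?_⟩
    · rw [sum_pow_char p Finset.univ (fun j => b j • vf j ()), ← Finset.sum_sub_distrib]
      refine sum_mem fun j _ => ?_
      rw [_root_.smul_pow, hb, ← smul_sub]
      exact Submodule.smul_mem _ _ (ho j)
    · intro i
      rw [coeff_mul_sum]
      simp only [hwv, mul_ite, mul_one, mul_zero, Finset.sum_ite_eq, Finset.mem_univ, if_true]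
      exact hb i
  have hldE : ∀ c : Fin g → k, ld (∑ j, c j • h j) ∈ EE1 R := by
    intro c
    obtain ⟨u, hu1, _⟩ := hu c
    refine ⟨fun q hq => ?_, ?_⟩
    · have h1 := hRES hR' (fun _ => q) hq (fun _ => ∑ j, c j • h j) (hH c)
      rw [res_unit] at h1
      rw [mul_comm]
      exact h1
    · have h1 : ld (∑ j, c j • h j) = -ld (u ^ p - ∑ j, c j • h j) := by
        have h2 : ld (u ^ p - ∑ j, c j • h j) = ld (u ^ p) - ld (∑ j, c j • h j) :=
          map_sub (LaurentSeries.derivative k) _ _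
        rw [h2, ld_pow_char, zero_sub, neg_neg]
      rw [h1]
      exact neg_mem (ld_Po hu1)
  let T : (Fin g → k) →ₗ[k] (Fin g → k) :=
    { toFun := fun c i => (ld (∑ j, c j • h j) * vf i ()).coeff (-1)
      map_add' := fun c c' => by
        funext i
        have h1 : ∑ j, (c + c') j • h j = ∑ j, c j • h j + ∑ j, c' j • h j := by
          rw [← Finset.sum_add_distrib]
          exact Finset.sum_congr rfl fun j _ => add_smul _ _ _
        rw [Pi.add_apply, h1, ld_add, add_mul, HahnSeries.coeff_add]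
      map_smul' := fun a c => by
        funext i
        have h1 : ∑ j, (a • c) j • h j = a • ∑ j, c j • h j := by
          rw [Finset.smul_sum]
          exact Finset.sum_congr rfl fun j _ => mul_smul a (c j) _
        rw [Pi.smul_apply, h1, ld_smul, smul_mul_assoc, HahnSeries.coeff_smul, RingHom.id_apply] }
  have hT : ∀ c i, T c i = (ld (∑ j, c j • h j) * vf i ()).coeff (-1) := fun c i => rfl
  have hinj : Function.Injective T := by
    rw [← LinearMap.ker_eq_bot, LinearMap.ker_eq_bot']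
    intro c hc
    have h1 : ld (∑ j, c j • h j) = 0 := by
      refine hzero _ (hldE c) fun i => ?_
      rw [← hT, hc, Pi.zero_apply]
    obtain ⟨u, hu1, hu2⟩ := hu c
    obtain ⟨q, hq, hq'⟩ := hZCI p hp hchar hR hsm hdu u _ (hH c) hu1 h1
    have h2 : ∀ j, res (om j * fun _ => u) = 0 :=
      (hom.ker (fun _ => u)).2 ⟨fun _ => q, hq, mem_Pol_unit.2 hq'⟩
    funext i
    have h3 := h2 i
    rw [res_unit] at h3
    have h4 : (om i () * u).coeff (-1) = 0 := h3
    rw [← hu2 i, h4, zero_pow hp.ne_zero, Pi.zero_apply]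
  have hsurj : Function.Surjective T := LinearMap.injective_iff_surjective.1 hinj
  intro ω hω
  obtain ⟨c, hc⟩ := hsurj fun i => (ω * vf i ()).coeff (-1)
  obtain ⟨u, hu1, _⟩ := hu c
  refine ⟨u, ∑ j, c j • h j, hH c, hu1, ?_⟩
  rw [← sub_eq_zero]
  refine hzero _ (sub_mem (hldE c) hω) fun i => ?_
  rw [sub_mul, HahnSeries.coeff_sub, ← hT, hc, sub_self]

end ZOR

theorem t_ZOR (hKFO : Stmt_KFO) (hKBC : Stmt_KBC) (hRES : Stmt_RES) (hZCI : Stmt_ZCI)
    (hZQN : Stmt_ZQN) : Stmt_ZOR := by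
  intro k₁ k _ _ _ _ p hp hchar g d b R β α hd hdk hR hz hβ hdisc hsm hdu hss hα a ha μ hμ hH
  have hKr : Kr g (bc1 (algebraMap k₁ k) R) := by
    have h1 := (hKBC.2.2.2 (P := uno R) hR (algebraMap k₁ k)).1
    rw [bc_uno] at h1
    exact h1
  have hd1 : (d : k₁) ≠ 0 := by
    intro h0
    apply hdk
    rw [← map_natCast (algebraMap k₁ k) d, h0, map_zero]
  refine hZQN β α hd hd1 hR hz hβ hdisc hα a ha μ hμ fun ω hω y hy => ?_
  obtain ⟨v, h, hh, hvh, hld⟩ := ZOR.main hKFO hRES hZCI p hp hchar hKr hsm hdu hss ω hω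
  exact hH v h y hh hvh (by rw [hld]; exact hy)

end Pool.Agent.MG.G0
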