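import Pool.Agent.MG.G0.StmtsZH

/-!
# ZPB: the reduction at the base point
-/

namespace Pool.Agent.MG.G0

namespace ZPB

theorem lmap_comp' {A B C : Type} [CommRing A] [CommRing B] [CommRing C] (φ : A →+* B)
    (ψ : B →+* C) (f : LaurentSeries A) : lmap ψ (lmap φ f) = lmap (ψ.comp φ) f := by
  ext n
  rfl

theorem kr_bc1 (hKBC : Stmt_KBC) {A B : Type} [CommRing A] [CommRing B] {g : ℕ}
    {R : Subalgebra A (LaurentSeries A)} (h : Kr g R) (φ : A →+* B) : Kr g (bc1 φ R) := by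
  have h1 := (hKBC.2.2.2 (P := uno R) h φ).1
  rw [bc_uno] at h1
  exact h1

theorem int1 (hINT : Stmt_INT) {A B : Type} [CommRing A] [CommRing B] {g : ℕ}
    {R : Subalgebra A (LaurentSeries A)} (h : Kr g R) (φ : A →+* B)
    (hφ : Function.Injective φ) (x : LaurentSeries A) (hx : lmap φ x ∈ bc1 φ R) : x ∈ R := by
  have h4 : kmap φ (fun _ : Unit => x) ∈ bc φ (uno R) := by
    rw [bc_uno]
    exact mem_uno.2 hx
  exact mem_uno.1 (hINT h φ hφ (fun _ : Unit => x) h4)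

theorem eq1 (hKEQ : Stmt_KEQ) {A : Type} [CommRing A] {g : ℕ}
    {R R' : Subalgebra A (LaurentSeries A)} (h : Kr g R) (h' : Kr g R') (hle : R ≤ R') :
    R = R' := by
  have h2 : uno R = uno R' := hKEQ h h' fun x hx => hle hx
  rw [← duo_uno R, h2, duo_uno]

end ZPB

theorem t_ZPB (hKBC : Stmt_KBC) (hKEQ : Stmt_KEQ) (hINT : Stmt_INT) : Stmt_ZPB := by
  intro k L O _ _ _ _ g ψ j R RI hRI hcut hbc hj
  refine ZPB.eq1 hKEQ (ZPB.kr_bc1 hKBC hcut _) (ZPB.kr_bc1 hKBC hRI _) ?_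
  refine Algebra.adjoin_le ?_
  rintro _ ⟨x, hx, rfl⟩
  have hx1 : lmap (algebraMap O L) x ∈ R := hx
  have h1 : lmap ψ (lmap (algebraMap O L) x) ∈ bc1 ψ R := Algebra.subset_adjoin ⟨_, hx1, rfl⟩
  have h2 : lmap (psl k) (lmap j x) = lmap ψ (lmap (algebraMap O L) x) := by
    refine HahnSeries.ext (funext fun n => ?_)
    exact hj (x.coeff n)
  rw [← h2, hbc] at h1
  have h3 : lmap j x ∈ RI :=
    ZPB.int1 hINT hRI (psl k) HahnSeries.ofPowerSeries_injective (lmap j x) h1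
  have h4 : lmap ((PowerSeries.constantCoeff (R := k)).comp j) x =
      lmap (PowerSeries.constantCoeff (R := k)) (lmap j x) := (ZPB.lmap_comp' _ _ _).symm
  rw [h4]
  exact Algebra.subset_adjoin ⟨_, h3, rfl⟩

end Pool.Agent.MG.G0
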