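import Pool.Agent.MG.G0.StmtsZH

/-!
# Collisions of the branch points
-/

namespace Pool.Agent.MG.G0

open Polynomial

namespace ZPC

/-- a linear relation between differences of linearly independent vectors -/
theorem mem_pair {F E : Type} [Field F] [AddCommGroup E] [Module F E] {b : ℕ} {α : Fin b → E}
    (hα : LinearIndependent F α) {l m l' m' : Fin b} (hlm' : l' ≠ m') {x y : F} (hx : x ≠ 0)
    (h : x • (α l' - α m') = y • (α l - α m)) : l' = l ∨ l' = m := by
  classical
  by_contra hcon
  push Not at hcon
  obtain ⟨h1, h2⟩ := hcon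
  rw [Fintype.linearIndependent_iff] at hα
  let g : Fin b → F := fun i => x * ((if i = l' then 1 else 0) - (if i = m' then 1 else 0)) -
    y * ((if i = l then 1 else 0) - (if i = m then 1 else 0))
  have hsum : ∑ i, g i • α i = 0 := by
    have h3 : ∀ i, g i • α i = x • ((if i = l' then α i else 0) - (if i = m' then α i else 0)) -
        y • ((if i = l then α i else 0) - (if i = m then α i else 0)) := by
      intro i
      simp only [g, sub_smul, mul_smul, ite_smul, one_smul, zero_smul]
    rw [Finset.sum_congr rfl fun i _ => h3 i, Finset.sum_sub_distrib, ← Finset.smul_sum,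
      ← Finset.smul_sum, Finset.sum_sub_distrib, Finset.sum_sub_distrib]
    simp only [Finset.sum_ite_eq', Finset.mem_univ, if_true]
    rw [h, sub_self]
  have h4 := hα g hsum l'
  simp only [g, if_true, if_neg hlm', if_neg h1, if_neg h2, sub_zero, mul_one, mul_zero] at h4
  exact hx h4

end ZPC

open ZPC in
theorem t_ZPC : Stmt_ZPC := by
  intro k₁ k _ _ _ b d β α hd hβ hα
  have hinj : Function.Injective α := hα.injective
  have hlin : LinearIndependent k₁ α := hα.linearIndependent
  refine ⟨hinj, ?_, ?_⟩
  · intro L _ _ t ht l m hlm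
    by_contra hne
    have h1 : α l - α m ≠ 0 := sub_ne_zero.2 fun h => hne (hinj h)
    simp only at hlm
    set c : k := (algebraMap k₁ k (β m) - algebraMap k₁ k (β l)) / (α l - α m) with hc
    have h2 : t ^ d = algebraMap k L c := by
      have h3 : algebraMap k L (α l - α m) ≠ 0 := by
        rw [Ne, map_eq_zero]
        exact h1
      rw [hc, map_div₀, eq_div_iff h3, map_sub, map_sub]
      linear_combination hlm
    have h4 : aeval t (X ^ d - C c : k[X]) = 0 := by
      rw [map_sub, map_pow, aeval_X, aeval_C, h2, sub_self]
    exact X_pow_sub_C_ne_zero hd c ((transcendental_iff.1 ht) _ h4)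
  · intro t₀
    by_cases hI : Function.Injective fun l => algebraMap k₁ k (β l) + t₀ ^ d * α l
    · exact Or.inl hI
    right
    rw [Function.not_injective_iff] at hI
    obtain ⟨l, m, hlm, hne⟩ := hI
    have hB : ∀ {i j : Fin b}, i ≠ j → β i - β j ≠ 0 := fun hij =>
      sub_ne_zero.2 fun h => hij (hβ h)
    refine ⟨?_, l, m, hne, hlm, ?_⟩
    · intro h0
      rw [h0, zero_pow hd.ne', zero_mul, zero_mul, add_zero, add_zero] at hlm
      exact hne (hβ ((algebraMap k₁ k).injective hlm))
    · intro l' m' hlm'
      by_cases he : l' = m'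
      · exact Or.inl he
      right
      have key : (β l - β m) • (α l' - α m') = (β l' - β m') • (α l - α m) := by
        rw [Algebra.smul_def, Algebra.smul_def, map_sub, map_sub]
        linear_combination (α l' - α m') * hlm - (α l - α m) * hlm'
      have key2 : (β l - β m) • (α m' - α l') = (β m' - β l') • (α l - α m) := by
        rw [← neg_sub (α l') (α m'), smul_neg, key, ← neg_sub (β l') (β m'), neg_smul]
      rcases mem_pair hlin he (hB hne) key with h1 | h1 <;>
        rcases mem_pair hlin (Ne.symm he) (hB hne) key2 with h2 | h2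
      · exact absurd (h1.trans h2.symm) he
      · exact Or.inl ⟨h1, h2⟩
      · exact Or.inr ⟨h1, h2⟩
      · exact absurd (h1.trans h2.symm) he

end Pool.Agent.MG.G0
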