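import Pool.Agent.MG.G0.StmtsZH

/-!
# ZPL: every discrete valuation ring is a place with smooth or nodal reduction
-/

open Polynomial

namespace Pool.Agent.MG.G0

namespace ZPLm

section aux

variable {k O : Type} [Field k] [CommRing O] [IsDomain O] [IsDiscreteValuationRing O]
  [Algebra k O]

theorem unit_of (rs : O →ₐ[k] k) (hrs : ∀ x, rs x = 0 ↔ x ∈ IsLocalRing.maximalIdeal O)
    {x : O} (hx : rs x ≠ 0) : IsUnit x := by
  by_contra h
  exact hx ((hrs x).2 ((IsLocalRing.mem_maximalIdeal x).2 h))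

theorem resAC [IsAlgClosed k] (rs : O →ₐ[k] k)
    (hrs : ∀ x, rs x = 0 ↔ x ∈ IsLocalRing.maximalIdeal O) :
    IsAlgClosed (IsLocalRing.ResidueField O) := by
  have hb : Function.Bijective
      ((IsLocalRing.residue O).comp (algebraMap k O)) := by
    refine ⟨RingHom.injective _, fun y => ?_⟩
    obtain ⟨x, rfl⟩ := IsLocalRing.residue_surjective y
    refine ⟨rs x, ?_⟩
    rw [RingHom.comp_apply, ← sub_eq_zero, ← map_sub, IsLocalRing.residue_eq_zero_iff, ← hrs,
      map_sub, AlgHom.commutes, Algebra.algebraMap_self_apply, sub_self]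
  exact IsAlgClosed.of_ringEquiv k _ (RingEquiv.ofBijective _ hb)

theorem nilp {x : O} (hx : x ≠ 0) (m : ℕ) (y : O) (hy : y ∈ IsLocalRing.maximalIdeal O) :
    IsNilpotent (Ideal.Quotient.mk (Ideal.span {x ^ m}) y) := by
  obtain ⟨ϖ, hϖ⟩ := IsDiscreteValuationRing.exists_irreducible O
  have h0 : Ideal.span {x ^ m} ≠ ⊥ := by
    rw [Ne, Ideal.span_singleton_eq_bot]
    exact pow_ne_zero m hx
  obtain ⟨n, hn⟩ := IsDiscreteValuationRing.ideal_eq_span_pow_irreducible h0 hϖ
  refine ⟨n, ?_⟩
  rw [← map_pow, Ideal.Quotient.eq_zero_iff_mem, hn, Ideal.mem_span_singleton]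
  rw [(IsDiscreteValuationRing.irreducible_iff_uniformizer ϖ).1 hϖ,
    Ideal.mem_span_singleton] at hy
  exact pow_dvd_pow_of_dvd hy n

end aux

section pol

theorem prod_split {A : Type} [CommRing A] {b : ℕ} (ρ : Fin b → A) {l m : Fin b} (hlm : l ≠ m) :
    ∏ i, (X - C (ρ i)) = (X - C (ρ l)) * (X - C (ρ m)) *
      ∏ i ∈ (Finset.univ.erase l).erase m, (X - C (ρ i)) := by
  rw [mul_assoc, Finset.mul_prod_erase (Finset.univ.erase l) (fun i => X - C (ρ i))
    (Finset.mem_erase.2 ⟨hlm.symm, Finset.mem_univ m⟩),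
    Finset.mul_prod_erase Finset.univ (fun i => X - C (ρ i)) (Finset.mem_univ l)]

variable {k : Type} [Field k] {b : ℕ} {ρ : Fin b → k} {l m : Fin b}

theorem eval_ne (hρ : ∀ i j : Fin b, ρ i = ρ j → i = j ∨ (i = l ∧ j = m) ∨ (i = m ∧ j = l)) :
    (∏ i ∈ (Finset.univ.erase l).erase m, (X - C (ρ i))).eval (ρ l) ≠ 0 := by
  rw [eval_prod, Finset.prod_ne_zero_iff]
  intro i hi
  rw [Finset.mem_erase, Finset.mem_erase] at hi
  rw [eval_sub, eval_X, eval_C, sub_ne_zero]
  intro h
  rcases hρ i l h.symm with h1 | h1 | h1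
  · exact hi.2.1 h1
  · exact hi.2.1 h1.1
  · exact hi.1 h1.1

theorem sep_h (hρ : ∀ i j : Fin b, ρ i = ρ j → i = j ∨ (i = l ∧ j = m) ∨ (i = m ∧ j = l)) :
    (∏ i ∈ (Finset.univ.erase l).erase m, (X - C (ρ i))).Separable := by
  rw [separable_prod_X_sub_C_iff']
  intro i hi j hj hij
  rw [Finset.mem_erase, Finset.mem_erase] at hi hj
  rcases hρ i j hij with h1 | h1 | h1
  · exact h1
  · exact absurd h1.1 hi.2.1
  · exact absurd h1.1 hi.1

theorem dbl (hlm : l ≠ m) (hc : ρ l = ρ m)
    (hρ : ∀ i j : Fin b, ρ i = ρ j → i = j ∨ (i = l ∧ j = m) ∨ (i = m ∧ j = l)) :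
    Dbl (∏ i, (X - C (ρ i))) (ρ l) := by
  refine ⟨∏ i ∈ (Finset.univ.erase l).erase m, (X - C (ρ i)), ?_, eval_ne hρ, sep_h hρ⟩
  rw [prod_split ρ hlm, ← hc, sq]

theorem not_sq {f : k[X]} {c₀ c : k} (hf : Dbl f c₀) (hc : c ≠ c₀) : ¬ (X - C c) ^ 2 ∣ f := by
  obtain ⟨h, rfl, -, hs⟩ := hf
  intro hd
  have hcop : IsCoprime ((X - C c) ^ 2) ((X - C c₀) ^ 2) :=
    (isCoprime_X_sub_C_of_isUnit_sub (sub_ne_zero.2 hc).isUnit).pow
  have h1 : (X - C c) ^ 2 ∣ h := hcop.dvd_of_dvd_mul_left hd
  rw [sq] at h1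
  exact not_isUnit_X_sub_C c (hs.squarefree _ h1)

end pol

section mdl

variable {k L O : Type} [Field k] [Field L] [CommRing O] [IsDomain O]
  [IsDiscreteValuationRing O] [Algebra k O] [Algebra O L] [IsFractionRing O L] {g d b : ℕ}
  {R : Subalgebra L (LaurentSeries L)}

omit [IsDiscreteValuationRing O] [IsFractionRing O L] in
theorem fb_eq (M : Mdl k O L g d R) {rs : O →ₐ[k] k} {r : Fin b → O} (h1 : M.rs = rs)
    (h2 : M.f = ∏ l, (X - C (r l))) : M.fb = ∏ l, (X - C (rs (r l))) := by
  rw [Mdl.fb, h1, h2, Polynomial.map_prod]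
  refine Finset.prod_congr rfl fun l _ => ?_
  rw [Polynomial.map_sub, Polynomial.map_X, Polynomial.map_C]
  rfl

theorem caseSep [IsAlgClosed k] (hZPM : Stmt_ZPM) (rs : O →ₐ[k] k) (r : Fin b → O) (hd : 0 < d)
    (hdf : ((d.factorial : ℕ) : k) ≠ 0) (hb : b + 1 = 2 * g + d)
    (hrs : ∀ x, rs x = 0 ↔ x ∈ IsLocalRing.maximalIdeal O) (hkr : Kr g R) (hz : zz L d ∈ R)
    (hri : Function.Injective r) (hdisc : Disc d R (∏ l, (X - C (algebraMap O L (r l)))))
    (hinj : Function.Injective fun l => rs (r l)) : ∃ M : Mdl k O L g d R, M.Smo := by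
  obtain ⟨ϖ, hϖ⟩ := IsDiscreteValuationRing.exists_irreducible O
  obtain ⟨M, h1, h2, h3, h4, h5, h6, h7⟩ := hZPM rs ϖ r hd hdf hb hrs hϖ hkr hz hri hdisc
  refine ⟨M, Or.inl ?_⟩
  rw [fb_eq M h1 h4, separable_prod_X_sub_C_iff]
  exact hinj

theorem node [IsAlgClosed k] (hZL : Stmt_ZL) (hCYC : Stmt_CYC) (hZBR : Stmt_ZBR)
    (hZPM : Stmt_ZPM) (hZGR : Stmt_ZGR) (rs : O →ₐ[k] k)
    (hrs : ∀ x, rs x = 0 ↔ x ∈ IsLocalRing.maximalIdeal O) (hkr : Kr g R) (hz : zz L d ∈ R)
    (hd : 2 ≤ d) (hdf : ((d.factorial : ℕ) : k) ≠ 0) (hb : b + 1 = 2 * g + d)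
    (β α : Fin b → k) (t : O) (r : Fin b → O)
    (hr : ∀ l, r l = algebraMap k O (β l) + t ^ d * algebraMap k O (α l))
    (hri : Function.Injective r) (hdisc : Disc d R (∏ l, (X - C (algebraMap O L (r l)))))
    (ht : rs t ≠ 0) (hx : t - algebraMap k O (rs t) ≠ 0) (hα : Function.Injective α)
    (l m : Fin b) (hlm : l ≠ m) (hcol : rs (r l) = rs (r m))
    (huniq : ∀ i j : Fin b, rs (r i) = rs (r j) → i = j ∨ (i = l ∧ j = m) ∨ (i = m ∧ j = l))
    (hmin : ∀ M : Subfield L, (∀ c : k, algebraMap O L (algebraMap k O c) ∈ M) →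
      algebraMap O L t ∈ M → ∀ T : Subalgebra M (LaurentSeries M), Kr g T → zz M d ∈ T →
        bc1 M.subtype T = R → M = ⊤) :
    ∃ M : Mdl k O L g d R, M.Smo ∨ M.Nod := by
  have hd0 : 0 < d := by omega
  have hdk : ((d : ℕ) : k) ≠ 0 := by
    obtain ⟨c, hc⟩ := Nat.dvd_factorial hd0 (le_refl d)
    intro h0
    apply hdf
    rw [hc, Nat.cast_mul, h0, zero_mul]
  have h2k : ((2 : ℕ) : k) ≠ 0 := by
    obtain ⟨c, hc⟩ := Nat.dvd_factorial (by norm_num : 0 < 2) hd
    intro h0
    apply hdf
    rw [hc, Nat.cast_mul, h0, zero_mul]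
  have h2dk : ((2 * d : ℕ) : k) ≠ 0 := by
    rw [Nat.cast_mul]
    exact mul_ne_zero h2k hdk
  obtain ⟨ϖ, hϖ⟩ := IsDiscreteValuationRing.exists_irreducible O
  obtain ⟨M, h1, h2, h3, h4, h5, h6, h7⟩ := hZPM rs ϖ r hd0 hdf hb hrs hϖ hkr hz hri hdisc
  have hfb := fb_eq M h1 h4
  have hD : Dbl M.fb (rs (r l)) := by
    rw [hfb]
    exact dbl hlm hcol huniq
  have hD' := hD
  obtain ⟨e, G, he, hG, u, hu, hdet⟩ := h5
  obtain ⟨hg1, hg2⟩ := hZGR G u _ hd hu hdet
  obtain ⟨h, hh1, hh2, hh3⟩ := hD'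
  rcases hg2 (rs (r l)) h hh1 hh2 with hrk | hrk
  · have hcyc : Cyc d (bc1 (rs : O →+* k) M.P) := by
      have hPb : M.Pb = bc1 (rs : O →+* k) M.P := by
        rw [Mdl.Pb, h1]
      rw [← hPb]
      obtain ⟨u0, hu0, rfl⟩ := Polynomial.isUnit_iff.1 hu
      refine (hCYC hd0 hdk M.Pb h6 h7).1 e G he hG u0 (Finset.univ.val.map fun i => rs (r i))
        ?_ ?_
      · rw [hdet, hfb, Multiset.map_map]
        rfl
      · intro c hc
        by_cases hcc : c = rs (r l)
        · rw [hcc, hrk]
          omega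
        · exact hg1 c (not_sq hD hcc)
    have hmax : IsLocalRing.maximalIdeal O = Ideal.span {t - algebraMap k O (rs t)} := by
      refine hZBR (L := L) (g := g) hd0 h2dk rs (t - algebraMap k O (rs t)) ?_ hx
        (∏ l, (X - C (C (β l) + (X + C (rs t)) ^ d * C (α l))))
        (monic_prod_X_sub_C _ _) M.P M.kr M.z ?_ hcyc ?_
      · rw [map_sub, AlgHom.commutes, Algebra.algebraMap_self_apply, sub_self]
      · intro n
        have : IsAlgClosed (IsLocalRing.ResidueField O) := resAC rs hrs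
        have hF : ((∏ l, (X - C (C (β l) + (X + C (rs t)) ^ d * C (α l))) : (k[X])[X]).map
            (aeval (R := k) (t - algebraMap k O (rs t))).toRingHom) = ∏ l, (X - C (r l)) := by
          rw [Polynomial.map_prod]
          refine Finset.prod_congr rfl fun i _ => ?_
          rw [Polynomial.map_sub, Polynomial.map_X, Polynomial.map_C, hr i]
          simp
        rw [hF, h3]
        have hun : IsUnit ((d.factorial : ℕ) : O) := by
          apply unit_of rs hrs
          rw [map_natCast]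
          exact hdf
        refine (hZL O L g d R (∏ l, (X - C (r l))) hd0 hun hkr hz (monic_prod_X_sub_C _ _)
          ?_).2.2.2 _ _ fun y hy => nilp hx n y hy
        rw [Polynomial.map_prod]
        simpa only [Polynomial.map_sub, Polynomial.map_X, Polynomial.map_C] using hdisc
      · intro M' hM1 hM2 T hT1 hT2 hT3
        refine hmin M' hM1 ?_ T hT1 hT2 (hT3.trans M.bc)
        have e1 : algebraMap O L t = algebraMap O L (t - algebraMap k O (rs t)) +
            algebraMap O L (algebraMap k O (rs t)) := by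
          rw [← map_add, sub_add_cancel]
        rw [e1]
        exact add_mem hM2 (hM1 _)
    have hxi : Irreducible (t - algebraMap k O (rs t)) :=
      (IsDiscreteValuationRing.irreducible_iff_uniformizer _).2 hmax
    obtain ⟨N, k1, k2, k3, k4, -, -, -⟩ := hZPM rs _ r hd0 hdf hb hrs hxi hkr hz hri hdisc
    refine ⟨N, Or.inr ?_⟩
    -- the difference of the two colliding branch points
    set x : O := t - algebraMap k O (rs t) with hxdef
    set w : O := (∑ i ∈ Finset.range d, t ^ i * algebraMap k O (rs t) ^ (d - 1 - i)) *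
      algebraMap k O (α l - α m) with hw
    have hrsr : ∀ i, rs (r i) = β i + rs t ^ d * α i := by
      intro i
      rw [hr i, map_add, map_mul, map_pow, AlgHom.commutes, AlgHom.commutes,
        Algebra.algebraMap_self_apply, Algebra.algebraMap_self_apply]
    have hwx : r l - r m = x * w := by
      have e1 : β l - β m = -(rs t ^ d * (α l - α m)) := by
        have := hcol
        rw [hrsr, hrsr] at this
        linear_combination this
      have e2 : algebraMap k O (β l) - algebraMap k O (β m) =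
          -(algebraMap k O (rs t) ^ d * algebraMap k O (α l - α m)) := by
        rw [← map_sub, e1, map_neg, map_mul, map_pow]
      have e3 := geom_sum₂_mul t (algebraMap k O (rs t)) d
      rw [hr l, hr m, hw]
      have e4 : algebraMap k O (α l - α m) = algebraMap k O (α l) - algebraMap k O (α m) :=
        map_sub _ _ _
      rw [hxdef]
      linear_combination e2 - algebraMap k O (α l - α m) * e3 - t ^ d * e4
    have hwu : rs w ≠ 0 := by
      rw [hw, map_mul, map_sum]
      refine mul_ne_zero ?_ ?_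
      · have e1 : ∀ i ∈ Finset.range d, rs (t ^ i * algebraMap k O (rs t) ^ (d - 1 - i)) =
            rs t ^ (d - 1) := by
          intro i hi
          rw [Finset.mem_range] at hi
          rw [map_mul, map_pow, map_pow, AlgHom.commutes, Algebra.algebraMap_self_apply,
            ← pow_add]
          congr 1
          omega
        rw [Finset.sum_congr rfl e1, Finset.sum_const, Finset.card_range, nsmul_eq_mul]
        exact mul_ne_zero hdk (pow_ne_zero _ ht)
      · rw [AlgHom.commutes, Algebra.algebraMap_self_apply, sub_ne_zero]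
        exact fun h => hlm (hα h)
    have hf2 : algebraMap k O (((2 : ℕ) : k)⁻¹) * 2 = 1 := by
      have : (2 : O) = algebraMap k O ((2 : ℕ) : k) := by
        rw [map_natCast]
        norm_num
      rw [this, ← map_mul, inv_mul_cancel₀ h2k, map_one]
    set hf : O := algebraMap k O (((2 : ℕ) : k)⁻¹) with hhf
    have hNfb := fb_eq N k1 k4
    have hNPb : N.Pb = M.Pb := by
      rw [Mdl.Pb, Mdl.Pb, k1, k3, h1, h3]
    refine ⟨rs (r l), hf * (r l + r m), (hf * w) ^ 2,
      ∏ i ∈ (Finset.univ.erase l).erase m, (X - C (r i)), ?_, ?_, ?_, ?_, ?_, ?_⟩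
    · rw [hNfb]
      exact dbl hlm hcol huniq
    · rw [hNPb]
      exact ⟨e, G, he, hG, hrk⟩
    · rw [k1, map_mul, map_add, ← hcol]
      have e1 : rs hf * 2 = 1 := by
        have := congrArg rs hf2
        rw [map_mul, map_one] at this
        rw [← this]
        congr 1
        exact (map_ofNat rs 2).symm
      linear_combination rs (r l) * e1
    · have hw1 : IsUnit w := unit_of rs hrs hwu
      have hf1 : IsUnit hf := IsUnit.of_mul_eq_one _ hf2
      exact (hf1.mul hw1).pow 2
    · rw [k4, k2, prod_split r hlm]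
      congr 1
      have e1 : r l = hf * (r l + r m) + x * (hf * w) := by
        linear_combination (-r l) * hf2 + hf * hwx
      have e2 : r m = hf * (r l + r m) - x * (hf * w) := by
        linear_combination (-r m) * hf2 - hf * hwx
      have e3 : x ^ 2 * (hf * w) ^ 2 = (x * (hf * w)) ^ 2 := by ring
      rw [e3]
      generalize hf * (r l + r m) = s at e1 e2 ⊢
      generalize x * (hf * w) = y at e1 e2 ⊢
      rw [e1, e2, map_add, map_sub, map_pow]
      ring
    · rw [k1, Polynomial.map_prod]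
      have := eval_ne (ρ := fun i => rs (r i)) huniq
      simpa only [Polynomial.map_sub, Polynomial.map_X, Polynomial.map_C, RingHom.coe_coe]
        using this
  · exact ⟨M, Or.inl (Or.inr ⟨rs (r l), hD, e, G, he, hG, hrk⟩)⟩

end mdl

end ZPLm

theorem t_ZPL (hKBC : Stmt_KBC) (hZL : Stmt_ZL) (hCYC : Stmt_CYC) (hZBR : Stmt_ZBR)
    (hZPC : Stmt_ZPC) (hZSD : Stmt_ZSD) (hZRK : Stmt_ZRK) (hZPM : Stmt_ZPM)
    (hZGR : Stmt_ZGR) : Stmt_ZPL := by
  intro k₁ k _ _ _ _ g d b Rb β α hg hd hdf hb hβ hα Y O _ _ _ _ _ _ _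
  obtain ⟨rs, hrs⟩ := hZRK Y.t Y.gen Y.fin O
  obtain ⟨hα1, hβα, hcoll⟩ := hZPC β α (by omega : 0 < d) hβ hα
  have hd0 : 0 < d := by omega
  set T : Y.L := algebraMap Y.F Y.L Y.t with hT
  have hTtr : Transcendental k T :=
    (transcendental_algebraMap_iff (algebraMap Y.F Y.L).injective).2 Y.tr
  have hTk : ∀ c : k, T ≠ algebraMap k Y.L c := by
    intro c hc
    exact hTtr (hc ▸ isAlgebraic_algebraMap c)
  have hinj := hβα Y.L T hTtr
  have hOinj : Function.Injective (algebraMap O Y.L) := IsFractionRing.injective O Y.L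
  have htow : ∀ c : k, algebraMap O Y.L (algebraMap k O c) = algebraMap k Y.L c := fun c =>
    (IsScalarTower.algebraMap_apply k O Y.L c).symm
  by_cases hTO : ∃ t : O, algebraMap O Y.L t = T
  · -- the parameter is integral
    obtain ⟨t, ht⟩ := hTO
    have hmap : Y.R.map (sc (1 : Y.Lˣ)) = Y.R := by
      have : sc (1 : Y.Lˣ) = AlgHom.id Y.L (LaurentSeries Y.L) := AlgHom.ext fun f => sc_one f
      rw [this, Subalgebra.map_id]
    set r : Fin b → O := fun l => algebraMap k O (algebraMap k₁ k (β l)) +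
      t ^ d * algebraMap k O (α l) with hr
    have hrL : ∀ l, algebraMap O Y.L (r l) = algebraMap k Y.L (algebraMap k₁ k (β l)) +
        T ^ d * algebraMap k Y.L (α l) := by
      intro l
      rw [hr]
      simp only [map_add, map_mul, map_pow, htow, ht]
    have hri : Function.Injective r := by
      intro l m hlm
      apply hinj
      change algebraMap k Y.L (algebraMap k₁ k (β l)) + T ^ d * algebraMap k Y.L (α l) =
        algebraMap k Y.L (algebraMap k₁ k (β m)) + T ^ d * algebraMap k Y.L (α m)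
      rw [← hrL, ← hrL, hlm]
    have hrsr : ∀ l, rs (r l) = algebraMap k₁ k (β l) + rs t ^ d * α l := by
      intro l
      rw [hr]
      simp only [map_add, map_mul, map_pow, AlgHom.commutes, Algebra.algebraMap_self_apply]
    have hkr : Kr g (Y.R.map (sc (1 : Y.Lˣ))) := by
      rw [hmap]
      exact Y.kr
    have hz : zz Y.L d ∈ Y.R.map (sc (1 : Y.Lˣ)) := by
      rw [hmap]
      exact Y.z
    have hdisc : Disc d (Y.R.map (sc (1 : Y.Lˣ))) (∏ l, (X - C (algebraMap O Y.L (r l)))) := by
      rw [hmap]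
      have h := Y.disc
      have e : ft d (fun l => algebraMap k₁ k (β l)) α (algebraMap Y.F Y.L Y.t) =
          ∏ l, (X - C (algebraMap O Y.L (r l))) := by
        rw [ft]
        refine Finset.prod_congr rfl fun l _ => ?_
        rw [hrL]
      rw [← e]
      exact h
    have key : ∃ M : Mdl k O Y.L g d (Y.R.map (sc (1 : Y.Lˣ))), M.Smo ∨ M.Nod := by
      rcases hcoll (rs t) with hi | ⟨ht0, l, m, hlm, hcol, huniq⟩
      · obtain ⟨M, hM⟩ := ZPLm.caseSep hZPM rs r hd0 hdf hb hrs hkr hz hri hdisc (by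
          intro l m hlm
          apply hi
          change rs (r l) = rs (r m) at hlm
          rw [hrsr, hrsr] at hlm
          exact hlm)
        exact ⟨M, Or.inl hM⟩
      · refine ZPLm.node hZL hCYC hZBR hZPM hZGR rs hrs hkr hz hd hdf hb
          (fun l => algebraMap k₁ k (β l)) α t r (fun l => rfl) hri hdisc ht0 ?_ hα1 l m hlm
          ?_ ?_ ?_
        · intro h0
          apply hTk (rs t)
          rw [← ht, sub_eq_zero.1 h0, htow]
          simp only [AlgHom.commutes, Algebra.algebraMap_self_apply]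
        · rw [hrsr, hrsr]
          exact hcol
        · intro i j hij
          rw [hrsr, hrsr] at hij
          exact huniq i j hij
        · intro M' hM1 hM2 T' hT1 hT2 hT3
          refine Y.mini M' ?_ T' hT1 hT2 (hT3.trans hmap)
          have hI : IntermediateField.adjoin k {Y.t} ≤
              (M'.comap (algebraMap Y.F Y.L)).toIntermediateField (fun c => by
                rw [Subfield.mem_comap, ← IsScalarTower.algebraMap_apply k Y.F Y.L, ← htow]
                exact hM1 c) := by
            rw [IntermediateField.adjoin_le_iff, Set.singleton_subset_iff]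
            change algebraMap Y.F Y.L Y.t ∈ M'
            rw [← hT, ← ht]
            exact hM2
          rw [Y.gen] at hI
          intro x
          exact hI (IntermediateField.mem_top (x := x))
    obtain ⟨M, hM⟩ := key
    refine ⟨⟨O, 1, M⟩, hM, ?_, fun x => ⟨x, rfl⟩⟩
    exact Or.inl rfl
  · -- the parameter has a pole
    have hT0 : T ≠ 0 := by
      intro h0
      exact hTO ⟨0, by rw [map_zero, h0]⟩
    obtain ⟨s, hs⟩ : ∃ s : O, algebraMap O Y.L s = T⁻¹ := by
      rcases ValuationRing.isInteger_or_isInteger O T with h | h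
      · exact absurd h hTO
      · exact h
    have hs0 : rs s = 0 := by
      by_contra hne
      obtain ⟨v, hv⟩ := ZPLm.unit_of rs hrs hne
      apply hTO
      refine ⟨(v⁻¹ : Oˣ), ?_⟩
      have h1 : algebraMap O Y.L s * algebraMap O Y.L ((v⁻¹ : Oˣ) : O) = 1 := by
        rw [← map_mul, ← hv, Units.mul_inv, map_one]
      rw [hs] at h1
      field_simp at h1
      exact h1
    set c : Y.Lˣ := Units.mk0 T hT0 with hc
    obtain ⟨hkr, hz, hsd⟩ := hZSD (d := d) c Y.kr Y.z
    set r : Fin b → O := fun l => s ^ d * algebraMap k O (algebraMap k₁ k (β l)) +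
      algebraMap k O (α l) with hr
    have hrL : ∀ l, algebraMap O Y.L (r l) = ((c⁻¹ : Y.Lˣ) : Y.L) ^ d *
        (algebraMap k Y.L (algebraMap k₁ k (β l)) + T ^ d * algebraMap k Y.L (α l)) := by
      intro l
      rw [hr]
      simp only [map_add, map_mul, map_pow, htow, hs]
      rw [hc, Units.val_inv_eq_inv_val, Units.val_mk0, mul_add, ← mul_assoc, ← mul_pow,
        inv_mul_cancel₀ hT0, one_pow, one_mul]
    have hri : Function.Injective r := by
      intro l m hlm
      apply hinj
      have h := congrArg (algebraMap O Y.L) hlm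
      rw [hrL, hrL] at h
      exact mul_left_cancel₀ (pow_ne_zero d (Units.ne_zero _)) h
    have hrsr : ∀ l, rs (r l) = α l := by
      intro l
      rw [hr]
      simp only [map_add, map_mul, map_pow, AlgHom.commutes, Algebra.algebraMap_self_apply,
        hs0, zero_pow hd0.ne', zero_mul, zero_add]
    have hdisc : Disc d (Y.R.map (sc c)) (∏ l, (X - C (algebraMap O Y.L (r l)))) := by
      have h := hsd (fun l => algebraMap k Y.L (algebraMap k₁ k (β l)) +
        T ^ d * algebraMap k Y.L (α l)) Y.disc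
      have e : (∏ l, (X - C (algebraMap O Y.L (r l)))) = ∏ l, (X - C (((c⁻¹ : Y.Lˣ) : Y.L) ^ d *
        (algebraMap k Y.L (algebraMap k₁ k (β l)) + T ^ d * algebraMap k Y.L (α l)))) :=
        Finset.prod_congr rfl fun l _ => by rw [hrL]
      rw [e]
      exact h
    obtain ⟨M, hM⟩ := ZPLm.caseSep hZPM rs r hd0 hdf hb hrs hkr hz hri hdisc (by
      intro l m hlm
      apply hα1
      change rs (r l) = rs (r m) at hlm
      rw [hrsr, hrsr] at hlm
      exact hlm)
    refine ⟨⟨O, c, M⟩, Or.inl hM, ?_, fun x => ⟨x, rfl⟩⟩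
    exact Or.inr rfl

end Pool.Agent.MG.G0
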