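import Pool.Agent.MG.G0.StmtsZH
import Pool.Agent.MG.G0.StmtsZL

/-!
# ZPM: the model at a discrete valuation ring
-/

open Polynomial

namespace Pool.Agent.MG.G0

namespace ZPM

/-- The residue field is `k`. -/
theorem algClosed {k O : Type} [Field k] [IsAlgClosed k] [CommRing O] [IsDomain O]
    [IsDiscreteValuationRing O] [Algebra k O] (rs : O →ₐ[k] k)
    (hrs : ∀ x, rs x = 0 ↔ x ∈ IsLocalRing.maximalIdeal O) :
    IsAlgClosed (IsLocalRing.ResidueField O) := by
  have hbij : Function.Bijective ((IsLocalRing.residue O).comp (algebraMap k O)) := by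
    refine ⟨RingHom.injective _, fun y => ?_⟩
    obtain ⟨x, rfl⟩ := IsLocalRing.residue_surjective y
    refine ⟨rs x, ?_⟩
    rw [RingHom.comp_apply, ← sub_eq_zero, ← map_sub, IsLocalRing.residue_eq_zero_iff, ← hrs,
      map_sub, AlgHom.commutes]
    exact sub_self _
  exact IsAlgClosed.of_ringEquiv k _ (RingEquiv.ofBijective _ hbij)

end ZPM

theorem t_ZPM (hKBC : Stmt_KBC) (hZL : Stmt_ZL) : Stmt_ZPM := by
  intro k L O _ _ _ _ _ _ _ _ _ g d b R rs π r hd hdf hb hrs hπ hR hz hr hdisc
  have hac := ZPM.algClosed rs hrs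
  have hunit : ∀ x, rs x ≠ 0 → IsUnit x := fun x hx => by
    by_contra h
    exact hx ((hrs x).2 ((IsLocalRing.mem_maximalIdeal x).2 h))
  have hdu : IsUnit ((d.factorial : ℕ) : O) := hunit _ (by rwa [map_natCast])
  have hmon : (∏ l, (X - C (r l)) : O[X]).Monic := monic_prod_X_sub_C _ _
  have hmap : (∏ l, (X - C (r l)) : O[X]).map (algebraMap O L) =
      ∏ l, (X - C (algebraMap O L (r l))) := by
    rw [Polynomial.map_prod]
    exact Finset.prod_congr rfl fun l _ => by rw [Polynomial.map_sub, map_X, map_C]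
  have hdisc' : Disc d R ((∏ l, (X - C (r l)) : O[X]).map (algebraMap O L)) := by
    rw [hmap]
    exact hdisc
  obtain ⟨h1, h2, h3, h4⟩ := hZL O L g d R _ hd hdu hR hz hmon hdisc'
  have hπ0 : rs π = 0 := (hrs π).2 ((IsLocalRing.mem_maximalIdeal π).2 hπ.not_isUnit)
  have hker : ∀ x, rs x = 0 → π ∣ x := fun x hx => by
    have h5 : x ∈ IsLocalRing.maximalIdeal O := (hrs x).1 hx
    rw [hπ.maximalIdeal_eq] at h5
    exact Ideal.mem_span_singleton.1 h5
  have hsep : ((∏ l, (X - C (r l)) : O[X]).map (algebraMap O L)).Separable := by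
    rw [hmap]
    exact separable_prod_X_sub_C_iff.2 fun i j hij =>
      hr (IsFractionRing.injective O L hij)
  have hdeg : (∏ l, (X - C (r l)) : O[X]).natDegree + 1 = 2 * g + d := by
    rw [natDegree_finsetProd_X_sub_C_eq_card, ← hb, Finset.card_univ, Fintype.card_fin]
  refine ⟨{ rs := rs, π := π, ne := hπ.ne_zero, ker := hker, rsπ := hπ0, unit := hunit,
            P := cut (algebraMap O L) R, f := ∏ l, (X - C (r l)), val := inferInstance,
            frac := inferInstance, kr := h1, z := h2, bc := h3, monic := hmon, deg := hdeg,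
            disc := hdisc', sep := hsep }, rfl, rfl, rfl, rfl, ?_, ?_, ?_⟩
  · refine h4 k (rs : O →+* k) fun x hx => ?_
    have h6 : rs x = 0 := (hrs x).2 hx
    exact ⟨1, by rw [pow_one]; exact h6⟩
  · have h7 : IsKr g (bc (rs : O →+* k) (uno (cut (algebraMap O L) R))) :=
      (hKBC.2.2.2 h1 (rs : O →+* k)).1
    rw [bc_uno] at h7
    exact h7
  · rw [← lmap_zz (rs : O →+* k) d]
    exact Algebra.subset_adjoin ⟨_, h2, rfl⟩

end Pool.Agent.MG.G0
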