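import Pool.Agent.MG.G0.StmtsB
import Pool.Agent.MG.G0.StmtsU
import Pool.Agent.MG.G0.StmtsZL
import Pool.Agent.MG.G0.SCDef

/-!
# Theorem Z: places, ordinarity, finiteness. Statements (PAPER_Z.md)
-/

open Polynomial

namespace Pool.Agent.MG.G0

/-! ## The quadratic form `res (a(z) ω ω' / dz)` -/

/-- ZLA: the corank of a matrix at a point is at most the order of the determinant. -/
def Stmt_ZLA : Prop :=
  (∀ {K : Type} [Field K] {n : ℕ} (M : Matrix (Fin n) (Fin n) K[X]) (c : K),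
    (X - C c) ^ (n - (M.map (eval c)).rank) ∣ M.det) ∧
  ∀ {K : Type} [Field K] {n : ℕ} (M : Matrix (Fin n) (Fin n) K[X]) (c : K),
    ¬ (X - C c) ^ 2 ∣ M.det → ∀ v w : Fin n → K, (M.map (eval c)).mulVec v = 0 →
      (M.map (eval c)).mulVec w = 0 → v ≠ 0 → ∃ a : K, w = a • v

/-- ZRF: the coefficient of `z⁻¹` in `N/f`, `f = ∏ (z - βₗ)`. -/
def Stmt_ZRF : Prop :=
  ∀ {K : Type} [Field K] {d b : ℕ} (β : Fin b → K), 0 < d → Function.Injective β →
    ∀ (N : K[X]) (x : LaurentSeries K), zpol K d (∏ l, (X - C (β l))) * x = zpol K d N →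
      x.coeff d = ∑ l, N.eval (β l) * (∏ m ∈ Finset.univ.erase l, (β l - β m))⁻¹

/-- ZQA: the form `res (a(z) ω ω' / dz)` is a sum of squares. -/
def Stmt_ZQA : Prop :=
  ∀ {K : Type} [Field K] {g d b : ℕ} {R : Subalgebra K (LaurentSeries K)} (β : Fin b → K),
    1 ≤ d → (d : K) ≠ 0 → Kr g R → zz K d ∈ R → Function.Injective β →
    Disc d R (∏ l, (X - C (β l))) →
    ∃ (ev : Fin b → EE1 R →ₗ[K] K) (c : Fin b → K), (∀ l, c l ≠ 0) ∧
      (∀ ω : EE1 R, (∀ l, ev l ω = 0) → ω = 0) ∧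
      ∀ (a : K[X]) (ω ω' : EE1 R) (y : LaurentSeries K),
        y * ld (zz K d) = zpol K d a * (ω : LaurentSeries K) →
        ((ω' : LaurentSeries K) * y).coeff (-1) = ∑ l, a.eval (β l) * c l * (ev l ω * ev l ω')

/-- ZQL: a generic combination of squares is nondegenerate. -/
def Stmt_ZQL : Prop :=
  ∀ {K E : Type} [Field K] [Field E] [Algebra K E] {g b : ℕ} (v : Fin b → Fin g → K)
    (c : Fin b → K) (α : Fin b → E), (∀ l, c l ≠ 0) →
    (∀ x : Fin g → K, (∀ l, ∑ i, v l i * x i = 0) → x = 0) → AlgebraicIndependent K α →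
    (∑ l, (α l * algebraMap K E (c l)) • Matrix.vecMulVec (fun i => algebraMap K E (v l i))
      (fun i => algebraMap K E (v l i)) : Matrix (Fin g) (Fin g) E).det ≠ 0

/-- ZQN: the form `res (a(z) ω ω' / dz)` is nondegenerate if the values of `a` at the branch points
are algebraically independent. -/
def Stmt_ZQN : Prop :=
  ∀ {K E : Type} [Field K] [Field E] [Algebra K E] {g d b : ℕ}
    {R : Subalgebra K (LaurentSeries K)} (β : Fin b → K) (α : Fin b → E), 1 ≤ d → (d : K) ≠ 0 →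
    Kr g R → zz K d ∈ R → Function.Injective β → Disc d R (∏ l, (X - C (β l))) →
    AlgebraicIndependent K α → ∀ a : E[X], (∀ l, a.eval (algebraMap K E (β l)) = α l) →
    ∀ μ ∈ EE1 (bc1 (algebraMap K E) R),
      (∀ ω ∈ EE1 (bc1 (algebraMap K E) R), ∀ y : LaurentSeries E,
        y * ld (zz E d) = zpol E d a * ω → (μ * y).coeff (-1) = 0) → μ = 0

/-! ## The Cartier operator -/

/-- ZCE: coefficients of `fⁿ⁻¹ df` and of `fᵖ`. -/
def Stmt_ZCE : Prop :=
  (∀ {A : Type} [CommRing A] (f : LaurentSeries A) (n : ℕ) (m : ℤ), 0 < n →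
    (f ^ (n - 1) * ld f).coeff (n * m - 1) = (m : A) * (f ^ n).coeff (n * m)) ∧
  ∀ {A : Type} [CommRing A] (p : ℕ), p.Prime → CharP A p → ∀ (f : LaurentSeries A) (m : ℤ),
    (f ^ p).coeff (p * m) = (f.coeff m) ^ p ∧ (¬ (p : ℤ) ∣ m → (f ^ p).coeff m = 0)

/-- The Cartier operator takes `η'` to `η`. -/
def Car {A : Type} [CommRing A] (p : ℕ) (η' η : LaurentSeries A) : Prop :=
  ∀ m : ℤ, η'.coeff (p * m + (p - 1)) = (η.coeff m) ^ p

/-- ZCA: properties of the Cartier operator. -/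
def Stmt_ZCA : Prop :=
  ∀ {A : Type} [CommRing A] (p : ℕ), p.Prime → CharP A p →
    (∀ f : LaurentSeries A, Car p (f ^ (p - 1) * ld f) (ld f)) ∧
    (∀ η' η f : LaurentSeries A, Car p η' η → Car p (f ^ p * η') (f * η)) ∧
    (∀ η' η ξ' ξ : LaurentSeries A, Car p η' η → Car p ξ' ξ → Car p (η' + ξ') (η + ξ)) ∧
    ∀ η' η f : LaurentSeries A, Car p η' η →
      (f ^ p * η').coeff (-1) = ((f * η).coeff (-1)) ^ p

/-- ZCI: if `vᵖ = h + o` and `dh = 0` then `v` is in `R + K[[τ]]`. -/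
def Stmt_ZCI : Prop :=
  ∀ {K : Type} [Field K] [IsAlgClosed K] (p : ℕ), p.Prime → CharP K p → ∀ {g : ℕ}
    {R : Subalgebra K (LaurentSeries K)}, Kr g R → SmC K (uno R) → Dual (uno R) →
    ∀ v h : LaurentSeries K, h ∈ R → v ^ p - h ∈ Po K 0 → ld h = 0 → ∃ q ∈ R, v - q ∈ Po K 0

/-- ZOR: the first order part of the Hasse-Witt matrix is injective. -/
def Stmt_ZOR : Prop :=
  ∀ {k₁ k : Type} [Field k₁] [Field k] [IsAlgClosed k] [Algebra k₁ k] (p : ℕ), p.Prime →
    CharP k p → ∀ {g d b : ℕ} {R : Subalgebra k₁ (LaurentSeries k₁)} (β : Fin b → k₁)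
    (α : Fin b → k), 1 ≤ d → (d : k) ≠ 0 → Kr g R → zz k₁ d ∈ R → Function.Injective β →
    Disc d R (∏ l, (X - C (β l))) → SmC k (uno (bc1 (algebraMap k₁ k) R)) →
    Dual (uno (bc1 (algebraMap k₁ k) R)) → Ssp p (bc1 (algebraMap k₁ k) R) →
    AlgebraicIndependent k₁ α → ∀ a : k[X], (∀ l, a.eval (algebraMap k₁ k (β l)) = α l) →
    ∀ μ ∈ EE1 (bc1 (algebraMap k₁ k) R),
      (∀ v h y : LaurentSeries k, h ∈ bc1 (algebraMap k₁ k) R → v ^ p - h ∈ Po k 0 →
        y * ld (zz k d) = zpol k d a * ld h → (μ * y).coeff (-1) = 0) → μ = 0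

/-- `f ↦ fᵖ` on `A((τ))/(R + A[[τ]])` has an injective transpose. -/
def Ord {A : Type} [CommRing A] (p : ℕ) (R : Subalgebra A (LaurentSeries A)) : Prop :=
  ∀ μ ∈ EE1 R, (∀ f : LaurentSeries A, (μ * f ^ p).coeff (-1) = 0) → μ = 0

/-- The first order part of the family `RI` over `k[[t]]` is `1 - tᵈ a(z) d/dz`. -/
def Fst {k : Type} [Field k] (d : ℕ) (Rb : Subalgebra k (LaurentSeries k))
    (RI : Subalgebra (PowerSeries k) (LaurentSeries (PowerSeries k))) (a : k[X]) : Prop :=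
  ∀ h ∈ Rb, ∃ (y : LaurentSeries k) (w : LaurentSeries (PowerSeries k)),
    y * ld (zz k d) = zpol k d a * ld h ∧
    lmap (PowerSeries.C (R := k)) h - (PowerSeries.X : PowerSeries k) ^ d •
      lmap (PowerSeries.C (R := k)) y + (PowerSeries.X : PowerSeries k) ^ (d + 1) • w ∈ RI

/-- ZOI: ordinarity of the family over `k((t))`. -/
def Stmt_ZOI : Prop :=
  ∀ {k : Type} [Field k] (p : ℕ), p.Prime → CharP k p → ∀ {g d : ℕ}
    {Rb : Subalgebra k (LaurentSeries k)}
    {RI : Subalgebra (PowerSeries k) (LaurentSeries (PowerSeries k))} (a : k[X]), 1 ≤ d →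
    (d : k) ≠ 0 → Kr g Rb → Kr g RI → bc1 (PowerSeries.constantCoeff (R := k)) RI = Rb →
    Fst d Rb RI a →
    (∀ μ ∈ EE1 Rb, (∀ v h y : LaurentSeries k, h ∈ Rb → v ^ p - h ∈ Po k 0 →
      y * ld (zz k d) = zpol k d a * ld h → (μ * y).coeff (-1) = 0) → μ = 0) →
    Ord p (bc1 (psl k) RI)

/-- ZOD: descent of ordinarity. -/
def Stmt_ZOD : Prop :=
  ∀ {L Ω : Type} [Field L] [Field Ω] (ψ : L →+* Ω) (p : ℕ), p.Prime → CharP L p → ∀ {g : ℕ}
    {R : Subalgebra L (LaurentSeries L)}, Kr g R → Ord p (bc1 ψ R) → Ord p R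

/-! ## Multilinear forms -/

section

variable {A : Type} [CommRing A]

/-- The functional `μ ↦ res (μ f)`. -/
noncomputable def rf (R : Subalgebra A (LaurentSeries A)) (f : LaurentSeries A) :
    EE1 R →ₗ[A] A where
  toFun μ := ((μ : LaurentSeries A) * f).coeff (-1)
  map_add' x y := by
    rw [Submodule.coe_add, add_mul, HahnSeries.coeff_add]
  map_smul' a x := by
    rw [Submodule.coe_smul, smul_mul_assoc, HahnSeries.coeff_smul, RingHom.id_apply]

theorem rf_apply (R : Subalgebra A (LaurentSeries A)) (f : LaurentSeries A) (μ : EE1 R) :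
    rf R f μ = ((μ : LaurentSeries A) * f).coeff (-1) := rfl

/-- The multilinear form `∑ᵢ aᵢ ∏ⱼ res (μⱼ fᵢⱼ)`. -/
noncomputable def tns (R : Subalgebra A (LaurentSeries A)) {ι : Type} [Fintype ι] {r : ℕ}
    (a : ι → A) (f : ι → Fin r → LaurentSeries A) :
    MultilinearMap A (fun _ : Fin r => EE1 R) A :=
  ∑ i, a i • (MultilinearMap.mkPiAlgebra A (Fin r) A).compLinearMap fun j => rf R (f i j)

theorem tns_apply (R : Subalgebra A (LaurentSeries A)) {ι : Type} [Fintype ι] {r : ℕ}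
    (a : ι → A) (f : ι → Fin r → LaurentSeries A) (μ : Fin r → EE1 R) :
    tns R a f μ = ∑ i, a i * ∏ j, ((μ j : LaurentSeries A) * f i j).coeff (-1) := by
  rw [tns, sum_apply]
  refine Finset.sum_congr rfl fun i _ => ?_
  rw [smul_apply, MultilinearMap.compLinearMap_apply,
    MultilinearMap.mkPiAlgebra_apply, smul_eq_mul]
  rfl

end

/-- ZFF: the Frobenius on multilinear forms. -/
def Stmt_ZFF : Prop :=
  ∀ {L : Type} [Field L] (p : ℕ), p.Prime → CharP L p → ∀ {g : ℕ}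
    {R : Subalgebra L (LaurentSeries L)}, Kr g R → ∀ r : ℕ,
    ∃ F : MultilinearMap L (fun _ : Fin r => EE1 R) L → MultilinearMap L (fun _ : Fin r => EE1 R) L,
      (∀ {ι : Type} [Fintype ι] (a : ι → L) (f : ι → Fin r → LaurentSeries L),
        F (tns R a f) = tns R (fun i => a i ^ p) fun i j => f i j ^ p) ∧
      (∀ S T, F (S + T) = F S + F T) ∧ (∀ (c : L) S, F (c • S) = c ^ p • F S) ∧
      (Ord p R → ∀ S, F S = 0 → S = 0)

/-- ZFE: expansion of multilinear forms at a place. -/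
def Stmt_ZFE : Prop :=
  ∀ {k L : Type} [Field k] [Field L] [Algebra k L] {g d : ℕ}
    {R : Subalgebra L (LaurentSeries L)} (v : Plc k L g d R), 1 ≤ g →
    (∀ (μ : EE1 R) (η : EE1 v.M.P), lmap (algebraMap v.O L) (η : LaurentSeries v.O) =
        ((v.c⁻¹ : Lˣ) : L) • sc v.c (μ : LaurentSeries L) → ∀ x : LaurentSeries v.O,
      ((μ : LaurentSeries L) * sc v.c⁻¹ (lmap (algebraMap v.O L) x)).coeff (-1) =
        algebraMap v.O L (((η : LaurentSeries v.O) * x).coeff (-1))) ∧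
    ∃ (ω : Fin g → EE1 R) (η : Fin g → EE1 v.M.P) (f : Fin g → LaurentSeries v.O),
      (∀ i, lmap (algebraMap v.O L) (η i : LaurentSeries v.O) =
        ((v.c⁻¹ : Lˣ) : L) • sc v.c (ω i : LaurentSeries L)) ∧
      (∀ i, f i ∈ Po v.O (2 * g - 1)) ∧
      ∀ (r : ℕ) (S : MultilinearMap L (fun _ : Fin r => EE1 R) L),
        S = tns R (fun K : Fin r → Fin g => S fun j => ω (K j))
          fun K j => sc v.c⁻¹ (lmap (algebraMap v.O L) (f (K j)))

/-- The values of `S` at the place `v` are divisible by `πⁿ`. -/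
def Plc.IntN {k L : Type} [Field k] [Field L] [Algebra k L] {g d : ℕ}
    {R : Subalgebra L (LaurentSeries L)} (v : Plc k L g d R) (n : ℕ) {r : ℕ}
    (S : MultilinearMap L (fun _ : Fin r => EE1 R) L) : Prop :=
  ∀ (ω : Fin r → EE1 R) (η : Fin r → EE1 v.M.P),
    (∀ i, lmap (algebraMap v.O L) (η i : LaurentSeries v.O) =
      ((v.c⁻¹ : Lˣ) : L) • sc v.c (ω i : LaurentSeries L)) →
    ∃ x : v.O, algebraMap v.O L (v.M.π ^ n * x) = S ω

/-- ZFC: the Frobenius preserves integral forms, and contracts at superspecial places. -/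
def Stmt_ZFC : Prop :=
  ∀ {k L : Type} [Field k] [Field L] [Algebra k L] (p : ℕ), p.Prime → CharP k p → ∀ {g d r : ℕ}
    {R : Subalgebra L (LaurentSeries L)} (v : Plc k L g d R), 1 ≤ g →
    ∀ F : MultilinearMap L (fun _ : Fin r => EE1 R) L →
      MultilinearMap L (fun _ : Fin r => EE1 R) L,
    (∀ {ι : Type} [Fintype ι] (a : ι → L) (f : ι → Fin r → LaurentSeries L),
        F (tns R a f) = tns R (fun i => a i ^ p) fun i j => f i j ^ p) →
    (∀ S, v.Int S → v.Int (F S)) ∧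
    (1 ≤ r → Ssp p v.M.Pb → ∀ (n : ℕ) (S), v.IntN n S → v.IntN (n + 1) (F S)) ∧
    ((∀ x : v.O, (∀ n : ℕ, v.M.π ^ n ∣ x) → x = 0) →
      ∀ S : MultilinearMap L (fun _ : Fin r => EE1 R) L, (∀ n, v.IntN n S) → S = 0)

/-- ZSL: injective semilinear maps. -/
def Stmt_ZSL : Prop :=
  ∀ {k V : Type} [Field k] [IsAlgClosed k] [AddCommGroup V] [Module k V] (p : ℕ), p.Prime →
    CharP k p → ∀ H : Submodule k V, FiniteDimensional k H → ∀ F : V → V,
    (∀ x y, F (x + y) = F x + F y) → (∀ (a : k) (x : V), F (a • x) = a ^ p • F x) →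
    (∀ x ∈ H, F x ∈ H) → (∀ x ∈ H, F x = 0 → x = 0) → ∀ x ∈ H, ∃ y ∈ H, F y = x

/-! ## Finiteness -/

/-- ZIC: integrality over `k[s]` in a finite separable extension of `F = k(s)`. -/
def Stmt_ZIC : Prop :=
  ∀ {k F L : Type} [Field k] [Field F] [Field L] [Algebra k F] [Algebra F L] [Algebra k L]
    [IsScalarTower k F L] (s : F), Transcendental k s → IntermediateField.adjoin k {s} = ⊤ →
    FiniteDimensional F L → Algebra.IsSeparable F L →
    (∀ y : L, (∀ (O : Type) [CommRing O] [IsDomain O] [IsDiscreteValuationRing O] [Algebra k O]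
      [Algebra O L] [IsScalarTower k O L] [IsFractionRing O L],
        (∃ x : O, algebraMap O L x = algebraMap F L s) → ∃ x : O, algebraMap O L x = y) →
      ((algebraMap F L).comp (aeval (R := k) s).toRingHom).IsIntegralElem y) ∧
    (∀ y : L, ((algebraMap F L).comp (aeval (R := k) s).toRingHom).IsIntegralElem y →
      ∃ q : k[X], Algebra.trace F L y = aeval s q) ∧
    ∀ c : L, ∃ h : k[X], h ≠ 0 ∧
      ((algebraMap F L).comp (aeval (R := k) s).toRingHom).IsIntegralElem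
        (algebraMap F L (aeval s h) * c)

/-- ZRW: functions on the projective line with bounded denominators. -/
def Stmt_ZRW : Prop :=
  ∀ {k F : Type} [Field k] [Field F] [Algebra k F] (t : F), Transcendental k t →
    ∀ h h' : k[X], h ≠ 0 → h' ≠ 0 → ∃ W : Submodule k F, FiniteDimensional k W ∧
      ∀ x : F, (∃ q : k[X], aeval t h * x = aeval t q) →
        (∃ q : k[X], aeval t⁻¹ h' * x = aeval t⁻¹ q) → x ∈ W

/-- ZRR: the elements of `L` with bounded denominators at all discrete valuation rings are a finite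
dimensional space. -/
def Stmt_ZRR : Prop :=
  ∀ {k F L : Type} [Field k] [Field F] [Field L] [Algebra k F] [Algebra F L] [Algebra k L]
    [IsScalarTower k F L] (t : F), Transcendental k t → IntermediateField.adjoin k {t} = ⊤ →
    FiniteDimensional F L → Algebra.IsSeparable F L → ∀ s : Finset L,
    ∃ V : Submodule k L, FiniteDimensional k V ∧ ∀ y : L,
      (∀ (O : Type) [CommRing O] [IsDomain O] [IsDiscreteValuationRing O] [Algebra k O]
        [Algebra O L] [IsScalarTower k O L] [IsFractionRing O L],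
        y ∈ Submodule.span O (s : Set L)) → y ∈ V

/-- `T` contains a place for every discrete valuation ring, with scaling in the set `cs`. -/
def Enough {k L : Type} [Field k] [Field L] [Algebra k L] {g d : ℕ}
    {R : Subalgebra L (LaurentSeries L)} (T : Plc k L g d R → Prop) (cs : Set L) : Prop :=
  ∀ (O : Type) [CommRing O] [IsDomain O] [IsDiscreteValuationRing O] [Algebra k O]
    [Algebra O L] [IsScalarTower k O L] [IsFractionRing O L],
    ∃ v : Plc k L g d R, T v ∧ (v.c : L) ∈ cs ∧ ∀ x : v.O, ∃ y : O,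
      algebraMap O L y = algebraMap v.O L x

/-- ZFD: the integral multilinear forms are contained in a finite dimensional space, and the
integral elements of `L` are constants. -/
def Stmt_ZFD : Prop :=
  ∀ {k F L : Type} [Field k] [IsAlgClosed k] [Field F] [Field L] [Algebra k F] [Algebra F L]
    [Algebra k L] [IsScalarTower k F L] (t : F), Transcendental k t →
    IntermediateField.adjoin k {t} = ⊤ → FiniteDimensional F L → Algebra.IsSeparable F L →
    ∀ {g d : ℕ} {R : Subalgebra L (LaurentSeries L)} (T : Plc k L g d R → Prop) (cs : Set L),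
    cs.Finite → 1 ≤ g → Kr g R → Enough T cs →
    (∀ r : ℕ, ∃ V : Submodule k (MultilinearMap L (fun _ : Fin r => EE1 R) L),
      FiniteDimensional k V ∧ ∀ S, (∀ v, T v → v.Int S) → S ∈ V) ∧
    ∀ s : L, (∀ v, T v → ∃ x : v.O, algebraMap v.O L x = s) → ∃ a : k, algebraMap k L a = s

/-- ZFV: the vanishing theorem (ZF3). -/
def Stmt_ZFV : Prop :=
  ∀ {k F L : Type} [Field k] [IsAlgClosed k] [Field F] [Field L] [Algebra k F] [Algebra F L]
    [Algebra k L] [IsScalarTower k F L] (t : F), Transcendental k t →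
    IntermediateField.adjoin k {t} = ⊤ → FiniteDimensional F L → Algebra.IsSeparable F L →
    ∀ p : ℕ, p.Prime → CharP k p →
    ∀ {g d : ℕ} {R : Subalgebra L (LaurentSeries L)} (T : Plc k L g d R → Prop) (cs : Set L),
    cs.Finite → 1 ≤ g → Kr g R → Enough T cs → Ord p R →
    ∀ v₀ : Plc k L g d R, T v₀ → Ssp p v₀.M.Pb →
    (∀ x : v₀.O, (∀ n : ℕ, v₀.M.π ^ n ∣ x) → x = 0) →
    ∀ (r : ℕ), 1 ≤ r → ∀ S : MultilinearMap L (fun _ : Fin r => EE1 R) L,
      (∀ v, T v → v.Int S) → S = 0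

/-! ## Places -/

/-- ZPC: collisions of the branch points. -/
def Stmt_ZPC : Prop :=
  ∀ {k₁ k : Type} [Field k₁] [Field k] [Algebra k₁ k] {b d : ℕ} (β : Fin b → k₁)
    (α : Fin b → k), 0 < d → Function.Injective β → AlgebraicIndependent k₁ α →
    Function.Injective α ∧
    (∀ (L : Type) [Field L] [Algebra k L] (t : L), Transcendental k t → Function.Injective
      fun l => algebraMap k L (algebraMap k₁ k (β l)) + t ^ d * algebraMap k L (α l)) ∧
    ∀ t₀ : k, (Function.Injective fun l => algebraMap k₁ k (β l) + t₀ ^ d * α l) ∨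
      t₀ ≠ 0 ∧ ∃ l m : Fin b, l ≠ m ∧
        algebraMap k₁ k (β l) + t₀ ^ d * α l = algebraMap k₁ k (β m) + t₀ ^ d * α m ∧
        ∀ l' m' : Fin b, algebraMap k₁ k (β l') + t₀ ^ d * α l' =
          algebraMap k₁ k (β m') + t₀ ^ d * α m' →
          l' = m' ∨ (l' = l ∧ m' = m) ∨ (l' = m ∧ m' = l)

/-- ZSD: scaling of Krichever rings and discriminants. -/
def Stmt_ZSD : Prop :=
  ∀ {A : Type} [CommRing A] {g d : ℕ} {R : Subalgebra A (LaurentSeries A)} (c : Aˣ), Kr g R →
    zz A d ∈ R → Kr g (R.map (sc c)) ∧ zz A d ∈ R.map (sc c) ∧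
    ∀ {b : ℕ} (r : Fin b → A), Disc d R (∏ l, (X - C (r l))) →
      Disc d (R.map (sc c)) (∏ l, (X - C (((c⁻¹ : Aˣ) : A) ^ d * r l)))

/-- ZRK: the residue field of a discrete valuation ring of a function field of one variable. -/
def Stmt_ZRK : Prop :=
  ∀ {k F L : Type} [Field k] [IsAlgClosed k] [Field F] [Field L] [Algebra k F] [Algebra F L]
    [Algebra k L] [IsScalarTower k F L] (t : F), IntermediateField.adjoin k {t} = ⊤ →
    FiniteDimensional F L → ∀ (O : Type) [CommRing O] [IsDomain O] [IsDiscreteValuationRing O]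
    [Algebra k O] [Algebra O L] [IsScalarTower k O L] [IsFractionRing O L],
    ∃ rs : O →ₐ[k] k, ∀ x, rs x = 0 ↔ x ∈ IsLocalRing.maximalIdeal O

/-- ZPM: the model at a discrete valuation ring. -/
def Stmt_ZPM : Prop :=
  ∀ {k L O : Type} [Field k] [IsAlgClosed k] [Field L] [CommRing O] [IsDomain O]
    [IsDiscreteValuationRing O] [Algebra k O] [Algebra O L] [IsFractionRing O L] {g d b : ℕ}
    {R : Subalgebra L (LaurentSeries L)} (rs : O →ₐ[k] k) (π : O) (r : Fin b → O), 0 < d →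
    ((d.factorial : ℕ) : k) ≠ 0 → b + 1 = 2 * g + d →
    (∀ x, rs x = 0 ↔ x ∈ IsLocalRing.maximalIdeal O) → Irreducible π → Kr g R → zz L d ∈ R →
    Function.Injective r → Disc d R (∏ l, (X - C (algebraMap O L (r l)))) →
    ∃ M : Mdl k O L g d R, M.rs = rs ∧ M.π = π ∧ M.P = cut (algebraMap O L) R ∧
      M.f = ∏ l, (X - C (r l)) ∧ Disc d M.Pb M.fb ∧ Kr g M.Pb ∧ zz k d ∈ M.Pb

/-- ZGR: ranks of a matrix at simple and double roots of its determinant. -/
def Stmt_ZGR : Prop :=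
  ∀ {κ : Type} [Field κ] {d : ℕ} (G : Matrix (Fin d) (Fin d) κ[X]) (u f : κ[X]), 2 ≤ d →
    IsUnit u → G.det = u * f →
    (∀ c, ¬ (X - C c) ^ 2 ∣ f → d ≤ (G.map (eval c)).rank + 1) ∧
    ∀ (c : κ) (h : κ[X]), f = (X - C c) ^ 2 * h → h.eval c ≠ 0 →
      (G.map (eval c)).rank = d - 1 ∨ (G.map (eval c)).rank = d - 2

/-- The family of covers through `Rb`, over a finite separable extension `L` of `F = k(t)`. -/
structure Fam (k : Type) [Field k] (g d b : ℕ) (Rb : Subalgebra k (LaurentSeries k))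
    (β α : Fin b → k) where
  /-- the field `k(t)` -/
  F : Type
  /-- the finite extension -/
  L : Type
  [fF : Field F]
  [fL : Field L]
  [kF : Algebra k F]
  [kL : Algebra k L]
  [FL : Algebra F L]
  [tow : IsScalarTower k F L]
  /-- the parameter -/
  t : F
  /-- the family -/
  R : Subalgebra L (LaurentSeries L)
  /-- the embedding in `k((t))` -/
  ψ : L →ₐ[k] LaurentSeries k
  /-- the family over `k[[t]]` -/
  RI : Subalgebra (PowerSeries k) (LaurentSeries (PowerSeries k))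
  tr : Transcendental k t
  gen : IntermediateField.adjoin k {t} = ⊤
  fin : FiniteDimensional F L
  sep : Algebra.IsSeparable F L
  ψt : ψ (algebraMap F L t) = HahnSeries.single 1 1
  kr : Kr g R
  z : zz L d ∈ R
  disc : Disc d R (ft d β α (algebraMap F L t))
  krI : Kr g RI
  redI : bc1 (PowerSeries.constantCoeff (R := k)) RI = Rb
  bcI : bc1 (ψ : L →+* LaurentSeries k) R = bc1 (psl k) RI
  first : ∃ a : k[X], (∀ l, a.eval (β l) = α l) ∧ Fst d Rb RI a
  mini : ∀ M : Subfield L, (∀ x : F, algebraMap F L x ∈ M) →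
    ∀ T : Subalgebra M (LaurentSeries M), Kr g T → zz M d ∈ T → bc1 M.subtype T = R → M = ⊤

attribute [instance] Fam.fF Fam.fL Fam.kF Fam.kL Fam.FL Fam.tow

/-- ZFM: the family exists. -/
def Stmt_ZFM : Prop :=
  ∀ {k : Type} [Field k] {g d b : ℕ} {Rb : Subalgebra k (LaurentSeries k)} (β α : Fin b → k),
    1 ≤ d → ((2 * d : ℕ) : k) ≠ 0 → Kr g Rb → zz k d ∈ Rb → Function.Injective β →
    Disc d Rb (∏ l, (X - C (β l))) → Nonempty (Fam k g d b Rb β α)

/-- The places with smooth or nodal reduction. -/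
def Plc.Tst {k L : Type} [Field k] [Field L] [Algebra k L] {g d : ℕ}
    {R : Subalgebra L (LaurentSeries L)} (v : Plc k L g d R) : Prop := v.M.Smo ∨ v.M.Nod

/-- ZPL: every discrete valuation ring is a place with smooth or nodal reduction. -/
def Stmt_ZPL : Prop :=
  ∀ {k₁ k : Type} [Field k₁] [Field k] [IsAlgClosed k] [Algebra k₁ k] {g d b : ℕ}
    (Rb : Subalgebra k (LaurentSeries k)) (β : Fin b → k₁) (α : Fin b → k), 1 ≤ g → 2 ≤ d →
    ((d.factorial : ℕ) : k) ≠ 0 → b + 1 = 2 * g + d → Function.Injective β →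
    AlgebraicIndependent k₁ α → ∀ Y : Fam k g d b Rb (fun l => algebraMap k₁ k (β l)) α,
    Enough (Plc.Tst : Plc k Y.L g d Y.R → Prop) {1, algebraMap Y.F Y.L Y.t}

/-- ZOB: the discrete valuation ring given by an embedding in `k((t))`. -/
def Stmt_ZOB : Prop :=
  ∀ {k L : Type} [Field k] [Field L] [Algebra k L] (ψ : L →ₐ[k] LaurentSeries k) (t : L),
    ψ t = HahnSeries.single 1 1 →
    ∃ (O : Type) (_ : CommRing O) (_ : IsDomain O) (_ : IsDiscreteValuationRing O)
      (_ : Algebra k O) (_ : Algebra O L) (_ : IsScalarTower k O L) (_ : IsFractionRing O L)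
      (j : O →ₐ[k] PowerSeries k) (x : O), algebraMap O L x = t ∧ Irreducible x ∧
      (∀ y : O, psl k (j y) = ψ (algebraMap O L y)) ∧
      ∀ y : O, PowerSeries.constantCoeff (j y) = 0 ↔ y ∈ IsLocalRing.maximalIdeal O

/-- ZPB: the reduction at the base point. -/
def Stmt_ZPB : Prop :=
  ∀ {k L O : Type} [Field k] [Field L] [CommRing O] [Algebra O L] {g : ℕ} (ψ : L →+* LaurentSeries k)
    (j : O →+* PowerSeries k) (R : Subalgebra L (LaurentSeries L))
    (RI : Subalgebra (PowerSeries k) (LaurentSeries (PowerSeries k))), Kr g RI →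
    Kr g (cut (algebraMap O L) R) → bc1 ψ R = bc1 (psl k) RI →
    (∀ y : O, psl k (j y) = ψ (algebraMap O L y)) →
    bc1 ((PowerSeries.constantCoeff (R := k)).comp j) (cut (algebraMap O L) R) =
      bc1 (PowerSeries.constantCoeff (R := k)) RI

/-- ZZZ: Theorem Z. -/
def Stmt_ZZZ : Prop :=
  ∀ {k₁ k : Type} [Field k₁] [Field k] [IsAlgClosed k] [Algebra k₁ k] (p : ℕ), p.Prime →
    CharP k p → ∀ {g d b : ℕ} {R₁ : Subalgebra k₁ (LaurentSeries k₁)} (β : Fin b → k₁)
    (α : Fin b → k), 1 ≤ g → 2 ≤ d → ((d.factorial : ℕ) : k) ≠ 0 → b + 1 = 2 * g + d → Kr g R₁ →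
    zz k₁ d ∈ R₁ → Function.Injective β → Disc d R₁ (∏ l, (X - C (β l))) →
    SmC k (uno (bc1 (algebraMap k₁ k) R₁)) → Dual (uno (bc1 (algebraMap k₁ k) R₁)) →
    Ssp p (bc1 (algebraMap k₁ k) R₁) → AlgebraicIndependent k₁ α →
    ∃ (L : Type) (_ : Field L) (_ : Algebra k L) (t : L) (R : Subalgebra L (LaurentSeries L)),
      Transcendental k t ∧ Kr g R ∧ zz L d ∈ R ∧
      Disc d R (ft d (fun l => algebraMap k₁ k (β l)) α t) ∧
      (∃ v : Plc k L g d R, v.Tst ∧ v.c = 1 ∧ v.M.Pb = bc1 (algebraMap k₁ k) R₁) ∧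
      (∀ s : L, (∀ v : Plc k L g d R, v.Tst → ∃ x : v.O, algebraMap v.O L x = s) →
        ∃ a : k, algebraMap k L a = s) ∧
      ∀ r : ℕ, 1 ≤ r → ∀ S : MultilinearMap L (fun _ : Fin r => EE1 R) L,
        (∀ v : Plc k L g d R, v.Tst → v.Int S) → S = 0

end Pool.Agent.MG.G0
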