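import Mathlib
import Pool.Agent.MG.G0.StmtsZH
import Pool.Agent.MG.G0.KIL
import Pool.Agent.MG.G0.KRK

/-!
# ZQA: the form `res (a(z) ω ω' / dz)` is a sum of squares
-/

open Polynomial

namespace Pool.Agent.MG.G0

namespace ZQA

variable {K : Type} [Field K] {g d b : ℕ} {R : Subalgebra K (LaurentSeries K)}

/-- The products with the elements of `R` have no residue. -/
def Pe (R : Subalgebra K (LaurentSeries K)) (η : LaurentSeries K) : Prop :=
  ∀ p ∈ R, (η * p).coeff (-1) = 0

theorem pe_of (ω : EE1 R) : Pe R (ω : LaurentSeries K) := ω.2.1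

theorem pe_of_mem {ω : LaurentSeries K} (h : ω ∈ EE1 R) : Pe R ω := h.1

/-- `w` is orthogonal to `R` modulo `z - c`. -/
def Rad (d : ℕ) (R : Subalgebra K (LaurentSeries K)) (c : K) (w : LaurentSeries K) : Prop :=
  ∀ p ∈ R, ∃ q : K[X], pr0 K d (w * p) = zpol K d ((X - C c) * q)

/-- `w` is divisible by `z - c` in `R`. -/
def Dv (d : ℕ) (R : Subalgebra K (LaurentSeries K)) (c : K) (w : LaurentSeries K) : Prop :=
  ∃ r ∈ R, w = zpol K d (X - C c) * r

theorem polyV (hd : 0 < d) (hdu : (d : K) ≠ 0) (hz : zz K d ∈ R) {V : LaurentSeries K}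
    (hV : V * ld (zz K d) = 1) {η : LaurentSeries K} (hη : Pe R η) {p : LaurentSeries K}
    (hp : p ∈ R) : ∃ q : K[X], pr0 K d (η * V * p) = zpol K d q := by
  refine KIL.exists_poly hd _ fun k => ?_
  have h1 := hη (zz K d ^ k * p) (mul_mem (pow_mem hz k) hp)
  have h2 : η * (zz K d ^ k * p) = (zz K d ^ k * (η * V * p)) * ld (zz K d) := by
    have : zz K d ^ k * (η * V * p) * ld (zz K d) =
        zz K d ^ k * (η * p) * (V * ld (zz K d)) := by ring
    rw [this, hV]
    ring
  rw [h2, KIL.coeff_mul_ld_zz, KIL.coeff_zzpow_mul] at h1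
  exact (mul_eq_zero.1 h1).resolve_left (neg_ne_zero.2 hdu)

theorem div_of_eval (hz : zz K d ∈ R) {ι : Type} [Fintype ι] {e : ι → LaurentSeries K}
    (he : ∀ i, e i ∈ R) (c : ι → K[X]) (β : K) (h : ∀ i, (c i).eval β = 0) :
    Dv d R β (∑ i, zpol K d (c i) * e i) := by
  have h1 : ∀ i, ∃ q, c i = (X - C β) * q := fun i => dvd_iff_isRoot.2 (h i)
  choose q hq using h1
  refine ⟨∑ i, zpol K d (q i) * e i,
    Subalgebra.sum_mem _ fun i _ => mul_mem (KRK.zpol_mem hz _) (he i), ?_⟩
  rw [Finset.mul_sum]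
  refine Finset.sum_congr rfl fun i _ => ?_
  rw [← mul_assoc, ← map_mul, ← hq i]

theorem gram_eval {e : Fin d → LaurentSeries K} {G : Matrix (Fin d) (Fin d) K[X]} (hd : d ≠ 0)
    (he : ∀ i, e i ∈ R) (hG : ZGram d e G) {c : Fin d → K[X]} {w : LaurentSeries K} {β : K}
    (hw : w = ∑ i, zpol K d (c i) * e i) (hr : Rad d R β w) :
    (G.map (eval β)).mulVec (fun i => (c i).eval β) = 0 := by
  funext j
  obtain ⟨q, hq⟩ := hr (e j) (he j)
  have h1 : zpol K d (∑ i, G j i * c i) = zpol K d ((X - C β) * q) := by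
    rw [← hq, hw, Finset.sum_mul, map_sum, map_sum]
    refine Finset.sum_congr rfl fun i _ => ?_
    rw [map_mul, hG, mul_assoc, pr0_zpol_mul, mul_comm (e i) (e j), mul_comm]
  have h2 := KRK.zpol_inj hd h1
  have h3 := congrArg (eval β) h2
  rw [eval_finsetSum, eval_mul, eval_sub, eval_X, eval_C, sub_self, zero_mul] at h3
  rw [Matrix.mulVec, dotProduct, Pi.zero_apply, ← h3]
  refine Finset.sum_congr rfl fun i _ => ?_
  rw [Matrix.map_apply, eval_mul]

theorem radical_prop (hLA : Stmt_ZLA) {e : Fin d → LaurentSeries K}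
    {G : Matrix (Fin d) (Fin d) K[X]} (hd : d ≠ 0) (hz : zz K d ∈ R) (hb : ZBas d R e)
    (hG : ZGram d e G) {β : K} (hdet : ¬ (X - C β) ^ 2 ∣ G.det) {w w' : LaurentSeries K}
    (hw : w ∈ R) (hw' : w' ∈ R) (hr : Rad d R β w) (hr' : Rad d R β w') (hn : ¬ Dv d R β w) :
    ∃ a : K, Dv d R β (w' - a • w) := by
  obtain ⟨c, hc, -⟩ := hb.uni w hw
  obtain ⟨c', hc', -⟩ := hb.uni w' hw'
  have h1 := gram_eval hd hb.mem hG hc hr
  have h2 := gram_eval hd hb.mem hG hc' hr'
  have h3 : (fun i => (c i).eval β) ≠ 0 := by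
    intro h0
    apply hn
    rw [hc]
    exact div_of_eval hz hb.mem c β fun i => congrFun h0 i
  obtain ⟨a, ha⟩ := hLA.2 G β hdet _ _ h1 h2 h3
  refine ⟨a, ?_⟩
  have h4 : w' - a • w = ∑ i, zpol K d (c' i - a • c i) * e i := by
    rw [hc, hc', Finset.smul_sum, ← Finset.sum_sub_distrib]
    refine Finset.sum_congr rfl fun i _ => ?_
    rw [map_sub, map_smul, sub_mul, smul_mul_assoc]
  rw [h4]
  refine div_of_eval hz hb.mem _ β fun i => ?_
  have h5 := congrFun ha i
  rw [Pi.smul_apply] at h5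
  rw [eval_sub, eval_smul, h5, sub_self]

theorem dv_smul {c : K} {w : LaurentSeries K} (a : K) (h : Dv d R c w) : Dv d R c (a • w) := by
  obtain ⟨r, hr, rfl⟩ := h
  exact ⟨a • r, R.smul_mem hr a, by rw [mul_smul_comm]⟩

theorem dv_add {c : K} {w w' : LaurentSeries K} (h : Dv d R c w) (h' : Dv d R c w') :
    Dv d R c (w + w') := by
  obtain ⟨r, hr, rfl⟩ := h
  obtain ⟨r', hr', rfl⟩ := h'
  exact ⟨r + r', add_mem hr hr', by rw [mul_add]⟩

theorem dv_sub {c : K} {w w' : LaurentSeries K} (h : Dv d R c w) (h' : Dv d R c w') :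
    Dv d R c (w - w') := by
  have h1 := dv_add h (dv_smul (-1) h')
  rwa [neg_one_smul, ← sub_eq_add_neg] at h1

theorem zpol_ne_zero (hd : d ≠ 0) {p : K[X]} (hp : p ≠ 0) : zpol K d p ≠ 0 := by
  intro h
  apply hp
  refine KRK.zpol_inj hd ?_
  rw [h, map_zero]

theorem mem_of_pdp (hPDP : Stmt_PDP) (hR : Kr g R) (u : LaurentSeries K)
    (h : ∀ η : LaurentSeries K, Pe R η → (η * u).coeff (-1) = 0) : u ∈ R := by
  have h1 := hPDP hR (fun _ => u) (by
    intro η hη
    have h2 : res (η * fun _ => u) = (η () * u).coeff (-1) := by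
      change ∑ i : Unit, ((η * (fun _ => u : KK Unit K)) i).coeff (-1) = _
      rw [Finset.univ_unique, Finset.sum_singleton]
      rfl
    rw [h2]
    refine h _ fun p hp => ?_
    have h3 := hη (fun _ => p) hp
    have h4 : res (η * fun _ => p) = (η () * p).coeff (-1) := by
      change ∑ i : Unit, ((η * (fun _ => p : KK Unit K)) i).coeff (-1) = _
      rw [Finset.univ_unique, Finset.sum_singleton]
      rfl
    rwa [h4] at h3)
  exact h1

section

variable {V : LaurentSeries K} {f f' : K[X]} {β : K}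

/-- The quotient `f(z) η / dz`. -/
noncomputable def W (d : ℕ) (f : K[X]) (V η : LaurentSeries K) : LaurentSeries K :=
  zpol K d f * (η * V)

theorem W_add (d : ℕ) (f : K[X]) (V η η' : LaurentSeries K) :
    W d f V (η + η') = W d f V η + W d f V η' := by
  rw [W, W, W, add_mul, mul_add]

theorem W_smul (d : ℕ) (f : K[X]) (V : LaurentSeries K) (a : K) (η : LaurentSeries K) :
    W d f V (a • η) = a • W d f V η := by
  rw [W, W, smul_mul_assoc, mul_smul_comm]

theorem W_mem (hV : V * ld (zz K d) = 1) (hK : Kil d R f) {η : LaurentSeries K} (hη : Pe R η) :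
    W d f V η ∈ R := by
  obtain ⟨y, hy, h⟩ := hK η hη
  have h1 : W d f V η = y := by
    have : W d f V η = zpol K d f * η * V := by
      rw [W]
      ring
    rw [this, h, mul_assoc, mul_comm (ld (zz K d)) V, hV, mul_one]
  rw [h1]
  exact hy

theorem W_rad (hd : 0 < d) (hdu : (d : K) ≠ 0) (hz : zz K d ∈ R) (hV : V * ld (zz K d) = 1)
    (hf : f = (X - C β) * f') {η : LaurentSeries K} (hη : Pe R η) : Rad d R β (W d f V η) := by
  intro p hp
  obtain ⟨q, hq⟩ := polyV hd hdu hz hV hη hp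
  refine ⟨f' * q, ?_⟩
  rw [W, mul_assoc, pr0_zpol_mul, hq, ← map_mul, hf, mul_assoc]

/-- the pairing of a multiple of `z - β` with an element of `Pe` -/
theorem pair_dv (hd : 0 < d) (hdu : (d : K) ≠ 0) (hz : zz K d ∈ R) (hV : V * ld (zz K d) = 1)
    {w η : LaurentSeries K} (hw : Dv d R β w) (hη : Pe R η) :
    ∃ q : K[X], pr0 K d (w * (η * V)) = zpol K d ((X - C β) * q) := by
  obtain ⟨r, hr, rfl⟩ := hw
  obtain ⟨q, hq⟩ := polyV hd hdu hz hV hη hr
  refine ⟨q, ?_⟩
  rw [mul_assoc, pr0_zpol_mul, mul_comm r, hq, map_mul]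

theorem pair_ex (hd : 0 < d) (hdu : (d : K) ≠ 0) (hz : zz K d ∈ R) (hV : V * ld (zz K d) = 1)
    (hK : Kil d R f) {η η' : LaurentSeries K} (hη : Pe R η) (hη' : Pe R η') :
    ∃ q : K[X], pr0 K d (W d f V η * (η' * V)) = zpol K d q := by
  obtain ⟨q, hq⟩ := polyV hd hdu hz hV hη' (W_mem hV hK hη)
  exact ⟨q, by rw [mul_comm, hq]⟩

theorem pair_symm (η η' : LaurentSeries K) :
    W d f V η * (η' * V) = W d f V η' * (η * V) := by
  rw [W, W]
  ring

/-- comparison of the values at `β` -/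
theorem pair_eval (hd : 0 < d) (hdu : (d : K) ≠ 0) (hz : zz K d ∈ R) (hV : V * ld (zz K d) = 1)
    {η η' ω₀ : LaurentSeries K} {a : K}
    (ha : Dv d R β (W d f V η - a • W d f V ω₀)) (hη' : Pe R η') {q q₁ : K[X]}
    (hq : pr0 K d (W d f V η * (η' * V)) = zpol K d q)
    (hq₁ : pr0 K d (W d f V ω₀ * (η' * V)) = zpol K d q₁) : q.eval β = a * q₁.eval β := by
  obtain ⟨q₂, hq₂⟩ := pair_dv hd hdu hz hV ha hη'
  rw [sub_mul, map_sub, smul_mul_assoc, map_smul, hq, hq₁, ← map_smul, ← map_sub] at hq₂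
  have h1 := congrArg (eval β) (KRK.zpol_inj hd.ne' hq₂)
  rw [eval_sub, eval_smul, eval_mul, eval_sub, eval_X, eval_C, sub_self, zero_mul,
    smul_eq_mul, sub_eq_zero] at h1
  exact h1

theorem perl (hPDP : Stmt_PDP) (hLA : Stmt_ZLA) (hd : 0 < d) (hdu : (d : K) ≠ 0) (hR : Kr g R)
    (hz : zz K d ∈ R) (hV : V * ld (zz K d) = 1) (hK : Kil d R f)
    {e : Fin d → LaurentSeries K} {G : Matrix (Fin d) (Fin d) K[X]} (hb : ZBas d R e)
    (hG : ZGram d e G) (hdet : ¬ (X - C β) ^ 2 ∣ G.det) (hf : f = (X - C β) * f') {κ : K}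
    (hκ : κ ≠ 0) :
    ∃ (ev : EE1 R →ₗ[K] K) (c : K), c ≠ 0 ∧
      (∀ ω : EE1 R, ev ω = 0 → Dv d R β (W d f V ω)) ∧
      ∀ (ω ω' : EE1 R) (q : K[X]), pr0 K d (W d f V ω * ((ω' : LaurentSeries K) * V)) =
        zpol K d q → q.eval β * κ = c * (ev ω * ev ω') := by
  classical
  by_cases hall : ∀ ω : EE1 R, Dv d R β (W d f V ω)
  · refine ⟨0, 1, one_ne_zero, fun ω _ => hall ω, fun ω ω' q hq => ?_⟩
    obtain ⟨q₂, hq₂⟩ := pair_dv hd hdu hz hV (hall ω) (pe_of ω')
    rw [hq] at hq₂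
    have h1 := congrArg (eval β) (KRK.zpol_inj hd.ne' hq₂)
    rw [eval_mul, eval_sub, eval_X, eval_C, sub_self, zero_mul] at h1
    rw [h1]
    simp
  · push Not at hall
    obtain ⟨ω₀, hω₀⟩ := hall
    have hex : ∀ η : LaurentSeries K, Pe R η →
        ∃ a : K, Dv d R β (W d f V η - a • W d f V ω₀) := fun η hη =>
      radical_prop hLA hd.ne' hz hb hG hdet (W_mem hV hK (pe_of ω₀)) (W_mem hV hK hη)
        (W_rad hd hdu hz hV hf (pe_of ω₀)) (W_rad hd hdu hz hV hf hη) hω₀
    have huniq : ∀ a : K, Dv d R β (a • W d f V (ω₀ : LaurentSeries K)) → a = 0 := by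
      intro a ha
      by_contra hne
      apply hω₀
      have h1 := dv_smul a⁻¹ ha
      rwa [smul_smul, inv_mul_cancel₀ hne, one_smul] at h1
    let A : EE1 R → K := fun ω => (hex ω (pe_of ω)).choose
    have hA : ∀ ω : EE1 R, Dv d R β (W d f V ω - A ω • W d f V ω₀) := fun ω =>
      (hex ω (pe_of ω)).choose_spec
    have hAeq : ∀ (ω : EE1 R) (a : K), Dv d R β (W d f V ω - a • W d f V ω₀) → A ω = a := by
      intro ω a ha
      have h1 := dv_sub ha (hA ω)
      have h2 : W d f V ω - a • W d f V ω₀ - (W d f V ω - A ω • W d f V ω₀) =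
          (A ω - a) • W d f V (ω₀ : LaurentSeries K) := by
        rw [sub_smul]
        ring
      rw [h2] at h1
      exact sub_eq_zero.1 (huniq _ h1)
    let ev : EE1 R →ₗ[K] K :=
      { toFun := A
        map_add' := fun ω ω' => by
          refine hAeq _ _ ?_
          have h1 := dv_add (hA ω) (hA ω')
          have h2 : W d f V ((ω + ω' : EE1 R) : LaurentSeries K) -
              (A ω + A ω') • W d f V ω₀ =
              W d f V ω - A ω • W d f V ω₀ + (W d f V ω' - A ω' • W d f V ω₀) := by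
            rw [Submodule.coe_add, W_add, add_smul]
            ring
          rw [h2]
          exact h1
        map_smul' := fun a ω => by
          refine hAeq _ _ ?_
          have h1 := dv_smul a (hA ω)
          have h2 : W d f V ((a • ω : EE1 R) : LaurentSeries K) -
              (RingHom.id K a • A ω) • W d f V ω₀ =
              a • (W d f V ω - A ω • W d f V ω₀) := by
            rw [Submodule.coe_smul, W_smul, smul_sub, smul_smul, RingHom.id_apply, smul_eq_mul]
          rw [h2]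
          exact h1 }
    obtain ⟨q₀, hq₀⟩ := pair_ex hd hdu hz hV hK (pe_of ω₀) (pe_of ω₀)
    have hq0ne : q₀.eval β ≠ 0 := by
      intro h0
      apply hω₀
      refine ⟨zpol K d f' * ((ω₀ : LaurentSeries K) * V), ?_, ?_⟩
      · refine mem_of_pdp hPDP hR _ fun η hη => ?_
        obtain ⟨q₁, hq₁⟩ := pair_ex hd hdu hz hV hK (pe_of ω₀) hη
        obtain ⟨a, ha⟩ := hex η hη
        have h1 : q₁.eval β = a * q₀.eval β := by
          refine pair_eval hd hdu hz hV ha (pe_of ω₀) ?_ hq₀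
          rw [pair_symm]
          exact hq₁
        rw [h0, mul_zero] at h1
        obtain ⟨q₃, hq₃⟩ := dvd_iff_isRoot.2 h1
        have h2 : W d f V (ω₀ : LaurentSeries K) * (η * V) = zpol K d (X - C β) *
            (zpol K d f' * ((ω₀ : LaurentSeries K) * V) * (η * V)) := by
          rw [W, hf, map_mul]
          ring
        rw [h2, pr0_zpol_mul, hq₃, map_mul (zpol K d)] at hq₁
        have h3 := mul_left_cancel₀ (zpol_ne_zero hd.ne' (X_sub_C_ne_zero β)) hq₁
        have h4 : η * (zpol K d f' * ((ω₀ : LaurentSeries K) * V)) =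
            (zpol K d f' * ((ω₀ : LaurentSeries K) * V) * (η * V)) * ld (zz K d) := by
          have : zpol K d f' * ((ω₀ : LaurentSeries K) * V) * (η * V) * ld (zz K d) =
              η * (zpol K d f' * ((ω₀ : LaurentSeries K) * V)) * (V * ld (zz K d)) := by ring
          rw [this, hV, mul_one]
        rw [h4, KIL.coeff_mul_ld_zz]
        have h5 := congrArg (fun F => F.coeff (d : ℤ)) h3
        have h6 : (zpol K d q₃).coeff (d : ℤ) = 0 :=
          ZL.ev_coeff_pos d q₃ _ (by exact_mod_cast hd)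
        simp only [pr0_coeff, dvd_refl, if_true] at h5
        rw [h5, h6, mul_zero]
      · rw [W, hf, map_mul]
        ring
    refine ⟨ev, q₀.eval β * κ, mul_ne_zero hq0ne hκ, fun ω h0 => ?_, fun ω ω' q hq => ?_⟩
    · have h1 := hA ω
      have h2 : A ω = 0 := h0
      rw [h2, zero_smul, sub_zero] at h1
      exact h1
    · obtain ⟨q₁, hq₁⟩ := pair_ex hd hdu hz hV hK (pe_of ω₀) (pe_of ω')
      have h1 : q.eval β = A ω * q₁.eval β := pair_eval hd hdu hz hV (hA ω) (pe_of ω') hq hq₁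
      have h2 : q₁.eval β = A ω' * q₀.eval β := by
        refine pair_eval hd hdu hz hV (hA ω') (pe_of ω₀) ?_ hq₀
        rw [pair_symm]
        exact hq₁
      change q.eval β * κ = q₀.eval β * κ * (A ω * A ω')
      rw [h1, h2]
      ring

/-- divisibility by the product -/
theorem dv_prod (hz : zz K d ∈ R) {β : Fin b → K} (hβ : Function.Injective β)
    {w : LaurentSeries K} (hw : w ∈ R) (h : ∀ l, Dv d R (β l) w) (s : Finset (Fin b)) :
    ∃ r ∈ R, w = zpol K d (∏ l ∈ s, (X - C (β l))) * r := by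
  classical
  induction s using Finset.induction_on with
  | empty => exact ⟨w, hw, by rw [Finset.prod_empty, map_one, one_mul]⟩
  | insert l s hl ih =>
    obtain ⟨r, hr, h1⟩ := ih
    obtain ⟨r', hr', h2⟩ := h l
    have hco : IsCoprime (∏ m ∈ s, (X - C (β m))) (X - C (β l)) := by
      refine IsCoprime.prod_left fun m hm => ?_
      refine isCoprime_X_sub_C_of_isUnit_sub ?_
      refine (sub_ne_zero.2 fun h0 => ?_).isUnit
      have := hβ h0
      subst this
      exact hl hm
    obtain ⟨A, B, hAB⟩ := hco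
    refine ⟨zpol K d A * r' + zpol K d B * r,
      add_mem (mul_mem (KRK.zpol_mem hz _) hr') (mul_mem (KRK.zpol_mem hz _) hr), ?_⟩
    rw [Finset.prod_insert hl]
    have h3 : w = zpol K d (A * ∏ m ∈ s, (X - C (β m)) + B * (X - C (β l))) * w := by
      rw [hAB, map_one, one_mul]
    have h4 : zpol K d (A * ∏ m ∈ s, (X - C (β m)) + B * (X - C (β l))) * w =
        zpol K d A * zpol K d (∏ m ∈ s, (X - C (β m))) * w +
          zpol K d B * zpol K d (X - C (β l)) * w := by
      rw [map_add, map_mul, map_mul, add_mul]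
    rw [h4] at h3
    have h5 : w = zpol K d A * zpol K d (∏ m ∈ s, (X - C (β m))) * (zpol K d (X - C (β l)) * r') +
        zpol K d B * zpol K d (X - C (β l)) * (zpol K d (∏ m ∈ s, (X - C (β m))) * r) := by
      rw [← h2, ← h1]
      exact h3
    rw [h5, map_mul]
    ring

end

end ZQA

open ZQA in
theorem t_ZQA (hKIL : Stmt_KIL) (hPDP : Stmt_PDP) (_hZD1 : Stmt_ZD1) (hZLA : Stmt_ZLA)
    (hZRF : Stmt_ZRF) : Stmt_ZQA := by
  classical
  intro K _ g d b R β hd hdu hR hz hβ hD
  have hd0 : 0 < d := hd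
  have hKil : Kil d R (∏ l, (X - C (β l))) := hKIL.1 hd (isUnit_iff_ne_zero.2 hdu) hR hz hD
  obtain ⟨e, G, hb, hG, u, hu, hdet⟩ := hD
  obtain ⟨U, hU⟩ := KIL.isUnit_ld_zz (A := K) (d := d) (isUnit_iff_ne_zero.2 hdu)
  set V : LaurentSeries K := (↑U⁻¹ : LaurentSeries K) with hVdef
  have hV : V * ld (zz K d) = 1 := by rw [hVdef, ← hU, Units.inv_mul]
  let f : K[X] := ∏ l, (X - C (β l))
  let f' : Fin b → K[X] := fun l => ∏ m ∈ Finset.univ.erase l, (X - C (β m))
  have hff : ∀ l, f = (X - C (β l)) * f' l := fun l =>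
    (Finset.mul_prod_erase Finset.univ (fun m => X - C (β m)) (Finset.mem_univ l)).symm
  have hf'ev : ∀ l, (f' l).eval (β l) = ∏ m ∈ Finset.univ.erase l, (β l - β m) := by
    intro l
    simp only [f', eval_prod, eval_sub, eval_X, eval_C]
  have hf'ne : ∀ l, ∏ m ∈ Finset.univ.erase l, (β l - β m) ≠ 0 := by
    intro l
    refine Finset.prod_ne_zero_iff.2 fun m hm h0 => ?_
    exact (Finset.ne_of_mem_erase hm) (hβ (sub_eq_zero.1 h0)).symm
  have hsq : ∀ l, ¬ (X - C (β l)) ^ 2 ∣ G.det := by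
    rintro l ⟨q, hq⟩
    have h1 : (X - C (β l)) * (u * f' l) = (X - C (β l)) * ((X - C (β l)) * q) := by
      have h2 : G.det = u * f := hdet
      rw [hff l] at h2
      have h3 : (X - C (β l)) * (u * f' l) = G.det := by
        rw [h2]
        ring
      rw [h3, hq]
      ring
    have h4 := mul_left_cancel₀ (X_sub_C_ne_zero (β l)) h1
    have h5 := congrArg (eval (β l)) h4
    rw [eval_mul, eval_mul, eval_sub, eval_X, eval_C, sub_self, zero_mul, hf'ev] at h5
    have h6 : IsUnit (eval (β l) u) := hu.map (evalRingHom (β l))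
    exact (mul_ne_zero h6.ne_zero (hf'ne l)) h5
  have hκ : ∀ l, -(d : K) * (∏ m ∈ Finset.univ.erase l, (β l - β m))⁻¹ ≠ 0 := fun l =>
    mul_ne_zero (neg_ne_zero.2 hdu) (inv_ne_zero (hf'ne l))
  have hper := fun l => perl hPDP hZLA hd0 hdu hR hz hV hKil hb hG (hsq l) (hff l) (hκ l)
  choose ev c hc0 hker hform using hper
  refine ⟨ev, c, hc0, ?_, ?_⟩
  · intro ω h0
    obtain ⟨r, hr, h1⟩ := dv_prod hz hβ (W_mem hV hKil (pe_of ω)) (fun l => hker l ω (h0 l))
      Finset.univ
    have hf0 : f ≠ 0 := Finset.prod_ne_zero_iff.2 fun l _ => X_sub_C_ne_zero (β l)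
    have h2 : (ω : LaurentSeries K) * V = r :=
      mul_left_cancel₀ (zpol_ne_zero hd0.ne' hf0) h1
    have h3 : (ω : LaurentSeries K) = r * ld (zz K d) := by
      rw [← h2, mul_assoc, hV, mul_one]
    have h4 : ∀ n : ℤ, n < (d : ℤ) + 1 → r.coeff n = 0 := by
      intro n hn
      have h5 := ω.2.2 (n - d - 1) (by omega)
      have h6 : n - (d : ℤ) - 1 - (-(d : ℤ) - 1) = n := by ring
      rw [h3, KIL.ld_zz, mul_comm, HahnSeries.coeff_single_mul, h6] at h5
      exact (mul_eq_zero.1 h5).resolve_left (neg_ne_zero.2 hdu)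
    obtain ⟨a, ha⟩ := (Kr_iff.1 hR).1 r hr fun m hm => h4 m (by omega)
    have h7 := h4 0 (by omega)
    rw [ha, coeff_algebraMap, if_pos rfl] at h7
    apply Subtype.ext
    rw [h3, ha, h7, map_zero, zero_mul]
    rfl
  · intro a ω ω' y hy
    obtain ⟨q, hq⟩ := pair_ex hd0 hdu hz hV hKil (pe_of ω) (pe_of ω')
    have hy' : y = zpol K d a * ((ω : LaurentSeries K) * V) := by
      have h1 : y = y * ld (zz K d) * V := by
        rw [mul_assoc, mul_comm (ld (zz K d)) V, hV, mul_one]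
      rw [h1, hy]
      ring
    have h2 : (ω' : LaurentSeries K) * y =
        (zpol K d a * (((ω : LaurentSeries K) * V) * ((ω' : LaurentSeries K) * V))) *
          ld (zz K d) := by
      have : (zpol K d a * (((ω : LaurentSeries K) * V) * ((ω' : LaurentSeries K) * V))) *
          ld (zz K d) = (ω' : LaurentSeries K) * (zpol K d a * ((ω : LaurentSeries K) * V)) *
            (V * ld (zz K d)) := by ring
      rw [this, hV, mul_one, hy']
    have h3 : (zpol K d a * (((ω : LaurentSeries K) * V) *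
        ((ω' : LaurentSeries K) * V))).coeff (d : ℤ) = (pr0 K d (zpol K d a *
          (((ω : LaurentSeries K) * V) * ((ω' : LaurentSeries K) * V)))).coeff (d : ℤ) := by
      rw [pr0_coeff, if_pos (dvd_refl _)]
    have h4 : zpol K d (∏ l, (X - C (β l))) * pr0 K d (zpol K d a *
        (((ω : LaurentSeries K) * V) * ((ω' : LaurentSeries K) * V))) = zpol K d (a * q) := by
      rw [pr0_zpol_mul, map_mul (zpol K d), ← hq, W, mul_assoc (zpol K d _), pr0_zpol_mul]
      ring
    have h5 := hZRF β hd0 hβ (a * q) _ h4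
    rw [h2, KIL.coeff_mul_ld_zz, h3, h5, Finset.mul_sum]
    refine Finset.sum_congr rfl fun l _ => ?_
    have h6 := hform l ω ω' q hq
    rw [eval_mul]
    have h7 : -(d : K) * (eval (β l) a * eval (β l) q *
        (∏ m ∈ Finset.univ.erase l, (β l - β m))⁻¹) = eval (β l) a * (eval (β l) q *
          (-(d : K) * (∏ m ∈ Finset.univ.erase l, (β l - β m))⁻¹)) := by ring
    rw [h7, h6]
    ring

end Pool.Agent.MG.G0
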