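import Pool.Agent.MG.G0.StmtsZH

/-!
# A generic combination of squares is nondegenerate (module ZQL)
-/

open Polynomial

namespace Pool.Agent.MG.G0

namespace ZQL

variable {K : Type} [Field K] {g b : ℕ}

/-- The rows `v l` contain a basis. -/
theorem exists_sel (v : Fin b → Fin g → K)
    (h : ∀ x : Fin g → K, (∀ l, ∑ i, v l i * x i = 0) → x = 0) :
    ∃ σ : Fin g → Fin b, LinearIndependent K fun i => v (σ i) := by
  have hspan : Submodule.span K (Set.range v) = ⊤ := by
    by_contra hne
    obtain ⟨f, hf, hf2⟩ := Submodule.exists_le_ker_of_lt_top _ (lt_top_iff_ne_top.2 hne)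
    apply hf
    have h1 : (fun i => f (Pi.single i 1)) = 0 := by
      apply h
      intro l
      have h2 : f (v l) = 0 := hf2 (Submodule.subset_span ⟨l, rfl⟩)
      rw [← h2]
      have h3 : v l = ∑ i, v l i • (Pi.single i 1 : Fin g → K) := by
        funext j
        rw [Finset.sum_apply]
        simp [Pi.single_apply]
      conv_rhs => rw [h3]
      rw [map_sum]
      refine Finset.sum_congr rfl fun i _ => ?_
      rw [map_smul, smul_eq_mul]
    refine LinearMap.pi_ext' fun i => ?_
    apply LinearMap.ext_ring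
    exact congrFun h1 i
  obtain ⟨f, hf1, hf2, hf3⟩ := Submodule.exists_fun_fin_finrank_span_eq K (Set.range v)
  have hg : Module.finrank K (Submodule.span K (Set.range v)) = g := by
    rw [hspan, finrank_top, Module.finrank_fin_fun]
  choose τ hτ using hf1
  refine ⟨fun i => τ (Fin.cast hg.symm i), ?_⟩
  have h4 : (fun i => v (τ (Fin.cast hg.symm i))) = f ∘ Fin.cast hg.symm := by
    funext i
    exact hτ _
  rw [h4]
  exact hf3.comp _ (Fin.cast_injective _)

end ZQL

open ZQL in
theorem t_ZQL : Stmt_ZQL := by
  intro K E _ _ _ g b v c α hc hv hα hdet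
  classical
  let A : Matrix (Fin g) (Fin g) (MvPolynomial (Fin b) K) :=
    ∑ l, (MvPolynomial.X l * MvPolynomial.C (c l)) •
      Matrix.vecMulVec (fun i => MvPolynomial.C (v l i)) (fun i => MvPolynomial.C (v l i))
  have hAij : ∀ i j, A i j = ∑ l, (MvPolynomial.X l * MvPolynomial.C (c l)) *
      (MvPolynomial.C (v l i) * MvPolynomial.C (v l j)) := by
    intro i j
    change (∑ l, (MvPolynomial.X l * MvPolynomial.C (c l)) •
      Matrix.vecMulVec (fun i => MvPolynomial.C (v l i)) (fun i => MvPolynomial.C (v l i)) :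
      Matrix (Fin g) (Fin g) (MvPolynomial (Fin b) K)) i j = _
    rw [Matrix.sum_apply]
    rfl
  have hα' : Function.Injective (MvPolynomial.aeval α : MvPolynomial (Fin b) K →ₐ[K] E) := hα
  have hA : A.det = 0 := by
    apply hα'
    rw [map_zero, ← hdet, AlgHom.map_det]
    congr 1
    ext i j
    rw [AlgHom.mapMatrix_apply, Matrix.map_apply, hAij, map_sum, Matrix.sum_apply]
    refine Finset.sum_congr rfl fun l _ => ?_
    rw [map_mul, map_mul, map_mul, MvPolynomial.aeval_X, MvPolynomial.aeval_C,
      MvPolynomial.aeval_C, MvPolynomial.aeval_C]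
    rfl
  obtain ⟨σ, hσ⟩ := exists_sel v hv
  have hinj : Function.Injective σ := fun i j hij => by
    by_contra hne
    exact hne (hσ.injective (by
      rw [hij]))
  let x : Fin b → K := fun l => if l ∈ Finset.univ.image σ then 1 else 0
  have h1 : ((MvPolynomial.aeval x : MvPolynomial (Fin b) K →ₐ[K] K).mapMatrix A).det = 0 := by
    rw [← AlgHom.map_det, hA, map_zero]
  let W : Matrix (Fin g) (Fin g) K := Matrix.of fun i => v (σ i)
  have h2 : (MvPolynomial.aeval x : MvPolynomial (Fin b) K →ₐ[K] K).mapMatrix A =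
      W.transpose * Matrix.diagonal (fun i => c (σ i)) * W := by
    ext i j
    rw [AlgHom.mapMatrix_apply, Matrix.map_apply, hAij, map_sum, Matrix.mul_apply]
    simp only [map_mul,
      MvPolynomial.aeval_X, MvPolynomial.aeval_C, Matrix.mul_diagonal, Matrix.transpose_apply]
    have h3 : ∀ l, x l * (algebraMap K K) (c l) * ((algebraMap K K) (v l i) *
        (algebraMap K K) (v l j)) = if l ∈ Finset.univ.image σ then
          c l * (v l i * v l j) else 0 := by
      intro l
      change (if l ∈ Finset.univ.image σ then (1 : K) else 0) * c l * (v l i * v l j) = _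
      split_ifs
      · rw [one_mul]
      · rw [zero_mul, zero_mul]
    rw [Finset.sum_congr rfl fun l _ => h3 l, ← Finset.sum_filter]
    have h4 : Finset.univ.filter (fun l => l ∈ Finset.univ.image σ) = Finset.univ.image σ := by
      ext l
      simp
    rw [h4, Finset.sum_image fun a _ b _ h => hinj h]
    refine Finset.sum_congr rfl fun m _ => ?_
    change c (σ m) * (v (σ m) i * v (σ m) j) = v (σ m) i * c (σ m) * v (σ m) j
    ring
  rw [h2, Matrix.det_mul, Matrix.det_mul, Matrix.det_transpose, Matrix.det_diagonal] at h1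
  have h5 : W.det ≠ 0 := by
    have h6 : IsUnit W := Matrix.linearIndependent_rows_iff_isUnit.1 hσ
    exact (Matrix.isUnit_iff_isUnit_det W).1 h6 |>.ne_zero
  have h7 : ∏ i, c (σ i) ≠ 0 := Finset.prod_ne_zero_iff.2 fun i _ => hc _
  exact mul_ne_zero (mul_ne_zero h5 h7) h5 h1

end Pool.Agent.MG.G0
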