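import Pool.Agent.MG.G0.StmtsZH

/-!
# ZQN: the form `res (a(z) ω ω' / dz)` is nondegenerate for generic values of `a`
-/

open Polynomial

namespace Pool.Agent.MG.G0

namespace ZQN

section

variable {K : Type} [Field K]

theorem exists_inv {d : ℕ} (hd : (d : K) ≠ 0) :
    ∃ u : LaurentSeries K, u * ld (zz K d) = 1 := by
  refine ⟨HahnSeries.single ((d : ℤ) + 1) (-(d : K))⁻¹, ?_⟩
  have h : ld (zz K d) = HahnSeries.single (-(d : ℤ) - 1) (-(d : K)) := by
    ext n
    rw [ld_coeff, zz, HahnSeries.coeff_single, HahnSeries.coeff_single]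
    by_cases hn : n = -(d : ℤ) - 1
    · rw [if_pos hn, if_pos (by omega), hn]
      push_cast
      ring
    · rw [if_neg hn, if_neg (by omega), mul_zero]
  rw [h, HahnSeries.single_mul_single, inv_mul_cancel₀ (neg_ne_zero.2 hd)]
  have e : (d : ℤ) + 1 + (-(d : ℤ) - 1) = 0 := by ring
  rw [e]
  rfl

theorem forms {g : ℕ} (hKFO : Stmt_KFO) {R : Subalgebra K (LaurentSeries K)} (hR : Kr g R)
    {w : Fin g → KK Unit K} (hw : IsForms (uno R) w) :
    (∀ j, w j () ∈ EE1 R) ∧ (∀ η ∈ EE1 R, ∃ c : Fin g → K, η = ∑ j, c j • w j ()) ∧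
      ∀ c : Fin g → K, ∑ j, c j • w j () = 0 → c = 0 := by
  obtain ⟨h1, h2⟩ := (hKFO hR).2 w hw
  have hs : ∀ c : Fin g → K, (∑ j, c j • w j) () = ∑ j, c j • w j () := fun c => by
    rw [Finset.sum_apply]
    rfl
  refine ⟨fun j => mem_EE_uno.1 (h1 j), fun η hη => ?_, fun c hc => ?_⟩
  · obtain ⟨c, hc, -⟩ := h2 (fun _ => η) (mem_EE_uno.2 hη)
    refine ⟨c, ?_⟩
    have h3 := congrFun hc ()
    rw [hs] at h3
    exact h3
  · obtain ⟨c', -, hu⟩ := h2 0 (zero_mem _)
    have e1 : c = c' := hu c (by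
      refine funext fun x => ?_
      change (0 : LaurentSeries K) = (∑ j, c j • w j) ()
      rw [hs, hc])
    have e2 : (0 : Fin g → K) = c' := hu 0 (by
      refine funext fun x => ?_
      change (0 : LaurentSeries K) = (∑ j, (0 : Fin g → K) j • w j) ()
      rw [hs]
      simp only [Pi.zero_apply, zero_smul, Finset.sum_const_zero])
    rw [e1, ← e2]

variable {E : Type} [Field E] [Algebra K E]

theorem zpol_monomial (d n : ℕ) (x : E) :
    zpol E d (monomial n x) = x • lmap (algebraMap K E) (zpol K d (X ^ n)) := by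
  rw [lmap_zpol, Polynomial.map_pow, Polynomial.map_X, zpol, aeval_monomial, map_pow, aeval_X,
    Algebra.smul_def]

theorem res_form {d b : ℕ} (β : Fin b → K) (c : Fin b → K) (x y : Fin b → K)
    (u ω ω' : LaurentSeries K)
    (h : ∀ a : K[X], (ω' * (zpol K d a * ω * u)).coeff (-1) =
      ∑ l, a.eval (β l) * c l * (x l * y l)) (a : E[X]) :
    (lmap (algebraMap K E) ω' * (zpol E d a * lmap (algebraMap K E) ω *
      lmap (algebraMap K E) u)).coeff (-1) =
      ∑ l, a.eval (algebraMap K E (β l)) * algebraMap K E (c l) *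
        (algebraMap K E (x l) * algebraMap K E (y l)) := by
  induction a using Polynomial.induction_on' with
  | add p q hp hq =>
    rw [map_add, add_mul, add_mul, mul_add, HahnSeries.coeff_add, hp, hq,
      ← Finset.sum_add_distrib]
    refine Finset.sum_congr rfl fun l _ => ?_
    rw [eval_add]
    ring
  | monomial n t =>
    have e : lmap (algebraMap K E) ω' * (zpol E d (monomial n t) * lmap (algebraMap K E) ω *
        lmap (algebraMap K E) u) =
        t • lmap (algebraMap K E) (ω' * (zpol K d (X ^ n) * ω * u)) := by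
      rw [zpol_monomial (K := K), map_mul, map_mul, map_mul, smul_mul_assoc, smul_mul_assoc,
        mul_smul_comm]
    rw [e, HahnSeries.coeff_smul, lmap_coeff, h, smul_eq_mul, map_sum, Finset.mul_sum]
    refine Finset.sum_congr rfl fun l _ => ?_
    rw [eval_monomial, eval_pow, eval_X, map_mul, map_mul, map_mul, map_pow]
    ring

end

end ZQN

theorem t_ZQN (hKFO : Stmt_KFO) (hKBC : Stmt_KBC) (hZQA : Stmt_ZQA) (hZQL : Stmt_ZQL) :
    Stmt_ZQN := by
  intro K E _ _ _ g d b R β α hd hdK hR hz hβ hD hα a ha μ hμ h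
  obtain ⟨w, hw⟩ := (hKFO hR).1
  obtain ⟨f1, -, f3⟩ := ZQN.forms hKFO hR hw
  have hR' : Kr g (bc1 (algebraMap K E) R) := by
    have h1 := (hKBC.2.2.2 hR (algebraMap K E)).1
    rw [bc_uno] at h1
    exact h1
  have hw' : IsForms (uno (bc1 (algebraMap K E) R)) fun j => kmap (algebraMap K E) (w j) := by
    have h1 := (hKBC.2.2.2 hR (algebraMap K E)).2.1 w hw
    rw [bc_uno] at h1
    exact h1
  obtain ⟨f1', f2', -⟩ := ZQN.forms hKFO hR' hw'
  obtain ⟨c, hc⟩ := f2' μ hμ
  obtain ⟨ev, cc, hcc, hev, hform⟩ := hZQA β hd hdK hR hz hβ hD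
  obtain ⟨u, hu⟩ := ZQN.exists_inv hdK
  have hu' : lmap (algebraMap K E) u * ld (zz E d) = 1 := by
    have h1 := congrArg (lmap (algebraMap K E)) hu
    rw [map_mul, map_one, lmap_ld, lmap_zz] at h1
    exact h1
  set v : Fin b → Fin g → K := fun l i => ev l ⟨w i (), f1 i⟩ with hv
  have hvx : ∀ x : Fin g → K, (∀ l, ∑ i, v l i * x i = 0) → x = 0 := by
    intro x hx
    refine f3 x ?_
    have h1 : (∑ i, x i • (⟨w i (), f1 i⟩ : EE1 R)) = 0 := by
      refine hev _ fun l => ?_
      rw [map_sum, ← hx l]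
      refine Finset.sum_congr rfl fun i _ => ?_
      rw [map_smul, smul_eq_mul, mul_comm]
    have h2 := congrArg (Subtype.val) h1
    rw [Submodule.coe_sum] at h2
    exact h2
  have hdet := hZQL v cc α hcc hvx hα
  have hres : ∀ i j, (lmap (algebraMap K E) (w j ()) * (zpol E d a *
      lmap (algebraMap K E) (w i ()) * lmap (algebraMap K E) u)).coeff (-1) =
      ∑ l, α l * algebraMap K E (cc l) *
        (algebraMap K E (v l i) * algebraMap K E (v l j)) := by
    intro i j
    rw [ZQN.res_form β cc (fun l => v l i) (fun l => v l j) u (w i ()) (w j ()) ?_ a]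
    · exact Finset.sum_congr rfl fun l _ => by rw [ha]
    · intro a'
      exact hform a' ⟨w i (), f1 i⟩ ⟨w j (), f1 j⟩ _ (by
        rw [mul_assoc (zpol K d a' * w i ()) u, hu, mul_one])
  have hM : (∑ l, (α l * algebraMap K E (cc l)) •
      Matrix.vecMulVec (fun i => algebraMap K E (v l i))
      (fun i => algebraMap K E (v l i)) : Matrix (Fin g) (Fin g) E).mulVec c = 0 := by
    refine funext fun i => ?_
    have h1 := h (lmap (algebraMap K E) (w i ())) (f1' i) (zpol E d a *
      lmap (algebraMap K E) (w i ()) * lmap (algebraMap K E) u) (by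
        rw [mul_assoc (zpol E d a * lmap (algebraMap K E) (w i ())), hu', mul_one])
    rw [hc, Finset.sum_mul, HahnSeries.coeff_sum] at h1
    rw [Pi.zero_apply, ← h1, Matrix.mulVec, dotProduct]
    refine Finset.sum_congr rfl fun j _ => ?_
    rw [smul_mul_assoc, HahnSeries.coeff_smul, smul_eq_mul, kmap_apply, hres i j,
      Matrix.sum_apply, mul_comm]
    rfl
  have hc0 : c = 0 := Matrix.eq_zero_of_mulVec_eq_zero hdet hM
  rw [hc, hc0]
  simp only [Pi.zero_apply, zero_smul, Finset.sum_const_zero]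

end Pool.Agent.MG.G0
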