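import Pool.Agent.MG.G0.StmtsZH

/-!
# ZRK: the residue field of a discrete valuation ring of a function field of one variable
-/

open Polynomial Cardinal

namespace Pool.Agent.MG.G0

namespace ZRK

/-- A field generated by one element has transcendence degree at most one. -/
theorem trdeg_le {k F : Type} [Field k] [Field F] [Algebra k F] (t : F)
    (ht : IntermediateField.adjoin k {t} = ⊤) : Algebra.trdeg k F ≤ 1 := by
  have h1 : Algebra.IsAlgebraic (Algebra.adjoin k {t}) F := by
    refine ⟨fun y => ?_⟩
    have hy : y ∈ IntermediateField.adjoin k {t} := by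
      rw [ht]
      exact IntermediateField.mem_top
    obtain ⟨r, s, rfl⟩ := (IntermediateField.mem_adjoin_simple_iff k y).1 hy
    have hr : aeval t r ∈ Algebra.adjoin k {t} :=
      Polynomial.aeval_mem_adjoin_singleton k t
    have hs : aeval t s ∈ Algebra.adjoin k {t} :=
      Polynomial.aeval_mem_adjoin_singleton k t
    rw [div_eq_mul_inv]
    have e1 : IsAlgebraic (Algebra.adjoin k {t}) (aeval t r) :=
      isAlgebraic_algebraMap (⟨aeval t r, hr⟩ : Algebra.adjoin k {t})
    have e2 : IsAlgebraic (Algebra.adjoin k {t}) (aeval t s) :=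
      isAlgebraic_algebraMap (⟨aeval t s, hs⟩ : Algebra.adjoin k {t})
    exact e1.mul e2.inv
  have h2 := Algebra.IsAlgebraic.trdeg_le_cardinalMk k ({t} : Set F)
  rwa [Cardinal.mk_singleton] at h2

/-- An element whose residue class is transcendental over `k` does not exist. -/
theorem alg_res {k F L : Type} [Field k] [Field F] [Field L] [Algebra k F] [Algebra F L]
    [Algebra k L] [IsScalarTower k F L] (t : F) (ht : IntermediateField.adjoin k {t} = ⊤)
    [FiniteDimensional F L] (O : Type) [CommRing O] [IsDomain O] [IsDiscreteValuationRing O]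
    [Algebra k O] [Algebra O L] [IsScalarTower k O L] [IsFractionRing O L] (x : O) :
    IsAlgebraic k (IsLocalRing.residue O x) := by
  by_contra hx
  -- nonzero polynomials in `x` are units
  have hu : ∀ r : k[X], r ≠ 0 → aeval x r ∉ IsLocalRing.maximalIdeal O := by
    intro r hr hm
    have h1 : IsLocalRing.residue O (aeval x r) = 0 := (IsLocalRing.residue_eq_zero_iff _).2 hm
    refine hx ⟨r, hr, ?_⟩
    rw [← h1]
    exact (Polynomial.aeval_algHom_apply (IsScalarTower.toAlgHom k O _) x r)
  have hinj : Function.Injective (algebraMap O L) := IsFractionRing.injective O L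
  have htr : Transcendental k (algebraMap O L x) := by
    rintro ⟨r, hr, h0⟩
    have h1 : algebraMap O L (aeval x r) = 0 := by
      rw [← h0]
      exact (Polynomial.aeval_algebraMap_apply L x r).symm
    have h2 : aeval x r = 0 := (map_eq_zero_iff _ hinj).1 h1
    exact hu r hr (by rw [h2]; exact Ideal.zero_mem _)
  have hdeg : Algebra.trdeg k L ≤ 1 := by
    rw [← trdeg_add_eq k F (A := L), trdeg_eq_zero (R := F) (A := L), add_zero]
    exact trdeg_le t ht
  have hind : AlgebraicIndependent k (fun _ : Unit => algebraMap O L x) :=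
    (algebraicIndependent_unique_type_iff).2 htr
  have hbas : IsTranscendenceBasis k (fun _ : Unit => algebraMap O L x) :=
    hind.isTranscendenceBasis_of_trdeg_le_of_finite (by simpa using hdeg)
  have halg := hbas.isAlgebraic
  obtain ⟨π, hπ⟩ := IsDiscreteValuationRing.exists_irreducible O
  have hπm : IsLocalRing.maximalIdeal O = Ideal.span {π} := hπ.maximalIdeal_eq
  have hπ0 : algebraMap O L π ≠ 0 := fun h => hπ.ne_zero ((map_eq_zero_iff _ hinj).1 h)
  obtain ⟨q, hq0, hq⟩ := (halg.isAlgebraic (algebraMap O L π)).exists_nonzero_coeff_and_aeval_eq_zero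
    (mem_nonZeroDivisors_of_ne_zero hπ0)
  -- the coefficients are in `O`
  have hco : ∀ b : Algebra.adjoin k (Set.range fun _ : Unit => algebraMap O L x),
      ∃ r : k[X], (b : L) = algebraMap O L (aeval x r) := by
    rintro ⟨b, hb⟩
    rw [Set.range_const, Algebra.adjoin_singleton_eq_range_aeval] at hb
    obtain ⟨r, rfl⟩ := hb
    exact ⟨r, (Polynomial.aeval_algebraMap_apply L x r)⟩
  have hmem : aeval (algebraMap O L π) q.divX ∈ (algebraMap O L).range := by
    rw [Polynomial.aeval_eq_sum_range]
    refine Subring.sum_mem _ fun i _ => ?_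
    rw [Algebra.smul_def]
    refine mul_mem ?_ (pow_mem (RingHom.mem_range_self (algebraMap O L) π) _)
    obtain ⟨r, hr⟩ := hco (q.divX.coeff i)
    exact ⟨_, hr.symm⟩
  obtain ⟨o, ho⟩ := hmem
  obtain ⟨r, hr⟩ := hco (q.coeff 0)
  have hr0 : r ≠ 0 := by
    rintro rfl
    rw [map_zero, map_zero] at hr
    exact hq0 (Subtype.ext hr)
  have e1 : aeval (algebraMap O L π) q = aeval (algebraMap O L π) q.divX * algebraMap O L π +
      (q.coeff 0 : L) := by
    conv_lhs => rw [← Polynomial.divX_mul_X_add q]
    rw [map_add, map_mul, aeval_X, aeval_C]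
    rfl
  have e2 : algebraMap O L (o * π + aeval x r) = 0 := by
    rw [map_add, map_mul, ho, ← hr, ← e1, hq]
  have e3 : o * π + aeval x r = 0 := (map_eq_zero_iff _ hinj).1 e2
  refine hu r hr0 ?_
  have e4 : aeval x r = -(o * π) := by
    rw [eq_neg_iff_add_eq_zero, add_comm]
    exact e3
  rw [e4, hπm]
  exact Ideal.neg_mem_iff _ |>.2 (Ideal.mul_mem_left _ _ (Ideal.mem_span_singleton_self _))

end ZRK

open ZRK in
/-- ZRK: the residue field of a discrete valuation ring of a function field of one variable. -/
theorem t_ZRK : Stmt_ZRK := by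
  intro k F L _ _ _ _ _ _ _ _ t ht hfin O _ _ _ _ _ _ _
  have h1 : Algebra.IsIntegral k (IsLocalRing.ResidueField O) := by
    refine ⟨fun y => ?_⟩
    obtain ⟨x, rfl⟩ := IsLocalRing.residue_surjective y
    exact (alg_res (L := L) t ht O x).isIntegral
  let e : k ≃ₐ[k] IsLocalRing.ResidueField O :=
    AlgEquiv.ofBijective (Algebra.ofId k _) IsAlgClosed.algebraMap_bijective_of_isIntegral
  refine ⟨(e.symm : IsLocalRing.ResidueField O →ₐ[k] k).comp
    (IsScalarTower.toAlgHom k O (IsLocalRing.ResidueField O)), fun x => ?_⟩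
  rw [← IsLocalRing.residue_eq_zero_iff]
  change e.symm (IsLocalRing.residue O x) = 0 ↔ _
  exact map_eq_zero_iff _ e.symm.injective

end Pool.Agent.MG.G0
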