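import Pool.Agent.MG.G0.StmtsZH

/-!
# ZRR: finite dimensionality of Riemann-Roch spaces
-/

open Polynomial

namespace Pool.Agent.MG.G0

namespace ZRR

section

variable {k F L : Type} [Field k] [Field F] [Field L] [Algebra k F] [Algebra F L] [Algebra k L]
  [IsScalarTower k F L]

omit [Algebra k L] [IsScalarTower k F L] in
/-- a common multiplier -/
theorem multiplier (t : F)
    (h3 : ∀ c : L, ∃ h : k[X], h ≠ 0 ∧
      ((algebraMap F L).comp (aeval (R := k) t).toRingHom).IsIntegralElem
        (algebraMap F L (aeval t h) * c)) (s : Finset L) :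
    ∃ h : k[X], h ≠ 0 ∧ ∀ c ∈ s,
      ((algebraMap F L).comp (aeval (R := k) t).toRingHom).IsIntegralElem
        (algebraMap F L (aeval t h) * c) := by
  classical
  induction s using Finset.induction_on with
  | empty => exact ⟨1, one_ne_zero, fun c hc => absurd hc (Finset.notMem_empty c)⟩
  | insert a s _ ih =>
    obtain ⟨h1, h10, h1i⟩ := ih
    obtain ⟨h2, h20, h2i⟩ := h3 a
    refine ⟨h1 * h2, mul_ne_zero h10 h20, fun c hc => ?_⟩
    have e1 : ∀ h : k[X], ((algebraMap F L).comp (aeval (R := k) t).toRingHom).IsIntegralElem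
        (algebraMap F L (aeval t h)) := fun h =>
      ((algebraMap F L).comp (aeval (R := k) t).toRingHom).isIntegralElem_map (x := h)
    rcases Finset.mem_insert.mp hc with rfl | hc
    · have e : algebraMap F L (aeval t (h1 * h2)) * c =
          algebraMap F L (aeval t h1) * (algebraMap F L (aeval t h2) * c) := by
        rw [map_mul, map_mul, mul_assoc]
      rw [e]
      exact (e1 h1).mul _ h2i
    · have e : algebraMap F L (aeval t (h1 * h2)) * c =
          algebraMap F L (aeval t h2) * (algebraMap F L (aeval t h1) * c) := by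
        rw [map_mul, map_mul]
        ring
      rw [e]
      exact (e1 h2).mul _ (h1i c hc)

/-- the span at a discrete valuation ring containing `t` -/
theorem inO (t : F) (h : k[X]) (s : Finset L)
    (hs : ∀ c ∈ s, ((algebraMap F L).comp (aeval (R := k) t).toRingHom).IsIntegralElem
        (algebraMap F L (aeval t h) * c)) (y : L)
    (O : Type) [CommRing O] [IsDomain O] [IsDiscreteValuationRing O] [Algebra k O]
    [Algebra O L] [IsScalarTower k O L] [IsFractionRing O L]
    (hy : y ∈ Submodule.span O (s : Set L)) (ht : ∃ x : O, algebraMap O L x = algebraMap F L t) :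
    ∃ x : O, algebraMap O L x = algebraMap F L (aeval t h) * y := by
  obtain ⟨x, hx⟩ := ht
  have hcomp : (algebraMap F L).comp (aeval (R := k) t).toRingHom =
      (algebraMap O L).comp (aeval (R := k) x).toRingHom := by
    refine Polynomial.ringHom_ext (fun a => ?_) ?_
    · show algebraMap F L (aeval t (C a)) = algebraMap O L (aeval x (C a))
      rw [aeval_C, aeval_C, ← IsScalarTower.algebraMap_apply, ← IsScalarTower.algebraMap_apply]
    · show algebraMap F L (aeval t X) = algebraMap O L (aeval x X)
      rw [aeval_X, aeval_X, hx]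
  induction hy using Submodule.span_induction with
  | mem c hc =>
    have h1 := hs c (Finset.mem_coe.mp hc)
    rw [hcomp] at h1
    have h2 : IsIntegral O (algebraMap F L (aeval t h) * c) := h1.of_comp
    exact IsIntegrallyClosed.isIntegral_iff.mp h2
  | zero => exact ⟨0, by rw [map_zero, mul_zero]⟩
  | add a b _ _ ha hb =>
    obtain ⟨u, hu⟩ := ha
    obtain ⟨v, hv⟩ := hb
    exact ⟨u + v, by rw [map_add, hu, hv, mul_add]⟩
  | smul r a _ ha =>
    obtain ⟨u, hu⟩ := ha
    exact ⟨r * u, by rw [map_mul, hu, Algebra.smul_def]; ring⟩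

end

end ZRR

open ZRR in
theorem t_ZRR (hZIC : Stmt_ZIC) (hZRW : Stmt_ZRW) : Stmt_ZRR := by
  intro k F L _ _ _ _ _ _ _ t ht hadj hfin hsep s
  classical
  have ht0 : t ≠ 0 := by
    rintro rfl
    exact ht isAlgebraic_zero
  have ht' : Transcendental k t⁻¹ := by
    intro h
    exact ht (by simpa using h.inv)
  have hadj' : IntermediateField.adjoin k {t⁻¹} = ⊤ := by
    rw [eq_top_iff, ← hadj, IntermediateField.adjoin_le_iff]
    intro x hx
    rw [Set.mem_singleton_iff] at hx
    subst hx
    have h1 := (IntermediateField.adjoin k {x⁻¹}).inv_mem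
      (IntermediateField.mem_adjoin_simple_self k x⁻¹)
    rwa [inv_inv] at h1
  obtain ⟨A1, A2, A3⟩ := hZIC (k := k) (F := F) (L := L) t ht hadj hfin hsep
  obtain ⟨B1, B2, B3⟩ := hZIC (k := k) (F := F) (L := L) t⁻¹ ht' hadj' hfin hsep
  obtain ⟨h, h0, hh⟩ := multiplier t A3 s
  obtain ⟨h', h'0, hh'⟩ := multiplier t⁻¹ B3 s
  set e := Module.finBasis F L with he
  choose a a0 ai using fun j => A3 (e j)
  choose b b0 bi using fun j => B3 (e j)
  choose W hW hWm using fun j => hZRW (k := k) (F := F) t ht (h * a j) (h' * b j)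
    (mul_ne_zero h0 (a0 j)) (mul_ne_zero h'0 (b0 j))
  -- the linear map
  let T : Fin (Module.finrank F L) → L →ₗ[k] F := fun j =>
    ((Algebra.trace F L).restrictScalars k).comp ((LinearMap.mulRight F (e j)).restrictScalars k)
  have hT : ∀ j y, T j y = Algebra.trace F L (y * e j) := fun j y => rfl
  have hTinj : ∀ y, (∀ j, T j y = 0) → y = 0 := by
    intro y hy
    have h1 : ∀ z, Algebra.trace F L (y * z) = 0 := by
      intro z
      rw [← e.sum_repr z, Finset.mul_sum, map_sum]
      refine Finset.sum_eq_zero fun j _ => ?_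
      rw [mul_smul_comm, map_smul, ← hT, hy, smul_zero]
    exact (traceForm_nondegenerate F L).1 y fun z => by
      rw [Algebra.traceForm_apply]; exact h1 z
  refine ⟨⨅ j, (W j).comap (T j), ?_, ?_⟩
  · let G : ↥(⨅ j, (W j).comap (T j)) →ₗ[k] (∀ j, W j) :=
      LinearMap.pi fun j => ((T j).comp (Submodule.subtype _)).codRestrict (W j) fun y =>
        (Submodule.mem_iInf _).mp y.2 j
    have hG : Function.Injective G := by
      rw [← LinearMap.ker_eq_bot, LinearMap.ker_eq_bot']
      intro y hy
      apply Subtype.ext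
      exact hTinj _ fun j => congrArg Subtype.val (congrFun hy j)
    have := hW
    exact FiniteDimensional.of_injective G hG
  · intro y hy
    rw [Submodule.mem_iInf]
    intro j
    rw [Submodule.mem_comap, hT]
    have i1 : ((algebraMap F L).comp (aeval (R := k) t).toRingHom).IsIntegralElem
        (algebraMap F L (aeval t h) * y) := by
      refine A1 _ ?_
      intro O _ _ _ _ _ _ _ hO
      exact inO t h s hh y O (hy O) hO
    have i2 : ((algebraMap F L).comp (aeval (R := k) t⁻¹).toRingHom).IsIntegralElem
        (algebraMap F L (aeval t⁻¹ h') * y) := by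
      refine B1 _ ?_
      intro O _ _ _ _ _ _ _ hO
      exact inO t⁻¹ h' s hh' y O (hy O) hO
    have key : ∀ (u v : F), Algebra.trace F L (algebraMap F L u * y * (algebraMap F L v * e j)) =
        u * v * Algebra.trace F L (y * e j) := by
      intro u v
      rw [show algebraMap F L u * y * (algebraMap F L v * e j) = (u * v) • (y * e j) by
        rw [Algebra.smul_def, map_mul]; ring, map_smul, smul_eq_mul]
    apply hWm j
    · obtain ⟨q, hq⟩ := A2 _ (i1.mul _ (ai j))
      refine ⟨q, ?_⟩
      rw [← hq, key, map_mul]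
    · obtain ⟨q, hq⟩ := B2 _ (i2.mul _ (bi j))
      refine ⟨q, ?_⟩
      rw [← hq, key, map_mul]

end Pool.Agent.MG.G0
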