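import Pool.Agent.MG.G0.StmtsZH

/-!
# ZRW: functions on the projective line with bounded denominators
-/

open Polynomial

namespace Pool.Agent.MG.G0

namespace ZRW

/-- Evaluation at the inverse and the reverse polynomial. -/
theorem aeval_inv_mul_pow {k F : Type} [Field k] [Field F] [Algebra k F] {t : F} (ht : t ≠ 0)
    (f : k[X]) : aeval t⁻¹ f * t ^ f.natDegree = aeval t f.reverse := by
  let _ : Invertible t⁻¹ := invertibleOfNonzero (inv_ne_zero ht)
  have h := eval₂_reverse_mul_pow (algebraMap k F) t⁻¹ f
  rw [invOf_eq_inv, inv_inv] at h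
  rw [aeval_def, aeval_def, ← h, mul_assoc, ← mul_pow, inv_mul_cancel₀ ht, one_pow, mul_one]

/-- The bound for the degree. -/
theorem natDegree_le {k F : Type} [Field k] [Field F] [Algebra k F] {t : F}
    (ht : Transcendental k t) {h h' q q' : k[X]} (hh' : h' ≠ 0) {x : F}
    (e : aeval t h * x = aeval t q) (e' : aeval t⁻¹ h' * x = aeval t⁻¹ q') :
    q.natDegree ≤ h.natDegree + h'.natDegree := by
  have hinj : Function.Injective (aeval (R := k) t) := transcendental_iff_injective.mp ht
  have ht0 : t ≠ 0 := by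
    rintro rfl
    exact ht isAlgebraic_zero
  rcases eq_or_ne q 0 with rfl | hq
  · simp
  have hH : h'.reverse ≠ 0 := by
    rw [Ne, reverse_eq_zero]
    exact hh'
  have key : X ^ q'.natDegree * h'.reverse * q = X ^ h'.natDegree * q'.reverse * h := by
    apply hinj
    rw [map_mul, map_mul, map_mul, map_mul, map_pow, map_pow, aeval_X, ← e,
      ← aeval_inv_mul_pow ht0 h', ← aeval_inv_mul_pow ht0 q', ← e']
    ring
  have hl : (X ^ q'.natDegree * h'.reverse * q).natDegree =
      q'.natDegree + h'.reverse.natDegree + q.natDegree := by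
    rw [natDegree_mul (mul_ne_zero (pow_ne_zero _ X_ne_zero) hH) hq,
      natDegree_mul (pow_ne_zero _ X_ne_zero) hH, natDegree_X_pow]
  have hr : (X ^ h'.natDegree * q'.reverse * h).natDegree ≤
      h'.natDegree + q'.natDegree + h.natDegree := by
    refine natDegree_mul_le.trans (Nat.add_le_add_right ?_ _)
    refine natDegree_mul_le.trans ?_
    rw [natDegree_X_pow]
    exact Nat.add_le_add_left (reverse_natDegree_le q') _
  rw [← key, hl] at hr
  omega

end ZRW

theorem t_ZRW : Stmt_ZRW := by
  intro k F _ _ _ t ht h h' hh hh'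
  have hinj : Function.Injective (aeval (R := k) t) := transcendental_iff_injective.mp ht
  have hh0 : aeval t h ≠ 0 := fun e => hh (hinj (by rw [e, map_zero]))
  refine ⟨(degreeLT k (h.natDegree + h'.natDegree + 1)).map
    ((LinearMap.mulLeft k (aeval t h)⁻¹).comp (aeval (R := k) t).toLinearMap), ?_, ?_⟩
  · have : FiniteDimensional k (degreeLT k (h.natDegree + h'.natDegree + 1)) :=
      Module.Finite.equiv (degreeLTEquiv k _).symm
    infer_instance
  · rintro x ⟨q, hq⟩ ⟨q', hq'⟩
    refine ⟨q, ?_, ?_⟩
    · rw [SetLike.mem_coe, mem_degreeLT]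
      refine lt_of_le_of_lt degree_le_natDegree ?_
      exact_mod_cast Nat.lt_succ_of_le (ZRW.natDegree_le ht hh' hq hq')
    · rw [LinearMap.comp_apply, LinearMap.mulLeft_apply, AlgHom.toLinearMap_apply, ← hq,
        inv_mul_cancel_left₀ hh0]

end Pool.Agent.MG.G0
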