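import Pool.Agent.MG.G0.StmtsZH

/-!
# Scaling of Krichever rings and discriminants (PAPER_Z.md, ZSD)
-/

open Polynomial

namespace Pool.Agent.MG.G0

namespace ZSD

section

variable {A : Type} [CommRing A]

theorem inv_sc (c : Aˣ) (f : LaurentSeries A) : sc c⁻¹ (sc c f) = f := by
  rw [sc_sc, inv_mul_cancel, sc_one]

theorem sc_inv (c : Aˣ) (f : LaurentSeries A) : sc c (sc c⁻¹ f) = f := by
  rw [sc_sc, mul_inv_cancel, sc_one]

theorem kr {g : ℕ} {R : Subalgebra A (LaurentSeries A)} (c : Aˣ) (h : Kr g R) :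
    Kr g (R.map (sc c)) := by
  obtain ⟨h1, L, h2, h3⟩ := Kr_iff.1 h
  refine Kr_iff.2 ⟨?_, L ∘ₗ (sc c⁻¹).toLinearMap, ?_, ?_⟩
  · rintro _ ⟨f, hf, rfl⟩ h0
    have h4 : f ∈ Po A 0 := by
      have h5 := sc_mem_Po c⁻¹ h0
      exact (inv_sc c f) ▸ h5
    obtain ⟨a, ha⟩ := h1 f hf h4
    exact ⟨a, by rw [ha]; exact (sc c).commutes a⟩
  · intro v
    obtain ⟨f, hf⟩ := h2 v
    exact ⟨sc c f, by
      change L (sc c⁻¹ (sc c f)) = v
      rw [inv_sc, hf]⟩
  · intro f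
    change L (sc c⁻¹ f) = 0 ↔ _
    rw [h3]
    constructor
    · rintro ⟨p, hp, hp'⟩
      refine ⟨sc c p, ⟨p, hp, rfl⟩, ?_⟩
      have h5 := sc_mem_Po c hp'
      rwa [map_sub, sc_inv] at h5
    · rintro ⟨_, ⟨p, hp, rfl⟩, hp'⟩
      refine ⟨p, hp, ?_⟩
      have h5 := sc_mem_Po c⁻¹ hp'
      rw [map_sub] at h5
      exact (inv_sc c p) ▸ h5

theorem zz_mem {d : ℕ} {R : Subalgebra A (LaurentSeries A)} (c : Aˣ) (h : zz A d ∈ R) :
    zz A d ∈ R.map (sc c) := by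
  refine ⟨(((c ^ (d : ℤ))⁻¹ : Aˣ) : A) • zz A d, R.smul_mem h _, ?_⟩
  change sc c ((((c ^ (d : ℤ))⁻¹ : Aˣ) : A) • zz A d) = zz A d
  rw [map_smul, sc_zz, smul_smul, Units.inv_mul, one_smul]

/-- The substitution `X ↦ a X`. -/
noncomputable def sub (a : A) : A[X] →ₐ[A] A[X] := aeval (C a * X)

theorem sub_C (a b : A) : sub a (C b) = C b := by
  rw [sub, aeval_C]
  rfl

theorem sub_X (a : A) : sub a X = C a * X := by
  rw [sub, aeval_X]

theorem sub_sub {a b : A} (h : a * b = 1) (q : A[X]) : sub a (sub b q) = q := by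
  have h1 : (sub a).comp (sub b) = AlgHom.id A A[X] := by
    refine Polynomial.algHom_ext ?_
    rw [AlgHom.comp_apply, sub_X, map_mul, sub_X, sub_C, AlgHom.id_apply, ← mul_assoc, ← C_mul,
      mul_comm b, h, C_1, one_mul]
  exact congrArg (fun F => F q) h1

theorem sc_zpol (c : Aˣ) (d : ℕ) (q : A[X]) :
    sc c (zpol A d q) = zpol A d (sub (((c ^ (d : ℤ) : Aˣ)) : A) q) := by
  have h1 : (sc c).comp (zpol A d) = (zpol A d).comp (sub (((c ^ (d : ℤ) : Aˣ)) : A)) := by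
    refine Polynomial.algHom_ext ?_
    rw [AlgHom.comp_apply, AlgHom.comp_apply, sub_X, map_mul, zpol, aeval_X, aeval_C, sc_zz,
      Algebra.smul_def]
  exact congrArg (fun F => F q) h1

theorem sc_pr0 (c : Aˣ) (d : ℕ) (f : LaurentSeries A) : sc c (pr0 A d f) = pr0 A d (sc c f) := by
  ext m
  rw [sc_coeff, pr0_coeff, pr0_coeff, sc_coeff]
  split_ifs
  · rfl
  · rw [mul_zero]

theorem disc {d : ℕ} {R : Subalgebra A (LaurentSeries A)} (c : Aˣ) {b : ℕ} (r : Fin b → A)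
    (h : Disc d R (∏ l, (X - C (r l)))) :
    Disc d (R.map (sc c)) (∏ l, (X - C (((c⁻¹ : Aˣ) : A) ^ d * r l))) := by
  obtain ⟨e, G, he, hG, u, hu, hdet⟩ := h
  set k : Aˣ := c ^ (d : ℤ) with hk
  have hk1 : (k : A) * ((k⁻¹ : Aˣ) : A) = 1 := k.mul_inv
  have hk2 : ((k⁻¹ : Aˣ) : A) * (k : A) = 1 := k.inv_mul
  have hkd : ((c⁻¹ : Aˣ) : A) ^ d = ((k⁻¹ : Aˣ) : A) := by
    rw [hk, zpow_natCast, ← inv_pow, Units.val_pow_eq_pow_val]
  refine ⟨fun i => sc c (e i), G.map (sub (k : A)), ⟨fun i => ⟨e i, he.mem i, rfl⟩, ?_⟩, ?_,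
    sub (k : A) u * C (k : A) ^ b, ?_, ?_⟩
  · rintro _ ⟨x, hx, rfl⟩
    obtain ⟨q, hq, hq'⟩ := he.uni x hx
    refine ⟨fun i => sub (k : A) (q i), ?_, ?_⟩
    · change sc c x = ∑ i, zpol A d (sub (k : A) (q i)) * sc c (e i)
      conv_lhs => rw [hq]
      rw [map_sum]
      refine Finset.sum_congr rfl fun i _ => ?_
      rw [map_mul, sc_zpol]
    · intro q1 hq1
      change sc c x = ∑ i, zpol A d (q1 i) * sc c (e i) at hq1
      have h1 : x = ∑ i, zpol A d (sub ((k⁻¹ : Aˣ) : A) (q1 i)) * e i := by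
        have h2 : sc c x = sc c (∑ i, zpol A d (sub ((k⁻¹ : Aˣ) : A) (q1 i)) * e i) := by
          rw [hq1, map_sum]
          refine Finset.sum_congr rfl fun i _ => ?_
          rw [map_mul, sc_zpol, sub_sub hk1]
        rw [← inv_sc c x, h2, inv_sc]
      have h3 := hq' _ h1
      funext i
      have h4 := congrFun h3 i
      change sub ((k⁻¹ : Aˣ) : A) (q1 i) = q i at h4
      rw [← h4, sub_sub hk1]
  · intro i j
    change zpol A d (sub (k : A) (G i j)) = pr0 A d (sc c (e i) * sc c (e j))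
    rw [← sc_zpol, hG i j, sc_pr0, map_mul]
  · refine IsUnit.mul (hu.map (sub (k : A))) ?_
    exact ((k.isUnit).map (C : A →+* A[X])).pow b
  · have h1 : (G.map (sub (k : A))).det = sub (k : A) G.det :=
      (AlgHom.map_det (sub (k : A)) G).symm
    have h2 : ∀ l, sub (k : A) (X - C (r l)) = C (k : A) * (X - C (((c⁻¹ : Aˣ) : A) ^ d * r l)) := by
      intro l
      rw [map_sub, sub_X, sub_C, mul_sub, ← C_mul, hkd, ← mul_assoc, hk1, one_mul]
    rw [h1, hdet, map_mul, map_prod, Finset.prod_congr rfl fun l _ => h2 l, Finset.prod_mul_distrib,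
      Finset.prod_const, Finset.card_univ, Fintype.card_fin, mul_assoc]

end

end ZSD

theorem t_ZSD : Stmt_ZSD := by
  intro A _ g d R c h hz
  exact ⟨ZSD.kr c h, ZSD.zz_mem c hz, fun r hr => ZSD.disc c r hr⟩

end Pool.Agent.MG.G0
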