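import Pool.Agent.MG.G0.StmtsZH

/-!
# ZSL: an injective `p`-linear endomorphism of a finite dimensional space over an algebraically
closed field is onto
-/

namespace Pool.Agent.MG.G0

namespace ZSL

variable {k V : Type} [Field k] [IsAlgClosed k] [AddCommGroup V] [Module k V]

theorem root (p : ℕ) (hp : p.Prime) (a : k) : ∃ b : k, b ^ p = a :=
  IsAlgClosed.exists_pow_nat_eq a hp.pos

theorem map_zero' (F : V → V) (hadd : ∀ x y, F (x + y) = F x + F y) : F 0 = 0 := by
  have h := hadd 0 0
  rw [add_zero] at h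
  exact left_eq_add.mp h

theorem map_sum' (F : V → V) (hadd : ∀ x y, F (x + y) = F x + F y) {ι : Type} (s : Finset ι)
    (f : ι → V) : F (∑ i ∈ s, f i) = ∑ i ∈ s, F (f i) :=
  map_sum (AddMonoidHom.mk' F hadd) f s

end ZSL

open ZSL in
theorem t_ZSL : Stmt_ZSL := by
  intro k V _ _ _ _ p hp hchar H hH F hadd hsmul hmem hinj x hx
  classical
  have : FiniteDimensional k H := hH
  let b := Module.finBasis k H
  have hpc : ∀ a : k, ∃ c : k, c ^ p = a := root p hp
  choose r hr using hpc
  -- the vectors `F bᵢ`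
  let w : Fin (Module.finrank k H) → H := fun i => ⟨F (b i : V), hmem _ (b i).2⟩
  have key : ∀ c : Fin (Module.finrank k H) → k,
      F ((∑ i, r (c i) • b i : H) : V) = ((∑ i, c i • w i : H) : V) := by
    intro c
    rw [AddSubmonoidClass.coe_finsetSum, AddSubmonoidClass.coe_finsetSum, map_sum' F hadd]
    refine Finset.sum_congr rfl fun i _ => ?_
    rw [Submodule.coe_smul, hsmul, hr, Submodule.coe_smul]
  have hli : LinearIndependent k w := by
    rw [Fintype.linearIndependent_iff]
    intro c hc i
    have h1 := key c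
    rw [hc] at h1
    have h2 := hinj _ (∑ i, r (c i) • b i : H).2 h1
    have h3 : (∑ i, r (c i) • b i : H) = 0 := Subtype.ext h2
    have h4 := (Fintype.linearIndependent_iff.mp b.linearIndependent) (fun i => r (c i)) h3 i
    have h5 := hr (c i)
    rw [h4, zero_pow hp.ne_zero] at h5
    exact h5.symm
  have hspan : Submodule.span k (Set.range w) = ⊤ := by
    apply hli.span_eq_top_of_card_eq_finrank'
    rw [Fintype.card_fin]
  have hx' : (⟨x, hx⟩ : H) ∈ Submodule.span k (Set.range w) := by
    rw [hspan]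
    trivial
  obtain ⟨c, hc⟩ := (Submodule.mem_span_range_iff_exists_fun k).mp hx'
  refine ⟨((∑ i, r (c i) • b i : H) : V), (∑ i, r (c i) • b i : H).2, ?_⟩
  rw [key, hc]

end Pool.Agent.MG.G0
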