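import Pool.Agent.MG.G0.AID
import Pool.Agent.MG.G0.APT
import Pool.Agent.MG.G0.AWB
import Pool.Agent.MG.G0.AWD
import Pool.Agent.MG.G0.AWK
import Pool.Agent.MG.G0.AYE
import Pool.Agent.MG.G0.BCO
import Pool.Agent.MG.G0.BGA
import Pool.Agent.MG.G0.BGL
import Pool.Agent.MG.G0.BPA
import Pool.Agent.MG.G0.BPB
import Pool.Agent.MG.G0.BPD
import Pool.Agent.MG.G0.BPX
import Pool.Agent.MG.G0.CNT
import Pool.Agent.MG.G0.CSM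
import Pool.Agent.MG.G0.CYC
import Pool.Agent.MG.G0.DIT
import Pool.Agent.MG.G0.DSC
import Pool.Agent.MG.G0.EEF
import Pool.Agent.MG.G0.GBC
import Pool.Agent.MG.G0.GCV
import Pool.Agent.MG.G0.GDG
import Pool.Agent.MG.G0.GDV
import Pool.Agent.MG.G0.GFR
import Pool.Agent.MG.G0.GFS
import Pool.Agent.MG.G0.GLF
import Pool.Agent.MG.G0.GNO
import Pool.Agent.MG.G0.GRA
import Pool.Agent.MG.G0.GRF
import Pool.Agent.MG.G0.GRX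
import Pool.Agent.MG.G0.GSM
import Pool.Agent.MG.G0.GST
import Pool.Agent.MG.G0.GTR
import Pool.Agent.MG.G0.GTT
import Pool.Agent.MG.G0.HV1
import Pool.Agent.MG.G0.HV2
import Pool.Agent.MG.G0.HV4
import Pool.Agent.MG.G0.HV5
import Pool.Agent.MG.G0.HV6
import Pool.Agent.MG.G0.HV7
import Pool.Agent.MG.G0.HV8
import Pool.Agent.MG.G0.HV9
import Pool.Agent.MG.G0.INT
import Pool.Agent.MG.G0.KAU
import Pool.Agent.MG.G0.KBC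
import Pool.Agent.MG.G0.KBT
import Pool.Agent.MG.G0.KDU
import Pool.Agent.MG.G0.KEQ
import Pool.Agent.MG.G0.KFG
import Pool.Agent.MG.G0.KFL
import Pool.Agent.MG.G0.KFO
import Pool.Agent.MG.G0.KGP
import Pool.Agent.MG.G0.KIL
import Pool.Agent.MG.G0.KIS
import Pool.Agent.MG.G0.KNZ
import Pool.Agent.MG.G0.KRK
import Pool.Agent.MG.G0.KSP
import Pool.Agent.MG.G0.LOC
import Pool.Agent.MG.G0.LOGF
import Pool.Agent.MG.G0.MAL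
import Pool.Agent.MG.G0.MCB
import Pool.Agent.MG.G0.MCM
import Pool.Agent.MG.G0.MEE
import Pool.Agent.MG.G0.MEX
import Pool.Agent.MG.G0.MFE
import Pool.Agent.MG.G0.MLG
import Pool.Agent.MG.G0.MPB
import Pool.Agent.MG.G0.MPG
import Pool.Agent.MG.G0.MSM
import Pool.Agent.MG.G0.MTR
import Pool.Agent.MG.G0.MVF
import Pool.Agent.MG.G0.MVN
import Pool.Agent.MG.G0.MVR
import Pool.Agent.MG.G0.MVS
import Pool.Agent.MG.G0.MVX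
import Pool.Agent.MG.G0.NCO
import Pool.Agent.MG.G0.NDB
import Pool.Agent.MG.G0.NEL
import Pool.Agent.MG.G0.NKE
import Pool.Agent.MG.G0.NLI
import Pool.Agent.MG.G0.NNK
import Pool.Agent.MG.G0.NPA
import Pool.Agent.MG.G0.NPB
import Pool.Agent.MG.G0.NPC
import Pool.Agent.MG.G0.NPG
import Pool.Agent.MG.G0.NPL
import Pool.Agent.MG.G0.NPY
import Pool.Agent.MG.G0.NQY
import Pool.Agent.MG.G0.NSG
import Pool.Agent.MG.G0.PBC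
import Pool.Agent.MG.G0.PDP
import Pool.Agent.MG.G0.PFB
import Pool.Agent.MG.G0.PL0
import Pool.Agent.MG.G0.PL1
import Pool.Agent.MG.G0.PL2
import Pool.Agent.MG.G0.PL3
import Pool.Agent.MG.G0.PL4
import Pool.Agent.MG.G0.PL5
import Pool.Agent.MG.G0.PL6
import Pool.Agent.MG.G0.PL7
import Pool.Agent.MG.G0.PLF
import Pool.Agent.MG.G0.PLR
import Pool.Agent.MG.G0.PNI
import Pool.Agent.MG.G0.POA
import Pool.Agent.MG.G0.POF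
import Pool.Agent.MG.G0.POL
import Pool.Agent.MG.G0.POX
import Pool.Agent.MG.G0.PPR
import Pool.Agent.MG.G0.PSI
import Pool.Agent.MG.G0.PSK
import Pool.Agent.MG.G0.PSU
import Pool.Agent.MG.G0.PTO
import Pool.Agent.MG.G0.REM
import Pool.Agent.MG.G0.RES
import Pool.Agent.MG.G0.RIN
import Pool.Agent.MG.G0.ROO
import Pool.Agent.MG.G0.RTA
import Pool.Agent.MG.G0.RTR
import Pool.Agent.MG.G0.SBC
import Pool.Agent.MG.G0.SCO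
import Pool.Agent.MG.G0.SCR
import Pool.Agent.MG.G0.SDB
import Pool.Agent.MG.G0.SDF
import Pool.Agent.MG.G0.SDN
import Pool.Agent.MG.G0.SKK
import Pool.Agent.MG.G0.SMO
import Pool.Agent.MG.G0.SPR
import Pool.Agent.MG.G0.STO
import Pool.Agent.MG.G0.SUB
import Pool.Agent.MG.G0.TCA
import Pool.Agent.MG.G0.TCfin
import Pool.Agent.MG.G0.TG.TCF
import Pool.Agent.MG.G0.TG.TCG
import Pool.Agent.MG.G0.TG.TCH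
import Pool.Agent.MG.G0.TG.TCI
import Pool.Agent.MG.G0.TG.TCM
import Pool.Agent.MG.G0.TG.TCN
import Pool.Agent.MG.G0.TG.TCO
import Pool.Agent.MG.G0.TG.TCQ
import Pool.Agent.MG.G0.TG.TCR
import Pool.Agent.MG.G0.TG.TCX
import Pool.Agent.MG.G0.TG.TCY
import Pool.Agent.MG.G0.TG.TCZ
import Pool.Agent.MG.G0.TG.TDN
import Pool.Agent.MG.G0.TG.TEP
import Pool.Agent.MG.G0.TG.TFP
import Pool.Agent.MG.G0.TG.TGA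
import Pool.Agent.MG.G0.TG.TGB
import Pool.Agent.MG.G0.TG.TGC
import Pool.Agent.MG.G0.TG.TGG
import Pool.Agent.MG.G0.TG.TGN
import Pool.Agent.MG.G0.TG.TGR
import Pool.Agent.MG.G0.TG.TGT
import Pool.Agent.MG.G0.TG.TLC
import Pool.Agent.MG.G0.TG.TNS
import Pool.Agent.MG.G0.TG.TRX
import Pool.Agent.MG.G0.TG.TWT
import Pool.Agent.MG.G0.TG.TZF
import Pool.Agent.MG.G0.TG.TZU
import Pool.Agent.MG.G0.TRA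
import Pool.Agent.MG.G0.TRZ
import Pool.Agent.MG.G0.UAI
import Pool.Agent.MG.G0.UEM
import Pool.Agent.MG.G0.UFI
import Pool.Agent.MG.G0.UGD
import Pool.Agent.MG.G0.UGL
import Pool.Agent.MG.G0.UGN
import Pool.Agent.MG.G0.UH1
import Pool.Agent.MG.G0.UIN
import Pool.Agent.MG.G0.UKR
import Pool.Agent.MG.G0.ULR
import Pool.Agent.MG.G0.UM0
import Pool.Agent.MG.G0.UM1
import Pool.Agent.MG.G0.UM2
import Pool.Agent.MG.G0.UMD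
import Pool.Agent.MG.G0.UNO
import Pool.Agent.MG.G0.UPL
import Pool.Agent.MG.G0.UPO
import Pool.Agent.MG.G0.UPR
import Pool.Agent.MG.G0.URG
import Pool.Agent.MG.G0.USC
import Pool.Agent.MG.G0.USN
import Pool.Agent.MG.G0.USX
import Pool.Agent.MG.G0.UVK
import Pool.Agent.MG.G0.UVL
import Pool.Agent.MG.G0.UZT
import Pool.Agent.MG.G0.UZU
import Pool.Agent.MG.G0.ZBA
import Pool.Agent.MG.G0.ZBE
import Pool.Agent.MG.G0.ZBL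
import Pool.Agent.MG.G0.ZBO
import Pool.Agent.MG.G0.ZBR
import Pool.Agent.MG.G0.ZBT
import Pool.Agent.MG.G0.ZCA
import Pool.Agent.MG.G0.ZCE
import Pool.Agent.MG.G0.ZCI
import Pool.Agent.MG.G0.ZDU
import Pool.Agent.MG.G0.ZFC
import Pool.Agent.MG.G0.ZFD
import Pool.Agent.MG.G0.ZFE
import Pool.Agent.MG.G0.ZFF
import Pool.Agent.MG.G0.ZFM
import Pool.Agent.MG.G0.ZFV
import Pool.Agent.MG.G0.ZGR
import Pool.Agent.MG.G0.ZIC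
import Pool.Agent.MG.G0.ZL.Fin
import Pool.Agent.MG.G0.ZL.ZD
import Pool.Agent.MG.G0.ZLA
import Pool.Agent.MG.G0.ZOB
import Pool.Agent.MG.G0.ZOD
import Pool.Agent.MG.G0.ZOI
import Pool.Agent.MG.G0.ZOR
import Pool.Agent.MG.G0.ZPB
import Pool.Agent.MG.G0.ZPC
import Pool.Agent.MG.G0.ZPL
import Pool.Agent.MG.G0.ZPM
import Pool.Agent.MG.G0.ZQA
import Pool.Agent.MG.G0.ZQL
import Pool.Agent.MG.G0.ZQN
import Pool.Agent.MG.G0.ZRF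
import Pool.Agent.MG.G0.ZRK
import Pool.Agent.MG.G0.ZRR
import Pool.Agent.MG.G0.ZRT
import Pool.Agent.MG.G0.ZRV
import Pool.Agent.MG.G0.ZRW
import Pool.Agent.MG.G0.ZSD
import Pool.Agent.MG.G0.ZSL
import Pool.Agent.MG.G0.ZZZ

/-!
# Assembly of the statements: `Stmt_UFI` without hypotheses
-/

namespace Pool.Agent.MG.G0.Asm

open Pool.Agent.MG.G0

theorem a_KDU : Stmt_KDU :=
  t_KDU 

theorem a_KFO : Stmt_KFO :=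
  t_KFO a_KDU

theorem a_KNZ : Stmt_KNZ :=
  t_KNZ 

theorem a_KSP : Stmt_KSP :=
  t_KSP a_KNZ

theorem a_KBC : Stmt_KBC :=
  t_KBC a_KFO a_KNZ a_KSP

theorem a_ROO : Stmt_ROO :=
  t_ROO 

theorem a_RTR : Stmt_RTR :=
  t_RTR 

theorem a_RTA : Stmt_RTA :=
  t_RTA 

theorem a_RIN : Stmt_RIN :=
  t_RIN a_RTR a_RTA

theorem a_KAU : Stmt_KAU :=
  t_KAU 

theorem a_SUB : Stmt_SUB :=
  t_SUB a_RIN a_KAU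

theorem a_GST : Stmt_GST :=
  t_GST 

theorem a_GLF : Stmt_GLF :=
  t_GLF a_GST

theorem a_GFS : Stmt_GFS :=
  t_GFS a_GST a_GLF

theorem a_GSM : Stmt_GSM :=
  t_GSM a_GST

theorem a_GTT : Stmt_GTT :=
  t_GTT a_GST

theorem a_GNO : Stmt_GNO :=
  t_GNO a_GST a_GTT

theorem a_GFR : Stmt_GFR :=
  t_GFR a_GST

theorem a_SCO : Stmt_SCO :=
  t_SCO 

theorem a_LOC : Stmt_LOC :=
  t_LOC 

theorem a_SBC : Stmt_SBC :=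
  t_SBC a_SCO a_LOC

theorem a_GTR : Stmt_GTR :=
  t_GTR a_SUB a_SBC

theorem a_GRA : Stmt_GRA :=
  t_GRA a_ROO a_SUB a_GST a_GFS a_GSM a_GTT a_GNO a_GFR a_GTR

theorem a_KBT : Stmt_KBT :=
  t_KBT a_KSP a_KBC

theorem a_KFG : Stmt_KFG :=
  t_KFG a_KNZ a_KSP

theorem a_PPR : Stmt_PPR :=
  t_PPR a_KDU a_KSP

theorem a_PBC : Stmt_PBC :=
  t_PBC a_KFO a_KBC a_PPR

theorem a_RES : Stmt_RES :=
  t_RES a_RTR a_RTA a_KSP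

theorem a_SKK : Stmt_SKK :=
  t_SKK a_KNZ a_SCO

theorem a_STO : Stmt_STO :=
  t_STO a_RES a_SKK

theorem a_SDB : Stmt_SDB :=
  t_SDB a_KBC a_KBT a_STO a_SBC a_PBC

theorem a_APT : Stmt_APT :=
  t_APT a_SCO

theorem a_AID : Stmt_AID :=
  t_AID a_SCO a_KFG

theorem a_AYE : Stmt_AYE :=
  t_AYE a_KNZ a_AID

theorem a_AWK : Stmt_AWK :=
  t_AWK a_KNZ a_SBC a_AYE

theorem a_SDF : Stmt_SDF :=
  t_SDF a_KFG a_RES a_STO a_SCO a_APT a_AYE a_AWK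

theorem a_INT : Stmt_INT :=
  t_INT a_KFO a_KBC

theorem a_KIL : Stmt_KIL :=
  t_KIL a_PBC a_INT

theorem a_PDP : Stmt_PDP :=
  t_PDP a_KFO a_PPR

theorem a_KIS : Stmt_KIS :=
  t_KIS a_KFG a_SKK a_SCO a_PDP

theorem a_UGL : Stmt_UGL :=
  t_UGL a_KBC a_KBT a_KFG a_PBC a_STO a_SDB a_SDF a_KIL a_KIS

theorem a_UZT : Stmt_UZT :=
  t_UZT a_STO a_SDF a_PPR a_KIL a_KIS

theorem a_DIT : Stmt_DIT :=
  t_DIT a_KFO a_STO a_SDF a_KIL a_KIS a_UZT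

theorem a_UNO : Stmt_UNO :=
  t_UNO a_KFO a_KBC a_DIT a_KIL a_KIS a_SDF

theorem a_KGP : Stmt_KGP :=
  t_KGP a_KFO a_KNZ a_KBC

theorem a_BCO : Stmt_BCO :=
  t_BCO 

theorem a_ZDU : Stmt_ZDU :=
  t_ZDU 

theorem a_BPD : Stmt_BPD :=
  t_BPD a_BCO a_ZDU

theorem a_PSI : Stmt_PSI :=
  t_PSI 

theorem a_ZD1 : Stmt_ZD1 :=
  t_ZD1 

theorem a_BPB : Stmt_BPB :=
  t_BPB a_BPD a_PSI a_ZD1

theorem a_CYC : Stmt_CYC :=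
  t_CYC a_ZDU

theorem a_UGN : Stmt_UGN :=
  t_UGN a_SCO a_SKK a_KIL a_KIS a_KGP a_BPB a_CYC a_UZT

theorem a_DSC : Stmt_DSC :=
  t_DSC a_KBC a_KBT

theorem a_KRK : Stmt_KRK :=
  t_KRK 

theorem a_MSM : Stmt_MSM :=
  t_MSM a_KBC a_KIL a_KIS a_DSC a_KRK

theorem a_KEQ : Stmt_KEQ :=
  t_KEQ 

theorem a_AWB : Stmt_AWB :=
  t_AWB a_KBC a_KBT a_KEQ a_AWK

theorem a_KFL : Stmt_KFL :=
  t_KFL a_KSP

theorem a_PL1 : Stmt_PL1 :=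
  t_PL1 a_KFO a_KBC a_KFL a_AYE a_AWK a_AWB

theorem a_PL2 : Stmt_PL2 :=
  t_PL2 a_KBC a_KEQ a_AYE a_AWK a_AWB a_PL1

theorem a_NPG : Stmt_NPG :=
  t_NPG a_ZDU

theorem a_NPA : Stmt_NPA :=
  t_NPA a_APT a_SUB a_KIL a_KIS a_PL2 a_ZDU a_NPG

theorem a_NEL : Stmt_NEL :=
  t_NEL 

theorem a_NDB : Stmt_NDB :=
  t_NDB 

theorem a_NLI : Stmt_NLI :=
  t_NLI a_NEL a_NDB

theorem a_NSG : Stmt_NSG :=
  t_NSG a_PSI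

theorem a_NQY : Stmt_NQY :=
  t_NQY a_AYE

theorem a_NKE : Stmt_NKE :=
  t_NKE a_KBC a_KBT

theorem a_NNK : Stmt_NNK :=
  t_NNK 

theorem a_NCO : Stmt_NCO :=
  t_NCO 

theorem a_NPB : Stmt_NPB :=
  t_NPB a_PL2 a_NLI a_NDB a_NSG a_NQY a_NKE a_NNK a_NCO

theorem a_PNI : Stmt_PNI :=
  t_PNI a_PPR

theorem a_SDN : Stmt_SDN :=
  t_SDN a_KBC a_STO a_PNI

theorem a_TCA : Stmt_TCA :=
  t_TCA a_KSP a_KBT a_SBC a_SDF a_SDN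

theorem a_PL0 : Stmt_PL0 :=
  t_PL0 

theorem a_NPY : Stmt_NPY :=
  t_NPY a_KSP a_KBT a_AYE a_PL0 a_PL2

theorem a_NPC : Stmt_NPC :=
  t_NPC a_KSP a_KFL a_KBT a_KEQ a_AYE a_AWK a_PL0 a_PL1 a_TCA a_NPY

theorem a_NPL : Stmt_NPL :=
  t_NPL a_KBC a_NPA a_NPB a_TCA a_NPC

theorem a_AWD : Stmt_AWD :=
  t_AWD a_RES a_STO a_AYE a_AWK

theorem a_PL3 : Stmt_PL3 :=
  t_PL3 a_AID a_AYE a_AWK a_STO a_SCO

theorem a_PL4 : Stmt_PL4 :=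
  t_PL4 a_KDU a_AWK a_PL0

theorem a_PL7 : Stmt_PL7 :=
  t_PL7 a_STO a_SCO a_AWK a_AWD a_PL0 a_PL3 a_PL4

theorem a_SPR : Stmt_SPR :=
  t_SPR a_PPR a_PBC a_KBC

theorem a_UPO : Stmt_UPO :=
  t_UPO a_KBC a_SDF a_STO a_MSM a_PL7 a_NPL a_SPR

theorem a_SCR : Stmt_SCR :=
  t_SCR a_KFG a_SKK

theorem a_SMO : Stmt_SMO :=
  t_SMO a_KFG a_PDP a_RES a_STO a_SCR

theorem a_UGD : Stmt_UGD :=
  t_UGD a_KBC a_PBC a_SBC a_KIL a_KIS a_MSM a_PL2 a_NPL a_UPO a_SMO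

theorem a_UH1 : Stmt_UH1 :=
  t_UH1 a_UGL a_UGD

theorem a_USC : Stmt_USC :=
  t_USC a_GRA

theorem a_UM0 : Stmt_UM0 :=
  t_UM0 a_KFG a_APT a_AID

theorem a_USN : Stmt_USN :=
  t_USN a_GRA a_UM0

theorem a_UM1 : Stmt_UM1 :=
  t_UM1 a_UGL

theorem a_UM2 : Stmt_UM2 :=
  t_UM2 a_KFG a_UGL a_UGD

theorem a_HV1 : Stmt_HV1 :=
  t_HV1 

theorem a_CNT : Stmt_CNT :=
  t_CNT 

theorem a_GBC : Stmt_GBC :=
  t_GBC a_KBC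

theorem a_PSU : Stmt_PSU :=
  t_PSU a_KBC a_CNT a_GBC

theorem a_POL : Stmt_POL :=
  t_POL a_PSU a_KBC

theorem a_PTO : Stmt_PTO :=
  t_PTO a_POL

theorem a_HV2 : Stmt_HV2 :=
  t_HV2 a_POL a_PTO

theorem a_USX : Stmt_USX :=
  t_USX a_SCO a_SKK a_SDB a_HV1 a_HV2 a_UGL

theorem a_HV4 : Stmt_HV4 :=
  t_HV4 a_POL a_CNT

theorem a_HV5 : Stmt_HV5 :=
  t_HV5 a_POL

theorem a_POA : Stmt_POA :=
  t_POA a_GBC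

theorem a_GRX : Stmt_GRX :=
  t_GRX a_KAU a_KBC a_SBC

theorem a_HV8 : Stmt_HV8 :=
  t_HV8 a_POA a_GRX

theorem a_MTR : Stmt_MTR :=
  t_MTR 

theorem a_MEE : Stmt_MEE :=
  t_MEE a_KFO a_KBC

theorem a_MPB : Stmt_MPB :=
  t_MPB a_KBC a_AWB a_AYE a_AWK a_PL2

theorem a_PL5 : Stmt_PL5 :=
  t_PL5 a_KFG a_SCO a_LOC a_SKK a_AWK a_PL0 a_PL1 a_PL3

theorem a_PL6 : Stmt_PL6 :=
  t_PL6 a_AWK a_PL0 a_PL3 a_PL5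

theorem a_MPG : Stmt_MPG :=
  t_MPG a_KBC a_KBT a_SCO a_SDB a_AWB a_AYE a_AWK a_PL1 a_PL2 a_PL6 a_PL7

theorem a_MFE : Stmt_MFE :=
  t_MFE a_KDU a_KFO

theorem a_MVX : Stmt_MVX :=
  t_MVX a_KBC a_AWB a_PL1 a_PL2 a_MPB a_MPG a_MTR a_MFE a_HV1 a_HV2

theorem a_MVN : Stmt_MVN :=
  t_MVN a_KBC a_AWB a_MEE a_MPB a_MPG a_MTR a_HV4

theorem a_PLR : Stmt_PLR :=
  t_PLR a_KDU a_KFO a_AYE a_AWK a_PL1 a_PL2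

theorem a_PLF : Stmt_PLF :=
  t_PLF a_AID a_AYE a_AWK a_PL0

theorem a_MCB : Stmt_MCB :=
  t_MCB a_KEQ a_KBC a_KNZ a_KAU a_KBT a_SDB a_MPG

theorem a_MVS : Stmt_MVS :=
  t_MVS a_KBC a_AWB a_PL2 a_MEE a_MPB a_MPG a_MTR a_HV4 a_HV5

theorem a_PFB : Stmt_PFB :=
  t_PFB a_KBC a_KEQ

theorem a_POF : Stmt_POF :=
  t_POF a_PFB a_GBC

theorem a_EEF : Stmt_EEF :=
  t_EEF a_KDU

theorem a_HV6 : Stmt_HV6 :=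
  t_HV6 a_POF a_EEF a_STO

theorem a_MVF : Stmt_MVF :=
  t_MVF a_KBC a_AWB a_PLF a_MEE a_MFE a_MPB a_MPG a_MCB a_MTR a_MVX a_HV6

theorem a_POX : Stmt_POX :=
  t_POX a_GBC

theorem a_HV7 : Stmt_HV7 :=
  t_HV7 a_POX a_GRX

theorem a_MVR : Stmt_MVR :=
  t_MVR a_KAU a_KBC a_AWB a_MPB a_MPG a_MCB a_HV7

theorem a_MCM : Stmt_MCM :=
  t_MCM a_KBC a_MEE a_MPB a_MPG a_MTR a_MVX a_HV2

theorem a_MAL : Stmt_MAL :=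
  t_MAL 

theorem a_MEX : Stmt_MEX :=
  t_MEX a_KBC a_KBT

theorem a_MLG : Stmt_MLG :=
  t_MLG a_KBC a_AWB a_PL2 a_PLR a_PLF a_MTR a_MEE a_MFE a_MPB a_MPG a_MCB a_MVX a_MVN a_MVS a_MVF a_MVR a_MCM a_MAL a_MEX

theorem a_TRX : Stmt_TRX :=
  t_TRX a_KBC a_KBT a_SDB a_KAU

theorem a_TEP : Stmt_TEP :=
  t_TEP a_MCB a_KBC

theorem a_TNS : Stmt_TNS :=
  t_TNS a_TEP a_KFG

theorem a_TCN : Stmt_TCN :=
  t_TCN a_TRX a_APT a_AWK a_AWD a_TCA a_TNS a_MCB a_SDB a_KFG a_KBC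

theorem a_REM : Stmt_REM :=
  t_REM a_KEQ a_KBC a_KNZ

theorem a_TDN : Stmt_TDN :=
  t_TDN a_MCB a_REM a_KAU a_KNZ a_KBC

theorem a_TCO : Stmt_TCO :=
  t_TCO a_TEP a_KDU a_STO

theorem a_TCY : Stmt_TCY :=
  t_TCY a_SMO a_ROO a_SUB a_GTR a_SBC a_KNZ

theorem a_TCR : Stmt_TCR :=
  t_TCR a_TDN a_MCB a_TRX a_TCA a_TCO a_TCY a_KAU

theorem a_TCQ : Stmt_TCQ :=
  t_TCQ 

theorem a_TCF : Stmt_TCF :=
  t_TCF a_KNZ a_KFG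

theorem a_TZU : Stmt_TZU :=
  t_TZU 

theorem a_TZF : Stmt_TZF :=
  t_TZF a_KFO a_KBC a_MCB a_STO a_TZU

theorem a_TCZ : Stmt_TCZ :=
  t_TCZ a_TCN a_TCR a_TEP a_TCQ a_TCF a_TZU a_TZF a_KNZ a_KBC a_KAU

theorem a_TFP : Stmt_TFP :=
  t_TFP 

theorem a_TGN : Stmt_TGN :=
  t_TGN a_TFP

theorem a_TWT : Stmt_TWT :=
  t_TWT 

theorem a_TGT : Stmt_TGT :=
  t_TGT a_TFP a_TWT

theorem a_TGA : Stmt_TGA :=
  t_TGA a_TFP a_SUB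

theorem a_TGR : Stmt_TGR :=
  t_TGR 

theorem a_TGB : Stmt_TGB :=
  t_TGB a_TFP a_TGA a_TGR

theorem a_TGC : Stmt_TGC :=
  t_TGC a_TGB

theorem a_TGG : Stmt_TGG :=
  t_TGG a_TFP a_TGN a_TGT a_TGC

theorem a_TLC : Stmt_TLC :=
  t_TLC 

theorem a_TCH : Stmt_TCH :=
  t_TCH a_TEP a_LOC a_STO

theorem a_TCI : Stmt_TCI :=
  t_TCI a_KBT

theorem a_TCM : Stmt_TCM :=
  t_TCM a_TCH a_KBC a_TRX

theorem a_TCG : Stmt_TCG :=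
  t_TCG a_TLC a_TCH a_TCI a_TCM a_TRX a_KBC a_KFG a_STO

theorem a_TCX : Stmt_TCX :=
  t_TCX a_TFP a_TGG a_TCG

theorem a_TCx : Stmt_TCx :=
  t_TCx a_TCZ a_TCX

theorem a_LOGF : Stmt_LOGF :=
  t_LOGF a_KBC a_AWB a_MTR a_MEE a_MPB a_MPG a_MVX a_MVN a_MLG a_HV2 a_HV4 a_TCx

theorem a_CSM : Stmt_CSM :=
  t_CSM a_SCO a_SKK

theorem a_UIN : Stmt_UIN :=
  t_UIN a_NPL a_UGL a_UPO a_UGD a_HV1 a_HV2 a_HV4 a_HV5 a_HV8 a_LOGF a_KBC a_SDB a_CSM a_MSM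

theorem a_HV9 : Stmt_HV9 :=
  t_HV9 a_POL a_CSM

theorem a_UVL : Stmt_UVL :=
  t_UVL a_KFO

theorem a_UVK : Stmt_UVK :=
  t_UVK a_KBC a_STO a_SCO a_SKK a_SDB a_HV2 a_HV4 a_HV9 a_UGL a_UVL

theorem a_ULR : Stmt_ULR :=
  t_ULR 

theorem a_UEM : Stmt_UEM :=
  t_UEM 

theorem a_UKR : Stmt_UKR :=
  t_UKR a_KFO a_KNZ a_KBC a_KEQ a_KGP

theorem a_TRA : Stmt_TRA :=
  t_TRA a_KFO a_UKR

theorem a_TRZ : Stmt_TRZ :=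
  t_TRZ 

theorem a_UMD : Stmt_UMD :=
  t_UMD a_KBC a_ULR a_UKR

theorem a_ZD2 : Stmt_ZD2 :=
  t_ZD2 

theorem a_ZDB : Stmt_ZDB :=
  t_ZDB a_KBC

theorem a_GDV : Stmt_GDV :=
  t_GDV 

theorem a_GCV : Stmt_GCV :=
  t_GCV a_GDV

theorem a_GDG : Stmt_GDG :=
  t_GDG a_ZD1

theorem a_GRF : Stmt_GRF :=
  t_GRF a_SDF a_ZD2 a_ZDB a_GLF a_GCV a_GDG a_GRA

theorem a_ZPC : Stmt_ZPC :=
  t_ZPC 

theorem a_BGA : Stmt_BGA :=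
  t_BGA 

theorem a_BGL : Stmt_BGL :=
  t_BGL a_BGA a_KFO a_KBC

theorem a_PSK : Stmt_PSK :=
  t_PSK a_PSI

theorem a_ZBA : Stmt_ZBA :=
  t_ZBA a_ZDB a_BGA a_PSK

theorem a_ZBL : Stmt_ZBL :=
  t_ZBL 

theorem a_ZBT : Stmt_ZBT :=
  t_ZBT a_BGA a_BGL a_PSK a_ZBA a_ZBL

theorem a_ZBO : Stmt_ZBO :=
  t_ZBO a_KBC

theorem a_ZBE : Stmt_ZBE :=
  t_ZBE a_BGA a_BGL a_KBC a_CYC a_BPB

theorem a_ZFM : Stmt_ZFM :=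
  t_ZFM a_KBC a_BGA a_BGL a_PSI a_ZBT a_ZBO a_ZBE

theorem a_ZCE : Stmt_ZCE :=
  t_ZCE 

theorem a_ZCA : Stmt_ZCA :=
  t_ZCA a_ZCE

theorem a_ZCI : Stmt_ZCI :=
  t_ZCI a_KFO a_RES a_STO a_ZCE a_ZCA

theorem a_ZLA : Stmt_ZLA :=
  t_ZLA 

theorem a_ZRF : Stmt_ZRF :=
  t_ZRF 

theorem a_ZQA : Stmt_ZQA :=
  t_ZQA a_KIL a_PDP a_ZD1 a_ZLA a_ZRF

theorem a_ZQL : Stmt_ZQL :=
  t_ZQL 

theorem a_ZQN : Stmt_ZQN :=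
  t_ZQN a_KFO a_KBC a_ZQA a_ZQL

theorem a_ZOR : Stmt_ZOR :=
  t_ZOR a_KFO a_KBC a_RES a_ZCI a_ZQN

theorem a_ZOI : Stmt_ZOI :=
  t_ZOI a_KFO a_KBC

theorem a_ZOD : Stmt_ZOD :=
  t_ZOD a_KFO a_KBC

theorem a_ZL : Stmt_ZL :=
  t_ZL a_KBC

theorem a_BPX : Stmt_BPX :=
  t_BPX a_BPD a_KBC a_KBT

theorem a_BPA : Stmt_BPA :=
  t_BPA a_BPX a_KBC a_ZDB

theorem a_ZRT : Stmt_ZRT :=
  t_ZRT 

theorem a_ZRV : Stmt_ZRV :=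
  t_ZRV 

theorem a_ZBR : Stmt_ZBR :=
  t_ZBR a_BPA a_ZRT a_ZRV a_BGL a_KBC a_ZDB

theorem a_ZSD : Stmt_ZSD :=
  t_ZSD 

theorem a_ZRK : Stmt_ZRK :=
  t_ZRK 

theorem a_ZPM : Stmt_ZPM :=
  t_ZPM a_KBC a_ZL

theorem a_ZGR : Stmt_ZGR :=
  t_ZGR a_ZLA

theorem a_ZPL : Stmt_ZPL :=
  t_ZPL a_KBC a_ZL a_CYC a_ZBR a_ZPC a_ZSD a_ZRK a_ZPM a_ZGR

theorem a_ZOB : Stmt_ZOB :=
  t_ZOB 

theorem a_ZPB : Stmt_ZPB :=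
  t_ZPB a_KBC a_KEQ a_INT

theorem a_ZFE : Stmt_ZFE :=
  t_ZFE a_KFO a_KBC a_KGP

theorem a_ZIC : Stmt_ZIC :=
  t_ZIC 

theorem a_ZRW : Stmt_ZRW :=
  t_ZRW 

theorem a_ZRR : Stmt_ZRR :=
  t_ZRR a_ZIC a_ZRW

theorem a_ZFD : Stmt_ZFD :=
  t_ZFD a_KFO a_ZFE a_ZRR

theorem a_ZFF : Stmt_ZFF :=
  t_ZFF a_KFO

theorem a_ZFC : Stmt_ZFC :=
  t_ZFC a_KBC a_ZFE

theorem a_ZSL : Stmt_ZSL :=
  t_ZSL 

theorem a_ZFV : Stmt_ZFV :=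
  t_ZFV a_ZFF a_ZFC a_ZSL a_ZFD

theorem a_ZZZ : Stmt_ZZZ :=
  t_ZZZ a_KBC a_ZDB a_ZPC a_ZFM a_ZOR a_ZOI a_ZOD a_ZPL a_ZOB a_ZPM a_ZPB a_ZFD a_ZFV

theorem a_URG : Stmt_URG :=
  t_URG a_KEQ a_UKR a_GRA

theorem a_UPL : Stmt_UPL :=
  t_UPL a_UKR a_UMD

theorem a_UAI : Stmt_UAI :=
  t_UAI 

theorem a_UPR : Stmt_UPR :=
  t_UPR 

theorem a_UZU : Stmt_UZU :=
  t_UZU a_KBC a_ULR a_UEM a_UKR a_TRA a_TRZ a_UMD a_GRA a_GRF a_ZZZ a_URG a_UPL a_UAI a_UPR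

theorem a_UFI : Stmt_UFI :=
  t_UFI a_KBC a_GRA a_UGL a_UNO a_UGN a_UH1 a_USC a_USN a_UM1 a_UM2 a_USX a_UIN a_UVK a_UZU a_UM0 a_MSM

end Pool.Agent.MG.G0.Asm
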