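import Pool.Agent.MG.Std

/-!
# Krichever rings

Curves over a ring `A` with punctures `I` (disjoint sections, every component of every fibre meets
one of them) and coordinates `τ i` at the punctures are given by the ring `P` of the functions
regular outside the punctures, as a subalgebra of the ring `KK I A` of Laurent series in the `τ i`.
-/

namespace Pool.Agent.MG.G0

/-- The `A`-algebra `A((τ))`. (This instance comes first: Mathlib's instance search would otherwise
find `HahnSeries.powerSeriesAlgebra`, whose scalar multiplication is not the one of
`HahnSeries.instModule` by definition.) -/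
noncomputable instance (priority := 5000) lsAlgebra (A : Type) [CommRing A] :
    Algebra A (LaurentSeries A) :=
  HahnSeries.instAlgebra

/-- Laurent series in the local coordinates at the punctures. -/
abbrev KK (I A : Type) [CommRing A] : Type := I → LaurentSeries A

section

variable {I : Type} {A B : Type} [CommRing A] [CommRing B]

/-- The coefficientwise map of Laurent series. -/
noncomputable def lmap (φ : A →+* B) : LaurentSeries A →+* LaurentSeries B where
  toFun f := f.map φ
  map_one' := by
    ext n
    rw [HahnSeries.map_coeff, HahnSeries.coeff_one, HahnSeries.coeff_one]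
    split_ifs <;> simp
  map_zero' := by
    ext n
    rw [HahnSeries.map_coeff, HahnSeries.coeff_zero, HahnSeries.coeff_zero, map_zero]
  map_add' f g := by
    ext n
    simp only [HahnSeries.map_coeff, HahnSeries.coeff_add, map_add]
  map_mul' f g := HahnSeries.map_mul (φ : A →ₙ+* B)

@[simp] theorem lmap_coeff (φ : A →+* B) (f : LaurentSeries A) (n : ℤ) :
    (lmap φ f).coeff n = φ (f.coeff n) := rfl

/-- The coefficientwise map. -/
noncomputable def kmap (φ : A →+* B) : KK I A →+* KK I B :=
  RingHom.pi fun i => (lmap φ).comp (Pi.evalRingHom _ i)

@[simp] theorem kmap_apply (φ : A →+* B) (f : KK I A) (i : I) : kmap φ f i = lmap φ (f i) := rfl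

/-- Poles of order at most `n` at all punctures. -/
def Pol (I A : Type) [CommRing A] (n : ℤ) : Submodule A (KK I A) where
  carrier := {f | ∀ i m, m < -n → (f i).coeff m = 0}
  add_mem' {f g} hf hg i m hm := by
    rw [Pi.add_apply, HahnSeries.coeff_add, hf i m hm, hg i m hm, add_zero]
  zero_mem' i m _ := by rw [Pi.zero_apply, HahnSeries.coeff_zero]
  smul_mem' a f hf i m hm := by
    rw [Pi.smul_apply, HahnSeries.coeff_smul, hf i m hm, smul_zero]

theorem mem_Pol {n : ℤ} {f : KK I A} : f ∈ Pol I A n ↔ ∀ i m, m < -n → (f i).coeff m = 0 :=
  Iff.rfl

/-- The sum of the residues (of `f dτ`). -/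
noncomputable def res [Fintype I] : KK I A →ₗ[A] A where
  toFun f := ∑ i, (f i).coeff (-1)
  map_add' f g := by
    simp only [Pi.add_apply, HahnSeries.coeff_add, Finset.sum_add_distrib]
  map_smul' a f := by
    simp only [Pi.smul_apply, HahnSeries.coeff_smul, smul_eq_mul, Finset.mul_sum,
      RingHom.id_apply]

/-- The derivative of a Laurent series. -/
noncomputable def ld (f : LaurentSeries A) : LaurentSeries A := LaurentSeries.derivative A f

theorem ld_coeff (f : LaurentSeries A) (n : ℤ) :
    (ld f).coeff n = ((n + 1 : ℤ) : A) * f.coeff (n + 1) := by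
  rw [ld, LaurentSeries.derivative_apply, LaurentSeries.hasseDeriv_coeff]
  simp [Ring.choose_one_right]

/-- The derivatives with respect to the coordinates. -/
noncomputable def dd (f : KK I A) : KK I A := fun i => ld (f i)

end

end Pool.Agent.MG.G0
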