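import Pool.Agent.MG.G0.StmtsCQ

/-!
# CSM: on a smooth curve all first order deformations are given by vector fields
-/

open TensorProduct

namespace Pool.Agent.MG.G0

namespace CSM

variable {I : Type} [Fintype I] {A : Type} [CommRing A]

/-- A series with vanishing residue pairings is zero. -/
theorem eq_zero {f : KK I A} (h : ∀ θ : KK I A, res (θ * f) = 0) : f = 0 := by
  classical
  funext i
  ext n
  have h1 := h (mon i (-1 - n) 1)
  rw [mul_comm, res_mul_mon] at h1
  simpa using h1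

end CSM

theorem t_CSM (hSCO : Stmt_SCO) (hSKK : Stmt_SKK) : Stmt_CSM := by
  intro I A _ _ g P hP hS
  have h1 : ∀ D : DD P, ∃ θ : KK I A, D = tder P θ := by
    intro D
    obtain ⟨E, hE⟩ := (hSCO.2 hS).2.2 (KK I A) (MM P) (mk P) (mk_surj P) D
    obtain ⟨θ, hθ, -⟩ := (hSKK hP).2 hS E
    refine ⟨θ, Derivation.ext fun f => ?_⟩
    rw [← hE f, hθ f, tder_apply]
  refine ⟨h1, fun q => ⟨fun h => ?_, fun h => ?_⟩⟩
  · refine CSM.eq_zero fun θ => ?_
    rw [← Lq_tder, h, LinearMap.zero_apply]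
  · refine LinearMap.ext fun D => ?_
    obtain ⟨θ, rfl⟩ := h1 D
    rw [Lq_tder, h, mul_zero, map_zero, LinearMap.zero_apply]

end Pool.Agent.MG.G0
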