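import Pool.Agent.MG.G0.One

/-!
# Scaling of the coordinate, and subrings of the ring of coefficients
-/

namespace Pool.Agent.MG.G0

section

variable {A B : Type} [CommRing A] [CommRing B]

/-- Scaling: the series `f` written in the coordinate `c τ`, `f_m τ^m = f_m c^(-m) (c τ)^m`. -/
noncomputable def sc (c : Aˣ) : LaurentSeries A →ₐ[A] LaurentSeries A where
  toFun f :=
    { coeff := fun m => ((c ^ (-m) : Aˣ) : A) * f.coeff m
      isPWO_support' := f.isPWO_support.mono fun m hm => by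
        simp only [Function.mem_support, ne_eq] at hm ⊢
        exact fun h => hm (by rw [h, mul_zero]) }
  map_one' := by
    ext m
    change ((c ^ (-m) : Aˣ) : A) * (1 : LaurentSeries A).coeff m = (1 : LaurentSeries A).coeff m
    rw [HahnSeries.coeff_one]
    split_ifs with h
    · rw [h]
      simp
    · rw [mul_zero]
  map_zero' := by
    ext m
    change ((c ^ (-m) : Aˣ) : A) * (0 : LaurentSeries A).coeff m = (0 : LaurentSeries A).coeff m
    rw [HahnSeries.coeff_zero, mul_zero]
  map_add' f g := by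
    ext m
    change ((c ^ (-m) : Aˣ) : A) * (f + g).coeff m = _
    rw [HahnSeries.coeff_add, mul_add]
    rfl
  map_mul' f g := by
    obtain ⟨a, ha⟩ := exists_low f
    obtain ⟨b, hb⟩ := exists_low g
    ext m
    rw [coeff_mul_Icc (f := ⟨fun m => ((c ^ (-m) : Aˣ) : A) * f.coeff m, _⟩)
      (g := ⟨fun m => ((c ^ (-m) : Aˣ) : A) * g.coeff m, _⟩) (a := -(a : ℤ)) (b := -(b : ℤ))
      (fun m hm => by
        change ((c ^ (-m) : Aˣ) : A) * f.coeff m = 0
        rw [ha m hm, mul_zero])
      (fun m hm => by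
        change ((c ^ (-m) : Aˣ) : A) * g.coeff m = 0
        rw [hb m hm, mul_zero])]
    change ((c ^ (-m) : Aˣ) : A) * (f * g).coeff m = _
    rw [coeff_mul_Icc ha hb, Finset.mul_sum]
    refine Finset.sum_congr rfl fun i _ => ?_
    have h : c ^ (-m) = c ^ (-i) * c ^ (-(m - i)) := by
      rw [← zpow_add]
      congr 1
      ring
    rw [h, Units.val_mul]
    ring
  commutes' a := by
    ext m
    change ((c ^ (-m) : Aˣ) : A) * (algebraMap A (LaurentSeries A) a).coeff m = _
    rw [coeff_algebraMap]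
    split_ifs with h
    · rw [h]
      simp
    · rw [mul_zero]

@[simp] theorem sc_coeff (c : Aˣ) (f : LaurentSeries A) (m : ℤ) :
    (sc c f).coeff m = ((c ^ (-m) : Aˣ) : A) * f.coeff m := rfl

theorem sc_sc (c c' : Aˣ) (f : LaurentSeries A) : sc c (sc c' f) = sc (c * c') f := by
  ext m
  rw [sc_coeff, sc_coeff, sc_coeff, mul_zpow, Units.val_mul, mul_assoc]

theorem sc_one (f : LaurentSeries A) : sc (1 : Aˣ) f = f := by
  ext m
  rw [sc_coeff, one_zpow, Units.val_one, one_mul]

theorem sc_mem_Po (c : Aˣ) {n : ℤ} {f : LaurentSeries A} (hf : f ∈ Po A n) : sc c f ∈ Po A n :=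
  fun m hm => by rw [sc_coeff, hf m hm, mul_zero]

/-- Scaling as an automorphism. -/
noncomputable def scE (c : Aˣ) : LaurentSeries A ≃ₐ[A] LaurentSeries A :=
  AlgEquiv.ofAlgHom (sc c) (sc c⁻¹)
    (AlgHom.ext fun f => by rw [AlgHom.comp_apply, sc_sc, mul_inv_cancel, sc_one]; rfl)
    (AlgHom.ext fun f => by rw [AlgHom.comp_apply, sc_sc, inv_mul_cancel, sc_one]; rfl)

@[simp] theorem scE_apply (c : Aˣ) (f : LaurentSeries A) : scE c f = sc c f := rfl

theorem lmap_sc (φ : A →+* B) (c : Aˣ) (f : LaurentSeries A) :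
    lmap φ (sc c f) = sc (Units.map (φ : A →* B) c) (lmap φ f) := by
  ext m
  rw [lmap_coeff, sc_coeff, map_mul, sc_coeff, lmap_coeff, ← map_zpow, Units.coe_map]
  rfl

theorem sc_zz (c : Aˣ) (d : ℕ) : sc c (zz A d) = ((c ^ (d : ℤ) : Aˣ) : A) • zz A d := by
  ext m
  rw [sc_coeff, HahnSeries.coeff_smul, zz, HahnSeries.coeff_single, smul_eq_mul]
  split_ifs with h
  · rw [h, neg_neg]
  · rw [mul_zero, mul_zero]

/-- `dτ = c⁻¹ d(cτ)`. -/
theorem sc_ld (c : Aˣ) (f : LaurentSeries A) : ld (sc c f) = ((c⁻¹ : Aˣ) : A) • sc c (ld f) := by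
  ext m
  rw [ld_coeff, sc_coeff, HahnSeries.coeff_smul, sc_coeff, ld_coeff, smul_eq_mul]
  have h : c ^ (-(m + 1)) = c⁻¹ * c ^ (-m) := by
    rw [neg_add, zpow_add, zpow_neg_one, mul_comm]
  rw [h, Units.val_mul]
  ring

/-- The series over `A` whose images over `B` belong to `R`. -/
noncomputable def cut (φ : A →+* B) (R : Subalgebra B (LaurentSeries B)) :
    Subalgebra A (LaurentSeries A) where
  carrier := {f | lmap φ f ∈ R}
  mul_mem' {a b} ha hb := by
    change lmap φ (a * b) ∈ R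
    rw [map_mul]
    exact mul_mem ha hb
  add_mem' {a b} ha hb := by
    change lmap φ (a + b) ∈ R
    rw [map_add]
    exact add_mem ha hb
  algebraMap_mem' a := by
    change lmap φ (algebraMap A (LaurentSeries A) a) ∈ R
    rw [lmap_algebraMap]
    exact R.algebraMap_mem _

@[simp] theorem mem_cut {φ : A →+* B} {R : Subalgebra B (LaurentSeries B)}
    {f : LaurentSeries A} : f ∈ cut φ R ↔ lmap φ f ∈ R := Iff.rfl

end

end Pool.Agent.MG.G0
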