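import Pool.Agent.MG.G0.Low

/-!
# Krichever rings: definitions
-/

namespace Pool.Agent.MG.G0

section

variable {I : Type} {A B : Type} [CommRing A] [CommRing B]

/-- `P` is a Krichever ring of genus `g`: the only elements without poles are the constants, and
`KK/(P + Pol 0)` is free of rank `g`. -/
structure IsKr (g : ℕ) (P : Subalgebra A (KK I A)) : Prop where
  k1 : ∀ f ∈ P, f ∈ Pol I A 0 → ∃ a : A, f = algebraMap A (KK I A) a
  k2 : ∃ L : KK I A →ₗ[A] (Fin g → A), Function.Surjective L ∧
    ∀ f, L f = 0 ↔ ∃ p ∈ P, f - p ∈ Pol I A 0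

/-- The base change of a Krichever ring. -/
noncomputable def bc (φ : A →+* B) (P : Subalgebra A (KK I A)) : Subalgebra B (KK I B) :=
  Algebra.adjoin B (kmap φ '' (P : Set (KK I A)))

theorem kmap_mem_bc (φ : A →+* B) {P : Subalgebra A (KK I A)} {f : KK I A} (hf : f ∈ P) :
    kmap φ f ∈ bc φ P := Algebra.subset_adjoin ⟨f, hf, rfl⟩

/-- The homomorphism `P → P_B`. -/
noncomputable def bcMap (φ : A →+* B) (P : Subalgebra A (KK I A)) : P →+* bc φ P where
  toFun f := ⟨kmap φ f, kmap_mem_bc φ f.2⟩
  map_one' := Subtype.ext (map_one (kmap φ))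
  map_zero' := Subtype.ext (map_zero (kmap φ))
  map_add' f g := Subtype.ext (map_add (kmap φ) (f : KK I A) g)
  map_mul' f g := Subtype.ext (map_mul (kmap φ) (f : KK I A) g)

@[simp] theorem bcMap_val (φ : A →+* B) (P : Subalgebra A (KK I A)) (f : P) :
    (bcMap φ P f : KK I B) = kmap φ f := rfl

/-- Every series is congruent to an element of `P` modulo series with poles of order at most
`N`. -/
def Dense (P : Subalgebra A (KK I A)) (N : ℤ) : Prop := ∀ f : KK I A, ∃ p ∈ P, f - p ∈ Pol I A N

/-- The elements of `P` with poles of order at most `n`. -/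
noncomputable def PP (P : Subalgebra A (KK I A)) (n : ℤ) : Submodule A (KK I A) :=
  Subalgebra.toSubmodule P ⊓ Pol I A n

theorem mem_PP {P : Subalgebra A (KK I A)} {n : ℤ} {f : KK I A} :
    f ∈ PP P n ↔ f ∈ P ∧ f ∈ Pol I A n := Iff.rfl

/-- `z = τ^(-d) + ...` at all punctures. -/
def Mon (d : ℤ) (z : KK I A) : Prop := z ∈ Pol I A d ∧ ∀ i, (z i).coeff (-d) = 1

/-- The constant term and the polar part are controlled by `s`: a section of the polar part on
`P`. -/
structure IsSec (P : Subalgebra A (KK I A)) (s : KK I A →ₗ[A] KK I A) : Prop where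
  mem : ∀ f, s f ∈ P
  zero : ∀ f ∈ Pol I A 0, s f = 0
  eq : ∀ p ∈ P, ∃ a : A, s p = p + algebraMap A (KK I A) a

/-! ## Differentials and vector fields -/

/-- The series `η` with `res (η p) = 0` for all `p` in `P`. -/
noncomputable def Perp [Fintype I] (P : Subalgebra A (KK I A)) : Submodule A (KK I A) where
  carrier := {η | ∀ p ∈ P, res (η * p) = 0}
  add_mem' {x y} hx hy p hp := by rw [add_mul, map_add, hx p hp, hy p hp, add_zero]
  zero_mem' p _ := by rw [zero_mul, map_zero]
  smul_mem' a x hx p hp := by rw [smul_mul_assoc, map_smul, hx p hp, smul_zero]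

theorem mem_Perp [Fintype I] {P : Subalgebra A (KK I A)} {η : KK I A} :
    η ∈ Perp P ↔ ∀ p ∈ P, res (η * p) = 0 := Iff.rfl

theorem mul_mem_Perp [Fintype I] {P : Subalgebra A (KK I A)} {η p : KK I A} (hp : p ∈ P)
    (h : η ∈ Perp P) : p * η ∈ Perp P := fun q hq => by
  rw [mul_comm p η, mul_assoc]
  exact h _ (mul_mem hp hq)

/-- The regular differentials: `res (η P) = 0` and no poles. -/
noncomputable def EE [Fintype I] (P : Subalgebra A (KK I A)) : Submodule A (KK I A) := Perp P ⊓ Pol I A 0

/-- `ω` is a basis of the regular differentials, dual to a basis of `KK/(P + Pol 0)`. -/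
structure IsForms [Fintype I] {g : ℕ} (P : Subalgebra A (KK I A)) (ω : Fin g → KK I A) : Prop where
  reg : ∀ j, ω j ∈ Pol I A 0
  surj : ∀ c : Fin g → A, ∃ f : KK I A, ∀ j, res (ω j * f) = c j
  ker : ∀ f : KK I A, (∀ j, res (ω j * f) = 0) ↔ ∃ p ∈ P, f - p ∈ Pol I A 0

/-- The vector fields on the affine curve, `D = θ d/dτ`. -/
noncomputable def TT (P : Subalgebra A (KK I A)) : Submodule A (KK I A) where
  carrier := {θ | ∀ f ∈ P, θ * dd f ∈ P}
  add_mem' {x y} hx hy f hf := by
    rw [add_mul]
    exact add_mem (hx f hf) (hy f hf)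
  zero_mem' f _ := by
    rw [zero_mul]
    exact zero_mem P
  smul_mem' a x hx f hf := by
    rw [smul_mul_assoc]
    exact P.smul_mem (hx f hf) a

theorem mem_TT {P : Subalgebra A (KK I A)} {θ : KK I A} :
    θ ∈ TT P ↔ ∀ f ∈ P, θ * dd f ∈ P := Iff.rfl

/-- The differentials `∑ p df`, `p, f ∈ P`. -/
noncomputable def Om (P : Subalgebra A (KK I A)) : Submodule A (KK I A) :=
  Submodule.span A {η | ∃ p ∈ P, ∃ f ∈ P, η = p * dd f}

/-- Duality. -/
def Dual [Fintype I] (P : Subalgebra A (KK I A)) : Prop :=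
  ∀ θ ∈ TT P, ∀ η ∈ Perp P, θ * η ∈ P

end

/-- A smoothness certificate for the algebra `R` of relative dimension one over `A`. -/
def SmC (A R : Type) [CommRing A] [CommRing R] [Algebra A R] : Prop :=
  ∃ (n : ℕ) (D : Fin n → Derivation A R R) (g : Fin n → R), ∑ i, D i (g i) = 1 ∧
    ∀ (E : Derivation A R R) (f h : R),
      E f • KaehlerDifferential.D A R h = E h • KaehlerDifferential.D A R f

/-! ## Formal points -/

section

variable {I : Type} {A B : Type} [CommRing A] [CommRing B]

/-- A power series as a Laurent series. -/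
noncomputable def psl (A : Type) [CommRing A] : PowerSeries A →+* LaurentSeries A :=
  HahnSeries.ofPowerSeries ℤ A

/-- A formal point of `P`: a homomorphism to `A[[u]]`, and an element `x` for which the coefficient
of `u` is a unit. -/
structure FPt (P : Subalgebra A (KK I A)) where
  /-- the expansion at the point -/
  h : P →ₐ[A] PowerSeries A
  /-- a parameter -/
  x : P
  par : IsUnit (PowerSeries.coeff 1 (h x))

/-- The value at a formal point. -/
noncomputable def FPt.ev {P : Subalgebra A (KK I A)} (p : FPt P) (f : P) : A :=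
  PowerSeries.constantCoeff (p.h f)

/-- The ideal of a formal point. -/
noncomputable def FPt.id {P : Subalgebra A (KK I A)} (p : FPt P) : Ideal P :=
  RingHom.ker ((PowerSeries.constantCoeff (R := A)).comp (p.h : P →+* PowerSeries A))

theorem FPt.mem_id {P : Subalgebra A (KK I A)} (p : FPt P) {f : P} : f ∈ p.id ↔ p.ev f = 0 :=
  Iff.rfl

/-- The ideal of a family of formal points. -/
noncomputable def Ipt {J : Type} {P : Subalgebra A (KK I A)} (pt : J → FPt P) : Ideal P :=
  ⨅ j, (pt j).id

/-- The points are disjoint. -/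
def Disj {J : Type} {P : Subalgebra A (KK I A)} (pt : J → FPt P) : Prop :=
  ∀ j k, j ≠ k → (pt j).id ⊔ (pt k).id = ⊤

/-- The expansions of an element of `P` at the punctures and at the formal points. -/
noncomputable def hat {J : Type} {P : Subalgebra A (KK I A)} (pt : J → FPt P) :
    P →ₐ[A] KK (I ⊕ J) A where
  toFun r := Sum.elim (r : KK I A) fun j => psl A ((pt j).h r)
  map_one' := by
    funext k
    rcases k with i | j
    · rfl
    · exact (congrArg (psl A) (map_one (pt j).h)).trans (map_one (psl A))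
  map_zero' := by
    funext k
    rcases k with i | j
    · rfl
    · exact (congrArg (psl A) (map_zero (pt j).h)).trans (map_zero (psl A))
  map_add' f g := by
    funext k
    rcases k with i | j
    · rfl
    · exact (congrArg (psl A) (map_add (pt j).h f g)).trans (map_add (psl A) _ _)
  map_mul' f g := by
    funext k
    rcases k with i | j
    · rfl
    · exact (congrArg (psl A) (map_mul (pt j).h f g)).trans (map_mul (psl A) _ _)
  commutes' a := by
    funext k
    rcases k with i | j
    · rfl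
    · change psl A ((pt j).h (algebraMap A P a)) = algebraMap A (LaurentSeries A) a
      rw [AlgHom.commutes]
      exact HahnSeries.ofPowerSeries_C a

@[simp] theorem hat_inl {J : Type} {P : Subalgebra A (KK I A)} (pt : J → FPt P) (r : P) (i : I) :
    hat pt r (Sum.inl i) = (r : KK I A) i := rfl

@[simp] theorem hat_inr {J : Type} {P : Subalgebra A (KK I A)} (pt : J → FPt P) (r : P) (j : J) :
    hat pt r (Sum.inr j) = psl A ((pt j).h r) := rfl

/-- Functions with poles at the punctures and at additional formal points. -/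
noncomputable def WJ {J : Type} {P : Subalgebra A (KK I A)} (pt : J → FPt P) :
    Subalgebra A (KK (I ⊕ J) A) where
  carrier := {w | ∃ n : ℕ, ∀ s ∈ Ipt pt ^ n, ∃ r : P, hat pt s * w = hat pt r}
  mul_mem' {w w'} hw hw' := by
    obtain ⟨n, hn⟩ := hw
    obtain ⟨m, hm⟩ := hw'
    refine ⟨n + m, fun s hs => ?_⟩
    rw [pow_add] at hs
    refine Submodule.mul_induction_on hs ?_ ?_
    · intro a ha b hb
      obtain ⟨r, hr⟩ := hn a ha
      obtain ⟨t, ht⟩ := hm b hb
      refine ⟨r * t, ?_⟩
      rw [map_mul, map_mul, ← hr, ← ht]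
      ring
    · rintro a b ⟨r, hr⟩ ⟨t, ht⟩
      exact ⟨r + t, by rw [map_add, map_add, ← hr, ← ht, add_mul]⟩
  add_mem' {w w'} hw hw' := by
    obtain ⟨n, hn⟩ := hw
    obtain ⟨m, hm⟩ := hw'
    refine ⟨n + m, fun s hs => ?_⟩
    obtain ⟨r, hr⟩ := hn s (Ideal.pow_le_pow_right (Nat.le_add_right n m) hs)
    obtain ⟨t, ht⟩ := hm s (Ideal.pow_le_pow_right (Nat.le_add_left m n) hs)
    exact ⟨r + t, by rw [map_add, ← hr, ← ht, mul_add]⟩
  algebraMap_mem' a := ⟨0, fun s _ => ⟨a • s, by
    rw [map_smul, Algebra.smul_def, mul_comm]⟩⟩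

theorem mem_WJ {J : Type} {P : Subalgebra A (KK I A)} (pt : J → FPt P) {w : KK (I ⊕ J) A} :
    w ∈ WJ pt ↔ ∃ n : ℕ, ∀ s ∈ Ipt pt ^ n, ∃ r : P, hat pt s * w = hat pt r := Iff.rfl

theorem hat_mem {J : Type} {P : Subalgebra A (KK I A)} (pt : J → FPt P) (r : P) :
    hat pt r ∈ WJ pt := ⟨0, fun s _ => ⟨s * r, by rw [map_mul]⟩⟩

/-- Removing the punctures `J`: the functions without poles at `J`. -/
noncomputable def Rem {J : Type} (W : Subalgebra A (KK (I ⊕ J) A)) : Subalgebra A (KK I A) where
  carrier := {f | ∃ w ∈ W, (∀ j : J, ∀ m < 0, (w (Sum.inr j)).coeff m = 0) ∧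
    ∀ i, w (Sum.inl i) = f i}
  mul_mem' := by
    rintro f g ⟨w, hw, h1, h2⟩ ⟨v, hv, h3, h4⟩
    refine ⟨w * v, mul_mem hw hv, fun j m hm => ?_, fun i => by
      rw [Pi.mul_apply, h2, h4, Pi.mul_apply]⟩
    rw [Pi.mul_apply]
    exact mul_low (h1 j) (h3 j) m (by omega)
  add_mem' := by
    rintro f g ⟨w, hw, h1, h2⟩ ⟨v, hv, h3, h4⟩
    refine ⟨w + v, add_mem hw hv, fun j m hm => ?_, fun i => by
      rw [Pi.add_apply, h2, h4, Pi.add_apply]⟩
    rw [Pi.add_apply, HahnSeries.coeff_add, h1 j m hm, h3 j m hm, add_zero]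
  algebraMap_mem' a := ⟨algebraMap A _ a, W.algebraMap_mem a, fun j m hm => by
    rw [Pi.algebraMap_apply, coeff_algebraMap, if_neg (by omega)], fun i => rfl⟩

/-- Change of the index set of the punctures. -/
noncomputable def reix {I' : Type} (e : I' ≃ I) (P : Subalgebra A (KK I A)) : Subalgebra A (KK I' A) where
  carrier := {f | (fun i => f (e.symm i)) ∈ P}
  mul_mem' := fun ha hb => mul_mem (S := Subalgebra A (KK I A)) ha hb
  add_mem' := fun ha hb => add_mem (S := Subalgebra A (KK I A)) ha hb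
  algebraMap_mem' a := P.algebraMap_mem a

end

end Pool.Agent.MG.G0
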