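import Pool.Agent.MG.G0.One

/-!
# Gap sections, translations of `z`, cyclic duals
-/

open Polynomial

namespace Pool.Agent.MG.G0

section

variable {A B : Type} [CommRing A] [CommRing B]

/-- `Γ` is a set of gaps for `R`: for every series `f` there is exactly one element of `R` with the
same coefficients at `τ^(-n)`, `n ∉ Γ`. -/
def GS (Γ : Finset ℕ) (R : Subalgebra A (LaurentSeries A)) : Prop :=
  0 ∉ Γ ∧ ∀ f : LaurentSeries A, ∃! p : LaurentSeries A, p ∈ R ∧
    ∀ n : ℕ, n ∉ Γ → (f - p).coeff (-(n : ℤ)) = 0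

/-- The element of `R` with coefficients `δ` at the `τ^(-m)`, `m ∉ Γ`. -/
structure IsEch (Γ : Finset ℕ) (R : Subalgebra A (LaurentSeries A)) (n : ℕ)
    (h : LaurentSeries A) : Prop where
  mem : h ∈ R
  co : ∀ m : ℕ, m ∉ Γ → h.coeff (-(m : ℤ)) = if m = n then 1 else 0

theorem GS.ech {Γ : Finset ℕ} {R : Subalgebra A (LaurentSeries A)} (h : GS Γ R) (n : ℕ) :
    ∃! x, IsEch Γ R n x := by
  obtain ⟨p, ⟨hp, hq⟩, hu⟩ := h.2 (HahnSeries.single (-(n : ℤ)) (1 : A))
  have key : ∀ m : ℕ, (HahnSeries.single (-(n : ℤ)) (1 : A) : LaurentSeries A).coeff (-(m : ℤ)) =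
      if m = n then 1 else 0 := by
    intro m
    rw [HahnSeries.coeff_single]
    have : (-(m : ℤ) = -(n : ℤ)) ↔ (m = n) := by omega
    simp only [this]
  refine ⟨p, ⟨hp, fun m hm => ?_⟩, fun y hy => hu y ⟨hy.mem, fun m hm => ?_⟩⟩
  · have := hq m hm
    rw [HahnSeries.coeff_sub, key, sub_eq_zero] at this
    exact this.symm
  · rw [HahnSeries.coeff_sub, key, hy.co m hm, sub_self]

/-! ## Translations of `z` -/

open Classical in
/-- The series `(1 + y)^(-1/d)`. -/
noncomputable def rt (A : Type) [CommRing A] (d : ℕ) : PowerSeries A :=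
  if h : ∃ r : PowerSeries A, PowerSeries.constantCoeff r = 1 ∧ r ^ d * (1 + PowerSeries.X) = 1 then
    h.choose else 1

open Classical in
/-- The coefficient of `yⁿ` in the power `(1 + y)^(-m/d)`. -/
noncomputable def rtc (A : Type) [CommRing A] (d : ℕ) (m : ℤ) (n : ℕ) : A :=
  if h : IsUnit (rt A d) then PowerSeries.coeff n ((h.unit ^ m : (PowerSeries A)ˣ) : PowerSeries A)
  else 0

/-- The divided power of order `n` of the derivation `d/dz`, `z = τ^(-d)`:
`τᵐ ↦ binom(-m/d, n) τ^(m + dn)`. -/
noncomputable def dz (A : Type) [CommRing A] (d n : ℕ) : LaurentSeries A →ₗ[A] LaurentSeries A where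
  toFun f :=
    { coeff := fun m => rtc A d (m - d * n) n * f.coeff (m - d * n)
      isPWO_support' := by
        have h : (f.support : Set ℤ).IsPWO := f.isPWO_support
        have h2 := h.image_of_monotone (f := fun m : ℤ => m + d * n)
          (fun a b hab => by simpa using hab)
        refine h2.mono fun m hm => ⟨m - d * n, ?_, by ring⟩
        intro h0
        apply hm
        change rtc A d (m - d * n) n * f.coeff (m - d * n) = 0
        rw [h0, mul_zero] }
  map_add' f g := by
    ext m
    simp only [HahnSeries.coeff_add, mul_add]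
  map_smul' a f := by
    ext m
    simp only [HahnSeries.coeff_smul, smul_eq_mul, RingHom.id_apply]
    ring

theorem dz_coeff (d n : ℕ) (f : LaurentSeries A) (m : ℤ) :
    (dz A d n f).coeff m = rtc A d (m - d * n) n * f.coeff (m - d * n) := rfl

/-- The translation `z ↦ z + a`, for `a` nilpotent. -/
noncomputable def psi (d : ℕ) (a : LaurentSeries A) : LaurentSeries A →ₗ[A] LaurentSeries A :=
  ∑ n ∈ Finset.range (nilpotencyClass a), (LinearMap.mulLeft A (a ^ n)) ∘ₗ dz A d n

theorem psi_apply (d : ℕ) (a f : LaurentSeries A) :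
    psi d a f = ∑ n ∈ Finset.range (nilpotencyClass a), a ^ n * dz A d n f := by
  simp [psi]

/-- The image of `R` under the translation. -/
noncomputable def psiR (d : ℕ) (a : LaurentSeries A) (R : Subalgebra A (LaurentSeries A)) :
    Subalgebra A (LaurentSeries A) :=
  Algebra.adjoin A (psi d a '' (R : Set (LaurentSeries A)))

/-! ## Duals -/

/-- `x` is in the dual of `R` for the form `pr₀(x y)`. -/
def IsDl (d : ℕ) (R : Subalgebra A (LaurentSeries A)) (x : LaurentSeries A) : Prop :=
  ∀ p ∈ R, ∃ a : A[X], pr0 A d (x * p) = zpol A d a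

/-- The dual of `R` is `R + A[z] w`. -/
def Cyc (d : ℕ) (R : Subalgebra A (LaurentSeries A)) : Prop :=
  ∃ w, IsDl d R w ∧ ∀ x, IsDl d R x → ∃ p ∈ R, ∃ a : A[X], x = p + zpol A d a * w

/-! ## Coefficientwise derivations -/

/-- A derivation applied to the coefficients. -/
noncomputable def cder (δ : Derivation ℤ A A) (f : LaurentSeries A) : LaurentSeries A where
  coeff m := δ (f.coeff m)
  isPWO_support' := f.isPWO_support.mono fun m hm h0 => hm (by
    change δ (f.coeff m) = 0
    rw [h0, map_zero])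

theorem cder_coeff (δ : Derivation ℤ A A) (f : LaurentSeries A) (m : ℤ) :
    (cder δ f).coeff m = δ (f.coeff m) := rfl

/-- A derivation applied to the coefficients of a polynomial. -/
noncomputable def pder (δ : Derivation ℤ A A) (p : A[X]) : A[X] :=
  ∑ n ∈ p.support, monomial n (δ (p.coeff n))

theorem pder_coeff (δ : Derivation ℤ A A) (p : A[X]) (n : ℕ) :
    (pder δ p).coeff n = δ (p.coeff n) := by
  rw [pder, finsetSum_coeff]
  simp only [coeff_monomial]
  rw [Finset.sum_ite_eq' p.support n fun n => δ (p.coeff n)]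
  split_ifs with h
  · rfl
  · rw [notMem_support_iff.1 h, map_zero]

end

/-- The branch points `βₗ + tᵈ αₗ`. -/
noncomputable def ft {k R : Type} [Field k] [CommRing R] [Algebra k R] {b : ℕ} (d : ℕ)
    (β α : Fin b → k) (t : R) : R[X] :=
  ∏ l, (X - C (algebraMap k R (β l) + t ^ d * algebraMap k R (α l)))

/-- The branch point `βₗ + tᵈ αₗ` over `k[[t]]`. -/
noncomputable def bpt {k : Type} [Field k] {b : ℕ} (d : ℕ) (β α : Fin b → k) (l : Fin b) :
    PowerSeries k :=
  PowerSeries.C (β l) + PowerSeries.X ^ d * PowerSeries.C (α l)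

/-- The ring `k[[t]]/tᵐ`. -/
abbrev Tr (k : Type) [Field k] (m : ℕ) : Type :=
  PowerSeries k ⧸ Ideal.span {(PowerSeries.X : PowerSeries k) ^ m}

/-- The class of a power series. -/
noncomputable abbrev tmk (k : Type) [Field k] (m : ℕ) : PowerSeries k →+* Tr k m :=
  Ideal.Quotient.mk _

end Pool.Agent.MG.G0
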