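import Pool.Agent.MG.G0.Hv

/-!
# Polarisation of the functions on the cotangent spaces: definitions (PAPER.md, COVQ, POL)
-/

open TensorProduct

namespace Pool.Agent.MG.G0

section

variable {I : Type} [Fintype I] {A B : Type} [CommRing A] [CommRing B]

/-- The base change of regular differentials. -/
noncomputable def bcE (φ : A →+* B) (P : Subalgebra A (KK I A)) : EE P →ₛₗ[φ] EE (bc φ P) where
  toFun ω := ⟨kmap φ ω, kmap_mem_Perp φ ω.2.1, kmap_mem_Pol φ ω.2.2⟩
  map_add' x y := Subtype.ext (map_add (kmap φ) (x : KK I A) y)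
  map_smul' a x := Subtype.ext (kmap_smul φ a (x : KK I A))

@[simp] theorem bcE_val (φ : A →+* B) (P : Subalgebra A (KK I A)) (ω : EE P) :
    (bcE φ P ω : KK I B) = kmap φ ω := rfl

omit [Fintype I] in
/-- The base change of `∑ p ⊗ g`. -/
noncomputable def bcT (φ : A →+* B) (P : Subalgebra A (KK I A)) :
    P ⊗[A] P →ₛₗ[φ] (bc φ P ⊗[B] bc φ P) :=
  TensorProduct.map
    { toFun := fun g => bcMap φ P g
      map_add' := fun x y => map_add _ x y
      map_smul' := fun a x => Subtype.ext (kmap_smul φ a (x : KK I A)) }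
    { toFun := fun g => bcMap φ P g
      map_add' := fun x y => map_add _ x y
      map_smul' := fun a x => Subtype.ext (kmap_smul φ a (x : KK I A)) }

omit [Fintype I] in
@[simp] theorem bcT_tmul (φ : A →+* B) (P : Subalgebra A (KK I A)) (p g : P) :
    bcT φ P (p ⊗ₜ g) = bcMap φ P p ⊗ₜ bcMap φ P g := rfl

omit [Fintype I] in
theorem dk_bcT (φ : A →+* B) (P : Subalgebra A (KK I A)) (η : P ⊗[A] P) :
    dk (bc φ P) (bcT φ P η) = kmap φ (dk P η) := by
  induction η using TensorProduct.induction_on with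
  | zero => rw [map_zero, map_zero, map_zero, map_zero]
  | tmul p g => rw [bcT_tmul, dk_tmul, dk_tmul, map_mul, kmap_dd, bcMap_val, bcMap_val]
  | add a b ha hb => rw [map_add, map_add, map_add, map_add, ha, hb]

omit [Fintype I] in
/-- The base change of the differentials `∑ p dg` without poles. -/
noncomputable def bcDR (φ : A →+* B) (P : Subalgebra A (KK I A)) : DR P →ₛₗ[φ] DR (bc φ P) where
  toFun η := ⟨bcT φ P η, by
    rw [DR, Submodule.mem_comap, dk_bcT]
    exact kmap_mem_Pol φ η.2⟩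
  map_add' x y := Subtype.ext (map_add (bcT φ P) (x : P ⊗[A] P) y)
  map_smul' a x := Subtype.ext (map_smulₛₗ (bcT φ P) a (x : P ⊗[A] P))

omit [Fintype I] in
@[simp] theorem bcDR_val (φ : A →+* B) (P : Subalgebra A (KK I A)) (η : DR P) :
    (bcDR φ P η : bc φ P ⊗[B] bc φ P) = bcT φ P η := rfl

end

/-- The value of `Φ` at the covector of `∑ yᵢ qᵢ`, a polynomial in the `yᵢ`. -/
noncomputable def Fx {g : ℕ} (E : Ev g) {I A : Type} [Fintype I] [CommRing A] [Algebra ℂ A]
    (P : Subalgebra A (KK I A)) {ι : Type} [Fintype ι] (q : ι → QR P) : MvPolynomial ι A :=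
  E.Φ (MvPolynomial ι A) I (bc (MvPolynomial.C (R := A) (σ := ι)) P)
    (cov (bc (MvPolynomial.C (R := A) (σ := ι)) P)
      (∑ i, (MvPolynomial.X i : MvPolynomial ι A) •
        bcR (MvPolynomial.C (R := A) (σ := ι)) P (q i)))

theorem Fk_eq {g : ℕ} (E : Ev g) {I A : Type} [Fintype I] [CommRing A] [Algebra ℂ A]
    (P : Subalgebra A (KK I A)) {k : ℕ} (q : Fin k → QR P) :
    Fk E P q = MvPolynomial.coeff (ones k) (Fx E P q) := rfl

/-- `t Fk` depends only on the quadratic differentials, not on their presentations. -/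
def Ivk {g : ℕ} (E : Ev g) {I A : Type} [Fintype I] [CommRing A] [Algebra ℂ A]
    (P : Subalgebra A (KK I A)) (t : A) (k : ℕ) : Prop :=
  ∀ q q' : Fin k → QR P, (∀ i, qk P (q i : QD P) = qk P (q' i : QD P)) →
    t * Fk E P q = t * Fk E P q'

section

variable {I I' J : Type} [Fintype I] [Fintype I'] [Fintype J] {A : Type} [CommRing A]

/-- The pairs `(q, q')` of quadratic differentials of `P` and `W` such that `q'` extends `q`, with
expressions which are regular at the punctures `J`. -/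
noncomputable def QF (P : Subalgebra A (KK I A)) (W : Subalgebra A (KK (I ⊕ J) A)) :
    Submodule A (QD P × QD W) :=
  Submodule.span A {z | ∃ (x : Perp P) (g : P) (x' : Perp W) (g' : W),
    atI (x' : KK (I ⊕ J) A) = x ∧ atJ (x' : KK (I ⊕ J) A) ∈ Pol J A 0 ∧
    atI (g' : KK (I ⊕ J) A) = g ∧ atJ (g' : KK (I ⊕ J) A) ∈ Pol J A 0 ∧
    z = (x ⊗ₜ[A] g, x' ⊗ₜ[A] g')}

omit [Fintype I] [Fintype J] in
/-- The pairs `(η, η')` of differentials of `P` and `W` such that `η'` extends `η`. -/
noncomputable def TF (P : Subalgebra A (KK I A)) (W : Subalgebra A (KK (I ⊕ J) A)) :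
    Submodule A ((P ⊗[A] P) × (W ⊗[A] W)) :=
  Submodule.span A {z | ∃ (p g : P) (p' g' : W),
    atI (p' : KK (I ⊕ J) A) = p ∧ atJ (p' : KK (I ⊕ J) A) ∈ Pol J A 0 ∧
    atI (g' : KK (I ⊕ J) A) = g ∧ atJ (g' : KK (I ⊕ J) A) ∈ Pol J A 0 ∧
    z = (p ⊗ₜ[A] g, p' ⊗ₜ[A] g')}

/-- The pairs `(q, q')` of quadratic differentials which correspond to each other under the change
of coordinates `α`. -/
noncomputable def QA (α : KK I A ≃ₐ[A] KK I A) (P P' : Subalgebra A (KK I A)) :
    Submodule A (QD P × QD P') :=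
  Submodule.span A {z | ∃ (x : Perp P) (g : P) (x' : Perp P') (g' : P'),
    (∀ h : KK I A, res ((x' : KK I A) * α h) = res ((x : KK I A) * h)) ∧
    (g' : KK I A) = α g ∧ z = (x ⊗ₜ[A] g, x' ⊗ₜ[A] g')}

/-- The pairs `(q, q')` of quadratic differentials which correspond to each other under the change
`e` of the index set. -/
noncomputable def QI (e : I' ≃ I) (P : Subalgebra A (KK I A)) (P' : Subalgebra A (KK I' A)) :
    Submodule A (QD P × QD P') :=
  Submodule.span A {z | ∃ (x : Perp P) (g : P) (x' : Perp P') (g' : P'),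
    (∀ i, (x' : KK I' A) i = (x : KK I A) (e i)) ∧ (∀ i, (g' : KK I' A) i = (g : KK I A) (e i)) ∧
    z = (x ⊗ₜ[A] g, x' ⊗ₜ[A] g')}

end

end Pool.Agent.MG.G0
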