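import Pool.Agent.MG.G0.FinB
import Pool.Agent.MG.G0.NPB
import Pool.Agent.MG.G0.NEL
import Pool.Agent.MG.G0.NDB
import Pool.Agent.MG.G0.NLI
import Pool.Agent.MG.G0.NSG
import Pool.Agent.MG.G0.NQY
import Pool.Agent.MG.G0.NKE
import Pool.Agent.MG.G0.NNK
import Pool.Agent.MG.G0.NCO
import Pool.Agent.MG.G0.SCO
import Pool.Agent.MG.G0.SBC
import Pool.Agent.MG.G0.LOC
import Pool.Agent.MG.G0.KFG
import Pool.Agent.MG.G0.KFL
import Pool.Agent.MG.G0.AID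
import Pool.Agent.MG.G0.AYE
import Pool.Agent.MG.G0.AWK
import Pool.Agent.MG.G0.AWB
import Pool.Agent.MG.G0.PL1
import Pool.Agent.MG.G0.PL2

/-!
# NPB without hypotheses
-/

namespace Pool.Agent.MG.G0.FinB

theorem kFL : Stmt_KFL := t_KFL kSP

theorem kFG : Stmt_KFG := t_KFG t_KNZ kSP

theorem aID : Stmt_AID := t_AID t_SCO kFG

theorem aYE : Stmt_AYE := t_AYE t_KNZ aID

theorem sBC : Stmt_SBC := t_SBC t_SCO t_LOC

theorem aWK : Stmt_AWK := t_AWK t_KNZ sBC aYE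

theorem aWB : Stmt_AWB := t_AWB kBC kBT t_KEQ aWK

theorem pL1 : Stmt_PL1 := t_PL1 kFO kBC kFL aYE aWK aWB

theorem pL2 : Stmt_PL2 := t_PL2 kBC t_KEQ aYE aWK aWB pL1

theorem nLI : Stmt_NLI := t_NLI t_NEL t_NDB

theorem nSG : Stmt_NSG := t_NSG t_PSI

theorem nQY : Stmt_NQY := t_NQY aYE

theorem nKE : Stmt_NKE := t_NKE kBC kBT

theorem nPB : Stmt_NPB := t_NPB pL2 nLI t_NDB nSG nQY nKE t_NNK t_NCO

end Pool.Agent.MG.G0.FinB
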