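import Pool.Agent.MG.G0.StmtsK

/-!
# PBC: base change of `Perp`
-/

namespace Pool.Agent.MG.G0

namespace PBCx

variable {I A B : Type} [Fintype I] [CommRing A] [CommRing B]

/-- The easy inclusion. -/
theorem ge (hKBC : Stmt_KBC) {P : Subalgebra A (KK I A)} (φ : A →+* B) :
    Submodule.span B (kmap φ '' (Perp P : Set (KK I A))) ≤ Perp (bc φ P) := by
  rw [Submodule.span_le]
  rintro _ ⟨η, hη, rfl⟩
  rw [SetLike.mem_coe, mem_Perp]
  intro p hp
  have hp' : p ∈ Submodule.span B (kmap φ '' (P : Set (KK I A))) := by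
    rw [← hKBC.1 φ P]
    exact hp
  refine Submodule.span_induction ?_ ?_ ?_ ?_ hp'
  · rintro _ ⟨r, hr, rfl⟩
    rw [← map_mul, res_kmap, mem_Perp.1 hη r hr, map_zero]
  · rw [mul_zero, map_zero]
  · intro x y _ _ hx hy
    rw [mul_add, map_add, hx, hy, add_zero]
  · intro a x _ hx
    rw [mul_smul_comm, map_smul, hx, smul_zero]

theorem mon_eq (φ : A →+* B) (i : I) (m : ℤ) (b : B) :
    mon i m b = b • kmap φ (mon i m (1 : A)) := by
  rw [kmap_mon, smul_mon, map_one, mul_one]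

theorem mon_res (φ : A →+* B) (i : I) (m : ℤ) (a : A) :
    kmap φ (mon i m a) = φ a • mon i m (1 : B) := by
  rw [kmap_mon, smul_mon, mul_one]

end PBCx

open PBCx in
/-- PBC -/
theorem t_PBC (hKFO : Stmt_KFO) (hKBC : Stmt_KBC) (hPPR : Stmt_PPR) : Stmt_PBC := by
  intro I A B _ _ _ _ g P hP φ
  obtain ⟨i₀⟩ := (inferInstance : Nonempty I)
  refine le_antisymm ?_ (ge hKBC φ)
  intro x hx
  obtain ⟨q, hq1, -, hq3, -⟩ := hPPR hP i₀
  obtain ⟨hPB, hfB, -⟩ := hKBC.2.2.2 hP φ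
  obtain ⟨⟨ω, hω⟩, hfo⟩ := hKFO hP
  obtain ⟨-, hfoB⟩ := hKFO hPB
  obtain ⟨n, hn⟩ := exists_Pol x
  -- the polar part of `x`
  have hc := sub_mon_mem_Pol hn 0
  rw [neg_zero] at hc
  set S : Finset ℤ := Finset.Ico (-(n : ℤ)) 0 with hS
  have hres : res x = 0 := by
    have h := mem_Perp.1 hx 1 (one_mem _)
    rwa [mul_one] at h
  have hsum : ∑ i, ∑ m ∈ S, (x i).coeff m * φ (res (mon i m (1 : A))) = 0 := by
    have h0 := res_Pol0 hc
    rw [map_sub, hres, zero_sub, neg_eq_zero, map_sum] at h0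
    rw [← h0]
    refine Finset.sum_congr rfl fun i _ => ?_
    rw [map_sum]
    refine Finset.sum_congr rfl fun m _ => ?_
    rw [mon_eq φ, map_smul, res_kmap, smul_eq_mul]
  set y : KK I B := ∑ i, ∑ m ∈ S, (x i).coeff m • kmap φ (q (mon i m (1 : A))) with hy
  have hyspan : y ∈ Submodule.span B (kmap φ '' (Perp P : Set (KK I A))) := by
    refine Submodule.sum_mem _ fun i _ => Submodule.sum_mem _ fun m _ => ?_
    exact Submodule.smul_mem _ _ (Submodule.subset_span ⟨_, hq1 _, rfl⟩)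
  have hcy : (∑ i, ∑ m ∈ S, mon i m ((x i).coeff m)) - y ∈ Pol I B 0 := by
    have h1 : (∑ i, ∑ m ∈ S, mon i m ((x i).coeff m)) - y =
        ∑ i, ∑ m ∈ S, (x i).coeff m •
          kmap φ (mon i m (1 : A) - q (mon i m (1 : A)) - mon i₀ (-1) (res (mon i m (1 : A)))) := by
      have h2 : ∑ i, ∑ m ∈ S, (x i).coeff m •
          kmap φ (mon i₀ (-1) (res (mon i m (1 : A)))) = 0 := by
        have h3 : ∀ i m, (x i).coeff m • kmap φ (mon i₀ (-1) (res (mon i m (1 : A)))) =
            ((x i).coeff m * φ (res (mon i m (1 : A)))) • mon i₀ (-1) (1 : B) := fun i m => by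
          rw [mon_res, smul_smul]
        simp only [h3, ← Finset.sum_smul]
        rw [hsum, zero_smul]
      simp only [map_sub, smul_sub, Finset.sum_sub_distrib]
      rw [h2, sub_zero, hy]
      congr 1
      refine Finset.sum_congr rfl fun i _ => Finset.sum_congr rfl fun m _ => ?_
      exact mon_eq φ i m _
    rw [h1]
    refine Submodule.sum_mem _ fun i _ => Submodule.sum_mem _ fun m _ => ?_
    exact Submodule.smul_mem _ _ (kmap_mem_Pol φ (hq3 _))
  have hxy0 : x - y ∈ Pol I B 0 := by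
    have := add_mem hc hcy
    rwa [sub_add_sub_cancel] at this
  have hxyE : x - y ∈ EE (bc φ P) := ⟨sub_mem hx (ge hKBC φ hyspan), hxy0⟩
  obtain ⟨c, hc', -⟩ := (hfoB (fun j => kmap φ (ω j)) (hfB ω hω)).2 (x - y) hxyE
  have hfin : x - y ∈ Submodule.span B (kmap φ '' (Perp P : Set (KK I A))) := by
    rw [hc']
    refine Submodule.sum_mem _ fun j _ => Submodule.smul_mem _ _ (Submodule.subset_span ?_)
    exact ⟨ω j, ((hfo ω hω).1 j).1, rfl⟩
  have := add_mem hfin hyspan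
  rwa [sub_add_cancel] at this

end Pool.Agent.MG.G0
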