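import Pool.Agent.MG.G0.StmtsZH

/-!
# Integral closure of `k[s]` in a finite separable extension of `k(s)`
-/

open Polynomial

namespace Pool.Agent.MG.G0

namespace ZIC

theorem fractionRing {k F : Type} [Field k] [Field F] [Algebra k F] [Algebra k[X] F]
    [IsScalarTower k k[X] F] (s : F) (hs : algebraMap k[X] F X = s) (hk : Transcendental k s)
    (htop : IntermediateField.adjoin k {s} = ⊤) : IsFractionRing k[X] F := by
  have h1 : ∀ p : k[X], algebraMap k[X] F p = aeval s p := by
    intro p
    have h2 : (IsScalarTower.toAlgHom k k[X] F) = aeval s := by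
      apply Polynomial.algHom_ext
      rw [aeval_X]
      exact hs
    exact DFunLike.congr_fun h2 p
  have hinj : Function.Injective (algebraMap k[X] F) := by
    intro p q hpq
    rw [h1, h1] at hpq
    exact (transcendental_iff_injective.mp hk) hpq
  have : FaithfulSMul k[X] F := (faithfulSMul_iff_algebraMap_injective _ _).mpr hinj
  refine IsFractionRing.of_field k[X] F fun z => ?_
  have hz : z ∈ IntermediateField.adjoin k {s} := by
    rw [htop]
    exact IntermediateField.mem_top
  obtain ⟨p, q, h⟩ := IntermediateField.mem_adjoin_simple_iff k z |>.mp hz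
  exact ⟨p, q, by rw [h1, h1]; exact h⟩

/-- the intersection of the discrete valuation rings -/
theorem inter {k F L : Type} [Field k] [Field F] [Field L] [Algebra k F] [Algebra F L]
    [Algebra k L] [IsScalarTower k F L] [Algebra k[X] F] [Algebra k[X] L]
    [IsScalarTower k[X] F L] [IsScalarTower k k[X] L] [IsFractionRing k[X] F]
    [FiniteDimensional F L] [Algebra.IsSeparable F L] (y : L)
    (hy : ∀ (O : Type) [CommRing O] [IsDomain O] [IsDiscreteValuationRing O] [Algebra k O]
      [Algebra O L] [IsScalarTower k O L] [IsFractionRing O L],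
        (∃ x : O, algebraMap O L x = algebraMap k[X] L X) → ∃ x : O, algebraMap O L x = y) :
    IsIntegral k[X] y := by
  have : IsDedekindDomain (integralClosure k[X] L) := integralClosure.isDedekindDomain k[X] F L
  have : IsFractionRing (integralClosure k[X] L) L :=
    integralClosure.isFractionRing_of_finite_extension F L
  let I : Ideal (integralClosure k[X] L) :=
    { carrier := {b | IsIntegral k[X] ((b : L) * y)}
      add_mem' := by
        intro a b ha hb
        show IsIntegral k[X] (((a + b : integralClosure k[X] L) : L) * y)
        rw [Subalgebra.coe_add, add_mul]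
        exact IsIntegral.add ha hb
      zero_mem' := by
        show IsIntegral k[X] (((0 : integralClosure k[X] L) : L) * y)
        rw [Subalgebra.coe_zero, zero_mul]
        exact isIntegral_zero
      smul_mem' := by
        intro c b hb
        show IsIntegral k[X] (((c • b : integralClosure k[X] L) : L) * y)
        rw [smul_eq_mul, Subalgebra.coe_mul, mul_assoc]
        exact IsIntegral.mul c.2 hb }
  have hI : I = ⊤ := by
    by_contra hne
    obtain ⟨M, hM, hIM⟩ := Ideal.exists_le_maximal I hne
    have := hM.isPrime
    have hM0 : M ≠ ⊥ := by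
      rintro rfl
      obtain ⟨a, d, hd, h⟩ := IsFractionRing.div_surjective (A := integralClosure k[X] L) y
      have hd0 : d ≠ 0 := nonZeroDivisors.ne_zero hd
      have hdI : d ∈ I := by
        show IsIntegral k[X] ((d : L) * y)
        have h3 : (d : L) * y = a := by
          rw [← h]
          have h4 : algebraMap (integralClosure k[X] L) L d ≠ 0 := by
            intro h5
            exact hd0 ((IsFractionRing.injective (integralClosure k[X] L) L)
              (h5.trans (map_zero _).symm))
          show algebraMap (integralClosure k[X] L) L d * _ = algebraMap _ L a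
          field_simp
        rw [h3]
        exact a.2
      exact hd0 (by simpa using hIM hdI)
    have hle : M.primeCompl ≤ nonZeroDivisors (integralClosure k[X] L) :=
      M.primeCompl_le_nonZeroDivisors
    let O := Localization.subalgebra.ofField L M.primeCompl hle
    have : IsDiscreteValuationRing O :=
      IsLocalization.AtPrime.isDiscreteValuationRing_of_dedekind_domain
        (integralClosure k[X] L) hM0 O
    obtain ⟨x, hx⟩ := hy O ⟨algebraMap (integralClosure k[X] L) O
      (algebraMap k[X] (integralClosure k[X] L) X), by
        rw [← IsScalarTower.algebraMap_apply, ← IsScalarTower.algebraMap_apply]⟩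
    obtain ⟨a, d, hd, h⟩ := x.2
    have h6 : y = (a : L) * ((d : L))⁻¹ := by
      rw [← hx]
      exact h
    have hd0 : (d : L) ≠ 0 := by
      intro h7
      have h8 : d = 0 := Subtype.ext h7
      exact hd (by rw [h8]; exact M.zero_mem)
    apply hd
    apply hIM
    show IsIntegral k[X] ((d : L) * y)
    rw [h6]
    have h9 : (d : L) * ((a : L) * (d : L)⁻¹) = a := by
      field_simp
    rw [h9]
    exact a.2
  have h10 : (1 : integralClosure k[X] L) ∈ I := by
    rw [hI]
    exact Submodule.mem_top
  have h11 : IsIntegral k[X] (((1 : integralClosure k[X] L) : L) * y) := h10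
  rwa [Subalgebra.coe_one, one_mul] at h11

end ZIC

theorem t_ZIC : Stmt_ZIC := by
  intro k F L _ _ _ _ _ _ _ s hs htop hfin hsep
  letI a1 : Algebra k[X] F := ((aeval (R := k) s).toRingHom).toAlgebra
  letI a2 : Algebra k[X] L := ((algebraMap F L).comp (aeval (R := k) s).toRingHom).toAlgebra
  have : IsScalarTower k[X] F L := IsScalarTower.of_algebraMap_eq fun _ => rfl
  have : IsScalarTower k k[X] F := IsScalarTower.of_algebraMap_eq fun c => by
    show algebraMap k F c = aeval s (C c)
    rw [aeval_C]
  have : IsScalarTower k k[X] L := IsScalarTower.of_algebraMap_eq fun c => by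
    show algebraMap k L c = algebraMap F L (aeval s (C c))
    rw [aeval_C, ← IsScalarTower.algebraMap_apply]
  have : IsFractionRing k[X] F := ZIC.fractionRing s (by
    show aeval s X = s
    rw [aeval_X]) hs htop
  have := hfin
  have := hsep
  refine ⟨fun y hy => ?_, fun y hy => ?_, fun c => ?_⟩
  · refine ZIC.inter (k := k) (F := F) y ?_
    intro O _ _ _ _ _ _ _ hx
    refine hy O ?_
    obtain ⟨x, hx⟩ := hx
    refine ⟨x, hx.trans ?_⟩
    show algebraMap F L (aeval s X) = algebraMap F L s
    rw [aeval_X]
  · have h1 : IsIntegral k[X] y := hy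
    have h2 : IsIntegral k[X] (Algebra.trace F L y) := Algebra.isIntegral_trace h1
    obtain ⟨q, hq⟩ := IsIntegrallyClosed.isIntegral_iff.mp h2
    exact ⟨q, hq.symm⟩
  · have : Algebra.IsAlgebraic F L := Algebra.IsAlgebraic.of_finite F L
    have h1 : IsAlgebraic k[X] c :=
      (IsFractionRing.isAlgebraic_iff k[X] F L).mpr (Algebra.IsAlgebraic.isAlgebraic c)
    obtain ⟨h, hh, hint⟩ := h1.exists_integral_multiple
    refine ⟨h, hh, ?_⟩
    have h3 : h • c = algebraMap F L (aeval s h) * c := Algebra.smul_def h c
    rw [← h3]
    exact hint

end Pool.Agent.MG.G0
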