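import Pool.Agent.MG.G0.StmtsZH
import Pool.Agent.MG.G0.KRK

/-!
# ZRF: the coefficient of `z⁻¹` in `N/f`
-/

open Polynomial

namespace Pool.Agent.MG.G0

namespace ZRFaux

variable {K : Type} [Field K] {d : ℕ}

theorem zpol_coeff_pos (q : K[X]) (m : ℤ) (hm : 0 < m) : (zpol K d q).coeff m = 0 := by
  rw [zpol, aeval_eq_sum_range, HahnSeries.coeff_sum]
  refine Finset.sum_eq_zero fun i _ => ?_
  rw [zz, HahnSeries.single_pow, one_pow, HahnSeries.coeff_smul, HahnSeries.coeff_single_of_ne,
    smul_zero]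
  have : i • (-(d : ℤ)) ≤ 0 := by
    rw [nsmul_eq_mul]
    nlinarith [Int.natCast_nonneg i, Int.natCast_nonneg d]
  omega

theorem inv_low (c : K) (hd : 0 < d) (y : LaurentSeries K) (hy : zpol K d (X - C c) * y = 1) :
    y.coeff d = 1 := by
  have h1 : zz K d * y = 1 + c • y := by
    have e : zpol K d (X - C c) = zz K d - algebraMap K (LaurentSeries K) c := by
      rw [zpol, map_sub, aeval_X, aeval_C]
    rw [e, sub_mul, ← Algebra.smul_def] at hy
    rw [← hy]
    ring
  have h2 : ∀ m : ℤ, y.coeff (m + d) = (if m = 0 then 1 else 0) + c * y.coeff m := by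
    intro m
    rw [← zz_mul_coeff, h1, HahnSeries.coeff_add, HahnSeries.coeff_one, HahnSeries.coeff_smul,
      smul_eq_mul]
    congr 1
    split_ifs <;> rfl
  obtain ⟨n, hn⟩ := exists_low y
  have h3 : ∀ (j : ℕ) (k : ℤ), k < d → k < -(n : ℤ) + j → y.coeff k = 0 := by
    intro j
    induction j with
    | zero => intro k _ hk; exact hn k (by simpa using hk)
    | succ j ih =>
      intro k hk1 hk2
      have h4 := h2 (k - d)
      rw [sub_add_cancel, if_neg (by omega), ih (k - d) (by omega) (by push_cast at hk2; omega),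
        mul_zero, add_zero] at h4
      exact h4
  have h5 := h2 0
  rw [zero_add, if_pos rfl, h3 (n + 1) 0 (by omega) (by push_cast; omega), mul_zero,
    add_zero] at h5
  exact h5

end ZRFaux

open ZRFaux in
theorem t_ZRF : Stmt_ZRF := by
  intro K _ d b β hd hβ N x hx
  classical
  have hne : ∀ p : K[X], p ≠ 0 → zpol K d p ≠ 0 := by
    intro p hp h
    apply hp
    apply KRK.zpol_inj hd.ne'
    rw [h, map_zero]
  let fl : Fin b → K[X] := fun l => ∏ m ∈ Finset.univ.erase l, (X - C (β m))
  have hfl : ∀ l, (∏ l, (X - C (β l))) = (X - C (β l)) * fl l := fun l =>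
    (Finset.mul_prod_erase Finset.univ (fun m => X - C (β m)) (Finset.mem_univ l)).symm
  let w : Fin b → K := fun l => ∏ m ∈ Finset.univ.erase l, (β l - β m)
  have hw : ∀ l, w l ≠ 0 := by
    intro l
    refine Finset.prod_ne_zero_iff.2 fun m hm => ?_
    rw [sub_ne_zero]
    intro h
    exact (Finset.ne_of_mem_erase hm) (hβ h).symm
  have hev : ∀ l, (fl l).eval (β l) = w l := by
    intro l
    rw [eval_prod]
    simp [w]
  have hev0 : ∀ l m, m ≠ l → (fl m).eval (β l) = 0 := by
    intro l m hml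
    rw [eval_prod]
    refine Finset.prod_eq_zero (i := l) (Finset.mem_erase.2 ⟨Ne.symm hml, Finset.mem_univ _⟩) ?_
    simp
  let a : Fin b → K := fun l => N.eval (β l) * (w l)⁻¹
  obtain ⟨q, hq⟩ : (∏ l, (X - C (β l))) ∣ N - ∑ l, C (a l) * fl l := by
    refine Finset.prod_dvd_of_coprime ?_ ?_
    · intro i _ j _ hij
      exact pairwise_coprime_X_sub_C hβ hij
    · intro l _
      rw [dvd_iff_isRoot, IsRoot, eval_sub, eval_finsetSum, Finset.sum_eq_single l]
      · rw [eval_mul, eval_C, hev, mul_assoc, inv_mul_cancel₀ (hw l), mul_one, sub_self]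
      · intro m _ hm
        rw [eval_mul, hev0 l m hm, mul_zero]
      · intro h
        exact absurd (Finset.mem_univ l) h
  have hf0 : zpol K d (∏ l, (X - C (β l))) ≠ 0 :=
    hne _ (Finset.prod_ne_zero_iff.2 fun l _ => X_sub_C_ne_zero _)
  have hinv : ∀ l, zpol K d (X - C (β l)) * (zpol K d (X - C (β l)))⁻¹ = 1 := fun l =>
    mul_inv_cancel₀ (hne _ (X_sub_C_ne_zero _))
  have hxe : x = zpol K d q + ∑ l, a l • (zpol K d (X - C (β l)))⁻¹ := by
    apply mul_left_cancel₀ hf0
    rw [hx, mul_add, ← map_mul, ← hq, map_sub, map_sum, Finset.mul_sum, sub_add,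
      ← Finset.sum_sub_distrib, Finset.sum_eq_zero, sub_zero]
    intro l _
    have e1 : zpol K d (C (a l) * fl l) = a l • zpol K d (fl l) := by
      rw [← smul_eq_C_mul, map_smul]
    rw [hfl l, e1, map_mul, mul_smul_comm, mul_comm (zpol K d (X - C (β l))), mul_assoc, hinv l,
      mul_one, sub_self]
  rw [hxe, HahnSeries.coeff_add, zpol_coeff_pos q _ (by exact_mod_cast hd), zero_add,
    HahnSeries.coeff_sum]
  refine Finset.sum_congr rfl fun l _ => ?_
  rw [HahnSeries.coeff_smul, inv_low (β l) hd _ (hinv l), smul_eq_mul, mul_one]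

end Pool.Agent.MG.G0
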