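import Pool.Agent.MG.G0.FinB
import Pool.Agent.MG.G0.ZZZ
import Pool.Agent.MG.G0.ZLA
import Pool.Agent.MG.G0.ZRF
import Pool.Agent.MG.G0.ZQA
import Pool.Agent.MG.G0.ZQN
import Pool.Agent.MG.G0.ZCA
import Pool.Agent.MG.G0.ZCI
import Pool.Agent.MG.G0.ZOR
import Pool.Agent.MG.G0.ZOI
import Pool.Agent.MG.G0.ZOD
import Pool.Agent.MG.G0.ZFF
import Pool.Agent.MG.G0.ZFC
import Pool.Agent.MG.G0.ZSL
import Pool.Agent.MG.G0.ZRW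
import Pool.Agent.MG.G0.ZRR
import Pool.Agent.MG.G0.ZFD
import Pool.Agent.MG.G0.ZFV
import Pool.Agent.MG.G0.ZPC
import Pool.Agent.MG.G0.ZSD
import Pool.Agent.MG.G0.ZRK
import Pool.Agent.MG.G0.ZPM
import Pool.Agent.MG.G0.ZGR
import Pool.Agent.MG.G0.ZFM
import Pool.Agent.MG.G0.ZPL
import Pool.Agent.MG.G0.ZOB
import Pool.Agent.MG.G0.ZPB
import Pool.Agent.MG.G0.ZL.Fin
import Pool.Agent.MG.G0.KIL
import Pool.Agent.MG.G0.KGP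
import Pool.Agent.MG.G0.PDP
import Pool.Agent.MG.G0.PPR
import Pool.Agent.MG.G0.PBC
import Pool.Agent.MG.G0.RES
import Pool.Agent.MG.G0.RTA
import Pool.Agent.MG.G0.RTR
import Pool.Agent.MG.G0.STO
import Pool.Agent.MG.G0.SKK
import Pool.Agent.MG.G0.SCO
import Pool.Agent.MG.G0.INT
import Pool.Agent.MG.G0.KEQ
import Pool.Agent.MG.G0.ZQL
import Pool.Agent.MG.G0.ZCE
import Pool.Agent.MG.G0.ZIC
import Pool.Agent.MG.G0.ZFE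

/-!
# Theorem Z without hypotheses
-/

namespace Pool.Agent.MG.G0.FinZ

theorem rES : Stmt_RES := t_RES t_RTR t_RTA FinB.kSP

theorem sKK : Stmt_SKK := t_SKK t_KNZ t_SCO

theorem sTO : Stmt_STO := t_STO rES sKK

theorem kGP : Stmt_KGP := t_KGP FinB.kFO t_KNZ FinB.kBC

theorem pPR : Stmt_PPR := t_PPR t_KDU FinB.kSP

theorem pDP : Stmt_PDP := t_PDP FinB.kFO pPR

theorem pBC : Stmt_PBC := t_PBC FinB.kFO FinB.kBC pPR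

theorem iNT : Stmt_INT := t_INT FinB.kFO FinB.kBC

theorem kIL : Stmt_KIL := t_KIL pBC iNT

theorem zL : Stmt_ZL := t_ZL FinB.kBC

theorem zQA : Stmt_ZQA := t_ZQA kIL pDP t_ZD1 t_ZLA t_ZRF

theorem zQN : Stmt_ZQN := t_ZQN FinB.kFO FinB.kBC zQA t_ZQL

theorem zCA : Stmt_ZCA := t_ZCA t_ZCE

theorem zCI : Stmt_ZCI := t_ZCI FinB.kFO rES sTO t_ZCE zCA

theorem zOR : Stmt_ZOR := t_ZOR FinB.kFO FinB.kBC rES zCI zQN

theorem zOI : Stmt_ZOI := t_ZOI FinB.kFO FinB.kBC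

theorem zOD : Stmt_ZOD := t_ZOD FinB.kFO FinB.kBC

theorem zFF : Stmt_ZFF := t_ZFF FinB.kFO

theorem zFE : Stmt_ZFE := t_ZFE FinB.kFO FinB.kBC kGP

theorem zFC : Stmt_ZFC := t_ZFC FinB.kBC zFE

theorem zRR : Stmt_ZRR := t_ZRR t_ZIC t_ZRW

theorem zFD : Stmt_ZFD := t_ZFD FinB.kFO zFE zRR

theorem zFV : Stmt_ZFV := t_ZFV zFF zFC t_ZSL zFD

theorem zPM : Stmt_ZPM := t_ZPM FinB.kBC zL

theorem zGR : Stmt_ZGR := t_ZGR t_ZLA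

theorem zFM : Stmt_ZFM :=
  t_ZFM FinB.kBC t_BGA FinB.bGL t_PSI FinB.zBT FinB.zBO FinB.zBE

theorem zPL : Stmt_ZPL :=
  t_ZPL FinB.kBC zL FinB.cYC FinB.zBR t_ZPC t_ZSD t_ZRK zPM zGR

theorem zPB : Stmt_ZPB := t_ZPB FinB.kBC t_KEQ iNT

/-- **Theorem Z**. -/
theorem zZZ : Stmt_ZZZ :=
  t_ZZZ FinB.kBC FinB.zDB t_ZPC zFM zOR zOI zOD zPL t_ZOB zPM zPB zFD zFV

end Pool.Agent.MG.G0.FinZ
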