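import Pool.Agent.MG.G0.StmtsG
import Pool.Agent.MG.G0.ZL.ZD

/-!
# GDB: base change of discriminants
-/

namespace Pool.Agent.MG.G0

open ZL Polynomial

theorem t_GDB (hKBC : Stmt_KBC) : Stmt_GDB := by
  intro A B _ _ φ g d hd _ R hR f hf
  have : NeZero d := ⟨hd.ne'⟩
  obtain ⟨e, G, he, hG, u, hu, hdet⟩ := hf
  refine ⟨fun i => lmap φ (e i), G.map (Polynomial.map φ), zbas_of_spn (kr_bc hKBC hR φ)
    (spn_bc hKBC φ (spn_of_zbas he)), fun i j => ?_, u.map φ, ?_, ?_⟩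
  · rw [Matrix.map_apply, ← lmap_zpol, hG, lmap_pr0, map_mul (lmap φ)]
  · exact hu.map (mapRingHom φ)
  · have h1 := RingHom.map_det (mapRingHom φ) G
    rw [hdet, map_mul] at h1
    exact h1.symm

end Pool.Agent.MG.G0
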