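import Pool.Agent.MG.G0.Plumb
import Pool.Agent.MG.G0.DefsX

/-!
# Polarised values of `Ev`, and values at quadratic differentials `(t ω) ω'`
(PAPER.md, POL, LOGM)
-/

open TensorProduct

namespace Pool.Agent.MG.G0

/-- The exponent `(1, ..., 1)`. -/
noncomputable def ones (k : ℕ) : Fin k →₀ ℕ := Finsupp.equivFunOnFinite.symm fun _ => 1

/-- The polarised value: the coefficient of `y_1 ⋯ y_k` in the value at `∑ y_i q_i`. -/
noncomputable def Fk {g : ℕ} (E : Ev g) {A I : Type} [CommRing A] [Algebra ℂ A] [Fintype I]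
    (P : Subalgebra A (KK I A)) {k : ℕ} (q : Fin k → QR P) : A :=
  MvPolynomial.coeff (ones k)
    (E.Φ (MvPolynomial (Fin k) A) I (bc (MvPolynomial.C : A →+* MvPolynomial (Fin k) A) P)
      (cov _ (∑ i, (MvPolynomial.X i : MvPolynomial (Fin k) A) •
        bcR (MvPolynomial.C : A →+* MvPolynomial (Fin k) A) P (q i))))

/-- `x` is a value at the quadratic differentials `η_i u'_i`, where the `η_i` are Kähler
differentials with `η_i = t u_i`. -/
def HV {g : ℕ} (E : Ev g) {A I : Type} [CommRing A] [Algebra ℂ A] [Fintype I]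
    (P : Subalgebra A (KK I A)) (t : A) {k : ℕ} (u u' : Fin k → KK I A) (x : A) : Prop :=
  ∃ (hu : ∀ i, u' i ∈ EE P) (η : Fin k → DR P), (∀ i, dk P (η i) = t • u i) ∧
    x = Fk E P fun i => twR P ⟨u' i, hu i⟩ (η i)

/-! ## Truncated polynomials -/

/-- The ring `A[T]/T^N`. -/
abbrev TrA (A : Type) [CommRing A] (N : ℕ) : Type :=
  AdjoinRoot ((Polynomial.X : Polynomial A) ^ N)

/-- The element `T`. -/
noncomputable abbrev tt (A : Type) [CommRing A] (N : ℕ) : TrA A N :=
  AdjoinRoot.root ((Polynomial.X : Polynomial A) ^ N)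

/-- The coefficient of `T^i`, `i < N`. -/
noncomputable def co {A : Type} [CommRing A] {N : ℕ} (i : ℕ) (x : TrA A N) : A :=
  (Classical.choose (AdjoinRoot.mk_surjective x)).coeff i

theorem co_mk {A : Type} [CommRing A] {N i : ℕ} (h : i < N) (p : Polynomial A) :
    co i (AdjoinRoot.mk ((Polynomial.X : Polynomial A) ^ N) p) = p.coeff i := by
  have h1 := Classical.choose_spec (AdjoinRoot.mk_surjective
    (AdjoinRoot.mk ((Polynomial.X : Polynomial A) ^ N) p))
  rw [AdjoinRoot.mk_eq_mk] at h1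
  have h2 := Polynomial.X_pow_dvd_iff.1 h1 i h
  rw [Polynomial.coeff_sub, sub_eq_zero] at h2
  exact h2

/-- `φ` extended to truncated polynomials, `T ↦ T`. -/
def TrM {A B : Type} [CommRing A] [CommRing B] {N : ℕ} (φ : A →+* B) (σ : TrA A N →+* TrA B N) :
    Prop :=
  (∀ a, σ (algebraMap A (TrA A N) a) = algebraMap B (TrA B N) (φ a)) ∧ σ (tt A N) = tt B N

/-- `x` is a value of the plumbed curve `PT pt T` over `A[T]/T^N`. -/
def Vl {g : ℕ} (E : Ev g) {A I : Type} [CommRing A] [Algebra ℂ A] [Fintype I]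
    {R : Subalgebra A (KK I A)} (pt : Bool → FPt R) {N k : ℕ} (u u' : Fin k → KK I (TrA A N))
    (x : TrA A N) : Prop :=
  ∃ pt' : Bool → FPt (bc (algebraMap A (TrA A N)) R),
    (∀ b, (pt b).Bc (algebraMap A (TrA A N)) (pt' b)) ∧
    (∀ i, u i ∈ EE (PT pt' (tt A N))) ∧ (∀ i, u' i ∈ EE (PT pt' (tt A N))) ∧
    HV E (PT pt' (tt A N)) (tt A N) u u' x

end Pool.Agent.MG.G0
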