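import Pool.Agent.MG.G0.StmtsCQ

/-!
# IVS: the hypothesis of PTO on smooth curves, and descent along injective maps
-/

open TensorProduct

namespace Pool.Agent.MG.G0

theorem t_IVS (hPTO : Stmt_PTO) (hPOL : Stmt_POL) (hCSM : Stmt_CSM) (hKBC : Stmt_KBC)
    (hSDB : Stmt_SDB) : Stmt_IVS := by
  refine ⟨?_, ?_⟩
  · intro g E I A _ _ _ _ P hP hS k
    refine hPTO E P hP 1 k fun D => ?_
    have h1 : IsKr g (bc (MvPolynomial.C (R := A) (σ := Fin k)) P) :=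
      (hKBC.2.2.2 hP.1 (MvPolynomial.C (R := A) (σ := Fin k))).1
    have h2 : SmC (MvPolynomial (Fin k) A) (bc (MvPolynomial.C (R := A) (σ := Fin k)) P) :=
      (hSDB hP.1 hS (MvPolynomial.C (R := A) (σ := Fin k))).1
    obtain ⟨θ, hθ⟩ := (hCSM h1 h2).1 D
    refine ⟨θ, ?_⟩
    rw [map_one, one_smul]
    exact hθ
  · intro g E I A B _ _ _ _ _ _ P hP φ hφ t k h q q' hq
    apply hφ
    rw [map_mul, map_mul, ← (hPOL E P hP).1 φ q, ← (hPOL E P hP).1 φ q']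
    refine h _ _ fun i => ?_
    change qk (bc (φ : A →+* B) P) (bcQ (φ : A →+* B) P (q i)) =
      qk (bc (φ : A →+* B) P) (bcQ (φ : A →+* B) P (q' i))
    rw [qk_bcQ, qk_bcQ, hq i]

end Pool.Agent.MG.G0
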