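import Pool.Agent.MG.G0.Base

/-!
# Laurent series: coefficients of products, pole orders, derivatives, base change
-/

namespace Pool.Agent.MG.G0

section one

variable {A B : Type} [CommRing A] [CommRing B]

/-- The coefficients of a product, for series with coefficients zero below `a` and `b`. -/
theorem coeff_mul_Icc {f g : LaurentSeries A} {a b : ℤ} (hf : ∀ m < a, f.coeff m = 0)
    (hg : ∀ m < b, g.coeff m = 0) (n : ℤ) :
    (f * g).coeff n = ∑ i ∈ Finset.Icc a (n - b), f.coeff i * g.coeff (n - i) := by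
  classical
  rw [HahnSeries.coeff_mul]
  have h0 : ∑ i ∈ Finset.Icc a (n - b), f.coeff i * g.coeff (n - i) =
      ∑ i ∈ (Finset.Icc a (n - b)).filter fun i => f.coeff i ≠ 0 ∧ g.coeff (n - i) ≠ 0,
        f.coeff i * g.coeff (n - i) := by
    symm
    refine Finset.sum_filter_of_ne fun i _ h => ?_
    exact ⟨left_ne_zero_of_mul h, right_ne_zero_of_mul h⟩
  rw [h0]
  refine Finset.sum_nbij' (fun x => x.1) (fun i => (i, n - i)) ?_ ?_ ?_ ?_ ?_
  · rintro ⟨i, j⟩ h
    rw [Finset.mem_antidiagonal] at h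
    obtain ⟨h1, h2, h3⟩ := h
    have h1' : f.coeff i ≠ 0 := h1
    have h2' : g.coeff j ≠ 0 := h2
    have h3' : i + j = n := h3
    have hj : n - i = j := by omega
    have ha : a ≤ i := by
      by_contra hc
      exact h1' (hf i (by omega))
    have hb : b ≤ j := by
      by_contra hc
      exact h2' (hg j (by omega))
    simp only [Finset.mem_filter, Finset.mem_Icc]
    refine ⟨⟨ha, by omega⟩, h1', ?_⟩
    rw [hj]
    exact h2'
  · intro i h
    simp only [Finset.mem_filter, Finset.mem_Icc] at h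
    rw [Finset.mem_antidiagonal]
    exact ⟨h.2.1, h.2.2, by change i + (n - i) = n; omega⟩
  · rintro ⟨i, j⟩ h
    rw [Finset.mem_antidiagonal] at h
    have h3 : i + j = n := h.2.2
    simp only [Prod.mk.injEq, true_and]
    omega
  · intro i _
    rfl
  · rintro ⟨i, j⟩ h
    rw [Finset.mem_antidiagonal] at h
    have h3 : i + j = n := h.2.2
    have : n - i = j := by omega
    simp only [this]

/-- A series has coefficients zero below some integer. -/
theorem exists_low (f : LaurentSeries A) : ∃ n : ℕ, ∀ m < -(n : ℤ), f.coeff m = 0 := by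
  by_cases hf : f = 0
  · exact ⟨0, fun m _ => by rw [hf, HahnSeries.coeff_zero]⟩
  · refine ⟨(-f.order).toNat, fun m hm => HahnSeries.coeff_eq_zero_of_lt_order ?_⟩
    omega

theorem mul_low {f g : LaurentSeries A} {a b : ℤ} (hf : ∀ m < a, f.coeff m = 0)
    (hg : ∀ m < b, g.coeff m = 0) (n : ℤ) (hn : n < a + b) : (f * g).coeff n = 0 := by
  rw [coeff_mul_Icc hf hg, Finset.Icc_eq_empty (by omega), Finset.sum_empty]

theorem mul_lead {f g : LaurentSeries A} {a b : ℤ} (hf : ∀ m < a, f.coeff m = 0)
    (hg : ∀ m < b, g.coeff m = 0) : (f * g).coeff (a + b) = f.coeff a * g.coeff b := by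
  rw [coeff_mul_Icc hf hg, add_sub_cancel_right, Finset.Icc_self, Finset.sum_singleton,
    add_sub_cancel_left]

theorem ld_mul (f g : LaurentSeries A) : ld (f * g) = f * ld g + ld f * g := by
  obtain ⟨a, ha⟩ := exists_low f
  obtain ⟨b, hb⟩ := exists_low g
  have ha' : ∀ m < -(a : ℤ) - 1, (ld f).coeff m = 0 := fun m hm => by
    rw [ld_coeff, ha (m + 1) (by omega), mul_zero]
  have hb' : ∀ m < -(b : ℤ) - 1, (ld g).coeff m = 0 := fun m hm => by
    rw [ld_coeff, hb (m + 1) (by omega), mul_zero]
  ext n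
  rw [HahnSeries.coeff_add, ld_coeff, coeff_mul_Icc ha hb, coeff_mul_Icc ha hb',
    mul_comm (ld f) g, coeff_mul_Icc hb ha', Finset.mul_sum]
  have h1 : ∀ i ∈ Finset.Icc (-(a : ℤ)) (n + 1 - -(b : ℤ)),
      ((n + 1 : ℤ) : A) * (f.coeff i * g.coeff (n + 1 - i)) =
        f.coeff i * (ld g).coeff (n - i) + g.coeff (n + 1 - i) * (ld f).coeff (n - (n + 1 - i)) := by
    intro i _
    rw [ld_coeff, ld_coeff]
    have e1 : n - i + 1 = n + 1 - i := by ring
    have e2 : n - (n + 1 - i) + 1 = i := by ring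
    rw [e1, e2]
    push_cast
    ring
  rw [Finset.sum_congr rfl h1, Finset.sum_add_distrib]
  congr 1
  · refine Finset.sum_congr ?_ fun _ _ => rfl
    congr 1
    ring
  · refine Finset.sum_nbij' (fun i => n + 1 - i) (fun i => n + 1 - i) ?_ ?_ ?_ ?_ ?_
    · intro i hi
      simp only [Finset.mem_Icc] at hi ⊢
      omega
    · intro i hi
      simp only [Finset.mem_Icc] at hi ⊢
      omega
    · intro i _
      ring
    · intro i _
      ring
    · intro i _
      rfl

theorem ld_add (f g : LaurentSeries A) : ld (f + g) = ld f + ld g := map_add _ _ _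

theorem ld_smul (a : A) (f : LaurentSeries A) : ld (a • f) = a • ld f := map_smul _ _ _

theorem lmap_ld (φ : A →+* B) (f : LaurentSeries A) : lmap φ (ld f) = ld (lmap φ f) := by
  ext n
  rw [lmap_coeff, ld_coeff, ld_coeff, lmap_coeff, map_mul, map_intCast]

theorem lmap_smul (φ : A →+* B) (a : A) (f : LaurentSeries A) :
    lmap φ (a • f) = φ a • lmap φ f := by
  ext n
  simp

theorem lmap_algebraMap (φ : A →+* B) (a : A) :
    lmap φ (algebraMap A (LaurentSeries A) a) = algebraMap B (LaurentSeries B) (φ a) := by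
  rw [Algebra.algebraMap_eq_smul_one, Algebra.algebraMap_eq_smul_one, lmap_smul, map_one]

theorem lmap_single (φ : A →+* B) (n : ℤ) (a : A) :
    lmap φ (HahnSeries.single n a) = HahnSeries.single n (φ a) := by
  ext m
  rw [lmap_coeff, HahnSeries.coeff_single, HahnSeries.coeff_single]
  split_ifs <;> simp

theorem coeff_algebraMap (a : A) (n : ℤ) :
    (algebraMap A (LaurentSeries A) a).coeff n = if n = 0 then a else 0 := by
  rw [Algebra.algebraMap_eq_smul_one, HahnSeries.coeff_smul, HahnSeries.coeff_one, smul_eq_mul]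
  split_ifs <;> simp

end one

section many

variable {I : Type} {A B C : Type} [CommRing A] [CommRing B] [CommRing C]

theorem exists_Pol [Finite I] (f : KK I A) : ∃ n : ℕ, f ∈ Pol I A n := by
  classical
  cases nonempty_fintype I
  choose n hn using fun i => exists_low (f i)
  refine ⟨Finset.univ.sup n, fun i m hm => hn i m (lt_of_lt_of_le hm ?_)⟩
  have : n i ≤ Finset.univ.sup n := Finset.le_sup (Finset.mem_univ i)
  omega

theorem Pol_mono {m n : ℤ} (h : m ≤ n) : Pol I A m ≤ Pol I A n :=
  fun _ hf i k hk => hf i k (by omega)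

theorem mul_mem_Pol {m n : ℤ} {f g : KK I A} (hf : f ∈ Pol I A m) (hg : g ∈ Pol I A n) :
    f * g ∈ Pol I A (m + n) := fun i k hk => by
  rw [Pi.mul_apply]
  exact mul_low (hf i) (hg i) k (by omega)

theorem mul_Pol_lead {m n : ℤ} {f g : KK I A} (hf : f ∈ Pol I A m) (hg : g ∈ Pol I A n) (i : I) :
    ((f * g) i).coeff (-(m + n)) = (f i).coeff (-m) * (g i).coeff (-n) := by
  rw [Pi.mul_apply, neg_add]
  exact mul_lead (hf i) (hg i)

theorem mul_mem_Pol0 {f g : KK I A} (hf : f ∈ Pol I A 0) (hg : g ∈ Pol I A 0) :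
    f * g ∈ Pol I A 0 := mul_mem_Pol hf hg

theorem algebraMap_mem_Pol0 (a : A) : algebraMap A (KK I A) a ∈ Pol I A 0 := fun i m hm => by
  rw [Pi.algebraMap_apply, coeff_algebraMap, if_neg (by omega)]

theorem one_mem_Pol0 : (1 : KK I A) ∈ Pol I A 0 := by
  rw [← map_one (algebraMap A (KK I A))]
  exact algebraMap_mem_Pol0 1

theorem dd_add (f g : KK I A) : dd (f + g) = dd f + dd g := funext fun _ => ld_add _ _

theorem dd_mul (f g : KK I A) : dd (f * g) = f * dd g + dd f * g := funext fun _ => ld_mul _ _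

theorem dd_smul (a : A) (f : KK I A) : dd (a • f) = a • dd f := funext fun _ => ld_smul _ _

theorem dd_algebraMap (a : A) : dd (algebraMap A (KK I A) a) = 0 := by
  funext i
  ext n
  rw [dd, Pi.algebraMap_apply, ld_coeff, coeff_algebraMap, Pi.zero_apply, HahnSeries.coeff_zero]
  split_ifs with h
  · rw [h]
    simp
  · rw [mul_zero]

/-- `d/dτ` as a derivation. -/
noncomputable def ddD (I A : Type) [CommRing A] : Derivation A (KK I A) (KK I A) where
  toFun := dd
  map_add' := dd_add
  map_smul' := dd_smul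
  map_one_eq_zero' := by
    change dd (1 : KK I A) = 0
    rw [← map_one (algebraMap A (KK I A))]
    exact dd_algebraMap 1
  leibniz' f g := by
    change dd (f * g) = f • dd g + g • dd f
    rw [dd_mul, smul_eq_mul, smul_eq_mul, mul_comm g]

@[simp] theorem ddD_apply (f : KK I A) : ddD I A f = dd f := rfl

theorem dd_mem_Pol {n : ℤ} {f : KK I A} (hf : f ∈ Pol I A n) : dd f ∈ Pol I A (n + 1) :=
  fun i m hm => by
    change (ld (f i)).coeff m = 0
    rw [ld_coeff, hf i _ (by omega), mul_zero]

theorem dd_mem_Pol0 {f : KK I A} (hf : f ∈ Pol I A 0) : dd f ∈ Pol I A 0 := fun i m hm => by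
  change (ld (f i)).coeff m = 0
  rw [ld_coeff]
  by_cases h : m + 1 = 0
  · rw [h]
    simp
  · rw [hf i _ (by omega), mul_zero]

theorem kmap_mem_Pol (φ : A →+* B) {n : ℤ} {f : KK I A} (hf : f ∈ Pol I A n) :
    kmap φ f ∈ Pol I B n := fun i m hm => by
  rw [kmap_apply, lmap_coeff, hf i m hm, map_zero]

theorem kmap_dd (φ : A →+* B) (f : KK I A) : kmap φ (dd f) = dd (kmap φ f) :=
  funext fun _ => lmap_ld _ _

theorem kmap_smul (φ : A →+* B) (a : A) (f : KK I A) : kmap φ (a • f) = φ a • kmap φ f :=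
  funext fun _ => lmap_smul _ _ _

theorem kmap_algebraMap (φ : A →+* B) (a : A) :
    kmap φ (algebraMap A (KK I A) a) = algebraMap B (KK I B) (φ a) :=
  funext fun _ => lmap_algebraMap _ _

theorem kmap_id (f : KK I A) : kmap (RingHom.id A) f = f := rfl

theorem kmap_comp (φ : A →+* B) (ψ : B →+* C) (f : KK I A) :
    kmap (ψ.comp φ) f = kmap ψ (kmap φ f) := rfl

theorem res_kmap [Fintype I] (φ : A →+* B) (f : KK I A) : res (kmap φ f) = φ (res f) := by
  simp [res, map_sum]

theorem res_dd [Fintype I] (f : KK I A) : res (dd f) = 0 := by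
  refine Finset.sum_eq_zero fun i _ => ?_
  change (ld (f i)).coeff (-1) = 0
  rw [ld_coeff]
  simp

theorem res_Pol0 [Fintype I] {f : KK I A} (hf : f ∈ Pol I A 0) : res f = 0 :=
  Finset.sum_eq_zero fun i _ => hf i _ (by omega)

/-- The monomial `a τ_i^n`. -/
noncomputable def mon (i : I) (n : ℤ) (a : A) : KK I A :=
  open Classical in fun j => if j = i then HahnSeries.single n a else 0

theorem mon_coeff_self (i : I) (n : ℤ) (a : A) (m : ℤ) :
    (mon i n a i).coeff m = if m = n then a else 0 := by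
  rw [mon, if_pos rfl, HahnSeries.coeff_single]
  split_ifs <;> rfl

theorem mon_of_ne {i j : I} (h : j ≠ i) (n : ℤ) (a : A) : mon i n a j = 0 := by
  rw [mon, if_neg h]

theorem mon_coeff (i j : I) (n : ℤ) (a : A) (m : ℤ) :
    (mon i n a j).coeff m = open Classical in if j = i ∧ m = n then a else 0 := by
  by_cases h : j = i
  · subst h
    rw [mon_coeff_self]
    simp
  · rw [mon_of_ne h, HahnSeries.coeff_zero]
    simp [h]

theorem mon_mem_Pol (i : I) {n k : ℤ} (h : -k ≤ n) (a : A) : mon i n a ∈ Pol I A k :=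
  fun j m hm => by
    rw [mon_coeff]
    simp only [ite_eq_right_iff, and_imp]
    intro _ h2
    omega

theorem kmap_mon (φ : A →+* B) (i : I) (n : ℤ) (a : A) :
    kmap φ (mon i n a) = mon i n (φ a) := by
  funext j
  ext m
  rw [kmap_apply, lmap_coeff, mon_coeff, mon_coeff]
  split_ifs <;> simp

theorem smul_mon (i : I) (n : ℤ) (a b : A) : a • mon i n b = mon i n (a * b) := by
  funext j
  ext m
  rw [Pi.smul_apply, HahnSeries.coeff_smul, mon_coeff, mon_coeff]
  split_ifs <;> simp

/-- Removing the coefficients at `τ^m`, `-n ≤ m < k`, of a series with pole order at most `n`. -/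
theorem sub_mon_mem_Pol [Fintype I] {n : ℕ} {f : KK I A} (hf : f ∈ Pol I A n) (k : ℤ) :
    f - ∑ i, ∑ m ∈ Finset.Ico (-(n : ℤ)) k, mon i m ((f i).coeff m) ∈ Pol I A (-k) := by
  classical
  intro j l hl
  rw [neg_neg] at hl
  rw [Pi.sub_apply, HahnSeries.coeff_sub, Finset.sum_apply, HahnSeries.coeff_sum]
  have h1 : ∀ i, ((∑ m ∈ Finset.Ico (-(n : ℤ)) k, mon i m ((f i).coeff m)) j).coeff l =
      if i = j then ((if -(n : ℤ) ≤ l then (f j).coeff l else 0)) else 0 := by
    intro i
    rw [Finset.sum_apply, HahnSeries.coeff_sum]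
    by_cases h : i = j
    · subst h
      rw [if_pos rfl]
      simp only [mon_coeff_self]
      rw [Finset.sum_ite_eq]
      simp only [Finset.mem_Ico]
      split_ifs with h1 h2 h2
      · rfl
      · omega
      · omega
      · rfl
    · rw [if_neg h]
      refine Finset.sum_eq_zero fun m _ => ?_
      rw [mon_of_ne (Ne.symm h), HahnSeries.coeff_zero]
  simp only [h1, Finset.sum_ite_eq', Finset.mem_univ, if_true]
  split_ifs with h
  · exact sub_self _
  · rw [hf j l (by omega), sub_zero]

theorem res_mul_mon [Fintype I] (f : KK I A) (i : I) (n : ℤ) (a : A) :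
    res (f * mon i n a) = (f i).coeff (-1 - n) * a := by
  classical
  change ∑ j, ((f * mon i n a) j).coeff (-1) = _
  rw [Finset.sum_eq_single i]
  · rw [Pi.mul_apply, mon, if_pos rfl]
    have : (-1 : ℤ) = (-1 - n) + n := by ring
    nth_rewrite 1 [this]
    exact HahnSeries.coeff_mul_single_add
  · intro j _ hj
    rw [Pi.mul_apply, mon_of_ne hj, mul_zero, HahnSeries.coeff_zero]
  · intro h
    exact absurd (Finset.mem_univ i) h

end many

end Pool.Agent.MG.G0
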