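import Pool.Agent.MG.G0.StmtsM

/-!
# MAL: an abstract lemma on families of multilinear forms
-/

namespace Pool.Agent.MG.G0

namespace MAL

variable {n : Type} [DecidableEq n] {A V : Type} [CommRing A] [AddCommGroup V] [Module A V]

/-- Two families, equal outside `Z` and with the same values of `ρ`. -/
theorem tele (M : MultilinearMap A (fun _ : n => V) A) (ρ : V →ₗ[A] A) (Z : Finset n)
    (hZ : ∀ j ∈ Z, ∀ ω : n → V, (∀ i, i ∉ Z.erase j → ρ (ω i) = 0) → M ω = 0)
    (ω ω' : n → V) (h0 : ∀ i, i ∉ Z → ρ (ω i) = 0) (h1 : ∀ i, i ∉ Z → ω' i = ω i)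
    (h2 : ∀ i ∈ Z, ρ (ω i) = ρ (ω' i)) : M ω = M ω' := by
  have key : ∀ W : Finset n, W ⊆ Z → M (W.piecewise ω' ω) = M ω := by
    intro W
    induction W using Finset.induction_on with
    | empty => intro _; simp
    | insert j W hj ih =>
      intro hW
      have hjZ : j ∈ Z := hW (Finset.mem_insert_self j W)
      have hWZ : W ⊆ Z := fun x hx => hW (Finset.mem_insert_of_mem hx)
      rw [← ih hWZ, Finset.piecewise_insert]
      have e1 : M (W.piecewise ω' ω) = M (Function.update (W.piecewise ω' ω) j (ω j)) := by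
        congr 1
        rw [eq_comm, Function.update_eq_self_iff, Finset.piecewise_eq_of_notMem _ _ _ hj]
      rw [e1, ← sub_eq_zero, ← MultilinearMap.map_update_sub]
      refine hZ j hjZ _ fun i hi => ?_
      by_cases hij : i = j
      · subst hij
        rw [Function.update_self, map_sub, h2 i hjZ, sub_self]
      · have hiZ : i ∉ Z := fun h => hi (Finset.mem_erase.2 ⟨hij, h⟩)
        rw [Function.update_of_ne hij]
        by_cases hiW : i ∈ W
        · exact absurd (hWZ hiW) hiZ
        · rw [Finset.piecewise_eq_of_notMem _ _ _ hiW]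
          exact h0 i hiZ
  have h3 : Z.piecewise ω' ω = ω' := by
    ext i
    by_cases hi : i ∈ Z
    · rw [Finset.piecewise_eq_of_mem _ _ _ hi]
    · rw [Finset.piecewise_eq_of_notMem _ _ _ hi, h1 i hi]
  rw [← key Z subset_rfl, h3]

/-- From a generating set to its span, outside `Z`. -/
theorem ext_span [Fintype n] (M : MultilinearMap A (fun _ : n => V) A) (ρ : V →ₗ[A] A)
    (Z : Finset n) (T : Set V)
    (h : ∀ ω : n → V, (∀ i, i ∉ Z → ω i ∈ T) → (∀ i ∈ Z, ρ (ω i) = 1) → M ω = 0)
    (ω : n → V) (h0 : ∀ i, i ∉ Z → ω i ∈ Submodule.span A T) (h1 : ∀ i ∈ Z, ρ (ω i) = 1) :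
    M ω = 0 := by
  have key : ∀ (W : Finset n) (ω : n → V), (∀ i, i ∉ Z → i ∈ W → ω i ∈ Submodule.span A T) →
      (∀ i, i ∉ Z → i ∉ W → ω i ∈ T) → (∀ i ∈ Z, ρ (ω i) = 1) → M ω = 0 := by
    intro W
    induction W using Finset.induction_on with
    | empty =>
      intro ω _ h2 h3
      exact h ω (fun i hi => h2 i hi (Finset.notMem_empty i)) h3
    | insert j W hj ih =>
      intro ω h2 h3 h4
      by_cases hjZ : j ∈ Z
      · refine ih ω (fun i hi hiW => h2 i hi (Finset.mem_insert_of_mem hiW))
          (fun i hi hiW => h3 i hi fun h5 => ?_) h4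
        rcases Finset.mem_insert.1 h5 with h6 | h6
        · exact hi (h6 ▸ hjZ)
        · exact hiW h6
      · have h5 : Submodule.span A T ≤ LinearMap.ker (M.toLinearMap ω j) := by
          rw [Submodule.span_le]
          intro x hx
          rw [SetLike.mem_coe, LinearMap.mem_ker]
          show M (Function.update ω j x) = 0
          refine ih _ (fun i hi hiW => ?_) (fun i hi hiW => ?_) (fun i hi => ?_)
          · have hij : i ≠ j := fun h => hj (h ▸ hiW)
            rw [Function.update_of_ne hij]
            exact h2 i hi (Finset.mem_insert_of_mem hiW)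
          · by_cases hij : i = j
            · subst hij
              rw [Function.update_self]
              exact hx
            · rw [Function.update_of_ne hij]
              refine h3 i hi fun h6 => ?_
              rcases Finset.mem_insert.1 h6 with h7 | h7
              · exact hij h7
              · exact hiW h7
          · have hij : i ≠ j := fun h => hjZ (h ▸ hi)
            rw [Function.update_of_ne hij]
            exact h4 i hi
        have h6 := h5 (h2 j hjZ (Finset.mem_insert_self j W))
        rw [LinearMap.mem_ker] at h6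
        have h7 : M (Function.update ω j (ω j)) = 0 := h6
        rwa [Function.update_eq_self] at h7
  exact key Finset.univ ω (fun i hi _ => h0 i hi)
    (fun i _ hi => absurd (Finset.mem_univ i) hi) h1

/-- Expansion of the entries in `Z`. -/
theorem expand (M : MultilinearMap A (fun _ : n => V) A) (ρ : V →ₗ[A] A) (Z : Finset n)
    (v : V) (hv : ρ v = 1)
    (hZ : ∀ j ∈ Z, ∀ ω : n → V, (∀ i, i ∉ Z.erase j → ρ (ω i) = 0) → M ω = 0)
    (h : ∀ ω : n → V, (∀ i, i ∉ Z → ρ (ω i) = 0) → (∀ i ∈ Z, ρ (ω i) = 1) → M ω = 0)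
    (ω : n → V) (h0 : ∀ i, i ∉ Z → ρ (ω i) = 0) : M ω = 0 := by
  have key : ∀ W : Finset n, W ⊆ Z → M (W.piecewise (fun _ => v) ω) = 0 → M ω = 0 := by
    intro W
    induction W using Finset.induction_on with
    | empty => intro _ h1; rwa [Finset.piecewise_empty] at h1
    | insert j W hj ih =>
      intro hW h1
      have hjZ : j ∈ Z := hW (Finset.mem_insert_self j W)
      have hWZ : W ⊆ Z := fun x hx => hW (Finset.mem_insert_of_mem hx)
      refine ih hWZ ?_
      rw [Finset.piecewise_insert] at h1
      have e1 : M (W.piecewise (fun _ => v) ω) =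
          M (Function.update (W.piecewise (fun _ => v) ω) j
            (ρ (ω j) • v + (ω j - ρ (ω j) • v))) := by
        congr 1
        rw [add_sub_cancel, eq_comm, Function.update_eq_self_iff,
          Finset.piecewise_eq_of_notMem _ _ _ hj]
      rw [e1, MultilinearMap.map_update_add, MultilinearMap.map_update_smul, h1, smul_zero,
        zero_add]
      refine hZ j hjZ _ fun i hi => ?_
      by_cases hij : i = j
      · subst hij
        rw [Function.update_self, map_sub, map_smul, hv, smul_eq_mul, mul_one, sub_self]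
      · have hiZ : i ∉ Z := fun h => hi (Finset.mem_erase.2 ⟨hij, h⟩)
        rw [Function.update_of_ne hij]
        by_cases hiW : i ∈ W
        · exact absurd (hWZ hiW) hiZ
        · rw [Finset.piecewise_eq_of_notMem _ _ _ hiW]
          exact h0 i hiZ
  refine key Z subset_rfl (h _ (fun i hi => ?_) fun i hi => ?_)
  · rw [Finset.piecewise_eq_of_notMem _ _ _ hi]
    exact h0 i hi
  · rw [Finset.piecewise_eq_of_mem _ _ _ hi]
    exact hv

end MAL

theorem t_MAL : Stmt_MAL := by
  intro n _ _ S A V _ _ _ M ρ E₀ _ io h1 h2 h3 h4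
  have key : ∀ (Z : Finset n) (s : S) (ω : n → V s), (∀ i, i ∉ Z → ρ s (ω i) = 0) →
      M s ω = 0 := by
    intro Z
    induction Z using Finset.strongInduction with
    | H Z ih =>
      intro s ω hω
      have ih' : ∀ (s : S), ∀ j ∈ Z, ∀ ω : n → V s, (∀ i, i ∉ Z.erase j → ρ s (ω i) = 0) →
          M s ω = 0 := fun s j hj => ih (Z.erase j) (Finset.erase_ssubset hj) s
      obtain ⟨v, hv⟩ := h1 s
      refine MAL.expand (M s) (ρ s) Z v hv (ih' s) (fun ω h5 h6 => ?_) ω hω
      refine MAL.ext_span (M s) (ρ s) Z (Set.range (io s)) (fun ω h7 h8 => ?_) ω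
        (fun i hi => h3 s _ (h5 i hi)) h6
      have he : ∀ i, ∃ e : E₀, i ∉ Z → ω i = io s e := by
        intro i
        by_cases hi : i ∈ Z
        · exact ⟨Classical.arbitrary E₀, fun h => absurd hi h⟩
        · obtain ⟨e, he⟩ := h7 i hi
          exact ⟨e, fun _ => he.symm⟩
      choose e he using he
      refine h4 Z e (fun s' ω₁ ω₂ h9 h10 => ?_) s ω he h8
      refine MAL.tele (M s') (ρ s') Z (ih' s') ω₁ ω₂ (fun i hi => ?_) (fun i hi => ?_)
        fun i hi => ?_
      · rw [(h9 i hi).1]
        exact h2 s' (e i)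
      · rw [(h9 i hi).1, (h9 i hi).2]
      · rw [(h10 i hi).1, (h10 i hi).2]
  intro s
  ext ω
  exact key Finset.univ s ω fun i hi => absurd (Finset.mem_univ i) hi

end Pool.Agent.MG.G0
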