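import Pool.Agent.MG.G0.StmtsM
import Pool.Agent.MG.G0.StmtsHV

/-!
# MVX: existence of values at plumbed curves; two values agree modulo `T^(N-1)`
-/

open TensorProduct

namespace Pool.Agent.MG.G0

namespace MVX

/-- The base change of formal points is unique. -/
theorem bc_unique (hAWB : Stmt_AWB) {I A B : Type} [Fintype I] [Nonempty I] [CommRing A]
    [CommRing B] {h : ℕ} {R : Subalgebra A (KK I A)} (hR : IsKr h R) (φ : A →+* B)
    {pt : Bool → FPt R} {pt' pt'' : Bool → FPt (bc φ R)} (h1 : ∀ b, (pt b).Bc φ (pt' b))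
    (h2 : ∀ b, (pt b).Bc φ (pt'' b)) : pt' = pt'' :=
  funext fun b => ((hAWB hR φ).1 (pt b)).unique (h1 b) (h2 b)

end MVX

theorem t_MVX (hKBC : Stmt_KBC) (hAWB : Stmt_AWB) (hPL1 : Stmt_PL1) (hPL2 : Stmt_PL2)
    (hMPB : Stmt_MPB) (hMPG : Stmt_MPG) (hMTR : Stmt_MTR) (hMFE : Stmt_MFE) (hHV1 : Stmt_HV1)
    (hHV2 : Stmt_HV2) : Stmt_MVX := by
  intro I A _ _ _ _ h R hR pt hD E N k
  have hT : IsNilpotent (tt A N) := ⟨N, (hMTR.1 (A := A) (N := N)).1⟩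
  have hbc : SKr h (bc (algebraMap A (TrA A N)) R) :=
    (hMPG hR pt hD 0 IsNilpotent.zero).2.2.2 (algebraMap A (TrA A N))
  have hDj : ∀ pt' : Bool → FPt (bc (algebraMap A (TrA A N)) R),
      (∀ b, (pt b).Bc (algebraMap A (TrA A N)) (pt' b)) → Disj pt' := fun pt' h' =>
    ((hAWB hR.kr (algebraMap A (TrA A N))).2 hR.smc pt pt' h' hD).1
  refine ⟨?_, fun pt' h' => ⟨?_, fun u u' hu hu' => ?_, fun u u' x hx => ?_⟩,
    fun u u' x y hx hy i hi => ?_⟩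
  · choose pt' h' using fun b => ((hAWB hR.kr (algebraMap A (TrA A N))).1 (pt b)).exists
    exact ⟨pt', h'⟩
  · exact hPL1 hbc.kr hbc.smc pt' (hDj pt' h') (tt A N) hT
  · obtain ⟨x, hx⟩ := hHV1 E (tt A N) (hMPG hbc pt' (hDj pt' h') (tt A N) hT).2.1 u u' hu hu'
    exact ⟨x, pt', h', hu, hu', hx⟩
  · obtain ⟨pt'', h'', hu, hu', -⟩ := hx
    rw [MVX.bc_unique hAWB hR.kr _ h' h'']
    exact ⟨hu, hu'⟩
  · obtain ⟨pt', h', hu, hu', hx⟩ := hx
    obtain ⟨pt'', h'', -, -, hy⟩ := hy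
    obtain rfl := MVX.bc_unique hAWB hR.kr _ h' h''
    obtain ⟨hG, -, hθ, -⟩ := hMPG hbc pt' (hDj pt' h') (tt A N) hT
    have h0 : tt A N * (x - y) = 0 := (hHV2 E (tt A N) hG hθ k).1 u u' x y hx hy
    obtain ⟨-, -, hadd, -, -, -, -, -, hker⟩ := hMTR.1 (A := A) (N := N)
    have h1 : co i (x - y) = 0 := hker _ h0 i hi
    have h2 := hadd (x - y) y i (by omega)
    rw [sub_add_cancel, h1, zero_add] at h2
    exact h2

end Pool.Agent.MG.G0
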