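import Pool.Agent.MG.G0.StmtsS

/-!
# One puncture: subalgebras of `A((τ))`, the element `z = τ^(-d)`, discriminants
-/

namespace Pool.Agent.MG.G0

section

variable {A B : Type} [CommRing A] [CommRing B]

/-- A subalgebra of `A((τ))` as a subalgebra of `KK Unit A`. -/
noncomputable def uno (R : Subalgebra A (LaurentSeries A)) : Subalgebra A (KK Unit A) :=
  R.comap (Pi.evalAlgHom A (fun _ : Unit => LaurentSeries A) ())

@[simp] theorem mem_uno {R : Subalgebra A (LaurentSeries A)} {f : KK Unit A} :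
    f ∈ uno R ↔ f () ∈ R := Iff.rfl

/-- A subalgebra of `KK Unit A` as a subalgebra of `A((τ))`. -/
noncomputable def duo (P : Subalgebra A (KK Unit A)) : Subalgebra A (LaurentSeries A) where
  carrier := {f | (fun _ => f) ∈ P}
  mul_mem' := fun ha hb => mul_mem (S := Subalgebra A (KK Unit A)) ha hb
  add_mem' := fun ha hb => add_mem (S := Subalgebra A (KK Unit A)) ha hb
  algebraMap_mem' a := P.algebraMap_mem a

theorem mem_duo {P : Subalgebra A (KK Unit A)} {f : LaurentSeries A} :
    f ∈ duo P ↔ (fun _ => f) ∈ P := Iff.rfl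

theorem uno_duo (P : Subalgebra A (KK Unit A)) : uno (duo P) = P := by
  ext f
  rfl

theorem duo_uno (R : Subalgebra A (LaurentSeries A)) : duo (uno R) = R := by
  ext f
  rfl

/-- The series with poles of order at most `n`. -/
noncomputable def Po (A : Type) [CommRing A] (n : ℤ) : Submodule A (LaurentSeries A) where
  carrier := {f | ∀ m < -n, f.coeff m = 0}
  add_mem' {f g} hf hg m hm := by rw [HahnSeries.coeff_add, hf m hm, hg m hm, add_zero]
  zero_mem' m _ := by rw [HahnSeries.coeff_zero]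
  smul_mem' a f hf m hm := by rw [HahnSeries.coeff_smul, hf m hm, smul_zero]

theorem mem_Po {n : ℤ} {f : LaurentSeries A} : f ∈ Po A n ↔ ∀ m < -n, f.coeff m = 0 := Iff.rfl

theorem mem_Pol_unit {n : ℤ} {f : KK Unit A} : f ∈ Pol Unit A n ↔ f () ∈ Po A n :=
  ⟨fun h => h (), fun h _ => h⟩

/-- Krichever rings with one puncture. -/
def Kr (g : ℕ) (R : Subalgebra A (LaurentSeries A)) : Prop := IsKr g (uno R)

theorem Kr_iff {g : ℕ} {R : Subalgebra A (LaurentSeries A)} : Kr g R ↔
    (∀ f ∈ R, f ∈ Po A 0 → ∃ a : A, f = algebraMap A (LaurentSeries A) a) ∧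
    ∃ L : LaurentSeries A →ₗ[A] (Fin g → A), Function.Surjective L ∧
      ∀ f, L f = 0 ↔ ∃ p ∈ R, f - p ∈ Po A 0 := by
  constructor
  · rintro ⟨h1, L, h2, h3⟩
    refine ⟨fun f hf hf0 => ?_, L ∘ₗ LinearMap.pi fun _ => LinearMap.id, fun c => ?_, fun f => ?_⟩
    · obtain ⟨a, ha⟩ := h1 (fun _ => f) hf (mem_Pol_unit.2 hf0)
      exact ⟨a, congrFun ha ()⟩
    · obtain ⟨f, hf⟩ := h2 c
      exact ⟨f (), hf⟩
    · have := h3 (fun _ => f)
      refine (Iff.trans (Iff.of_eq rfl) this).trans ?_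
      constructor
      · rintro ⟨p, hp, hq⟩
        exact ⟨p (), hp, mem_Pol_unit.1 hq⟩
      · rintro ⟨p, hp, hq⟩
        exact ⟨fun _ => p, hp, mem_Pol_unit.2 hq⟩
  · rintro ⟨h1, L, h2, h3⟩
    refine ⟨fun f hf hf0 => ?_, L ∘ₗ LinearMap.proj (), fun c => ?_, fun f => ?_⟩
    · obtain ⟨a, ha⟩ := h1 (f ()) hf (mem_Pol_unit.1 hf0)
      exact ⟨a, funext fun _ => ha⟩
    · obtain ⟨f, hf⟩ := h2 c
      exact ⟨fun _ => f, hf⟩
    · have := h3 (f ())
      refine (Iff.trans (Iff.of_eq rfl) this).trans ?_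
      constructor
      · rintro ⟨p, hp, hq⟩
        exact ⟨fun _ => p, hp, mem_Pol_unit.2 hq⟩
      · rintro ⟨p, hp, hq⟩
        exact ⟨p (), hp, mem_Pol_unit.1 hq⟩

/-- Base change of subalgebras of `A((τ))`. -/
noncomputable def bc1 (φ : A →+* B) (R : Subalgebra A (LaurentSeries A)) :
    Subalgebra B (LaurentSeries B) :=
  Algebra.adjoin B (lmap φ '' (R : Set (LaurentSeries A)))

theorem bc_uno (φ : A →+* B) (R : Subalgebra A (LaurentSeries A)) :
    bc φ (uno R) = uno (bc1 φ R) := by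
  apply le_antisymm
  · refine Algebra.adjoin_le ?_
    rintro _ ⟨f, hf, rfl⟩
    exact Algebra.subset_adjoin ⟨f (), hf, rfl⟩
  · have h : bc1 φ R ≤ duo (bc φ (uno R)) := by
      refine Algebra.adjoin_le ?_
      rintro _ ⟨f, hf, rfl⟩
      exact Algebra.subset_adjoin ⟨fun _ => f, hf, rfl⟩
    intro f hf
    exact h hf

/-! ## The element `z` -/

/-- `z = τ^(-d)`. -/
noncomputable def zz (A : Type) [CommRing A] (d : ℕ) : LaurentSeries A :=
  HahnSeries.single (-(d : ℤ)) 1

/-- `A[z] → A((τ))`. -/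
noncomputable def zpol (A : Type) [CommRing A] (d : ℕ) : Polynomial A →ₐ[A] LaurentSeries A :=
  Polynomial.aeval (zz A d)

theorem lmap_zz (φ : A →+* B) (d : ℕ) : lmap φ (zz A d) = zz B d := by
  rw [zz, lmap_single, map_one]
  rfl

theorem zz_mul_coeff (d : ℕ) (f : LaurentSeries A) (m : ℤ) :
    (zz A d * f).coeff m = f.coeff (m + d) := by
  have h : m = (m + d) + -(d : ℤ) := by ring
  rw [zz, mul_comm]
  nth_rewrite 1 [h]
  rw [HahnSeries.coeff_mul_single_add, mul_one]

theorem lmap_zpol (φ : A →+* B) (d : ℕ) (p : Polynomial A) :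
    lmap φ (zpol A d p) = zpol B d (p.map φ) := by
  have h : (lmap φ).comp (zpol A d : Polynomial A →+* LaurentSeries A) =
      ((zpol B d : Polynomial B →+* LaurentSeries B)).comp (Polynomial.mapRingHom φ) := by
    refine Polynomial.ringHom_ext ?_ ?_
    · intro a
      simp only [RingHom.comp_apply, RingHom.coe_coe, zpol, Polynomial.aeval_C,
        Polynomial.coe_mapRingHom, Polynomial.map_C, lmap_algebraMap]
    · simp only [RingHom.comp_apply, RingHom.coe_coe, zpol, Polynomial.aeval_X,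
        Polynomial.coe_mapRingHom, Polynomial.map_X, lmap_zz]
  exact congrArg (fun F => F p) h

/-- The projection to the series in `τ^d`. -/
noncomputable def pr0 (A : Type) [CommRing A] (d : ℕ) : LaurentSeries A →ₗ[A] LaurentSeries A where
  toFun f :=
    { coeff := fun m => if (d : ℤ) ∣ m then f.coeff m else 0
      isPWO_support' := f.isPWO_support.mono fun m hm => by
        simp only [Function.mem_support, ne_eq, ite_eq_right_iff, Classical.not_imp] at hm
        exact hm.2 }
  map_add' f g := by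
    ext m
    simp only [HahnSeries.coeff_add]
    split_ifs <;> simp
  map_smul' a f := by
    ext m
    simp only [HahnSeries.coeff_smul, RingHom.id_apply]
    split_ifs <;> simp

theorem pr0_coeff (d : ℕ) (f : LaurentSeries A) (m : ℤ) :
    (pr0 A d f).coeff m = if (d : ℤ) ∣ m then f.coeff m else 0 := rfl

theorem pr0_zz_mul (d : ℕ) (f : LaurentSeries A) : pr0 A d (zz A d * f) = zz A d * pr0 A d f := by
  ext m
  rw [pr0_coeff, zz_mul_coeff, zz_mul_coeff, pr0_coeff]
  have h : (d : ℤ) ∣ m + d ↔ (d : ℤ) ∣ m := by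
    rw [dvd_add_left (dvd_refl _)]
  simp only [h]

theorem pr0_zpol_mul (d : ℕ) (p : Polynomial A) (f : LaurentSeries A) :
    pr0 A d (zpol A d p * f) = zpol A d p * pr0 A d f := by
  induction p using Polynomial.induction_on' with
  | add p q hp hq => rw [map_add, add_mul, map_add, hp, hq, add_mul]
  | monomial n a =>
    have h : ∀ (n : ℕ) (f : LaurentSeries A), pr0 A d (zz A d ^ n * f) =
        zz A d ^ n * pr0 A d f := by
      intro n
      induction n with
      | zero => intro f; rw [pow_zero, one_mul, one_mul]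
      | succ n ih => intro f; rw [pow_succ, mul_assoc, ih, pr0_zz_mul, ← mul_assoc]
    rw [zpol, Polynomial.aeval_monomial, ← Algebra.smul_def, smul_mul_assoc, map_smul, h,
      smul_mul_assoc]

theorem lmap_pr0 (φ : A →+* B) (d : ℕ) (f : LaurentSeries A) :
    lmap φ (pr0 A d f) = pr0 B d (lmap φ f) := by
  ext m
  rw [lmap_coeff, pr0_coeff, pr0_coeff, lmap_coeff]
  split_ifs <;> simp

/-- `e` is a basis of `R` over `A[z]`. -/
structure ZBas (d : ℕ) (R : Subalgebra A (LaurentSeries A)) {ι : Type} [Fintype ι]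
    (e : ι → LaurentSeries A) : Prop where
  mem : ∀ i, e i ∈ R
  uni : ∀ x ∈ R, ∃! c : ι → Polynomial A, x = ∑ i, zpol A d (c i) * e i

/-- `G` is the Gram matrix `(pr₀(eᵢ eⱼ))` of `e`. -/
def ZGram (d : ℕ) {ι : Type} (e : ι → LaurentSeries A) (G : Matrix ι ι (Polynomial A)) : Prop :=
  ∀ i j, zpol A d (G i j) = pr0 A d (e i * e j)

/-- `Disc(R, f)`: `R` has a basis over `A[z]` with Gram determinant a unit times `f`. -/
def Disc (d : ℕ) (R : Subalgebra A (LaurentSeries A)) (f : Polynomial A) : Prop :=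
  ∃ (e : Fin d → LaurentSeries A) (G : Matrix (Fin d) (Fin d) (Polynomial A)),
    ZBas d R e ∧ ZGram d e G ∧ ∃ u : Polynomial A, IsUnit u ∧ G.det = u * f

end

/-! ## One puncture: differentials and vector fields -/

section

variable {A : Type} [CommRing A]

/-- The regular differentials of a Krichever ring with one puncture. -/
noncomputable def EE1 (R : Subalgebra A (LaurentSeries A)) : Submodule A (LaurentSeries A) where
  carrier := {η | (∀ p ∈ R, (η * p).coeff (-1) = 0) ∧ η ∈ Po A 0}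
  add_mem' {x y} hx hy := ⟨fun p hp => by
    rw [add_mul, HahnSeries.coeff_add, hx.1 p hp, hy.1 p hp, add_zero], add_mem hx.2 hy.2⟩
  zero_mem' := ⟨fun p _ => by rw [zero_mul, HahnSeries.coeff_zero], zero_mem _⟩
  smul_mem' a x hx := ⟨fun p hp => by
    rw [smul_mul_assoc, HahnSeries.coeff_smul, hx.1 p hp, smul_zero], Submodule.smul_mem _ a hx.2⟩

theorem mem_EE1 {R : Subalgebra A (LaurentSeries A)} {η : LaurentSeries A} :
    η ∈ EE1 R ↔ (∀ p ∈ R, (η * p).coeff (-1) = 0) ∧ η ∈ Po A 0 := Iff.rfl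

/-- The vector fields of a Krichever ring with one puncture. -/
noncomputable def TT1 (R : Subalgebra A (LaurentSeries A)) : Submodule A (LaurentSeries A) where
  carrier := {θ | ∀ f ∈ R, θ * ld f ∈ R}
  add_mem' {x y} hx hy f hf := by
    rw [add_mul]
    exact add_mem (hx f hf) (hy f hf)
  zero_mem' f _ := by
    rw [zero_mul]
    exact zero_mem R
  smul_mem' a x hx f hf := by
    rw [smul_mul_assoc]
    exact R.smul_mem (hx f hf) a

theorem mem_TT1 {R : Subalgebra A (LaurentSeries A)} {θ : LaurentSeries A} :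
    θ ∈ TT1 R ↔ ∀ f ∈ R, θ * ld f ∈ R := Iff.rfl

theorem mem_TT_uno {R : Subalgebra A (LaurentSeries A)} {θ : KK Unit A} :
    θ ∈ TT (uno R) ↔ θ () ∈ TT1 R :=
  ⟨fun h f hf => h (fun _ => f) hf, fun h f hf => h (f ()) hf⟩

theorem res_unit (f : KK Unit A) : res f = (f ()).coeff (-1) :=
  Fintype.sum_unique fun i => (f i).coeff (-1)

theorem mem_EE_uno {R : Subalgebra A (LaurentSeries A)} {η : KK Unit A} :
    η ∈ EE (uno R) ↔ η () ∈ EE1 R := by
  constructor
  · rintro ⟨h1, h2⟩
    exact ⟨fun p hp => (res_unit _).symm.trans (h1 (fun _ => p) hp), mem_Pol_unit.1 h2⟩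
  · rintro ⟨h1, h2⟩
    exact ⟨fun p hp => (res_unit _).trans (h1 (p ()) hp), mem_Pol_unit.2 h2⟩

end

end Pool.Agent.MG.G0
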