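import Pool.Agent.MG.G0.StmtsCQ

/-!
# Module POF: polarisation and forgetting punctures
-/

open TensorProduct

namespace Pool.Agent.MG.G0

namespace POFm

section

variable {I J : Type} [Fintype I] [Fintype J] {A B : Type} [CommRing A] [CommRing B]

theorem res_sum (f : KK (I ⊕ J) A) : res f = res (atI f) + res (atJ f) :=
  Fintype.sum_sum_type fun i => (f i).coeff (-1)

/-- The functionals of related quadratic differentials agree on related deformations. -/
theorem Lq_eq {P : Subalgebra A (KK I A)} {W : Subalgebra A (KK (I ⊕ J) A)} {D : DD P}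
    {E : DD W} (hDE : RelF D E) {z : QD P × QD W} (hz : z ∈ QF P W) :
    Lq W z.2 E = Lq P z.1 D := by
  refine Submodule.span_induction (p := fun z _ => Lq W z.2 E = Lq P z.1 D) ?_ ?_ ?_ ?_ hz
  · rintro _ ⟨x, g, x', g', hx, hxJ, hg, hgJ, rfl⟩
    change Lq W (x' ⊗ₜ[A] g') E = Lq P (x ⊗ₜ[A] g) D
    obtain ⟨h, hE, hJ, hD⟩ := hDE g g' (fun i => congrFun hg i) (fun j m hm => hgJ j m (by omega))
    rw [Lq_tmul, Lq_tmul, hE, hD, rq_mk, rq_mk, res_sum]
    have h1 : res (atJ ((x' : KK (I ⊕ J) A) * h)) = 0 := by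
      apply res_Pol0
      exact mul_mem_Pol0 (f := atJ (x' : KK (I ⊕ J) A)) (g := atJ h) hxJ
        (fun j m hm => hJ j m (by omega))
    rw [h1, add_zero, ← hx]
    rfl
  · change Lq W 0 E = Lq P 0 D
    rw [map_zero, map_zero]
    rfl
  · intro a b _ _ ha hb
    change Lq W (a.2 + b.2) E = Lq P (a.1 + b.1) D
    rw [map_add, map_add, LinearMap.add_apply, LinearMap.add_apply, ha, hb]
  · intro c a _ ha
    change Lq W (c • a.2) E = Lq P (c • a.1) D
    rw [map_smul, map_smul, LinearMap.smul_apply, LinearMap.smul_apply, ha]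

omit [Fintype I] [Fintype J] in
theorem atI_kmap (φ : A →+* B) (f : KK (I ⊕ J) A) : atI (kmap φ f) = kmap φ (atI f) := rfl

omit [Fintype I] [Fintype J] in
theorem atJ_kmap (φ : A →+* B) (f : KK (I ⊕ J) A) : atJ (kmap φ f) = kmap φ (atJ f) := rfl

/-- Base change of related quadratic differentials. -/
theorem bcQ_mem (φ : A →+* B) {P : Subalgebra A (KK I A)} {W : Subalgebra A (KK (I ⊕ J) A)}
    {z : QD P × QD W} (hz : z ∈ QF P W) :
    (bcQ φ P z.1, bcQ φ W z.2) ∈ QF (bc φ P) (bc φ W) := by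
  refine Submodule.span_induction
    (p := fun z _ => (bcQ φ P z.1, bcQ φ W z.2) ∈ QF (bc φ P) (bc φ W)) ?_ ?_ ?_ ?_ hz
  · rintro _ ⟨x, g, x', g', hx, hxJ, hg, hgJ, rfl⟩
    change (bcQ φ P (x ⊗ₜ[A] g), bcQ φ W (x' ⊗ₜ[A] g')) ∈ _
    rw [bcQ_tmul, bcQ_tmul]
    refine Submodule.subset_span ⟨_, _, _, _, ?_, ?_, ?_, ?_, rfl⟩
    · change atI (kmap φ (x' : KK (I ⊕ J) A)) = kmap φ (x : KK I A)
      rw [atI_kmap, hx]
    · change atJ (kmap φ (x' : KK (I ⊕ J) A)) ∈ _
      rw [atJ_kmap]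
      exact kmap_mem_Pol φ hxJ
    · change atI (kmap φ (g' : KK (I ⊕ J) A)) = kmap φ (g : KK I A)
      rw [atI_kmap, hg]
    · change atJ (kmap φ (g' : KK (I ⊕ J) A)) ∈ _
      rw [atJ_kmap]
      exact kmap_mem_Pol φ hgJ
  · change (bcQ φ P 0, bcQ φ W 0) ∈ _
    rw [map_zero, map_zero]
    exact zero_mem _
  · intro a b _ _ ha hb
    change (bcQ φ P (a.1 + b.1), bcQ φ W (a.2 + b.2)) ∈ _
    rw [map_add, map_add]
    exact add_mem ha hb
  · intro c a _ ha
    change (bcQ φ P (c • a.1), bcQ φ W (c • a.2)) ∈ _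
    rw [map_smulₛₗ, map_smulₛₗ]
    exact Submodule.smul_mem _ (φ c) ha

end

end POFm

open POFm in
theorem t_POF (hPFB : Stmt_PFB) (hGBC : Stmt_GBC) : Stmt_POF := by
  intro g E I J A _ _ _ _ _ P W hW hP hF k q q' hq
  have hPe := hF.eq
  subst hPe
  obtain ⟨-, -, h3⟩ := hPFB hW.1 hF.dns
  obtain ⟨hdn, hbc, -⟩ := h3 (MvPolynomial.C (R := A) (σ := Fin k))
  have hW' := hGBC (MvPolynomial.C (R := A) (σ := Fin k)) g W hW
  have hP' := hGBC (MvPolynomial.C (R := A) (σ := Fin k)) g (Rem W) hP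
  change MvPolynomial.coeff (ones k) _ = MvPolynomial.coeff (ones k) _
  congr 1
  refine E.forget _ _ hW' hP' hbc hdn _ _ ?_
  intro D F hDF
  rw [cov_apply, cov_apply]
  have hmem : (((∑ i, (MvPolynomial.X i : MvPolynomial (Fin k) A) •
        bcR (MvPolynomial.C : A →+* MvPolynomial (Fin k) A) (Rem W) (q i) :
          QR (bc (MvPolynomial.C : A →+* MvPolynomial (Fin k) A) (Rem W))) : QD _),
      ((∑ i, (MvPolynomial.X i : MvPolynomial (Fin k) A) •
        bcR (MvPolynomial.C : A →+* MvPolynomial (Fin k) A) W (q' i) :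
          QR (bc (MvPolynomial.C : A →+* MvPolynomial (Fin k) A) W)) : QD _)) ∈
      QF (bc (MvPolynomial.C (R := A) (σ := Fin k)) (Rem W))
        (bc (MvPolynomial.C (R := A) (σ := Fin k)) W) := by
    rw [AddSubmonoidClass.coe_finsetSum, AddSubmonoidClass.coe_finsetSum, prod_mk_sum]
    refine Submodule.sum_mem _ fun i _ => ?_
    exact Submodule.smul_mem _ (MvPolynomial.X i : MvPolynomial (Fin k) A)
      (bcQ_mem (MvPolynomial.C (R := A) (σ := Fin k)) (hq i))
  exact Lq_eq hDF hmem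

end Pool.Agent.MG.G0
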