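import Pool.Agent.MG.G0.Cut

/-!
# Plumbing (PAPER.md, LOG): definitions
-/

namespace Pool.Agent.MG.G0

section

variable {A : Type} [CommRing A]

/-- `F = (f, g)` is a function on the annulus `u v = t`: `f_{-j} = t^j g_j`, `g_{-j} = t^j f_j`. -/
def InNt (t : A) (F : KK Bool A) : Prop :=
  ∀ (b : Bool) (j : ℕ), (F b).coeff (-(j : ℤ)) = t ^ j * (F (!b)).coeff j

theorem InNt.mul {t : A} {F G : KK Bool A} (hF : InNt t F) (hG : InNt t G) : InNt t (F * G) := by
  intro b j
  obtain ⟨N, hN⟩ := exists_Pol F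
  obtain ⟨M, hM⟩ := exists_Pol G
  set K : ℤ := max N M with hK
  have f1 : ∀ b, ∀ m < -K, (F b).coeff m = 0 := fun b m hm => hN b m (by omega)
  have g1 : ∀ b, ∀ m < -K, (G b).coeff m = 0 := fun b m hm => hM b m (by omega)
  have key : ∀ i : ℤ, (F b).coeff i * (G b).coeff (-(j : ℤ) - i) =
      t ^ j * ((F (!b)).coeff (-i) * (G (!b)).coeff (j - -i)) := by
    intro i
    have e : (j : ℤ) - -i = j + i := by ring
    rw [e]
    rcases le_total 0 i with h | h
    · obtain ⟨a, rfl⟩ := Int.eq_ofNat_of_zero_le h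
      have h1 := hF (!b) a
      rw [Bool.not_not] at h1
      have h2 := hG b (j + a)
      have e2 : -(j : ℤ) - (a : ℤ) = -((j + a : ℕ) : ℤ) := by push_cast; ring
      have e3 : (j : ℤ) + (a : ℤ) = ((j + a : ℕ) : ℤ) := by push_cast; ring
      rw [e2, h2, h1, e3, pow_add]
      ring
    · obtain ⟨a, ha⟩ := Int.eq_ofNat_of_zero_le (neg_nonneg.2 h)
      have hi : i = -(a : ℤ) := by omega
      subst hi
      have h1 := hF b a
      rcases le_total (j : ℤ) a with h3 | h3
      · obtain ⟨c, hc⟩ := Int.eq_ofNat_of_zero_le (sub_nonneg.2 h3)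
        have h2 := hG (!b) c
        rw [Bool.not_not] at h2
        have e2 : -(j : ℤ) - -(a : ℤ) = (c : ℤ) := by omega
        have e3 : (j : ℤ) + -(a : ℤ) = -(c : ℤ) := by omega
        have e4 : a = j + c := by omega
        rw [e2, h1, neg_neg, e3, h2, e4, pow_add]
        ring
      · obtain ⟨c, hc⟩ := Int.eq_ofNat_of_zero_le (sub_nonneg.2 h3)
        have h2 := hG b c
        have e2 : -(j : ℤ) - -(a : ℤ) = -(c : ℤ) := by omega
        have e3 : (j : ℤ) + -(a : ℤ) = (c : ℤ) := by omega
        have e4 : j = a + c := by omega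
        rw [e2, h1, neg_neg, e3, h2, e4, pow_add]
        ring
  rw [Pi.mul_apply, Pi.mul_apply, coeff_mul_Icc (f1 b) (g1 b), coeff_mul_Icc (f1 (!b)) (g1 (!b)),
    Finset.mul_sum]
  have s1 : ∑ i ∈ Finset.Icc (-K) (-(j : ℤ) - -K), (F b).coeff i * (G b).coeff (-(j : ℤ) - i) =
      ∑ i ∈ Finset.Icc (-(j : ℤ) - K) K, (F b).coeff i * (G b).coeff (-(j : ℤ) - i) := by
    refine Finset.sum_subset (fun i hi => ?_) fun i hi hi' => ?_
    · simp only [Finset.mem_Icc] at hi ⊢
      omega
    · simp only [Finset.mem_Icc] at hi hi'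
      rcases lt_or_ge i (-K) with h | h
      · rw [f1 b i h, zero_mul]
      · rw [g1 b _ (by omega), mul_zero]
  rw [s1]
  refine Finset.sum_nbij' (fun i => -i) (fun i => -i) ?_ ?_ ?_ ?_ ?_
  · intro i hi
    simp only [Finset.mem_Icc] at hi ⊢
    omega
  · intro i hi
    simp only [Finset.mem_Icc] at hi ⊢
    omega
  · intro i _
    exact neg_neg i
  · intro i _
    exact neg_neg i
  · intro i _
    exact key i

/-- The functions on the annulus `u v = t`. -/
def Nt (t : A) : Subalgebra A (KK Bool A) where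
  carrier := {F | InNt t F}
  mul_mem' hF hG := hF.mul hG
  add_mem' {F G} hF hG b j := by
    rw [Pi.add_apply, HahnSeries.coeff_add, hF b j, hG b j, Pi.add_apply, HahnSeries.coeff_add,
      mul_add]
  algebraMap_mem' a b j := by
    rw [Pi.algebraMap_apply, Pi.algebraMap_apply, coeff_algebraMap, coeff_algebraMap]
    by_cases h : j = 0
    · subst h
      simp
    · rw [if_neg (by omega), if_neg (by omega), mul_zero]

theorem mem_Nt {t : A} {F : KK Bool A} :
    F ∈ Nt t ↔ ∀ (b : Bool) (j : ℕ), (F b).coeff (-(j : ℤ)) = t ^ j * (F (!b)).coeff j := Iff.rfl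

/-- The components at the old punctures. -/
def atI {I J : Type} (w : KK (I ⊕ J) A) : KK I A := fun i => w (Sum.inl i)

/-- The components at the new punctures. -/
def atJ {I J : Type} (w : KK (I ⊕ J) A) : KK J A := fun j => w (Sum.inr j)

/-- The plumbed ring `P_t`: the functions on the curve which is obtained by plumbing the two
formal points of `R` with the annulus `u v = t`. -/
def PT {I : Type} {R : Subalgebra A (KK I A)} (pt : Bool → FPt R) (t : A) :
    Subalgebra A (KK I A) where
  carrier := {f | ∃ w ∈ WJ pt, atI w = f ∧ atJ w ∈ Nt t}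
  mul_mem' := by
    rintro f g ⟨w, hw, rfl, h⟩ ⟨v, hv, rfl, h'⟩
    exact ⟨w * v, mul_mem hw hv, rfl, mul_mem h h'⟩
  add_mem' := by
    rintro f g ⟨w, hw, rfl, h⟩ ⟨v, hv, rfl, h'⟩
    exact ⟨w + v, add_mem hw hv, rfl, add_mem h h'⟩
  algebraMap_mem' a := ⟨algebraMap A _ a, (WJ pt).algebraMap_mem a, rfl,
    (Nt t).algebraMap_mem a⟩

theorem mem_PT {I : Type} {R : Subalgebra A (KK I A)} {pt : Bool → FPt R} {t : A} {f : KK I A} :
    f ∈ PT pt t ↔ ∃ w ∈ WJ pt, atI w = f ∧ atJ w ∈ Nt t := Iff.rfl

/-- Rescaling of the parameter of a formal point: `u ↦ c u`. -/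
noncomputable def FPt.resc {I : Type} {R : Subalgebra A (KK I A)} (p : FPt R) (c : Aˣ) :
    FPt R where
  h :=
    { toRingHom := (PowerSeries.rescale (c : A)).comp (p.h : R →+* PowerSeries A)
      commutes' := fun a => by
        change PowerSeries.rescale (c : A) (p.h (algebraMap A R a)) = _
        rw [AlgHom.commutes]
        ext n
        rw [PowerSeries.coeff_rescale, PowerSeries.algebraMap_apply, Algebra.algebraMap_self,
          RingHom.id_apply, PowerSeries.coeff_C]
        split_ifs with h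
        · rw [h, pow_zero, one_mul]
        · rw [mul_zero] }
  x := p.x
  par := by
    change IsUnit (PowerSeries.coeff 1 (PowerSeries.rescale (c : A) (p.h p.x)))
    rw [PowerSeries.coeff_rescale, pow_one]
    exact c.isUnit.mul p.par

/-- The functions `u` (`b = true`) and `v` (`b = false`) on the annulus `u v = t`. -/
noncomputable def uv (t : A) (b : Bool) : KK Bool A := fun b' =>
  if b' = b then HahnSeries.single 1 1 else HahnSeries.single (-1) t

/-- The differential `du / u = - dv / v`. -/
noncomputable def vp (A : Type) [CommRing A] : KK Bool A := fun b =>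
  HahnSeries.single (-1) (if b then 1 else -1)

/-- `G` is the derivative of the function `F` on the annulus with respect to the variable `u`
(`b = true`) or `v` (`b = false`): for `F = ∑ a_j u^j + ∑ b_j v^j` the derivatives are
`∑ j a_j u^(j-1)` and `∑ j b_j v^(j-1)`. -/
structure IsPd (t : A) (b : Bool) (F G : KK Bool A) : Prop where
  mem : G ∈ Nt t
  pos : ∀ m : ℕ, (G b).coeff m = (m + 1 : A) * (F b).coeff (m + 1)
  neg : ∀ m : ℕ, 1 ≤ m → (G (!b)).coeff m = 0

/-- A derivation of `P` with values in `KK/P`, lifted to a map with values in `KK`. -/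
structure RDer {I : Type} (P : Subalgebra A (KK I A)) (D : P → KK I A) : Prop where
  add : ∀ f g : P, D (f + g) - D f - D g ∈ P
  smul : ∀ (a : A) (f : P), D (a • f) - a • D f ∈ P
  mul : ∀ f g : P, D (f * g) - (f : KK I A) * D g - (g : KK I A) * D f ∈ P

/-- `ρ` is the residue of the differential `η` (regular on the nodal curve `u v = 0`) at the first
formal point. -/
def IsRho {I : Type} [Fintype I] {R : Subalgebra A (KK I A)} (pt : Bool → FPt R) (η : KK I A)
    (ρ : A) : Prop :=
  ∀ r : R, res (η * (r : KK I A)) = -(ρ * ((pt true).ev r - (pt false).ev r))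

/-- The formal point `p'` of `P` is the restriction of the formal point `p` of `Q`. -/
def FPt.Rs {I J : Type} {Q : Subalgebra A (KK (I ⊕ J) A)} {P : Subalgebra A (KK I A)} (p : FPt Q)
    (p' : FPt P) : Prop :=
  ∀ (w : Q) (f : P), atI (w : KK (I ⊕ J) A) = f → atJ (w : KK (I ⊕ J) A) ∈ Pol J A 0 →
    p'.h f = p.h w

end

end Pool.Agent.MG.G0
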