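import Pool.Agent.MG.G0.StmtsNP

/-!
# The local structure at a node over an artinian base: statements (PAPER_NB.md)
-/

open Polynomial

namespace Pool.Agent.MG.G0

/-- `A[z] → A((s))`, `z ↦ c + s`. -/
noncomputable def zev {A : Type} [CommRing A] (c : A) : A[X] →ₐ[A] LaurentSeries A :=
  Polynomial.aeval (algebraMap A (LaurentSeries A) c + HahnSeries.single 1 1)

/-- NEL: étale lifting. -/
def Stmt_NEL : Prop :=
  ∀ {Λ P B C ι : Type} [CommRing Λ] [CommRing P] [CommRing B] [CommRing C] [Fintype ι]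
    (i : Λ →+* P) (φ : Λ →+* B) (e c : ι → P) (q : P) (ρ : B →+* C) (ψ : P →+* C),
    (∀ x : P, ∃! a : ι → Λ, x = ∑ k, i (a k) * e k) → ∑ k, e k * c k = q →
    (∀ (x : P) (H : ι → ι → Λ), (∀ k, x * e k = ∑ l, i (H l k) * e l) →
      ∀ l, x * c l = ∑ k, i (H l k) * c k) →
    Function.Surjective ρ → (∃ n : ℕ, RingHom.ker ρ ^ n = ⊥) → (∀ a : Λ, ψ (i a) = ρ (φ a)) →
    IsUnit (ψ q) → ∃ Ψ : P →+* B, (∀ a, Ψ (i a) = φ a) ∧ ∀ x, ρ (Ψ x) = ψ x

/-- NDB: the dual basis over a ring. -/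
def Stmt_NDB : Prop :=
  ∀ {A : Type} [CommRing A] {g d : ℕ}, 0 < d → ∀ P : Subalgebra A (LaurentSeries A), Kr g P →
    zz A d ∈ P → ∀ (e : Fin d → LaurentSeries A) (G : Matrix (Fin d) (Fin d) A[X]),
    ZBas d P e → ZGram d e G → ∃ c : Fin d → LaurentSeries A, (∀ k, c k ∈ P) ∧
      ∑ k, e k * c k = (d : LaurentSeries A) * zpol A d G.det ∧
      ∀ x ∈ P, ∀ H : Fin d → Fin d → A[X], (∀ k, x * e k = ∑ l, zpol A d (H l k) * e l) →
        ∀ l, x * c l = ∑ k, zpol A d (H l k) * c k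

/-- NLI: expansions over `z ↦ c + s` lift. -/
def Stmt_NLI : Prop :=
  ∀ {κ A : Type} [Field κ] [CommRing A] [Algebra κ A] (rs : A →ₐ[κ] κ) {g d : ℕ}
    {P : Subalgebra A (LaurentSeries A)} {f : A[X]} {s : A},
    (∃ n : ℕ, RingHom.ker (rs : A →+* κ) ^ n = ⊥) → 0 < d → ((d : ℕ) : κ) ≠ 0 → Kr g P →
    zz A d ∈ P → Disc d P f → f.map (rs : A →+* κ) ≠ 0 → ∀ ψ : P →+* LaurentSeries κ,
    (∀ (a : A[X]) (z : P), (z : LaurentSeries A) = zpol A d a →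
      ψ z = zev (rs s) (a.map (rs : A →+* κ))) →
    ∃ Ψ : P →+* LaurentSeries A,
      (∀ (a : A[X]) (z : P), (z : LaurentSeries A) = zpol A d a → Ψ z = zev s a) ∧
      ∀ x, lmap (rs : A →+* κ) (Ψ x) = ψ x

/-- NSG: the substitution `s ↦ u + t/u`. -/
def Stmt_NSG : Prop :=
  ∀ {A : Type} [CommRing A] (t : A), IsNilpotent t → ∃ σ : LaurentSeries A ≃ₐ[A] LaurentSeries A,
    σ (HahnSeries.single 1 1) = HahnSeries.single 1 1 + HahnSeries.single (-1) t ∧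
    (∀ a : PowerSeries A, (fun _ : Bool => σ (psl A a)) ∈ Nt t) ∧
    ∀ {B : Type} [CommRing B] (φ : A →+* B), φ t = 0 → ∀ x, lmap φ (σ x) = lmap φ x

/-- NQY: the elements `q` and `y` at the node, over a field. -/
def Stmt_NQY : Prop :=
  ∀ {I κ : Type} [Fintype I] [Nonempty I] [Field κ] {g : ℕ} {R : Subalgebra κ (KK I κ)}
    {pt : Bool → FPt R} {c : κ} (z : R), (2 : κ) ≠ 0 → IsKr g R → SmC κ R → Disj pt →
    (∀ b, (pt b).h z = PowerSeries.C c + PowerSeries.X) →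
    ∃ q y : R, (∀ b, (pt b).ev q = 1) ∧ (∀ b, (pt b).ev y = 0) ∧
      PowerSeries.coeff 1 ((pt true).h y) = 1 ∧ PowerSeries.coeff 1 ((pt false).h y) = -1 ∧
      ∀ x : R, (pt true).ev x = (pt false).ev x → ∃ (α β : κ) (r : R),
        (pt true).ev r = (pt false).ev r ∧
        q * (x - algebraMap κ R α - β • y) = (z - algebraMap κ R c) * r

/-- NKE: surjective base change: lifts, and the elements of `P` with zero reduction. -/
def Stmt_NKE : Prop :=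
  ∀ {A B : Type} [CommRing A] [CommRing B] (φ : A →+* B) {g : ℕ}
    {P : Subalgebra A (LaurentSeries A)}, Function.Surjective φ → Kr g P →
    (∀ x ∈ bc1 φ P, ∃ p ∈ P, lmap φ p = x) ∧
    ∀ p ∈ P, lmap φ p = 0 → ∃ (n : ℕ) (μ : Fin n → A) (r : Fin n → LaurentSeries A),
      (∀ k, φ (μ k) = 0) ∧ (∀ k, r k ∈ P) ∧ p = ∑ k, μ k • r k

/-- NNK: the local ring at the node has the basis `1`, `y` over `A[[s]]`. -/
def Stmt_NNK : Prop :=
  ∀ {κ A : Type} [Field κ] [CommRing A] (rs : A →+* κ) {d : ℕ}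
    {P : Subalgebra A (LaurentSeries A)} {s : A} {e : Fin d → LaurentSeries A}
    (Ψ : Bool → (P →+* LaurentSeries A)) (q y z : P), Function.Surjective rs →
    (∃ n : ℕ, RingHom.ker rs ^ n = ⊥) → (2 : κ) ≠ 0 → (z : LaurentSeries A) = zz A d →
    ZBas d P e → (∀ (b : Bool) (a : A[X]) (x : P), (x : LaurentSeries A) = zpol A d a →
      Ψ b x = zev s a) →
    (∀ x : P, ∃ a : Bool → PowerSeries κ,
      PowerSeries.constantCoeff (a true) = PowerSeries.constantCoeff (a false) ∧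
      ∀ b, lmap rs (Ψ b x) = psl κ (a b)) →
    (∀ b, (lmap rs (Ψ b q)).coeff 0 = 1) → (∀ b, (lmap rs (Ψ b y)).coeff 0 = 0) →
    (lmap rs (Ψ true y)).coeff 1 = 1 → (lmap rs (Ψ false y)).coeff 1 = -1 →
    (∀ x : P, ∃ (α β : A) (r : P) (n : ℕ) (μ : Fin n → A) (p : Fin n → P),
      (∀ k, rs (μ k) = 0) ∧ q * (x - algebraMap A P α - β • y) =
        (z - algebraMap A P s) * r + ∑ k, μ k • p k) →
    ∀ x : P, ∃ a b : PowerSeries A, ∀ β : Bool, Ψ β x = psl A a + psl A b * Ψ β y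

/-- NCO: the discriminant of the local ring at the node. -/
def Stmt_NCO : Prop :=
  ∀ {P B ι : Type} [CommRing P] [CommRing B] [Fintype ι] (B₀ : Subring B) (L : Subring P)
    (Ψ : Bool → (P →+* B)) (e c : ι → P) (D y : P), (∀ x ∈ L, Ψ true x = Ψ false x) →
    (∀ x : P, ∃ a : ι → P, (∀ k, a k ∈ L) ∧ x = ∑ k, a k * e k) →
    (∀ (x : P) (H : ι → ι → P), (∀ k l, H k l ∈ L) → (∀ k, x * e k = ∑ l, H l k * e l) →
      ∀ l, x * c l = ∑ k, H l k * c k) →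
    ∑ k, e k * c k = D → D ∈ L →
    (∀ x : P, ∃ a b : B, a ∈ B₀ ∧ b ∈ B₀ ∧ ∀ β, Ψ β x = a + b * Ψ β y) →
    IsUnit (Ψ true y - Ψ false y) →
    Ψ true y + Ψ false y ∈ B₀ ∧ ∃ β ∈ B₀, 2 * Ψ true D = β * (Ψ true y - Ψ false y) ^ 2

/-- NPO: a Laurent series whose square has no pole. -/
def Stmt_NPO : Prop :=
  ∀ {A κ : Type} [CommRing A] [Field κ] (rs : A →+* κ), Function.Surjective rs →
    (∃ n : ℕ, RingHom.ker rs ^ n = ⊥) → (2 : κ) ≠ 0 → ∀ x : LaurentSeries A,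
    x * x ∈ Po A 0 → lmap rs x ∈ Po κ 0 → (lmap rs x).coeff 0 ≠ 0 → x ∈ Po A 0

end Pool.Agent.MG.G0
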