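import Pool.Agent.MG.G0.Plumb

/-!
# Theorem G: functions of two formal points (PAPER_TG.md, abstract part)
-/

open TensorProduct

namespace Pool.Agent.MG.G0

/-- Laurent series over a `B`-algebra. -/
noncomputable instance (priority := 4500) lsB (B S : Type) [CommRing B] [CommRing S]
    [Algebra B S] : Algebra B (LaurentSeries S) :=
  HahnSeries.instAlgebra

theorem lsB_algebraMap {B S : Type} [CommRing B] [CommRing S] [Algebra B S] (b : B) :
    algebraMap B (LaurentSeries S) b = HahnSeries.C (algebraMap B S b) := rfl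

/-- The coefficientwise application of a homomorphism of `B`-algebras. -/
noncomputable def lmapB {B S T : Type} [CommRing B] [CommRing S] [CommRing T] [Algebra B S]
    [Algebra B T] (i : S →ₐ[B] T) : LaurentSeries S →ₐ[B] LaurentSeries T :=
  { toRingHom := lmap (i : S →+* T)
    commutes' := fun b => by
      change lmap (i : S →+* T) (algebraMap B _ b) = _
      rw [lsB_algebraMap, lsB_algebraMap]
      ext n
      rw [lmap_coeff, HahnSeries.C_apply, HahnSeries.C_apply]
      by_cases h : n = 0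
      · subst h
        simp
      · rw [HahnSeries.coeff_single_of_ne h, HahnSeries.coeff_single_of_ne h, map_zero] }

@[simp] theorem lmapB_coeff {B S T : Type} [CommRing B] [CommRing S] [CommRing T] [Algebra B S]
    [Algebra B T] (i : S →ₐ[B] T) (f : LaurentSeries S) (n : ℤ) :
    (lmapB i f).coeff n = i (f.coeff n) := rfl

/-! ## Charts and formal points -/

/-- `x` is a coordinate of the `B`-algebra `S`: `Δ x = 1` and `df = Δ(f) dx`. -/
structure IsChart (B S : Type) [CommRing B] [CommRing S] [Algebra B S] (x : S)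
    (Δ : Derivation B S S) : Prop where
  one : Δ x = 1
  gen : ∀ f : S, KaehlerDifferential.D B S f = Δ f • KaehlerDifferential.D B S x

/-- The extension of `q : S → A` to `A ⊗ S`. -/
noncomputable def exq {B S A : Type} [CommRing B] [CommRing S] [CommRing A] [Algebra B S]
    [Algebra B A] (q : S →ₐ[B] A) : A ⊗[B] S →ₐ[A] A :=
  Algebra.TensorProduct.lift (AlgHom.id A A) q fun _ _ => Commute.all _ _

/-- The map `A ⊗ S → A ⊗ T` given by `i : S → T`. -/
noncomputable def tmp (A : Type) {B S T : Type} [CommRing B] [CommRing S] [CommRing T]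
    [CommRing A] [Algebra B S] [Algebra B T] [Algebra B A] (i : S →ₐ[B] T) :
    A ⊗[B] S →ₐ[A] A ⊗[B] T :=
  Algebra.TensorProduct.map (AlgHom.id A A) i

/-- The coefficients of a power series in formal variables: the series
`u + α_(b,0) u^2 + α_(b,1) u^3 + ...`. -/
noncomputable def gs (A : Type) [CommRing A] (b : Bool) :
    PowerSeries (MvPolynomial (Bool × ℕ) A) :=
  PowerSeries.mk fun n => if n = 0 then 0 else if n = 1 then 1 else MvPolynomial.X (b, n - 2)

/-- The part of the weight of a monomial which belongs to the variables `(b, i)` (of weight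
`i + 1`). -/
noncomputable def wtb (b : Bool) (m : (Bool × ℕ) →₀ ℕ) : ℕ :=
  m.sum fun v k => if v.1 = b then k * (v.2 + 1) else 0

/-- The weight of a monomial. -/
noncomputable def wt (m : (Bool × ℕ) →₀ ℕ) : ℕ := wtb true m + wtb false m

/-- The points `p`, `q` are disjoint. -/
def DisjP {B S A : Type} [CommRing B] [CommRing S] [CommRing A] [Algebra B S] [Algebra B A]
    (p q : S →ₐ[B] A) : Prop :=
  Ideal.span (Set.range fun f : S => p f - q f) = ⊤

/-- `h` is the formal point with constant part `p` and `h x = p(x) + u + α_(b,0) u^2 + ...`. -/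
def IsUP {B S A : Type} [CommRing B] [CommRing S] [CommRing A] [Algebra B S] [Algebra B A]
    (x : S) (b : Bool) (p : S →ₐ[B] A)
    (h : S →ₐ[B] PowerSeries (MvPolynomial (Bool × ℕ) A)) : Prop :=
  (∀ f, PowerSeries.constantCoeff (h f) = MvPolynomial.C (p f)) ∧
    h x = PowerSeries.C (MvPolynomial.C (p x)) + gs A b

/-- A pair of formal points with disjoint constant parts. -/
def VPair {B S A : Type} [CommRing B] [CommRing S] [CommRing A] [Algebra B S] [Algebra B A]
    (x : S) (h k : S →ₐ[B] PowerSeries A) : Prop :=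
  IsUnit (PowerSeries.coeff 1 (h x)) ∧ IsUnit (PowerSeries.coeff 1 (k x)) ∧
    Ideal.span (Set.range fun f : S =>
      PowerSeries.constantCoeff (h f) - PowerSeries.constantCoeff (k f)) = ⊤

/-! ## Two charts without vector fields -/

/-- A curve of genus at least two with two charts `S true`, `S false` and their intersection
`T`. -/
structure TGD (B : Type) [CommRing B] (S : Bool → Type) [∀ j, CommRing (S j)]
    [∀ j, Algebra B (S j)] (T : Type) [CommRing T] [Algebra B T] where
  /-- the coordinates -/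
  x : ∀ j, S j
  /-- the derivations -/
  Δ : ∀ j, Derivation B (S j) (S j)
  /-- the restriction to the intersection -/
  i : ∀ j, S j →ₐ[B] T
  /-- the derivation of the first chart on the intersection -/
  ΔT : Derivation B T T
  inv : ∀ n : ℕ, n ≠ 0 → IsUnit (n : B)
  ch : ∀ j, IsChart B (S j) (x j) (Δ j)
  chT : IsChart B T (i true (x true)) ΔT
  gu : IsUnit (ΔT (i false (x false)))
  ft : ∀ j, Algebra.FiniteType B (S j)
  inj : ∀ (j : Bool) (A : Type) [CommRing A] [Algebra B A],
    Function.Injective (tmp A (i j))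
  nz : ∀ (j : Bool) (A : Type) [CommRing A] [Algebra B A] (a : A),
    ((1 : A) ⊗ₜ[B] i j (x j) - a ⊗ₜ[B] (1 : T) : A ⊗[B] T) ∈ nonZeroDivisors (A ⊗[B] T)
  ns : ∀ (A : Type) [CommRing A] [Algebra B A] (n : ℕ) (c : A) (e₁ : A ⊗[B] S true)
    (e₂ : A ⊗[B] S false), 1 ≤ n → IsUnit c →
    tmp A (i false) e₂ = (c ⊗ₜ[B] (ΔT (i false (x false)) ^ n)) * tmp A (i true) e₁ → e₁ = 0

section

variable {B : Type} [CommRing B] {S : Bool → Type} [∀ j, CommRing (S j)]
  [∀ j, Algebra B (S j)] {T : Type} [CommRing T] [Algebra B T]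

/-- The ratio of the two derivations. -/
noncomputable def TGD.g (G : TGD B S T) : T := G.ΔT (G.i false (G.x false))

/-- Functions of pairs of points. -/
structure PFun (G : TGD B S T) (a b : ℕ) where
  /-- the value -/
  e : ∀ (j : Bool) (A : Type) [CommRing A] [Algebra B A], (S j →ₐ[B] A) → (S j →ₐ[B] A) → A
  nat : ∀ (j : Bool) {A A' : Type} [CommRing A] [CommRing A'] [Algebra B A] [Algebra B A']
    (φ : A →ₐ[B] A') (p q : S j →ₐ[B] A), DisjP p q →
      e j A' (φ.comp p) (φ.comp q) = φ (e j A p q)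
  trans : ∀ {A : Type} [CommRing A] [Algebra B A] (p q : T →ₐ[B] A),
    (∀ j, IsUnit (p (G.i j (G.x j)) - q (G.i j (G.x j)))) →
      e false A (p.comp (G.i false)) (q.comp (G.i false)) =
        p G.g ^ a * q G.g ^ b * e true A (p.comp (G.i true)) (q.comp (G.i true))

/-- Functions of pairs of formal points, of weight `w`. -/
structure GFn (G : TGD B S T) (w : ℕ) where
  /-- the value -/
  c : ∀ (j : Bool) (A : Type) [CommRing A] [Algebra B A], (S j →ₐ[B] PowerSeries A) →
    (S j →ₐ[B] PowerSeries A) → A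
  nat : ∀ (j : Bool) {A A' : Type} [CommRing A] [CommRing A'] [Algebra B A] [Algebra B A']
    (φ : A →ₐ[B] A') (h k : S j →ₐ[B] PowerSeries A) (h' k' : S j →ₐ[B] PowerSeries A'),
    VPair (G.x j) h k → (∀ f, h' f = PowerSeries.map (φ : A →+* A') (h f)) →
    (∀ f, k' f = PowerSeries.map (φ : A →+* A') (k f)) → c j A' h' k' = φ (c j A h k)
  hom : ∀ (j : Bool) {A : Type} [CommRing A] [Algebra B A]
    (h k h' k' : S j →ₐ[B] PowerSeries A) (l m : Aˣ), VPair (G.x j) h k →
    (∀ f, h' f = PowerSeries.rescale (l : A) (h f)) →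
    (∀ f, k' f = PowerSeries.rescale (m : A) (k f)) →
    ((l : A) * (m : A)) ^ w * c j A h' k' = c j A h k
  agr : ∀ {A : Type} [CommRing A] [Algebra B A] (h k : T →ₐ[B] PowerSeries A),
    (∀ j, VPair (G.x j) (h.comp (G.i j)) (k.comp (G.i j))) →
    (∀ j, IsUnit (PowerSeries.constantCoeff (h (G.i j (G.x j))) -
      PowerSeries.constantCoeff (k (G.i j (G.x j))))) →
    c true A (h.comp (G.i true)) (k.comp (G.i true)) =
      c false A (h.comp (G.i false)) (k.comp (G.i false))

end

/-! ## Statements -/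

/-- TFP: formal points in a chart. -/
def Stmt_TFP : Prop :=
  ∀ {B S : Type} [CommRing B] [CommRing S] [Algebra B S] {x : S} {Δ : Derivation B S S},
    (∀ n : ℕ, n ≠ 0 → IsUnit (n : B)) → IsChart B S x Δ →
    ∀ {A : Type} [CommRing A] [Algebra B A],
    (∀ h h' : S →ₐ[B] PowerSeries A,
      (∀ f, PowerSeries.constantCoeff (h f) = PowerSeries.constantCoeff (h' f)) →
      h x = h' x → h = h') ∧
    (∀ (p : S →ₐ[B] A) (s : PowerSeries A), PowerSeries.constantCoeff s = 0 →
      ∃ h : S →ₐ[B] PowerSeries A, (∀ f, PowerSeries.constantCoeff (h f) = p f) ∧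
        h x = PowerSeries.C (p x) + s ∧
        ∀ (f : S) (n : ℕ), PowerSeries.coeff n (h f) = ∑ k ∈ Finset.range (n + 1),
          Ring.inverse ((k.factorial : ℕ) : A) * p ((⇑Δ)^[k] f) * PowerSeries.coeff n (s ^ k)) ∧
    ∀ (h : S →ₐ[B] PowerSeries A) (f : S), PowerSeries.coeff 1 (h f) =
      PowerSeries.constantCoeff (h (Δ f)) * PowerSeries.coeff 1 (h x)

/-- TWT: weights. -/
def Stmt_TWT : Prop :=
  (∀ {A : Type} [CommRing A]
    (Ψ : MvPolynomial (Bool × ℕ) A →ₐ[A] MvPolynomial (Bool × ℕ) A) (l : Bool → A),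
    (∀ (v : Bool × ℕ) (m : (Bool × ℕ) →₀ ℕ), v.2 + 1 ≤ wt m → MvPolynomial.coeff m
      (Ψ (MvPolynomial.X v) - MvPolynomial.C (l v.1 ^ (v.2 + 1)) * MvPolynomial.X v) = 0) →
    ∀ (F : MvPolynomial (Bool × ℕ) A) (J : ℕ),
      (∀ m, J < wt m → MvPolynomial.coeff m F = 0) → ∀ m, wt m = J →
        MvPolynomial.coeff m (Ψ F) =
          l true ^ wtb true m * l false ^ wtb false m * MvPolynomial.coeff m F) ∧
  ∀ {A : Type} [CommRing A] (b : Bool) (k n : ℕ) (m : (Bool × ℕ) →₀ ℕ), n < wt m + k →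
    MvPolynomial.coeff m (PowerSeries.coeff n (gs A b ^ k)) = 0

/-- TGA (TG3): vanishing at the diagonal. -/
def Stmt_TGA : Prop :=
  ∀ {B : Type} [CommRing B] {S : Bool → Type} [∀ j, CommRing (S j)] [∀ j, Algebra B (S j)]
    {T : Type} [CommRing T] [Algebra B T] (G : TGD B S T) {a b : ℕ} (F : PFun G a b),
    1 ≤ a → 1 ≤ b → ∀ (j : Bool) (p q : S j →ₐ[B] LaurentSeries (S j))
      (h : S j →ₐ[B] PowerSeries (S j)), (∀ f, PowerSeries.constantCoeff (h f) = f) →
      h (G.x j) = PowerSeries.C (G.x j) + PowerSeries.X → (∀ f, p f = psl (S j) (h f)) →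
      (∀ f, q f = HahnSeries.C f) → ∀ n : ℤ, n < a + b → (F.e j (LaurentSeries (S j)) p q).coeff n = 0

/-- TGR (REG): a section which is regular outside a point and at the formal point is regular. -/
def Stmt_TGR : Prop :=
  ∀ {B S : Type} [CommRing B] [CommRing S] [Algebra B S] {x : S} {Δ : Derivation B S S},
    (∀ n : ℕ, n ≠ 0 → IsUnit (n : B)) → IsChart B S x Δ → Algebra.FiniteType B S →
    ∀ {A : Type} [CommRing A] [Algebra B A] (q : S →ₐ[B] A)
      (h : A ⊗[B] S →ₐ[A] PowerSeries A), (∀ r, PowerSeries.constantCoeff (h r) = exq q r) →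
      h (1 ⊗ₜ[B] x) = PowerSeries.C (q x) + PowerSeries.X →
      (RingHom.ker (exq q)).FG ∧
      (∀ (n : ℕ) (r : A ⊗[B] S), (∀ m < n, PowerSeries.coeff m (h r) = 0) →
        r ∈ RingHom.ker (exq q) ^ n) ∧
      ∀ (N : ℕ) (r : A ⊗[B] S),
        (∀ ρ ∈ RingHom.ker (exq q), ∃ (n : ℕ) (r' : A ⊗[B] S),
          ρ ^ n * r = (1 ⊗ₜ[B] x - q x ⊗ₜ[B] 1) ^ N * r') →
        (∀ m < N, PowerSeries.coeff m (h r) = 0) →
        ∃ r' : A ⊗[B] S, r = (1 ⊗ₜ[B] x - q x ⊗ₜ[B] 1) ^ N * r'

/-- TGB (TG4): vanishing if one of the points is in the intersection of the charts. -/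
def Stmt_TGB : Prop :=
  ∀ {B : Type} [CommRing B] {S : Bool → Type} [∀ j, CommRing (S j)] [∀ j, Algebra B (S j)]
    {T : Type} [CommRing T] [Algebra B T] (G : TGD B S T) {a b : ℕ} (F : PFun G a b),
    1 ≤ a → 1 ≤ b → ∀ (j : Bool) {A : Type} [CommRing A] [Algebra B A] (p : S j →ₐ[B] A)
      (q : T →ₐ[B] A), DisjP p (q.comp (G.i j)) → F.e j A p (q.comp (G.i j)) = 0

/-- TGC (TG5): functions of pairs of points vanish. -/
def Stmt_TGC : Prop :=
  ∀ {B : Type} [CommRing B] {S : Bool → Type} [∀ j, CommRing (S j)] [∀ j, Algebra B (S j)]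
    {T : Type} [CommRing T] [Algebra B T] (G : TGD B S T) {a b : ℕ} (F : PFun G a b),
    1 ≤ a → 1 ≤ b → ∀ (j : Bool) {A : Type} [CommRing A] [Algebra B A] (p q : S j →ₐ[B] A),
      DisjP p q → F.e j A p q = 0

/-- TGN: the values at the formal points with indeterminate coefficients have bounded weight. -/
def Stmt_TGN : Prop :=
  ∀ {B : Type} [CommRing B] {S : Bool → Type} [∀ j, CommRing (S j)] [∀ j, Algebra B (S j)]
    {T : Type} [CommRing T] [Algebra B T] (G : TGD B S T) {w : ℕ} (F : GFn G w),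
    ∃ N : ℕ, ∀ (j : Bool) {A : Type} [CommRing A] [Algebra B A] (p q : S j →ₐ[B] A)
      (h k : S j →ₐ[B] PowerSeries (MvPolynomial (Bool × ℕ) A)), DisjP p q →
      IsUP (G.x j) true p h → IsUP (G.x j) false q k → ∀ m, N < wt m →
        MvPolynomial.coeff m (F.c j (MvPolynomial (Bool × ℕ) A) h k) = 0

/-- TGT: the transformation of the coefficients of largest weight. -/
def Stmt_TGT : Prop :=
  ∀ {B : Type} [CommRing B] {S : Bool → Type} [∀ j, CommRing (S j)] [∀ j, Algebra B (S j)]
    {T : Type} [CommRing T] [Algebra B T] (G : TGD B S T) {w : ℕ} (F : GFn G w) {A : Type}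
    [CommRing A] [Algebra B A] (p q : T →ₐ[B] A),
    (∀ j, IsUnit (p (G.i j (G.x j)) - q (G.i j (G.x j)))) →
    ∀ h k : ∀ j, S j →ₐ[B] PowerSeries (MvPolynomial (Bool × ℕ) A),
      (∀ j, IsUP (G.x j) true (p.comp (G.i j)) (h j)) →
      (∀ j, IsUP (G.x j) false (q.comp (G.i j)) (k j)) → ∀ J : ℕ,
      (∀ j m, J < wt m →
        MvPolynomial.coeff m (F.c j (MvPolynomial (Bool × ℕ) A) (h j) (k j)) = 0) →
      ∀ m, wt m = J →
        MvPolynomial.coeff m (F.c false (MvPolynomial (Bool × ℕ) A) (h false) (k false)) =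
          p G.g ^ (w + wtb true m) * q G.g ^ (w + wtb false m) *
            MvPolynomial.coeff m (F.c true (MvPolynomial (Bool × ℕ) A) (h true) (k true))

/-- TGG: Theorem G. -/
def Stmt_TGG : Prop :=
  ∀ {B : Type} [CommRing B] {S : Bool → Type} [∀ j, CommRing (S j)] [∀ j, Algebra B (S j)]
    {T : Type} [CommRing T] [Algebra B T] (G : TGD B S T) {w : ℕ} (F : GFn G w), 1 ≤ w →
    ∀ (j : Bool) {A : Type} [CommRing A] [Algebra B A] (h k : S j →ₐ[B] PowerSeries A),
      VPair (G.x j) h k → F.c j A h k = 0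

end Pool.Agent.MG.G0
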