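import Pool.Agent.MG.G0.StmtsV
import Pool.Agent.MG.G0.StmtsZH

/-!
# Statements: Theorem Z in characteristic zero (PAPER.md, U0, U1, U4 (b); PAPER_V.md)
-/

open Polynomial

namespace Pool.Agent.MG.G0

/-- URG: the ultraproduct of special curves is a special curve. -/
def Stmt_URG : Prop :=
  ∀ (𝒰 : Ultrafilter ℕ) {k : ℕ → Type} [∀ n, Field (k n)] {g : ℕ} (ζ : ∀ n, k n)
    (R : ∀ n, Subalgebra (k n) (LaurentSeries (k n))), 2 ≤ g →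
    (∀ n, (((6 * g + 9).factorial : ℕ) : k n) ≠ 0) → (∀ n, RG g (ζ n) (R n)) →
    RG g (umk 𝒰 ζ) (UP 𝒰 R)

/-- UPL: ultraproducts of places. -/
def Stmt_UPL : Prop :=
  ∀ (𝒰 : Ultrafilter ℕ) {k L : ℕ → Type} [∀ n, Field (k n)] [∀ n, Field (L n)]
    [∀ n, Algebra (k n) (L n)] {g d : ℕ} {R : ∀ n, Subalgebra (L n) (LaurentSeries (L n))}
    (v : ∀ n, Plc (k n) (L n) g d (R n)), 1 ≤ g → 1 ≤ d → (∀ n, Kr g (R n)) →
    (∀ n, (v n).Tst) →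
    letI : Algebra (Ul 𝒰 k) (Ul 𝒰 L) := (umap 𝒰 fun n => algebraMap (k n) (L n)).toAlgebra
    ∃ w : Plc (Ul 𝒰 k) (Ul 𝒰 L) g d (UP 𝒰 R), w.Tst ∧
      ((∀ n, (v n).c = 1) → w.c = 1) ∧ w.M.Pb = UP 𝒰 (fun n => (v n).M.Pb) ∧
      (∀ s : Ul 𝒰 L, (∃ x : w.O, algebraMap w.O (Ul 𝒰 L) x = s) →
        ∃ x : UO 𝒰 v, uOL 𝒰 v x = s) ∧
      ∀ (r : ℕ) (S : MultilinearMap (Ul 𝒰 L) (fun _ : Fin r => EE1 (UP 𝒰 R)) (Ul 𝒰 L)),
        w.Int S → UInt 𝒰 v S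

/-- UAI: the branch points are algebraically independent. -/
def Stmt_UAI : Prop :=
  (∀ {F k L : Type} [Field F] [Field k] [Field L] [Algebra F k] [Algebra k L] [Algebra F L]
    [IsScalarTower F k L] {b d : ℕ} (β α : Fin b → k) (t : L), 0 < d →
    AlgebraicIndependent F α → Transcendental k t →
    AlgebraicIndependent F fun l => algebraMap k L (β l) + t ^ d * algebraMap k L (α l)) ∧
  (∀ (𝒰 : Ultrafilter ℕ) {k L : ℕ → Type} [∀ n, Field (k n)] [∀ n, Field (L n)]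
    [∀ n, Algebra (k n) (L n)] (t : ∀ n, L n), (∀ n, Transcendental (k n) (t n)) →
    letI : Algebra (Ul 𝒰 k) (Ul 𝒰 L) := (umap 𝒰 fun n => algebraMap (k n) (L n)).toAlgebra
    Transcendental (Ul 𝒰 k) (umk 𝒰 t)) ∧
  ∀ {F K : Type} [Field F] [Field K] [IsAlgClosed K] [Algebra F K] {b : ℕ}
    (v : Fin (b + 1) → K), AlgebraicIndependent F v →
    ∃ (k₁ : Type) (_ : Field k₁) (_ : IsAlgClosed k₁) (_ : Algebra F k₁) (_ : Algebra k₁ K)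
      (_ : IsScalarTower F k₁ K) (ζ : k₁), algebraMap k₁ K ζ = v 0 ∧ Transcendental F ζ ∧
      AlgebraicIndependent k₁ fun l : Fin b => v l.succ

/-- UPR: primes. -/
def Stmt_UPR : Prop :=
  ∀ (m N : ℕ), 1 ≤ m → ∃ p : ℕ, N < p ∧ p.Prime ∧ p % m = m - 1

/-- UZU: Theorem Z in characteristic zero. -/
def Stmt_UZU : Prop :=
  ∀ g : ℕ, 2 ≤ g → ∃ (k L : Type) (_ : Field k) (_ : IsAlgClosed k) (_ : Field L)
    (_ : Algebra ℂ k) (_ : Algebra ℂ L) (_ : Algebra k L) (_ : IsScalarTower ℂ k L)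
    (R : Subalgebra L (LaurentSeries L)) (r : Fin (8 * g + 8) → L), Kr g R ∧
    zz L (6 * g + 9) ∈ R ∧ Disc (6 * g + 9) R (∏ l, (X - C (r l))) ∧
    AlgebraicIndependent ℂ r ∧
    (∃ (v : Plc k L g (6 * g + 9) R) (ζ : k), v.Tst ∧ v.c = 1 ∧ RG g ζ v.M.Pb ∧
      ∃ β : Fin (8 * g + 8) → k, Function.Injective β ∧
        Disc (6 * g + 9) v.M.Pb (∏ l, (X - C (β l)))) ∧
    (∀ s : L, (∀ v : Plc k L g (6 * g + 9) R, v.Tst → ∃ x : v.O, algebraMap v.O L x = s) →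
      ∃ a : k, algebraMap k L a = s) ∧
    ∀ m : ℕ, 1 ≤ m → ∀ S : MultilinearMap L (fun _ : Fin m => EE1 R) L,
      (∀ v : Plc k L g (6 * g + 9) R, v.Tst → v.Int S) → S = 0

/-- UFI: the final statement on Krichever rings. -/
def Stmt_UFI : Prop :=
  ∀ g : ℕ, 3 ≤ g → ∃ (K : Type) (_ : Field K) (_ : IsAlgClosed K) (_ : Algebra ℂ K)
    (P : Subalgebra K (KK Unit K)), IsKr g P ∧ TypeS P ∧ Gnr P ∧
    (∀ E : Ev g, ∃ c : ℂ, ∀ l : CovL P, E.Φ K Unit P l = algebraMap ℂ K c) ∧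
    ∀ (n : ℕ) (E : Ev0 g n), ∃ c : ℂ, ∀ p, Marks P p → E.Φ K Unit P p = algebraMap ℂ K c

end Pool.Agent.MG.G0
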