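import Pool.Agent.MG.G0.StmtsU

/-!
# TRA: the transfer of the vanishing theorem
-/

namespace Pool.Agent.MG.G0

namespace TRA

section series

variable (𝒰 : Ultrafilter ℕ) {R : ℕ → Type} [∀ n, CommRing (R n)]

/-- The class of a family of series without poles. -/
noncomputable def cl (f : ∀ n, LaurentSeries (R n)) (h : ∀ n, f n ∈ Po (R n) 0) :
    LaurentSeries (Ul 𝒰 R) where
  coeff m := umk 𝒰 fun n => (f n).coeff m
  isPWO_support' := by
    refine Set.IsPWO.mono (t := Set.Ici (0 : ℤ)) ?_ fun m hm => ?_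
    · exact (BddBelow.isWF ⟨_, fun _ h => h⟩).isPWO
    · by_contra hc
      rw [Set.mem_Ici, not_le] at hc
      exact hm ((umk_eq_zero 𝒰).2 (Filter.Eventually.of_forall fun n => h n m (by omega)))

theorem cl_coeff (f : ∀ n, LaurentSeries (R n)) (h : ∀ n, f n ∈ Po (R n) 0) (m : ℤ) :
    (cl 𝒰 f h).coeff m = umk 𝒰 fun n => (f n).coeff m := rfl

theorem cl_user (f : ∀ n, LaurentSeries (R n)) (h : ∀ n, f n ∈ Po (R n) 0) :
    USer 𝒰 (cl 𝒰 f h) f := ⟨⟨0, h⟩, fun _ => rfl⟩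

/-- The scalar multiplication. (This instance comes first, to guide the search.) -/
noncomputable local instance (priority := 100000) eeSm
    {P : ∀ n, Subalgebra (R n) (LaurentSeries (R n))} : SMul (Ul 𝒰 R) (EE1 (UP 𝒰 P)) :=
  (Submodule.module (EE1 (UP 𝒰 P))).toSMul

variable {P : ∀ n, Subalgebra (R n) (LaurentSeries (R n))}
  (hE : ∀ F : LaurentSeries (Ul 𝒰 R), F ∈ EE1 (UP 𝒰 P) ↔
      ∃ f : ∀ n, LaurentSeries (R n), USer 𝒰 F f ∧ ∀ n, f n ∈ EE1 (P n))

/-- The class of a family of regular differentials. -/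
noncomputable def ce (f : ∀ n, EE1 (P n)) : EE1 (UP 𝒰 P) :=
  ⟨cl 𝒰 (fun n => (f n : LaurentSeries (R n))) fun n => (f n).2.2,
    (hE _).2 ⟨_, cl_user 𝒰 _ _, fun n => (f n).2⟩⟩

theorem ce_coeff (f : ∀ n, EE1 (P n)) (m : ℤ) : (ce 𝒰 hE f : LaurentSeries (Ul 𝒰 R)).coeff m =
    umk 𝒰 fun n => (f n : LaurentSeries (R n)).coeff m := rfl

theorem ce_surj (F : EE1 (UP 𝒰 P)) : ∃ f : ∀ n, EE1 (P n), ce 𝒰 hE f = F := by
  obtain ⟨f, h1, h2⟩ := (hE F).1 F.2
  refine ⟨fun n => ⟨f n, h2 n⟩, Subtype.ext ?_⟩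
  ext m
  rw [ce_coeff, h1.2]

theorem ce_add (f g : ∀ n, EE1 (P n)) :
    ce 𝒰 hE (fun n => f n + g n) = ce 𝒰 hE f + ce 𝒰 hE g := by
  refine Subtype.ext ?_
  ext m
  rw [Submodule.coe_add, HahnSeries.coeff_add, ce_coeff, ce_coeff, ce_coeff, ← map_add]
  congr 1

theorem ce_zero : ce 𝒰 hE (fun n => (0 : EE1 (P n))) = 0 := by
  refine Subtype.ext ?_
  ext m
  rw [ce_coeff]
  change umk 𝒰 0 = 0
  exact map_zero _

theorem ce_smul (c : ∀ n, R n) (f : ∀ n, EE1 (P n)) :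
    ce 𝒰 hE (fun n => c n • f n) = umk 𝒰 c • ce 𝒰 hE f := by
  refine Subtype.ext ?_
  ext m
  rw [Submodule.coe_smul, HahnSeries.coeff_smul, ce_coeff, ce_coeff, smul_eq_mul, ← map_mul]
  congr 1

theorem ce_sum {ι : Type} (s : Finset ι) (f : ι → ∀ n, EE1 (P n)) :
    ce 𝒰 hE (fun n => ∑ j ∈ s, f j n) = ∑ j ∈ s, ce 𝒰 hE (f j) := by
  classical
  induction s using Finset.induction_on with
  | empty =>
    simp only [Finset.sum_empty]
    exact ce_zero 𝒰 hE
  | insert a s ha ih =>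
    simp only [Finset.sum_insert ha]
    rw [ce_add, ih]

theorem umk_sum {ι : Type} (s : Finset ι) (f : ι → ∀ n, R n) :
    umk 𝒰 (fun n => ∑ j ∈ s, f j n) = ∑ j ∈ s, umk 𝒰 (f j) := by
  rw [← map_sum]
  congr 1
  funext n
  rw [Finset.sum_apply]

theorem umk_prod {ι : Type} (s : Finset ι) (f : ι → ∀ n, R n) :
    umk 𝒰 (fun n => ∏ j ∈ s, f j n) = ∏ j ∈ s, umk 𝒰 (f j) := by
  rw [← map_prod]
  congr 1
  funext n
  rw [Finset.prod_apply]

theorem umk_zpow (c : ∀ n, (R n)ˣ) (u : (Ul 𝒰 R)ˣ)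
    (h : (u : Ul 𝒰 R) = umk 𝒰 fun n => (c n : R n)) (m : ℤ) :
    ((u ^ m : (Ul 𝒰 R)ˣ) : Ul 𝒰 R) = umk 𝒰 fun n => ((c n ^ m : (R n)ˣ) : R n) := by
  have h1 : u = Units.map ((umk 𝒰 : (∀ n, R n) →+* Ul 𝒰 R) : (∀ n, R n) →* Ul 𝒰 R)
      (MulEquiv.piUnits.symm c) := Units.ext h
  rw [h1, ← map_zpow, ← map_zpow]
  rfl

end series

/-- A basis of the regular differentials. -/
theorem exists_basis (hKFO : Stmt_KFO) {A : Type} [CommRing A] {g : ℕ}
    {R : Subalgebra A (LaurentSeries A)} (h : Kr g R) :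
    Nonempty (Module.Basis (Fin g) A (EE1 R)) := by
  obtain ⟨⟨ω, hω⟩, h2⟩ := hKFO h
  obtain ⟨h3, h4⟩ := h2 ω hω
  set v : Fin g → EE1 R := fun j => ⟨ω j (), mem_EE_uno.1 (h3 j)⟩ with hv
  have key : ∀ η : EE1 R, ∃! c : Fin g → A, η = ∑ j, c j • v j := by
    intro η
    obtain ⟨c, hc, hu⟩ := h4 (fun _ => (η : LaurentSeries A)) (mem_EE_uno.2 η.2)
    have hval : ∀ c : Fin g → A, ((∑ j, c j • v j : EE1 R) : LaurentSeries A) =
        (∑ j, c j • ω j) () := by
      intro c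
      rw [AddSubmonoidClass.coe_finsetSum, Finset.sum_apply]
      rfl
    refine ⟨c, Subtype.ext ?_, fun c' hc' => hu c' ?_⟩
    · rw [hval, ← hc]
    · funext i
      have := congrArg Subtype.val hc'
      rw [hval] at this
      exact this
  refine ⟨Module.Basis.mk (v := v) ?_ ?_⟩
  · rw [Fintype.linearIndependent_iff]
    intro c hc i
    obtain ⟨c₀, _, hu⟩ := key 0
    have e1 := hu c hc.symm
    have e2 := hu 0 (by simp)
    rw [e1, ← e2]
    rfl
  · intro η _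
    obtain ⟨c, hc, _⟩ := key η
    rw [hc]
    exact Submodule.sum_mem _ fun j _ => Submodule.smul_mem _ _ (Submodule.subset_span ⟨j, rfl⟩)

/-- The multilinear form with given values on a basis. -/
noncomputable def mk {A M : Type} [CommRing A] [AddCommGroup M] [Module A M] {g r : ℕ}
    (b : Module.Basis (Fin g) A M) (a : (Fin r → Fin g) → A) :
    MultilinearMap A (fun _ : Fin r => M) A :=
  ∑ j : Fin r → Fin g, a j •
    (MultilinearMap.mkPiAlgebra A (Fin r) A).compLinearMap fun i => b.coord (j i)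

theorem mk_apply {A M : Type} [CommRing A] [AddCommGroup M] [Module A M] {g r : ℕ}
    (b : Module.Basis (Fin g) A M) (a : (Fin r → Fin g) → A) (m : Fin r → M) :
    mk b a m = ∑ j : Fin r → Fin g, (∏ i, b.coord (j i) (m i)) * a j := by
  rw [mk, sum_apply]
  refine Finset.sum_congr rfl fun j _ => ?_
  rw [smul_apply, MultilinearMap.compLinearMap_apply,
    MultilinearMap.mkPiAlgebra_apply, smul_eq_mul, mul_comm]

end TRA

/-- **TRA**: the transfer of the vanishing theorem. -/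
theorem t_TRA (hKFO : Stmt_KFO) (hUKR : Stmt_UKR) : Stmt_TRA := by
  intro 𝒰 k L _ _ _ g d r R T hg hKr hT hvan S hS
  have hE := (hUKR 𝒰 R hg hKr).2.1
  have b := fun n => Classical.choice (TRA.exists_basis hKFO (hKr n))
  -- the class of a basis
  set Om : Fin g → EE1 (UP 𝒰 R) := fun j => TRA.ce 𝒰 hE fun n => b n j with hOm
  choose a ha using fun j : Fin r → Fin g => umk_surj 𝒰 (S fun i => Om (j i))
  set Sn : ∀ n, MultilinearMap (L n) (fun _ : Fin r => EE1 (R n)) (L n) :=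
    fun n => TRA.mk (b n) fun j => a j n with hSn
  have hexp : ∀ f : ∀ n, EE1 (R n), TRA.ce 𝒰 hE f =
      ∑ j, umk 𝒰 (fun n => (b n).coord j (f n)) • Om j := by
    intro f
    have h1 : f = fun n => ∑ j, (b n).coord j (f n) • b n j := by
      funext n
      exact ((b n).sum_repr (f n)).symm
    rw [congrArg (TRA.ce 𝒰 hE) h1, TRA.ce_sum 𝒰 hE Finset.univ
      fun j n => (b n).coord j (f n) • b n j]
    exact Finset.sum_congr rfl fun j _ => TRA.ce_smul 𝒰 hE (fun n => (b n).coord j (f n)) fun n => b n j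
  have hval : ∀ f : Fin r → ∀ n, EE1 (R n), S (fun i => TRA.ce 𝒰 hE (f i)) =
      umk 𝒰 fun n => Sn n fun i => f i n := by
    intro f
    have h1 : (fun i => TRA.ce 𝒰 hE (f i)) = fun i =>
        ∑ j, umk 𝒰 (fun n => (b n).coord j (f i n)) • Om j := funext fun i => hexp (f i)
    rw [h1, MultilinearMap.map_sum]
    have h2 : (fun n => Sn n fun i => f i n) = fun n => ∑ j : Fin r → Fin g,
        (∏ i, (b n).coord (j i) (f i n)) * a j n := by
      funext n
      rw [hSn]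
      exact TRA.mk_apply _ _ _
    rw [h2, TRA.umk_sum 𝒰 Finset.univ fun (j : Fin r → Fin g) n =>
      (∏ i, (b n).coord (j i) (f i n)) * a j n]
    refine Finset.sum_congr rfl fun j _ => ?_
    rw [MultilinearMap.map_smul_univ, ← ha j, smul_eq_mul, ← TRA.umk_prod, ← map_mul]
    rfl
  by_cases hA : ∀ᶠ n in (𝒰 : Filter ℕ), ∀ v, T n v → v.Int (Sn n)
  · ext F
    choose f hf using fun i => TRA.ce_surj 𝒰 hE (F i)
    have h1 : F = fun i => TRA.ce 𝒰 hE (f i) := funext fun i => (hf i).symm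
    rw [h1, hval, zero_apply, umk_eq_zero]
    filter_upwards [hA] with n hn
    rw [hvan n (Sn n) hn, zero_apply]
  · exfalso
    rw [← Ultrafilter.eventually_not] at hA
    have hex : ∀ n, ∃ (v : Plc (k n) (L n) g d (R n)) (ω : Fin r → EE1 (R n))
        (η : Fin r → EE1 v.M.P), T n v ∧
        (∀ i, lmap (algebraMap v.O (L n)) (η i : LaurentSeries v.O) =
          ((v.c⁻¹ : (L n)ˣ) : L n) • sc v.c (ω i : LaurentSeries (L n))) ∧
        ((¬ ∀ v, T n v → v.Int (Sn n)) → ¬ ∃ x : v.O, algebraMap v.O (L n) x = Sn n ω) := by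
      intro n
      by_cases hn : ∀ v, T n v → v.Int (Sn n)
      · obtain ⟨v, hv⟩ := hT n
        refine ⟨v, fun _ => 0, fun _ => 0, hv, fun i => ?_, fun h => absurd hn h⟩
        rw [Submodule.coe_zero, Submodule.coe_zero, map_zero, map_zero, smul_zero]
      · have hn' := hn
        push Not at hn
        obtain ⟨v, hv, hv2⟩ := hn
        unfold Plc.Int at hv2
        push Not at hv2
        obtain ⟨ω, η, h1, h2⟩ := hv2
        exact ⟨v, ω, η, hv, h1, fun _ ⟨x, hx⟩ => h2 x hx⟩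
    choose v ω η hv h1 h2 using hex
    have hEO := (hUKR 𝒰 (R := fun n => (v n).O) (fun n => (v n).M.P) hg
      fun n => (v n).M.kr).2.1
    obtain ⟨x, hx⟩ := hS v hv (fun i => TRA.ce 𝒰 hE fun n => ω n i)
      (fun i => TRA.ce 𝒰 hEO fun n => η n i) (by
        intro i
        ext m
        rw [lmap_coeff, TRA.ce_coeff, HahnSeries.coeff_smul, sc_coeff, TRA.ce_coeff]
        have h3 : (((uc 𝒰 v) ^ (-m) : (Ul 𝒰 L)ˣ) : Ul 𝒰 L) =
            umk 𝒰 fun n => (((v n).c ^ (-m) : (L n)ˣ) : L n) :=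
          TRA.umk_zpow 𝒰 (fun n => (v n).c) (uc 𝒰 v) rfl (-m)
        have h4 : (((uc 𝒰 v)⁻¹ : (Ul 𝒰 L)ˣ) : Ul 𝒰 L) =
            umk 𝒰 fun n => (((v n).c⁻¹ : (L n)ˣ) : L n) := rfl
        rw [h3, h4, smul_eq_mul, ← map_mul, ← map_mul]
        change umap 𝒰 (fun n => algebraMap (v n).O (L n)) (umk 𝒰 _) = _
        rw [umap_umk]
        congr 1
        funext n
        have h5 := congrArg (fun F : LaurentSeries (L n) => F.coeff m) (h1 n i)
        exact h5)
    rw [hval] at hx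
    obtain ⟨x', rfl⟩ := umk_surj 𝒰 x
    have hx' : umk 𝒰 (fun n => algebraMap (v n).O (L n) (x' n)) =
        umk 𝒰 fun n => Sn n fun i => ω n i := hx
    rw [umk_eq] at hx'
    obtain ⟨n, hn1, hn2⟩ := (hA.and hx').exists
    exact h2 n hn1 ⟨x' n, hn2⟩

end Pool.Agent.MG.G0
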