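import Pool.Agent.MG.G0.StmtsU
import Pool.Agent.MG.G0.ZL.ZD

/-!
# The ultraproduct of models is a model (PAPER.md, sections ULT, U1)
-/

open Polynomial

namespace Pool.Agent.MG.G0

namespace UMD

/-! ### Series and polynomials over the product ring -/

section asm

variable {R : ℕ → Type} [∀ n, CommRing (R n)]

/-- The component `n` of an element of the product. -/
def en (R : ℕ → Type) [∀ n, CommRing (R n)] (n : ℕ) : (∀ n, R n) →+* R n := Pi.evalRingHom R n

theorem en_apply (n : ℕ) (x : ∀ n, R n) : en R n x = x n := rfl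

theorem asm_ls {f : ∀ n, LaurentSeries (R n)} {N : ℤ} (h : ∀ n, f n ∈ Po (R n) N) :
    ∃ F : LaurentSeries (∀ n, R n), ∀ n, lmap (en R n) F = f n := by
  refine ⟨⟨fun m n => (f n).coeff m, ?_⟩, fun n => ?_⟩
  · refine (Set.IsPWO.mono (t := Set.Ici (-N)) ?_ fun m hm => ?_)
    · exact (BddBelow.isWF ⟨_, fun _ h => h⟩).isPWO
    · by_contra h'
      rw [Set.mem_Ici, not_le] at h'
      exact hm (funext fun n => h n m h')
  · ext m
    rfl

theorem asm_pol {f : ∀ n, (R n)[X]} {N : ℕ} (h : ∀ n, (f n).natDegree ≤ N) :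
    ∃ F : (∀ n, R n)[X], ∀ n, F.map (en R n) = f n := by
  refine ⟨∑ i ∈ Finset.range (N + 1), monomial i fun n => (f n).coeff i, fun n => ?_⟩
  rw [Polynomial.map_sum]
  simp only [map_monomial]
  exact ((f n).as_sum_range' (N + 1) (Nat.lt_succ_of_le (h n))).symm

theorem ls_all {F G : LaurentSeries (∀ n, R n)}
    (h : ∀ n, lmap (en R n) F = lmap (en R n) G) : F = G := by
  ext m n
  exact congrArg (fun f => f.coeff m) (h n)

variable (𝒰 : Ultrafilter ℕ)

theorem ls_eq {F G : LaurentSeries (∀ n, R n)}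
    (h : ∀ᶠ n in (𝒰 : Filter ℕ), lmap (en R n) F = lmap (en R n) G) :
    lmap (umk 𝒰) F = lmap (umk 𝒰) G := by
  ext m
  rw [lmap_coeff, lmap_coeff, umk_eq]
  filter_upwards [h] with n hn
  exact congrArg (fun f => f.coeff m) hn

theorem pol_eq {F G : (∀ n, R n)[X]}
    (h : ∀ᶠ n in (𝒰 : Filter ℕ), F.map (en R n) = G.map (en R n)) :
    F.map (umk 𝒰) = G.map (umk 𝒰) := by
  ext m
  rw [coeff_map, coeff_map, umk_eq]
  filter_upwards [h] with n hn
  have h1 := congrArg (fun f => f.coeff m) hn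
  simp only [coeff_map] at h1
  exact h1

theorem user_of (F : LaurentSeries (∀ n, R n)) :
    USer 𝒰 (lmap (umk 𝒰) F) fun n => lmap (en R n) F := by
  obtain ⟨N, hN⟩ := exists_low F
  refine ⟨⟨N, fun n m hm => ?_⟩, fun m => rfl⟩
  rw [lmap_coeff, hN m hm, map_zero]

theorem of_user {F : LaurentSeries (Ul 𝒰 R)} {f : ∀ n, LaurentSeries (R n)}
    (h : USer 𝒰 F f) : ∃ G : LaurentSeries (∀ n, R n), lmap (umk 𝒰) G = F ∧
      ∀ n, lmap (en R n) G = f n := by
  obtain ⟨⟨N, hN⟩, h1⟩ := h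
  obtain ⟨G, hG⟩ := asm_ls hN
  refine ⟨G, ?_, hG⟩
  ext m
  rw [lmap_coeff, h1 m]
  congr 1
  funext n
  rw [← hG n]
  rfl

theorem mem_UP' {P : ∀ n, Subalgebra (R n) (LaurentSeries (R n))}
    {F : LaurentSeries (Ul 𝒰 R)} : F ∈ UP 𝒰 P ↔
      ∃ G : LaurentSeries (∀ n, R n), lmap (umk 𝒰) G = F ∧ ∀ n, lmap (en R n) G ∈ P n := by
  rw [mem_UP]
  constructor
  · rintro ⟨f, hf, hf'⟩
    obtain ⟨G, h1, h2⟩ := of_user 𝒰 hf
    exact ⟨G, h1, fun n => by rw [h2]; exact hf' n⟩
  · rintro ⟨G, rfl, h⟩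
    exact ⟨_, user_of 𝒰 G, h⟩

theorem upol_of (F : (∀ n, R n)[X]) : UPol 𝒰 (F.map (umk 𝒰)) fun n => F.map (en R n) :=
  ⟨⟨F.natDegree, fun n => natDegree_map_le⟩, fun m => by
    rw [coeff_map]
    simp only [coeff_map]
    rfl⟩

theorem of_upol {F : (Ul 𝒰 R)[X]} {f : ∀ n, (R n)[X]} (h : UPol 𝒰 F f) :
    ∃ G : (∀ n, R n)[X], G.map (umk 𝒰) = F ∧ ∀ n, G.map (en R n) = f n := by
  obtain ⟨⟨N, hN⟩, h1⟩ := h
  obtain ⟨G, hG⟩ := asm_pol hN
  refine ⟨G, ?_, hG⟩
  ext m
  rw [coeff_map, h1 m]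
  congr 1
  funext n
  rw [← hG n, coeff_map]
  rfl

theorem exists_upol {f : ∀ n, (R n)[X]} {N : ℕ} (h : ∀ n, (f n).natDegree ≤ N) :
    ∃ F : (Ul 𝒰 R)[X], UPol 𝒰 F f := by
  obtain ⟨G, hG⟩ := asm_pol h
  refine ⟨G.map (umk 𝒰), ?_⟩
  have h1 := upol_of 𝒰 G
  simpa only [hG] using h1

theorem upol_map {S : ℕ → Type} [∀ n, CommRing (S n)] (φ : ∀ n, R n →+* S n)
    {F : (Ul 𝒰 R)[X]} {f : ∀ n, (R n)[X]} (h : UPol 𝒰 F f) :
    UPol 𝒰 (F.map (umap 𝒰 φ)) fun n => (f n).map (φ n) := by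
  obtain ⟨⟨N, hN⟩, h1⟩ := h
  refine ⟨⟨N, fun n => natDegree_map_le.trans (hN n)⟩, fun m => ?_⟩
  rw [coeff_map, h1 m, umap_umk]
  simp only [coeff_map]

theorem upol_monic {F : (Ul 𝒰 R)[X]} {f : ∀ n, (R n)[X]} (h : UPol 𝒰 F f) {D : ℕ}
    (hm : ∀ n, (f n).Monic) (hD : ∀ n, (f n).natDegree = D) :
    F.Monic ∧ F.natDegree ≤ D ∧ F.coeff D = 1 := by
  have h1 : F.natDegree ≤ D := by
    rw [natDegree_le_iff_coeff_eq_zero]
    intro m hm'
    rw [h.2 m, umk_eq_zero]
    refine Filter.Eventually.of_forall fun n => ?_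
    exact coeff_eq_zero_of_natDegree_lt (by rw [hD]; exact hm')
  have h2 : F.coeff D = 1 := by
    rw [h.2 D, ← map_one (umk 𝒰)]
    congr 1
    funext n
    have h3 := (hm n).coeff_natDegree
    rw [hD] at h3
    exact h3
  exact ⟨monic_of_natDegree_le_of_coeff_eq_one D h1 h2, h1, h2⟩

theorem eval_upol {F : (Ul 𝒰 R)[X]} {f : ∀ n, (R n)[X]} (h : UPol 𝒰 F f) (c : ∀ n, R n) :
    F.eval (umk 𝒰 c) = umk 𝒰 fun n => (f n).eval (c n) := by
  obtain ⟨G, rfl, h2⟩ := of_upol 𝒰 h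
  rw [eval_map, eval₂_at_apply]
  congr 1
  funext n
  rw [← h2 n]
  have h3 := eval₂_at_apply (p := G) (en R n) c
  rw [← eval_map] at h3
  exact h3.symm

end asm

/-! ### Bases with bounded poles -/

section bases

open ZL

theorem gram_change {A : Type} [CommRing A] {d : ℕ} {e e' : Fin d → LaurentSeries A}
    {a G : Matrix (Fin d) (Fin d) A[X]} (h : ∀ i, e i = ∑ j, zpol A d (a i j) * e' j)
    (hG : ZGram d e' G) : ZGram d e (a * G * a.transpose) := by
  intro i j
  have h1 : e i * e j = ∑ k, ∑ l, zpol A d (a i k * a j l) * (e' k * e' l) := by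
    rw [h i, h j, Finset.sum_mul_sum]
    refine Finset.sum_congr rfl fun k _ => Finset.sum_congr rfl fun l _ => ?_
    rw [map_mul]
    ring
  have h2 : pr0 A d (e i * e j) = ∑ k, ∑ l, zpol A d (a i k * a j l * G k l) := by
    rw [h1, map_sum]
    refine Finset.sum_congr rfl fun k _ => ?_
    rw [map_sum]
    refine Finset.sum_congr rfl fun l _ => ?_
    rw [pr0_zpol_mul, ← hG k l, ← map_mul]
  rw [h2, Finset.sum_comm, Matrix.mul_apply, map_sum]
  refine Finset.sum_congr rfl fun l _ => ?_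
  rw [Matrix.mul_apply, Finset.sum_mul, map_sum]
  refine Finset.sum_congr rfl fun k _ => ?_
  rw [Matrix.transpose_apply]
  congr 1
  ring

theorem zchange {A : Type} [CommRing A] {g d : ℕ} {R : Subalgebra A (LaurentSeries A)}
    (hd : 0 < d) (hR : Kr g R) {e e' : Fin d → LaurentSeries A} (he : ZBas d R e)
    (he' : ZBas d R e') : ∃ a : Matrix (Fin d) (Fin d) A[X], IsUnit a.det ∧
      ∀ i, e i = ∑ j, zpol A d (a i j) * e' j := by
  have : NeZero d := ⟨hd.ne'⟩
  obtain ⟨a, ha, h⟩ := exists_change hR (spn_of_zbas he) (spn_of_zbas he')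
  refine ⟨a.submatrix (sg d) (sg d), ?_, fun i => ?_⟩
  · rwa [Matrix.det_submatrix_equiv_self]
  · have h1 := h (sg d i)
    rw [Equiv.symm_apply_apply, ← Equiv.sum_comp (sg d)] at h1
    simp only [Equiv.symm_apply_apply] at h1
    exact h1

section

variable {κ : Type} [Field κ] {g d : ℕ} {R : Subalgebra κ (LaurentSeries κ)}

theorem zpol_deg (hd : 0 < d) {p : κ[X]} {m : ℕ} (h : zpol κ d p ∈ Po κ m) :
    p.natDegree ≤ m := by
  rw [natDegree_le_iff_coeff_eq_zero]
  intro k hk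
  have h1 := ev_coeff d hd.ne' p k
  rw [← h1]
  refine h _ ?_
  have h2 : k ≤ d * k := Nat.le_mul_of_pos_left _ hd
  omega

/-- The basis `e` has poles of order at most `N`, and the coefficients of elements are bounded by
their poles. -/
structure BB (d N : ℕ) (R : Subalgebra κ (LaurentSeries κ)) (e : Fin d → LaurentSeries κ) :
    Prop where
  bas : ZBas d R e
  low : ∀ i, e i ∈ Po κ N
  gen : ∀ m : ℕ, ∀ x ∈ R, x ∈ Po κ m → ∃ q : Fin d → κ[X], (∀ i, (q i).natDegree ≤ m) ∧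
    x = ∑ i, zpol κ d (q i) * e i

theorem exists_BB (hd : 0 < d) (hR : Kr g R) (hz : zz κ d ∈ R) :
    ∃ e, BB d (2 * g + d) R e := by
  classical
  have : NeZero d := ⟨hd.ne'⟩
  obtain ⟨N, e, hN, hN', hs, he1, he2⟩ := exists_echelon hR hz
  have hNb : ∀ i, N i ≤ 2 * g + d := by
    intro i
    have h1 : Ord R (2 * g + ((i - (2 * g : ℕ) : ZMod d)).val) :=
      ord_of_two_mul_le hR hz (Nat.le_add_right _ _)
    rw [hN'] at h1
    have h2 : ((2 * g + ((i - (2 * g : ℕ) : ZMod d)).val : ℕ) : ZMod d) = i := by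
      rw [Nat.cast_add, ZMod.natCast_zmod_val]
      ring
    rw [h2] at h1
    have h3 : ((i - (2 * g : ℕ) : ZMod d)).val < d := ZMod.val_lt _
    omega
  have hss : ∀ c : ZMod d → κ[X], ∑ i, zpol κ d (c (sg d i)) * e (sg d i) =
      ∑ i, zpol κ d (c i) * e i := fun c => Equiv.sum_comp (sg d) fun i => zpol κ d (c i) * e i
  have hbas : ZBas d R fun i => e (sg d i) := by
    apply zbas_of_spn hR
    simp only [Equiv.apply_symm_apply]
    exact hs
  refine ⟨fun i => e (sg d i), hbas, fun i => Pl_mono (by have := hNb (sg d i); omega) (he1 _),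
    ?_⟩
  have key : ∀ n : ℕ, ∀ x ∈ R, x ∈ Pl κ ((n : ℤ) - 1) →
      ∃ q : ZMod d → κ[X], (∀ i, (q i).natDegree ≤ n - 1) ∧ x = ∑ i, ev d (q i) * e i := by
    intro n
    induction n with
    | zero =>
      intro x hx hx'
      refine ⟨0, fun i => by simp, ?_⟩
      rw [eq_zero_of_neg hR hx (by simpa using hx')]
      simp
    | succ n ih =>
      intro x hx hx'
      have hx'' : x ∈ Pl κ n := by
        have h1 : ((n + 1 : ℕ) : ℤ) - 1 = n := by push_cast; ring
        rwa [h1] at hx'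
      by_cases ha : x.coeff (-(n : ℤ)) = 0
      · obtain ⟨q, hq, hq'⟩ := ih x hx (mem_Pl_pred hx'' ha)
        exact ⟨q, fun i => (hq i).trans (by omega), hq'⟩
      · have h1 : N n ≤ n := (hN' n).1 (ord_of_coeff hx hx'' ha)
        have h2 : d ∣ n - N n := by
          rw [← ZMod.natCast_eq_zero_iff, Nat.cast_sub h1, hN, sub_self]
        obtain ⟨k, hk⟩ := h2
        have h3 : (n : ℤ) = (d * k : ℕ) + (N n : ℤ) := by omega
        have hkn : k ≤ n := by
          have : k ≤ d * k := Nat.le_mul_of_pos_left _ hd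
          omega
        let y : LaurentSeries κ := ev d (C (x.coeff (-(n : ℤ))) * X ^ k) * e n
        have hy : y ∈ R := by
          refine mul_mem ?_ (hs.1 _)
          rw [map_mul, ev_C, map_pow, ev_X]
          exact mul_mem (R.algebraMap_mem _) (pow_mem hz k)
        have hy1 : y = x.coeff (-(n : ℤ)) • (ev d (X ^ k) * e n) := by
          show ev d (C (x.coeff (-(n : ℤ))) * X ^ k) * e n = _
          rw [map_mul, ev_C, mul_assoc, ← Algebra.smul_def]
        have hy2 : y ∈ Pl κ n := by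
          rw [hy1, h3]
          exact Submodule.smul_mem _ _ (zzpow_mul_mem_Pl k (he1 _))
        have hy3 : y.coeff (-(n : ℤ)) = x.coeff (-(n : ℤ)) := by
          have h4 := zzpow_mul_coeff (d := d) k (he1 (n : ZMod d))
          rw [← h3, he2] at h4
          rw [hy1, HahnSeries.coeff_smul, h4, smul_eq_mul, mul_one]
        obtain ⟨q, hqd, hq⟩ := ih (x - y) (sub_mem hx hy)
          (mem_Pl_pred (Submodule.sub_mem _ hx'' hy2) (by
            rw [HahnSeries.coeff_sub, hy3, sub_self]))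
        refine ⟨q + Pi.single (n : ZMod d) (C (x.coeff (-(n : ℤ))) * X ^ k), fun i => ?_, ?_⟩
        · rw [Pi.add_apply]
          refine (natDegree_add_le _ _).trans (max_le ((hqd i).trans (by omega)) ?_)
          by_cases hi : i = (n : ZMod d)
          · rw [hi, Pi.single_eq_same]
            exact (natDegree_C_mul_X_pow_le _ _).trans (by omega)
          · rw [Pi.single_eq_of_ne hi, natDegree_zero]
            exact Nat.zero_le _
        · have h5 : x = (x - y) + y := by abel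
          conv_lhs => rw [h5, hq]
          have h6 : ∀ i, ev d ((q + Pi.single (n : ZMod d)
              (C (x.coeff (-(n : ℤ))) * X ^ k) : ZMod d → κ[X]) i) * e i =
                ev d (q i) * e i + if i = (n : ZMod d) then y else 0 := by
            intro i
            rw [Pi.add_apply, map_add, add_mul]
            congr 1
            by_cases hi : i = (n : ZMod d)
            · rw [if_pos hi, hi, Pi.single_eq_same]
            · rw [if_neg hi, Pi.single_eq_of_ne hi, map_zero, zero_mul]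
          rw [Finset.sum_congr rfl fun i _ => h6 i, Finset.sum_add_distrib, Finset.sum_ite_eq',
            if_pos (Finset.mem_univ _)]
  intro m x hx hx'
  obtain ⟨q, hq, hq'⟩ := key (m + 1) x hx (by
    have h1 : ((m + 1 : ℕ) : ℤ) - 1 = m := by push_cast; ring
    rw [h1]
    exact hx')
  refine ⟨fun i => q (sg d i), fun i => hq _, ?_⟩
  rw [hss]
  exact hq'

end

end bases

/-! ### Ranks -/

section rank

theorem rank_fac {K : Type} [Field K] {m n r : ℕ} (M : Matrix (Fin m) (Fin n) K) :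
    M.rank = r ↔ ∃ (A : Matrix (Fin m) (Fin r) K) (B : Matrix (Fin r) (Fin n) K)
      (C : Matrix (Fin r) (Fin m) K) (D : Matrix (Fin n) (Fin r) K),
      M = A * B ∧ C * A = 1 ∧ B * D = 1 := by
  constructor
  · intro h
    let T : (Fin n → K) →ₗ[K] (Fin m → K) := M.mulVecLin
    have hr : Module.finrank K (LinearMap.range T) = Module.finrank K (Fin r → K) := by
      rw [Module.finrank_fin_fun]
      exact h
    let E : LinearMap.range T ≃ₗ[K] (Fin r → K) := LinearEquiv.ofFinrankEq _ _ hr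
    let a : (Fin r → K) →ₗ[K] (Fin m → K) := (LinearMap.range T).subtype ∘ₗ E.symm.toLinearMap
    let b : (Fin n → K) →ₗ[K] (Fin r → K) := E.toLinearMap ∘ₗ T.rangeRestrict
    have hab : a ∘ₗ b = T := by
      ext1 i
      apply LinearMap.ext
      intro x
      simp [a, b]
    obtain ⟨c, hc⟩ := a.exists_leftInverse_of_injective (by
      rw [LinearMap.ker_eq_bot]
      exact (LinearMap.range T).injective_subtype.comp E.symm.injective)
    obtain ⟨e, he⟩ := b.exists_rightInverse_of_surjective (by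
      rw [LinearMap.range_eq_top]
      exact E.surjective.comp T.surjective_rangeRestrict)
    refine ⟨LinearMap.toMatrix' a, LinearMap.toMatrix' b, LinearMap.toMatrix' c,
      LinearMap.toMatrix' e, ?_, ?_, ?_⟩
    · have hT : T = Matrix.toLin' M := (Matrix.toLin'_apply' M).symm
      rw [← LinearMap.toMatrix'_comp, hab, hT, LinearMap.toMatrix'_toLin']
    · rw [← LinearMap.toMatrix'_comp, hc, LinearMap.toMatrix'_id]
    · rw [← LinearMap.toMatrix'_comp, he, LinearMap.toMatrix'_id]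
  · rintro ⟨A, B, C, D, rfl, h1, h2⟩
    apply le_antisymm
    · exact (Matrix.rank_mul_le_left A B).trans (Matrix.rank_le_width A)
    · have h3 : C * (A * B) * D = 1 := by
        rw [← Matrix.mul_assoc, h1, Matrix.one_mul, h2]
      have h4 := Matrix.rank_mul_le_left (C * (A * B)) D
      rw [h3, Matrix.rank_one, Fintype.card_fin] at h4
      exact h4.trans (Matrix.rank_mul_le_right _ _)

variable (𝒰 : Ultrafilter ℕ)

theorem mat_eq {R : ℕ → Type} [∀ n, CommRing (R n)] {l m : Type}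
    {M N : Matrix l m (∀ n, R n)} [Finite l] [Finite m]
    (h : ∀ᶠ n in (𝒰 : Filter ℕ), M.map (en R n) = N.map (en R n)) :
    M.map (umk 𝒰) = N.map (umk 𝒰) := by
  ext1 i j
  rw [Matrix.map_apply, Matrix.map_apply, umk_eq]
  filter_upwards [h] with n hn
  exact congrFun (congrFun hn i) j

theorem rank_ultra {K : ℕ → Type} [∀ n, Field (K n)] {m r : ℕ}
    (M : Matrix (Fin m) (Fin m) (∀ n, K n))
    (h : ∀ᶠ n in (𝒰 : Filter ℕ), (M.map (en K n)).rank = r) : (M.map (umk 𝒰)).rank = r := by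
  have h1 : ∀ n, ∃ (A : Matrix (Fin m) (Fin r) (K n)) (B : Matrix (Fin r) (Fin m) (K n))
      (C : Matrix (Fin r) (Fin m) (K n)) (D : Matrix (Fin m) (Fin r) (K n)),
      (M.map (en K n)).rank = r → M.map (en K n) = A * B ∧ C * A = 1 ∧ B * D = 1 := by
    intro n
    by_cases hn : (M.map (en K n)).rank = r
    · obtain ⟨A, B, C, D, h2⟩ := (rank_fac _).1 hn
      exact ⟨A, B, C, D, fun _ => h2⟩
    · exact ⟨0, 0, 0, 0, fun h => absurd h hn⟩
  choose A B C D h2 using h1
  let A' : Matrix (Fin m) (Fin r) (∀ n, K n) := Matrix.of fun i j n => A n i j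
  let B' : Matrix (Fin r) (Fin m) (∀ n, K n) := Matrix.of fun i j n => B n i j
  let C' : Matrix (Fin r) (Fin m) (∀ n, K n) := Matrix.of fun i j n => C n i j
  let D' : Matrix (Fin m) (Fin r) (∀ n, K n) := Matrix.of fun i j n => D n i j
  refine (rank_fac _).2 ⟨A'.map (umk 𝒰), B'.map (umk 𝒰), C'.map (umk 𝒰), D'.map (umk 𝒰),
    ?_, ?_, ?_⟩
  · rw [← Matrix.map_mul]
    apply mat_eq
    filter_upwards [h] with n hn
    rw [Matrix.map_mul]
    exact (h2 n hn).1
  · rw [← Matrix.map_mul, ← Matrix.map_one (umk 𝒰) (map_zero _) (map_one _)]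
    apply mat_eq
    filter_upwards [h] with n hn
    rw [Matrix.map_mul, Matrix.map_one _ (map_zero _) (map_one _)]
    exact (h2 n hn).2.1
  · rw [← Matrix.map_mul, ← Matrix.map_one (umk 𝒰) (map_zero _) (map_one _)]
    apply mat_eq
    filter_upwards [h] with n hn
    rw [Matrix.map_mul, Matrix.map_one _ (map_zero _) (map_one _)]
    exact (h2 n hn).2.2

end rank

/-! ### Discriminants and Gram matrices of ultraproducts -/

section ultra

open ZL

variable (𝒰 : Ultrafilter ℕ) {K : ℕ → Type} [∀ n, Field (K n)] {g d : ℕ}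
  {R : ∀ n, Subalgebra (K n) (LaurentSeries (K n))}

theorem zbas_ultra {N : ℕ} (hd : 0 < d) (hU : Kr g (UP 𝒰 R))
    {e : ∀ n, Fin d → LaurentSeries (K n)} (he : ∀ n, BB d N (R n) (e n))
    {E : Fin d → LaurentSeries (∀ n, K n)} (hE : ∀ i n, lmap (en K n) (E i) = e n i) :
    ZBas d (UP 𝒰 R) fun i => lmap (umk 𝒰) (E i) := by
  have : NeZero d := ⟨hd.ne'⟩
  apply zbas_of_spn hU
  refine ⟨fun i => (mem_UP' 𝒰).2 ⟨E _, rfl, fun n => by rw [hE]; exact (he n).bas.mem _⟩,
    fun x hx => ?_⟩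
  obtain ⟨Y, rfl, hY⟩ := (mem_UP' 𝒰).1 hx
  obtain ⟨m, hm⟩ := exists_low Y
  have h1 : ∀ n, lmap (en K n) Y ∈ Po (K n) m := fun n k hk => by
    rw [lmap_coeff, hm k hk, map_zero]
  choose q hq hq' using fun n => (he n).gen m _ (hY n) (h1 n)
  choose Q hQ using fun i => asm_pol (f := fun n => q n i) (N := m) (fun n => hq n i)
  refine ⟨fun i => (Q ((sg d).symm i)).map (umk 𝒰), ?_⟩
  have h2 : Y = ∑ i, zpol _ d (Q i) * E i := by
    apply ls_all
    intro n
    rw [map_sum, hq' n]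
    refine Finset.sum_congr rfl fun i _ => ?_
    rw [map_mul, lmap_zpol, hQ, hE]
  rw [h2, map_sum, ← Equiv.sum_comp (sg d).symm]
  refine Finset.sum_congr rfl fun i _ => ?_
  rw [map_mul, lmap_zpol]

theorem gram_ultra (hd : 0 < d) (hR : ∀ n, Kr g (R n)) (hz : ∀ n, zz (K n) d ∈ R n)
    (hU : Kr g (UP 𝒰 R)) (p : ∀ n, Matrix (Fin d) (Fin d) (K n)[X] → Prop)
    (hp : ∀ n (a G : Matrix (Fin d) (Fin d) (K n)[X]), IsUnit a.det → p n G →
      p n (a * G * a.transpose))
    (h : ∀ᶠ n in (𝒰 : Filter ℕ), ∃ (e : Fin d → LaurentSeries (K n))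
      (G : Matrix (Fin d) (Fin d) (K n)[X]), ZBas d (R n) e ∧ ZGram d e G ∧ p n G) :
    ∃ (E : Fin d → LaurentSeries (Ul 𝒰 K)) (G : Matrix (Fin d) (Fin d) (∀ n, K n)[X]),
      ZBas d (UP 𝒰 R) E ∧ ZGram d E (G.map (Polynomial.map (umk 𝒰))) ∧
      ∀ᶠ n in (𝒰 : Filter ℕ), p n (G.map (Polynomial.map (en K n))) := by
  choose e he using fun n => exists_BB hd (hR n) (hz n)
  choose E hE using fun i => asm_ls (f := fun n => e n i) (fun n => (he n).low i)
  have hB := zbas_ultra 𝒰 hd hU he hE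
  have h1 : ∀ n, ∃ G : Matrix (Fin d) (Fin d) (K n)[X],
      (∀ i j, (G i j).natDegree ≤ 2 * (2 * g + d)) ∧
      ((∃ (e : Fin d → LaurentSeries (K n)) (G : Matrix (Fin d) (Fin d) (K n)[X]),
        ZBas d (R n) e ∧ ZGram d e G ∧ p n G) → ZGram d (e n) G ∧ p n G) := by
    intro n
    by_cases hn : ∃ (e : Fin d → LaurentSeries (K n)) (G : Matrix (Fin d) (Fin d) (K n)[X]),
        ZBas d (R n) e ∧ ZGram d e G ∧ p n G
    · obtain ⟨e', G, h2, h3, h4⟩ := hn
      obtain ⟨a, ha, ha'⟩ := zchange hd (hR n) (he n).bas h2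
      have h5 := gram_change ha' h3
      refine ⟨_, fun i j => zpol_deg hd ?_, fun _ => ⟨h5, hp n a G ha h4⟩⟩
      rw [h5 i j]
      have h6 : e n i * e n j ∈ Po (K n) ((2 * (2 * g + d) : ℕ) : ℤ) :=
        fun m hm => mul_low ((he n).low i) ((he n).low j) m (by push_cast at hm ⊢; omega)
      intro m hm
      rw [pr0_coeff, h6 m hm, ite_self]
    · exact ⟨0, fun i j => by simp, fun h => absurd h hn⟩
  choose G hG hG' using h1
  choose H hH using fun i j => asm_pol (f := fun n => G n i j) (fun n => hG n i j)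
  refine ⟨_, Matrix.of H, hB, fun i j => ?_, ?_⟩
  · rw [Matrix.map_apply, Matrix.of_apply, ← lmap_zpol, ← map_mul, ← lmap_pr0]
    apply ls_eq
    filter_upwards [h] with n hn
    rw [lmap_zpol, hH, lmap_pr0, map_mul, hE, hE]
    exact (hG' n hn).1 i j
  · filter_upwards [h] with n hn
    have h2 : (Matrix.of H).map (Polynomial.map (en K n)) = G n := by
      ext1 i j
      exact hH i j n
    rw [h2]
    exact (hG' n hn).2

theorem umk_unit {c : ∀ n, K n} (h : ∀ n, c n ≠ 0) : IsUnit (umk 𝒰 c) := by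
  refine IsUnit.of_mul_eq_one (umk 𝒰 fun n => (c n)⁻¹) ?_
  rw [← map_mul, ← map_one (umk 𝒰)]
  congr 1
  funext n
  exact mul_inv_cancel₀ (h n)

theorem disc_ultra (hd : 0 < d) (hR : ∀ n, Kr g (R n)) (hz : ∀ n, zz (K n) d ∈ R n)
    (hU : Kr g (UP 𝒰 R)) {F : (Ul 𝒰 K)[X]} {f : ∀ n, (K n)[X]} (hF : UPol 𝒰 F f)
    (h : ∀ n, Disc d (R n) (f n)) : Disc d (UP 𝒰 R) F := by
  obtain ⟨E, G, hE, hG, hp⟩ := gram_ultra 𝒰 hd hR hz hU
    (fun n G => ∃ u : (K n)[X], IsUnit u ∧ G.det = u * f n) (by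
      rintro n a G ha ⟨u, hu, hdet⟩
      refine ⟨a.det * u * a.det, (ha.mul hu).mul ha, ?_⟩
      rw [Matrix.det_mul, Matrix.det_mul, Matrix.det_transpose, hdet]
      ring) (Filter.Eventually.of_forall fun n => h n)
  obtain ⟨F', rfl, hF'⟩ := of_upol 𝒰 hF
  have h1 : ∀ n, ∃ c : K n, c ≠ 0 ∧ ((∃ u : (K n)[X], IsUnit u ∧
      (G.map (Polynomial.map (en K n))).det = u * f n) →
      (G.map (Polynomial.map (en K n))).det = C c * f n) := by
    intro n
    by_cases hn : ∃ u : (K n)[X], IsUnit u ∧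
      (G.map (Polynomial.map (en K n))).det = u * f n
    · obtain ⟨u, hu, hu'⟩ := hn
      obtain ⟨c, hc, rfl⟩ := Polynomial.isUnit_iff.1 hu
      exact ⟨c, hc.ne_zero, fun _ => hu'⟩
    · exact ⟨1, one_ne_zero, fun h => absurd h hn⟩
  choose c hc hc' using h1
  refine ⟨E, _, hE, hG, C (umk 𝒰 c), isUnit_C.2 (umk_unit 𝒰 hc), ?_⟩
  have h2 : (G.map (Polynomial.map (umk 𝒰))).det = G.det.map (umk 𝒰) := by
    have h3 := RingHom.map_det (mapRingHom (umk 𝒰 : (∀ n, K n) →+* Ul 𝒰 K)) G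
    exact h3.symm
  rw [h2, ← map_C, ← Polynomial.map_mul]
  apply pol_eq
  filter_upwards [hp] with n hn
  rw [Polynomial.map_mul, map_C, hF' n]
  exact (RingHom.map_det (mapRingHom (en K n)) G).trans (hc' n hn)

theorem grk_ultra (hd : 0 < d) (hR : ∀ n, Kr g (R n)) (hz : ∀ n, zz (K n) d ∈ R n)
    (hU : Kr g (UP 𝒰 R)) {c : ∀ n, K n} {r : ℕ}
    (h : ∀ᶠ n in (𝒰 : Filter ℕ), GRk d (R n) (c n) r) : GRk d (UP 𝒰 R) (umk 𝒰 c) r := by
  obtain ⟨E, G, hE, hG, hp⟩ := gram_ultra 𝒰 hd hR hz hU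
    (fun n G => (G.map (Polynomial.eval (c n))).rank = r) (by
      intro n a G ha hG
      have h1 : (a * G * a.transpose).map (Polynomial.eval (c n)) =
          a.map (Polynomial.eval (c n)) * G.map (Polynomial.eval (c n)) *
            (a.map (Polynomial.eval (c n))).transpose := by
        have h2 := Matrix.map_mul (L := a * G) (M := a.transpose) (f := evalRingHom (c n))
        have h3 := Matrix.map_mul (L := a) (M := G) (f := evalRingHom (c n))
        rw [h3] at h2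
        exact h2
      have h4 : IsUnit (a.map (Polynomial.eval (c n))).det := by
        have h5 := ha.map (evalRingHom (c n))
        rw [RingHom.map_det] at h5
        exact h5
      rw [h1, Matrix.rank_mul_eq_left_of_isUnit_det _ _ (by rwa [Matrix.det_transpose]),
        Matrix.rank_mul_eq_right_of_isUnit_det _ _ h4]
      exact hG) h
  refine ⟨E, _, hE, hG, ?_⟩
  have h1 : (G.map (Polynomial.map (umk 𝒰))).map (Polynomial.eval (umk 𝒰 c)) =
      (G.map (Polynomial.eval c)).map (umk 𝒰) := by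
    ext1 i j
    simp only [Matrix.map_apply]
    rw [eval_map, eval₂_at_apply]
  rw [h1]
  apply rank_ultra
  filter_upwards [hp] with n hn
  have h2 : (G.map (Polynomial.map (en K n))).map (Polynomial.eval (c n)) =
      (G.map (Polynomial.eval c)).map (en K n) := by
    ext1 i j
    simp only [Matrix.map_apply]
    have h3 := eval₂_at_apply (p := G i j) (en K n) c
    rw [← eval_map] at h3
    exact h3
  rw [← h2]
  exact hn

/-- Bezout coefficients of bounded degree. -/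
theorem bezout {A : Type} [CommRing A] {f : A[X]} {D : ℕ} (hm : f.Monic) (hD : f.natDegree ≤ D)
    (h : f.Separable) : ∃ a b : A[X], a.natDegree ≤ 2 * D ∧ b.natDegree ≤ 2 * D ∧
      a * f + b * derivative f = 1 := by
  obtain ⟨a, b, hab⟩ := h
  have h1 := modByMonic_add_div b f
  have h2 : (a + (b /ₘ f) * derivative f) * f + (b %ₘ f) * derivative f = 1 := by
    rw [← hab]
    conv_rhs => rw [← h1]
    ring
  have h3 : (b %ₘ f).natDegree ≤ D := (natDegree_modByMonic_le b hm).trans hD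
  refine ⟨_, _, ?_, h3.trans (by omega), h2⟩
  by_cases h0 : a + (b /ₘ f) * derivative f = 0
  · rw [h0, natDegree_zero]
    exact Nat.zero_le _
  · have h4 := hm.natDegree_mul' h0
    have h5 : f * (a + (b /ₘ f) * derivative f) = 1 - (b %ₘ f) * derivative f := by
      rw [← h2]
      ring
    have h6 : (1 - (b %ₘ f) * derivative f).natDegree ≤ 2 * D := by
      refine (natDegree_sub_le _ _).trans (max_le (by simp) ?_)
      refine natDegree_mul_le.trans ?_
      have := natDegree_derivative_le f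
      omega
    rw [← h5, h4] at h6
    omega

theorem sep_ultra {F : (Ul 𝒰 K)[X]} {f : ∀ n, (K n)[X]} (hF : UPol 𝒰 F f)
    (hm : ∀ᶠ n in (𝒰 : Filter ℕ), (f n).Monic)
    (h : ∀ᶠ n in (𝒰 : Filter ℕ), (f n).Separable) : F.Separable := by
  obtain ⟨D, hD⟩ := hF.1
  obtain ⟨F', rfl, hF'⟩ := of_upol 𝒰 hF
  have h1 : ∀ n, ∃ a b : (K n)[X], a.natDegree ≤ 2 * D ∧ b.natDegree ≤ 2 * D ∧
      ((f n).Monic ∧ (f n).Separable → a * f n + b * derivative (f n) = 1) := by
    intro n
    by_cases hn : (f n).Monic ∧ (f n).Separable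
    · obtain ⟨a, b, h1, h2, h3⟩ := bezout hn.1 (hD n) hn.2
      exact ⟨a, b, h1, h2, fun _ => h3⟩
    · exact ⟨0, 0, by simp, by simp, fun h => absurd h hn⟩
  choose a b ha hb hab using h1
  obtain ⟨A, hA⟩ := asm_pol ha
  obtain ⟨B, hB⟩ := asm_pol hb
  refine ⟨A.map (umk 𝒰), B.map (umk 𝒰), ?_⟩
  rw [derivative_map, ← Polynomial.map_mul, ← Polynomial.map_mul, ← Polynomial.map_add,
    ← Polynomial.map_one (umk 𝒰)]
  apply pol_eq
  filter_upwards [hm, h] with n hn hn'
  rw [Polynomial.map_one, Polynomial.map_add, Polynomial.map_mul, Polynomial.map_mul,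
    ← derivative_map, hA, hB, hF']
  exact hab n ⟨hn, hn'⟩

theorem dbl_ultra {F : (Ul 𝒰 K)[X]} {f : ∀ n, (K n)[X]} (hF : UPol 𝒰 F f)
    (hm : ∀ n, (f n).Monic) {c : ∀ n, K n}
    (h : ∀ᶠ n in (𝒰 : Filter ℕ), Dbl (f n) (c n)) : Dbl F (umk 𝒰 c) := by
  obtain ⟨D, hD⟩ := hF.1
  obtain ⟨F', rfl, hF'⟩ := of_upol 𝒰 hF
  have h1 : ∀ n, ∃ h : (K n)[X], h.natDegree ≤ D ∧ (Dbl (f n) (c n) →
      f n = (X - C (c n)) ^ 2 * h ∧ h.eval (c n) ≠ 0 ∧ h.Separable ∧ h.Monic) := by
    intro n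
    by_cases hn : Dbl (f n) (c n)
    · obtain ⟨h, h2, h3, h4⟩ := hn
      have h5 : ((X - C (c n)) ^ 2 : (K n)[X]).Monic := (monic_X_sub_C _).pow 2
      have h6 : h.Monic := h5.of_mul_monic_left (h2 ▸ hm n)
      refine ⟨h, ?_, fun _ => ⟨h2, h3, h4, h6⟩⟩
      have h7 := hD n
      rw [h2, h5.natDegree_mul h6] at h7
      omega
    · exact ⟨0, by simp, fun h => absurd h hn⟩
  choose k hk hk' using h1
  obtain ⟨H, hH⟩ := asm_pol hk
  refine ⟨H.map (umk 𝒰), ?_, ?_, ?_⟩
  · have h2 : (X - C (umk 𝒰 c)) ^ 2 * H.map (umk 𝒰) = ((X - C c) ^ 2 * H).map (umk 𝒰) := by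
      rw [Polynomial.map_mul, Polynomial.map_pow, Polynomial.map_sub, map_X, map_C]
    rw [h2]
    apply pol_eq
    filter_upwards [h] with n hn
    rw [Polynomial.map_mul, Polynomial.map_pow, Polynomial.map_sub, map_X, map_C, hF', hH]
    exact (hk' n hn).1
  · rw [eval_upol 𝒰 (upol_of 𝒰 H), ne_eq, umk_eq_zero]
    intro h2
    obtain ⟨n, h3, h4⟩ := (h2.and h).exists
    rw [hH] at h3
    exact (hk' n h4).2.1 h3
  · refine sep_ultra 𝒰 (upol_of 𝒰 H) ?_ ?_
    · filter_upwards [h] with n hn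
      rw [hH]
      exact (hk' n hn).2.2.2
    · filter_upwards [h] with n hn
      rw [hH]
      exact (hk' n hn).2.2.1

end ultra

end UMD

open UMD ZL

/-- UMD (PAPER U1): the ultraproduct of models is a model, of the same type. -/
theorem t_UMD (hKBC : Stmt_KBC) (hULR : Stmt_ULR) (hUKR : Stmt_UKR) : Stmt_UMD := by
  intro 𝒰 k O L _ _ _ _ _ _ g d R M hg hd
  have hd0 : 0 < d := hd
  have : NeZero d := ⟨hd0.ne'⟩
  obtain ⟨u1, u2, u3, -, -, -, u7⟩ := hULR 𝒰
  have hdom : IsDomain (Ul 𝒰 O) := u1 O fun n => inferInstance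
  have hval : ValuationRing (Ul 𝒰 O) := u3 O (fun n => (M n).val) hdom
  have hfrac := u7 O L fun n => (M n).frac
  have hKrL : ∀ n, Kr g (R n) := fun n => (M n).bc ▸ kr_bc hKBC (M n).kr _
  have hzL : ∀ n, zz (L n) d ∈ R n := fun n => (M n).bc ▸ zz_mem_bc (M n).z _
  have hKrk : ∀ n, Kr g (M n).Pb := fun n => kr_bc hKBC (M n).kr _
  have hzk : ∀ n, zz (k n) d ∈ (M n).Pb := fun n => zz_mem_bc (M n).z _
  obtain ⟨hUP, -, -, hUbc, -, hUz⟩ := hUKR 𝒰 (fun n => (M n).P) hg fun n => (M n).kr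
  have hUR := (hUKR 𝒰 R hg hKrL).1
  have hUk := (hUKR 𝒰 (fun n => (M n).Pb) hg hKrk).1
  have hdeg : ∀ n, (M n).f.natDegree = 2 * g + d - 1 := fun n => by
    have := (M n).deg
    omega
  obtain ⟨F, hF⟩ := exists_upol 𝒰 (f := fun n => (M n).f) (N := 2 * g + d - 1)
    fun n => (hdeg n).le
  obtain ⟨hF1, hF2, hF3⟩ := upol_monic 𝒰 hF (fun n => (M n).monic) hdeg
  have hFL := upol_map 𝒰 (fun n => algebraMap (O n) (L n)) hF
  have hFk := upol_map 𝒰 (fun n => ((M n).rs : O n →+* k n)) hF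
  have hmL : ∀ n, ((M n).f.map (algebraMap (O n) (L n))).Monic := fun n => (M n).monic.map _
  have hmk : ∀ n, (M n).fb.Monic := fun n => (M n).monic.map _
  let _ : Algebra (Ul 𝒰 k) (Ul 𝒰 O) := (umap 𝒰 fun n => algebraMap (k n) (O n)).toAlgebra
  let _ : Algebra (Ul 𝒰 O) (Ul 𝒰 L) := (umap 𝒰 fun n => algebraMap (O n) (L n)).toAlgebra
  let rs : Ul 𝒰 O →ₐ[Ul 𝒰 k] Ul 𝒰 k :=
    { umap 𝒰 fun n => ((M n).rs : O n →+* k n) with
      commutes' := fun x => by
        obtain ⟨x, rfl⟩ := umk_surj 𝒰 x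
        change umk 𝒰 (fun n => (M n).rs (algebraMap (k n) (O n) (x n))) = umk 𝒰 x
        congr 1
        funext n
        exact (M n).rs.commutes (x n) }
  have hrs : ∀ x : ∀ n, O n, rs (umk 𝒰 x) = umk 𝒰 fun n => (M n).rs (x n) := fun x => rfl
  let M' : Mdl (Ul 𝒰 k) (Ul 𝒰 O) (Ul 𝒰 L) g d (UP 𝒰 R) :=
    { rs := rs
      π := umk 𝒰 fun n => (M n).π
      ne := fun h => by
        rw [umk_eq_zero] at h
        obtain ⟨n, hn⟩ := h.exists
        exact (M n).ne hn
      ker := fun x hx => by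
        obtain ⟨x, rfl⟩ := umk_surj 𝒰 x
        rw [hrs, umk_eq_zero] at hx
        have h1 : ∀ n, ∃ y, (M n).rs (x n) = 0 → x n = (M n).π * y := fun n => by
          by_cases h : (M n).rs (x n) = 0
          · obtain ⟨y, hy⟩ := (M n).ker _ h
            exact ⟨y, fun _ => hy⟩
          · exact ⟨0, fun h' => absurd h' h⟩
        choose y hy using h1
        refine ⟨umk 𝒰 y, ?_⟩
        rw [← map_mul, umk_eq]
        filter_upwards [hx] with n hn
        exact hy n hn
      rsπ := by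
        rw [hrs, umk_eq_zero]
        exact Filter.Eventually.of_forall fun n => (M n).rsπ
      unit := fun x hx => by
        obtain ⟨x, rfl⟩ := umk_surj 𝒰 x
        rw [hrs, ne_eq, umk_eq_zero, ← Ultrafilter.eventually_not] at hx
        rw [u2]
        filter_upwards [hx] with n hn
        exact (M n).unit _ hn
      P := UP 𝒰 fun n => (M n).P
      f := F
      val := hval
      frac := hfrac
      kr := hUP
      z := hUz d fun n => (M n).z
      bc := (hUbc fun n => algebraMap (O n) (L n)).symm.trans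
        (congrArg (UP 𝒰) (funext fun n => (M n).bc))
      monic := hF1
      deg := by
        have h1 : F.natDegree = 2 * g + d - 1 :=
          natDegree_eq_of_le_of_coeff_ne_zero hF2 (by rw [hF3]; exact one_ne_zero)
        omega
      disc := disc_ultra 𝒰 hd0 hKrL hzL hUR hFL fun n => (M n).disc
      sep := sep_ultra 𝒰 hFL (Filter.Eventually.of_forall hmL)
        (Filter.Eventually.of_forall fun n => (M n).sep) }
  have hPb : M'.Pb = UP 𝒰 fun n => (M n).Pb := (hUbc fun n => ((M n).rs : O n →+* k n)).symm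
  have hfb : UPol 𝒰 M'.fb fun n => (M n).fb := hFk
  refine ⟨hdom, M', hrs, rfl, rfl, hF, fun h => ?_, fun h => ?_⟩
  · rcases (Ultrafilter.eventually_or).1 h with h | h
    · exact Or.inl (sep_ultra 𝒰 hfb (Filter.Eventually.of_forall hmk) h)
    · have h1 : ∀ n, ∃ c : k n, (∃ c : k n, Dbl (M n).fb c ∧ GRk d (M n).Pb c (d - 2)) →
          Dbl (M n).fb c ∧ GRk d (M n).Pb c (d - 2) := fun n => by
        by_cases hn : ∃ c : k n, Dbl (M n).fb c ∧ GRk d (M n).Pb c (d - 2)
        · obtain ⟨c, hc⟩ := hn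
          exact ⟨c, fun _ => hc⟩
        · exact ⟨0, fun h => absurd h hn⟩
      choose c hc using h1
      refine Or.inr ⟨umk 𝒰 c, dbl_ultra 𝒰 hfb hmk ?_, ?_⟩
      · filter_upwards [h] with n hn
        exact (hc n hn).1
      · rw [hPb]
        refine grk_ultra 𝒰 hd0 hKrk hzk hUk ?_
        filter_upwards [h] with n hn
        exact (hc n hn).2
  · have h1 : ∀ n, ∃ (c : k n) (s₀ u : O n) (h : (O n)[X]), h.natDegree ≤ 2 * g + d ∧
        ((M n).Nod → Dbl (M n).fb c ∧ GRk d (M n).Pb c (d - 1) ∧ (M n).rs s₀ = c ∧ IsUnit u ∧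
          (M n).f = ((X - C s₀) ^ 2 - C ((M n).π ^ 2 * u)) * h ∧
          (h.map ((M n).rs : O n →+* k n)).eval c ≠ 0) := fun n => by
      by_cases hn : (M n).Nod
      · obtain ⟨c, s₀, u, h, h1, h2, h3, h4, h5, h6⟩ := hn
        refine ⟨c, s₀, u, h, ?_, fun _ => ⟨h1, h2, h3, h4, h5, h6⟩⟩
        have h7 : ((X - C s₀) ^ 2 - C ((M n).π ^ 2 * u)).Monic := by
          refine ((monic_X_sub_C s₀).pow 2).sub_of_left ?_
          refine lt_of_le_of_lt degree_C_le ?_
          rw [degree_pow, degree_X_sub_C]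
          decide
        have h8 : h.Monic := h7.of_mul_monic_left (h5 ▸ (M n).monic)
        have h9 := hdeg n
        rw [h5, h7.natDegree_mul h8] at h9
        omega
      · exact ⟨0, 0, 0, 0, by simp, fun h => absurd h hn⟩
    choose c s₀ u h2 h3 h4 using h1
    obtain ⟨H, hH⟩ := asm_pol h3
    have hH' : UPol 𝒰 (H.map (umk 𝒰)) h2 := by
      have h5 := upol_of 𝒰 H
      simpa only [hH] using h5
    obtain ⟨F', hF', hF''⟩ := of_upol 𝒰 hF
    refine ⟨umk 𝒰 c, umk 𝒰 s₀, umk 𝒰 u, H.map (umk 𝒰), dbl_ultra 𝒰 hfb hmk ?_, ?_, ?_, ?_, ?_,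
      ?_⟩
    · filter_upwards [h] with n hn
      exact (h4 n hn).1
    · rw [hPb]
      refine grk_ultra 𝒰 hd0 hKrk hzk hUk ?_
      filter_upwards [h] with n hn
      exact (h4 n hn).2.1
    · rw [hrs, umk_eq]
      filter_upwards [h] with n hn
      exact (h4 n hn).2.2.1
    · rw [u2]
      filter_upwards [h] with n hn
      exact (h4 n hn).2.2.2.1
    · have h5 : ((X - C (umk 𝒰 s₀)) ^ 2 - C (M'.π ^ 2 * umk 𝒰 u)) * H.map (umk 𝒰) =
          (((X - C s₀) ^ 2 - C ((fun n => (M n).π) ^ 2 * u)) * H).map (umk 𝒰) := by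
        have h6 : umk 𝒰 ((fun n => (M n).π) ^ 2 * u) = M'.π ^ 2 * umk 𝒰 u := by
          rw [map_mul, map_pow]
        rw [Polynomial.map_mul, Polynomial.map_sub, Polynomial.map_pow, Polynomial.map_sub, map_X,
          map_C, map_C, h6]
      rw [h5]
      refine hF'.symm.trans ?_
      apply pol_eq
      filter_upwards [h] with n hn
      rw [hF'', Polynomial.map_mul, Polynomial.map_sub, Polynomial.map_pow, Polynomial.map_sub,
        map_X, map_C, map_C, hH]
      exact (h4 n hn).2.2.2.2.1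
    · have h5 := upol_map 𝒰 (fun n => ((M n).rs : O n →+* k n)) hH'
      have h6 := eval_upol 𝒰 h5 c
      intro h7
      have h8 : umk 𝒰 (fun n => ((h2 n).map ((M n).rs : O n →+* k n)).eval (c n)) = 0 :=
        h6.symm.trans h7
      rw [umk_eq_zero] at h8
      obtain ⟨n, h9, h10⟩ := (h8.and h).exists
      exact (h4 n h10).2.2.2.2.2 h9

end Pool.Agent.MG.G0
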