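import Pool.Agent.MG.G0.Model

/-!
# Ultraproducts of rings and of Krichever rings: definitions
-/

open Polynomial

namespace Pool.Agent.MG.G0

section rings

variable (𝒰 : Ultrafilter ℕ) (R : ℕ → Type) [∀ n, CommRing (R n)]

/-- The ideal of the families which are zero almost everywhere. -/
def ulI : Ideal (∀ n, R n) where
  carrier := {f | ∀ᶠ n in (𝒰 : Filter ℕ), f n = 0}
  add_mem' {f g} hf hg := by
    filter_upwards [hf, hg] with n h1 h2
    rw [Pi.add_apply, h1, h2, add_zero]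
  zero_mem' := Filter.Eventually.of_forall fun _ => rfl
  smul_mem' c f hf := by
    filter_upwards [hf] with n h
    rw [Pi.smul_apply', h, smul_zero]

/-- The ultraproduct. -/
abbrev Ul : Type := (∀ n, R n) ⧸ ulI 𝒰 R

variable {R}

/-- The class of a family. -/
def umk : (∀ n, R n) →+* Ul 𝒰 R := Ideal.Quotient.mk (ulI 𝒰 R)

theorem umk_surj : Function.Surjective (umk 𝒰 : (∀ n, R n) →+* Ul 𝒰 R) :=
  Ideal.Quotient.mk_surjective

theorem umk_eq {f g : ∀ n, R n} : umk 𝒰 f = umk 𝒰 g ↔ ∀ᶠ n in (𝒰 : Filter ℕ), f n = g n := by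
  rw [umk, Ideal.Quotient.eq]
  change (∀ᶠ n in (𝒰 : Filter ℕ), f n - g n = 0) ↔ _
  simp only [sub_eq_zero]

theorem umk_eq_zero {f : ∀ n, R n} : umk 𝒰 f = 0 ↔ ∀ᶠ n in (𝒰 : Filter ℕ), f n = 0 := by
  rw [← map_zero (umk 𝒰), umk_eq]
  rfl

/-- The homomorphism of ultraproducts. -/
def umap {S : ℕ → Type} [∀ n, CommRing (S n)] (φ : ∀ n, R n →+* S n) : Ul 𝒰 R →+* Ul 𝒰 S :=
  Ideal.Quotient.lift (ulI 𝒰 R) ((umk 𝒰).comp (RingHom.pi fun n => (φ n).comp (Pi.evalRingHom R n)))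
    fun f hf => by
      rw [RingHom.comp_apply, umk_eq_zero]
      filter_upwards [show ∀ᶠ n in (𝒰 : Filter ℕ), f n = 0 from hf] with n h
      change φ n (f n) = 0
      rw [h, map_zero]

@[simp] theorem umap_umk {S : ℕ → Type} [∀ n, CommRing (S n)] (φ : ∀ n, R n →+* S n)
    (f : ∀ n, R n) : umap 𝒰 φ (umk 𝒰 f) = umk 𝒰 (fun n => φ n (f n)) := rfl

end rings

section fields

variable (𝒰 : Ultrafilter ℕ) (K : ℕ → Type) [∀ n, Field (K n)]

instance ulI_max : (ulI 𝒰 K).IsMaximal := by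
  refine Ideal.Quotient.maximal_of_isField _ ⟨⟨0, 1, ?_⟩, mul_comm, ?_⟩
  · intro h
    have h1 : umk 𝒰 (0 : ∀ n, K n) = umk 𝒰 1 := h
    rw [umk_eq] at h1
    obtain ⟨n, hn⟩ := h1.exists
    exact zero_ne_one hn
  · intro a ha
    obtain ⟨f, rfl⟩ := umk_surj 𝒰 a
    refine ⟨umk 𝒰 fun n => (f n)⁻¹, ?_⟩
    rw [← map_mul, ← map_one (umk 𝒰), umk_eq]
    have h1 : ¬ ∀ᶠ n in (𝒰 : Filter ℕ), f n = 0 := fun h => ha ((umk_eq_zero 𝒰).2 h)
    rw [← Ultrafilter.eventually_not] at h1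
    filter_upwards [h1] with n hn
    exact mul_inv_cancel₀ hn

noncomputable instance ulField : Field (Ul 𝒰 K) := Ideal.Quotient.field (ulI 𝒰 K)

end fields

section series

variable (𝒰 : Ultrafilter ℕ) {R : ℕ → Type} [∀ n, CommRing (R n)]

/-- The series `F` over the ultraproduct is the class of the family `f` of series. -/
def USer (F : LaurentSeries (Ul 𝒰 R)) (f : ∀ n, LaurentSeries (R n)) : Prop :=
  (∃ N : ℤ, ∀ n, f n ∈ Po (R n) N) ∧ ∀ m : ℤ, F.coeff m = umk 𝒰 fun n => (f n).coeff m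

theorem USer.exists (F : LaurentSeries (Ul 𝒰 R)) : ∃ f : ∀ n, LaurentSeries (R n),
    USer 𝒰 F f := by
  obtain ⟨N, hN⟩ := exists_low F
  choose c hc using fun m : ℤ => umk_surj 𝒰 (F.coeff m)
  refine ⟨fun n => ⟨fun m => if m < -(N : ℤ) then 0 else c m n, ?_⟩, ⟨N, fun n m hm => ?_⟩,
    fun m => ?_⟩
  · refine (Set.IsPWO.mono (t := Set.Ici (-(N : ℤ))) ?_ fun m hm => ?_)
    · exact (BddBelow.isWF ⟨_, fun _ h => h⟩).isPWO
    · by_contra h
      rw [Set.mem_Ici, not_le] at h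
      exact hm (if_pos h)
  · exact if_pos hm
  · by_cases h : m < -(N : ℤ)
    · rw [hN m h]
      symm
      rw [umk_eq_zero]
      exact Filter.Eventually.of_forall fun n => if_pos h
    · rw [← hc m, umk_eq]
      exact Filter.Eventually.of_forall fun n => (if_neg h).symm

theorem USer.add {F G : LaurentSeries (Ul 𝒰 R)} {f g : ∀ n, LaurentSeries (R n)}
    (h : USer 𝒰 F f) (k : USer 𝒰 G g) : USer 𝒰 (F + G) (fun n => f n + g n) := by
  obtain ⟨⟨N, hN⟩, h1⟩ := h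
  obtain ⟨⟨M, hM⟩, k1⟩ := k
  refine ⟨⟨max N M, fun n m hm => ?_⟩, fun m => ?_⟩
  · rw [HahnSeries.coeff_add, hN n m (by omega), hM n m (by omega), add_zero]
  · rw [HahnSeries.coeff_add, h1, k1, ← map_add]
    rfl

theorem USer.mul {F G : LaurentSeries (Ul 𝒰 R)} {f g : ∀ n, LaurentSeries (R n)}
    (h : USer 𝒰 F f) (k : USer 𝒰 G g) : USer 𝒰 (F * G) (fun n => f n * g n) := by
  obtain ⟨⟨N, hN⟩, h1⟩ := h
  obtain ⟨⟨M, hM⟩, k1⟩ := k
  have hF : ∀ m < -N, F.coeff m = 0 := fun m hm => by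
    rw [h1, umk_eq_zero]
    exact Filter.Eventually.of_forall fun n => hN n m hm
  have hG : ∀ m < -M, G.coeff m = 0 := fun m hm => by
    rw [k1, umk_eq_zero]
    exact Filter.Eventually.of_forall fun n => hM n m hm
  refine ⟨⟨N + M, fun n m hm => mul_low (hN n) (hM n) m (by omega)⟩, fun m => ?_⟩
  rw [coeff_mul_Icc hF hG]
  simp only [h1, k1, ← map_mul, ← map_sum]
  congr 1
  funext n
  rw [coeff_mul_Icc (hN n) (hM n), Finset.sum_apply]
  rfl

/-- The ultraproduct of subalgebras of `R((τ))`: the classes of families with bounded poles. -/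
def UP (P : ∀ n, Subalgebra (R n) (LaurentSeries (R n))) :
    Subalgebra (Ul 𝒰 R) (LaurentSeries (Ul 𝒰 R)) where
  carrier := {F | ∃ f : ∀ n, LaurentSeries (R n), USer 𝒰 F f ∧ ∀ n, f n ∈ P n}
  mul_mem' := by
    rintro F G ⟨f, h, hf⟩ ⟨g, k, hg⟩
    exact ⟨_, h.mul 𝒰 k, fun n => mul_mem (hf n) (hg n)⟩
  add_mem' := by
    rintro F G ⟨f, h, hf⟩ ⟨g, k, hg⟩
    exact ⟨_, h.add 𝒰 k, fun n => add_mem (hf n) (hg n)⟩
  algebraMap_mem' a := by
    obtain ⟨c, rfl⟩ := umk_surj 𝒰 a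
    refine ⟨fun n => algebraMap (R n) _ (c n), ⟨⟨0, fun n m hm => ?_⟩, fun m => ?_⟩,
      fun n => (P n).algebraMap_mem _⟩
    · rw [coeff_algebraMap, if_neg (by omega)]
    · rw [coeff_algebraMap]
      simp only [coeff_algebraMap]
      split_ifs with h
      · rfl
      · exact (map_zero (umk 𝒰)).symm

theorem mem_UP {P : ∀ n, Subalgebra (R n) (LaurentSeries (R n))}
    {F : LaurentSeries (Ul 𝒰 R)} : F ∈ UP 𝒰 P ↔
      ∃ f : ∀ n, LaurentSeries (R n), USer 𝒰 F f ∧ ∀ n, f n ∈ P n := Iff.rfl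

/-- The polynomial `F` over the ultraproduct is the class of the family `f` of polynomials. -/
def UPol (F : (Ul 𝒰 R)[X]) (f : ∀ n, (R n)[X]) : Prop :=
  (∃ N : ℕ, ∀ n, (f n).natDegree ≤ N) ∧ ∀ m : ℕ, F.coeff m = umk 𝒰 fun n => (f n).coeff m

end series

end Pool.Agent.MG.G0
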